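import Mathlib
import Pool.Agent.Work.TreeRAM.Clock
import Pool.Agent.Work.TreeRAM.Nat
import Pool.Agent.Work.TreeRAM.List
import Pool.Agent.Work.MP_8d07ed_lc.Stmt

/-! Bundle of small proof modules (one section per former module). -/

section

/-!
# Adding the clock

A program is run with the clock `C0 * f x`, where `f x` is computed by a given program within
a number of steps proportional to `f x + 1`.
-/

set_option autoImplicit false

namespace Pool.Agent.BiFac

open Pool.Agent.TreeRAM

private theorem clocked_mulC (C0 : ℕ) : ∃ (q : Prog) (C : ℕ), ∀ (K : Type) [Field K] (n : ℕ),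
    RunLe q (enc K n) (enc K (C0 * n)) (C * (n + 1)) := by
  obtain ⟨c, hc⟩ := mulN_ex
  refine ⟨.seq (.pair (Cd.const (PT.ofNat C0)).p .id) c.p,
    (Cd.const (PT.ofNat C0)).k + 3 + c.k * (C0 + 1), fun K _ n => ?_⟩
  have h1 : RunLe (Cd.const (PT.ofNat C0)).p (enc K n) (enc K C0)
      ((Cd.const (PT.ofNat C0)).k * (0 + 1)) :=
    (Comp.natLit (K := K) (α := ℕ) C0).run n
  have h2 : RunLe (.pair (Cd.const (PT.ofNat C0)).p .id) (enc K n) (enc K (C0, n))
      ((Cd.const (PT.ofNat C0)).k * (0 + 1) + 1 + 1) := h1.pair (RunLe.id _)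
  have h3 := (hc K).run (C0, n)
  refine (h2.seq h3).mono ?_
  have e1 : c.k * (C0 * (n + 1) + 1) ≤ c.k * ((C0 + 1) * (n + 1)) := by
    refine Nat.mul_le_mul_left _ ?_
    rw [add_mul]
    omega
  have e2 : ((Cd.const (PT.ofNat C0)).k + 3 + c.k * (C0 + 1)) * (n + 1) =
      ((Cd.const (PT.ofNat C0)).k + 3) * (n + 1) + c.k * ((C0 + 1) * (n + 1)) := by ring
  have e3 : ((Cd.const (PT.ofNat C0)).k + 3) * 1 ≤ ((Cd.const (PT.ofNat C0)).k + 3) * (n + 1) :=
    Nat.mul_le_mul_left _ (by omega)
  show (Cd.const (PT.ofNat C0)).k * (0 + 1) + 1 + 1 + c.k * (C0 * (n + 1) + 1) + 1 ≤ _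
  omega

/-- **Adding the clock**: the program `P'` always stops within `C * (f x + 1)` steps, and it
returns the result of `P` if `P` needs at most `C0 * f x` steps. -/
theorem exists_clocked (P : Prog) (b : Cd) (C0 : ℕ) : ∃ (P' : Prog) (C : ℕ),
    ∀ (K : Type) [Field K] (α : Type) [Enc K α] (f : α → ℕ), Comp K f b f →
    ∀ (x : α) (y : D K) (t : ℕ), Run P (enc K x) y t →
      (∃ (y' : D K) (t' : ℕ), Run P' (enc K x) y' t' ∧ t' ≤ C * (f x + 1)) ∧
      (t ≤ C0 * f x → ∃ t', Run P' (enc K x) y t') := by
  obtain ⟨p', Cp, hp⟩ := clock P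
  obtain ⟨q, Cq, hq⟩ := clocked_mulC C0
  refine ⟨.seq (.pair .id (.seq b.p q)) (.seq p' (.cond .id .fst .nil)),
    b.k + Cq + Cp * (C0 + 1) + 20, ?_⟩
  intro K _ α _ f hf x y t hr
  have h1 : RunLe (.pair .id (.seq b.p q)) (enc K x) (.pair (enc K x) (enc K (C0 * f x)))
      (1 + (b.k * (f x + 1) + Cq * (f x + 1) + 1) + 1) :=
    (RunLe.id _).pair ((hf.run x).seq (hq K (f x)))
  obtain ⟨g1, g2⟩ := hp K (enc K x) y t (C0 * f x) hr
  have main : ∀ s, s ≤ C0 * f x →
      1 + (b.k * (f x + 1) + Cq * (f x + 1) + 1) + 1 + (Cp * (s + 1) + 3 + 1) + 1 ≤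
        (b.k + Cq + Cp * (C0 + 1) + 20) * (f x + 1) := by
    intro s hs
    have e1 : Cp * (s + 1) ≤ Cp * ((C0 + 1) * (f x + 1)) := by
      refine Nat.mul_le_mul_left _ ?_
      have : (C0 + 1) * (f x + 1) = C0 * f x + C0 + f x + 1 := by ring
      omega
    have e2 : (b.k + Cq + Cp * (C0 + 1) + 20) * (f x + 1) =
        b.k * (f x + 1) + Cq * (f x + 1) + Cp * ((C0 + 1) * (f x + 1)) + 20 * (f x + 1) := by
      ring
    omega
  rcases Nat.lt_or_ge (C0 * f x) t with hlt | hle
  · have h3 := h1.seq ((g2 hlt).seq (RunLe.cond_false (p := Prog.fst) (RunLe.id _)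
      (RunLe.nil _)))
    obtain ⟨t', ht', hr'⟩ := h3
    exact ⟨⟨_, t', hr', ht'.trans (main _ le_rfl)⟩, fun h => absurd h (by omega)⟩
  · have h3 := h1.seq ((g1 hle).seq (RunLe.cond_true (q := Prog.nil) (RunLe.id _)
      (RunLe.fst _ _)))
    obtain ⟨t', ht', hr'⟩ := h3
    exact ⟨⟨_, t', hr', ht'.trans (main _ hle)⟩, fun _ => ⟨t', hr'⟩⟩

end Pool.Agent.BiFac

end

section

/-!
# Basic definitions for the factorisation of bivariate polynomials

`K[X][X]` is the ring `K[x][y]`: the outer variable is `y`, the inner one is `x`.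
-/

set_option autoImplicit false

namespace Pool.Agent.BiFac

open Polynomial

/-- The total degree of `F` is at most `n`. -/
def TDeg {K : Type} [Field K] (n : ℕ) (F : K[X][X]) : Prop :=
  ∀ i j, n < i + j → (F.coeff j).coeff i = 0

/-- `F(0, y)`. -/
noncomputable def red {K : Type} [Field K] : K[X][X] →+* K[X] := mapRingHom (evalRingHom 0)

/-- Congruence modulo `x ^ w`. -/
def Cg {K : Type} [Field K] (w : ℕ) (F G : K[X][X]) : Prop := C (X ^ w) ∣ F - G

/-- The trace of `h` in `K[x][y] / (P)`: the coefficient of `y ^ (n - 1)` in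
`h * P' mod P`, where `n` is the degree of the monic polynomial `P`. -/
noncomputable def tau {K : Type} [Field K] (P h : K[X][X]) : K[X] :=
  ((h * derivative P) %ₘ P).coeff (P.natDegree - 1)

/-- The trace of `h * e_μ`. -/
noncomputable def Smu {K : Type} [Field K] {r : ℕ} (P : Fin r → K[X][X]) (μ : Fin r → K)
    (h : K[X][X]) : K[X] := ∑ i, C (μ i) * tau (P i) h

/-- The numerator `G_μ = ∑ μ_i P_i' ∏_{j ≠ i} P_j`. -/
noncomputable def Gmu {K : Type} [Field K] {r : ℕ} (P : Fin r → K[X][X]) (μ : Fin r → K) :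
    K[X][X] := ∑ i, C (C (μ i)) * (derivative (P i) * ∏ j ∈ Finset.univ.erase i, P j)

/-- `F` is monic in `y` with total degree equal to its degree in `y`, `F(0, y)` is separable, and
`F` is congruent modulo `x ^ σ` to the product of the monic polynomials `P i`, whose reductions
modulo `x` are irreducible. -/
structure Lifted {K : Type} [Field K] (σ : ℕ) (F : K[X][X]) {r : ℕ} (P : Fin r → K[X][X]) :
    Prop where
  monic : F.Monic
  tdeg : TDeg F.natDegree F
  sep : (red F).Separable
  monic_i : ∀ i, (P i).Monic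
  irr : ∀ i, Irreducible (red (P i))
  prod : Cg σ F (∏ i, P i)
  pos : 0 < σ

/-- The modular factor `P i` belongs to the factor `f`. -/
def Bel {K : Type} [Field K] {r : ℕ} (P : Fin r → K[X][X]) (f : K[X][X]) (i : Fin r) : Prop :=
  red (P i) ∣ red f

/-- `μ` is constant on the true factors of `F`. -/
def ConstOn {K : Type} [Field K] {r : ℕ} (F : K[X][X]) (P : Fin r → K[X][X]) (μ : Fin r → K) :
    Prop := ∀ f, Irreducible f → f ∣ F → ∀ i j, Bel P f i → Bel P f j → μ i = μ j

/-- Failure of surjectivity produces a denominator `Λ` of degree less than `ρ`. -/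
def Bad {K : Type} [Field K] {r : ℕ} (P : Fin r → K[X][X]) (d ρ σ : ℕ) (μ : Fin r → K) : Prop :=
  ∃ Λ : K[X], Λ ≠ 0 ∧ Λ.degree < ρ ∧ ∀ k < d, ∃ N : K[X], N.degree < (d + ρ - 1 : ℕ) ∧
    X ^ σ ∣ Λ * Smu P μ (X ^ k) - N

/-- The polynomial `∑_{k < d} c_k(x) y ^ k` with random coefficients. -/
noncomputable def hpoly {K : Type} [Field K] {d D : ℕ} (c : Fin d → Fin (D + 1) → K) : K[X][X] :=
  ∑ k, C (∑ a, C (c k a) * X ^ (a : ℕ)) * X ^ (k : ℕ)

/-- The window of `μ`: the coefficients of `x ^ (D + d + j)`, `j < ρ`, of the trace vanish. -/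
def InW {K : Type} [Field K] {r : ℕ} (P : Fin r → K[X][X]) (d D ρ : ℕ) (h : K[X][X])
    (μ : Fin r → K) : Prop := ∀ j < ρ, (Smu P μ h).coeff (D + d + j) = 0

/-- The linearised Frobenius test. -/
noncomputable def Tfrob {K : Type} [Field K] (q : ℕ) (F G : K[X][X]) : K[X][X] :=
  derivative F * G ^ q - derivative F ^ q * G

end Pool.Agent.BiFac

end

section

/-!
# Congruences modulo powers of `x` and uniqueness of Hensel lifts
-/

set_option autoImplicit false

namespace Pool.Agent.BiFac

open Polynomial

variable {K : Type} [Field K]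

/-- Reduction of the coefficients modulo `x ^ w`. -/
noncomputable def phi (K : Type) [Field K] (w : ℕ) :
    K[X][X] →+* (K[X] ⧸ Ideal.span {(X : K[X]) ^ w})[X] :=
  mapRingHom (Ideal.Quotient.mk _)

theorem phi_apply (w : ℕ) (F : K[X][X]) :
    phi K w F = F.map (Ideal.Quotient.mk (Ideal.span {(X : K[X]) ^ w})) := rfl

theorem cg_iff_dvd {w : ℕ} {F G : K[X][X]} :
    Cg w F G ↔ ∀ j, X ^ w ∣ F.coeff j - G.coeff j := by
  unfold Cg
  rw [C_dvd_iff_dvd_coeff]
  simp

theorem cg_iff_phi {w : ℕ} {F G : K[X][X]} : Cg w F G ↔ phi K w F = phi K w G := by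
  rw [cg_iff_dvd, Polynomial.ext_iff]
  refine forall_congr' fun j => ?_
  rw [phi_apply, phi_apply, coeff_map, coeff_map, Ideal.Quotient.eq, Ideal.mem_span_singleton]

theorem Cg.refl (w : ℕ) (F : K[X][X]) : Cg w F F := cg_iff_phi.2 rfl

theorem Cg.symm {w : ℕ} {F G : K[X][X]} (h : Cg w F G) : Cg w G F :=
  cg_iff_phi.2 (cg_iff_phi.1 h).symm

theorem Cg.trans {w : ℕ} {F G H : K[X][X]} (h : Cg w F G) (h' : Cg w G H) : Cg w F H :=
  cg_iff_phi.2 ((cg_iff_phi.1 h).trans (cg_iff_phi.1 h'))

theorem Cg.mono {v w : ℕ} {F G : K[X][X]} (h : Cg w F G) (hvw : v ≤ w) : Cg v F G :=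
  cg_iff_dvd.2 fun j => (pow_dvd_pow X hvw).trans (cg_iff_dvd.1 h j)

theorem Cg.add {w : ℕ} {F G F' G' : K[X][X]} (h : Cg w F G) (h' : Cg w F' G') :
    Cg w (F + F') (G + G') := by
  rw [cg_iff_phi] at *
  rw [map_add, map_add, h, h']

theorem Cg.sub {w : ℕ} {F G F' G' : K[X][X]} (h : Cg w F G) (h' : Cg w F' G') :
    Cg w (F - F') (G - G') := by
  rw [cg_iff_phi] at *
  rw [map_sub, map_sub, h, h']

theorem Cg.neg {w : ℕ} {F G : K[X][X]} (h : Cg w F G) : Cg w (-F) (-G) := by
  rw [cg_iff_phi] at *
  rw [map_neg, map_neg, h]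

theorem Cg.mul {w : ℕ} {F G F' G' : K[X][X]} (h : Cg w F G) (h' : Cg w F' G') :
    Cg w (F * F') (G * G') := by
  rw [cg_iff_phi] at *
  rw [map_mul, map_mul, h, h']

theorem Cg.pow {w : ℕ} {F G : K[X][X]} (h : Cg w F G) (n : ℕ) : Cg w (F ^ n) (G ^ n) := by
  rw [cg_iff_phi] at *
  rw [map_pow, map_pow, h]

theorem Cg.sum {ι : Type*} {w : ℕ} (s : Finset ι) {F G : ι → K[X][X]}
    (h : ∀ i ∈ s, Cg w (F i) (G i)) : Cg w (∑ i ∈ s, F i) (∑ i ∈ s, G i) := by
  rw [cg_iff_phi, map_sum, map_sum]
  exact Finset.sum_congr rfl fun i hi => cg_iff_phi.1 (h i hi)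

theorem Cg.prod {ι : Type*} {w : ℕ} (s : Finset ι) {F G : ι → K[X][X]}
    (h : ∀ i ∈ s, Cg w (F i) (G i)) : Cg w (∏ i ∈ s, F i) (∏ i ∈ s, G i) := by
  rw [cg_iff_phi, map_prod, map_prod]
  exact Finset.prod_congr rfl fun i hi => cg_iff_phi.1 (h i hi)

theorem Cg.derivative {w : ℕ} {F G : K[X][X]} (h : Cg w F G) :
    Cg w (Polynomial.derivative F) (Polynomial.derivative G) := by
  rw [cg_iff_dvd] at *
  intro j
  rw [coeff_derivative, coeff_derivative, ← sub_mul]
  exact (h (j + 1)).mul_right _

theorem cg_iff {w : ℕ} {F G : K[X][X]} :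
    Cg w F G ↔ ∀ i j, i < w → (F.coeff j).coeff i = (G.coeff j).coeff i := by
  rw [cg_iff_dvd]
  constructor
  · intro h i j hi
    have := (X_pow_dvd_iff.1 (h j)) i hi
    rwa [coeff_sub, sub_eq_zero] at this
  · intro h j
    rw [X_pow_dvd_iff]
    intro i hi
    rw [coeff_sub, sub_eq_zero]
    exact h i j hi

theorem Cg.coeff {w : ℕ} {F G : K[X][X]} (h : Cg w F G) (j : ℕ) :
    X ^ w ∣ F.coeff j - G.coeff j := cg_iff_dvd.1 h j

theorem coeff_red (F : K[X][X]) (j : ℕ) : (red F).coeff j = (F.coeff j).coeff 0 := by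
  unfold red
  rw [coe_mapRingHom, coeff_map, coe_evalRingHom, coeff_zero_eq_eval_zero]

theorem cg_one_iff {F G : K[X][X]} : Cg 1 F G ↔ red F = red G := by
  rw [cg_iff, Polynomial.ext_iff]
  constructor
  · intro h j
    rw [coeff_red, coeff_red]
    exact h 0 j one_pos
  · intro h i j hi
    obtain rfl : i = 0 := by omega
    rw [← coeff_red, ← coeff_red]
    exact h j

theorem Cg.red {w : ℕ} {F G : K[X][X]} (h : Cg w F G) (hw : 0 < w) :
    BiFac.red F = BiFac.red G := cg_one_iff.1 (h.mono hw)

/-- equality of polynomials with small degree in `x` -/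
theorem Cg.eq {w : ℕ} {F G : K[X][X]} (h : Cg w F G) (hF : ∀ j, (F.coeff j).degree < w)
    (hG : ∀ j, (G.coeff j).degree < w) : F = G := by
  rw [cg_iff] at h
  ext j i
  rcases lt_or_ge i w with hi | hi
  · exact h i j hi
  · rw [coeff_eq_zero_of_degree_lt (lt_of_lt_of_le (hF j) (by exact_mod_cast hi)),
      coeff_eq_zero_of_degree_lt (lt_of_lt_of_le (hG j) (by exact_mod_cast hi))]

theorem nontrivial_quot {w : ℕ} (hw : 0 < w) :
    Nontrivial (K[X] ⧸ Ideal.span {(X : K[X]) ^ w}) := by
  apply Ideal.Quotient.nontrivial_iff.2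
  rw [Ne, Ideal.span_singleton_eq_top]
  intro h
  rw [isUnit_pow_iff hw.ne'] at h
  exact not_isUnit_X h

theorem Cg.natDegree_eq {w : ℕ} {F G : K[X][X]} (h : Cg w F G) (hw : 0 < w) (hF : F.Monic)
    (hG : G.Monic) : F.natDegree = G.natDegree := by
  have := nontrivial_quot (K := K) hw
  rw [cg_iff_phi, phi_apply, phi_apply] at h
  rw [← hF.natDegree_map (Ideal.Quotient.mk (Ideal.span {(X : K[X]) ^ w})), h, hG.natDegree_map]

theorem Cg.modByMonic {w : ℕ} {F G f g : K[X][X]} (h : Cg w F G) (h' : Cg w f g)
    (hf : f.Monic) (hg : g.Monic) : Cg w (F %ₘ f) (G %ₘ g) := by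
  rw [cg_iff_phi, phi_apply, phi_apply] at *
  rw [map_modByMonic _ hf, map_modByMonic _ hg, h, h']

theorem Cg.divByMonic {w : ℕ} {F G f g : K[X][X]} (h : Cg w F G) (h' : Cg w f g)
    (hf : f.Monic) (hg : g.Monic) : Cg w (F /ₘ f) (G /ₘ g) := by
  rw [cg_iff_phi, phi_apply, phi_apply] at *
  rw [map_divByMonic _ hf, map_divByMonic _ hg, h, h']

theorem natDegree_red {F : K[X][X]} (h : F.Monic) : (red F).natDegree = F.natDegree :=
  h.natDegree_map _

theorem monic_red {F : K[X][X]} (h : F.Monic) : (red F).Monic := h.map _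

/-- `C (x ^ j) * u` is congruent to zero modulo `x ^ (j + 1)` as soon as `u` reduces to zero. -/
theorem exists_eq_add_C_mul {j : ℕ} {f a : K[X][X]} (h : Cg j f a) :
    ∃ u, f = a + C (X ^ j) * u := by
  obtain ⟨u, hu⟩ := h
  exact ⟨u, by rw [← hu]; ring⟩

theorem cg_zero_of_C_mul {j s : ℕ} {u : K[X][X]} (h : C (X ^ (j + s)) ∣ C (X ^ j) * u) :
    C (X ^ s) ∣ u := by
  have h0 : (C ((X : K[X]) ^ j) : K[X][X]) ≠ 0 := by
    rw [Ne, C_eq_zero]
    exact pow_ne_zero _ X_ne_zero
  rw [pow_add, C_mul] at h
  exact (mul_dvd_mul_iff_left h0).1 h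

/-- uniqueness of the lift of a coprime factorisation -/
theorem cg_of_coprime {f f' a b : K[X][X]} {σ : ℕ} (hf : f.Monic) (hf' : f'.Monic) (ha : a.Monic)
    (hb : b.Monic) (h : Cg σ (f * f') (a * b)) (h0 : red f = red a) (h0' : red f' = red b)
    (hc : IsCoprime (red a) (red b)) : Cg σ f a ∧ Cg σ f' b := by
  have hdeg : f.natDegree = a.natDegree := by
    rw [← natDegree_red hf, ← natDegree_red ha, h0]
  have hdeg' : f'.natDegree = b.natDegree := by
    rw [← natDegree_red hf', ← natDegree_red hb, h0']
  -- induction on the precision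
  suffices H : ∀ j, j ≤ σ → Cg j f a ∧ Cg j f' b from H σ le_rfl
  intro j
  induction j with
  | zero =>
    intro _
    constructor <;> · rw [cg_iff]; intro i j hi; omega
  | succ j ih =>
    intro hj
    obtain ⟨h1, h2⟩ := ih (by omega)
    rcases Nat.eq_zero_or_pos j with rfl | hjpos
    · exact ⟨cg_one_iff.2 h0, cg_one_iff.2 h0'⟩
    obtain ⟨u, hu⟩ := exists_eq_add_C_mul h1
    obtain ⟨v, hv⟩ := exists_eq_add_C_mul h2
    -- the product
    have hprod : Cg (j + 1) (f * f') (a * b) := h.mono hj
    have hdvd : C (X ^ (j + 1)) ∣ C ((X : K[X]) ^ j) * (a * v + b * u + C (X ^ j) * (u * v)) := by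
      have : C ((X : K[X]) ^ j) * (a * v + b * u + C (X ^ j) * (u * v)) = f * f' - a * b := by
        rw [hu, hv]; ring
      rw [this]
      exact hprod
    have hdvd1 := cg_zero_of_C_mul hdvd
    have hred : red a * red v + red b * red u = 0 := by
      have h3 : Cg 1 (a * v + b * u + C (X ^ j) * (u * v)) 0 := by
        unfold Cg
        rw [sub_zero]
        exact hdvd1
      have h4 := cg_one_iff.1 h3
      have h5 : red (C ((X : K[X]) ^ j)) = 0 := by
        unfold red
        rw [coe_mapRingHom, map_C, coe_evalRingHom]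
        simp [hjpos.ne']
      rw [map_add, map_add, map_mul, map_mul, map_mul, h5, map_zero, zero_mul, add_zero] at h4
      exact h4
    -- degrees
    have hdu : (red u).degree < (red a).degree := by
      have h6 : u.degree < a.degree := by
        have h7 : (C ((X : K[X]) ^ j) * u).degree < a.degree := by
          have : C ((X : K[X]) ^ j) * u = f - a := by rw [hu]; ring
          rw [this]
          have h8 : f.degree = a.degree := by
            rw [degree_eq_natDegree hf.ne_zero, degree_eq_natDegree ha.ne_zero, hdeg]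
          rw [← h8]
          exact degree_sub_lt_left h8 hf.ne_zero (by rw [hf.leadingCoeff, ha.leadingCoeff])
        rwa [degree_C_mul (pow_ne_zero _ X_ne_zero)] at h7
      have h9 : (red a).degree = a.degree := ha.degree_map _
      rw [h9]
      exact lt_of_le_of_lt (degree_map_le) h6
    have hdv : (red v).degree < (red b).degree := by
      have h6 : v.degree < b.degree := by
        have h7 : (C ((X : K[X]) ^ j) * v).degree < b.degree := by
          have : C ((X : K[X]) ^ j) * v = f' - b := by rw [hv]; ring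
          rw [this]
          have h8 : f'.degree = b.degree := by
            rw [degree_eq_natDegree hf'.ne_zero, degree_eq_natDegree hb.ne_zero, hdeg']
          rw [← h8]
          exact degree_sub_lt_left h8 hf'.ne_zero (by rw [hf'.leadingCoeff, hb.leadingCoeff])
        rwa [degree_C_mul (pow_ne_zero _ X_ne_zero)] at h7
      have h9 : (red b).degree = b.degree := hb.degree_map _
      rw [h9]
      exact lt_of_le_of_lt (degree_map_le) h6
    have hu0 : red u = 0 := by
      have : red a ∣ red u := by
        apply hc.dvd_of_dvd_mul_left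
        refine ⟨-red v, ?_⟩
        linear_combination hred
      exact eq_zero_of_dvd_of_degree_lt this hdu
    have hv0 : red v = 0 := by
      have : red b ∣ red v := by
        apply hc.symm.dvd_of_dvd_mul_left
        refine ⟨-red u, ?_⟩
        linear_combination hred
      exact eq_zero_of_dvd_of_degree_lt this hdv
    have key : ∀ {p c w : K[X][X]}, p = c + C (X ^ j) * w → red w = 0 → Cg (j + 1) p c := by
      intro p c w hp hw
      have h10 : Cg 1 w 0 := cg_one_iff.2 (by rw [hw, map_zero])
      unfold Cg at h10 ⊢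
      rw [sub_zero] at h10
      rw [hp, add_sub_cancel_left, pow_succ, C_mul]
      rw [pow_one] at h10
      exact mul_dvd_mul_left _ h10
    exact ⟨key hu hu0, key hv hv0⟩

/-- the same for many factors -/
theorem cg_of_coprime_prod {ι : Type*} (s : Finset ι) {f a : ι → K[X][X]} {σ : ℕ}
    (hf : ∀ i ∈ s, (f i).Monic) (ha : ∀ i ∈ s, (a i).Monic)
    (h : Cg σ (∏ i ∈ s, f i) (∏ i ∈ s, a i)) (h0 : ∀ i ∈ s, red (f i) = red (a i))
    (hc : (s : Set ι).Pairwise fun i j => IsCoprime (red (a i)) (red (a j))) :
    ∀ i ∈ s, Cg σ (f i) (a i) := by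
  classical
  induction s using Finset.induction_on with
  | empty => simp
  | insert k s hk ih =>
    rw [Finset.prod_insert hk, Finset.prod_insert hk] at h
    have h1 := cg_of_coprime (hf k (Finset.mem_insert_self _ _))
      (monic_prod_of_monic _ _ fun i hi => hf i (Finset.mem_insert_of_mem hi))
      (ha k (Finset.mem_insert_self _ _))
      (monic_prod_of_monic _ _ fun i hi => ha i (Finset.mem_insert_of_mem hi)) h
      (h0 k (Finset.mem_insert_self _ _))
      (by
        rw [map_prod, map_prod]
        exact Finset.prod_congr rfl fun i hi => h0 i (Finset.mem_insert_of_mem hi))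
      (by
        rw [map_prod]
        apply IsCoprime.prod_right
        intro i hi
        apply hc (Finset.mem_coe.2 (Finset.mem_insert_self _ _))
          (Finset.mem_coe.2 (Finset.mem_insert_of_mem hi))
        rintro rfl
        exact hk hi)
    intro i hi
    rcases Finset.mem_insert.1 hi with rfl | hi'
    · exact h1.1
    · exact ih (fun i hi => hf i (Finset.mem_insert_of_mem hi))
        (fun i hi => ha i (Finset.mem_insert_of_mem hi)) h1.2
        (fun i hi => h0 i (Finset.mem_insert_of_mem hi))
        (hc.mono (by intro x hx; exact Finset.mem_coe.2 (Finset.mem_insert_of_mem hx))) i hi'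

end Pool.Agent.BiFac

end

section

/-!
# More definitions for the factorisation of bivariate polynomials
-/

set_option autoImplicit false

namespace Pool.Agent.BiFac

open Polynomial

/-- The monic polynomial with the lower coefficients `c`. -/
noncomputable def mpoly {K : Type} [Field K] {n : ℕ} (c : Fin n → K) : K[X] :=
  X ^ n + ∑ i, C (c i) * X ^ (i : ℕ)

/-- The substitution `x ↦ x + a y + b`, `y ↦ y` of `K[x][y]`. -/
noncomputable def shear {K : Type} [Field K] (a b : K) : K[X][X] →+* K[X][X] :=
  eval₂RingHom (eval₂RingHom (C.comp C) (C X + C (C a) * X + C (C b))) X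

/-- After the change of coordinates: leading coefficient in `y` a constant `c`, and the product of
the distinct irreducible factors is separable for `x = 0`. -/
def Nice {K : Type} [Field K] (d : ℕ) (F : K[X][X]) : Prop :=
  ∃ (c : K) (s : Finset K[X][X]) (e : K[X][X] → ℕ), c ≠ 0 ∧ F.natDegree = d ∧
    (∀ f ∈ s, Irreducible f ∧ f.Monic ∧ 0 < e f) ∧ F = C (C c) * ∏ f ∈ s, f ^ e f ∧
    (red (∏ f ∈ s, f)).Separable

/-- The splitting map: quadratic character (`p` odd) or trace to `F_2` (`p = 2`). -/
noncomputable def chi {R : Type} [CommRing R] (p k : ℕ) (x : R) : R :=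
  if p = 2 then ∑ j ∈ Finset.range k, x ^ 2 ^ j else (∏ j ∈ Finset.range k, x ^ p ^ j) ^ (p / 2)

/-- The leading coefficient for the lexicographic order. -/
noncomputable def lc2 {K : Type} [Field K] (F : K[X][X]) : K := F.leadingCoeff.leadingCoeff

/-- The coefficientwise application of a ring homomorphism. -/
noncomputable def map2 {K L : Type} [Field K] [Field L] (φ : K →+* L) : K[X][X] →+* L[X][X] :=
  mapRingHom (mapRingHom φ)

/-- The isomorphism of `K[x][y]` with `K[x, y]`. -/
noncomputable def toMv {K : Type} [Field K] : K[X][X] →+* MvPolynomial (Fin 2) K :=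
  eval₂RingHom (eval₂RingHom MvPolynomial.C (MvPolynomial.X 0)) (MvPolynomial.X 1)

/-- The fraction of the lists of length `n` (tapes) with the property `B`. -/
noncomputable def pr (K : Type) [Fintype K] (n : ℕ) (B : List K → Prop) : ℝ :=
  (Nat.card {ρ : Fin n → K // B (List.ofFn ρ)} : ℝ) / (Fintype.card K : ℝ) ^ n

end Pool.Agent.BiFac

end

section

/-!
# The denominator attached to a window map that is not surjective
-/

set_option autoImplicit false

namespace Pool.Agent.BiFac

open Polynomial

variable {K : Type} [Field K]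

/-- The window map as a linear map. -/
noncomputable def winMap (d D ρ : ℕ) (p : Fin d → K[X]) :
    (Fin d → Fin (D + 1) → K) →ₗ[K] (Fin ρ → K) where
  toFun c j := (∑ k, (∑ a, C (c k a) * X ^ (a : ℕ)) * p k).coeff (D + d + j)
  map_add' c c' := by
    funext j
    simp only [Pi.add_apply, C_add, add_mul, Finset.sum_add_distrib, coeff_add]
  map_smul' s c := by
    funext j
    simp only [Pi.smul_apply, smul_eq_mul, RingHom.id_apply]
    rw [← Polynomial.coeff_C_mul, Finset.mul_sum]
    congr 1
    refine Finset.sum_congr rfl fun k _ => ?_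
    rw [← mul_assoc, Finset.mul_sum]
    congr 1
    refine Finset.sum_congr rfl fun a _ => ?_
    rw [C_mul, mul_assoc]

theorem winMap_apply {d D ρ : ℕ} (p : Fin d → K[X]) (c : Fin d → Fin (D + 1) → K) (j : Fin ρ) :
    winMap d D ρ p c j = (∑ k, (∑ a, C (c k a) * X ^ (a : ℕ)) * p k).coeff (D + d + j) := rfl

theorem winMap_single {d D ρ : ℕ} (p : Fin d → K[X]) (k : Fin d) (a : Fin (D + 1)) (j : Fin ρ) :
    winMap d D ρ p (Pi.single k (Pi.single a 1)) j = (p k).coeff (D + d + j - a) := by
  rw [winMap_apply]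
  rw [Finset.sum_eq_single k, Finset.sum_eq_single a]
  · simp only [Pi.single_eq_same, C_1, one_mul]
    rw [X_pow_mul, coeff_mul_X_pow', if_pos]
    have := a.2
    omega
  · intro b _ hb
    simp [Pi.single_eq_of_ne hb]
  · intro h
    exact absurd (Finset.mem_univ _) h
  · intro b _ hb
    simp [Pi.single_eq_of_ne hb]
  · intro h
    exact absurd (Finset.mem_univ _) h

theorem exists_denominator {d D ρ : ℕ} (p : Fin d → K[X])
    (hns : ¬ Function.Surjective (fun (c : Fin d → Fin (D + 1) → K) (j : Fin ρ) =>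
      (∑ k, (∑ a, C (c k a) * X ^ (a : ℕ)) * p k).coeff (D + d + j))) :
    ∃ Λ : K[X], Λ ≠ 0 ∧ Λ.degree < ρ ∧ ∀ k, ∃ N : K[X], N.degree < (d + ρ - 1 : ℕ) ∧
      X ^ (D + d + ρ) ∣ Λ * p k - N := by
  classical
  have hlt : LinearMap.range (winMap d D ρ p) < ⊤ := by
    rw [lt_top_iff_ne_top]
    intro h
    exact hns (LinearMap.range_eq_top.mp h)
  obtain ⟨f, hf0, hf⟩ := Submodule.exists_le_ker_of_lt_top _ hlt
  -- the coefficients of the functional
  set l : Fin ρ → K := fun j => f (Pi.single j 1) with hl
  have hfl : ∀ v : Fin ρ → K, f v = ∑ j, v j * l j := by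
    intro v
    conv_lhs => rw [LinearMap.pi_apply_eq_sum_univ f v]
    refine Finset.sum_congr rfl fun j _ => ?_
    rw [smul_eq_mul, hl]
    congr 2
    funext i
    simp only [Pi.single_apply, eq_comm]
  have hl0 : ∃ j, l j ≠ 0 := by
    by_contra hcon
    push Not at hcon
    apply hf0
    ext v
    simp only [LinearMap.coe_comp, LinearMap.coe_single, Function.comp_apply,
      LinearMap.zero_apply]
    exact hcon v
  have hkey : ∀ k : Fin d, ∀ a : Fin (D + 1), ∑ j : Fin ρ, (p k).coeff (D + d + j - a) * l j = 0 := by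
    intro k a
    have h1 : f (winMap d D ρ p (Pi.single k (Pi.single a 1))) = 0 :=
      hf (LinearMap.mem_range_self _ _)
    rw [hfl] at h1
    rw [← h1]
    refine Finset.sum_congr rfl fun j _ => ?_
    rw [winMap_single]
  set Λ : K[X] := ∑ j : Fin ρ, C (l j) * X ^ (ρ - 1 - (j : ℕ)) with hΛ
  have hΛc : ∀ j : Fin ρ, Λ.coeff (ρ - 1 - (j : ℕ)) = l j := by
    intro j
    rw [hΛ, finsetSum_coeff, Finset.sum_eq_single j]
    · rw [coeff_C_mul, coeff_X_pow, if_pos rfl, mul_one]
    · intro b _ hb
      rw [coeff_C_mul, coeff_X_pow, if_neg, mul_zero]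
      intro h
      apply hb
      apply Fin.ext
      have := b.2
      have := j.2
      omega
    · intro h
      exact absurd (Finset.mem_univ _) h
  refine ⟨Λ, ?_, ?_, ?_⟩
  · intro h
    obtain ⟨j, hj⟩ := hl0
    apply hj
    rw [← hΛc j, h, coeff_zero]
  · rw [degree_lt_iff_coeff_zero]
    intro m hm
    rw [hΛ, finsetSum_coeff]
    refine Finset.sum_eq_zero fun j _ => ?_
    rw [coeff_C_mul, coeff_X_pow, if_neg, mul_zero]
    have := j.2
    omega
  · intro k
    have hρ : 0 < ρ := by
      obtain ⟨j, _⟩ := hl0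
      exact lt_of_le_of_lt (Nat.zero_le _) j.2
    refine ⟨∑ m ∈ Finset.range (d + ρ - 1), C ((Λ * p k).coeff m) * X ^ m, ?_, ?_⟩
    · rw [degree_lt_iff_coeff_zero]
      intro m hm
      rw [finsetSum_coeff]
      refine Finset.sum_eq_zero fun i hi => ?_
      rw [coeff_C_mul, coeff_X_pow, if_neg, mul_zero]
      have := Finset.mem_range.mp hi
      omega
    · rw [X_pow_dvd_iff]
      intro m hm
      rw [coeff_sub, finsetSum_coeff]
      by_cases hm1 : m < d + ρ - 1
      · rw [Finset.sum_eq_single m]
        · rw [coeff_C_mul, coeff_X_pow, if_pos rfl, mul_one, sub_self]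
        · intro b _ hb
          rw [coeff_C_mul, coeff_X_pow, if_neg (Ne.symm hb), mul_zero]
        · intro h
          exact absurd (Finset.mem_range.mpr hm1) h
      · rw [Finset.sum_eq_zero, sub_zero]
        · -- the coefficients in the window vanish
          have ha : D + d + ρ - 1 - m < D + 1 := by omega
          have h2 := hkey k ⟨D + d + ρ - 1 - m, ha⟩
          rw [← h2, hΛ, Finset.sum_mul, finsetSum_coeff]
          refine Finset.sum_congr rfl fun j _ => ?_
          rw [mul_assoc, coeff_C_mul, X_pow_mul, coeff_mul_X_pow', if_pos, mul_comm]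
          · congr 2
            have := j.2
            simp only
            omega
          · have := j.2
            omega
        · intro i hi
          rw [coeff_C_mul, coeff_X_pow, if_neg, mul_zero]
          have := Finset.mem_range.mp hi
          omega

end Pool.Agent.BiFac

end

section

/-!
# T9. Dimension of the window space
-/

set_option autoImplicit false

namespace Pool.Agent.BiFac

open Polynomial

variable {K : Type} [Field K]

/-- The rank of a linear map is at most the sum of the ranks of maps whose kernels together are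
contained in its kernel. -/
theorem finrank_range_le_sum {V A : Type} [AddCommGroup V] [Module K V] [FiniteDimensional K V]
    [AddCommGroup A] [Module K A] (f : V →ₗ[K] A) {τ : Type} [Fintype τ] (B : τ → Type)
    [∀ t, AddCommGroup (B t)] [∀ t, Module K (B t)] (g : ∀ t, V →ₗ[K] B t)
    (h : ∀ v, (∀ t, g t v = 0) → f v = 0) :
    Module.finrank K (LinearMap.range f) ≤ ∑ t, Module.finrank K (LinearMap.range (g t)) := by
  classical
  let G : V →ₗ[K] (∀ t, LinearMap.range (g t)) := LinearMap.pi fun t => (g t).rangeRestrict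
  have hker : LinearMap.ker G ≤ LinearMap.ker f := by
    intro v hv
    rw [LinearMap.mem_ker] at hv ⊢
    apply h
    intro t
    have := congrFun hv t
    have h2 := congrArg Subtype.val this
    simpa [G] using h2
  have h1 := LinearMap.finrank_range_add_finrank_ker f
  have h2 := LinearMap.finrank_range_add_finrank_ker G
  have h3 : Module.finrank K (LinearMap.ker G) ≤ Module.finrank K (LinearMap.ker f) :=
    Submodule.finrank_mono hker
  have h4 : Module.finrank K (LinearMap.range G) ≤
      Module.finrank K (∀ t, LinearMap.range (g t)) := Submodule.finrank_le _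
  rw [Module.finrank_pi_fintype] at h4
  omega

theorem finrank_restrict_le {r : ℕ} {ι : Type} (W : Submodule K (Fin r → K)) (wt : Fin r → ℕ)
    (hwt : ∀ i, 0 < wt i) (part : Fin r → ι) [DecidableEq ι] (T σ : ℕ) (hσ : 0 < σ)
    (hZ : ∀ μ ∈ W, ∀ (t : ι) (I : Finset (Fin r)), (∀ i ∈ I, part i = t ∧ μ i = 0) →
      (∑ i ∈ Finset.univ.filter (fun i => part i = t), wt i) * T < (∑ i ∈ I, wt i) * σ →
      ∀ i, part i = t → μ i = 0)
    (U : Finset (Fin r)) (hU : ∀ i ∈ U,
      σ ≤ (∑ j ∈ Finset.univ.filter (fun j => part j = part i), wt j) * T) :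
    Module.finrank K (W.map (LinearMap.funLeft K K (fun i : U => (i : Fin r)))) * σ ≤
      2 * (∑ i, wt i) * T := by
  classical
  -- the parts which occur
  let S : Finset ι := U.image part
  -- the part of `U`
  let Ut : ι → Finset (Fin r) := fun t => U.filter fun i => part i = t
  let n : ι → ℕ := fun t => ∑ i ∈ Finset.univ.filter (fun i => part i = t), wt i
  -- restriction maps
  let f : W →ₗ[K] (U → K) := (LinearMap.funLeft K K (fun i : U => (i : Fin r))).domRestrict W
  let g : ∀ t : S, W →ₗ[K] (Ut t → K) := fun t =>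
    (LinearMap.funLeft K K (fun i : Ut t => (i : Fin r))).domRestrict W
  have hf : LinearMap.range f = W.map (LinearMap.funLeft K K (fun i : U => (i : Fin r))) := by
    exact LinearMap.range_domRestrict _ _
  have hkey : ∀ t : S, Module.finrank K (LinearMap.range (g t)) * σ ≤ 2 * n t * T := by
    intro t
    obtain ⟨i0, hi0, hi0t⟩ := Finset.mem_image.1 t.2
    have hUt : σ ≤ n t * T := by
      have := hU i0 hi0
      rw [hi0t] at this
      exact this
    by_contra hcon
    push Not at hcon
    have hpos : 0 < Module.finrank K (LinearMap.range (g t)) := by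
      by_contra h0
      have : Module.finrank K (LinearMap.range (g t)) = 0 := by omega
      rw [this] at hcon
      omega
    obtain ⟨e, he⟩ : ∃ e, Module.finrank K (LinearMap.range (g t)) = e + 1 :=
      ⟨_, (Nat.succ_pred_eq_of_pos hpos).symm⟩
    have hcard : e ≤ (Ut t).card := by
      have h1 : Module.finrank K (LinearMap.range (g t)) ≤ Module.finrank K (Ut t → K) :=
        Submodule.finrank_le _
      rw [Module.finrank_fintype_fun_eq_card, Fintype.card_coe] at h1
      omega
    obtain ⟨I, hI, hIc⟩ := Finset.exists_subset_card_eq hcard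
    -- the restriction to `I`
    let res : LinearMap.range (g t) →ₗ[K] (I → K) :=
      (LinearMap.funLeft K K (fun i : I => (⟨(i : Fin r), hI i.2⟩ : Ut t))).domRestrict _
    have hnt : 0 < Module.finrank K (LinearMap.ker res) := by
      have h1 := LinearMap.finrank_range_add_finrank_ker res
      have h2 : Module.finrank K (LinearMap.range res) ≤ Module.finrank K (I → K) :=
        Submodule.finrank_le _
      rw [Module.finrank_fintype_fun_eq_card, Fintype.card_coe] at h2
      omega
    have hne : LinearMap.ker res ≠ ⊥ := by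
      intro h0
      rw [h0, finrank_bot] at hnt
      omega
    obtain ⟨⟨v, ⟨μ, hμ⟩⟩, hv, hv0⟩ := Submodule.exists_mem_ne_zero_of_ne_bot hne
    apply hv0
    have hvI : ∀ i (hi : i ∈ I), v ⟨i, hI hi⟩ = 0 := by
      intro i hi
      have := congrFun (LinearMap.mem_ker.1 hv) ⟨i, hi⟩
      exact this
    have hμv : ∀ i (hi : i ∈ Ut t), (μ : Fin r → K) i = v ⟨i, hi⟩ := by
      intro i hi
      exact congrFun hμ ⟨i, hi⟩
    have hzero : ∀ i, part i = t → (μ : Fin r → K) i = 0 := by
      apply hZ μ μ.2 t I
      · intro i hi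
        refine ⟨(Finset.mem_filter.1 (hI hi)).2, ?_⟩
        rw [hμv i (hI hi)]
        exact hvI i hi
      · have h1 : I.card ≤ ∑ i ∈ I, wt i := by
          rw [Finset.card_eq_sum_ones]
          exact Finset.sum_le_sum fun i _ => hwt i
        rw [hIc] at h1
        have h2 : n t * T < e * σ := by
          rw [he] at hcon
          have e1 : (e + 1) * σ = e * σ + σ := by ring
          have e2 : 2 * n t * T = n t * T + n t * T := by ring
          rw [e1, e2] at hcon
          omega
        exact lt_of_lt_of_le h2 (Nat.mul_le_mul_right _ h1)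
    have : v = 0 := by
      funext i
      rw [← hμv i i.2]
      exact hzero i (Finset.mem_filter.1 i.2).2
    subst this
    rfl
  have hsum : Module.finrank K (LinearMap.range f) ≤
      ∑ t : S, Module.finrank K (LinearMap.range (g t)) := by
    apply finrank_range_le_sum f _ g
    intro v hv
    funext i
    have := congrFun (hv ⟨part i, Finset.mem_image_of_mem _ i.2⟩)
      ⟨(i : Fin r), Finset.mem_filter.2 ⟨i.2, rfl⟩⟩
    exact this
  rw [← hf]
  calc Module.finrank K (LinearMap.range f) * σ
      ≤ (∑ t : S, Module.finrank K (LinearMap.range (g t))) * σ := Nat.mul_le_mul_right _ hsum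
    _ = ∑ t : S, Module.finrank K (LinearMap.range (g t)) * σ := Finset.sum_mul _ _ _
    _ ≤ ∑ t : S, 2 * n t * T := Finset.sum_le_sum fun t _ => hkey t
    _ = 2 * (∑ t : S, n t) * T := by
        rw [Finset.mul_sum, Finset.sum_mul]
    _ ≤ 2 * (∑ i, wt i) * T := by
        apply Nat.mul_le_mul_right
        apply Nat.mul_le_mul_left
        have h1 : ∑ t : S, n t = ∑ t ∈ S, n t := Finset.sum_coe_sort S n
        rw [h1]
        have h2 : ∑ t ∈ S, n t = ∑ i ∈ Finset.univ.filter (fun i => part i ∈ S), wt i := by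
          have := Finset.sum_fiberwise_of_maps_to (s := Finset.univ.filter (fun i => part i ∈ S))
            (t := S) (g := part) (fun i hi => (Finset.mem_filter.1 hi).2) wt
          rw [← this]
          apply Finset.sum_congr rfl
          intro t ht
          apply Finset.sum_congr _ fun _ _ => rfl
          ext i
          simp only [Finset.mem_filter, Finset.mem_univ, true_and]
          constructor
          · intro h
            exact ⟨by rw [h]; exact ht, h⟩
          · exact fun h => h.2
        rw [h2]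
        exact Finset.sum_le_sum_of_subset (Finset.filter_subset _ _)

end Pool.Agent.BiFac

end

section

/-!
# Representation of polynomials by lists: definitions
-/

set_option autoImplicit false

namespace Pool.Agent.BiFac

open Polynomial

variable {K : Type} [Field K]

/-- The polynomial of a coefficient list, lowest coefficient first. -/
noncomputable def toP : List K → K[X]
  | [] => 0
  | a :: l => C a + X * toP l

/-- The polynomial in `K[x][y]` of a list of rows: row `j` is the coefficient list of the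
coefficient (in `K[x]`) of `y ^ j`. -/
noncomputable def toB : List (List K) → K[X][X]
  | [] => 0
  | r :: l => C (toP r) + X * toB l

/-- Sum of coefficient lists (the longer tail is kept). -/
def addP : List K → List K → List K
  | [], b => b
  | a, [] => a
  | x :: a, y :: b => (x + y) :: addP a b

/-- Multiplication by a scalar. -/
def smulP (c : K) (a : List K) : List K := a.map (fun x => c * x)

/-- Naive product. -/
def mulN : List K → List K → List K
  | [], _ => []
  | x :: a, b => addP (smulP x b) (0 :: mulN a b)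

/-- `a - b`. -/
def subP (a b : List K) : List K := addP a (smulP (-1) b)

/-- Linear combination of coefficient lists. -/
def lincomb (cs : List K) (vs : List (List K)) : List K :=
  (List.zipWith smulP cs vs).foldr addP []

/-- Cut or pad with zeros to length `w`. -/
def padTo (w : ℕ) (r : List K) : List K := (r ++ List.replicate w 0).take w

/-- The data for fast multiplication: the number `S` of blocks, the evaluation matrix and the
interpolation matrix. -/
abbrev MEnv (K : Type) : Type := ℕ × List (List K) × List (List K)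

/-- The recursion depth of the fast multiplication. -/
def JJ : ℕ := 1200

/-- Lists up to this length are multiplied correctly. -/
def MEnv.cap (E : MEnv K) : ℕ := E.1 ^ JJ

/-- The data are correct: the rows of `V` are the powers of `2 S - 1` distinct points and `W` is
the inverse of the Vandermonde matrix. -/
structure MEnv.Good (E : MEnv K) : Prop where
  two_le : 2 ≤ E.1
  ex : ∃ (pts : Fin (2 * E.1 - 1) → K) (W : Fin (2 * E.1 - 1) → Fin (2 * E.1 - 1) → K),
    E.2.1 = List.ofFn (fun i => List.ofFn (fun j : Fin E.1 => pts i ^ (j : ℕ))) ∧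
    E.2.2 = List.ofFn (fun j => List.ofFn (fun i => W j i)) ∧
    ∀ j l : Fin (2 * E.1 - 1), ∑ i, W j i * pts i ^ (l : ℕ) = if l = j then 1 else 0

/-- `F` represents a monic polynomial with rows of length at most `w`. -/
structure ML (w : ℕ) (F : List (List K)) : Prop where
  monic : (toB F).Monic
  len : F.length = (toB F).natDegree + 1
  rows : ∀ r ∈ F, r.length ≤ w

/-- `g` represents a monic polynomial in one variable. -/
structure MP (g : List K) : Prop where
  monic : (toP g).Monic
  len : g.length = (toP g).natDegree + 1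

/-- The polynomial in `y` alone as a list of rows. -/
def lift1 (g : List K) : List (List K) := g.map (fun c => [c])

/-- The total length of a list of lists (plus the number of lists). -/
def tot {α : Type} (L : List (List α)) : ℕ := (L.map (fun F => F.length + 1)).sum

/-- The numerator of the sum of the fractions `n / f`. -/
noncomputable def combSum : List (K[X][X] × K[X][X]) → K[X][X]
  | [] => 0
  | (n, f) :: L => n * (L.map Prod.snd).prod + f * combSum L

/-- Characteristic `p` and degree `k` of the finite field: the binary digits of `p` (lowest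
first) and `k`. -/
abbrev FQ : Type := List Bool × ℕ

/-- `log q`, roughly. -/
def FQ.lg (Q : FQ) : ℕ := (Q.1.length + 1) * (Q.2 + 1)

/-- The data `Q` describe the finite field `K`. -/
structure FQ.Ok (Q : FQ) (K : Type) [Field K] [Fintype K] (p : ℕ) : Prop where
  prime : p.Prime
  bits : Q.1 = Nat.bits p
  card : Fintype.card K = p ^ Q.2

/-- The vector of a list. -/
def vec (l : List K) (i : ℕ) : K := l.getD i 0

end Pool.Agent.BiFac

end

section

/-! Total degree of bivariate polynomials. -/

set_option autoImplicit false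

namespace Pool.Agent.BiFac

open Polynomial

variable {K : Type} [Field K]

/-- `x ↦ x Z`, `y ↦ y Z`. -/
noncomputable def tdHom : K[X][X] →+* K[X][X][X] :=
  eval₂RingHom (R := K[X]) (S := K[X][X][X])
    (eval₂RingHom (R := K) (S := K[X][X][X])
      ((C : K[X][X] →+* K[X][X][X]).comp ((C : K[X] →+* K[X][X]).comp (C : K →+* K[X])))
      (C (C (X : K[X])) * X)) (C (X : K[X][X]) * X)

theorem tdHom_monomial (a : K) (i j : ℕ) :
    tdHom (C (C a * X ^ i) * X ^ j : K[X][X]) = C (C (C a * X ^ i) * X ^ j) * X ^ (i + j) := by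
  simp only [tdHom, coe_eval₂RingHom, eval₂_mul, eval₂_C, eval₂_pow, eval₂_X, RingHom.comp_apply,
    map_mul, map_pow, mul_pow]
  ring

theorem tdHom_coeff (F : K[X][X]) (i j k : ℕ) :
    (((tdHom F).coeff k).coeff j).coeff i = if i + j = k then (F.coeff j).coeff i else 0 := by
  induction F using Polynomial.induction_on' with
  | add p q hp hq =>
    rw [map_add, coeff_add, coeff_add, coeff_add, hp, hq, coeff_add, coeff_add]
    split_ifs <;> simp
  | monomial n p =>
    rw [← C_mul_X_pow_eq_monomial]
    induction p using Polynomial.induction_on' with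
    | add p q hp hq =>
      rw [C_add, add_mul, map_add, coeff_add, coeff_add, coeff_add, hp, hq, coeff_add, coeff_add]
      split_ifs <;> simp
    | monomial m a =>
      rw [← C_mul_X_pow_eq_monomial, tdHom_monomial, coeff_C_mul, coeff_X_pow, coeff_C_mul,
        coeff_X_pow]
      by_cases hj : j = n
      · subst hj
        simp only [if_true, mul_one]
        by_cases hk : k = m + j
        · subst hk
          simp only [if_true, mul_one, coeff_C_mul, coeff_X_pow]
          by_cases hi : i = m
          · simp [hi]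
          · simp [hi]
        · simp only [if_neg hk, mul_zero, coeff_zero]
          by_cases hi : i + j = k
          · rw [if_pos hi, coeff_C_mul, coeff_X_pow, if_neg (by omega), mul_zero]
          · rw [if_neg hi]
      · simp only [if_neg hj, mul_zero, coeff_zero, ite_self]
        by_cases hk : k = m + n
        · rw [if_pos hk, mul_one, coeff_C_mul, coeff_X_pow, if_neg hj, mul_zero, coeff_zero]
        · simp [hk]

theorem tdeg_iff_tdHom {n : ℕ} {F : K[X][X]} : TDeg n F ↔ (tdHom F).natDegree ≤ n := by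
  rw [natDegree_le_iff_coeff_eq_zero]
  constructor
  · intro h N hN
    ext j i
    rw [tdHom_coeff]
    split_ifs with h1
    · rw [coeff_zero, coeff_zero]
      exact h i j (by omega)
    · simp
  · intro h i j hij
    have := tdHom_coeff F i j (i + j)
    rw [if_pos rfl, h (i + j) hij, coeff_zero, coeff_zero] at this
    exact this.symm

theorem tdHom_ne_zero {F : K[X][X]} (hF : F ≠ 0) : tdHom F ≠ 0 := by
  intro h
  apply hF
  ext j i
  have := tdHom_coeff F i j (i + j)
  rw [if_pos rfl, h] at this
  simpa using this.symm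

theorem TDeg.mono {m n : ℕ} {F : K[X][X]} (h : TDeg m F) (hmn : m ≤ n) : TDeg n F :=
  fun i j hij => h i j (by omega)

theorem TDeg.zero (n : ℕ) : TDeg n (0 : K[X][X]) := fun i j _ => by simp

theorem TDeg.one (n : ℕ) : TDeg n (1 : K[X][X]) := by
  rw [tdeg_iff_tdHom, map_one, natDegree_one]
  exact Nat.zero_le _

theorem TDeg.C {n : ℕ} {p : K[X]} (h : p.natDegree ≤ n) : TDeg n (Polynomial.C p) := by
  intro i j hij
  rw [coeff_C]
  split_ifs with h0
  · exact coeff_eq_zero_of_natDegree_lt (by omega)
  · simp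

theorem TDeg.X : TDeg 1 (X : K[X][X]) := by
  intro i j hij
  rw [coeff_X]
  split_ifs with h0
  · rw [coeff_one, if_neg (by omega)]
  · simp

theorem TDeg.add {n : ℕ} {F G : K[X][X]} (h : TDeg n F) (h' : TDeg n G) : TDeg n (F + G) :=
  fun i j hij => by rw [coeff_add, coeff_add, h i j hij, h' i j hij, add_zero]

theorem TDeg.sub {n : ℕ} {F G : K[X][X]} (h : TDeg n F) (h' : TDeg n G) : TDeg n (F - G) :=
  fun i j hij => by rw [coeff_sub, coeff_sub, h i j hij, h' i j hij, sub_zero]

theorem TDeg.neg {n : ℕ} {F : K[X][X]} (h : TDeg n F) : TDeg n (-F) :=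
  fun i j hij => by rw [coeff_neg, coeff_neg, h i j hij, neg_zero]

theorem TDeg.sum {ι : Type*} {n : ℕ} (s : Finset ι) {F : ι → K[X][X]} (h : ∀ i ∈ s, TDeg n (F i)) :
    TDeg n (∑ i ∈ s, F i) := by
  classical
  induction s using Finset.induction_on with
  | empty => simpa using TDeg.zero n
  | insert a s ha ih =>
    rw [Finset.sum_insert ha]
    exact (h a (Finset.mem_insert_self _ _)).add (ih fun i hi => h i (Finset.mem_insert_of_mem hi))

theorem TDeg.mul {m n : ℕ} {F G : K[X][X]} (h : TDeg m F) (h' : TDeg n G) :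
    TDeg (m + n) (F * G) := by
  rw [tdeg_iff_tdHom] at *
  rw [map_mul]
  exact natDegree_mul_le.trans (Nat.add_le_add h h')

theorem TDeg.pow {m : ℕ} {F : K[X][X]} (h : TDeg m F) (n : ℕ) : TDeg (n * m) (F ^ n) := by
  rw [tdeg_iff_tdHom] at *
  rw [map_pow]
  exact natDegree_pow_le.trans (Nat.mul_le_mul_left _ h)

theorem TDeg.prod {ι : Type*} (s : Finset ι) {n : ι → ℕ} {F : ι → K[X][X]}
    (h : ∀ i ∈ s, TDeg (n i) (F i)) : TDeg (∑ i ∈ s, n i) (∏ i ∈ s, F i) := by
  classical
  induction s using Finset.induction_on with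
  | empty => simpa using TDeg.one 0
  | insert a s ha ih =>
    rw [Finset.prod_insert ha, Finset.sum_insert ha]
    exact (h a (Finset.mem_insert_self _ _)).mul (ih fun i hi => h i (Finset.mem_insert_of_mem hi))

theorem TDeg.derivative {n : ℕ} {F : K[X][X]} (h : TDeg n F) :
    TDeg (n - 1) (Polynomial.derivative F) := by
  intro i j hij
  rw [coeff_derivative]
  have h1 : (F.coeff (j + 1)).coeff i = 0 := h i (j + 1) (by omega)
  have h2 : ((j : K[X]) + 1) = Polynomial.C ((j : K) + 1) := by simp
  rw [h2, coeff_mul_C, h1, zero_mul]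

theorem TDeg.coeff_eq_zero {n : ℕ} {F : K[X][X]} (h : TDeg n F) {j : ℕ} (hj : n < j) :
    F.coeff j = 0 := by
  ext i
  rw [coeff_zero]
  exact h i j (by omega)

theorem TDeg.natDegree_le {n : ℕ} {F : K[X][X]} (h : TDeg n F) : F.natDegree ≤ n :=
  natDegree_le_iff_coeff_eq_zero.2 fun _ hj => h.coeff_eq_zero hj

theorem TDeg.natDegree_coeff_le {n : ℕ} {F : K[X][X]} (h : TDeg n F) (j : ℕ) :
    (F.coeff j).natDegree ≤ n - j :=
  natDegree_le_iff_coeff_eq_zero.2 fun i hi => h i j (by omega)

theorem tdeg_iff {n : ℕ} {F : K[X][X]} :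
    TDeg n F ↔ ∀ j, F.coeff j = 0 ∨ (F.coeff j).natDegree + j ≤ n := by
  constructor
  · intro h j
    by_cases hj : n < j
    · exact Or.inl (h.coeff_eq_zero hj)
    · right
      have := h.natDegree_coeff_le j
      omega
  · intro h i j hij
    rcases h j with h1 | h1
    · rw [h1, coeff_zero]
    · exact coeff_eq_zero_of_natDegree_lt (by omega)

theorem tdeg_exists_div {n : ℕ} {f : K[X][X]} (hf : f.Monic) (hft : TDeg f.natDegree f) :
    ∀ h : K[X][X], TDeg n h → ∃ q r : K[X][X], r + f * q = h ∧ r.degree < f.degree ∧ TDeg n r ∧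
      TDeg (n - f.natDegree) q := by
  intro h
  refine WellFounded.induction (C := fun h : K[X][X] => TDeg n h → ∃ q r : K[X][X],
    r + f * q = h ∧ r.degree < f.degree ∧ TDeg n r ∧ TDeg (n - f.natDegree) q)
    (Polynomial.degree_lt_wf) h ?_
  intro h ih hh
  by_cases hd : h.degree < f.degree
  · exact ⟨0, h, by simp, hd, hh, TDeg.zero _⟩
  · have hh0 : h ≠ 0 := by
      rintro rfl
      apply hd
      rw [degree_zero, bot_lt_iff_ne_bot, Ne, degree_eq_bot]
      exact hf.ne_zero
    have hdeg : f.natDegree ≤ h.natDegree := natDegree_le_natDegree (not_lt.1 hd)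
    have hc0 : h.leadingCoeff ≠ 0 := leadingCoeff_ne_zero.2 hh0
    have hcd : h.leadingCoeff.natDegree + h.natDegree ≤ n :=
      (tdeg_iff.1 hh h.natDegree).resolve_left hc0
    have hq : TDeg (n - f.natDegree)
        (Polynomial.C h.leadingCoeff * Polynomial.X ^ (h.natDegree - f.natDegree)) := by
      have h1 := (TDeg.C (le_refl h.leadingCoeff.natDegree)).mul
        ((TDeg.X (K := K)).pow (h.natDegree - f.natDegree))
      exact h1.mono (by omega)
    have hlt := div_wf_lemma ⟨not_lt.1 hd, hh0⟩ hf
    have h1t : TDeg n (h - f * (Polynomial.C h.leadingCoeff *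
        Polynomial.X ^ (h.natDegree - f.natDegree))) := by
      apply hh.sub
      exact (hft.mul hq).mono (by omega)
    obtain ⟨q, r, h2, h3, h4, h5⟩ := ih _ hlt h1t
    refine ⟨q + Polynomial.C h.leadingCoeff * Polynomial.X ^ (h.natDegree - f.natDegree), r, ?_,
      h3, h4, h5.add hq⟩
    rw [mul_add, ← add_assoc, h2]
    ring

theorem TDeg.modByMonic {n : ℕ} {f h : K[X][X]} (hf : f.Monic) (hft : TDeg f.natDegree f)
    (hh : TDeg n h) : TDeg n (h %ₘ f) := by
  obtain ⟨q, r, h1, h2, h3, h4⟩ := tdeg_exists_div hf hft h hh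
  rw [(div_modByMonic_unique q r hf ⟨h1, h2⟩).2]
  exact h3

theorem TDeg.divByMonic {n : ℕ} {f h : K[X][X]} (hf : f.Monic) (hft : TDeg f.natDegree f)
    (hh : TDeg n h) : TDeg (n - f.natDegree) (h /ₘ f) := by
  obtain ⟨q, r, h1, h2, h3, h4⟩ := tdeg_exists_div hf hft h hh
  rw [(div_modByMonic_unique q r hf ⟨h1, h2⟩).1]
  exact h4

/-- every nonzero polynomial has an exact total degree, and it is additive -/
theorem exists_tdeg {F : K[X][X]} (hF : F ≠ 0) :
    ∃ n, TDeg n F ∧ ∀ m, TDeg m F → n ≤ m :=
  ⟨(tdHom F).natDegree, tdeg_iff_tdHom.2 le_rfl, fun _ hm => tdeg_iff_tdHom.1 hm⟩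

theorem TDeg.of_mul {m n : ℕ} {F G : K[X][X]} (hF : F ≠ 0) (hm : ∀ k, TDeg k F → m ≤ k)
    (h : TDeg (m + n) (F * G)) : TDeg n G := by
  by_cases hG : G = 0
  · rw [hG]
    exact TDeg.zero _
  have h1 := hm _ (tdeg_iff_tdHom.2 (le_refl (tdHom F).natDegree))
  rw [tdeg_iff_tdHom] at h ⊢
  rw [map_mul, natDegree_mul (tdHom_ne_zero hF) (tdHom_ne_zero hG)] at h
  omega

theorem TDeg.of_dvd_monic {F f : K[X][X]} (hF : F.Monic) (hFt : TDeg F.natDegree F)
    (hf : f.Monic) (hd : f ∣ F) : TDeg f.natDegree f := by
  obtain ⟨g, rfl⟩ := hd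
  have hg : g.Monic := hf.of_mul_monic_left hF
  rw [hf.natDegree_mul hg, add_comm, mul_comm] at hFt
  refine TDeg.of_mul hg.ne_zero (fun k hk => ?_) hFt
  exact hk.natDegree_le

end Pool.Agent.BiFac

end

section

/-!
MP_8d07ed_lc, item T17: Berlekamp's algebra of a squarefree polynomial over a finite field.
-/

set_option autoImplicit false

namespace Pool.Agent.BiFac

open Polynomial

variable {K : Type} [Field K]

lemma dvd_of_squarefree_of_forall {f h : K[X]} (hsq : Squarefree f)
    (hall : ∀ g, Irreducible g → g ∣ f → g ∣ h) : f ∣ h := by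
  classical
  have hf0 : f ≠ 0 := hsq.ne_zero
  set d := EuclideanDomain.gcd f h with hd
  have hdf : d ∣ f := EuclideanDomain.gcd_dvd_left f h
  have hdh : d ∣ h := EuclideanDomain.gcd_dvd_right f h
  obtain ⟨e, he⟩ := hdf
  by_cases hu : IsUnit e
  · have : f ∣ d := by
      rw [he]
      exact (IsUnit.mul_right_dvd hu).mpr dvd_rfl
    exact this.trans hdh
  · exfalso
    have he0 : e ≠ 0 := by
      rintro rfl
      rw [mul_zero] at he
      exact hf0 he
    obtain ⟨g, hg, hge⟩ := WfDvdMonoid.exists_irreducible_factor hu he0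
    have hgf : g ∣ f := by rw [he]; exact hge.mul_left d
    have hgd : g ∣ d := EuclideanDomain.dvd_gcd hgf (hall g hg hgf)
    have : g * g ∣ f := by rw [he]; exact mul_dvd_mul hgd hge
    exact hg.not_isUnit (hsq g this)

lemma prod_X_sub_C_eq_pow_sub [Fintype K] :
    ∏ c : K, (X - C c) = (X ^ Fintype.card K - X : K[X]) := by
  have hroots := FiniteField.roots_X_pow_card_sub_X K
  have hq : 1 < Fintype.card K := Fintype.one_lt_card
  have hmonic : (X ^ Fintype.card K - X : K[X]).Monic := by
    apply monic_X_pow_sub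
    rw [degree_X]
    exact_mod_cast hq
  have hcard : Multiset.card (X ^ Fintype.card K - X : K[X]).roots =
      (X ^ Fintype.card K - X : K[X]).natDegree := by
    rw [hroots, FiniteField.X_pow_card_sub_X_natDegree_eq K hq]
    rfl
  have := prod_multiset_X_sub_C_of_monic_of_roots_card_eq hmonic hcard
  rw [hroots] at this
  exact this

lemma prod_sub_C_eq_pow_sub [Fintype K] (b : K[X]) :
    ∏ c : K, (b - C c) = b ^ Fintype.card K - b := by
  have h := congrArg (fun p : K[X] => p.comp b) (prod_X_sub_C_eq_pow_sub (K := K))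
  simpa [Polynomial.prod_comp] using h

theorem berlekamp_iff [Fintype K] {f : K[X]} (hf : f.Monic) (hsq : Squarefree f) (b : K[X]) :
    f ∣ b ^ Fintype.card K - b ↔ ∀ g, Irreducible g → g ∣ f → ∃ c : K, g ∣ b - C c := by
  constructor
  · intro h g hg hgf
    have h1 : g ∣ ∏ c : K, (b - C c) := by
      rw [prod_sub_C_eq_pow_sub]; exact hgf.trans h
    obtain ⟨c, _, hc⟩ := hg.prime.exists_mem_finset_dvd h1
    exact ⟨c, hc⟩
  · intro h
    apply dvd_of_squarefree_of_forall hsq
    intro g hg hgf
    obtain ⟨c, hc⟩ := h g hg hgf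
    have h1 : g ∣ b ^ Fintype.card K - (C c) ^ Fintype.card K :=
      hc.trans (sub_dvd_pow_sub_pow b (C c) _)
    rw [← C_pow, FiniteField.pow_card] at h1
    have h2 := dvd_sub h1 hc
    have e : b ^ Fintype.card K - C c - (b - C c) = b ^ Fintype.card K - b := by ring
    rwa [e] at h2

lemma exists_crt (v : K[X] → K) (s : Finset K[X]) (hs : ∀ g ∈ s, Irreducible g ∧ g.Monic) :
    ∃ b : K[X], ∀ g ∈ s, g ∣ b - C (v g) := by
  classical
  induction s using Finset.induction_on with
  | empty => exact ⟨0, by simp⟩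
  | insert g0 s hg0 ih =>
    obtain ⟨b', hb'⟩ := ih (fun g hg => hs g (Finset.mem_insert_of_mem hg))
    have h0 := hs g0 (Finset.mem_insert_self _ _)
    have hcop : IsCoprime (∏ g ∈ s, g) g0 := by
      apply IsCoprime.prod_left
      intro g hg
      have h1 := hs g (Finset.mem_insert_of_mem hg)
      by_cases h : g0 ∣ g
      swap
      · exact ((EuclideanDomain.dvd_or_coprime g0 g h0.1).resolve_left h).symm
      · exfalso
        have hass : Associated g0 g := h0.1.associated_of_dvd h1.1 h
        have : g0 = g := eq_of_monic_of_associated h0.2 h1.2 hass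
        exact hg0 (this ▸ hg)
    obtain ⟨u, w, huw⟩ := hcop
    refine ⟨b' + u * (∏ g ∈ s, g) * (C (v g0) - b'), ?_⟩
    intro g hg
    rcases Finset.mem_insert.mp hg with rfl | hg
    · refine ⟨-w * (C (v g) - b'), ?_⟩
      linear_combination (C (v g) - b') * huw
    · have h1 : g ∣ u * (∏ g ∈ s, g) * (C (v g0) - b') :=
        ((Finset.dvd_prod_of_mem _ hg).mul_left u).mul_right _
      have h2 := dvd_add (hb' g hg) h1
      have e : b' - C (v g) + u * (∏ g ∈ s, g) * (C (v g0) - b') =
        b' + u * (∏ g ∈ s, g) * (C (v g0) - b') - C (v g) := by ring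
      rwa [e] at h2

/-- values can be prescribed -/
theorem exists_berlekamp {f : K[X]} (hf : f.Monic) (hsq : Squarefree f) (v : K[X] → K) :
    ∃ b : K[X], b.degree < f.degree ∧ ∀ g, Irreducible g → g.Monic → g ∣ f → g ∣ b - C (v g) := by
  classical
  obtain ⟨b, hb⟩ := exists_crt v
    ((UniqueFactorizationMonoid.normalizedFactors f).toFinset.filter (fun g => g.Monic)) (by
      intro g hg
      rw [Finset.mem_filter, Multiset.mem_toFinset] at hg
      exact ⟨UniqueFactorizationMonoid.irreducible_of_normalized_factor g hg.1, hg.2⟩)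
  refine ⟨b %ₘ f, degree_modByMonic_lt b hf, ?_⟩
  intro g hg hgm hgf
  have h1 : g ∣ b - C (v g) := by
    apply hb
    rw [Finset.mem_filter, Multiset.mem_toFinset]
    refine ⟨?_, hgm⟩
    rw [UniqueFactorizationMonoid.mem_normalizedFactors_iff' hsq.ne_zero]
    exact ⟨hg, hgm.normalize_eq_self, hgf⟩
  have h2 : g ∣ f * (b /ₘ f) := hgf.mul_right _
  have h3 := dvd_sub h1 h2
  have e : b - C (v g) - f * (b /ₘ f) = b %ₘ f - C (v g) := by
    have := modByMonic_add_div b f
    linear_combination -this
  rwa [e] at h3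

lemma map_chi {R S : Type} [CommRing R] [CommRing S] (φ : R →+* S) (p k : ℕ) (x : R) :
    φ (chi p k x) = chi p k (φ x) := by
  unfold chi
  split_ifs
  · simp [map_sum, map_pow]
  · simp [map_prod, map_pow]

theorem chi_C {p k : ℕ} (x : K) : chi p k (C x : K[X]) = C (chi p k x) :=
  (map_chi (C : K →+* K[X]) p k x).symm

theorem chi_dvd {p k : ℕ} {g b : K[X]} {c : K} (h : g ∣ b - C c) :
    g ∣ chi p k b - C (chi p k c) := by
  rw [← Ideal.mem_span_singleton] at h ⊢
  rw [← Ideal.Quotient.eq] at h ⊢
  rw [map_chi, h, ← chi_C, map_chi]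

lemma card_iff_le [Fintype K] (P : K → Prop) (h1 : Fintype.card K ≤ 3 * Nat.card {x // P x})
    (h2 : 3 * Nat.card {x // P x} ≤ 2 * Fintype.card K) :
    9 * Nat.card {z : K × K // P z.1 ↔ P z.2} ≤ 5 * Fintype.card K ^ 2 := by
  classical
  set q := Fintype.card K
  have hm : Nat.card {x // P x} = (Finset.univ.filter P).card := by
    rw [Nat.card_eq_fintype_card, Fintype.card_subtype]
  have hm' : (Finset.univ.filter P).card + (Finset.univ.filter (fun x => ¬ P x)).card = q := by
    rw [Finset.card_filter_add_card_filter_not]; rfl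
  have hc : Nat.card {z : K × K // P z.1 ↔ P z.2} =
      (Finset.univ.filter P).card * (Finset.univ.filter P).card +
      (Finset.univ.filter (fun x => ¬ P x)).card * (Finset.univ.filter (fun x => ¬ P x)).card := by
    rw [Nat.card_eq_fintype_card, Fintype.card_subtype, ← Finset.card_product,
      ← Finset.card_product, ← Finset.card_union_of_disjoint]
    · congr 1
      ext z
      simp only [Finset.mem_filter, Finset.mem_univ, true_and, Finset.mem_union,
        Finset.mem_product]
      tauto
    · rw [Finset.disjoint_left]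
      intro z hz hz'
      simp only [Finset.mem_filter, Finset.mem_univ, true_and, Finset.mem_product] at hz hz'
      exact hz'.1 hz.1
  rw [hm] at h1 h2
  rw [hc]
  generalize (Finset.univ.filter P).card = m at *
  generalize (Finset.univ.filter (fun x => ¬ P x)).card = m' at *
  zify at *
  have e : (q:ℤ) = m + m' := hm'.symm
  rw [e] at h1 h2 ⊢
  nlinarith [mul_nonneg (sub_nonneg.mpr h1) (sub_nonneg.mpr h2)]

theorem card_chi_eq [Fintype K] {p k : ℕ} (hp : p.Prime) (hk : Fintype.card K = p ^ k) :
    9 * Nat.card {z : K × K // chi p k z.1 = 1 ↔ chi p k z.2 = 1} ≤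
      5 * Fintype.card K ^ 2 := by
  classical
  have hq : 1 < Fintype.card K := Fintype.one_lt_card
  have hk0 : k ≠ 0 := by
    rintro rfl
    rw [pow_zero] at hk
    omega
  have hcount : Fintype.card K ≤ 3 * (Finset.univ.filter (fun x : K => chi p k x = 1)).card ∧
      3 * (Finset.univ.filter (fun x : K => chi p k x = 1)).card ≤ 2 * Fintype.card K := by
    by_cases h2 : p = 2
    · subst h2
      have hchar : CharP K 2 := by
        have hc := CharP.exists K
        obtain ⟨r, hr⟩ := hc
        have hrp : r.Prime := by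
          rcases CharP.char_is_prime_or_zero K r with h | h
          · exact h
          · exfalso
            subst h
            have := CharP.cast_eq_zero_iff K 0 (Fintype.card K)
            rw [FiniteField.cast_card_eq_zero] at this
            have := this.mp rfl
            rw [zero_dvd_iff] at this
            omega
        have hd : r ∣ 2 ^ k := by
          rw [← hk]
          exact (CharP.cast_eq_zero_iff K r (Fintype.card K)).mp (FiniteField.cast_card_eq_zero K)
        have : r = 2 := (Nat.prime_dvd_prime_iff_eq hrp Nat.prime_two).mp (hrp.dvd_of_dvd_pow hd)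
        rw [← this]; exact hr
      have hchi : ∀ x : K, chi 2 k x = ∑ j ∈ Finset.range k, x ^ 2 ^ j := by
        intro x; simp [chi]
      have hfact : Fact (Nat.Prime 2) := ⟨Nat.prime_two⟩
      have hadd : ∀ x y : K, chi 2 k (x + y) = chi 2 k x + chi 2 k y := by
        intro x y
        rw [hchi, hchi, hchi, ← Finset.sum_add_distrib]
        apply Finset.sum_congr rfl
        intro j _
        exact add_pow_char_pow x y 2 j
      have hsq : ∀ x : K, chi 2 k x ^ 2 = chi 2 k x := by
        intro x
        rw [hchi, sum_pow_char 2]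
        have e1 : ∀ j ∈ Finset.range k, (x ^ 2 ^ j) ^ 2 = x ^ 2 ^ (j + 1) := by
          intro j _; rw [← pow_mul, ← pow_succ]
        rw [Finset.sum_congr rfl e1]
        have e2 := Finset.sum_range_succ (fun j => x ^ 2 ^ j) k
        have e3 := Finset.sum_range_succ' (fun j => x ^ 2 ^ j) k
        have e4 : x ^ 2 ^ k = x := by rw [← hk]; exact FiniteField.pow_card x
        rw [e2] at e3
        simp only [pow_zero, pow_one] at e3
        rw [e4] at e3
        exact (add_right_cancel e3).symm
      have h01 : ∀ x : K, chi 2 k x = 0 ∨ chi 2 k x = 1 := by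
        intro x
        have h := hsq x
        have : chi 2 k x * (chi 2 k x - 1) = 0 := by linear_combination h
        rcases mul_eq_zero.mp this with h | h
        · exact Or.inl h
        · exact Or.inr (sub_eq_zero.mp h)
      obtain ⟨x0, hx0⟩ : ∃ x0 : K, chi 2 k x0 = 1 := by
        by_contra hcon
        push Not at hcon
        have hall : ∀ x : K, chi 2 k x = 0 := fun x => (h01 x).resolve_right (hcon x)
        set T : K[X] := ∑ j ∈ Finset.range k, X ^ 2 ^ j with hT
        have heval : ∀ x : K, T.eval x = 0 := by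
          intro x
          rw [hT, eval_finsetSum]
          simp only [eval_pow, eval_X]
          rw [← hchi]; exact hall x
        have hdeg : T.natDegree ≤ 2 ^ (k - 1) := by
          rw [hT]
          apply natDegree_sum_le_of_forall_le
          intro j hj
          rw [natDegree_X_pow]
          apply Nat.pow_le_pow_right (by norm_num)
          rw [Finset.mem_range] at hj
          omega
        have hT0 : T = 0 := by
          by_contra hne
          have h1 := Polynomial.card_roots' T
          have h2 : Fintype.card K ≤ Multiset.card T.roots := by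
            have : (Finset.univ : Finset K) ⊆ T.roots.toFinset := by
              intro x _
              rw [Multiset.mem_toFinset, mem_roots hne]
              exact heval x
            calc Fintype.card K = (Finset.univ : Finset K).card := rfl
              _ ≤ T.roots.toFinset.card := Finset.card_le_card this
              _ ≤ Multiset.card T.roots := Multiset.toFinset_card_le _
          have h3 : 2 ^ (k - 1) < 2 ^ k := Nat.pow_lt_pow_right (by norm_num) (by omega)
          rw [hk] at h2
          omega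
        have hc : T.coeff 1 = 1 := by
          rw [hT, finsetSum_coeff]
          simp only [coeff_X_pow]
          rw [Finset.sum_eq_single 0]
          · simp
          · intro j _ hj
            rw [if_neg]
            have : 2 ≤ 2 ^ j := by
              calc 2 = 2 ^ 1 := by norm_num
                _ ≤ 2 ^ j := Nat.pow_le_pow_right (by norm_num) (by omega)
            omega
          · intro h
            exact absurd (Finset.mem_range.mpr (by omega)) h
        rw [hT0] at hc
        simp at hc
      have hbij : (Finset.univ.filter (fun x : K => chi 2 k x = 1)).card =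
          (Finset.univ.filter (fun x : K => ¬ chi 2 k x = 1)).card := by
        apply Finset.card_bij (fun x _ => x + x0)
        · intro x hx
          simp only [Finset.mem_filter, Finset.mem_univ, true_and] at hx ⊢
          rw [hadd, hx, hx0]
          have : (1:K) + 1 = 0 := CharTwo.add_self_eq_zero 1
          rw [this]; exact zero_ne_one
        · intro x _ y _ h
          exact add_right_cancel h
        · intro y hy
          simp only [Finset.mem_filter, Finset.mem_univ, true_and] at hy
          refine ⟨y + x0, ?_, ?_⟩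
          · simp only [Finset.mem_filter, Finset.mem_univ, true_and]
            rw [hadd, (h01 y).resolve_right hy, hx0, zero_add]
          · rw [add_assoc, CharTwo.add_self_eq_zero, add_zero]
      have htot : (Finset.univ.filter (fun x : K => chi 2 k x = 1)).card +
          (Finset.univ.filter (fun x : K => ¬ chi 2 k x = 1)).card = Fintype.card K := by
        rw [Finset.card_filter_add_card_filter_not]; rfl
      omega
    · have hodd : p % 2 = 1 := hp.eq_two_or_odd.resolve_left h2
      set n := (Fintype.card K - 1) / 2 with hn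
      have hqodd : Fintype.card K % 2 = 1 := by
        rw [hk, Nat.pow_mod, hodd]; simp
      have hq2 : Fintype.card K = 2 * n + 1 := by omega
      have hchi : ∀ x : K, chi p k x = x ^ n := by
        intro x
        simp only [chi, if_neg h2]
        rw [Finset.prod_pow_eq_pow_sum, ← pow_mul]
        congr 1
        have hg := Nat.geomSum_eq hp.two_le k
        have hp2 : p - 1 = 2 * (p / 2) := by omega
        have hmul : (p - 1) * ∑ j ∈ Finset.range k, p ^ j = p ^ k - 1 := by
          have h := Nat.geomSum_eq hp.two_le k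
          have hdvd : (p - 1) ∣ p ^ k - 1 := by
            have := Nat.sub_dvd_pow_sub_pow p 1 k
            simpa using this
          rw [h]
          exact Nat.mul_div_cancel' hdvd
        rw [← hk, hp2] at hmul
        have : 2 * ((∑ j ∈ Finset.range k, p ^ j) * (p / 2)) = Fintype.card K - 1 := by
          rw [← hmul]; ring
        omega
      have hn0 : 0 < n := by omega
      have hbound : ∀ a : K, (Finset.univ.filter (fun x : K => x ^ n = a)).card ≤ n := by
        intro a
        calc (Finset.univ.filter (fun x : K => x ^ n = a)).card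
            ≤ (nthRoots n a).toFinset.card := by
              apply Finset.card_le_card
              intro x hx
              simp only [Finset.mem_filter, Finset.mem_univ, true_and] at hx
              rw [Multiset.mem_toFinset, mem_nthRoots hn0]
              exact hx
          _ ≤ Multiset.card (nthRoots n a) := Multiset.toFinset_card_le _
          _ ≤ n := card_nthRoots n a
      have hcover : (Finset.univ : Finset K) ⊆ {0} ∪
          (Finset.univ.filter (fun x : K => x ^ n = 1) ∪
            Finset.univ.filter (fun x : K => x ^ n = -1)) := by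
        intro x _
        simp only [Finset.mem_union, Finset.mem_singleton, Finset.mem_filter, Finset.mem_univ,
          true_and]
        by_cases hx : x = 0
        · exact Or.inl hx
        · right
          have h1 : x ^ (Fintype.card K - 1) = 1 := FiniteField.pow_card_sub_one_eq_one x hx
          have h3 : Fintype.card K - 1 = n * 2 := by omega
          rw [h3, pow_mul] at h1
          have h8 : (x ^ n - 1) * (x ^ n + 1) = 0 := by linear_combination h1
          rcases mul_eq_zero.mp h8 with h | h
          · exact Or.inl (sub_eq_zero.mp h)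
          · exact Or.inr (eq_neg_of_add_eq_zero_left h)
      have h1 := Finset.card_le_card hcover
      have h3 := Finset.card_union_le ({0} : Finset K)
        (Finset.univ.filter (fun x : K => x ^ n = 1) ∪
            Finset.univ.filter (fun x : K => x ^ n = -1))
      have h4 := Finset.card_union_le (Finset.univ.filter (fun x : K => x ^ n = 1))
            (Finset.univ.filter (fun x : K => x ^ n = -1))
      rw [Finset.card_singleton] at h3
      have h5 := hbound 1
      have h6 := hbound (-1)
      have h7 : (Finset.univ : Finset K).card = Fintype.card K := rfl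
      simp only [hchi]
      omega
  have hm : Nat.card {x : K // chi p k x = 1} =
      (Finset.univ.filter (fun x : K => chi p k x = 1)).card := by
    rw [Nat.card_eq_fintype_card, Fintype.card_subtype]
  apply card_iff_le (fun x : K => chi p k x = 1)
  · rw [hm]; exact hcount.1
  · rw [hm]; exact hcount.2

end Pool.Agent.BiFac

end

section

/-!
# Most functionals are good
-/

set_option autoImplicit false

namespace Pool.Agent.BiFac

open Polynomial

variable {K : Type} [Field K]

private theorem tau_C_mul_aux (P h : K[X][X]) (c : K[X]) : tau P (C c * h) = c * tau P h := by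
  unfold tau
  rw [mul_assoc, ← smul_eq_C_mul, smul_modByMonic, coeff_smul, smul_eq_mul]

private theorem tau_sum_aux {ι : Type} (s : Finset ι) (P : K[X][X]) (h : ι → K[X][X]) :
    tau P (∑ i ∈ s, h i) = ∑ i ∈ s, tau P (h i) := by
  classical
  induction s using Finset.induction_on with
  | empty => simp [tau]
  | insert a s ha ih =>
    rw [Finset.sum_insert ha, Finset.sum_insert ha, ← ih]
    unfold tau
    rw [add_mul, add_modByMonic, coeff_add]

theorem Smu_hpoly {r d D : ℕ} (P : Fin r → K[X][X]) (μ : Fin r → K)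
    (c : Fin d → Fin (D + 1) → K) : Smu P μ (hpoly c) =
      ∑ k : Fin d, (∑ a, C (c k a) * X ^ (a : ℕ)) * Smu P μ (X ^ (k : ℕ)) := by
  unfold Smu hpoly
  simp_rw [tau_sum_aux, tau_C_mul_aux, Finset.mul_sum]
  rw [Finset.sum_comm]
  refine Finset.sum_congr rfl fun k _ => ?_
  refine Finset.sum_congr rfl fun i _ => ?_
  ring

theorem inW_iff_winMap {r d D ρ : ℕ} (P : Fin r → K[X][X]) (μ : Fin r → K)
    (c : Fin d → Fin (D + 1) → K) : InW P d D ρ (hpoly c) μ ↔
      winMap d D ρ (fun k => Smu P μ (X ^ (k : ℕ))) c = 0 := by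
  unfold InW
  rw [Smu_hpoly]
  constructor
  · intro h
    funext j
    rw [winMap_apply]
    exact h j j.2
  · intro h j hj
    have := congrFun h ⟨j, hj⟩
    rw [winMap_apply] at this
    exact this

/-- a vector that is not bad has a surjective window map -/
theorem winMap_surjective {r d D ρ : ℕ} (P : Fin r → K[X][X]) (μ : Fin r → K)
    (h : ¬ Bad P d ρ (D + d + ρ) μ) :
    Function.Surjective (winMap d D ρ (fun k : Fin d => Smu P μ (X ^ (k : ℕ)))) := by
  by_contra hcon
  apply h
  obtain ⟨Λ, h1, h2, h3⟩ := exists_denominator (D := D) (ρ := ρ)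
    (fun k : Fin d => Smu P μ (X ^ (k : ℕ))) hcon
  exact ⟨Λ, h1, h2, fun k hk => h3 ⟨k, hk⟩⟩

theorem card_bad_functionals [Fintype K] {r d D ρ : ℕ} (P : Fin r → K[X][X]) :
    Nat.card {c : Fin d → Fin (D + 1) → K //
      ∃ μ : Fin r → K, InW P d D ρ (hpoly c) μ ∧ ¬ Bad P d ρ (D + d + ρ) μ} *
      Fintype.card K ^ ρ ≤ Fintype.card K ^ r * Nat.card (Fin d → Fin (D + 1) → K) := by
  classical
  -- the bad functionals of one vector
  have h1 : ∀ μ : Fin r → K, ¬ Bad P d ρ (D + d + ρ) μ →
      Nat.card {c : Fin d → Fin (D + 1) → K // InW P d D ρ (hpoly c) μ} * Fintype.card K ^ ρ =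
        Nat.card (Fin d → Fin (D + 1) → K) := by
    intro μ hμ
    have hs := winMap_surjective P μ hμ
    set L := winMap d D ρ (fun k : Fin d => Smu P μ (X ^ (k : ℕ))) with hL
    have e1 : Nat.card {c : Fin d → Fin (D + 1) → K // InW P d D ρ (hpoly c) μ} =
        Nat.card (LinearMap.ker L) := by
      refine Nat.card_congr (Equiv.subtypeEquivRight fun c => ?_)
      rw [inW_iff_winMap, LinearMap.mem_ker]
    have e2 : Nat.card (Fin d → Fin (D + 1) → K) =
        Nat.card (LinearMap.ker L) * Nat.card ((Fin d → Fin (D + 1) → K) ⧸ LinearMap.ker L) :=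
      Submodule.card_eq_card_quotient_mul_card (LinearMap.ker L)
    have e3 : Nat.card ((Fin d → Fin (D + 1) → K) ⧸ LinearMap.ker L) = Nat.card (Fin ρ → K) :=
      Nat.card_congr (L.quotKerEquivOfSurjective hs).toEquiv
    rw [e1, e2, e3]
    simp [Nat.card_eq_fintype_card]
  -- the union bound
  have h2 : Nat.card {c : Fin d → Fin (D + 1) → K //
      ∃ μ : Fin r → K, InW P d D ρ (hpoly c) μ ∧ ¬ Bad P d ρ (D + d + ρ) μ} ≤
      ∑ μ : Fin r → K, if Bad P d ρ (D + d + ρ) μ then 0 else
        Nat.card {c : Fin d → Fin (D + 1) → K // InW P d D ρ (hpoly c) μ} := by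
    rw [Nat.card_eq_fintype_card, Fintype.card_subtype]
    have h3 : (Finset.univ.filter fun c : Fin d → Fin (D + 1) → K =>
        ∃ μ : Fin r → K, InW P d D ρ (hpoly c) μ ∧ ¬ Bad P d ρ (D + d + ρ) μ) ⊆
        (Finset.univ : Finset (Fin r → K)).biUnion fun μ =>
          if Bad P d ρ (D + d + ρ) μ then ∅ else
            Finset.univ.filter fun c : Fin d → Fin (D + 1) → K => InW P d D ρ (hpoly c) μ := by
      intro c hc
      obtain ⟨μ, hμ1, hμ2⟩ := (Finset.mem_filter.mp hc).2
      refine Finset.mem_biUnion.mpr ⟨μ, Finset.mem_univ _, ?_⟩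
      rw [if_neg hμ2]
      exact Finset.mem_filter.mpr ⟨Finset.mem_univ _, hμ1⟩
    refine (Finset.card_le_card h3).trans (Finset.card_biUnion_le.trans (Finset.sum_le_sum ?_))
    intro μ _
    split_ifs with hb
    · simp
    · rw [Nat.card_eq_fintype_card, Fintype.card_subtype]
  calc _ ≤ (∑ μ : Fin r → K, if Bad P d ρ (D + d + ρ) μ then 0 else
        Nat.card {c : Fin d → Fin (D + 1) → K // InW P d D ρ (hpoly c) μ}) *
          Fintype.card K ^ ρ := Nat.mul_le_mul_right _ h2
    _ = ∑ μ : Fin r → K, (if Bad P d ρ (D + d + ρ) μ then 0 else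
        Nat.card {c : Fin d → Fin (D + 1) → K // InW P d D ρ (hpoly c) μ}) *
          Fintype.card K ^ ρ := Finset.sum_mul _ _ _
    _ ≤ ∑ _μ : Fin r → K, Nat.card (Fin d → Fin (D + 1) → K) := by
        refine Finset.sum_le_sum fun μ _ => ?_
        split_ifs with hb
        · simp
        · exact (h1 μ hb).le
    _ = Fintype.card K ^ r * Nat.card (Fin d → Fin (D + 1) → K) := by
        rw [Finset.sum_const, smul_eq_mul, Finset.card_univ]
        congr 1
        simp

end Pool.Agent.BiFac

end

section

/-!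
# Descent from an extension field
-/

set_option autoImplicit false

namespace Pool.Agent.BiFac

open Polynomial

/-- the set of the conjugates -/
noncomputable def conj {L : Type} [Field L] (φ : L →+* L) (N : ℕ) (f : L[X][X]) :
    Finset L[X][X] := by
  classical exact (Finset.range N).image (fun i => (map2 φ)^[i] f)

namespace Desc

variable {K L : Type} [Field K] [Field L]

lemma coeff_map2 (φ : K →+* L) (F : K[X][X]) (i j : ℕ) :
    ((map2 φ F).coeff j).coeff i = φ ((F.coeff j).coeff i) := by
  simp [map2]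

lemma map2_injective (φ : K →+* L) : Function.Injective (map2 φ) := by
  unfold map2
  rw [coe_mapRingHom]
  exact map_injective _ (map_injective _ φ.injective)

lemma lc2_mul (F G : K[X][X]) : lc2 (F * G) = lc2 F * lc2 G := by
  unfold lc2
  rw [leadingCoeff_mul, leadingCoeff_mul]

lemma lc2_one : lc2 (1 : K[X][X]) = 1 := by
  unfold lc2
  rw [leadingCoeff_one, leadingCoeff_one]

lemma lc2_CC (c : K) : lc2 (C (C c)) = c := by
  unfold lc2
  rw [leadingCoeff_C, leadingCoeff_C]

lemma lc2_ne_zero {F : K[X][X]} (h : F ≠ 0) : lc2 F ≠ 0 := by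
  unfold lc2
  rw [Ne, leadingCoeff_eq_zero, leadingCoeff_eq_zero]
  exact h

lemma lc2_map2 (φ : K →+* L) (F : K[X][X]) : lc2 (map2 φ F) = φ (lc2 F) := by
  unfold lc2 map2
  rw [coe_mapRingHom, leadingCoeff_map_of_injective
    (show Function.Injective (mapRingHom φ) from map_injective _ φ.injective),
    coe_mapRingHom, leadingCoeff_map_of_injective φ.injective]

lemma lc2_pow (F : K[X][X]) (n : ℕ) : lc2 (F ^ n) = lc2 F ^ n := by
  induction n with
  | zero => rw [pow_zero, pow_zero, lc2_one]
  | succ n ih => rw [pow_succ, pow_succ, lc2_mul, ih]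

lemma lc2_prod {ι : Type*} (s : Finset ι) (f : ι → K[X][X]) :
    lc2 (∏ i ∈ s, f i) = ∏ i ∈ s, lc2 (f i) := by
  classical
  induction s using Finset.induction_on with
  | empty => rw [Finset.prod_empty, Finset.prod_empty, lc2_one]
  | insert a s ha ih => rw [Finset.prod_insert ha, Finset.prod_insert ha, lc2_mul, ih]

lemma isUnit_iff_CC {F : K[X][X]} : IsUnit F ↔ ∃ c : K, c ≠ 0 ∧ F = C (C c) := by
  constructor
  · intro h
    obtain ⟨r, hr, rfl⟩ := isUnit_iff.mp h
    obtain ⟨c, hc, rfl⟩ := isUnit_iff.mp hr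
    exact ⟨c, hc.ne_zero, rfl⟩
  · rintro ⟨c, hc, rfl⟩
    exact isUnit_C.mpr (isUnit_C.mpr (isUnit_iff_ne_zero.mpr hc))

lemma eq_of_associated {F G : K[X][X]} (h : Associated F G) (hF : lc2 F = 1) (hG : lc2 G = 1) :
    F = G := by
  obtain ⟨u, hu⟩ := h
  obtain ⟨c, hc, huc⟩ := isUnit_iff_CC.mp u.isUnit
  rw [huc] at hu
  have := congrArg lc2 hu
  rw [lc2_mul, hF, hG, lc2_CC, one_mul] at this
  rw [← hu, this]
  simp

lemma isUnit_of_map2 {φ : K →+* L} {F : K[X][X]} (h : IsUnit (map2 φ F)) : IsUnit F := by
  unfold map2 at h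
  rw [coe_mapRingHom] at h
  have h1 : Function.Injective (mapRingHom φ) := map_injective _ φ.injective
  obtain ⟨c, hc, he⟩ := isUnit_iff_CC.mp h
  rw [isUnit_iff_CC]
  have hd : F.natDegree = 0 := by
    rw [← natDegree_map_eq_of_injective h1, he, natDegree_C]
  rw [eq_C_of_natDegree_eq_zero hd] at he ⊢
  rw [map_C, C_inj, coe_mapRingHom] at he
  have hd' : (F.coeff 0).natDegree = 0 := by
    rw [← natDegree_map_eq_of_injective φ.injective, he, natDegree_C]
  rw [eq_C_of_natDegree_eq_zero hd'] at he ⊢
  rw [map_C, C_inj] at he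
  refine ⟨(F.coeff 0).coeff 0, ?_, rfl⟩
  intro h0
  rw [h0, map_zero] at he
  exact hc he.symm

end Desc

open Desc

section main

variable {K L : Type} [Field K] [Field L] [Fintype K] [Algebra K L]

lemma Desc.coeff_iter (φ : L →+* L) (n : ℕ) (F : L[X][X]) (i j : ℕ) :
    (((map2 φ)^[n] F).coeff j).coeff i = φ^[n] ((F.coeff j).coeff i) := by
  induction n generalizing F with
  | zero => rfl
  | succ n ih => rw [Function.iterate_succ_apply, Function.iterate_succ_apply, ih, coeff_map2]

lemma Desc.iter_N {φ : L →+* L} {N : ℕ} (hN' : ∀ x, φ^[N] x = x) (F : L[X][X]) :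
    (map2 φ)^[N] F = F := by
  ext j i
  rw [Desc.coeff_iter, hN']

lemma Desc.map2_fix (φ : L →+* L) (hφ : ∀ x, φ x = x ^ Fintype.card K) (F : K[X][X]) :
    map2 φ (map2 (algebraMap K L) F) = map2 (algebraMap K L) F := by
  ext j i
  rw [coeff_map2, coeff_map2, hφ, ← map_pow, FiniteField.pow_card]

lemma Desc.mem_range_of_fix {x : L} (h : x ^ Fintype.card K = x) :
    ∃ y : K, algebraMap K L y = x := by
  classical
  have hq : 1 < Fintype.card K := Fintype.one_lt_card
  set p : L[X] := X ^ Fintype.card K - X with hp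
  have hp0 : p ≠ 0 := FiniteField.X_pow_card_sub_X_ne_zero L hq
  have hsub : (Finset.univ.image (algebraMap K L)) ⊆ p.roots.toFinset := by
    intro z hz
    rw [Finset.mem_image] at hz
    obtain ⟨y, _, rfl⟩ := hz
    rw [Multiset.mem_toFinset, mem_roots hp0, IsRoot.def, hp]
    simp only [eval_sub, eval_pow, eval_X]
    rw [← map_pow, FiniteField.pow_card, sub_self]
  have hcard : (Finset.univ.image (algebraMap K L)).card = Fintype.card K := by
    rw [Finset.card_image_of_injective _ (algebraMap K L).injective, Finset.card_univ]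
  have hle : p.roots.toFinset.card ≤ Fintype.card K := by
    calc p.roots.toFinset.card ≤ Multiset.card p.roots := Multiset.toFinset_card_le _
      _ ≤ p.natDegree := card_roots' p
      _ = Fintype.card K := FiniteField.X_pow_card_sub_X_natDegree_eq L hq
  have heq := Finset.eq_of_subset_of_card_le hsub (by rw [hcard]; exact hle)
  have hx : x ∈ p.roots.toFinset := by
    rw [Multiset.mem_toFinset, mem_roots hp0, IsRoot.def, hp]
    simp [h]
  rw [← heq, Finset.mem_image] at hx
  obtain ⟨y, _, hy⟩ := hx
  exact ⟨y, hy⟩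

lemma Desc.exists_of_fix (φ : L →+* L) (hφ : ∀ x, φ x = x ^ Fintype.card K) {F : L[X][X]}
    (h : map2 φ F = F) : ∃ P : K[X][X], map2 (algebraMap K L) P = F := by
  have h1 : ∀ i j, ∃ y : K, algebraMap K L y = (F.coeff j).coeff i := by
    intro i j
    apply Desc.mem_range_of_fix
    rw [← hφ, ← coeff_map2, h]
  have h2 : ∀ j, F.coeff j ∈ (mapRingHom (algebraMap K L)).range := by
    intro j
    have : F.coeff j ∈ lifts (algebraMap K L) := by
      rw [lifts_iff_coeff_lifts]
      intro i
      obtain ⟨y, hy⟩ := h1 i j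
      exact ⟨y, hy⟩
    obtain ⟨g, hg⟩ := (mem_lifts _).mp this
    exact ⟨g, hg⟩
  have : F ∈ lifts (mapRingHom (algebraMap K L)) := by
    rw [lifts_iff_coeff_lifts]
    intro j
    obtain ⟨g, hg⟩ := h2 j
    exact ⟨g, hg⟩
  obtain ⟨P, hP⟩ := (mem_lifts _).mp this
  exact ⟨P, hP⟩

lemma Desc.bijective {φ : L →+* L} {N : ℕ} (hN : 0 < N) (hN' : ∀ x, φ^[N] x = x) :
    Function.Bijective (map2 φ) := by
  refine ⟨map2_injective φ, fun F => ⟨(map2 φ)^[N - 1] F, ?_⟩⟩
  rw [← Function.iterate_succ_apply' (map2 φ), Nat.succ_eq_add_one, Nat.sub_add_cancel hN,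
    Desc.iter_N hN']

lemma Desc.mem_conj {φ : L →+* L} {N : ℕ} (hN : 0 < N) (hN' : ∀ x, φ^[N] x = x)
    {f g : L[X][X]} : g ∈ conj φ N f ↔ ∃ k, g = (map2 φ)^[k] f := by
  classical
  unfold conj
  rw [Finset.mem_image]
  constructor
  · rintro ⟨i, _, rfl⟩
    exact ⟨i, rfl⟩
  · rintro ⟨k, rfl⟩
    refine ⟨k % N, Finset.mem_range.mpr (Nat.mod_lt _ hN), ?_⟩
    have h1 : ∀ m, (map2 φ)^[N * m] f = f := by
      intro m
      induction m with
      | zero => rfl
      | succ m ih => rw [Nat.mul_succ, Function.iterate_add_apply, Desc.iter_N hN', ih]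
    conv_rhs => rw [← Nat.mod_add_div k N, Function.iterate_add_apply, h1]

lemma Desc.self_mem_conj {φ : L →+* L} {N : ℕ} (hN : 0 < N) (hN' : ∀ x, φ^[N] x = x)
    (f : L[X][X]) : f ∈ conj φ N f := (Desc.mem_conj hN hN').mpr ⟨0, rfl⟩

lemma Desc.conj_eq {φ : L →+* L} {N : ℕ} (hN : 0 < N) (hN' : ∀ x, φ^[N] x = x)
    {f g : L[X][X]} (h : g ∈ conj φ N f) : conj φ N g = conj φ N f := by
  obtain ⟨i, rfl⟩ := (Desc.mem_conj hN hN').mp h
  have h1 : ∀ m, (map2 φ)^[N * m] f = f := by
    intro m
    induction m with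
    | zero => rfl
    | succ m ih => rw [Nat.mul_succ, Function.iterate_add_apply, Desc.iter_N hN', ih]
  ext q
  rw [Desc.mem_conj hN hN', Desc.mem_conj hN hN']
  constructor
  · rintro ⟨k, rfl⟩
    exact ⟨k + i, (Function.iterate_add_apply _ _ _ _).symm⟩
  · rintro ⟨k, rfl⟩
    refine ⟨k + (N * i - i), ?_⟩
    rw [← Function.iterate_add_apply]
    have : k + (N * i - i) + i = k + N * i := by
      have : i ≤ N * i := Nat.le_mul_of_pos_left i hN
      omega
    rw [this, Function.iterate_add_apply, h1]

lemma Desc.fix_prod {φ : L →+* L} {N : ℕ} (hN : 0 < N) (hN' : ∀ x, φ^[N] x = x)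
    (f : L[X][X]) : map2 φ (∏ g ∈ conj φ N f, g) = ∏ g ∈ conj φ N f, g := by
  classical
  rw [map_prod]
  have h1 : ∏ g ∈ (conj φ N f).image (map2 φ), g = ∏ g ∈ conj φ N f, map2 φ g :=
    Finset.prod_image (fun a _ b _ h => map2_injective φ h)
  rw [← h1]
  congr 1
  apply Finset.eq_of_subset_of_card_le
  · intro q hq
    rw [Finset.mem_image] at hq
    obtain ⟨g, hg, rfl⟩ := hq
    obtain ⟨k, rfl⟩ := (Desc.mem_conj hN hN').mp hg
    rw [Desc.mem_conj hN hN']
    exact ⟨k + 1, (Function.iterate_succ_apply' _ _ _).symm⟩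
  · rw [Finset.card_image_of_injective _ (map2_injective φ)]

end main

/-- The irreducible factors over the small field are the products of the conjugates of the
irreducible factors over the extension field. -/
theorem descent {K L : Type} [Field K] [Field L] [Fintype K] [Fintype L] [Algebra K L]
    (φ : L →+* L) (hφ : ∀ x, φ x = x ^ Fintype.card K) {N : ℕ} (hN : 0 < N)
    (hN' : ∀ x, φ^[N] x = x) {F : K[X][X]} (hF : F ≠ 0) {s : Finset L[X][X]}
    {e : L[X][X] → ℕ} {c : L} (hs : ∀ f ∈ s, Irreducible f ∧ lc2 f = 1 ∧ 0 < e f)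
    (hp : map2 (algebraMap K L) F = C (C c) * ∏ f ∈ s, f ^ e f) :
    ∃ (u : Finset K[X][X]) (m : K[X][X] → ℕ) (c' : K), c' ≠ 0 ∧
      (∀ P ∈ u, Irreducible P ∧ lc2 P = 1 ∧ 0 < m P) ∧ F = C (C c') * ∏ P ∈ u, P ^ m P ∧
      (∀ f ∈ s, conj φ N f ⊆ s ∧
        ∃ P ∈ u, map2 (algebraMap K L) P = ∏ g ∈ conj φ N f, g ∧ m P = e f) ∧
      (∀ P ∈ u, ∃ f ∈ s, map2 (algebraMap K L) P = ∏ g ∈ conj φ N f, g ∧ m P = e f) := by
  classical
  set ι := map2 (algebraMap K L) with hι
  have hιinj : Function.Injective ι := map2_injective _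
  -- the constant
  have hc : c = algebraMap K L (lc2 F) := by
    have h1 := congrArg lc2 hp
    rw [hι, lc2_map2, lc2_mul, lc2_CC, lc2_prod] at h1
    rw [h1, Finset.prod_eq_one, mul_one]
    intro f hf
    rw [lc2_pow, (hs f hf).2.1, one_pow]
  have hc0 : c ≠ 0 := by
    rw [hc]
    exact (_root_.map_ne_zero _).mpr (lc2_ne_zero hF)
  -- multiplicities
  have hprime : ∀ g : L[X][X], Irreducible g → Prime g := fun g hg => hg.prime
  have hmult : ∀ g : L[X][X], Irreducible g → lc2 g = 1 →
      emultiplicity g (ι F) = if g ∈ s then (e g : ℕ∞) else 0 := by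
    intro g hg hlg
    rw [hp, emultiplicity_mul (hprime g hg), Finset.emultiplicity_prod (hprime g hg)]
    have h1 : emultiplicity g (C (C c)) = 0 := by
      rw [emultiplicity_eq_zero]
      intro hd
      exact hg.not_isUnit (isUnit_of_dvd_unit hd (isUnit_iff_CC.mpr ⟨c, hc0, rfl⟩))
    rw [h1, zero_add]
    have h2 : ∀ f ∈ s, f ≠ g → emultiplicity g (f ^ e f) = 0 := by
      intro f hf hne
      rw [emultiplicity_eq_zero]
      intro hd
      have h3 := (hprime g hg).dvd_of_dvd_pow hd
      have h4 : Associated g f := hg.associated_of_dvd (hs f hf).1 h3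
      exact hne (eq_of_associated h4 hlg (hs f hf).2.1).symm
    split_ifs with hgs
    · rw [Finset.sum_eq_single g (fun f hf hne => h2 f hf hne) (fun h => absurd hgs h)]
      exact emultiplicity_pow_self hg.ne_zero hg.not_isUnit _
    · exact Finset.sum_eq_zero (fun f hf => h2 f hf (fun h => hgs (h ▸ hf)))
  -- the ring automorphism
  set Φ : L[X][X] ≃+* L[X][X] := RingEquiv.ofBijective (map2 φ) (Desc.bijective hN hN') with hΦ
  have hΦa : ∀ x, Φ x = map2 φ x := fun x => rfl
  have hstep : ∀ f ∈ s, map2 φ f ∈ s ∧ e (map2 φ f) = e f := by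
    intro f hf
    obtain ⟨h1, h2, h3⟩ := hs f hf
    have h4 : Irreducible (map2 φ f) := by
      rw [← hΦa]
      exact (MulEquiv.irreducible_iff Φ).mpr h1
    have h5 : lc2 (map2 φ f) = 1 := by rw [lc2_map2, h2, map_one]
    have h6 : emultiplicity (map2 φ f) (ι F) = emultiplicity f (ι F) := by
      have h7 : ι F = Φ (ι F) := by
        rw [hΦa, hι, Desc.map2_fix φ hφ]
      conv_lhs => rw [h7, ← hΦa]
      exact emultiplicity_map_eq Φ
    rw [hmult _ h4 h5, hmult _ h1 h2, if_pos hf] at h6
    split_ifs at h6 with h8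
    · exact ⟨h8, by exact_mod_cast h6⟩
    · exfalso
      have : e f = 0 := by exact_mod_cast h6.symm
      omega
  have hiter : ∀ k, ∀ f ∈ s, (map2 φ)^[k] f ∈ s ∧ e ((map2 φ)^[k] f) = e f := by
    intro k
    induction k with
    | zero => intro f hf; exact ⟨hf, rfl⟩
    | succ k ih =>
      intro f hf
      rw [Function.iterate_succ_apply']
      obtain ⟨h1, h2⟩ := ih f hf
      obtain ⟨h3, h4⟩ := hstep _ h1
      exact ⟨h3, h4.trans h2⟩
  have hconj : ∀ f ∈ s, ∀ g ∈ conj φ N f, g ∈ s ∧ e g = e f := by
    intro f hf g hg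
    obtain ⟨k, rfl⟩ := (Desc.mem_conj hN hN').mp hg
    exact hiter k f hf
  -- the factors over the small field
  have hex : ∀ f : L[X][X], ∃ P : K[X][X], ι P = ∏ g ∈ conj φ N f, g := fun f =>
    Desc.exists_of_fix φ hφ (Desc.fix_prod hN hN' f)
  choose P hP using hex
  have hmem : ∀ f ∈ s, ∀ g ∈ s, P g = P f → g ∈ conj φ N f := by
    intro f hf g hg h
    have h1 : g ∣ ∏ q ∈ conj φ N f, q := by
      rw [← hP, ← h, hP]
      exact Finset.dvd_prod_of_mem (fun q => q) (Desc.self_mem_conj hN hN' g)
    obtain ⟨q, hq, hgq⟩ := (hprime g (hs g hg).1).exists_mem_finset_dvd h1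
    obtain ⟨hqs, _⟩ := hconj f hf q hq
    have h2 := eq_of_associated ((hs g hg).1.associated_of_dvd (hs q hqs).1 hgq) (hs g hg).2.1
      (hs q hqs).2.1
    rw [h2]; exact hq
  have hmem' : ∀ f, ∀ g ∈ conj φ N f, P g = P f := by
    intro f g hg
    apply hιinj
    rw [hP, hP, Desc.conj_eq hN hN' hg]
  have hlc : ∀ f ∈ s, lc2 (P f) = 1 := by
    intro f hf
    have h1 := congrArg lc2 (hP f)
    rw [hι, lc2_map2, lc2_prod, Finset.prod_eq_one (fun g hg => (hs g (hconj f hf g hg).1).2.1)]
      at h1
    exact (algebraMap K L).injective (by rw [h1, map_one])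
  have hirr : ∀ f ∈ s, Irreducible (P f) := by
    intro f hf
    have hfd : f ∣ ι (P f) := by
      rw [hP]
      exact Finset.dvd_prod_of_mem (fun q => q) (Desc.self_mem_conj hN hN' f)
    have key : ∀ A B : K[X][X], P f = A * B → f ∣ ι A → IsUnit B := by
      intro A B hAB hfA
      have h1 : ∀ g ∈ conj φ N f, g ∣ ι A := by
        intro g hg
        obtain ⟨k, rfl⟩ := (Desc.mem_conj hN hN').mp hg
        clear hg
        induction k with
        | zero => exact hfA
        | succ k ih =>
          rw [Function.iterate_succ_apply']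
          have h2 := map_dvd (map2 φ) ih
          rwa [hι, Desc.map2_fix φ hφ] at h2
      have h2 : (∏ g ∈ conj φ N f, g) ∣ ι A := by
        apply Finset.prod_dvd_of_isRelPrime
        · intro g hg q hq hne
          obtain ⟨h3, h4, _⟩ := hs g (hconj f hf g hg).1
          obtain ⟨h5, h6, _⟩ := hs q (hconj f hf q hq).1
          change IsRelPrime g q
          rw [h3.isRelPrime_iff_not_dvd]
          intro hd
          exact hne (eq_of_associated (h3.associated_of_dvd h5 hd) h4 h6)
        · exact h1
      obtain ⟨D, hD⟩ := h2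
      rw [← hP, hAB, map_mul] at hD
      have hA0 : ι A ≠ 0 := by
        intro h0
        have h3 : ι (P f) = 0 := by rw [hAB, map_mul, h0, zero_mul]
        have h4 := congrArg lc2 h3
        rw [hι, lc2_map2, hlc f hf, map_one] at h4
        simp [lc2] at h4
      have h3 : ι A * 1 = ι A * (ι B * D) := by
        rw [mul_one, ← mul_assoc]; exact hD
      have h4 : ι B * D = 1 := (mul_left_cancel₀ hA0 h3).symm
      exact isUnit_of_map2 (IsUnit.of_mul_eq_one _ h4)
    refine ⟨?_, ?_⟩
    · intro hu
      have h1 : IsUnit (ι (P f)) := hu.map ι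
      exact (hs f hf).1.not_isUnit (isUnit_of_dvd_unit hfd h1)
    · intro A B hAB
      have h1 : f ∣ ι A * ι B := by rw [← map_mul, ← hAB]; exact hfd
      rcases (hprime f (hs f hf).1).dvd_or_dvd h1 with h | h
      · exact Or.inr (key A B hAB h)
      · exact Or.inl (key B A (by rw [hAB, mul_comm]) h)
  -- the multiplicities over the small field
  set m : K[X][X] → ℕ := fun Q => if h : ∃ f ∈ s, P f = Q then e h.choose else 1 with hm
  have hmP : ∀ f ∈ s, m (P f) = e f := by
    intro f hf
    have h : ∃ g ∈ s, P g = P f := ⟨f, hf, rfl⟩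
    have h1 : m (P f) = e h.choose := by
      rw [hm]
      simp only
      rw [dif_pos h]
    rw [h1]
    obtain ⟨h2, h3⟩ := h.choose_spec
    exact (hconj f hf _ (hmem f hf _ h2 h3)).2
  have hfib : ∀ f ∈ s, s.filter (fun g => P g = P f) = conj φ N f := by
    intro f hf
    ext g
    rw [Finset.mem_filter]
    constructor
    · rintro ⟨h1, h2⟩
      exact hmem f hf g h1 h2
    · intro h
      exact ⟨(hconj f hf g h).1, hmem' f g h⟩
  refine ⟨s.image P, m, lc2 F, lc2_ne_zero hF, ?_, ?_, ?_, ?_⟩
  · intro Q hQ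
    obtain ⟨f, hf, rfl⟩ := Finset.mem_image.mp hQ
    exact ⟨hirr f hf, hlc f hf, by rw [hmP f hf]; exact (hs f hf).2.2⟩
  · apply hιinj
    rw [map_mul, map_prod, hp]
    have h1 : ι (C (C (lc2 F))) = C (C c) := by
      rw [hc, hι]
      unfold map2
      simp
    rw [h1]
    congr 1
    rw [← Finset.prod_fiberwise_of_maps_to (g := P) (t := s.image P)
      (fun f hf => Finset.mem_image_of_mem P hf)]
    apply Finset.prod_congr rfl
    intro Q hQ
    obtain ⟨f, hf, rfl⟩ := Finset.mem_image.mp hQ
    rw [hfib f hf, map_pow, hP, hmP f hf, ← Finset.prod_pow]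
    apply Finset.prod_congr rfl
    intro g hg
    rw [(hconj f hf g hg).2]
  · intro f hf
    exact ⟨fun g hg => (hconj f hf g hg).1, P f, Finset.mem_image_of_mem P hf, hP f, hmP f hf⟩
  · intro Q hQ
    obtain ⟨f, hf, rfl⟩ := Finset.mem_image.mp hQ
    exact ⟨f, hf, hP f, hmP f hf⟩

end Pool.Agent.BiFac

end

section

/-!
# Modular factors and true factors
-/

set_option autoImplicit false

namespace Pool.Agent.BiFac

open Polynomial

variable {K : Type} [Field K]

theorem Lifted.red_eq {σ r : ℕ} {F : K[X][X]} {P : Fin r → K[X][X]} (h : Lifted σ F P) :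
    red F = ∏ i, red (P i) := by
  rw [h.prod.red h.pos, map_prod]

theorem Lifted.coprime {σ r : ℕ} {F : K[X][X]} {P : Fin r → K[X][X]} (h : Lifted σ F P)
    {i j : Fin r} (hij : i ≠ j) : IsCoprime (red (P i)) (red (P j)) := by
  classical
  have h1 : red (P i) * red (P j) ∣ red F := by
    rw [h.red_eq, ← Finset.prod_pair (f := fun i => red (P i)) hij]
    exact Finset.prod_dvd_prod_of_subset _ _ _ (Finset.subset_univ _)
  exact (h.sep.of_dvd h1).isCoprime

theorem Lifted.natDegree_pos {σ r : ℕ} {F : K[X][X]} {P : Fin r → K[X][X]} (h : Lifted σ F P)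
    (i : Fin r) : 0 < (P i).natDegree := by
  rw [← natDegree_red (h.monic_i i)]
  exact (h.irr i).natDegree_pos

theorem Lifted.natDegree_eq {σ r : ℕ} {F : K[X][X]} {P : Fin r → K[X][X]} (h : Lifted σ F P) :
    F.natDegree = ∑ i, (P i).natDegree := by
  rw [h.prod.natDegree_eq h.pos h.monic (monic_prod_of_monic _ _ fun i _ => h.monic_i i),
    natDegree_prod_of_monic _ _ fun i _ => h.monic_i i]

theorem Lifted.red_factor {σ r : ℕ} {F f : K[X][X]} {P : Fin r → K[X][X]} (h : Lifted σ F P)
    (hf : f.Monic) {g : K[X][X]} (hg : g.Monic) (hfg : F = f * g) [DecidablePred (Bel P f)] :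
    red f = ∏ i ∈ Finset.univ.filter (Bel P f), red (P i) ∧
    red g = ∏ i ∈ Finset.univ.filter (fun i => ¬ Bel P f i), red (P i) := by
  set A := ∏ i ∈ Finset.univ.filter (Bel P f), red (P i) with hA
  set B := ∏ i ∈ Finset.univ.filter (fun i => ¬ Bel P f i), red (P i) with hB
  have hAB : A * B = red f * red g := by
    rw [hA, hB, Finset.prod_filter_mul_prod_filter_not, ← h.red_eq, hfg, map_mul]
  have hAd : A ∣ red f := by
    apply Finset.prod_dvd_of_coprime
    · intro i _ j _ hij
      exact h.coprime hij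
    · intro i hi
      exact (Finset.mem_filter.1 hi).2
  have hBd : B ∣ red g := by
    apply Finset.prod_dvd_of_coprime
    · intro i _ j _ hij
      exact h.coprime hij
    · intro i hi
      have h1 : red (P i) ∣ red f * red g := by
        rw [← map_mul, ← hfg, h.red_eq]
        exact Finset.dvd_prod_of_mem _ (Finset.mem_univ _)
      rcases (h.irr i).prime.dvd_or_dvd h1 with h2 | h2
      · exact absurd h2 (Finset.mem_filter.1 hi).2
      · exact h2
  have hAm : A.Monic := monic_prod_of_monic _ _ fun i _ => monic_red (h.monic_i i)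
  have hBm : B.Monic := monic_prod_of_monic _ _ fun i _ => monic_red (h.monic_i i)
  have hfm := monic_red hf
  have hgm := monic_red hg
  have hdeg : A.natDegree + B.natDegree = (red f).natDegree + (red g).natDegree := by
    rw [← hAm.natDegree_mul hBm, ← hfm.natDegree_mul hgm, hAB]
  have h3 := natDegree_le_of_dvd hAd hfm.ne_zero
  have h4 := natDegree_le_of_dvd hBd hgm.ne_zero
  constructor
  · exact eq_of_monic_of_dvd_of_natDegree_le hAm hfm hAd (by omega)
  · exact eq_of_monic_of_dvd_of_natDegree_le hBm hgm hBd (by omega)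

theorem monic_of_dvd {F f g : K[X][X]} (hF : F.Monic) (hf : f.Monic) (h : F = f * g) :
    g.Monic := by
  rw [h] at hF
  exact hf.of_mul_monic_left hF

theorem Lifted.factor {σ r : ℕ} {F f : K[X][X]} {P : Fin r → K[X][X]} (h : Lifted σ F P)
    (hf : f.Monic) (hd : f ∣ F) [DecidablePred (Bel P f)] :
    Cg σ f (∏ i ∈ Finset.univ.filter (Bel P f), P i) ∧
    f.natDegree = ∑ i ∈ Finset.univ.filter (Bel P f), (P i).natDegree ∧
    red f = ∏ i ∈ Finset.univ.filter (Bel P f), red (P i) ∧ TDeg f.natDegree f := by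
  obtain ⟨g, hg⟩ := hd
  have hgm := monic_of_dvd h.monic hf hg
  obtain ⟨h1, h2⟩ := h.red_factor hf hgm hg
  refine ⟨?_, ?_, h1, TDeg.of_dvd_monic h.monic h.tdeg hf ⟨g, hg⟩⟩
  · refine (cg_of_coprime (f' := g)
      (b := ∏ i ∈ Finset.univ.filter (fun i => ¬ Bel P f i), P i) hf hgm
      (monic_prod_of_monic _ _ fun i _ => h.monic_i i)
      (monic_prod_of_monic _ _ fun i _ => h.monic_i i) ?_ ?_ ?_ ?_).1
    · rw [← hg, Finset.prod_filter_mul_prod_filter_not]
      exact h.prod
    · rw [h1, map_prod]
    · rw [h2, map_prod]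
    · rw [map_prod, map_prod]
      apply IsCoprime.prod_left
      intro i hi
      apply IsCoprime.prod_right
      intro j hj
      apply h.coprime
      rintro rfl
      exact (Finset.mem_filter.1 hj).2 (Finset.mem_filter.1 hi).2
  · rw [← natDegree_red hf, h1, natDegree_prod_of_monic _ _ fun i _ => monic_red (h.monic_i i)]
    exact Finset.sum_congr rfl fun i _ => natDegree_red (h.monic_i i)

/-- a divisor of a monic polynomial has a monic associate -/
theorem exists_monic_associated {F b : K[X][X]} (hF : F.Monic) (hd : b ∣ F) :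
    ∃ f : K[X][X], f.Monic ∧ Associated b f := by
  obtain ⟨c, hc⟩ := hd
  have h1 : b.leadingCoeff * c.leadingCoeff = 1 := by
    rw [← leadingCoeff_mul, ← hc]
    exact hF
  have hu : IsUnit b.leadingCoeff := IsUnit.of_mul_eq_one _ h1
  obtain ⟨u, hu⟩ := hu
  refine ⟨b * C (↑u⁻¹ : K[X]), ?_, ?_⟩
  · unfold Monic
    rw [leadingCoeff_mul, leadingCoeff_C, ← hu, Units.mul_inv]
  · have h2 : IsUnit (C (↑u⁻¹ : K[X]) : K[X][X]) := isUnit_C.2 (Units.isUnit _)
    obtain ⟨v, hv⟩ := h2
    exact ⟨v, by rw [hv]⟩

theorem bel_of_associated {r : ℕ} {P : Fin r → K[X][X]} {f g : K[X][X]} (h : Associated f g)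
    {i : Fin r} (hi : Bel P f i) : Bel P g i := by
  obtain ⟨u, hu⟩ := h
  unfold Bel at hi ⊢
  rw [← hu, map_mul]
  exact hi.mul_right _

theorem Lifted.exists_factor {σ r : ℕ} {F : K[X][X]} {P : Fin r → K[X][X]} (h : Lifted σ F P)
    (i : Fin r) : ∃ f, Irreducible f ∧ f.Monic ∧ f ∣ F ∧ Bel P f i := by
  obtain ⟨s, hs, hprod⟩ := UniqueFactorizationMonoid.exists_prime_factors F h.monic.ne_zero
  have h1 : red (P i) ∣ (s.map red).prod := by
    rw [← map_multiset_prod]
    obtain ⟨u, hu⟩ := hprod.symm
    rw [← hu, map_mul]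
    refine Dvd.dvd.mul_right ?_ _
    rw [h.red_eq]
    exact Finset.dvd_prod_of_mem _ (Finset.mem_univ _)
  obtain ⟨b, hb, hbd⟩ := (h.irr i).prime.exists_mem_multiset_map_dvd h1
  have hbF : b ∣ F := (Multiset.dvd_prod hb).trans hprod.dvd
  obtain ⟨f, hf, hbf⟩ := exists_monic_associated h.monic hbF
  exact ⟨f, hbf.irreducible (hs b hb).irreducible, hf, hbf.symm.dvd.trans hbF,
    bel_of_associated hbf hbd⟩

theorem Lifted.factor_unique {σ r : ℕ} {F f g : K[X][X]} {P : Fin r → K[X][X]}
    (h : Lifted σ F P) (hf : Irreducible f) (hfm : f.Monic) (hfd : f ∣ F) (hg : Irreducible g)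
    (hgm : g.Monic) (hgd : g ∣ F) {i : Fin r} (hi : Bel P f i) (hi' : Bel P g i) : f = g := by
  obtain ⟨k, hk⟩ := hgd
  rw [hk] at hfd
  rcases hf.prime.dvd_or_dvd hfd with h1 | h1
  · have h2 : Associated f g := hf.associated_of_dvd hg h1
    exact eq_of_monic_of_associated hfm hgm h2
  · exfalso
    have h2 : red (P i) * red (P i) ∣ red F := by
      rw [hk, map_mul]
      exact mul_dvd_mul hi' (dvd_trans hi (map_dvd red h1))
    exact (h.irr i).not_isUnit (h.sep.squarefree _ h2)

theorem Lifted.exists_bel {σ r : ℕ} {F f : K[X][X]} {P : Fin r → K[X][X]} (h : Lifted σ F P)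
    (hf : Irreducible f) (hfd : f ∣ F) : ∃ i, Bel P f i := by
  classical
  obtain ⟨g, hg, hfg⟩ := exists_monic_associated h.monic hfd
  by_contra hno
  push Not at hno
  have hno' : ∀ i, ¬ Bel P g i := fun i hi => hno i (bel_of_associated hfg.symm hi)
  have h1 := (h.factor hg (hfg.symm.dvd.trans hfd)).2.1
  rw [Finset.filter_false_of_mem (fun i _ => hno' i), Finset.sum_empty] at h1
  have h2 : g = 1 := hg.natDegree_eq_zero.1 h1
  rw [h2] at hfg
  exact hf.not_isUnit ((associated_one_iff_isUnit).1 hfg)

theorem Lifted.squarefree {σ r : ℕ} {F : K[X][X]} {P : Fin r → K[X][X]} (h : Lifted σ F P) :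
    Squarefree F := by
  intro x hx
  obtain ⟨g, hg, hxg⟩ := exists_monic_associated h.monic ((Dvd.intro _ rfl).trans hx)
  have h1 : g * g ∣ F := (hxg.mul_mul hxg).symm.dvd.trans hx
  have h2 : IsUnit (red g) := by
    apply h.sep.squarefree
    rw [← map_mul]
    exact map_dvd red h1
  have h3 : (red g).natDegree = 0 := natDegree_eq_zero_of_isUnit h2
  rw [natDegree_red hg] at h3
  have h4 : g = 1 := hg.natDegree_eq_zero.1 h3
  rw [h4] at hxg
  exact (associated_one_iff_isUnit).1 hxg

end Pool.Agent.BiFac

end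

section

/-!
# Multiplicities on the fibre
-/

set_option autoImplicit false

namespace Pool.Agent.BiFac

open Polynomial

variable {K : Type} [Field K]

private theorem fib_pow_unique {p a b : K[X]} (hp : Prime p) {m n : ℕ} (ha : ¬ p ∣ a)
    (hb : ¬ p ∣ b) (h : p ^ m * a = p ^ n * b) : m = n := by
  rcases lt_trichotomy m n with hmn | hmn | hmn
  · exfalso
    obtain ⟨k, rfl⟩ := Nat.exists_eq_add_of_lt hmn
    apply ha
    have h1 : p ^ m * a = p ^ m * (p * (p ^ k * b)) := by
      rw [h]
      ring
    have h2 := mul_left_cancel₀ (pow_ne_zero m hp.ne_zero) h1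
    exact ⟨_, h2⟩
  · exact hmn
  · exfalso
    obtain ⟨k, rfl⟩ := Nat.exists_eq_add_of_lt hmn
    apply hb
    have h1 : p ^ n * b = p ^ n * (p * (p ^ k * a)) := by
      rw [← h]
      ring
    have h2 := mul_left_cancel₀ (pow_ne_zero n hp.ne_zero) h1
    exact ⟨_, h2⟩

private theorem fib_dvd_list {p : K[X]} (hp : Prime p) {gs : List (K[X] × ℕ)}
    (h : p ∣ (gs.map (fun z => z.1 ^ z.2)).prod) : ∃ z ∈ gs, p ∣ z.1 := by
  rw [Prime.dvd_prod_iff hp] at h
  obtain ⟨a, ha, hd⟩ := h
  obtain ⟨z, hz, rfl⟩ := List.mem_map.1 ha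
  exact ⟨z, hz, hp.dvd_of_dvd_pow hd⟩

private theorem fib_eq_of_dvd {a b : K[X]} (ha : Irreducible a) (hb : Irreducible b)
    (ha' : a.Monic) (hb' : b.Monic) (h : a ∣ b) : a = b :=
  eq_of_monic_of_associated ha' hb' ((Irreducible.dvd_irreducible_iff_associated ha hb).1 h)

/-- the multiplicity of a factor can be read off at any of its modular factors -/
theorem fibre_mult {s : Finset K[X][X]} {e : K[X][X] → ℕ}
    (hs : ∀ f ∈ s, Irreducible f ∧ f.Monic ∧ 0 < e f) (hsep : (red (∏ f ∈ s, f)).Separable)
    {gs : List (K[X] × ℕ)} (hg : ∀ z ∈ gs, Irreducible z.1 ∧ z.1.Monic ∧ 0 < z.2)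
    (hn : (gs.map Prod.fst).Nodup)
    (hp : red (∏ f ∈ s, f ^ e f) = (gs.map (fun z => z.1 ^ z.2)).prod) {f : K[X][X]} (hf : f ∈ s)
    {z : K[X] × ℕ} (hz : z ∈ gs) (hd : z.1 ∣ red f) : z.2 = e f := by
  classical
  have hsq : Squarefree (red (∏ f ∈ s, f)) := hsep.squarefree
  obtain ⟨hzi, hzm, hz0⟩ := hg z hz
  have hzp : Prime z.1 := hzi.prime
  -- split the list
  obtain ⟨l1, l2, hl⟩ := List.append_of_mem hz
  have hR : ¬ z.1 ∣ ((l1 ++ l2).map (fun z => z.1 ^ z.2)).prod := by
    intro h
    obtain ⟨w, hw, hwd⟩ := fib_dvd_list hzp h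
    have hwg : w ∈ gs := by
      rw [hl]
      rcases List.mem_append.1 hw with h1 | h1
      · exact List.mem_append_left _ h1
      · exact List.mem_append_right _ (List.mem_cons_of_mem _ h1)
    obtain ⟨hwi, hwm, _⟩ := hg w hwg
    have hzw : z.1 = w.1 := fib_eq_of_dvd hzi hwi hzm hwm hwd
    rw [hl, List.map_append, List.map_cons] at hn
    have hn2 : (z.1 :: ((l1 ++ l2).map Prod.fst)).Nodup := by
      rw [List.map_append]
      exact (List.nodup_middle).1 hn
    apply (List.nodup_cons.1 hn2).1
    rw [hzw]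
    exact List.mem_map.2 ⟨w, hw, rfl⟩
  have hprod : (gs.map (fun z => z.1 ^ z.2)).prod =
      z.1 ^ z.2 * ((l1 ++ l2).map (fun z => z.1 ^ z.2)).prod := by
    rw [hl]
    simp only [List.map_append, List.map_cons, List.prod_append, List.prod_cons]
    ring
  -- split the product over s
  obtain ⟨u, hu⟩ := hd
  have hsplit : red (∏ f ∈ s, f) = red f * red (∏ g ∈ s.erase f, g) := by
    rw [← map_mul, Finset.mul_prod_erase s (fun g => g) hf]
  have hzu : ¬ z.1 ∣ u := by
    rintro ⟨v, hv⟩
    apply hzp.not_isUnit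
    apply hsq
    rw [hsplit, hu, hv]
    exact ⟨v * red (∏ g ∈ s.erase f, g), by ring⟩
  have hR' : ¬ z.1 ∣ red (∏ g ∈ s.erase f, g ^ e g) := by
    intro h
    rw [map_prod, Prime.dvd_finsetProd_iff hzp] at h
    obtain ⟨g, hg1, hg2⟩ := h
    rw [map_pow] at hg2
    have hg3 := hzp.dvd_of_dvd_pow hg2
    have hg4 : red g ∣ red (∏ g ∈ s.erase f, g) := by
      rw [map_prod]
      exact Finset.dvd_prod_of_mem (fun g => red g) hg1
    obtain ⟨v, hv⟩ := hg3.trans hg4
    apply hzp.not_isUnit
    apply hsq
    rw [hsplit, hu, hv]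
    exact ⟨u * v, by ring⟩
  have hmain : z.1 ^ z.2 * ((l1 ++ l2).map (fun z => z.1 ^ z.2)).prod =
      z.1 ^ e f * (u ^ e f * red (∏ g ∈ s.erase f, g ^ e g)) := by
    rw [← hprod, ← hp, ← Finset.mul_prod_erase s (fun g => g ^ e g) hf, map_mul, map_pow, hu]
    ring
  refine fib_pow_unique hzp hR ?_ hmain
  intro h
  rcases hzp.dvd_or_dvd h with h1 | h1
  · exact hzu (hzp.dvd_of_dvd_pow h1)
  · exact hR' h1

private theorem fib_list_dvd {L : List K[X]} (hL : ∀ a ∈ L, Irreducible a ∧ a.Monic)
    (hn : L.Nodup) {N : K[X]} (hN : ∀ a ∈ L, a ∣ N) : L.prod ∣ N := by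
  induction L with
  | nil => simp
  | cons a L ih =>
    rw [List.prod_cons]
    rw [List.nodup_cons] at hn
    have h1 : L.prod ∣ N := ih (fun b hb => hL b (List.mem_cons_of_mem _ hb)) hn.2
      (fun b hb => hN b (List.mem_cons_of_mem _ hb))
    obtain ⟨hai, ham⟩ := hL a List.mem_cons_self
    have h2 : IsCoprime a L.prod := by
      rw [Irreducible.coprime_iff_not_dvd hai]
      intro h
      rw [Prime.dvd_prod_iff hai.prime] at h
      obtain ⟨b, hb, hab⟩ := h
      obtain ⟨hbi, hbm⟩ := hL b (List.mem_cons_of_mem _ hb)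
      have := fib_eq_of_dvd hai hbi ham hbm hab
      rw [this] at hn
      exact hn.1 hb
    exact h2.mul_dvd (hN a List.mem_cons_self) h1

private theorem fib_squarefree_dvd {a b : K[X]} (ha : Squarefree a) (hb : b ≠ 0)
    (h : ∀ q : K[X], Irreducible q → q ∣ a → q ∣ b) : a ∣ b := by
  classical
  have ha0 : a ≠ 0 := ha.ne_zero
  rw [UniqueFactorizationMonoid.dvd_iff_normalizedFactors_le_normalizedFactors ha0 hb]
  rw [Multiset.le_iff_subset
    ((UniqueFactorizationMonoid.squarefree_iff_nodup_normalizedFactors ha0).1 ha)]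
  intro q hq
  have hqi : Irreducible q := UniqueFactorizationMonoid.irreducible_of_normalized_factor q hq
  have hqn : normalize q = q := UniqueFactorizationMonoid.normalize_normalized_factor q hq
  have hqa : q ∣ a := UniqueFactorizationMonoid.dvd_of_mem_normalizedFactors hq
  rw [UniqueFactorizationMonoid.mem_normalizedFactors_iff' hb]
  exact ⟨hqi, hqn, h q hqi hqa⟩

theorem fibre_group {s : Finset K[X][X]} {e : K[X][X] → ℕ}
    (hs : ∀ f ∈ s, Irreducible f ∧ f.Monic ∧ 0 < e f) (hsep : (red (∏ f ∈ s, f)).Separable)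
    {gs : List (K[X] × ℕ)} (hg : ∀ z ∈ gs, Irreducible z.1 ∧ z.1.Monic ∧ 0 < z.2)
    (hn : (gs.map Prod.fst).Nodup)
    (hp : red (∏ f ∈ s, f ^ e f) = (gs.map (fun z => z.1 ^ z.2)).prod) {m : ℕ} (hm : 0 < m) :
    red (∏ f ∈ s.filter (fun f => e f = m), f) =
      ((gs.filter (fun z => decide (z.2 = m))).map Prod.fst).prod := by
  classical
  have hsq : Squarefree (red (∏ f ∈ s, f)) := hsep.squarefree
  set L : List K[X] := (gs.filter (fun z => decide (z.2 = m))).map Prod.fst with hLdef
  have hmemL : ∀ a, a ∈ L ↔ ∃ z ∈ gs, z.2 = m ∧ z.1 = a := by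
    intro a
    rw [hLdef, List.mem_map]
    constructor
    · rintro ⟨z, hz, rfl⟩
      rw [List.mem_filter] at hz
      exact ⟨z, hz.1, by simpa using hz.2, rfl⟩
    · rintro ⟨z, hz, hzm, rfl⟩
      exact ⟨z, List.mem_filter.2 ⟨hz, by simpa using hzm⟩, rfl⟩
  have hLirr : ∀ a ∈ L, Irreducible a ∧ a.Monic := by
    intro a ha
    obtain ⟨z, hz, _, rfl⟩ := (hmemL a).1 ha
    exact ⟨(hg z hz).1, (hg z hz).2.1⟩
  have hLn : L.Nodup := by
    refine List.Nodup.sublist ?_ hn
    exact (List.filter_sublist).map _
  have hmonL : L.prod.Monic := by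
    rw [← Multiset.prod_coe, ← Multiset.map_id (L : Multiset K[X])]
    exact monic_multiset_prod_of_monic _ _ fun a ha => (hLirr a ha).2
  have hmonS : (red (∏ f ∈ s.filter (fun f => e f = m), f)).Monic := by
    rw [map_prod]
    exact monic_prod_of_monic _ _ fun f hf => ((hs f (Finset.mem_filter.1 hf).1).2.1).map _
  have hdvdS : red (∏ f ∈ s.filter (fun f => e f = m), f) ∣ red (∏ f ∈ s, f) :=
    map_dvd red (Finset.prod_dvd_prod_of_subset _ _ _ (Finset.filter_subset _ _))
  apply eq_of_monic_of_associated hmonS hmonL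
  apply associated_of_dvd_dvd
  · apply fib_squarefree_dvd (hsq.squarefree_of_dvd hdvdS) hmonL.ne_zero
    intro q hq hqd
    rw [map_prod, Prime.dvd_finsetProd_iff hq.prime] at hqd
    obtain ⟨f, hf, hqf⟩ := hqd
    obtain ⟨hfs, hfm⟩ := Finset.mem_filter.1 hf
    have h1 : q ∣ (gs.map (fun z => z.1 ^ z.2)).prod := by
      rw [← hp, map_prod]
      refine Dvd.dvd.trans ?_ (Finset.dvd_prod_of_mem (fun g => red (g ^ e g)) hfs)
      simp only [map_pow]
      exact dvd_pow hqf (hs f hfs).2.2.ne'
    obtain ⟨z, hz, hqz⟩ := fib_dvd_list hq.prime h1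
    have hass : Associated q z.1 :=
      (Irreducible.dvd_irreducible_iff_associated hq (hg z hz).1).1 hqz
    have hzf : z.1 ∣ red f := hass.dvd_iff_dvd_left.1 hqf
    have hzm : z.2 = e f := fibre_mult hs hsep hg hn hp hfs hz hzf
    refine hqz.trans (List.dvd_prod ?_)
    exact (hmemL _).2 ⟨z, hz, hzm.trans hfm, rfl⟩
  · apply fib_list_dvd hLirr hLn
    intro a ha
    obtain ⟨z, hz, hzm, rfl⟩ := (hmemL a).1 ha
    have hzp : Prime z.1 := (hg z hz).1.prime
    have h1 : z.1 ∣ red (∏ f ∈ s, f ^ e f) := by
      rw [hp]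
      refine Dvd.dvd.trans ?_ (List.dvd_prod (List.mem_map.2 ⟨z, hz, rfl⟩))
      exact dvd_pow_self _ (hg z hz).2.2.ne'
    rw [map_prod, Prime.dvd_finsetProd_iff hzp] at h1
    obtain ⟨f, hf, hzf⟩ := h1
    rw [map_pow] at hzf
    have hzf' := hzp.dvd_of_dvd_pow hzf
    have hzm' : z.2 = e f := fibre_mult hs hsep hg hn hp hf hz hzf'
    rw [map_prod]
    refine hzf'.trans (Finset.dvd_prod_of_mem (fun g => red g) ?_)
    exact Finset.mem_filter.2 ⟨hf, by rw [← hzm', hzm]⟩

end Pool.Agent.BiFac

end

section

/-!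
# Counting irreducible polynomials in one variable over a finite field (T19)
-/

set_option autoImplicit false

namespace Pool.Agent.BiFac

open Polynomial

variable {K : Type} [Field K]

lemma two_sum_properDivisors_le {q n : ℕ} (hq : 2 ≤ q) (hn : 0 < n) :
    2 * ∑ d ∈ n.properDivisors, q ^ d ≤ q ^ n := by
  rcases Nat.lt_or_ge n 3 with h3 | h3
  · interval_cases n
    · simp
    · have : Nat.properDivisors 2 = {1} := by decide
      rw [this, Finset.sum_singleton, pow_one, pow_two]
      exact Nat.mul_le_mul_right q hq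
  · have h1 : ∑ d ∈ n.properDivisors, q ^ d ≤ ∑ d ∈ Finset.range (n / 2 + 1), q ^ d := by
      refine Finset.sum_le_sum_of_subset ?_
      intro d hd
      rw [Nat.mem_properDivisors] at hd
      rw [Finset.mem_range]
      obtain ⟨k, hk⟩ := hd.1
      have hk2 : 2 ≤ k := by
        by_contra hlt
        have : k = 0 ∨ k = 1 := by omega
        rcases this with h | h
        · subst h; omega
        · subst h; omega
      have : d * 2 ≤ d * k := Nat.mul_le_mul_left d hk2
      omega
    have h2 : ∑ d ∈ Finset.range (n / 2 + 1), q ^ d < q ^ (n / 2 + 1) :=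
      Nat.geomSum_lt hq (fun d hd => Finset.mem_range.mp hd)
    have h4 : 2 * q ^ (n / 2 + 1) ≤ q ^ n := by
      calc 2 * q ^ (n / 2 + 1) ≤ q * q ^ (n / 2 + 1) := Nat.mul_le_mul_right _ hq
        _ = q ^ (n / 2 + 2) := by ring
        _ ≤ q ^ n := Nat.pow_le_pow_right (by omega) (by omega)
    omega

lemma monic_eq_mpoly {n : ℕ} {f : K[X]} (hf : f.Monic) (hn : f.natDegree = n) :
    f = mpoly (fun i : Fin n => f.coeff i) := by
  subst hn
  conv_lhs => rw [hf.as_sum]
  rw [mpoly, Finset.sum_range]

lemma card_fixed_le {E : Type} [Field E] [Fintype E] [DecidableEq E] {m : ℕ} (hm : 1 < m) :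
    (Finset.univ.filter (fun x : E => x ^ m = x)).card ≤ m := by
  have hne : (X ^ m - X : E[X]) ≠ 0 := FiniteField.X_pow_card_sub_X_ne_zero E hm
  have hdeg : (X ^ m - X : E[X]).natDegree = m := FiniteField.X_pow_card_sub_X_natDegree_eq E hm
  calc (Finset.univ.filter (fun x : E => x ^ m = x)).card
      ≤ (X ^ m - X : E[X]).roots.toFinset.card := by
        refine Finset.card_le_card ?_
        intro x hx
        rw [Finset.mem_filter] at hx
        rw [Multiset.mem_toFinset, mem_roots hne]
        simp [IsRoot, hx.2]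
    _ ≤ (X ^ m - X : E[X]).roots.card := Multiset.toFinset_card_le _
    _ ≤ (X ^ m - X : E[X]).natDegree := card_roots' _
    _ = m := hdeg

theorem card_irreducible_ge [Fintype K] {n : ℕ} (hn : 0 < n) :
    Fintype.card K ^ n ≤ 2 * n * Nat.card {c : Fin n → K // Irreducible (mpoly c)} := by
  classical
  obtain ⟨p, hp⟩ := CharP.exists K
  haveI : Fact (Nat.Prime p) := ⟨CharP.char_is_prime K p⟩
  haveI : NeZero n := ⟨by omega⟩
  let E := FiniteField.Extension K p n
  haveI : Fintype E := Fintype.ofFinite E
  have hq : 2 ≤ Fintype.card K := Fintype.one_lt_card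
  have hE : Fintype.card E = Fintype.card K ^ n := by
    rw [Fintype.card_eq_nat_card, Fintype.card_eq_nat_card, FiniteField.natCard_extension]
  have hint : ∀ x : E, IsIntegral K x := fun x => Algebra.IsIntegral.isIntegral x
  -- elements of smaller degree
  have hB : (Finset.univ.filter (fun x : E => ¬ (minpoly K x).natDegree = n)).card ≤
      ∑ d ∈ n.properDivisors, Fintype.card K ^ d := by
    calc (Finset.univ.filter (fun x : E => ¬ (minpoly K x).natDegree = n)).card
        ≤ (n.properDivisors.biUnion (fun d => Finset.univ.filter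
            (fun x : E => x ^ (Fintype.card K ^ d) = x))).card := by
          refine Finset.card_le_card ?_
          intro x hx
          rw [Finset.mem_filter] at hx
          rw [Finset.mem_biUnion]
          have hirr := minpoly.irreducible (hint x)
          have hdvd : (minpoly K x).natDegree ∣ n := by
            have := minpoly.degree_dvd (hint x)
            rwa [FiniteField.finrank_extension] at this
          refine ⟨(minpoly K x).natDegree, ?_, ?_⟩
          · rw [Nat.mem_properDivisors]
            exact ⟨hdvd, lt_of_le_of_ne (Nat.le_of_dvd hn hdvd) hx.2⟩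
          · rw [Finset.mem_filter]
            refine ⟨Finset.mem_univ _, ?_⟩
            have h := (hirr.natDegree_dvd_iff_dvd_X_pow_card_pow_sub_X
              (n := (minpoly K x).natDegree)).mp dvd_rfl
            obtain ⟨r, hr⟩ := h
            have h2 := congrArg (aeval x) hr
            rw [map_mul, minpoly.aeval, zero_mul] at h2
            simp only [map_sub, map_pow, aeval_X] at h2
            rw [Fintype.card_eq_nat_card]
            exact sub_eq_zero.mp h2
      _ ≤ ∑ d ∈ n.properDivisors, (Finset.univ.filter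
            (fun x : E => x ^ (Fintype.card K ^ d) = x)).card := Finset.card_biUnion_le
      _ ≤ ∑ d ∈ n.properDivisors, Fintype.card K ^ d := by
          refine Finset.sum_le_sum (fun d hd => card_fixed_le ?_)
          have hd0 : d ≠ 0 := by
            rw [Nat.mem_properDivisors] at hd
            rintro rfl
            have := Nat.eq_zero_of_zero_dvd hd.1
            omega
          exact Nat.one_lt_pow hd0 (by omega)
  -- elements of degree n
  have hA : (Finset.univ.filter (fun x : E => (minpoly K x).natDegree = n)).card ≤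
      n * Nat.card {c : Fin n → K // Irreducible (mpoly c)} := by
    have hcard : Nat.card {c : Fin n → K // Irreducible (mpoly c)} =
        (Finset.univ.filter (fun c : Fin n → K => Irreducible (mpoly c))).card := by
      rw [Nat.card_eq_fintype_card, Fintype.card_subtype]
    rw [hcard]
    refine le_trans (Finset.card_le_mul_card_image
      (f := fun x : E => (fun i : Fin n => (minpoly K x).coeff i)) _ n ?_) ?_
    · intro c hc
      rw [Finset.mem_image] at hc
      obtain ⟨x0, hx0, rfl⟩ := hc
      rw [Finset.mem_filter] at hx0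
      have hmon := minpoly.monic (hint x0)
      have hne : (minpoly K x0).map (algebraMap K E) ≠ 0 := (hmon.map _).ne_zero
      calc (Finset.filter (fun x : E => (fun i : Fin n => (minpoly K x).coeff i) =
            (fun i : Fin n => (minpoly K x0).coeff i))
            (Finset.univ.filter (fun x : E => (minpoly K x).natDegree = n))).card
          ≤ ((minpoly K x0).map (algebraMap K E)).roots.toFinset.card := by
            refine Finset.card_le_card ?_
            intro x hx
            rw [Finset.mem_filter, Finset.mem_filter] at hx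
            rw [Multiset.mem_toFinset, mem_roots hne]
            have e1 := monic_eq_mpoly (minpoly.monic (hint x)) hx.1.2
            have e2 := monic_eq_mpoly hmon hx0.2
            have e3 : minpoly K x = minpoly K x0 := by
              rw [e1, e2, hx.2]
            rw [IsRoot, eval_map, ← aeval_def, ← e3]
            exact minpoly.aeval K x
        _ ≤ ((minpoly K x0).map (algebraMap K E)).roots.card := Multiset.toFinset_card_le _
        _ ≤ ((minpoly K x0).map (algebraMap K E)).natDegree := card_roots' _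
        _ = n := by rw [natDegree_map]; exact hx0.2
    · refine Nat.mul_le_mul_left n (Finset.card_le_card ?_)
      intro c hc
      rw [Finset.mem_image] at hc
      obtain ⟨x0, hx0, rfl⟩ := hc
      rw [Finset.mem_filter] at hx0 ⊢
      refine ⟨Finset.mem_univ _, ?_⟩
      rw [← monic_eq_mpoly (minpoly.monic (hint x0)) hx0.2]
      exact minpoly.irreducible (hint x0)
  have hsum : (Finset.univ.filter (fun x : E => (minpoly K x).natDegree = n)).card +
      (Finset.univ.filter (fun x : E => ¬ (minpoly K x).natDegree = n)).card =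
      Fintype.card K ^ n := by
    rw [Finset.card_filter_add_card_filter_not, Finset.card_univ, hE]
  have h2 := two_sum_properDivisors_le hq hn
  have h3 : 2 * n * Nat.card {c : Fin n → K // Irreducible (mpoly c)} =
      2 * (n * Nat.card {c : Fin n → K // Irreducible (mpoly c)}) := by ring
  rw [h3]
  omega

theorem irreducible_iff_coprime [Fintype K] {f : K[X]} (hf : f.Monic) (hn : 0 < f.natDegree) :
    Irreducible f ↔ ∀ j, 0 < j → 2 * j ≤ f.natDegree →
      IsCoprime (X ^ Fintype.card K ^ j - X : K[X]) f := by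
  constructor
  · intro hirr j hj h2
    rw [isCoprime_comm, hirr.coprime_iff_not_dvd]
    intro hdvd
    rw [Fintype.card_eq_nat_card] at hdvd
    have h3 := hirr.natDegree_dvd_of_dvd_X_pow_card_pow_sub_X hdvd
    have h4 := Nat.le_of_dvd hj h3
    omega
  · intro h
    rw [hf.irreducible_iff_natDegree']
    refine ⟨?_, ?_⟩
    · intro h1
      rw [h1, natDegree_one] at hn
      omega
    · intro a g ha hg hag hmem
      rw [Finset.mem_Ioc] at hmem
      have hgu : ¬ IsUnit g := by
        intro hu
        rw [hg.isUnit_iff] at hu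
        rw [hu, natDegree_one] at hmem
        omega
      obtain ⟨r, hr, hrg⟩ := WfDvdMonoid.exists_irreducible_factor hgu hg.ne_zero
      have hdeg : r.natDegree ≤ g.natDegree := natDegree_le_of_dvd hrg hg.ne_zero
      have hr0 : 0 < r.natDegree := hr.natDegree_pos
      have hc := h r.natDegree hr0 (by omega)
      have h1 : r ∣ X ^ Fintype.card K ^ r.natDegree - X := by
        rw [Fintype.card_eq_nat_card]
        exact hr.natDegree_dvd_iff_dvd_X_pow_card_pow_sub_X.mp dvd_rfl
      have h2 : r ∣ f := by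
        rw [← hag]
        exact dvd_mul_of_dvd_right hrg a
      exact hr.not_isUnit (hc.isUnit_of_dvd' h1 h2)

end Pool.Agent.BiFac

end

section

/-! The dimension bound: a local factor that divides `N` modulo a high power of `x` forces
`f ∣ N`. -/

set_option autoImplicit false

namespace Pool.Agent.BiFac

open Polynomial

variable {K : Type} [Field K]

/-- degree of a determinant with weights -/
theorem lemB_det {n T : ℕ} (M : Matrix (Fin n) (Fin n) K[X])
    (hM : ∀ i j : Fin n, M i j = 0 ∨ (M i j).natDegree + i ≤ T + j) :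
    M.det.natDegree ≤ n * T := by
  rw [Matrix.det_apply']
  apply natDegree_sum_le_of_forall_le
  intro σ _
  refine natDegree_mul_le.trans ?_
  rw [natDegree_intCast, zero_add]
  by_cases h0 : ∃ i, M (σ i) i = 0
  · obtain ⟨i, hi⟩ := h0
    have hz : ∏ i, M (σ i) i = 0 :=
      Finset.prod_eq_zero (f := fun i => M (σ i) i) (Finset.mem_univ i) hi
    rw [hz]
    simp
  · push Not at h0
    have h1 : ∀ i, (M (σ i) i).natDegree + (σ i : ℕ) ≤ T + i := fun i =>
      (hM (σ i) i).resolve_left (h0 i)
    have h2 : ∑ i, ((M (σ i) i).natDegree + (σ i : ℕ)) ≤ ∑ i : Fin n, (T + (i : ℕ)) :=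
      Finset.sum_le_sum fun i _ => h1 i
    rw [Finset.sum_add_distrib, Finset.sum_add_distrib,
      Equiv.sum_comp σ (fun i : Fin n => (i : ℕ))] at h2
    have h3 : ∑ i, (M (σ i) i).natDegree ≤ ∑ _i : Fin n, T := by omega
    refine (natDegree_prod_le _ _).trans (h3.trans ?_)
    simp

theorem lemB_norm {f N : K[X][X]} {T : ℕ} (hfm : f.Monic) (hft : TDeg f.natDegree f)
    (hN : TDeg T N) :
    (Algebra.norm K[X] (AdjoinRoot.mk f N)).natDegree ≤ f.natDegree * T := by
  rw [Algebra.norm_eq_matrix_det (AdjoinRoot.powerBasisAux' hfm)]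
  apply lemB_det
  intro i j
  have hb : AdjoinRoot.powerBasisAux' hfm j = AdjoinRoot.mk f (X ^ (j : ℕ)) := by
    have := (AdjoinRoot.powerBasis' hfm).basis_eq_pow j
    rw [map_pow]
    exact this
  rw [Algebra.leftMulMatrix_eq_repr_mul, hb, ← map_mul,
    AdjoinRoot.powerBasisAux'_repr_apply_to_fun, AdjoinRoot.modByMonicHom_mk]
  have h1 : TDeg (T + j) ((N * X ^ (j : ℕ)) %ₘ f) := by
    apply TDeg.modByMonic hfm hft
    have := TDeg.mul hN (TDeg.X (K := K).pow j)
    simpa using this
  exact tdeg_iff.1 h1 i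

theorem lemB_finite {S ι : Type*} [CommRing S] [IsDomain S] [Algebra K[X] S] [Finite ι]
    [Algebra K S] [IsScalarTower K K[X] S] (b : Module.Basis ι K[X] S) {f : S} (hf : f ≠ 0) :
    Module.Finite K (S ⧸ Ideal.span {f}) := by
  have := Fintype.ofFinite ι
  have h : Ideal.span ({f} : Set S) ≠ ⊥ := Ideal.span_singleton_eq_bot.not.2 hf
  exact Module.Finite.equiv ((Ideal.span {f}).quotientEquivDirectSum K b h).symm

theorem dvd_of_local {f N g : K[X][X]} {T σ : ℕ} (hf : Irreducible f) (hfm : f.Monic)
    (hft : TDeg f.natDegree f) (hN : TDeg T N) (hg : g.Monic) (h1 : ∃ u, Cg σ f (g * u))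
    (h2 : ∃ u, Cg σ N (g * u)) (hlt : f.natDegree * T < g.natDegree * σ) : f ∣ N := by
  by_contra hnd
  obtain ⟨u, e1, h1⟩ := h1
  obtain ⟨v', e2, h2⟩ := h2
  have hdom : IsDomain (AdjoinRoot f) := AdjoinRoot.isDomain_of_prime hf.prime
  have hN0 : AdjoinRoot.mk f N ≠ 0 := by
    rw [Ne, AdjoinRoot.mk_eq_zero]
    exact hnd
  have hfin := finrank_quotient_span_eq_natDegree_norm (F := K) (AdjoinRoot.powerBasisAux' hfm) hN0
  have hle := lemB_norm hfm hft hN
  have hfd : Module.Finite K (AdjoinRoot f ⧸ Ideal.span {AdjoinRoot.mk f N}) :=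
    lemB_finite (AdjoinRoot.powerBasisAux' hfm) hN0
  -- the independent family
  let B : Fin σ × Fin g.natDegree → K[X][X] := fun i => C (X ^ (i.1 : ℕ)) * X ^ (i.2 : ℕ)
  let v : Fin σ × Fin g.natDegree → AdjoinRoot f ⧸ Ideal.span {AdjoinRoot.mk f N} :=
    fun i => Ideal.Quotient.mk _ (AdjoinRoot.mk f (B i))
  have hli : LinearIndependent K v := by
    rw [Fintype.linearIndependent_iff]
    intro c hc
    have h3 : Ideal.Quotient.mk (Ideal.span {AdjoinRoot.mk f N})
        (AdjoinRoot.mk f (∑ i, C (C (c i)) * B i)) = 0 := by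
      rw [← hc, map_sum, map_sum]
      refine Finset.sum_congr rfl fun i _ => ?_
      rw [map_mul, map_mul, Algebra.smul_def]
      rfl
    rw [Ideal.Quotient.eq_zero_iff_mem, Ideal.mem_span_singleton'] at h3
    obtain ⟨s, hs⟩ := h3
    obtain ⟨q, rfl⟩ := AdjoinRoot.mk_surjective s
    rw [← map_mul, AdjoinRoot.mk_eq_mk] at hs
    obtain ⟨p, hp⟩ := hs
    have hcoeff : ∀ a b : ℕ, ((∑ i, C (C (c i)) * B i).coeff b).coeff a =
        if h : a < σ ∧ b < g.natDegree then c (⟨a, h.1⟩, ⟨b, h.2⟩) else 0 := by
      intro a b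
      rw [finsetSum_coeff, finsetSum_coeff]
      have hi : ∀ i : Fin σ × Fin g.natDegree, ((C (C (c i)) * B i).coeff b).coeff a =
          if (i.1 : ℕ) = a ∧ (i.2 : ℕ) = b then c i else 0 := by
        intro i
        simp only [B]
        rw [← mul_assoc, ← C_mul, coeff_C_mul, coeff_X_pow]
        by_cases hb : b = (i.2 : ℕ)
        · rw [if_pos hb, mul_one, coeff_C_mul, coeff_X_pow]
          by_cases ha : a = (i.1 : ℕ)
          · rw [if_pos ha, mul_one, if_pos ⟨ha.symm, hb.symm⟩]
          · rw [if_neg ha, mul_zero, if_neg (fun h => ha h.1.symm)]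
        · rw [if_neg hb, mul_zero, coeff_zero, if_neg (fun h => hb h.2.symm)]
      simp only [hi]
      split_ifs with h
      · rw [Finset.sum_eq_single ((⟨a, h.1⟩, ⟨b, h.2⟩) : Fin σ × Fin g.natDegree)]
        · simp
        · rintro ⟨i, j⟩ _ hne
          rw [if_neg]
          rintro ⟨h4, h5⟩
          apply hne
          simp only [← h4, ← h5, Fin.eta]
        · intro h4
          exact absurd (Finset.mem_univ _) h4
      · refine Finset.sum_eq_zero fun i _ => ?_
        rw [if_neg]
        rintro ⟨h4, h5⟩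
        exact h ⟨h4 ▸ i.1.2, h5 ▸ i.2.2⟩
    obtain ⟨H, hH⟩ : ∃ H, H = ∑ i, C (C (c i)) * B i := ⟨_, rfl⟩
    rw [← hH] at hcoeff hp
    have hHg : H.degree < g.degree := by
      rw [degree_eq_natDegree hg.ne_zero, degree_lt_iff_coeff_zero]
      intro m hm
      ext a
      rw [hcoeff, dif_neg, coeff_zero]
      rintro ⟨-, h5⟩
      omega
    have hH1 : H = g * (q * v' - u * p) + (X ^ σ : K[X]) • (q * e2 - e1 * p) := by
      rw [smul_eq_C_mul]
      linear_combination (-1 : K[X][X]) * hp + q * h2 - p * h1
    have hH2 : H %ₘ g = (X ^ σ : K[X]) • ((q * e2 - e1 * p) %ₘ g) := by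
      rw [hH1, add_modByMonic, smul_modByMonic, (modByMonic_eq_zero_iff_dvd hg).2 (dvd_mul_right _ _),
        zero_add]
    rw [(modByMonic_eq_self_iff hg).2 hHg] at hH2
    intro i
    have h6 := hcoeff i.1 i.2
    rw [dif_pos ⟨i.1.2, i.2.2⟩, hH2, coeff_smul, smul_eq_mul, coeff_X_pow_mul',
      if_neg (by have := i.1.2; omega)] at h6
    exact h6.symm
  have hcard := hli.fintype_card_le_finrank
  rw [hfin] at hcard
  simp only [Fintype.card_prod, Fintype.card_fin] at hcard
  have : g.natDegree * σ = σ * g.natDegree := mul_comm _ _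
  omega

end Pool.Agent.BiFac

end

section

/-!
# Comparison of `K[x][y]` with `K[x, y]`
-/

set_option autoImplicit false

namespace Pool.Agent.BiFac

open Polynomial

variable {K : Type} [Field K]

theorem expo_zero (i j : ℕ) : expo i j 0 = i := by simp [expo]

theorem expo_one (i j : ℕ) : expo i j 1 = j := by simp [expo]

theorem expo_inj {i j i' j' : ℕ} : expo i j = expo i' j' ↔ i = i' ∧ j = j' := by
  constructor
  · intro h
    have h0 := DFunLike.congr_fun h 0
    have h1 := DFunLike.congr_fun h 1
    rw [expo_zero, expo_zero] at h0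
    rw [expo_one, expo_one] at h1
    exact ⟨h0, h1⟩
  · rintro ⟨rfl, rfl⟩
    rfl

theorem expo_eta (s : Fin 2 →₀ ℕ) : expo (s 0) (s 1) = s := by
  ext i
  fin_cases i
  · exact expo_zero _ _
  · exact expo_one _ _

theorem toMv_monomial (m n : ℕ) (c : K) :
    toMv (monomial n (monomial m c)) = MvPolynomial.monomial (expo m n) c := by
  unfold toMv expo
  simp only [coe_eval₂RingHom, eval₂_monomial]
  rw [MvPolynomial.X_pow_eq_monomial, MvPolynomial.X_pow_eq_monomial, MvPolynomial.C_mul_monomial,
    MvPolynomial.monomial_mul]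
  simp

theorem coeff_toMv (F : K[X][X]) (i j : ℕ) :
    (toMv F).coeff (expo i j) = (F.coeff j).coeff i := by
  induction F using Polynomial.induction_on' with
  | add p q hp hq => simp [hp, hq]
  | monomial n a =>
    induction a using Polynomial.induction_on' with
    | add p q hp hq => simp [hp, hq]
    | monomial m c =>
      rw [toMv_monomial, MvPolynomial.coeff_monomial, coeff_monomial]
      by_cases hn : n = j
      · subst hn
        rw [if_pos rfl, coeff_monomial]
        by_cases hm : m = i
        · subst hm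
          simp
        · rw [if_neg hm, if_neg]
          intro h
          exact hm (expo_inj.1 h).1
      · rw [if_neg hn, if_neg, coeff_zero]
        intro h
        exact hn (expo_inj.1 h).2

theorem toMv_bijective : Function.Bijective (toMv : K[X][X] → MvPolynomial (Fin 2) K) := by
  constructor
  · intro F G h
    ext j i
    rw [← coeff_toMv, ← coeff_toMv, h]
  · intro P
    induction P using MvPolynomial.induction_on with
    | C a => exact ⟨C (C a), by simp [toMv]⟩
    | add p q hp hq =>
      obtain ⟨F, rfl⟩ := hp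
      obtain ⟨G, rfl⟩ := hq
      exact ⟨F + G, by simp⟩
    | mul_X p i hp =>
      obtain ⟨F, rfl⟩ := hp
      fin_cases i
      · exact ⟨F * C X, by simp [toMv]⟩
      · exact ⟨F * X, by simp [toMv]⟩

/-- The isomorphism as an equivalence. -/
noncomputable def toMvEquiv : K[X][X] ≃+* MvPolynomial (Fin 2) K :=
  RingEquiv.ofBijective toMv toMv_bijective

theorem toMvEquiv_apply (F : K[X][X]) : toMvEquiv F = toMv F := rfl

theorem irreducible_toMv (F : K[X][X]) : Irreducible (toMv F) ↔ Irreducible F := by
  rw [← toMvEquiv_apply]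
  exact MulEquiv.irreducible_iff (toMvEquiv : K[X][X] ≃+* MvPolynomial (Fin 2) K)

theorem associated_toMv (F G : K[X][X]) : Associated (toMv F) (toMv G) ↔ Associated F G := by
  constructor
  · intro h
    rw [← toMvEquiv_apply, ← toMvEquiv_apply] at h
    have h2 := h.map (toMvEquiv.symm : MvPolynomial (Fin 2) K ≃+* K[X][X])
    simpa using h2
  · intro h
    exact h.map toMv

theorem tdeg_iff_totalDegree (n : ℕ) (F : K[X][X]) :
    TDeg n F ↔ (toMv F).totalDegree ≤ n := by
  have hs : ∀ s : Fin 2 →₀ ℕ, (s.sum fun _ e => e) = s 0 + s 1 := by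
    intro s
    rw [Finsupp.sum_fintype _ _ (fun _ => rfl), Fin.sum_univ_two]
  unfold MvPolynomial.totalDegree
  rw [Finset.sup_le_iff]
  constructor
  · intro h s hsm
    rw [hs]
    by_contra hn
    rw [not_le] at hn
    rw [MvPolynomial.mem_support_iff] at hsm
    apply hsm
    rw [← expo_eta s, coeff_toMv]
    exact h _ _ hn
  · intro h i j hij
    by_contra hne
    rw [← coeff_toMv] at hne
    have h2 := h (expo i j) (MvPolynomial.mem_support_iff.2 hne)
    rw [hs, expo_zero, expo_one] at h2
    omega

end Pool.Agent.BiFac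

end
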