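import Pool.Agent.Work.MP_8d07ed_lc.Bd.B01
import Pool.Agent.Work.TreeRAM.Nat
import Pool.Agent.Work.TreeRAM.List2
import Pool.Agent.Work.MP_8d07ed_lc.Stmt

/-! Bundle of small proof modules (one section per former module). -/

section

/-!
# Elementary operations on coefficient lists: correctness and cost
-/

set_option autoImplicit false

namespace Pool.Agent.BiFac

open Polynomial Pool.Agent.TreeRAM

variable {K : Type} [Field K]

/-! ### Correctness, one variable -/

@[simp] theorem toP_nil : toP ([] : List K) = 0 := rfl

@[simp] theorem toP_cons (a : K) (l : List K) : toP (a :: l) = C a + X * toP l := rfl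

@[simp] theorem toB_nil : toB ([] : List (List K)) = 0 := rfl

@[simp] theorem toB_cons (r : List K) (l : List (List K)) :
    toB (r :: l) = C (toP r) + X * toB l := rfl

theorem coeff_toP (l : List K) (i : ℕ) : (toP l).coeff i = l.getD i 0 := by
  induction l generalizing i with
  | nil => simp
  | cons a l ih =>
    cases i with
    | zero => simp
    | succ i => simp [coeff_X_mul, ih]

theorem toP_append (a b : List K) : toP (a ++ b) = toP a + X ^ a.length * toP b := by
  induction a with
  | nil => simp
  | cons x a ih =>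
    simp only [List.cons_append, toP_cons, ih, List.length_cons]
    ring

theorem toP_replicate_zero (n : ℕ) : toP (List.replicate n (0 : K)) = 0 := by
  induction n with
  | zero => simp
  | succ n ih => simp [List.replicate_succ, ih]

theorem degree_toP_lt (l : List K) : (toP l).degree < l.length := by
  rw [degree_lt_iff_coeff_zero]
  intro m hm
  rw [coeff_toP, List.getD_eq_default _ _ hm]

theorem addP_nil (a : List K) : addP a [] = a := by cases a <;> rfl

theorem toP_addP (a b : List K) : toP (addP a b) = toP a + toP b := by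
  induction a generalizing b with
  | nil => simp [addP]
  | cons x a ih =>
    cases b with
    | nil => simp [addP]
    | cons y b =>
      simp only [addP, toP_cons, ih, C_add]
      ring

theorem length_addP (a b : List K) : (addP a b).length = max a.length b.length := by
  induction a generalizing b with
  | nil => simp [addP]
  | cons x a ih =>
    cases b with
    | nil => simp [addP]
    | cons y b => simp [addP, ih]

theorem toP_smulP (c : K) (a : List K) : toP (smulP c a) = C c * toP a := by
  induction a with
  | nil => simp [smulP]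
  | cons x a ih =>
    have : smulP c (x :: a) = (c * x) :: smulP c a := rfl
    rw [this, toP_cons, toP_cons, ih, C_mul]
    ring

theorem length_smulP (c : K) (a : List K) : (smulP c a).length = a.length := by simp [smulP]

theorem toP_subP (a b : List K) : toP (subP a b) = toP a - toP b := by
  rw [subP, toP_addP, toP_smulP, C_neg, C_1]
  ring

theorem length_subP (a b : List K) : (subP a b).length = max a.length b.length := by
  rw [subP, length_addP, length_smulP]

theorem toP_mulN (a b : List K) : toP (mulN a b) = toP a * toP b := by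
  induction a with
  | nil => simp [mulN]
  | cons x a ih =>
    simp only [mulN, toP_addP, toP_smulP, toP_cons, ih, C_0]
    ring

theorem length_mulN (a b : List K) : (mulN a b).length ≤ a.length + b.length := by
  induction a with
  | nil => simp [mulN]
  | cons x a ih =>
    simp only [mulN, length_addP, length_smulP, List.length_cons]
    omega

theorem length_padTo (w : ℕ) (r : List K) : (padTo w r).length = w := by
  simp [padTo]

theorem getD_padTo (w : ℕ) (r : List K) (i : ℕ) :
    (padTo w r).getD i 0 = if i < w then r.getD i 0 else 0 := by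
  simp only [padTo, List.getD_eq_getElem?_getD]
  rw [List.getElem?_take]
  split_ifs with h
  · rw [List.getElem?_append]
    split_ifs with h'
    · rfl
    · rw [List.getElem?_eq_none (not_lt.1 h'), List.getElem?_replicate]
      split_ifs <;> rfl
  · rfl

theorem toP_padTo {w : ℕ} {r : List K} (h : r.length ≤ w) : toP (padTo w r) = toP r := by
  ext i
  rw [coeff_toP, coeff_toP, getD_padTo]
  split_ifs with hi
  · rfl
  · rw [List.getD_eq_default _ _ (by omega)]

theorem X_pow_dvd_padTo (w : ℕ) (r : List K) : X ^ w ∣ toP (padTo w r) - toP r := by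
  rw [X_pow_dvd_iff]
  intro d hd
  rw [coeff_sub, coeff_toP, coeff_toP, getD_padTo, if_pos hd, sub_self]

theorem lincomb_nil (vs : List (List K)) : lincomb [] vs = [] := rfl

theorem lincomb_nil' (cs : List K) : lincomb cs [] = [] := by cases cs <;> rfl

theorem lincomb_cons (c : K) (cs : List K) (v : List K) (vs : List (List K)) :
    lincomb (c :: cs) (v :: vs) = addP (smulP c v) (lincomb cs vs) := rfl

theorem toP_lincomb (cs : List K) (vs : List (List K)) :
    toP (lincomb cs vs) = (List.zipWith (fun c v => C c * toP v) cs vs).sum := by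
  induction cs generalizing vs with
  | nil => simp [lincomb_nil]
  | cons c cs ih =>
    cases vs with
    | nil => simp [lincomb_nil']
    | cons v vs => simp [lincomb_cons, toP_addP, toP_smulP, ih]

theorem vec_eq_coeff (l : List K) (i : ℕ) : vec l i = (toP l).coeff i := (coeff_toP l i).symm

theorem vec_lincomb (cs : List K) (vs : List (List K)) (i : ℕ) :
    vec (lincomb cs vs) i = (List.zipWith (fun c v => c * vec v i) cs vs).sum := by
  induction cs generalizing vs with
  | nil => simp [lincomb_nil, vec]
  | cons c cs ih =>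
    cases vs with
    | nil => simp [lincomb_nil', vec]
    | cons v vs =>
      have h := ih vs
      rw [vec_eq_coeff] at h ⊢
      rw [lincomb_cons, toP_addP, coeff_add, h, toP_smulP, coeff_C_mul, ← vec_eq_coeff]
      simp

theorem length_lincomb_le {cs : List K} {vs : List (List K)} {n : ℕ}
    (h : ∀ v ∈ vs, v.length ≤ n) : (lincomb cs vs).length ≤ n := by
  induction cs generalizing vs with
  | nil => simp [lincomb_nil]
  | cons c cs ih =>
    cases vs with
    | nil => simp [lincomb_nil']
    | cons v vs =>
      rw [lincomb_cons, length_addP, length_smulP]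
      exact max_le (h v (by simp)) (ih (fun u hu => h u (by simp [hu])))

/-! ### Correctness, two variables -/

theorem coeff_toB (l : List (List K)) (j : ℕ) : (toB l).coeff j = toP (l.getD j []) := by
  induction l generalizing j with
  | nil => simp
  | cons a l ih =>
    cases j with
    | zero => simp
    | succ i => simp [coeff_X_mul, ih]

theorem toB_append (a b : List (List K)) : toB (a ++ b) = toB a + X ^ a.length * toB b := by
  induction a with
  | nil => simp
  | cons x a ih =>
    simp only [List.cons_append, toB_cons, ih, List.length_cons]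
    ring

theorem degree_toB_lt (l : List (List K)) : (toB l).degree < l.length := by
  rw [degree_lt_iff_coeff_zero]
  intro m hm
  rw [coeff_toB, List.getD_eq_default _ _ hm, toP_nil]

theorem cg_map_padTo (w : ℕ) (a : List (List K)) : Cg w (toB (a.map (padTo w))) (toB a) := by
  unfold Cg
  induction a with
  | nil => simp
  | cons r a ih =>
    simp only [List.map_cons, toB_cons]
    have h1 : (C (X ^ w) : K[X][X]) ∣ C (toP (padTo w r) - toP r) := by
      obtain ⟨q, hq⟩ := X_pow_dvd_padTo w r
      exact ⟨C q, by rw [hq, C_mul]⟩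
    have h2 : C (toP (padTo w r)) + X * toB (a.map (padTo w)) - (C (toP r) + X * toB a) =
        C (toP (padTo w r) - toP r) + X * (toB (a.map (padTo w)) - toB a) := by
      rw [C_sub]
      ring
    rw [h2]
    exact dvd_add h1 (ih.mul_left _)

theorem red_C (p : K[X]) : red (C p) = C (p.coeff 0) := by
  simp [red, coeff_zero_eq_eval_zero]

theorem red_X : red (X : K[X][X]) = X := by simp [red]

theorem red_toB (l : List (List K)) : red (toB l) = toP (l.map (fun r => r.headD 0)) := by
  induction l with
  | nil => simp
  | cons r l ih =>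
    rw [toB_cons, map_add, map_mul, red_C, red_X, ih, coeff_toP, List.map_cons, toP_cons]
    cases r <;> simp

theorem red_lift1 (g : List K) : red (toB (lift1 g)) = toP g := by
  have h : ((fun r : List K => r.headD 0) ∘ fun c => [c]) = id := rfl
  rw [red_toB, lift1, List.map_map, h, List.map_id]

/-- an approximation of a monic polynomial with the right shape is monic -/
theorem ML.of_cg {w : ℕ} {l : List (List K)} {G : K[X][X]} (h : Cg w (toB l) G) (hG : G.Monic)
    (hw : 0 < w) (hl : l.length = G.natDegree + 1) (hr : ∀ r ∈ l, r.length ≤ w) :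
    ML w l ∧ (toB l).natDegree = G.natDegree := by
  have hlen : G.natDegree < l.length := by omega
  have hc : (toB l).coeff G.natDegree = 1 := by
    have h1 : X ^ w ∣ (toB l).coeff G.natDegree - 1 := by
      have := (C_dvd_iff_dvd_coeff _ _).1 h G.natDegree
      rwa [coeff_sub, hG.coeff_natDegree] at this
    have h2 : ((toB l).coeff G.natDegree - 1).degree < (X ^ w : K[X]).degree := by
      rw [degree_X_pow]
      refine (degree_sub_le _ _).trans_lt (max_lt ?_ ?_)
      · rw [coeff_toB]
        refine (degree_toP_lt _).trans_le ?_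
        have : l.getD G.natDegree [] ∈ l := by
          rw [List.getD_eq_getElem _ _ hlen]
          exact List.getElem_mem hlen
        exact_mod_cast hr _ this
      · rw [degree_one]
        exact_mod_cast hw
    exact sub_eq_zero.1 (eq_zero_of_dvd_of_degree_lt h1 h2)
  have hd : (toB l).natDegree ≤ G.natDegree := by
    rw [natDegree_le_iff_coeff_eq_zero]
    intro N hN
    rw [coeff_toB, List.getD_eq_default _ _ (by omega), toP_nil]
  have hmon : (toB l).Monic := monic_of_natDegree_le_of_coeff_eq_one _ hd hc
  have hn : (toB l).natDegree = G.natDegree := by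
    refine le_antisymm hd (le_natDegree_of_ne_zero ?_)
    rw [hc]
    exact one_ne_zero
  exact ⟨⟨hmon, by rw [hn, hl], hr⟩, hn⟩

/-! ### Costs -/

theorem addP_ex : ∃ c, ∀ (K : Type) [Field K],
    Comp K (fun z : List K × List K => addP z.1 z.2) c (fun z => min z.1.length z.2.length) :=
  ⟨_, fun K _ => (Comp.rec1 (K := K)
    (isLeaf := fun z : List K × List K => z.1.isEmpty || z.2.isEmpty)
    (leaf := fun z => bif z.1.isEmpty then z.2 else z.1) (next := fun z => (z.1.tail, z.2.tail))
    (join := fun z r => lcase z.1 r (fun x _ => lcase z.2 r (fun y _ => (x + y) :: r)))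
    (T := fun z => 2 * min z.1.length z.2.length)
    (fun z => z.1.length)
    (by rintro ⟨l, m⟩ h; cases l <;> cases m <;> simp_all [addP])
    (by rintro ⟨l, m⟩ h; cases l <;> cases m <;> simp_all [addP])
    (by rintro ⟨l, m⟩ h; cases l <;> cases m <;> simp_all)
    (by rintro ⟨l, m⟩ h; cases l <;> cases m <;> simp_all)
    (by rintro ⟨l, m⟩ h; cases l <;> cases m <;> simp_all; omega)).bigO 2 (fun z => by omega)⟩

noncomputable def addPCd : Cd := addP_ex.choose

instance compAddP {α : Type} [Enc K α] {f g : α → List K} {c d : Cd} {T T' : α → ℕ}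
    [h : Comp K f c T] [h' : Comp K g d T'] : Comp K (fun x => addP (f x) (g x))
      (addPCd.comp (c.pair d)) (fun x => T x + T' x + min (f x).length (g x).length) :=
  (addP_ex.choose_spec K).app2 h h'

theorem smulP_ex : ∃ c, ∀ (K : Type) [Field K],
    Comp K (fun z : K × List K => smulP z.1 z.2) c (fun z => z.2.length) :=
  ⟨_, fun K _ => (Comp.map (K := K) (l := fun z : K × List K => z.2)
    (g := fun z x => z.1 * x)).mono (fun z => by simp)⟩

noncomputable def smulPCd : Cd := smulP_ex.choose

instance compSmulP {α : Type} [Enc K α] {f : α → K} {g : α → List K} {c d : Cd} {T T' : α → ℕ}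
    [h : Comp K f c T] [h' : Comp K g d T'] : Comp K (fun x => smulP (f x) (g x))
      (smulPCd.comp (c.pair d)) (fun x => T x + T' x + (g x).length) :=
  (smulP_ex.choose_spec K).app2 h h'

theorem subP_ex : ∃ c, ∀ (K : Type) [Field K],
    Comp K (fun z : List K × List K => subP z.1 z.2) c (fun z => z.1.length + z.2.length) :=
  ⟨_, fun K _ => (compAddP (K := K) (f := fun z : List K × List K => z.1)
    (g := fun z => smulP (-1) z.2)).bigO 2 (fun z => by
      simp only [length_smulP]
      omega)⟩

noncomputable def subPCd : Cd := subP_ex.choose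

instance compSubP {α : Type} [Enc K α] {f g : α → List K} {c d : Cd} {T T' : α → ℕ}
    [h : Comp K f c T] [h' : Comp K g d T'] : Comp K (fun x => subP (f x) (g x))
      (subPCd.comp (c.pair d)) (fun x => T x + T' x + ((f x).length + (g x).length)) :=
  (subP_ex.choose_spec K).app2 h h'

theorem mulN_ex : ∃ c, ∀ (K : Type) [Field K], Comp K (fun z : List K × List K => mulN z.1 z.2) c
    (fun z => (z.1.length + 1) * (z.2.length + 1)) :=
  ⟨_, fun K _ => (Comp.rec1 (K := K)
    (isLeaf := fun z : List K × List K => z.1.isEmpty)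
    (leaf := fun _ => []) (next := fun z => (z.1.tail, z.2))
    (join := fun z r => lcase z.1 r (fun x _ => addP (smulP x z.2) (0 :: r)))
    (T := fun z => z.1.length * (2 * z.2.length + 2))
    (fun z => z.1.length)
    (by rintro ⟨l, m⟩ h; cases l <;> simp_all [mulN])
    (by rintro ⟨l, m⟩ h; cases l <;> simp_all [mulN])
    (by rintro ⟨l, m⟩ h; cases l <;> simp_all)
    (by rintro ⟨l, m⟩ h; cases l <;> simp_all)
    (by
      rintro ⟨l, m⟩ h
      cases l with
      | nil => simp_all
      | cons x l =>
        simp only [lcase_cons, List.tail_cons, length_smulP, List.length_cons, zero_add, add_zero]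
        have : (l.length + 1) * (2 * m.length + 2) =
          l.length * (2 * m.length + 2) + (2 * m.length + 2) := by ring
        omega)).bigO 2 (fun z => by
          nlinarith [Nat.zero_le (z.1.length * z.2.length)])⟩

noncomputable def mulNCd : Cd := mulN_ex.choose

instance compMulN {α : Type} [Enc K α] {f g : α → List K} {c d : Cd} {T T' : α → ℕ}
    [h : Comp K f c T] [h' : Comp K g d T'] : Comp K (fun x => mulN (f x) (g x))
      (mulNCd.comp (c.pair d))
      (fun x => T x + T' x + ((f x).length + 1) * ((g x).length + 1)) :=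
  (mulN_ex.choose_spec K).app2 h h'

theorem padTo_succ (w : ℕ) (r : List K) : padTo (w + 1) r = r.headD 0 :: padTo w r.tail := by
  cases r with
  | nil => simp [padTo, List.replicate_succ]
  | cons a r =>
    simp only [padTo, List.cons_append, List.take_succ_cons, List.headD_cons, List.tail_cons]
    congr 1
    rw [List.replicate_succ', ← List.append_assoc, List.take_append_of_le_length]
    simp

theorem padTo_ex : ∃ c, ∀ (K : Type) [Field K],
    Comp K (fun z : ℕ × List K => padTo z.1 z.2) c (fun z => z.1) :=
  ⟨_, fun K _ => (Comp.rec1 (K := K)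
    (isLeaf := fun z : ℕ × List K => decide (z.1 = 0))
    (leaf := fun _ => []) (next := fun z => (z.1 - 1, z.2.tail))
    (join := fun z r => z.2.headD 0 :: r)
    (T := fun z => 2 * z.1)
    (fun z => z.1)
    (by rintro ⟨l, m⟩ h; cases l <;> simp_all [padTo])
    (by rintro ⟨l, m⟩ h; cases l <;> simp_all [padTo_succ])
    (by rintro ⟨l, m⟩ h; cases l <;> simp_all)
    (by rintro ⟨l, m⟩ h; cases l <;> simp_all)
    (by rintro ⟨l, m⟩ h; cases l <;> simp_all; omega)).bigO 2 (fun z => by omega)⟩

noncomputable def padToCd : Cd := padTo_ex.choose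

instance compPadTo {α : Type} [Enc K α] {f : α → ℕ} {g : α → List K} {c d : Cd} {T T' : α → ℕ}
    [h : Comp K f c T] [h' : Comp K g d T'] : Comp K (fun x => padTo (f x) (g x))
      (padToCd.comp (c.pair d)) (fun x => T x + T' x + f x) :=
  (padTo_ex.choose_spec K).app2 h h'

theorem lincomb_ex : ∃ c, ∀ (K : Type) [Field K],
    Comp K (fun z : List K × List (List K) => lincomb z.1 z.2) c
      (fun z => ((z.1.zip z.2).map (fun p => p.2.length + 1)).sum) :=
  ⟨_, fun K _ => (Comp.rec1 (K := K)
    (isLeaf := fun z : List K × List (List K) => z.1.isEmpty || z.2.isEmpty)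
    (leaf := fun _ => []) (next := fun z => (z.1.tail, z.2.tail))
    (join := fun z r => lcase z.1 r (fun c _ => lcase z.2 r (fun v _ => addP (smulP c v) r)))
    (T := fun z => 2 * ((z.1.zip z.2).map (fun p => p.2.length + 1)).sum)
    (fun z => z.1.length)
    (by rintro ⟨l, m⟩ h; cases l <;> cases m <;> simp_all [lincomb_nil, lincomb_nil'])
    (by rintro ⟨l, m⟩ h; cases l <;> cases m <;> simp_all [lincomb_cons])
    (by rintro ⟨l, m⟩ h; cases l <;> cases m <;> simp_all)
    (by rintro ⟨l, m⟩ h; cases l <;> cases m <;> simp_all)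
    (by
      rintro ⟨l, m⟩ h
      cases l <;> cases m <;> simp_all [length_smulP]
      omega)).bigO 2 (fun z => by omega)⟩

noncomputable def lincombCd : Cd := lincomb_ex.choose

instance compLincomb {α : Type} [Enc K α] {f : α → List K} {g : α → List (List K)} {c d : Cd}
    {T T' : α → ℕ} [h : Comp K f c T] [h' : Comp K g d T'] :
    Comp K (fun x => lincomb (f x) (g x)) (lincombCd.comp (c.pair d))
      (fun x => T x + T' x + (((f x).zip (g x)).map (fun p => p.2.length + 1)).sum) :=
  (lincomb_ex.choose_spec K).app2 h h'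

end Pool.Agent.BiFac

end

section

/-!
# Random tapes
-/

set_option autoImplicit false

namespace Pool.Agent.BiFac

open Polynomial

variable {K : Type} [Field K]

section pr
variable [Fintype K]

theorem pr_q_pos : (0 : ℝ) < (Fintype.card K : ℝ) := by
  exact_mod_cast Fintype.card_pos

theorem pr_nonneg (n : ℕ) (B : List K → Prop) : 0 ≤ pr K n B := by
  unfold pr
  positivity

omit [Field K] in
theorem pr_total (n : ℕ) : Nat.card (Fin n → K) = Fintype.card K ^ n := by
  simp

theorem pr_le_one (n : ℕ) (B : List K → Prop) : pr K n B ≤ 1 := by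
  unfold pr
  rw [div_le_one (pow_pos pr_q_pos n)]
  have h : Nat.card {ρ : Fin n → K // B (List.ofFn ρ)} ≤ Nat.card (Fin n → K) :=
    Nat.card_le_card_of_injective Subtype.val Subtype.val_injective
  rw [pr_total] at h
  exact_mod_cast h

theorem pr_mono {n : ℕ} {B B' : List K → Prop} (h : ∀ l, l.length = n → B l → B' l) :
    pr K n B ≤ pr K n B' := by
  unfold pr
  have h1 : Nat.card {ρ : Fin n → K // B (List.ofFn ρ)} ≤
      Nat.card {ρ : Fin n → K // B' (List.ofFn ρ)} := by
    refine Nat.card_le_card_of_injective
      (fun z => ⟨z.1, h _ (List.length_ofFn) z.2⟩) ?_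
    intro z z' hz
    have := congrArg Subtype.val hz
    exact Subtype.ext this
  have h2 : (Nat.card {ρ : Fin n → K // B (List.ofFn ρ)} : ℝ) ≤
      (Nat.card {ρ : Fin n → K // B' (List.ofFn ρ)} : ℝ) := by exact_mod_cast h1
  exact div_le_div_of_nonneg_right h2 (pow_pos pr_q_pos n).le

open Classical in
theorem pr_sum (n : ℕ) (B : List K → Prop) :
    pr K n B = (∑ ρ : Fin n → K, if B (List.ofFn ρ) then (1 : ℝ) else 0) /
      (Fintype.card K : ℝ) ^ n := by
  unfold pr
  congr 1
  rw [Finset.sum_boole, Nat.card_eq_fintype_card, Fintype.card_subtype]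

open Classical in
theorem pr_or (n : ℕ) (B B' : List K → Prop) :
    pr K n (fun l => B l ∨ B' l) ≤ pr K n B + pr K n B' := by
  rw [pr_sum, pr_sum, pr_sum, ← add_div, ← Finset.sum_add_distrib]
  refine div_le_div_of_nonneg_right (Finset.sum_le_sum fun ρ _ => ?_) (pow_pos pr_q_pos n).le
  by_cases h1 : B (List.ofFn ρ) <;> by_cases h2 : B' (List.ofFn ρ) <;> simp [h1, h2]

open Classical in
theorem pr_not (n : ℕ) (B : List K → Prop) : pr K n (fun l => ¬ B l) = 1 - pr K n B := by
  rw [pr_sum, pr_sum, eq_sub_iff_add_eq, ← add_div, ← Finset.sum_add_distrib]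
  refine Eq.trans (congrArg (fun t => t / (Fintype.card K : ℝ) ^ n)
    (Finset.sum_congr rfl (g := fun _ => (1 : ℝ)) ?_)) ?_
  · intro ρ _
    by_cases h1 : B (List.ofFn ρ) <;> simp [h1]
  rw [Finset.sum_const, Finset.card_univ, nsmul_eq_mul, mul_one]
  have h2 : (Fintype.card (Fin n → K) : ℝ) = (Fintype.card K : ℝ) ^ n := by
    have := pr_total (K := K) n
    rw [Nat.card_eq_fintype_card] at this
    rw [this]
    push_cast
    rfl
  rw [h2]
  exact div_self (pow_pos pr_q_pos n).ne'

open Classical in
theorem pr_add (a b : ℕ) (B : List K → Prop) :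
    pr K (a + b) B = (∑ x : Fin a → K, pr K b (fun y => B (List.ofFn x ++ y))) /
      (Fintype.card K : ℝ) ^ a := by
  have h1 : ∀ x : Fin a → K, pr K b (fun y => B (List.ofFn x ++ y)) =
      (∑ y : Fin b → K, if B (List.ofFn (Fin.append x y)) then (1 : ℝ) else 0) /
        (Fintype.card K : ℝ) ^ b := by
    intro x
    rw [pr_sum]
    simp only [List.ofFn_fin_append]
  simp only [h1]
  rw [← Finset.sum_div, div_div, ← pow_add, add_comm b a, pr_sum, ← Fintype.sum_prod_type']
  congr 1
  rw [← (Fin.appendEquiv (α := K) a b).sum_comp]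
  rfl

open Classical in
theorem pr_add' (a b : ℕ) (B : List K → Prop) :
    pr K (a + b) B = (∑ z : Fin b → K, pr K a (fun x => B (x ++ List.ofFn z))) /
      (Fintype.card K : ℝ) ^ b := by
  have h1 : ∀ z : Fin b → K, pr K a (fun x => B (x ++ List.ofFn z)) =
      (∑ x : Fin a → K, if B (List.ofFn (Fin.append x z)) then (1 : ℝ) else 0) /
        (Fintype.card K : ℝ) ^ a := by
    intro x
    rw [pr_sum]
    simp only [List.ofFn_fin_append]
  simp only [h1]
  rw [← Finset.sum_div, div_div, ← pow_add, pr_sum, Finset.sum_comm, ← Fintype.sum_prod_type']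
  congr 1
  rw [← (Fin.appendEquiv (α := K) a b).sum_comp]
  rfl

theorem pr_avg_le {a : ℕ} {f : (Fin a → K) → ℝ} {δ : ℝ} (h : ∀ x, f x ≤ δ) :
    (∑ x, f x) / (Fintype.card K : ℝ) ^ a ≤ δ := by
  rw [div_le_iff₀ (pow_pos pr_q_pos a)]
  refine (Finset.sum_le_sum fun x _ => h x).trans ?_
  rw [Finset.sum_const, Finset.card_univ, nsmul_eq_mul]
  have h2 : (Fintype.card (Fin a → K) : ℝ) = (Fintype.card K : ℝ) ^ a := by
    have := pr_total (K := K) a
    rw [Nat.card_eq_fintype_card] at this
    rw [this]
    push_cast
    rfl
  rw [h2, mul_comm]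

/-- the middle segment is random, the rest is arbitrary -/
theorem pr_seg {a m b : ℕ} {B : List K → List K → List K → Prop} {δ : ℝ}
    (h : ∀ x z, x.length = a → z.length = b → pr K m (fun y => B x y z) ≤ δ) :
    pr K (a + m + b) (fun l => B (l.take a) ((l.drop a).take m) (l.drop (a + m))) ≤ δ := by
  rw [pr_add']
  refine pr_avg_le fun z => ?_
  rw [pr_add]
  refine pr_avg_le fun x => ?_
  refine le_trans (pr_mono ?_) (h (List.ofFn x) (List.ofFn z) List.length_ofFn List.length_ofFn)
  intro y hy hB
  have e1 : (List.ofFn x ++ y ++ List.ofFn z).take a = List.ofFn x := by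
    rw [List.append_assoc]
    exact List.take_left' List.length_ofFn
  have e2 : (List.ofFn x ++ y ++ List.ofFn z).drop a = y ++ List.ofFn z := by
    rw [List.append_assoc]
    exact List.drop_left' List.length_ofFn
  have e3 : (List.ofFn x ++ y ++ List.ofFn z).drop (a + m) = List.ofFn z := by
    refine List.drop_left' ?_
    rw [List.length_append, List.length_ofFn, hy]
  rw [e1, e2, e3, List.take_left' hy] at hB
  exact hB

/-- independent repetitions -/
theorem pr_chunks {m n : ℕ} {B : List K → Prop} {δ : ℝ} (h : pr K m B ≤ δ) :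
    pr K (n * m) (fun l => ∀ i < n, B ((l.drop (i * m)).take m)) ≤ δ ^ n := by
  classical
  have hδ : 0 ≤ δ := (pr_nonneg m B).trans h
  induction n with
  | zero =>
    simpa using pr_le_one (K := K) (0 * m)
      (fun l => ∀ i < 0, B ((l.drop (i * m)).take m))
  | succ n ih =>
    have e : (n + 1) * m = n * m + m := by ring
    rw [e, pr_add, pow_succ]
    have key : ∀ x : Fin (n * m) → K,
        pr K m (fun y => ∀ i < n + 1, B (((List.ofFn x ++ y).drop (i * m)).take m)) ≤
        (if (∀ i < n, B (((List.ofFn x).drop (i * m)).take m)) then (1 : ℝ) else 0) * δ := by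
      intro x
      have hsplit : ∀ y : List K, y.length = m → ∀ i < n,
          ((List.ofFn x ++ y).drop (i * m)).take m = ((List.ofFn x).drop (i * m)).take m := by
        intro y hy i hi
        have hle : i * m + m ≤ n * m := by
          have : (i + 1) * m ≤ n * m := Nat.mul_le_mul_right m hi
          calc i * m + m = (i + 1) * m := by ring
            _ ≤ n * m := this
        rw [List.drop_append_of_le_length (by rw [List.length_ofFn]; omega),
          List.take_append_of_le_length (by rw [List.length_drop, List.length_ofFn]; omega)]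
      by_cases hx : ∀ i < n, B (((List.ofFn x).drop (i * m)).take m)
      · rw [if_pos hx, one_mul]
        refine le_trans (pr_mono ?_) h
        intro y hy hB
        have := hB n (Nat.lt_succ_self n)
        rw [List.drop_left' List.length_ofFn, List.take_of_length_le hy.le] at this
        exact this
      · rw [if_neg hx, zero_mul]
        push Not at hx
        obtain ⟨i, hi, hB⟩ := hx
        have h0 : pr K m (fun y => ∀ i < n + 1,
            B (((List.ofFn x ++ y).drop (i * m)).take m)) ≤ pr K m (fun _ => False) := by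
          refine pr_mono ?_
          intro y hy hB'
          have := hB' i (by omega)
          rw [hsplit y hy i hi] at this
          exact hB this
        refine h0.trans ?_
        rw [pr_sum]
        simp
    calc (∑ x : Fin (n * m) → K,
          pr K m (fun y => ∀ i < n + 1, B (((List.ofFn x ++ y).drop (i * m)).take m))) /
          (Fintype.card K : ℝ) ^ (n * m)
        ≤ (∑ x : Fin (n * m) → K,
          (if (∀ i < n, B (((List.ofFn x).drop (i * m)).take m)) then (1 : ℝ) else 0) * δ) /
          (Fintype.card K : ℝ) ^ (n * m) :=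
          div_le_div_of_nonneg_right (Finset.sum_le_sum fun x _ => key x)
            (pow_pos pr_q_pos _).le
      _ = pr K (n * m) (fun l => ∀ i < n, B ((l.drop (i * m)).take m)) * δ := by
          rw [pr_sum, ← Finset.sum_mul, div_mul_eq_mul_div]
          congr!
      _ ≤ δ ^ n * δ := mul_le_mul_of_nonneg_right ih hδ

theorem pr_eq_div {n : ℕ} {B : List K → Prop} {N : ℕ} {δ : ℝ}
    (h : N * Nat.card {ρ : Fin n → K // B (List.ofFn ρ)} ≤ Fintype.card K ^ n) (hN : 0 < N)
    (hδ : 1 / (N : ℝ) ≤ δ) : pr K n B ≤ δ := by
  refine le_trans ?_ hδ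
  unfold pr
  have hN' : (0 : ℝ) < N := by exact_mod_cast hN
  rw [div_le_div_iff₀ (pow_pos pr_q_pos n) hN']
  have h' : (N : ℝ) * (Nat.card {ρ : Fin n → K // B (List.ofFn ρ)} : ℝ) ≤
      (Fintype.card K : ℝ) ^ n := by exact_mod_cast h
  linarith

end pr

end Pool.Agent.BiFac

end

section

/-!
# Representation of polynomials by lists: more definitions
-/

set_option autoImplicit false

namespace Pool.Agent.BiFac

open Polynomial Pool.Agent.TreeRAM

/-- The number with the given binary digits (lowest first). -/
def bval (bits : List Bool) : ℕ := bits.foldr (fun b n => 2 * n + b.toNat) 0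

/-- The cost of linear algebra with matrices of size `s`: `s ^ 2.95`. -/
noncomputable def kerT (s : ℕ) : ℕ := (s + 1) ^ 2 * nroot 20 (s + 1) ^ 19

/-- The elements of `A` at the positions where `o` is `none`. -/
def pick {α β : Type} (o : List (Option β)) (A : List α) : List α :=
  ((o.zip A).filter (fun z => !z.1.isSome)).map Prod.snd

/-- The size condition under which the fast algorithms are correct. -/
def Fits {K : Type} (E : MEnv K) (n w : ℕ) : Prop := 8 * (n + 1) * (w + 1) ≤ E.cap

/-- The elements whose key is `k`. -/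
def sel {K α : Type} [DecidableEq K] (k : K) (w : List K) (R : List α) : List α :=
  ((w.zip R).filter (fun z => decide (z.1 = k))).map Prod.snd

/-- The classes of equal keys. -/
def classesBy {K α : Type} [DecidableEq K] (w : List K) (R : List α) : List (List α) :=
  w.dedup.map (fun k => sel k w R)

end Pool.Agent.BiFac

end

section

/-!
# A random element of a subspace separates the coordinates
-/

set_option autoImplicit false

namespace Pool.Agent.BiFac

open Polynomial

variable {K : Type} [Field K]

private theorem card_ker_functional [Fintype K] {k : ℕ} (v : Fin k → K) (hv : v ≠ 0) :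
    Nat.card {c : Fin k → K // ∑ l, c l * v l = 0} * Fintype.card K = Fintype.card K ^ k := by
  classical
  obtain ⟨m, hm⟩ := Function.ne_iff.1 hv
  simp only [Pi.zero_apply] at hm
  set L : (Fin k → K) →ₗ[K] K :=
    { toFun := fun c => ∑ l, c l * v l
      map_add' := fun a b => by
        simp only [Pi.add_apply, add_mul, Finset.sum_add_distrib]
      map_smul' := fun a b => by
        simp only [Pi.smul_apply, smul_eq_mul, RingHom.id_apply, Finset.mul_sum, mul_assoc] } with hL
  have hLa : ∀ c, L c = ∑ l, c l * v l := fun c => rfl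
  have hs : Function.Surjective L := by
    intro y
    refine ⟨Pi.single m (y / v m), ?_⟩
    rw [hLa, Finset.sum_eq_single m]
    · rw [Pi.single_eq_same, div_mul_cancel₀ _ hm]
    · intro b _ hb
      rw [Pi.single_eq_of_ne hb, zero_mul]
    · intro h
      exact absurd (Finset.mem_univ _) h
  have e1 : Nat.card {c : Fin k → K // ∑ l, c l * v l = 0} = Nat.card (LinearMap.ker L) :=
    Nat.card_congr (Equiv.subtypeEquivRight fun c => by rw [LinearMap.mem_ker, hLa])
  have e2 : Nat.card (Fin k → K) =
      Nat.card (LinearMap.ker L) * Nat.card ((Fin k → K) ⧸ LinearMap.ker L) :=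
    Submodule.card_eq_card_quotient_mul_card (LinearMap.ker L)
  have e3 : Nat.card ((Fin k → K) ⧸ LinearMap.ker L) = Nat.card K :=
    Nat.card_congr (L.quotKerEquivOfSurjective hs).toEquiv
  rw [e3] at e2
  rw [e1, ← Nat.card_eq_fintype_card (α := K), ← e2]
  simp [Nat.card_eq_fintype_card]

theorem card_not_separating [Fintype K] {k r : ℕ} (B : Fin k → Fin r → K) :
    Nat.card {c : Fin k → K // ∃ i j, ∑ l, c l * B l i = ∑ l, c l * B l j ∧
      ¬ ∀ l, B l i = B l j} * Fintype.card K ≤ r ^ 2 * Fintype.card K ^ k := by
  classical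
  have h2 : Nat.card {c : Fin k → K // ∃ i j, ∑ l, c l * B l i = ∑ l, c l * B l j ∧
      ¬ ∀ l, B l i = B l j} ≤
      ∑ ij : Fin r × Fin r, if (∀ l, B l ij.1 = B l ij.2) then 0 else
        Nat.card {c : Fin k → K // ∑ l, c l * (B l ij.1 - B l ij.2) = 0} := by
    rw [Nat.card_eq_fintype_card, Fintype.card_subtype]
    have h3 : (Finset.univ.filter fun c : Fin k → K => ∃ i j, ∑ l, c l * B l i =
        ∑ l, c l * B l j ∧ ¬ ∀ l, B l i = B l j) ⊆
        (Finset.univ : Finset (Fin r × Fin r)).biUnion fun ij =>
          if (∀ l, B l ij.1 = B l ij.2) then ∅ else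
            Finset.univ.filter fun c : Fin k → K => ∑ l, c l * (B l ij.1 - B l ij.2) = 0 := by
      intro c hc
      obtain ⟨i, j, h1, h2⟩ := (Finset.mem_filter.mp hc).2
      refine Finset.mem_biUnion.mpr ⟨(i, j), Finset.mem_univ _, ?_⟩
      rw [if_neg h2]
      refine Finset.mem_filter.mpr ⟨Finset.mem_univ _, ?_⟩
      simp only [mul_sub, Finset.sum_sub_distrib]
      rw [h1, sub_self]
    refine (Finset.card_le_card h3).trans (Finset.card_biUnion_le.trans (Finset.sum_le_sum ?_))
    intro ij _
    split_ifs with hb
    · simp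
    · rw [Nat.card_eq_fintype_card, Fintype.card_subtype]
  calc _ ≤ (∑ ij : Fin r × Fin r, if (∀ l, B l ij.1 = B l ij.2) then 0 else
        Nat.card {c : Fin k → K // ∑ l, c l * (B l ij.1 - B l ij.2) = 0}) *
          Fintype.card K := Nat.mul_le_mul_right _ h2
    _ = ∑ ij : Fin r × Fin r, (if (∀ l, B l ij.1 = B l ij.2) then 0 else
        Nat.card {c : Fin k → K // ∑ l, c l * (B l ij.1 - B l ij.2) = 0}) *
          Fintype.card K := Finset.sum_mul _ _ _
    _ ≤ ∑ _ij : Fin r × Fin r, Fintype.card K ^ k := by
        refine Finset.sum_le_sum fun ij _ => ?_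
        split_ifs with hb
        · simp
        · refine (card_ker_functional (fun l => B l ij.1 - B l ij.2) ?_).le
          intro h
          apply hb
          intro l
          exact sub_eq_zero.1 (congrFun h l)
    _ = r ^ 2 * Fintype.card K ^ k := by
        rw [Finset.sum_const, smul_eq_mul, Finset.card_univ, Fintype.card_prod, Fintype.card_fin,
          sq]

end Pool.Agent.BiFac

end

section

set_option autoImplicit false

namespace Pool.Agent.BiFac

open Polynomial

variable {K : Type} [Field K]

/-- the coefficient of a trace form against a product -/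
theorem coeff_mod_mul {R : Type*} [CommRing R] [Nontrivial R] {P Q : R[X]} (hP : P.Monic)
    (hQ : Q.Monic) (A : R[X]) (hA : P.natDegree = 0 → A %ₘ P = 0) :
    ((A * Q) %ₘ (P * Q)).coeff ((P * Q).natDegree - 1) = (A %ₘ P).coeff (P.natDegree - 1) := by
  have hPQ : (P * Q).Monic := hP.mul hQ
  have h1 : (A * Q) %ₘ (P * Q) = (A %ₘ P) * Q := by
    refine (div_modByMonic_unique (A /ₘ P) _ hPQ ⟨?_, ?_⟩).2
    · have := modByMonic_add_div A P
      calc A %ₘ P * Q + P * Q * (A /ₘ P) = (A %ₘ P + P * (A /ₘ P)) * Q := by ring
        _ = A * Q := by rw [this]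
    · rw [hQ.degree_mul, hQ.degree_mul]
      have := degree_modByMonic_lt A hP
      rcases eq_or_ne (A %ₘ P) 0 with h0 | h0
      · rw [h0, degree_zero, WithBot.bot_add]
        rw [bot_lt_iff_ne_bot, Ne, WithBot.add_eq_bot, not_or]
        exact ⟨degree_ne_bot.2 hP.ne_zero, degree_ne_bot.2 hQ.ne_zero⟩
      · rw [degree_eq_natDegree h0, degree_eq_natDegree hP.ne_zero,
          degree_eq_natDegree hQ.ne_zero] at *
        norm_cast at *
        omega
  rw [h1]
  rcases Nat.eq_zero_or_pos P.natDegree with h0 | h0
  · rw [hA h0]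
    simp
  · have h2 : (A %ₘ P).natDegree ≤ P.natDegree - 1 := by
      have := natDegree_modByMonic_lt A hP (by
        rintro rfl
        simp at h0)
      omega
    have h3 : (P * Q).natDegree - 1 = (P.natDegree - 1) + Q.natDegree := by
      rw [hP.natDegree_mul hQ]
      omega
    rw [h3, coeff_mul_add_eq_of_natDegree_le h2 le_rfl, hQ.coeff_natDegree, mul_one]

theorem tau_eq_mod_mul {P Q : K[X][X]} (hP : P.Monic) (hQ : Q.Monic) (h : K[X][X]) :
    ((h * (derivative P * Q)) %ₘ (P * Q)).coeff ((P * Q).natDegree - 1) = tau P h := by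
  rw [← mul_assoc, coeff_mod_mul hP hQ]
  · rfl
  · intro h0
    have : P = 1 := eq_one_of_monic_natDegree_zero hP h0
    subst this
    simp

theorem tau_mul {P Q : K[X][X]} (hP : P.Monic) (hQ : Q.Monic) (h : K[X][X]) :
    tau (P * Q) h = tau P h + tau Q h := by
  rw [← tau_eq_mod_mul hP hQ h, ← tau_eq_mod_mul hQ hP h, mul_comm Q P, ← coeff_add,
    ← add_modByMonic]
  unfold tau
  congr 2
  rw [derivative_mul]
  ring

theorem tau_one (h : K[X][X]) : tau 1 h = 0 := by
  unfold tau
  simp

theorem tau_prod {ι : Type*} (s : Finset ι) {P : ι → K[X][X]} (hP : ∀ i ∈ s, (P i).Monic)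
    (h : K[X][X]) : tau (∏ i ∈ s, P i) h = ∑ i ∈ s, tau (P i) h := by
  classical
  induction s using Finset.induction_on with
  | empty => simp [tau_one]
  | insert a s ha ih =>
    rw [Finset.prod_insert ha, Finset.sum_insert ha, tau_mul (hP a (Finset.mem_insert_self a s))
      (monic_prod_of_monic s P fun i hi => hP i (Finset.mem_insert_of_mem hi)),
      ih fun i hi => hP i (Finset.mem_insert_of_mem hi)]

theorem tau_add (P h g : K[X][X]) : tau P (h + g) = tau P h + tau P g := by
  unfold tau
  rw [add_mul, add_modByMonic, coeff_add]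

theorem tau_C_mul (P h : K[X][X]) (c : K[X]) : tau P (C c * h) = c * tau P h := by
  unfold tau
  rw [mul_assoc, ← smul_eq_C_mul, smul_modByMonic, coeff_smul, smul_eq_mul]

theorem tau_zero (P : K[X][X]) : tau P 0 = 0 := by
  unfold tau
  simp

theorem tau_sum {ι : Type*} (s : Finset ι) (P : K[X][X]) (h : ι → K[X][X]) :
    tau P (∑ i ∈ s, h i) = ∑ i ∈ s, tau P (h i) := by
  classical
  induction s using Finset.induction_on with
  | empty => simp [tau_zero]
  | insert a s ha ih => rw [Finset.sum_insert ha, Finset.sum_insert ha, tau_add, ih]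

theorem tau_cg {σ : ℕ} {P Q : K[X][X]} (hP : P.Monic) (hQ : Q.Monic) (hPQ : Cg σ P Q)
    (h : K[X][X]) : X ^ σ ∣ tau P h - tau Q h := by
  rcases Nat.eq_zero_or_pos σ with h0 | h0
  · subst h0
    simp
  · unfold tau
    rw [hPQ.natDegree_eq h0 hP hQ]
    exact (Cg.modByMonic ((Cg.refl σ h).mul hPQ.derivative) hPQ hP hQ).coeff _

theorem natDegree_tau_le {f h : K[X][X]} {m : ℕ} (hf : f.Monic) (hft : TDeg f.natDegree f)
    (hh : TDeg m h) : (tau f h).natDegree ≤ m := by
  rcases Nat.eq_zero_or_pos f.natDegree with h0 | h0
  · have : f = 1 := eq_one_of_monic_natDegree_zero hf h0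
    subst this
    rw [tau_one]
    simp
  · unfold tau
    have h1 := (TDeg.modByMonic hf hft (hh.mul hft.derivative)).natDegree_coeff_le
      (f.natDegree - 1)
    omega

/-- the trace of `h` against `G_μ` -/
theorem Smu_eq {r : ℕ} {P : Fin r → K[X][X]} (hP : ∀ i, (P i).Monic) (μ : Fin r → K)
    (h : K[X][X]) : Smu P μ h = ((h * Gmu P μ) %ₘ (∏ i, P i)).coeff ((∏ i, P i).natDegree - 1) := by
  classical
  have key : ∀ s : Finset (Fin r), ((h * ∑ i ∈ s, C (C (μ i)) * (derivative (P i) *
      ∏ j ∈ Finset.univ.erase i, P j)) %ₘ (∏ i, P i)).coeff ((∏ i, P i).natDegree - 1)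
      = ∑ i ∈ s, C (μ i) * tau (P i) h := by
    intro s
    induction s using Finset.induction_on with
    | empty => simp
    | insert a s ha ih =>
      rw [Finset.sum_insert ha, Finset.sum_insert ha, mul_add, add_modByMonic, coeff_add, ih]
      congr 1
      have h1 : ∏ i, P i = P a * ∏ j ∈ Finset.univ.erase a, P j :=
        (Finset.mul_prod_erase Finset.univ P (Finset.mem_univ a)).symm
      have h2 : h * (C (C (μ a)) * (derivative (P a) * ∏ j ∈ Finset.univ.erase a, P j))
          = (C (μ a)) • (h * (derivative (P a) * ∏ j ∈ Finset.univ.erase a, P j)) := by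
        rw [smul_eq_C_mul]
        ring
      rw [h2, smul_modByMonic, coeff_smul, smul_eq_mul, h1,
        tau_eq_mod_mul (hP a) (monic_prod_of_monic _ P fun i _ => hP i)]
  exact (key Finset.univ).symm

/-- a polynomial is determined by its traces -/
theorem coeff_of_theta {R : Type*} [CommRing R] {F G : R[X]} (hF : F.Monic)
    (hG : G.degree < F.degree) {j : ℕ} (hj : j < F.natDegree) :
    G.coeff j = ((∑ l ∈ Finset.range F.natDegree, C (((X ^ l * G) %ₘ F).coeff (F.natDegree - 1)) *
      X ^ (F.natDegree - 1 - l)) * F).coeff (F.natDegree + j) := by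
  rcases subsingleton_or_nontrivial R with hR | hR
  · exact Subsingleton.elim _ _
  have hd : 0 < F.natDegree := by omega
  have hF1 : F ≠ 1 := by
    rintro rfl
    simp at hd
  have step : ∀ l, (X ^ (l + 1) * G) %ₘ F = X * ((X ^ l * G) %ₘ F) -
      C (((X ^ l * G) %ₘ F).coeff (F.natDegree - 1)) * F := by
    intro l
    set A := (X ^ l * G) %ₘ F with hA
    have hAd : A.natDegree < F.natDegree := natDegree_modByMonic_lt _ hF hF1
    refine (div_modByMonic_unique (X * ((X ^ l * G) /ₘ F) + C (A.coeff (F.natDegree - 1))) _ hF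
      ⟨?_, ?_⟩).2
    · have := modByMonic_add_div (X ^ l * G) F
      calc X * A - C (A.coeff (F.natDegree - 1)) * F + F * (X * ((X ^ l * G) /ₘ F) +
            C (A.coeff (F.natDegree - 1))) = X * (A + F * ((X ^ l * G) /ₘ F)) := by ring
        _ = X ^ (l + 1) * G := by rw [hA, this]; ring
    · rw [degree_eq_natDegree hF.ne_zero, degree_lt_iff_coeff_zero]
      intro m hm
      rw [coeff_sub, coeff_C_mul]
      obtain ⟨m, rfl⟩ : ∃ m', m = m' + 1 := ⟨m - 1, by omega⟩
      rw [coeff_X_mul]
      rcases Nat.lt_or_ge m F.natDegree with h1 | h1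
      · have h2 : m + 1 = F.natDegree := by omega
        have h3 : m = F.natDegree - 1 := by omega
        rw [h2, hF.coeff_natDegree, mul_one, h3, sub_self]
      · rw [coeff_eq_zero_of_natDegree_lt (by omega : A.natDegree < m),
          coeff_eq_zero_of_natDegree_lt (by omega : F.natDegree < m + 1), mul_zero, sub_zero]
  have main : ∀ n, X ^ n * G = (∑ l ∈ Finset.range n, C (((X ^ l * G) %ₘ F).coeff
      (F.natDegree - 1)) * X ^ (n - 1 - l)) * F + (X ^ n * G) %ₘ F := by
    intro n
    induction n with
    | zero =>
      rw [pow_zero, one_mul, (modByMonic_eq_self_iff hF).2 hG]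
      simp
    | succ n ih =>
      rw [step n]
      have e1 : (∑ l ∈ Finset.range (n + 1), C (((X ^ l * G) %ₘ F).coeff (F.natDegree - 1)) *
          X ^ (n + 1 - 1 - l)) = X * (∑ l ∈ Finset.range n, C (((X ^ l * G) %ₘ F).coeff
          (F.natDegree - 1)) * X ^ (n - 1 - l)) +
          C (((X ^ n * G) %ₘ F).coeff (F.natDegree - 1)) := by
        rw [Finset.sum_range_succ, Finset.mul_sum]
        congr 1
        · apply Finset.sum_congr rfl
          intro l hl
          have hl' := Finset.mem_range.1 hl
          have : n + 1 - 1 - l = (n - 1 - l) + 1 := by omega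
          rw [this, pow_succ]
          ring
        · simp
      rw [e1]
      calc X ^ (n + 1) * G = X * (X ^ n * G) := by ring
        _ = X * ((∑ l ∈ Finset.range n, C (((X ^ l * G) %ₘ F).coeff
          (F.natDegree - 1)) * X ^ (n - 1 - l)) * F + (X ^ n * G) %ₘ F) := by rw [← ih]
        _ = _ := by ring
  have h1 := congrArg (fun p => p.coeff (F.natDegree + j)) (main F.natDegree)
  simp only [coeff_add] at h1
  rw [add_comm F.natDegree j, coeff_X_pow_mul,
    coeff_eq_zero_of_natDegree_lt (p := (X ^ F.natDegree * G) %ₘ F), add_zero] at h1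
  · rw [h1, add_comm j]
  · have := natDegree_modByMonic_lt (X ^ F.natDegree * G) hF hF1
    omega

theorem tdeg_hpoly {d D : ℕ} (c : Fin d → Fin (D + 1) → K) : TDeg (D + d - 1) (hpoly c) := by
  unfold hpoly
  apply TDeg.sum
  intro k _
  have h1 : (∑ a : Fin (D + 1), C (c k a) * X ^ (a : ℕ)).natDegree ≤ D := by
    apply natDegree_sum_le_of_forall_le
    intro a _
    refine (natDegree_C_mul_X_pow_le _ _).trans ?_
    have := a.2
    omega
  have h2 := (TDeg.C h1).mul ((TDeg.X (K := K)).pow (k : ℕ))
  refine h2.mono ?_
  have := k.2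
  omega

end Pool.Agent.BiFac

end

section

/-!
# Structure of the bad vectors
-/

set_option autoImplicit false

namespace Pool.Agent.BiFac

open Polynomial

variable {K : Type} [Field K]

theorem degree_Gmu_lt {r : ℕ} {P : Fin r → K[X][X]} (hP : ∀ i, (P i).Monic) (μ : Fin r → K) :
    (Gmu P μ).degree < (∏ i, P i).degree ∨ r = 0 := by
  rcases Nat.eq_zero_or_pos r with h0 | hr
  · exact Or.inr h0
  left
  unfold Gmu
  have hne : (∏ i, P i) ≠ 0 := (monic_prod_of_monic _ _ (fun i _ => hP i)).ne_zero
  rw [degree_eq_natDegree hne]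
  refine (degree_sum_le _ _).trans_lt ?_
  rw [Finset.sup_lt_iff (WithBot.bot_lt_coe _)]
  intro i _
  rw [← degree_eq_natDegree hne]
  refine lt_of_le_of_lt (degree_mul_le _ _) ?_
  have h1 : (C (C (μ i)) : K[X][X]).degree ≤ 0 := degree_C_le
  have h2 : (derivative (P i) * ∏ j ∈ Finset.univ.erase i, P j).degree < (∏ i, P i).degree := by
    rw [← Finset.mul_prod_erase Finset.univ P (Finset.mem_univ i)]
    have hm : (∏ j ∈ Finset.univ.erase i, P j).Monic := monic_prod_of_monic _ _ (fun j _ => hP j)
    rw [hm.degree_mul, hm.degree_mul]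
    refine WithBot.add_lt_add_right ?_ (degree_derivative_lt (hP i).ne_zero)
    exact fun h => hm.ne_zero (degree_eq_bot.1 h)
  calc (C (C (μ i)) : K[X][X]).degree +
        (derivative (P i) * ∏ j ∈ Finset.univ.erase i, P j).degree
      ≤ 0 + (derivative (P i) * ∏ j ∈ Finset.univ.erase i, P j).degree := by
        exact add_le_add h1 le_rfl
    _ = (derivative (P i) * ∏ j ∈ Finset.univ.erase i, P j).degree := zero_add _
    _ < _ := h2

theorem Lifted.natDegree_prod {σ r : ℕ} {F : K[X][X]} {P : Fin r → K[X][X]}
    (h : Lifted σ F P) : (∏ i, P i).natDegree = F.natDegree := by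
  rw [natDegree_prod_of_monic _ _ (fun i _ => h.monic_i i), h.natDegree_eq]

theorem Cg.C_of_dvd {w : ℕ} {a b : K[X]} (h : X ^ w ∣ a - b) : Cg w (C a) (C b) := by
  unfold Cg
  rw [← C_sub]
  exact _root_.map_dvd C h

theorem Cg.mul_left {w : ℕ} {F G : K[X][X]} (H : K[X][X]) (h : Cg w F G) :
    Cg w (H * F) (H * G) := (Cg.refl w H).mul h

theorem coeff_sum_C_mul_X_pow {R : Type*} [CommRing R] (d : ℕ) (a : ℕ → R) (j : ℕ) :
    (∑ i ∈ Finset.range d, C (a i) * X ^ i).coeff j = if j < d then a j else 0 := by
  rw [finsetSum_coeff]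
  simp only [coeff_C_mul, coeff_X_pow]
  split_ifs with h
  · rw [Finset.sum_eq_single j]
    · simp
    · intro b _ hb
      rw [if_neg (Ne.symm hb), mul_zero]
    · intro h'
      exact absurd (Finset.mem_range.2 h) h'
  · apply Finset.sum_eq_zero
    intro i hi
    have := Finset.mem_range.1 hi
    rw [if_neg (by omega), mul_zero]

theorem cg_of_coeff {w : ℕ} {F G : K[X][X]} (h : ∀ j, X ^ w ∣ F.coeff j - G.coeff j) :
    Cg w F G := by
  unfold Cg
  rw [C_dvd_iff_dvd_coeff]
  intro j
  rw [coeff_sub]
  exact h j

theorem Bad.approx {σ r d ρ : ℕ} {F : K[X][X]} {P : Fin r → K[X][X]} (h : Lifted σ F P)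
    (hd : F.natDegree = d) (hd0 : 0 < d) (hρ : 0 < ρ) {μ : Fin r → K} (hμ : Bad P d ρ σ μ) :
    ∃ Λ : K[X], Λ ≠ 0 ∧ Λ.degree < ρ ∧ ∃ N : K[X][X], TDeg (2 * d + ρ - 3) N ∧
      Cg σ (C Λ * Gmu P μ) N := by
  obtain ⟨Λ, hΛ, hΛd, hN⟩ := hμ
  refine ⟨Λ, hΛ, hΛd, ?_⟩
  have hN' : ∀ k : ℕ, ∃ N : K[X], k < d → (N.degree < (d + ρ - 1 : ℕ) ∧
      X ^ σ ∣ Λ * Smu P μ (X ^ k) - N) := by
    intro k
    by_cases hk : k < d
    · obtain ⟨N, h1, h2⟩ := hN k hk
      exact ⟨N, fun _ => ⟨h1, h2⟩⟩
    · exact ⟨0, fun h => absurd h hk⟩
  choose N hNN using hN'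
  set Q : K[X][X] := ∏ i, P i with hQ
  have hQm : Q.Monic := monic_prod_of_monic _ _ (fun i _ => h.monic_i i)
  have hQd : Q.natDegree = d := by rw [hQ, h.natDegree_prod, hd]
  have hr : r ≠ 0 := by
    rintro rfl
    simp [hQ] at hQd
    omega
  have hG : (Gmu P μ).degree < Q.degree := by
    rcases degree_Gmu_lt h.monic_i μ with h1 | h1
    · exact h1
    · exact absurd h1 hr
  set θ : ℕ → K[X] := fun l => Smu P μ (X ^ l) with hθ
  have hθ' : ∀ l, θ l = ((X ^ l * Gmu P μ) %ₘ Q).coeff (Q.natDegree - 1) := by
    intro l
    rw [hθ]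
    exact Smu_eq h.monic_i μ (X ^ l)
  set H : K[X][X] := ∑ l ∈ Finset.range d, C (N l) * X ^ (d - 1 - l) with hH
  have hHt : TDeg (2 * d + ρ - 3) H := by
    rw [hH]
    apply TDeg.sum
    intro l hl
    have hl' : l < d := Finset.mem_range.1 hl
    have h1 : (N l).natDegree ≤ d + ρ - 2 := by
      have h2 := (hNN l hl').1
      rcases eq_or_ne (N l) 0 with h3 | h3
      · rw [h3]; simp
      · have h4 := (natDegree_lt_iff_degree_lt h3).2 h2
        omega
    have h2 : TDeg ((d + ρ - 2) + (d - 1 - l) * 1) (C (N l) * X ^ (d - 1 - l)) :=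
      (TDeg.C h1).mul (TDeg.X.pow _)
    exact h2.mono (by omega)
  refine ⟨∑ j ∈ Finset.range d, C ((H * F).coeff (d + j)) * X ^ j, ?_, ?_⟩
  · intro i j hij
    rw [coeff_sum_C_mul_X_pow d (fun j => (H * F).coeff (d + j))]
    split_ifs with hj
    · have h1 : TDeg ((2 * d + ρ - 3) + d) (H * F) := hHt.mul (hd ▸ h.tdeg)
      exact h1 i (d + j) (by omega)
    · simp
  · refine cg_of_coeff fun j => ?_
    rw [coeff_sum_C_mul_X_pow d (fun j => (H * F).coeff (d + j)), coeff_C_mul]
    split_ifs with hj
    · have h1 := coeff_of_theta hQm hG (j := j) (by rw [hQd]; exact hj)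
      rw [hQd] at h1
      have h2 : Cg σ (C Λ * (∑ l ∈ Finset.range d, C (θ l) * X ^ (d - 1 - l)) * Q) (H * F) := by
        refine Cg.mul ?_ h.prod.symm
        rw [Finset.mul_sum, hH]
        refine Cg.sum _ fun l hl => ?_
        rw [← mul_assoc, ← C_mul]
        exact (Cg.C_of_dvd (hNN l (Finset.mem_range.1 hl)).2).mul (Cg.refl _ _)
      have h3 := h2.coeff (d + j)
      rw [mul_assoc, coeff_C_mul] at h3
      rw [h1]
      simp only [hθ'] at h3
      rw [hQd] at h3
      exact h3
    · rw [coeff_eq_zero_of_degree_lt, mul_zero, sub_zero]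
      · exact dvd_zero _
      · refine lt_of_lt_of_le hG ?_
        rw [degree_eq_natDegree hQm.ne_zero, hQd]
        exact_mod_cast not_lt.1 hj

/-- Two factors of a separable product are coprime, and the derivative of a factor is coprime to
it. -/
theorem Lifted.isCoprime_derivative_mul {σ r : ℕ} {F : K[X][X]} {P : Fin r → K[X][X]}
    (h : Lifted σ F P) (i : Fin r) :
    IsCoprime (red (derivative (P i) * ∏ j ∈ Finset.univ.erase i, P j)) (red (P i)) := by
  rw [map_mul, map_prod]
  refine IsCoprime.mul_left ?_ ?_
  · have h1 : red F = ∏ j, red (P j) := by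
      rw [h.prod.red h.pos, map_prod]
    have h2 : (red (P i)).Separable := by
      refine h.sep.of_dvd ?_
      rw [h1]
      exact Finset.dvd_prod_of_mem _ (Finset.mem_univ i)
    have h3 : red (derivative (P i)) = derivative (red (P i)) := by
      show (derivative (P i)).map _ = derivative ((P i).map _)
      rw [derivative_map]
    rw [h3]
    exact IsCoprime.symm h2
  · refine IsCoprime.prod_left ?_
    intro j hj
    exact h.coprime (Finset.ne_of_mem_erase hj)

theorem exists_red_eq (a : K[X]) : ∃ A : K[X][X], red A = a := by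
  refine ⟨a.map C, ?_⟩
  show (a.map C).map _ = a
  rw [map_map]
  have : (evalRingHom (0 : K)).comp C = RingHom.id K := by
    ext x
    simp
  rw [this, map_id]

/-- Lifting of a Bezout relation modulo a power of `x`. -/
theorem exists_bezout_lift {A B : K[X][X]} (h : IsCoprime (red A) (red B)) (σ : ℕ) :
    ∃ a b : K[X][X], Cg σ (a * A + b * B) 1 := by
  obtain ⟨a, b, hab⟩ := h
  obtain ⟨a', ha'⟩ := exists_red_eq a
  obtain ⟨b', hb'⟩ := exists_red_eq b
  have h1 : Cg 1 (a' * A + b' * B) 1 := by
    rw [cg_one_iff]
    simp only [map_add, map_mul, ha', hb', hab, map_one]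
  obtain ⟨c, hc⟩ := h1
  rw [pow_one] at hc
  -- `1 - (1 - (a' A + b' B)) ^ σ` is a multiple of `a' A + b' B`
  set u : K[X][X] := a' * A + b' * B with hu
  obtain ⟨v, hv⟩ : u ∣ 1 - (1 - u) ^ σ := by
    have := sub_dvd_pow_sub_pow (1 : K[X][X]) (1 - u) σ
    rw [one_pow] at this
    have h2 : (1 : K[X][X]) - (1 - u) = u := by ring
    rwa [h2] at this
  refine ⟨v * a', v * b', ?_⟩
  have h3 : v * a' * A + v * b' * B - 1 = - (1 - u) ^ σ := by
    have : v * a' * A + v * b' * B = u * v := by rw [hu]; ring
    rw [this, ← hv]; ring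
  unfold Cg
  rw [h3]
  have h4 : (1 : K[X][X]) - u = C X * (-c) := by
    have : 1 - u = - (u - 1) := by ring
    rw [this, hc]; ring
  rw [h4, mul_pow, ← C_pow]
  exact ⟨-(-c) ^ σ, by ring⟩

theorem Bad.eq_zero {σ r d ρ : ℕ} {F f : K[X][X]} {P : Fin r → K[X][X]} (h : Lifted σ F P)
    (hd : F.natDegree = d) (hd0 : 0 < d) (hρ : 0 < ρ) (hρσ : ρ ≤ σ) {μ : Fin r → K}
    (hμ : Bad P d ρ σ μ) (hf : Irreducible f) (hfm : f.Monic) (hfd : f ∣ F) (I : Finset (Fin r))
    (hI : ∀ i ∈ I, Bel P f i ∧ μ i = 0)
    (hlt : f.natDegree * (2 * d + ρ) < (∑ i ∈ I, (P i).natDegree) * σ) :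
    ∀ i, Bel P f i → μ i = 0 := by
  classical
  obtain ⟨Λ, hΛ, hΛd, N, hNt, hN⟩ := hμ.approx h hd hd0 hρ
  obtain ⟨hfc, -, -, hft⟩ := h.factor hfm hfd
  set g : K[X][X] := ∏ i ∈ I, P i with hg
  have hgm : g.Monic := monic_prod_of_monic _ _ (fun i _ => h.monic_i i)
  have hgd : g.natDegree = ∑ i ∈ I, (P i).natDegree :=
    natDegree_prod_of_monic _ _ (fun i _ => h.monic_i i)
  have hIs : I ⊆ Finset.univ.filter (Bel P f) := by
    intro i hi
    exact Finset.mem_filter.2 ⟨Finset.mem_univ _, (hI i hi).1⟩
  have h1 : ∃ u, Cg σ f (g * u) := by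
    refine ⟨∏ i ∈ Finset.univ.filter (Bel P f) \ I, P i, ?_⟩
    rw [hg, mul_comm, Finset.prod_sdiff hIs]
    exact hfc
  have hgG : g ∣ Gmu P μ := by
    unfold Gmu
    refine Finset.dvd_sum fun i _ => ?_
    by_cases hi : i ∈ I
    · rw [(hI i hi).2]
      simp
    · refine dvd_mul_of_dvd_right (dvd_mul_of_dvd_right ?_ _) _
      refine Finset.prod_dvd_prod_of_subset _ _ _ ?_
      intro j hj
      refine Finset.mem_erase.2 ⟨?_, Finset.mem_univ _⟩
      rintro rfl
      exact hi hj
  have h2 : ∃ u, Cg σ N (g * u) := by
    obtain ⟨u, hu⟩ := hgG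
    refine ⟨C Λ * u, ?_⟩
    have : g * (C Λ * u) = C Λ * Gmu P μ := by rw [hu]; ring
    rw [this]
    exact hN.symm
  have hfN : f ∣ N := by
    refine dvd_of_local hf hfm hft hNt hgm h1 h2 ?_
    rw [hgd]
    refine lt_of_le_of_lt (Nat.mul_le_mul_left _ ?_) hlt
    omega
  intro i hi
  obtain ⟨e, he⟩ := hfN
  -- `f` is a multiple of `P i`
  have h3 : P i ∣ ∏ i ∈ Finset.univ.filter (Bel P f), P i :=
    Finset.dvd_prod_of_mem _ (Finset.mem_filter.2 ⟨Finset.mem_univ _, hi⟩)
  obtain ⟨w, hw⟩ := h3
  have h4 : Cg σ (C Λ * Gmu P μ) (P i * (w * e)) := by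
    refine hN.trans ?_
    rw [he]
    have : P i * (w * e) = (P i * w) * e := by ring
    rw [this, ← hw]
    exact hfc.mul (Cg.refl _ _)
  -- `G` modulo `P i`
  set R : K[X][X] := derivative (P i) * ∏ j ∈ Finset.univ.erase i, P j with hR
  obtain ⟨v, hv⟩ : ∃ v, Gmu P μ = C (C (μ i)) * R + P i * v := by
    unfold Gmu
    rw [← Finset.add_sum_erase _ _ (Finset.mem_univ i)]
    have : P i ∣ ∑ x ∈ Finset.univ.erase i, C (C (μ x)) *
        (derivative (P x) * ∏ j ∈ Finset.univ.erase x, P j) := by
      refine Finset.dvd_sum fun x hx => ?_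
      refine dvd_mul_of_dvd_right (dvd_mul_of_dvd_right ?_ _) _
      exact Finset.dvd_prod_of_mem _ (Finset.mem_erase.2
        ⟨(Finset.ne_of_mem_erase hx).symm, Finset.mem_univ _⟩)
    obtain ⟨v, hv⟩ := this
    exact ⟨v, by rw [hv]⟩
  obtain ⟨a, b, hab⟩ := exists_bezout_lift (h.isCoprime_derivative_mul i) σ
  rw [← hR] at hab
  have h5 : Cg σ (C (Λ * C (μ i))) (P i * (a * (w * e) - a * C Λ * v + C (Λ * C (μ i)) * b)) := by
    have h6 : Cg σ (C (Λ * C (μ i)) * 1) (C (Λ * C (μ i)) * (a * R + b * P i)) :=
      Cg.mul_left _ hab.symm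
    rw [mul_one] at h6
    refine h6.trans ?_
    have h7 : C (Λ * C (μ i)) * (a * R + b * P i) =
        a * (C Λ * Gmu P μ) + P i * (C (Λ * C (μ i)) * b - a * C Λ * v) := by
      rw [hv, C_mul]; ring
    have h8 : P i * (a * (w * e) - a * C Λ * v + C (Λ * C (μ i)) * b) =
        a * (P i * (w * e)) + P i * (C (Λ * C (μ i)) * b - a * C Λ * v) := by
      ring
    rw [h7, h8]
    exact (Cg.mul_left _ h4).add (Cg.refl _ _)
  obtain ⟨z, hz⟩ := h5
  set y := a * (w * e) - a * C Λ * v + C (Λ * C (μ i)) * b with hy
  have h9 : C (Λ * C (μ i)) = P i * y + C (X ^ σ) * z := by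
    rw [← hz]; ring
  have hPi : 0 < (P i).natDegree := h.natDegree_pos i
  have hdvd : X ^ σ ∣ Λ * C (μ i) := by
    have h10 := congrArg (fun t => (t %ₘ P i).coeff 0) h9
    rw [(modByMonic_eq_self_iff (h.monic_i i)).2, add_modByMonic, mul_comm (P i) y,
      (modByMonic_eq_zero_iff_dvd (h.monic_i i)).2 (Dvd.intro_left _ rfl), zero_add,
      ← smul_eq_C_mul, smul_modByMonic, coeff_smul, coeff_C_zero, smul_eq_mul] at h10
    · rw [h10]
      exact Dvd.intro _ rfl
    · refine lt_of_le_of_lt degree_C_le ?_
      rw [degree_eq_natDegree (h.monic_i i).ne_zero]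
      exact_mod_cast hPi
  by_contra hne
  have h11 : X ^ σ ∣ Λ := by
    have h12 : IsUnit (C (μ i)) := isUnit_C.2 (isUnit_iff_ne_zero.2 hne)
    exact (IsUnit.dvd_mul_right h12).1 hdvd
  have h13 := degree_le_of_dvd h11 hΛ
  rw [degree_X_pow] at h13
  have h14 : (σ : WithBot ℕ) < (ρ : WithBot ℕ) := lt_of_le_of_lt h13 hΛd
  have h15 : σ < ρ := by exact_mod_cast h14
  omega

end Pool.Agent.BiFac

end

section

/-!
# Definitions for the main algorithm
-/

set_option autoImplicit false

namespace Pool.Agent.BiFac

open Polynomial Pool.Agent.TreeRAM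

/-- The class of `i` (with respect to the values `w`) is resolved: its product is, modulo
`x ^ σ`, a monic polynomial whose total degree is its degree in `y`. -/
def ResCl {K : Type} [Field K] [DecidableEq K] {r : ℕ} (σ : ℕ) (P : Fin r → K[X][X])
    (w : Fin r → K) (i : Fin r) : Prop :=
  ∃ N : K[X][X], N.Monic ∧
    TDeg (∑ j ∈ Finset.univ.filter (fun j => w j = w i), (P j).natDegree) N ∧
    Cg σ N (∏ j ∈ Finset.univ.filter (fun j => w j = w i), P j)

/-- `n` pieces of length `e`. -/
def chunks {α : Type} : ℕ → ℕ → List α → List (List α)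
  | 0, _, _ => []
  | n + 1, e, l => l.take e :: chunks n e (l.drop e)

/-- Naive product of coefficient lists. -/
def prodP {K : Type} [Field K] (L : List (List K)) : List K := L.foldr mulN [1]

/-- Multiplication of all coefficients by a scalar. -/
def smulB {K : Type} [Field K] (c : K) (F : List (List K)) : List (List K) := F.map (smulP c)

/-- Replace the field elements in a tree by trees. -/
def bindD {K L : Type} (f : L → D K) : D L → D K
  | .nil => .nil
  | .elt a => f a
  | .pair u v => .pair (bindD f u) (bindD f v)

/-- `L` is the extension of `K` generated by a root `z` of the irreducible monic polynomial with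
the coefficients `M`, and `rep a` is the list of the coordinates of `a` with respect to the powers
of `z`. -/
structure IsExt {K L : Type} [Field K] [Field L] [Algebra K L] (M : List K) (z : L)
    (rep : L → List K) : Prop where
  mp : MP M
  irr : Irreducible (toP M)
  root : aeval z (toP M) = 0
  len : ∀ a, (rep a).length = M.length - 1
  val : ∀ a, aeval z (toP (rep a)) = a

/-- The element with the given coordinates. -/
noncomputable def dec {K L : Type} [Field K] [Field L] [Algebra K L] (z : L) (l : List K) : L :=
  aeval z (toP l)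

/-- `out` is the list of the monic irreducible factors of the squarefree monic `F` together with
labels, taken from the modular factors `zs`. -/
structure Factored {K : Type} [Field K] (F : K[X][X]) (zs : List (List K × ℕ))
    (out : List (List (List K) × ℕ)) : Prop where
  shape : ∀ z ∈ out, z.1.length = (toB z.1).natDegree + 1 ∧ ∀ r ∈ z.1, r.length = z.1.length
  nodup : (out.map fun z => toB z.1).Nodup
  mem : ∀ f, (∃ z ∈ out, toB z.1 = f) ↔ Irreducible f ∧ f.Monic ∧ f ∣ F
  label : ∀ z ∈ out, ∃ y ∈ zs, toP y.1 ∣ red (toB z.1) ∧ z.2 = y.2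

end Pool.Agent.BiFac

end

section

/-!
# Naive elimination
-/

set_option autoImplicit false

namespace Pool.Agent.BiFac

open Pool.Agent.TreeRAM

variable {K : Type} [Field K]

/-! ### Vectors -/

theorem elim_vec_addP (a b : List K) (i : ℕ) : vec (addP a b) i = vec a i + vec b i := by
  rw [vec_eq_coeff, toP_addP, Polynomial.coeff_add, ← vec_eq_coeff, ← vec_eq_coeff]

theorem elim_vec_smulP (c : K) (a : List K) (i : ℕ) : vec (smulP c a) i = c * vec a i := by
  rw [vec_eq_coeff, toP_smulP, Polynomial.coeff_C_mul, ← vec_eq_coeff]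

theorem elim_vec_subP (a b : List K) (i : ℕ) : vec (subP a b) i = vec a i - vec b i := by
  rw [vec_eq_coeff, toP_subP, Polynomial.coeff_sub, ← vec_eq_coeff, ← vec_eq_coeff]

theorem elim_vec_nil (i : ℕ) : vec ([] : List K) i = 0 := by simp [vec]

theorem elim_vec_zero_iff (a : List K) : (∀ i, vec a i = 0) ↔ ∀ x ∈ a, x = 0 := by
  constructor
  · intro h x hx
    obtain ⟨i, hi, rfl⟩ := List.getElem_of_mem hx
    have := h i
    rwa [vec, List.getD_eq_getElem _ _ hi] at this
  · intro h i
    by_cases hi : i < a.length
    · rw [vec, List.getD_eq_getElem _ _ hi]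
      exact h _ (List.getElem_mem hi)
    · rw [vec, List.getD_eq_default _ _ (not_lt.1 hi)]

theorem elim_vec_padTo {n : ℕ} (r : List K) {i : ℕ} (hi : i < n) :
    vec (padTo n r) i = vec r i := by
  rw [vec, getD_padTo, if_pos hi, vec]

theorem elim_lincomb_cons (c : K) (cs : List K) (v : List K) (vs : List (List K)) (j : ℕ) :
    vec (lincomb (c :: cs) (v :: vs)) j = c * vec v j + vec (lincomb cs vs) j := by
  rw [lincomb_cons, elim_vec_addP, elim_vec_smulP]

theorem elim_lincomb_addP (a b : List K) (W : List (List K)) (j : ℕ) :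
    vec (lincomb (addP a b) W) j = vec (lincomb a W) j + vec (lincomb b W) j := by
  induction W generalizing a b with
  | nil => simp [lincomb_nil', elim_vec_nil]
  | cons w W ih =>
    cases a with
    | nil => simp [addP, lincomb_nil, elim_vec_nil]
    | cons x a =>
      cases b with
      | nil => simp [addP, lincomb_nil, elim_vec_nil]
      | cons y b =>
        simp only [addP, elim_lincomb_cons, ih]
        ring

theorem elim_lincomb_smulP (c : K) (a : List K) (W : List (List K)) (j : ℕ) :
    vec (lincomb (smulP c a) W) j = c * vec (lincomb a W) j := by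
  induction W generalizing a with
  | nil => simp [lincomb_nil', elim_vec_nil]
  | cons w W ih =>
    cases a with
    | nil => simp [smulP, lincomb_nil, elim_vec_nil]
    | cons x a =>
      have : smulP c (x :: a) = (c * x) :: smulP c a := rfl
      rw [this, elim_lincomb_cons, elim_lincomb_cons, ih]
      ring

theorem elim_lincomb_subP (a b : List K) (W : List (List K)) (j : ℕ) :
    vec (lincomb (subP a b) W) j = vec (lincomb a W) j - vec (lincomb b W) j := by
  rw [subP, elim_lincomb_addP, elim_lincomb_smulP]
  ring

theorem elim_lincomb_append (a : List K) (W W' : List (List K)) (h : a.length ≤ W.length) :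
    lincomb a (W ++ W') = lincomb a W := by
  induction W generalizing a with
  | nil =>
    cases a with
    | nil => simp [lincomb_nil]
    | cons x a => simp at h
  | cons w W ih =>
    cases a with
    | nil => simp [lincomb_nil]
    | cons x a =>
      rw [List.cons_append, lincomb_cons, lincomb_cons, ih a (by simpa using h)]

theorem elim_lincomb_snoc (a : List K) (x : K) (W : List (List K)) (w : List K) (j : ℕ)
    (h : a.length = W.length) :
    vec (lincomb (a ++ [x]) (W ++ [w])) j = vec (lincomb a W) j + x * vec w j := by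
  induction W generalizing a with
  | nil =>
    cases a with
    | nil => simp [lincomb_nil, elim_lincomb_cons, elim_vec_nil]
    | cons x a => simp at h
  | cons w' W ih =>
    cases a with
    | nil => simp at h
    | cons y a =>
      rw [List.cons_append, List.cons_append, elim_lincomb_cons, elim_lincomb_cons,
        ih a (by simpa using h)]
      ring

theorem elim_lincomb_zero {a : List K} (W : List (List K)) (j : ℕ) (h : ∀ i, vec a i = 0) :
    vec (lincomb a W) j = 0 := by
  induction W generalizing a with
  | nil => simp [lincomb_nil', elim_vec_nil]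
  | cons w W ih =>
    cases a with
    | nil => simp [lincomb_nil, elim_vec_nil]
    | cons x a =>
      rw [elim_lincomb_cons, ih (fun i => by simpa [vec] using h (i + 1))]
      have := h 0
      simp only [vec, List.getD_cons_zero] at this
      rw [this]
      ring

/-! ### The algorithm -/

/-- the first position with a nonzero entry -/
def fnz [DecidableEq K] : List K → ℕ
  | [] => 0
  | a :: l => bif decide (a = 0) then fnz l + 1 else 0

theorem fnz_spec [DecidableEq K] {l : List K} (h : ¬ ∀ x ∈ l, x = 0) :
    fnz l < l.length ∧ vec l (fnz l) ≠ 0 := by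
  induction l with
  | nil => exact absurd (by simp) h
  | cons a l ih =>
    by_cases ha : a = 0
    · have h' : ¬ ∀ x ∈ l, x = 0 := by
        intro h2
        apply h
        intro x hx
        rcases List.mem_cons.1 hx with hx | hx
        · rw [hx, ha]
        · exact h2 x hx
      obtain ⟨h1, h2⟩ := ih h'
      have e : fnz (a :: l) = fnz l + 1 := by simp [fnz, ha]
      rw [e]
      exact ⟨by simpa using h1, by simpa [vec] using h2⟩
    · have e : fnz (a :: l) = 0 := by simp [fnz, ha]
      rw [e]
      exact ⟨by simp, by simpa [vec] using ha⟩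

theorem fnz_le [DecidableEq K] (l : List K) : fnz l ≤ l.length := by
  induction l with
  | nil => simp [fnz]
  | cons a l ih =>
    by_cases ha : a = 0
    · simpa [fnz, ha] using ih
    · simp [fnz, ha]

/-- a pivot: position, reduced row, its coefficients -/
abbrev Pv (K : Type) : Type := ℕ × List K × List K

/-- subtract a multiple of a pivot row -/
def redStep (s : List K × List K) (q : Pv K) : List K × List K :=
  (subP s.1 (smulP (s.1.getD q.1 0) q.2.1), addP s.2 (smulP (s.1.getD q.1 0) q.2.2))

/-- reduce a row modulo the pivots -/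
def redRow (P : List (Pv K)) (r : List K) : List K × List K := P.foldl redStep (r, [])

/-- the new pivot -/
def newPv [DecidableEq K] (k : ℕ) (s : List K × List K) : Pv K :=
  (fnz s.1, smulP (s.1.getD (fnz s.1) 0)⁻¹ s.1,
    smulP (s.1.getD (fnz s.1) 0)⁻¹ (subP (List.replicate k 0 ++ [1]) s.2))

/-- the step after the reduction -/
def estep1 [DecidableEq K] (P : List (Pv K)) (s : List K × List K) :
    Option (List K) × List (Pv K) :=
  bif s.1.all (fun x => decide (x = 0)) then (some s.2, P)
  else (none, P ++ [newPv P.length s])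

/-- one row -/
def estep [DecidableEq K] (n : ℕ) (P : List (Pv K)) (r : List K) :
    Option (List K) × List (Pv K) := estep1 P (redRow P (padTo n r))

/-- elimination with given pivots -/
def elimAux [DecidableEq K] (n : ℕ) : List (Pv K) → List (List K) → List (Option (List K))
  | _, [] => []
  | P, r :: A => (estep n P r).1 :: elimAux n (estep n P r).2 A

/-- Go through the rows of `A` (vectors of length `n`); the result is `none` for a row that is
independent of the previous ones and `some c` for a row that is the combination with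
coefficients `c` of the independent rows before it. -/
def elimN [DecidableEq K] (n : ℕ) (A : List (List K)) : List (Option (List K)) :=
  elimAux n [] A

/-! ### Correctness -/

/-- the invariant of the elimination: `W` is the list of the picked rows -/
structure EInv (n : ℕ) (P : List (Pv K)) (W : List (List K)) : Prop where
  len : P.length = W.length
  bd : ∀ q ∈ P, q.1 < n ∧ q.2.1.length ≤ n ∧ q.2.2.length ≤ P.length
  tr : P.Pairwise (fun q q' => vec q'.2.1 q.1 = 0)
  one : ∀ q ∈ P, vec q.2.1 q.1 = 1
  eq : ∀ q ∈ P, ∀ j < n, vec q.2.1 j = vec (lincomb q.2.2 W) j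
  inj : ∀ d : List K, d.length = W.length → (∀ q ∈ P, vec (lincomb d W) q.1 = 0) →
    ∀ i, vec d i = 0

theorem EInv.nil (n : ℕ) : EInv n ([] : List (Pv K)) [] where
  len := rfl
  bd := by simp
  tr := List.Pairwise.nil
  one := by simp
  eq := by simp
  inj := by
    intro d hd _ i
    rw [List.length_nil, List.length_eq_zero_iff] at hd
    rw [hd, elim_vec_nil]

theorem foldl_redStep {n m : ℕ} (W : List (List K)) (Q : List (Pv K)) (s : List K × List K)
    (hb : ∀ q ∈ Q, q.1 < n ∧ q.2.1.length ≤ n ∧ q.2.2.length ≤ m)
    (htr : Q.Pairwise (fun q q' => vec q'.2.1 q.1 = 0))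
    (hone : ∀ q ∈ Q, vec q.2.1 q.1 = 1)
    (heq : ∀ q ∈ Q, ∀ j < n, vec q.2.1 j = vec (lincomb q.2.2 W) j)
    (h1 : s.1.length ≤ n) (h2 : s.2.length ≤ m) :
    (Q.foldl redStep s).1.length ≤ n ∧ (Q.foldl redStep s).2.length ≤ m ∧
    (∀ j < n, vec (Q.foldl redStep s).1 j + vec (lincomb (Q.foldl redStep s).2 W) j =
      vec s.1 j + vec (lincomb s.2 W) j) ∧
    (∀ q ∈ Q, vec (Q.foldl redStep s).1 q.1 = 0) ∧
    (∀ p, (∀ q ∈ Q, vec q.2.1 p = 0) → vec (Q.foldl redStep s).1 p = vec s.1 p) := by
  induction Q generalizing s with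
  | nil => simp [h1, h2]
  | cons q Q ih =>
    have hq := hb q (by simp)
    have e1 : (redStep s q).1.length ≤ n := by
      simp only [redStep, length_subP, length_smulP]
      exact max_le h1 hq.2.1
    have e2 : (redStep s q).2.length ≤ m := by
      simp only [redStep, length_addP, length_smulP]
      exact max_le h2 hq.2.2
    rw [List.pairwise_cons] at htr
    obtain ⟨a1, a2, a3, a4, a5⟩ := ih (redStep s q) (fun q' h => hb q' (by simp [h])) htr.2
      (fun q' h => hone q' (by simp [h])) (fun q' h => heq q' (by simp [h])) e1 e2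
    have e3 : ∀ p, vec (redStep s q).1 p = vec s.1 p - vec s.1 q.1 * vec q.2.1 p := by
      intro p
      simp only [redStep, elim_vec_subP, elim_vec_smulP]
      rfl
    have e4 : ∀ j, vec (lincomb (redStep s q).2 W) j =
        vec (lincomb s.2 W) j + vec s.1 q.1 * vec (lincomb q.2.2 W) j := by
      intro j
      simp only [redStep, elim_lincomb_addP, elim_lincomb_smulP]
      rfl
    rw [List.foldl_cons]
    refine ⟨a1, a2, ?_, ?_, ?_⟩
    · intro j hj
      rw [a3 j hj, e3, e4, heq q (by simp) j hj]
      ring
    · intro q' hq'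
      rcases List.mem_cons.1 hq' with rfl | hq'
      · rw [a5 q'.1 (fun q'' h'' => htr.1 q'' h''), e3, hone q' (by simp)]
        ring
      · exact a4 q' hq'
    · intro p hp
      rw [a5 p (fun q' h' => hp q' (by simp [h'])), e3, hp q (by simp)]
      ring

theorem redRow_spec {n : ℕ} {P : List (Pv K)} {W : List (List K)} (h : EInv n P W)
    {r : List K} (hr : r.length ≤ n) :
    (redRow P r).1.length ≤ n ∧ (redRow P r).2.length ≤ P.length ∧
    (∀ j < n, vec (redRow P r).1 j + vec (lincomb (redRow P r).2 W) j = vec r j) ∧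
    (∀ q ∈ P, vec (redRow P r).1 q.1 = 0) := by
  obtain ⟨a1, a2, a3, a4, -⟩ := foldl_redStep W P (r, []) h.bd h.tr h.one h.eq hr (by simp)
  refine ⟨a1, a2, fun j hj => ?_, a4⟩
  have := a3 j hj
  simp only [lincomb_nil, elim_vec_nil, add_zero] at this
  exact this

theorem estep_some [DecidableEq K] {n : ℕ} {P : List (Pv K)} {W : List (List K)}
    (h : EInv n P W) {r : List K} {c : List K} (hc : (estep n P r).1 = some c) :
    (estep n P r).2 = P ∧ c.length ≤ W.length ∧ ∀ j < n, vec r j = vec (lincomb c W) j := by
  obtain ⟨a1, a2, a3, a4⟩ := redRow_spec h (r := padTo n r) (length_padTo n r).le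
  unfold estep at hc ⊢
  set s := redRow P (padTo n r)
  unfold estep1 at hc ⊢
  cases hs : s.1.all (fun x => decide (x = 0)) with
  | false => simp [hs] at hc
  | true =>
    simp only [hs, cond_true, Option.some.injEq] at hc ⊢
    refine ⟨trivial, by rw [← hc, ← h.len]; exact a2, fun j hj => ?_⟩
    have h0 : vec s.1 j = 0 := by
      refine (elim_vec_zero_iff s.1).2 ?_ j
      simpa using hs
    rw [← elim_vec_padTo r hj, ← a3 j hj, h0, zero_add, hc]

theorem estep_none [DecidableEq K] {n : ℕ} {P : List (Pv K)} {W : List (List K)}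
    (h : EInv n P W) {r : List K} (hc : (estep n P r).1 = none) :
    EInv n (estep n P r).2 (W ++ [r]) := by
  obtain ⟨a1, a2, a3, a4⟩ := redRow_spec h (r := padTo n r) (length_padTo n r).le
  unfold estep at hc ⊢
  set s := redRow P (padTo n r)
  unfold estep1 at hc ⊢
  cases hs : s.1.all (fun x => decide (x = 0)) with
  | true => simp [hs] at hc
  | false =>
    simp only [cond_false]
    have hz : ¬ ∀ x ∈ s.1, x = 0 := by
      intro h0
      have : s.1.all (fun x => decide (x = 0)) = true := by simpa using h0
      rw [hs] at this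
      exact absurd this (by decide)
    obtain ⟨b1, b2⟩ := fnz_spec hz
    set p := fnz s.1 with hp
    have hpn : p < n := lt_of_lt_of_le b1 a1
    have hbe : s.1.getD p 0 = vec s.1 p := rfl
    set b := vec s.1 p with hb
    have hr : ∀ j < n, vec r j = vec s.1 j + vec (lincomb s.2 W) j := fun j hj => by
      rw [← elim_vec_padTo r hj, a3 j hj]
    have hnew : newPv P.length s = (p, smulP b⁻¹ s.1,
      smulP b⁻¹ (subP (List.replicate P.length 0 ++ [1]) s.2)) := rfl
    have hl1 : (List.replicate P.length (0 : K)).length = W.length := by simp [h.len]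
    have hl2 : s.2.length ≤ W.length := by rw [← h.len]; exact a2
    refine ⟨by simp [h.len], ?_, ?_, ?_, ?_, ?_⟩
    · intro q hq
      rw [List.length_append, List.length_singleton]
      rcases List.mem_append.1 hq with hq | hq
      · obtain ⟨c1, c2, c3⟩ := h.bd q hq
        exact ⟨c1, c2, by omega⟩
      · rw [List.mem_singleton] at hq
        rw [hq, hnew]
        refine ⟨hpn, ?_, ?_⟩
        · simpa [length_smulP] using a1
        · simp only [length_smulP, length_subP, List.length_append, List.length_replicate,
            List.length_singleton]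
          omega
    · rw [List.pairwise_append]
      refine ⟨h.tr, List.pairwise_singleton _ _, ?_⟩
      intro q hq q' hq'
      rw [List.mem_singleton] at hq'
      rw [hq', hnew]
      simp only [elim_vec_smulP, a4 q hq, mul_zero]
    · intro q hq
      rcases List.mem_append.1 hq with hq | hq
      · exact h.one q hq
      · rw [List.mem_singleton] at hq
        rw [hq, hnew]
        simp only [elim_vec_smulP, ← hb]
        exact inv_mul_cancel₀ b2
    · intro q hq j hj
      rcases List.mem_append.1 hq with hq | hq
      · rw [h.eq q hq j hj, elim_lincomb_append _ _ _ (by rw [← h.len]; exact (h.bd q hq).2.2)]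
      · rw [List.mem_singleton] at hq
        rw [hq, hnew]
        simp only [elim_vec_smulP, elim_lincomb_smulP, elim_lincomb_subP]
        rw [elim_lincomb_snoc _ _ _ _ _ hl1, elim_lincomb_append _ _ _ hl2, hr j hj,
          elim_lincomb_zero W j (fun i => by
            rw [(elim_vec_zero_iff _).2]
            intro x hx
            exact List.eq_of_mem_replicate hx)]
        ring
    · intro d hd hq
      rw [List.length_append, List.length_singleton] at hd
      obtain ⟨d0, x, rfl⟩ : ∃ d0 x, d = d0 ++ [x] := by
        rcases List.eq_nil_or_concat d with h0 | ⟨d0, x, h0⟩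
        · rw [h0] at hd; simp at hd
        · exact ⟨d0, x, by simpa using h0⟩
      have hd0 : d0.length = W.length := by simpa using hd
      have key : ∀ j < n, vec (lincomb (d0 ++ [x]) (W ++ [r])) j =
          vec (lincomb (addP d0 (smulP x s.2)) W) j + x * vec s.1 j := by
        intro j hj
        rw [elim_lincomb_snoc _ _ _ _ _ hd0, hr j hj, elim_lincomb_addP, elim_lincomb_smulP]
        ring
      have h0 : ∀ i, vec (addP d0 (smulP x s.2)) i = 0 := by
        refine h.inj _ ?_ ?_
        · rw [length_addP, length_smulP]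
          omega
        · intro q hq'
          have e1 := hq q (List.mem_append_left _ hq')
          rw [key q.1 (h.bd q hq').1, a4 q hq', mul_zero, add_zero] at e1
          exact e1
      have hx : x = 0 := by
        have e1 := hq (newPv P.length s) (by simp)
        rw [hnew] at e1
        simp only at e1
        rw [key p hpn, elim_lincomb_zero W p h0, zero_add] at e1
        rcases mul_eq_zero.1 e1 with e2 | e2
        · exact e2
        · exact absurd e2 b2
      rw [elim_vec_zero_iff]
      intro y hy
      rcases List.mem_append.1 hy with hy | hy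
      · refine (elim_vec_zero_iff d0).1 (fun i => ?_) y hy
        have := h0 i
        rw [elim_vec_addP, elim_vec_smulP, hx, zero_mul, add_zero] at this
        exact this
      · rw [List.mem_singleton] at hy
        rw [hy, hx]

theorem pick_nil {α β : Type} (o : List (Option β)) : pick o ([] : List α) = [] := by
  simp [pick]

theorem pick_none {α β : Type} (o : List (Option β)) (a : α) (A : List α) :
    pick (none :: o) (a :: A) = a :: pick o A := by
  simp [pick]

theorem pick_some {α β : Type} (b : β) (o : List (Option β)) (a : α) (A : List α) :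
    pick (some b :: o) (a :: A) = pick o A := by
  simp [pick]

theorem elimAux_spec [DecidableEq K] {n : ℕ} (A : List (List K)) {P : List (Pv K)}
    {W : List (List K)} (h : EInv n P W) :
    (elimAux n P A).length = A.length ∧
    (∃ P', EInv n P' (W ++ pick (elimAux n P A) A)) ∧
    ∀ i c, (elimAux n P A)[i]? = some (some c) →
      c.length ≤ (W ++ pick (elimAux n P A) A).length ∧
      ∀ j < n, vec (A.getD i []) j = vec (lincomb c (W ++ pick (elimAux n P A) A)) j := by
  induction A generalizing P W with
  | nil =>
    refine ⟨rfl, ⟨P, by simpa [pick_nil] using h⟩, ?_⟩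
    intro i c hi
    simp [elimAux] at hi
  | cons r A ih =>
    cases he : (estep n P r).1 with
    | some c0 =>
      obtain ⟨e1, e2, e3⟩ := estep_some h he
      have eq1 : elimAux n P (r :: A) = some c0 :: elimAux n P A := by
        rw [elimAux, he, e1]
      obtain ⟨i1, i2, i3⟩ := ih h
      rw [eq1, pick_some]
      refine ⟨by simp [i1], i2, ?_⟩
      intro i c hi
      cases i with
      | zero =>
        simp only [List.getElem?_cons_zero, Option.some.injEq] at hi
        subst hi
        refine ⟨by rw [List.length_append]; omega, fun j hj => ?_⟩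
        rw [elim_lincomb_append _ _ _ e2, ← e3 j hj]
        rfl
      | succ i =>
        simp only [List.getElem?_cons_succ] at hi
        obtain ⟨k1, k2⟩ := i3 i c hi
        refine ⟨k1, fun j hj => ?_⟩
        rw [← k2 j hj, List.getD_cons_succ]
    | none =>
      have e1 := estep_none h he
      have eq1 : elimAux n P (r :: A) = none :: elimAux n (estep n P r).2 A := by
        rw [elimAux, he]
      obtain ⟨i1, i2, i3⟩ := ih e1
      rw [eq1, pick_none]
      have eq2 : W ++ r :: pick (elimAux n (estep n P r).2 A) A =
        W ++ [r] ++ pick (elimAux n (estep n P r).2 A) A := by simp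
      rw [eq2]
      refine ⟨by simp [i1], i2, ?_⟩
      intro i c hi
      cases i with
      | zero => simp at hi
      | succ i =>
        simp only [List.getElem?_cons_succ] at hi
        obtain ⟨k1, k2⟩ := i3 i c hi
        refine ⟨k1, fun j hj => ?_⟩
        rw [← k2 j hj, List.getD_cons_succ]

theorem length_elimN [DecidableEq K] (n : ℕ) (A : List (List K)) :
    (elimN n A).length = A.length := (elimAux_spec A (EInv.nil n)).1

theorem elimN_some [DecidableEq K] {n : ℕ} {A : List (List K)} {i : ℕ} {c : List K}
    (h : (elimN n A)[i]? = some (some c)) :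
    c.length ≤ (pick (elimN n A) A).length ∧
    ∀ j < n, vec (A.getD i []) j = vec (lincomb c (pick (elimN n A) A)) j :=
  (elimAux_spec A (EInv.nil n)).2.2 i c h

theorem elimN_indep [DecidableEq K] (n : ℕ) (A : List (List K)) (c : List K)
    (hc : c.length = (pick (elimN n A) A).length)
    (h : ∀ j < n, vec (lincomb c (pick (elimN n A) A)) j = 0) : ∀ x ∈ c, x = 0 := by
  obtain ⟨P, hP⟩ := (elimAux_spec A (EInv.nil n)).2.1
  rw [← elim_vec_zero_iff]
  exact hP.inj c hc (fun q hq => h q.1 (hP.bd q hq).1)

theorem EInv.length_le {n : ℕ} {P : List (Pv K)} {W : List (List K)} (h : EInv n P W) :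
    W.length ≤ n := by
  have h1 : (P.map Prod.fst).Nodup := by
    rw [List.Nodup, List.pairwise_map]
    refine List.Pairwise.imp_of_mem ?_ h.tr
    intro q q' hq hq' h0 he
    rw [he, h.one q' hq'] at h0
    exact one_ne_zero h0
  have h2 : (P.map Prod.fst) ⊆ List.range n := by
    intro x hx
    obtain ⟨q, hq, rfl⟩ := List.mem_map.1 hx
    exact List.mem_range.2 (h.bd q hq).1
  have h3 := (List.subperm_of_subset h1 h2).length_le
  rwa [List.length_map, List.length_range, h.len] at h3

theorem length_pick_elimN [DecidableEq K] (n : ℕ) (A : List (List K)) :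
    (pick (elimN n A) A).length ≤ n := by
  obtain ⟨P, hP⟩ := (elimAux_spec A (EInv.nil n)).2.1
  exact hP.length_le

/-! ### Costs -/

theorem pick_ex : ∃ c, ∀ (K : Type) [Field K] (α β : Type) [Enc K α] [Enc K β],
    Comp K (fun z : List (Option β) × List α => pick z.1 z.2) c
      (fun z => z.1.length + z.2.length) :=
  ⟨_, fun K _ α β _ _ => by
    have hf : Comp K (fun z : List (Option β) × List α =>
        (z.1.zip z.2).filter (fun y => !y.1.isSome)) _ _ :=
      Comp.filter (K := K) (l := fun z : List (Option β) × List α => z.1.zip z.2)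
        (g := fun _ y => !y.1.isSome)
    exact (Comp.map (K := K)
      (l := fun z : List (Option β) × List α => (z.1.zip z.2).filter (fun y => !y.1.isSome))
      (g := fun _ y => y.2) (h := hf)).bigO (T' := fun z => z.1.length + z.2.length) 4
      (fun z => by
        have h1 : ((z.1.zip z.2).filter (fun y => !y.1.isSome)).length ≤ (z.1.zip z.2).length :=
          List.length_filter_le _ _
        simp only [List.length_zip, List.map_const', List.sum_replicate, smul_eq_mul, zero_add,
          add_zero, mul_one] at h1 ⊢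
        omega)⟩

noncomputable def pickCd : Cd := pick_ex.choose

instance compPick {α β γ : Type} [Enc K α] [Enc K β] [Enc K γ] {f : γ → List (Option β)}
    {g : γ → List α} {c d : Cd} {T T' : γ → ℕ} [h : Comp K f c T] [h' : Comp K g d T'] :
    Comp K (fun x => pick (f x) (g x)) (pickCd.comp (c.pair d))
      (fun x => T x + T' x + ((f x).length + (g x).length)) :=
  (pick_ex.choose_spec K α β).app2 h h'

theorem fnz_ex : ∃ c, ∀ (K : Type) [Field K] [DecidableEq K],
    Comp K (fun l : List K => fnz l) c (fun l => l.length) :=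
  ⟨_, fun K _ _ => (Comp.rec1 (K := K) (isLeaf := fun l : List K => l.isEmpty)
    (leaf := fun _ => 0) (next := fun l => l.tail)
    (join := fun l r => lcase l r (fun a _ => bif decide (a = 0) then r + 1 else 0))
    (T := fun z => 2 * z.length)
    (fun z => z.length)
    (by rintro l h; cases l <;> simp_all [fnz])
    (by rintro l h; cases l <;> simp_all [fnz])
    (by rintro l h; cases l <;> simp_all)
    (by rintro l h; cases l <;> simp_all)
    (by rintro l h; cases l <;> simp_all; omega)).bigO 2 (fun z => by omega)⟩

noncomputable def fnzCd : Cd := fnz_ex.choose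

instance compFnz [DecidableEq K] {α : Type} [Enc K α] {f : α → List K} {c : Cd} {T : α → ℕ}
    [h : Comp K f c T] : Comp K (fun x => fnz (f x)) (fnzCd.comp c)
      (fun x => T x + (f x).length) := (fnz_ex.choose_spec K).app1 h

theorem redStep_ex : ∃ c, ∀ (K : Type) [Field K],
    Comp K (fun z : (List K × List K) × Pv K => redStep z.1 z.2) c
      (fun z => z.1.1.length + z.2.2.1.length + z.2.2.2.length + z.2.1) :=
  ⟨_, fun K _ => (Comp.pair (K := K)
    (f := fun z : (List K × List K) × Pv K => subP z.1.1 (smulP (z.1.1.getD z.2.1 0) z.2.2.1))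
    (g := fun z => addP z.1.2 (smulP (z.1.1.getD z.2.1 0) z.2.2.2))).bigO 4 (fun z => by
      simp only [length_smulP]
      have := Nat.min_le_right z.1.2.length z.2.2.2.length
      omega)⟩

noncomputable def redStepCd : Cd := redStep_ex.choose

/-- the cost of a reduction -/
def redCost (P : List (Pv K)) (r : List K) : ℕ :=
  foldlCost redStep (fun s q => s.1.length + q.2.1.length + q.2.2.length + q.1) (r, []) P

theorem redRow_ex : ∃ c, ∀ (K : Type) [Field K],
    Comp K (fun z : List (Pv K) × List K => redRow z.1 z.2) c (fun z => redCost z.1 z.2) :=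
  ⟨_, fun K _ => (Comp.foldl (K := K) (l := fun z : List (Pv K) × List K => z.1)
    (b := fun z => ((z.2, []) : List K × List K))
    (g := fun _ s q => redStep s q)
    (hg := (redStep_ex.choose_spec K).comp
      (f := fun z : (List (Pv K) × List K) × (List K × List K) × Pv K => z.2)
      inferInstance)).mono (fun z => by
        simp only [zero_add, add_zero]
        exact le_refl _)⟩

noncomputable def redRowCd : Cd := redRow_ex.choose

instance compRedRow {α : Type} [Enc K α] {f : α → List (Pv K)} {g : α → List K} {c d : Cd}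
    {T T' : α → ℕ} [h : Comp K f c T] [h' : Comp K g d T'] :
    Comp K (fun x => redRow (f x) (g x)) (redRowCd.comp (c.pair d))
      (fun x => T x + T' x + redCost (f x) (g x)) :=
  (redRow_ex.choose_spec K).app2 h h'

theorem newPv_ex : ∃ c, ∀ (K : Type) [Field K] [DecidableEq K],
    Comp K (fun z : ℕ × List K × List K => newPv z.1 z.2) c
      (fun z => z.1 + z.2.1.length + z.2.2.length) :=
  ⟨_, fun K _ _ => (Comp.pair (K := K)
    (f := fun z : ℕ × List K × List K => fnz z.2.1)
    (g := fun z => (smulP (z.2.1.getD (fnz z.2.1) 0)⁻¹ z.2.1,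
      smulP (z.2.1.getD (fnz z.2.1) 0)⁻¹ (subP (List.replicate z.1 0 ++ [1]) z.2.2)))).bigO 20
      (fun z => by
        have := fnz_le z.2.1
        simp only [length_subP, List.length_append, List.length_replicate,
          List.length_singleton]
        omega)⟩

noncomputable def newPvCd : Cd := newPv_ex.choose

instance compNewPv [DecidableEq K] {α : Type} [Enc K α] {f : α → ℕ} {g : α → List K × List K}
    {c d : Cd} {T T' : α → ℕ} [h : Comp K f c T] [h' : Comp K g d T'] :
    Comp K (fun x => newPv (f x) (g x)) (newPvCd.comp (c.pair d))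
      (fun x => T x + T' x + (f x + (g x).1.length + (g x).2.length)) :=
  (newPv_ex.choose_spec K).app2 h h'

theorem estep1_ex : ∃ c, ∀ (K : Type) [Field K] [DecidableEq K],
    Comp K (fun z : List (Pv K) × List K × List K => estep1 z.1 z.2) c
      (fun z => z.1.length + z.2.1.length + z.2.2.length) :=
  ⟨_, fun K _ _ => by
    have h0 : Comp K (fun z : List (Pv K) × List K × List K =>
        z.2.1.all (fun x => decide (x = 0))) _ _ :=
      Comp.all (K := K) (l := fun z : List (Pv K) × List K × List K => z.2.1)
        (g := fun _ x => decide (x = 0))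
    have h1 : Comp K (fun z : List (Pv K) × List K × List K =>
        ((some z.2.2, z.1) : Option (List K) × List (Pv K))) _ _ :=
      Comp.pair (f := fun z : List (Pv K) × List K × List K => some z.2.2)
        (g := fun z => z.1)
    have h2 : Comp K (fun z : List (Pv K) × List K × List K =>
        ((none, z.1 ++ [newPv z.1.length z.2]) : Option (List K) × List (Pv K))) _ _ :=
      Comp.pair (f := fun z : List (Pv K) × List K × List K => (none : Option (List K)))
        (g := fun z => z.1 ++ [newPv z.1.length z.2])
    exact (Comp.cond' h0 h1 h2).bigO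
      (T' := fun z => z.1.length + z.2.1.length + z.2.2.length) 10 (fun z => by
        cases z.2.1.all (fun x => decide (x = 0)) <;>
          simp only [cond_true, cond_false, List.map_const', List.sum_replicate, smul_eq_mul,
            zero_add, add_zero, mul_one] <;> omega)⟩

noncomputable def estep1Cd : Cd := estep1_ex.choose

instance compEstep1 [DecidableEq K] {α : Type} [Enc K α] {f : α → List (Pv K)}
    {g : α → List K × List K} {c d : Cd} {T T' : α → ℕ} [h : Comp K f c T]
    [h' : Comp K g d T'] : Comp K (fun x => estep1 (f x) (g x)) (estep1Cd.comp (c.pair d))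
      (fun x => T x + T' x + ((f x).length + (g x).1.length + (g x).2.length)) :=
  (estep1_ex.choose_spec K).app2 h h'

/-- the cost of one row -/
def estepCost (n : ℕ) (P : List (Pv K)) (r : List K) : ℕ :=
  n + redCost P (padTo n r) + P.length + (redRow P (padTo n r)).1.length +
    (redRow P (padTo n r)).2.length

theorem estep_ex : ∃ c, ∀ (K : Type) [Field K] [DecidableEq K],
    Comp K (fun z : ℕ × List (Pv K) × List K => estep z.1 z.2.1 z.2.2) c
      (fun z => estepCost z.1 z.2.1 z.2.2) :=
  ⟨_, fun K _ _ => (compEstep1 (K := K) (f := fun z : ℕ × List (Pv K) × List K => z.2.1)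
    (g := fun z => redRow z.2.1 (padTo z.1 z.2.2))).mono (fun z => by
      unfold estepCost
      omega)⟩

noncomputable def estepCd : Cd := estep_ex.choose

instance compEstep [DecidableEq K] {α : Type} [Enc K α] {e : α → ℕ} {f : α → List (Pv K)}
    {g : α → List K} {b c d : Cd} {T T' T'' : α → ℕ} [h : Comp K e b T]
    [h' : Comp K f c T'] [h'' : Comp K g d T''] :
    Comp K (fun x => estep (e x) (f x) (g x)) (estepCd.comp (b.pair (c.pair d)))
      (fun x => T x + (T' x + T'' x) + estepCost (e x) (f x) (g x)) :=
  (estep_ex.choose_spec K).comp (f := fun x => (e x, f x, g x)) (Comp.pair (h' := Comp.pair))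

/-- the cost of the elimination -/
def elimCost [DecidableEq K] (n : ℕ) : List (Pv K) → List (List K) → ℕ
  | _, [] => 0
  | P, r :: A => 2 * estepCost n P r + 2 + elimCost n (estep n P r).2 A

theorem elimAux_ex : ∃ c, ∀ (K : Type) [Field K] [DecidableEq K],
    Comp K (fun z : ℕ × List (Pv K) × List (List K) => elimAux z.1 z.2.1 z.2.2) c
      (fun z => elimCost z.1 z.2.1 z.2.2) :=
  ⟨_, fun K _ _ => (Comp.rec1 (K := K)
    (isLeaf := fun z : ℕ × List (Pv K) × List (List K) => z.2.2.isEmpty)
    (leaf := fun _ => [])
    (next := fun z => (z.1, (estep z.1 z.2.1 (z.2.2.headD [])).2, z.2.2.tail))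
    (join := fun z r => (estep z.1 z.2.1 (z.2.2.headD [])).1 :: r)
    (T := fun z => elimCost z.1 z.2.1 z.2.2)
    (fun z => z.2.2.length)
    (by rintro ⟨n, P, A⟩ h; cases A <;> simp_all [elimAux])
    (by rintro ⟨n, P, A⟩ h; cases A <;> simp_all [elimAux])
    (by rintro ⟨n, P, A⟩ h; cases A <;> simp_all)
    (by rintro ⟨n, P, A⟩ h; cases A <;> simp_all)
    (by rintro ⟨n, P, A⟩ h; cases A <;> simp_all [elimCost]; omega))⟩

noncomputable def elimAuxCd : Cd := elimAux_ex.choose

theorem redCost_le {n : ℕ} {P : List (Pv K)} {W : List (List K)} (h : EInv n P W)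
    {r : List K} (hr : r.length ≤ n) : redCost P r ≤ P.length * (3 * n + P.length + 1) := by
  refine (foldlCost_le (fun s => s.1.length ≤ n) (3 * n + P.length) hr ?_ ?_)
  · intro q hq s hs
    simp only [redStep, length_subP, length_smulP]
    exact max_le hs (h.bd q hq).2.1
  · intro q hq s hs
    have := h.bd q hq
    omega

theorem estepCost_le {n : ℕ} {P : List (Pv K)} {W : List (List K)} (h : EInv n P W)
    (r : List K) : estepCost n P r ≤ 5 * ((P.length + 1) * (n + P.length + 1)) := by
  have h1 := redCost_le h (r := padTo n r) (length_padTo n r).le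
  obtain ⟨a1, a2, -, -⟩ := redRow_spec h (r := padTo n r) (length_padTo n r).le
  unfold estepCost
  nlinarith [Nat.zero_le (P.length * n), Nat.zero_le (P.length * P.length)]

theorem elimCost_le [DecidableEq K] {n : ℕ} (A : List (List K)) {P : List (Pv K)}
    {W : List (List K)} (h : EInv n P W) {R : ℕ}
    (hR : (W ++ pick (elimAux n P A) A).length ≤ R) :
    elimCost n P A ≤ A.length * (12 * ((R + 1) * (n + R + 1))) := by
  induction A generalizing P W with
  | nil => simp [elimCost]
  | cons r A ih =>
    have hP : P.length ≤ R := by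
      rw [h.len]
      rw [List.length_append] at hR
      omega
    have h1 : 2 * estepCost n P r + 2 ≤ 12 * ((R + 1) * (n + R + 1)) := by
      have h2 := estepCost_le h r
      have h3 : (P.length + 1) * (n + P.length + 1) ≤ (R + 1) * (n + R + 1) :=
        Nat.mul_le_mul (by omega) (by omega)
      have h4 : 1 ≤ (R + 1) * (n + R + 1) := Nat.mul_pos (by omega) (by omega)
      omega
    have h5 : elimCost n (estep n P r).2 A ≤ A.length * (12 * ((R + 1) * (n + R + 1))) := by
      cases he : (estep n P r).1 with
      | some c0 =>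
        obtain ⟨e1, e2, e3⟩ := estep_some h he
        rw [e1]
        refine ih h ?_
        have eq1 : elimAux n P (r :: A) = some c0 :: elimAux n P A := by
          rw [elimAux, he, e1]
        rwa [eq1, pick_some] at hR
      | none =>
        refine ih (estep_none h he) ?_
        have eq1 : elimAux n P (r :: A) = none :: elimAux n (estep n P r).2 A := by
          rw [elimAux, he]
        rw [eq1, pick_none] at hR
        simp only [List.length_append, List.length_cons, List.length_nil] at hR ⊢
        omega
    rw [elimCost, List.length_cons, Nat.add_mul, one_mul]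
    omega

theorem elimN_ex : ∃ c, ∀ (K : Type) [Field K] [DecidableEq K],
    Comp K (fun z : ℕ × List (List K) => elimN z.1 z.2) c
      (fun z => (z.2.length + 1) * ((pick (elimN z.1 z.2) z.2).length + 1) *
        (z.1 + (pick (elimN z.1 z.2) z.2).length + 1)) :=
  ⟨_, fun K _ _ => (((elimAux_ex.choose_spec K).comp
    (f := fun z : ℕ × List (List K) => (z.1, ([] : List (Pv K)), z.2))
    inferInstance).congr (g := fun z : ℕ × List (List K) => elimN z.1 z.2)
      (fun z => rfl)).bigO (T' := fun z : ℕ × List (List K) => (z.2.length + 1) * ((pick (elimN z.1 z.2) z.2).length + 1) *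
        (z.1 + (pick (elimN z.1 z.2) z.2).length + 1)) 14 (fun z => by
        have h1 := elimCost_le z.2 (EInv.nil (K := K) z.1) (R := (pick (elimN z.1 z.2) z.2).length)
          (le_of_eq (by rw [List.nil_append]; rfl))
        set R := (pick (elimN z.1 z.2) z.2).length
        have h2 : (z.2.length + 1) * (R + 1) * (z.1 + R + 1) =
          z.2.length * ((R + 1) * (z.1 + R + 1)) + (R + 1) * (z.1 + R + 1) := by ring
        have h3 : z.2.length * (12 * ((R + 1) * (z.1 + R + 1))) =
          12 * (z.2.length * ((R + 1) * (z.1 + R + 1))) := by ring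
        simp only at h1 ⊢
        rw [h2]
        omega)⟩

noncomputable def elimNCd : Cd := elimN_ex.choose

instance compElimN [DecidableEq K] {α : Type} [Enc K α] {f : α → ℕ} {g : α → List (List K)}
    {c d : Cd} {T T' : α → ℕ} [h : Comp K f c T] [h' : Comp K g d T'] :
    Comp K (fun x => elimN (f x) (g x)) (elimNCd.comp (c.pair d))
      (fun x => T x + T' x + ((g x).length + 1) * ((pick (elimN (f x) (g x)) (g x)).length + 1) *
        (f x + (pick (elimN (f x) (g x)) (g x)).length + 1)) :=
  (elimN_ex.choose_spec K).app2 h h'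

/-! ### The left kernel -/

/-- `1` if `m = 1`, otherwise `0` -/
def mk1 (m : ℕ) : K := bif decide (m = 0) then 0 else bif decide (m - 1 = 0) then 1 else 0

theorem mk1_zero : (mk1 0 : K) = 0 := by simp [mk1]

theorem mk1_one : (mk1 1 : K) = 1 := by simp [mk1]

theorem mk1_add_two (m : ℕ) : (mk1 (m + 2) : K) = 0 := by simp [mk1]

/-- the vector with coefficients `c` at the picked positions (with sign) and `1` at position
`m - 1` -/
def spread {β : Type} : ℕ → List K → List (Option β) → List K
  | _, _, [] => []
  | m, c, none :: o => (-(c.headD 0)) :: spread (m - 1) c.tail o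
  | m, c, some _ :: o => mk1 m :: spread (m - 1) c o

theorem length_spread {β : Type} (m : ℕ) (c : List K) (o : List (Option β)) :
    (spread m c o).length = o.length := by
  induction o generalizing m c with
  | nil => rfl
  | cons x o ih => cases x <;> simp [spread, ih]

theorem spread_lincomb {β : Type} (m : ℕ) (c : List K) (o : List (Option β))
    (A : List (List K)) (hA : o.length = A.length) (j : ℕ)
    (hm : ∀ i, m = i + 1 → o[i]? ≠ some none) :
    vec (lincomb (spread m c o) A) j =
      (if m = 0 then 0 else vec (A.getD (m - 1) []) j) - vec (lincomb c (pick o A)) j := by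
  induction o generalizing m c A with
  | nil =>
    cases A with
    | nil => simp [spread, pick_nil, lincomb_nil', elim_vec_nil]
    | cons a A => simp at hA
  | cons x o ih =>
    cases A with
    | nil => simp at hA
    | cons a A =>
      have hA' : o.length = A.length := by simpa using hA
      cases x with
      | none =>
        rw [pick_none, spread, elim_lincomb_cons]
        have hc : vec (lincomb c (a :: pick o A)) j =
            c.headD 0 * vec a j + vec (lincomb c.tail (pick o A)) j := by
          cases c with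
          | nil => simp [lincomb_nil, elim_vec_nil]
          | cons y c => rw [elim_lincomb_cons]; rfl
        rw [hc]
        rcases m with _ | _ | m
        · rw [ih 0 c.tail A hA' (by omega)]
          simp
          ring
        · exact absurd (by simp) (hm 0 rfl)
        · have e1 : m + 1 + 1 - 1 = m + 1 := rfl
          rw [e1, ih (m + 1) c.tail A hA' (fun i hi => by
            have := hm (i + 1) (by omega)
            simpa using this)]
          have e2 : m + 1 ≠ 0 := by omega
          have e3 : m + 1 + 1 ≠ 0 := by omega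
          rw [if_neg e2, if_neg e3, List.getD_cons_succ]
          have e4 : m + 1 - 1 = m := rfl
          rw [e4]
          ring
      | some b =>
        rw [pick_some, spread, elim_lincomb_cons]
        rcases m with _ | _ | m
        · rw [ih 0 c A hA' (by omega), mk1_zero]
          simp
        · have e1 : 0 + 1 - 1 = 0 := rfl
          rw [e1, ih 0 c A hA' (by omega), mk1_one]
          simp
          ring
        · have e1 : m + 1 + 1 - 1 = m + 1 := rfl
          rw [e1, ih (m + 1) c A hA' (fun i hi => by
            have := hm (i + 1) (by omega)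
            simpa using this), mk1_add_two]
          have e2 : m + 1 ≠ 0 := by omega
          have e3 : m + 1 + 1 ≠ 0 := by omega
          rw [if_neg e2, if_neg e3, List.getD_cons_succ]
          have e4 : m + 1 - 1 = m := rfl
          rw [e4]
          ring

theorem vec_spread_some {β : Type} (m : ℕ) (c : List K) (o : List (Option β)) (i : ℕ) (b : β)
    (h : o[i]? = some (some b)) : vec (spread m c o) i = if m = i + 1 then 1 else 0 := by
  induction o generalizing m c i with
  | nil => simp at h
  | cons x o ih =>
    cases i with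
    | zero =>
      simp only [List.getElem?_cons_zero, Option.some.injEq] at h
      subst h
      have e : vec (spread m c (some b :: o)) 0 = mk1 m := rfl
      rw [e]
      rcases m with _ | _ | m
      · simp [mk1_zero]
      · simp [mk1_one]
      · rw [mk1_add_two, if_neg (by omega)]
    | succ i =>
      simp only [List.getElem?_cons_succ] at h
      have e : (if m - 1 = i + 1 then 1 else 0 : K) = (if m = i + 1 + 1 then 1 else 0) := by
        by_cases hm : m = i + 1 + 1
        · rw [if_pos hm, if_pos (by omega)]
        · rw [if_neg hm, if_neg (by omega)]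
      cases x with
      | none =>
        have e2 : vec (spread m c (none :: o)) (i + 1) = vec (spread (m - 1) c.tail o) i := rfl
        rw [e2, ih _ _ _ h, e]
      | some b' =>
        have e2 : vec (spread m c (some b' :: o)) (i + 1) = vec (spread (m - 1) c o) i := rfl
        rw [e2, ih _ _ _ h, e]

/-- the kernel vectors from the result of the elimination -/
def kerOf (o : List (Option (List K))) : List (List K) :=
  o.zipIdx.flatMap (fun z => ocase z.1 [] (fun c => [spread (z.2 + 1) c o]))

/-- the dependent rows give a basis of the left kernel -/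
def leftKerN [DecidableEq K] (n : ℕ) (A : List (List K)) : List (List K) := kerOf (elimN n A)

theorem mem_kerOf {o : List (Option (List K))} {b : List K} (hb : b ∈ kerOf o) :
    ∃ i c, o[i]? = some (some c) ∧ b = spread (i + 1) c o := by
  obtain ⟨⟨x, i⟩, h1, h2⟩ := List.mem_flatMap.1 hb
  rw [List.mem_zipIdx_iff_getElem?] at h1
  cases x with
  | none => simp at h2
  | some c =>
    simp only [ocase_some, List.mem_singleton] at h2
    exact ⟨i, c, h1, h2⟩

theorem leftKerN_mem [DecidableEq K] {n : ℕ} {A : List (List K)} {b : List K}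
    (hb : b ∈ leftKerN n A) : b.length = A.length ∧ ∀ j < n, vec (lincomb b A) j = 0 := by
  obtain ⟨i, c, h1, rfl⟩ := mem_kerOf hb
  refine ⟨by rw [length_spread, length_elimN], fun j hj => ?_⟩
  obtain ⟨-, h3⟩ := elimN_some h1
  rw [spread_lincomb _ _ _ _ (length_elimN n A) j (fun k hk => by
    have : k = i := by omega
    rw [this, h1]
    simp), if_neg (by omega)]
  have e : i + 1 - 1 = i := rfl
  rw [e, h3 j hj, sub_self]

theorem length_kerOf (o : List (Option (List K))) : (kerOf o).length ≤ o.length := by
  have key : ∀ (L : List (Option (List K) × ℕ)), (L.flatMap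
      (fun z => ocase z.1 [] (fun c => [spread (z.2 + 1) c o]))).length ≤ L.length := by
    intro L
    induction L with
    | nil => simp
    | cons z L ih =>
      obtain ⟨x, i⟩ := z
      rw [List.flatMap_cons, List.length_append, List.length_cons]
      cases x <;> simp only [ocase_none, ocase_some, List.length_nil, List.length_singleton] <;>
        omega
  have := key o.zipIdx
  rwa [List.length_zipIdx] at this

theorem length_leftKerN [DecidableEq K] (n : ℕ) (A : List (List K)) :
    (leftKerN n A).length ≤ A.length := by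
  have := length_kerOf (elimN n A)
  rwa [length_elimN] at this

theorem lincomb_lincomb_zero (cs : List K) (V A : List (List K)) (j : ℕ)
    (h : ∀ v ∈ V, vec (lincomb v A) j = 0) : vec (lincomb (lincomb cs V) A) j = 0 := by
  induction V generalizing cs with
  | nil => simp [lincomb_nil', lincomb_nil, elim_vec_nil]
  | cons v V ih =>
    cases cs with
    | nil => simp [lincomb_nil, elim_vec_nil]
    | cons x cs =>
      rw [lincomb_cons, elim_lincomb_addP, elim_lincomb_smulP, h v (by simp),
        ih cs (fun u hu => h u (by simp [hu]))]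
      ring

theorem length_pick_eq {α β γ : Type} (o : List (Option β)) (A : List α) (B : List γ)
    (h : A.length = B.length) : (pick o A).length = (pick o B).length := by
  induction o generalizing A B with
  | nil => simp [pick]
  | cons x o ih =>
    cases A with
    | nil =>
      cases B with
      | nil => simp [pick_nil]
      | cons b B => simp at h
    | cons a A =>
      cases B with
      | nil => simp at h
      | cons b B =>
        have h' : A.length = B.length := by simpa using h
        cases x with
        | none => rw [pick_none, pick_none, List.length_cons, List.length_cons, ih A B h']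
        | some y => rw [pick_some, pick_some, ih A B h']

theorem lincomb_pick {β : Type} (o : List (Option β)) (D : List K) (A : List (List K))
    (hD : D.length = A.length) (ho : o.length = A.length) (j : ℕ)
    (h : ∀ i b, o[i]? = some (some b) → vec D i = 0) :
    vec (lincomb D A) j = vec (lincomb (pick o D) (pick o A)) j := by
  induction o generalizing D A with
  | nil =>
    have hA : A = [] := by
      rw [← List.length_eq_zero_iff, ← ho]
      rfl
    subst hA
    simp [pick_nil, lincomb_nil', elim_vec_nil]
  | cons x o ih =>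
    cases A with
    | nil => simp at ho
    | cons a A =>
      cases D with
      | nil => simp at hD
      | cons d D =>
        have h1 : D.length = A.length := by simpa using hD
        have h2 : o.length = A.length := by simpa using ho
        have h3 := ih D A h1 h2 (fun i b hi => h (i + 1) b (by simpa using hi))
        cases x with
        | none =>
          rw [pick_none, pick_none, elim_lincomb_cons, elim_lincomb_cons, h3]
        | some y =>
          rw [pick_some, pick_some, elim_lincomb_cons, h3]
          have h4 : d = 0 := h 0 y (by simp)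
          rw [h4]
          ring

theorem vec_of_pick {β : Type} (o : List (Option β)) (D : List K)
    (hD : D.length = o.length) (h : ∀ i b, o[i]? = some (some b) → vec D i = 0)
    (h0 : ∀ x ∈ pick o D, x = 0) (i : ℕ) : vec D i = 0 := by
  induction o generalizing D i with
  | nil =>
    have hA : D = [] := by
      rw [← List.length_eq_zero_iff, hD]
      rfl
    rw [hA, elim_vec_nil]
  | cons x o ih =>
    cases D with
    | nil => simp at hD
    | cons d D =>
      have h1 : D.length = o.length := by simpa using hD
      cases x with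
      | none =>
        rw [pick_none] at h0
        cases i with
        | zero => exact h0 d (by simp)
        | succ i =>
          exact ih D h1 (fun i b hi => h (i + 1) b (by simpa using hi))
            (fun x hx => h0 x (by simp [hx])) i
      | some y =>
        rw [pick_some] at h0
        cases i with
        | zero => exact h 0 y (by simp)
        | succ i =>
          exact ih D h1 (fun i b hi => h (i + 1) b (by simpa using hi)) h0 i

/-- the coefficients of a kernel vector with respect to `kerOf` -/
def kerCoef (μ : List K) (o : List (Option (List K))) : List K :=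
  o.zipIdx.flatMap (fun z => ocase z.1 [] (fun _ => [vec μ z.2]))

theorem length_kerCoef (μ : List K) (o : List (Option (List K))) :
    (kerCoef μ o).length = (kerOf o).length := by
  have key : ∀ (L : List (Option (List K) × ℕ)), (L.flatMap
      (fun z => ocase z.1 [] (fun _ => [vec μ z.2]))).length = (L.flatMap
      (fun z => ocase z.1 [] (fun c => [spread (z.2 + 1) c o]))).length := by
    intro L
    induction L with
    | nil => simp
    | cons z L ih =>
      obtain ⟨x, i⟩ := z
      rw [List.flatMap_cons, List.length_append, List.flatMap_cons, List.length_append, ih]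
      cases x <;> simp only [ocase_none, ocase_some, List.length_nil, List.length_singleton]
  exact key _

theorem kerCoef_lincomb (μ : List K) (o : List (Option (List K))) (i : ℕ) (b : List K)
    (h : o[i]? = some (some b)) : vec (lincomb (kerCoef μ o) (kerOf o)) i = vec μ i := by
  classical
  have key : ∀ (L : List (Option (List K))) (s : ℕ),
      vec (lincomb ((L.zipIdx s).flatMap (fun z => ocase z.1 [] (fun _ => [vec μ z.2])))
        ((L.zipIdx s).flatMap (fun z => ocase z.1 [] (fun c => [spread (z.2 + 1) c o])))) i =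
      if s ≤ i ∧ (∃ c, L[i - s]? = some (some c)) then vec μ i else 0 := by
    intro L
    induction L with
    | nil => intro s; simp [lincomb_nil, elim_vec_nil]
    | cons x L ih =>
      intro s
      rw [List.zipIdx_cons, List.flatMap_cons, List.flatMap_cons]
      cases x with
      | none =>
        simp only [ocase_none, List.nil_append]
        rw [ih (s + 1)]
        by_cases hs : s + 1 ≤ i
        · have e : i - s = i - (s + 1) + 1 := by omega
          have e2 : s ≤ i := by omega
          simp only [e, List.getElem?_cons_succ, hs, e2, true_and]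
        · rw [if_neg (by tauto), if_neg]
          rintro ⟨h1, c, h2⟩
          have e : i - s = 0 := by omega
          rw [e] at h2
          simp at h2
      | some c =>
        simp only [ocase_some, List.singleton_append]
        rw [elim_lincomb_cons, ih (s + 1), vec_spread_some _ _ _ _ _ h]
        by_cases hs : s + 1 ≤ i
        · have e : i - s = i - (s + 1) + 1 := by omega
          have e2 : s ≤ i := by omega
          have e3 : ¬ (s + 1 = i + 1) := by omega
          simp only [e, List.getElem?_cons_succ, hs, e2, true_and, if_neg e3, mul_zero, zero_add]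
        · rw [if_neg (show ¬ (s + 1 ≤ i ∧ _) by tauto)]
          by_cases h1 : s = i
          · subst h1
            rw [if_pos rfl, if_pos ⟨le_rfl, c, by simp⟩]
            ring
          · rw [if_neg (by omega), if_neg (by omega)]
            ring
  have := key o 0
  rw [if_pos ⟨Nat.zero_le _, b, by simpa using h⟩] at this
  exact this

theorem leftKerN_span [DecidableEq K] {n : ℕ} {A : List (List K)} {μ : List K}
    (hμ : μ.length = A.length) (h : ∀ j < n, vec (lincomb μ A) j = 0) :
    ∃ c : List K, c.length = (leftKerN n A).length ∧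
      ∀ i, vec μ i = vec (lincomb c (leftKerN n A)) i := by
  refine ⟨kerCoef μ (elimN n A), length_kerCoef _ _, ?_⟩
  set o := elimN n A with ho
  have hol : o.length = A.length := length_elimN n A
  have hlen : (lincomb (kerCoef μ o) (kerOf o)).length ≤ A.length :=
    length_lincomb_le (fun v hv => by
      have := (leftKerN_mem (n := n) (A := A) (b := v) hv).1
      omega)
  set D := subP μ (lincomb (kerCoef μ o) (kerOf o)) with hD
  have hDl : D.length = A.length := by
    rw [hD, length_subP]
    omega
  have hDz : ∀ i b, o[i]? = some (some b) → vec D i = 0 := by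
    intro i b hi
    rw [hD, elim_vec_subP, kerCoef_lincomb μ o i b hi, sub_self]
  have hz : ∀ x ∈ pick o D, x = 0 := by
    refine elimN_indep n A _ (length_pick_eq _ _ _ hDl) (fun j hj => ?_)
    have e := lincomb_lincomb_zero (kerCoef μ o) (kerOf o) A j (fun v hv =>
        (leftKerN_mem (n := n) (A := A) (b := v) hv).2 j hj)
    rw [← lincomb_pick o D A hDl hol j hDz, hD, elim_lincomb_subP, h j hj, e, sub_self]
  intro i
  have h1 := vec_of_pick o D (by rw [hDl, hol]) hDz hz i
  rw [hD, elim_vec_subP, sub_eq_zero] at h1
  exact h1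

theorem spread_ex : ∃ c, ∀ (K : Type) [Field K] (β : Type) [Enc K β],
    Comp K (fun z : ℕ × List K × List (Option β) => spread z.1 z.2.1 z.2.2) c
      (fun z => z.2.2.length) :=
  ⟨_, fun K _ β _ => by
    have h1 : Comp K (fun z : (ℕ × List K × List (Option β)) × (Option β × List (Option β)) =>
        ocase z.2.1 (z.1.1 - 1, z.1.2.1.tail, z.2.2) (fun _ => (z.1.1 - 1, z.1.2.1, z.2.2))) _ _ :=
      Comp.ocase (o := fun z : (ℕ × List K × List (Option β)) ×
          (Option β × List (Option β)) => z.2.1)
        (f := fun z => (z.1.1 - 1, z.1.2.1.tail, z.2.2))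
        (g := fun z _ => (z.1.1 - 1, z.1.2.1, z.2.2))
    have h2 : Comp K (fun z : ℕ × List K × List (Option β) =>
        lcase z.2.2 z (fun x o => ocase x (z.1 - 1, z.2.1.tail, o)
          (fun _ => (z.1 - 1, z.2.1, o)))) _ _ :=
      Comp.lcase (l := fun z : ℕ × List K × List (Option β) => z.2.2) (f := fun z => z)
        (g := fun z x o => ocase x (z.1 - 1, z.2.1.tail, o) (fun _ => (z.1 - 1, z.2.1, o)))
        (hg := h1)
    have hmk : Comp K (fun m : ℕ => (mk1 m : K)) _ (fun _ => 0) :=
      (Comp.cond' (K := K) (b := fun m : ℕ => decide (m = 0)) (f := fun _ => (0 : K))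
        (g := fun m : ℕ => bif decide (m - 1 = 0) then (1 : K) else 0)
        inferInstance inferInstance inferInstance).mono (fun m => by
          cases decide (m = 0) <;> cases decide (m - 1 = 0) <;> simp)
    have h3 : Comp K (fun z : ((ℕ × List K × List (Option β)) × List K) ×
        (Option β × List (Option β)) =>
        ocase z.2.1 ((-(z.1.1.2.1.headD 0)) :: z.1.2) (fun _ => mk1 z.1.1.1 :: z.1.2)) _ _ :=
      Comp.ocase (o := fun z : ((ℕ × List K × List (Option β)) × List K) ×
          (Option β × List (Option β)) => z.2.1)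
        (f := fun z => (-(z.1.1.2.1.headD 0)) :: z.1.2)
        (g := fun z _ => mk1 z.1.1.1 :: z.1.2)
        (hg := Comp.cons (h := hmk.comp (f := fun z : (((ℕ × List K × List (Option β)) ×
          List K) × (Option β × List (Option β))) × β => z.1.1.1.1) inferInstance))
    have h4 : Comp K (fun z : (ℕ × List K × List (Option β)) × List K =>
        lcase z.1.2.2 z.2 (fun x _ => ocase x ((-(z.1.2.1.headD 0)) :: z.2)
          (fun _ => mk1 z.1.1 :: z.2))) _ _ :=
      Comp.lcase (l := fun z : (ℕ × List K × List (Option β)) × List K => z.1.2.2)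
        (f := fun z => z.2)
        (g := fun z x _ => ocase x ((-(z.1.2.1.headD 0)) :: z.2) (fun _ => mk1 z.1.1 :: z.2))
        (hg := h3)
    exact (Comp.rec1 (K := K)
      (isLeaf := fun z : ℕ × List K × List (Option β) => z.2.2.isEmpty)
      (leaf := fun _ => [])
      (next := fun z => lcase z.2.2 z (fun x o => ocase x (z.1 - 1, z.2.1.tail, o)
          (fun _ => (z.1 - 1, z.2.1, o))))
      (join := fun z r => lcase z.2.2 r (fun x _ => ocase x ((-(z.2.1.headD 0)) :: r)
          (fun _ => mk1 z.1 :: r)))
      (f := fun z : ℕ × List K × List (Option β) => spread z.1 z.2.1 z.2.2)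
      (T := fun z => 2 * z.2.2.length) (h2 := h2) (h3 := h4)
      (fun z => z.2.2.length)
      (by
        rintro ⟨m, c, o⟩ h
        cases o with
        | nil => rfl
        | cons x o => simp at h)
      (by
        rintro ⟨m, c, o⟩ h
        cases o with
        | nil => simp at h
        | cons x o => cases x <;> simp [spread])
      (by
        rintro ⟨m, c, o⟩ h
        cases o with
        | nil => simp at h
        | cons x o => cases x <;> simp)
      (by
        rintro ⟨m, c, o⟩ h
        cases o with
        | nil => simp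
        | cons x o => simp at h)
      (by
        rintro ⟨m, c, o⟩ h
        cases o with
        | nil => simp at h
        | cons x o => cases x <;> simp <;> omega)).bigO
          (T' := fun z => z.2.2.length) 2 (fun z => by omega)⟩

noncomputable def spreadCd : Cd := spread_ex.choose

theorem kerOf_ex : ∃ c, ∀ (K : Type) [Field K],
    Comp K (fun o : List (Option (List K)) => kerOf o) c
      (fun o => (o.length + 1) * (o.length + 1)) :=
  ⟨_, fun K _ => by
    have h1 : Comp K (fun z : (List (Option (List K)) × (Option (List K) × ℕ)) × List K =>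
        [spread (z.1.2.2 + 1) z.2 z.1.1]) _ _ :=
      Comp.cons (h := (spread_ex.choose_spec K (List K)).comp
        (f := fun z : (List (Option (List K)) × (Option (List K) × ℕ)) × List K =>
          (z.1.2.2 + 1, z.2, z.1.1)) inferInstance)
    have h2 : Comp K (fun z : List (Option (List K)) × (Option (List K) × ℕ) =>
        ocase z.2.1 [] (fun c => [spread (z.2.2 + 1) c z.1])) _ _ :=
      Comp.ocase (o := fun z : List (Option (List K)) × (Option (List K) × ℕ) => z.2.1)
        (f := fun _ => ([] : List (List K)))
        (g := fun z c => [spread (z.2.2 + 1) c z.1]) (hg := h1)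
    have h3 : Comp K (fun z : List (Option (List K)) × (Option (List K) × ℕ) =>
        ocase z.2.1 [] (fun c => [spread (z.2.2 + 1) c z.1])) _ (fun z => z.1.length) :=
      h2.mono (fun z => by
        obtain ⟨o, x, i⟩ := z
        cases x <;> simp)
    exact (Comp.flatMap (K := K) (l := fun o : List (Option (List K)) => o.zipIdx)
      (g := fun o z => ocase z.1 [] (fun c => [spread (z.2 + 1) c o]))
      (hg := h3)).bigO (T' := fun o => (o.length + 1) * (o.length + 1)) 2 (fun o => by
        have key : ∀ L : List (Option (List K) × ℕ), (L.map (fun b => o.length +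
            (ocase b.1 [] (fun c => [spread (b.2 + 1) c o])).length + 1)).sum ≤
            L.length * (o.length + 2) := by
          intro L
          induction L with
          | nil => simp
          | cons x L ih =>
            obtain ⟨x, i⟩ := x
            rw [List.map_cons, List.sum_cons, List.length_cons, Nat.add_mul, one_mul]
            cases x <;> simp only [ocase_none, ocase_some, List.length_nil,
              List.length_singleton] <;> omega
        have h4 := key o.zipIdx
        rw [List.length_zipIdx] at h4
        refine le_trans (Nat.add_le_add_right (Nat.add_le_add_left h4 _) _) ?_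
        simp only [zero_add]
        nlinarith [Nat.zero_le (o.length * o.length)])⟩

noncomputable def kerOfCd : Cd := kerOf_ex.choose

theorem length_pick_le {α β : Type} (o : List (Option β)) (A : List α) :
    (pick o A).length ≤ A.length := by
  rw [pick, List.length_map]
  refine (List.length_filter_le _ _).trans ?_
  rw [List.length_zip]
  exact min_le_right _ _

theorem leftKerN_ex : ∃ c, ∀ (K : Type) [Field K] [DecidableEq K],
    Comp K (fun z : ℕ × List (List K) => leftKerN z.1 z.2) c
      (fun z => (z.2.length + 1) ^ 2 * (z.1 + z.2.length + 1)) :=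
  ⟨_, fun K _ _ => (((kerOf_ex.choose_spec K).comp
    (f := fun z : ℕ × List (List K) => elimN z.1 z.2) inferInstance).congr
      (g := fun z : ℕ × List (List K) => leftKerN z.1 z.2) (fun z => rfl)).bigO
      (T' := fun z : ℕ × List (List K) => (z.2.length + 1) ^ 2 * (z.1 + z.2.length + 1)) 3
      (fun z => by
        have h1 := length_pick_le (elimN z.1 z.2) z.2
        have h2 := length_elimN z.1 z.2
        set R := (pick (elimN z.1 z.2) z.2).length
        set N := z.2.length
        have h3 : (N + 1) * (R + 1) * (z.1 + R + 1) ≤ (N + 1) ^ 2 * (z.1 + N + 1) := by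
          rw [pow_two]
          exact Nat.mul_le_mul (Nat.mul_le_mul_left _ (by omega)) (by omega)
        have h4 : (N + 1) * (N + 1) ≤ (N + 1) ^ 2 * (z.1 + N + 1) := by
          rw [pow_two]
          exact Nat.le_mul_of_pos_right _ (by omega)
        simp only [zero_add, h2]
        omega)⟩

noncomputable def leftKerNCd : Cd := leftKerN_ex.choose

instance compLeftKerN [DecidableEq K] {α : Type} [Enc K α] {f : α → ℕ} {g : α → List (List K)}
    {c d : Cd} {T T' : α → ℕ} [h : Comp K f c T] [h' : Comp K g d T'] :
    Comp K (fun x => leftKerN (f x) (g x)) (leftKerNCd.comp (c.pair d))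
      (fun x => T x + T' x + ((g x).length + 1) ^ 2 * (f x + (g x).length + 1)) :=
  (leftKerN_ex.choose_spec K).app2 h h'

end Pool.Agent.BiFac

end

section

/-!
# Fast multiplication (Toom-Cook with `S` blocks)
-/

set_option autoImplicit false

namespace Pool.Agent.BiFac

open Polynomial Pool.Agent.TreeRAM

variable {K : Type} [Field K]

/-! ### Cutting into blocks and gluing -/

/-- cut `a` into `S` blocks of length `w` (padded with zeros) -/
def fmSplit (w : ℕ) : ℕ → List K → List (List K)
  | 0, _ => []
  | S + 1, a => padTo w a :: fmSplit w S (a.drop w)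

/-- the sum of the `X ^ (w j) * c_j` -/
def fmRecomb (w : ℕ) : List (List K) → List K
  | [] => []
  | c :: l => addP c (List.replicate w 0 ++ fmRecomb w l)

theorem length_fmSplit (w S : ℕ) (a : List K) : (fmSplit w S a).length = S := by
  induction S generalizing a with
  | zero => rfl
  | succ S ih => rw [fmSplit, List.length_cons, ih]

theorem rows_fmSplit (w S : ℕ) (a : List K) : ∀ r ∈ fmSplit w S a, r.length = w := by
  induction S generalizing a with
  | zero => intro r hr; simp [fmSplit] at hr
  | succ S ih =>
    intro r hr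
    rw [fmSplit, List.mem_cons] at hr
    rcases hr with rfl | hr
    · exact length_padTo w a
    · exact ih _ r hr

/-- cutting does not change a polynomial of small degree -/
theorem fm_toP_take_of_degree_lt {l : List K} {n : ℕ} (h : (toP l).degree < n) :
    toP (l.take n) = toP l := by
  ext i
  rw [coeff_toP, coeff_toP]
  by_cases hi : i < n
  · simp only [List.getD_eq_getElem?_getD, List.getElem?_take, hi, if_true]
  · have h1 : (toP l).coeff i = 0 :=
      coeff_eq_zero_of_degree_lt (lt_of_lt_of_le h (by exact_mod_cast not_lt.1 hi))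
    rw [coeff_toP] at h1
    rw [h1]
    simp only [List.getD_eq_getElem?_getD, List.getElem?_take, hi, if_false, Option.getD_none]

theorem fm_toP_take_append_drop (w : ℕ) (a : List K) :
    toP (a.take w) + X ^ w * toP (a.drop w) = toP a := by
  conv_rhs => rw [← List.take_append_drop w a, toP_append]
  by_cases h : w ≤ a.length
  · rw [List.length_take, min_eq_left h]
  · have : a.drop w = [] := List.drop_eq_nil_of_le (by omega)
    rw [this, toP_nil, mul_zero, mul_zero]

theorem fm_toP_padTo_eq_take (w : ℕ) (a : List K) : toP (padTo w a) = toP (a.take w) := by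
  have h : padTo w a = padTo w (a.take w) := by
    unfold padTo
    rw [List.take_append, List.take_append, List.length_take, List.take_take, min_self]
    congr 1
    rcases le_total a.length w with h | h
    · rw [min_eq_right h]
    · rw [min_eq_left h, Nat.sub_self, Nat.sub_eq_zero_of_le h]
  rw [h, toP_padTo (by rw [List.length_take]; exact min_le_left _ _)]

theorem toP_fmRecomb_split {w S : ℕ} {a : List K} (h : a.length ≤ S * w) :
    toP (fmRecomb w (fmSplit w S a)) = toP a := by
  induction S generalizing a with
  | zero =>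
    have : a = [] := List.eq_nil_of_length_eq_zero (by omega)
    rw [this]; rfl
  | succ S ih =>
    rw [fmSplit, fmRecomb, toP_addP, toP_append, toP_replicate_zero, zero_add,
      List.length_replicate, ih (by rw [List.length_drop, Nat.sub_le_iff_le_add]; nlinarith),
      fm_toP_padTo_eq_take, fm_toP_take_append_drop]

theorem fm_exists_eq_ofFn {α : Type} {n : ℕ} {l : List α} (h : l.length = n) :
    ∃ f : Fin n → α, l = List.ofFn f := by
  subst h
  exact ⟨fun i => l[i], by simp⟩

/-- the value of `fmRecomb` -/
theorem toP_fmRecomb_ofFn (w : ℕ) : ∀ {n : ℕ} (f : Fin n → List K),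
    toP (fmRecomb w (List.ofFn f)) = ∑ j : Fin n, X ^ (w * (j : ℕ)) * toP (f j) := by
  intro n
  induction n with
  | zero => intro f; rfl
  | succ n ih =>
    intro f
    rw [List.ofFn_succ, fmRecomb, toP_addP, toP_append, toP_replicate_zero, zero_add,
      List.length_replicate, ih, Fin.sum_univ_succ, Finset.mul_sum]
    congr 1
    · simp
    · refine Finset.sum_congr rfl fun j _ => ?_
      rw [← mul_assoc, ← pow_add]
      congr 2
      rw [Fin.val_succ]
      ring

theorem fm_toP_lincomb_ofFn {n : ℕ} (c : Fin n → K) (f : Fin n → List K) :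
    toP (lincomb (List.ofFn c) (List.ofFn f)) = ∑ i, C (c i) * toP (f i) := by
  rw [toP_lincomb]
  have : List.zipWith (fun (c : K) v => C c * toP v) (List.ofFn c) (List.ofFn f) =
      List.ofFn (fun i => C (c i) * toP (f i)) := by
    apply List.ext_getElem
    · simp
    · intro i h1 h2
      simp
  rw [this, List.sum_ofFn]

theorem length_fmRecomb_le {w : ℕ} {l : List (List K)} {m : ℕ} (h : ∀ c ∈ l, c.length ≤ m) :
    (fmRecomb w l).length ≤ l.length * w + m := by
  induction l with
  | nil => simp [fmRecomb]
  | cons c l ih =>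
    rw [fmRecomb, length_addP, List.length_append, List.length_replicate, List.length_cons]
    have h1 := ih (fun c hc => h c (List.mem_cons_of_mem _ hc))
    have h2 := h c (List.mem_cons_self ..)
    rw [add_mul]
    omega

/-! ### The algorithm -/

/-- the block length for lists of length up to `m` -/
def fmBlk (S m : ℕ) : ℕ := (m + (S - 1)) / S

theorem le_mul_fmBlk {S : ℕ} (hS : 0 < S) (m : ℕ) : m ≤ S * fmBlk S m := by
  unfold fmBlk
  have h1 := Nat.div_add_mod (m + (S - 1)) S
  have h2 := Nat.mod_lt (m + (S - 1)) hS
  omega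

theorem mul_fmBlk_le (S m : ℕ) : S * fmBlk S m ≤ m + (S - 1) := Nat.mul_div_le _ _

theorem fmBlk_le {S m u : ℕ} (hS : 0 < S) (h : m ≤ S * u) : fmBlk S m ≤ u := by
  unfold fmBlk
  rw [Nat.div_le_iff_le_mul_add_pred hS]
  omega

/-- the number of points -/
def fmDbl (S : ℕ) : ℕ := 2 * S - 1

/-- First stage: block length and blocks. -/
def fmSt1 (z : MEnv K × List K × List K) : MEnv K × (ℕ × ℕ) × List (List K) × List (List K) :=
  (z.1, (z.2.1.length + z.2.2.length, fmBlk z.1.1 (max z.2.1.length z.2.2.length)),
    fmSplit (fmBlk z.1.1 (max z.2.1.length z.2.2.length)) z.1.1 z.2.1,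
    fmSplit (fmBlk z.1.1 (max z.2.1.length z.2.2.length)) z.1.1 z.2.2)

/-- Second stage: products of the values at the points, with a given multiplication. -/
def fmSt2 (mul : MEnv K → List K → List K → List K)
    (z : MEnv K × (ℕ × ℕ) × List (List K) × List (List K)) :
    MEnv K × (ℕ × ℕ) × List (List K) :=
  (z.1, z.2.1, (z.1.2.1.take (fmDbl z.1.1)).map
    (fun v => mul z.1 (lincomb v z.2.2.1) (lincomb v z.2.2.2)))

/-- Third stage: interpolation. -/
def fmSt3 (z : MEnv K × (ℕ × ℕ) × List (List K)) : (ℕ × ℕ) × List (List K) :=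
  (z.2.1, (z.1.2.2.take (fmDbl z.1.1)).map (fun r => lincomb r z.2.2))

/-- Fourth stage: gluing. -/
def fmSt4 (z : (ℕ × ℕ) × List (List K)) : List K := (fmRecomb z.1.2 z.2).take z.1.1

/-- Multiplication with fuel. -/
def fmulAux : ℕ → MEnv K → List K → List K → List K
  | 0, E, a, b => mulN (a.take E.1) (b.take E.1)
  | j + 1, E, a, b => if a.length ≤ E.1 ∧ b.length ≤ E.1 then mulN a b else
      fmSt4 (fmSt3 (fmSt2 (fmulAux j) (fmSt1 (E, a, b))))

theorem length_fmulAux (j : ℕ) (E : MEnv K) (a b : List K) :
    (fmulAux j E a b).length ≤ a.length + b.length := by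
  cases j with
  | zero =>
    rw [fmulAux]
    refine (length_mulN _ _).trans ?_
    rw [List.length_take, List.length_take]
    omega
  | succ j =>
    rw [fmulAux]
    split_ifs
    · exact length_mulN _ _
    · show ((fmRecomb _ _).take (a.length + b.length)).length ≤ _
      rw [List.length_take]
      exact min_le_left _ _

theorem toP_fmulAux {E : MEnv K} (hE : E.Good) (j : ℕ) {a b : List K}
    (ha : a.length ≤ E.1 ^ (j + 1)) (hb : b.length ≤ E.1 ^ (j + 1)) :
    toP (fmulAux j E a b) = toP a * toP b := by
  obtain ⟨h2, pts, W, hV, hW, hI⟩ := hE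
  obtain ⟨S, V', W'⟩ := E
  simp only at h2 pts W hV hW hI ha hb ⊢
  generalize hM : 2 * S - 1 = M at pts W hV hW hI
  induction j generalizing a b with
  | zero =>
    rw [fmulAux, toP_mulN, List.take_of_length_le (by simpa using ha),
      List.take_of_length_le (by simpa using hb)]
  | succ j ih =>
    rw [fmulAux]
    split_ifs with hs
    · exact toP_mulN a b
    · have hS : 0 < S := by omega
      set m := max a.length b.length with hm
      set w := fmBlk S m with hw
      have hmw : m ≤ S * w := le_mul_fmBlk hS m
      have hwu : w ≤ S ^ (j + 1) := fmBlk_le hS (by rw [← pow_succ']; exact max_le ha hb)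
      -- the blocks
      obtain ⟨A, hA⟩ := fm_exists_eq_ofFn (length_fmSplit w S a)
      obtain ⟨B, hB⟩ := fm_exists_eq_ofFn (length_fmSplit w S b)
      have hta : toP a = ∑ k : Fin S, X ^ (w * (k : ℕ)) * toP (A k) := by
        rw [← toP_fmRecomb_ofFn, ← hA, toP_fmRecomb_split ((le_max_left _ _).trans hmw)]
      have htb : toP b = ∑ k : Fin S, X ^ (w * (k : ℕ)) * toP (B k) := by
        rw [← toP_fmRecomb_ofFn, ← hB, toP_fmRecomb_split ((le_max_right _ _).trans hmw)]
      have hrowA : ∀ v : List K, (lincomb v (fmSplit w S a)).length ≤ S ^ (j + 1) := fun v =>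
        (length_lincomb_le (fun r hr => (rows_fmSplit w S a r hr).le)).trans hwu
      have hrowB : ∀ v : List K, (lincomb v (fmSplit w S b)).length ≤ S ^ (j + 1) := fun v =>
        (length_lincomb_le (fun r hr => (rows_fmSplit w S b r hr).le)).trans hwu
      -- the stages
      have e2 : (V'.take M).map (fun v => fmulAux j (S, V', W') (lincomb v (fmSplit w S a))
          (lincomb v (fmSplit w S b))) = List.ofFn (fun i : Fin M =>
            fmulAux j (S, V', W') (lincomb (List.ofFn (fun k : Fin S => pts i ^ (k : ℕ)))
              (fmSplit w S a)) (lincomb (List.ofFn (fun k : Fin S => pts i ^ (k : ℕ)))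
              (fmSplit w S b))) := by
        rw [hV, List.take_of_length_le (by rw [List.length_ofFn]), List.map_ofFn]
        rfl
      set P : Fin M → List K := fun i : Fin M =>
            fmulAux j (S, V', W') (lincomb (List.ofFn (fun k : Fin S => pts i ^ (k : ℕ)))
              (fmSplit w S a)) (lincomb (List.ofFn (fun k : Fin S => pts i ^ (k : ℕ)))
              (fmSplit w S b)) with hP
      have hPv : ∀ i, toP (P i) = (∑ k : Fin S, C (pts i ^ (k : ℕ)) * toP (A k)) *
          (∑ k : Fin S, C (pts i ^ (k : ℕ)) * toP (B k)) := by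
        intro i
        rw [hP]
        simp only
        rw [ih (hrowA _) (hrowB _), hA, hB, fm_toP_lincomb_ofFn, fm_toP_lincomb_ofFn]
      have e3 : (W'.take M).map (fun r => lincomb r (List.ofFn P)) =
          List.ofFn (fun l : Fin M => lincomb (List.ofFn (fun i => W l i)) (List.ofFn P)) := by
        rw [hW, List.take_of_length_le (by rw [List.length_ofFn]), List.map_ofFn]
        rfl
      have key : toP (fmRecomb w (List.ofFn (fun l : Fin M =>
          lincomb (List.ofFn (fun i => W l i)) (List.ofFn P)))) = toP a * toP b := by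
        rw [toP_fmRecomb_ofFn]
        have h1 : ∀ l : Fin M, toP (lincomb (List.ofFn (fun i => W l i)) (List.ofFn P)) =
            ∑ k : Fin S, ∑ k' : Fin S, (if (k : ℕ) + (k' : ℕ) = (l : ℕ) then
              toP (A k) * toP (B k') else 0) := by
          intro l
          rw [fm_toP_lincomb_ofFn]
          have h2 : ∀ i : Fin M, C (W l i) * toP (P i) = ∑ k : Fin S, ∑ k' : Fin S,
              C (W l i * pts i ^ ((k : ℕ) + (k' : ℕ))) * (toP (A k) * toP (B k')) := by
            intro i
            rw [hPv, Finset.sum_mul_sum, Finset.mul_sum]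
            refine Finset.sum_congr rfl fun k _ => ?_
            rw [Finset.mul_sum]
            refine Finset.sum_congr rfl fun k' _ => ?_
            rw [C_mul, pow_add, C_mul]
            ring
          rw [Finset.sum_congr rfl (fun i _ => h2 i), Finset.sum_comm]
          refine Finset.sum_congr rfl fun k _ => ?_
          rw [Finset.sum_comm]
          refine Finset.sum_congr rfl fun k' _ => ?_
          rw [← Finset.sum_mul, ← map_sum]
          have h3 := hI l ⟨(k : ℕ) + (k' : ℕ), by have := k.2; have := k'.2; omega⟩
          simp only at h3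
          rw [h3]
          by_cases h4 : (k : ℕ) + (k' : ℕ) = (l : ℕ)
          · rw [if_pos (Fin.ext h4), if_pos h4, C_1, one_mul]
          · rw [if_neg (fun h5 => h4 (congrArg Fin.val h5)), if_neg h4, C_0, zero_mul]
        rw [Finset.sum_congr rfl (fun l _ => by rw [h1 l, Finset.mul_sum])]
        rw [Finset.sum_comm, hta, htb, Finset.sum_mul_sum]
        refine Finset.sum_congr rfl fun k _ => ?_
        rw [Finset.sum_congr rfl (fun l _ => Finset.mul_sum _ _ _), Finset.sum_comm]
        refine Finset.sum_congr rfl fun k' _ => ?_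
        rw [Finset.sum_eq_single (⟨(k : ℕ) + (k' : ℕ), by
          have := k.2; have := k'.2; omega⟩ : Fin M)]
        · rw [if_pos rfl]
          simp only
          rw [mul_add w, pow_add]
          ring
        · intro l _ hl
          rw [if_neg (fun h5 => hl (Fin.ext h5.symm)), mul_zero]
        · intro h
          exact absurd (Finset.mem_univ _) h
      show toP ((fmRecomb w ((W'.take (2 * S - 1)).map (fun r => lincomb r
        ((V'.take (2 * S - 1)).map (fun v => fmulAux j (S, V', W') (lincomb v (fmSplit w S a))
          (lincomb v (fmSplit w S b))))))).take (a.length + b.length)) = _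
      rw [hM, e2, e3, fm_toP_take_of_degree_lt, key]
      rw [key]
      have hda := degree_toP_lt a
      have hdb := degree_toP_lt b
      have hpos : 0 < a.length + b.length := by
        by_contra h
        have h1 : a.length = 0 := by omega
        have h2 : b.length = 0 := by omega
        exact hs ⟨by omega, by omega⟩
      by_cases h0 : toP a * toP b = 0
      · rw [h0, degree_zero]
        exact WithBot.bot_lt_coe _
      · have ha0 : toP a ≠ 0 := left_ne_zero_of_mul h0
        have hb0 : toP b ≠ 0 := right_ne_zero_of_mul h0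
        rw [degree_mul, degree_eq_natDegree ha0, degree_eq_natDegree hb0] at *
        have h1 : (toP a).natDegree < a.length := by exact_mod_cast hda
        have h2 : (toP b).natDegree < b.length := by exact_mod_cast hdb
        exact_mod_cast (by omega : (toP a).natDegree + (toP b).natDegree < a.length + b.length)

/-- **Fast multiplication.** -/
def fmul (E : MEnv K) (a b : List K) : List K := fmulAux JJ E a b

theorem toP_fmul {E : MEnv K} (hE : E.Good) {a b : List K} (ha : a.length ≤ E.cap)
    (hb : b.length ≤ E.cap) : toP (fmul E a b) = toP a * toP b := by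
  have h : E.cap ≤ E.1 ^ (JJ + 1) := by
    unfold MEnv.cap
    have := hE.two_le
    exact Nat.pow_le_pow_right (by omega) (by omega)
  exact toP_fmulAux hE JJ (ha.trans h) (hb.trans h)

theorem length_fmul (E : MEnv K) (a b : List K) : (fmul E a b).length ≤ a.length + b.length :=
  length_fmulAux JJ E a b

/-! ### Costs -/

theorem fmSplit_ex : ∃ c, ∀ (K : Type) [Field K],
    Comp K (fun z : ℕ × ℕ × List K => fmSplit z.1 z.2.1 z.2.2) c (fun z => z.2.1 * (z.1 + 1)) :=
  ⟨_, fun K _ => (Comp.rec1 (K := K) (isLeaf := fun z : ℕ × ℕ × List K => decide (z.2.1 = 0))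
    (leaf := fun _ => []) (next := fun z => (z.1, z.2.1 - 1, z.2.2.drop z.1))
    (join := fun z r => padTo z.1 z.2.2 :: r) (T := fun z => 2 * (z.2.1 * (z.1 + 1)))
    (fun z => z.2.1)
    (by rintro ⟨w, S, a⟩ h; cases S <;> simp_all [fmSplit])
    (by rintro ⟨w, S, a⟩ h; cases S <;> simp_all [fmSplit])
    (by rintro ⟨w, S, a⟩ h; cases S <;> simp_all)
    (by rintro ⟨w, S, a⟩ h; cases S <;> simp_all)
    (by
      rintro ⟨w, S, a⟩ h
      cases S with
      | zero => simp_all
      | succ S =>
        simp only [Nat.add_sub_cancel]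
        nlinarith)).bigO 2 (fun z => by omega)⟩

noncomputable def fmSplitCd : Cd := fmSplit_ex.choose

instance compFmSplit {α : Type} [Enc K α] {w S : α → ℕ} {a : α → List K} {c c' c'' : Cd}
    {T T' T'' : α → ℕ} [h : Comp K w c T] [h' : Comp K S c' T'] [h'' : Comp K a c'' T''] :
    Comp K (fun x => fmSplit (w x) (S x) (a x)) (fmSplitCd.comp (c.pair (c'.pair c'')))
      (fun x => T x + (T' x + T'' x) + S x * (w x + 1)) :=
  (fmSplit_ex.choose_spec K).app2 h Comp.pair

theorem fmRecomb_ex : ∃ c, ∀ (K : Type) [Field K],
    Comp K (fun z : ℕ × List (List K) => fmRecomb z.1 z.2) c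
      (fun z => (z.2.map (fun r => r.length + z.1 + 1)).sum) :=
  ⟨_, fun K _ => (Comp.rec1 (K := K) (isLeaf := fun z : ℕ × List (List K) => z.2.isEmpty)
    (leaf := fun _ => []) (next := fun z => (z.1, z.2.tail))
    (join := fun z r => lcase z.2 r (fun c _ => addP c (List.replicate z.1 0 ++ r)))
    (T := fun z => (z.2.map (fun r => r.length + 2 * z.1 + 2)).sum)
    (fun z => z.2.length)
    (by rintro ⟨w, l⟩ h; cases l <;> simp_all [fmRecomb])
    (by rintro ⟨w, l⟩ h; cases l <;> simp_all [fmRecomb])
    (by rintro ⟨w, l⟩ h; cases l <;> simp_all)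
    (by rintro ⟨w, l⟩ h; cases l <;> simp_all)
    (by
      rintro ⟨w, l⟩ h
      cases l with
      | nil => simp_all
      | cons r l =>
        simp only [lcase_cons, List.tail_cons, List.map_cons, List.sum_cons,
          List.length_replicate]
        have := min_le_left r.length (List.replicate w 0 ++ fmRecomb w l).length
        omega)).bigO 2 (fun z => by
        obtain ⟨w, l⟩ := z
        induction l with
        | nil => simp
        | cons b l ih =>
          simp only [List.map_cons, List.sum_cons] at ih ⊢
          omega)⟩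

noncomputable def fmRecombCd : Cd := fmRecomb_ex.choose

instance compFmRecomb {α : Type} [Enc K α] {w : α → ℕ} {l : α → List (List K)} {c c' : Cd}
    {T T' : α → ℕ} [h : Comp K w c T] [h' : Comp K l c' T'] :
    Comp K (fun x => fmRecomb (w x) (l x)) (fmRecombCd.comp (c.pair c'))
      (fun x => T x + T' x + ((l x).map (fun r => r.length + w x + 1)).sum) :=
  (fmRecomb_ex.choose_spec K).app2 h h'

theorem fmBlk_ex : ∃ c, ∀ (K : Type) [Field K],
    Comp K (fun z : ℕ × ℕ => fmBlk z.1 z.2) c (fun z => z.1 + z.2) :=
  ⟨_, fun K _ => (inferInstance : Comp K (fun z : ℕ × ℕ => (z.2 + (z.1 - 1)) / z.1) _ _).bigO 5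
    (fun z => by omega)⟩

noncomputable def fmBlkCd : Cd := fmBlk_ex.choose

instance compFmBlk {α : Type} [Enc K α] {S m : α → ℕ} {c c' : Cd}
    {T T' : α → ℕ} [h : Comp K S c T] [h' : Comp K m c' T'] :
    Comp K (fun x => fmBlk (S x) (m x)) (fmBlkCd.comp (c.pair c'))
      (fun x => T x + T' x + (S x + m x)) :=
  (fmBlk_ex.choose_spec K).app2 h h'

theorem fmBlkz_ex : ∃ c, ∀ (K : Type) [Field K],
    Comp K (fun z : MEnv K × List K × List K =>
      fmBlk z.1.1 (max z.2.1.length z.2.2.length)) c
      (fun z => z.2.1.length + z.2.2.length + z.1.1) :=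
  ⟨_, fun K _ => (inferInstance : Comp K (fun z : MEnv K × List K × List K =>
    fmBlk z.1.1 (max z.2.1.length z.2.2.length)) _ _).bigO 5
    (fun z => by
      obtain ⟨⟨S, V, W⟩, a, b⟩ := z
      simp only
      split_ifs <;> omega)⟩

theorem fmSt1a_ex : ∃ c, ∀ (K : Type) [Field K],
    Comp K (fun z : ℕ × MEnv K × List K × List K =>
    (z.2.1, (z.2.2.1.length + z.2.2.2.length, z.1),
    fmSplit z.1 z.2.1.1 z.2.2.1, fmSplit z.1 z.2.1.1 z.2.2.2)) c
      (fun z => z.2.2.1.length + z.2.2.2.length + z.2.1.1 * (z.1 + 1)) :=
  ⟨_, fun K _ => (Comp.pair (K := K) (f := fun z : ℕ × MEnv K × List K × List K => z.2.1)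
    (h' := Comp.pair (f := fun z : ℕ × MEnv K × List K × List K =>
      (z.2.2.1.length + z.2.2.2.length, z.1))
      (h' := Comp.pair (f := fun z : ℕ × MEnv K × List K × List K => fmSplit z.1 z.2.1.1 z.2.2.1)
        (g := fun z : ℕ × MEnv K × List K × List K => fmSplit z.1 z.2.1.1 z.2.2.2)))).bigO 5
    (fun z => by
      obtain ⟨w, ⟨S, V, W⟩, a, b⟩ := z
      simp only
      omega)⟩

theorem fmSt1_ex : ∃ c, ∀ (K : Type) [Field K],
    Comp K (fun z : MEnv K × List K × List K => fmSt1 z) c
      (fun z => z.2.1.length + z.2.2.length + z.1.1 +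
        z.1.1 * (fmBlk z.1.1 (max z.2.1.length z.2.2.length) + 1)) := by
  obtain ⟨c1, h1⟩ := fmBlkz_ex
  obtain ⟨c2, h2⟩ := fmSt1a_ex
  exact ⟨_, fun K _ => ((h2 K).comp (Comp.pair (h := h1 K) (h' := Comp.id))).bigO 5
    (fun z => by simp only; omega)⟩

theorem fm_sum_map_le_mul {α : Type} (l : List α) (f : α → ℕ) (B : ℕ) (h : ∀ x ∈ l, f x ≤ B) :
    (l.map f).sum ≤ l.length * B := by
  induction l with
  | nil => simp
  | cons a l ih =>
    rw [List.map_cons, List.sum_cons, List.length_cons]
    have h1 := h a (List.mem_cons_self ..)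
    have h2 := ih (fun x hx => h x (List.mem_cons_of_mem _ hx))
    nlinarith

/-- the cost of a linear combination -/
def fmLcC (cs : List K) (vs : List (List K)) : ℕ := ((cs.zip vs).map (fun p => p.2.length + 1)).sum

omit [Field K] in
theorem fmLcC_le {cs : List K} {vs : List (List K)} {w : ℕ} (h : ∀ v ∈ vs, v.length ≤ w) :
    fmLcC cs vs ≤ vs.length * (w + 1) := by
  refine (fm_sum_map_le_mul _ _ (w + 1) (fun p hp => ?_)).trans
    (Nat.mul_le_mul_right _ (by rw [List.length_zip]; exact min_le_right _ _))
  have := h p.2 (List.of_mem_zip hp).2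
  omega

theorem fmDbl_ex : ∃ c, ∀ (K : Type) [Field K], Comp K (fun n : ℕ => fmDbl n) c (fun n => n) :=
  ⟨_, fun K _ => (inferInstance : Comp K (fun n : ℕ => n + n - 1) _ _).congr
    (fun n => by unfold fmDbl; omega) |>.mono (fun n => by simp)⟩

noncomputable def fmDblCd : Cd := fmDbl_ex.choose

instance compFmDbl {α : Type} [Enc K α] {S : α → ℕ} {c : Cd} {T : α → ℕ} [h : Comp K S c T] :
    Comp K (fun x => fmDbl (S x)) (fmDblCd.comp c) (fun x => T x + S x) :=
  (fmDbl_ex.choose_spec K).app1 h

/-- the cost of the second stage -/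
def fmSt2C (z : MEnv K × (ℕ × ℕ) × List (List K) × List (List K)) : ℕ :=
  z.1.1 + ((z.1.2.1.take (fmDbl z.1.1)).map (fun v =>
    fmLcC v z.2.2.1 + fmLcC v z.2.2.2 +
      ((lincomb v z.2.2.1).length + (lincomb v z.2.2.2).length + 1) * (z.1.1 + 1) + 1)).sum

theorem fmSt2_ex {j : ℕ} {c : Cd} (hc : ∀ (K : Type) [Field K],
    Comp K (fun z : MEnv K × List K × List K => fmulAux j z.1 z.2.1 z.2.2) c
      (fun z => (z.2.1.length + z.2.2.length + 1) * (z.1.1 + 1))) :
    ∃ c, ∀ (K : Type) [Field K],
      Comp K (fun z : MEnv K × (ℕ × ℕ) × List (List K) × List (List K) => fmSt2 (fmulAux j) z) c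
        fmSt2C := by
  have hg : ∃ c, ∀ (K : Type) [Field K],
      Comp K (fun z : (MEnv K × (ℕ × ℕ) × List (List K) × List (List K)) × List K =>
        fmulAux j z.1.1 (lincomb z.2 z.1.2.2.1) (lincomb z.2 z.1.2.2.2)) c
        (fun z => fmLcC z.2 z.1.2.2.1 + fmLcC z.2 z.1.2.2.2 +
          ((lincomb z.2 z.1.2.2.1).length + (lincomb z.2 z.1.2.2.2).length + 1) *
            (z.1.1.1 + 1)) := by
    exact ⟨_, fun K _ => ((hc K).comp (Comp.pair (K := K)
      (f := fun z : (MEnv K × (ℕ × ℕ) × List (List K) × List (List K)) × List K => z.1.1)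
      (h' := Comp.pair
        (f := fun z : (MEnv K × (ℕ × ℕ) × List (List K) × List (List K)) × List K =>
          lincomb z.2 z.1.2.2.1)
        (g := fun z : (MEnv K × (ℕ × ℕ) × List (List K) × List (List K)) × List K =>
          lincomb z.2 z.1.2.2.2)))).mono (fun z => by
            simp only [fmLcC]
            omega)⟩
  obtain ⟨cg, hg⟩ := hg
  exact ⟨_, fun K _ => (Comp.pair (K := K)
    (f := fun z : MEnv K × (ℕ × ℕ) × List (List K) × List (List K) => z.1)
    (h' := Comp.pair (f := fun z : MEnv K × (ℕ × ℕ) × List (List K) × List (List K) => z.2.1)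
      (h' := Comp.map (l := fun z : MEnv K × (ℕ × ℕ) × List (List K) × List (List K) =>
        z.1.2.1.take (fmDbl z.1.1)) (g := fun z v => fmulAux j z.1 (lincomb v z.2.2.1)
          (lincomb v z.2.2.2)) (hg := hg K)))).bigO 10 (fun z => by
            obtain ⟨⟨S, V, W⟩, n, A, B⟩ := z
            simp only [fmSt2C]
            have : fmDbl S ≤ 2 * S := Nat.sub_le _ _
            omega)⟩

/-- the cost of the third stage -/
def fmSt3C (z : MEnv K × (ℕ × ℕ) × List (List K)) : ℕ :=
  z.1.1 + ((z.1.2.2.take (fmDbl z.1.1)).map (fun r => fmLcC r z.2.2 + 1)).sum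

theorem fmSt3_ex : ∃ c, ∀ (K : Type) [Field K],
    Comp K (fun z : MEnv K × (ℕ × ℕ) × List (List K) => fmSt3 z) c fmSt3C := by
  have hg : ∃ c, ∀ (K : Type) [Field K],
      Comp K (fun z : (MEnv K × (ℕ × ℕ) × List (List K)) × List K => lincomb z.2 z.1.2.2) c
        (fun z => fmLcC z.2 z.1.2.2) := by
    exact ⟨_, fun K _ => (compLincomb (K := K)
      (f := fun z : (MEnv K × (ℕ × ℕ) × List (List K)) × List K => z.2)
      (g := fun z : (MEnv K × (ℕ × ℕ) × List (List K)) × List K => z.1.2.2)).mono (fun z => by
            simp only [fmLcC]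
            omega)⟩
  obtain ⟨cg, hg⟩ := hg
  exact ⟨_, fun K _ => (Comp.pair (K := K)
    (f := fun z : MEnv K × (ℕ × ℕ) × List (List K) => z.2.1)
      (h' := Comp.map (l := fun z : MEnv K × (ℕ × ℕ) × List (List K) =>
        z.1.2.2.take (fmDbl z.1.1)) (g := fun z r => lincomb r z.2.2) (hg := hg K))).bigO 10
          (fun z => by
            obtain ⟨⟨S, V, W⟩, n, A⟩ := z
            simp only [fmSt3C]
            have : fmDbl S ≤ 2 * S := Nat.sub_le _ _
            omega)⟩

theorem fmSt4_ex : ∃ c, ∀ (K : Type) [Field K],
    Comp K (fun z : (ℕ × ℕ) × List (List K) => fmSt4 z) c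
      (fun z => z.1.1 + (z.2.map (fun r => r.length + z.1.2 + 1)).sum) :=
  ⟨_, fun K _ => (inferInstance : Comp K (fun z : (ℕ × ℕ) × List (List K) =>
    (fmRecomb z.1.2 z.2).take z.1.1) _ _).bigO 5 (fun z => by
      obtain ⟨⟨n, w⟩, L⟩ := z
      simp only
      omega)⟩

/-- bound for the second stage -/
theorem fmSt2C_le {E : MEnv K} {n w : ℕ} {A B : List (List K)} (hA : A.length = E.1)
    (hB : B.length = E.1) (hA' : ∀ r ∈ A, r.length ≤ w) (hB' : ∀ r ∈ B, r.length ≤ w)
    (h1 : E.1 * w ≤ 2 * n) (h2 : w ≤ 2 * n) (h3 : E.1 ≤ n) :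
    fmSt2C (E, (n, w), A, B) ≤ 40 * ((n + 1) * (E.1 + 1)) := by
  obtain ⟨S, V, W⟩ := E
  simp only at hA hB h1 h3 ⊢
  have hb : ∀ v ∈ V.take (fmDbl S), fmLcC v A + fmLcC v B +
      ((lincomb v A).length + (lincomb v B).length + 1) * (S + 1) + 1 ≤ 16 * (n + 1) := by
    intro v _
    have e1 : fmLcC v A ≤ S * (w + 1) := by rw [← hA]; exact fmLcC_le hA'
    have e2 : fmLcC v B ≤ S * (w + 1) := by rw [← hB]; exact fmLcC_le hB'
    have e3 : (lincomb v A).length ≤ w := length_lincomb_le hA'
    have e4 : (lincomb v B).length ≤ w := length_lincomb_le hB'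
    have e5 : ((lincomb v A).length + (lincomb v B).length + 1) * (S + 1) ≤
      (w + w + 1) * (S + 1) := Nat.mul_le_mul_right _ (by omega)
    nlinarith
  have h4 := fm_sum_map_le_mul _ _ _ hb
  have h5 : (V.take (fmDbl S)).length ≤ 2 * S := by
    rw [List.length_take]
    exact (min_le_left _ _).trans (Nat.sub_le _ _)
  have h6 : (V.take (fmDbl S)).length * (16 * (n + 1)) ≤ 2 * S * (16 * (n + 1)) :=
    Nat.mul_le_mul_right _ h5
  unfold fmSt2C
  simp only
  nlinarith [Nat.zero_le n, Nat.zero_le S]

omit [Field K] in
/-- bound for the third stage -/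
theorem fmSt3C_le {E : MEnv K} {n w : ℕ} {P : List (List K)} (hP : P.length ≤ 2 * E.1)
    (hP' : ∀ r ∈ P, r.length ≤ 2 * w) (h1 : E.1 * w ≤ 2 * n) (h3 : E.1 ≤ n) :
    fmSt3C (E, (n, w), P) ≤ 40 * ((n + 1) * (E.1 + 1)) := by
  obtain ⟨S, V, W⟩ := E
  simp only at hP h1 h3 ⊢
  have hb : ∀ v ∈ W.take (fmDbl S), fmLcC v P + 1 ≤ 16 * (n + 1) := by
    intro v _
    have e1 : fmLcC v P ≤ P.length * (2 * w + 1) := fmLcC_le hP'
    have e2 : P.length * (2 * w + 1) ≤ 2 * S * (2 * w + 1) := Nat.mul_le_mul_right _ hP
    nlinarith
  have h4 := fm_sum_map_le_mul _ _ _ hb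
  have h5 : (W.take (fmDbl S)).length ≤ 2 * S := by
    rw [List.length_take]
    exact (min_le_left _ _).trans (Nat.sub_le _ _)
  have h6 : (W.take (fmDbl S)).length * (16 * (n + 1)) ≤ 2 * S * (16 * (n + 1)) :=
    Nat.mul_le_mul_right _ h5
  unfold fmSt3C
  simp only
  nlinarith [Nat.zero_le n, Nat.zero_le S]

theorem fm_step_arith (j : ℕ) {E : MEnv K} {a b : List K}
    (hs : ¬(a.length ≤ E.1 ∧ b.length ≤ E.1)) :
    (a.length + b.length + E.1 + E.1 * (fmBlk E.1 (max a.length b.length) + 1)) +
      fmSt2C (fmSt1 (E, a, b)) + fmSt3C (fmSt2 (fmulAux j) (fmSt1 (E, a, b))) +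
      ((fmSt3 (fmSt2 (fmulAux j) (fmSt1 (E, a, b)))).1.1 +
        ((fmSt3 (fmSt2 (fmulAux j) (fmSt1 (E, a, b)))).2.map (fun r => r.length +
          (fmSt3 (fmSt2 (fmulAux j) (fmSt1 (E, a, b)))).1.2 + 1)).sum) ≤
      120 * ((a.length + b.length + 1) * (E.1 + 1)) := by
  have hmS : E.1 < max a.length b.length := by
    by_contra h
    exact hs ⟨(le_max_left _ _).trans (not_lt.1 h), (le_max_right _ _).trans (not_lt.1 h)⟩
  have hmn : max a.length b.length ≤ a.length + b.length := max_le (by omega) (by omega)
  have hst1 : fmSt1 (E, a, b) = (E, (a.length + b.length, fmBlk E.1 (max a.length b.length)),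
    fmSplit (fmBlk E.1 (max a.length b.length)) E.1 a,
    fmSplit (fmBlk E.1 (max a.length b.length)) E.1 b) := rfl
  rw [hst1]
  generalize max a.length b.length = m at hmS hmn
  generalize a.length + b.length = n at hmn
  have hSw0 := mul_fmBlk_le E.1 m
  have hw0 : E.1 = 0 → fmBlk E.1 m = 0 := fun h => by rw [fmBlk, h, Nat.div_zero]
  generalize fmBlk E.1 m = w at hSw0 hw0
  have hSw : E.1 * w ≤ 2 * n := by omega
  have hwn : w ≤ 2 * n := by
    rcases Nat.eq_zero_or_pos E.1 with h0 | h0
    · rw [hw0 h0]; omega
    · exact (Nat.le_mul_of_pos_left _ h0).trans hSw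
  have hSn : E.1 ≤ n := hmS.le.trans hmn
  have hA' : ∀ r ∈ fmSplit w E.1 a, r.length ≤ w := fun r hr => (rows_fmSplit w _ a r hr).le
  have hB' : ∀ r ∈ fmSplit w E.1 b, r.length ≤ w := fun r hr => (rows_fmSplit w _ b r hr).le
  have t2 : fmSt2C (E, (n, w), fmSplit w E.1 a, fmSplit w E.1 b) ≤ 40 * ((n + 1) * (E.1 + 1)) :=
    fmSt2C_le (length_fmSplit _ _ _) (length_fmSplit _ _ _) hA' hB' hSw hwn hSn
  generalize fmSplit w E.1 a = A at t2 hA'
  generalize fmSplit w E.1 b = B at t2 hB'
  have hst2 : fmSt2 (fmulAux j) (E, (n, w), A, B) = (E, (n, w), (E.2.1.take (fmDbl E.1)).map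
    (fun v => fmulAux j E (lincomb v A) (lincomb v B))) := rfl
  rw [hst2]
  have hP : ((E.2.1.take (fmDbl E.1)).map
      (fun v => fmulAux j E (lincomb v A) (lincomb v B))).length ≤ 2 * E.1 := by
    rw [List.length_map, List.length_take]
    exact (min_le_left _ _).trans (Nat.sub_le _ _)
  have hP' : ∀ r ∈ (E.2.1.take (fmDbl E.1)).map
      (fun v => fmulAux j E (lincomb v A) (lincomb v B)), r.length ≤ 2 * w := by
    intro r hr
    rw [List.mem_map] at hr
    obtain ⟨v, _, rfl⟩ := hr
    have e1 := length_fmulAux j E (lincomb v A) (lincomb v B)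
    have e2 : (lincomb v A).length ≤ w := length_lincomb_le hA'
    have e3 : (lincomb v B).length ≤ w := length_lincomb_le hB'
    omega
  generalize (E.2.1.take (fmDbl E.1)).map
    (fun v => fmulAux j E (lincomb v A) (lincomb v B)) = P at hP hP'
  have t3 := fmSt3C_le (E := E) hP hP' hSw hSn
  have hst3 : fmSt3 (E, (n, w), P) = ((n, w), (E.2.2.take (fmDbl E.1)).map
    (fun r => lincomb r P)) := rfl
  rw [hst3]
  have hC : ((E.2.2.take (fmDbl E.1)).map (fun r => lincomb r P)).length ≤ 2 * E.1 := by
    rw [List.length_map, List.length_take]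
    exact (min_le_left _ _).trans (Nat.sub_le _ _)
  have hC' : ∀ r ∈ (E.2.2.take (fmDbl E.1)).map (fun r => lincomb r P),
      r.length + w + 1 ≤ 3 * w + 1 := by
    intro r hr
    rw [List.mem_map] at hr
    obtain ⟨v, _, rfl⟩ := hr
    have e2 : (lincomb v P).length ≤ 2 * w := length_lincomb_le hP'
    omega
  generalize (E.2.2.take (fmDbl E.1)).map (fun r => lincomb r P) = C at hC hC'
  have t4 := fm_sum_map_le_mul C (fun r => r.length + w + 1) (3 * w + 1) hC'
  have t5 : C.length * (3 * w + 1) ≤ 2 * E.1 * (3 * w + 1) := Nat.mul_le_mul_right _ hC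
  simp only
  nlinarith [Nat.zero_le (n * E.1)]

theorem fmulAux_ex (j : ℕ) : ∃ c, ∀ (K : Type) [Field K],
    Comp K (fun z : MEnv K × List K × List K => fmulAux j z.1 z.2.1 z.2.2) c
      (fun z => (z.2.1.length + z.2.2.length + 1) * (z.1.1 + 1)) := by
  induction j with
  | zero =>
    exact ⟨_, fun K _ => (inferInstance : Comp K (fun z : MEnv K × List K × List K =>
      mulN (z.2.1.take z.1.1) (z.2.2.take z.1.1)) _ _).bigO 3 (fun z => by
        obtain ⟨⟨S, V, W⟩, a, b⟩ := z
        simp only [List.length_take]
        have h1 : (min S a.length + 1) * (min S b.length + 1) ≤ (S + 1) * (b.length + 1) :=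
          Nat.mul_le_mul (by omega) (by omega)
        nlinarith [Nat.zero_le (a.length * S), Nat.zero_le (b.length * S)])⟩
  | succ j ih =>
    obtain ⟨c, hc⟩ := ih
    obtain ⟨c1, h1⟩ := fmSt1_ex
    obtain ⟨c2, h2⟩ := fmSt2_ex hc
    obtain ⟨c3, h3⟩ := fmSt3_ex
    obtain ⟨c4, h4⟩ := fmSt4_ex
    exact ⟨_, fun K _ => (Comp.ite (K := K)
      (p := fun z : MEnv K × List K × List K => z.2.1.length ≤ z.1.1 ∧ z.2.2.length ≤ z.1.1)
      (f := fun z : MEnv K × List K × List K => mulN z.2.1 z.2.2)
      (g := fun z : MEnv K × List K × List K => fmSt4 (fmSt3 (fmSt2 (fmulAux j) (fmSt1 z))))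
      (hg := (h4 K).comp ((h3 K).comp ((h2 K).comp (h1 K))))).bigO 200 (fun z => by
        obtain ⟨E, a, b⟩ := z
        simp only
        have hmin1 := min_le_right a.length E.1
        have hmin2 := min_le_right b.length E.1
        split_ifs with hs
        · have e1 : (a.length + 1) * (b.length + 1) ≤ (E.1 + 1) * (b.length + 1) :=
            Nat.mul_le_mul_right _ (by omega)
          nlinarith [Nat.zero_le (a.length * E.1), Nat.zero_le (b.length * E.1)]
        · have ht := fm_step_arith j hs
          have hlen1 : min a.length E.1 ≤ a.length := min_le_left _ _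
          have hlen2 : min b.length E.1 ≤ b.length := min_le_left _ _
          nlinarith [Nat.zero_le (a.length * E.1), Nat.zero_le (b.length * E.1)])⟩

theorem fmul_ex : ∃ c, ∀ (K : Type) [Field K],
    Comp K (fun z : MEnv K × List K × List K => fmul z.1 z.2.1 z.2.2) c
      (fun z => (z.2.1.length + z.2.2.length + 1) * (z.1.1 + 1)) :=
  fmulAux_ex JJ

noncomputable def fmulCd : Cd := fmul_ex.choose

instance compFmul {α : Type} [Enc K α] {E : α → MEnv K} {a b : α → List K} {c c' c'' : Cd}
    {T T' T'' : α → ℕ} [h : Comp K E c T] [h' : Comp K a c' T'] [h'' : Comp K b c'' T''] :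
    Comp K (fun x => fmul (E x) (a x) (b x)) (fmulCd.comp (c.pair (c'.pair c'')))
      (fun x => T x + (T' x + T'' x) + ((a x).length + (b x).length + 1) * ((E x).1 + 1)) :=
  (fmul_ex.choose_spec K).app2 h Comp.pair

end Pool.Agent.BiFac

end

section

/-!
# The classes of a separating constant vector
-/

set_option autoImplicit false

namespace Pool.Agent.BiFac

open Polynomial

variable {K : Type} [Field K]

/-- The indicator vector of a true factor is constant on the true factors. -/
theorem constOn_indicator {σ u : ℕ} {F f : K[X][X]} {P : Fin u → K[X][X]} (h : Lifted σ F P)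
    (hf : Irreducible f) (hfm : f.Monic) (hfd : f ∣ F) [DecidablePred (Bel P f)] :
    ConstOn F P (fun i => if Bel P f i then (1 : K) else 0) := by
  intro g hg hgF i j hi hj
  obtain ⟨g', hgm, hgg⟩ := exists_monic_associated h.monic hgF
  have hg' : Irreducible g' := hgg.irreducible hg
  have hgF' : g' ∣ F := hgg.dvd_iff_dvd_left.1 hgF
  have hi' : Bel P g' i := bel_of_associated hgg hi
  have hj' : Bel P g' j := bel_of_associated hgg hj
  by_cases hb : Bel P f i
  · have e := h.factor_unique hf hfm hfd hg' hgm hgF' hb hi'
    have hb' : Bel P f j := e ▸ hj'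
    simp only [if_pos hb, if_pos hb']
  · have hb' : ¬ Bel P f j := by
      intro hbj
      have e := h.factor_unique hf hfm hfd hg' hgm hgF' hbj hj'
      exact hb (e ▸ hi')
    simp only [if_neg hb, if_neg hb']

theorem class_eq_factor [DecidableEq K] {σ u : ℕ} {F f : K[X][X]} {P : Fin u → K[X][X]}
    (h : Lifted σ F P) {ν : Fin u → K} (hν : ConstOn F P ν)
    (hsep : ∀ i j, ν i = ν j → ∀ μ, ConstOn F P μ → μ i = μ j) (hf : Irreducible f)
    (hfm : f.Monic) (hfd : f ∣ F) {i : Fin u} (hb : Bel P f i) :
    (∀ j, Bel P f j ↔ ν j = ν i) ∧ TDeg f.natDegree f ∧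
    f.natDegree = ∑ j ∈ Finset.univ.filter (fun j => ν j = ν i), (P j).natDegree ∧
    Cg σ f (∏ j ∈ Finset.univ.filter (fun j => ν j = ν i), P j) := by
  classical
  have key : ∀ j, Bel P f j ↔ ν j = ν i := by
    intro j
    constructor
    · intro hj
      exact hν f hf hfd j i hj hb
    · intro hj
      have h1 := hsep j i hj _ (constOn_indicator h hf hfm hfd)
      by_contra hcon
      simp only [if_pos hb, if_neg hcon] at h1
      exact zero_ne_one h1
  obtain ⟨h1, h2, h3, h4⟩ := h.factor hfm hfd
  have hset : Finset.univ.filter (Bel P f) = Finset.univ.filter (fun j => ν j = ν i) := by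
    ext j
    simp [key j]
  rw [hset] at h1 h2
  exact ⟨key, h4, h2, h1⟩

end Pool.Agent.BiFac

end

section

/-!
T11: the linearised Frobenius test.
-/

set_option autoImplicit false

namespace Pool.Agent.BiFac

open Polynomial

variable {K : Type} [Field K]

theorem frob_exists_char [Fintype K] : ∃ p n : ℕ, p.Prime ∧ CharP K p ∧
    Fintype.card K = p ^ n := by
  obtain ⟨p, hp⟩ := CharP.exists K
  obtain ⟨n, hpr, hn⟩ := FiniteField.card K p
  exact ⟨p, n, hpr, hp, hn⟩

/-- additivity and homogeneity -/
theorem Tfrob_add [Fintype K] (F G H : K[X][X]) :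
    Tfrob (Fintype.card K) F (G + H) = Tfrob (Fintype.card K) F G + Tfrob (Fintype.card K) F H := by
  obtain ⟨p, n, hp, hc, hq⟩ := frob_exists_char (K := K)
  have : Fact p.Prime := ⟨hp⟩
  unfold Tfrob
  rw [hq, add_pow_char_pow]
  ring

theorem Tfrob_smul [Fintype K] (F G : K[X][X]) (c : K) :
    Tfrob (Fintype.card K) F (C (C c) * G) = C (C c) * Tfrob (Fintype.card K) F G := by
  unfold Tfrob
  rw [mul_pow, ← C_pow, ← C_pow, FiniteField.pow_card]
  ring

/-- an element of an extension field fixed by the Frobenius lies in `K` -/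
theorem frob_exists_of_pow_card [Fintype K] {L : Type*} [Field L] [Algebra K L] (t : L)
    (ht : t ^ Fintype.card K = t) : ∃ c : K, algebraMap K L c = t := by
  classical
  by_contra hne
  push Not at hne
  have hq : 1 < Fintype.card K := Fintype.one_lt_card
  -- the polynomial `X ^ q - X` over `L` has too many roots
  have h0 : (X ^ Fintype.card K - X : L[X]) ≠ 0 := FiniteField.X_pow_card_sub_X_ne_zero L hq
  have hdeg := FiniteField.X_pow_card_sub_X_natDegree_eq L hq
  have hsub : insert t (Finset.univ.image (algebraMap K L)) ⊆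
      (X ^ Fintype.card K - X : L[X]).roots.toFinset := by
    intro x hx
    rw [Multiset.mem_toFinset, mem_roots h0, IsRoot.def]
    rcases Finset.mem_insert.1 hx with rfl | hx
    · simp [ht]
    · obtain ⟨c, _, rfl⟩ := Finset.mem_image.1 hx
      simp [← map_pow, FiniteField.pow_card]
  have h1 := Finset.card_le_card hsub
  rw [Finset.card_insert_of_notMem (by
      intro hx
      obtain ⟨c, _, hc⟩ := Finset.mem_image.1 hx
      exact hne c hc),
    Finset.card_image_of_injective _ (algebraMap K L).injective, Finset.card_univ] at h1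
  have h2 := (Multiset.toFinset_card_le (X ^ Fintype.card K - X : L[X]).roots).trans
    (card_roots' _)
  omega

theorem frob_red_derivative (F : K[X][X]) : red (derivative F) = derivative (red F) := by
  unfold red
  exact (Polynomial.derivative_map F (evalRingHom 0)).symm

theorem frob_red_C_C (c : K) : red (C (C c) : K[X][X]) = C c := by
  simp [red]

/-- modulo `red (P i)` only one summand survives -/
theorem frob_dvd_red_Gmu {r : ℕ} (P : Fin r → K[X][X]) (μ : Fin r → K) (c : K) (i : Fin r)
    (h : red (P i) ∣ red (Gmu P μ) - C c * derivative (∏ j, red (P j))) :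
    red (P i) ∣ C (μ i - c) * derivative (∏ j, red (P j)) := by
  classical
  have key : ∀ ν : Fin r → K, red (P i) ∣ (∑ k, C (ν k) * (derivative (red (P k)) *
      ∏ j ∈ Finset.univ.erase k, red (P j))) - C (ν i) * (derivative (red (P i)) *
      ∏ j ∈ Finset.univ.erase i, red (P j)) := by
    intro ν
    rw [← Finset.add_sum_erase _ _ (Finset.mem_univ i), add_sub_cancel_left]
    refine Finset.dvd_sum fun k hk => ?_
    have hik : i ∈ Finset.univ.erase k :=
      Finset.mem_erase.2 ⟨(Finset.ne_of_mem_erase hk).symm, Finset.mem_univ i⟩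
    exact Dvd.dvd.mul_left (Dvd.dvd.mul_left (Finset.dvd_prod_of_mem _ hik) _) _
  have e1 : red (Gmu P μ) = ∑ k, C (μ k) * (derivative (red (P k)) *
      ∏ j ∈ Finset.univ.erase k, red (P j)) := by
    simp only [Gmu, map_sum, map_mul, map_prod, frob_red_derivative, frob_red_C_C]
  have e2 : derivative (∏ j, red (P j)) = ∑ k, C (1 : K) * (derivative (red (P k)) *
      ∏ j ∈ Finset.univ.erase k, red (P j)) := by
    rw [derivative_prod_finset]
    refine Finset.sum_congr rfl fun k _ => ?_
    rw [C_1, one_mul, mul_comm]
  have k1 := key μ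
  have k2 := key fun _ => 1
  rw [← e1] at k1
  rw [← e2] at k2
  set D := derivative (∏ j, red (P j)) with hD
  set T := derivative (red (P i)) * ∏ j ∈ Finset.univ.erase i, red (P j) with hT
  -- `(μ i - c) D = (μ i - c) (D - T) + ((μ i - c) T)`
  have e3 : C (μ i - c) * D = C (μ i) * (D - C 1 * T) - (red (Gmu P μ) - C (μ i) * T) +
      (red (Gmu P μ) - C c * D) := by
    rw [C_1, C_sub]
    ring
  rw [e3]
  exact dvd_add (dvd_sub (Dvd.dvd.mul_left k2 _) k1) h

theorem constOn_of_Tfrob [Fintype K] {σ r : ℕ} {F G : K[X][X]} {P : Fin r → K[X][X]}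
    (h : Lifted σ F P) (μ : Fin r → K) (hG : red G = red (Gmu P μ))
    (hT : F ∣ Tfrob (Fintype.card K) F G) : ConstOn F P μ := by
  classical
  intro f hf hfF i j hi hj
  have hredF : red F = ∏ i, red (P i) := by rw [h.prod.red h.pos, map_prod]
  have hprime : Prime f := hf.prime
  let A := AdjoinRoot f
  have : IsDomain A := AdjoinRoot.isDomain_of_prime hprime
  let L := FractionRing A
  let φ : K[X][X] →+* L := (algebraMap A L).comp (AdjoinRoot.mk f)
  have hφ : ∀ x, φ x = 0 ↔ f ∣ x := by
    intro x
    change algebraMap A L (AdjoinRoot.mk f x) = 0 ↔ _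
    rw [map_eq_zero_iff _ (IsFractionRing.injective A L), AdjoinRoot.mk_eq_zero]
  -- `F'` is nonzero modulo `f`
  have hF' : φ (derivative F) ≠ 0 := by
    intro h0
    rw [hφ] at h0
    have h1 : red f ∣ derivative (red F) := by
      rw [← frob_red_derivative]; exact map_dvd red h0
    have h2 : red f ∣ red F := map_dvd red hfF
    have h3 : IsUnit (red f) := h.sep.isUnit_of_dvd' h2 h1
    exact (h.irr i).not_isUnit (isUnit_of_dvd_unit hi h3)
  -- the quotient is fixed by the Frobenius
  let _ : Algebra K L := (φ.comp (C.comp C)).toAlgebra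
  have hTf : φ (derivative F) * φ G ^ Fintype.card K =
      φ (derivative F) ^ Fintype.card K * φ G := by
    have h1 : f ∣ Tfrob (Fintype.card K) F G := hfF.trans hT
    rw [← hφ, Tfrob, map_sub, map_mul, map_mul, map_pow, map_pow, sub_eq_zero] at h1
    exact h1
  have ht : (φ G / φ (derivative F)) ^ Fintype.card K = φ G / φ (derivative F) := by
    rw [div_pow, div_eq_div_iff (pow_ne_zero _ hF') hF']
    linear_combination hTf
  obtain ⟨c, hc⟩ := frob_exists_of_pow_card (K := K) _ ht
  have hcG : f ∣ G - C (C c) * derivative F := by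
    rw [← hφ, map_sub, map_mul, sub_eq_zero]
    have h1 : φ (C (C c)) = φ G / φ (derivative F) := hc
    rw [h1, div_mul_cancel₀ _ hF']
  -- conclusion
  have key : ∀ i, Bel P f i → μ i = c := by
    intro i hi
    have h1 : red (P i) ∣ red G - C c * derivative (red F) := by
      have h2 : red f ∣ red (G - C (C c) * derivative F) := map_dvd red hcG
      rw [map_sub, map_mul, frob_red_C_C, frob_red_derivative] at h2
      exact hi.trans h2
    rw [hG, hredF] at h1
    have h2 := frob_dvd_red_Gmu P μ c i h1
    have h3 : IsCoprime (red (P i)) (derivative (∏ j, red (P j))) := by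
      have h4 : IsCoprime (∏ j, red (P j)) (derivative (∏ j, red (P j))) := by
        rw [← hredF]; exact h.sep
      exact h4.of_isCoprime_of_dvd_left (Finset.dvd_prod_of_mem _ (Finset.mem_univ i))
    have h5 : red (P i) ∣ C (μ i - c) := h3.dvd_of_dvd_mul_right h2
    by_contra hne
    have h6 : IsUnit (C (μ i - c) : K[X]) := isUnit_C.2 (isUnit_iff_ne_zero.2 (sub_ne_zero.2 hne))
    exact (h.irr i).not_isUnit (isUnit_of_dvd_unit h5 h6)
  rw [key i hi, key j hj]

theorem frob_relPrime {g g' : K[X][X]} (hg : Irreducible g) (hgm : g.Monic)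
    (hg' : Irreducible g') (hgm' : g'.Monic) (hne : g ≠ g') : IsRelPrime g g' := by
  rw [hg.isRelPrime_iff_not_dvd]
  intro hd
  exact hne (eq_of_monic_of_associated hgm hgm' (hg.associated_of_dvd hg' hd))

theorem frob_prod_eq {σ r : ℕ} {F : K[X][X]} {P : Fin r → K[X][X]} (h : Lifted σ F P)
    [DecidableEq K[X][X]] (f : Fin r → K[X][X]) (hf : ∀ i, Irreducible (f i))
    (hfm : ∀ i, (f i).Monic) (hfd : ∀ i, f i ∣ F) (hfb : ∀ i, Bel P (f i) i) :
    ∏ g ∈ Finset.univ.image f, g = F := by
  classical
  have hmon : (∏ g ∈ Finset.univ.image f, g).Monic := by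
    refine monic_prod_of_monic _ _ fun g hg => ?_
    obtain ⟨i, _, rfl⟩ := Finset.mem_image.1 hg
    exact hfm i
  have hdvd : ∏ g ∈ Finset.univ.image f, g ∣ F := by
    refine Finset.prod_dvd_of_isRelPrime ?_ ?_
    · intro g hg g' hg' hne
      obtain ⟨i, _, rfl⟩ := Finset.mem_image.1 (Finset.mem_coe.1 hg)
      obtain ⟨j, _, rfl⟩ := Finset.mem_image.1 (Finset.mem_coe.1 hg')
      exact frob_relPrime (hf i) (hfm i) (hf j) (hfm j) hne
    · intro g hg
      obtain ⟨i, _, rfl⟩ := Finset.mem_image.1 hg
      exact hfd i
  refine (eq_of_monic_of_dvd_of_natDegree_le hmon h.monic hdvd ?_).symm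
  rw [natDegree_prod_of_monic _ _ (fun g hg => by
    obtain ⟨i, _, rfl⟩ := Finset.mem_image.1 hg; exact hfm i), h.natDegree_eq]
  have h1 : ∀ g ∈ Finset.univ.image f, g.natDegree =
      ∑ i ∈ Finset.univ.filter (fun i => f i = g), (P i).natDegree := by
    intro g hg
    obtain ⟨i, _, rfl⟩ := Finset.mem_image.1 hg
    rw [(h.factor (hfm i) (hfd i)).2.1]
    refine Finset.sum_congr ?_ fun _ _ => rfl
    ext j
    simp only [Finset.mem_filter, Finset.mem_univ, true_and]
    constructor
    · intro hj
      exact h.factor_unique (hf j) (hfm j) (hfd j) (hf i) (hfm i) (hfd i) (hfb j) hj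
    · intro hj
      rw [← hj]; exact hfb j
  rw [Finset.sum_congr rfl h1, Finset.sum_fiberwise_of_maps_to (fun i _ =>
    Finset.mem_image_of_mem f (Finset.mem_univ i))]

theorem Tfrob_of_constOn [Fintype K] {σ r w : ℕ} {F G : K[X][X]} {P : Fin r → K[X][X]}
    (h : Lifted σ F P) (μ : Fin r → K) (hμ : ConstOn F P μ) (hw : F.natDegree ≤ w) (hwσ : w ≤ σ)
    (hG : Cg w G (Gmu P μ)) (hGd : ∀ j, (G.coeff j).degree < w) :
    F ∣ Tfrob (Fintype.card K) F G := by
  classical
  choose f hf hfm hfd hfb using h.exists_factor
  set S : Finset K[X][X] := Finset.univ.image f with hS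
  have hprod : ∏ g ∈ S, g = F := frob_prod_eq h f hf hfm hfd hfb
  have hSmem : ∀ i, f i ∈ S := fun i => Finset.mem_image_of_mem f (Finset.mem_univ i)
  have hSirr : ∀ g ∈ S, Irreducible g := by
    intro g hg
    obtain ⟨i, _, rfl⟩ := Finset.mem_image.1 hg
    exact hf i
  have hSmon : ∀ g ∈ S, g.Monic := by
    intro g hg
    obtain ⟨i, _, rfl⟩ := Finset.mem_image.1 hg
    exact hfm i
  have hSdvd : ∀ g ∈ S, g ∣ F := by
    intro g hg
    obtain ⟨i, _, rfl⟩ := Finset.mem_image.1 hg
    exact hfd i
  have hSdeg : ∀ g ∈ S, 0 < g.natDegree := by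
    intro g hg
    rcases Nat.eq_zero_or_pos g.natDegree with h0 | h0
    · exact absurd ((hSmon g hg).natDegree_eq_zero.1 h0) (hSirr g hg).ne_one
    · exact h0
  have hStd : ∀ g ∈ S, TDeg g.natDegree g := fun g hg =>
    (h.factor (hSmon g hg) (hSdvd g hg)).2.2.2
  -- the value of `μ` on a factor
  obtain ⟨m, hm⟩ : ∃ m : K[X][X] → K, ∀ i, m (f i) = μ i := by
    refine ⟨fun g => if hg : ∃ i, f i = g then μ hg.choose else 0, fun i => ?_⟩
    have hex : ∃ j, f j = f i := ⟨i, rfl⟩
    have hch := hex.choose_spec
    simp only [dif_pos hex]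
    have aux : ∀ j, f j = f i → Bel P (f i) j := fun j hj => hj ▸ hfb j
    exact hμ (f i) (hf i) (hfd i) _ _ (aux _ hch) (hfb i)
  -- the true numerator
  set G' : K[X][X] := ∑ g ∈ S, C (C (m g)) * (derivative g * ∏ g' ∈ S.erase g, g') with hG'
  have hF' : derivative F = ∑ g ∈ S, derivative g * ∏ g' ∈ S.erase g, g' := by
    rw [← hprod, derivative_prod_finset]
    exact Finset.sum_congr rfl fun g _ => mul_comm _ _
  -- congruence
  have hcg : Cg σ G' (Gmu P μ) := by
    have e1 : Gmu P μ = ∑ g ∈ S, ∑ i ∈ Finset.univ.filter (fun i => f i = g),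
        C (C (μ i)) * (derivative (P i) * ∏ j ∈ Finset.univ.erase i, P j) := by
      rw [Finset.sum_fiberwise_of_maps_to (fun i _ => hSmem i)]
      rfl
    rw [e1]
    refine Cg.sum _ fun g hg => ?_
    have hB : ∀ g ∈ S, Cg σ g (∏ i ∈ Finset.univ.filter (fun i => f i = g), P i) := by
      intro g hg
      have h1 := (h.factor (hSmon g hg) (hSdvd g hg)).1
      have h2 : Finset.univ.filter (Bel P g) = Finset.univ.filter (fun i => f i = g) := by
        ext j
        simp only [Finset.mem_filter, Finset.mem_univ, true_and]
        constructor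
        · intro hj
          exact h.factor_unique (hf j) (hfm j) (hfd j) (hSirr g hg) (hSmon g hg) (hSdvd g hg)
            (hfb j) hj
        · intro hj
          rw [← hj]; exact hfb j
      rwa [h2] at h1
    have e2 : ∑ i ∈ Finset.univ.filter (fun i => f i = g),
        C (C (μ i)) * (derivative (P i) * ∏ j ∈ Finset.univ.erase i, P j) =
        C (C (m g)) * (derivative (∏ i ∈ Finset.univ.filter (fun i => f i = g), P i) *
          ∏ g' ∈ S.erase g, ∏ i ∈ Finset.univ.filter (fun i => f i = g'), P i) := by
      rw [derivative_prod_finset, Finset.sum_mul, Finset.mul_sum]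
      refine Finset.sum_congr rfl fun i hi => ?_
      have hi' : f i = g := (Finset.mem_filter.1 hi).2
      have e3 : ∏ j ∈ Finset.univ.erase i, P j =
          (∏ b ∈ (Finset.univ.filter (fun i => f i = g)).erase i, P b) *
          ∏ g' ∈ S.erase g, ∏ i ∈ Finset.univ.filter (fun i => f i = g'), P i := by
        rw [← Finset.prod_fiberwise_of_maps_to (s := Finset.univ.erase i) (t := S) (g := f)
          (fun j _ => hSmem j), ← Finset.mul_prod_erase S _ hg]
        congr 1
        · refine Finset.prod_congr ?_ fun _ _ => rfl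
          ext j
          simp only [Finset.mem_filter, Finset.mem_erase, Finset.mem_univ, true_and, and_true]
        · refine Finset.prod_congr rfl fun g' hg' => ?_
          refine Finset.prod_congr ?_ fun _ _ => rfl
          ext j
          simp only [Finset.mem_filter, Finset.mem_erase, Finset.mem_univ, true_and, and_true]
          constructor
          · exact fun h => h.2
          · intro hj
            refine ⟨?_, hj⟩
            rintro rfl
            exact Finset.ne_of_mem_erase hg' (hj.symm.trans hi')
      rw [e3, ← hi', hm i]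
      ring
    rw [e2]
    refine Cg.mul (Cg.refl _ _) (Cg.mul (hB g hg).derivative ?_)
    exact Cg.prod _ fun g' hg' => hB g' (Finset.mem_of_mem_erase hg')
  -- degree
  rcases Nat.eq_zero_or_pos F.natDegree with hd0 | hd0
  · rw [h.monic.natDegree_eq_zero.1 hd0]
    exact one_dvd _
  have hsum : F.natDegree = ∑ g ∈ S, g.natDegree := by
    rw [← hprod, natDegree_prod_of_monic _ _ hSmon]
  have htd : TDeg (F.natDegree - 1) G' := by
    refine TDeg.sum _ fun g hg => ?_
    have h1 : TDeg ((g.natDegree - 1) + ∑ g' ∈ S.erase g, g'.natDegree)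
        (derivative g * ∏ g' ∈ S.erase g, g') :=
      (hStd g hg).derivative.mul (TDeg.prod _ fun g' hg' => hStd g' (Finset.mem_of_mem_erase hg'))
    have h2 : TDeg (0 + ((g.natDegree - 1) + ∑ g' ∈ S.erase g, g'.natDegree))
        (C (C (m g)) * (derivative g * ∏ g' ∈ S.erase g, g')) :=
      (TDeg.C (by rw [natDegree_C])).mul h1
    refine h2.mono ?_
    have h3 := Finset.add_sum_erase S (fun g => g.natDegree) hg
    have h4 := hSdeg g hg
    omega
  have hGG' : G = G' := by
    refine Cg.eq (hG.trans (hcg.mono hwσ).symm) hGd fun j => ?_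
    have h1 := htd.natDegree_coeff_le j
    refine lt_of_le_of_lt degree_le_natDegree ?_
    exact_mod_cast (show (G'.coeff j).natDegree < w by omega)
  rw [hGG']
  -- divisibility, factor by factor
  have key : ∀ g ∈ S, g ∣ Tfrob (Fintype.card K) F G' := by
    intro g hg
    have h1 : g ∣ G' - C (C (m g)) * derivative F := by
      rw [hG', hF', Finset.mul_sum, ← Finset.sum_sub_distrib]
      refine Finset.dvd_sum fun g' hg' => ?_
      by_cases hgg : g' = g
      · rw [hgg, sub_self]; exact dvd_zero _
      · rw [← sub_mul]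
        exact Dvd.dvd.mul_left (Dvd.dvd.mul_left
          (Finset.dvd_prod_of_mem _ (Finset.mem_erase.2 ⟨fun h => hgg h.symm, hg⟩)) _) _
    obtain ⟨u, hu⟩ := h1
    have h2 : G' = C (C (m g)) * derivative F + g * u := by rw [← hu]; ring
    rw [h2, Tfrob_add, Tfrob_smul]
    refine dvd_add ?_ ?_
    · have : Tfrob (Fintype.card K) F (derivative F) = 0 := by
        unfold Tfrob; ring
      rw [this, mul_zero]; exact dvd_zero _
    · unfold Tfrob
      have hq : Fintype.card K ≠ 0 := Fintype.card_ne_zero
      refine dvd_sub ?_ ?_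
      · rw [mul_pow]
        exact Dvd.dvd.mul_left (Dvd.dvd.mul_right (dvd_pow_self g hq) _) _
      · exact Dvd.dvd.mul_left (dvd_mul_right g u) _
  have := Finset.prod_dvd_of_isRelPrime (t := S) (z := Tfrob (Fintype.card K) F G')
    (s := fun g => g) (fun g hg g' hg' hne => frob_relPrime
      (hSirr g hg) (hSmon g hg) (hSirr g' hg') (hSmon g' hg') hne) key
  rwa [hprod] at this

end Pool.Agent.BiFac

end

section

/-!
# Classes of equal keys, test of the total degree
-/

set_option autoImplicit false

namespace Pool.Agent.BiFac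

open Polynomial Pool.Agent.TreeRAM

/-! ### `sel` -/

section sel

variable {K : Type} [DecidableEq K]

theorem sel_nil_left {α : Type} (k : K) (R : List α) : sel k [] R = [] := rfl

theorem sel_nil_right {α : Type} (k : K) (w : List K) : sel k w ([] : List α) = [] := by
  unfold sel
  simp

theorem sel_cons {α : Type} (k a : K) (w : List K) (b : α) (R : List α) :
    sel k (a :: w) (b :: R) = if a = k then b :: sel k w R else sel k w R := by
  unfold sel
  rw [List.zip_cons_cons, List.filter_cons]
  by_cases h : a = k
  · simp [h]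
  · simp [h]

theorem mem_sel {α : Type} {k : K} {w : List K} {R : List α} {a : α} :
    a ∈ sel k w R ↔ ∃ i : ℕ, w[i]? = some k ∧ R[i]? = some a := by
  induction w generalizing R with
  | nil => simp [sel_nil_left]
  | cons x w ih =>
    cases R with
    | nil => simp [sel_nil_right]
    | cons b R =>
      rw [sel_cons]
      constructor
      · intro h
        by_cases hx : x = k
        · rw [if_pos hx, List.mem_cons] at h
          rcases h with h | h
          · exact ⟨0, by simp [hx], by simp [h]⟩
          · obtain ⟨i, h1, h2⟩ := ih.1 h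
            exact ⟨i + 1, by simpa using h1, by simpa using h2⟩
        · rw [if_neg hx] at h
          obtain ⟨i, h1, h2⟩ := ih.1 h
          exact ⟨i + 1, by simpa using h1, by simpa using h2⟩
      · rintro ⟨i, h1, h2⟩
        cases i with
        | zero =>
          simp only [List.getElem?_cons_zero, Option.some.injEq] at h1 h2
          rw [if_pos h1, h2]
          exact List.mem_cons_self
        | succ i =>
          simp only [List.getElem?_cons_succ] at h1 h2
          have := ih.2 ⟨i, h1, h2⟩
          by_cases hx : x = k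
          · rw [if_pos hx]
            exact List.mem_cons_of_mem _ this
          · rw [if_neg hx]
            exact this

theorem length_sel_le {α : Type} (k : K) (w : List K) (R : List α) :
    (sel k w R).length ≤ w.length := by
  unfold sel
  rw [List.length_map]
  refine (List.length_filter_le _ _).trans ?_
  rw [List.length_zip]
  exact min_le_left _ _

/-- product over a class as a product over a finite set -/
theorem prod_sel {K R M : Type} [DecidableEq K] [CommMonoid M] (k : K) (w : List K) (L : List R)
    (hl : w.length = L.length) (g : R → M) :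
    ((sel k w L).map g).prod = ∏ i ∈ Finset.univ.filter
      (fun i : Fin L.length => w[(i : ℕ)]? = some k), g (L.get i) := by
  rw [Finset.prod_filter]
  induction L generalizing w with
  | nil => simp [sel_nil_right]
  | cons b L ih =>
    cases w with
    | nil => simp at hl
    | cons a w =>
      have h1 := ih w (by simpa using hl)
      rw [sel_cons]
      have h2 : ∏ i : Fin (b :: L).length, (if (a :: w)[(i : ℕ)]? = some k then
          g ((b :: L).get i) else 1) = (if a = k then g b else 1) *
          ∏ i : Fin L.length, (if w[(i : ℕ)]? = some k then g (L.get i) else 1) := by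
        have h3 := Fin.prod_univ_succ (n := L.length) (fun i : Fin (L.length + 1) =>
          if (a :: w)[(i : ℕ)]? = some k then g ((b :: L).get i) else 1)
        refine h3.trans ?_
        simp
      rw [h2, ← h1]
      by_cases hx : a = k
      · simp [hx]
      · simp [hx]

end sel

theorem sel_ex : ∃ c, ∀ (K : Type) [Field K] [DecidableEq K] (α : Type) [Enc K α],
    Comp K (fun z : K × List K × List α => sel z.1 z.2.1 z.2.2) c (fun z => z.2.1.length) :=
  ⟨_, fun K _ _ α _ => by
    have h1 : Comp K (fun z : K × List K × List α =>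
        ((z.2.1.zip z.2.2).filter (fun b => decide (b.1 = z.1))).map (fun b => b.2)) _ _ :=
      inferInstance
    refine (h1.congr (g := fun z => sel z.1 z.2.1 z.2.2) fun z => rfl).bigO 8 (fun z => ?_)
    obtain ⟨k, w, R⟩ := z
    have e1 : (w.zip R).length ≤ w.length := by
      rw [List.length_zip]; exact min_le_left _ _
    have e2 : ((w.zip R).filter (fun b => decide (b.1 = k))).length ≤ w.length :=
      (List.length_filter_le _ _).trans e1
    simp only [zero_add, add_zero, List.map_const', List.sum_replicate, smul_eq_mul, mul_one]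
    have e3 : min w.length R.length ≤ w.length := min_le_left _ _
    generalize ((w.zip R).filter (fun b => decide (b.1 = k))).length = A at *
    generalize (w.zip R).length = B at *
    generalize min w.length R.length = B' at *
    omega⟩

noncomputable def selCd : Cd := sel_ex.choose

instance compSel {K : Type} [Field K] [DecidableEq K] {γ α : Type} [Enc K γ] [Enc K α]
    {k : γ → K} {w : γ → List K} {R : γ → List α} {c1 c2 c3 : Cd} {T1 T2 T3 : γ → ℕ}
    [h1 : Comp K k c1 T1] [h2 : Comp K w c2 T2] [h3 : Comp K R c3 T3] :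
    Comp K (fun x => sel (k x) (w x) (R x)) (selCd.comp (c1.pair (c2.pair c3)))
      (fun x => T1 x + (T2 x + T3 x) + (w x).length) :=
  (sel_ex.choose_spec K α).comp (Comp.pair (h := h1) (h' := Comp.pair (h := h2) (h' := h3)))

/-! ### `dedup` -/

theorem dedup_ex : ∃ c, ∀ (K : Type) [Field K] [DecidableEq K],
    Comp K (fun l : List K => l.dedup) c (fun l => (l.length + 1) ^ 2) :=
  ⟨_, fun K _ _ => by
    have hj : Comp K (fun z : List K × List K => lcase z.1 z.2 (fun a t =>
        bif t.any (fun b => decide (b = a)) then z.2 else a :: z.2)) _ _ := inferInstance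
    exact (Comp.rec1 (K := K) (isLeaf := fun l : List K => l.isEmpty)
      (leaf := fun _ => []) (next := fun l => l.tail)
      (join := fun l r => lcase l r (fun a t =>
        bif t.any (fun b => decide (b = a)) then r else a :: r)) (h3 := hj)
      (T := fun l => 4 * l.length * (l.length + 2))
      (fun l => l.length)
      (by rintro l h; cases l <;> simp_all)
      (by
        rintro l h
        cases l with
        | nil => simp at h
        | cons a t =>
          by_cases ha : a ∈ t
          · simp only [List.tail_cons, lcase]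
            rw [List.dedup_cons_of_mem ha]
            have : (t.any fun b => decide (b = a)) = true := by
              rw [List.any_eq_true]; exact ⟨a, ha, by simp⟩
            rw [this]; rfl
          · simp only [List.tail_cons, lcase]
            rw [List.dedup_cons_of_notMem ha]
            have : (t.any fun b => decide (b = a)) = false := by
              rw [List.any_eq_false]
              intro b hb
              simp only [decide_eq_true_eq]
              rintro rfl
              exact ha hb
            rw [this]; rfl)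
      (by rintro l h; cases l <;> simp_all)
      (by rintro l h; cases l <;> simp_all)
      (by
        rintro l h
        cases l with
        | nil => simp at h
        | cons a t =>
          simp only [lcase, List.tail_cons, List.length_cons]
          cases (t.any fun b => decide (b = a)) <;>
          simp only [cond_true, cond_false, List.map_const', List.sum_replicate, smul_eq_mul,
            mul_one, zero_add, add_zero] <;> nlinarith)).bigO 8 (fun z => by nlinarith)⟩

noncomputable def dedupCd : Cd := dedup_ex.choose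

instance compDedup {K : Type} [Field K] [DecidableEq K] {γ : Type} [Enc K γ]
    {w : γ → List K} {c : Cd} {T : γ → ℕ} [h : Comp K w c T] :
    Comp K (fun x => (w x).dedup) (dedupCd.comp c) (fun x => T x + ((w x).length + 1) ^ 2) :=
  (dedup_ex.choose_spec K).app1 h

theorem classesBy_ex : ∃ c, ∀ (K : Type) [Field K] [DecidableEq K] (α : Type) [Enc K α],
    Comp K (fun z : List K × List α => classesBy z.1 z.2) c
      (fun z => (z.1.length + 1) ^ 2) :=
  ⟨_, fun K _ _ α _ => by
    have h1 : Comp K (fun z : List K × List α =>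
        z.1.dedup.map (fun k => sel k z.1 z.2)) _ _ := inferInstance
    refine (h1.congr (g := fun z => classesBy z.1 z.2) fun z => rfl).bigO 8 (fun z => ?_)
    obtain ⟨w, R⟩ := z
    have e1 : w.dedup.length ≤ w.length := (List.dedup_sublist w).length_le
    simp only [zero_add, add_zero, List.map_const', List.sum_replicate, smul_eq_mul]
    have e2 : w.dedup.length * (w.length + 1) ≤ w.length * (w.length + 1) :=
      Nat.mul_le_mul_right _ e1
    generalize w.dedup.length * (w.length + 1) = A at *
    nlinarith⟩

noncomputable def classesByCd : Cd := classesBy_ex.choose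

instance compClassesBy {K : Type} [Field K] [DecidableEq K] {γ α : Type} [Enc K γ] [Enc K α]
    {w : γ → List K} {R : γ → List α} {c2 c3 : Cd} {T2 T3 : γ → ℕ}
    [h2 : Comp K w c2 T2] [h3 : Comp K R c3 T3] :
    Comp K (fun x => classesBy (w x) (R x)) (classesByCd.comp (c2.pair c3))
      (fun x => T2 x + T3 x + ((w x).length + 1) ^ 2) :=
  (classesBy_ex.choose_spec K α).app2 h2 h3

/-! ### Test of the total degree -/

section tri

variable {K : Type} [Field K] [DecidableEq K]

/-- All entries from position `m` on are zero. -/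
def zeroFrom : ℕ → List K → Bool
  | _, [] => true
  | m, a :: r => if m = 0 then decide (a = 0) && zeroFrom 0 r else zeroFrom (m - 1) r

theorem zeroFrom_iff (m : ℕ) (r : List K) :
    zeroFrom m r = true ↔ ∀ i, m ≤ i → r.getD i 0 = 0 := by
  induction r generalizing m with
  | nil => simp [zeroFrom]
  | cons a r ih =>
    unfold zeroFrom
    split
    · rename_i hm
      subst hm
      rw [Bool.and_eq_true, ih, decide_eq_true_eq]
      constructor
      · rintro ⟨h1, h2⟩ i _
        cases i with
        | zero => simpa using h1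
        | succ i => simpa using h2 i (Nat.zero_le _)
      · intro h
        exact ⟨by simpa using h 0 le_rfl, fun i _ => by simpa using h (i + 1) (Nat.zero_le _)⟩
    · rename_i hm
      rw [ih]
      constructor
      · intro h i hi
        cases i with
        | zero => omega
        | succ i => simpa using h i (by omega)
      · intro h i hi
        simpa using h (i + 1) (by omega)

/-- Row `j` has zero entries from position `m - j` on. -/
def triFrom : ℕ → List (List K) → Bool
  | _, [] => true
  | m, r :: F => zeroFrom m r && triFrom (m - 1) F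

theorem triFrom_iff (m : ℕ) (F : List (List K)) :
    triFrom m F = true ↔ ∀ i j, m ≤ i + j → (F.getD j []).getD i 0 = 0 := by
  induction F generalizing m with
  | nil => simp [triFrom]
  | cons r F ih =>
    unfold triFrom
    rw [Bool.and_eq_true, zeroFrom_iff, ih]
    constructor
    · rintro ⟨h1, h2⟩ i j hij
      cases j with
      | zero => simpa using h1 i (by omega)
      | succ j => simpa using h2 i j (by omega)
    · intro h
      exact ⟨fun i hi => by simpa using h i 0 (by omega),
        fun i j hij => by simpa using h i (j + 1) (by omega)⟩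

/-- test of the total degree -/
def isTri (n : ℕ) (F : List (List K)) : Bool := triFrom (n + 1) F

theorem isTri_iff (n : ℕ) (F : List (List K)) : isTri n F = true ↔ TDeg n (toB F) := by
  unfold isTri TDeg
  rw [triFrom_iff]
  refine forall_congr' fun i => forall_congr' fun j => ?_
  rw [coeff_toB, coeff_toP, Nat.succ_le_iff]

end tri

theorem zeroFrom_ex : ∃ c, ∀ (K : Type) [Field K] [DecidableEq K],
    Comp K (fun z : ℕ × List K => zeroFrom z.1 z.2) c (fun z => z.2.length) :=
  ⟨_, fun K _ _ => (Comp.rec1 (K := K) (isLeaf := fun z : ℕ × List K => z.2.isEmpty)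
    (leaf := fun _ => true) (next := fun z => (z.1 - 1, z.2.tail))
    (join := fun z r => bif decide (z.1 = 0) then decide (z.2.headD 0 = 0) && r else r)
    (T := fun z => 2 * z.2.length)
    (fun z => z.2.length)
    (by rintro ⟨m, l⟩ h; cases l <;> simp_all [zeroFrom])
    (by
      rintro ⟨m, l⟩ h
      cases l with
      | nil => simp at h
      | cons a l =>
        cases m with
        | zero => simp [zeroFrom]
        | succ m => simp [zeroFrom])
    (by rintro ⟨m, l⟩ h; cases l <;> simp_all)
    (by rintro ⟨m, l⟩ h; cases l <;> simp_all)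
    (by
      rintro ⟨m, l⟩ h
      cases l with
      | nil => simp at h
      | cons a l =>
        cases m <;> simp <;> omega)).bigO 2 (fun z => by omega)⟩

theorem triFrom_ex : ∃ c, ∀ (K : Type) [Field K] [DecidableEq K],
    Comp K (fun z : ℕ × List (List K) => triFrom z.1 z.2) c (fun z => tot z.2) := by
  obtain ⟨c0, h0⟩ := zeroFrom_ex
  exact ⟨_, fun K _ _ => by
    have hz : Comp K (fun z : ((ℕ × List (List K)) × Bool) × (List K × List (List K)) =>
        zeroFrom z.1.1.1 z.2.1) _ _ := (h0 K).app2 inferInstance inferInstance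
    have hj : Comp K (fun z : (ℕ × List (List K)) × Bool =>
        lcase z.1.2 z.2 (fun r _ => zeroFrom z.1.1 r && z.2)) _ _ :=
      Comp.lcase (l := fun z : (ℕ × List (List K)) × Bool => z.1.2) (f := fun z => z.2)
        (g := fun z r _ => zeroFrom z.1.1 r && z.2) (hg := Comp.and (h := hz))
    exact (Comp.rec1 (K := K) (isLeaf := fun z : ℕ × List (List K) => z.2.isEmpty)
      (leaf := fun _ => true) (next := fun z => (z.1 - 1, z.2.tail))
      (join := fun z r => lcase z.2 r (fun row _ => zeroFrom z.1 row && r)) (h3 := hj)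
      (T := fun z => 4 * tot z.2)
      (fun z => z.2.length)
      (by rintro ⟨m, l⟩ h; cases l <;> simp_all [triFrom])
      (by rintro ⟨m, l⟩ h; cases l <;> simp_all [triFrom])
      (by rintro ⟨m, l⟩ h; cases l <;> simp_all)
      (by rintro ⟨m, l⟩ h; cases l <;> simp_all [tot])
      (by
        rintro ⟨m, l⟩ h
        cases l with
        | nil => simp at h
        | cons a l =>
          simp [tot, lcase]
          omega)).bigO 4 (fun z => by omega)⟩

theorem isTri_ex : ∃ c, ∀ (K : Type) [Field K] [DecidableEq K],
    Comp K (fun z : ℕ × List (List K) => isTri z.1 z.2) c (fun z => z.1 + tot z.2) := by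
  obtain ⟨c0, h0⟩ := triFrom_ex
  exact ⟨_, fun K _ _ => ((h0 K).app2 (f := fun z : ℕ × List (List K) => z.1 + 1)
    (f' := fun z => z.2) inferInstance inferInstance).bigO 2 (fun z => by simp; omega)⟩

noncomputable def isTriCd : Cd := isTri_ex.choose

instance compIsTri {K : Type} [Field K] [DecidableEq K] {γ : Type} [Enc K γ]
    {n : γ → ℕ} {F : γ → List (List K)} {c2 c3 : Cd} {T2 T3 : γ → ℕ}
    [h2 : Comp K n c2 T2] [h3 : Comp K F c3 T3] :
    Comp K (fun x => isTri (n x) (F x)) (isTriCd.comp (c2.pair c3))
      (fun x => T2 x + T3 x + (n x + tot (F x))) :=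
  (isTri_ex.choose_spec K).app2 h2 h3

end Pool.Agent.BiFac

end

section

/-!
# Creating the multiplication data (P3)
-/

set_option autoImplicit false

namespace Pool.Agent.BiFac

open Polynomial Pool.Agent.TreeRAM

variable {K : Type} [Field K]

/-- `a, a p, ..., a p ^ (m - 1)` -/
def pows : ℕ → K → K → List K
  | 0, _, _ => []
  | m + 1, p, a => a :: pows m p (a * p)

/-- the Lagrange polynomial of `p` for the other points `l` -/
def lagP (p : K) : List K → List K
  | [] => [1]
  | q :: l => addP (smulP (-(q * (p - q)⁻¹)) (lagP p l)) (0 :: smulP ((p - q)⁻¹) (lagP p l))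

/-- the Lagrange polynomials of the points of the second list, `pre` being further points -/
def lags : List K → List K → List (List K)
  | _, [] => []
  | pre, p :: post => lagP p (pre ++ post) :: lags (p :: pre) post

/-- the first `n` columns -/
def transp : ℕ → List (List K) → List (List K)
  | 0, _ => []
  | n + 1, Ls => Ls.map (fun L => L.headD 0) :: transp n (Ls.map List.tail)

/-- the multiplication data -/
def mkEnv (S : ℕ) (pts : List K) : MEnv K :=
  (S, pts.map (fun p => pows S p 1), transp pts.length (lags [] pts))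

theorem mkEnv_fst (S : ℕ) (pts : List K) : (mkEnv S pts).1 = S := rfl

lemma pows_eq (m : ℕ) (p a : K) : pows m p a = List.ofFn (fun j : Fin m => a * p ^ (j : ℕ)) := by
  induction m generalizing a with
  | zero => simp [pows]
  | succ m ih =>
    rw [pows, ih, List.ofFn_succ]
    simp only [Fin.val_zero, pow_zero, mul_one, Fin.val_succ, List.cons.injEq, true_and]
    congr 1
    ext j
    ring

lemma length_lagP (p : K) (l : List K) : (lagP p l).length = l.length + 1 := by
  induction l with
  | nil => rfl
  | cons q l ih =>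
    rw [lagP, length_addP, length_smulP, List.length_cons, length_smulP, ih, List.length_cons]
    omega

lemma toP_lagP (p : K) (l : List K) :
    toP (lagP p l) = (l.map (fun q => C ((p - q)⁻¹) * (X - C q))).prod := by
  induction l with
  | nil => simp [lagP]
  | cons q l ih =>
    rw [lagP, toP_addP, toP_smulP, toP_cons, toP_smulP, ih, List.map_cons, List.prod_cons, C_0,
      C_neg, C_mul]
    ring

lemma eval_lagP (p x : K) (l : List K) :
    (toP (lagP p l)).eval x = (l.map (fun q => (p - q)⁻¹ * (x - q))).prod := by
  induction l with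
  | nil => simp [lagP]
  | cons q l ih =>
    rw [toP_lagP, List.map_cons, List.prod_cons, eval_mul, ← toP_lagP, ih, List.map_cons,
      List.prod_cons]
    simp

lemma eval_lagP_self {p : K} {l : List K} (h : p ∉ l) : (toP (lagP p l)).eval p = 1 := by
  rw [eval_lagP]
  apply List.prod_eq_one
  intro y hy
  rw [List.mem_map] at hy
  obtain ⟨q, hq, rfl⟩ := hy
  have : p - q ≠ 0 := by
    intro h0
    rw [sub_eq_zero] at h0
    exact h (h0 ▸ hq)
  exact inv_mul_cancel₀ this

lemma eval_lagP_other {p x : K} {l : List K} (h : x ∈ l) : (toP (lagP p l)).eval x = 0 := by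
  rw [eval_lagP]
  apply List.prod_eq_zero
  rw [List.mem_map]
  exact ⟨x, h, by simp⟩

lemma length_lags (pre post : List K) : (lags pre post).length = post.length := by
  induction post generalizing pre with
  | nil => rfl
  | cons p post ih => rw [lags, List.length_cons, ih, List.length_cons]

/-- the properties of the Lagrange polynomials -/
lemma lags_spec (pre post : List K) (hn : (pre ++ post).Nodup) (i : ℕ) (hi : i < post.length)
    (hi' : i < (lags pre post).length) :
    ((lags pre post)[i]).length = (pre ++ post).length ∧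
    (toP ((lags pre post)[i])).eval (post[i]) = 1 ∧
    (∀ x ∈ pre ++ post, x ≠ post[i] → (toP ((lags pre post)[i])).eval x = 0) := by
  induction post generalizing pre i with
  | nil => simp at hi
  | cons p post ih =>
    cases i with
    | zero =>
      simp only [lags, List.getElem_cons_zero]
      have hp : p ∉ pre ++ post := by
        have h1 := (List.nodup_middle (a := p) (l₁ := pre) (l₂ := post)).mp hn
        exact (List.nodup_cons.mp h1).1
      refine ⟨?_, eval_lagP_self hp, ?_⟩
      · rw [length_lagP]
        simp only [List.length_append, List.length_cons]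
        omega
      · intro x hx hne
        apply eval_lagP_other
        rw [List.mem_append, List.mem_cons] at hx
        rw [List.mem_append]
        rcases hx with h | h | h
        · exact Or.inl h
        · exact absurd h hne
        · exact Or.inr h
    | succ i =>
      simp only [lags, List.getElem_cons_succ]
      have hn' : ((p :: pre) ++ post).Nodup := by
        rw [List.cons_append]
        exact (List.nodup_middle (a := p) (l₁ := pre) (l₂ := post)).mp hn
      have hi1 : i < post.length := by
        rw [List.length_cons] at hi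
        omega
      have hi2 : i < (lags (p :: pre) post).length := by
        rw [length_lags]
        exact hi1
      obtain ⟨h1, h2, h3⟩ := ih (p :: pre) hn' i hi1 hi2
      refine ⟨?_, h2, ?_⟩
      · rw [h1]
        simp only [List.length_append, List.length_cons]
        omega
      · intro x hx hne
        apply h3 x _ hne
        rw [List.mem_append, List.mem_cons] at hx ⊢
        tauto

lemma transp_eq (n : ℕ) (Ls : List (List K)) :
    transp n Ls = List.ofFn (fun j : Fin n => Ls.map (fun L => L.getD (j : ℕ) 0)) := by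
  induction n generalizing Ls with
  | zero => simp [transp]
  | succ n ih =>
    rw [transp, ih, List.ofFn_succ]
    simp only [Fin.val_zero, Fin.val_succ, List.map_map]
    congr 1
    · apply List.map_congr_left
      intro L _
      cases L <;> simp
    · congr 1
      funext j
      apply List.map_congr_left
      intro L _
      cases L <;> simp

theorem mkEnv_good {S : ℕ} (hS : 2 ≤ S) {pts : List K} (hl : pts.length = 2 * S - 1)
    (hn : pts.Nodup) : (mkEnv S pts).Good := by
  refine ⟨hS, ?_⟩
  have hll : (lags [] pts).length = pts.length := length_lags [] pts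
  show ∃ (p : Fin (2 * S - 1) → K) (W : Fin (2 * S - 1) → Fin (2 * S - 1) → K),
    pts.map (fun p => pows S p 1) =
      List.ofFn (fun i => List.ofFn (fun j : Fin S => p i ^ (j : ℕ))) ∧
    transp pts.length (lags [] pts) = List.ofFn (fun j => List.ofFn (fun i => W j i)) ∧
    ∀ j l : Fin (2 * S - 1), ∑ i, W j i * p i ^ (l : ℕ) = if l = j then 1 else 0
  rw [← hl]
  have hspec := fun i : Fin pts.length => lags_spec [] pts (by simpa using hn) i i.isLt
    (by rw [hll]; exact i.isLt)
  refine ⟨fun i => pts[(i : ℕ)], fun j i => ((lags [] pts)[(i : ℕ)]'(by rw [hll]; exact i.isLt)).getD j 0,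
    ?_, ?_, ?_⟩
  · apply List.ext_getElem
    · simp
    · intro i h1 h2
      simp only [List.getElem_map, List.getElem_ofFn]
      rw [pows_eq]
      simp
  · rw [transp_eq]
    congr 1
    ext1 j
    apply List.ext_getElem
    · simp [hll]
    · intro i h1 h2
      simp
  · intro j l
    set L : Fin pts.length → K[X] := fun i =>
      toP ((lags [] pts)[(i : ℕ)]'(by rw [hll]; exact i.isLt)) with hL
    have hdeg : ∀ i, (L i).degree < pts.length := by
      intro i
      refine (degree_toP_lt _).trans_le ?_
      rw [(hspec i).1]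
      simp
    have hinj : Function.Injective (fun i : Fin pts.length => pts[(i : ℕ)]) := by
      intro a b hab
      have := (List.Nodup.getElem_inj_iff hn).mp hab
      exact Fin.ext this
    have key : ∑ i : Fin pts.length, C (pts[(i : ℕ)] ^ (l : ℕ)) * L i = X ^ (l : ℕ) := by
      apply Polynomial.eq_of_degrees_lt_of_eval_index_eq (s := Finset.univ)
        (v := fun i : Fin pts.length => pts[(i : ℕ)])
      · exact hinj.injOn
      · rw [Finset.card_univ, Fintype.card_fin]
        refine (degree_sum_le _ _).trans_lt ?_
        rw [Finset.sup_lt_iff]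
        · intro i _
          refine (degree_mul_le _ _).trans_lt ?_
          refine lt_of_le_of_lt (add_le_add degree_C_le le_rfl) ?_
          rw [zero_add]
          exact hdeg i
        · exact WithBot.bot_lt_coe _
      · rw [Finset.card_univ, Fintype.card_fin, degree_X_pow]
        exact_mod_cast l.isLt
      · intro k _
        rw [eval_finsetSum, eval_pow, eval_X, Finset.sum_eq_single k]
        · rw [eval_mul, eval_C]
          have := (hspec k).2.1
          simp only [hL]
          rw [this, mul_one]
        · intro i _ hik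
          rw [eval_mul]
          have := (hspec i).2.2 (pts[(k : ℕ)]) (by simp) (by
            intro h
            exact hik (hinj h).symm)
          simp only [hL]
          rw [this, mul_zero]
        · intro h
          exact absurd (Finset.mem_univ k) h
    have hc := congrArg (fun P : K[X] => P.coeff (j : ℕ)) key
    simp only [finsetSum_coeff, coeff_C_mul, coeff_X_pow] at hc
    have e : ∀ i, (L i).coeff (j : ℕ) =
        ((lags [] pts)[(i : ℕ)]'(by rw [hll]; exact i.isLt)).getD j 0 := fun i => coeff_toP _ _
    calc ∑ i : Fin pts.length, ((lags [] pts)[(i : ℕ)]'(by rw [hll]; exact i.isLt)).getD j 0 *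
          pts[(i : ℕ)] ^ (l : ℕ)
        = ∑ i : Fin pts.length, pts[(i : ℕ)] ^ (l : ℕ) * (L i).coeff (j : ℕ) := by
          refine Finset.sum_congr rfl (fun i _ => ?_)
          rw [e i, mul_comm]
      _ = if (j : ℕ) = (l : ℕ) then 1 else 0 := hc
      _ = if l = j then 1 else 0 := by
          simp only [Fin.ext_iff, eq_comm]

/-! ### Costs -/

theorem pows_ex : ∃ c, ∀ (K : Type) [Field K],
    Comp K (fun z : ℕ × K × K => pows z.1 z.2.1 z.2.2) c (fun z => z.1) :=
  ⟨_, fun K _ => (Comp.rec1 (K := K)
    (isLeaf := fun z : ℕ × K × K => decide (z.1 = 0))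
    (leaf := fun _ => []) (next := fun z => (z.1 - 1, z.2.1, z.2.2 * z.2.1))
    (join := fun z r => z.2.2 :: r)
    (T := fun z => 2 * z.1)
    (fun z => z.1)
    (by rintro ⟨m, p, a⟩ h; cases m <;> simp_all [pows])
    (by rintro ⟨m, p, a⟩ h; cases m <;> simp_all [pows])
    (by rintro ⟨m, p, a⟩ h; cases m <;> simp_all)
    (by rintro ⟨m, p, a⟩ h; cases m <;> simp_all)
    (by rintro ⟨m, p, a⟩ h; cases m <;> simp_all; omega)).bigO 2 (fun z => by omega)⟩

noncomputable def powsCd : Cd := pows_ex.choose

instance compPows {α : Type} [Enc K α] {f : α → ℕ} {g h : α → K} {c d e : Cd} {T T' T'' : α → ℕ}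
    [hf : Comp K f c T] [hg : Comp K g d T'] [hh : Comp K h e T''] :
    Comp K (fun x => pows (f x) (g x) (h x)) (powsCd.comp (c.pair (d.pair e)))
      (fun x => T x + (T' x + T'' x) + f x) :=
  (pows_ex.choose_spec K).app2 hf Comp.pair

theorem lagP_ex : ∃ c, ∀ (K : Type) [Field K],
    Comp K (fun z : K × List K => lagP z.1 z.2) c (fun z => (z.2.length + 1) ^ 2) :=
  ⟨_, fun K _ => (Comp.rec1 (K := K)
    (isLeaf := fun z : K × List K => z.2.isEmpty)
    (leaf := fun _ => [1]) (next := fun z => (z.1, z.2.tail))
    (join := fun z r => lcase z.2 r (fun q _ =>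
      addP (smulP (-(q * (z.1 - q)⁻¹)) r) (0 :: smulP ((z.1 - q)⁻¹) r)))
    (T := fun z => 4 * (z.2.length + 1) ^ 2)
    (fun z => z.2.length)
    (by rintro ⟨p, l⟩ h; cases l <;> simp_all [lagP])
    (by rintro ⟨p, l⟩ h; cases l <;> simp_all [lagP])
    (by rintro ⟨p, l⟩ h; cases l <;> simp_all)
    (by rintro ⟨p, l⟩ h; cases l <;> simp_all)
    (by
      rintro ⟨p, l⟩ h
      cases l with
      | nil => simp_all
      | cons x l =>
        simp only [lcase_cons, List.tail_cons, length_smulP, List.length_cons, length_lagP,
          zero_add, add_zero]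
        have : 4 * (l.length + 1 + 1) ^ 2 = 4 * (l.length + 1) ^ 2 + 8 * l.length + 12 := by ring
        omega)).bigO 4 (fun z => by omega)⟩

noncomputable def lagPCd : Cd := lagP_ex.choose

instance compLagP {α : Type} [Enc K α] {f : α → K} {g : α → List K} {c d : Cd} {T T' : α → ℕ}
    [hf : Comp K f c T] [hg : Comp K g d T'] :
    Comp K (fun x => lagP (f x) (g x)) (lagPCd.comp (c.pair d))
      (fun x => T x + T' x + ((g x).length + 1) ^ 2) :=
  (lagP_ex.choose_spec K).app2 hf hg

theorem lags_ex : ∃ c, ∀ (K : Type) [Field K],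
    Comp K (fun z : List K × List K => lags z.1 z.2) c
      (fun z => (z.1.length + z.2.length + 1) ^ 3) :=
  ⟨_, fun K _ => (Comp.rec1 (K := K)
    (isLeaf := fun z : List K × List K => z.2.isEmpty)
    (leaf := fun _ => []) (next := fun z => (z.2.headD 0 :: z.1, z.2.tail))
    (join := fun z r => lcase z.2 r (fun p l => lagP p (z.1 ++ l) :: r))
    (T := fun z => 4 * z.2.length * (z.1.length + z.2.length + 1) ^ 2)
    (fun z => z.2.length)
    (by rintro ⟨m, l⟩ h; cases l <;> simp_all [lags])
    (by rintro ⟨m, l⟩ h; cases l <;> simp_all [lags])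
    (by rintro ⟨m, l⟩ h; cases l <;> simp_all)
    (by rintro ⟨m, l⟩ h; cases l <;> simp_all)
    (by
      rintro ⟨m, l⟩ h
      cases l with
      | nil => simp_all
      | cons x l =>
        simp only [lcase_cons, List.tail_cons, List.length_cons, List.length_append,
          zero_add, add_zero]
        have e1 : m.length + 1 + l.length + 1 = m.length + (l.length + 1) + 1 := by ring
        rw [e1]
        have e2 : 4 * (l.length + 1) * (m.length + (l.length + 1) + 1) ^ 2 =
          4 * l.length * (m.length + (l.length + 1) + 1) ^ 2 +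
            4 * (m.length + (l.length + 1) + 1) ^ 2 := by ring
        have e3 : (m.length + l.length + 1) ^ 2 + m.length + 2 ≤
            4 * (m.length + (l.length + 1) + 1) ^ 2 := by nlinarith
        omega)).bigO 4 (fun z => by
          have : 4 * z.2.length * (z.1.length + z.2.length + 1) ^ 2 ≤
              4 * (z.1.length + z.2.length + 1) ^ 3 := by
            have h1 : z.2.length ≤ z.1.length + z.2.length + 1 := by omega
            calc 4 * z.2.length * (z.1.length + z.2.length + 1) ^ 2
                ≤ 4 * (z.1.length + z.2.length + 1) * (z.1.length + z.2.length + 1) ^ 2 :=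
                  Nat.mul_le_mul_right _ (Nat.mul_le_mul_left _ h1)
              _ = 4 * (z.1.length + z.2.length + 1) ^ 3 := by ring
          omega)⟩

noncomputable def lagsCd : Cd := lags_ex.choose

instance compLags {α : Type} [Enc K α] {f : α → List K} {g : α → List K} {c d : Cd} {T T' : α → ℕ}
    [hf : Comp K f c T] [hg : Comp K g d T'] :
    Comp K (fun x => lags (f x) (g x)) (lagsCd.comp (c.pair d))
      (fun x => T x + T' x + ((f x).length + (g x).length + 1) ^ 3) :=
  (lags_ex.choose_spec K).app2 hf hg

theorem transp_ex : ∃ c, ∀ (K : Type) [Field K],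
    Comp K (fun z : ℕ × List (List K) => transp z.1 z.2) c
      (fun z => z.1 * (z.2.length + 1)) :=
  ⟨_, fun K _ => (Comp.rec1 (K := K)
    (isLeaf := fun z : ℕ × List (List K) => decide (z.1 = 0))
    (leaf := fun _ => []) (next := fun z => (z.1 - 1, z.2.map List.tail))
    (join := fun z r => z.2.map (fun L => L.headD 0) :: r)
    (T := fun z => z.1 * (2 * z.2.length + 2))
    (fun z => z.1)
    (by rintro ⟨m, l⟩ h; cases m <;> simp_all [transp])
    (by rintro ⟨m, l⟩ h; cases m <;> simp_all [transp])
    (by rintro ⟨m, l⟩ h; cases m <;> simp_all)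
    (by rintro ⟨m, l⟩ h; cases m <;> simp_all)
    (by
      rintro ⟨m, l⟩ h
      cases m with
      | zero => simp_all
      | succ m =>
        simp only [Nat.add_sub_cancel, List.length_map, List.map_const', List.sum_replicate,
          smul_eq_mul, mul_one, zero_add, add_zero]
        have : (m + 1) * (2 * l.length + 2) = m * (2 * l.length + 2) + (2 * l.length + 2) := by
          ring
        omega)).bigO 2 (fun z => by
          have : z.1 * (2 * z.2.length + 2) = 2 * (z.1 * (z.2.length + 1)) := by ring
          omega)⟩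

noncomputable def transpCd : Cd := transp_ex.choose

instance compTransp {α : Type} [Enc K α] {f : α → ℕ} {g : α → List (List K)} {c d : Cd}
    {T T' : α → ℕ} [hf : Comp K f c T] [hg : Comp K g d T'] :
    Comp K (fun x => transp (f x) (g x)) (transpCd.comp (c.pair d))
      (fun x => T x + T' x + f x * ((g x).length + 1)) :=
  (transp_ex.choose_spec K).app2 hf hg

theorem mkEnv_ex : ∃ c, ∀ (K : Type) [Field K],
    Comp K (fun z : ℕ × List K => mkEnv z.1 z.2) c (fun z => (z.1 + z.2.length + 1) ^ 4) :=
  ⟨_, fun K _ => (Comp.pair (K := K) (f := fun z : ℕ × List K => z.1)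
    (g := fun z => (z.2.map (fun p => pows z.1 p 1), transp z.2.length (lags [] z.2)))).bigO 5
    (fun z => by
      obtain ⟨S, pts⟩ := z
      simp only [List.map_const', List.sum_replicate, smul_eq_mul, length_lags, List.length_nil,
        zero_add, add_zero]
      set n := pts.length
      have h1 : n * (S + 1) ≤ (S + n + 1) ^ 4 := by
        have a1 : n * (S + 1) ≤ (S + n + 1) * (S + n + 1) := Nat.mul_le_mul (by omega) (by omega)
        have a2 : (S + n + 1) * (S + n + 1) ≤ (S + n + 1) ^ 4 := by
          rw [← pow_two]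
          exact Nat.pow_le_pow_right (by omega) (by norm_num)
        omega
      have h2 : (n + 1) ^ 3 ≤ (S + n + 1) ^ 4 := by
        calc (n + 1) ^ 3 ≤ (S + n + 1) ^ 3 := Nat.pow_le_pow_left (by omega) 3
          _ ≤ (S + n + 1) ^ 4 := Nat.pow_le_pow_right (by omega) (by norm_num)
      have h3 : n * (n + 1) ≤ (S + n + 1) ^ 4 := by
        have a1 : n * (n + 1) ≤ (S + n + 1) * (S + n + 1) := Nat.mul_le_mul (by omega) (by omega)
        have a2 : (S + n + 1) * (S + n + 1) ≤ (S + n + 1) ^ 4 := by
          rw [← pow_two]
          exact Nat.pow_le_pow_right (by omega) (by norm_num)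
        omega
      have h4 : n ≤ (S + n + 1) ^ 4 := by
        calc n ≤ S + n + 1 := by omega
          _ = (S + n + 1) ^ 1 := (pow_one _).symm
          _ ≤ (S + n + 1) ^ 4 := Nat.pow_le_pow_right (by omega) (by norm_num)
      omega)⟩

noncomputable def mkEnvCd : Cd := mkEnv_ex.choose

instance compMkEnv {α : Type} [Enc K α] {f : α → ℕ} {g : α → List K} {c d : Cd} {T T' : α → ℕ}
    [hf : Comp K f c T] [hg : Comp K g d T'] : Comp K (fun x => mkEnv (f x) (g x))
      (mkEnvCd.comp (c.pair d)) (fun x => T x + T' x + (f x + (g x).length + 1) ^ 4) :=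
  (mkEnv_ex.choose_spec K).app2 hf hg

end Pool.Agent.BiFac

end

section

/-!
# Random moduli: eight random monic polynomials whose product divides no member of a small family
-/

set_option autoImplicit false

namespace Pool.Agent.BiFac

open Polynomial

variable {K : Type} [Field K]

namespace Moduli

theorem mpoly_monic {n : ℕ} (c : Fin n → K) : (mpoly c).Monic := by
  unfold mpoly
  refine monic_X_pow_add ?_
  refine lt_of_le_of_lt (degree_sum_le _ _) ?_
  rw [Finset.sup_lt_iff (by exact WithBot.bot_lt_coe n)]
  intro i _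
  refine lt_of_le_of_lt (degree_C_mul_X_pow_le _ _) ?_
  exact_mod_cast i.2

theorem mpoly_natDegree {n : ℕ} (c : Fin n → K) : (mpoly c).natDegree = n := by
  unfold mpoly
  have h : (∑ i, C (c i) * X ^ (i : ℕ) : K[X]).degree < (n : WithBot ℕ) := by
    refine lt_of_le_of_lt (degree_sum_le _ _) ?_
    rw [Finset.sup_lt_iff (by exact WithBot.bot_lt_coe n)]
    intro i _
    refine lt_of_le_of_lt (degree_C_mul_X_pow_le _ _) ?_
    exact_mod_cast i.2
  have h2 : (X ^ n + ∑ i, C (c i) * X ^ (i : ℕ) : K[X]).degree = (n : WithBot ℕ) := by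
    rw [degree_add_eq_left_of_degree_lt (by rw [degree_X_pow]; exact h), degree_X_pow]
  exact natDegree_eq_of_degree_eq_some h2

theorem mpoly_coeff {n : ℕ} (c : Fin n → K) (i : Fin n) : (mpoly c).coeff i = c i := by
  unfold mpoly
  rw [coeff_add, coeff_X_pow, if_neg (by exact (ne_of_lt i.2)), zero_add, finsetSum_coeff]
  rw [Finset.sum_eq_single i]
  · simp
  · intro j _ hj
    rw [coeff_C_mul_X_pow, if_neg]
    intro h
    exact hj (Fin.ext h.symm)
  · intro h
    exact absurd (Finset.mem_univ i) h

theorem mpoly_of_monic {n : ℕ} {p : K[X]} (hp : p.Monic) (hn : p.natDegree = n) :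
    mpoly (fun i : Fin n => p.coeff i) = p := by
  ext k
  rcases lt_trichotomy k n with h | h | h
  · exact mpoly_coeff _ ⟨k, h⟩
  · subst h
    have h1 := (mpoly_monic (fun i : Fin k => p.coeff i)).coeff_natDegree
    rw [mpoly_natDegree] at h1
    rw [h1]
    have h2 := hp.coeff_natDegree
    rw [hn] at h2
    exact h2.symm
  · rw [coeff_eq_zero_of_natDegree_lt (by rw [mpoly_natDegree]; exact h),
      coeff_eq_zero_of_natDegree_lt (by rw [hn]; exact h)]

theorem mpoly_inj {n : ℕ} {c d : Fin n → K} (h : mpoly c = mpoly d) : c = d := by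
  funext i
  rw [← mpoly_coeff c i, ← mpoly_coeff d i, h]

/-- The coefficient vector of the product. -/
noncomputable def cv (M : ℕ) (p : K[X]) : Fin M → K := fun i => p.coeff i

/-- There is a large irreducible factor. -/
def Large (κ M : ℕ) (c : Fin M → K) : Prop :=
  ∃ g : K[X], Irreducible g ∧ g.Monic ∧ κ + 6 ≤ g.natDegree ∧ g ∣ mpoly c

section count

variable [Fintype K]

open Classical in
theorem large_count (hirr : ∀ n : ℕ, 0 < n →
    Fintype.card K ^ n ≤ 2 * n * Nat.card {c : Fin n → K // Irreducible (mpoly c)}) (κ : ℕ) :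
    Fintype.card K ^ (2 * κ + 10) ≤
      4 * Nat.card {c : Fin (2 * κ + 10) → K // Large κ (2 * κ + 10) c} := by
  set q := Fintype.card K with hq
  set M := 2 * κ + 10 with hM
  -- the injection
  let A : Type := Σ j : Fin (κ + 5), {g : Fin (κ + 6 + j) → K // Irreducible (mpoly g)} ×
    (Fin (M - (κ + 6 + j)) → K)
  let f : A → {c : Fin M → K // Large κ M c} := fun a =>
    ⟨cv M (mpoly a.2.1.1 * mpoly a.2.2), by
      have hmon : (mpoly a.2.1.1 * mpoly a.2.2).Monic := (mpoly_monic _).mul (mpoly_monic _)
      have hdeg : (mpoly a.2.1.1 * mpoly a.2.2).natDegree = M := by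
        rw [(mpoly_monic _).natDegree_mul (mpoly_monic _), mpoly_natDegree, mpoly_natDegree]
        have := a.1.2
        omega
      refine ⟨mpoly a.2.1.1, a.2.1.2, mpoly_monic _, ?_, ?_⟩
      · rw [mpoly_natDegree]; omega
      · have h1 : mpoly (cv M (mpoly a.2.1.1 * mpoly a.2.2)) = mpoly a.2.1.1 * mpoly a.2.2 :=
          mpoly_of_monic hmon hdeg
        rw [h1]
        exact dvd_mul_right _ _⟩
  have hf : Function.Injective f := by
    rintro ⟨j, ⟨g, hg⟩, h⟩ ⟨j', ⟨g', hg'⟩, h'⟩ heq
    have heq' : cv M (mpoly g * mpoly h) = cv M (mpoly g' * mpoly h') := congrArg Subtype.val heq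
    have hd1 : (mpoly g * mpoly h).natDegree = M := by
      rw [(mpoly_monic _).natDegree_mul (mpoly_monic _), mpoly_natDegree, mpoly_natDegree]
      have := j.2
      omega
    have hd2 : (mpoly g' * mpoly h').natDegree = M := by
      rw [(mpoly_monic _).natDegree_mul (mpoly_monic _), mpoly_natDegree, mpoly_natDegree]
      have := j'.2
      omega
    have hprod : mpoly g * mpoly h = mpoly g' * mpoly h' := by
      rw [← mpoly_of_monic ((mpoly_monic g).mul (mpoly_monic h)) hd1,
        ← mpoly_of_monic ((mpoly_monic g').mul (mpoly_monic h')) hd2]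
      exact congrArg mpoly heq'
    have hgg : mpoly g = mpoly g' := by
      have hdvd : mpoly g ∣ mpoly g' * mpoly h' := by
        rw [← hprod]; exact dvd_mul_right _ _
      rcases hg.prime.dvd_or_dvd hdvd with h1 | h1
      · have h2 : Associated (mpoly g) (mpoly g') := (hg.associated_of_dvd hg' h1)
        exact eq_of_monic_of_associated (mpoly_monic _) (mpoly_monic _) h2
      · exfalso
        have h2 := natDegree_le_of_dvd h1 (mpoly_monic h').ne_zero
        rw [mpoly_natDegree, mpoly_natDegree] at h2
        have := j'.2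
        omega
    have hjj : j = j' := by
      have h1 := congrArg natDegree hgg
      rw [mpoly_natDegree, mpoly_natDegree] at h1
      exact Fin.ext (by omega)
    subst hjj
    have h1 : g = g' := mpoly_inj hgg
    subst h1
    have h2 : mpoly h = mpoly h' := mul_left_cancel₀ (mpoly_monic g).ne_zero hprod
    have h3 : h = h' := mpoly_inj h2
    subst h3
    rfl
  have hcard : Nat.card A ≤ Nat.card {c : Fin M → K // Large κ M c} :=
    Nat.card_le_card_of_injective f hf
  have hA : Nat.card A = ∑ j : Fin (κ + 5),
      Nat.card {g : Fin (κ + 6 + j) → K // Irreducible (mpoly g)} * q ^ (M - (κ + 6 + j)) := by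
    rw [Nat.card_sigma]
    refine Finset.sum_congr rfl (fun j _ => ?_)
    rw [Nat.card_prod]
    congr 1
    rw [Nat.card_eq_fintype_card, Fintype.card_fun, Fintype.card_fin]
  have hterm : ∀ j : Fin (κ + 5), q ^ M ≤ 2 * M *
      (Nat.card {g : Fin (κ + 6 + j) → K // Irreducible (mpoly g)} * q ^ (M - (κ + 6 + j))) := by
    intro j
    have h1 := hirr (κ + 6 + j) (by omega)
    have h2 : κ + 6 + (j : ℕ) ≤ M := by have := j.2; omega
    calc q ^ M = q ^ (κ + 6 + (j : ℕ)) * q ^ (M - (κ + 6 + j)) := by
          rw [← pow_add]; congr 1; omega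
      _ ≤ (2 * (κ + 6 + j) * Nat.card {g : Fin (κ + 6 + j) → K // Irreducible (mpoly g)}) *
            q ^ (M - (κ + 6 + j)) := Nat.mul_le_mul_right _ h1
      _ ≤ (2 * M * Nat.card {g : Fin (κ + 6 + j) → K // Irreducible (mpoly g)}) *
            q ^ (M - (κ + 6 + j)) := by
          refine Nat.mul_le_mul_right _ (Nat.mul_le_mul_right _ (Nat.mul_le_mul_left _ h2))
      _ = _ := by ring
  have hsum : (κ + 5) * q ^ M ≤ 2 * M * Nat.card A := by
    rw [hA, Finset.mul_sum]
    calc (κ + 5) * q ^ M = ∑ j : Fin (κ + 5), q ^ M := by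
          rw [Finset.sum_const, Finset.card_univ, Fintype.card_fin, smul_eq_mul]
      _ ≤ _ := Finset.sum_le_sum (fun j _ => hterm j)
  have h5 : (κ + 5) * q ^ M ≤ (κ + 5) * (4 * Nat.card A) := by
    calc (κ + 5) * q ^ M ≤ 2 * M * Nat.card A := hsum
      _ = (κ + 5) * (4 * Nat.card A) := by rw [hM]; ring
  have h6 : q ^ M ≤ 4 * Nat.card A := Nat.le_of_mul_le_mul_left h5 (by omega)
  calc q ^ M ≤ 4 * Nat.card A := h6
    _ ≤ _ := Nat.mul_le_mul_left _ hcard

open Classical in
theorem hit_count (κ Δ : ℕ) (N : K[X]) (hN : N ≠ 0) (hΔ : N.natDegree ≤ Δ) :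
    Nat.card {c : Fin (2 * κ + 10) → K // ∃ g : K[X], Irreducible g ∧ g.Monic ∧
      κ + 6 ≤ g.natDegree ∧ g ∣ mpoly c ∧ g ∣ N} ≤ Δ * Fintype.card K ^ (κ + 4) := by
  set q := Fintype.card K with hq
  set M := 2 * κ + 10 with hM
  -- the distinct monic irreducible factors of N
  let s : Finset K[X] := (UniqueFactorizationMonoid.normalizedFactors N).toFinset
  have hs : s.card ≤ Δ := by
    have h1 : s.card ≤ Multiset.card (UniqueFactorizationMonoid.normalizedFactors N) :=
      Multiset.toFinset_card_le _
    have h2 : Multiset.card (UniqueFactorizationMonoid.normalizedFactors N) ≤ N.natDegree := by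
      have h3 : (UniqueFactorizationMonoid.normalizedFactors N).prod.natDegree = N.natDegree := by
        have := (UniqueFactorizationMonoid.prod_normalizedFactors hN)
        exact natDegree_eq_of_degree_eq (degree_eq_degree_of_associated this)
      rw [← h3]
      have h4 : ∀ g ∈ UniqueFactorizationMonoid.normalizedFactors N, 1 ≤ g.natDegree := by
        intro g hg
        have := UniqueFactorizationMonoid.irreducible_of_normalized_factor g hg
        exact this.natDegree_pos
      have h5 : (0 : K[X]) ∉ UniqueFactorizationMonoid.normalizedFactors N := by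
        intro h
        exact (UniqueFactorizationMonoid.irreducible_of_normalized_factor _ h).ne_zero rfl
      rw [natDegree_multiset_prod _ h5]
      have h6 := Multiset.card_nsmul_le_sum
        (s := (UniqueFactorizationMonoid.normalizedFactors N).map natDegree) (a := 1) (by
          intro x hx
          rw [Multiset.mem_map] at hx
          obtain ⟨g, hg, rfl⟩ := hx
          exact h4 g hg)
      simpa using h6
    exact h1.trans (h2.trans hΔ)
  -- the surjection
  let f : s × (Fin (κ + 4) → K) → (Fin M → K) := fun a =>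
    cv M (a.1.1 * mpoly (fun i : Fin (M - a.1.1.natDegree) =>
      if h : (i : ℕ) < κ + 4 then a.2 ⟨i, h⟩ else 0))
  have hsub : ∀ c : Fin M → K, (∃ g : K[X], Irreducible g ∧ g.Monic ∧
      κ + 6 ≤ g.natDegree ∧ g ∣ mpoly c ∧ g ∣ N) → c ∈ Finset.univ.image f := by
    rintro c ⟨g, hg, hgm, hgd, hgc, hgN⟩
    obtain ⟨h, hh⟩ := hgc
    have hgs : g ∈ s := by
      obtain ⟨g', hg', hass⟩ := UniqueFactorizationMonoid.exists_mem_normalizedFactors_of_dvd
        hN hg hgN
      have h1 : g' = g := by
        have h2 : normalize g' = g' := UniqueFactorizationMonoid.normalize_normalized_factor g' hg'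
        have h3 : normalize g = g := hgm.normalize_eq_self
        rw [← h2, ← h3]
        exact (normalize_eq_normalize_iff_associated.mpr hass).symm
      rw [Multiset.mem_toFinset, ← h1]
      exact hg'
    have hhm : h.Monic := by
      have h1 : (g * h).Monic := hh ▸ mpoly_monic c
      exact hgm.of_mul_monic_left h1
    have hhd : h.natDegree = M - g.natDegree := by
      have h1 : (g * h).natDegree = M := by rw [← hh, mpoly_natDegree]
      rw [hgm.natDegree_mul hhm] at h1
      omega
    have hle : M - g.natDegree ≤ κ + 4 := by omega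
    rw [Finset.mem_image]
    refine ⟨(⟨g, hgs⟩, fun i => h.coeff i), Finset.mem_univ _, ?_⟩
    have h1 : mpoly (fun i : Fin (M - g.natDegree) =>
      if h' : (i : ℕ) < κ + 4 then h.coeff i else 0) = h := by
      rw [← mpoly_of_monic hhm hhd]
      congr 1
      funext i
      have : (i : ℕ) < κ + 4 := lt_of_lt_of_le i.2 hle
      rw [dif_pos this, mpoly_of_monic hhm hhd]
    show cv M (g * mpoly (fun i : Fin (M - g.natDegree) =>
      if h' : (i : ℕ) < κ + 4 then h.coeff i else 0)) = c
    rw [h1, ← hh]
    funext i
    exact mpoly_coeff c i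
  have h1 : Nat.card {c : Fin M → K // ∃ g : K[X], Irreducible g ∧ g.Monic ∧
      κ + 6 ≤ g.natDegree ∧ g ∣ mpoly c ∧ g ∣ N} ≤ (Finset.univ.image f).card := by
    rw [Nat.card_eq_fintype_card, Fintype.card_subtype]
    refine Finset.card_le_card ?_
    intro c hc
    exact hsub c (Finset.mem_filter.mp hc).2
  refine h1.trans (Finset.card_image_le.trans ?_)
  rw [Finset.card_univ, Fintype.card_prod, Fintype.card_coe, Fintype.card_fun, Fintype.card_fin]
  exact Nat.mul_le_mul_right _ hs

end count

theorem bad_arith (q M B a g b : ℕ) (hbad : B ≤ a ^ 8 + 8 * (b * (q ^ M) ^ 7))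
    (hG : q ^ M ≤ 4 * g) (hH : q ^ 3 * b ≤ q ^ M) (hc : a + g = q ^ M) (hq : 1000 ≤ q) :
    8 * B ≤ q ^ (8 * M) := by
  have hpow : q ^ (8 * M) = (q ^ M) ^ 8 := by rw [← pow_mul, Nat.mul_comm]
  rw [hpow]
  refine (Nat.mul_le_mul_left 8 hbad).trans ?_
  generalize q ^ M = Q at *
  have ha4 : 4 * a ≤ 3 * Q := by omega
  have hb9 : 1000000000 * b ≤ Q := by
    calc 1000000000 * b = 1000 ^ 3 * b := by norm_num
      _ ≤ q ^ 3 * b := Nat.mul_le_mul_right _ (Nat.pow_le_pow_left hq 3)
      _ ≤ Q := hH
  have h8 : (4 * a) ^ 8 ≤ (3 * Q) ^ 8 := Nat.pow_le_pow_left ha4 8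
  have h9 : (1000000000 * b) * Q ^ 7 ≤ Q * Q ^ 7 := Nat.mul_le_mul_right _ hb9
  have h10 : (4 * a) ^ 8 = 65536 * a ^ 8 := by ring
  have h11 : (3 * Q) ^ 8 = 6561 * Q ^ 8 := by ring
  have h12 : Q * Q ^ 7 = Q ^ 8 := by ring
  have h13 : (1000000000 * b) * Q ^ 7 = 1000000000 * (b * Q ^ 7) := by ring
  rw [h10, h11] at h8
  rw [h12, h13] at h9
  have h14 : 8 * (a ^ 8 + 8 * (b * Q ^ 7)) = 8 * a ^ 8 + 64 * (b * Q ^ 7) := by ring
  rw [h14]
  generalize a ^ 8 = u at *
  generalize b * Q ^ 7 = v at *
  generalize Q ^ 8 = w at *
  omega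

end Moduli

open Moduli

open Classical in
theorem card_bad_moduli' [Fintype K] (hirr : ∀ n : ℕ, 0 < n →
    Fintype.card K ^ n ≤ 2 * n * Nat.card {c : Fin n → K // Irreducible (mpoly c)})
    (κ Δ : ℕ) (𝒩 : Finset K[X])
    (h0 : ∀ N ∈ 𝒩, N ≠ 0 ∧ N.natDegree ≤ Δ) (hcard : 𝒩.card ≤ Fintype.card K ^ κ)
    (hΔ : Δ ≤ Fintype.card K ^ 3) (hq : 1000 ≤ Fintype.card K) :
    8 * Nat.card {c : Fin 8 → Fin (2 * κ + 10) → K // ∃ N ∈ 𝒩, (∏ i, mpoly (c i)) ∣ N} ≤
      Fintype.card K ^ (8 * (2 * κ + 10)) := by
  set q := Fintype.card K with hqdef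
  set M := 2 * κ + 10 with hM
  set G : Finset (Fin M → K) := Finset.univ.filter (fun c => Large κ M c) with hG
  set H : Finset (Fin M → K) := Finset.univ.filter (fun c => ∃ N ∈ 𝒩, ∃ g : K[X],
    Irreducible g ∧ g.Monic ∧ κ + 6 ≤ g.natDegree ∧ g ∣ mpoly c ∧ g ∣ N) with hH
  have hGc : q ^ M ≤ 4 * G.card := by
    have h1 := large_count hirr κ
    rw [Nat.card_eq_fintype_card, Fintype.card_subtype] at h1
    exact h1
  have hHc : q ^ 3 * H.card ≤ q ^ M := by
    have h1 : H ⊆ 𝒩.biUnion (fun N => Finset.univ.filter (fun c : Fin M → K => ∃ g : K[X],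
        Irreducible g ∧ g.Monic ∧ κ + 6 ≤ g.natDegree ∧ g ∣ mpoly c ∧ g ∣ N)) := by
      intro c hc
      obtain ⟨N, hN, hc'⟩ := (Finset.mem_filter.mp hc).2
      rw [Finset.mem_biUnion]
      exact ⟨N, hN, Finset.mem_filter.mpr ⟨Finset.mem_univ _, hc'⟩⟩
    have h2 : H.card ≤ 𝒩.card * (q ^ 3 * q ^ (κ + 4)) := by
      refine (Finset.card_le_card h1).trans (Finset.card_biUnion_le_card_mul _ _ _ ?_)
      intro N hN
      have h3 := hit_count κ Δ N (h0 N hN).1 (h0 N hN).2
      rw [Nat.card_eq_fintype_card, Fintype.card_subtype] at h3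
      exact h3.trans (Nat.mul_le_mul_right _ hΔ)
    calc q ^ 3 * H.card ≤ q ^ 3 * (q ^ κ * (q ^ 3 * q ^ (κ + 4))) :=
          Nat.mul_le_mul_left _ (h2.trans (Nat.mul_le_mul_right _ hcard))
      _ = q ^ M := by rw [hM]; ring
  -- the bad set
  have hbad : Nat.card {c : Fin 8 → Fin M → K // ∃ N ∈ 𝒩, (∏ i, mpoly (c i)) ∣ N} ≤
      Gᶜ.card ^ 8 + 8 * (H.card * (q ^ M) ^ 7) := by
    rw [Nat.card_eq_fintype_card, Fintype.card_subtype]
    have h1 : (Finset.univ.filter (fun c : Fin 8 → Fin M → K =>
        ∃ N ∈ 𝒩, (∏ i, mpoly (c i)) ∣ N)) ⊆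
        Fintype.piFinset (fun _ : Fin 8 => Gᶜ) ∪
          (Finset.univ : Finset (Fin 8)).biUnion (fun i =>
            Fintype.piFinset (fun j : Fin 8 => if j = i then H else Finset.univ)) := by
      intro c hc
      obtain ⟨N, hN, hdvd⟩ := (Finset.mem_filter.mp hc).2
      rw [Finset.mem_union]
      by_cases hall : ∀ i, c i ∉ G
      · left
        rw [Fintype.mem_piFinset]
        intro i
        rw [Finset.mem_compl]
        exact hall i
      · right
        push Not at hall
        obtain ⟨i, hi⟩ := hall
        obtain ⟨g, hg, hgm, hgd, hgc⟩ := (Finset.mem_filter.mp hi).2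
        rw [Finset.mem_biUnion]
        refine ⟨i, Finset.mem_univ _, ?_⟩
        rw [Fintype.mem_piFinset]
        intro j
        by_cases hj : j = i
        · subst hj
          rw [if_pos rfl]
          rw [hH, Finset.mem_filter]
          refine ⟨Finset.mem_univ _, N, hN, g, hg, hgm, hgd, hgc, ?_⟩
          exact hgc.trans ((Finset.dvd_prod_of_mem (fun i => mpoly (c i))
            (Finset.mem_univ j)).trans hdvd)
        · rw [if_neg hj]
          exact Finset.mem_univ _
    refine (Finset.card_le_card h1).trans ((Finset.card_union_le _ _).trans ?_)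
    refine Nat.add_le_add ?_ ?_
    · rw [Fintype.card_piFinset]
      simp
    · refine (Finset.card_biUnion_le_card_mul _ _ (H.card * (q ^ M) ^ 7) ?_).trans ?_
      · intro i _
        rw [Fintype.card_piFinset]
        rw [← Finset.mul_prod_erase Finset.univ _ (Finset.mem_univ i)]
        rw [if_pos rfl]
        refine Nat.mul_le_mul_left _ ?_
        rw [Finset.prod_congr rfl (g := fun _ => q ^ M)]
        · rw [Finset.prod_const, Finset.card_erase_of_mem (Finset.mem_univ i), Finset.card_univ,
            Fintype.card_fin]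
        · intro j hj
          rw [if_neg (Finset.ne_of_mem_erase hj), Finset.card_univ, Fintype.card_fun,
            Fintype.card_fin]
      · rw [Finset.card_univ, Fintype.card_fin]
  have hGcompl : Gᶜ.card + G.card = q ^ M := by
    rw [Finset.card_compl_add_card, Fintype.card_fun, Fintype.card_fin]
  exact bad_arith q M _ Gᶜ.card G.card H.card hbad hGc hHc hGcompl hq

theorem card_bad_moduli [Fintype K] (κ Δ : ℕ) (𝒩 : Finset K[X])
    (h0 : ∀ N ∈ 𝒩, N ≠ 0 ∧ N.natDegree ≤ Δ) (hcard : 𝒩.card ≤ Fintype.card K ^ κ)
    (hΔ : Δ ≤ Fintype.card K ^ 3) (hq : 1000 ≤ Fintype.card K) :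
    8 * Nat.card {c : Fin 8 → Fin (2 * κ + 10) → K // ∃ N ∈ 𝒩, (∏ i, mpoly (c i)) ∣ N} ≤
      Fintype.card K ^ (8 * (2 * κ + 10)) :=
  card_bad_moduli' (fun _ hn => card_irreducible_ge hn) κ Δ 𝒩 h0 hcard hΔ hq

end Pool.Agent.BiFac

end
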