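import Pool.Agent.Work.TreeRAM.Nat
import Pool.Agent.Work.MP_8d07ed_lc.Bd.B02
import Pool.Agent.Work.MP_8d07ed_lc.Bd.B01
import Pool.Agent.Work.TreeRAM.List2

/-! Bundle of small proof modules (one section per former module). -/

section

/-!
# Naive arithmetic in `K[X]`: trimming, division, gcd, inverses, derivative

The algorithms work on reversed lists (leading coefficient first).
-/

set_option autoImplicit false

namespace Pool.Agent.BiFac

open Polynomial Pool.Agent.TreeRAM

variable {K : Type} [Field K]

/-! ### Leading coefficient first -/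

/-- The polynomial of a coefficient list, highest coefficient first. -/
noncomputable def toR (l : List K) : K[X] := toP l.reverse

@[simp] theorem toR_nil : toR ([] : List K) = 0 := rfl

theorem toR_cons (c : K) (l : List K) : toR (c :: l) = toR l + X ^ l.length * C c := by
  rw [toR, List.reverse_cons, toP_append, List.length_reverse]
  simp [toR]

theorem toR_reverse (l : List K) : toR l.reverse = toP l := by rw [toR, List.reverse_reverse]

theorem toP_reverse (l : List K) : toP l.reverse = toR l := rfl

theorem degree_toR_lt (l : List K) : (toR l).degree < l.length := by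
  have := degree_toP_lt l.reverse
  rwa [List.length_reverse] at this

theorem degree_toR_cons {c : K} (hc : c ≠ 0) (l : List K) :
    (toR (c :: l)).degree = l.length := by
  have h1 : (X ^ l.length * C c : K[X]).degree = l.length := by
    rw [degree_mul, degree_X_pow, degree_C hc, add_zero]
  rw [toR_cons, degree_add_eq_right_of_degree_lt, h1]
  rw [h1]
  exact degree_toR_lt l

theorem leadingCoeff_toR_cons {c : K} (hc : c ≠ 0) (l : List K) :
    (toR (c :: l)).leadingCoeff = c := by
  have h1 : (X ^ l.length * C c : K[X]).degree = l.length := by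
    rw [degree_mul, degree_X_pow, degree_C hc, add_zero]
  rw [toR_cons, leadingCoeff_add_of_degree_lt, leadingCoeff_mul, leadingCoeff_X_pow,
    leadingCoeff_C, one_mul]
  rw [h1]
  exact degree_toR_lt l

theorem natDegree_toR_cons {c : K} (hc : c ≠ 0) (l : List K) :
    (toR (c :: l)).natDegree = l.length := natDegree_eq_of_degree_eq_some (degree_toR_cons hc l)

theorem toR_cons_ne_zero {c : K} (hc : c ≠ 0) (l : List K) : toR (c :: l) ≠ 0 := by
  intro h
  have := leadingCoeff_toR_cons hc l
  rw [h, leadingCoeff_zero] at this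
  exact hc this.symm

theorem toR_smulP (c : K) (l : List K) : toR (smulP c l) = C c * toR l := by
  rw [toR, toR, smulP, ← List.map_reverse]
  exact toP_smulP c l.reverse

theorem eq_of_toP_eq {a b : List K} (hl : a.length = b.length) (h : toP a = toP b) : a = b := by
  refine List.ext_getElem hl (fun i h1 h2 => ?_)
  have := congrArg (fun p : K[X] => p.coeff i) h
  simp only [coeff_toP] at this
  rwa [List.getD_eq_getElem _ _ h1, List.getD_eq_getElem _ _ h2] at this

/-- The leading coefficient is not zero (or the list is empty). -/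
def Canon (l : List K) : Prop := l.headD 1 ≠ 0

theorem canon_nil : Canon ([] : List K) := by
  show (1 : K) ≠ 0
  exact one_ne_zero

theorem canon_cons {c : K} {l : List K} : Canon (c :: l) ↔ c ≠ 0 := Iff.rfl

/-! ### Trimming -/

/-- Remove zeros at the beginning. -/
def trimR [DecidableEq K] : List K → List K
  | [] => []
  | c :: t => if c = 0 then trimR t else c :: t

/-- Remove zeros at the end. -/
def trimP [DecidableEq K] (a : List K) : List K := (trimR a.reverse).reverse

section trim

variable [DecidableEq K]

theorem toR_trimR (l : List K) : toR (trimR l) = toR l := by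
  induction l with
  | nil => rfl
  | cons c t ih =>
    rw [trimR]
    split_ifs with h
    · rw [ih, toR_cons, h, C_0, mul_zero, add_zero]
    · rfl

theorem canon_trimR (l : List K) : Canon (trimR l) := by
  induction l with
  | nil => exact canon_nil
  | cons c t ih =>
    rw [trimR]
    split_ifs with h
    · exact ih
    · exact h

theorem length_trimR_le (l : List K) : (trimR l).length ≤ l.length := by
  induction l with
  | nil => simp [trimR]
  | cons c t ih =>
    rw [trimR]
    split_ifs with h
    · rw [List.length_cons]; omega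
    · exact le_rfl

theorem trimR_of_canon {l : List K} (h : Canon l) : trimR l = l := by
  cases l with
  | nil => rfl
  | cons c t => rw [trimR, if_neg (canon_cons.1 h)]

theorem length_of_canon {l : List K} (h : Canon l) :
    l.length = if toR l = 0 then 0 else (toR l).natDegree + 1 := by
  cases l with
  | nil => simp
  | cons c t =>
    rw [if_neg (toR_cons_ne_zero (canon_cons.1 h) t), natDegree_toR_cons (canon_cons.1 h)]
    rfl

theorem toP_trimP (a : List K) : toP (trimP a) = toP a := by
  rw [trimP, toP_reverse, toR_trimR, toR_reverse]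

theorem length_trimP (a : List K) :
    (trimP a).length = if toP a = 0 then 0 else (toP a).natDegree + 1 := by
  rw [trimP, List.length_reverse, length_of_canon (canon_trimR _), toR_trimR, toR_reverse]

theorem length_trimP_le (a : List K) : (trimP a).length ≤ a.length := by
  rw [trimP, List.length_reverse]
  exact (length_trimR_le _).trans (List.length_reverse).le

theorem trimP_eq_of_toP_eq {a b : List K} (h : toP a = toP b) : trimP a = trimP b :=
  eq_of_toP_eq (by rw [length_trimP, length_trimP, h]) (by rw [toP_trimP, toP_trimP, h])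

theorem trimP_trimP (a : List K) : trimP (trimP a) = trimP a :=
  trimP_eq_of_toP_eq (toP_trimP a)

end trim

theorem trimR_ex : ∃ c, ∀ (K : Type) [Field K] [DecidableEq K],
    Comp K (fun a : List K => trimR a) c (fun a => a.length) :=
  ⟨_, fun K _ _ => (Comp.rec1 (K := K)
    (isLeaf := fun z : List K => !decide (z.headD 1 = 0))
    (leaf := fun z => z) (next := fun z => z.tail)
    (join := fun _ r => r)
    (T := fun z => 2 * z.length)
    (fun z => z.length)
    (by
      rintro z h
      cases z with
      | nil => rfl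
      | cons c t =>
        simp only [List.headD_cons, Bool.not_eq_true'] at h
        rw [trimR, if_neg (of_decide_eq_false h)])
    (by
      rintro z h
      cases z with
      | nil => simp at h
      | cons c t =>
        simp only [List.headD_cons, Bool.not_eq_false'] at h
        rw [trimR, if_pos (of_decide_eq_true h), List.tail_cons])
    (by
      rintro z h
      cases z with
      | nil => simp at h
      | cons c t => simp)
    (by rintro z h; simp)
    (by
      rintro z h
      cases z with
      | nil => simp at h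
      | cons c t => simp only [List.tail_cons, List.length_cons]; omega)).bigO 2
      (fun z => by omega)⟩

noncomputable def trimRCd : Cd := trimR_ex.choose

instance compTrimR [DecidableEq K] {α : Type} [Enc K α] {f : α → List K} {c : Cd} {T : α → ℕ}
    [h : Comp K f c T] : Comp K (fun x => trimR (f x)) (trimRCd.comp c)
      (fun x => T x + (f x).length) :=
  (trimR_ex.choose_spec K).app1 h

instance compTrimR_eta [DecidableEq K] : Comp K (trimR : List K → List K) (trimRCd.comp Cd.id)
    (fun l => 0 + l.length) := compTrimR (f := fun x : List K => x)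

theorem trimP_ex : ∃ c, ∀ (K : Type) [Field K] [DecidableEq K],
    Comp K (fun a : List K => trimP a) c (fun a => a.length) :=
  ⟨_, fun K _ _ => ((Comp.reverse (K := K)
    (f := fun a : List K => trimR a.reverse)).congr (fun _ => rfl)).bigO 3 (fun a => by
      have := length_trimR_le a.reverse
      simp only [List.length_reverse] at this ⊢
      omega)⟩

noncomputable def trimPCd : Cd := trimP_ex.choose

instance compTrimP [DecidableEq K] {α : Type} [Enc K α] {f : α → List K} {c : Cd} {T : α → ℕ}
    [h : Comp K f c T] : Comp K (fun x => trimP (f x)) (trimPCd.comp c)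
      (fun x => T x + (f x).length) :=
  (trimP_ex.choose_spec K).app1 h

instance compTrimP_eta [DecidableEq K] : Comp K (trimP : List K → List K) (trimPCd.comp Cd.id)
    (fun l => 0 + l.length) := compTrimP (f := fun x : List K => x)

/-! ### `take` -/

/-- The first `n` entries. -/
def takeL (n : ℕ) (l : List K) : List K := l.take n

theorem takeL_ex : ∃ c, ∀ (K : Type) [Field K],
    Comp K (fun z : ℕ × List K => takeL z.1 z.2) c (fun z => z.1) :=
  ⟨_, fun K _ => (Comp.rec1 (K := K)
    (isLeaf := fun z : ℕ × List K => decide (z.1 = 0) || z.2.isEmpty)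
    (leaf := fun _ => []) (next := fun z => (z.1 - 1, z.2.tail))
    (join := fun z r => z.2.headD 0 :: r)
    (T := fun z => 2 * z.1)
    (fun z => z.1)
    (by rintro ⟨n, m⟩ h; cases n <;> cases m <;> simp_all [takeL])
    (by rintro ⟨n, m⟩ h; cases n <;> cases m <;> simp_all [takeL])
    (by rintro ⟨n, m⟩ h; cases n <;> cases m <;> simp_all)
    (by rintro ⟨n, m⟩ h; cases n <;> cases m <;> simp_all)
    (by rintro ⟨n, m⟩ h; cases n <;> cases m <;> simp_all; omega)).bigO 2 (fun z => by omega)⟩

noncomputable def takeLCd : Cd := takeL_ex.choose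

instance compTakeL {α : Type} [Enc K α] {f : α → ℕ} {g : α → List K} {c d : Cd} {T T' : α → ℕ}
    [h : Comp K f c T] [h' : Comp K g d T'] : Comp K (fun x => takeL (f x) (g x))
      (takeLCd.comp (c.pair d)) (fun x => T x + T' x + f x) :=
  (takeL_ex.choose_spec K).app2 h h'

omit [Field K] in
theorem length_takeL_le (n : ℕ) (l : List K) : (takeL n l).length ≤ n := by
  rw [takeL, List.length_take]
  exact min_le_left _ _

theorem toP_takeL {n : ℕ} {l : List K} (h : (toP l).degree < n) : toP (takeL n l) = toP l := by
  ext i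
  rw [coeff_toP, takeL, List.getD_eq_getElem?_getD, List.getElem?_take]
  split_ifs with hi
  · rw [coeff_toP, List.getD_eq_getElem?_getD]
  · rw [coeff_eq_zero_of_degree_lt (h.trans_le (by exact_mod_cast not_lt.1 hi))]
    rfl

/-! ### Division -/

/-- Subtract `q` times `b` from the beginning of `t`. -/
def subAl (q : K) : List K → List K → List K
  | [], t => t
  | _ :: _, [] => []
  | b :: bt, y :: t => (y - q * b) :: subAl q bt t

theorem subAl_nil (q : K) (b : List K) : subAl q b [] = [] := by cases b <;> rfl

theorem length_subAl (q : K) (b t : List K) : (subAl q b t).length = t.length := by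
  induction b generalizing t with
  | nil => rfl
  | cons b bt ih =>
    cases t with
    | nil => rfl
    | cons y t => rw [subAl, List.length_cons, ih, List.length_cons]

theorem toR_subAl (q : K) (b t : List K) (n : ℕ) (h : t.length = n + b.length) :
    toR (subAl q b t) = toR t - X ^ n * C q * toR b := by
  induction b generalizing t with
  | nil => simp [subAl]
  | cons b bt ih =>
    cases t with
    | nil => simp at h
    | cons y t =>
      simp only [List.length_cons] at h
      have h' : t.length = n + bt.length := by omega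
      rw [subAl, toR_cons, ih t h', length_subAl, toR_cons, toR_cons, h', pow_add, C_sub, C_mul]
      ring

/-- `n` steps of the division of `ar` by `c :: bt`, where `ci` is the inverse of `c`. -/
def divAux (ci : K) (bt : List K) : ℕ → List K → List K × List K
  | 0, ar => ([], ar)
  | _ + 1, [] => ([], [])
  | n + 1, x :: t =>
    ((x * ci) :: (divAux ci bt n (subAl (x * ci) bt t)).1,
      (divAux ci bt n (subAl (x * ci) bt t)).2)

theorem length_divAux_fst (ci : K) (bt : List K) (n : ℕ) (ar : List K) :
    (divAux ci bt n ar).1.length = min n ar.length := by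
  induction n generalizing ar with
  | zero => simp [divAux]
  | succ n ih =>
    cases ar with
    | nil => simp [divAux]
    | cons x t =>
      simp only [divAux, List.length_cons, ih, length_subAl]
      omega

theorem length_divAux_snd (ci : K) (bt : List K) (n : ℕ) (ar : List K) :
    (divAux ci bt n ar).2.length = ar.length - n := by
  induction n generalizing ar with
  | zero => simp [divAux]
  | succ n ih =>
    cases ar with
    | nil => simp [divAux]
    | cons x t =>
      simp only [divAux, List.length_cons, ih, length_subAl]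
      omega

theorem toR_divAux {c ci : K} (hc : ci * c = 1) (bt : List K) (n : ℕ) (ar : List K)
    (h : ar.length = n + bt.length) :
    toR ar = toR (divAux ci bt n ar).1 * toR (c :: bt) + toR (divAux ci bt n ar).2 := by
  induction n generalizing ar with
  | zero => simp [divAux]
  | succ n ih =>
    cases ar with
    | nil =>
      rw [List.length_nil] at h
      omega
    | cons x t =>
      have h' : t.length = n + bt.length := by
        rw [List.length_cons] at h
        omega
      have h1 := ih (subAl (x * ci) bt t) (by rw [length_subAl, h'])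
      rw [toR_subAl _ _ _ n h'] at h1
      have h2 := length_divAux_fst ci bt n (subAl (x * ci) bt t)
      rw [length_subAl, h', min_eq_left (by omega)] at h2
      simp only [divAux]
      rw [toR_cons (x * ci), h2, add_mul, toR_cons x t, h', pow_add]
      have h3 : X ^ n * C (x * ci) * toR (c :: bt) = X ^ n * C (x * ci) * toR bt +
          X ^ n * X ^ bt.length * C x := by
        rw [toR_cons, mul_add]
        have : C (x * ci) * C c = (C x : K[X]) := by
          rw [← C_mul, mul_assoc, hc, mul_one]
        rw [← this]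
        ring
      rw [h3]
      linear_combination h1

/-- Division with remainder, leading coefficients first. -/
def divR (ar br : List K) : List K × List K :=
  lcase br ([], ar) (fun c bt => divAux c⁻¹ bt (ar.length - bt.length) ar)

theorem length_divR_fst (ar br : List K) : (divR ar br).1.length ≤ ar.length + 1 - br.length := by
  cases br with
  | nil => simp [divR]
  | cons c bt =>
    rw [divR, lcase_cons, length_divAux_fst, List.length_cons]
    omega

theorem length_divR_snd_le (ar br : List K) : (divR ar br).2.length ≤ ar.length := by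
  cases br with
  | nil => simp [divR]
  | cons c bt =>
    rw [divR, lcase_cons, length_divAux_snd]
    omega

theorem length_divR_snd_cons (ar : List K) (c : K) (bt : List K) :
    (divR ar (c :: bt)).2.length ≤ bt.length := by
  rw [divR, lcase_cons, length_divAux_snd]
  omega

theorem toR_divR {c : K} (hc : c ≠ 0) (ar bt : List K) :
    toR ar = toR (divR ar (c :: bt)).1 * toR (c :: bt) + toR (divR ar (c :: bt)).2 := by
  rw [divR, lcase_cons]
  rcases le_or_gt bt.length ar.length with h | h
  · exact toR_divAux (inv_mul_cancel₀ hc) _ _ _ (by omega)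
  · have : ar.length - bt.length = 0 := by omega
    rw [this]
    simp [divAux]

theorem div_mod_unique {a b q r : K[X]} (hb : b ≠ 0) (h : a = q * b + r)
    (hr : r.degree < b.degree) : a / b = q ∧ a % b = r := by
  have h1 : a % b = r := by
    have h2 : r % b = r := (mod_eq_self_iff hb).2 hr
    rw [h, add_mod, h2]
    have : q * b % b = 0 := (EuclideanDomain.mod_eq_zero).2 (dvd_mul_left _ _)
    rw [this, zero_add]
  refine ⟨?_, h1⟩
  have h3 := EuclideanDomain.div_add_mod a b
  rw [h1] at h3
  have h4 : b * (a / b) = b * q := by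
    rw [h] at h3 ⊢
    linear_combination h3
  exact mul_left_cancel₀ hb h4

section divN

variable [DecidableEq K]

/-- Quotient. -/
def divN (a b : List K) : List K :=
  trimP (divR (trimR a.reverse) (trimR b.reverse)).1.reverse

/-- Remainder. -/
def modN (a b : List K) : List K :=
  trimP (divR (trimR a.reverse) (trimR b.reverse)).2.reverse

theorem toP_divN_modN (a b : List K) :
    toP (divN a b) = toP a / toP b ∧ toP (modN a b) = toP a % toP b := by
  rw [divN, modN, toP_trimP, toP_trimP, toP_reverse, toP_reverse]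
  have ha : toR (trimR a.reverse) = toP a := by rw [toR_trimR, toR_reverse]
  have hb : toR (trimR b.reverse) = toP b := by rw [toR_trimR, toR_reverse]
  have hcan := canon_trimR b.reverse
  cases hbr : trimR b.reverse with
  | nil =>
    rw [hbr, toR_nil] at hb
    rw [← hb, divR, lcase_nil, EuclideanDomain.div_zero, EuclideanDomain.mod_zero]
    exact ⟨rfl, ha⟩
  | cons c bt =>
    rw [hbr] at hb hcan
    have hc : c ≠ 0 := canon_cons.1 hcan
    have h1 := toR_divR hc (trimR a.reverse) bt
    rw [ha, hb] at h1
    have h2 : toP b ≠ 0 := by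
      rw [← hb]
      exact toR_cons_ne_zero hc bt
    have h3 := div_mod_unique h2 h1 (by
      rw [← hb, degree_toR_cons hc]
      refine (degree_toR_lt _).trans_le ?_
      exact_mod_cast length_divR_snd_cons _ _ _)
    exact ⟨h3.1.symm, h3.2.symm⟩

theorem toP_divN (a b : List K) : toP (divN a b) = toP a / toP b := (toP_divN_modN a b).1

theorem toP_modN (a b : List K) : toP (modN a b) = toP a % toP b := (toP_divN_modN a b).2

theorem trim_divN (a b : List K) : trimP (divN a b) = divN a b := trimP_trimP _

theorem trim_modN (a b : List K) : trimP (modN a b) = modN a b := trimP_trimP _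

end divN

/-! ### Costs of the division -/

theorem subAl_ex : ∃ c, ∀ (K : Type) [Field K],
    Comp K (fun z : K × (List K × List K) => subAl z.1 z.2.1 z.2.2) c
      (fun z => z.2.1.length) :=
  ⟨_, fun K _ => (Comp.rec1 (K := K)
    (isLeaf := fun z : K × (List K × List K) => z.2.1.isEmpty || z.2.2.isEmpty)
    (leaf := fun z => z.2.2) (next := fun z => (z.1, (z.2.1.tail, z.2.2.tail)))
    (join := fun z r => (z.2.2.headD 0 - z.1 * z.2.1.headD 0) :: r)
    (T := fun z => 2 * z.2.1.length)
    (fun z => z.2.1.length)
    (by rintro ⟨q, l, m⟩ h; cases l <;> cases m <;> simp_all [subAl])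
    (by rintro ⟨q, l, m⟩ h; cases l <;> cases m <;> simp_all [subAl])
    (by rintro ⟨q, l, m⟩ h; cases l <;> cases m <;> simp_all)
    (by rintro ⟨q, l, m⟩ h; cases l <;> cases m <;> simp_all)
    (by rintro ⟨q, l, m⟩ h; cases l <;> cases m <;> simp_all; omega)).bigO 2
      (fun z => by omega)⟩

noncomputable def subAlCd : Cd := subAl_ex.choose

instance compSubAl {α : Type} [Enc K α] {q : α → K} {f g : α → List K} {c c' d : Cd}
    {T T' T'' : α → ℕ} [h : Comp K q c T] [h' : Comp K f c' T'] [h'' : Comp K g d T''] :
    Comp K (fun x => subAl (q x) (f x) (g x)) (subAlCd.comp (c.pair (c'.pair d)))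
      (fun x => T x + (T' x + T'' x) + (f x).length) :=
  (subAl_ex.choose_spec K).app2 (f' := fun x => (f x, g x)) h (Comp.pair (h := h') (h' := h''))

theorem divAux_ex : ∃ c, ∀ (K : Type) [Field K],
    Comp K (fun z : K × (List K × (ℕ × List K)) => divAux z.1 z.2.1 z.2.2.1 z.2.2.2) c
      (fun z => z.2.2.1 * (z.2.1.length + 1)) :=
  ⟨_, fun K _ => (Comp.rec1 (K := K)
    (isLeaf := fun z : K × (List K × (ℕ × List K)) => decide (z.2.2.1 = 0) || z.2.2.2.isEmpty)
    (leaf := fun z => (([] : List K), z.2.2.2))
    (next := fun z => (z.1, (z.2.1, (z.2.2.1 - 1,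
      lcase z.2.2.2 [] (fun x t => subAl (x * z.1) z.2.1 t)))))
    (join := fun z r => ((z.2.2.2.headD 0 * z.1) :: r.1, r.2))
    (T := fun z => z.2.2.1 * (z.2.1.length + 2))
    (fun z => z.2.2.1)
    (by rintro ⟨q, l, n, m⟩ h; cases n <;> cases m <;> simp_all [divAux])
    (by rintro ⟨q, l, n, m⟩ h; cases n <;> cases m <;> simp_all [divAux])
    (by rintro ⟨q, l, n, m⟩ h; cases n <;> cases m <;> simp_all)
    (by rintro ⟨q, l, n, m⟩ h; cases n <;> cases m <;> simp_all)
    (by
      rintro ⟨q, l, n, m⟩ h
      cases n with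
      | zero => simp at h
      | succ n =>
        cases m with
        | nil => simp at h
        | cons x t =>
          simp only [lcase_cons, Nat.add_sub_cancel]
          have : (n + 1) * (l.length + 2) = n * (l.length + 2) + (l.length + 2) := by ring
          omega)).bigO 2
      (fun z => by nlinarith [Nat.zero_le (z.2.2.1 * z.2.1.length)])⟩

noncomputable def divAuxCd : Cd := divAux_ex.choose

instance compDivAux {α : Type} [Enc K α] {q : α → K} {f : α → List K} {n : α → ℕ}
    {g : α → List K} {c1 c2 c3 c4 : Cd} {T1 T2 T3 T4 : α → ℕ} [h1 : Comp K q c1 T1]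
    [h2 : Comp K f c2 T2] [h3 : Comp K n c3 T3] [h4 : Comp K g c4 T4] :
    Comp K (fun x => divAux (q x) (f x) (n x) (g x))
      (divAuxCd.comp (c1.pair (c2.pair (c3.pair c4))))
      (fun x => T1 x + (T2 x + (T3 x + T4 x)) + n x * ((f x).length + 1)) :=
  (divAux_ex.choose_spec K).app2 (f' := fun x => (f x, (n x, g x))) h1
    (Comp.pair (h := h2) (h' := Comp.pair (h := h3) (h' := h4)))

theorem divR_ex : ∃ c, ∀ (K : Type) [Field K],
    Comp K (fun z : List K × List K => divR z.1 z.2) c
      (fun z => (z.1.length + 1 - z.2.length) * (z.2.length + 1) + z.1.length + z.2.length) :=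
  ⟨_, fun K _ => (Comp.lcase (K := K) (l := fun z : List K × List K => z.2)
    (f := fun z => (([] : List K), z.1))
    (g := fun z c bt => divAux c⁻¹ bt (z.1.length - bt.length) z.1)).bigO 3 (fun z => by
      obtain ⟨a, b⟩ := z
      cases b with
      | nil =>
        simp only [lcase_nil]
        omega
      | cons c bt =>
        simp only [lcase_cons, List.length_cons]
        have h1 : a.length + 1 - (bt.length + 1) = a.length - bt.length := by omega
        rw [h1]
        have h2 : (a.length - bt.length) * (bt.length + 1) ≤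
          (a.length - bt.length) * (bt.length + 1 + 1) := Nat.mul_le_mul_left _ (by omega)
        omega)⟩

noncomputable def divRCd : Cd := divR_ex.choose

instance compDivR {α : Type} [Enc K α] {f g : α → List K} {c d : Cd} {T T' : α → ℕ}
    [h : Comp K f c T] [h' : Comp K g d T'] : Comp K (fun x => divR (f x) (g x))
      (divRCd.comp (c.pair d))
      (fun x => T x + T' x + (((f x).length + 1 - (g x).length) * ((g x).length + 1) +
        (f x).length + (g x).length)) :=
  (divR_ex.choose_spec K).app2 h h'

theorem divN_ex : ∃ c, ∀ (K : Type) [Field K] [DecidableEq K],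
    Comp K (fun z : List K × List K => divN z.1 z.2) c
      (fun z => (z.1.length + 1) * (z.2.length + 1)) :=
  ⟨_, fun K _ _ => ((compTrimP (K := K) (f := fun z : List K × List K =>
    (divR (trimR z.1.reverse) (trimR z.2.reverse)).1.reverse)).congr
    (fun _ => rfl)).bigO 20 (fun z => by
      obtain ⟨a, b⟩ := z
      have h1 := length_trimR_le a.reverse
      have h2 := length_trimR_le b.reverse
      have h3 := length_divR_fst (trimR a.reverse) (trimR b.reverse)
      simp only [List.length_reverse] at h1 h2 ⊢
      have h4 : ((trimR a.reverse).length + 1 - (trimR b.reverse).length) *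
        ((trimR b.reverse).length + 1) ≤ (a.length + 1) * (b.length + 1) :=
        Nat.mul_le_mul (by omega) (by omega)
      have h5 : a.length + b.length + 1 ≤ (a.length + 1) * (b.length + 1) := by
        nlinarith [Nat.zero_le (a.length * b.length)]
      omega)⟩

noncomputable def divNCd : Cd := divN_ex.choose

instance compDivN [DecidableEq K] {α : Type} [Enc K α] {f g : α → List K} {c d : Cd}
    {T T' : α → ℕ} [h : Comp K f c T] [h' : Comp K g d T'] :
    Comp K (fun x => divN (f x) (g x)) (divNCd.comp (c.pair d))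
      (fun x => T x + T' x + ((f x).length + 1) * ((g x).length + 1)) :=
  (divN_ex.choose_spec K).app2 h h'

theorem modN_ex : ∃ c, ∀ (K : Type) [Field K] [DecidableEq K],
    Comp K (fun z : List K × List K => modN z.1 z.2) c
      (fun z => (z.1.length + 1) * (z.2.length + 1)) :=
  ⟨_, fun K _ _ => ((compTrimP (K := K) (f := fun z : List K × List K =>
    (divR (trimR z.1.reverse) (trimR z.2.reverse)).2.reverse)).congr
    (fun _ => rfl)).bigO 20 (fun z => by
      obtain ⟨a, b⟩ := z
      have h1 := length_trimR_le a.reverse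
      have h2 := length_trimR_le b.reverse
      have h3 := length_divR_snd_le (trimR a.reverse) (trimR b.reverse)
      simp only [List.length_reverse] at h1 h2 ⊢
      have h4 : ((trimR a.reverse).length + 1 - (trimR b.reverse).length) *
        ((trimR b.reverse).length + 1) ≤ (a.length + 1) * (b.length + 1) :=
        Nat.mul_le_mul (by omega) (by omega)
      have h5 : a.length + b.length + 1 ≤ (a.length + 1) * (b.length + 1) := by
        nlinarith [Nat.zero_le (a.length * b.length)]
      omega)⟩

noncomputable def modNCd : Cd := modN_ex.choose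

instance compModN [DecidableEq K] {α : Type} [Enc K α] {f g : α → List K} {c d : Cd}
    {T T' : α → ℕ} [h : Comp K f c T] [h' : Comp K g d T'] :
    Comp K (fun x => modN (f x) (g x)) (modNCd.comp (c.pair d))
      (fun x => T x + T' x + ((f x).length + 1) * ((g x).length + 1)) :=
  (modN_ex.choose_spec K).app2 h h'

/-! ### Extended Euclidean algorithm -/

section bez

variable [DecidableEq K]

/-- The remainder, trimmed. -/
def remR (ar br : List K) : List K := trimR (divR ar br).2

theorem length_remR_le (ar br : List K) : (remR ar br).length ≤ ar.length :=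
  (length_trimR_le _).trans (length_divR_snd_le _ _)

theorem length_remR_lt (ar : List K) (c : K) (bt : List K) :
    (remR ar (c :: bt)).length < (c :: bt).length := by
  have h1 := length_trimR_le (divR ar (c :: bt)).2
  have h2 := length_divR_snd_cons ar c bt
  rw [remR, List.length_cons]
  omega

/-- Combination of the result of the recursive call. -/
def bezJoin (ar br : List K) (r : List K × (List K × List K)) : List K × (List K × List K) :=
  (r.1, (r.2.2, takeL (ar.length + 1) (subP r.2.1 (mulN (divR ar br).1.reverse r.2.2))))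

/-- Extended Euclidean algorithm: the greatest common divisor (highest coefficient first) and
the two cofactors (lowest coefficient first). -/
def bezR (ar : List K) : List K → List K × (List K × List K)
  | [] => (ar, ([1], []))
  | c :: bt => bezJoin ar (c :: bt) (bezR (c :: bt) (remR ar (c :: bt)))
termination_by br => br.length
decreasing_by exact length_remR_lt ar c bt

theorem bezR_nil (ar : List K) : bezR ar [] = (ar, ([1], [])) := by rw [bezR]

theorem bezR_cons (ar : List K) (c : K) (bt : List K) :
    bezR ar (c :: bt) = bezJoin ar (c :: bt) (bezR (c :: bt) (remR ar (c :: bt))) := by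
  rw [bezR]

/-- Induction along the Euclidean algorithm. -/
theorem bez_induction {P : List K → List K → Prop} (h0 : ∀ ar, P ar [])
    (h1 : ∀ ar c bt, P (c :: bt) (remR ar (c :: bt)) → P ar (c :: bt)) (ar br : List K) :
    P ar br := by
  have main : ∀ n : ℕ, ∀ ar br : List K, br.length < n → P ar br := by
    intro n
    induction n with
    | zero => intro ar br h; omega
    | succ n ih =>
      intro ar br h
      cases br with
      | nil => exact h0 ar
      | cons c bt =>
        refine h1 ar c bt (ih _ _ ?_)
        have := length_remR_lt ar c bt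
        omega
  exact main (br.length + 1) ar br (Nat.lt_succ_self _)

theorem length_bezR_g (ar br : List K) : (bezR ar br).1.length ≤ max ar.length br.length := by
  refine bez_induction (P := fun ar br => (bezR ar br).1.length ≤ max ar.length br.length)
    ?_ ?_ ar br
  · intro ar
    rw [bezR_nil]
    exact le_max_left _ _
  · intro ar c bt h
    rw [bezR_cons]
    have := length_remR_lt ar c bt
    simp only [bezJoin]
    omega

theorem length_bezR_v (ar br : List K) : (bezR ar br).2.2.length ≤ ar.length + 1 := by
  cases br with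
  | nil => rw [bezR_nil]; simp
  | cons c bt =>
    rw [bezR_cons]
    exact length_takeL_le _ _

theorem length_bezR_u (ar br : List K) : (bezR ar br).2.1.length ≤ br.length + 1 := by
  cases br with
  | nil => rw [bezR_nil]; simp
  | cons c bt =>
    rw [bezR_cons]
    exact length_bezR_v _ _

theorem canon_bezR (ar br : List K) (ha : Canon ar) (hb : Canon br) : Canon (bezR ar br).1 := by
  revert ha hb
  refine bez_induction (P := fun ar br => Canon ar → Canon br → Canon (bezR ar br).1)
    ?_ ?_ ar br
  · intro ar ha _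
    rw [bezR_nil]
    exact ha
  · intro ar c bt h ha hb
    rw [bezR_cons]
    exact h hb (canon_trimR _)

theorem toR_remR {c : K} (hc : c ≠ 0) (ar bt : List K) :
    toR ar = toR (divR ar (c :: bt)).1 * toR (c :: bt) + toR (remR ar (c :: bt)) := by
  rw [remR, toR_trimR]
  exact toR_divR hc ar bt

theorem dvd_bezR (h : K[X]) (ar br : List K) (hb : Canon br) (h1 : h ∣ toR ar)
    (h2 : h ∣ toR br) : h ∣ toR (bezR ar br).1 := by
  revert hb h1 h2
  refine bez_induction (P := fun ar br => Canon br → h ∣ toR ar → h ∣ toR br →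
    h ∣ toR (bezR ar br).1) ?_ ?_ ar br
  · intro ar _ h1 _
    rw [bezR_nil]
    exact h1
  · intro ar c bt ih hb h1 h2
    rw [bezR_cons]
    refine ih (canon_trimR _) h2 ?_
    rw [toR_remR (canon_cons.1 hb) ar bt] at h1
    exact (dvd_add_right (h2.mul_left _)).1 h1

theorem bezR_dvd (ar br : List K) (hb : Canon br) :
    toR (bezR ar br).1 ∣ toR ar ∧ toR (bezR ar br).1 ∣ toR br := by
  revert hb
  refine bez_induction (P := fun ar br => Canon br →
    toR (bezR ar br).1 ∣ toR ar ∧ toR (bezR ar br).1 ∣ toR br) ?_ ?_ ar br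
  · intro ar _
    rw [bezR_nil]
    exact ⟨dvd_rfl, by rw [toR_nil]; exact dvd_zero _⟩
  · intro ar c bt ih hb
    rw [bezR_cons]
    have h1 := ih (canon_trimR _)
    refine ⟨?_, h1.1⟩
    rw [toR_remR (canon_cons.1 hb) ar bt]
    exact dvd_add (h1.1.mul_left _) h1.2

omit [DecidableEq K] in
theorem degree_toP_le_of_length {l : List K} {n : ℕ} (h : l.length ≤ n) :
    (toP l).degree < n := (degree_toP_lt l).trans_le (by exact_mod_cast h)

theorem bezR_bezout (ar br : List K) (hb : Canon br) :
    toP (bezR ar br).2.1 * toR ar + toP (bezR ar br).2.2 * toR br = toR (bezR ar br).1 := by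
  revert hb
  refine bez_induction (P := fun ar br => Canon br →
    toP (bezR ar br).2.1 * toR ar + toP (bezR ar br).2.2 * toR br = toR (bezR ar br).1)
    ?_ ?_ ar br
  · intro ar _
    rw [bezR_nil]
    simp
  · intro ar c bt ih hb
    have h1 := ih (canon_trimR _)
    have h2 := toR_remR (canon_cons.1 hb) ar bt
    have h3 : toP (takeL (ar.length + 1) (subP (bezR (c :: bt) (remR ar (c :: bt))).2.1
        (mulN (divR ar (c :: bt)).1.reverse (bezR (c :: bt) (remR ar (c :: bt))).2.2))) =
        toP (bezR (c :: bt) (remR ar (c :: bt))).2.1 - toR (divR ar (c :: bt)).1 *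
          toP (bezR (c :: bt) (remR ar (c :: bt))).2.2 := by
      rw [toP_takeL, toP_subP, toP_mulN, toP_reverse]
      rw [toP_subP, toP_mulN, toP_reverse]
      refine (degree_sub_le _ _).trans_lt (max_lt ?_ ?_)
      · refine degree_toP_le_of_length ((length_bezR_u _ _).trans ?_)
        have := length_remR_le ar (c :: bt)
        omega
      · rcases Nat.lt_or_ge ar.length (bt.length + 1) with h | h
        · have h4 := length_divR_fst ar (c :: bt)
          rw [List.length_cons] at h4
          have h5 : (divR ar (c :: bt)).1 = [] := List.eq_nil_of_length_eq_zero (by omega)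
          rw [h5, toR_nil, zero_mul, degree_zero]
          exact WithBot.bot_lt_coe _
        · have h4 := length_divR_fst ar (c :: bt)
          have h5 := length_bezR_v (c :: bt) (remR ar (c :: bt))
          rw [List.length_cons] at h4 h5
          by_cases h6 : toR (divR ar (c :: bt)).1 = 0
          · rw [h6, zero_mul, degree_zero]
            exact WithBot.bot_lt_coe _
          by_cases h7 : toP (bezR (c :: bt) (remR ar (c :: bt))).2.2 = 0
          · rw [h7, mul_zero, degree_zero]
            exact WithBot.bot_lt_coe _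
          have h8 := degree_toR_lt (divR ar (c :: bt)).1
          have h9 := degree_toP_lt (bezR (c :: bt) (remR ar (c :: bt))).2.2
          rw [degree_eq_natDegree h6] at h8
          rw [degree_eq_natDegree h7] at h9
          rw [degree_mul, degree_eq_natDegree h6, degree_eq_natDegree h7]
          have h8' := Nat.cast_lt.1 h8
          have h9' := Nat.cast_lt.1 h9
          exact_mod_cast (by omega : (toR (divR ar (c :: bt)).1).natDegree +
            (toP (bezR (c :: bt) (remR ar (c :: bt))).2.2).natDegree < ar.length + 1)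
    rw [bezR_cons]
    simp only [bezJoin]
    rw [h3, ← h1]
    linear_combination toP (bezR (c :: bt) (remR ar (c :: bt))).2.2 * h2

end bez

/-! ### Cost of the Euclidean algorithm -/

theorem remR_ex : ∃ c, ∀ (K : Type) [Field K] [DecidableEq K],
    Comp K (fun z : List K × List K => remR z.1 z.2) c
      (fun z => (z.1.length + 1 - z.2.length) * (z.2.length + 1) + z.1.length + z.2.length) :=
  ⟨_, fun K _ _ => ((compTrimR (K := K) (f := fun z : List K × List K =>
    (divR z.1 z.2).2)).congr (fun _ => rfl)).bigO 2 (fun z => by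
      have := length_divR_snd_le z.1 z.2
      omega)⟩

noncomputable def remRCd : Cd := remR_ex.choose

instance compRemR [DecidableEq K] {α : Type} [Enc K α] {f g : α → List K} {c d : Cd}
    {T T' : α → ℕ} [h : Comp K f c T] [h' : Comp K g d T'] :
    Comp K (fun x => remR (f x) (g x)) (remRCd.comp (c.pair d))
      (fun x => T x + T' x + (((f x).length + 1 - (g x).length) * ((g x).length + 1) +
        (f x).length + (g x).length)) :=
  (remR_ex.choose_spec K).app2 h h'

theorem bezJoin_ex : ∃ c, ∀ (K : Type) [Field K] [DecidableEq K],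
    Comp K (fun z : (List K × List K) × (List K × (List K × List K)) =>
      bezJoin z.1.1 z.1.2 z.2) c
      (fun z => (z.1.1.length + 1 - z.1.2.length + 1) * (z.1.2.length + z.2.2.2.length + 1) +
        z.1.1.length + z.1.2.length + z.2.2.1.length) :=
  ⟨_, fun K _ _ => ((Comp.pair (K := K)
    (f := fun z : (List K × List K) × (List K × (List K × List K)) => z.2.1)
    (g := fun z => (z.2.2.2, takeL (z.1.1.length + 1) (subP z.2.2.1
      (mulN (divR z.1.1 z.1.2).1.reverse z.2.2.2))))).congr
    (fun _ => rfl)).bigO 20 (fun z => by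
      obtain ⟨⟨a, b⟩, g, u, v⟩ := z
      have h1 := length_divR_fst a b
      have h2 := length_mulN (divR a b).1.reverse v
      simp only [List.length_reverse] at h1 h2 ⊢
      have h3 : ((divR a b).1.length + 1) * (v.length + 1) ≤
        (a.length + 1 - b.length + 1) * (b.length + v.length + 1) :=
        Nat.mul_le_mul (by omega) (by omega)
      have h4 : (a.length + 1 - b.length) * (b.length + 1) ≤
        (a.length + 1 - b.length + 1) * (b.length + v.length + 1) :=
        Nat.mul_le_mul (by omega) (by omega)
      have h5 : a.length + 1 - b.length + (b.length + v.length) + 1 ≤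
        (a.length + 1 - b.length + 1) * (b.length + v.length + 1) := by
        nlinarith [Nat.zero_le ((a.length + 1 - b.length) * (b.length + v.length))]
      omega)⟩

noncomputable def bezJoinCd : Cd := bezJoin_ex.choose

theorem bez_cost (a b r : ℕ) (hr : r ≤ a) (hb : r < b) :
    2 * (b + 2 * r + 1) ^ 2 + (a + 1 - b + 1) * (a + 2 * b + 2) ≤ 2 * (a + 2 * b + 1) ^ 2 := by
  obtain ⟨m, hm⟩ : ∃ m, a + 2 * b = b + 2 * r + m := ⟨a + b - 2 * r, by omega⟩
  have h1 : a + 1 - b + 1 ≤ 2 * m := by omega
  have h2 : (a + 1 - b + 1) * (a + 2 * b + 2) ≤ 2 * m * (a + 2 * b + 2) :=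
    Nat.mul_le_mul_right _ h1
  rw [hm] at h2 ⊢
  nlinarith [Nat.zero_le (m * (b + 2 * r)), Nat.zero_le (m * m)]

theorem bezR_ex : ∃ c, ∀ (K : Type) [Field K] [DecidableEq K],
    Comp K (fun z : List K × List K => bezR z.1 z.2) c
      (fun z => (z.1.length + z.2.length + 1) ^ 2) :=
  ⟨_, fun K _ _ => (Comp.rec1 (K := K)
    (isLeaf := fun z : List K × List K => z.2.isEmpty)
    (leaf := fun z => (z.1, ([(1 : K)], ([] : List K))))
    (next := fun z => (z.2, remR z.1 z.2))
    (join := fun z r => bezJoin z.1 z.2 r)
    (h3 := bezJoin_ex.choose_spec K)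
    (T := fun z => 40 * (z.1.length + 2 * z.2.length + 1) ^ 2)
    (fun z => z.2.length)
    (by
      rintro ⟨a, b⟩ h
      cases b with
      | nil => exact bezR_nil a
      | cons c b => simp at h)
    (by
      rintro ⟨a, b⟩ h
      cases b with
      | nil => simp at h
      | cons c b => exact bezR_cons a c b)
    (by
      rintro ⟨a, b⟩ h
      cases b with
      | nil => simp at h
      | cons c b => exact length_remR_lt a c b)
    (by rintro ⟨a, b⟩ h; simp)
    (by
      rintro ⟨a, b⟩ h
      cases b with
      | nil => simp at h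
      | cons c b =>
        have h1 := length_remR_lt a c b
        have h2 := length_remR_le a (c :: b)
        have h3 := length_bezR_u (c :: b) (remR a (c :: b))
        have h4 := length_bezR_v (c :: b) (remR a (c :: b))
        have h5 := bez_cost _ _ _ h2 h1
        simp only
        generalize (bezR (c :: b) (remR a (c :: b))).2.1.length = u at *
        generalize (bezR (c :: b) (remR a (c :: b))).2.2.length = v at *
        generalize (remR a (c :: b)).length = r at *
        generalize (c :: b).length = l at *
        generalize a.length = a at *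
        have h6 : (a + 1 - l) * (l + 1) ≤ (a + 1 - l + 1) * (a + 2 * l + 2) :=
          Nat.mul_le_mul (by omega) (by omega)
        have h7 : (a + 1 - l + 1) * (l + v + 1) ≤ (a + 1 - l + 1) * (a + 2 * l + 2) :=
          Nat.mul_le_mul le_rfl (by omega)
        have h8 : a + 2 * l + 2 ≤ (a + 1 - l + 1) * (a + 2 * l + 2) :=
          Nat.le_mul_of_pos_left _ (by omega)
        omega)).bigO 200 (fun z => by
          have h1 : (z.1.length + 2 * z.2.length + 1) ^ 2 ≤
            (2 * (z.1.length + z.2.length + 1)) ^ 2 := Nat.pow_le_pow_left (by omega) 2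
          rw [mul_pow] at h1
          omega)⟩

noncomputable def bezRCd : Cd := bezR_ex.choose

instance compBezR [DecidableEq K] {α : Type} [Enc K α] {f g : α → List K} {c d : Cd}
    {T T' : α → ℕ} [h : Comp K f c T] [h' : Comp K g d T'] :
    Comp K (fun x => bezR (f x) (g x)) (bezRCd.comp (c.pair d))
      (fun x => T x + T' x + ((f x).length + (g x).length + 1) ^ 2) :=
  (bezR_ex.choose_spec K).app2 h h'

/-! ### Greatest common divisor -/

section gcdN

variable [DecidableEq K]

/-- Divide by the leading coefficient. -/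
def monicR (g : List K) : List K := smulP (g.headD 0)⁻¹ g

/-- The monic greatest common divisor. -/
def gcdN (a b : List K) : List K :=
  trimP (monicR (bezR (trimR a.reverse) (trimR b.reverse)).1).reverse

omit [DecidableEq K] in
theorem toR_monicR_cons (c : K) (l : List K) :
    toR (monicR (c :: l)) = C c⁻¹ * toR (c :: l) := toR_smulP _ _

omit [DecidableEq K] in
theorem monicR_dvd {g : List K} (hg : Canon g) {h : K[X]} : toR (monicR g) ∣ h ↔ toR g ∣ h := by
  cases g with
  | nil => rfl
  | cons c l =>
    rw [toR_monicR_cons]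
    have hu : IsUnit (C c⁻¹ : K[X]) :=
      isUnit_C.2 (isUnit_iff_ne_zero.2 (inv_ne_zero (canon_cons.1 hg)))
    exact hu.mul_left_dvd

omit [DecidableEq K] in
theorem dvd_monicR {g : List K} {h : K[X]} (hd : h ∣ toR g) : h ∣ toR (monicR g) := by
  rw [monicR, toR_smulP]
  exact hd.mul_left _

theorem toP_gcdN (a b : List K) : toP (gcdN a b) =
    toR (monicR (bezR (trimR a.reverse) (trimR b.reverse)).1) := by
  rw [gcdN, toP_trimP, toP_reverse]

theorem gcdN_dvd (a b : List K) : toP (gcdN a b) ∣ toP a ∧ toP (gcdN a b) ∣ toP b := by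
  have h1 := bezR_dvd (trimR a.reverse) (trimR b.reverse) (canon_trimR _)
  rw [toR_trimR, toR_trimR, toR_reverse, toR_reverse] at h1
  rw [toP_gcdN, monicR_dvd (canon_bezR _ _ (canon_trimR _) (canon_trimR _)),
    monicR_dvd (canon_bezR _ _ (canon_trimR _) (canon_trimR _))]
  exact h1

theorem gcdN_dvd_left (a b : List K) : toP (gcdN a b) ∣ toP a := (gcdN_dvd a b).1

theorem gcdN_dvd_right (a b : List K) : toP (gcdN a b) ∣ toP b := (gcdN_dvd a b).2

theorem dvd_gcdN {a b : List K} {h : K[X]} (ha : h ∣ toP a) (hb : h ∣ toP b) :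
    h ∣ toP (gcdN a b) := by
  rw [toP_gcdN]
  refine dvd_monicR (dvd_bezR h _ _ (canon_trimR _) ?_ ?_)
  · rwa [toR_trimR, toR_reverse]
  · rwa [toR_trimR, toR_reverse]

theorem gcdN_MP {a b : List K} (h : toP a ≠ 0 ∨ toP b ≠ 0) : MP (gcdN a b) := by
  have hc := canon_bezR (trimR a.reverse) (trimR b.reverse) (canon_trimR _) (canon_trimR _)
  have hm : (toP (gcdN a b)).Monic := by
    have h0 : toP (gcdN a b) ≠ 0 := by
      intro h0
      have h1 := gcdN_dvd a b
      rw [h0, zero_dvd_iff, zero_dvd_iff] at h1
      rcases h with h | h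
      · exact h h1.1
      · exact h h1.2
    rw [toP_gcdN] at h0 ⊢
    cases hg : (bezR (trimR a.reverse) (trimR b.reverse)).1 with
    | nil =>
      rw [hg] at h0
      exact absurd rfl h0
    | cons c l =>
      rw [hg] at hc
      have hc' : c ≠ 0 := canon_cons.1 hc
      rw [toR_monicR_cons, Monic, leadingCoeff_mul, leadingCoeff_C,
        leadingCoeff_toR_cons hc', inv_mul_cancel₀ hc']
  refine ⟨hm, ?_⟩
  rw [gcdN, length_trimP]
  rw [gcdN, toP_trimP] at hm
  rw [if_neg hm.ne_zero, toP_trimP]

theorem trim_gcdN (a b : List K) : trimP (gcdN a b) = gcdN a b := trimP_trimP _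

end gcdN

theorem gcdN_ex : ∃ c, ∀ (K : Type) [Field K] [DecidableEq K],
    Comp K (fun z : List K × List K => gcdN z.1 z.2) c
      (fun z => (z.1.length + z.2.length + 1) ^ 2) :=
  ⟨_, fun K _ _ => ((compTrimP (K := K) (f := fun z : List K × List K =>
    (smulP ((bezR (trimR z.1.reverse) (trimR z.2.reverse)).1.headD 0)⁻¹
      (bezR (trimR z.1.reverse) (trimR z.2.reverse)).1).reverse)).congr
    (fun _ => rfl)).bigO 20 (fun z => by
      obtain ⟨a, b⟩ := z
      have h1 := length_trimR_le a.reverse
      have h2 := length_trimR_le b.reverse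
      have h3 := length_bezR_g (trimR a.reverse) (trimR b.reverse)
      simp only [List.length_reverse, length_smulP] at h1 h2 ⊢
      have h4 : ((trimR a.reverse).length + (trimR b.reverse).length + 1) ^ 2 ≤
        (a.length + b.length + 1) ^ 2 := Nat.pow_le_pow_left (by omega) 2
      have h5 : a.length + b.length + 1 ≤ (a.length + b.length + 1) ^ 2 :=
        Nat.le_self_pow (by norm_num) _
      omega)⟩

noncomputable def gcdNCd : Cd := gcdN_ex.choose

instance compGcdN [DecidableEq K] {α : Type} [Enc K α] {f g : α → List K} {c d : Cd}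
    {T T' : α → ℕ} [h : Comp K f c T] [h' : Comp K g d T'] :
    Comp K (fun x => gcdN (f x) (g x)) (gcdNCd.comp (c.pair d))
      (fun x => T x + T' x + ((f x).length + (g x).length + 1) ^ 2) :=
  (gcdN_ex.choose_spec K).app2 h h'

/-! ### Inverse modulo a polynomial -/

section invN

variable [DecidableEq K]

/-- The inverse of `a` modulo `f`. -/
def invN (a f : List K) : List K :=
  takeL f.length (modN (smulP ((bezR (trimR a.reverse) (trimR f.reverse)).1.headD 0)⁻¹
    (bezR (trimR a.reverse) (trimR f.reverse)).2.1) f)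

theorem length_invN (a f : List K) : (invN a f).length ≤ f.length := length_takeL_le _ _

theorem invN_spec {a f : List K} (h : IsCoprime (toP a) (toP f)) (hf : toP f ≠ 0) :
    toP f ∣ toP (invN a f) * toP a - 1 := by
  have hb := bezR_bezout (trimR a.reverse) (trimR f.reverse) (canon_trimR _)
  have hd := bezR_dvd (trimR a.reverse) (trimR f.reverse) (canon_trimR _)
  have hc := canon_bezR (trimR a.reverse) (trimR f.reverse) (canon_trimR _) (canon_trimR _)
  rw [toR_trimR, toR_trimR, toR_reverse, toR_reverse] at hb hd
  rw [invN]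
  generalize bezR (trimR a.reverse) (trimR f.reverse) = r at *
  obtain ⟨g, u, v⟩ := r
  simp only at hb hd hc ⊢
  have hu : IsUnit (toR g) := h.isUnit_of_dvd' hd.1 hd.2
  obtain ⟨c0, hc0, hg⟩ := Polynomial.isUnit_iff.1 hu
  have hc0' : c0 ≠ 0 := hc0.ne_zero
  have hhead : g.headD 0 = c0 := by
    cases g with
    | nil =>
      rw [toR_nil] at hg
      exact absurd (C_eq_zero.1 hg) hc0'
    | cons c l =>
      have := leadingCoeff_toR_cons (canon_cons.1 hc) l
      rw [← hg, leadingCoeff_C] at this
      exact this.symm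
  rw [hhead]
  have hdeg : (toP (modN (smulP c0⁻¹ u) f)).degree < f.length := by
    rw [toP_modN]
    exact (EuclideanDomain.mod_lt _ hf).trans (degree_toP_lt f)
  rw [toP_takeL hdeg, toP_modN, toP_smulP]
  have h1 : C c0⁻¹ * toP u * toP a - 1 = toP f * (- (C c0⁻¹ * toP v)) := by
    have h2 : C c0⁻¹ * C c0 = (1 : K[X]) := by
      rw [← C_mul, inv_mul_cancel₀ hc0', C_1]
    rw [← hg] at hb
    linear_combination C c0⁻¹ * hb + h2
  have h3 := EuclideanDomain.div_add_mod (C c0⁻¹ * toP u) (toP f)
  have h4 : C c0⁻¹ * toP u % toP f * toP a - 1 = (C c0⁻¹ * toP u * toP a - 1) -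
      toP f * (C c0⁻¹ * toP u / toP f * toP a) := by
    linear_combination toP a * h3
  rw [h4, h1]
  exact dvd_sub (dvd_mul_right _ _) (dvd_mul_right _ _)

end invN

theorem invN_ex : ∃ c, ∀ (K : Type) [Field K] [DecidableEq K],
    Comp K (fun z : List K × List K => invN z.1 z.2) c
      (fun z => (z.1.length + z.2.length + 1) ^ 2) :=
  ⟨_, fun K _ _ => ((compTakeL (K := K) (f := fun z : List K × List K => z.2.length)
    (g := fun z => modN (smulP ((bezR (trimR z.1.reverse) (trimR z.2.reverse)).1.headD 0)⁻¹
      (bezR (trimR z.1.reverse) (trimR z.2.reverse)).2.1) z.2)).congr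
    (fun _ => rfl)).bigO 20 (fun z => by
      obtain ⟨a, b⟩ := z
      have h1 := length_trimR_le a.reverse
      have h2 := length_trimR_le b.reverse
      have h3 := length_bezR_u (trimR a.reverse) (trimR b.reverse)
      simp only [List.length_reverse, length_smulP] at h1 h2 ⊢
      have h4 : ((trimR a.reverse).length + (trimR b.reverse).length + 1) ^ 2 ≤
        (a.length + b.length + 1) ^ 2 := Nat.pow_le_pow_left (by omega) 2
      have h5 : a.length + b.length + 1 ≤ (a.length + b.length + 1) ^ 2 :=
        Nat.le_self_pow (by norm_num) _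
      have h6 : ((bezR (trimR a.reverse) (trimR b.reverse)).2.1.length + 1) * (b.length + 1) ≤
        4 * (a.length + b.length + 1) ^ 2 := by
        calc _ ≤ (2 * (a.length + b.length + 1)) * (2 * (a.length + b.length + 1)) :=
              Nat.mul_le_mul (by omega) (by omega)
          _ = 4 * (a.length + b.length + 1) ^ 2 := by ring
      omega)⟩

noncomputable def invNCd : Cd := invN_ex.choose

instance compInvN [DecidableEq K] {α : Type} [Enc K α] {f g : α → List K} {c d : Cd}
    {T T' : α → ℕ} [h : Comp K f c T] [h' : Comp K g d T'] :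
    Comp K (fun x => invN (f x) (g x)) (invNCd.comp (c.pair d))
      (fun x => T x + T' x + ((f x).length + (g x).length + 1) ^ 2) :=
  (invN_ex.choose_spec K).app2 h h'

/-! ### Derivative -/

/-- Multiply the entries by `j`, `j + 1`, .... -/
def derivAux : K → List K → List K
  | _, [] => []
  | j, x :: l => (j * x) :: derivAux (j + 1) l

/-- The derivative. -/
def derivP (a : List K) : List K := derivAux 1 a.tail

theorem length_derivAux (j : K) (l : List K) : (derivAux j l).length = l.length := by
  induction l generalizing j with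
  | nil => rfl
  | cons x l ih => rw [derivAux, List.length_cons, ih, List.length_cons]

theorem toP_derivAux (j : K) (l : List K) :
    toP (derivAux j l) = C j * toP l + X * derivative (toP l) := by
  induction l generalizing j with
  | nil => simp [derivAux]
  | cons x l ih =>
    rw [derivAux, toP_cons, ih, toP_cons]
    simp only [C_mul, C_add, C_1, derivative_add, derivative_C, derivative_mul, derivative_X]
    ring

theorem toP_derivP (a : List K) : toP (derivP a) = derivative (toP a) := by
  cases a with
  | nil => simp [derivP, derivAux]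
  | cons x l =>
    rw [derivP, List.tail_cons, toP_derivAux, toP_cons]
    simp only [C_1, derivative_add, derivative_C, derivative_mul, derivative_X]
    ring

theorem length_derivP (a : List K) : (derivP a).length = a.length - 1 := by
  rw [derivP, length_derivAux, List.length_tail]

theorem derivAux_ex : ∃ c, ∀ (K : Type) [Field K],
    Comp K (fun z : K × List K => derivAux z.1 z.2) c (fun z => z.2.length) :=
  ⟨_, fun K _ => (Comp.rec1 (K := K)
    (isLeaf := fun z : K × List K => z.2.isEmpty)
    (leaf := fun _ => []) (next := fun z => (z.1 + 1, z.2.tail))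
    (join := fun z r => (z.1 * z.2.headD 0) :: r)
    (T := fun z => 2 * z.2.length)
    (fun z => z.2.length)
    (by rintro ⟨q, l⟩ h; cases l <;> simp_all [derivAux])
    (by rintro ⟨q, l⟩ h; cases l <;> simp_all [derivAux])
    (by rintro ⟨q, l⟩ h; cases l <;> simp_all)
    (by rintro ⟨q, l⟩ h; cases l <;> simp_all)
    (by rintro ⟨q, l⟩ h; cases l <;> simp_all; omega)).bigO 2 (fun z => by omega)⟩

theorem derivP_ex : ∃ c, ∀ (K : Type) [Field K],
    Comp K (fun a : List K => derivP a) c (fun a => a.length) := by
  obtain ⟨c, hc⟩ := derivAux_ex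
  exact ⟨_, fun K _ => (((hc K).app2 (f := fun _ : List K => (1 : K))
    (f' := fun a : List K => a.tail) Comp.oneLit Comp.tail).congr (fun _ => rfl)).mono
      (fun a => by simp)⟩

noncomputable def derivPCd : Cd := derivP_ex.choose

instance compDerivP {α : Type} [Enc K α] {f : α → List K} {c : Cd} {T : α → ℕ}
    [h : Comp K f c T] : Comp K (fun x => derivP (f x)) (derivPCd.comp c)
      (fun x => T x + (f x).length) :=
  (derivP_ex.choose_spec K).app1 h

instance compDerivP_eta : Comp K (derivP : List K → List K) (derivPCd.comp Cd.id)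
    (fun l => 0 + l.length) := compDerivP (f := fun x : List K => x)

end Pool.Agent.BiFac

end

section

/-!
# Powers in the field, numbers as field elements, values of digit lists
-/

set_option autoImplicit false

namespace Pool.Agent.BiFac

open Polynomial Pool.Agent.TreeRAM

/-! ### Values of digit lists -/

@[simp] theorem bval_nil : bval [] = 0 := rfl

@[simp] theorem bval_cons (b : Bool) (l : List Bool) : bval (b :: l) = 2 * bval l + b.toNat := rfl

theorem bval_bits (n : ℕ) : bval (Nat.bits n) = n := by
  induction n using Nat.binaryRec' with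
  | zero => simp
  | bit b n h ih =>
    rw [Nat.bits_append_bit n b h, bval_cons, ih, Nat.bit_val]

/-! ### Powers -/

section

variable {K : Type} [Field K]

/-- the power with the exponent given by its binary digits -/
def powK : List Bool → K → K
  | [], _ => 1
  | b :: bits, a => (bif b then a else 1) * powK bits (a * a)

theorem powK_eq (bits : List Bool) (a : K) : powK bits a = a ^ bval bits := by
  induction bits generalizing a with
  | nil => simp [powK]
  | cons b bits ih =>
    rw [powK, ih, bval_cons, pow_add, pow_mul, pow_two, mul_comm]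
    cases b <;> simp

end

theorem powK_ex : ∃ c, ∀ (K : Type) [Field K],
    Comp K (fun z : List Bool × K => powK z.1 z.2) c (fun z => z.1.length) :=
  ⟨_, fun K _ => (Comp.rec1 (K := K) (isLeaf := fun z : List Bool × K => z.1.isEmpty)
    (leaf := fun _ => 1) (next := fun z => (z.1.tail, z.2 * z.2))
    (join := fun z r => (bif z.1.headD false then z.2 else 1) * r)
    (T := fun z => 2 * z.1.length)
    (fun z => z.1.length)
    (by rintro ⟨l, a⟩ h; cases l <;> simp_all [powK])
    (by rintro ⟨l, a⟩ h; cases l <;> simp_all [powK])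
    (by rintro ⟨l, a⟩ h; cases l <;> simp_all)
    (by rintro ⟨l, a⟩ h; cases l <;> simp_all)
    (by
      rintro ⟨l, a⟩ h
      cases l with
      | nil => simp_all
      | cons b l =>
        cases b <;> simp_all <;> omega)).bigO 2 (fun z => by omega)⟩

noncomputable def powKCd : Cd := powK_ex.choose

instance compPowK {K : Type} [Field K] {α : Type} [Enc K α]
    {l : α → List Bool} {a : α → K} {c d : Cd} {T T' : α → ℕ} [h : Comp K l c T]
    [h' : Comp K a d T'] :
    Comp K (fun x => powK (l x) (a x)) (powKCd.comp (c.pair d))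
      (fun x => T x + T' x + (l x).length) :=
  (powK_ex.choose_spec K).app2 h h'

/-! ### Iterated powers -/

/-- `a ^ (p ^ j)` -/
def frobK {K : Type} [Field K] (bits : List Bool) (j : ℕ) (a : K) : K := (powK bits)^[j] a

theorem frobK_eq {K : Type} [Field K] (bits : List Bool) (j : ℕ) (a : K) :
    frobK bits j a = a ^ bval bits ^ j := by
  induction j generalizing a with
  | zero => simp [frobK]
  | succ j ih =>
    have h : frobK bits (j + 1) a = frobK bits j (powK bits a) := rfl
    rw [h, ih, powK_eq, ← pow_mul, pow_succ, mul_comm]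

theorem iterCost_const {α : Type} (g : α → α) (m n : ℕ) (a : α) :
    iterCost g (fun _ => m) n a = n * (m + 1) := by
  induction n generalizing a with
  | zero => simp [iterCost]
  | succ n ih =>
    rw [iterCost, ih]
    ring

theorem frobK_ex : ∃ c, ∀ (K : Type) [Field K],
    Comp K (fun z : List Bool × ℕ × K => frobK z.1 z.2.1 z.2.2) c
      (fun z => (z.1.length + 1) * (z.2.1 + 1)) :=
  ⟨_, fun K _ => (Comp.iterate (K := K) (α := K) (γ := List Bool × ℕ × K)
    (g := fun z a => powK z.1 a) (n := fun z => z.2.1) (a := fun z => z.2.2)).bigO 1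
      (fun z => by
        simp only [Nat.zero_add, Nat.add_zero, iterCost_const]
        nlinarith [Nat.zero_le (z.1.length * z.2.1)])⟩

noncomputable def frobKCd : Cd := frobK_ex.choose

instance compFrobK {K : Type} [Field K] {α : Type} [Enc K α]
    {l : α → List Bool} {n : α → ℕ} {a : α → K} {c d e : Cd} {T T' T'' : α → ℕ}
    [h : Comp K l c T] [h' : Comp K n d T'] [h'' : Comp K a e T''] :
    Comp K (fun x => frobK (l x) (n x) (a x)) (frobKCd.comp (c.pair (d.pair e)))
      (fun x => T x + (T' x + T'' x) + ((l x).length + 1) * (n x + 1)) :=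
  (frobK_ex.choose_spec K).app2 (f' := fun x => (n x, a x)) h (Comp.pair (h := h') (h' := h''))

theorem frobK_inv {K : Type} [Field K] [Fintype K] {Q : FQ} {p : ℕ} (hQ : Q.Ok K p) (a : K) :
    frobK Q.1 (Q.2 - 1) a ^ p = a := by
  have hk : Q.2 ≠ 0 := by
    intro h
    have h1 := hQ.card
    rw [h, pow_zero] at h1
    exact absurd Fintype.one_lt_card (by rw [h1]; exact lt_irrefl 1)
  rw [frobK_eq, hQ.bits, bval_bits, ← pow_mul, ← pow_succ,
    Nat.sub_add_cancel (Nat.one_le_iff_ne_zero.2 hk), ← hQ.card, FiniteField.pow_card]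

/-! ### Numbers as field elements -/

/-- a natural number as a field element -/
def natK {K : Type} [Field K] (n : ℕ) : K := (n : K)

theorem natK_ex : ∃ c, ∀ (K : Type) [Field K],
    Comp K (fun n : ℕ => (natK n : K)) c (fun n => n) :=
  ⟨_, fun K _ => (Comp.rec1 (K := K) (isLeaf := fun n : ℕ => decide (n = 0))
    (leaf := fun _ => 0) (next := fun n => n - 1) (join := fun _ r => r + 1) (T := fun n => 2 * n)
    (fun n => n)
    (by rintro n h; cases n <;> simp_all [natK])
    (by rintro n h; cases n <;> simp_all [natK])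
    (by rintro n h; cases n <;> simp_all)
    (by rintro n h; cases n <;> simp_all)
    (by rintro n h; cases n <;> simp_all; omega)).bigO 2 (fun n => by omega)⟩

noncomputable def natKCd : Cd := natK_ex.choose

instance compNatK {K : Type} [Field K] {α : Type} [Enc K α]
    {n : α → ℕ} {c : Cd} {T : α → ℕ} [h : Comp K n c T] :
    Comp K (fun x => (natK (n x) : K)) (natKCd.comp c) (fun x => T x + n x) :=
  (natK_ex.choose_spec K).app1 h

instance compNatK_eta {K : Type} [Field K] :
    Comp K (natK : ℕ → K) (natKCd.comp Cd.id) (fun x => 0 + x) :=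
  compNatK (n := fun x : ℕ => x)

/-! ### Capped values -/

/-- the value of the digits, cut at `cap` -/
def unCap (cap : ℕ) (bits : List Bool) : ℕ := min cap (bval bits)

theorem unCap_cons (cap : ℕ) (b : Bool) (l : List Bool) :
    unCap cap (b :: l) = min cap (unCap cap l + unCap cap l + bif b then 1 else 0) := by
  simp only [unCap, bval_cons]
  cases b <;> simp <;> omega

theorem unCap_ex : ∃ c, ∀ (K : Type) [Field K],
    Comp K (fun z : ℕ × List Bool => unCap z.1 z.2) c (fun z => (z.1 + 1) * (z.2.length + 1)) :=
  ⟨_, fun K _ => by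
    have hj : Comp K (fun z : (ℕ × List Bool) × ℕ =>
        min z.1.1 (z.2 + z.2 + bif z.1.2.headD false then 1 else 0)) _ _ := Comp.minN
    exact (Comp.rec1 (K := K) (isLeaf := fun z : ℕ × List Bool => z.2.isEmpty)
      (leaf := fun _ => 0) (next := fun z => (z.1, z.2.tail))
      (join := fun z r => min z.1 (r + r + bif z.2.headD false then 1 else 0)) (h3 := hj)
      (T := fun z => 8 * ((z.1 + 1) * (z.2.length + 1)))
      (fun z => z.2.length)
      (by rintro ⟨m, l⟩ h; cases l <;> simp_all [unCap])
      (by rintro ⟨m, l⟩ h; cases l <;> simp_all [unCap_cons])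
      (by rintro ⟨m, l⟩ h; cases l <;> simp_all)
      (by rintro ⟨m, l⟩ h; cases l <;> simp_all)
      (by
        rintro ⟨m, l⟩ h
        cases l with
        | nil => simp_all
        | cons b l =>
          have h1 : unCap m l ≤ m := min_le_left _ _
          simp only [List.tail_cons, List.length_cons, List.headD_cons]
          have h2 : 8 * ((m + 1) * (l.length + 1 + 1)) = 8 * ((m + 1) * (l.length + 1)) +
            8 * (m + 1) := by ring
          rw [h2]
          cases b <;> simp only [cond_true, cond_false] <;> omega)).bigO 8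
            (fun z => by omega)⟩

noncomputable def unCapCd : Cd := unCap_ex.choose

instance compUnCap {K : Type} [Field K] {α : Type} [Enc K α]
    {m : α → ℕ} {l : α → List Bool} {c d : Cd} {T T' : α → ℕ} [h : Comp K m c T]
    [h' : Comp K l d T'] :
    Comp K (fun x => unCap (m x) (l x)) (unCapCd.comp (c.pair d))
      (fun x => T x + T' x + (m x + 1) * ((l x).length + 1)) :=
  (unCap_ex.choose_spec K).app2 h h'

end Pool.Agent.BiFac

end

section

/-!
# Restriction to a set of modular factors
-/

set_option autoImplicit false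

namespace Pool.Agent.BiFac

open Polynomial

variable {K : Type} [Field K]

theorem isRelPrime_of_ne {f g : K[X][X]} (hf : Irreducible f) (hfm : f.Monic)
    (hg : Irreducible g) (hgm : g.Monic) (hne : f ≠ g) : IsRelPrime f g := by
  rw [hf.isRelPrime_iff_not_dvd]
  intro hd
  exact hne (eq_of_monic_of_associated hfm hgm (hf.associated_of_dvd hg hd))

theorem Lifted.restrict {σ r u : ℕ} {F : K[X][X]} {P : Fin r → K[X][X]} (h : Lifted σ F P)
    (ι : Fin u → Fin r) (hι : Function.Injective ι)
    (hcl : ∀ f, Irreducible f → f.Monic → f ∣ F → ∀ j i, Bel P f (ι j) → Bel P f i →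
      ∃ k, ι k = i) :
    ∃ G : K[X][X], G ∣ F ∧ Lifted σ G (fun j => P (ι j)) ∧
      (∀ f, Irreducible f → f.Monic → (f ∣ G ↔ f ∣ F ∧ ∃ j, Bel P f (ι j))) ∧
      (∀ ν : Fin u → K, ConstOn G (fun j => P (ι j)) ν →
        ∃ μ : Fin r → K, ConstOn F P μ ∧ ∀ j, μ (ι j) = ν j) := by
  classical
  choose tf htf hmon hdvd hbel using h.exists_factor
  have huniq : ∀ f, Irreducible f → f.Monic → f ∣ F → ∀ i, Bel P f i → tf i = f := by
    intro f hf hfm hfd i hi
    exact h.factor_unique (htf i) (hmon i) (hdvd i) hf hfm hfd (hbel i) hi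
  set S : Finset K[X][X] := Finset.univ.image (fun j => tf (ι j)) with hS
  have hSmem : ∀ f ∈ S, ∃ j, tf (ι j) = f := by
    intro f hf
    obtain ⟨j, -, hj⟩ := Finset.mem_image.1 hf
    exact ⟨j, hj⟩
  have hSirr : ∀ f ∈ S, Irreducible f := by
    intro f hf
    obtain ⟨j, rfl⟩ := hSmem f hf
    exact htf _
  have hSmon : ∀ f ∈ S, f.Monic := by
    intro f hf
    obtain ⟨j, rfl⟩ := hSmem f hf
    exact hmon _
  have hSdvd : ∀ f ∈ S, f ∣ F := by
    intro f hf
    obtain ⟨j, rfl⟩ := hSmem f hf
    exact hdvd _
  have hGF : ∏ f ∈ S, f ∣ F := by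
    apply Finset.prod_dvd_of_isRelPrime (s := id)
    · intro f hf g hg hne
      exact isRelPrime_of_ne (hSirr f hf) (hSmon f hf) (hSirr g hg) (hSmon g hg) hne
    · exact hSdvd
  have hGm : (∏ f ∈ S, f).Monic := monic_prod_of_monic _ _ hSmon
  have hprod : Cg σ (∏ f ∈ S, f) (∏ j, P (ι j)) := by
    have h1 : Cg σ (∏ f ∈ S, f) (∏ f ∈ S, ∏ i ∈ Finset.univ.filter (Bel P f), P i) :=
      Cg.prod S fun f hf => (h.factor (hSmon f hf) (hSdvd f hf)).1
    have h2 : ∏ j, P (ι j) = ∏ i ∈ Finset.univ.image ι, P i := by
      rw [Finset.prod_image fun i _ j _ hij => hι hij]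
    have h3 : ∏ f ∈ S, ∏ i ∈ Finset.univ.filter (Bel P f), P i =
        ∏ i ∈ Finset.univ.image ι, P i := by
      rw [← Finset.prod_fiberwise_of_maps_to (s := Finset.univ.image ι) (t := S) (g := tf)]
      · refine Finset.prod_congr rfl fun f hf => ?_
        refine Finset.prod_congr ?_ fun _ _ => rfl
        ext i
        simp only [Finset.mem_filter, Finset.mem_univ, true_and, Finset.mem_image]
        constructor
        · intro hi
          obtain ⟨j, hj⟩ := hSmem f hf
          have hbj : Bel P f (ι j) := hj ▸ hbel (ι j)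
          exact ⟨hcl f (hSirr f hf) (hSmon f hf) (hSdvd f hf) j i hbj hi,
            huniq f (hSirr f hf) (hSmon f hf) (hSdvd f hf) i hi⟩
        · rintro ⟨-, rfl⟩
          exact hbel i
      · intro i hi
        obtain ⟨j, -, rfl⟩ := Finset.mem_image.1 hi
        exact Finset.mem_image_of_mem _ (Finset.mem_univ _)
    rw [h2, ← h3]
    exact h1
  have hchar : ∀ f, Irreducible f → f.Monic →
      (f ∣ (∏ f ∈ S, f) ↔ f ∣ F ∧ ∃ j, Bel P f (ι j)) := by
    intro f hf hfm
    constructor
    · intro hd
      refine ⟨hd.trans hGF, ?_⟩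
      obtain ⟨g, hg, hfg⟩ := (hf.prime.dvd_finsetProd_iff _).1 hd
      obtain ⟨j, hj⟩ := hSmem g hg
      have hfg' : f = g :=
        eq_of_monic_of_associated hfm (hSmon g hg) (hf.associated_of_dvd (hSirr g hg) hfg)
      refine ⟨j, ?_⟩
      rw [hfg', ← hj]
      exact hbel _
    · rintro ⟨hfd, j, hj⟩
      have : f ∈ S := by
        rw [← huniq f hf hfm hfd (ι j) hj]
        exact Finset.mem_image_of_mem _ (Finset.mem_univ _)
      exact Finset.dvd_prod_of_mem _ this
  refine ⟨∏ f ∈ S, f, hGF, ⟨hGm, TDeg.of_dvd_monic h.monic h.tdeg hGm hGF,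
    h.sep.of_dvd (map_dvd red hGF), fun j => h.monic_i _, fun j => h.irr _, hprod, h.pos⟩,
    hchar, ?_⟩
  intro ν hν
  refine ⟨fun i => if hi : ∃ k, ι k = i then ν hi.choose else 0, ?_, ?_⟩
  · intro f hf hfd i j hi hj
    obtain ⟨g, hgm, hfg⟩ := exists_monic_associated h.monic hfd
    have hg : Irreducible g := hfg.irreducible hf
    have hgd : g ∣ F := hfg.symm.dvd.trans hfd
    have hi' := bel_of_associated hfg hi
    have hj' := bel_of_associated hfg hj
    by_cases h1 : ∃ k, ι k = i
    · have h2 : ∃ k, ι k = j := by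
        obtain ⟨k, hk⟩ := h1
        exact hcl g hg hgm hgd k j (hk ▸ hi') hj'
      simp only [dif_pos h1, dif_pos h2]
      have e1 : Bel P g (ι h1.choose) := by rw [h1.choose_spec]; exact hi'
      have e2 : Bel P g (ι h2.choose) := by rw [h2.choose_spec]; exact hj'
      exact hν g hg ((hchar g hg hgm).2 ⟨hgd, _, e1⟩) _ _ e1 e2
    · have h2 : ¬ ∃ k, ι k = j := by
        rintro ⟨k, hk⟩
        exact h1 (hcl g hg hgm hgd k i (hk ▸ hj') hi')
      simp only [dif_neg h1, dif_neg h2]
  · intro j
    have h1 : ∃ k, ι k = ι j := ⟨j, rfl⟩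
    simp only [dif_pos h1]
    exact congrArg ν (hι h1.choose_spec)

/-- the factor is determined by its lift -/
theorem Lifted.eq_of_cg {σ r : ℕ} {F G : K[X][X]} {P : Fin r → K[X][X]} (h : Lifted σ F P)
    (hG : G.Monic) (hGt : TDeg F.natDegree G) (hc : Cg σ G (∏ i, P i)) (hσ : F.natDegree < σ) :
    G = F := by
  have key : ∀ H : K[X][X], TDeg F.natDegree H → ∀ j, (H.coeff j).degree < σ := by
    intro H hH j
    have h1 := hH.natDegree_coeff_le j
    refine lt_of_le_of_lt degree_le_natDegree ?_
    exact_mod_cast (by omega : (H.coeff j).natDegree < σ)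
  exact (hc.trans h.prod.symm).eq (key G hGt) (key F h.tdeg)

end Pool.Agent.BiFac

end

section

/-!
# Generic coordinates
-/

set_option autoImplicit false

namespace Pool.Agent.BiFac

open Polynomial

variable {K : Type} [Field K]

theorem shear_X (a b : K) : shear a b (X : K[X][X]) = X := by
  simp [shear]

theorem shear_C_X (a b : K) : shear a b (C X : K[X][X]) = C X + C (C a) * X + C (C b) := by
  simp [shear]

theorem shear_C_C (a b c : K) : shear a b (C (C c) : K[X][X]) = C (C c) := by
  simp [shear]

theorem shear_shear (a b a' b' : K) (F : K[X][X]) :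
    shear a b (shear a' b' F) = shear (a + a') (b + b') F := by
  have h : (shear a b).comp (shear a' b') = shear (a + a') (b + b') := by
    refine Polynomial.ringHom_ext' (Polynomial.ringHom_ext' ?_ ?_) ?_
    · refine RingHom.ext fun c => ?_
      simp only [RingHom.comp_apply, shear_C_C]
    · simp only [RingHom.comp_apply, shear_C_X, map_add, map_mul, shear_C_C, shear_X, C_add]
      ring
    · simp only [RingHom.comp_apply, shear_X]
  exact RingHom.congr_fun h F

theorem shear_zero_zero (F : K[X][X]) : shear 0 0 F = F := by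
  have h : shear (0 : K) 0 = RingHom.id _ := by
    refine Polynomial.ringHom_ext' (Polynomial.ringHom_ext' ?_ ?_) ?_
    · refine RingHom.ext fun c => ?_
      simp only [RingHom.comp_apply, shear_C_C, RingHom.id_apply]
    · simp only [RingHom.comp_apply, shear_C_X, RingHom.id_apply, C_0, zero_mul, add_zero]
    · simp only [shear_X, RingHom.id_apply]
  rw [h, RingHom.id_apply]

theorem shear_neg_shear (a b : K) (F : K[X][X]) : shear (-a) (-b) (shear a b F) = F := by
  rw [shear_shear, neg_add_cancel, neg_add_cancel, shear_zero_zero]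

theorem shear_shear_neg (a b : K) (F : K[X][X]) : shear a b (shear (-a) (-b) F) = F := by
  rw [shear_shear, add_neg_cancel, add_neg_cancel, shear_zero_zero]

/-- The change of coordinates as an automorphism. -/
noncomputable def shearEquiv (a b : K) : K[X][X] ≃+* K[X][X] where
  toFun := shear a b
  invFun := shear (-a) (-b)
  left_inv := shear_neg_shear a b
  right_inv := shear_shear_neg a b
  map_mul' := map_mul _
  map_add' := map_add _

theorem shearEquiv_apply (a b : K) (F : K[X][X]) : shearEquiv a b F = shear a b F := rfl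

theorem irreducible_shear (a b : K) {F : K[X][X]} : Irreducible (shear a b F) ↔ Irreducible F := by
  rw [← shearEquiv_apply]
  exact MulEquiv.irreducible_iff (shearEquiv a b)

theorem shear_injective (a b : K) : Function.Injective (shear a b) :=
  (shearEquiv a b).injective

theorem shear_eq_sum (a b : K) (F : K[X][X]) : shear a b F =
    ∑ j ∈ F.support, (∑ i ∈ (F.coeff j).support, C (C ((F.coeff j).coeff i)) *
      (C X + C (C a) * X + C (C b)) ^ i) * X ^ j := by
  unfold shear
  rw [coe_eval₂RingHom, eval₂_eq_sum, Polynomial.sum_def]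
  refine Finset.sum_congr rfl fun j _ => ?_
  rw [coe_eval₂RingHom, eval₂_eq_sum, Polynomial.sum_def]
  rfl

theorem tdeg_lin (a b : K) : TDeg 1 (C X + C (C a) * X + C (C b) : K[X][X]) := by
  have h1 : TDeg 1 (C X : K[X][X]) := TDeg.C (by simp)
  have h2 : TDeg 1 (C (C a) * X : K[X][X]) := by
    have := TDeg.mul (TDeg.C (n := 0) (p := (C a : K[X])) (by simp)) (TDeg.X (K := K))
    simpa using this
  have h3 : TDeg 1 (C (C b) : K[X][X]) := TDeg.C (by simp)
  exact (h1.add h2).add h3

theorem tdeg_shear {n : ℕ} {F : K[X][X]} (h : TDeg n F) (a b : K) : TDeg n (shear a b F) := by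
  rw [shear_eq_sum]
  refine TDeg.sum _ fun j _ => ?_
  rw [Finset.sum_mul]
  refine TDeg.sum _ fun i hi => ?_
  have h1 : i + j ≤ n := by
    by_contra hcon
    exact (mem_support_iff.1 hi) (h i j (by omega))
  have h3 : TDeg 0 (C (C ((F.coeff j).coeff i)) : K[X][X]) := TDeg.C (by simp)
  have h4 := (tdeg_lin a b).pow i
  have h5 : TDeg (j * 1) ((X : K[X][X]) ^ j) := TDeg.X.pow j
  have h2 := (h3.mul h4).mul h5
  exact h2.mono (by omega)

theorem TDeg.shear {n : ℕ} {F : K[X][X]} (h : TDeg n F) (a b : K) :
    TDeg n (BiFac.shear a b F) := tdeg_shear h a b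

theorem coeff_lin_pow (a b : K) (i m : ℕ) (h : i ≤ m) :
    ((C X + C (C a) * X + C (C b) : K[X][X]) ^ i).coeff m = if i = m then C (a ^ m) else 0 := by
  have hd : (C X + C (C a) * X + C (C b) : K[X][X]).natDegree ≤ 1 := (tdeg_lin a b).natDegree_le
  split_ifs with him
  · subst him
    have := coeff_pow_of_natDegree_le (m := i) hd
    rw [mul_one] at this
    rw [this, coeff_add, coeff_add, coeff_C_mul, coeff_X_one, coeff_C, coeff_C]
    simp
  · refine coeff_eq_zero_of_natDegree_lt ?_
    have := natDegree_pow_le_of_le i hd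
    omega

/-- The top homogeneous part at `(T, 1)`. -/
noncomputable def topP (d : ℕ) (F : K[X][X]) : K[X] :=
  ∑ j ∈ F.support, C ((F.coeff j).coeff (d - j)) * X ^ (d - j)

theorem coeff_shear {d : ℕ} {F : K[X][X]} (h : TDeg d F) (a b : K) :
    (shear a b F).coeff d = C ((topP d F).eval a) := by
  rw [shear_eq_sum, topP, eval_finsetSum, map_sum, finsetSum_coeff]
  refine Finset.sum_congr rfl fun j hj => ?_
  have hjd : j ≤ d := by
    by_contra hcon
    exact (mem_support_iff.1 hj) (h.coeff_eq_zero (by omega))
  rw [coeff_mul_X_pow', if_pos hjd, finsetSum_coeff]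
  rw [eval_mul, eval_C, eval_pow, eval_X, C_mul]
  rw [Finset.sum_eq_single (d - j)]
  · rw [coeff_C_mul, coeff_lin_pow a b _ _ le_rfl, if_pos rfl]
  · intro i hi hne
    have h1 : i + j ≤ d := by
      by_contra hcon
      exact (mem_support_iff.1 hi) (h i j (by omega))
    rw [coeff_C_mul, coeff_lin_pow a b _ _ (by omega), if_neg hne, mul_zero]
  · intro h0
    rw [notMem_support_iff.1 h0, C_0, C_0, zero_mul, coeff_zero]

theorem topP_ne_zero {d : ℕ} {F : K[X][X]} (hF : TDeg d F)
    (hd : ∃ i j, i + j = d ∧ (F.coeff j).coeff i ≠ 0) : topP d F ≠ 0 := by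
  obtain ⟨i, j, hij, hne⟩ := hd
  intro h0
  apply hne
  have h1 : (topP d F).coeff i = (F.coeff j).coeff i := by
    rw [topP, finsetSum_coeff, Finset.sum_eq_single j]
    · rw [coeff_C_mul, coeff_X_pow, if_pos (by omega), mul_one]
      congr 1
      omega
    · intro k hk hkj
      have hkd : k ≤ d := by
        by_contra hcon
        exact (mem_support_iff.1 hk) (hF.coeff_eq_zero (by omega))
      rw [coeff_C_mul, coeff_X_pow, if_neg (by omega), mul_zero]
    · intro hj
      rw [notMem_support_iff.1 hj]
      simp
  rw [← h1, h0, coeff_zero]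

theorem natDegree_topP_le (d : ℕ) (F : K[X][X]) : (topP d F).natDegree ≤ d := by
  refine natDegree_sum_le_of_forall_le _ _ fun j _ => ?_
  refine (natDegree_C_mul_X_pow_le _ _).trans (by omega)

/-! ### The derivative in `x` -/

/-- The partial derivative with respect to `x`. -/
noncomputable def dx (F : K[X][X]) : K[X][X] :=
  ∑ n ∈ F.support, monomial n (derivative (F.coeff n))

theorem coeff_dx (F : K[X][X]) (n : ℕ) : (dx F).coeff n = derivative (F.coeff n) := by
  unfold dx
  rw [finsetSum_coeff]
  simp only [coeff_monomial]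
  rw [Finset.sum_ite_eq' F.support n]
  split_ifs with h
  · rfl
  · rw [notMem_support_iff.1 h, derivative_zero]

theorem dx_add (F G : K[X][X]) : dx (F + G) = dx F + dx G := by
  ext n : 1
  rw [coeff_add, coeff_dx, coeff_dx, coeff_dx, coeff_add, derivative_add]

theorem dx_C_mul_X_pow (p : K[X]) (n : ℕ) : dx (C p * X ^ n) = C (derivative p) * X ^ n := by
  ext m : 1
  rw [coeff_dx, coeff_C_mul, coeff_C_mul, coeff_X_pow]
  split_ifs <;> simp

theorem dx_C_C_mul (c : K) (F : K[X][X]) : dx (C (C c) * F) = C (C c) * dx F := by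
  ext m : 1
  rw [coeff_dx, coeff_C_mul, coeff_C_mul, coeff_dx, derivative_C_mul]

theorem derivative_shear_C (a b : K) (p : K[X]) :
    derivative (shear a b (C p)) = C (C a) * shear a b (C (derivative p)) := by
  induction p using Polynomial.induction_on' with
  | add p q hp hq => simp only [C_add, map_add, hp, hq, mul_add]
  | monomial n c =>
    rw [← C_mul_X_pow_eq_monomial, derivative_C_mul_X_pow]
    simp only [C_mul, C_pow, map_mul, map_pow, shear_C_C, shear_C_X]
    rw [derivative_mul, derivative_C, zero_mul, zero_add, derivative_pow]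
    have h1 : derivative (C X + C (C a) * X + C (C b) : K[X][X]) = C (C a) := by
      rw [derivative_add, derivative_add, derivative_C, derivative_C_mul, derivative_X,
        derivative_C]
      ring
    rw [h1]
    have h2 : shear a b (C (C (n : K)) : K[X][X]) = C (C (n : K)) := shear_C_C _ _ _
    have h3 : (C (C (n : K)) : K[X][X]) = C (n : K[X]) := by simp
    rw [← h3, ← h2]
    simp only [shear_C_C, C_mul, map_mul]
    ring

theorem derivative_shear (a b : K) (F : K[X][X]) :
    derivative (shear a b F) = shear a b (C (C a) * dx F + derivative F) := by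
  induction F using Polynomial.induction_on' with
  | add p q hp hq =>
    simp only [map_add, hp, hq, dx_add, mul_add]
    ring
  | monomial n p =>
    rw [← C_mul_X_pow_eq_monomial, dx_C_mul_X_pow, map_mul, map_pow, shear_X, derivative_mul,
      derivative_shear_C, derivative_mul, derivative_C, zero_mul, zero_add, derivative_X_pow,
      map_add, map_mul, shear_C_C, map_mul, map_mul, map_pow, shear_X, map_mul, map_pow, shear_X]
    have h3 : (C (C (n : K)) : K[X][X]) = C (n : K[X]) := by simp
    rw [← h3, shear_C_C]
    ring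

/-- Over a finite field both partial derivatives of an irreducible polynomial do not vanish. -/
theorem not_both_zero [Fintype K] {f : K[X][X]} (hf : Irreducible f) :
    ¬ (dx f = 0 ∧ derivative f = 0) := by
  rintro ⟨h1, h2⟩
  obtain ⟨p, hp⟩ := CharP.exists K
  have hpp : p.Prime := CharP.char_is_prime K p
  have : Fact p.Prime := ⟨hpp⟩
  have : ExpChar K p := ExpChar.prime hpp
  have hfs : Function.Surjective (frobenius K p) :=
    Finite.injective_iff_surjective.1 (frobenius_inj K p)
  have e1 : expand K[X] p (contract p f) = f := expand_contract p h2 hpp.ne_zero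
  have e2 : contract p f ∈ lifts (frobenius K[X] p) := by
    rw [lifts_iff_coeff_lifts]
    intro n
    rw [coeff_contract hpp.ne_zero]
    have h3 : derivative (f.coeff (n * p)) = 0 := by
      rw [← coeff_dx, h1, coeff_zero]
    have e3 : expand K p (contract p (f.coeff (n * p))) = f.coeff (n * p) :=
      expand_contract p h3 hpp.ne_zero
    obtain ⟨m, hm⟩ := Polynomial.map_surjective _ hfs (contract p (f.coeff (n * p)))
    refine ⟨m, ?_⟩
    rw [← e3, ← hm, ← map_expand, map_frobenius_expand, frobenius_def]
  obtain ⟨h, hh⟩ := (mem_lifts _).1 e2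
  rw [← hh, ← map_expand, map_frobenius_expand] at e1
  rw [← e1] at hf
  exact not_irreducible_pow hpp.one_lt.ne' hf

/-! ### Factorisation of monic polynomials -/

theorem exists_monic_multiset : ∀ (n : ℕ) {G : K[X][X]}, G.Monic → G.natDegree = n →
    ∃ t : Multiset K[X][X], (∀ f ∈ t, Irreducible f ∧ f.Monic) ∧ G = t.prod := by
  intro n
  induction n using Nat.strong_induction_on with
  | _ n ih =>
    intro G hG hn
    by_cases h1 : G = 1
    · exact ⟨0, by simp, by simpa using h1⟩
    · have hnu : ¬ IsUnit G := fun hu => h1 (hG.eq_one_of_isUnit hu)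
      obtain ⟨b, hb, hbG⟩ := WfDvdMonoid.exists_irreducible_factor hnu hG.ne_zero
      obtain ⟨f, hfm, hbf⟩ := exists_monic_associated hG hbG
      have hf : Irreducible f := hbf.irreducible hb
      obtain ⟨H, hH⟩ := hbf.dvd_iff_dvd_left.1 hbG
      have hHm : H.Monic := monic_of_dvd hG hfm hH
      have hfd : 0 < f.natDegree := by
        rcases Nat.eq_zero_or_pos f.natDegree with h0 | h0
        · exact absurd (by rw [eq_one_of_monic_natDegree_zero hfm h0]; exact isUnit_one)
            hf.not_isUnit
        · exact h0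
      have hdeg : G.natDegree = f.natDegree + H.natDegree := by
        rw [hH, hfm.natDegree_mul hHm]
      obtain ⟨t, ht, hp⟩ := ih H.natDegree (by omega) hHm rfl
      refine ⟨f ::ₘ t, ?_, ?_⟩
      · intro g hg
        rcases Multiset.mem_cons.1 hg with rfl | hg
        · exact ⟨hf, hfm⟩
        · exact ht g hg
      · rw [Multiset.prod_cons, ← hp, ← hH]

theorem exists_monic_factorization {G : K[X][X]} (hG : G.Monic) :
    ∃ (s : Finset K[X][X]) (e : K[X][X] → ℕ), (∀ f ∈ s, Irreducible f ∧ f.Monic ∧ 0 < e f) ∧
      G = ∏ f ∈ s, f ^ e f := by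
  classical
  obtain ⟨t, ht, hp⟩ := exists_monic_multiset _ hG rfl
  refine ⟨t.toFinset, fun f => t.count f, ?_, ?_⟩
  · intro f hf
    have hf' := Multiset.mem_toFinset.1 hf
    exact ⟨(ht f hf').1, (ht f hf').2, Multiset.count_pos.2 hf'⟩
  · rw [hp, Finset.prod_multiset_count]

theorem mem_of_dvd_factorization {G : K[X][X]} {s : Finset K[X][X]} {e : K[X][X] → ℕ}
    (hs : ∀ f ∈ s, Irreducible f ∧ f.Monic ∧ 0 < e f) (hG : G = ∏ f ∈ s, f ^ e f)
    {g : K[X][X]} (hg : Irreducible g) (hgm : g.Monic) (hd : g ∣ G) : g ∈ s := by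
  rw [hG] at hd
  obtain ⟨f, hf, hgf⟩ := (Prime.dvd_finset_prod_iff hg.prime _).1 hd
  have h1 : g ∣ f := hg.prime.dvd_of_dvd_pow hgf
  have h2 : Associated g f := (hg.dvd_irreducible_iff_associated (hs f hf).1).1 h1
  rw [eq_of_monic_of_associated hgm (hs f hf).2.1 h2]
  exact hf

/-! ### Resultants -/

theorem isUnit_resultant_iff {S : Type} [CommRing S] {f g : S[X]} (hf : f.Monic) {n : ℕ}
    (hn : g.natDegree ≤ n) :
    IsUnit (resultant f g f.natDegree n) ↔ IsCoprime f g := by
  obtain ⟨k, rfl⟩ := Nat.exists_eq_add_of_le hn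
  rw [resultant_add_right_deg _ _ _ _ _ le_rfl, hf.coeff_natDegree, one_pow, one_mul]
  exact isUnit_resultant_iff_isCoprime hf

theorem natDegree_det_le {n T : ℕ} (M : Matrix (Fin n) (Fin n) K[X])
    (hM : ∀ i j : Fin n, (M i j).natDegree ≤ T) : M.det.natDegree ≤ n * T := by
  rw [Matrix.det_apply']
  apply natDegree_sum_le_of_forall_le
  intro σ _
  refine natDegree_mul_le.trans ?_
  rw [natDegree_intCast, zero_add]
  refine (natDegree_prod_le _ _).trans ((Finset.sum_le_sum fun i _ => hM (σ i) i).trans ?_)
  simp

theorem natDegree_resultant_le {f g : K[X][X]} {m n T : ℕ} (hf : ∀ i, (f.coeff i).natDegree ≤ T)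
    (hg : ∀ i, (g.coeff i).natDegree ≤ T) : (resultant f g m n).natDegree ≤ (m + n) * T := by
  unfold resultant
  apply natDegree_det_le
  intro i j
  unfold sylvester
  simp only [Matrix.of_apply]
  refine Fin.addCases (fun j₁ => ?_) (fun j₁ => ?_) j
  · rw [Fin.addCases_left]
    split_ifs
    · exact hg _
    · simp
  · rw [Fin.addCases_right]
    split_ifs
    · exact hf _
    · simp

/-! ### The substitution `x ↦ x + b` -/

theorem shear_zero_eq_map (b : K) (F : K[X][X]) :
    shear 0 b F = F.map (eval₂RingHom C (X + C b)) := by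
  have h : shear (0 : K) b = mapRingHom (eval₂RingHom C (X + C b)) := by
    refine Polynomial.ringHom_ext' (Polynomial.ringHom_ext' ?_ ?_) ?_
    · refine RingHom.ext fun c => ?_
      simp only [RingHom.comp_apply, shear_C_C]
      simp
    · simp only [RingHom.comp_apply, shear_C_X]
      simp
    · simp only [shear_X]
      simp
  rw [h, coe_mapRingHom]

theorem red_shear_zero (b : K) (F : K[X][X]) :
    red (shear 0 b F) = F.map (evalRingHom b) := by
  have h : (red (K := K)).comp (shear (0 : K) b) = mapRingHom (evalRingHom b) := by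
    refine Polynomial.ringHom_ext' (Polynomial.ringHom_ext' ?_ ?_) ?_
    · refine RingHom.ext fun c => ?_
      simp only [RingHom.comp_apply, shear_C_C]
      simp [red]
    · simp only [RingHom.comp_apply, shear_C_X]
      simp [red]
    · simp only [RingHom.comp_apply, shear_X]
      simp [red]
  have := RingHom.congr_fun h F
  rw [coe_mapRingHom] at this
  exact this

theorem monic_shear_zero (b : K) {F : K[X][X]} (hF : F.Monic) : (shear 0 b F).Monic := by
  rw [shear_zero_eq_map]
  exact hF.map _

/-! ### The count -/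

/-- The bad condition of the second kind. -/
def Deg2 (F : K[X][X]) (a : K) : Prop :=
  ∃ f, Irreducible f ∧ f ∣ F ∧ C (C a) * dx f + derivative f = 0

theorem dvd_shear_iff (a b : K) (f F : K[X][X]) : shear a b f ∣ shear a b F ↔ f ∣ F := by
  constructor
  · rintro ⟨g, hg⟩
    refine ⟨shear (-a) (-b) g, ?_⟩
    rw [← shear_neg_shear a b F, hg, map_mul, shear_neg_shear]
  · rintro ⟨g, rfl⟩
    exact ⟨shear a b g, map_mul _ _ _⟩

/-- The normalised polynomial for a good value of `a`. -/
theorem monic_normalized {d : ℕ} {F : K[X][X]} (hF : TDeg d F) {a : K}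
    (ha : (topP d F).eval a ≠ 0) :
    ∃ G : K[X][X], G.Monic ∧ G.natDegree = d ∧ TDeg d G ∧
      ∀ b, shear a b F = C (C ((topP d F).eval a)) * shear 0 b G := by
  set c := (topP d F).eval a with hc
  have hT : TDeg d (shear a 0 F) := tdeg_shear hF a 0
  have hco : (shear a 0 F).coeff d = C c := coeff_shear hF a 0
  have hnd : (shear a 0 F).natDegree = d := by
    refine le_antisymm hT.natDegree_le (le_natDegree_of_ne_zero ?_)
    rw [hco]
    simpa using ha
  have hcc : (C (C c⁻¹) * C (C c) : K[X][X]) = 1 := by
    rw [← C_mul, ← C_mul, inv_mul_cancel₀ ha, C_1, C_1]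
  have hcc' : (C (C c) * C (C c⁻¹) : K[X][X]) = 1 := by
    rw [mul_comm, hcc]
  refine ⟨C (C c⁻¹) * shear a 0 F, ?_, ?_, ?_, ?_⟩
  · unfold Monic
    rw [leadingCoeff_mul, leadingCoeff_C]
    unfold leadingCoeff
    rw [hnd, hco, ← C_mul, inv_mul_cancel₀ ha, C_1]
  · rw [natDegree_C_mul, hnd]
    simpa using ha
  · have := (TDeg.C (n := 0) (p := (C c⁻¹ : K[X])) (by simp)).mul hT
    simpa using this
  · intro b
    rw [map_mul, shear_C_C, ← mul_assoc, hcc', one_mul, shear_shear, zero_add, add_zero]

theorem derivative_factor_ne_zero {F G : K[X][X]} {a c : K}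
    (hG : shear a 0 F = C (C c) * G) (h2 : ¬ Deg2 F a) {f : K[X][X]} (hf : Irreducible f)
    (hfG : f ∣ G) : derivative f ≠ 0 := by
  intro h0
  apply h2
  have hfs : shear a 0 (shear (-a) 0 f) = f := by
    have := shear_shear_neg a 0 f
    rwa [neg_zero] at this
  refine ⟨shear (-a) 0 f, (irreducible_shear _ _).2 hf, ?_, ?_⟩
  · rw [← dvd_shear_iff a 0, hfs, hG]
    exact hfG.mul_left _
  · apply shear_injective a 0
    rw [← derivative_shear, hfs, h0, map_zero]

theorem separable_map {G R : K[X][X]} {s : Finset K[X][X]} (hR : R = ∏ f ∈ s, f)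
    (hs : ∀ f ∈ s, Irreducible f ∧ f.Monic) (hd : ∀ f ∈ s, derivative f ≠ 0) :
    (R.map (algebraMap K[X] (FractionRing K[X]))).Separable := by
  have hinj : Function.Injective (algebraMap K[X] (FractionRing K[X])) :=
    IsFractionRing.injective _ _
  rw [hR, Polynomial.map_prod]
  have hirr : ∀ f ∈ s, Irreducible (f.map (algebraMap K[X] (FractionRing K[X]))) := fun f hf =>
    ((hs f hf).2.irreducible_iff_irreducible_map_fraction_map).1 (hs f hf).1
  refine separable_prod' ?_ ?_
  · intro f hf g hg hne
    rw [(hirr f hf).coprime_iff_not_dvd]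
    intro hdvd
    have h1 := ((hirr f hf).dvd_irreducible_iff_associated (hirr g hg)).1 hdvd
    have h2 := eq_of_monic_of_associated ((hs f hf).2.map _) ((hs g hg).2.map _) h1
    exact hne (Polynomial.map_injective _ hinj h2)
  · intro f hf
    rw [separable_iff_derivative_ne_zero (hirr f hf), derivative_map]
    exact fun h => hd f hf ((Polynomial.map_eq_zero_iff hinj).1 h)

theorem exists_disc {d : ℕ} {G : K[X][X]} (hG : G.Monic) (hGd : G.natDegree = d)
    (hGt : TDeg d G) {s : Finset K[X][X]} {e : K[X][X] → ℕ}
    (hs : ∀ f ∈ s, Irreducible f ∧ f.Monic ∧ 0 < e f) (hGs : G = ∏ f ∈ s, f ^ e f)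
    (hd : ∀ f ∈ s, derivative f ≠ 0) :
    ∃ D : K[X], D ≠ 0 ∧ D.natDegree ≤ 2 * d ^ 2 ∧ ∀ b, D.eval b ≠ 0 →
      (red (shear 0 b (∏ f ∈ s, f))).Separable := by
  set R := ∏ f ∈ s, f with hR
  have hRm : R.Monic := monic_prod_of_monic _ _ fun f hf => (hs f hf).2.1
  have hRG : R ∣ G := by
    rw [hGs, hR]
    refine Finset.prod_dvd_prod_of_dvd _ _ fun f hf => ?_
    exact dvd_pow_self f (hs f hf).2.2.ne'
  have hRt : TDeg R.natDegree R := TDeg.of_dvd_monic hG (by rwa [hGd]) hRm hRG
  have hRd : R.natDegree ≤ d := by
    rw [← hGd]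
    exact natDegree_le_of_dvd hRG hG.ne_zero
  have hder : (derivative R).natDegree ≤ R.natDegree := (natDegree_derivative_le R).trans (by omega)
  refine ⟨resultant R (derivative R) R.natDegree R.natDegree, ?_, ?_, ?_⟩
  · intro h0
    have h1 := resultant_map_map (f := R) (g := derivative R) (m := R.natDegree)
      (n := R.natDegree) (algebraMap K[X] (FractionRing K[X]))
    rw [h0, map_zero, ← derivative_map] at h1
    have h2 := separable_map (G := G) hR (fun f hf => ⟨(hs f hf).1, (hs f hf).2.1⟩) hd
    have hn : (R.map (algebraMap K[X] (FractionRing K[X]))).natDegree = R.natDegree :=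
      hRm.natDegree_map _
    have h3 := (isUnit_resultant_iff (hRm.map (algebraMap K[X] (FractionRing K[X])))
      (n := R.natDegree) (g := derivative (R.map (algebraMap K[X] (FractionRing K[X]))))
      ((natDegree_derivative_le _).trans (by rw [hn]; omega))).2 h2
    rw [hn, h1] at h3
    exact not_isUnit_zero h3
  · refine (natDegree_resultant_le (T := d) ?_ ?_).trans ?_
    · intro i
      exact (hRt.natDegree_coeff_le i).trans (by omega)
    · intro i
      have := (hRt.derivative).natDegree_coeff_le i
      exact this.trans (by omega)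
    · nlinarith
  · intro b hb
    rw [red_shear_zero, separable_def]
    have hn : (R.map (evalRingHom b)).natDegree = R.natDegree := hRm.natDegree_map _
    have h1 := resultant_map_map (f := R) (g := derivative R) (m := R.natDegree)
      (n := R.natDegree) (evalRingHom b)
    rw [← derivative_map, coe_evalRingHom] at h1
    refine (isUnit_resultant_iff (hRm.map (evalRingHom b)) (n := R.natDegree)
      ((natDegree_derivative_le _).trans (by rw [hn]; omega))).1 ?_
    rw [hn, h1]
    exact isUnit_iff_ne_zero.2 hb

theorem nice_of_good {d : ℕ} {F : K[X][X]} (hF : TDeg d F) {a : K}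
    (ha : (topP d F).eval a ≠ 0) (h2 : ¬ Deg2 F a) :
    ∃ D : K[X], D ≠ 0 ∧ D.natDegree ≤ 2 * d ^ 2 ∧ ∀ b, D.eval b ≠ 0 → Nice d (shear a b F) := by
  classical
  obtain ⟨G, hGm, hGd, hGt, hGF⟩ := monic_normalized hF ha
  obtain ⟨s, e, hs, hGs⟩ := exists_monic_factorization hGm
  have hG0 : shear a 0 F = C (C ((topP d F).eval a)) * G := by
    rw [hGF 0, shear_zero_zero]
  have hder : ∀ f ∈ s, derivative f ≠ 0 := by
    intro f hf
    refine derivative_factor_ne_zero hG0 h2 (hs f hf).1 ?_
    rw [hGs]
    exact (dvd_pow_self f (hs f hf).2.2.ne').trans (Finset.dvd_prod_of_mem _ hf)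
  obtain ⟨D, hD0, hDd, hD⟩ := exists_disc hGm hGd hGt hs hGs hder
  refine ⟨D, hD0, hDd, fun b hb => ?_⟩
  have hinj : Set.InjOn (shear 0 b) (s : Set K[X][X]) := (shear_injective 0 b).injOn
  refine ⟨(topP d F).eval a, s.image (shear 0 b), fun g => e (shear 0 (-b) g), ha, ?_, ?_, ?_, ?_⟩
  · refine le_antisymm (tdeg_shear hF a b).natDegree_le (le_natDegree_of_ne_zero ?_)
    rw [coeff_shear hF a b]
    simpa using ha
  · intro g hg
    obtain ⟨f, hf, rfl⟩ := Finset.mem_image.1 hg
    have h3 : shear 0 (-b) (shear 0 b f) = f := by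
      have := shear_neg_shear 0 b f
      rwa [neg_zero] at this
    refine ⟨(irreducible_shear _ _).2 (hs f hf).1, monic_shear_zero b (hs f hf).2.1, ?_⟩
    simp only
    rw [h3]
    exact (hs f hf).2.2
  · rw [hGF b, hGs, map_prod, Finset.prod_image hinj]
    congr 1
    refine Finset.prod_congr rfl fun f _ => ?_
    have h3 : shear 0 (-b) (shear 0 b f) = f := by
      have := shear_neg_shear 0 b f
      rwa [neg_zero] at this
    simp only
    rw [map_pow, h3]
  · rw [Finset.prod_image hinj]
    have := hD b hb
    rw [map_prod (shear 0 b)] at this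
    exact this

theorem card_deg2_le [Fintype K] [DecidableEq K] {d : ℕ} {F : K[X][X]} (hF : TDeg d F) {a0 : K}
    (ha : (topP d F).eval a0 ≠ 0) [DecidablePred (Deg2 F)] :
    (Finset.univ.filter (Deg2 F)).card ≤ d := by
  classical
  obtain ⟨G, hGm, hGd, hGt, hGF⟩ := monic_normalized hF ha
  obtain ⟨s, e, hs, hGs⟩ := exists_monic_factorization hGm
  have hG0 : shear a0 0 F = C (C ((topP d F).eval a0)) * G := by
    rw [hGF 0, shear_zero_zero]
  have hu : IsUnit (C (C ((topP d F).eval a0)) : K[X][X]) :=
    isUnit_C.2 (isUnit_C.2 (isUnit_iff_ne_zero.2 ha))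
  -- choose a monic factor for every bad `a`
  have hch : ∀ a : K, Deg2 F a → ∃ g ∈ s, ∃ f : K[X][X], Irreducible f ∧
      C (C a) * dx f + derivative f = 0 ∧ Associated (shear a0 0 f) g := by
    intro a haD
    obtain ⟨f, hf, hfF, hf0⟩ := haD
    have h1 : shear a0 0 f ∣ G := by
      have := (dvd_shear_iff a0 0 f F).2 hfF
      rw [hG0] at this
      exact (hu.dvd_mul_left).1 this
    obtain ⟨g, hgm, hg⟩ := exists_monic_associated hGm h1
    have hgi : Irreducible g := hg.irreducible ((irreducible_shear _ _).2 hf)
    exact ⟨g, mem_of_dvd_factorization hs hGs hgi hgm (hg.dvd_iff_dvd_left.1 h1), f, hf, hf0, hg⟩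
  choose! g hgs f hf hf0 hfg using hch
  have hinj : Set.InjOn g (Finset.univ.filter (Deg2 F) : Set K) := by
    intro a haD a' haD' hgg
    have haD1 : Deg2 F a := (Finset.mem_filter.1 haD).2
    have haD2 : Deg2 F a' := (Finset.mem_filter.1 haD').2
    by_contra hne
    have h1 : Associated (shear a0 0 (f a)) (shear a0 0 (f a')) :=
      (hfg a haD1).trans (hgg ▸ (hfg a' haD2).symm)
    have h2 : Associated (f a) (f a') := by
      have := h1.map (shear (-a0) (-0))
      rwa [shear_neg_shear, shear_neg_shear] at this
    obtain ⟨u, hu'⟩ := h2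
    obtain ⟨v, hv, hvu⟩ := Polynomial.isUnit_iff.1 u.isUnit
    obtain ⟨k, hk, hkv⟩ := Polynomial.isUnit_iff.1 hv
    have h3 : f a' = C (C k) * f a := by
      rw [← hu', ← hvu, ← hkv, mul_comm]
    have hk0 : (C (C k) : K[X][X]) ≠ 0 := by
      intro h
      rw [C_eq_zero, C_eq_zero] at h
      exact hk.ne_zero h
    have h4 : C (C a') * dx (f a) + derivative (f a) = 0 := by
      have h5 := hf0 a' haD2
      rw [h3, dx_C_C_mul, derivative_C_mul] at h5
      have h6 : C (C k) * (C (C a') * dx (f a) + derivative (f a)) = 0 := by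
        rw [← h5]
        ring
      exact (mul_eq_zero.1 h6).resolve_left hk0
    have h5 := hf0 a haD1
    have h6 : C (C (a - a')) * dx (f a) = 0 := by
      rw [C_sub, C_sub, sub_mul]
      linear_combination h5 - h4
    have h7 : (C (C (a - a')) : K[X][X]) ≠ 0 := by
      intro h
      rw [C_eq_zero, C_eq_zero] at h
      exact hne (sub_eq_zero.1 h)
    have h8 : dx (f a) = 0 := (mul_eq_zero.1 h6).resolve_left h7
    have h9 : derivative (f a) = 0 := by
      rw [h8, mul_zero, zero_add] at h5
      exact h5
    exact not_both_zero (hf a haD1) ⟨h8, h9⟩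
  have hcard : (Finset.univ.filter (Deg2 F)).card ≤ s.card := by
    refine Finset.card_le_card_of_injOn g ?_ hinj
    intro a haD
    exact hgs a (Finset.mem_filter.1 haD).2
  refine hcard.trans ?_
  have hRG : ∏ f ∈ s, f ∣ G := by
    rw [hGs]
    refine Finset.prod_dvd_prod_of_dvd _ _ fun f hf => ?_
    exact dvd_pow_self f (hs f hf).2.2.ne'
  have hRd := natDegree_le_of_dvd hRG hGm.ne_zero
  rw [natDegree_prod_of_monic _ _ fun f hf => (hs f hf).2.1, hGd] at hRd
  refine le_trans ?_ hRd
  rw [Finset.card_eq_sum_ones]
  refine Finset.sum_le_sum fun h hh => ?_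
  rcases Nat.eq_zero_or_pos h.natDegree with h0 | h0
  · exfalso
    have := eq_one_of_monic_natDegree_zero (hs h hh).2.1 h0
    exact (hs h hh).1.not_isUnit (this ▸ isUnit_one)
  · exact h0

theorem card_eval_zero_le [Fintype K] [DecidableEq K] {D : K[X]} (hD : D ≠ 0) :
    (Finset.univ.filter (fun b : K => D.eval b = 0)).card ≤ D.natDegree := by
  have h1 : (Finset.univ.filter (fun b : K => D.eval b = 0)) ⊆ D.roots.toFinset := by
    intro b hb
    rw [Multiset.mem_toFinset, mem_roots hD]
    exact (Finset.mem_filter.1 hb).2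
  exact (Finset.card_le_card h1).trans ((Multiset.toFinset_card_le _).trans (card_roots' _))

theorem card_not_nice [Fintype K] {d : ℕ} {F : K[X][X]} (hF : TDeg d F)
    (hd : ∃ i j, i + j = d ∧ (F.coeff j).coeff i ≠ 0) :
    Nat.card {z : K × K // ¬ Nice d (shear z.1 z.2 F)} ≤ 4 * (d + 1) ^ 2 * Fintype.card K := by
  classical
  have htop := topP_ne_zero hF hd
  set q := Fintype.card K with hq
  set T1 := Finset.univ.filter (fun a : K => (topP d F).eval a = 0) with hT1
  have hT1c : T1.card ≤ d := (card_eval_zero_le htop).trans (natDegree_topP_le d F)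
  rw [Nat.card_eq_fintype_card, Fintype.card_subtype]
  have hfib : (Finset.univ.filter (fun z : K × K => ¬ Nice d (shear z.1 z.2 F))).card =
      ∑ a : K, (Finset.univ.filter (fun b : K => ¬ Nice d (shear a b F))).card := by
    rw [Finset.card_filter, Fintype.sum_prod_type]
    refine Finset.sum_congr rfl fun a _ => ?_
    rw [Finset.card_filter]
  rw [hfib]
  have htriv : ∀ a : K, (Finset.univ.filter (fun b : K => ¬ Nice d (shear a b F))).card ≤ q :=
    fun a => (Finset.card_le_univ _).trans_eq rfl
  by_cases hall : ∀ a : K, (topP d F).eval a = 0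
  · have h1 : q ≤ d := by
      have : T1 = Finset.univ := by
        ext a
        simp [hT1, hall a]
      rw [this, Finset.card_univ] at hT1c
      exact hT1c
    calc ∑ a : K, (Finset.univ.filter (fun b : K => ¬ Nice d (shear a b F))).card
        ≤ ∑ _a : K, q := Finset.sum_le_sum fun a _ => htriv a
      _ = q * q := by simp [hq]
      _ ≤ 4 * (d + 1) ^ 2 * q := Nat.mul_le_mul_right _ (by nlinarith)
  · push Not at hall
    obtain ⟨a0, ha0⟩ := hall
    set T2 := Finset.univ.filter (Deg2 F) with hT2
    have hT2c : T2.card ≤ d := card_deg2_le hF ha0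
    have hgood : ∀ a : K, a ∉ T1 ∪ T2 →
        (Finset.univ.filter (fun b : K => ¬ Nice d (shear a b F))).card ≤ 2 * d ^ 2 := by
      intro a ha
      rw [Finset.mem_union, not_or] at ha
      have h1 : (topP d F).eval a ≠ 0 := fun h =>
        ha.1 (Finset.mem_filter.2 ⟨Finset.mem_univ _, h⟩)
      have h2 : ¬ Deg2 F a := fun h => ha.2 (Finset.mem_filter.2 ⟨Finset.mem_univ _, h⟩)
      obtain ⟨D, hD0, hDd, hD⟩ := nice_of_good hF h1 h2
      refine le_trans (Finset.card_le_card ?_) ((card_eval_zero_le hD0).trans hDd)
      intro b hb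
      refine Finset.mem_filter.2 ⟨Finset.mem_univ _, ?_⟩
      by_contra hne
      exact (Finset.mem_filter.1 hb).2 (hD b hne)
    calc ∑ a : K, (Finset.univ.filter (fun b : K => ¬ Nice d (shear a b F))).card
        ≤ ∑ a : K, ((if a ∈ T1 ∪ T2 then q else 0) + 2 * d ^ 2) := by
          refine Finset.sum_le_sum fun a _ => ?_
          split_ifs with h
          · exact (htriv a).trans (Nat.le_add_right _ _)
          · rw [zero_add]
            exact hgood a h
      _ = (T1 ∪ T2).card * q + q * (2 * d ^ 2) := by
          rw [Finset.sum_add_distrib, Finset.sum_const, Finset.card_univ, smul_eq_mul,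
            Finset.sum_ite_mem, Finset.univ_inter, Finset.sum_const, smul_eq_mul]
      _ ≤ (2 * d) * q + q * (2 * d ^ 2) := by
          have := Finset.card_union_le T1 T2
          have h3 : (T1 ∪ T2).card ≤ 2 * d := by omega
          exact Nat.add_le_add_right (Nat.mul_le_mul_right _ h3) _
      _ ≤ 4 * (d + 1) ^ 2 * q := by
          have : 2 * d + 2 * d ^ 2 ≤ 4 * (d + 1) ^ 2 := by nlinarith
          calc (2 * d) * q + q * (2 * d ^ 2) = (2 * d + 2 * d ^ 2) * q := by ring
            _ ≤ _ := Nat.mul_le_mul_right _ this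

end Pool.Agent.BiFac

end

section

/-!
# Fast multiplication of matrices (Strassen's algorithm) on lists of rows
-/

set_option autoImplicit false

namespace Pool.Agent.BiFac

open Polynomial Pool.Agent.TreeRAM

namespace MM

variable {K : Type} [Field K]

/-- sum of two matrices -/
def addM (A B : List (List K)) : List (List K) :=
  List.zipWith (fun r t => List.zipWith (fun x y => x + y) r t) A B

/-- difference of two matrices -/
def subM (A B : List (List K)) : List (List K) :=
  List.zipWith (fun r t => List.zipWith (fun x y => x - y) r t) A B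

/-- a block of a matrix -/
def blk (h a b : ℕ) (A : List (List K)) : List (List K) :=
  (List.range h).map (fun i =>
    (((A.getD (i + a) []).drop b).take h ++ List.replicate h 0).take h)

/-- a matrix from four blocks -/
def glue (A B C D : List (List K)) : List (List K) :=
  List.zipWith (fun r t => r ++ t) A B ++ List.zipWith (fun r t => r ++ t) C D

/-- `A` is a square matrix of size `h` -/
def Sq (h : ℕ) (A : List (List K)) : Prop := A.length = h ∧ ∀ r ∈ A, r.length = h

omit [Field K] in
theorem Sq.getD {h : ℕ} {A : List (List K)} (hA : Sq h A) {i : ℕ} (hi : i < h) :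
    (A.getD i []).length = h := by
  have h1 : i < A.length := by rw [hA.1]; exact hi
  rw [List.getD_eq_getElem _ _ h1]
  exact hA.2 _ (List.getElem_mem h1)

omit [Field K] in
theorem sq_of_getD {h : ℕ} {A : List (List K)} (h1 : A.length = h)
    (h2 : ∀ i < h, (A.getD i []).length = h) : Sq h A := by
  refine ⟨h1, fun r hr => ?_⟩
  obtain ⟨i, hi, rfl⟩ := List.getElem_of_mem hr
  have := h2 i (h1 ▸ hi)
  rwa [List.getD_eq_getElem _ _ hi] at this

omit [Field K] in
theorem Sq.tot {h : ℕ} {A : List (List K)} (hA : Sq h A) : tot A = h * (h + 1) := by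
  obtain ⟨h1, h2⟩ := hA
  unfold BiFac.tot
  have : A.map (fun F => F.length + 1) = A.map (fun _ => h + 1) :=
    List.map_congr_left (fun r hr => by rw [h2 r hr])
  rw [this, List.map_const', List.sum_replicate, h1, smul_eq_mul]

theorem sq_blk (h a b : ℕ) (A : List (List K)) : Sq h (blk h a b A) := by
  refine ⟨by simp [blk], fun r hr => ?_⟩
  simp only [blk, List.mem_map] at hr
  obtain ⟨i, -, rfl⟩ := hr
  simp

theorem ent_blk {h : ℕ} (a b : ℕ) (A : List (List K)) {i j : ℕ} (hi : i < h) (hj : j < h) :
    vec ((blk h a b A).getD i []) j = vec (A.getD (i + a) []) (j + b) := by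
  have h1 : i < (blk h a b A).length := by rw [(sq_blk h a b A).1]; exact hi
  rw [List.getD_eq_getElem _ _ h1]
  simp only [blk, List.getElem_map, List.getElem_range, vec]
  generalize A.getD (i + a) [] = r
  rw [List.getD_eq_getElem?_getD, List.getD_eq_getElem?_getD, List.getElem?_take, if_pos hj,
    List.getElem?_append]
  split_ifs with h2
  · rw [List.getElem?_take, if_pos hj, List.getElem?_drop, add_comm]
  · rw [List.getElem?_replicate]
    have h3 : r.length ≤ j + b := by
      simp only [List.length_take, List.length_drop] at h2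
      omega
    rw [List.getElem?_eq_none h3]
    split_ifs <;> rfl

theorem sq_addM {h : ℕ} {A B : List (List K)} (hA : Sq h A) (hB : Sq h B) : Sq h (addM A B) := by
  refine sq_of_getD (by simp [addM, hA.1, hB.1]) (fun i hi => ?_)
  have h1 : i < (addM A B).length := by simp [addM, hA.1, hB.1, hi]
  rw [List.getD_eq_getElem _ _ h1]
  simp only [addM, List.getElem_zipWith, List.length_zipWith]
  rw [hA.2 _ (List.getElem_mem _), hB.2 _ (List.getElem_mem _), min_self]

theorem sq_subM {h : ℕ} {A B : List (List K)} (hA : Sq h A) (hB : Sq h B) : Sq h (subM A B) := by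
  refine sq_of_getD (by simp [subM, hA.1, hB.1]) (fun i hi => ?_)
  have h1 : i < (subM A B).length := by simp [subM, hA.1, hB.1, hi]
  rw [List.getD_eq_getElem _ _ h1]
  simp only [subM, List.getElem_zipWith, List.length_zipWith]
  rw [hA.2 _ (List.getElem_mem _), hB.2 _ (List.getElem_mem _), min_self]

theorem ent_addM {h : ℕ} {A B : List (List K)} (hA : Sq h A) (hB : Sq h B) {i j : ℕ}
    (hi : i < h) (hj : j < h) :
    vec ((addM A B).getD i []) j = vec (A.getD i []) j + vec (B.getD i []) j := by
  have h1 : i < (addM A B).length := by simp [addM, hA.1, hB.1, hi]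
  have hA1 : i < A.length := by rw [hA.1]; exact hi
  have hB1 : i < B.length := by rw [hB.1]; exact hi
  rw [List.getD_eq_getElem _ _ h1, List.getD_eq_getElem _ _ hA1, List.getD_eq_getElem _ _ hB1]
  simp only [addM, List.getElem_zipWith, vec]
  have a1 := hA.2 _ (List.getElem_mem hA1)
  have b1 := hB.2 _ (List.getElem_mem hB1)
  rw [List.getD_eq_getElem _ _ (by simp [a1, b1, hj]),
    List.getD_eq_getElem _ _ (by rw [a1]; exact hj), List.getD_eq_getElem _ _ (by rw [b1]; exact hj), List.getElem_zipWith]

theorem ent_subM {h : ℕ} {A B : List (List K)} (hA : Sq h A) (hB : Sq h B) {i j : ℕ}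
    (hi : i < h) (hj : j < h) :
    vec ((subM A B).getD i []) j = vec (A.getD i []) j - vec (B.getD i []) j := by
  have h1 : i < (subM A B).length := by simp [subM, hA.1, hB.1, hi]
  have hA1 : i < A.length := by rw [hA.1]; exact hi
  have hB1 : i < B.length := by rw [hB.1]; exact hi
  rw [List.getD_eq_getElem _ _ h1, List.getD_eq_getElem _ _ hA1, List.getD_eq_getElem _ _ hB1]
  simp only [subM, List.getElem_zipWith, vec]
  have a1 := hA.2 _ (List.getElem_mem hA1)
  have b1 := hB.2 _ (List.getElem_mem hB1)
  rw [List.getD_eq_getElem _ _ (by simp [a1, b1, hj]),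
    List.getD_eq_getElem _ _ (by rw [a1]; exact hj), List.getD_eq_getElem _ _ (by rw [b1]; exact hj), List.getElem_zipWith]

omit [Field K] in
theorem sq_glue {h : ℕ} {A B C D : List (List K)} (hA : Sq h A) (hB : Sq h B) (hC : Sq h C)
    (hD : Sq h D) : Sq (2 * h) (glue A B C D) := by
  refine ⟨by simp [glue, hA.1, hB.1, hC.1, hD.1]; omega, fun r hr => ?_⟩
  rcases List.mem_append.1 hr with hr | hr
  · obtain ⟨i, hi, rfl⟩ := List.getElem_of_mem hr
    rw [List.getElem_zipWith, List.length_append, hA.2 _ (List.getElem_mem _),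
      hB.2 _ (List.getElem_mem _)]
    omega
  · obtain ⟨i, hi, rfl⟩ := List.getElem_of_mem hr
    rw [List.getElem_zipWith, List.length_append, hC.2 _ (List.getElem_mem _),
      hD.2 _ (List.getElem_mem _)]
    omega

theorem vec_append {a b : List K} {h j : ℕ} (ha : a.length = h) :
    vec (a ++ b) j = if j < h then vec a j else vec b (j - h) := by
  subst ha
  simp only [vec, List.getD_eq_getElem?_getD, List.getElem?_append]
  split_ifs <;> rfl

theorem ent_glue {h : ℕ} {A B C D : List (List K)} (hA : Sq h A) (hB : Sq h B) (hC : Sq h C)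
    (hD : Sq h D) {i j : ℕ} (hi : i < 2 * h) :
    vec ((glue A B C D).getD i []) j =
      if i < h then (if j < h then vec (A.getD i []) j else vec (B.getD i []) (j - h))
      else (if j < h then vec (C.getD (i - h) []) j else vec (D.getD (i - h) []) (j - h)) := by
  have h1 : i < (glue A B C D).length := by
    rw [(sq_glue hA hB hC hD).1]; exact hi
  rw [List.getD_eq_getElem _ _ h1]
  simp only [glue, List.getElem_append, List.length_zipWith, hA.1, hB.1, min_self,
    List.getElem_zipWith]
  split_ifs with h2 h3 h3
  · rw [vec_append (hA.2 _ (List.getElem_mem _)), if_pos h3,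
      List.getD_eq_getElem _ _ (by rw [hA.1]; exact h2)]
  · rw [vec_append (hA.2 _ (List.getElem_mem _)), if_neg h3,
      List.getD_eq_getElem _ _ (by rw [hB.1]; exact h2)]
  · rw [vec_append (hC.2 _ (List.getElem_mem _)), if_pos h3,
      List.getD_eq_getElem _ _ (by rw [hC.1]; omega)]
  · rw [vec_append (hC.2 _ (List.getElem_mem _)), if_neg h3,
      List.getD_eq_getElem _ _ (by rw [hD.1]; omega)]

/-- the seven pairs of factors from the blocks -/
def facS (A11 A12 A21 A22 B11 B12 B21 B22 : List (List K)) :
    List (List (List K) × List (List K)) :=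
  [(addM A11 A22, addM B11 B22), (addM A21 A22, B11), (A11, subM B12 B22), (A22, subM B21 B11),
    (addM A11 A12, B22), (subM A21 A11, addM B11 B12), (subM A12 A22, addM B21 B22)]

/-- combination of the seven products -/
def comb7 (R : List (List (List K))) : List (List K) :=
  glue
    (addM (subM (addM (R.getD 0 []) (R.getD 3 [])) (R.getD 4 [])) (R.getD 6 []))
    (addM (R.getD 2 []) (R.getD 4 []))
    (addM (R.getD 1 []) (R.getD 3 []))
    (addM (addM (subM (R.getD 0 []) (R.getD 1 [])) (R.getD 2 [])) (R.getD 5 []))

/-- the seven pairs of factors -/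
def facA (h : ℕ) (A B : List (List K)) : List (List (List K) × List (List K)) :=
  facS (blk h 0 0 A) (blk h 0 h A) (blk h h 0 A) (blk h h h A)
    (blk h 0 0 B) (blk h 0 h B) (blk h h 0 B) (blk h h h B)

end MM

open MM

variable {K : Type} [Field K]

/-- product of matrices (lists of rows) of size at most `2 ^ s` -/
def matMul : ℕ → List (List K) → List (List K) → List (List K)
  | 0, A, B => [[vec (A.getD 0 []) 0 * vec (B.getD 0 []) 0]]
  | s + 1, A, B => comb7 ((facA (2 ^ s) A B).map (fun p => matMul s p.1 p.2))

theorem sq_matMul (s : ℕ) (A B : List (List K)) : Sq (2 ^ s) (matMul s A B) := by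
  induction s generalizing A B with
  | zero => exact ⟨by simp [matMul], by simp [matMul]⟩
  | succ s ih =>
    rw [pow_succ, mul_comm]
    simp only [matMul, comb7, facA, facS, List.map_cons, List.map_nil, List.getD_cons_zero,
      List.getD_cons_succ]
    refine sq_glue ?_ ?_ ?_ ?_ <;> repeat (first | apply sq_addM | apply sq_subM | apply ih)

theorem length_matMul (s : ℕ) (A B : List (List K)) : (matMul s A B).length = 2 ^ s :=
  (sq_matMul s A B).1

theorem rows_matMul (s : ℕ) (A B : List (List K)) :
    ∀ r ∈ matMul s A B, r.length = 2 ^ s := (sq_matMul s A B).2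

theorem matMul_spec (s : ℕ) (A B : List (List K)) {i j : ℕ} (hi : i < 2 ^ s) (hj : j < 2 ^ s) :
    vec ((matMul s A B).getD i []) j =
      ∑ l ∈ Finset.range (2 ^ s), vec (A.getD i []) l * vec (B.getD l []) j := by
  induction s generalizing A B i j with
  | zero =>
    simp only [pow_zero, Nat.lt_one_iff] at hi hj
    subst hi hj
    simp [matMul, vec]
  | succ s ih =>
    set h := 2 ^ s with hh
    have h2 : 2 ^ (s + 1) = h + h := by rw [pow_succ, hh]; ring
    rw [h2] at hi hj
    rw [h2, Finset.sum_range_add]
    simp only [matMul, comb7, facA, facS, List.map_cons, List.map_nil, List.getD_cons_zero,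
      List.getD_cons_succ]
    rw [← hh]
    have S := fun (A B : List (List K)) => sq_matMul s A B
    rw [← hh] at S
    rw [ent_glue (h := h) (by repeat (first | apply sq_addM | apply sq_subM | apply S))
      (by repeat (first | apply sq_addM | apply sq_subM | apply S))
      (by repeat (first | apply sq_addM | apply sq_subM | apply S))
      (by repeat (first | apply sq_addM | apply sq_subM | apply S)) (by omega)]
    have bA := fun (a b : ℕ) => sq_blk h a b A
    have bB := fun (a b : ℕ) => sq_blk h a b B
    split_ifs with hi1 hj1 hj1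
    · rw [ent_addM (sq_subM (sq_addM (S _ _) (S _ _)) (S _ _)) (S _ _) hi1 hj1,
        ent_subM (sq_addM (S _ _) (S _ _)) (S _ _) hi1 hj1,
        ent_addM (S _ _) (S _ _) hi1 hj1]
      rw [ih _ _ hi1 hj1, ih _ _ hi1 hj1, ih _ _ hi1 hj1, ih _ _ hi1 hj1,
        ← Finset.sum_add_distrib, ← Finset.sum_sub_distrib, ← Finset.sum_add_distrib,
        ← Finset.sum_add_distrib]
      refine Finset.sum_congr rfl (fun l hl => ?_)
      rw [Finset.mem_range] at hl
      rw [ent_addM (bA _ _) (bA _ _) hi1 hl, ent_addM (bB _ _) (bB _ _) hl hj1,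
        ent_subM (bB _ _) (bB _ _) hl hj1, ent_addM (bA _ _) (bA _ _) hi1 hl,
        ent_subM (bA _ _) (bA _ _) hi1 hl, ent_addM (bB _ _) (bB _ _) hl hj1]
      simp only [ent_blk _ _ _ hi1 hl, ent_blk _ _ _ hl hj1, add_zero]
      rw [add_comm l h]
      ring
    · have hj2 : j - h < h := by omega
      rw [ent_addM (S _ _) (S _ _) hi1 hj2, ih _ _ hi1 hj2, ih _ _ hi1 hj2,
        ← Finset.sum_add_distrib, ← Finset.sum_add_distrib]
      refine Finset.sum_congr rfl (fun l hl => ?_)
      rw [Finset.mem_range] at hl
      rw [ent_subM (bB _ _) (bB _ _) hl hj2, ent_addM (bA _ _) (bA _ _) hi1 hl]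
      simp only [ent_blk _ _ _ hi1 hl, ent_blk _ _ _ hl hj2, add_zero]
      rw [add_comm l h, Nat.sub_add_cancel (not_lt.1 hj1)]
      ring
    · have hi2 : i - h < h := by omega
      rw [ent_addM (S _ _) (S _ _) hi2 hj1, ih _ _ hi2 hj1, ih _ _ hi2 hj1,
        ← Finset.sum_add_distrib, ← Finset.sum_add_distrib]
      refine Finset.sum_congr rfl (fun l hl => ?_)
      rw [Finset.mem_range] at hl
      rw [ent_subM (bB _ _) (bB _ _) hl hj1, ent_addM (bA _ _) (bA _ _) hi2 hl]
      simp only [ent_blk _ _ _ hi2 hl, ent_blk _ _ _ hl hj1, add_zero]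
      rw [add_comm l h, Nat.sub_add_cancel (not_lt.1 hi1)]
      ring
    · have hi2 : i - h < h := by omega
      have hj2 : j - h < h := by omega
      rw [ent_addM (sq_addM (sq_subM (S _ _) (S _ _)) (S _ _)) (S _ _) hi2 hj2,
        ent_addM (sq_subM (S _ _) (S _ _)) (S _ _) hi2 hj2,
        ent_subM (S _ _) (S _ _) hi2 hj2]
      rw [ih _ _ hi2 hj2, ih _ _ hi2 hj2, ih _ _ hi2 hj2, ih _ _ hi2 hj2,
        ← Finset.sum_sub_distrib, ← Finset.sum_add_distrib, ← Finset.sum_add_distrib,
        ← Finset.sum_add_distrib]
      refine Finset.sum_congr rfl (fun l hl => ?_)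
      rw [Finset.mem_range] at hl
      rw [ent_addM (bA _ _) (bA _ _) hi2 hl, ent_addM (bB _ _) (bB _ _) hl hj2,
        ent_addM (bA _ _) (bA _ _) hi2 hl, ent_subM (bB _ _) (bB _ _) hl hj2,
        ent_subM (bA _ _) (bA _ _) hi2 hl, ent_addM (bB _ _) (bB _ _) hl hj2]
      simp only [ent_blk _ _ _ hi2 hl, ent_blk _ _ _ hl hj2, add_zero]
      rw [add_comm l h, Nat.sub_add_cancel (not_lt.1 hi1), Nat.sub_add_cancel (not_lt.1 hj1)]
      ring

/-! ### Costs -/

namespace MM

omit [Field K] in
theorem zip_map_le (A B : List (List K)) (f : List K × List K → ℕ)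
    (hf : ∀ p : List K × List K, f p ≤ p.1.length + 1) :
    ((A.zip B).map f).sum ≤ tot A := by
  induction A generalizing B with
  | nil => simp
  | cons r A ih =>
    cases B with
    | nil => simp
    | cons t B =>
      have h1 := ih B
      have h2 := hf (r, t)
      simp only [List.zip_cons_cons, List.map_cons, List.sum_cons, tot] at h1 h2 ⊢
      omega

theorem map_sum_le {β : Type} (l : List β) (f : β → ℕ) (B : ℕ) (h : ∀ a ∈ l, f a ≤ B) :
    (l.map f).sum ≤ l.length * B := by
  induction l with
  | nil => simp
  | cons a l ih =>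
    have h1 := ih (fun b hb => h b (List.mem_cons_of_mem _ hb))
    have h2 := h a (List.mem_cons_self ..)
    simp only [List.map_cons, List.sum_cons, List.length_cons]
    rw [Nat.succ_mul]
    omega

theorem addM_ex : ∃ c, ∀ (K : Type) [Field K],
    Comp K (fun z : List (List K) × List (List K) => addM z.1 z.2) c (fun z => tot z.1) :=
  ⟨_, fun K _ => (Comp.zipWith (l := fun z : List (List K) × List (List K) => z.1)
    (m := fun z => z.2) (g := fun _ r t => List.zipWith (fun x y => x + y) r t)).mono
    (fun z => by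
      have h := zip_map_le z.1 z.2 (fun p => min p.1.length p.2.length + 1) (fun p => by omega)
      simp at h ⊢
      exact h)⟩

noncomputable def addMCd : Cd := addM_ex.choose

theorem subM_ex : ∃ c, ∀ (K : Type) [Field K],
    Comp K (fun z : List (List K) × List (List K) => subM z.1 z.2) c (fun z => tot z.1) :=
  ⟨_, fun K _ => (Comp.zipWith (l := fun z : List (List K) × List (List K) => z.1)
    (m := fun z => z.2) (g := fun _ r t => List.zipWith (fun x y => x - y) r t)).mono
    (fun z => by
      have h := zip_map_le z.1 z.2 (fun p => min p.1.length p.2.length + 1) (fun p => by omega)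
      simp at h ⊢
      exact h)⟩

noncomputable def subMCd : Cd := subM_ex.choose

/-- rows of two matrices side by side -/
theorem glueR_ex : ∃ c, ∀ (K : Type) [Field K],
    Comp K (fun z : List (List K) × List (List K) => List.zipWith (fun r t => r ++ t) z.1 z.2) c
      (fun z => tot z.1) :=
  ⟨_, fun K _ => (Comp.zipWith (l := fun z : List (List K) × List (List K) => z.1)
    (m := fun z => z.2) (g := fun _ r t => r ++ t)).mono
    (fun z => by
      have h := zip_map_le z.1 z.2 (fun p => p.1.length + 1) (fun p => le_rfl)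
      simp at h ⊢
      exact h)⟩

noncomputable def glueRCd : Cd := glueR_ex.choose

theorem blk_ex : ∃ c, ∀ (K : Type) [Field K],
    Comp K (fun z : (ℕ × ℕ × ℕ) × List (List K) => blk z.1.1 z.1.2.1 z.1.2.2 z.2) c
      (fun z => (z.1.1 + 1) * (z.1.1 + z.1.2.1 + z.1.2.2 + 1)) :=
  ⟨_, fun K _ => (Comp.map (l := fun z : (ℕ × ℕ × ℕ) × List (List K) => List.range z.1.1)
    (g := fun z i => (((z.2.getD (i + z.1.2.1) []).drop z.1.2.2).take z.1.1 ++
      List.replicate z.1.1 0).take z.1.1)).bigO 20
    (fun z => by
      obtain ⟨⟨h, a, b⟩, A⟩ := z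
      simp only
      refine (Nat.add_le_add_right (Nat.add_le_add_left (map_sum_le (List.range h) _
        (7 * h + 2 * a + b + 1) (fun i hi => ?_)) _) _).trans ?_
      · rw [List.mem_range] at hi
        have := List.length_take_le h (List.drop b (A.getD (i + a) []))
        omega
      · rw [List.length_range]
        nlinarith [Nat.zero_le (h * a), Nat.zero_le (h * b), Nat.zero_le (h * h)])⟩

noncomputable def blkCd : Cd := blk_ex.choose

theorem tot_addM (A B : List (List K)) : tot (addM A B) ≤ tot A := by
  induction A generalizing B with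
  | nil => simp [addM, tot]
  | cons r A ih =>
    cases B with
    | nil => simp [addM, tot]
    | cons t B =>
      have h1 := ih B
      simp only [tot, addM, List.zipWith_cons_cons, List.map_cons, List.sum_cons,
        List.length_zipWith] at h1 ⊢
      omega

theorem tot_subM (A B : List (List K)) : tot (subM A B) ≤ tot A := by
  induction A generalizing B with
  | nil => simp [subM, tot]
  | cons r A ih =>
    cases B with
    | nil => simp [subM, tot]
    | cons t B =>
      have h1 := ih B
      simp only [tot, subM, List.zipWith_cons_cons, List.map_cons, List.sum_cons,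
        List.length_zipWith] at h1 ⊢
      omega

section

variable {K : Type} [Field K] {α : Type} [Enc K α] {f g : α → List (List K)} {c d : Cd}
  {T T' : α → ℕ}

instance _root_.Pool.Agent.TreeRAM.Comp.addM [h : Comp K f c T] [h' : Comp K g d T'] :
    Comp K (fun x => addM (f x) (g x)) (addMCd.comp (c.pair d)) (fun x => T x + T' x + tot (f x)) :=
  (addM_ex.choose_spec K).app2 h h'

instance _root_.Pool.Agent.TreeRAM.Comp.subM [h : Comp K f c T] [h' : Comp K g d T'] :
    Comp K (fun x => subM (f x) (g x)) (subMCd.comp (c.pair d)) (fun x => T x + T' x + tot (f x)) :=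
  (subM_ex.choose_spec K).app2 h h'

theorem _root_.Pool.Agent.TreeRAM.Comp.glueR [h : Comp K f c T] [h' : Comp K g d T'] :
    Comp K (fun x => List.zipWith (fun r t => r ++ t) (f x) (g x)) (glueRCd.comp (c.pair d))
      (fun x => T x + T' x + tot (f x)) :=
  (glueR_ex.choose_spec K).app2 h h'

instance _root_.Pool.Agent.TreeRAM.Comp.blk {n a b : α → ℕ} {cn ca cb : Cd} {Tn Ta Tb : α → ℕ}
    [hn : Comp K n cn Tn] [ha : Comp K a ca Ta] [hb : Comp K b cb Tb] [h : Comp K f c T] :
    Comp K (fun x => blk (n x) (a x) (b x) (f x)) (blkCd.comp ((cn.pair (ca.pair cb)).pair c))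
      (fun x => Tn x + (Ta x + Tb x) + T x + (n x + 1) * (n x + a x + b x + 1)) :=
  (blk_ex.choose_spec K).app2 (f := fun x => (n x, a x, b x)) (f' := f)
    (Comp.pair (h' := Comp.pair)) h

end

/-- the four blocks -/
def blk4 (h : ℕ) (A : List (List K)) :
    (List (List K) × List (List K)) × (List (List K) × List (List K)) :=
  ((blk h 0 0 A, blk h 0 h A), (blk h h 0 A, blk h h h A))

theorem blk4_ex : ∃ c, ∀ (K : Type) [Field K],
    Comp K (fun z : ℕ × List (List K) => blk4 z.1 z.2) c (fun z => (z.1 + 1) ^ 2) :=
  ⟨_, fun K _ => by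
    have h1 : Comp K (fun z : ℕ × List (List K) => blk z.1 0 0 z.2) _ _ := inferInstance
    have h2 : Comp K (fun z : ℕ × List (List K) => blk z.1 0 z.1 z.2) _ _ := inferInstance
    have h3 : Comp K (fun z : ℕ × List (List K) => blk z.1 z.1 0 z.2) _ _ := inferInstance
    have h4 : Comp K (fun z : ℕ × List (List K) => blk z.1 z.1 z.1 z.2) _ _ := inferInstance
    exact (((Comp.pair (h := Comp.pair (h := h1) (h' := h2)) (h' := Comp.pair (h := h3)
      (h' := h4)))).congr (fun z => rfl)).bigO 20 (fun z => by
        nlinarith [Nat.zero_le z.1])⟩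

noncomputable def blk4Cd : Cd := blk4_ex.choose

/-- the seven pairs of factors from the blocks -/
def facP (w : ((List (List K) × List (List K)) × (List (List K) × List (List K))) ×
    ((List (List K) × List (List K)) × (List (List K) × List (List K)))) :
    List (List (List K) × List (List K)) :=
  facS w.1.1.1 w.1.1.2 w.1.2.1 w.1.2.2 w.2.1.1 w.2.1.2 w.2.2.1 w.2.2.2

theorem facP_ex : ∃ c, ∀ (K : Type) [Field K],
    Comp K (fun w : ((List (List K) × List (List K)) × (List (List K) × List (List K))) ×
    ((List (List K) × List (List K)) × (List (List K) × List (List K))) => facP w) c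
      (fun w => tot w.1.1.1 + tot w.1.1.2 + tot w.1.2.1 + tot w.1.2.2 +
        (tot w.2.1.1 + tot w.2.1.2 + tot w.2.2.1 + tot w.2.2.2)) :=
  ⟨_, fun K _ => by
    have h1 : Comp K (fun w : ((List (List K) × List (List K)) × (List (List K) × List (List K))) ×
      ((List (List K) × List (List K)) × (List (List K) × List (List K))) =>
        (addM w.1.1.1 w.1.2.2, addM w.2.1.1 w.2.2.2)) _ _ := inferInstance
    have h2 : Comp K (fun w : ((List (List K) × List (List K)) × (List (List K) × List (List K))) ×
      ((List (List K) × List (List K)) × (List (List K) × List (List K))) =>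
        (addM w.1.2.1 w.1.2.2, w.2.1.1)) _ _ := inferInstance
    have h3 : Comp K (fun w : ((List (List K) × List (List K)) × (List (List K) × List (List K))) ×
      ((List (List K) × List (List K)) × (List (List K) × List (List K))) =>
        (w.1.1.1, subM w.2.1.2 w.2.2.2)) _ _ := inferInstance
    have h4 : Comp K (fun w : ((List (List K) × List (List K)) × (List (List K) × List (List K))) ×
      ((List (List K) × List (List K)) × (List (List K) × List (List K))) =>
        (w.1.2.2, subM w.2.2.1 w.2.1.1)) _ _ := inferInstance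
    have h5 : Comp K (fun w : ((List (List K) × List (List K)) × (List (List K) × List (List K))) ×
      ((List (List K) × List (List K)) × (List (List K) × List (List K))) =>
        (addM w.1.1.1 w.1.1.2, w.2.2.2)) _ _ := inferInstance
    have h6 : Comp K (fun w : ((List (List K) × List (List K)) × (List (List K) × List (List K))) ×
      ((List (List K) × List (List K)) × (List (List K) × List (List K))) =>
        (subM w.1.2.1 w.1.1.1, addM w.2.1.1 w.2.1.2)) _ _ := inferInstance
    have h7 : Comp K (fun w : ((List (List K) × List (List K)) × (List (List K) × List (List K))) ×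
      ((List (List K) × List (List K)) × (List (List K) × List (List K))) =>
        (subM w.1.1.2 w.1.2.2, addM w.2.2.1 w.2.2.2)) _ _ := inferInstance
    exact ((Comp.cons (h := h1) (h' := Comp.cons (h := h2) (h' := Comp.cons (h := h3)
      (h' := Comp.cons (h := h4) (h' := Comp.cons (h := h5) (h' := Comp.cons (h := h6)
      (h' := Comp.cons (h := h7) (h' := Comp.nilLit)))))))).congr (fun w => rfl)).bigO 3
      (fun w => by omega)⟩

theorem facA_ex : ∃ c, ∀ (K : Type) [Field K],
    Comp K (fun z : ℕ × List (List K) × List (List K) => facA z.1 z.2.1 z.2.2) c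
      (fun z => (z.1 + 1) ^ 2) := by
  obtain ⟨cb, hb⟩ := blk4_ex
  obtain ⟨cp, hp⟩ := facP_ex
  exact ⟨_, fun K _ => (((hp K).comp (Comp.pair
    (h := (hb K).comp (f := fun z : ℕ × List (List K) × List (List K) => (z.1, z.2.1))
      inferInstance)
    (h' := (hb K).comp (f := fun z : ℕ × List (List K) × List (List K) => (z.1, z.2.2))
      inferInstance))).congr (fun z => rfl)).bigO 20 (fun z => by
        simp only [blk4, (sq_blk _ _ _ _).tot]
        nlinarith [Nat.zero_le z.1])⟩

theorem comb7_ex : ∃ c, ∀ (K : Type) [Field K],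
    Comp K (fun R : List (List (List K)) => comb7 R) c
      (fun R => tot (R.getD 0 []) + tot (R.getD 1 []) + tot (R.getD 2 []) + tot (R.getD 3 [])) :=
  ⟨_, fun K _ => by
    have h1 : Comp K (fun R : List (List (List K)) =>
      addM (subM (addM (R.getD 0 []) (R.getD 3 [])) (R.getD 4 [])) (R.getD 6 [])) _ _ :=
        inferInstance
    have h2 : Comp K (fun R : List (List (List K)) =>
      addM (R.getD 2 []) (R.getD 4 [])) _ _ := inferInstance
    have h3 : Comp K (fun R : List (List (List K)) =>
      addM (R.getD 1 []) (R.getD 3 [])) _ _ := inferInstance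
    have h4 : Comp K (fun R : List (List (List K)) =>
      addM (addM (subM (R.getD 0 []) (R.getD 1 [])) (R.getD 2 [])) (R.getD 5 [])) _ _ :=
        inferInstance
    exact ((Comp.append (h := Comp.glueR (h := h1) (h' := h2))
      (h' := Comp.glueR (h := h3) (h' := h4))).congr (fun w => rfl)).bigO 50
      (fun w => by
        have e1 := tot_addM (w.getD 0 []) (w.getD 3 [])
        have e2 := tot_subM (addM (w.getD 0 []) (w.getD 3 [])) (w.getD 4 [])
        have e3 := tot_addM (subM (addM (w.getD 0 []) (w.getD 3 [])) (w.getD 4 [])) (w.getD 6 [])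
        have e4 := tot_subM (w.getD 0 []) (w.getD 1 [])
        have e5 := tot_addM (w.getD 1 []) (w.getD 3 [])
        have e6 : ∀ A B : List (List K), (List.zipWith (fun r t => r ++ t) A B).length ≤ tot A := by
          intro A B
          rw [List.length_zipWith]
          refine (min_le_left _ _).trans ?_
          unfold tot
          induction A with
          | nil => simp
          | cons r A ih => simp only [List.length_cons, List.map_cons, List.sum_cons]; omega
        have e7 := e6 (addM (subM (addM (w.getD 0 []) (w.getD 3 [])) (w.getD 4 [])) (w.getD 6 []))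
          (addM (w.getD 2 []) (w.getD 4 []))
        have e8 := tot_addM (subM (w.getD 0 []) (w.getD 1 [])) (w.getD 2 [])
        omega)⟩

/-- the cost of the recursion -/
def mmT (t D : ℕ) : ℕ → ℕ
  | 0 => t
  | s + 1 => 7 * mmT t D s + 14 + D * 4 ^ (s + 1)

theorem mmT_le (t D s : ℕ) : mmT t D s + (2 * D + 5) * 4 ^ s ≤ (t + 2 * D + 5) * 7 ^ s := by
  induction s with
  | zero => simp [mmT]; omega
  | succ s ih =>
    simp only [mmT, pow_succ]
    have : 1 ≤ 4 ^ s := Nat.one_le_pow _ _ (by norm_num)
    nlinarith [Nat.zero_le (D * 4 ^ s)]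

end MM

theorem matMul_ex : ∃ c, ∀ (K : Type) [Field K],
    Comp K (fun z : ℕ × List (List K) × List (List K) => matMul z.1 z.2.1 z.2.2) c
      (fun z => 7 ^ z.1) := by
  obtain ⟨cf, hf⟩ := facA_ex
  obtain ⟨cc, hc⟩ := comb7_ex
  exact ⟨_, fun K _ => by
    have h0 : Comp K (fun z : ℕ × List (List K) × List (List K) => decide (z.1 = 0)) _ _ :=
      inferInstance
    have h1 : Comp K (fun z : ℕ × List (List K) × List (List K) =>
      [[(z.2.1.getD 0 []).getD 0 0 * (z.2.2.getD 0 []).getD 0 0]]) _ _ := inferInstance
    have hfa : Comp K (fun z : ℕ × List (List K) × List (List K) =>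
        facA (2 ^ (z.1 - 1)) z.2.1 z.2.2) _ _ :=
      (hf K).comp (f := fun z : ℕ × List (List K) × List (List K) => (2 ^ (z.1 - 1), z.2))
        inferInstance
    have h2 : Comp K (fun z : ℕ × List (List K) × List (List K) =>
        ((facA (2 ^ (z.1 - 1)) z.2.1 z.2.2).map (fun p => (z.1 - 1, p))).reverse) _ _ :=
      Comp.reverse (h := Comp.map (h := hfa) (g := fun z p => (z.1 - 1, p)))
    have h3 : Comp K (fun w : (ℕ × List (List K) × List (List K)) × List (List (List K)) =>
        comb7 w.2) (cc.comp Cd.id.snd) (fun w => tot (w.2.getD 0 []) + tot (w.2.getD 1 []) +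
          tot (w.2.getD 2 []) + tot (w.2.getD 3 [])) :=
      ((hc K).comp (f := fun w : (ℕ × List (List K) × List (List K)) ×
          List (List (List K)) => w.2) inferInstance).mono (fun w => by rw [zero_add])
    exact (Comp.fix' (K := K) (T := fun z => mmT 100 1000 z.1) (fun z => z.1) h0 h1 h2
      (join := fun w => comb7 w.2) (c3 := cc.comp Cd.id.snd)
      (T3 := fun w => tot (w.2.getD 0 []) + tot (w.2.getD 1 []) +
          tot (w.2.getD 2 []) + tot (w.2.getD 3 []))
      (fun x res _ => h3.run (x, res))
      (f := fun z : ℕ × List (List K) × List (List K) => matMul z.1 z.2.1 z.2.2)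
      (subs := fun z => (facA (2 ^ (z.1 - 1)) z.2.1 z.2.2).map (fun p => (z.1 - 1, p)))
      (by
        rintro ⟨s, A, B⟩ h
        cases s with
        | zero => rfl
        | succ s => simp at h)
      (by
        rintro ⟨s, A, B⟩ h
        cases s with
        | zero => simp at h
        | succ s => simp only [matMul, Nat.add_sub_cancel, List.map_map]; rfl)
      (by
        rintro ⟨s, A, B⟩ h y hy
        cases s with
        | zero => simp at h
        | succ s =>
          simp only [List.mem_map] at hy
          obtain ⟨p, -, rfl⟩ := hy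
          simp)
      (by
        rintro ⟨s, A, B⟩ h
        simp at h
        subst h
        simp [mmT])
      (by
        rintro ⟨s, A, B⟩ h
        cases s with
        | zero => simp at h
        | succ s =>
          simp only [Nat.add_sub_cancel, facA, facS, List.map_cons, List.map_nil,
            List.getD_cons_zero, List.getD_cons_succ, (sq_matMul _ _ _).tot, mmT]
          have e1 : 2 ^ s ≤ 4 ^ s := Nat.pow_le_pow_left (by norm_num) _
          have e2 : 2 ^ s * 2 ^ s = 4 ^ s := by rw [← mul_pow]; norm_num
          have e3 : 1 ≤ 4 ^ s := Nat.one_le_pow _ _ (by norm_num)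
          have e4 : (4 : ℕ) ^ (s + 1) = 4 * 4 ^ s := by ring
          rw [e4]
          simp only [List.sum_cons, List.sum_nil, List.length_cons, List.length_nil]
          nlinarith)).bigO 3000 (fun z => by
        have := mmT_le 100 1000 z.1
        omega)⟩

noncomputable def matMulCd : Cd := matMul_ex.choose

instance _root_.Pool.Agent.TreeRAM.Comp.matMul {K : Type} [Field K] {α : Type} [Enc K α]
    {n : α → ℕ} {f g : α → List (List K)} {cn c d : Cd} {Tn T T' : α → ℕ}
    [hn : Comp K n cn Tn] [h : Comp K f c T] [h' : Comp K g d T'] :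
    Comp K (fun x => matMul (n x) (f x) (g x)) (matMulCd.comp (cn.pair (c.pair d)))
      (fun x => Tn x + (T x + T' x) + 7 ^ n x) :=
  (matMul_ex.choose_spec K).app2 (f := n) (f' := fun x => (f x, g x)) hn Comp.pair

end Pool.Agent.BiFac

end

section

set_option autoImplicit false

namespace Pool.Agent.BiFac

open Polynomial

variable {K : Type} [Field K]

/-- the constant vectors lie in the window space -/
theorem inW_of_constOn {σ r d D ρ : ℕ} {F : K[X][X]} {P : Fin r → K[X][X]} (h : Lifted σ F P)
    (hd : F.natDegree = d) (hσ : D + d + ρ ≤ σ) (c : Fin d → Fin (D + 1) → K) (μ : Fin r → K)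
    (hμ : ConstOn F P μ) : InW P d D ρ (hpoly c) μ := by
  classical
  intro j hj
  choose f hf1 hf2 hf3 hf4 using fun i => h.exists_factor i
  have huniq : ∀ i i', Bel P (f i') i → f i = f i' := fun i i' hb =>
    h.factor_unique (hf1 i) (hf2 i) (hf3 i) (hf1 i') (hf2 i') (hf3 i') (hf4 i) hb
  unfold Smu
  have hmaps : ∀ i ∈ (Finset.univ : Finset (Fin r)), f i ∈ Finset.univ.image f := fun i _ =>
    Finset.mem_image_of_mem f (Finset.mem_univ i)
  rw [← Finset.sum_fiberwise_of_maps_to hmaps, finsetSum_coeff]
  apply Finset.sum_eq_zero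
  intro g hg
  obtain ⟨i0, -, rfl⟩ := Finset.mem_image.1 hg
  have hfil : (Finset.univ.filter fun i => f i = f i0) = Finset.univ.filter (Bel P (f i0)) := by
    ext i
    simp only [Finset.mem_filter, Finset.mem_univ, true_and]
    constructor
    · intro hi
      rw [← hi]
      exact hf4 i
    · exact huniq i i0
  rw [hfil]
  have hsum : ∑ i ∈ Finset.univ.filter (Bel P (f i0)), C (μ i) * tau (P i) (hpoly c)
      = C (μ i0) * tau (∏ i ∈ Finset.univ.filter (Bel P (f i0)), P i) (hpoly c) := by
    rw [tau_prod _ (fun i _ => h.monic_i i), Finset.mul_sum]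
    apply Finset.sum_congr rfl
    intro i hi
    rw [Finset.mem_filter] at hi
    rw [hμ (f i0) (hf1 i0) (hf3 i0) i i0 hi.2 (hf4 i0)]
  rw [hsum, coeff_C_mul]
  obtain ⟨hcg, -, -, hft⟩ := h.factor (hf2 i0) (hf3 i0)
  have hdvd := tau_cg (hf2 i0) (monic_prod_of_monic _ P fun i _ => h.monic_i i) hcg (hpoly c)
  have hle := natDegree_tau_le (hf2 i0) hft (tdeg_hpoly c)
  have hdpos : 0 < d := by
    have h1 : 0 < (P i0).natDegree := h.natDegree_pos i0
    have h2 : F.natDegree = ∑ i, (P i).natDegree := h.natDegree_eq
    have h3 : (P i0).natDegree ≤ ∑ i, (P i).natDegree :=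
      Finset.single_le_sum (f := fun i => (P i).natDegree) (fun _ _ => Nat.zero_le _)
        (Finset.mem_univ i0)
    omega
  have hz : (tau (f i0) (hpoly c)).coeff (D + d + j) = 0 :=
    coeff_eq_zero_of_natDegree_lt (by omega)
  have he := (X_pow_dvd_iff.1 hdvd) (D + d + j) (by omega)
  rw [coeff_sub, hz, zero_sub, neg_eq_zero] at he
  rw [he, mul_zero]

end Pool.Agent.BiFac

end

section

/-!
# Arithmetic of bivariate polynomials with precision `w`
-/

set_option autoImplicit false

namespace Pool.Agent.BiFac

open Polynomial Pool.Agent.TreeRAM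

variable {K : Type} [Field K]

omit [Field K] in
theorem Fits.mono {E : MEnv K} {n m w : ℕ} (h : Fits E n w) (hmn : m ≤ n) : Fits E m w :=
  le_trans (Nat.mul_le_mul_right _ (by omega)) h

/-! ### A criterion for congruence -/

theorem cg_C {w : ℕ} {a b : K[X]} (h : X ^ w ∣ a - b) : Cg w (C a) (C b) := by
  obtain ⟨q, hq⟩ := h
  exact ⟨C q, by rw [← C_sub, hq, C_mul]⟩

theorem cg_zero_prec (F G : K[X][X]) : Cg 0 F G := by
  unfold Cg
  simp

theorem toB_eq_head_tail (b : List (List K)) :
    toB b = C (toP (b.headD [])) + X * toB b.tail := by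
  cases b <;> simp

/-! ### Packing and unpacking -/

/-- Rows cut or padded to length `w`, then padded to length `2 w` and concatenated. -/
def pack (w : ℕ) (a : List (List K)) : List K :=
  (a.map (fun r => padTo (w + w) (padTo w r))).flatten

/-- Cut into `n` chunks of length `2 w` and keep the first `w` entries of every chunk. -/
def unpack (w : ℕ) : ℕ → List K → List (List K)
  | 0, _ => []
  | n + 1, l => padTo w l :: unpack w n (l.drop (w + w))

theorem length_pack (w : ℕ) (a : List (List K)) : (pack w a).length = a.length * (w + w) := by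
  induction a with
  | nil => simp [pack]
  | cons r a ih =>
    have h : pack w (r :: a) = padTo (w + w) (padTo w r) ++ pack w a := rfl
    rw [h, List.length_append, ih, length_padTo, List.length_cons]
    ring

theorem length_unpack (w n : ℕ) (l : List K) : (unpack w n l).length = n := by
  induction n generalizing l with
  | zero => rfl
  | succ n ih => simp [unpack, ih]

theorem rows_unpack (w n : ℕ) (l : List K) : ∀ r ∈ unpack w n l, r.length = w := by
  induction n generalizing l with
  | zero => simp [unpack]
  | succ n ih =>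
    intro r hr
    rw [unpack, List.mem_cons] at hr
    rcases hr with rfl | hr
    · exact length_padTo _ _
    · exact ih _ r hr

/-- Kronecker substitution. -/
theorem toP_pack (w : ℕ) (a : List (List K)) :
    toP (pack w a) = (toB (a.map (padTo w))).eval (X ^ (w + w)) := by
  induction a with
  | nil => simp [pack]
  | cons r a ih =>
    have h : pack w (r :: a) = padTo (w + w) (padTo w r) ++ pack w a := rfl
    rw [h, toP_append, length_padTo, ih, toP_padTo (by rw [length_padTo]; omega), List.map_cons,
      toB_cons]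
    simp

theorem coeff_toP_drop (d : ℕ) (l : List K) (i : ℕ) :
    (toP (l.drop d)).coeff i = (toP l).coeff (d + i) := by
  rw [coeff_toP, coeff_toP, List.getD_eq_getElem?_getD, List.getD_eq_getElem?_getD,
    List.getElem?_drop]

theorem cg_unpack (w n : ℕ) (l : List K) (Q : K[X][X]) (hn : ∀ j, n ≤ j → Q.coeff j = 0)
    (hw : ∀ j m, w + w ≤ m → (Q.coeff j).coeff m = 0) (hl : toP l = Q.eval (X ^ (w + w))) :
    Cg w (toB (unpack w n l)) Q := by
  induction n generalizing l Q with
  | zero =>
    have : Q = 0 := by
      ext1 j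
      rw [hn j (Nat.zero_le _), coeff_zero]
    rw [this]
    exact Cg.refl _ _
  | succ n ih =>
    have hQ : Q = C (Q.coeff 0) + X * divX Q := by
      conv_lhs => rw [← X_mul_divX_add Q]
      ring
    have hl' : toP l = Q.coeff 0 + X ^ (w + w) * (divX Q).eval (X ^ (w + w)) := by
      rw [hl]
      conv_lhs => rw [hQ]
      simp
    have h1 : Cg w (C (toP (padTo w l))) (C (Q.coeff 0)) := by
      apply cg_C
      rw [X_pow_dvd_iff]
      intro d hd
      have hd' : ¬ (w + w ≤ d) := by omega
      rw [coeff_sub, coeff_toP, getD_padTo, if_pos hd, ← coeff_toP, hl', coeff_add,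
        coeff_X_pow_mul', if_neg hd', add_zero, sub_self]
    have h2 : Cg w (toB (unpack w n (l.drop (w + w)))) (divX Q) := by
      apply ih
      · intro j hj
        rw [coeff_divX]
        exact hn _ (by omega)
      · intro j m hm
        rw [coeff_divX]
        exact hw _ _ hm
      · ext i
        rw [coeff_toP_drop, hl', coeff_add, hw 0 _ (by omega), zero_add, coeff_X_pow_mul',
          if_pos (by omega)]
        congr 1
        omega
    rw [unpack, toB_cons]
    conv_rhs => rw [hQ]
    exact h1.add ((Cg.refl w X).mul h2)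

theorem coeff_padTo_zero (w : ℕ) (a : List (List K)) (j m : ℕ) (hm : w ≤ m) :
    ((toB (a.map (padTo w))).coeff j).coeff m = 0 := by
  rw [coeff_toB, coeff_toP]
  apply List.getD_eq_default
  by_cases hj : j < a.length
  · rw [List.getD_eq_getElem _ _ (by simpa using hj), List.getElem_map, length_padTo]
    exact hm
  · rw [List.getD_eq_default _ _ (by simpa using hj)]
    simp

/-- Product. -/
def bmul (E : MEnv K) (w : ℕ) (a b : List (List K)) : List (List K) :=
  unpack w (a.length + b.length - 1) (fmul E (pack w a) (pack w b))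

theorem cg_bmul_of_cap {E : MEnv K} (hE : E.Good) {w : ℕ} {a b : List (List K)}
    (hf : 2 * (a.length + b.length + 1) * (w + 1) ≤ E.cap) :
    Cg w (toB (bmul E w a b)) (toB a * toB b) := by
  have hcap : ∀ c : List (List K), c.length ≤ a.length + b.length →
      (pack w c).length ≤ E.cap := by
    intro c hc
    rw [length_pack]
    refine le_trans ?_ hf
    nlinarith [Nat.zero_le (c.length * w), Nat.mul_le_mul_right w hc,
      Nat.zero_le ((a.length + b.length) * w)]
  refine Cg.trans ?_ ((cg_map_padTo w a).mul (cg_map_padTo w b))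
  apply cg_unpack
  · intro j hj
    rw [coeff_mul]
    apply Finset.sum_eq_zero
    rintro ⟨i1, i2⟩ hi
    rw [Finset.HasAntidiagonal.mem_antidiagonal] at hi
    simp only at hi ⊢
    by_cases h1 : a.length ≤ i1
    · rw [coeff_toB, List.getD_eq_default _ _ (by simpa using h1), toP_nil, zero_mul]
    · by_cases h2 : b.length ≤ i2
      · rw [coeff_toB _ i2, List.getD_eq_default _ _ (by simpa using h2), toP_nil, mul_zero]
      · exfalso
        omega
  · intro j m hm
    rw [coeff_mul, finsetSum_coeff]
    apply Finset.sum_eq_zero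
    rintro ⟨i1, i2⟩ _
    rw [coeff_mul]
    apply Finset.sum_eq_zero
    rintro ⟨m1, m2⟩ hm12
    rw [Finset.HasAntidiagonal.mem_antidiagonal] at hm12
    simp only at hm12 ⊢
    by_cases h1 : w ≤ m1
    · rw [coeff_padTo_zero w a i1 m1 h1, zero_mul]
    · rw [coeff_padTo_zero w b i2 m2 (by omega), mul_zero]
  · rw [toP_fmul hE (hcap a (by omega)) (hcap b (by omega)), toP_pack, toP_pack, eval_mul]

theorem cg_bmul {E : MEnv K} (hE : E.Good) {w : ℕ} {a b : List (List K)}
    (hf : Fits E (a.length + b.length) w) : Cg w (toB (bmul E w a b)) (toB a * toB b) :=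
  cg_bmul_of_cap hE (le_trans (Nat.mul_le_mul_right _ (by omega)) hf)

theorem length_bmul (E : MEnv K) (w : ℕ) (a b : List (List K)) :
    (bmul E w a b).length = a.length + b.length - 1 := length_unpack _ _ _

theorem rows_bmul (E : MEnv K) (w : ℕ) (a b : List (List K)) :
    ∀ r ∈ bmul E w a b, r.length = w := rows_unpack _ _ _

theorem pack_ex : ∃ c, ∀ (K : Type) [Field K],
    Comp K (fun z : ℕ × List (List K) => pack z.1 z.2) c
      (fun z => (z.2.length + 1) * (z.1 + 1)) :=
  ⟨_, fun K _ => (Comp.flatten (K := K) (l := fun z : ℕ × List (List K) =>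
    z.2.map (fun r => padTo (z.1 + z.1) (padTo z.1 r)))).bigO 8 (fun z => by
      simp only [List.map_map, Function.comp_def, length_padTo, List.map_const', List.sum_replicate,
        smul_eq_mul]
      nlinarith [Nat.zero_le (z.2.length * z.1)])⟩

noncomputable def packCd : Cd := pack_ex.choose

instance compPack {α : Type} [Enc K α] {f : α → ℕ} {g : α → List (List K)} {c d : Cd}
    {T T' : α → ℕ} [h : Comp K f c T] [h' : Comp K g d T'] : Comp K (fun x => pack (f x) (g x))
      (packCd.comp (c.pair d)) (fun x => T x + T' x + ((g x).length + 1) * (f x + 1)) :=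
  (pack_ex.choose_spec K).app2 h h'

theorem unpack_ex : ∃ c, ∀ (K : Type) [Field K],
    Comp K (fun z : ℕ × ℕ × List K => unpack z.1 z.2.1 z.2.2) c
      (fun z => (z.2.1 + 1) * (z.1 + 1)) :=
  ⟨_, fun K _ => (Comp.rec1 (K := K)
    (isLeaf := fun z : ℕ × ℕ × List K => decide (z.2.1 = 0))
    (leaf := fun _ => []) (next := fun z => (z.1, z.2.1 - 1, z.2.2.drop (z.1 + z.1)))
    (join := fun z r => padTo z.1 z.2.2 :: r)
    (T := fun z => z.2.1 * (8 * (z.1 + 1)))
    (fun z => z.2.1)
    (by rintro ⟨w, n, l⟩ h; cases n <;> simp_all [unpack])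
    (by rintro ⟨w, n, l⟩ h; cases n <;> simp_all [unpack])
    (by rintro ⟨w, n, l⟩ h; cases n <;> simp_all)
    (by rintro ⟨w, n, l⟩ h; cases n <;> simp_all)
    (by
      rintro ⟨w, n, l⟩ h
      cases n with
      | zero => simp_all
      | succ n =>
        simp only [Nat.add_sub_cancel, zero_add, add_zero]
        have : (n + 1) * (8 * (w + 1)) = n * (8 * (w + 1)) + 8 * (w + 1) := by ring
        omega)).bigO 8 (fun z => by nlinarith [Nat.zero_le (z.2.1 * z.1)])⟩

noncomputable def unpackCd : Cd := unpack_ex.choose

instance compUnpack {α : Type} [Enc K α] {f g : α → ℕ} {l : α → List K} {c d e : Cd}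
    {T T' T'' : α → ℕ} [h : Comp K f c T] [h' : Comp K g d T'] [h'' : Comp K l e T''] :
    Comp K (fun x => unpack (f x) (g x) (l x)) (unpackCd.comp (c.pair (d.pair e)))
      (fun x => T x + (T' x + T'' x) + (g x + 1) * (f x + 1)) :=
  (unpack_ex.choose_spec K).comp (Comp.pair (h := h) (h' := Comp.pair (h := h') (h' := h'')))

theorem bmul_ex : ∃ c, ∀ (K : Type) [Field K],
    Comp K (fun z : MEnv K × ℕ × List (List K) × List (List K) =>
      bmul z.1 z.2.1 z.2.2.1 z.2.2.2) c
      (fun z => (z.2.2.1.length + z.2.2.2.length + 1) * (z.2.1 + 1) * (z.1.1 + 1)) := by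
  obtain ⟨cf, hcf⟩ := fmul_ex
  exact ⟨_, fun K _ => (compUnpack (K := K)
    (f := fun z : MEnv K × ℕ × List (List K) × List (List K) => z.2.1)
    (g := fun z => z.2.2.1.length + z.2.2.2.length - 1)
    (l := fun z => fmul z.1 (pack z.2.1 z.2.2.1) (pack z.2.1 z.2.2.2))
    (h'' := (hcf K).comp (f := fun z : MEnv K × ℕ × List (List K) × List (List K) =>
      (z.1, pack z.2.1 z.2.2.1, pack z.2.1 z.2.2.2)) Comp.pair)).bigO 20 (fun z => by
        obtain ⟨⟨S, V, W⟩, w, a, b⟩ := z
        simp only [length_pack]
        have h1 : a.length + b.length - 1 ≤ a.length + b.length := Nat.sub_le _ _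
        generalize a.length = x at *
        generalize b.length = y at *
        generalize x + y - 1 = t at *
        have e1 : (t + 1) * (w + 1) ≤ (x + y + 1) * (w + 1) := Nat.mul_le_mul_right _ (by omega)
        have e2 : (x + y + 1) * (w + 1) ≤ (x + y + 1) * (w + 1) * (S + 1) :=
          Nat.le_mul_of_pos_right _ (by omega)
        have e3 : (x * (w + w) + y * (w + w) + 1) * (S + 1) ≤
            2 * ((x + y + 1) * (w + 1)) * (S + 1) := by
          apply Nat.mul_le_mul_right
          nlinarith [Nat.zero_le (x * w), Nat.zero_le (y * w)]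
        have e4 : (x + 1) * (w + 1) ≤ (x + y + 1) * (w + 1) := Nat.mul_le_mul_right _ (by omega)
        have e5 : (y + 1) * (w + 1) ≤ (x + y + 1) * (w + 1) := Nat.mul_le_mul_right _ (by omega)
        have e6 : x + y + 1 ≤ (x + y + 1) * (w + 1) := Nat.le_mul_of_pos_right _ (by omega)
        have e7 : 2 * ((x + y + 1) * (w + 1)) * (S + 1) =
          2 * ((x + y + 1) * (w + 1) * (S + 1)) := by ring
        have e8 : min (x + y) 1 ≤ 1 := min_le_right _ _
        omega)⟩

noncomputable def bmulCd : Cd := bmul_ex.choose

instance compBmul {α : Type} [Enc K α] {E : α → MEnv K} {w : α → ℕ} {f g : α → List (List K)}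
    {c1 c2 c3 c4 : Cd} {T1 T2 T3 T4 : α → ℕ} [h1 : Comp K E c1 T1] [h2 : Comp K w c2 T2]
    [h3 : Comp K f c3 T3] [h4 : Comp K g c4 T4] :
    Comp K (fun x => bmul (E x) (w x) (f x) (g x)) (bmulCd.comp (c1.pair (c2.pair (c3.pair c4))))
      (fun x => T1 x + (T2 x + (T3 x + T4 x)) +
        ((f x).length + (g x).length + 1) * (w x + 1) * ((E x).1 + 1)) :=
  (bmul_ex.choose_spec K).comp (Comp.pair (h := h1) (h' := Comp.pair (h := h2)
    (h' := Comp.pair (h := h3) (h' := h4))))

/-! ### Sum -/

/-- Sum. -/
def badd (w : ℕ) : List (List K) → List (List K) → List (List K)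
  | [], b => b.map (padTo w)
  | r :: a, b => addP (padTo w r) (padTo w (b.headD [])) :: badd w a b.tail

theorem cg_padTo (w : ℕ) (r : List K) : Cg w (C (toP (padTo w r))) (C (toP r)) :=
  cg_C (X_pow_dvd_padTo w r)

theorem cg_badd (w : ℕ) (a b : List (List K)) :
    Cg w (toB (badd w a b)) (toB a + toB b) := by
  induction a generalizing b with
  | nil =>
    simp only [badd, toB_nil, zero_add]
    exact cg_map_padTo w b
  | cons r a ih =>
    rw [badd, toB_cons, toP_addP, C_add, toB_cons, toB_eq_head_tail b]
    have h := ((cg_padTo w r).add (cg_padTo w (b.headD []))).add ((Cg.refl w X).mul (ih b.tail))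
    have e : C (toP r) + C (toP (b.headD [])) + X * (toB a + toB b.tail) =
        C (toP r) + X * toB a + (C (toP (b.headD [])) + X * toB b.tail) := by ring
    rw [e] at h
    exact h

theorem length_badd (w : ℕ) (a b : List (List K)) :
    (badd w a b).length = max a.length b.length := by
  induction a generalizing b with
  | nil => simp [badd]
  | cons r a ih =>
    rw [badd, List.length_cons, ih, List.length_tail, List.length_cons]
    omega

theorem rows_badd (w : ℕ) (a b : List (List K)) : ∀ r ∈ badd w a b, r.length = w := by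
  induction a generalizing b with
  | nil =>
    intro r hr
    simp only [badd, List.mem_map] at hr
    obtain ⟨s, -, rfl⟩ := hr
    exact length_padTo _ _
  | cons r a ih =>
    intro s hs
    rw [badd, List.mem_cons] at hs
    rcases hs with rfl | hs
    · rw [length_addP, length_padTo, length_padTo, max_self]
    · exact ih _ s hs

theorem badd_ex : ∃ c, ∀ (K : Type) [Field K],
    Comp K (fun z : ℕ × List (List K) × List (List K) => badd z.1 z.2.1 z.2.2) c
      (fun z => (z.2.1.length + z.2.2.length + 1) * (z.1 + 1)) :=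
  ⟨_, fun K _ => (Comp.rec1 (K := K)
    (isLeaf := fun z : ℕ × List (List K) × List (List K) => z.2.1.isEmpty)
    (leaf := fun z => z.2.2.map (fun r => padTo z.1 r))
    (next := fun z => (z.1, z.2.1.tail, z.2.2.tail))
    (join := fun z r => addP (padTo z.1 (z.2.1.headD [])) (padTo z.1 (z.2.2.headD [])) :: r)
    (T := fun z => (z.2.1.length + z.2.2.length) * (3 * (z.1 + 1)))
    (fun z => z.2.1.length)
    (by rintro ⟨w, a, b⟩ h; cases a <;> simp_all [badd])
    (by rintro ⟨w, a, b⟩ h; cases a <;> simp_all [badd])
    (by rintro ⟨w, a, b⟩ h; cases a <;> simp_all)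
    (by
      rintro ⟨w, a, b⟩ h
      cases a with
      | nil =>
        simp only [List.length_nil, zero_add, List.map_const', List.sum_replicate, smul_eq_mul]
        exact Nat.mul_le_mul_left _ (by omega)
      | cons r a => simp_all)
    (by
      rintro ⟨w, a, b⟩ h
      cases a with
      | nil => simp_all
      | cons r a =>
        simp only [List.tail_cons, List.length_cons, List.length_tail, length_padTo, zero_add,
          add_zero, min_self]
        have e1 : (a.length + (b.length - 1)) * (3 * (w + 1)) ≤
          (a.length + b.length) * (3 * (w + 1)) := Nat.mul_le_mul_right _ (by omega)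
        have e2 : (a.length + 1 + b.length) * (3 * (w + 1)) =
          (a.length + b.length) * (3 * (w + 1)) + 3 * (w + 1) := by ring
        omega)).bigO 3 (fun z => by
          nlinarith [Nat.zero_le ((z.2.1.length + z.2.2.length) * z.1)])⟩

noncomputable def baddCd : Cd := badd_ex.choose

instance compBadd {α : Type} [Enc K α] {w : α → ℕ} {f g : α → List (List K)}
    {c2 c3 c4 : Cd} {T2 T3 T4 : α → ℕ} [h2 : Comp K w c2 T2]
    [h3 : Comp K f c3 T3] [h4 : Comp K g c4 T4] :
    Comp K (fun x => badd (w x) (f x) (g x)) (baddCd.comp (c2.pair (c3.pair c4)))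
      (fun x => T2 x + (T3 x + T4 x) + ((f x).length + (g x).length + 1) * (w x + 1)) :=
  (badd_ex.choose_spec K).comp (Comp.pair (h := h2) (h' := Comp.pair (h := h3) (h' := h4)))

/-! ### Difference -/

/-- Difference. -/
def bsub (w : ℕ) (a b : List (List K)) : List (List K) :=
  badd w a (b.map (fun r => smulP (-1) (padTo w r)))

theorem cg_bsub (w : ℕ) (a b : List (List K)) :
    Cg w (toB (bsub w a b)) (toB a - toB b) := by
  have h : Cg w (toB (b.map (fun r => smulP (-1) (padTo w r)))) (-toB b) := by
    induction b with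
    | nil =>
      simp only [List.map_nil, toB_nil, neg_zero]
      exact Cg.refl _ _
    | cons r b ih =>
      simp only [List.map_cons, toB_cons, toP_smulP]
      have e1 : C (C (-1 : K) * toP (padTo w r)) = -C (toP (padTo w r)) := by
        rw [C_neg, C_1, neg_one_mul, C_neg]
      have e2 : -(C (toP r) + X * toB b) = -C (toP r) + X * (-toB b) := by ring
      rw [e1, e2]
      exact (cg_padTo w r).neg.add ((Cg.refl w X).mul ih)
  rw [sub_eq_add_neg]
  exact (cg_badd w _ _).trans ((Cg.refl w _).add h)

theorem length_bsub (w : ℕ) (a b : List (List K)) :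
    (bsub w a b).length = max a.length b.length := by
  rw [bsub, length_badd, List.length_map]

theorem rows_bsub (w : ℕ) (a b : List (List K)) : ∀ r ∈ bsub w a b, r.length = w :=
  rows_badd _ _ _

theorem bsub_ex : ∃ c, ∀ (K : Type) [Field K],
    Comp K (fun z : ℕ × List (List K) × List (List K) => bsub z.1 z.2.1 z.2.2) c
      (fun z => (z.2.1.length + z.2.2.length + 1) * (z.1 + 1)) :=
  ⟨_, fun K _ => (compBadd (K := K) (w := fun z : ℕ × List (List K) × List (List K) => z.1)
    (f := fun z => z.2.1) (g := fun z => z.2.2.map (fun r => smulP (-1) (padTo z.1 r)))).bigO 4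
      (fun z => by
        simp only [length_padTo, List.map_const', List.sum_replicate, smul_eq_mul,
          List.length_map]
        nlinarith [Nat.zero_le (z.2.1.length * z.1), Nat.zero_le (z.2.2.length * z.1)])⟩

noncomputable def bsubCd : Cd := bsub_ex.choose

instance compBsub {α : Type} [Enc K α] {w : α → ℕ} {f g : α → List (List K)}
    {c2 c3 c4 : Cd} {T2 T3 T4 : α → ℕ} [h2 : Comp K w c2 T2]
    [h3 : Comp K f c3 T3] [h4 : Comp K g c4 T4] :
    Comp K (fun x => bsub (w x) (f x) (g x)) (bsubCd.comp (c2.pair (c3.pair c4)))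
      (fun x => T2 x + (T3 x + T4 x) + ((f x).length + (g x).length + 1) * (w x + 1)) :=
  (bsub_ex.choose_spec K).comp (Comp.pair (h := h2) (h' := Comp.pair (h := h3) (h' := h4)))

/-! ### Derivative -/

/-- Row `j` is multiplied by `c + j`. -/
def bderivAux (w : ℕ) : K → List (List K) → List (List K)
  | _, [] => []
  | c, r :: a => smulP c (padTo w r) :: bderivAux w (c + 1) a

/-- Derivative with respect to `y`. -/
def bderiv (w : ℕ) (a : List (List K)) : List (List K) := bderivAux w 1 a.tail

theorem cg_bderivAux (w : ℕ) (c : K) (a : List (List K)) :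
    Cg w (toB (bderivAux w c a)) (C (C c) * toB a + X * derivative (toB a)) := by
  induction a generalizing c with
  | nil =>
    simp only [bderivAux, toB_nil, mul_zero, derivative_zero, add_zero]
    exact Cg.refl _ _
  | cons r a ih =>
    rw [bderivAux, toB_cons, toP_smulP, toB_cons, C_mul]
    have h := ((Cg.refl w (C (C c))).mul (cg_padTo w r)).add ((Cg.refl w X).mul (ih (c + 1)))
    have e : C (C c) * C (toP r) + X * (C (C (c + 1)) * toB a + X * derivative (toB a)) =
        C (C c) * (C (toP r) + X * toB a) + X * derivative (C (toP r) + X * toB a) := by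
      simp only [C_add, C_1, derivative_add, derivative_C, derivative_mul, derivative_X]
      ring
    rw [e] at h
    exact h

theorem cg_bderiv (w : ℕ) (a : List (List K)) :
    Cg w (toB (bderiv w a)) (derivative (toB a)) := by
  have h := cg_bderivAux w 1 a.tail
  have e : C (C (1 : K)) * toB a.tail + X * derivative (toB a.tail) = derivative (toB a) := by
    rw [toB_eq_head_tail a]
    simp only [C_1, derivative_add, derivative_C, derivative_mul, derivative_X]
    ring
  rw [e] at h
  exact h

theorem length_bderivAux (w : ℕ) (c : K) (a : List (List K)) :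
    (bderivAux w c a).length = a.length := by
  induction a generalizing c with
  | nil => rfl
  | cons r a ih => simp [bderivAux, ih]

theorem length_bderiv (w : ℕ) (a : List (List K)) : (bderiv w a).length = a.length - 1 := by
  rw [bderiv, length_bderivAux, List.length_tail]

theorem rows_bderivAux (w : ℕ) (c : K) (a : List (List K)) :
    ∀ r ∈ bderivAux w c a, r.length = w := by
  induction a generalizing c with
  | nil => simp [bderivAux]
  | cons r a ih =>
    intro s hs
    rw [bderivAux, List.mem_cons] at hs
    rcases hs with rfl | hs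
    · rw [length_smulP, length_padTo]
    · exact ih _ s hs

theorem rows_bderiv (w : ℕ) (a : List (List K)) : ∀ r ∈ bderiv w a, r.length = w :=
  rows_bderivAux _ _ _

theorem bderivAux_ex : ∃ c, ∀ (K : Type) [Field K],
    Comp K (fun z : ℕ × K × List (List K) => bderivAux z.1 z.2.1 z.2.2) c
      (fun z => (z.2.2.length + 1) * (z.1 + 1)) :=
  ⟨_, fun K _ => (Comp.rec1 (K := K)
    (isLeaf := fun z : ℕ × K × List (List K) => z.2.2.isEmpty)
    (leaf := fun _ => [])
    (next := fun z => (z.1, z.2.1 + 1, z.2.2.tail))
    (join := fun z r => smulP z.2.1 (padTo z.1 (z.2.2.headD [])) :: r)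
    (T := fun z => z.2.2.length * (3 * (z.1 + 1)))
    (fun z => z.2.2.length)
    (by rintro ⟨w, c, a⟩ h; cases a <;> simp_all [bderivAux])
    (by rintro ⟨w, c, a⟩ h; cases a <;> simp_all [bderivAux])
    (by rintro ⟨w, c, a⟩ h; cases a <;> simp_all)
    (by rintro ⟨w, c, a⟩ h; cases a <;> simp_all)
    (by
      rintro ⟨w, c, a⟩ h
      cases a with
      | nil => simp_all
      | cons r a =>
        simp only [List.tail_cons, List.length_cons, length_padTo, zero_add, add_zero]
        have e2 : (a.length + 1) * (3 * (w + 1)) = a.length * (3 * (w + 1)) + 3 * (w + 1) := by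
          ring
        omega)).bigO 3 (fun z => by nlinarith [Nat.zero_le (z.2.2.length * z.1)])⟩

theorem bderiv_ex : ∃ c, ∀ (K : Type) [Field K],
    Comp K (fun z : ℕ × List (List K) => bderiv z.1 z.2) c
      (fun z => (z.2.length + 1) * (z.1 + 1)) := by
  obtain ⟨c, hc⟩ := bderivAux_ex
  exact ⟨_, fun K _ => ((hc K).comp (f := fun z : ℕ × List (List K) =>
    (z.1, (1 : K), z.2.tail)) Comp.pair).bigO 2 (fun z => by
      simp only [List.length_tail, zero_add]
      have : (z.2.length - 1 + 1) * (z.1 + 1) ≤ (z.2.length + 1) * (z.1 + 1) :=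
        Nat.mul_le_mul_right _ (by omega)
      omega)⟩

noncomputable def bderivCd : Cd := bderiv_ex.choose

instance compBderiv {α : Type} [Enc K α] {w : α → ℕ} {f : α → List (List K)}
    {c2 c3 : Cd} {T2 T3 : α → ℕ} [h2 : Comp K w c2 T2] [h3 : Comp K f c3 T3] :
    Comp K (fun x => bderiv (w x) (f x)) (bderivCd.comp (c2.pair c3))
      (fun x => T2 x + T3 x + ((f x).length + 1) * (w x + 1)) :=
  (bderiv_ex.choose_spec K).app2 h2 h3

end Pool.Agent.BiFac

end

section

set_option autoImplicit false

/-!
# Resolved classes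
-/

namespace Pool.Agent.BiFac

open Polynomial

variable {K : Type} [Field K]

theorem Lifted.exists_normalize {σ r : ℕ} {F g : K[X][X]} {P : Fin r → K[X][X]}
    (h : Lifted σ F P) (hg : Irreducible g) (hgd : g ∣ F) :
    ∃ g', Irreducible g' ∧ g'.Monic ∧ g' ∣ F ∧ ∀ i, Bel P g' i ↔ Bel P g i := by
  obtain ⟨q, hq⟩ := hgd
  have h1 : g.leadingCoeff * q.leadingCoeff = 1 := by
    rw [← leadingCoeff_mul, ← hq]
    exact h.monic
  have hu : IsUnit g.leadingCoeff := IsUnit.of_mul_eq_one _ h1
  set u : K[X] := q.leadingCoeff with huq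
  have hu' : IsUnit (C u : K[X][X]) := by
    refine IsUnit.map C ?_
    exact IsUnit.of_mul_eq_one _ (by rw [mul_comm]; exact h1)
  have hass : Associated (C u * g) g := by
    rw [mul_comm]
    exact associated_mul_unit_left g _ hu'
  refine ⟨C u * g, (hass.irreducible_iff).mpr hg, ?_, ?_, ?_⟩
  · unfold Monic
    rw [leadingCoeff_mul, leadingCoeff_C, mul_comm]
    exact h1
  · exact hass.dvd.trans ⟨q, hq⟩
  · intro i
    unfold Bel
    have : Associated (red (C u * g)) (red g) := hass.map red
    exact this.dvd_iff_dvd_right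

open Classical in
/-- the indicator vector of an irreducible factor is constant on the factors -/
theorem Lifted.constOn_ind {σ r : ℕ} {F f : K[X][X]} {P : Fin r → K[X][X]} (h : Lifted σ F P)
    (hf : Irreducible f) (hfm : f.Monic) (hfd : f ∣ F) :
    ConstOn F P (fun i => if Bel P f i then 1 else 0) := by
  intro g hg hgd i j hi hj
  obtain ⟨g', hg', hgm', hgd', hb⟩ := h.exists_normalize hg hgd
  have key : ∀ i j, Bel P g i → Bel P g j → Bel P f i → Bel P f j := by
    intro i j hi hj hfi
    have := h.factor_unique hf hfm hfd hg' hgm' hgd' hfi ((hb i).mpr hi)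
    rw [this]
    exact (hb j).mpr hj
  have : Bel P f i ↔ Bel P f j := ⟨key i j hi hj, key j i hj hi⟩
  simp only [this]

/-- the separation classes are contained in the factors -/
theorem Lifted.class_subset {σ r d D ρ : ℕ} {F f : K[X][X]} {P : Fin r → K[X][X]}
    (h : Lifted σ F P) (hd : F.natDegree = d) (hσ : D + d + ρ ≤ σ)
    (c : Fin d → Fin (D + 1) → K) (w : Fin r → K)
    (hsep : ∀ i j, w i = w j → ∀ μ, InW P d D ρ (hpoly c) μ → μ i = μ j)
    (hf : Irreducible f) (hfm : f.Monic) (hfd : f ∣ F) {i0 : Fin r} (hi0 : Bel P f i0)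
    {j : Fin r} (hj : w j = w i0) : Bel P f j := by
  classical
  have h1 := hsep j i0 hj _ (inW_of_constOn h hd hσ c _ (h.constOn_ind hf hfm hfd))
  simp only [hi0, if_true] at h1
  by_contra hn
  rw [if_neg hn] at h1
  exact zero_ne_one h1

theorem resolved_class {σ r d D ρ : ℕ} {F N : K[X][X]} {P : Fin r → K[X][X]} (h : Lifted σ F P)
    (hd : F.natDegree = d) (hσ : D + d + ρ ≤ σ) (hdσ : d < σ) (c : Fin d → Fin (D + 1) → K)
    (w : Fin r → K)
    (hsep : ∀ i j, w i = w j → ∀ μ, InW P d D ρ (hpoly c) μ → μ i = μ j)
    (i0 : Fin r) [DecidableEq K] (hN : N.Monic)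
    (hNt : TDeg (∑ i ∈ Finset.univ.filter (fun i => w i = w i0), (P i).natDegree) N)
    (hNc : Cg σ N (∏ i ∈ Finset.univ.filter (fun i => w i = w i0), P i)) :
    Irreducible N ∧ N ∣ F ∧ ∀ j, Bel P N j ↔ w j = w i0 := by
  classical
  obtain ⟨f, hf, hfm, hfd, hi0⟩ := h.exists_factor i0
  obtain ⟨hfc, hfn, _, hft⟩ := h.factor hfm hfd
  have hsub : ∀ j, w j = w i0 → Bel P f j := fun j hj =>
    h.class_subset hd hσ c w hsep hf hfm hfd hi0 hj
  set S : Finset (Fin r) := Finset.univ.filter (fun i => w i = w i0) with hS
  set T : Finset (Fin r) := Finset.univ.filter (Bel P f) with hT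
  have hST : S ⊆ T := by
    intro j hj
    rw [hS, Finset.mem_filter] at hj
    rw [hT, Finset.mem_filter]
    exact ⟨Finset.mem_univ _, hsub j hj.2⟩
  have hi0S : i0 ∈ S := by
    rw [hS, Finset.mem_filter]
    exact ⟨Finset.mem_univ _, rfl⟩
  have hgm : (∏ i ∈ S, P i).Monic := monic_prod_of_monic _ _ (fun i _ => h.monic_i i)
  have hgn : (∏ i ∈ S, P i).natDegree = ∑ i ∈ S, (P i).natDegree :=
    natDegree_prod_of_monic _ _ (fun i _ => h.monic_i i)
  have hpos : 0 < ∑ i ∈ S, (P i).natDegree :=
    lt_of_lt_of_le (h.natDegree_pos i0)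
      (Finset.single_le_sum (f := fun i => (P i).natDegree) (fun i _ => Nat.zero_le _) hi0S)
  have hle : f.natDegree ≤ d := by
    rw [← hd]
    exact natDegree_le_of_dvd hfd h.monic.ne_zero
  have hdvd : f ∣ N := by
    refine dvd_of_local (g := ∏ i ∈ S, P i) (σ := σ) hf hfm hft hNt hgm ?_ ?_ ?_
    · refine ⟨∏ i ∈ T \ S, P i, ?_⟩
      rw [mul_comm, Finset.prod_sdiff hST]
      exact hfc
    · exact ⟨1, by rw [mul_one]; exact hNc⟩
    · rw [hgn]
      calc f.natDegree * ∑ i ∈ S, (P i).natDegree < σ * ∑ i ∈ S, (P i).natDegree :=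
            Nat.mul_lt_mul_of_pos_right (by omega) hpos
        _ = _ := mul_comm _ _
  have hNn : N.natDegree = ∑ i ∈ S, (P i).natDegree := by
    rw [hNc.natDegree_eq h.pos hN hgm, hgn]
  have hle2 : N.natDegree ≤ f.natDegree := by
    rw [hNn, hfn]
    exact Finset.sum_le_sum_of_subset hST
  have hNf : N = f := eq_of_monic_of_dvd_of_natDegree_le hfm hN hdvd hle2
  refine ⟨by rw [hNf]; exact hf, by rw [hNf]; exact hfd, fun j => ?_⟩
  rw [hNf]
  refine ⟨fun hj => ?_, hsub j⟩
  by_contra hne
  have hjT : j ∈ T := by
    rw [hT, Finset.mem_filter]; exact ⟨Finset.mem_univ _, hj⟩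
  have hjS : j ∉ S := by
    rw [hS, Finset.mem_filter]; exact fun hh => hne hh.2
  have h1 : ∑ i ∈ S, (P i).natDegree < ∑ i ∈ T, (P i).natDegree :=
    Finset.sum_lt_sum_of_subset hST hjT hjS (h.natDegree_pos j) (fun i _ _ => Nat.zero_le _)
  rw [← hNn, ← hfn, hNf] at h1
  exact lt_irrefl _ h1

theorem small_class {σ r d D ρ : ℕ} {F f : K[X][X]} {P : Fin r → K[X][X]} (h : Lifted σ F P)
    (hd : F.natDegree = d) (hd0 : 0 < d) (hρ : 0 < ρ) (hσ : D + d + ρ = σ)
    (c : Fin d → Fin (D + 1) → K)
    (hbad : ∀ μ, InW P d D ρ (hpoly c) μ → Bad P d ρ σ μ) (w : Fin r → K)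
    (hw : InW P d D ρ (hpoly c) w)
    (hsep : ∀ i j, w i = w j → ∀ μ, InW P d D ρ (hpoly c) μ → μ i = μ j)
    (hf : Irreducible f) (hfm : f.Monic) (hfd : f ∣ F) (hlt : f.natDegree * (2 * d + ρ) < σ)
    (i0 : Fin r) (hi0 : Bel P f i0) : ∀ j, Bel P f j ↔ w j = w i0 := by
  intro j
  refine ⟨fun hj => ?_, fun hj => h.class_subset hd hσ.le c w hsep hf hfm hfd hi0 hj⟩
  have hconst : InW P d D ρ (hpoly c) (fun _ => w i0) :=
    inW_of_constOn h hd hσ.le c _ (fun _ _ _ _ _ _ _ => rfl)
  have hin : InW P d D ρ (hpoly c) (fun i => w i - w i0) := by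
    intro k hk
    have h1 := hw k hk
    have h2 := hconst k hk
    have h3 : Smu P (fun i => w i - w i0) (hpoly c) =
        Smu P w (hpoly c) - Smu P (fun _ => w i0) (hpoly c) := by
      unfold Smu
      rw [← Finset.sum_sub_distrib]
      refine Finset.sum_congr rfl fun i _ => ?_
      rw [C_sub, sub_mul]
    rw [h3, coeff_sub, h1, h2, sub_zero]
  have h4 := (hbad _ hin).eq_zero h hd hd0 hρ (by omega) hf hfm hfd {i0}
    (by
      intro i hi
      rw [Finset.mem_singleton] at hi
      rw [hi]
      exact ⟨hi0, sub_self _⟩)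
    (by
      rw [Finset.sum_singleton]
      calc f.natDegree * (2 * d + ρ) < 1 * σ := by rw [one_mul]; exact hlt
        _ ≤ (P i0).natDegree * σ := Nat.mul_le_mul_right _ (h.natDegree_pos i0))
    j hj
  exact sub_eq_zero.mp h4

end Pool.Agent.BiFac

end

section

/-!
# Existence and random elements of the extension
-/

set_option autoImplicit false

namespace Pool.Agent.BiFac

open Polynomial Pool.Agent.TreeRAM

variable {K : Type} [Field K]

theorem toP_ofFn_coeff_ext {n : ℕ} {p : K[X]} (hp : p.degree < n) :
    toP (List.ofFn (fun i : Fin n => p.coeff i)) = p := by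
  ext i
  rw [coeff_toP]
  rcases lt_or_ge i n with hi | hi
  · simp [List.getD_eq_getElem?_getD, hi]
  · rw [List.getD_eq_default _ _ (by simpa using hi)]
    exact (coeff_eq_zero_of_degree_lt (hp.trans_le (by exact_mod_cast hi))).symm

theorem toP_inj_ext {l l' : List K} (hl : l.length = l'.length) (h : toP l = toP l') : l = l' := by
  refine List.ext_getElem hl fun i h1 h2 => ?_
  have := congrArg (fun p => p.coeff i) h
  simp only [coeff_toP] at this
  rwa [List.getD_eq_getElem _ _ h1, List.getD_eq_getElem _ _ h2] at this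

theorem MP.two_le_ext {M : List K} (hM : MP M) (hi : Irreducible (toP M)) : 2 ≤ M.length := by
  have h1 := hM.len
  have h2 : 0 < (toP M).natDegree := hi.natDegree_pos
  omega

theorem exists_ext [Fintype K] {M : List K} (hM : MP M) (hi : Irreducible (toP M)) :
    ∃ (L : Type) (_ : Field L) (_ : Fintype L) (_ : Algebra K L) (z : L) (rep : L → List K),
      IsExt M z rep ∧ Fintype.card L = Fintype.card K ^ (M.length - 1) := by
  classical
  have : Fact (Irreducible (toP M)) := ⟨hi⟩
  let pb := AdjoinRoot.powerBasis' hM.monic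
  have : Module.Finite K (AdjoinRoot (toP M)) := pb.finite
  have : Finite (AdjoinRoot (toP M)) := Module.finite_of_finite K
  let _ : Fintype (AdjoinRoot (toP M)) := Fintype.ofFinite _
  have hlen : M.length - 1 = (toP M).natDegree := by
    have := hM.len
    omega
  refine ⟨AdjoinRoot (toP M), inferInstance, inferInstance, inferInstance,
    AdjoinRoot.root (toP M),
    fun a => List.ofFn (fun i : Fin (M.length - 1) =>
      (AdjoinRoot.modByMonicHom hM.monic a).coeff i), ⟨hM, hi, ?_, ?_, ?_⟩, ?_⟩
  · rw [AdjoinRoot.aeval_eq, AdjoinRoot.mk_self]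
  · intro a
    simp
  · intro a
    rw [toP_ofFn_coeff_ext]
    · rw [AdjoinRoot.aeval_eq]
      exact AdjoinRoot.mk_leftInverse hM.monic a
    · obtain ⟨p, rfl⟩ := AdjoinRoot.mk_surjective a
      rw [AdjoinRoot.modByMonicHom_mk, hlen, ← degree_eq_natDegree hM.monic.ne_zero]
      exact degree_modByMonic_lt _ hM.monic
  · rw [Module.card_eq_pow_finrank (K := K), pb.finrank, AdjoinRoot.powerBasis'_dim, hlen]

section ext

variable {L : Type} [Field L] [Algebra K L] {M : List K} {z : L} {rep : L → List K}

theorem IsExt.dec_rep (h : IsExt M z rep) (a : L) : dec z (rep a) = a := h.val a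

theorem IsExt.dec_inj (h : IsExt M z rep) {l l' : List K} (hl : l.length = M.length - 1)
    (hl' : l'.length = M.length - 1) (e : dec z l = dec z l') : l = l' := by
  refine toP_inj_ext (hl.trans hl'.symm) ?_
  have hm : toP M = minpoly K z := minpoly.eq_of_irreducible_of_monic h.irr h.root h.mp.monic
  have hd : toP M ∣ toP l - toP l' := by
    rw [hm]
    refine minpoly.dvd K z ?_
    rw [map_sub]
    exact sub_eq_zero.2 e
  have hlen : (toP M).degree = ((M.length - 1 : ℕ) : WithBot ℕ) := by
    rw [degree_eq_natDegree h.mp.monic.ne_zero, h.mp.len]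
    rfl
  have h0 := eq_zero_of_dvd_of_degree_lt hd (by
    refine (degree_sub_le _ _).trans_lt (max_lt ?_ ?_)
    · rw [hlen, ← hl]
      exact degree_toP_lt l
    · rw [hlen, ← hl']
      exact degree_toP_lt l')
  exact sub_eq_zero.1 h0

theorem IsExt.rep_dec (h : IsExt M z rep) {l : List K} (hl : l.length = M.length - 1) :
    rep (dec z l) = l :=
  h.dec_inj (h.len _) hl (h.dec_rep _)

theorem IsExt.rep_algebraMap (h : IsExt M z rep) (a : K) :
    rep (algebraMap K L a) = a :: List.replicate (M.length - 2) 0 := by
  have h2 := h.mp.two_le_ext h.irr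
  have e : algebraMap K L a = dec z (a :: List.replicate (M.length - 2) 0) := by
    rw [dec, toP_cons, toP_replicate_zero, mul_zero, add_zero, aeval_C]
  rw [e]
  refine h.rep_dec ?_
  simp only [List.length_cons, List.length_replicate]
  omega

end ext

theorem pr_cons_ext [Fintype K] (n : ℕ) (B : List K → Prop) :
    pr K (n + 1) B = (∑ a : K, pr K n (fun y => B (a :: y))) / (Fintype.card K : ℝ) := by
  rw [Nat.add_comm n 1, pr_add, pow_one]
  congr 1
  rw [← (Equiv.funUnique (Fin 1) K).symm.sum_comp]
  refine Finset.sum_congr rfl fun a _ => ?_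
  congr 1

/-- the elements of the extension and the coordinate vectors -/
noncomputable def IsExt.equiv {L : Type} [Field L] [Algebra K L] {M : List K} {z : L}
    {rep : L → List K} (h : IsExt M z rep) : (Fin (M.length - 1) → K) ≃ L where
  toFun v := dec z (List.ofFn v)
  invFun a := fun i => (rep a).get (i.cast (h.len a).symm)
  left_inv v := by
    funext i
    have e := h.rep_dec (l := List.ofFn v) List.length_ofFn
    simp [e]
  right_inv a := by
    have e : List.ofFn (fun i : Fin (M.length - 1) => (rep a).get (i.cast (h.len a).symm)) =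
        rep a := by
      refine List.ext_getElem ?_ ?_
      · simp [h.len a]
      · intro i h1 h2
        simp
    change dec z (List.ofFn (fun i : Fin (M.length - 1) =>
      (rep a).get (i.cast (h.len a).symm))) = a
    rw [e]
    exact h.dec_rep a

theorem IsExt.card_eq {L : Type} [Field L] [Algebra K L] [Fintype K] [Fintype L] {M : List K}
    {z : L} {rep : L → List K} (h : IsExt M z rep) :
    Fintype.card L = Fintype.card K ^ (M.length - 1) := by
  classical
  rw [← Fintype.card_congr h.equiv]
  simp

theorem IsExt.pr_eq {L : Type} [Field L] [Algebra K L] [Fintype K] [Fintype L] {M : List K}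
    {z : L} {rep : L → List K} (h : IsExt M z rep) (n : ℕ) (B : List L → Prop) :
    pr K (n * (M.length - 1)) (fun l => B ((chunks n (M.length - 1) l).map (dec z))) =
      pr L n B := by
  induction n generalizing B with
  | zero =>
    rw [Nat.zero_mul, pr_sum, pr_sum]
    simp only [Fintype.sum_unique, List.ofFn_zero, pow_zero]
    rfl
  | succ n ih =>
    rw [pr_cons_ext, h.card_eq, Nat.succ_mul, Nat.add_comm (n * _), pr_add, ← h.equiv.sum_comp]
    push_cast
    congr 1
    refine Finset.sum_congr rfl fun x _ => ?_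
    rw [← ih (fun y => B (h.equiv x :: y))]
    congr 1
    funext y
    have e1 : (List.ofFn x ++ y).take (M.length - 1) = List.ofFn x :=
      List.take_left' List.length_ofFn
    have e2 : (List.ofFn x ++ y).drop (M.length - 1) = y :=
      List.drop_left' List.length_ofFn
    rw [chunks, e1, e2, List.map_cons]
    rfl

end Pool.Agent.BiFac

end

section

/-!
# The linearised Frobenius test with a random modulus
-/

set_option autoImplicit false

namespace Pool.Agent.BiFac

open Polynomial

variable {K : Type} [Field K]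

/-- `G_μ` is linear in `μ`. -/
theorem Gmu_sum {u κ : ℕ} (P : Fin u → K[X][X]) (b : Fin κ → Fin u → K) (c : Fin κ → K) :
    Gmu P (fun i => ∑ l, c l * b l i) = ∑ l, C (C (c l)) * Gmu P (b l) := by
  unfold Gmu
  simp_rw [map_sum, Finset.sum_mul, Finset.mul_sum]
  rw [Finset.sum_comm]
  refine Finset.sum_congr rfl fun l _ => Finset.sum_congr rfl fun i _ => ?_
  rw [C_mul, C_mul, mul_assoc]

theorem tdeg_Tfrob [Fintype K] {F G : K[X][X]} {n w : ℕ} (hF : TDeg n F) (hG : TDeg (n + w) G) :
    TDeg (Fintype.card K * (2 * n + w)) (Tfrob (Fintype.card K) F G) := by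
  unfold Tfrob
  have hq : 1 ≤ Fintype.card K := Fintype.card_pos
  set q := Fintype.card K with hqd
  have h1 : TDeg (n - 1 + q * (n + w)) (derivative F * G ^ q) := hF.derivative.mul (hG.pow q)
  have h2 : TDeg (q * (n - 1) + (n + w)) (derivative F ^ q * G) := (hF.derivative.pow q).mul hG
  refine TDeg.sub (h1.mono ?_) (h2.mono ?_)
  · have h3 : n - 1 ≤ q * n := (Nat.sub_le n 1).trans (Nat.le_mul_of_pos_left n hq)
    calc n - 1 + q * (n + w) ≤ q * n + q * (n + w) := Nat.add_le_add_right h3 _
      _ = q * (2 * n + w) := by ring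
  · have h3 : n + w ≤ q * (n + w) := Nat.le_mul_of_pos_left _ hq
    have h4 : q * (n - 1) ≤ q * n := Nat.mul_le_mul_left _ (Nat.sub_le n 1)
    calc q * (n - 1) + (n + w) ≤ q * n + q * (n + w) := Nat.add_le_add h4 h3
      _ = q * (2 * n + w) := by ring

theorem exists_test_set [Fintype K] {σ u κ w : ℕ} {F : K[X][X]} {P : Fin u → K[X][X]}
    (h : Lifted σ F P) (hw0 : 0 < w) (hw : F.natDegree ≤ w) (hwσ : w ≤ σ)
    (b : Fin κ → Fin u → K) (G : Fin κ → K[X][X]) (hG : ∀ l, Cg w (G l) (Gmu P (b l)))
    (hGd : ∀ l j, ((G l).coeff j).degree < w) (hGt : ∀ l, TDeg (F.natDegree + w) (G l)) :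
    ∃ 𝒩 : Finset K[X], (∀ N ∈ 𝒩, N ≠ 0 ∧
        N.natDegree ≤ Fintype.card K * (2 * F.natDegree + w + 1)) ∧
      𝒩.card ≤ Fintype.card K ^ κ ∧
      ∀ m : K[X], m.Monic → (∀ N ∈ 𝒩, ¬ m ∣ N) → ∀ c : Fin κ → K,
        ((∀ j, m ∣ ((Tfrob (Fintype.card K) F (∑ l, C (C (c l)) * G l)) %ₘ F).coeff j) ↔
          ConstOn F P (fun i => ∑ l, c l * b l i)) := by
  classical
  set Gc : (Fin κ → K) → K[X][X] := fun c => ∑ l, C (C (c l)) * G l with hGc
  set μ : (Fin κ → K) → Fin u → K := fun c i => ∑ l, c l * b l i with hμ
  set Rem : (Fin κ → K) → K[X][X] := fun c => (Tfrob (Fintype.card K) F (Gc c)) %ₘ F with hRem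
  have hcg : ∀ c, Cg w (Gc c) (Gmu P (μ c)) := by
    intro c
    rw [hμ, hGc]
    simp only
    rw [Gmu_sum]
    exact Cg.sum _ fun l _ => (Cg.refl w _).mul (hG l)
  have hdeg : ∀ c j, ((Gc c).coeff j).degree < w := by
    intro c j
    rw [hGc]
    simp only
    rw [finsetSum_coeff]
    have h1 : ∑ l, (C (C (c l)) * G l).coeff j ∈ degreeLT K w := by
      refine Submodule.sum_mem _ fun l _ => ?_
      rw [coeff_C_mul, ← smul_eq_C_mul]
      exact Submodule.smul_mem _ _ (mem_degreeLT.2 (hGd l j))
    exact mem_degreeLT.1 h1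
  have htd : ∀ c, TDeg (F.natDegree + w) (Gc c) := by
    intro c
    refine TDeg.sum _ fun l _ => ?_
    have h1 : TDeg 0 (C (C (c l)) : K[X][X]) := TDeg.C (by simp)
    have := h1.mul (hGt l)
    simpa using this
  have hzero : ∀ c, Rem c = 0 ↔ ConstOn F P (μ c) := by
    intro c
    rw [hRem]
    simp only
    rw [modByMonic_eq_zero_iff_dvd h.monic]
    constructor
    · exact constOn_of_Tfrob h (μ c) ((hcg c).red hw0)
    · intro hc
      exact Tfrob_of_constOn h (μ c) hc hw hwσ (hcg c) (hdeg c)
  have hex : ∀ c, ¬ ConstOn F P (μ c) → ∃ j, (Rem c).coeff j ≠ 0 := by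
    intro c hc
    by_contra hcon
    push Not at hcon
    apply hc
    rw [← hzero]
    ext j : 1
    rw [hcon j, coeff_zero]
  choose! jj hjj using hex
  refine ⟨(Finset.univ.filter fun c => ¬ ConstOn F P (μ c)).image fun c => (Rem c).coeff (jj c),
    ?_, ?_, ?_⟩
  · intro N hN
    obtain ⟨c, hc, rfl⟩ := Finset.mem_image.1 hN
    refine ⟨hjj c (Finset.mem_filter.1 hc).2, ?_⟩
    have h1 : TDeg (Fintype.card K * (2 * F.natDegree + w)) (Rem c) :=
      TDeg.modByMonic h.monic h.tdeg (tdeg_Tfrob h.tdeg (htd c))
    refine (h1.natDegree_coeff_le _).trans ((Nat.sub_le _ _).trans ?_)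
    exact Nat.mul_le_mul_left _ (Nat.le_succ _)
  · refine Finset.card_image_le.trans ((Finset.card_le_univ _).trans ?_)
    simp
  · intro m _ hm c
    change (∀ j, m ∣ (Rem c).coeff j) ↔ ConstOn F P (μ c)
    constructor
    · intro hall
      by_contra hc
      exact hm _ (Finset.mem_image.2 ⟨c, Finset.mem_filter.2 ⟨Finset.mem_univ _, hc⟩, rfl⟩)
        (hall (jj c))
    · intro hc j
      rw [(hzero c).2 hc, coeff_zero]
      exact dvd_zero m

end Pool.Agent.BiFac

end

section

/-!
# Theory for the quadratic Hensel lifting of many factors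
-/

set_option autoImplicit false

namespace Pool.Agent.BiFac

open Polynomial

section csum

variable {R : Type*} [CommRing R]

/-- The numerator of a sum of fractions `n / f`, in any ring. -/
def csum : List (R × R) → R
  | [] => 0
  | z :: L => z.1 * (L.map Prod.snd).prod + z.2 * csum L

theorem mul_csum_eq_zero {L : List (R × R)} {a : R} (h : ∀ z ∈ L, a * z.1 = 0) :
    a * csum L = 0 := by
  induction L with
  | nil => simp [csum]
  | cons z L ih =>
    have h1 := h z (List.mem_cons_self ..)
    have h2 := ih (fun y hy => h y (List.mem_cons_of_mem _ hy))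
    rw [csum, mul_add, ← mul_assoc, h1, zero_mul, zero_add, mul_left_comm, h2, mul_zero]

theorem prod_add_eq {L : List (R × R)} (h : ∀ z ∈ L, ∀ z' ∈ L, z.1 * z'.1 = 0) :
    (L.map (fun z => z.2 + z.1)).prod = (L.map Prod.snd).prod + csum L := by
  induction L with
  | nil => simp [csum]
  | cons z L ih =>
    have h2 := ih (fun y hy y' hy' => h y (List.mem_cons_of_mem _ hy) y'
      (List.mem_cons_of_mem _ hy'))
    have h3 : z.1 * csum L = 0 := mul_csum_eq_zero fun y hy =>
      h z (List.mem_cons_self ..) y (List.mem_cons_of_mem _ hy)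
    rw [List.map_cons, List.prod_cons, h2, csum, List.map_cons, List.prod_cons]
    linear_combination h3

theorem dvd_csum_sub {L : List (R × R)} {z : R × R} (hz : z ∈ L) :
    z.2 ∣ csum L - z.1 * csum (L.map (fun z => (1, z.2))) := by
  induction L with
  | nil => simp at hz
  | cons y L ih =>
    have e1 : (List.map (fun z : R × R => ((1 : R), z.2)) L).map Prod.snd = L.map Prod.snd := by
      rw [List.map_map]; rfl
    rw [List.map_cons, csum, csum, e1]
    simp only [one_mul]
    rcases List.mem_cons.1 hz with rfl | hz'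
    · have : z.1 * (List.map Prod.snd L).prod + z.2 * csum L -
          z.1 * ((List.map Prod.snd L).prod + z.2 * csum (List.map (fun z => (1, z.2)) L)) =
          z.2 * (csum L - z.1 * csum (List.map (fun z => (1, z.2)) L)) := by ring
      rw [this]
      exact Dvd.intro _ rfl
    · have h1 := ih hz'
      have h2 : z.2 ∣ (List.map Prod.snd L).prod :=
        List.dvd_prod (List.mem_map.2 ⟨z, hz', rfl⟩)
      have : y.1 * (List.map Prod.snd L).prod + y.2 * csum L -
          z.1 * ((List.map Prod.snd L).prod + y.2 * csum (List.map (fun z => (1, z.2)) L)) =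
          (y.1 - z.1) * (List.map Prod.snd L).prod +
            y.2 * (csum L - z.1 * csum (List.map (fun z => (1, z.2)) L)) := by ring
      rw [this]
      exact dvd_add (dvd_mul_of_dvd_right h2 _) (dvd_mul_of_dvd_right h1 _)

theorem isCoprime_list_prod {a : R} {L : List R} (h : ∀ b ∈ L, IsCoprime a b) :
    IsCoprime a L.prod := by
  induction L with
  | nil => simpa using isCoprime_one_right
  | cons b L ih =>
    rw [List.prod_cons]
    exact (h b (List.mem_cons_self ..)).mul_right (ih fun c hc => h c (List.mem_cons_of_mem _ hc))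

theorem list_prod_dvd {L : List R} {a : R} (h : L.Pairwise IsCoprime) (hd : ∀ f ∈ L, f ∣ a) :
    L.prod ∣ a := by
  induction L with
  | nil => simp
  | cons b L ih =>
    rw [List.pairwise_cons] at h
    rw [List.prod_cons]
    exact (isCoprime_list_prod h.1).mul_dvd (hd b (List.mem_cons_self ..))
      (ih h.2 fun c hc => hd c (List.mem_cons_of_mem _ hc))

theorem csum_map {S : Type*} [CommRing S] (φ : R →+* S) (L : List (R × R)) :
    φ (csum L) = csum (L.map (fun z => (φ z.1, φ z.2))) := by
  induction L with
  | nil => simp [csum]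
  | cons z L ih =>
    rw [csum, map_add, map_mul, map_mul, ih, List.map_cons, csum, map_list_prod, List.map_map,
      List.map_map]
    rfl

end csum

section degrees

variable {R : Type*} [CommRing R] [Nontrivial R]

omit [Nontrivial R] in
theorem hmonic_list_prod {L : List R[X]} (h : ∀ f ∈ L, f.Monic) : L.prod.Monic := by
  induction L with
  | nil => simp
  | cons b L ih =>
    rw [List.prod_cons]
    exact (h b (List.mem_cons_self ..)).mul (ih fun c hc => h c (List.mem_cons_of_mem _ hc))

theorem degree_csum_lt {L : List (R[X] × R[X])} (h : ∀ z ∈ L, z.2.Monic ∧ z.1.degree < z.2.degree) :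
    (csum L).degree < ((L.map Prod.snd).prod).degree := by
  induction L with
  | nil => simp [csum]
  | cons z L ih =>
    have h1 := ih fun c hc => h c (List.mem_cons_of_mem _ hc)
    obtain ⟨h2, h3⟩ := h z (List.mem_cons_self ..)
    have hm : ((L.map Prod.snd).prod).Monic := by
      apply hmonic_list_prod
      intro f hf
      obtain ⟨y, hy, rfl⟩ := List.mem_map.1 hf
      exact (h y (List.mem_cons_of_mem _ hy)).1
    have hm0 : ((L.map Prod.snd).prod).degree ≠ ⊥ := fun h => hm.ne_zero (degree_eq_bot.1 h)
    have hz0 : z.2.degree ≠ ⊥ := fun h => h2.ne_zero (degree_eq_bot.1 h)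
    rw [csum, List.map_cons, List.prod_cons, hm.degree_mul]
    refine lt_of_le_of_lt (degree_add_le _ _) (max_lt ?_ ?_)
    · rw [hm.degree_mul]
      exact WithBot.add_lt_add_right hm0 h3
    · rw [h2.degree_mul_comm, h2.degree_mul, add_comm]
      exact WithBot.add_lt_add_left hz0 h1

/-- **One quadratic Hensel step**, over a ring with a nilpotent element of square zero. -/
theorem hensel_prod {ε : R} (hε : ε * ε = 0) {F : R[X]} {L : List (R[X] × R[X])}
    (hF : F.Monic) (hf : ∀ z ∈ L, z.2.Monic)
    (hdeg : F.degree = ((L.map Prod.snd).prod).degree)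
    (hc : (L.map Prod.snd).Pairwise IsCoprime)
    (he : C ε ∣ F - (L.map Prod.snd).prod)
    (hs : ∀ z ∈ L, ∃ u v, z.1 * csum (L.map (fun z => (1, z.2))) = 1 + z.2 * u + C ε * v) :
    (L.map (fun z => z.2 + ((F - (L.map Prod.snd).prod) * z.1) %ₘ z.2)).prod = F := by
  set Pr : R[X] := (L.map Prod.snd).prod with hPr
  have hPm : Pr.Monic := by
    apply hmonic_list_prod
    intro f hf'
    obtain ⟨y, hy, rfl⟩ := List.mem_map.1 hf'
    exact hf y hy
  set e : R[X] := F - Pr with hee
  obtain ⟨e', he'⟩ := he
  set M : List (R[X] × R[X]) := L.map (fun z => ((e * z.1) %ₘ z.2, z.2)) with hM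
  have hM2 : M.map Prod.snd = L.map Prod.snd := by
    rw [hM, List.map_map]; rfl
  have hMδ : ∀ z ∈ M, ∃ a, z.1 = C ε * a := by
    intro z hz
    obtain ⟨y, hy, rfl⟩ := List.mem_map.1 hz
    refine ⟨(e' * y.1) %ₘ y.2, ?_⟩
    show (e * y.1) %ₘ y.2 = _
    rw [he', mul_assoc, ← smul_eq_C_mul, smul_modByMonic, smul_eq_C_mul]
  have hCε : (C ε * C ε : R[X]) = 0 := by rw [← C_mul, hε, C_0]
  have h1 : (M.map (fun z => z.2 + z.1)).prod = (M.map Prod.snd).prod + csum M := by
    apply prod_add_eq
    intro z hz z' hz'
    obtain ⟨a, ha⟩ := hMδ z hz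
    obtain ⟨a', ha'⟩ := hMδ z' hz'
    rw [ha, ha']
    linear_combination (a * a') * hCε
  have h2 : M.map (fun z => z.2 + z.1) = L.map (fun z => z.2 + (e * z.1) %ₘ z.2) := by
    rw [hM, List.map_map]; rfl
  rw [← h2, h1, hM2, ← hPr]
  have h3 : csum M - e = 0 := by
    have h4 : Pr ∣ csum M - e := by
      apply list_prod_dvd hc
      intro f hf'
      obtain ⟨z, hz, rfl⟩ := List.mem_map.1 hf'
      have h5 := dvd_csum_sub (L := M) (z := ((e * z.1) %ₘ z.2, z.2))
        (List.mem_map.2 ⟨z, hz, rfl⟩)
      have h6 : M.map (fun z => ((1 : R[X]), z.2)) = L.map (fun z => (1, z.2)) := by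
        rw [hM, List.map_map]; rfl
      rw [h6] at h5
      obtain ⟨u, v, huv⟩ := hs z hz
      obtain ⟨t, ht⟩ := h5
      simp only at ht
      have h7 := modByMonic_add_div (e * z.1) z.2
      refine ⟨t - (e * z.1) /ₘ z.2 * csum (L.map (fun z => (1, z.2))) + e * u, ?_⟩
      have h8 : e * C ε = 0 := by rw [he']; linear_combination e' * hCε
      linear_combination ht + csum (L.map (fun z => (1, z.2))) * h7 + e * huv + v * h8
    have h5 : (csum M - e).degree < Pr.degree := by
      refine lt_of_le_of_lt (degree_sub_le _ _) (max_lt ?_ ?_)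
      · rw [hPr, ← hM2]
        apply degree_csum_lt
        intro z hz
        obtain ⟨y, hy, rfl⟩ := List.mem_map.1 hz
        exact ⟨hf y hy, degree_modByMonic_lt _ (hf y hy)⟩
      · rw [hee, ← hdeg]
        refine degree_sub_lt_left hdeg hF.ne_zero ?_
        rw [hF.leadingCoeff, hPm.leadingCoeff]
    by_contra hne
    exact hPm.not_dvd_of_degree_lt hne h5 h4
  have h4 : csum M = e := sub_eq_zero.1 h3
  rw [h4, hee]
  ring

omit [Nontrivial R] in
theorem hensel_inv {ε : R} (hε : ε * ε = 0) {f s Q c s' u v : R[X]}
    (h : s * Q = 1 + f * u + C ε * v) (hc : f ∣ c - Q) (hs : f ∣ s' - s * (2 - s * c)) :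
    ∃ u', s' * Q = 1 + f * u' := by
  have hCε : (C ε * C ε : R[X]) = 0 := by rw [← C_mul, hε, C_0]
  obtain ⟨a, ha⟩ := hc
  obtain ⟨b, hb⟩ := hs
  refine ⟨b * Q - s * s * a * Q - (f * u * u + 2 * u * C ε * v), ?_⟩
  have h1 : s' = f * b + s * (2 - s * c) := by rw [← hb]; ring
  have h2 : c = f * a + Q := by rw [← ha]; ring
  rw [h1, h2]
  linear_combination (2 - s * Q - 1 - f * u - C ε * v) * h - v ^ 2 * hCε

end degrees

section quotient

variable {K : Type} [Field K]

/-- Reduction of the coefficients modulo `x ^ w`. -/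
noncomputable def hphi (w : ℕ) : K[X][X] →+* (K[X] ⧸ Ideal.span {(X : K[X]) ^ w})[X] :=
  mapRingHom (Ideal.Quotient.mk _)

/-- The class of `x ^ k`. -/
noncomputable def epsi (k w : ℕ) : K[X] ⧸ Ideal.span {(X : K[X]) ^ w} :=
  Ideal.Quotient.mk _ (X ^ k)

theorem hphi_C_X_pow (k w : ℕ) : hphi w (C ((X : K[X]) ^ k)) = C (epsi k w) := by
  show (C ((X : K[X]) ^ k)).map _ = _
  rw [map_C]
  rfl

theorem epsi_mul_self {k w : ℕ} (h : w ≤ 2 * k) : epsi (K := K) k w * epsi k w = 0 := by
  unfold epsi
  rw [← map_mul, ← pow_add, Ideal.Quotient.eq_zero_iff_mem, Ideal.mem_span_singleton]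
  exact pow_dvd_pow _ (by omega)

theorem cg_iff_hphi {w : ℕ} {F G : K[X][X]} : Cg w F G ↔ hphi w F = hphi w G := by
  unfold Cg
  rw [C_dvd_iff_dvd_coeff, ← sub_eq_zero, ← map_sub]
  constructor
  · intro h
    ext n
    show ((F - G).map _).coeff n = _
    rw [coeff_map, coeff_zero, Ideal.Quotient.eq_zero_iff_mem, Ideal.mem_span_singleton]
    exact h n
  · intro h n
    have h1 : ((F - G).map (Ideal.Quotient.mk (Ideal.span {(X : K[X]) ^ w}))).coeff n = 0 := by
      show (hphi w (F - G)).coeff n = 0
      rw [h, coeff_zero]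
    rw [coeff_map, Ideal.Quotient.eq_zero_iff_mem, Ideal.mem_span_singleton] at h1
    exact h1

theorem hphi_surjective (w : ℕ) : Function.Surjective (hphi (K := K) w) :=
  map_surjective _ Ideal.Quotient.mk_surjective

theorem Cg.dvd_hphi {k w : ℕ} {F G : K[X][X]} (h : Cg k F G) :
    C (epsi k w) ∣ hphi w F - hphi w G := by
  obtain ⟨H, hH⟩ := h
  rw [← map_sub, hH, map_mul, hphi_C_X_pow]
  exact Dvd.intro _ rfl

theorem cg_of_dvd_hphi {k w : ℕ} (hkw : k ≤ w) {F G : K[X][X]}
    (h : C (epsi k w) ∣ hphi w F - hphi w G) : Cg k F G := by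
  obtain ⟨H, hH⟩ := h
  obtain ⟨H', rfl⟩ := hphi_surjective w H
  rw [← hphi_C_X_pow, ← map_mul, ← map_sub, ← cg_iff_hphi] at hH
  have h2 := hH.mono hkw
  obtain ⟨A, hA⟩ := h2
  refine ⟨H' + A, ?_⟩
  linear_combination hA

theorem hphi_monic {w : ℕ} {F : K[X][X]} (h : F.Monic) : (hphi w F).Monic := h.map _

theorem hphi_modByMonic {w : ℕ} {F G : K[X][X]} (h : G.Monic) :
    hphi w (F %ₘ G) = hphi w F %ₘ hphi w G := map_modByMonic _ h

instance nontrivial_hquot (w : ℕ) [hw : NeZero w] :
    Nontrivial (K[X] ⧸ Ideal.span {(X : K[X]) ^ w}) := by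
  apply Ideal.Quotient.nontrivial_iff.2
  rw [Ne, Ideal.span_singleton_eq_top]
  intro h
  exact not_isUnit_X ((isUnit_pow_iff hw.out).1 h)

theorem combSum_eq_csum (L : List (K[X][X] × K[X][X])) : combSum L = csum L := by
  induction L with
  | nil => rfl
  | cons z L ih =>
    obtain ⟨n, f⟩ := z
    rw [combSum, csum, ih]

theorem isCoprime_hphi {w : ℕ} {A B : K[X][X]} (h : IsCoprime (red A) (red B)) :
    IsCoprime (hphi w A) (hphi w B) := by
  obtain ⟨a, b, hab⟩ := exists_bezout_lift h w
  rw [cg_iff_hphi, map_add, map_mul, map_mul, map_one] at hab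
  exact ⟨_, _, hab⟩

/-- The new factors multiply to `F` with the double precision. -/
theorem step_prod {k w : ℕ} (hw0 : 0 < w) (hw : w ≤ 2 * k) {F : K[X][X]}
    {L : List (K[X][X] × K[X][X])} (hF : F.Monic) (hP : ∀ z ∈ L, z.1.Monic)
    (hdeg : F.natDegree = ((L.map Prod.fst).prod).natDegree)
    (hc : L.Pairwise (fun z z' => IsCoprime (red z.1) (red z'.1)))
    (he : Cg k F (L.map Prod.fst).prod)
    (hs : ∀ z ∈ L, ∃ u, Cg k (z.2 * combSum (L.map (fun z => (1, z.1)))) (1 + z.1 * u)) :
    Cg w F (L.map (fun z => z.1 + ((F - (L.map Prod.fst).prod) * z.2) %ₘ z.1)).prod := by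
  have : NeZero w := ⟨hw0.ne'⟩
  rw [cg_iff_hphi]
  set L' := L.map (fun z => (hphi w z.2, hphi w z.1)) with hL'
  have hm : ((L.map Prod.fst).prod).Monic := by
    apply hmonic_list_prod
    intro f hf
    obtain ⟨y, hy, rfl⟩ := List.mem_map.1 hf
    exact hP y hy
  have e1 : (L'.map Prod.snd).prod = hphi w (L.map Prod.fst).prod := by
    rw [hL', List.map_map, map_list_prod, List.map_map]
    rfl
  have e2 : csum (L'.map (fun z => (1, z.2))) = hphi w (combSum (L.map (fun z => (1, z.1)))) := by
    have e3 := csum_map (S := (K[X] ⧸ Ideal.span {(X : K[X]) ^ w})[X]) (hphi w)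
      (L.map (fun z => (1, z.1)))
    rw [combSum_eq_csum, e3, hL', List.map_map, List.map_map]
    congr 1
    apply List.map_congr_left
    intro z _
    simp
  have h1 := hensel_prod (ε := epsi k w) (epsi_mul_self hw) (F := hphi w F) (L := L')
    (hphi_monic hF) ?_ ?_ ?_ ?_ ?_
  · rw [e1] at h1
    generalize (List.map Prod.fst L).prod = p at h1 ⊢
    rw [← h1, hL', List.map_map, map_list_prod, List.map_map]
    congr 1
    apply List.map_congr_left
    intro z hz
    simp only [Function.comp]
    rw [map_add, hphi_modByMonic (hP z hz), map_mul, map_sub]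
  · intro z hz
    obtain ⟨y, hy, rfl⟩ := List.mem_map.1 hz
    exact hphi_monic (hP y hy)
  · rw [e1]
    have a1 := hF.degree_map (Ideal.Quotient.mk (Ideal.span {(X : K[X]) ^ w}))
    have a2 := hm.degree_map (Ideal.Quotient.mk (Ideal.span {(X : K[X]) ^ w}))
    show (F.map _).degree = (((L.map Prod.fst).prod).map _).degree
    rw [a1, a2, degree_eq_natDegree hF.ne_zero, degree_eq_natDegree hm.ne_zero, hdeg]
  · rw [hL', List.map_map, List.pairwise_map]
    exact hc.imp fun h => isCoprime_hphi h
  · rw [e1]
    exact he.dvd_hphi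
  · intro z hz
    obtain ⟨y, hy, rfl⟩ := List.mem_map.1 hz
    obtain ⟨u, hu⟩ := hs y hy
    obtain ⟨v, hv⟩ := hu.dvd_hphi (w := w)
    refine ⟨hphi w u, v, ?_⟩
    rw [e2]
    simp only [map_mul, map_add, map_one] at hv ⊢
    linear_combination hv

/-- The new factors agree with the old ones to the old precision. -/
theorem step_factor {k : ℕ} {e s f : K[X][X]} (hf : f.Monic) (he : Cg k e 0) :
    Cg k (f + (e * s) %ₘ f) f := by
  have h1 : Cg k (e * s) 0 := by
    have := he.mul (Cg.refl k s)
    rwa [zero_mul] at this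
  have h2 := h1.modByMonic (Cg.refl k f) hf hf
  rw [zero_modByMonic] at h2
  have h3 := (Cg.refl k f).add h2
  rwa [add_zero] at h3

theorem step_inv {k w : ℕ} (hw0 : 0 < w) (hw : w ≤ 2 * k) {f s Q c s' : K[X][X]}
    (h : ∃ u, Cg k (s * Q) (1 + f * u)) (hc : ∃ a, Cg w c (Q + f * a))
    (hs : ∃ b, Cg w s' (s * (2 - s * c) + f * b)) : ∃ u, Cg w (s' * Q) (1 + f * u) := by
  have : NeZero w := ⟨hw0.ne'⟩
  obtain ⟨u, hu⟩ := h
  obtain ⟨a, ha⟩ := hc
  obtain ⟨b, hb⟩ := hs
  obtain ⟨v, hv⟩ := hu.dvd_hphi (w := w)
  rw [cg_iff_hphi] at ha hb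
  obtain ⟨u', hu'⟩ := hensel_inv (ε := epsi k w) (epsi_mul_self hw) (f := hphi w f) (s := hphi w s)
    (Q := hphi w Q) (c := hphi w c) (s' := hphi w s') (u := hphi w u) (v := v)
    (by simp only [map_mul, map_add, map_one] at hv ⊢; linear_combination hv)
    ⟨hphi w a, by rw [ha]; simp only [map_add, map_mul]; ring⟩
    ⟨hphi w b, by rw [hb]; simp only [map_add, map_mul, map_sub, map_ofNat]; ring⟩
  obtain ⟨u'', rfl⟩ := hphi_surjective w u'
  refine ⟨u'', ?_⟩
  rw [cg_iff_hphi]
  simp only [map_mul, map_add, map_one]
  exact hu'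

end quotient

end Pool.Agent.BiFac

end
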