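import Pool.Agent.Work.MP_8d07ed_lc.Bd.B01
import Pool.Agent.Work.MP_8d07ed_lc.Bd.B02
import Pool.Agent.Work.MP_8d07ed_lc.Bd.B03

/-! Bundle of small proof modules (one section per former module). -/

section

/-!
# N3. The dimension of the unresolved part
-/

set_option autoImplicit false

namespace Pool.Agent.BiFac

open Polynomial

variable {K : Type} [Field K]

/-- The vectors in the window form a subspace. -/
def winSub {r : ℕ} (P : Fin r → K[X][X]) (d D ρ : ℕ) (h : K[X][X]) :
    Submodule K (Fin r → K) where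
  carrier := {μ | InW P d D ρ h μ}
  zero_mem' := by
    intro j _
    simp [Smu]
  add_mem' := by
    intro a b ha hb j hj
    have h1 : Smu P (a + b) h = Smu P a h + Smu P b h := by
      unfold Smu
      simp only [Pi.add_apply, C_add, add_mul, Finset.sum_add_distrib]
    rw [h1, coeff_add, ha j hj, hb j hj, add_zero]
  smul_mem' := by
    intro c a ha j hj
    have h1 : Smu P (c • a) h = C c * Smu P a h := by
      unfold Smu
      simp only [Pi.smul_apply, smul_eq_mul, C_mul, mul_assoc, Finset.mul_sum]
    rw [h1, coeff_C_mul, ha j hj, mul_zero]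

theorem mem_winSub {r : ℕ} {P : Fin r → K[X][X]} {d D ρ : ℕ} {h : K[X][X]} {μ : Fin r → K} :
    μ ∈ winSub P d D ρ h ↔ InW P d D ρ h μ := Iff.rfl

theorem finrank_unresolved {σ r u n D ρ κ : ℕ} {F : K[X][X]} {P : Fin r → K[X][X]}
    (h : Lifted σ F P) (hn : F.natDegree = n) (hn0 : 0 < n) (hρ : 0 < ρ) (hσ : D + n + ρ = σ)
    (c : Fin n → Fin (D + 1) → K)
    (hbad : ∀ μ, InW P n D ρ (hpoly c) μ → Bad P n ρ σ μ) (ι : Fin u → Fin r)
    (hι : Function.Injective ι)
    (hlarge : ∀ f, Irreducible f → f.Monic → f ∣ F → ∀ j, Bel P f (ι j) →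
      σ ≤ f.natDegree * (2 * n + ρ))
    (b : Fin κ → Fin r → K) (hb : ∀ l, InW P n D ρ (hpoly c) (b l))
    (hli : LinearIndependent K (fun (l : Fin κ) (j : Fin u) => b l (ι j))) :
    κ * σ ≤ 2 * n * (2 * n + ρ) := by
  classical
  have hfac := fun i => h.exists_factor i
  choose part hpi hpm hpd hpb using hfac
  have hpart : ∀ i j, part j = part i ↔ Bel P (part i) j := by
    intro i j
    constructor
    · intro hij
      rw [← hij]
      exact hpb j
    · intro hb
      exact h.factor_unique (hpi j) (hpm j) (hpd j) (hpi i) (hpm i) (hpd i) (hpb j) hb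
  have hdeg : ∀ i, ∑ j ∈ Finset.univ.filter (fun j => part j = part i), (P j).natDegree =
      (part i).natDegree := by
    intro i
    rw [(h.factor (hpm i) (hpd i)).2.1]
    refine Finset.sum_congr ?_ fun _ _ => rfl
    ext j
    simp only [Finset.mem_filter, Finset.mem_univ, true_and]
    exact hpart i j
  have hZ : ∀ μ ∈ winSub P n D ρ (hpoly c), ∀ (t : K[X][X]) (I : Finset (Fin r)),
      (∀ i ∈ I, part i = t ∧ μ i = 0) →
      (∑ i ∈ Finset.univ.filter (fun i => part i = t), (P i).natDegree) * (2 * n + ρ) <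
        (∑ i ∈ I, (P i).natDegree) * σ → ∀ i, part i = t → μ i = 0 := by
    intro μ hμ t I hI hlt i hi
    subst hi
    rw [hdeg] at hlt
    refine (hbad μ hμ).eq_zero h hn hn0 hρ (by omega) (hpi i) (hpm i) (hpd i) I ?_ hlt i (hpb i)
    intro j hj
    exact ⟨(hpart i j).1 (hI j hj).1, (hI j hj).2⟩
  set U : Finset (Fin r) := Finset.univ.image ι with hU
  have hUl : ∀ i ∈ U, σ ≤
      (∑ j ∈ Finset.univ.filter (fun j => part j = part i), (P j).natDegree) * (2 * n + ρ) := by
    intro i hi
    rw [hdeg]
    obtain ⟨j, -, rfl⟩ := Finset.mem_image.1 hi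
    exact hlarge _ (hpi _) (hpm _) (hpd _) j (hpb _)
  have key := finrank_restrict_le (winSub P n D ρ (hpoly c)) (fun i => (P i).natDegree)
    (fun i => h.natDegree_pos i) part (2 * n + ρ) σ h.pos hZ U hUl
  have hsum : ∑ i, (P i).natDegree = n := by
    rw [← h.natDegree_eq, hn]
  rw [hsum] at key
  refine le_trans (Nat.mul_le_mul_right σ ?_) key
  -- `κ` independent vectors in the image
  set W := (winSub P n D ρ (hpoly c)).map (LinearMap.funLeft K K (fun i : U => (i : Fin r)))
    with hW
  let e : Fin u → U := fun j => ⟨ι j, Finset.mem_image_of_mem _ (Finset.mem_univ j)⟩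
  let w : Fin κ → W := fun l => ⟨LinearMap.funLeft K K (fun i : U => (i : Fin r)) (b l),
    Submodule.mem_map_of_mem (hb l)⟩
  have hw : LinearIndependent K w := by
    apply LinearIndependent.of_comp ((LinearMap.funLeft K K e).comp W.subtype)
    exact hli
  have := hw.fintype_card_le_finrank
  rwa [Fintype.card_fin] at this

end Pool.Agent.BiFac

end

section

/-!
# Fast left kernel (M2)
-/

set_option autoImplicit false

namespace Pool.Agent.BiFac

open Polynomial Pool.Agent.TreeRAM

variable {K : Type} [Field K]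

namespace LK

/-! ### Linear algebra -/

/-- the span of the rows -/
def Sp (R : List (List K)) : Submodule K (ℕ → K) :=
  Submodule.span K {v | ∃ r ∈ R, v = vec r}

/-- vectors vanishing at the first `b` positions -/
def Zb (K : Type) [Field K] (b : ℕ) : Submodule K (ℕ → K) where
  carrier := {v | ∀ j < b, v j = 0}
  add_mem' := by
    intro u v hu hv j hj
    simp [hu j hj, hv j hj]
  zero_mem' := by intro j _; rfl
  smul_mem' := by
    intro c v hv j hj
    simp [hv j hj]

theorem mem_Zb {b : ℕ} {v : ℕ → K} : v ∈ Zb K b ↔ ∀ j < b, v j = 0 := Iff.rfl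

/-- forget the first `b` entries -/
def shift (K : Type) [Field K] (b : ℕ) : (ℕ → K) →ₗ[K] (ℕ → K) :=
  LinearMap.funLeft K K (fun i => i + b)

theorem shift_apply (b : ℕ) (v : ℕ → K) (i : ℕ) : shift K b v i = v (i + b) := rfl

theorem vec_nil : vec ([] : List K) = 0 := by
  funext i
  simp [vec]

theorem vec_addP (a b : List K) : vec (addP a b) = vec a + vec b := by
  funext i
  rw [Pi.add_apply, vec_eq_coeff, vec_eq_coeff, vec_eq_coeff, toP_addP, coeff_add]

theorem vec_smulP (c : K) (a : List K) : vec (smulP c a) = c • vec a := by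
  funext i
  rw [Pi.smul_apply, vec_eq_coeff, vec_eq_coeff, toP_smulP, coeff_C_mul, smul_eq_mul]

theorem vec_subP (a b : List K) : vec (subP a b) = vec a - vec b := by
  funext i
  rw [Pi.sub_apply, vec_eq_coeff, vec_eq_coeff, vec_eq_coeff, toP_subP, coeff_sub]

theorem vec_drop (b : ℕ) (l : List K) : vec (l.drop b) = shift K b (vec l) := by
  funext i
  rw [shift_apply]
  simp only [vec, List.getD_eq_getElem?_getD, List.getElem?_drop]
  rw [add_comm]

theorem vec_take {b : ℕ} {l : List K} {j : ℕ} (hj : j < b) : vec (l.take b) j = vec l j := by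
  simp only [vec, List.getD_eq_getElem?_getD]
  rw [List.getElem?_take, if_pos hj]

theorem vec_append_left {a b : List K} {j : ℕ} (hj : j < a.length) :
    vec (a ++ b) j = vec a j := by
  simp only [vec, List.getD_eq_getElem?_getD]
  rw [List.getElem?_append, if_pos hj]

theorem vec_append_right (a b : List K) (j : ℕ) :
    vec (a ++ b) (j + a.length) = vec b j := by
  simp only [vec, List.getD_eq_getElem?_getD]
  rw [List.getElem?_append, if_neg (by omega)]
  congr 2
  omega

theorem vec_eq_zero_of_le {a : List K} {j : ℕ} (hj : a.length ≤ j) : vec a j = 0 := by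
  simp only [vec, List.getD_eq_getElem?_getD]
  rw [List.getElem?_eq_none hj]
  rfl

theorem vec_lincomb_cons (c : K) (cs v : List K) (vs : List (List K)) :
    vec (lincomb (c :: cs) (v :: vs)) = c • vec v + vec (lincomb cs vs) := by
  rw [lincomb_cons, vec_addP, vec_smulP]

theorem vec_lincomb_congr {cs : List K} {f : List K → List K} {vs : List (List K)} {j : ℕ}
    (h : ∀ v ∈ vs, vec (f v) j = vec v j) :
    vec (lincomb cs (vs.map f)) j = vec (lincomb cs vs) j := by
  induction cs generalizing vs with
  | nil => rfl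
  | cons c cs ih =>
    cases vs with
    | nil => rfl
    | cons v vs =>
      rw [List.map_cons, vec_lincomb_cons, vec_lincomb_cons, Pi.add_apply, Pi.add_apply,
        Pi.smul_apply, Pi.smul_apply, h v (by simp), ih (fun u hu => h u (by simp [hu]))]

theorem vec_mem_Sp {R : List (List K)} {r : List K} (h : r ∈ R) : vec r ∈ Sp R :=
  Submodule.subset_span ⟨r, h, rfl⟩

theorem Sp_cons (r : List K) (R : List (List K)) :
    Sp (r :: R) = Submodule.span K (insert (vec r) {v | ∃ r ∈ R, v = vec r}) := by
  unfold Sp
  congr 1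
  ext v
  simp

theorem mem_Sp {R : List (List K)} {v : ℕ → K} :
    v ∈ Sp R ↔ ∃ c : List K, c.length = R.length ∧ v = vec (lincomb c R) := by
  induction R generalizing v with
  | nil =>
    unfold Sp
    simp only [List.not_mem_nil, false_and, exists_false, Set.ofPred_false, Submodule.span_empty,
      Submodule.mem_bot, List.length_nil, List.length_eq_zero_iff, exists_eq_left, lincomb_nil,
      vec_nil]
  | cons r R ih =>
    rw [Sp_cons, Submodule.mem_span_insert]
    constructor
    · rintro ⟨a, z, hz, rfl⟩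
      obtain ⟨c, hc, rfl⟩ := ih.1 hz
      exact ⟨a :: c, by simp [hc], by rw [vec_lincomb_cons]⟩
    · rintro ⟨c, hc, rfl⟩
      cases c with
      | nil => simp at hc
      | cons a c =>
        exact ⟨a, _, ih.2 ⟨c, by simpa using hc, rfl⟩, vec_lincomb_cons _ _ _ _⟩

theorem lincomb_mem_Sp (c : List K) (R : List (List K)) : vec (lincomb c R) ∈ Sp R := by
  induction c generalizing R with
  | nil => rw [lincomb_nil, vec_nil]; exact Submodule.zero_mem _
  | cons a c ih =>
    cases R with
    | nil => rw [lincomb_nil', vec_nil]; exact Submodule.zero_mem _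
    | cons r R =>
      rw [vec_lincomb_cons, Sp_cons]
      refine Submodule.add_mem _ (Submodule.smul_mem _ _ (Submodule.subset_span (by simp))) ?_
      exact Submodule.span_mono (Set.subset_insert _ _) (ih R)

theorem lincomb_eq_zero {c : List K} {R : List (List K)} (h : ∀ x ∈ c, x = 0) :
    vec (lincomb c R) = 0 := by
  induction c generalizing R with
  | nil => rw [lincomb_nil, vec_nil]
  | cons a c ih =>
    cases R with
    | nil => rw [lincomb_nil', vec_nil]
    | cons r R =>
      rw [vec_lincomb_cons, h a (by simp), zero_smul, zero_add, ih (fun x hx => h x (by simp [hx]))]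

/-- `lincomb` as a sum -/
theorem vec_lincomb_sum {c : List K} {R : List (List K)} {b : ℕ} (hR : R.length ≤ b) (j : ℕ) :
    vec (lincomb c R) j = ∑ l ∈ Finset.range b, vec c l * vec (R.getD l []) j := by
  induction c generalizing R b with
  | nil => simp [lincomb_nil, vec_nil]
  | cons a c ih =>
    cases R with
    | nil => simp [lincomb_nil', vec_nil]
    | cons r R =>
      cases b with
      | zero => simp at hR
      | succ b =>
        rw [vec_lincomb_cons, Finset.sum_range_succ', Pi.add_apply,
          ih (b := b) (by simpa using hR)]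
        simp only [Pi.smul_apply, smul_eq_mul, List.getD_cons_succ, List.getD_cons_zero]
        rw [add_comm]
        congr 1

/-! ### Blocks -/

theorem getD_flatten {α : Type} {L : List (List α)} {b m j : ℕ} {d : α}
    (hL : ∀ l ∈ L, l.length = b) (hj : j < b) (hm : m < L.length) :
    L.flatten.getD (m * b + j) d = (L.getD m []).getD j d := by
  induction L generalizing m with
  | nil => simp at hm
  | cons l L ih =>
    have hl : l.length = b := hL l (by simp)
    cases m with
    | zero =>
      simp only [List.flatten_cons, zero_mul, zero_add, List.getD_eq_getElem?_getD]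
      rw [List.getElem?_append, if_pos (by omega)]
      rfl
    | succ m =>
      simp only [List.flatten_cons, List.getD_cons_succ]
      rw [← ih (fun x hx => hL x (by simp [hx])) (by simpa using hm)]
      simp only [List.getD_eq_getElem?_getD]
      rw [List.getElem?_append, if_neg (by rw [hl]; nlinarith)]
      congr 2
      rw [hl, add_mul]
      omega

/-- put matrices with `b` rows side by side -/
def hcat (b : ℕ) (Ms : List (List (List K))) : List (List K) :=
  Ms.foldr (fun M acc => List.zipWith (fun x y => x ++ y) M acc) (List.replicate b [])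

omit [Field K] in
theorem length_hcat {b : ℕ} {Ms : List (List (List K))} (h : ∀ M ∈ Ms, M.length = b) :
    (hcat b Ms).length = b := by
  induction Ms with
  | nil => simp [hcat]
  | cons M Ms ih =>
    have h1 := ih (fun x hx => h x (by simp [hx]))
    simp only [hcat, List.foldr_cons] at h1 ⊢
    rw [List.length_zipWith, h1, h M (by simp), min_self]

omit [Field K] in
theorem getD_hcat {b : ℕ} {Ms : List (List (List K))} (h : ∀ M ∈ Ms, M.length = b) {i : ℕ}
    (hi : i < b) : (hcat b Ms).getD i [] = (Ms.map (fun M => M.getD i [])).flatten := by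
  induction Ms with
  | nil =>
    simp only [hcat, List.foldr_nil, List.map_nil, List.flatten_nil, List.getD_eq_getElem?_getD]
    rw [List.getElem?_replicate, if_pos hi]
    rfl
  | cons M Ms ih =>
    have h1 := ih (fun x hx => h x (by simp [hx]))
    have h2 := length_hcat (fun x hx => h x (List.mem_cons_of_mem _ hx) : ∀ M ∈ Ms, M.length = b)
    have hM : M.length = b := h M (by simp)
    simp only [hcat, List.foldr_cons, List.map_cons, List.flatten_cons] at h1 h2 ⊢
    rw [← h1]
    rw [List.getD_eq_getElem _ _ (by rw [List.length_zipWith, h2, hM, min_self]; exact hi),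
      List.getElem_zipWith, List.getD_eq_getElem _ _ (by omega), List.getD_eq_getElem _ _ (by omega)]

/-- the column blocks of width `2 ^ σ` -/
def colBlocks (σ nb : ℕ) (P : List (List K)) : List (List (List K)) :=
  (List.range nb).map (fun k => P.map (fun r => (r.drop (k * 2 ^ σ)).take (2 ^ σ)))

/-- the product of `C` with the matrix given by column blocks -/
def mulBlocks (σ nc : ℕ) (B : List (List (List K))) (C : List (List K)) : List (List K) :=
  (List.range nc).flatMap (fun k =>
    hcat (2 ^ σ) (B.map (fun M => matMul σ ((C.drop (k * 2 ^ σ)).take (2 ^ σ)) M)))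

omit [Field K] in
theorem length_hcat_row {b : ℕ} {Ms : List (List (List K))} (h : ∀ M ∈ Ms, M.length = b)
    (h' : ∀ M ∈ Ms, ∀ r ∈ M, r.length = b) : ∀ r ∈ hcat b Ms, r.length = Ms.length * b := by
  induction Ms with
  | nil =>
    intro r hr
    simp only [hcat, List.foldr_nil] at hr
    rw [List.eq_of_mem_replicate hr]
    simp
  | cons M Ms ih =>
    intro r hr
    have h1 := ih (fun x hx => h x (by simp [hx])) (fun x hx => h' x (by simp [hx]))
    simp only [hcat, List.foldr_cons] at hr h1
    rw [List.mem_iff_getElem] at hr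
    obtain ⟨i, hi, rfl⟩ := hr
    rw [List.length_zipWith] at hi
    rw [List.getElem_zipWith, List.length_append, h' M (by simp) _ (List.getElem_mem _),
      h1 _ (List.getElem_mem _), List.length_cons]
    ring

theorem length_mulBlocks (σ nc : ℕ) (B : List (List (List K))) (C : List (List K)) :
    (mulBlocks σ nc B C).length = nc * 2 ^ σ := by
  unfold mulBlocks
  rw [List.length_flatMap]
  have : (List.map (fun k => (hcat (2 ^ σ) (B.map (fun M => matMul σ
      ((C.drop (k * 2 ^ σ)).take (2 ^ σ)) M))).length) (List.range nc)) =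
      List.map (fun _ => 2 ^ σ) (List.range nc) := by
    apply List.map_congr_left
    intro k _
    apply length_hcat
    intro M hM
    rw [List.mem_map] at hM
    obtain ⟨M', _, rfl⟩ := hM
    exact length_matMul _ _ _
  rw [this]
  simp

theorem rows_mulBlocks (σ nc : ℕ) (B : List (List (List K))) (C : List (List K)) :
    ∀ r ∈ mulBlocks σ nc B C, r.length = B.length * 2 ^ σ := by
  intro r hr
  unfold mulBlocks at hr
  rw [List.mem_flatMap] at hr
  obtain ⟨k, _, hr⟩ := hr
  have := length_hcat_row (b := 2 ^ σ) (Ms := B.map (fun M => matMul σ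
      ((C.drop (k * 2 ^ σ)).take (2 ^ σ)) M)) (by
    intro M hM
    rw [List.mem_map] at hM
    obtain ⟨M', _, rfl⟩ := hM
    exact length_matMul _ _ _) (by
    intro M hM
    rw [List.mem_map] at hM
    obtain ⟨M', _, rfl⟩ := hM
    exact rows_matMul _ _ _) r hr
  rw [this, List.length_map]

theorem mulBlocks_spec {σ nb nc : ℕ} {P C : List (List K)} (hP : P.length ≤ 2 ^ σ)
    (hPr : ∀ r ∈ P, r.length ≤ nb * 2 ^ σ) {i : ℕ} (hi : i < nc * 2 ^ σ) (j : ℕ) :
    vec ((mulBlocks σ nc (colBlocks σ nb P) C).getD i []) j = vec (lincomb (C.getD i []) P) j := by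
  set b := 2 ^ σ with hb
  have hb0 : 0 < b := by positivity
  rcases lt_or_ge j (nb * b) with hj | hj
  swap
  · -- outside
    rw [vec_eq_zero_of_le, vec_eq_zero_of_le]
    · exact (length_lincomb_le hPr).trans hj
    · rcases lt_or_ge i (mulBlocks σ nc (colBlocks σ nb P) C).length with h | h
      · rw [List.getD_eq_getElem _ _ h, rows_mulBlocks _ _ _ _ _ (List.getElem_mem _)]
        simp only [colBlocks, List.length_map, List.length_range]
        exact hj
      · rw [List.getD_eq_default _ _ h]
        exact Nat.zero_le _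
  -- i = k b + i', j = m b + j'
  obtain ⟨k, i', hi', rfl⟩ : ∃ k i', i' < b ∧ i = k * b + i' :=
    ⟨i / b, i % b, Nat.mod_lt _ hb0, (Nat.div_add_mod' i b).symm⟩
  obtain ⟨m, j', hj', rfl⟩ : ∃ k i', i' < b ∧ j = k * b + i' :=
    ⟨j / b, j % b, Nat.mod_lt _ hb0, (Nat.div_add_mod' j b).symm⟩
  have hk : k < nc := by
    by_contra h
    push Not at h
    have := Nat.mul_le_mul_right b h
    omega
  have hm : m < nb := by
    by_contra h
    push Not at h
    have := Nat.mul_le_mul_right b h
    omega
  have hlenMs : ∀ k, ∀ M ∈ (colBlocks σ nb P).map (fun M => matMul σ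
      ((C.drop (k * b)).take b) M), M.length = b := by
    intro k M hM
    rw [List.mem_map] at hM
    obtain ⟨M', _, rfl⟩ := hM
    exact length_matMul _ _ _
  have e1 : (mulBlocks σ nc (colBlocks σ nb P) C).getD (k * b + i') [] =
      (hcat b ((colBlocks σ nb P).map (fun M => matMul σ
        ((C.drop (k * b)).take b) M))).getD i' [] := by
    unfold mulBlocks
    rw [← hb, List.flatMap_def, getD_flatten (b := b) _ hi' (by simpa using hk)]
    · congr 1
      rw [List.getD_eq_getElem _ _ (by simpa using hk)]
      simp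
    · intro l hl
      rw [List.mem_map] at hl
      obtain ⟨k', _, rfl⟩ := hl
      exact length_hcat (hlenMs k')
  rw [e1, getD_hcat (hlenMs k) hi', List.map_map]
  have e2 : vec ((List.map ((fun M => M.getD i' []) ∘ fun M => matMul σ
      ((C.drop (k * b)).take b) M) (colBlocks σ nb P)).flatten) (m * b + j') =
      vec ((matMul σ ((C.drop (k * b)).take b)
        (P.map (fun r => (r.drop (m * b)).take b))).getD i' []) j' := by
    unfold vec
    rw [getD_flatten (b := b) _ hj' (by simpa [colBlocks] using hm)]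
    · congr 1
      rw [List.getD_eq_getElem _ _ (by simpa [colBlocks] using hm)]
      simp [colBlocks, hb]
    · intro l hl
      rw [List.mem_map] at hl
      obtain ⟨M, _, rfl⟩ := hl
      simp only [Function.comp]
      apply rows_matMul σ ((C.drop (k * b)).take b) M
      rw [List.getD_eq_getElem _ _ (by rw [length_matMul]; exact hi')]
      exact List.getElem_mem _
  rw [e2, matMul_spec _ _ _ hi' hj', ← hb, vec_lincomb_sum hP]
  apply Finset.sum_congr rfl
  intro l hl
  rw [Finset.mem_range] at hl
  congr 1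
  · unfold vec
    simp only [List.getD_eq_getElem?_getD]
    rw [List.getElem?_take, if_pos hi', List.getElem?_drop]
  · rcases lt_or_ge l P.length with h | h
    · rw [List.getD_eq_getElem _ _ (by simpa using h), List.getElem_map,
        List.getD_eq_getElem _ _ h, vec_take hj', vec_drop, shift_apply]
      congr 1
      omega
    · rw [List.getD_eq_default _ _ (by simpa using h), List.getD_eq_default _ _ h]
      simp [vec]

/-! ### One panel -/

/-- the dependent rows with their coefficients -/
def deps (o : List (Option (List K))) (rows : List (List K)) : List (Option (List K) × List K) :=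
  (o.zip rows).filter (fun z => z.1.isSome)

/-- the new rows -/
def newRows (σ nb nc : ℕ) (piv : List (List K)) (D : List (Option (List K) × List K)) :
    List (List K) :=
  List.zipWith (fun x p => (subP x p).drop (2 ^ σ)) (D.map (fun z => z.2))
    (mulBlocks σ nc (colBlocks σ nb piv) (D.map (fun z => z.1.getD [])))

/-- one panel -/
def step [DecidableEq K] (σ nb nc : ℕ) (rows : List (List K)) : List (List K) :=
  newRows σ nb nc (pick (elimN (2 ^ σ) (rows.map (fun r => r.take (2 ^ σ)))) rows)
    (deps (elimN (2 ^ σ) (rows.map (fun r => r.take (2 ^ σ)))) rows)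

theorem pick_map {α β γ : Type} (o : List (Option β)) (A : List α) (f : α → γ) :
    pick o (A.map f) = (pick o A).map f := by
  unfold pick
  rw [List.zip_map_right, List.filter_map, List.map_map, List.map_map]
  rfl

theorem mem_pick {α β : Type} {o : List (Option β)} {A : List α} {a : α} :
    a ∈ pick o A ↔ ∃ i : ℕ, o[i]? = some none ∧ A[i]? = some a := by
  unfold pick
  simp only [List.mem_map, List.mem_filter, Prod.exists, exists_eq_right]
  constructor
  · rintro ⟨x, hx, hn⟩
    obtain ⟨i, hi, h⟩ := List.mem_iff_getElem.1 hx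
    rw [List.length_zip] at hi
    rw [List.getElem_zip, Prod.mk.injEq] at h
    refine ⟨i, ?_, ?_⟩
    · rw [List.getElem?_eq_getElem (by omega), h.1]
      cases x <;> simp_all
    · rw [List.getElem?_eq_getElem (by omega), h.2]
  · rintro ⟨i, h1, h2⟩
    refine ⟨none, ?_, by simp⟩
    obtain ⟨h3, h4⟩ := List.getElem?_eq_some_iff.1 h1
    obtain ⟨h5, h6⟩ := List.getElem?_eq_some_iff.1 h2
    rw [List.mem_iff_getElem]
    refine ⟨i, by rw [List.length_zip]; omega, ?_⟩
    rw [List.getElem_zip, h4, h6]

omit [Field K] in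
theorem mem_deps {o : List (Option (List K))} {A : List (List K)} {c a : List K} :
    (some c, a) ∈ deps o A ↔ ∃ i : ℕ, o[i]? = some (some c) ∧ A[i]? = some a := by
  unfold deps
  simp only [List.mem_filter, Option.isSome_some, and_true]
  constructor
  · intro hx
    obtain ⟨i, hi, h⟩ := List.mem_iff_getElem.1 hx
    rw [List.length_zip] at hi
    rw [List.getElem_zip, Prod.mk.injEq] at h
    refine ⟨i, ?_, ?_⟩
    · rw [List.getElem?_eq_getElem (by omega), h.1]
    · rw [List.getElem?_eq_getElem (by omega), h.2]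
  · rintro ⟨i, h1, h2⟩
    obtain ⟨h3, h4⟩ := List.getElem?_eq_some_iff.1 h1
    obtain ⟨h5, h6⟩ := List.getElem?_eq_some_iff.1 h2
    rw [List.mem_iff_getElem]
    refine ⟨i, by rw [List.length_zip]; omega, ?_⟩
    rw [List.getElem_zip, h4, h6]

omit [Field K] in
theorem deps_isSome {o : List (Option (List K))} {A : List (List K)}
    {z : Option (List K) × List K} (h : z ∈ deps o A) : ∃ c, z = (some c, z.2) := by
  unfold deps at h
  rw [List.mem_filter] at h
  obtain ⟨z1, z2⟩ := z
  cases z1 with
  | none => simp at h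
  | some c => exact ⟨c, rfl⟩

theorem Sp_newRows {σ nb nc : ℕ} {piv : List (List K)} {D : List (Option (List K) × List K)}
    (hP : piv.length ≤ 2 ^ σ) (hPr : ∀ r ∈ piv, r.length ≤ nb * 2 ^ σ)
    (hD : D.length ≤ nc * 2 ^ σ) :
    Sp (newRows σ nb nc piv D) =
      (Submodule.span K {v | ∃ z ∈ D, v = vec z.2 - vec (lincomb (z.1.getD []) piv)}).map
        (shift K (2 ^ σ)) := by
  rw [Submodule.map_span]
  unfold Sp
  congr 1
  have hval : ∀ i (hi : i < D.length) (hi' : i < (newRows σ nb nc piv D).length),
      vec ((newRows σ nb nc piv D)[i]) =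
        shift K (2 ^ σ) (vec (D[i]).2 - vec (lincomb ((D[i]).1.getD []) piv)) := by
    intro i hi hi'
    simp only [newRows, List.getElem_zipWith, List.getElem_map]
    rw [vec_drop, vec_subP]
    congr 2
    have hi2 : i < (mulBlocks σ nc (colBlocks σ nb piv) (D.map (fun z => z.1.getD []))).length := by
      rw [length_mulBlocks]
      omega
    rw [← List.getD_eq_getElem _ [] hi2]
    funext j
    rw [mulBlocks_spec hP hPr (by omega) j, List.getD_eq_getElem _ _ (by simpa using hi),
      List.getElem_map]
  have hlen : (newRows σ nb nc piv D).length = D.length := by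
    unfold newRows
    rw [List.length_zipWith, List.length_map, length_mulBlocks]
    omega
  ext v
  constructor
  · rintro ⟨r, hr, rfl⟩
    obtain ⟨i, hi, rfl⟩ := List.mem_iff_getElem.1 hr
    have hi' : i < D.length := by omega
    exact ⟨_, ⟨D[i], List.getElem_mem _, rfl⟩, (hval i hi' hi).symm⟩
  · rintro ⟨_, ⟨z, hz, rfl⟩, rfl⟩
    obtain ⟨i, hi, rfl⟩ := List.mem_iff_getElem.1 hz
    have hi' : i < (newRows σ nb nc piv D).length := by omega
    exact ⟨_, List.getElem_mem hi', (hval i hi hi').symm⟩

private theorem length_pick_le {α β : Type} (o : List (Option β)) (A : List α) :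
    (pick o A).length ≤ A.length := by
  unfold pick
  rw [List.length_map]
  refine (List.length_filter_le _ _).trans ?_
  rw [List.length_zip]
  exact min_le_right _ _

omit [Field K] in
theorem length_deps_le (o : List (Option (List K))) (A : List (List K)) :
    (deps o A).length ≤ A.length := by
  unfold deps
  refine (List.length_filter_le _ _).trans ?_
  rw [List.length_zip]
  exact min_le_right _ _

theorem length_newRows_le (σ nb nc : ℕ) (piv : List (List K))
    (D : List (Option (List K) × List K)) : (newRows σ nb nc piv D).length ≤ D.length := by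
  unfold newRows
  rw [List.length_zipWith, List.length_map]
  exact min_le_left _ _

theorem length_step_le [DecidableEq K] (σ nb nc : ℕ) (rows : List (List K)) :
    (step σ nb nc rows).length ≤ rows.length :=
  (length_newRows_le _ _ _ _ _).trans (length_deps_le _ _)

theorem mem_of_pick {α β : Type} {o : List (Option β)} {A : List α} {a : α} (h : a ∈ pick o A) :
    a ∈ A := by
  obtain ⟨i, _, h2⟩ := mem_pick.1 h
  exact List.mem_of_getElem? h2

theorem rows_step [DecidableEq K] {σ nb nc : ℕ} {rows : List (List K)}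
    (h : ∀ r ∈ rows, r.length ≤ nb * 2 ^ σ) : ∀ r ∈ step σ nb nc rows, r.length ≤ nb * 2 ^ σ := by
  intro r hr
  unfold step newRows at hr
  obtain ⟨i, hi, rfl⟩ := List.mem_iff_getElem.1 hr
  rw [List.length_zipWith] at hi
  rw [List.getElem_zipWith, List.length_drop, length_subP, rows_mulBlocks _ _ _ _ _
    (List.getElem_mem _)]
  simp only [colBlocks, List.length_map, List.length_range, List.getElem_map]
  have : (deps (elimN (2 ^ σ) (rows.map (fun r => r.take (2 ^ σ)))) rows)[i]'(by
      simp only [List.length_map] at hi; omega) ∈ deps _ rows := List.getElem_mem _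
  have h2 : ∀ z ∈ deps (elimN (2 ^ σ) (rows.map (fun r => r.take (2 ^ σ)))) rows,
      z.2 ∈ rows := by
    intro z hz
    obtain ⟨c, hc⟩ := deps_isSome hz
    rw [hc] at hz
    obtain ⟨i, _, h2⟩ := mem_deps.1 hz
    exact List.mem_of_getElem? h2
  have h3 := h _ (h2 _ this)
  have hp : 0 < 2 ^ σ := by positivity
  omega

theorem Sp_step [DecidableEq K] {σ nb nc : ℕ} {rows : List (List K)}
    (h : ∀ r ∈ rows, r.length ≤ nb * 2 ^ σ) (hl : rows.length ≤ nc * 2 ^ σ) :
    Sp (step σ nb nc rows) = (Sp rows ⊓ Zb K (2 ^ σ)).map (shift K (2 ^ σ)) := by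
  set b := 2 ^ σ with hb
  set A := rows.map (fun r => r.take b) with hA
  set o := elimN b A with ho
  set piv := pick o rows with hpiv
  have hpm : pick o A = piv.map (fun r => r.take b) := by rw [hA, pick_map]
  have hpl : piv.length ≤ b := by
    have := length_pick_elimN b A
    rw [← ho, hpm, List.length_map] at this
    exact this
  have hpr : ∀ r ∈ piv, r.length ≤ nb * b := fun r hr => h r (mem_of_pick hr)
  have hol : o.length = rows.length := by rw [ho, length_elimN, hA, List.length_map]
  have hstep : step σ nb nc rows = newRows σ nb nc piv (deps o rows) := rfl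
  rw [hstep, Sp_newRows hpl hpr ((length_deps_le _ _).trans hl)]
  congr 1
  set S := {v : ℕ → K | ∃ z ∈ deps o rows, v = vec z.2 - vec (lincomb (z.1.getD []) piv)} with hS
  -- lincomb of the cut pivots
  have hcut : ∀ (c : List K) (j : ℕ), j < b →
      vec (lincomb c (pick o A)) j = vec (lincomb c piv) j := by
    intro c j hj
    rw [hpm]
    exact vec_lincomb_congr (fun v _ => vec_take hj)
  have hpS : Sp piv ≤ Sp rows := by
    unfold Sp
    apply Submodule.span_mono
    rintro v ⟨r, hr, rfl⟩
    exact ⟨r, mem_of_pick hr, rfl⟩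
  have hSZ : Submodule.span K S ≤ Zb K b := by
    rw [Submodule.span_le]
    rintro v ⟨z, hz, rfl⟩
    obtain ⟨c, hc⟩ := deps_isSome hz
    rw [hc] at hz ⊢
    obtain ⟨i, h1, h2⟩ := mem_deps.1 hz
    intro j hj
    have h3 := (elimN_some h1).2 j hj
    rw [← ho, hcut _ _ hj] at h3
    have h4 : vec (A.getD i []) j = vec z.2 j := by
      rw [hA, List.getD_eq_getElem?_getD, List.getElem?_map, h2]
      simp only [Option.map_some, Option.getD_some]
      exact vec_take hj
    rw [h4] at h3
    simp only [Pi.sub_apply, Option.getD_some]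
    rw [h3, sub_self]
  apply le_antisymm
  · apply le_inf _ hSZ
    rw [Submodule.span_le]
    rintro v ⟨z, hz, rfl⟩
    obtain ⟨c, hc⟩ := deps_isSome hz
    rw [hc] at hz ⊢
    obtain ⟨i, h1, h2⟩ := mem_deps.1 hz
    exact Submodule.sub_mem _ (vec_mem_Sp (List.mem_of_getElem? h2)) (hpS (lincomb_mem_Sp _ _))
  · rintro v ⟨hv, hvZ⟩
    have hle : Sp rows ≤ Sp piv ⊔ Submodule.span K S := by
      unfold Sp
      rw [Submodule.span_le]
      rintro w ⟨r, hr, rfl⟩
      obtain ⟨i, hi, rfl⟩ := List.mem_iff_getElem.1 hr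
      have hi' : i < o.length := by omega
      cases hoi : o[i] with
      | none =>
        apply Submodule.mem_sup_left
        apply vec_mem_Sp
        exact mem_pick.2 ⟨i, by rw [List.getElem?_eq_getElem hi', hoi],
          by rw [List.getElem?_eq_getElem hi]⟩
      | some c =>
        have hz : (some c, rows[i]) ∈ deps o rows :=
          mem_deps.2 ⟨i, by rw [List.getElem?_eq_getElem hi', hoi],
            by rw [List.getElem?_eq_getElem hi]⟩
        have : vec rows[i] = vec (lincomb c piv) + (vec rows[i] - vec (lincomb c piv)) := by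
          abel
        rw [this]
        apply Submodule.add_mem_sup (lincomb_mem_Sp _ _)
        apply Submodule.subset_span
        exact ⟨_, hz, rfl⟩
    obtain ⟨p, hp, d, hd, rfl⟩ := Submodule.mem_sup.1 (hle hv)
    have hpZ : p ∈ Zb K b := by
      have := Submodule.sub_mem _ hvZ (hSZ hd)
      simpa using this
    obtain ⟨c, hc, rfl⟩ := mem_Sp.1 hp
    have hc0 : ∀ x ∈ c, x = 0 := by
      apply elimN_indep b A c
      · rw [← ho, hpm, List.length_map, hc]
      · intro j hj
        rw [← ho, hcut _ _ hj]
        exact hpZ j hj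
    rw [lincomb_eq_zero hc0, zero_add]
    exact hd

theorem Sp_iterate [DecidableEq K] {σ nb nc : ℕ} {rows : List (List K)}
    (h : ∀ r ∈ rows, r.length ≤ nb * 2 ^ σ) (hl : rows.length ≤ nc * 2 ^ σ) (k : ℕ) :
    ((step σ nb nc)^[k] rows).length ≤ rows.length ∧
    (∀ r ∈ (step σ nb nc)^[k] rows, r.length ≤ nb * 2 ^ σ) ∧
    Sp ((step σ nb nc)^[k] rows) =
      (Sp rows ⊓ Zb K (k * 2 ^ σ)).map (shift K (k * 2 ^ σ)) := by
  induction k with
  | zero =>
    refine ⟨le_rfl, h, ?_⟩
    have e1 : Zb K (0 * 2 ^ σ) = ⊤ := by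
      rw [zero_mul, eq_top_iff]
      intro v _ j hj
      omega
    have e2 : shift K (0 * 2 ^ σ) = LinearMap.id := by
      rw [zero_mul]
      rfl
    rw [Function.iterate_zero, id, e1, inf_top_eq, e2, Submodule.map_id]
  | succ k ih =>
    obtain ⟨h1, h2, h3⟩ := ih
    rw [Function.iterate_succ_apply']
    refine ⟨(length_step_le _ _ _ _).trans h1, rows_step h2, ?_⟩
    rw [Sp_step h2 (h1.trans hl), h3]
    ext u
    constructor
    · rintro ⟨w, ⟨⟨v, ⟨hv, hvZ⟩, rfl⟩, hwZ⟩, rfl⟩
      refine ⟨v, ⟨hv, ?_⟩, ?_⟩
      · intro j hj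
        rcases lt_or_ge j (k * 2 ^ σ) with h4 | h4
        · exact hvZ j h4
        · have := hwZ (j - k * 2 ^ σ) (by
            have : (k + 1) * 2 ^ σ = k * 2 ^ σ + 2 ^ σ := by ring
            omega)
          rw [shift_apply] at this
          rwa [Nat.sub_add_cancel h4] at this
      · funext i
        rw [shift_apply, shift_apply, shift_apply]
        congr 1
        ring
    · rintro ⟨v, ⟨hv, hvZ⟩, rfl⟩
      refine ⟨shift K (k * 2 ^ σ) v, ⟨⟨v, ⟨hv, ?_⟩, rfl⟩, ?_⟩, ?_⟩
      · intro j hj
        exact hvZ j (by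
          have h5 : (k + 1) * 2 ^ σ = k * 2 ^ σ + 2 ^ σ := by ring
          have hp : 0 < 2 ^ σ := by positivity
          omega)
      · intro j hj
        rw [shift_apply]
        exact hvZ _ (by
          have : (k + 1) * 2 ^ σ = k * 2 ^ σ + 2 ^ σ := by ring
          omega)
      · funext i
        rw [shift_apply, shift_apply, shift_apply]
        congr 1
        ring

/-! ### The algorithm -/

/-- the root of the size -/
noncomputable def rt (n a : ℕ) : ℕ := nroot 20 (n + a + 1)

/-- the exponent of the panel width -/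
noncomputable def sg (n a : ℕ) : ℕ := Nat.clog 2 (rt n a ^ 18)

/-- the number of panels (`b` is the width) -/
def npan (b n : ℕ) : ℕ := n / b + 1

/-- the augmented matrix -/
def aug (w n : ℕ) (A : List (List K)) : List (List K) :=
  (A.zipIdx 0).map (fun z => padTo w (padTo n z.1) ++
    padTo A.length (List.replicate z.2 0 ++ [1]))

/-- the final rows; `p` contains the width exponent, the number of panels, column blocks and row
blocks -/
def run [DecidableEq K] (σ np nb nc n : ℕ) (A : List (List K)) : List (List K) :=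
  ((step σ nb nc)^[np] (aug (np * 2 ^ σ) n A)).map (padTo A.length)

end LK

open LK in
/-- the left kernel -/
noncomputable def leftKer [DecidableEq K] (n : ℕ) (A : List (List K)) : List (List K) :=
  run (sg n A.length) (npan (2 ^ sg n A.length) n)
    (npan (2 ^ sg n A.length) n + npan (2 ^ sg n A.length) A.length)
    (npan (2 ^ sg n A.length) A.length) n A

namespace LK

theorem lt_npan_mul {b : ℕ} (hb : 0 < b) (n : ℕ) : n < npan b n * b := by
  unfold npan
  have := Nat.lt_div_mul_add hb (a := n)
  rw [add_mul, one_mul]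
  exact this

theorem length_aug (w n : ℕ) (A : List (List K)) : (aug w n A).length = A.length := by
  simp [aug]

theorem vec_aug {w n : ℕ} {A : List (List K)} {i : ℕ} (hi : i < A.length) (j : ℕ) :
    vec ((aug w n A).getD i []) j =
      if j < w then (if j < n then vec (A.getD i []) j else 0) else if j = w + i then 1 else 0 := by
  have e : (aug w n A).getD i [] = padTo w (padTo n (A.getD i [])) ++
      padTo A.length (List.replicate i 0 ++ [1]) := by
    rw [List.getD_eq_getElem _ _ (by rw [length_aug]; exact hi), List.getD_eq_getElem _ _ hi]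
    simp [aug]
  rw [e]
  split_ifs with h1 h2 h3
  · rw [vec_append_left (by rw [length_padTo]; exact h1)]
    unfold vec
    rw [getD_padTo, if_pos h1, getD_padTo, if_pos h2]
  · rw [vec_append_left (by rw [length_padTo]; exact h1)]
    unfold vec
    rw [getD_padTo, if_pos h1, getD_padTo, if_neg h2]
  · subst h3
    have := vec_append_right (padTo w (padTo n (A.getD i [])))
      (padTo A.length (List.replicate i 0 ++ [1])) i
    rw [length_padTo] at this
    rw [add_comm w i, this]
    unfold vec
    rw [getD_padTo, if_pos hi, List.getD_eq_getElem?_getD, List.getElem?_append,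
      if_neg (by simp), List.length_replicate, Nat.sub_self]
    rfl
  · push Not at h1
    obtain ⟨k, rfl⟩ := Nat.exists_eq_add_of_le h1
    have := vec_append_right (padTo w (padTo n (A.getD i [])))
      (padTo A.length (List.replicate i 0 ++ [1])) k
    rw [length_padTo] at this
    rw [add_comm w k, this]
    unfold vec
    rw [getD_padTo]
    split_ifs with h4
    · rw [List.getD_eq_getElem?_getD, List.getElem?_append]
      split_ifs with h5
      · rw [List.length_replicate] at h5
        rw [List.getElem?_replicate, if_pos h5]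
        rfl
      · rw [List.length_replicate] at h5 ⊢
        rw [List.getElem?_eq_none (by simp; omega)]
        rfl
    · rfl

theorem rows_aug {w n : ℕ} {A : List (List K)} : ∀ r ∈ aug w n A, r.length = w + A.length := by
  intro r hr
  unfold aug at hr
  rw [List.mem_map] at hr
  obtain ⟨z, _, rfl⟩ := hr
  rw [List.length_append, length_padTo, length_padTo]

/-- combinations of the augmented rows -/
theorem vec_lincomb_aug {w n : ℕ} {A : List (List K)} {μ : List K} (hμ : μ.length = A.length)
    (j : ℕ) :
    vec (lincomb μ (aug w n A)) j =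
      if j < w then (if j < n then vec (lincomb μ A) j else 0) else vec μ (j - w) := by
  rw [vec_lincomb_sum (b := A.length) (by rw [length_aug]),
    vec_lincomb_sum (b := A.length) le_rfl]
  split_ifs with h1 h2
  · apply Finset.sum_congr rfl
    intro l hl
    rw [Finset.mem_range] at hl
    rw [vec_aug hl, if_pos h1, if_pos h2]
  · apply Finset.sum_eq_zero
    intro l hl
    rw [Finset.mem_range] at hl
    rw [vec_aug hl, if_pos h1, if_neg h2, mul_zero]
  · rcases lt_or_ge (j - w) A.length with h3 | h3
    · rw [Finset.sum_eq_single (j - w)]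
      · rw [vec_aug h3, if_neg h1, if_pos (by omega), mul_one]
      · intro l hl hne
        rw [Finset.mem_range] at hl
        rw [vec_aug hl, if_neg h1, if_neg (by omega), mul_zero]
      · intro h
        exact absurd (Finset.mem_range.2 h3) h
    · rw [vec_eq_zero_of_le (a := μ) (by omega)]
      apply Finset.sum_eq_zero
      intro l hl
      rw [Finset.mem_range] at hl
      rw [vec_aug hl, if_neg h1, if_neg (by omega), mul_zero]

theorem vec_padTo_eq {a : ℕ} {r : List K} (h : ∀ i, a ≤ i → vec r i = 0) :
    vec (padTo a r) = vec r := by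
  funext i
  unfold vec at h ⊢
  rw [getD_padTo]
  split_ifs with hi
  · rfl
  · exact (h i (by omega)).symm

section spec

variable [DecidableEq K] {σ np nb nc n : ℕ} {A : List (List K)}

theorem run_core (hw : n ≤ np * 2 ^ σ) (hnb : np * 2 ^ σ + A.length ≤ nb * 2 ^ σ)
    (hnc : A.length ≤ nc * 2 ^ σ) :
    (run σ np nb nc n A).length ≤ A.length ∧
    (∀ b ∈ run σ np nb nc n A, ∃ μ : List K, μ.length = A.length ∧
      (∀ j < n, vec (lincomb μ A) j = 0) ∧ vec b = vec μ) ∧
    (∀ μ : List K, μ.length = A.length → (∀ j < n, vec (lincomb μ A) j = 0) →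
      vec μ ∈ Sp (run σ np nb nc n A)) := by
  set w := np * 2 ^ σ with hwdef
  have hrows : ∀ r ∈ aug w n A, r.length ≤ nb * 2 ^ σ := by
    intro r hr
    rw [rows_aug r hr]
    exact hnb
  obtain ⟨h1, h2, h3⟩ := Sp_iterate (nb := nb) (nc := nc) hrows
    (by rw [length_aug]; exact hnc) np
  rw [← hwdef] at h3
  set F := (step σ nb nc)^[np] (aug w n A) with hF
  have hrun : run σ np nb nc n A = F.map (padTo A.length) := rfl
  have hshift : ∀ μ : List K, μ.length = A.length →
      shift K w (vec (lincomb μ (aug w n A))) = vec μ := by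
    intro μ hμ
    funext i
    rw [shift_apply, vec_lincomb_aug hμ, if_neg (by omega), Nat.add_sub_cancel]
  -- the vectors of the final rows
  have hFm : ∀ r ∈ F, ∃ μ : List K, μ.length = A.length ∧
      (∀ j < n, vec (lincomb μ A) j = 0) ∧ vec r = vec μ := by
    intro r hr
    have h4 : vec r ∈ Sp F := vec_mem_Sp hr
    rw [h3] at h4
    obtain ⟨v, ⟨hv, hvZ⟩, hv2⟩ := h4
    obtain ⟨μ, hμ, rfl⟩ := mem_Sp.1 hv
    rw [length_aug] at hμ
    refine ⟨μ, hμ, ?_, ?_⟩
    · intro j hj
      have := hvZ j (by omega)
      rwa [vec_lincomb_aug hμ, if_pos (by omega), if_pos hj] at this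
    · rw [← hv2, hshift μ hμ]
  have hpad : ∀ r ∈ F, vec (padTo A.length r) = vec r := by
    intro r hr
    obtain ⟨μ, hμ, _, h5⟩ := hFm r hr
    apply vec_padTo_eq
    intro i hi
    rw [h5]
    exact vec_eq_zero_of_le (by omega)
  have hSpF : Sp (run σ np nb nc n A) = Sp F := by
    rw [hrun]
    unfold Sp
    congr 1
    ext v
    constructor
    · rintro ⟨r, hr, rfl⟩
      rw [List.mem_map] at hr
      obtain ⟨r', hr', rfl⟩ := hr
      exact ⟨r', hr', hpad r' hr'⟩
    · rintro ⟨r, hr, rfl⟩
      exact ⟨_, List.mem_map_of_mem hr, (hpad r hr).symm⟩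
  refine ⟨?_, ?_, ?_⟩
  · rw [hrun, List.length_map]
    rw [length_aug] at h1
    exact h1
  · intro b hb
    rw [hrun, List.mem_map] at hb
    obtain ⟨r, hr, rfl⟩ := hb
    obtain ⟨μ, hμ, h4, h5⟩ := hFm r hr
    exact ⟨μ, hμ, h4, by rw [hpad r hr, h5]⟩
  · intro μ hμ h4
    rw [hSpF, h3, ← hshift μ hμ]
    refine Submodule.mem_map_of_mem ⟨mem_Sp.2 ⟨μ, by rw [length_aug, hμ], rfl⟩, ?_⟩
    intro j hj
    rw [vec_lincomb_aug hμ, if_pos hj]
    split_ifs with h5
    · exact h4 j h5
    · rfl

end spec

theorem leftKer_core [DecidableEq K] (n : ℕ) (A : List (List K)) :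
    (leftKer n A).length ≤ A.length ∧
    (∀ b ∈ leftKer n A, ∃ μ : List K, μ.length = A.length ∧
      (∀ j < n, vec (lincomb μ A) j = 0) ∧ vec b = vec μ) ∧
    (∀ μ : List K, μ.length = A.length → (∀ j < n, vec (lincomb μ A) j = 0) →
      vec μ ∈ Sp (leftKer n A)) := by
  unfold leftKer
  have hb : 0 < 2 ^ sg n A.length := by positivity
  have h1 := lt_npan_mul hb n
  have h2 := lt_npan_mul hb A.length
  apply run_core h1.le _ h2.le
  rw [add_mul]
  omega

end LK

open LK

theorem leftKer_mem [DecidableEq K] {n : ℕ} {A : List (List K)} {b : List K}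
    (hb : b ∈ leftKer n A) : b.length = A.length ∧ ∀ j < n, vec (lincomb b A) j = 0 := by
  obtain ⟨μ, hμ, h1, h2⟩ := (leftKer_core n A).2.1 b hb
  have hl : b.length = A.length := by
    unfold leftKer run at hb
    rw [List.mem_map] at hb
    obtain ⟨r, _, rfl⟩ := hb
    exact length_padTo _ _
  have : b = μ := by
    apply List.ext_getElem (by rw [hl, hμ])
    intro i hi hi'
    have := congrFun h2 i
    unfold vec at this
    rwa [List.getD_eq_getElem _ _ hi, List.getD_eq_getElem _ _ hi'] at this
  subst this
  exact ⟨hl, h1⟩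

theorem leftKer_span [DecidableEq K] {n : ℕ} {A : List (List K)} {μ : List K}
    (hμ : μ.length = A.length) (h : ∀ j < n, vec (lincomb μ A) j = 0) :
    ∃ c : List K, c.length = (leftKer n A).length ∧
      ∀ i, vec μ i = vec (lincomb c (leftKer n A)) i := by
  obtain ⟨c, hc, h1⟩ := mem_Sp.1 ((leftKer_core n A).2.2 μ hμ h)
  exact ⟨c, hc, fun i => congrFun h1 i⟩

theorem length_leftKer [DecidableEq K] (n : ℕ) (A : List (List K)) :
    (leftKer n A).length ≤ A.length := (leftKer_core n A).1

/-! ### Costs -/

namespace LK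

noncomputable def pickCd' : Cd := pick_ex.choose
noncomputable def elimNCd' : Cd := elimN_ex.choose
noncomputable def matMulCd' : Cd := matMul_ex.choose

instance (priority := 3000) compPick' {K : Type} [Field K] {α β γ : Type} [Enc K α] [Enc K β] [Enc K γ]
    {f : α → List (Option β)} {g : α → List γ} {c d : Cd} {T T' : α → ℕ} [h : Comp K f c T]
    [h' : Comp K g d T'] : Comp K (fun x => pick (f x) (g x)) (pickCd'.comp (c.pair d))
      (fun x => T x + T' x + ((f x).length + (g x).length)) :=
  (pick_ex.choose_spec K γ β).app2 h h'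

instance (priority := 3000) compElimN' {K : Type} [Field K] [DecidableEq K] {α : Type} [Enc K α]
    {f : α → ℕ} {g : α → List (List K)} {c d : Cd} {T T' : α → ℕ} [h : Comp K f c T]
    [h' : Comp K g d T'] : Comp K (fun x => elimN (f x) (g x)) (elimNCd'.comp (c.pair d))
      (fun x => T x + T' x + ((g x).length + 1) * ((pick (elimN (f x) (g x)) (g x)).length + 1) *
        ((f x) + (pick (elimN (f x) (g x)) (g x)).length + 1)) :=
  (elimN_ex.choose_spec K).app2 h h'

instance (priority := 3000) compMatMul' {K : Type} [Field K] {α : Type} [Enc K α]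
    {f : α → ℕ} {g g' : α → List (List K)} {c d e : Cd} {T T' T'' : α → ℕ} [h : Comp K f c T]
    [h' : Comp K g d T'] [h'' : Comp K g' e T''] :
    Comp K (fun x => matMul (f x) (g x) (g' x)) (matMulCd'.comp (c.pair (d.pair e)))
      (fun x => T x + (T' x + T'' x) + 7 ^ f x) :=
  (matMul_ex.choose_spec K).app2 h (Comp.pair (h := h') (h' := h''))

theorem foldrCost_le_sum {α β : Type} {g : α → β → β} {Tg : α → β → ℕ} {b0 : β} {l : List α}
    (B : α → ℕ) (h : ∀ a ∈ l, ∀ b, Tg a b ≤ B a) :
    foldrCost g Tg b0 l ≤ (l.map (fun a => B a + 1)).sum := by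
  induction l with
  | nil => simp [foldrCost]
  | cons a l ih =>
    have h1 := ih (fun a ha => h a (List.mem_cons_of_mem _ ha))
    have h2 := h a (List.mem_cons_self ..) (l.foldr g b0)
    simp only [foldrCost, List.map_cons, List.sum_cons]
    omega

theorem sum_map_le {α : Type} {l : List α} {f : α → ℕ} {B : ℕ} (h : ∀ x ∈ l, f x ≤ B) :
    (l.map f).sum ≤ l.length * B := by
  induction l with
  | nil => simp
  | cons a l ih =>
    have h1 := ih (fun x hx => h x (List.mem_cons_of_mem _ hx))
    have h2 := h a (List.mem_cons_self ..)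
    simp only [List.map_cons, List.sum_cons, List.length_cons]
    rw [Nat.add_mul]
    omega

private theorem sum_zip_le {α β : Type} (l : List α) (m : List β) (f : α → ℕ) :
    ((l.zip m).map (fun p => f p.1)).sum ≤ (l.map f).sum := by
  induction l generalizing m with
  | nil => simp
  | cons a l ih =>
    cases m with
    | nil => simp
    | cons b m =>
      have := ih m
      simp only [List.zip_cons_cons, List.map_cons, List.sum_cons]
      omega

theorem hcat_ex : ∃ c, ∀ (K : Type) [Field K],
    Comp K (fun z : ℕ × List (List (List K)) => hcat z.1 z.2) c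
      (fun z => z.1 + (z.2.map (fun M => (M.map (fun r => r.length + 1)).sum + 1)).sum) :=
  ⟨_, fun K _ => (Comp.foldr (K := K) (l := fun z : ℕ × List (List (List K)) => z.2)
    (b := fun z => List.replicate z.1 [])
    (g := fun _ M acc => List.zipWith (fun x y => x ++ y) M acc)).mono (fun z => by
      have := foldrCost_le_sum (g := fun (M acc : List (List K)) =>
        List.zipWith (fun x y => x ++ y) M acc)
        (Tg := fun a r => 0 + 0 + (List.map (fun p => 0 + 0 + ((z, a, r), p.1, p.2).2.1.length + 1)
          ((z, a, r).2.1.zip (z, a, r).2.2)).sum) (b0 := List.replicate z.1 []) (l := z.2)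
        (fun M => (M.map (fun r => r.length + 1)).sum) (fun M _ acc => by
          have := sum_zip_le M acc (fun r => r.length + 1)
          simpa using this)
      omega)⟩

theorem colBlocks_ex : ∃ c, ∀ (K : Type) [Field K],
    Comp K (fun z : (ℕ × ℕ) × List (List K) => colBlocks z.1.1 z.1.2 z.2) c
      (fun z => z.1.2 * ((z.2.length + 1) * ((z.1.2 + 1) * (2 ^ z.1.1 + 1)))) :=
  ⟨_, fun K _ => (Comp.congr (g := fun z : (ℕ × ℕ) × List (List K) => colBlocks z.1.1 z.1.2 z.2)
    (Comp.map (K := K) (l := fun z : (ℕ × ℕ) × List (List K) => List.range z.1.2)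
    (g := fun z k => z.2.map (fun r => (r.drop (k * 2 ^ z.1.1)).take (2 ^ z.1.1))))
    (fun _ => rfl)).bigO 20
    (fun z => by
      obtain ⟨⟨σ, nb⟩, P⟩ := z
      dsimp only
      generalize hb : 2 ^ σ = b
      have h1 : ∀ k ∈ List.range nb, 0 + (List.map (fun b_1 : List K =>
          0 + b + (0 + (0 + b) + k * (b + 1) + 0 + k * b) + b + 1) P).sum + 1 ≤
          (P.length + 1) * (5 * ((nb + 1) * (b + 1))) := by
        intro k hk
        rw [List.mem_range] at hk
        have h2 : (List.map (fun b_1 : List K =>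
          0 + b + (0 + (0 + b) + k * (b + 1) + 0 + k * b) + b + 1) P).sum ≤
            P.length * (5 * ((nb + 1) * (b + 1))) := by
          apply sum_map_le
          intro r _
          nlinarith [Nat.mul_le_mul_right (b + 1) hk.le]
        nlinarith [Nat.zero_le (nb * b)]
      have h3 := sum_map_le h1
      rw [List.length_range] at h3
      nlinarith [Nat.zero_le (nb * (P.length * nb * b)), Nat.zero_le (nb * (P.length * b)),
        Nat.zero_le (nb * (nb * b)), Nat.zero_le (nb * b), Nat.zero_le (nb * (P.length * nb)),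
        Nat.zero_le (nb * P.length), Nat.zero_le (nb * nb)])⟩

theorem four_le_seven (σ : ℕ) : 2 ^ σ * 2 ^ σ ≤ 7 ^ σ := by
  rw [← mul_pow]
  exact Nat.pow_le_pow_left (by norm_num) σ

theorem mulBlocks_ex : ∃ c, ∀ (K : Type) [Field K],
    Comp K (fun z : (ℕ × ℕ) × List (List (List K)) × List (List K) =>
      mulBlocks z.1.1 z.1.2 z.2.1 z.2.2) c
      (fun z => z.1.2 * ((z.2.1.length + 1) * (7 ^ z.1.1 + (z.1.2 + 1) * (2 ^ z.1.1 + 1)))) := by
  obtain ⟨ch, hh⟩ := hcat_ex
  exact ⟨_, fun K _ => ((Comp.flatMap (K := K)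
    (l := fun z : (ℕ × ℕ) × List (List (List K)) × List (List K) => List.range z.1.2)
    (g := fun z k => hcat (2 ^ z.1.1) (z.2.1.map (fun M => matMul z.1.1
      ((z.2.2.drop (k * 2 ^ z.1.1)).take (2 ^ z.1.1)) M)))
    (hg := (hh K).app2 inferInstance inferInstance)).congr (fun _ => rfl)).bigO 20
    (fun z => by
      obtain ⟨⟨σ, nc⟩, B, C⟩ := z
      dsimp only
      have h47 := four_le_seven σ
      have h7 : 1 ≤ 7 ^ σ := Nat.one_le_pow _ _ (by norm_num)
      have hlen : ∀ k, (hcat (2 ^ σ) (B.map (fun M => matMul σ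
          ((C.drop (k * 2 ^ σ)).take (2 ^ σ)) M))).length = 2 ^ σ := by
        intro k
        apply length_hcat
        intro M hM
        rw [List.mem_map] at hM
        obtain ⟨M', _, rfl⟩ := hM
        exact length_matMul _ _ _
      have htot : ∀ k, (List.map (fun M => (List.map (fun r => r.length + 1) M).sum + 1)
          (B.map (fun M => matMul σ ((C.drop (k * 2 ^ σ)).take (2 ^ σ)) M))).sum ≤
            B.length * (2 ^ σ * (2 ^ σ + 1) + 1) := by
        intro k
        rw [List.map_map]
        apply sum_map_le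
        intro M _
        have : (List.map (fun r => r.length + 1)
            (matMul σ ((C.drop (k * 2 ^ σ)).take (2 ^ σ)) M)).sum ≤
            (matMul σ ((C.drop (k * 2 ^ σ)).take (2 ^ σ)) M).length * (2 ^ σ + 1) := by
          apply sum_map_le
          intro r hr
          rw [rows_matMul _ _ _ r hr]
        rw [length_matMul] at this
        simp only [Function.comp]
        omega
      generalize hb : 2 ^ σ = b at *
      generalize hs : 7 ^ σ = s at *
      have h1 : ∀ k ∈ List.range nc,
          0 + b + (0 + (List.map (fun b_1 : List (List K) => 0 + (0 + b + (0 + (0 + b) +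
            k * (b + 1) + 0 + k * b) + b + 0) + s + 1) B).sum) +
            (b + (List.map (fun M => (List.map (fun r => r.length + 1) M).sum + 1)
              (B.map (fun M => matMul σ ((C.drop (k * b)).take b) M))).sum) +
            (hcat b (B.map (fun M => matMul σ ((C.drop (k * b)).take b) M))).length + 1 ≤
          (B.length + 1) * (8 * (s + (nc + 1) * (b + 1))) := by
        intro k hk
        rw [List.mem_range] at hk
        have h2 : (List.map (fun b_1 : List (List K) => 0 + (0 + b + (0 + (0 + b) +
            k * (b + 1) + 0 + k * b) + b + 0) + s + 1) B).sum ≤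
            B.length * (5 * ((nc + 1) * (b + 1)) + s) := by
          apply sum_map_le
          intro r _
          nlinarith [Nat.mul_le_mul_right (b + 1) hk.le]
        have h3 := htot k
        have h4 := hlen k
        rw [h4]
        nlinarith [Nat.zero_le (nc * b), Nat.zero_le (B.length * nc * b),
          Nat.mul_le_mul_left B.length h47, Nat.zero_le (B.length * nc), Nat.zero_le (B.length * b),
          Nat.zero_le (B.length * s)]
      have h3 := sum_map_le h1
      rw [List.length_range] at h3
      nlinarith [Nat.zero_le (nc * (B.length * s)), Nat.zero_le (nc * (B.length * nc * b)),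
        Nat.zero_le (nc * (B.length * nc)), Nat.zero_le (nc * (B.length * b)),
        Nat.zero_le (nc * B.length), Nat.zero_le (nc * nc * b), Nat.zero_le (nc * b),
        Nat.zero_le (nc * s), Nat.zero_le (nc * nc)])⟩

noncomputable def colBlocksCd : Cd := colBlocks_ex.choose
noncomputable def mulBlocksCd : Cd := mulBlocks_ex.choose

instance compColBlocks {K : Type} [Field K] {α : Type} [Enc K α]
    {f f' : α → ℕ} {g : α → List (List K)} {c d e : Cd} {T T1 T2 : α → ℕ} [h : Comp K f c T]
    [h' : Comp K f' d T1] [h'' : Comp K g e T2] :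
    Comp K (fun x => colBlocks (f x) (f' x) (g x)) (colBlocksCd.comp ((c.pair d).pair e))
      (fun x => T x + T1 x + T2 x +
        f' x * (((g x).length + 1) * ((f' x + 1) * (2 ^ f x + 1)))) :=
  (colBlocks_ex.choose_spec K).app2 (f := fun x => (f x, f' x)) (Comp.pair (h := h) (h' := h')) h''

instance compMulBlocks {K : Type} [Field K] {α : Type} [Enc K α]
    {f f' : α → ℕ} {g : α → List (List (List K))} {g' : α → List (List K)} {c d e e' : Cd}
    {T T1 T2 T3 : α → ℕ} [h : Comp K f c T]
    [h1 : Comp K f' d T1] [h2 : Comp K g e T2] [h3 : Comp K g' e' T3] :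
    Comp K (fun x => mulBlocks (f x) (f' x) (g x) (g' x))
      (mulBlocksCd.comp ((c.pair d).pair (e.pair e')))
      (fun x => T x + T1 x + (T2 x + T3 x) +
        f' x * (((g x).length + 1) * (7 ^ f x + (f' x + 1) * (2 ^ f x + 1)))) :=
  (mulBlocks_ex.choose_spec K).app2 (f := fun x => (f x, f' x)) (f' := fun x => (g x, g' x))
    (Comp.pair (h := h) (h' := h1)) (Comp.pair (h := h2) (h' := h3))

theorem sum_zip_le2 {α β : Type} {l : List α} {m : List β} {F : α × β → ℕ} {f : α → ℕ} {B : ℕ}
    (h : ∀ a ∈ l, ∀ b ∈ m, F (a, b) ≤ f a + B) :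
    ((l.zip m).map F).sum ≤ (l.map f).sum + l.length * B := by
  induction l generalizing m with
  | nil => simp
  | cons a l ih =>
    cases m with
    | nil => simp
    | cons b m =>
      have h1 := ih (m := m) (fun a ha b hb => h a (by simp [ha]) b (by simp [hb]))
      have h2 := h a (by simp) b (by simp)
      simp only [List.zip_cons_cons, List.map_cons, List.sum_cons, List.length_cons]
      rw [Nat.add_mul]
      omega

theorem newRows_ex : ∃ c, ∀ (K : Type) [Field K],
    Comp K (fun z : (ℕ × ℕ × ℕ) × List (List K) × List (Option (List K) × List K) =>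
      newRows z.1.1 z.1.2.1 z.1.2.2 z.2.1 z.2.2) c
      (fun z => z.1.2.1 * ((z.2.1.length + 1) * ((z.1.2.1 + 1) * (2 ^ z.1.1 + 1))) +
        z.1.2.2 * ((z.1.2.1 + 1) * (7 ^ z.1.1 + (z.1.2.2 + 1) * (2 ^ z.1.1 + 1))) +
        (z.2.2.map (fun y => y.2.length + 1)).sum +
        z.2.2.length * ((z.1.2.1 + 2) * (2 ^ z.1.1 + 1))) :=
  ⟨_, fun K _ => (Comp.congr (g := fun z : (ℕ × ℕ × ℕ) × List (List K) ×
      List (Option (List K) × List K) => newRows z.1.1 z.1.2.1 z.1.2.2 z.2.1 z.2.2)
    (Comp.zipWith (K := K)
      (l := fun z : (ℕ × ℕ × ℕ) × List (List K) × List (Option (List K) × List K) =>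
        z.2.2.map (fun y => y.2))
      (m := fun z => mulBlocks z.1.1 z.1.2.2 (colBlocks z.1.1 z.1.2.1 z.2.1)
        (z.2.2.map (fun y => y.1.getD [])))
      (g := fun z x p => (subP x p).drop (2 ^ z.1.1)))
    (fun _ => rfl)).bigO 20
    (fun z => by
      obtain ⟨⟨σ, nb, nc⟩, P, D⟩ := z
      dsimp only
      have hlB : (colBlocks σ nb P).length = nb := by simp [colBlocks]
      have hr := rows_mulBlocks σ nc (colBlocks σ nb P) (D.map (fun y => y.1.getD []))
      rw [hlB] at hr
      rw [hlB]
      have h1 : (List.map (fun _ : Option (List K) × List K => 0 + 1) D).sum = D.length := by simp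
      have h3 : (List.map (fun p : List K × List K =>
          0 + 2 ^ σ + (0 + 0 + (p.1.length + p.2.length)) + 2 ^ σ + 1)
            ((List.map (fun y => y.2) D).zip
              (mulBlocks σ nc (colBlocks σ nb P) (List.map (fun y => y.1.getD []) D)))).sum ≤
          ((List.map (fun y : Option (List K) × List K => y.2) D).map
            (fun x => x.length + 1)).sum +
          (List.map (fun y : Option (List K) × List K => y.2) D).length *
            ((nb + 2) * (2 ^ σ + 1)) := by
        apply sum_zip_le2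
        intro x _ p hp
        have := hr p hp
        dsimp only
        rw [this]
        nlinarith [Nat.zero_le nb]
      rw [List.map_map, List.length_map] at h3
      have h4 : (List.map ((fun x : List K => x.length + 1) ∘
          fun y : Option (List K) × List K => y.2) D).sum =
          (List.map (fun y => y.2.length + 1) D).sum := rfl
      rw [h4] at h3
      rw [h1]
      have h5 : D.length ≤ D.length * ((nb + 2) * (2 ^ σ + 1)) := by
        nlinarith [Nat.zero_le (nb * 2 ^ σ), Nat.zero_le nb, Nat.zero_le (2 ^ σ),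
          Nat.zero_le (D.length * (nb * 2 ^ σ)), Nat.zero_le (D.length * nb),
          Nat.zero_le (D.length * 2 ^ σ)]
      omega)⟩

noncomputable def newRowsCd : Cd := newRows_ex.choose

instance compNewRows {K : Type} [Field K] {α : Type} [Enc K α]
    {f f' f2 : α → ℕ} {g : α → List (List K)} {g' : α → List (Option (List K) × List K)}
    {c d d' e e' : Cd}
    {T T1 T4 T2 T3 : α → ℕ} [h : Comp K f c T]
    [h1 : Comp K f' d T1] [h4 : Comp K f2 d' T4] [h2 : Comp K g e T2] [h3 : Comp K g' e' T3] :
    Comp K (fun x => newRows (f x) (f' x) (f2 x) (g x) (g' x))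
      (newRowsCd.comp ((c.pair (d.pair d')).pair (e.pair e')))
      (fun x => T x + (T1 x + T4 x) + (T2 x + T3 x) +
        (f' x * (((g x).length + 1) * ((f' x + 1) * (2 ^ f x + 1))) +
        f2 x * ((f' x + 1) * (7 ^ f x + (f2 x + 1) * (2 ^ f x + 1))) +
        ((g' x).map (fun y => y.2.length + 1)).sum +
        (g' x).length * ((f' x + 2) * (2 ^ f x + 1)))) :=
  (newRows_ex.choose_spec K).app2 (f := fun x => (f x, f' x, f2 x)) (f' := fun x => (g x, g' x))
    (Comp.pair (h := h) (h' := Comp.pair (h := h1) (h' := h4))) (Comp.pair (h := h2) (h' := h3))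

theorem deps_ex : ∃ c, ∀ (K : Type) [Field K],
    Comp K (fun z : List (Option (List K)) × List (List K) => deps z.1 z.2) c
      (fun z => z.2.length) :=
  ⟨_, fun K _ => (Comp.congr (g := fun z : List (Option (List K)) × List (List K) =>
      deps z.1 z.2)
    (Comp.filter (K := K) (l := fun z : List (Option (List K)) × List (List K) => z.1.zip z.2)
      (g := fun z y => y.1.isSome))
    (fun _ => rfl)).bigO 20
    (fun z => by
      have h1 : (List.map (fun _ : Option (List K) × List K => 0 + 1) (z.1.zip z.2)).sum =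
          (z.1.zip z.2).length := by simp
      rw [h1, List.length_zip]
      omega)⟩

noncomputable def depsCd : Cd := deps_ex.choose

instance compDeps {K : Type} [Field K] {α : Type} [Enc K α]
    {f : α → List (Option (List K))} {g : α → List (List K)} {c d : Cd} {T T' : α → ℕ}
    [h : Comp K f c T] [h' : Comp K g d T'] : Comp K (fun x => deps (f x) (g x))
      (depsCd.comp (c.pair d)) (fun x => T x + T' x + (g x).length) :=
  (deps_ex.choose_spec K).app2 h h'

/-- the cost of one panel -/
def stepT {K : Type} (σ nb nc : ℕ) (rows : List (List K)) : ℕ :=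
  (rows.length + 1) * ((2 ^ σ + 1) * (2 ^ σ + 1)) +
    nb * ((2 ^ σ + 1) * ((nb + 1) * (2 ^ σ + 1))) +
    nc * ((nb + 1) * (7 ^ σ + (nc + 1) * (2 ^ σ + 1))) +
    (rows.map (fun y => y.length + 1)).sum +
    rows.length * ((nb + 2) * (2 ^ σ + 1))

theorem sum_deps_le {K : Type} (o : List (Option (List K))) (R : List (List K)) :
    ((deps o R).map (fun y => y.2.length + 1)).sum ≤ (R.map (fun y => y.length + 1)).sum := by
  unfold deps
  induction R generalizing o with
  | nil => simp
  | cons r R ih =>
    cases o with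
    | nil => simp
    | cons x o =>
      have := ih o
      rw [List.zip_cons_cons, List.filter_cons]
      split_ifs
      · simp only [List.map_cons, List.sum_cons]
        omega
      · simp only [List.map_cons, List.sum_cons]
        omega

theorem step_ex : ∃ c, ∀ (K : Type) [Field K] [DecidableEq K],
    Comp K (fun z : (ℕ × ℕ × ℕ) × List (List K) => step z.1.1 z.1.2.1 z.1.2.2 z.2) c
      (fun z => stepT z.1.1 z.1.2.1 z.1.2.2 z.2) :=
  ⟨_, fun K _ _ => (Comp.congr (g := fun z : (ℕ × ℕ × ℕ) × List (List K) =>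
      step z.1.1 z.1.2.1 z.1.2.2 z.2)
    (compNewRows (K := K) (f := fun z : (ℕ × ℕ × ℕ) × List (List K) => z.1.1)
      (f' := fun z => z.1.2.1) (f2 := fun z => z.1.2.2)
      (g := fun z => pick (elimN (2 ^ z.1.1) (z.2.map (fun r => r.take (2 ^ z.1.1)))) z.2)
      (g' := fun z => deps (elimN (2 ^ z.1.1) (z.2.map (fun r => r.take (2 ^ z.1.1)))) z.2))
    (fun _ => rfl)).bigO 60
    (fun z => by
      obtain ⟨⟨σ, nb, nc⟩, R⟩ := z
      dsimp only
      have hp1 := length_pick_elimN (2 ^ σ) (List.map (fun r => List.take (2 ^ σ) r) R)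
      have hp2 : (pick (elimN (2 ^ σ) (List.map (fun r => List.take (2 ^ σ) r) R)) R).length =
          (pick (elimN (2 ^ σ) (List.map (fun r => List.take (2 ^ σ) r) R))
            (List.map (fun r => List.take (2 ^ σ) r) R)).length := by
        rw [pick_map, List.length_map]
      have hs := sum_deps_le (elimN (2 ^ σ) (List.map (fun r => List.take (2 ^ σ) r) R)) R
      have hl := length_deps_le (elimN (2 ^ σ) (List.map (fun r => List.take (2 ^ σ) r) R)) R
      have hm : (List.map (fun _ : List K => 0 + 2 ^ σ + 0 + 2 ^ σ + 1) R).sum ≤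
          R.length * (2 * (2 ^ σ) + 1) := by
        apply sum_map_le
        intro x _
        omega
      rw [hp2, length_elimN, List.length_map]
      generalize (pick (elimN (2 ^ σ) (List.map (fun r => List.take (2 ^ σ) r) R))
        (List.map (fun r => List.take (2 ^ σ) r) R)).length = p at *
      generalize (deps (elimN (2 ^ σ) (List.map (fun r => List.take (2 ^ σ) r) R)) R).length = d
        at *
      generalize ((deps (elimN (2 ^ σ) (List.map (fun r => List.take (2 ^ σ) r) R)) R).map
        (fun y => y.2.length + 1)).sum = sd at *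
      generalize (List.map (fun _ : List K => 0 + 2 ^ σ + 0 + 2 ^ σ + 1) R).sum = sm at *
      unfold stepT
      generalize (R.map (fun y => y.length + 1)).sum = sR at *
      generalize R.length = r at *
      generalize 2 ^ σ = b at *
      generalize 7 ^ σ = s7 at *
      have e1 : (r + 1) * (p + 1) * (b + p + 1) ≤ 2 * ((r + 1) * ((b + 1) * (b + 1))) := by
        calc (r + 1) * (p + 1) * (b + p + 1) ≤ (r + 1) * (b + 1) * (2 * (b + 1)) := by
              apply Nat.mul_le_mul
              · exact Nat.mul_le_mul_left _ (by omega)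
              · omega
          _ = 2 * ((r + 1) * ((b + 1) * (b + 1))) := by ring
      have e2 : nb * ((p + 1) * ((nb + 1) * (b + 1))) ≤ nb * ((b + 1) * ((nb + 1) * (b + 1))) := by
        gcongr
      have e3 : d * ((nb + 2) * (b + 1)) ≤ r * ((nb + 2) * (b + 1)) :=
        Nat.mul_le_mul_right _ hl
      have e4 : r * (2 * b + 1) ≤ 2 * ((r + 1) * ((b + 1) * (b + 1))) := by
        nlinarith [Nat.zero_le (r * b), Nat.zero_le (r * b * b), Nat.zero_le (b * b)]
      have e5 : r ≤ (r + 1) * ((b + 1) * (b + 1)) := by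
        nlinarith [Nat.zero_le (r * b), Nat.zero_le (r * b * b), Nat.zero_le (b * b)]
      have e6 : b ≤ (r + 1) * ((b + 1) * (b + 1)) := by
        nlinarith [Nat.zero_le (r * b), Nat.zero_le (r * b * b), Nat.zero_le (b * b)]
      omega)⟩

noncomputable def stepCd : Cd := step_ex.choose

theorem iterCost_le {α : Type} {g : α → α} {Tg : α → ℕ} {n : ℕ} {a : α} (P : α → Prop) (B : ℕ)
    (h0 : P a) (hg : ∀ a, P a → P (g a)) (hT : ∀ a, P a → Tg a ≤ B) :
    iterCost g Tg n a ≤ n * (B + 1) := by
  induction n generalizing a with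
  | zero => simp [iterCost]
  | succ n ih =>
    have h1 := ih (hg a h0)
    have h2 := hT a h0
    simp only [iterCost]
    rw [Nat.add_mul]
    omega

theorem length_iterate_le {K : Type} [Field K] [DecidableEq K] (σ nb nc : ℕ)
    (rows : List (List K)) (k : ℕ) :
    ((step σ nb nc)^[k] rows).length ≤ rows.length := by
  induction k with
  | zero => exact le_rfl
  | succ k ih =>
    rw [Function.iterate_succ_apply']
    exact (length_step_le _ _ _ _).trans ih

theorem aug_ex : ∃ c, ∀ (K : Type) [Field K],
    Comp K (fun z : (ℕ × ℕ) × List (List K) => aug z.1.1 z.1.2 z.2) c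
      (fun z => z.2.length * (z.1.1 + z.1.2 + z.2.length + 1)) :=
  ⟨_, fun K _ => (Comp.congr (g := fun z : (ℕ × ℕ) × List (List K) => aug z.1.1 z.1.2 z.2)
    (Comp.map (K := K) (l := fun z : (ℕ × ℕ) × List (List K) => z.2.zipIdx 0)
      (g := fun z y => padTo z.1.1 (padTo z.1.2 y.1) ++
        padTo z.2.length (List.replicate y.2 0 ++ [1])))
    (fun _ => rfl)).bigO 20
    (fun z => by
      obtain ⟨⟨w, n⟩, A⟩ := z
      dsimp only
      have h1 : (List.map (fun b : List K × ℕ =>
              0 + (0 + 0 + n) + w +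
                    (0 + A.length + (0 + 0 + b.2 + (0 + 0) + (List.replicate b.2 (0 : K)).length) +
                      A.length) +
                  (padTo w (padTo n b.1)).length +
                1)
            A.zipIdx).sum ≤ A.zipIdx.length * (4 * (w + n + A.length + 1)) := by
        apply sum_map_le
        intro x hx
        have hx2 : x.2 < A.length := by
          have := List.snd_lt_add_of_mem_zipIdx hx
          omega
        rw [length_padTo, List.length_replicate]
        omega
      rw [List.length_zipIdx] at h1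
      nlinarith [Nat.zero_le (A.length * (w + n + A.length))])⟩

noncomputable def augCd : Cd := aug_ex.choose

instance compAug {K : Type} [Field K] {α : Type} [Enc K α]
    {f f' : α → ℕ} {g : α → List (List K)} {c d e : Cd} {T T1 T2 : α → ℕ} [h : Comp K f c T]
    [h' : Comp K f' d T1] [h'' : Comp K g e T2] :
    Comp K (fun x => aug (f x) (f' x) (g x)) (augCd.comp ((c.pair d).pair e))
      (fun x => T x + T1 x + T2 x +
        (g x).length * (f x + f' x + (g x).length + 1)) :=
  (aug_ex.choose_spec K).app2 (f := fun x => (f x, f' x)) (Comp.pair (h := h) (h' := h')) h''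

/-- the parameters -/
abbrev Par : Type := ℕ × ℕ × ℕ × ℕ × ℕ

theorem run_ex : ∃ c, ∀ (K : Type) [Field K] [DecidableEq K],
    Comp K (fun z : Par × List (List K) =>
      run z.1.1 z.1.2.1 z.1.2.2.1 z.1.2.2.2.1 z.1.2.2.2.2 z.2) c
      (fun z => iterCost (step z.1.1 z.1.2.2.1 z.1.2.2.2.1)
          (stepT z.1.1 z.1.2.2.1 z.1.2.2.2.1) z.1.2.1
          (aug (z.1.2.1 * 2 ^ z.1.1) z.1.2.2.2.2 z.2) +
        (z.2.length + 1) * (z.1.2.1 * 2 ^ z.1.1 + 2 ^ z.1.1 + z.1.2.1 + z.1.2.2.2.2 +
          z.2.length + 1)) :=
  ⟨_, fun K _ _ => (Comp.congr (g := fun z : Par × List (List K) =>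
      run z.1.1 z.1.2.1 z.1.2.2.1 z.1.2.2.2.1 z.1.2.2.2.2 z.2)
    (Comp.map (K := K) (l := fun z : Par × List (List K) =>
        (step z.1.1 z.1.2.2.1 z.1.2.2.2.1)^[z.1.2.1]
          (aug (z.1.2.1 * 2 ^ z.1.1) z.1.2.2.2.2 z.2))
      (g := fun z y => padTo z.2.length y)
      (h := Comp.iterate (hg := (step_ex.choose_spec K).comp
        (f := fun z : (Par × List (List K)) × List (List K) =>
          ((z.1.1.1, z.1.1.2.2.1, z.1.1.2.2.2.1), z.2)) inferInstance)))
    (fun _ => rfl)).bigO 20
    (fun z => by
      obtain ⟨⟨σ, np, nb, nc, n⟩, A⟩ := z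
      dsimp only
      have h1 : (fun a : List (List K) => 0 + (0 + 0) + 0 + stepT σ nb nc a) =
          stepT σ nb nc := by
        funext a
        omega
      rw [h1]
      have h2 : (List.map (fun _ : List K => 0 + A.length + 0 + A.length + 1)
          ((step σ nb nc)^[np] (aug (np * 2 ^ σ) n A))).sum ≤
          ((step σ nb nc)^[np] (aug (np * 2 ^ σ) n A)).length * (2 * A.length + 1) := by
        apply sum_map_le
        intro x _
        omega
      have h3 := length_iterate_le σ nb nc (aug (np * 2 ^ σ) n A) np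
      rw [length_aug] at h3
      have h4 := Nat.mul_le_mul_right (2 * A.length + 1) h3
      have hp : 0 < 2 ^ σ := by positivity
      have h5 : A.length * (2 * A.length + 1) ≤
          (A.length + 1) * (2 * (np * 2 ^ σ + 2 ^ σ + np + n + A.length + 1)) :=
        Nat.mul_le_mul (by omega) (by omega)
      rw [← mul_assoc, mul_comm (A.length + 1) 2, mul_assoc] at h5
      have h6 : A.length * (np * 2 ^ σ + n + A.length + 1) ≤
          (A.length + 1) * (np * 2 ^ σ + 2 ^ σ + np + n + A.length + 1) :=
        Nat.mul_le_mul (by omega) (by omega)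
      have h7 : np * 2 ^ σ + 2 ^ σ + np + n + A.length + 1 ≤
          (A.length + 1) * (np * 2 ^ σ + 2 ^ σ + np + n + A.length + 1) :=
        Nat.le_mul_of_pos_left _ (by omega)
      have h8 : np * (2 ^ σ + 1) = np * 2 ^ σ + np := by ring
      omega)⟩

noncomputable def runCd : Cd := run_ex.choose

/-! ### Numerical estimates -/

theorem rt_pos (n a : ℕ) : 0 < rt n a := nroot_pos (by norm_num) (by omega)

theorem le_rt_pow (n a : ℕ) : n + a + 1 ≤ rt n a ^ 20 := nroot_spec (by norm_num) _

theorem rt_pow_le (n a : ℕ) : rt n a ^ 20 ≤ 2 ^ 20 * (n + a + 1) :=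
  nroot_pow_le (by norm_num) (by omega)

theorem le_two_pow_sg (n a : ℕ) : rt n a ^ 18 ≤ 2 ^ sg n a := Nat.le_pow_clog (by norm_num) _

theorem two_pow_sg_le (n a : ℕ) : 2 ^ sg n a ≤ 2 * rt n a ^ 18 := by
  unfold sg
  have h0 : 1 ≤ rt n a ^ 18 := Nat.one_le_pow _ _ (rt_pos n a)
  rcases h0.eq_or_lt with h | h
  · rw [← h]
    norm_num
  · have h1 := Nat.pow_pred_clog_lt_self (b := 2) (by norm_num) h
    have h2 : Nat.clog 2 (rt n a ^ 18) = (Nat.clog 2 (rt n a ^ 18)).pred + 1 :=
      (Nat.succ_pred_eq_of_pos (Nat.clog_pos (by norm_num) h)).symm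
    rw [h2, pow_succ]
    omega

theorem seven_pow_100 : 7 ^ 100 ≤ 2 ^ 200 * 2 ^ 81 := by norm_num

theorem seven_pow_sg_le (n a : ℕ) : 7 ^ sg n a ≤ 8 * rt n a ^ 51 := by
  have h1 : (7 ^ sg n a) ^ 100 ≤ (8 * rt n a ^ 51) ^ 100 := by
    calc (7 ^ sg n a) ^ 100 = (7 ^ 100) ^ sg n a := by rw [← pow_mul, ← pow_mul, mul_comm]
      _ ≤ (2 ^ 200 * 2 ^ 81) ^ sg n a := Nat.pow_le_pow_left seven_pow_100 _
      _ = (2 ^ sg n a) ^ 281 := by rw [← pow_add, ← pow_mul, ← pow_mul, mul_comm]
      _ ≤ (2 * rt n a ^ 18) ^ 281 := Nat.pow_le_pow_left (two_pow_sg_le n a) _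
      _ = 2 ^ 281 * rt n a ^ (18 * 281) := by rw [mul_pow, ← pow_mul]
      _ ≤ 2 ^ 300 * rt n a ^ (51 * 100) :=
          Nat.mul_le_mul (Nat.pow_le_pow_right (by norm_num) (by norm_num))
            (Nat.pow_le_pow_right (rt_pos n a) (by norm_num))
      _ = (8 * rt n a ^ 51) ^ 100 := by
          rw [mul_pow, ← pow_mul, show (8 : ℕ) = 2 ^ 3 by norm_num, ← pow_mul]
  exact (Nat.pow_le_pow_iff_left (by norm_num)).1 h1

theorem npan_le {n a m : ℕ} (hm : m ≤ n + a) :
    npan (2 ^ sg n a) m ≤ 2 * rt n a ^ 2 := by
  unfold npan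
  have h1 := le_rt_pow n a
  have h2 := le_two_pow_sg n a
  have h3 := rt_pos n a
  have h4 : m / 2 ^ sg n a ≤ rt n a ^ 2 := by
    calc m / 2 ^ sg n a ≤ rt n a ^ 20 / rt n a ^ 18 := Nat.div_le_div (by omega) h2 (by positivity)
      _ = rt n a ^ 2 := Nat.pow_div (by norm_num) h3
  have h5 : 1 ≤ rt n a ^ 2 := Nat.one_le_pow _ _ h3
  omega

theorem sg_ex : ∃ c, ∀ (K : Type) [Field K],
    Comp K (fun z : ℕ × ℕ => sg z.1 z.2) c (fun z => rt z.1 z.2 ^ 21) :=
  ⟨_, fun K _ => (Comp.congr (g := fun z : ℕ × ℕ => sg z.1 z.2)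
    (Comp.clog (K := K) (m := fun z : ℕ × ℕ => TreeRAM.nroot 20 (z.1 + z.2 + 1) ^ 18))
    (fun _ => rfl)).bigO (2 ^ 20)
    (fun z => by
      obtain ⟨n, a⟩ := z
      dsimp only
      have h1 := le_rt_pow n a
      have h3 := rt_pos n a
      unfold rt at h1 h3 ⊢
      generalize TreeRAM.nroot 20 (n + a + 1) = ρ at *
      have e1 : ρ ^ 20 ≤ ρ ^ 21 := Nat.pow_le_pow_right h3 (by norm_num)
      have e2 : ρ ^ 18 ≤ ρ ^ 21 := Nat.pow_le_pow_right h3 (by norm_num)
      have e3 : (ρ + 1) ^ 18 ≤ 2 ^ 18 * ρ ^ 18 := by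
        rw [← mul_pow]
        exact Nat.pow_le_pow_left (by omega) _
      have e4 : (n + a + 1 + 1) * (ρ + 1) ≤ (2 * ρ ^ 20) * (2 * ρ) :=
        Nat.mul_le_mul (by omega) (by omega)
      have e5 : (2 * ρ ^ 20) * (2 * ρ) = 4 * ρ ^ 21 := by ring
      omega)⟩

noncomputable def sgCd : Cd := sg_ex.choose

instance compSg {K : Type} [Field K] {α : Type} [Enc K α]
    {f g : α → ℕ} {c d : Cd} {T T' : α → ℕ} [h : Comp K f c T] [h' : Comp K g d T'] :
    Comp K (fun x => sg (f x) (g x)) (sgCd.comp (c.pair d))
      (fun x => T x + T' x + rt (f x) (g x) ^ 21) :=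
  (sg_ex.choose_spec K).app2 h h'

theorem npan_ex : ∃ c, ∀ (K : Type) [Field K],
    Comp K (fun z : ℕ × ℕ => npan z.1 z.2) c (fun z => z.2) :=
  ⟨_, fun K _ => (Comp.congr (g := fun z : ℕ × ℕ => npan z.1 z.2)
    (Comp.succ (K := K) (f := fun z : ℕ × ℕ => z.2 / z.1))
    (fun _ => rfl)).bigO 2
    (fun z => by omega)⟩

noncomputable def npanCd : Cd := npan_ex.choose

instance compNpan {K : Type} [Field K] {α : Type} [Enc K α]
    {f g : α → ℕ} {c d : Cd} {T T' : α → ℕ} [h : Comp K f c T] [h' : Comp K g d T'] :
    Comp K (fun x => npan (f x) (g x)) (npanCd.comp (c.pair d))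
      (fun x => T x + T' x + g x) :=
  (npan_ex.choose_spec K).app2 h h'

theorem bound1 {ρ a b nb nc s7 : ℕ} (hρ : 1 ≤ ρ) (ha : a ≤ ρ ^ 20) (hb : b ≤ 2 * ρ ^ 18)
    (hnb : nb ≤ 4 * ρ ^ 2) (hnc : nc ≤ 2 * ρ ^ 2) (h7 : s7 ≤ 8 * ρ ^ 51) :
    (a + 1) * ((b + 1) * (b + 1)) + nb * ((b + 1) * ((nb + 1) * (b + 1))) +
      nc * ((nb + 1) * (s7 + (nc + 1) * (b + 1))) + a * (nb * b + 1) +
      a * ((nb + 2) * (b + 1)) ≤ 400 * ρ ^ 56 := by
  have p2 : 1 ≤ ρ ^ 2 := Nat.one_le_pow _ _ hρ
  have p18 : 1 ≤ ρ ^ 18 := Nat.one_le_pow _ _ hρ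
  have p20 : 1 ≤ ρ ^ 20 := Nat.one_le_pow _ _ hρ
  have hb1 : b + 1 ≤ 3 * ρ ^ 18 := by omega
  have ha1 : a + 1 ≤ 2 * ρ ^ 20 := by omega
  have hnb1 : nb + 1 ≤ 5 * ρ ^ 2 := by omega
  have hnb2 : nb + 2 ≤ 6 * ρ ^ 2 := by omega
  have hnc1 : nc + 1 ≤ 3 * ρ ^ 2 := by omega
  have hnbb : nb * b + 1 ≤ 9 * ρ ^ 20 := by
    have := Nat.mul_le_mul hnb hb
    have e : 4 * ρ ^ 2 * (2 * ρ ^ 18) = 8 * ρ ^ 20 := by ring
    omega
  calc _ ≤ (2 * ρ ^ 20) * ((3 * ρ ^ 18) * (3 * ρ ^ 18)) +
      (4 * ρ ^ 2) * ((3 * ρ ^ 18) * ((5 * ρ ^ 2) * (3 * ρ ^ 18))) +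
      (2 * ρ ^ 2) * ((5 * ρ ^ 2) * (8 * ρ ^ 51 + (3 * ρ ^ 2) * (3 * ρ ^ 18))) +
      ρ ^ 20 * (9 * ρ ^ 20) + ρ ^ 20 * ((6 * ρ ^ 2) * (3 * ρ ^ 18)) := by gcongr
    _ = 18 * ρ ^ 56 + 207 * ρ ^ 40 + 80 * ρ ^ 55 + 90 * ρ ^ 24 := by ring
    _ ≤ 400 * ρ ^ 56 := by
      have q40 : ρ ^ 40 ≤ ρ ^ 56 := Nat.pow_le_pow_right hρ (by norm_num)
      have q55 : ρ ^ 55 ≤ ρ ^ 56 := Nat.pow_le_pow_right hρ (by norm_num)
      have q24 : ρ ^ 24 ≤ ρ ^ 56 := Nat.pow_le_pow_right hρ (by norm_num)
      omega

theorem stepT_le {K : Type} {σ nb nc a : ℕ} {rows : List (List K)} (h : rows.length ≤ a)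
    (hr : ∀ r ∈ rows, r.length ≤ nb * 2 ^ σ) :
    stepT σ nb nc rows ≤ (a + 1) * ((2 ^ σ + 1) * (2 ^ σ + 1)) +
      nb * ((2 ^ σ + 1) * ((nb + 1) * (2 ^ σ + 1))) +
      nc * ((nb + 1) * (7 ^ σ + (nc + 1) * (2 ^ σ + 1))) + a * (nb * 2 ^ σ + 1) +
      a * ((nb + 2) * (2 ^ σ + 1)) := by
  unfold stepT
  have h1 : (rows.map (fun y => y.length + 1)).sum ≤ rows.length * (nb * 2 ^ σ + 1) :=
    sum_map_le (fun r hr' => by have := hr r hr'; omega)
  have h2 := Nat.mul_le_mul_right (nb * 2 ^ σ + 1) h
  have h3 := Nat.mul_le_mul_right ((nb + 2) * (2 ^ σ + 1)) h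
  have h4 := Nat.mul_le_mul_right ((2 ^ σ + 1) * (2 ^ σ + 1)) (Nat.succ_le_succ h)
  simp only [Nat.succ_eq_add_one] at h4
  omega

theorem kerT_ge (n a : ℕ) : rt n a ^ 59 ≤ 2 ^ 40 * kerT (n + a) := by
  have h1 := rt_pow_le n a
  have h2 : kerT (n + a) = (n + a + 1) ^ 2 * rt n a ^ 19 := rfl
  rw [h2]
  calc rt n a ^ 59 = (rt n a ^ 20) ^ 2 * rt n a ^ 19 := by ring
    _ ≤ (2 ^ 20 * (n + a + 1)) ^ 2 * rt n a ^ 19 :=
        Nat.mul_le_mul_right _ (Nat.pow_le_pow_left h1 _)
    _ = _ := by ring

end LK

open LK

theorem leftKer_ex : ∃ c, ∀ (K : Type) [Field K] [DecidableEq K],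
    Comp K (fun z : ℕ × List (List K) => leftKer z.1 z.2) c
      (fun z => kerT (z.1 + z.2.length)) :=
  ⟨_, fun K _ _ => (Comp.congr (g := fun z : ℕ × List (List K) => leftKer z.1 z.2)
    ((run_ex.choose_spec K).comp (f := fun z : ℕ × List (List K) =>
      ((sg z.1 z.2.length, npan (2 ^ sg z.1 z.2.length) z.1,
        npan (2 ^ sg z.1 z.2.length) z.1 + npan (2 ^ sg z.1 z.2.length) z.2.length,
        npan (2 ^ sg z.1 z.2.length) z.2.length, z.1), z.2)) inferInstance)
    (fun _ => rfl)).bigO (2 ^ 60)
    (fun z => by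
      obtain ⟨n, A⟩ := z
      dsimp only
      have hρ := rt_pos n A.length
      have h20 := le_rt_pow n A.length
      have hb := two_pow_sg_le n A.length
      have h7 := seven_pow_sg_le n A.length
      have hnp := npan_le (n := n) (a := A.length) (m := n) (by omega)
      have hnc := npan_le (n := n) (a := A.length) (m := A.length) (by omega)
      have hker := kerT_ge n A.length
      have hb0 : 0 < 2 ^ sg n A.length := by positivity
      have hlt1 := lt_npan_mul hb0 n
      have hlt2 := lt_npan_mul hb0 A.length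
      have hiter : iterCost
            (step (sg n A.length) (npan (2 ^ sg n A.length) n + npan (2 ^ sg n A.length) A.length)
              (npan (2 ^ sg n A.length) A.length))
            (stepT (sg n A.length) (npan (2 ^ sg n A.length) n + npan (2 ^ sg n A.length) A.length)
              (npan (2 ^ sg n A.length) A.length))
            (npan (2 ^ sg n A.length) n) (aug (npan (2 ^ sg n A.length) n * 2 ^ sg n A.length) n A) ≤
          npan (2 ^ sg n A.length) n * (400 * rt n A.length ^ 56 + 1) := by
        apply iterCost_le (fun rows : List (List K) => rows.length ≤ A.length ∧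
          ∀ r ∈ rows, r.length ≤ (npan (2 ^ sg n A.length) n +
            npan (2 ^ sg n A.length) A.length) * 2 ^ sg n A.length)
        · refine ⟨by rw [length_aug], ?_⟩
          intro r hr
          rw [rows_aug r hr, add_mul]
          omega
        · rintro rows ⟨h1, h2⟩
          exact ⟨(length_step_le _ _ _ _).trans h1, rows_step h2⟩
        · rintro rows ⟨h1, h2⟩
          refine (stepT_le h1 h2).trans (bound1 hρ (by omega) hb (by omega) hnc h7)
      generalize iterCost
            (step (sg n A.length) (npan (2 ^ sg n A.length) n + npan (2 ^ sg n A.length) A.length)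
              (npan (2 ^ sg n A.length) A.length))
            (stepT (sg n A.length) (npan (2 ^ sg n A.length) n + npan (2 ^ sg n A.length) A.length)
              (npan (2 ^ sg n A.length) A.length))
            (npan (2 ^ sg n A.length) n) (aug (npan (2 ^ sg n A.length) n * 2 ^ sg n A.length) n A)
            = it at *
      generalize npan (2 ^ sg n A.length) n = np at *
      generalize npan (2 ^ sg n A.length) A.length = nc at *
      generalize 2 ^ sg n A.length = b at *
      generalize 7 ^ sg n A.length = s7 at *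
      generalize kerT (n + A.length) = kt at *
      generalize rt n A.length = ρ at *
      generalize A.length = a at *
      have q56 : ρ ^ 58 ≤ ρ ^ 59 := Nat.pow_le_pow_right hρ (by norm_num)
      have q20 : ρ ^ 20 ≤ ρ ^ 59 := Nat.pow_le_pow_right hρ (by norm_num)
      have q21 : ρ ^ 21 ≤ ρ ^ 59 := Nat.pow_le_pow_right hρ (by norm_num)
      have q18 : ρ ^ 18 ≤ ρ ^ 59 := Nat.pow_le_pow_right hρ (by norm_num)
      have q2 : ρ ^ 2 ≤ ρ ^ 59 := Nat.pow_le_pow_right hρ (by norm_num)
      have q18' : ρ ^ 18 ≤ ρ ^ 20 := Nat.pow_le_pow_right hρ (by norm_num)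
      have q2' : ρ ^ 2 ≤ ρ ^ 20 := Nat.pow_le_pow_right hρ (by norm_num)
      have q40 : ρ ^ 40 ≤ ρ ^ 59 := Nat.pow_le_pow_right hρ (by norm_num)
      have e1 : np * (400 * ρ ^ 56 + 1) ≤ 1000 * ρ ^ 59 := by
        calc np * (400 * ρ ^ 56 + 1) ≤ (2 * ρ ^ 2) * (400 * ρ ^ 56 + 1) :=
              Nat.mul_le_mul_right _ hnp
          _ = 800 * ρ ^ 58 + 2 * ρ ^ 2 := by ring
          _ ≤ _ := by omega
      have e2 : (a + 1) * (np * b + b + np + n + a + 1) ≤ 100 * ρ ^ 59 := by
        have e3 : np * b ≤ 4 * ρ ^ 20 := by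
          calc np * b ≤ (2 * ρ ^ 2) * (2 * ρ ^ 18) := Nat.mul_le_mul hnp hb
            _ = _ := by ring
        calc (a + 1) * (np * b + b + np + n + a + 1) ≤ ρ ^ 20 * (12 * ρ ^ 20) :=
              Nat.mul_le_mul (by omega) (by omega)
          _ = 12 * ρ ^ 40 := by ring
          _ ≤ _ := by omega
      omega)⟩

noncomputable def leftKerCd : Cd := leftKer_ex.choose

instance compLeftKer {K : Type} [Field K] [DecidableEq K] {α : Type} [Enc K α]
    {f : α → ℕ} {g : α → List (List K)} {c d : Cd} {T T' : α → ℕ} [h : Comp K f c T]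
    [h' : Comp K g d T'] : Comp K (fun x => leftKer (f x) (g x)) (leftKerCd.comp (c.pair d))
      (fun x => T x + T' x + kerT (f x + (g x).length)) :=
  (leftKer_ex.choose_spec K).app2 h h'

end Pool.Agent.BiFac

end

section

/-!
# Pieces of the tape, naive products, dense representations
-/

set_option autoImplicit false

namespace Pool.Agent.BiFac

open Polynomial Pool.Agent.TreeRAM

variable {K : Type} [Field K]

/-! ### Pieces -/

theorem length_chunks {α : Type} (n e : ℕ) (l : List α) : (chunks n e l).length = n := by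
  induction n generalizing l with
  | zero => rfl
  | succ n ih => simp [chunks, ih]

theorem getD_chunks {α : Type} (n e : ℕ) (l : List α) {i : ℕ} (hi : i < n) :
    (chunks n e l).getD i [] = (l.drop (i * e)).take e := by
  induction n generalizing l i with
  | zero => omega
  | succ n ih =>
    cases i with
    | zero => simp [chunks]
    | succ i =>
      rw [chunks, List.getD_cons_succ, ih (l.drop e) (by omega), List.drop_drop]
      congr 2
      ring

theorem chunks_ex : ∃ c, ∀ (K : Type) [Field K] (α : Type) [Enc K α],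
    Comp K (fun z : ℕ × ℕ × List α => chunks z.1 z.2.1 z.2.2) c
      (fun z => (z.1 + 1) * (z.2.1 + 1)) :=
  ⟨_, fun K _ α _ => (Comp.rec1 (K := K)
    (isLeaf := fun z : ℕ × ℕ × List α => decide (z.1 = 0))
    (leaf := fun _ => []) (next := fun z => (z.1 - 1, z.2.1, z.2.2.drop z.2.1))
    (join := fun z r => z.2.2.take z.2.1 :: r)
    (T := fun z => z.1 * (2 * (z.2.1 + 1)))
    (fun z => z.1)
    (by rintro ⟨n, e, l⟩ h; cases n <;> simp_all [chunks])
    (by rintro ⟨n, e, l⟩ h; cases n <;> simp_all [chunks])
    (by rintro ⟨n, e, l⟩ h; cases n <;> simp_all)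
    (by rintro ⟨n, e, l⟩ h; cases n <;> simp_all)
    (by
      rintro ⟨n, e, l⟩ h
      cases n with
      | zero => simp_all
      | succ n =>
        simp only [Nat.add_sub_cancel, zero_add, add_zero]
        have : (n + 1) * (2 * (e + 1)) = n * (2 * (e + 1)) + 2 * (e + 1) := by ring
        omega)).bigO 2 (fun z => by nlinarith [Nat.zero_le (z.1 * z.2.1)])⟩

noncomputable def chunksCd : Cd := chunks_ex.choose

instance compChunks {α β : Type} [Enc K α] [Enc K β] {f g : α → ℕ} {l : α → List β}
    {c d e : Cd} {T T' T'' : α → ℕ} [h : Comp K f c T] [h' : Comp K g d T']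
    [h'' : Comp K l e T''] : Comp K (fun x => chunks (f x) (g x) (l x))
      (chunksCd.comp (c.pair (d.pair e)))
      (fun x => T x + (T' x + T'' x) + (f x + 1) * (g x + 1)) :=
  (chunks_ex.choose_spec K β).comp (Comp.pair (h := h) (h' := Comp.pair (h := h') (h' := h'')))

/-! ### Naive product of a list -/

theorem prodP_nil : prodP ([] : List (List K)) = [1] := rfl

theorem prodP_cons (a : List K) (L : List (List K)) : prodP (a :: L) = mulN a (prodP L) := rfl

theorem toP_prodP (L : List (List K)) : toP (prodP L) = (L.map toP).prod := by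
  induction L with
  | nil => simp [prodP_nil]
  | cons a L ih => rw [prodP_cons, toP_mulN, ih, List.map_cons, List.prod_cons]

theorem length_mulN_eq {a b : List K} (ha : a ≠ []) (hb : b ≠ []) :
    (mulN a b).length = a.length + b.length - 1 := by
  have hb1 : 1 ≤ b.length := List.length_pos_iff.2 hb
  induction a with
  | nil => exact absurd rfl ha
  | cons x a ih =>
    rw [mulN, length_addP, length_smulP, List.length_cons, List.length_cons]
    by_cases h : a = []
    · subst h
      simp only [mulN, List.length_nil]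
      omega
    · rw [ih h]
      omega

theorem MP.ne_nil {a : List K} (h : MP a) : a ≠ [] := by
  intro h0
  have := h.len
  rw [h0] at this
  simp at this

theorem MP_mulN {a b : List K} (ha : MP a) (hb : MP b) : MP (mulN a b) := by
  refine ⟨?_, ?_⟩
  · rw [toP_mulN]
    exact ha.monic.mul hb.monic
  · rw [toP_mulN, ha.monic.natDegree_mul hb.monic, length_mulN_eq ha.ne_nil hb.ne_nil]
    have h1 := ha.len
    have h2 := hb.len
    omega

theorem MP_one : MP ([1] : List K) :=
  ⟨by simp, by simp⟩

theorem MP_prodP {L : List (List K)} (h : ∀ a ∈ L, MP a) : MP (prodP L) := by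
  induction L with
  | nil => exact MP_one
  | cons a L ih =>
    exact MP_mulN (h a List.mem_cons_self) (ih (fun b hb => h b (List.mem_cons_of_mem _ hb)))

private theorem tot_cons {α : Type} (a : List α) (L : List (List α)) :
    tot (a :: L) = a.length + 1 + tot L := by simp [tot]

theorem length_prodP_le (L : List (List K)) : (prodP L).length ≤ tot L + 1 := by
  induction L with
  | nil => simp [prodP_nil]
  | cons a L ih =>
    rw [prodP_cons, tot_cons]
    have := length_mulN a (prodP L)
    omega

theorem prodP_ex : ∃ c, ∀ (K : Type) [Field K],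
    Comp K (fun L : List (List K) => prodP L) c (fun L => (tot L + 1) ^ 2) :=
  ⟨_, fun K _ => (Comp.rec1 (K := K)
    (isLeaf := fun L : List (List K) => L.isEmpty)
    (leaf := fun _ => [1]) (next := fun L => L.tail)
    (join := fun L r => lcase L r (fun a _ => mulN a r))
    (T := fun L => tot L * (tot L + 4))
    (fun L => L.length)
    (by rintro L h; cases L <;> simp_all [prodP_nil])
    (by rintro L h; cases L <;> simp_all [prodP_cons])
    (by rintro L h; cases L <;> simp_all)
    (by rintro L h; cases L <;> simp_all)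
    (by
      rintro L h
      cases L with
      | nil => simp_all
      | cons a L =>
        have h1 := length_prodP_le L
        simp only [List.tail_cons, lcase_cons, tot_cons, zero_add, add_zero]
        have h2 : (a.length + 1) * ((prodP L).length + 1) ≤ (a.length + 1) * (tot L + 2) :=
          Nat.mul_le_mul_left _ (by omega)
        nlinarith [Nat.zero_le (a.length * tot L), Nat.zero_le (a.length * a.length)])).bigO 4
      (fun z => by nlinarith [Nat.zero_le (tot z * tot z)])⟩

noncomputable def prodPCd : Cd := prodP_ex.choose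

instance compProdP {α : Type} [Enc K α] {f : α → List (List K)} {c : Cd} {T : α → ℕ}
    [h : Comp K f c T] : Comp K (fun x => prodP (f x)) (prodPCd.comp c)
      (fun x => T x + (tot (f x) + 1) ^ 2) := (prodP_ex.choose_spec K).app1 h

instance compProdP_eta : Comp K (prodP : List (List K) → List K) (prodPCd.comp Cd.id)
    (fun L => 0 + (tot L + 1) ^ 2) := compProdP (f := fun L : List (List K) => L)

/-! ### Scalar multiples -/

theorem toB_smulB (c : K) (F : List (List K)) : toB (smulB c F) = C (C c) * toB F := by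
  induction F with
  | nil => simp [smulB]
  | cons r a ih =>
    have h : smulB c (r :: a) = smulP c r :: smulB c a := rfl
    rw [h, toB_cons, toB_cons, ih, toP_smulP, C_mul]
    ring

theorem length_smulB (c : K) (F : List (List K)) : (smulB c F).length = F.length := by
  simp [smulB]

theorem smulB_ex : ∃ c, ∀ (K : Type) [Field K],
    Comp K (fun z : K × List (List K) => smulB z.1 z.2) c (fun z => tot z.2) :=
  ⟨_, fun K _ => (Comp.map (K := K) (l := fun z : K × List (List K) => z.2)
    (g := fun z r => smulP z.1 r)).mono (fun z => by simp [tot])⟩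

noncomputable def smulBCd : Cd := smulB_ex.choose

instance compSmulB {α : Type} [Enc K α] {f : α → K} {g : α → List (List K)} {c d : Cd}
    {T T' : α → ℕ} [h : Comp K f c T] [h' : Comp K g d T'] : Comp K (fun x => smulB (f x) (g x))
      (smulBCd.comp (c.pair d)) (fun x => T x + T' x + tot (g x)) :=
  (smulB_ex.choose_spec K).app2 h h'

/-! ### Polynomials from pieces of the tape -/

theorem toP_eq_sum {n : ℕ} {l : List K} (h : l.length ≤ n) :
    toP l = ∑ i : Fin n, C (l.getD i 0) * X ^ (i : ℕ) := by
  ext j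
  rw [coeff_toP, finsetSum_coeff]
  simp only [coeff_C_mul_X_pow]
  by_cases hj : j < n
  · rw [Finset.sum_eq_single (⟨j, hj⟩ : Fin n)]
    · simp
    · intro b _ hb
      rw [if_neg]
      intro h1
      exact hb (Fin.ext h1.symm)
    · intro h1
      exact absurd (Finset.mem_univ _) h1
  · rw [List.getD_eq_default _ _ (by omega), Finset.sum_eq_zero]
    intro b _
    rw [if_neg]
    have := b.isLt
    omega

theorem toB_chunks {n D : ℕ} (l : List K) : toB (chunks n (D + 1) l) =
    hpoly (fun (k : Fin n) (a : Fin (D + 1)) => l.getD (k * (D + 1) + a) 0) := by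
  ext1 j
  rw [coeff_toB, hpoly, finsetSum_coeff]
  simp only [coeff_C_mul_X_pow]
  by_cases hj : j < n
  · rw [Finset.sum_eq_single (⟨j, hj⟩ : Fin n)]
    · rw [if_pos rfl, getD_chunks _ _ _ hj,
        toP_eq_sum (n := D + 1) (List.length_take_le _ _)]
      apply Finset.sum_congr rfl
      intro a _
      congr 2
      simp only [List.getD_eq_getElem?_getD]
      rw [List.getElem?_take, if_pos a.isLt, List.getElem?_drop]
    · intro b _ hb
      rw [if_neg]
      intro h1
      exact hb (Fin.ext h1.symm)
    · intro h1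
      exact absurd (Finset.mem_univ _) h1
  · rw [List.getD_eq_default _ _ (by rw [length_chunks]; omega), Finset.sum_eq_zero]
    · rfl
    intro b _
    rw [if_neg]
    have := b.isLt
    omega

theorem toP_append_one {n : ℕ} {l : List K} (h : l.length = n) :
    toP (l ++ [1]) = mpoly (fun i : Fin n => l.getD i 0) := by
  rw [toP_append, mpoly, h, toP_eq_sum h.le]
  simp only [toP_cons, toP_nil, C_1, mul_zero, add_zero, mul_one]
  ring

theorem MP_append_one (l : List K) : MP (l ++ [1]) := by
  have h : toP (l ++ [1]) = X ^ l.length + toP l := by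
    rw [toP_append]
    simp only [toP_cons, toP_nil, C_1, mul_zero, add_zero, mul_one]
    ring
  refine ⟨?_, ?_⟩
  · rw [h]
    exact monic_X_pow_add (degree_toP_lt l)
  · rw [h, natDegree_add_eq_left_of_degree_lt, natDegree_X_pow, List.length_append,
      List.length_singleton]
    rw [degree_X_pow]
    exact degree_toP_lt l

/-! ### Transposition -/

/-- Row `i` is the list of the entries `i` of the given rows. -/
def trp (w : ℕ) : List (List K) → List (List K)
  | [] => List.replicate w []
  | r :: a => List.zipWith (fun x l => x :: l) (padTo w r) (trp w a)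

theorem length_trp (w : ℕ) (a : List (List K)) : (trp w a).length = w := by
  induction a with
  | nil => simp [trp]
  | cons r a ih => rw [trp, List.length_zipWith, length_padTo, ih, min_self]

theorem rows_trp (w : ℕ) (a : List (List K)) : ∀ r ∈ trp w a, r.length = a.length := by
  induction a with
  | nil =>
    intro r hr
    rw [trp, List.mem_replicate] at hr
    rw [hr.2]
    rfl
  | cons s a ih =>
    intro r hr
    rw [trp, List.mem_iff_getElem] at hr
    obtain ⟨i, hi, rfl⟩ := hr
    rw [List.getElem_zipWith, List.length_cons, List.length_cons,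
      ih _ (List.getElem_mem _)]

theorem getD_trp (w : ℕ) (a : List (List K)) {i : ℕ} (hi : i < w) (j : ℕ) :
    ((trp w a).getD i []).getD j 0 = (a.getD j []).getD i 0 := by
  induction a generalizing j with
  | nil =>
    rw [trp]
    simp
  | cons s a ih =>
    have h1 : i < (trp w a).length := by rw [length_trp]; exact hi
    have h2 : i < (padTo w s).length := by rw [length_padTo]; exact hi
    have h3 : (trp w (s :: a)).getD i [] = (padTo w s)[i] :: (trp w a)[i] := by
      rw [trp, List.getD_eq_getElem _ _ (by rw [List.length_zipWith]; omega),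
        List.getElem_zipWith]
    rw [h3]
    cases j with
    | zero =>
      rw [List.getD_cons_zero, List.getD_cons_zero]
      have := getD_padTo w s i
      rw [if_pos hi, List.getD_eq_getElem _ _ h2] at this
      exact this
    | succ j =>
      rw [List.getD_cons_succ, List.getD_cons_succ, ← ih j, List.getD_eq_getElem _ _ h1]

theorem trp_ex : ∃ c, ∀ (K : Type) [Field K],
    Comp K (fun z : ℕ × List (List K) => trp z.1 z.2) c
      (fun z => (z.2.length + 1) * (z.1 + 1)) :=
  ⟨_, fun K _ => (Comp.rec1 (K := K)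
    (isLeaf := fun z : ℕ × List (List K) => z.2.isEmpty)
    (leaf := fun z => List.replicate z.1 []) (next := fun z => (z.1, z.2.tail))
    (join := fun z r => List.zipWith (fun x l => x :: l) (padTo z.1 (z.2.headD [])) r)
    (T := fun z => (z.2.length + 1) * (2 * (z.1 + 1)))
    (fun z => z.2.length)
    (by rintro ⟨w, a⟩ h; cases a <;> simp_all [trp])
    (by rintro ⟨w, a⟩ h; cases a <;> simp_all [trp])
    (by rintro ⟨w, a⟩ h; cases a <;> simp_all)
    (by
      rintro ⟨w, a⟩ h
      cases a with
      | nil => simp only [List.length_nil]; omega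
      | cons r a => simp_all)
    (by
      rintro ⟨w, a⟩ h
      cases a with
      | nil => simp_all
      | cons r a =>
        simp only [List.tail_cons, List.length_cons, List.map_const', List.sum_replicate,
          smul_eq_mul, List.length_zip, length_padTo, length_trp, zero_add, add_zero, min_self]
        have : (a.length + 1 + 1) * (2 * (w + 1)) =
          (a.length + 1) * (2 * (w + 1)) + 2 * (w + 1) := by ring
        omega)).bigO 2 (fun z => by nlinarith [Nat.zero_le (z.2.length * z.1)])⟩

noncomputable def trpCd : Cd := trp_ex.choose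

instance compTrp {α : Type} [Enc K α] {f : α → ℕ} {g : α → List (List K)} {c d : Cd}
    {T T' : α → ℕ} [h : Comp K f c T] [h' : Comp K g d T'] : Comp K (fun x => trp (f x) (g x))
      (trpCd.comp (c.pair d)) (fun x => T x + T' x + ((g x).length + 1) * (f x + 1)) :=
  (trp_ex.choose_spec K).app2 h h'

/-! ### The dense representation -/

/-- from the dense representation to the list of the coefficients of the powers of `y` -/
def fromDense (l : List (List K)) : List (List K) := trp l.length l

theorem length_dense (d : ℕ) (F : MvPolynomial (Fin 2) K) : (dense d F).length = d + 1 := by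
  simp [dense]

theorem getD_dense (d : ℕ) (F : MvPolynomial (Fin 2) K) (i j : ℕ) :
    ((dense d F).getD i []).getD j 0 = if i + j ≤ d then F.coeff (expo i j) else 0 := by
  by_cases hi : i < d + 1
  · have h1 : (dense d F).getD i [] = (List.range (d + 1 - i)).map fun j =>
        F.coeff (expo i j) := by
      rw [List.getD_eq_getElem _ _ (by rw [length_dense]; exact hi)]
      simp only [dense, List.getElem_map, List.getElem_range]
    rw [h1]
    by_cases hj : j < d + 1 - i
    · rw [List.getD_eq_getElem _ _ (by simpa using hj), List.getElem_map, List.getElem_range,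
        if_pos (by omega)]
    · rw [List.getD_eq_default _ _ (by simpa using hj), if_neg (by omega)]
  · have h1 : (dense d F).getD i [] = [] :=
      List.getD_eq_default _ _ (by rw [length_dense]; omega)
    rw [h1, if_neg (by omega)]
    simp

theorem toMv_fromDense {d : ℕ} {F : MvPolynomial (Fin 2) K} (h : F.totalDegree ≤ d) :
    toMv (toB (fromDense (dense d F))) = F := by
  ext s
  rw [← expo_eta s, coeff_toMv, coeff_toB, coeff_toP, fromDense, length_dense]
  set i := s 0
  set j := s 1
  have hF : ∀ i j, ¬ (i + j ≤ d) → F.coeff (expo i j) = 0 := by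
    intro i j hij
    apply MvPolynomial.coeff_eq_zero_of_totalDegree_lt
    refine lt_of_le_of_lt h ?_
    have : (∑ k ∈ (expo i j).support, (expo i j) k) = i + j := by
      rw [Finset.sum_subset (Finset.subset_univ _)]
      · rw [Fin.sum_univ_two, expo_zero, expo_one]
      · intro k _ hk
        simpa using hk
    rw [this]
    omega
  by_cases hj : j < d + 1
  · rw [getD_trp _ _ hj, getD_dense]
    split_ifs with hij
    · rfl
    · exact (hF i j hij).symm
  · have h1 : (trp (d + 1) (dense d F)).getD j [] = [] :=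
      List.getD_eq_default _ _ (by rw [length_trp]; omega)
    rw [h1, hF i j (by omega)]
    simp

theorem length_fromDense (l : List (List K)) : (fromDense l).length = l.length :=
  length_trp _ _

theorem rows_fromDense (l : List (List K)) : ∀ r ∈ fromDense l, r.length = l.length :=
  rows_trp _ _

theorem fromDense_ex : ∃ c, ∀ (K : Type) [Field K],
    Comp K (fun l : List (List K) => fromDense l) c (fun l => (l.length + 1) ^ 2) :=
  ⟨_, fun K _ => (compTrp (K := K) (f := fun l : List (List K) => l.length)
    (g := fun l => l)).bigO 2 (fun l => by nlinarith [Nat.zero_le l.length])⟩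

noncomputable def fromDenseCd : Cd := fromDense_ex.choose

instance compFromDense {α : Type} [Enc K α] {f : α → List (List K)} {c : Cd} {T : α → ℕ}
    [h : Comp K f c T] : Comp K (fun x => fromDense (f x)) (fromDenseCd.comp c)
      (fun x => T x + ((f x).length + 1) ^ 2) := (fromDense_ex.choose_spec K).app1 h

instance compFromDense_eta : Comp K (fromDense : List (List K) → List (List K))
    (fromDenseCd.comp Cd.id) (fun l => 0 + (l.length + 1) ^ 2) :=
  compFromDense (f := fun L : List (List K) => L)

/-- Rows of lengths `m, m - 1, ..., 1`. -/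
def tri : ℕ → List (List K) → List (List K)
  | 0, _ => []
  | m + 1, L => padTo (m + 1) (L.headD []) :: tri m L.tail

theorem length_tri (m : ℕ) (L : List (List K)) : (tri m L).length = m := by
  induction m generalizing L with
  | zero => rfl
  | succ m ih => simp [tri, ih]

theorem getElem_tri (m : ℕ) (L : List (List K)) (i : ℕ) (hi : i < (tri m L).length) :
    (tri m L)[i] = padTo (m - i) (L.getD i []) := by
  induction m generalizing L i with
  | zero => simp [tri] at hi
  | succ m ih =>
    cases i with
    | zero => cases L <;> simp [tri]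
    | succ i =>
      simp only [tri, List.getElem_cons_succ]
      rw [ih L.tail i (by simpa [tri] using hi), Nat.succ_sub_succ]
      cases L <;> simp

def toDense (n : ℕ) (F : List (List K)) : List (List K) := tri (n + 1) (trp (n + 1) F)

theorem toDense_eq (n : ℕ) (F : List (List K)) : toDense n F = dense n (toMv (toB F)) := by
  apply List.ext_getElem
  · rw [toDense, length_tri, length_dense]
  · intro i h1 h2
    rw [length_dense] at h2
    rw [List.getElem_of_eq (show toDense n F = tri (n + 1) (trp (n + 1) F) from rfl),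
      getElem_tri]
    simp only [dense, List.getElem_map, List.getElem_range]
    apply List.ext_getElem
    · simp [length_padTo]
    · intro j h3 h4
      rw [length_padTo] at h3
      rw [List.getElem_map, List.getElem_range, coeff_toMv, coeff_toB, coeff_toP]
      have h5 := getD_padTo (n + 1 - i) ((trp (n + 1) F).getD i []) j
      rw [if_pos h3, List.getD_eq_getElem _ _ (by rw [length_padTo]; exact h3),
        getD_trp _ _ h2] at h5
      exact h5

theorem toDense_ex : ∃ c, ∀ (K : Type) [Field K],
    Comp K (fun z : ℕ × List (List K) => toDense z.1 z.2) c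
      (fun z => (z.1 + 1) * (z.1 + z.2.length + 1)) := by
  have htri : ∃ c, ∀ (K : Type) [Field K],
      Comp K (fun z : ℕ × List (List K) => tri z.1 z.2) c (fun z => (z.1 + 1) ^ 2) :=
    ⟨_, fun K _ => (Comp.rec1 (K := K)
      (isLeaf := fun z : ℕ × List (List K) => decide (z.1 = 0))
      (leaf := fun _ => []) (next := fun z => (z.1 - 1, z.2.tail))
      (join := fun z r => padTo z.1 (z.2.headD []) :: r)
      (T := fun z => z.1 * (z.1 + 2))
      (fun z => z.1)
      (by rintro ⟨m, L⟩ h; cases m <;> simp_all [tri])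
      (by rintro ⟨m, L⟩ h; cases m <;> simp_all [tri])
      (by rintro ⟨m, L⟩ h; cases m <;> simp_all)
      (by rintro ⟨m, L⟩ h; cases m <;> simp_all)
      (by
        rintro ⟨m, L⟩ h
        cases m with
        | zero => simp_all
        | succ m =>
          simp only [Nat.add_sub_cancel, zero_add, add_zero]
          nlinarith)).bigO 2 (fun z => by nlinarith)⟩
  obtain ⟨c, hc⟩ := htri
  exact ⟨_, fun K _ => ((hc K).app2 (f := fun z : ℕ × List (List K) => z.1 + 1)
    (f' := fun z => trp (z.1 + 1) z.2) inferInstance inferInstance).bigO 16 (fun z => by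
      simp only [zero_add, add_zero]
      nlinarith [Nat.zero_le (z.1 * z.2.length), Nat.zero_le (z.1 * z.1)])⟩

noncomputable def toDenseCd : Cd := toDense_ex.choose

instance compToDense {α : Type} [Enc K α] {f : α → ℕ} {g : α → List (List K)} {c d : Cd}
    {T T' : α → ℕ} [h : Comp K f c T] [h' : Comp K g d T'] : Comp K (fun x => toDense (f x) (g x))
      (toDenseCd.comp (c.pair d))
      (fun x => T x + T' x + (f x + 1) * (f x + (g x).length + 1)) :=
  (toDense_ex.choose_spec K).app2 h h'

end Pool.Agent.BiFac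

end

section

/-!
# Simulation of an extension field

Every program `p` of the tree language over the extension `L` of `K` generated by a root of the
irreducible polynomial `M` is simulated by a program `p'` over `K`, which works on trees whose
field elements are replaced by the lists of their coordinates.
-/

set_option autoImplicit false

namespace Pool.Agent.BiFac

open Polynomial Pool.Agent.TreeRAM

variable {K : Type} [Field K]

/-! ### Coordinates -/

section ext

variable {L : Type} [Field L] [Algebra K L] {M : List K} {z : L} {rep : L → List K}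

theorem sim_two_le (h : IsExt M z rep) : 2 ≤ M.length := by
  rw [h.mp.len]
  have := h.irr.natDegree_pos
  omega

theorem sim_unique (h : IsExt M z rep) {l l' : List K} (hl : l.length = M.length - 1)
    (hl' : l'.length = M.length - 1) (he : aeval z (toP l) = aeval z (toP l')) : l = l' := by
  refine eq_of_toP_eq (hl.trans hl'.symm) ?_
  have hM : toP M = minpoly K z :=
    minpoly.eq_of_irreducible_of_monic h.irr h.root h.mp.monic
  have hd : toP M ∣ toP l - toP l' := by
    rw [hM]
    refine minpoly.dvd K z ?_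
    rw [map_sub, he, sub_self]
  have hdeg : (toP l - toP l').degree < (toP M).degree := by
    have h1 : (toP M).degree = ((M.length - 1 : ℕ) : WithBot ℕ) := by
      rw [degree_eq_natDegree h.mp.monic.ne_zero, h.mp.len, Nat.add_sub_cancel]
    rw [h1]
    refine (degree_sub_le _ _).trans_lt (max_lt ?_ ?_)
    · rw [← hl]
      exact degree_toP_lt l
    · rw [← hl']
      exact degree_toP_lt l'
  exact sub_eq_zero.1 (eq_zero_of_dvd_of_degree_lt hd hdeg)

theorem sim_rep_eq (h : IsExt M z rep) {l : List K} {a : L} (hl : l.length = M.length - 1)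
    (he : aeval z (toP l) = a) : rep a = l :=
  sim_unique h (h.len a) hl (by rw [h.val, he])

theorem sim_add (h : IsExt M z rep) (a b : L) : rep (a + b) = addP (rep a) (rep b) :=
  sim_rep_eq h (by rw [length_addP, h.len, h.len, max_self])
    (by rw [toP_addP, map_add, h.val, h.val])

theorem sim_sub (h : IsExt M z rep) (a b : L) : rep (a - b) = subP (rep a) (rep b) :=
  sim_rep_eq h (by rw [length_subP, h.len, h.len, max_self])
    (by rw [toP_subP, map_sub, h.val, h.val])

theorem sim_one (h : IsExt M z rep) : rep 1 = padTo (M.length - 1) [1] := by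
  have h2 := sim_two_le h
  refine sim_rep_eq h (length_padTo _ _) ?_
  rw [toP_padTo (by simp; omega), toP_cons, toP_nil, mul_zero, add_zero, map_one, map_one]

/-- a representative modulo `M` of length at most `M.length - 1` -/
theorem sim_rep_of_mod (h : IsExt M z rep) {p : K[X]} {l : List K}
    (hl : l.length ≤ M.length - 1) (hp : toP M ∣ p - toP l) :
    rep (aeval z p) = padTo (M.length - 1) l := by
  refine sim_rep_eq h (length_padTo _ _) ?_
  rw [toP_padTo hl]
  obtain ⟨q, hq⟩ := hp
  have : p = toP l + toP M * q := by rw [← hq]; ring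
  rw [this, map_add, map_mul, h.root, zero_mul, add_zero]

variable [DecidableEq K]

theorem sim_length_trimP {l : List K} {n : ℕ} (h : (toP l).degree < n) :
    (trimP l).length ≤ n := by
  rw [length_trimP]
  split_ifs with h0
  · exact Nat.zero_le _
  · exact (natDegree_lt_iff_degree_lt h0).2 h

theorem sim_length_modN (h : IsExt M z rep) (l : List K) :
    (modN l M).length ≤ M.length - 1 := by
  rw [← trim_modN]
  refine sim_length_trimP ?_
  rw [toP_modN]
  refine (EuclideanDomain.mod_lt _ h.mp.monic.ne_zero).trans_le ?_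
  rw [degree_eq_natDegree h.mp.monic.ne_zero, h.mp.len, Nat.add_sub_cancel]

theorem sim_dvd_modN (l : List K) : toP M ∣ toP l - toP (modN l M) := by
  rw [toP_modN]
  exact ⟨toP l / toP M, by linear_combination -EuclideanDomain.div_add_mod (toP l) (toP M)⟩

theorem sim_mul (h : IsExt M z rep) (a b : L) :
    rep (a * b) = padTo (M.length - 1) (modN (mulN (rep a) (rep b)) M) := by
  rw [← sim_rep_of_mod h (sim_length_modN h _) (sim_dvd_modN _), toP_mulN, map_mul, h.val, h.val]

omit [DecidableEq K] in
theorem sim_toP_eq_zero (h : IsExt M z rep) (a : L) : toP (rep a) = 0 ↔ a = 0 := by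
  constructor
  · intro h0
    rw [← h.val a, h0, map_zero]
  · rintro rfl
    rw [sim_rep_eq h (l := List.replicate (M.length - 1) 0) (by simp)
      (by rw [toP_replicate_zero, map_zero]), toP_replicate_zero]

theorem sim_isZero (h : IsExt M z rep) (a : L) : (trimP (rep a)).isEmpty = true ↔ a = 0 := by
  rw [← sim_toP_eq_zero h, List.isEmpty_iff, ← List.length_eq_zero_iff, length_trimP]
  split_ifs with h0 <;> simp [h0]

theorem sim_inv (h : IsExt M z rep) {a : L} (ha : a ≠ 0) :
    rep a⁻¹ = padTo (M.length - 1) (modN (invN (rep a) M) M) := by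
  have hc : IsCoprime (toP (rep a)) (toP M) := by
    refine ((Irreducible.coprime_iff_not_dvd h.irr).2 ?_).symm
    rintro ⟨q, hq⟩
    refine ha ?_
    rw [← h.val a, hq, map_mul, h.root, zero_mul]
  obtain ⟨q, hq⟩ := invN_spec hc h.mp.monic.ne_zero
  have h1 : aeval z (toP (invN (rep a) M)) * a = 1 := by
    have := congrArg (aeval z) hq
    rw [map_sub, map_mul, map_mul, h.root, zero_mul, h.val, map_one] at this
    exact sub_eq_zero.1 this
  rw [← sim_rep_of_mod h (sim_length_modN h _) (sim_dvd_modN _)]
  congr 1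
  exact (eq_inv_of_mul_eq_one_left h1).symm

end ext

/-! ### Codes of the field operations -/

theorem simOne_ex : ∃ c, ∀ (K : Type) [Field K],
    Comp K (fun z : List K × D K => (z.1, padTo (z.1.length - 1) [(1 : K)])) c
      (fun z => z.1.length) :=
  ⟨_, fun K _ => (Comp.pair (K := K) (f := fun z : List K × D K => z.1)
    (g := fun z : List K × D K => padTo (z.1.length - 1) [(1 : K)])).bigO 2 (fun z => by
      omega)⟩

theorem simAdd_ex : ∃ c, ∀ (K : Type) [Field K],
    Comp K (fun z : List K × List K × List K => (z.1, addP z.2.1 z.2.2)) c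
      (fun z => (z.1.length + z.2.1.length + z.2.2.length + 1) ^ 2) :=
  ⟨_, fun K _ => (Comp.pair (K := K) (f := fun z : List K × List K × List K => z.1)
    (g := fun z : List K × List K × List K => addP z.2.1 z.2.2)).bigO 2 (fun z => by
      have := Nat.le_self_pow (n := 2) (by norm_num) (z.1.length + z.2.1.length + z.2.2.length + 1)
      have h2 := min_le_left z.2.1.length z.2.2.length
      omega)⟩

theorem simSub_ex : ∃ c, ∀ (K : Type) [Field K],
    Comp K (fun z : List K × List K × List K => (z.1, subP z.2.1 z.2.2)) c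
      (fun z => (z.1.length + z.2.1.length + z.2.2.length + 1) ^ 2) :=
  ⟨_, fun K _ => (Comp.pair (K := K) (f := fun z : List K × List K × List K => z.1)
    (g := fun z : List K × List K × List K => subP z.2.1 z.2.2)).bigO 2 (fun z => by
      have := Nat.le_self_pow (n := 2) (by norm_num) (z.1.length + z.2.1.length + z.2.2.length + 1)
      omega)⟩

theorem simMul_ex : ∃ c, ∀ (K : Type) [Field K] [DecidableEq K],
    Comp K (fun z : List K × List K × List K =>
      (z.1, padTo (z.1.length - 1) (modN (mulN z.2.1 z.2.2) z.1))) c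
      (fun z => (z.1.length + z.2.1.length + z.2.2.length + 1) ^ 2) :=
  ⟨_, fun K _ _ => (Comp.pair (K := K) (f := fun z : List K × List K × List K => z.1)
    (g := fun z : List K × List K × List K =>
      padTo (z.1.length - 1) (modN (mulN z.2.1 z.2.2) z.1))).bigO 20 (fun z => by
      obtain ⟨a, b, c⟩ := z
      have h1 := length_mulN b c
      simp only
      set N := a.length + b.length + c.length + 1 with hN
      have h2 : (b.length + 1) * (c.length + 1) ≤ N * N := Nat.mul_le_mul (by omega) (by omega)
      have h3 : ((mulN b c).length + 1) * (a.length + 1) ≤ N * N :=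
        Nat.mul_le_mul (by omega) (by omega)
      have h4 : N ≤ N * N := Nat.le_mul_self N
      have h5 : N ^ 2 = N * N := sq N
      omega)⟩

theorem simInv_ex : ∃ c, ∀ (K : Type) [Field K] [DecidableEq K],
    Comp K (fun z : List K × List K =>
      (z.1, bif (trimP z.2).isEmpty then z.2
        else padTo (z.1.length - 1) (modN (invN z.2 z.1) z.1))) c
      (fun z => (z.1.length + z.2.length + 1) ^ 2) :=
  ⟨_, fun K _ _ => (Comp.pair (K := K) (f := fun z : List K × List K => z.1)
    (g := fun z : List K × List K => bif (trimP z.2).isEmpty then z.2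
        else padTo (z.1.length - 1) (modN (invN z.2 z.1) z.1))).bigO 20 (fun z => by
      obtain ⟨a, b⟩ := z
      have h1 := length_invN b a
      simp only
      set N := a.length + b.length + 1 with hN
      have h2 : (b.length + a.length + 1) ^ 2 = N * N := by rw [hN]; ring
      have h3 : ((invN b a).length + 1) * (a.length + 1) ≤ N * N :=
        Nat.mul_le_mul (by omega) (by omega)
      have h4 : N ≤ N * N := Nat.le_mul_self N
      have h5 : N ^ 2 = N * N := sq N
      cases (trimP b).isEmpty <;> simp only [cond_true, cond_false] <;> omega)⟩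

theorem simIsZero_ex : ∃ c, ∀ (K : Type) [Field K] [DecidableEq K],
    Comp K (fun z : List K × List K => (z.1, (trimP z.2).isEmpty)) c
      (fun z => (z.1.length + z.2.length + 1) ^ 2) :=
  ⟨_, fun K _ _ => (Comp.pair (K := K) (f := fun z : List K × List K => z.1)
    (g := fun z : List K × List K => (trimP z.2).isEmpty)).bigO 2 (fun z => by
      have := Nat.le_self_pow (n := 2) (by norm_num) (z.1.length + z.2.length + 1)
      omega)⟩

/-! ### The translation -/

/-- The program `p'` simulates `p`. -/
def Sim (p p' : Prog) (C : ℕ) : Prop :=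
  ∀ (K L : Type) [Field K] [Field L]
    [Algebra K L] (M : List K) (z : L) (rep : L → List K), IsExt M z rep →
    ∀ (x y : D L) (t : ℕ), Run p x y t →
      RunLe p' (.pair (enc K M) (bindD (fun a => enc K (rep a)) x))
        (.pair (enc K M) (bindD (fun a => enc K (rep a)) y))
        (C * (M.length + 1) ^ 2 * (t + 1))

/-- constants -/
theorem sim_le {m k W t : ℕ} (h : m ≤ k * W) : m ≤ k * W * (t + 1) :=
  h.trans (Nat.le_mul_of_pos_right _ (Nat.succ_pos t))

theorem sim_W (n : ℕ) : 1 ≤ (n + 1) ^ 2 := Nat.one_le_pow _ _ (Nat.succ_pos n)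

theorem sim_id : Sim .id .id 1 := by
  intro K L _ _ _ M z rep h x y t hr
  cases hr
  have := sim_W M.length
  exact (RunLe.id _).mono (sim_le (by omega))

theorem sim_nil : Sim .nil (.pair .fst .nil) 3 := by
  intro K L _ _ _ M z rep h x y t hr
  cases hr
  have := sim_W M.length
  exact ((RunLe.fst _ _).pair (RunLe.nil _)).mono (sim_le (by omega))

theorem sim_fst : Sim .fst (.pair .fst (.seq .snd .fst)) 5 := by
  intro K L _ _ _ M z rep h x y t hr
  cases hr
  have := sim_W M.length
  exact ((RunLe.fst _ _).pair ((RunLe.snd _ _).seq (RunLe.fst _ _))).mono (sim_le (by omega))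

theorem sim_snd : Sim .snd (.pair .fst (.seq .snd .snd)) 5 := by
  intro K L _ _ _ M z rep h x y t hr
  cases hr
  have := sim_W M.length
  exact ((RunLe.fst _ _).pair ((RunLe.snd _ _).seq (RunLe.snd _ _))).mono (sim_le (by omega))

theorem sim_oneP : ∃ (p' : Prog) (C : ℕ), Sim .one p' C := by
  obtain ⟨c, hc⟩ := simOne_ex
  refine ⟨c.p, c.k, ?_⟩
  intro K L _ _ _ M z rep h x y t hr
  cases hr
  have h1 := (hc K).run (M, bindD (fun a => enc K (rep a)) x)
  show RunLe c.p (enc K (M, bindD (fun a => enc K (rep a)) x))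
    (.pair (enc K M) (enc K (rep 1))) _
  rw [sim_one h]
  refine h1.mono (sim_le (Nat.mul_le_mul_left _ ?_))
  simp only
  nlinarith [Nat.zero_le M.length]

theorem sim_bin {op : Prog} {c : Cd} {g : ∀ (K : Type) [Field K] [DecidableEq K],
      List K × List K × List K → List K}
    {f : ∀ (L : Type) [Field L], L → L → L}
    (hc : ∀ (K : Type) [Field K] [DecidableEq K],
      Comp K (fun z : List K × List K × List K => (z.1, g K z)) c
        (fun z => (z.1.length + z.2.1.length + z.2.2.length + 1) ^ 2))
    (hop : ∀ (L : Type) [Field L] (x y : D L) (t : ℕ), Run op x y t →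
      ∃ a b : L, x = .pair (.elt a) (.elt b) ∧ y = .elt (f L a b))
    (hg : ∀ (K L : Type) [Field K] [DecidableEq K] [Field L] [Algebra K L] (M : List K) (z : L)
      (rep : L → List K), IsExt M z rep → ∀ a b : L, rep (f L a b) = g K (M, rep a, rep b)) :
    Sim op c.p (9 * c.k + 9 * c.k) := by
  classical
  intro K L _ _ _ M z rep h x y t hr
  obtain ⟨a, b, rfl, rfl⟩ := hop L x y t hr
  have h1 := (hc K).run (M, rep a, rep b)
  show RunLe c.p (enc K (M, rep a, rep b)) (.pair (enc K M) (enc K (rep (f L a b)))) _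
  rw [hg K L M z rep h a b]
  refine h1.mono (sim_le ?_)
  simp only [h.len]
  have h2 : (M.length + (M.length - 1) + (M.length - 1) + 1) ^ 2 ≤ 9 * (M.length + 1) ^ 2 := by
    have : M.length + (M.length - 1) + (M.length - 1) + 1 ≤ 3 * (M.length + 1) := by omega
    calc _ ≤ (3 * (M.length + 1)) ^ 2 := Nat.pow_le_pow_left this 2
      _ = _ := by ring
  have h3 := sim_W M.length
  calc c.k * ((M.length + (M.length - 1) + (M.length - 1) + 1) ^ 2 + 1)
      ≤ c.k * (9 * (M.length + 1) ^ 2 + 9 * (M.length + 1) ^ 2) :=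
        Nat.mul_le_mul_left _ (by omega)
    _ = _ := by ring

theorem sim_un {op : Prog} {c : Cd} {g : ∀ (K : Type) [Field K] [DecidableEq K],
      List K × List K → List K}
    {f : ∀ (L : Type) [Field L], L → L}
    (hc : ∀ (K : Type) [Field K] [DecidableEq K],
      Comp K (fun z : List K × List K => (z.1, g K z)) c
        (fun z => (z.1.length + z.2.length + 1) ^ 2))
    (hop : ∀ (L : Type) [Field L] (x y : D L) (t : ℕ), Run op x y t →
      ∃ a : L, x = .elt a ∧ y = .elt (f L a))
    (hg : ∀ (K L : Type) [Field K] [DecidableEq K] [Field L] [Algebra K L] (M : List K) (z : L)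
      (rep : L → List K), IsExt M z rep → ∀ a : L, rep (f L a) = g K (M, rep a)) :
    Sim op c.p (9 * c.k + 9 * c.k) := by
  classical
  intro K L _ _ _ M z rep h x y t hr
  obtain ⟨a, rfl, rfl⟩ := hop L x y t hr
  have h1 := (hc K).run (M, rep a)
  show RunLe c.p (enc K (M, rep a)) (.pair (enc K M) (enc K (rep (f L a)))) _
  rw [hg K L M z rep h a]
  refine h1.mono (sim_le ?_)
  simp only [h.len]
  have h2 : (M.length + (M.length - 1) + 1) ^ 2 ≤ 9 * (M.length + 1) ^ 2 := by
    have : M.length + (M.length - 1) + 1 ≤ 3 * (M.length + 1) := by omega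
    calc _ ≤ (3 * (M.length + 1)) ^ 2 := Nat.pow_le_pow_left this 2
      _ = _ := by ring
  have h3 := sim_W M.length
  calc c.k * ((M.length + (M.length - 1) + 1) ^ 2 + 1)
      ≤ c.k * (9 * (M.length + 1) ^ 2 + 9 * (M.length + 1) ^ 2) :=
        Nat.mul_le_mul_left _ (by omega)
    _ = _ := by ring

theorem sim_addP : ∃ (p' : Prog) (C : ℕ), Sim .add p' C := by
  obtain ⟨c, hc⟩ := simAdd_ex
  refine ⟨c.p, _, sim_bin (g := fun K _ _ z => addP z.2.1 z.2.2) (f := fun L _ a b => a + b)
    (fun K _ _ => hc K) ?_ ?_⟩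
  · intro L _ x y t hr
    cases hr with
    | add a b => exact ⟨a, b, rfl, rfl⟩
  · intro K L _ _ _ _ M z rep h a b
    exact sim_add h a b

theorem sim_subP : ∃ (p' : Prog) (C : ℕ), Sim .sub p' C := by
  obtain ⟨c, hc⟩ := simSub_ex
  refine ⟨c.p, _, sim_bin (g := fun K _ _ z => subP z.2.1 z.2.2) (f := fun L _ a b => a - b)
    (fun K _ _ => hc K) ?_ ?_⟩
  · intro L _ x y t hr
    cases hr with
    | sub a b => exact ⟨a, b, rfl, rfl⟩
  · intro K L _ _ _ _ M z rep h a b
    exact sim_sub h a b

theorem sim_mulP : ∃ (p' : Prog) (C : ℕ), Sim .mul p' C := by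
  obtain ⟨c, hc⟩ := simMul_ex
  refine ⟨c.p, _, sim_bin
    (g := fun K _ _ z => padTo (z.1.length - 1) (modN (mulN z.2.1 z.2.2) z.1))
    (f := fun L _ a b => a * b) (fun K _ _ => hc K) ?_ ?_⟩
  · intro L _ x y t hr
    cases hr with
    | mul a b => exact ⟨a, b, rfl, rfl⟩
  · intro K L _ _ _ _ M z rep h a b
    exact sim_mul h a b

theorem sim_invP : ∃ (p' : Prog) (C : ℕ), Sim .inv p' C := by
  obtain ⟨c, hc⟩ := simInv_ex
  refine ⟨c.p, _, sim_un
    (g := fun K _ _ z => bif (trimP z.2).isEmpty then z.2
        else padTo (z.1.length - 1) (modN (invN z.2 z.1) z.1))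
    (f := fun L _ a => a⁻¹) (fun K _ _ => hc K) ?_ ?_⟩
  · intro L _ x y t hr
    cases hr with
    | inv a => exact ⟨a, rfl, rfl⟩
  · intro K L _ _ _ _ M z rep h a
    by_cases ha : a = 0
    · have h1 := (sim_isZero h a).2 ha
      simp only [h1, cond_true]
      rw [ha, inv_zero]
    · have h1 : (trimP (rep a)).isEmpty = false := by
        rw [← Bool.not_eq_true, sim_isZero h]
        exact ha
      simp only [h1, cond_false]
      exact sim_inv h ha

theorem sim_isZeroP : ∃ (p' : Prog) (C : ℕ), Sim .isZero p' C := by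
  classical
  obtain ⟨c, hc⟩ := simIsZero_ex
  refine ⟨c.p, 9 * c.k + 9 * c.k, ?_⟩
  intro K L _ _ _ M z rep h x y t hr
  obtain ⟨a, rfl, hy⟩ : ∃ a : L, x = .elt a ∧ bindD (fun a => enc K (rep a)) y =
      enc K (trimP (rep a)).isEmpty := by
    cases hr with
    | isZero_true =>
      refine ⟨0, rfl, ?_⟩
      rw [(sim_isZero h 0).2 rfl]
      rfl
    | isZero_false a ha =>
      refine ⟨a, rfl, ?_⟩
      have h1 : (trimP (rep a)).isEmpty = false := by
        rw [← Bool.not_eq_true, sim_isZero h]
        exact ha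
      rw [h1]
      rfl
  rw [hy]
  have h1 := (hc K).run (M, rep a)
  refine h1.mono (sim_le ?_)
  simp only [h.len]
  have h2 : (M.length + (M.length - 1) + 1) ^ 2 ≤ 9 * (M.length + 1) ^ 2 := by
    have : M.length + (M.length - 1) + 1 ≤ 3 * (M.length + 1) := by omega
    calc _ ≤ (3 * (M.length + 1)) ^ 2 := Nat.pow_le_pow_left this 2
      _ = _ := by ring
  have h3 := sim_W M.length
  calc c.k * ((M.length + (M.length - 1) + 1) ^ 2 + 1)
      ≤ c.k * (9 * (M.length + 1) ^ 2 + 9 * (M.length + 1) ^ 2) :=
        Nat.mul_le_mul_left _ (by omega)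
    _ = _ := by ring

theorem sim_seq {p q p' q' : Prog} {A B : ℕ} (hp : Sim p p' A) (hq : Sim q q' B) :
    Sim (.seq p q) (.seq p' q') (A + B + 1) := by
  intro K L _ _ _ M z rep h x y t hr
  cases hr with
  | @seq _ _ _ w _ s t h1 h2 =>
  refine ((hp K L M z rep h _ _ _ h1).seq (hq K L M z rep h _ _ _ h2)).mono ?_
  have h3 := sim_W M.length
  generalize (M.length + 1) ^ 2 = W at *
  nlinarith [Nat.zero_le (A * W * t), Nat.zero_le (B * W * s), Nat.zero_le (A * W),
    Nat.zero_le (B * W), Nat.zero_le (W * s), Nat.zero_le (W * t)]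

theorem sim_pair {p q p' q' : Prog} {A B : ℕ} (hp : Sim p p' A) (hq : Sim q q' B) :
    Sim (.pair p q) (.seq (.pair p' q')
      (.pair (.seq .fst .fst) (.pair (.seq .fst .snd) (.seq .snd .snd)))) (A + B + 13) := by
  intro K L _ _ _ M z rep h x y t hr
  cases hr with
  | @pair _ _ _ u v s t h1 h2 =>
  have e : RunLe (.pair (.seq .fst .fst) (.pair (.seq .fst .snd) (.seq .snd .snd)))
      (.pair (.pair (enc K M) (bindD (fun a => enc K (rep a)) u))
        (.pair (enc K M) (bindD (fun a => enc K (rep a)) v)))
      (.pair (enc K M) (bindD (fun a => enc K (rep a)) (.pair u v))) 11 :=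
    ((RunLe.fst _ _).seq (RunLe.fst _ _)).pair (((RunLe.fst _ _).seq (RunLe.snd _ _)).pair
      ((RunLe.snd _ _).seq (RunLe.snd _ _)))
  refine (((hp K L M z rep h _ _ _ h1).pair (hq K L M z rep h _ _ _ h2)).seq e).mono ?_
  have h3 := sim_W M.length
  generalize (M.length + 1) ^ 2 = W at *
  nlinarith [Nat.zero_le (A * W * t), Nat.zero_le (B * W * s), Nat.zero_le (A * W),
    Nat.zero_le (B * W), Nat.zero_le (W * s), Nat.zero_le (W * t)]

theorem sim_cond {b p q b' p' q' : Prog} {B A C : ℕ} (hb : Sim b b' B) (hp : Sim p p' A)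
    (hq : Sim q q' C) : Sim (.cond b p q) (.cond (.seq b' .snd) p' q') (B + A + C + 3) := by
  intro K L _ _ _ M z rep h x y t hr
  cases hr with
  | @cond_true _ _ _ _ u v _ s t h1 h2 =>
    refine (RunLe.cond_true ((hb K L M z rep h _ _ _ h1).seq (RunLe.snd _ _))
      (hp K L M z rep h _ _ _ h2)).mono ?_
    have h3 := sim_W M.length
    generalize (M.length + 1) ^ 2 = W at *
    nlinarith [Nat.zero_le (A * W * s), Nat.zero_le (B * W * t), Nat.zero_le (A * W),
      Nat.zero_le (B * W), Nat.zero_le (W * s), Nat.zero_le (W * t), Nat.zero_le (C * W),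
      Nat.zero_le (C * W * s), Nat.zero_le (C * W * t)]
  | @cond_false _ _ _ _ _ s t h1 h2 =>
    refine (RunLe.cond_false ((hb K L M z rep h _ _ _ h1).seq (RunLe.snd _ _))
      (hq K L M z rep h _ _ _ h2)).mono ?_
    have h3 := sim_W M.length
    generalize (M.length + 1) ^ 2 = W at *
    nlinarith [Nat.zero_le (A * W * s), Nat.zero_le (B * W * t), Nat.zero_le (A * W),
      Nat.zero_le (B * W), Nat.zero_le (W * s), Nat.zero_le (W * t), Nat.zero_le (C * W),
      Nat.zero_le (A * W * t), Nat.zero_le (C * W * s)]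

theorem sim_loop {b p b' p' : Prog} {B A : ℕ} (hb : Sim b b' B) (hp : Sim p p' A) :
    Sim (.loop b p) (.loop (.seq b' .snd) p') (B + A + 3) := by
  intro K L _ _ _ M z rep h x y t hr
  generalize hq : Prog.loop b p = q at hr
  induction hr with
  | id x => cases hq
  | nil x => cases hq
  | one x => cases hq
  | fst u v => cases hq
  | snd u v => cases hq
  | add a b => cases hq
  | sub a b => cases hq
  | mul a b => cases hq
  | inv a => cases hq
  | isZero_true => cases hq
  | isZero_false a ha => cases hq
  | seq h1 h2 ih1 ih2 => cases hq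
  | pair h1 h2 ih1 ih2 => cases hq
  | cond_true h1 h2 ih1 ih2 => cases hq
  | cond_false h1 h2 ih1 ih2 => cases hq
  | @loop_true _ _ x u v y z' r s t h1 h2 h3 ih1 ih2 ih3 =>
    cases hq
    obtain ⟨r', hr', g1⟩ := (hb K L M z rep h _ _ _ h1).seq (RunLe.snd _ _)
    obtain ⟨s', hs', g2⟩ := hp K L M z rep h _ _ _ h2
    obtain ⟨t', ht', g3⟩ := ih3 rfl
    refine ⟨_, ?_, Run.loop_true g1 g2 g3⟩
    have h4 := sim_W M.length
    generalize (M.length + 1) ^ 2 = W at *
    nlinarith [Nat.zero_le (A * W * r), Nat.zero_le (B * W * s), Nat.zero_le (A * W),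
      Nat.zero_le (B * W), Nat.zero_le (W * s), Nat.zero_le (W * r)]
  | @loop_false _ _ x s h1 ih1 =>
    cases hq
    obtain ⟨r', hr', g1⟩ := (hb K L M z rep h _ _ _ h1).seq (RunLe.snd _ _)
    refine ⟨_, ?_, Run.loop_false g1⟩
    have h4 := sim_W M.length
    generalize (M.length + 1) ^ 2 = W at *
    nlinarith [Nat.zero_le (A * W * s), Nat.zero_le (B * W * s), Nat.zero_le (A * W),
      Nat.zero_le (B * W), Nat.zero_le (W * s)]

theorem simulate (p : Prog) : ∃ (p' : Prog) (C : ℕ), ∀ (K L : Type) [Field K] [Field L]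
    [Algebra K L] (M : List K) (z : L) (rep : L → List K), IsExt M z rep →
    ∀ (x y : D L) (t : ℕ), Run p x y t →
      RunLe p' (.pair (enc K M) (bindD (fun a => enc K (rep a)) x))
        (.pair (enc K M) (bindD (fun a => enc K (rep a)) y))
        (C * (M.length + 1) ^ 2 * (t + 1)) := by
  show ∃ (p' : Prog) (C : ℕ), Sim p p' C
  induction p with
  | id => exact ⟨_, _, sim_id⟩
  | nil => exact ⟨_, _, sim_nil⟩
  | one => exact sim_oneP
  | fst => exact ⟨_, _, sim_fst⟩
  | snd => exact ⟨_, _, sim_snd⟩
  | add => exact sim_addP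
  | sub => exact sim_subP
  | mul => exact sim_mulP
  | inv => exact sim_invP
  | isZero => exact sim_isZeroP
  | seq p q ihp ihq =>
    obtain ⟨p', A, hp⟩ := ihp
    obtain ⟨q', B, hq⟩ := ihq
    exact ⟨_, _, sim_seq hp hq⟩
  | pair p q ihp ihq =>
    obtain ⟨p', A, hp⟩ := ihp
    obtain ⟨q', B, hq⟩ := ihq
    exact ⟨_, _, sim_pair hp hq⟩
  | cond b p q ihb ihp ihq =>
    obtain ⟨b', B, hb⟩ := ihb
    obtain ⟨p', A, hp⟩ := ihp
    obtain ⟨q', C, hq⟩ := ihq
    exact ⟨_, _, sim_cond hb hp hq⟩
  | loop b p ihb ihp =>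
    obtain ⟨b', B, hb⟩ := ihb
    obtain ⟨p', A, hp⟩ := ihp
    exact ⟨_, _, sim_loop hb hp⟩

end Pool.Agent.BiFac

end

section

/-!
# Division with remainder in `K[x][y]` with precision `x ^ w`
-/

set_option autoImplicit false

namespace Pool.Agent.BiFac

open Polynomial Pool.Agent.TreeRAM

variable {K : Type} [Field K]

/-! ### Cutting and padding -/

/-- Cut or pad to `k` rows of length `w`. -/
def padB (w k : ℕ) (l : List (List K)) : List (List K) :=
  ((l.take k ++ List.replicate k []).take k).map (padTo w)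

theorem length_padB (w k : ℕ) (l : List (List K)) : (padB w k l).length = k := by
  simp [padB]

theorem rows_padB (w k : ℕ) (l : List (List K)) : ∀ r ∈ padB w k l, r.length = w := by
  intro r hr
  simp only [padB, List.mem_map] at hr
  obtain ⟨s, -, rfl⟩ := hr
  exact length_padTo w s

omit [Field K] in
theorem getD_take_row (l : List (List K)) (k i : ℕ) :
    (l.take k).getD i [] = if i < k then l.getD i [] else [] := by
  simp only [List.getD_eq_getElem?_getD, List.getElem?_take]
  split_ifs <;> rfl

theorem coeff_toB_take (l : List (List K)) (k i : ℕ) :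
    (toB (l.take k)).coeff i = if i < k then (toB l).coeff i else 0 := by
  rw [coeff_toB, coeff_toB, getD_take_row]
  split_ifs <;> rfl

omit [Field K] in
theorem getD_pad_row (l : List (List K)) (k i : ℕ) :
    ((l.take k ++ List.replicate k []).take k).getD i [] = if i < k then l.getD i [] else [] := by
  simp only [List.getD_eq_getElem?_getD, List.getElem?_take]
  split_ifs with h
  · rw [List.getElem?_append]
    split_ifs with h'
    · rw [List.getElem?_take, if_pos h]
    · rw [List.getElem?_replicate]
      rw [List.length_take] at h'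
      have h2 : l.length ≤ i := by omega
      rw [List.getElem?_eq_none h2]
      split_ifs <;> rfl
  · rfl

theorem phi_padB_coeff (w k : ℕ) (l : List (List K)) (i : ℕ) :
    (phi K w (toB (padB w k l))).coeff i = if i < k then (phi K w (toB l)).coeff i else 0 := by
  have h1 := cg_iff_phi.1 (cg_map_padTo w ((l.take k ++ List.replicate k []).take k))
  rw [padB, h1, phi_apply, phi_apply, coeff_map, coeff_map, coeff_toB, coeff_toB, getD_pad_row]
  split_ifs
  · rfl
  · simp [toP]

theorem dvd_padB (w k : ℕ) (l : List (List K)) :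
    X ^ k ∣ phi K w (toB (padB w k l)) - phi K w (toB l) := by
  rw [X_pow_dvd_iff]
  intro d hd
  rw [coeff_sub, phi_padB_coeff, if_pos hd, sub_self]

theorem dvd_take (w k : ℕ) (l : List (List K)) :
    X ^ k ∣ phi K w (toB (l.take k)) - phi K w (toB l) := by
  rw [X_pow_dvd_iff]
  intro d hd
  rw [coeff_sub, phi_apply, phi_apply, coeff_map, coeff_map, coeff_toB_take, if_pos hd, sub_self]

theorem toB_reverse (l : List (List K)) (hl : l ≠ []) :
    toB l.reverse = reflect (l.length - 1) (toB l) := by
  have h0 : 0 < l.length := List.length_pos_iff.2 hl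
  ext1 i
  rw [coeff_toB, coeff_reflect, coeff_toB]
  rcases Nat.lt_or_ge i l.length with h | h
  · rw [revAt_le (by omega)]
    simp only [List.getD_eq_getElem?_getD]
    rw [List.getElem?_reverse h]
  · have h1 : revAt (l.length - 1) i = i := by
      rw [← revAtFun_eq, revAtFun, if_neg (by omega)]
    rw [h1, List.getD_eq_default _ _ (by rw [List.length_reverse]; exact h),
      List.getD_eq_default _ _ h]

theorem phi_toB_reverse (w : ℕ) (l : List (List K)) (hl : l ≠ []) :
    phi K w (toB l.reverse) = reflect (l.length - 1) (phi K w (toB l)) := by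
  rw [toB_reverse l hl, phi_apply, phi_apply, reflect_map]

/-! ### Inversion -/

/-- One Newton step. -/
def binvStep (E : MEnv K) (w : ℕ) (b : List (List K)) (t : ℕ) (v : List (List K)) :
    List (List K) :=
  padB w (2 ^ t) (bmul E w v (padB w (2 ^ t) (bsub w [[1 + 1]] (bmul E w (b.take (2 ^ t)) v))))

/-- The inverse of `b` modulo `y ^ (2 ^ t)`. -/
def binv (E : MEnv K) (w : ℕ) (b : List (List K)) : ℕ → List (List K)
  | 0 => [[1]]
  | t + 1 => binvStep E w b (t + 1) (binv E w b t)

theorem length_binv (E : MEnv K) (w : ℕ) (b : List (List K)) (t : ℕ) :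
    (binv E w b t).length = 2 ^ t := by
  cases t with
  | zero => rfl
  | succ t => exact length_padB _ _ _

theorem binv_spec {E : MEnv K} (hE : E.Good) {w : ℕ} {b : List (List K)}
    (hb : (phi K w (toB b)).coeff 0 = 1) (t : ℕ)
    (hf : ∀ s < t, 2 * (2 ^ s + 2 ^ (s + 1) + 1) * (w + 1) ≤ E.cap) :
    X ^ (2 ^ t) ∣ phi K w (toB b) * phi K w (toB (binv E w b t)) - 1 := by
  induction t with
  | zero =>
    have h1 : phi K w (toB (binv E w b 0)) = 1 := by
      simp [binv, toB, toP]
    rw [h1, mul_one, pow_zero, pow_one, X_dvd_iff, coeff_sub, hb, coeff_one_zero, sub_self]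
  | succ t ih =>
    have ih' := ih (fun s hs => hf s (by omega))
    have hft := hf t (by omega)
    set v := binv E w b t with hv
    have hvl : v.length = 2 ^ t := length_binv E w b t
    show X ^ (2 ^ (t + 1)) ∣ phi K w (toB b) * phi K w (toB (binvStep E w b (t + 1) v)) - 1
    set u := bsub w [[1 + 1]] (bmul E w (b.take (2 ^ (t + 1))) v) with hu
    set d := padB w (2 ^ (t + 1)) u with hd
    have h2 : phi K w (toB (bmul E w (b.take (2 ^ (t + 1))) v)) =
        phi K w (toB (b.take (2 ^ (t + 1)))) * phi K w (toB v) := by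
      rw [← map_mul]
      refine cg_iff_phi.1 (cg_bmul_of_cap hE (le_trans ?_ hft))
      have : (b.take (2 ^ (t + 1))).length ≤ 2 ^ (t + 1) := by
        rw [List.length_take]; exact min_le_left _ _
      rw [hvl]
      exact Nat.mul_le_mul_right _ (Nat.mul_le_mul_left _ (by omega))
    have h3 : phi K w (toB (bmul E w v d)) = phi K w (toB v) * phi K w (toB d) := by
      rw [← map_mul]
      refine cg_iff_phi.1 (cg_bmul_of_cap hE (le_trans ?_ hft))
      rw [hvl, hd, length_padB]
    have h4 : phi K w (toB u) =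
        2 - phi K w (toB (b.take (2 ^ (t + 1)))) * phi K w (toB v) := by
      have := cg_iff_phi.1 (cg_bsub w [[1 + 1]] (bmul E w (b.take (2 ^ (t + 1))) v))
      rw [hu, this, map_sub, h2]
      have h5 : toB [[(1 : K) + 1]] = 2 := by
        simp only [toB, toP, mul_zero, add_zero, map_add, map_one]
        norm_num
      rw [h5, map_ofNat]
    obtain ⟨f, hf'⟩ := ih'
    obtain ⟨c, hc⟩ := dvd_take w (2 ^ (t + 1)) b
    obtain ⟨g, hg⟩ := dvd_padB w (2 ^ (t + 1)) u
    obtain ⟨e, he⟩ := dvd_padB w (2 ^ (t + 1)) (bmul E w v d)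
    rw [h3] at he
    rw [h4] at hg
    have hpow : (X : (K[X] ⧸ Ideal.span {(X : K[X]) ^ w})[X]) ^ (2 ^ (t + 1)) =
        X ^ (2 ^ t) * X ^ (2 ^ t) := by
      rw [← pow_add, pow_succ, mul_two]
    rw [hpow] at hc hg he ⊢
    have hdd : phi K w (toB d) = phi K w (toB (padB w (2 ^ (t + 1)) u)) := rfl
    rw [← hdd] at hg
    have hstep : binvStep E w b (t + 1) v = padB w (2 ^ (t + 1)) (bmul E w v d) := rfl
    rw [hstep]
    set B := phi K w (toB b)
    set V := phi K w (toB v)
    set D := phi K w (toB d)
    set B' := phi K w (toB (b.take (2 ^ (t + 1))))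
    set V' := phi K w (toB (padB w (2 ^ (t + 1)) (bmul E w v d)))
    set Y := (X : (K[X] ⧸ Ideal.span {(X : K[X]) ^ w})[X]) ^ (2 ^ t)
    refine ⟨-f ^ 2 - B * V * c * V + B * V * g + B * e, ?_⟩
    linear_combination B * he + B * V * hg - B * V * V * hc - (B * V - 1 + Y * f) * hf'

/-! ### Quotient and remainder -/

/-- The quotient. -/
def bquo (E : MEnv K) (w : ℕ) (a b : List (List K)) : List (List K) :=
  (padB w (a.length + 1 - b.length) (bmul E w (a.reverse.take (a.length + 1 - b.length))
    ((binv E w b.reverse (Nat.clog 2 (a.length + 1 - b.length))).take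
      (a.length + 1 - b.length)))).reverse

/-- The remainder. -/
def brem (E : MEnv K) (w : ℕ) (a b : List (List K)) : List (List K) :=
  padB w (b.length - 1) (bsub w a (bmul E w (bquo E w a b) b))

theorem length_bquo (E : MEnv K) (w : ℕ) (a b : List (List K)) :
    (bquo E w a b).length = a.length + 1 - b.length := by
  rw [bquo, List.length_reverse, length_padB]

theorem length_brem (E : MEnv K) (w : ℕ) (a b : List (List K)) :
    (brem E w a b).length = b.length - 1 := length_padB _ _ _

theorem rows_bquo (E : MEnv K) (w : ℕ) (a b : List (List K)) :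
    ∀ r ∈ bquo E w a b, r.length = w := by
  intro r hr
  rw [bquo, List.mem_reverse] at hr
  exact rows_padB _ _ _ r hr

theorem rows_brem (E : MEnv K) (w : ℕ) (a b : List (List K)) :
    ∀ r ∈ brem E w a b, r.length = w := rows_padB _ _ _

theorem cg_bquo {E : MEnv K} (hE : E.Good) {w : ℕ} {a b : List (List K)}
    (hf : Fits E (a.length + b.length) w) (hb : (toB b).Monic)
    (hbl : b.length = (toB b).natDegree + 1) :
    Cg w (toB (bquo E w a b)) (toB a /ₘ toB b) := by
  rcases Nat.eq_zero_or_pos w with hw | hw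
  · subst hw
    exact cg_zero_prec _ _
  have hnt := nontrivial_quot (K := K) hw
  rcases Nat.lt_or_ge a.length b.length with hab | hab
  · have h1 : bquo E w a b = [] := by
      rw [← List.length_eq_zero_iff, length_bquo]
      omega
    have h2 : toB a /ₘ toB b = 0 := by
      rw [divByMonic_eq_zero_iff hb]
      refine lt_of_lt_of_le (degree_toB_lt a) ?_
      rw [degree_eq_natDegree hb.ne_zero]
      exact_mod_cast (by omega : a.length ≤ (toB b).natDegree)
    rw [h1, h2]
    exact Cg.refl _ _
  have ha0 : a ≠ [] := by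
    rintro rfl
    simp only [List.length_nil] at hab
    omega
  have hb0 : b ≠ [] := by
    rintro rfl
    simp only [List.length_nil] at hbl
    omega
  set m := (toB b).natDegree with hm
  set k := a.length + 1 - b.length with hk
  have hk1 : 1 ≤ k := by omega
  have hbr0 : (phi K w (toB b.reverse)).coeff 0 = 1 := by
    rw [phi_toB_reverse w b hb0, coeff_reflect, revAt_zero, phi_apply, coeff_map, hbl,
      Nat.add_sub_cancel, hm, hb.coeff_natDegree, map_one]
  set q0 := padB w k (bmul E w (a.reverse.take k) ((binv E w b.reverse (Nat.clog 2 k)).take k))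
    with hq0
  have hcap : ∀ s < Nat.clog 2 k, 2 * (2 ^ s + 2 ^ (s + 1) + 1) * (w + 1) ≤ E.cap := by
    intro s hs
    have h3 : 2 ^ s < k := (Nat.lt_clog_iff_pow_lt (by norm_num)).1 hs
    have h4 : 2 ^ (s + 1) = 2 * 2 ^ s := by ring
    unfold Fits at hf
    refine le_trans ?_ hf
    exact Nat.mul_le_mul_right _ (by omega)
  have hinv := binv_spec hE hbr0 (Nat.clog 2 k) hcap
  have hkt : k ≤ 2 ^ Nat.clog 2 k := Nat.le_pow_clog (by norm_num) k
  have hinv' := (pow_dvd_pow (X : (K[X] ⧸ Ideal.span {(X : K[X]) ^ w})[X]) hkt).trans hinv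
  have hmul : phi K w (toB (bmul E w (a.reverse.take k)
      ((binv E w b.reverse (Nat.clog 2 k)).take k))) =
      phi K w (toB (a.reverse.take k)) *
        phi K w (toB ((binv E w b.reverse (Nat.clog 2 k)).take k)) := by
    rw [← map_mul]
    refine cg_iff_phi.1 (cg_bmul_of_cap hE ?_)
    unfold Fits at hf
    refine le_trans ?_ hf
    refine Nat.mul_le_mul_right _ ?_
    have h5 : (a.reverse.take k).length ≤ k := by
      rw [List.length_take]; exact min_le_left _ _
    have h6 : ((binv E w b.reverse (Nat.clog 2 k)).take k).length ≤ k := by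
      rw [List.length_take]; exact min_le_left _ _
    omega
  obtain ⟨f, hf1⟩ := hinv'
  obtain ⟨c, hc⟩ := dvd_take w k a.reverse
  obtain ⟨g, hg⟩ := dvd_take w k (binv E w b.reverse (Nat.clog 2 k))
  obtain ⟨e, he⟩ := dvd_padB w k (bmul E w (a.reverse.take k)
      ((binv E w b.reverse (Nat.clog 2 k)).take k))
  rw [hmul, ← hq0] at he
  -- the division in the quotient ring
  have hBm : (phi K w (toB b)).Monic := hb.map _
  have hBdeg : (phi K w (toB b)).natDegree = m := hb.natDegree_map _
  have hdiv := modByMonic_add_div (phi K w (toB a)) (phi K w (toB b))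
  have hAdeg : (phi K w (toB a)).natDegree ≤ m + (k - 1) := by
    refine natDegree_le_iff_coeff_eq_zero.2 fun i hi => ?_
    rw [phi_apply, coeff_map, coeff_toB, List.getD_eq_default _ _ (by omega)]
    simp [toP]
  have hQdeg : (phi K w (toB a) /ₘ phi K w (toB b)).natDegree ≤ k - 1 := by
    rw [natDegree_divByMonic _ hBm, hBdeg]
    omega
  have hrefl : reflect (a.length - 1) (phi K w (toB a)) =
      reflect (a.length - 1) (phi K w (toB a) %ₘ phi K w (toB b)) +
        reflect m (phi K w (toB b)) * reflect (k - 1) (phi K w (toB a) /ₘ phi K w (toB b)) := by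
    conv_lhs => rw [← hdiv]
    rw [reflect_add, ← reflect_mul _ _ hBdeg.le hQdeg]
    congr 2
    omega
  have hrem : X ^ k ∣ reflect (a.length - 1) (phi K w (toB a) %ₘ phi K w (toB b)) := by
    rw [X_pow_dvd_iff]
    intro i hi
    rw [coeff_reflect, revAt_le (by omega)]
    refine coeff_eq_zero_of_degree_lt (lt_of_lt_of_le (degree_modByMonic_lt _ hBm) ?_)
    rw [degree_eq_natDegree hBm.ne_zero, hBdeg]
    exact_mod_cast (by omega : m ≤ a.length - 1 - i)
  obtain ⟨r, hr⟩ := hrem
  have hmb : b.length - 1 = m := by omega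
  rw [phi_toB_reverse w a ha0, hrefl, hr] at hc
  have hrevb := phi_toB_reverse w b hb0
  rw [hmb] at hrevb
  rw [hrevb] at hf1
  have hmain : X ^ k ∣ phi K w (toB q0) -
      reflect (k - 1) (phi K w (toB a) /ₘ phi K w (toB b)) := by
    set Ar := phi K w (toB (a.reverse.take k))
    set Vt := phi K w (toB ((binv E w b.reverse (Nat.clog 2 k)).take k))
    set V := phi K w (toB (binv E w b.reverse (Nat.clog 2 k)))
    set Br := reflect m (phi K w (toB b))
    set Qr := reflect (k - 1) (phi K w (toB a) /ₘ phi K w (toB b))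
    set Y := (X : (K[X] ⧸ Ideal.span {(X : K[X]) ^ w})[X]) ^ k
    refine ⟨e + c * Vt + r * Vt + Br * Qr * g + f * Qr, ?_⟩
    linear_combination he + Vt * hc + Br * Qr * hg + Qr * hf1
  have hq0l : q0.length = k := length_padB _ _ _
  have hq0ne : q0 ≠ [] := by
    intro h
    rw [h, List.length_nil] at hq0l
    omega
  rw [cg_iff_phi]
  have hbq : bquo E w a b = q0.reverse := rfl
  rw [hbq, phi_toB_reverse w q0 hq0ne, hq0l]
  have hmap : phi K w (toB a /ₘ toB b) = phi K w (toB a) /ₘ phi K w (toB b) := by
    rw [phi_apply, phi_apply, phi_apply, map_divByMonic _ hb]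
  rw [hmap]
  ext1 i
  rw [coeff_reflect]
  rcases Nat.lt_or_ge i k with hi | hi
  · rw [revAt_le (by omega)]
    rw [X_pow_dvd_iff] at hmain
    have h7 := hmain (k - 1 - i) (by omega)
    rw [coeff_sub, sub_eq_zero] at h7
    rw [h7, coeff_reflect, revAt_le (by omega)]
    congr 1
    omega
  · have h8 : revAt (k - 1) i = i := by
      rw [← revAtFun_eq, revAtFun, if_neg (by omega)]
    rw [h8, coeff_eq_zero_of_natDegree_lt (lt_of_le_of_lt hQdeg (by omega)), hq0,
      phi_padB_coeff, if_neg (by omega)]

theorem cg_brem {E : MEnv K} (hE : E.Good) {w : ℕ} {a b : List (List K)}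
    (hf : Fits E (a.length + b.length) w) (hb : (toB b).Monic)
    (hbl : b.length = (toB b).natDegree + 1) :
    Cg w (toB (brem E w a b)) (toB a %ₘ toB b) := by
  rcases Nat.eq_zero_or_pos w with hw | hw
  · subst hw
    exact cg_zero_prec _ _
  have hnt := nontrivial_quot (K := K) hw
  have h1 := cg_iff_phi.1 (cg_bquo hE hf hb hbl)
  have h2 : phi K w (toB (bmul E w (bquo E w a b) b)) =
      phi K w (toB (bquo E w a b)) * phi K w (toB b) := by
    rw [← map_mul]
    refine cg_iff_phi.1 (cg_bmul_of_cap hE ?_)
    unfold Fits at hf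
    refine le_trans ?_ hf
    refine Nat.mul_le_mul_right _ ?_
    rw [length_bquo]
    omega
  have h3 := cg_iff_phi.1 (cg_bsub w a (bmul E w (bquo E w a b) b))
  rw [map_sub, h2, h1] at h3
  have h4 : phi K w (toB (bsub w a (bmul E w (bquo E w a b) b))) =
      phi K w (toB a %ₘ toB b) := by
    rw [h3, modByMonic_eq_sub_mul_div (toB a) (toB b), map_sub, map_mul]
    ring
  rw [cg_iff_phi]
  ext1 i
  rw [brem, phi_padB_coeff, h4]
  split_ifs with hi
  · rfl
  · rw [phi_apply, coeff_map]
    symm
    rw [coeff_eq_zero_of_degree_lt (lt_of_lt_of_le (degree_modByMonic_lt _ hb) ?_), map_zero]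
    rw [degree_eq_natDegree hb.ne_zero]
    exact_mod_cast (by omega : (toB b).natDegree ≤ i)

/-! ### Costs -/

theorem padB_ex : ∃ c, ∀ (K : Type) [Field K],
    Comp K (fun z : ℕ × ℕ × List (List K) => padB z.1 z.2.1 z.2.2) c
      (fun z => (z.2.1 + 1) * (z.1 + 1)) :=
  ⟨_, fun K _ => ((Comp.map (K := K)
    (l := fun z : ℕ × ℕ × List (List K) =>
      (z.2.2.take z.2.1 ++ List.replicate z.2.1 ([] : List K)).take z.2.1)
    (g := fun z r => padTo z.1 r)).congr (fun z => rfl)).bigO 5 (fun z => by
      obtain ⟨w, k, l⟩ := z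
      simp only [zero_add, add_zero, List.length_take, List.map_const', List.sum_replicate,
        List.length_append, List.length_replicate, smul_eq_mul]
      have h1 : min k (min k l.length + k) = k := by omega
      have h2 := min_le_left k l.length
      rw [h1]
      nlinarith [Nat.zero_le (k * w)])⟩

noncomputable def padBCd : Cd := padB_ex.choose

instance compPadB {α : Type} [Enc K α] {n m : α → ℕ} {f : α → List (List K)}
    {cn cm c : Cd} {Tn Tm T : α → ℕ} [hn : Comp K n cn Tn] [hm : Comp K m cm Tm]
    [h : Comp K f c T] : Comp K (fun x => padB (n x) (m x) (f x))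
      (padBCd.comp (cn.pair (cm.pair c)))
      (fun x => Tn x + (Tm x + T x) + (m x + 1) * (n x + 1)) :=
  (padB_ex.choose_spec K).comp (f := fun x => (n x, m x, f x))
    (Comp.pair (h' := Comp.pair))

set_option synthInstance.maxSize 2000 in
theorem binvStep_ex : ∃ c, ∀ (K : Type) [Field K],
    Comp K (fun z : (MEnv K × ℕ × List (List K) × ℕ) × List (List K) =>
      binvStep z.1.1 z.1.2.1 z.1.2.2.1 z.1.2.2.2 z.2) c
      (fun z => (z.2.length + 2 ^ z.1.2.2.2 + 1) * (z.1.2.1 + 1) * (z.1.1.1 + 1)) :=
  ⟨_, fun K _ => ((compPadB (K := K)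
    (n := fun z : (MEnv K × ℕ × List (List K) × ℕ) × List (List K) => z.1.2.1)
    (m := fun z => 2 ^ z.1.2.2.2)
    (f := fun z => bmul z.1.1 z.1.2.1 z.2 (padB z.1.2.1 (2 ^ z.1.2.2.2)
      (bsub z.1.2.1 [[1 + 1]] (bmul z.1.1 z.1.2.1 (z.1.2.2.1.take (2 ^ z.1.2.2.2)) z.2))))).congr
        (fun z => rfl)).bigO 20 (fun z => by
      obtain ⟨⟨⟨S, V, W⟩, w, b, t⟩, v⟩ := z
      simp only [zero_add, add_zero, length_padB, length_bmul, List.length_cons, List.length_nil]
      have hl : (List.take (2 ^ t) b).length ≤ 2 ^ t := by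
        rw [List.length_take]; exact min_le_left _ _
      have h1 : 2 ^ t ≤ (v.length + 2 ^ t + 1) * (w + 1) * (S + 1) := by
        rw [mul_assoc]
        exact le_trans (by omega) (Nat.le_mul_of_pos_right _ (by positivity))
      have h2 : ((List.take (2 ^ t) b).length + v.length + 1) * (w + 1) * (S + 1) ≤
          (v.length + 2 ^ t + 1) * (w + 1) * (S + 1) :=
        Nat.mul_le_mul_right _ (Nat.mul_le_mul_right _ (by omega))
      have h3 : (0 + 1 + ((List.take (2 ^ t) b).length + v.length - 1) + 1) * (w + 1) ≤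
          2 * ((v.length + 2 ^ t + 1) * (w + 1) * (S + 1)) := by
        calc (0 + 1 + ((List.take (2 ^ t) b).length + v.length - 1) + 1) * (w + 1)
            ≤ (2 * (v.length + 2 ^ t + 1)) * (w + 1) := Nat.mul_le_mul_right _ (by omega)
          _ = 2 * ((v.length + 2 ^ t + 1) * (w + 1)) := by ring
          _ ≤ _ := Nat.mul_le_mul_left _ (Nat.le_mul_of_pos_right _ (by positivity))
      have h4 : (2 ^ t + 1) * (w + 1) ≤ (v.length + 2 ^ t + 1) * (w + 1) * (S + 1) :=
        le_trans (Nat.mul_le_mul_right _ (by omega)) (Nat.le_mul_of_pos_right _ (by positivity))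
      simp only [zero_add] at h3
      omega)⟩

noncomputable def binvStepCd : Cd := binvStep_ex.choose

theorem binv_ex : ∃ c, ∀ (K : Type) [Field K],
    Comp K (fun z : MEnv K × ℕ × List (List K) × ℕ => binv z.1 z.2.1 z.2.2.1 z.2.2.2) c
      (fun z => 2 ^ z.2.2.2 * (z.2.1 + 1) * (z.1.1 + 1)) :=
  ⟨_, fun K _ => (Comp.rec1 (K := K)
    (isLeaf := fun z : MEnv K × ℕ × List (List K) × ℕ => decide (z.2.2.2 = 0))
    (leaf := fun _ => [[1]]) (next := fun z => (z.1, z.2.1, z.2.2.1, z.2.2.2 - 1))
    (join := fun z r => binvStep z.1 z.2.1 z.2.2.1 z.2.2.2 r)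
    (T := fun z => 10 * (2 ^ z.2.2.2 * (z.2.1 + 1) * (z.1.1 + 1)))
    (h3 := binvStep_ex.choose_spec K)
    (fun z => z.2.2.2)
    (by rintro ⟨E, w, b, t⟩ h; cases t <;> simp_all [binv])
    (by rintro ⟨E, w, b, t⟩ h; cases t <;> simp_all [binv])
    (by rintro ⟨E, w, b, t⟩ h; cases t <;> simp_all)
    (by rintro ⟨E, w, b, t⟩ h; cases t <;> simp_all)
    (by
      rintro ⟨E, w, b, t⟩ h
      cases t with
      | zero => simp at h
      | succ t =>
        simp only [Nat.add_sub_cancel, length_binv, zero_add, add_zero]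
        have h1 : 2 ^ (t + 1) = 2 * 2 ^ t := by ring
        have h2 : 1 ≤ 2 ^ t := Nat.one_le_two_pow
        have h3 : 1 ≤ (w + 1) * (E.1 + 1) := Nat.mul_pos (by omega) (by omega)
        rw [h1]
        generalize 2 ^ t = p at *
        simp only [mul_assoc]
        generalize (w + 1) * (E.1 + 1) = u at *
        nlinarith [Nat.mul_le_mul h2 h3])).bigO 10 (fun z => by omega)⟩

noncomputable def binvCd : Cd := binv_ex.choose

instance compBinv {α : Type} [Enc K α] {e : α → MEnv K} {n m : α → ℕ} {f : α → List (List K)}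
    {ce cn cm c : Cd} {Te Tn Tm T : α → ℕ} [he : Comp K e ce Te] [hn : Comp K n cn Tn]
    [h : Comp K f c T] [hm : Comp K m cm Tm] :
    Comp K (fun x => binv (e x) (n x) (f x) (m x))
      (binvCd.comp (ce.pair (cn.pair (c.pair cm))))
      (fun x => Te x + (Tn x + (T x + Tm x)) + 2 ^ m x * (n x + 1) * ((e x).1 + 1)) :=
  (binv_ex.choose_spec K).comp (f := fun x => (e x, n x, f x, m x))
    (Comp.pair (h' := Comp.pair (h' := Comp.pair)))

theorem two_pow_clog_le (k : ℕ) : 2 ^ Nat.clog 2 k ≤ 2 * k + 1 := by
  rcases Nat.lt_or_ge 1 k with h | h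
  · have h1 := Nat.pow_pred_clog_lt_self (b := 2) (by norm_num) h
    have h2 : 0 < Nat.clog 2 k := Nat.clog_pos (by norm_num) h
    obtain ⟨c, hc⟩ := Nat.exists_eq_succ_of_ne_zero h2.ne'
    rw [hc] at h1 ⊢
    simp only [Nat.succ_eq_add_one, Nat.pred_eq_sub_one, Nat.add_sub_cancel] at h1 ⊢
    rw [pow_succ]
    omega
  · rw [Nat.clog_of_right_le_one h]
    omega

set_option synthInstance.maxSize 2000 in
theorem bquoAux_ex : ∃ c, ∀ (K : Type) [Field K],
    Comp K (fun z : (MEnv K × ℕ × List (List K) × List (List K)) × ℕ =>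
      (padB z.1.2.1 z.2 (bmul z.1.1 z.1.2.1 (z.1.2.2.1.reverse.take z.2)
        ((binv z.1.1 z.1.2.1 z.1.2.2.2.reverse (Nat.clog 2 z.2)).take z.2))).reverse) c
      (fun z => (z.1.2.2.1.length + z.1.2.2.2.length + z.2 + 1) * (z.1.2.1 + 1) *
        (z.1.1.1 + 1)) :=
  ⟨_, fun K _ => ((inferInstance : Comp K (fun z : (MEnv K × ℕ × List (List K) ×
      List (List K)) × ℕ =>
      (padB z.1.2.1 z.2 (bmul z.1.1 z.1.2.1 (z.1.2.2.1.reverse.take z.2)
        ((binv z.1.1 z.1.2.1 z.1.2.2.2.reverse (Nat.clog 2 z.2)).take z.2))).reverse) _ _)).bigO 20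
    (fun z => by
      obtain ⟨⟨⟨S, V, W⟩, w, a, b⟩, k⟩ := z
      simp only [zero_add, length_padB]
      have h0 := two_pow_clog_le k
      have hl1 : (List.take k a.reverse).length ≤ k := by
        rw [List.length_take]; exact min_le_left _ _
      have hl2 : (List.take k (binv (S, V, W) w b.reverse (Nat.clog 2 k))).length ≤ k := by
        rw [List.length_take]; exact min_le_left _ _
      have h1 : a.length + b.length + k + 1 ≤
          (a.length + b.length + k + 1) * (w + 1) * (S + 1) := by
        rw [mul_assoc]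
        exact Nat.le_mul_of_pos_right _ (by positivity)
      have h2 : 2 ^ Nat.clog 2 k * (w + 1) * (S + 1) ≤
          2 * ((a.length + b.length + k + 1) * (w + 1) * (S + 1)) := by
        calc 2 ^ Nat.clog 2 k * (w + 1) * (S + 1)
            ≤ (2 * (a.length + b.length + k + 1)) * (w + 1) * (S + 1) :=
              Nat.mul_le_mul_right _ (Nat.mul_le_mul_right _ (by omega))
          _ = _ := by ring
      have h3 : ((List.take k a.reverse).length +
          (List.take k (binv (S, V, W) w b.reverse (Nat.clog 2 k))).length + 1) *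
          (w + 1) * (S + 1) ≤ 2 * ((a.length + b.length + k + 1) * (w + 1) * (S + 1)) := by
        calc ((List.take k a.reverse).length +
          (List.take k (binv (S, V, W) w b.reverse (Nat.clog 2 k))).length + 1) *
          (w + 1) * (S + 1)
            ≤ (2 * (a.length + b.length + k + 1)) * (w + 1) * (S + 1) :=
              Nat.mul_le_mul_right _ (Nat.mul_le_mul_right _ (by omega))
          _ = _ := by ring
      have h4 : (k + 1) * (w + 1) ≤ (a.length + b.length + k + 1) * (w + 1) * (S + 1) :=
        le_trans (Nat.mul_le_mul_right _ (by omega)) (Nat.le_mul_of_pos_right _ (by positivity))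
      omega)⟩

theorem bquo_ex : ∃ c, ∀ (K : Type) [Field K],
    Comp K (fun z : MEnv K × ℕ × List (List K) × List (List K) =>
      bquo z.1 z.2.1 z.2.2.1 z.2.2.2) c
      (fun z => (z.2.2.1.length + z.2.2.2.length + 1) * (z.2.1 + 1) * (z.1.1 + 1)) := by
  obtain ⟨c, hc⟩ := bquoAux_ex
  exact ⟨_, fun K _ => (((hc K).comp
    (f := fun z : MEnv K × ℕ × List (List K) × List (List K) =>
      (z, z.2.2.1.length + 1 - z.2.2.2.length)) inferInstance).congr (fun z => rfl)).bigO 10
    (fun z => by
      obtain ⟨⟨S, V, W⟩, w, a, b⟩ := z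
      simp only [zero_add]
      have h0 := min_le_right (a.length + 1) b.length
      have h1 : a.length + b.length + 1 ≤ (a.length + b.length + 1) * (w + 1) * (S + 1) := by
        rw [mul_assoc]
        exact Nat.le_mul_of_pos_right _ (by positivity)
      have h2 : (a.length + b.length + (a.length + 1 - b.length) + 1) * (w + 1) * (S + 1) ≤
          2 * ((a.length + b.length + 1) * (w + 1) * (S + 1)) := by
        calc (a.length + b.length + (a.length + 1 - b.length) + 1) * (w + 1) * (S + 1)
            ≤ (2 * (a.length + b.length + 1)) * (w + 1) * (S + 1) :=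
              Nat.mul_le_mul_right _ (Nat.mul_le_mul_right _ (by omega))
          _ = _ := by ring
      omega)⟩

noncomputable def bquoCd : Cd := bquo_ex.choose

instance compBquo {α : Type} [Enc K α] {e : α → MEnv K} {n : α → ℕ} {f g : α → List (List K)}
    {ce cn c d : Cd} {Te Tn T T' : α → ℕ} [he : Comp K e ce Te] [hn : Comp K n cn Tn]
    [h : Comp K f c T] [h' : Comp K g d T'] : Comp K (fun x => bquo (e x) (n x) (f x) (g x))
      (bquoCd.comp (ce.pair (cn.pair (c.pair d))))
      (fun x => Te x + (Tn x + (T x + T' x)) +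
        ((f x).length + (g x).length + 1) * (n x + 1) * ((e x).1 + 1)) :=
  (bquo_ex.choose_spec K).comp (f := fun x => (e x, n x, f x, g x))
    (Comp.pair (h' := Comp.pair (h' := Comp.pair)))

set_option synthInstance.maxSize 2000 in
theorem brem_ex : ∃ c, ∀ (K : Type) [Field K],
    Comp K (fun z : MEnv K × ℕ × List (List K) × List (List K) =>
      brem z.1 z.2.1 z.2.2.1 z.2.2.2) c
      (fun z => (z.2.2.1.length + z.2.2.2.length + 1) * (z.2.1 + 1) * (z.1.1 + 1)) :=
  ⟨_, fun K _ => ((inferInstance : Comp K (fun z : MEnv K × ℕ × List (List K) ×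
      List (List K) => padB z.2.1 (z.2.2.2.length - 1) (bsub z.2.1 z.2.2.1
        (bmul z.1 z.2.1 (bquo z.1 z.2.1 z.2.2.1 z.2.2.2) z.2.2.2))) _ _).congr
        (fun z => rfl)).bigO 20
    (fun z => by
      obtain ⟨⟨S, V, W⟩, w, a, b⟩ := z
      simp only [zero_add, add_zero, length_bmul, length_bquo]
      have h1 : a.length + b.length + 1 ≤ (a.length + b.length + 1) * (w + 1) * (S + 1) := by
        rw [mul_assoc]
        exact Nat.le_mul_of_pos_right _ (by positivity)
      have h2 : (a.length + 1 - b.length + b.length + 1) * (w + 1) * (S + 1) ≤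
          2 * ((a.length + b.length + 1) * (w + 1) * (S + 1)) := by
        calc (a.length + 1 - b.length + b.length + 1) * (w + 1) * (S + 1)
            ≤ (2 * (a.length + b.length + 1)) * (w + 1) * (S + 1) :=
              Nat.mul_le_mul_right _ (Nat.mul_le_mul_right _ (by omega))
          _ = _ := by ring
      have h3 : (a.length + (a.length + 1 - b.length + b.length - 1) + 1) * (w + 1) ≤
          2 * ((a.length + b.length + 1) * (w + 1) * (S + 1)) := by
        calc (a.length + (a.length + 1 - b.length + b.length - 1) + 1) * (w + 1)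
            ≤ (2 * (a.length + b.length + 1)) * (w + 1) := Nat.mul_le_mul_right _ (by omega)
          _ = 2 * ((a.length + b.length + 1) * (w + 1)) := by ring
          _ ≤ _ := Nat.mul_le_mul_left _ (Nat.le_mul_of_pos_right _ (by positivity))
      have h4 : (b.length - 1 + 1) * (w + 1) ≤ (a.length + b.length + 1) * (w + 1) * (S + 1) :=
        le_trans (Nat.mul_le_mul_right _ (by omega)) (Nat.le_mul_of_pos_right _ (by positivity))
      omega)⟩

noncomputable def bremCd : Cd := brem_ex.choose

instance compBrem {α : Type} [Enc K α] {e : α → MEnv K} {n : α → ℕ} {f g : α → List (List K)}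
    {ce cn c d : Cd} {Te Tn T T' : α → ℕ} [he : Comp K e ce Te] [hn : Comp K n cn Tn]
    [h : Comp K f c T] [h' : Comp K g d T'] : Comp K (fun x => brem (e x) (n x) (f x) (g x))
      (bremCd.comp (ce.pair (cn.pair (c.pair d))))
      (fun x => Te x + (Tn x + (T x + T' x)) +
        ((f x).length + (g x).length + 1) * (n x + 1) * ((e x).1 + 1)) :=
  (brem_ex.choose_spec K).comp (f := fun x => (e x, n x, f x, g x))
    (Comp.pair (h' := Comp.pair (h' := Comp.pair)))

end Pool.Agent.BiFac

end

section

/-!
# Search for an irreducible polynomial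
-/

set_option autoImplicit false

namespace Pool.Agent.BiFac

open Polynomial Pool.Agent.TreeRAM

/-! ### Multiplication modulo a polynomial -/

section mulm

variable {K : Type} [Field K] [DecidableEq K]

/-- product modulo `M`, cut to the length of `M` -/
def mulm (M a b : List K) : List K := takeL M.length (modN (mulN a b) M)

theorem length_mulm_le (M a b : List K) : (mulm M a b).length ≤ M.length := length_takeL_le _ _

theorem toP_mulm {M : List K} (hM : toP M ≠ 0) (a b : List K) :
    toP (mulm M a b) = (toP a * toP b) % toP M := by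
  have h : (toP (modN (mulN a b) M)).degree < M.length := by
    rw [toP_modN]
    exact (EuclideanDomain.mod_lt _ hM).trans (degree_toP_lt M)
  rw [mulm, toP_takeL h, toP_modN, toP_mulN]

omit [DecidableEq K] in
theorem dvd_mod_sub (a b : K[X]) : b ∣ a % b - a := by
  have h3 := EuclideanDomain.div_add_mod a b
  have h4 : a % b - a = b * (- (a / b)) := by linear_combination h3
  rw [h4]
  exact dvd_mul_right _ _

theorem dvd_mulm_sub {M : List K} (hM : toP M ≠ 0) {a b : List K} {f g : K[X]}
    (ha : toP M ∣ toP a - f) (hb : toP M ∣ toP b - g) : toP M ∣ toP (mulm M a b) - f * g := by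
  rw [toP_mulm hM]
  have h1 := dvd_mod_sub (toP a * toP b) (toP M)
  have h2 : (toP a * toP b) % toP M - f * g = ((toP a * toP b) % toP M - toP a * toP b) +
      (toP a * (toP b - g) + (toP a - f) * g) := by ring
  rw [h2]
  exact dvd_add h1 (dvd_add (hb.mul_left _) (ha.mul_right _))

/-- power modulo `M` -/
def powm (M : List K) : List Bool → List K → List K
  | [], _ => takeL M.length [1]
  | b :: bits, a => mulm M (bif b then a else [1]) (powm M bits (mulm M a a))

theorem length_powm_le (M : List K) (bits : List Bool) (a : List K) :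
    (powm M bits a).length ≤ M.length := by
  cases bits with
  | nil => exact length_takeL_le _ _
  | cons b bits => exact length_mulm_le _ _ _

theorem dvd_powm_sub {M : List K} (hM : toP M ≠ 0) (bits : List Bool) {a : List K} {f : K[X]}
    (ha : toP M ∣ toP a - f) : toP M ∣ toP (powm M bits a) - f ^ bval bits := by
  induction bits generalizing a f with
  | nil =>
    have h0 : M ≠ [] := by
      rintro rfl
      exact hM rfl
    have h1 : takeL M.length [(1 : K)] = [1] := by
      cases M with
      | nil => exact absurd rfl h0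
      | cons c l => simp [takeL]
    rw [powm, h1, bval_nil, pow_zero]
    simp
  | cons b bits ih =>
    rw [powm, bval_cons]
    have h1 : f ^ (2 * bval bits + b.toNat) = f ^ b.toNat * (f * f) ^ bval bits := by
      rw [pow_add, pow_mul, pow_two, mul_comm]
    rw [h1]
    refine dvd_mulm_sub hM ?_ (ih (dvd_mulm_sub hM ha ha))
    cases b
    · simp
    · simpa using ha

/-- the `q`-th power modulo `M` -/
def frobm (Q : FQ) (M : List K) (a : List K) : List K := (powm M Q.1)^[Q.2] a

theorem length_iterate_powm_le (M : List K) (bits : List Bool) (n : ℕ) {a : List K}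
    (ha : a.length ≤ M.length) : ((powm M bits)^[n] a).length ≤ M.length := by
  induction n generalizing a with
  | zero => exact ha
  | succ n ih => exact ih (length_powm_le _ _ _)

theorem dvd_frobm_sub {M : List K} (hM : toP M ≠ 0) (Q : FQ) {a : List K} {f : K[X]}
    (ha : toP M ∣ toP a - f) : toP M ∣ toP (frobm Q M a) - f ^ bval Q.1 ^ Q.2 := by
  obtain ⟨bits, k⟩ := Q
  simp only [frobm]
  induction k generalizing a f with
  | zero => simpa using ha
  | succ k ih =>
    have h := ih (dvd_powm_sub hM bits ha)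
    rw [← pow_mul, ← pow_succ'] at h
    exact h

/-- is `h - x` coprime to `M`? -/
def copTest (M h : List K) : Bool := decide ((gcdN (subP h [0, 1]) M).length = 1)

theorem copTest_iff {M h : List K} (hM : toP M ≠ 0) :
    copTest M h = true ↔ IsCoprime (toP h - X) (toP M) := by
  have hmp := gcdN_MP (a := subP h [0, 1]) (b := M) (Or.inr hM)
  have hX : toP (subP h [0, 1]) = toP h - X := by
    rw [toP_subP]
    simp
  have hd1 := gcdN_dvd_left (subP h [0, 1]) M
  have hd2 := gcdN_dvd_right (subP h [0, 1]) M
  rw [copTest, decide_eq_true_eq, hmp.len, ← hX]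
  constructor
  · intro h1
    have h2 : toP (gcdN (subP h [0, 1]) M) = 1 := by
      refine hmp.monic.natDegree_eq_zero.1 (by omega)
    refine (isRelPrime_iff_isCoprime).1 ?_
    intro d hda hdb
    have := dvd_gcdN hda hdb
    rw [h2] at this
    exact isUnit_of_dvd_one this
  · intro h1
    have hu := h1.isUnit_of_dvd' hd1 hd2
    have := hmp.monic.eq_one_of_isUnit hu
    rw [this]
    simp

/-- the main loop of the irreducibility test -/
def irrLoop (Q : FQ) (M : List K) : ℕ → List K → Bool
  | 0, _ => true
  | n + 1, h => copTest M h && irrLoop Q M n (frobm Q M h)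

theorem irrLoop_iff {M : List K} (hM : toP M ≠ 0) {Q : FQ} (n : ℕ) {h : List K} {f : K[X]}
    (hh : toP M ∣ toP h - f) : irrLoop Q M n h = true ↔
      ∀ j < n, IsCoprime (f ^ (bval Q.1 ^ Q.2) ^ j - X) (toP M) := by
  induction n generalizing h f with
  | zero => simp [irrLoop]
  | succ n ih =>
    rw [irrLoop, Bool.and_eq_true, copTest_iff hM, ih (dvd_frobm_sub hM Q hh)]
    have h1 : IsCoprime (toP h - X) (toP M) ↔ IsCoprime (f - X) (toP M) := by
      obtain ⟨c, hc⟩ := hh
      have : toP h - X = (f - X) + toP M * c := by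
        rw [← hc]
        ring
      rw [this]
      exact IsCoprime.add_mul_left_left_iff
    rw [h1]
    constructor
    · rintro ⟨h2, h3⟩ j hj
      cases j with
      | zero => simpa using h2
      | succ j =>
        have := h3 j (by omega)
        rw [← pow_mul, ← pow_succ'] at this
        exact this
    · intro h2
      refine ⟨by simpa using h2 0 (by omega), fun j hj => ?_⟩
      have := h2 (j + 1) (by omega)
      rw [← pow_mul, ← pow_succ']
      exact this

/-- the irreducibility test -/
def isIrr (Q : FQ) (M : List K) : Bool :=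
  irrLoop Q M ((M.length - 1) / 2) (frobm Q M (takeL M.length [0, 1]))

theorem isIrr_iff [Fintype K] {Q : FQ} {p : ℕ} (hQ : Q.Ok K p) {M : List K}
    (hM : MP M) (hl : 2 ≤ M.length) : isIrr Q M = true ↔ Irreducible (toP M) := by
  have hM0 : toP M ≠ 0 := hM.monic.ne_zero
  have hlen := hM.len
  have hq : bval Q.1 ^ Q.2 = Fintype.card K := by rw [hQ.bits, bval_bits, hQ.card]
  have h0 : takeL M.length [(0 : K), 1] = [0, 1] := by
    rw [takeL, List.take_of_length_le]
    simpa using hl
  have h1 : toP M ∣ toP (takeL M.length [(0 : K), 1]) - X := by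
    rw [h0]
    simp
  have h2 := dvd_frobm_sub hM0 Q h1
  rw [isIrr, irrLoop_iff hM0 _ h2, irreducible_iff_coprime hM.monic (by omega), hq]
  constructor
  · intro h j hj hj2
    have := h (j - 1) (by omega)
    rw [← pow_mul, ← pow_succ', Nat.sub_add_cancel hj] at this
    exact this
  · intro h j hj
    have := h (j + 1) (by omega) (by omega)
    rw [pow_succ', pow_mul] at this
    exact this

end mulm

/-! ### Costs -/

theorem mulm_ex : ∃ c, ∀ (K : Type) [Field K] [DecidableEq K],
    Comp K (fun z : List K × List K × List K => mulm z.1 z.2.1 z.2.2) c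
      (fun z => (z.1.length + z.2.1.length + z.2.2.length + 1) ^ 2) :=
  ⟨_, fun K _ _ => ((compTakeL (K := K) (f := fun z : List K × List K × List K => z.1.length)
    (g := fun z => modN (mulN z.2.1 z.2.2) z.1)).congr (fun _ => rfl)).bigO 4 (fun z => by
      obtain ⟨M, a, b⟩ := z
      have h1 := length_mulN a b
      simp only
      have h2 : ((mulN a b).length + 1) * (M.length + 1) ≤
        (M.length + a.length + b.length + 1) * (M.length + a.length + b.length + 1) :=
        Nat.mul_le_mul (by omega) (by omega)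
      have h3 : (a.length + 1) * (b.length + 1) ≤
        (M.length + a.length + b.length + 1) * (M.length + a.length + b.length + 1) :=
        Nat.mul_le_mul (by omega) (by omega)
      have h4 : M.length + 1 ≤
        (M.length + a.length + b.length + 1) * (M.length + a.length + b.length + 1) := by
        nlinarith [Nat.zero_le (M.length + a.length + b.length)]
      rw [pow_two]
      omega)⟩

noncomputable def mulmCd : Cd := mulm_ex.choose

instance compMulm {K : Type} [Field K] [DecidableEq K] {α : Type} [Enc K α]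
    {f g h : α → List K} {c1 c2 c3 : Cd} {T1 T2 T3 : α → ℕ} [h1 : Comp K f c1 T1]
    [h2 : Comp K g c2 T2] [h3 : Comp K h c3 T3] :
    Comp K (fun x => mulm (f x) (g x) (h x)) (mulmCd.comp (c1.pair (c2.pair c3)))
      (fun x => T1 x + (T2 x + T3 x) + ((f x).length + (g x).length + (h x).length + 1) ^ 2) :=
  (mulm_ex.choose_spec K).app2 (f' := fun x => (g x, h x)) h1 (Comp.pair (h := h2) (h' := h3))

theorem powm_ex : ∃ c, ∀ (K : Type) [Field K] [DecidableEq K],
    Comp K (fun z : List K × List Bool × List K => powm z.1 z.2.1 z.2.2) c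
      (fun z => (z.2.1.length + 1) * (z.1.length + z.2.2.length + 1) ^ 2) :=
  ⟨_, fun K _ _ => (Comp.rec1 (K := K)
    (isLeaf := fun z : List K × List Bool × List K => z.2.1.isEmpty)
    (leaf := fun z => takeL z.1.length [1])
    (next := fun z => (z.1, z.2.1.tail, mulm z.1 z.2.2 z.2.2))
    (join := fun z r => mulm z.1 (bif z.2.1.headD false then z.2.2 else [1]) r)
    (T := fun z => 30 * ((z.2.1.length + 1) * (max z.1.length z.2.2.length + 1) ^ 2))
    (fun z => z.2.1.length)
    (by
      rintro ⟨M, l, a⟩ h
      cases l with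
      | nil => rfl
      | cons b l => simp at h)
    (by
      rintro ⟨M, l, a⟩ h
      cases l with
      | nil => simp at h
      | cons b l => rfl)
    (by
      rintro ⟨M, l, a⟩ h
      cases l with
      | nil => simp at h
      | cons b l => simp)
    (by
      rintro ⟨M, l, a⟩ h
      cases l with
      | nil =>
        simp only [List.length_nil]
        have : M.length + 1 ≤ (max M.length a.length + 1) ^ 2 := by
          have := le_max_left M.length a.length
          nlinarith
        omega
      | cons b l => simp at h)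
    (by
      rintro ⟨M, l, a⟩ h
      cases l with
      | nil => simp at h
      | cons b l =>
        have h1 := length_mulm_le M a a
        have h2 := length_powm_le M l (mulm M a a)
        have h3 : ((bif b then a else [1]).length) ≤ max M.length a.length + 1 := by
          cases b
          · simp
          · simp only [cond_true]
            omega
        have h4 : (max M.length (mulm M a a).length + 1) ^ 2 ≤
            (max M.length a.length + 1) ^ 2 := Nat.pow_le_pow_left (by omega) 2
        have h5 : (M.length + a.length + a.length + 1) ^ 2 ≤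
            9 * (max M.length a.length + 1) ^ 2 := by
          calc _ ≤ (3 * (max M.length a.length + 1)) ^ 2 := Nat.pow_le_pow_left (by omega) 2
            _ = _ := by ring
        have h6 : (M.length + (bif b then a else [1]).length +
            (powm M l (mulm M a a)).length + 1) ^ 2 ≤
            16 * (max M.length a.length + 1) ^ 2 := by
          calc _ ≤ (4 * (max M.length a.length + 1)) ^ 2 := Nat.pow_le_pow_left (by omega) 2
            _ = _ := by ring
        have h7 : 1 ≤ (max M.length a.length + 1) ^ 2 := Nat.one_le_pow _ _ (by omega)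
        simp only [List.tail_cons, List.length_cons, List.headD_cons]
        have h8 : 30 * ((l.length + 1) * (max M.length (mulm M a a).length + 1) ^ 2) ≤
            30 * ((l.length + 1) * (max M.length a.length + 1) ^ 2) :=
          Nat.mul_le_mul_left _ (Nat.mul_le_mul_left _ h4)
        have h9 : 30 * ((l.length + 1 + 1) * (max M.length a.length + 1) ^ 2) =
            30 * ((l.length + 1) * (max M.length a.length + 1) ^ 2) +
              30 * (max M.length a.length + 1) ^ 2 := by ring
        rw [h9]
        cases b <;> simp only [cond_true, cond_false, List.length_cons, List.length_nil] at h6 ⊢ <;>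
          omega)).bigO 30 (fun z => by
            have h1 : (z.2.1.length + 1) * (max z.1.length z.2.2.length + 1) ^ 2 ≤
              (z.2.1.length + 1) * (z.1.length + z.2.2.length + 1) ^ 2 :=
              Nat.mul_le_mul_left _ (Nat.pow_le_pow_left (by omega) 2)
            omega)⟩

noncomputable def powmCd : Cd := powm_ex.choose

instance compPowm {K : Type} [Field K] [DecidableEq K] {α : Type} [Enc K α]
    {f h : α → List K} {g : α → List Bool} {c1 c2 c3 : Cd} {T1 T2 T3 : α → ℕ}
    [h1 : Comp K f c1 T1] [h2 : Comp K g c2 T2] [h3 : Comp K h c3 T3] :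
    Comp K (fun x => powm (f x) (g x) (h x)) (powmCd.comp (c1.pair (c2.pair c3)))
      (fun x => T1 x + (T2 x + T3 x) +
        ((g x).length + 1) * ((f x).length + (h x).length + 1) ^ 2) :=
  (powm_ex.choose_spec K).app2 (f' := fun x => (g x, h x)) h1 (Comp.pair (h := h2) (h' := h3))

theorem iterCost_le {α : Type} {g : α → α} {Tg : α → ℕ} (P : α → Prop) (B : ℕ)
    (hg : ∀ a, P a → P (g a)) (hT : ∀ a, P a → Tg a ≤ B) (n : ℕ) {a : α} (ha : P a) :
    iterCost g Tg n a ≤ n * (B + 1) := by
  induction n generalizing a with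
  | zero => simp [iterCost]
  | succ n ih =>
    have h1 := ih (hg a ha)
    have h2 := hT a ha
    rw [iterCost, Nat.succ_mul]
    omega

theorem frobm_ex : ∃ c, ∀ (K : Type) [Field K] [DecidableEq K],
    Comp K (fun z : FQ × List K × List K => frobm z.1 z.2.1 z.2.2) c
      (fun z => z.1.lg * (z.2.1.length + z.2.2.length + 1) ^ 2) :=
  ⟨_, fun K _ _ => ((Comp.iterate (K := K) (α := List K) (γ := FQ × List K × List K)
    (g := fun z a => powm z.2.1 z.1.1 a) (n := fun z => z.1.2) (a := fun z => z.2.2)).congr
      (fun _ => rfl)).bigO 5 (fun z => by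
        obtain ⟨⟨bits, k⟩, M, a⟩ := z
        have h1 := iterCost_le (g := fun b => powm M bits b)
          (Tg := fun b => (bits.length + 1) * (M.length + b.length + 1) ^ 2)
          (fun b => b.length ≤ M.length + a.length)
          ((bits.length + 1) * (M.length + (M.length + a.length) + 1) ^ 2)
          (fun b _ => (length_powm_le M bits b).trans (by omega))
          (fun b hb => Nat.mul_le_mul_left _ (Nat.pow_le_pow_left (by omega) 2)) k
          (a := a) (by simp)
        have h2 : (bits.length + 1) * (M.length + (M.length + a.length) + 1) ^ 2 ≤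
            4 * ((bits.length + 1) * (M.length + a.length + 1) ^ 2) := by
          have : (M.length + (M.length + a.length) + 1) ^ 2 ≤
              (2 * (M.length + a.length + 1)) ^ 2 := Nat.pow_le_pow_left (by omega) 2
          rw [mul_pow] at this
          nlinarith [Nat.zero_le bits.length]
        simp only [Nat.zero_add, Nat.add_zero, FQ.lg]
        have h6 : 0 < (bits.length + 1) * (M.length + a.length + 1) ^ 2 := by positivity
        have h4 : (bits.length + 1) * (k + 1) * (M.length + a.length + 1) ^ 2 =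
            k * ((bits.length + 1) * (M.length + a.length + 1) ^ 2) +
            (bits.length + 1) * (M.length + a.length + 1) ^ 2 := by ring
        rw [h4]
        generalize (bits.length + 1) * (M.length + a.length + 1) ^ 2 = A at *
        generalize (bits.length + 1) * (M.length + (M.length + a.length) + 1) ^ 2 = B at *
        have h3 : k * (B + 1) ≤ k * (4 * A + 1) := Nat.mul_le_mul_left _ (by omega)
        have h5 : k * (4 * A + 1) = 4 * (k * A) + k := by ring
        have h7 : k ≤ k * A := Nat.le_mul_of_pos_right _ h6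
        omega)⟩

noncomputable def frobmCd : Cd := frobm_ex.choose

instance compFrobm {K : Type} [Field K] [DecidableEq K] {α : Type} [Enc K α]
    {f : α → FQ} {g h : α → List K} {c1 c2 c3 : Cd} {T1 T2 T3 : α → ℕ}
    [h1 : Comp K f c1 T1] [h2 : Comp K g c2 T2] [h3 : Comp K h c3 T3] :
    Comp K (fun x => frobm (f x) (g x) (h x)) (frobmCd.comp (c1.pair (c2.pair c3)))
      (fun x => T1 x + (T2 x + T3 x) +
        (f x).lg * ((g x).length + (h x).length + 1) ^ 2) :=
  (frobm_ex.choose_spec K).app2 (f' := fun x => (g x, h x)) h1 (Comp.pair (h := h2) (h' := h3))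

theorem length_gcdN_le_max {K : Type} [Field K] [DecidableEq K] (a b : List K) :
    (gcdN a b).length ≤ max a.length b.length := by
  rw [gcdN]
  refine (length_trimP_le _).trans ?_
  rw [List.length_reverse, monicR, length_smulP]
  have h1 := length_bezR_g (trimR a.reverse) (trimR b.reverse)
  have h2 := length_trimR_le a.reverse
  have h3 := length_trimR_le b.reverse
  rw [List.length_reverse] at h2 h3
  omega

theorem copTest_ex : ∃ c, ∀ (K : Type) [Field K] [DecidableEq K],
    Comp K (fun z : List K × List K => copTest z.1 z.2) c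
      (fun z => (z.1.length + z.2.length + 1) ^ 2) :=
  ⟨_, fun K _ _ => ((Comp.eqN (K := K) (m := fun z : List K × List K =>
    (gcdN (subP z.2 [0, 1]) z.1).length) (n := fun _ => 1)).congr (fun _ => rfl)).bigO 20
      (fun z => by
        obtain ⟨M, h⟩ := z
        have h1 : (subP h [0, 1]).length = max h.length 2 := by
          rw [length_subP]
          rfl
        have h2 := length_gcdN_le_max (subP h [0, 1]) M
        rw [h1] at h2
        have h3 : (max h.length 2 + M.length + 1) ^ 2 ≤ 9 * (M.length + h.length + 1) ^ 2 := by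
          calc _ ≤ (3 * (M.length + h.length + 1)) ^ 2 := Nat.pow_le_pow_left (by omega) 2
            _ = _ := by ring
        have h4 : M.length + h.length + 1 ≤ (M.length + h.length + 1) ^ 2 :=
          Nat.le_self_pow (by norm_num) _
        simp only [h1, List.length_cons, List.length_nil]
        omega)⟩

noncomputable def copTestCd : Cd := copTest_ex.choose

instance compCopTest {K : Type} [Field K] [DecidableEq K] {α : Type} [Enc K α]
    {f g : α → List K} {c1 c2 : Cd} {T1 T2 : α → ℕ}
    [h1 : Comp K f c1 T1] [h2 : Comp K g c2 T2] :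
    Comp K (fun x => copTest (f x) (g x)) (copTestCd.comp (c1.pair c2))
      (fun x => T1 x + T2 x + ((f x).length + (g x).length + 1) ^ 2) :=
  (copTest_ex.choose_spec K).app2 h1 h2

theorem FQ.lg_pos (Q : FQ) : 0 < Q.lg := by
  unfold FQ.lg
  positivity

theorem length_frobm_le {K : Type} [Field K] [DecidableEq K] (Q : FQ) {M a : List K}
    (ha : a.length ≤ M.length) : (frobm Q M a).length ≤ M.length :=
  length_iterate_powm_le M Q.1 Q.2 ha

theorem length_frobm_le_max {K : Type} [Field K] [DecidableEq K] (Q : FQ) (M a : List K) :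
    (frobm Q M a).length ≤ max M.length a.length := by
  obtain ⟨bits, k⟩ := Q
  simp only [frobm]
  cases k with
  | zero => exact le_max_right _ _
  | succ k =>
    exact (length_iterate_powm_le M bits k (length_powm_le M bits a)).trans (le_max_left _ _)

theorem irrLoop_ex : ∃ c, ∀ (K : Type) [Field K] [DecidableEq K],
    Comp K (fun z : FQ × List K × ℕ × List K => irrLoop z.1 z.2.1 z.2.2.1 z.2.2.2) c
      (fun z => (z.2.2.1 + 1) * (z.1.lg * (z.2.1.length + z.2.2.2.length + 1) ^ 2)) :=
  ⟨_, fun K _ _ => (Comp.rec1 (K := K)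
    (isLeaf := fun z : FQ × List K × ℕ × List K => decide (z.2.2.1 = 0))
    (leaf := fun _ => true)
    (next := fun z => (z.1, z.2.1, z.2.2.1 - 1, frobm z.1 z.2.1 z.2.2.2))
    (join := fun z r => copTest z.2.1 z.2.2.2 && r)
    (T := fun z => 20 * (z.2.2.1 * (z.1.lg * (max z.2.1.length z.2.2.2.length + 1) ^ 2)))
    (fun z => z.2.2.1)
    (by
      rintro ⟨Q, M, n, h⟩ hl
      cases n with
      | zero => rfl
      | succ n => simp at hl)
    (by
      rintro ⟨Q, M, n, h⟩ hl
      cases n with
      | zero => simp at hl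
      | succ n => rfl)
    (by
      rintro ⟨Q, M, n, h⟩ hl
      cases n with
      | zero => simp at hl
      | succ n => simp)
    (by
      rintro ⟨Q, M, n, h⟩ hl
      simp)
    (by
      rintro ⟨Q, M, n, h⟩ hl
      cases n with
      | zero => simp at hl
      | succ n =>
        have h1 := length_frobm_le_max Q M h
        have h2 := FQ.lg_pos Q
        simp only [Nat.add_sub_cancel]
        have h3 : (max M.length (frobm Q M h).length + 1) ^ 2 ≤
          (max M.length h.length + 1) ^ 2 := Nat.pow_le_pow_left (by omega) 2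
        have h4 : (M.length + h.length + 1) ^ 2 ≤ 4 * (max M.length h.length + 1) ^ 2 := by
          calc _ ≤ (2 * (max M.length h.length + 1)) ^ 2 := Nat.pow_le_pow_left (by omega) 2
            _ = _ := by ring
        have h5 : 1 ≤ (max M.length h.length + 1) ^ 2 := Nat.one_le_pow _ _ (by omega)
        have h6 : Q.lg * (M.length + h.length + 1) ^ 2 ≤
          Q.lg * (4 * (max M.length h.length + 1) ^ 2) := Nat.mul_le_mul_left _ h4
        have h7 : n * (Q.lg * (max M.length (frobm Q M h).length + 1) ^ 2) ≤
          n * (Q.lg * (max M.length h.length + 1) ^ 2) :=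
          Nat.mul_le_mul_left _ (Nat.mul_le_mul_left _ h3)
        have h8 : (max M.length h.length + 1) ^ 2 ≤
          Q.lg * (max M.length h.length + 1) ^ 2 := Nat.le_mul_of_pos_left _ h2
        have h9 : Q.lg * (4 * (max M.length h.length + 1) ^ 2) =
          4 * (Q.lg * (max M.length h.length + 1) ^ 2) := by ring
        have h10 : 20 * ((n + 1) * (Q.lg * (max M.length h.length + 1) ^ 2)) =
          20 * (n * (Q.lg * (max M.length h.length + 1) ^ 2)) +
            20 * (Q.lg * (max M.length h.length + 1) ^ 2) := by ring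
        rw [h10]
        omega)).bigO 20 (fun z => by
          have h1 : z.2.2.1 * (z.1.lg * (max z.2.1.length z.2.2.2.length + 1) ^ 2) ≤
            (z.2.2.1 + 1) * (z.1.lg * (z.2.1.length + z.2.2.2.length + 1) ^ 2) :=
            Nat.mul_le_mul (by omega) (Nat.mul_le_mul_left _ (Nat.pow_le_pow_left (by omega) 2))
          omega)⟩

noncomputable def irrLoopCd : Cd := irrLoop_ex.choose

instance compIrrLoop {K : Type} [Field K] [DecidableEq K] {α : Type} [Enc K α]
    {f : α → FQ} {g h : α → List K} {n : α → ℕ} {c1 c2 c3 c4 : Cd} {T1 T2 T3 T4 : α → ℕ}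
    [h1 : Comp K f c1 T1] [h2 : Comp K g c2 T2] [h3 : Comp K n c3 T3] [h4 : Comp K h c4 T4] :
    Comp K (fun x => irrLoop (f x) (g x) (n x) (h x))
      (irrLoopCd.comp (c1.pair (c2.pair (c3.pair c4))))
      (fun x => T1 x + (T2 x + (T3 x + T4 x)) +
        (n x + 1) * ((f x).lg * ((g x).length + (h x).length + 1) ^ 2)) :=
  (irrLoop_ex.choose_spec K).app2 (f' := fun x => (g x, n x, h x)) h1
    (Comp.pair (h := h2) (h' := Comp.pair (h := h3) (h' := h4)))

theorem isIrr_ex : ∃ c, ∀ (K : Type) [Field K] [DecidableEq K],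
    Comp K (fun z : FQ × List K => isIrr z.1 z.2) c
      (fun z => (z.2.length + 1) ^ 3 * z.1.lg) :=
  ⟨_, fun K _ _ => ((compIrrLoop (K := K) (f := fun z : FQ × List K => z.1)
    (g := fun z => z.2) (n := fun z => (z.2.length - 1) / 2)
    (h := fun z => frobm z.1 z.2 (takeL z.2.length [0, 1]))).congr (fun _ => rfl)).bigO 50
      (fun z => by
        obtain ⟨Q, M⟩ := z
        have h1 := length_takeL_le M.length [(0 : K), 1]
        have h2 := length_frobm_le Q h1
        have h3 := FQ.lg_pos Q
        simp only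
        have h4 : (M.length + (takeL M.length [(0 : K), 1]).length + 1) ^ 2 ≤
            4 * (M.length + 1) ^ 2 := by
          calc _ ≤ (2 * (M.length + 1)) ^ 2 := Nat.pow_le_pow_left (by omega) 2
            _ = _ := by ring
        have h5 : (M.length + (frobm Q M (takeL M.length [(0 : K), 1])).length + 1) ^ 2 ≤
            4 * (M.length + 1) ^ 2 := by
          calc _ ≤ (2 * (M.length + 1)) ^ 2 := Nat.pow_le_pow_left (by omega) 2
            _ = _ := by ring
        have h6 : Q.lg * (M.length + (takeL M.length [(0 : K), 1]).length + 1) ^ 2 ≤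
            4 * ((M.length + 1) ^ 3 * Q.lg) := by
          calc _ ≤ Q.lg * (4 * (M.length + 1) ^ 2) := Nat.mul_le_mul_left _ h4
            _ = 1 * (4 * ((M.length + 1) ^ 2 * Q.lg)) := by ring
            _ ≤ (M.length + 1) * (4 * ((M.length + 1) ^ 2 * Q.lg)) :=
                Nat.mul_le_mul_right _ (by omega)
            _ = _ := by ring
        have h7 : ((M.length - 1) / 2 + 1) * (Q.lg * (M.length +
            (frobm Q M (takeL M.length [(0 : K), 1])).length + 1) ^ 2) ≤
            4 * ((M.length + 1) ^ 3 * Q.lg) := by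
          calc _ ≤ (M.length + 1) * (Q.lg * (4 * (M.length + 1) ^ 2)) :=
                Nat.mul_le_mul (by omega) (Nat.mul_le_mul_left _ h5)
            _ = _ := by ring
        have h8 : M.length + 1 ≤ (M.length + 1) ^ 3 * Q.lg := by
          calc M.length + 1 ≤ (M.length + 1) ^ 3 := Nat.le_self_pow (by norm_num) _
            _ ≤ _ := Nat.le_mul_of_pos_right _ h3
        omega)⟩

noncomputable def isIrrCd : Cd := isIrr_ex.choose

instance compIsIrr {K : Type} [Field K] [DecidableEq K] {α : Type} [Enc K α]
    {f : α → FQ} {g : α → List K} {c1 c2 : Cd} {T1 T2 : α → ℕ}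
    [h1 : Comp K f c1 T1] [h2 : Comp K g c2 T2] :
    Comp K (fun x => isIrr (f x) (g x)) (isIrrCd.comp (c1.pair c2))
      (fun x => T1 x + T2 x + ((g x).length + 1) ^ 3 * (f x).lg) :=
  (isIrr_ex.choose_spec K).app2 h1 h2

/-! ### The search -/

/-- the first irreducible polynomial of degree `e` among `8 * e` random ones, or `[]` -/
def findIrr {K : Type} [Field K] [DecidableEq K] (Q : FQ) (e : ℕ) (tape : List K) : List K :=
  (((chunks (8 * e) e tape).map (fun l => l ++ [1])).filter (isIrr Q)).headD []

theorem length_of_mem_chunks {α : Type} {n e : ℕ} {l c : List α} (h : c ∈ chunks n e l) :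
    c.length ≤ e := by
  induction n generalizing l with
  | zero => simp [chunks] at h
  | succ n ih =>
    rw [chunks, List.mem_cons] at h
    rcases h with rfl | h
    · exact List.length_take_le _ _
    · exact ih h

theorem length_of_mem_chunks_eq {α : Type} {n e : ℕ} {l c : List α} (hl : l.length = n * e)
    (h : c ∈ chunks n e l) : c.length = e := by
  induction n generalizing l with
  | zero => simp [chunks] at h
  | succ n ih =>
    rw [chunks, List.mem_cons] at h
    rw [Nat.succ_mul] at hl
    rcases h with rfl | h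
    · rw [List.length_take]
      omega
    · exact ih (by rw [List.length_drop]; omega) h

theorem headD_mem_of_ne {α : Type} {l : List α} {a : α} (h : l.headD a ≠ a) : l.headD a ∈ l := by
  cases l with
  | nil => exact absurd rfl h
  | cons x l => exact List.mem_cons_self

theorem findIrr_spec {K : Type} [Field K] [DecidableEq K] [Fintype K] {Q : FQ} {p : ℕ}
    (hQ : Q.Ok K p) {e : ℕ} (he : 0 < e) {tape : List K} (ht : tape.length = 8 * e * e)
    (h : findIrr Q e tape ≠ []) :
    MP (findIrr Q e tape) ∧ Irreducible (toP (findIrr Q e tape)) ∧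
      (findIrr Q e tape).length = e + 1 := by
  have h1 : findIrr Q e tape ∈
      (((chunks (8 * e) e tape).map (fun l => l ++ [1])).filter (isIrr Q)) := headD_mem_of_ne h
  generalize findIrr Q e tape = M at h1 ⊢
  rw [List.mem_filter, List.mem_map] at h1
  obtain ⟨⟨c, hc, rfl⟩, h2⟩ := h1
  have h3 : c.length = e := length_of_mem_chunks_eq ht hc
  have h4 : (c ++ [(1 : K)]).length = e + 1 := by simp [h3]
  exact ⟨MP_append_one c, (isIrr_iff hQ (MP_append_one c) (by omega)).1 h2, h4⟩

theorem pr_not_irreducible {K : Type} [Field K] [Fintype K] {e : ℕ} (he : 0 < e) :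
    pr K e (fun l => ¬ Irreducible (toP (l ++ [1]))) ≤ 1 - 1 / (2 * (e : ℝ)) := by
  have h1 := card_irreducible_ge (K := K) he
  have h2 : 1 / (2 * (e : ℝ)) ≤ pr K e (fun l => Irreducible (toP (l ++ [1]))) := by
    have he' : (0 : ℝ) < 2 * (e : ℝ) := by positivity
    unfold pr
    rw [div_le_div_iff₀ he' (pow_pos pr_q_pos e)]
    have h3 : Nat.card {ρ : Fin e → K // Irreducible (toP (List.ofFn ρ ++ [1]))} =
        Nat.card {c : Fin e → K // Irreducible (mpoly c)} := by
      have h4 : ∀ ρ : Fin e → K, toP (List.ofFn ρ ++ [1]) = mpoly ρ := by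
        intro ρ
        rw [toP_append_one (n := e) List.length_ofFn]
        congr 1
        funext i
        rw [List.getD_eq_getElem _ _ (by rw [List.length_ofFn]; exact i.2)]
        simp
      simp only [h4]
    rw [h3]
    have h5 : ((Fintype.card K : ℝ)) ^ e ≤
        2 * (e : ℝ) * (Nat.card {c : Fin e → K // Irreducible (mpoly c)} : ℝ) := by
      exact_mod_cast h1
    linarith
  have h3 := pr_not (K := K) e (fun l => Irreducible (toP (l ++ [1])))
  rw [h3]
  linarith

theorem findIrr_pr {K : Type} [Field K] [DecidableEq K] [Fintype K] {Q : FQ} {p : ℕ}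
    (hQ : Q.Ok K p) {e : ℕ} (he : 0 < e) :
    pr K (8 * e * e) (fun tape => findIrr Q e tape = []) ≤ 1 / 50 := by
  have h1 := pr_chunks (K := K) (n := 8 * e) (m := e) (pr_not_irreducible (K := K) he)
  refine le_trans (pr_mono ?_) (le_trans h1 ?_)
  · intro l hl h i hi hirr
    have hlen := length_chunks (8 * e) e l
    have hmem : (l.drop (i * e)).take e ∈ chunks (8 * e) e l := by
      rw [← getD_chunks (8 * e) e l hi, List.getD_eq_getElem _ _ (by rw [hlen]; exact hi)]
      exact List.getElem_mem _
    have h3 := length_of_mem_chunks_eq hl hmem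
    generalize (l.drop (i * e)).take e = c at *
    have h4 : c ++ [(1 : K)] ∈
        ((chunks (8 * e) e l).map (fun l => l ++ [1])).filter (isIrr Q) := by
      rw [List.mem_filter, List.mem_map]
      refine ⟨⟨c, hmem, rfl⟩, (isIrr_iff hQ (MP_append_one c) ?_).2 hirr⟩
      rw [List.length_append, h3]
      simp only [List.length_cons, List.length_nil]
      omega
    unfold findIrr at h
    generalize hL : ((chunks (8 * e) e l).map (fun l => l ++ [1])).filter (isIrr Q) = L at *
    cases L with
    | nil => simp at h4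
    | cons x L =>
      rw [List.headD_cons] at h
      have h5 : ([] : List K) ∈
          ((chunks (8 * e) e l).map (fun l => l ++ [1])).filter (isIrr Q) := by
        rw [hL, ← h]
        exact List.mem_cons_self
      rw [List.mem_filter, List.mem_map] at h5
      obtain ⟨⟨c', -, h6⟩, -⟩ := h5
      simp at h6
  · have he' : (1 : ℝ) ≤ e := by exact_mod_cast he
    have h2 : 1 - 1 / (2 * (e : ℝ)) ≤ Real.exp (-(1 / (2 * (e : ℝ)))) := by
      have := Real.add_one_le_exp (-(1 / (2 * (e : ℝ))))
      linarith
    have h3 : 0 ≤ 1 - 1 / (2 * (e : ℝ)) := by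
      rw [sub_nonneg, div_le_one (by positivity)]
      linarith
    calc (1 - 1 / (2 * (e : ℝ))) ^ (8 * e) ≤ (Real.exp (-(1 / (2 * (e : ℝ))))) ^ (8 * e) :=
          pow_le_pow_left₀ h3 h2 _
      _ = Real.exp (-4) := by
          rw [← Real.exp_nat_mul]
          congr 1
          push_cast
          field_simp
          norm_num
      _ ≤ 1 / 50 := by
          have h4 : (2.7182818283 : ℝ) < Real.exp 1 := Real.exp_one_gt_d9
          have h5 : Real.exp 4 = Real.exp 1 ^ 4 := by
            rw [← Real.exp_nat_mul]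
            norm_num
          rw [Real.exp_neg, h5, one_div]
          apply inv_anti₀ (by norm_num)
          calc (50 : ℝ) ≤ 2.7182818283 ^ 4 := by norm_num
            _ ≤ Real.exp 1 ^ 4 := pow_le_pow_left₀ (by norm_num) h4.le 4

theorem findIrr_ex : ∃ c, ∀ (K : Type) [Field K] [DecidableEq K],
    Comp K (fun z : FQ × ℕ × List K => findIrr z.1 z.2.1 z.2.2) c
      (fun z => (z.2.1 + 2) ^ 4 * z.1.lg) :=
  ⟨_, fun K _ _ => by
    have h1 : Comp K (fun z : FQ × ℕ × List K => chunks (8 * z.2.1) z.2.1 z.2.2) _ _ :=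
      compChunks
    have h2 : Comp K (fun z : FQ × ℕ × List K =>
        (chunks (8 * z.2.1) z.2.1 z.2.2).map (fun l => l ++ [1])) _ _ :=
      Comp.map (g := fun _ l => l ++ [1]) (h := h1)
    have h3 : Comp K (fun z : FQ × ℕ × List K =>
        ((chunks (8 * z.2.1) z.2.1 z.2.2).map (fun l => l ++ [1])).filter
          (fun l => isIrr z.1 l)) _ _ :=
      Comp.filter (g := fun (z : FQ × ℕ × List K) (l : List K) => isIrr z.1 l) (h := h2)
    exact ((Comp.headD (h := h3) (g := fun _ => ([] : List K))).congr (fun _ => rfl)).bigO 100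
      (fun z => by
        obtain ⟨Q, e, t⟩ := z
        have h4 : ((chunks (8 * e) e t).map (fun b => 0 + (0 + 0) + b.length + 1)).sum ≤
            8 * e * (e + 1) := by
          refine (List.sum_le_card_nsmul _ (e + 1) ?_).trans (le_of_eq ?_)
          · intro x hx
            obtain ⟨b, hb, rfl⟩ := List.mem_map.1 hx
            have := length_of_mem_chunks hb
            omega
          · rw [List.length_map, length_chunks, smul_eq_mul]
        have h5 : (((chunks (8 * e) e t).map (fun l => l ++ [(1 : K)])).map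
            (fun b => 0 + 0 + (b.length + 1) ^ 3 * Q.lg + 1)).sum ≤
            8 * e * ((e + 2) ^ 3 * Q.lg + 1) := by
          refine (List.sum_le_card_nsmul _ ((e + 2) ^ 3 * Q.lg + 1) ?_).trans (le_of_eq ?_)
          · intro x hx
            obtain ⟨b, hb, rfl⟩ := List.mem_map.1 hx
            obtain ⟨b', hb', rfl⟩ := List.mem_map.1 hb
            have h6 := length_of_mem_chunks hb'
            have h7 : (b' ++ [(1 : K)]).length + 1 ≤ e + 2 := by
              rw [List.length_append]
              simp only [List.length_cons, List.length_nil]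
              omega
            have h8 : ((b' ++ [(1 : K)]).length + 1) ^ 3 * Q.lg ≤ (e + 2) ^ 3 * Q.lg :=
              Nat.mul_le_mul_right _ (Nat.pow_le_pow_left h7 3)
            omega
          · rw [List.length_map, List.length_map, length_chunks, smul_eq_mul]
        have h6 : 8 * e * ((e + 2) ^ 3 * Q.lg + 1) ≤ 8 * ((e + 2) ^ 4 * Q.lg) + 8 * e := by
          calc 8 * e * ((e + 2) ^ 3 * Q.lg + 1) = 8 * (e * ((e + 2) ^ 3 * Q.lg)) + 8 * e := by ring
            _ ≤ 8 * ((e + 2) * ((e + 2) ^ 3 * Q.lg)) + 8 * e :=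
              Nat.add_le_add_right (Nat.mul_le_mul_left _ (Nat.mul_le_mul_right _ (by omega))) _
            _ = _ := by ring
        have h7 : (e + 2) ^ 2 ≤ (e + 2) ^ 4 * Q.lg := by
          calc (e + 2) ^ 2 ≤ (e + 2) ^ 4 := Nat.pow_le_pow_right (by omega) (by norm_num)
            _ ≤ _ := Nat.le_mul_of_pos_right _ Q.lg_pos
        simp only
        generalize (e + 2) ^ 4 * Q.lg = A at *
        nlinarith [h4, h5, h6, h7])⟩

noncomputable def findIrrCd : Cd := findIrr_ex.choose

instance compFindIrr {K : Type} [Field K] [DecidableEq K] {α : Type} [Enc K α]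
    {f : α → FQ} {n : α → ℕ} {g : α → List K} {c1 c2 c3 : Cd} {T1 T2 T3 : α → ℕ}
    [h1 : Comp K f c1 T1] [h2 : Comp K n c2 T2] [h3 : Comp K g c3 T3] :
    Comp K (fun x => findIrr (f x) (n x) (g x)) (findIrrCd.comp (c1.pair (c2.pair c3)))
      (fun x => T1 x + (T2 x + T3 x) + (n x + 2) ^ 4 * (f x).lg) :=
  (findIrr_ex.choose_spec K).app2 (f' := fun x => (n x, g x)) h1 (Comp.pair (h := h2) (h' := h3))

end Pool.Agent.BiFac

end

section

/-!
# Transposition, Taylor shift and shear of bivariate polynomials
-/

set_option autoImplicit false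

namespace Pool.Agent.BiFac

open Polynomial Pool.Agent.TreeRAM

variable {K : Type} [Field K]

/-! ### Transposition -/

/-- `w` rows; row `i` is the list of the entries `i` of the given rows -/
def transB (w : ℕ) : List (List K) → List (List K)
  | [] => List.replicate w []
  | r :: a => List.zipWith (fun x l => x :: l) (padTo w r) (transB w a)

theorem length_transB (w : ℕ) (a : List (List K)) : (transB w a).length = w := by
  induction a with
  | nil => simp [transB]
  | cons r a ih => simp [transB, length_padTo, ih]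

theorem rows_transB (w : ℕ) (a : List (List K)) : ∀ r ∈ transB w a, r.length = a.length := by
  induction a with
  | nil =>
    intro r hr
    rw [transB, List.mem_replicate] at hr
    rw [hr.2]
    rfl
  | cons s a ih =>
    intro r hr
    rw [transB, List.mem_iff_getElem] at hr
    obtain ⟨i, hi, rfl⟩ := hr
    rw [List.getElem_zipWith, List.length_cons, List.length_cons, ih _ (List.getElem_mem _)]

theorem getD_transB (w : ℕ) (a : List (List K)) {i : ℕ} (hi : i < w) (j : ℕ) :
    ((transB w a).getD i []).getD j 0 = (a.getD j []).getD i 0 := by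
  induction a generalizing j with
  | nil =>
    rw [transB, List.getD_replicate _ hi]
    simp
  | cons s a ih =>
    have h1 : i < (padTo w s).length := by rw [length_padTo]; exact hi
    have h2 : i < (transB w a).length := by rw [length_transB]; exact hi
    have h3 : i < (List.zipWith (fun x l => x :: l) (padTo w s) (transB w a)).length := by
      rw [List.length_zipWith]; omega
    have h4 : (transB w (s :: a)).getD i [] = (padTo w s)[i] :: (transB w a)[i] := by
      rw [transB, List.getD_eq_getElem _ _ h3, List.getElem_zipWith]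
    rw [h4]
    cases j with
    | zero =>
      rw [List.getD_cons_zero, List.getD_cons_zero, ← List.getD_eq_getElem _ 0 h1, getD_padTo,
        if_pos hi]
    | succ j =>
      rw [List.getD_cons_succ, List.getD_cons_succ, ← ih j, List.getD_eq_getElem _ _ h2]

theorem transB_ex : ∃ c, ∀ (K : Type) [Field K],
    Comp K (fun z : ℕ × List (List K) => transB z.1 z.2) c
      (fun z => (z.2.length + 1) * (z.1 + 1)) :=
  ⟨_, fun K _ => (Comp.rec1 (K := K)
    (isLeaf := fun z : ℕ × List (List K) => z.2.isEmpty)
    (leaf := fun z => List.replicate z.1 ([] : List K))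
    (next := fun z => (z.1, z.2.tail))
    (join := fun z r => List.zipWith (fun x l => x :: l) (padTo z.1 (z.2.headD [])) r)
    (T := fun z => (z.2.length + 1) * (3 * (z.1 + 1)))
    (fun z => z.2.length)
    (by rintro ⟨w, a⟩ h; cases a <;> simp_all [transB])
    (by rintro ⟨w, a⟩ h; cases a <;> simp_all [transB])
    (by rintro ⟨w, a⟩ h; cases a <;> simp_all)
    (by rintro ⟨w, a⟩ h; cases a <;> simp_all; omega)
    (by
      rintro ⟨w, a⟩ h
      cases a with
      | nil => simp_all
      | cons r a =>
        simp only [List.tail_cons, List.length_cons, zero_add, add_zero, List.map_const',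
          List.sum_replicate, smul_eq_mul, mul_one, List.length_zip, length_padTo, length_transB,
          min_self]
        have e2 : (a.length + 1 + 1) * (3 * (w + 1)) =
          (a.length + 1) * (3 * (w + 1)) + 3 * (w + 1) := by ring
        omega)).bigO 3 (fun z => by nlinarith [Nat.zero_le (z.2.length * z.1)])⟩

noncomputable def transBCd : Cd := transB_ex.choose

instance compTransB {α : Type} [Enc K α] {w : α → ℕ} {f : α → List (List K)}
    {c2 c3 : Cd} {T2 T3 : α → ℕ} [h2 : Comp K w c2 T2] [h3 : Comp K f c3 T3] :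
    Comp K (fun x => transB (w x) (f x)) (transBCd.comp (c2.pair c3))
      (fun x => T2 x + T3 x + ((f x).length + 1) * (w x + 1)) :=
  (transB_ex.choose_spec K).app2 h2 h3

/-! ### Taylor shift -/

/-- `(X + c) ^ (2 ^ t)` with precision `w` -/
def shearPw (E : MEnv K) (w : ℕ) (c : List K) : ℕ → List (List K)
  | 0 => [padTo w c, [1]]
  | t + 1 => bmul E w (shearPw E w c t) (shearPw E w c t)

theorem length_shearPw (E : MEnv K) (w : ℕ) (c : List K) (t : ℕ) :
    (shearPw E w c t).length = 2 ^ t + 1 := by
  induction t with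
  | zero => rfl
  | succ t ih => rw [shearPw, length_bmul, ih, pow_succ]; omega

theorem cg_shearPw {E : MEnv K} (hE : E.Good) {w : ℕ} {c : List K} {n : ℕ} (t : ℕ)
    (hn : 2 ^ t ≤ n) (hf : Fits E (2 * n + 2) w) :
    Cg w (toB (shearPw E w c t)) ((X + C (toP c)) ^ (2 ^ t)) := by
  induction t with
  | zero =>
    have h := (cg_padTo w c).add (Cg.refl w (X : K[X][X]))
    have e : toB (shearPw E w c 0) = C (toP (padTo w c)) + X := by
      simp [shearPw]
    rw [e, pow_zero, pow_one, add_comm X]
    exact h
  | succ t ih =>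
    have h1 : 2 ^ t ≤ n := le_trans (Nat.pow_le_pow_right (by omega) (by omega)) hn
    have h2 := ih h1
    rw [pow_succ] at hn
    rw [shearPw, pow_succ, pow_mul, sq]
    refine (cg_bmul hE (hf.mono ?_)).trans (h2.mul h2)
    rw [length_shearPw]
    omega

theorem shearPw_ex : ∃ c, ∀ (K : Type) [Field K],
    Comp K (fun z : MEnv K × ℕ × List K × ℕ => shearPw z.1 z.2.1 z.2.2.1 z.2.2.2) c
      (fun z => 2 ^ z.2.2.2 * ((z.2.1 + 1) * (z.1.1 + 1))) :=
  ⟨_, fun K _ => (Comp.rec1 (K := K)
    (isLeaf := fun z : MEnv K × ℕ × List K × ℕ => decide (z.2.2.2 = 0))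
    (leaf := fun z => [padTo z.2.1 z.2.2.1, [1]])
    (next := fun z => (z.1, z.2.1, z.2.2.1, z.2.2.2 - 1))
    (join := fun z r => bmul z.1 z.2.1 r r)
    (T := fun z => 2 ^ z.2.2.2 * (7 * ((z.2.1 + 1) * (z.1.1 + 1))))
    (fun z => z.2.2.2)
    (by rintro ⟨E, w, c, t⟩ h; cases t <;> simp_all [shearPw])
    (by rintro ⟨E, w, c, t⟩ h; cases t <;> simp_all [shearPw])
    (by rintro ⟨E, w, c, t⟩ h; cases t <;> simp_all)
    (by
      rintro ⟨E, w, c, t⟩ h
      cases t with
      | zero =>
        simp only [pow_zero, one_mul, add_zero, zero_add]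
        nlinarith [Nat.zero_le (w * E.1), Nat.zero_le w, Nat.zero_le E.1]
      | succ t => simp_all)
    (by
      rintro ⟨E, w, c, t⟩ h
      cases t with
      | zero => simp_all
      | succ t =>
        simp only [Nat.add_sub_cancel, length_shearPw, zero_add, add_zero]
        have e1 : 1 ≤ (w + 1) * (E.1 + 1) := Nat.mul_pos (by omega) (by omega)
        have e2 : 1 ≤ 2 ^ t := Nat.one_le_two_pow
        rw [mul_assoc, pow_succ]
        generalize (w + 1) * (E.1 + 1) = m at *
        generalize 2 ^ t = q at *
        nlinarith [Nat.mul_le_mul e1 e2, Nat.mul_le_mul_left m e2])).bigO 7 (fun z => by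
          nlinarith [Nat.zero_le (2 ^ z.2.2.2 * ((z.2.1 + 1) * (z.1.1 + 1)))])⟩

noncomputable def shearPwCd : Cd := shearPw_ex.choose

instance compShearPw {α : Type} [Enc K α] {E : α → MEnv K} {w t : α → ℕ} {f : α → List K}
    {c1 c2 c3 c4 : Cd} {T1 T2 T3 T4 : α → ℕ} [h1 : Comp K E c1 T1] [h2 : Comp K w c2 T2]
    [h3 : Comp K f c3 T3] [h4 : Comp K t c4 T4] :
    Comp K (fun x => shearPw (E x) (w x) (f x) (t x))
      (shearPwCd.comp (c1.pair (c2.pair (c3.pair c4))))
      (fun x => T1 x + (T2 x + (T3 x + T4 x)) + 2 ^ t x * ((w x + 1) * ((E x).1 + 1))) :=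
  (shearPw_ex.choose_spec K).comp (Comp.pair (h := h1) (h' := Comp.pair (h := h2)
    (h' := Comp.pair (h := h3) (h' := h4))))

theorem shear_two_pow_clog_pred {n : ℕ} (hn : 1 < n) :
    2 ^ (Nat.clog 2 n - 1) < n ∧ n ≤ 2 * 2 ^ (Nat.clog 2 n - 1) := by
  have h1 := Nat.pow_pred_clog_lt_self (b := 2) (by omega) hn
  have h2 := Nat.le_pow_clog (b := 2) (by omega) n
  have h3 : 0 < Nat.clog 2 n := Nat.clog_pos (by omega) hn
  refine ⟨h1, ?_⟩
  obtain ⟨k, hk⟩ : ∃ k, Nat.clog 2 n = k + 1 := ⟨Nat.clog 2 n - 1, by omega⟩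
  rw [hk, pow_succ] at h2
  rw [hk, Nat.add_sub_cancel]
  omega

/-- substitution `X ↦ X + c` for the outer variable -/
def taylorB (E : MEnv K) (w : ℕ) (c : List K) (P : List (List K)) : List (List K) :=
  if h : P.length ≤ 1 then P.map (fun r => padTo w r) else
    badd w (taylorB E w c (P.take (2 ^ (Nat.clog 2 P.length - 1))))
      (bmul E w (shearPw E w c (Nat.clog 2 P.length - 1))
        (taylorB E w c (P.drop (2 ^ (Nat.clog 2 P.length - 1)))))
termination_by P.length
decreasing_by
  · have := shear_two_pow_clog_pred (n := P.length) (by omega)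
    rw [List.length_take]
    omega
  · have := shear_two_pow_clog_pred (n := P.length) (by omega)
    have h1 : 1 ≤ 2 ^ (Nat.clog 2 P.length - 1) := Nat.one_le_two_pow
    rw [List.length_drop]
    omega

theorem taylorB_small (E : MEnv K) (w : ℕ) (c : List K) {P : List (List K)} (h : P.length ≤ 1) :
    taylorB E w c P = P.map (fun r => padTo w r) := by
  rw [taylorB, dif_pos h]

theorem taylorB_big (E : MEnv K) (w : ℕ) (c : List K) {P : List (List K)} (h : ¬ P.length ≤ 1) :
    taylorB E w c P = badd w (taylorB E w c (P.take (2 ^ (Nat.clog 2 P.length - 1))))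
      (bmul E w (shearPw E w c (Nat.clog 2 P.length - 1))
        (taylorB E w c (P.drop (2 ^ (Nat.clog 2 P.length - 1))))) := by
  rw [taylorB, dif_neg h]

theorem length_taylorB (E : MEnv K) (w : ℕ) (c : List K) (P : List (List K)) :
    (taylorB E w c P).length = P.length := by
  induction hn : P.length using Nat.strong_induction_on generalizing P with
  | _ n ih =>
    by_cases h : P.length ≤ 1
    · rw [taylorB_small E w c h, List.length_map, hn]
    · obtain ⟨h1, h2⟩ := shear_two_pow_clog_pred (n := P.length) (by omega)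
      have h3 : 1 ≤ 2 ^ (Nat.clog 2 P.length - 1) := Nat.one_le_two_pow
      rw [taylorB_big E w c h, length_badd, length_bmul, length_shearPw,
        ih _ (by rw [List.length_take]; omega) (P.take (2 ^ (Nat.clog 2 P.length - 1))) rfl,
        ih _ (by rw [List.length_drop]; omega) (P.drop (2 ^ (Nat.clog 2 P.length - 1))) rfl,
        List.length_take, List.length_drop]
      omega

theorem rows_taylorB (E : MEnv K) (w : ℕ) (c : List K) (P : List (List K)) :
    ∀ r ∈ taylorB E w c P, r.length = w := by
  by_cases h : P.length ≤ 1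
  · rw [taylorB_small E w c h]
    intro r hr
    rw [List.mem_map] at hr
    obtain ⟨s, -, rfl⟩ := hr
    exact length_padTo _ _
  · rw [taylorB_big E w c h]
    exact rows_badd _ _ _

theorem cg_taylorB_aux {E : MEnv K} (hE : E.Good) {w : ℕ} {c : List K} {N : ℕ}
    (hf : Fits E (2 * N + 2) w) (P : List (List K)) (hN : P.length ≤ N) :
    Cg w (toB (taylorB E w c P)) ((toB P).comp (X + C (toP c))) := by
  induction hn : P.length using Nat.strong_induction_on generalizing P with
  | _ n ih =>
    by_cases h : P.length ≤ 1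
    · rw [taylorB_small E w c h]
      have e : (toB P).comp (X + C (toP c)) = toB P := by
        match P, h with
        | [], _ => simp
        | [r], _ => simp
      rw [e]
      exact cg_map_padTo w P
    · obtain ⟨h1, h2⟩ := shear_two_pow_clog_pred (n := P.length) (by omega)
      have h3 : 1 ≤ 2 ^ (Nat.clog 2 P.length - 1) := Nat.one_le_two_pow
      rw [taylorB_big E w c h]
      have i1 := ih _ (by rw [List.length_take]; omega)
        (P.take (2 ^ (Nat.clog 2 P.length - 1))) (by rw [List.length_take]; omega) rfl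
      have i2 := ih _ (by rw [List.length_drop]; omega)
        (P.drop (2 ^ (Nat.clog 2 P.length - 1))) (by rw [List.length_drop]; omega) rfl
      have i3 := cg_shearPw hE (c := c) (Nat.clog 2 P.length - 1) (n := N) (by omega) hf
      have i4 := cg_bmul hE (w := w) (a := shearPw E w c (Nat.clog 2 P.length - 1))
        (b := taylorB E w c (P.drop (2 ^ (Nat.clog 2 P.length - 1)))) (hf.mono (by
          rw [length_shearPw, length_taylorB, List.length_drop]; omega))
      refine (cg_badd w _ _).trans ?_
      have e : (toB P).comp (X + C (toP c)) =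
          (toB (P.take (2 ^ (Nat.clog 2 P.length - 1)))).comp (X + C (toP c)) +
          (X + C (toP c)) ^ (2 ^ (Nat.clog 2 P.length - 1)) *
          (toB (P.drop (2 ^ (Nat.clog 2 P.length - 1)))).comp (X + C (toP c)) := by
        conv_lhs => rw [← List.take_append_drop (2 ^ (Nat.clog 2 P.length - 1)) P, toB_append]
        rw [List.length_take, min_eq_left h1.le, add_comp, mul_comp, X_pow_comp]
      rw [e]
      exact i1.add (i4.trans (i3.mul i2))

theorem cg_taylorB {E : MEnv K} (hE : E.Good) {w : ℕ} {c : List K} {P : List (List K)}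
    (hf : Fits E (8 * (P.length + 1)) w) :
    Cg w (toB (taylorB E w c P)) ((toB P).comp (X + C (toP c))) :=
  cg_taylorB_aux hE (N := P.length) (hf.mono (by omega)) P le_rfl

/-- The exponent of the largest power of two below `n`. -/
def shearLgp (n : ℕ) : ℕ := Nat.clog 2 n - 1

theorem shearLgp_ex : ∃ c, ∀ (K : Type) [Field K],
    Comp K (fun P : List (List K) => shearLgp P.length) c (fun P => P.length) :=
  ⟨_, fun K _ => (Comp.pred (K := K) (f := fun P : List (List K) => Nat.clog 2 P.length)
    (h := Comp.clog (h := Comp.length (h := Comp.id)))).bigO 2 (fun P => by omega)⟩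

noncomputable def shearLgpCd : Cd := shearLgp_ex.choose

theorem compShearLgp {α : Type} [Enc K α] {f : α → List (List K)} {c : Cd} {T : α → ℕ}
    (h : Comp K f c T) : Comp K (fun x => shearLgp (f x).length) (shearLgpCd.comp c)
      (fun x => T x + (f x).length) :=
  (shearLgp_ex.choose_spec K).app1 h

theorem shear_two_pow_lgp {n : ℕ} (hn : 1 < n) : 2 ^ shearLgp n < n ∧ n ≤ 2 * 2 ^ shearLgp n :=
  shear_two_pow_clog_pred hn

theorem shear_two_pow_lgp_le (n : ℕ) : 2 ^ shearLgp n ≤ n + 1 := by
  by_cases h : 1 < n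
  · exact (shear_two_pow_lgp h).1.le.trans (by omega)
  · have : shearLgp n = 0 := by
      have : Nat.clog 2 n = 0 := Nat.clog_of_right_le_one (by omega) 2
      rw [shearLgp, this]
    rw [this]
    omega

theorem shearTake_ex : ∃ c, ∀ (K : Type) [Field K],
    Comp K (fun P : List (List K) => P.take (2 ^ shearLgp P.length)) c (fun P => P.length) :=
  ⟨_, fun K _ => (Comp.take (K := K) (n := fun P : List (List K) => 2 ^ shearLgp P.length)
    (l := fun P => P) (h := Comp.twoPow (h := compShearLgp Comp.id))
    (h' := Comp.id)).bigO 4 (fun P => by have := shear_two_pow_lgp_le P.length; omega)⟩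

theorem shearDrop_ex : ∃ c, ∀ (K : Type) [Field K],
    Comp K (fun P : List (List K) => P.drop (2 ^ shearLgp P.length)) c (fun P => P.length) :=
  ⟨_, fun K _ => (Comp.drop (K := K) (n := fun P : List (List K) => 2 ^ shearLgp P.length)
    (l := fun P => P) (h := Comp.twoPow (h := compShearLgp Comp.id))
    (h' := Comp.id)).bigO 4 (fun P => by have := shear_two_pow_lgp_le P.length; omega)⟩

theorem shearJoin_ex : ∃ c, ∀ (K : Type) [Field K],
    Comp K (fun z : (MEnv K × ℕ × List K × List (List K)) × List (List (List K)) =>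
      badd z.1.2.1 (z.2.headD []) (bmul z.1.1 z.1.2.1 (shearPw z.1.1 z.1.2.1 z.1.2.2.1
        (shearLgp z.1.2.2.2.length)) (z.2.tail.headD []))) c
      (fun z => (z.1.2.2.2.length + (z.2.headD []).length + (z.2.tail.headD []).length + 1) *
        ((z.1.2.1 + 1) * (z.1.1.1 + 1))) :=
  ⟨_, fun K _ => by
    have a1 : Comp K (fun z : (MEnv K × ℕ × List K × List (List K)) × List (List (List K)) =>
      z.1.1) _ _ := inferInstance
    have a2 : Comp K (fun z : (MEnv K × ℕ × List K × List (List K)) × List (List (List K)) =>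
      z.1.2.1) _ _ := inferInstance
    have a3 : Comp K (fun z : (MEnv K × ℕ × List K × List (List K)) × List (List (List K)) =>
      z.1.2.2.1) _ _ := inferInstance
    have a4 : Comp K (fun z : (MEnv K × ℕ × List K × List (List K)) × List (List (List K)) =>
      shearLgp z.1.2.2.2.length) _ _ := compShearLgp inferInstance
    have a5 : Comp K (fun z : (MEnv K × ℕ × List K × List (List K)) × List (List (List K)) =>
      z.2.headD []) _ _ := Comp.headD (h := inferInstance) (h' := inferInstance)
    have a6 : Comp K (fun z : (MEnv K × ℕ × List K × List (List K)) × List (List (List K)) =>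
      z.2.tail.headD []) _ _ := Comp.headD (h := inferInstance) (h' := inferInstance)
    exact (compBadd (h2 := a2) (h3 := a5) (h4 := compBmul (h1 := a1) (h2 := a2)
        (h3 := compShearPw (h1 := a1) (h2 := a2) (h3 := a3) (h4 := a4)) (h4 := a6))).bigO 12 (by
          rintro ⟨⟨E, w, c, P⟩, res⟩
          simp only [length_shearPw, length_bmul, zero_add, add_zero]
          have e0 := shear_two_pow_lgp_le P.length
          rw [mul_assoc]
          have e1 : w + 1 ≤ (w + 1) * (E.1 + 1) := Nat.le_mul_of_pos_right _ (by omega)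
          generalize (w + 1) * (E.1 + 1) = m at *
          generalize 2 ^ shearLgp P.length = q at *
          generalize P.length = n at *
          generalize (res.headD []).length = a at *
          generalize (res.tail.headD []).length = b at *
          have e2 : q * m ≤ (n + 1) * m := Nat.mul_le_mul_right _ e0
          have e3 : (q + 1 + b + 1) * m ≤ (n + 3 + b) * m := Nat.mul_le_mul_right _ (by omega)
          have e4 : (a + (q + 1 + b - 1) + 1) * (w + 1) ≤ (a + n + b + 2) * m :=
            Nat.mul_le_mul (by omega) e1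
          have e5 : n ≤ n * m := Nat.le_mul_of_pos_right _ (by omega)
          nlinarith [Nat.zero_le (a * m), Nat.zero_le (b * m), Nat.zero_le (n * m)])⟩

theorem shear_clog_min {n : ℕ} (hn : 1 < n) :
    Nat.clog 2 (min (2 ^ shearLgp n) n) + 1 ≤ Nat.clog 2 n ∧
    Nat.clog 2 (n - 2 ^ shearLgp n) + 1 ≤ Nat.clog 2 n := by
  obtain ⟨h1, h2⟩ := shear_two_pow_lgp hn
  have h3 : 0 < Nat.clog 2 n := Nat.clog_pos (by omega) hn
  have h4 : Nat.clog 2 (2 ^ shearLgp n) = shearLgp n := Nat.clog_pow 2 _ (by omega)
  have h5 : shearLgp n + 1 = Nat.clog 2 n := by rw [shearLgp]; omega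
  constructor
  · rw [min_eq_left h1.le, h4, h5]
  · have := Nat.clog_mono_right 2 (show n - 2 ^ shearLgp n ≤ 2 ^ shearLgp n by omega)
    omega

theorem taylorB_ex : ∃ c, ∀ (K : Type) [Field K],
    Comp K (fun z : MEnv K × ℕ × List K × List (List K) =>
      taylorB z.1 z.2.1 z.2.2.1 z.2.2.2) c
      (fun z => (z.2.2.2.length + 1) * (z.2.1 + 1) * (z.1.1 + 1) *
        (Nat.clog 2 z.2.2.2.length + 1) ^ 2) := by
  obtain ⟨ct, hct⟩ := shearTake_ex
  obtain ⟨cd, hcd⟩ := shearDrop_ex
  obtain ⟨cj, hcj⟩ := shearJoin_ex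
  exact ⟨_, fun K _ => by
    have h0 : Comp K (fun z : MEnv K × ℕ × List K × List (List K) =>
      decide (z.2.2.2.length ≤ 1)) _ _ := inferInstance
    have h1 : Comp K (fun z : MEnv K × ℕ × List K × List (List K) =>
      z.2.2.2.map (fun r => padTo z.2.1 r)) _ _ := inferInstance
    have ht : Comp K (fun z : MEnv K × ℕ × List K × List (List K) =>
      z.2.2.2.take (2 ^ shearLgp z.2.2.2.length)) _ _ :=
      (hct K).app1 (f := fun z : MEnv K × ℕ × List K × List (List K) => z.2.2.2) inferInstance
    have hd : Comp K (fun z : MEnv K × ℕ × List K × List (List K) =>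
      z.2.2.2.drop (2 ^ shearLgp z.2.2.2.length)) _ _ :=
      (hcd K).app1 (f := fun z : MEnv K × ℕ × List K × List (List K) => z.2.2.2) inferInstance
    have h2 : Comp K (fun z : MEnv K × ℕ × List K × List (List K) =>
      [(z.1, z.2.1, z.2.2.1, z.2.2.2.drop (2 ^ shearLgp z.2.2.2.length)),
        (z.1, z.2.1, z.2.2.1, z.2.2.2.take (2 ^ shearLgp z.2.2.2.length))]) _ _ :=
      Comp.cons (h := Comp.pair (h' := Comp.pair (h' := Comp.pair (h' := hd))))
        (h' := Comp.cons (h := Comp.pair (h' := Comp.pair (h' := Comp.pair (h' := ht)))))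
    exact (Comp.fix' (K := K)
      (isLeaf := fun z : MEnv K × ℕ × List K × List (List K) => decide (z.2.2.2.length ≤ 1))
      (leaf := fun z => z.2.2.2.map (fun r => padTo z.2.1 r))
      (subs := fun z =>
        [(z.1, z.2.1, z.2.2.1, z.2.2.2.take (2 ^ shearLgp z.2.2.2.length)),
        (z.1, z.2.1, z.2.2.1, z.2.2.2.drop (2 ^ shearLgp z.2.2.2.length))])
      (join := fun z => badd z.1.2.1 (z.2.headD []) (bmul z.1.1 z.1.2.1
        (shearPw z.1.1 z.1.2.1 z.1.2.2.1 (shearLgp z.1.2.2.2.length)) (z.2.tail.headD [])))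
      (f := fun z => taylorB z.1 z.2.1 z.2.2.1 z.2.2.2)
      (c3 := cj)
      (T3 := fun z => (z.1.2.2.2.length + (z.2.headD []).length + (z.2.tail.headD []).length + 1) *
        ((z.1.2.1 + 1) * (z.1.1.1 + 1)))
      (T := fun z => 100 * (((z.2.1 + 1) * (z.1.1 + 1)) *
        (z.2.2.2.length * (Nat.clog 2 z.2.2.2.length + 1) + 1)))
      (fun z => z.2.2.2.length) h0 h1 h2 (fun x res _ => (hcj K).run (x, res))
      (by
        rintro ⟨E, w, c, P⟩ h
        simp only [decide_eq_true_eq] at h
        exact taylorB_small E w c h)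
      (by
        rintro ⟨E, w, c, P⟩ h
        simp only [decide_eq_false_iff_not] at h
        exact taylorB_big E w c h)
      (by
        rintro ⟨E, w, c, P⟩ h y hy
        simp only [decide_eq_false_iff_not] at h
        obtain ⟨h1, h2⟩ := shear_two_pow_lgp (n := P.length) (by omega)
        have h3 : 1 ≤ 2 ^ shearLgp P.length := Nat.one_le_two_pow
        simp only [List.mem_cons, List.not_mem_nil, or_false] at hy
        rcases hy with rfl | rfl
        · simp only [List.length_take]; omega
        · simp only [List.length_drop]; omega)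
      (by
        rintro ⟨E, w, c, P⟩ h
        simp only [decide_eq_true_eq] at h
        simp only [zero_add, List.map_const', List.sum_replicate, smul_eq_mul, add_zero]
        have e1 : w + 1 ≤ (w + 1) * (E.1 + 1) := Nat.le_mul_of_pos_right _ (by omega)
        have e2 : P.length * (w + 1) ≤ 1 * ((w + 1) * (E.1 + 1)) := Nat.mul_le_mul h e1
        have e3 : (w + 1) * (E.1 + 1) * 1 ≤ (w + 1) * (E.1 + 1) *
          (P.length * (Nat.clog 2 P.length + 1) + 1) := Nat.mul_le_mul_left _ (by omega)
        omega)
      (by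
        rintro ⟨E, w, c, P⟩ h
        simp only [decide_eq_false_iff_not] at h
        obtain ⟨h1, h2⟩ := shear_two_pow_lgp (n := P.length) (by omega)
        obtain ⟨h3, h4⟩ := shear_clog_min (n := P.length) (by omega)
        simp only [List.map_cons, List.map_nil, List.sum_cons, List.sum_nil, List.headD_cons,
          List.tail_cons, length_taylorB, List.length_take, List.length_drop, zero_add, add_zero]
        have e1 : 1 ≤ (w + 1) * (E.1 + 1) := Nat.mul_pos (by omega) (by omega)
        rw [min_eq_left h1.le] at h3 ⊢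
        generalize (w + 1) * (E.1 + 1) = m at *
        generalize 2 ^ shearLgp P.length = q at *
        generalize P.length = n at *
        generalize Nat.clog 2 q = l1 at *
        generalize Nat.clog 2 (n - q) = l2 at *
        generalize Nat.clog 2 n = l at *
        obtain ⟨r, rfl⟩ : ∃ r, n = q + r := ⟨n - q, by omega⟩
        rw [Nat.add_sub_cancel_left]
        have f1 : q * (l1 + 1) ≤ q * l := Nat.mul_le_mul_left _ h3
        have f2 : r * (l2 + 1) ≤ r * l := Nat.mul_le_mul_left _ h4
        have f3 : m * (q * (l1 + 1) + 1) ≤ m * (q * l + 1) := Nat.mul_le_mul_left _ (by omega)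
        have f4 : m * (r * (l2 + 1) + 1) ≤ m * (r * l + 1) := Nat.mul_le_mul_left _ (by omega)
        have f5 : m * ((q + r) * (l + 1) + 1) = m * (q * l + 1) + m * (r * l + 1) +
          m * (q + r - 1) := by
          obtain ⟨s, hs⟩ : ∃ s, q + r = s + 1 := ⟨q + r - 1, by omega⟩
          have e2 : q + r - 1 = s := by omega
          have e3 : (q + r) * (l + 1) + 1 = q * l + r * l + (q + r) + 1 := by ring
          rw [e2, e3, hs]
          ring
        have f6 : (q + r + q + r + 1) * m ≤ 5 * (m * (q + r - 1)) := by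
          obtain ⟨s, hs⟩ : ∃ s, q + r = s + 1 := ⟨q + r - 1, by omega⟩
          have : q + r - 1 = s := by omega
          rw [this]
          have hs1 : 1 ≤ s := by omega
          have : q + r + q + r + 1 ≤ 5 * s := by omega
          calc (q + r + q + r + 1) * m ≤ 5 * s * m := Nat.mul_le_mul_right _ this
            _ = 5 * (m * s) := by ring
        have f7 : q + r - 1 ≤ m * (q + r - 1) := Nat.le_mul_of_pos_left _ (by omega)
        have f8 : min (q + r) 1 ≤ 1 := min_le_right _ _
        omega)).bigO 101 (by
          rintro ⟨E, w, c, P⟩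
          simp only
          generalize P.length = n at *
          generalize Nat.clog 2 n = l at *
          have f1 : n * (l + 1) + 1 ≤ (n + 1) * (l + 1) ^ 2 := by
            nlinarith [Nat.zero_le (n * l), Nat.zero_le (n * l * l), Nat.zero_le (l * l),
              Nat.zero_le l]
          have f2 : (w + 1) * (E.1 + 1) * (n * (l + 1) + 1) ≤
            (w + 1) * (E.1 + 1) * ((n + 1) * (l + 1) ^ 2) := Nat.mul_le_mul_left _ f1
          have f3 : (n + 1) * (w + 1) * (E.1 + 1) * (l + 1) ^ 2 =
            (w + 1) * (E.1 + 1) * ((n + 1) * (l + 1) ^ 2) := by ring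
          omega)⟩

noncomputable def taylorBCd : Cd := taylorB_ex.choose

instance compTaylorB {α : Type} [Enc K α] {E : α → MEnv K} {w : α → ℕ} {f : α → List K}
    {g : α → List (List K)} {c1 c2 c3 c4 : Cd} {T1 T2 T3 T4 : α → ℕ} [h1 : Comp K E c1 T1]
    [h2 : Comp K w c2 T2] [h3 : Comp K f c3 T3] [h4 : Comp K g c4 T4] :
    Comp K (fun x => taylorB (E x) (w x) (f x) (g x))
      (taylorBCd.comp (c1.pair (c2.pair (c3.pair c4))))
      (fun x => T1 x + (T2 x + (T3 x + T4 x)) + ((g x).length + 1) * (w x + 1) * ((E x).1 + 1) *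
        (Nat.clog 2 (g x).length + 1) ^ 2) :=
  (taylorB_ex.choose_spec K).comp (Comp.pair (h := h1) (h' := Comp.pair (h := h2)
    (h' := Comp.pair (h := h3) (h' := h4))))

/-! ### Shear -/

theorem shear_coeff_swap (F : K[X][X]) (i j : ℕ) :
    ((Bivariate.swap F).coeff i).coeff j = (F.coeff j).coeff i := by
  induction F using Polynomial.induction_on' with
  | add p q hp hq => simp only [map_add, coeff_add, hp, hq]
  | monomial n p =>
    induction p using Polynomial.induction_on' with
    | add p q hp hq => simp only [map_add, coeff_add, hp, hq]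
    | monomial m r =>
      rw [Bivariate.swap_monomial_monomial]
      simp only [coeff_monomial]
      split_ifs <;> simp_all [coeff_monomial]

theorem swap_shear (a b : K) (F : K[X][X]) : Bivariate.swap (shear a b F) =
    (Bivariate.swap F).comp (X + C (toP [b, a])) := by
  have h : ((Bivariate.swap (R := K) : K[X][X] ≃ₐ[K] K[X][X]) : K[X][X] →+* K[X][X]).comp
      (shear a b) = (compRingHom (X + C (toP [b, a]))).comp
        ((Bivariate.swap (R := K) : K[X][X] ≃ₐ[K] K[X][X]) : K[X][X] →+* K[X][X]) := by
    apply Polynomial.ringHom_ext'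
    · apply Polynomial.ringHom_ext
      · intro k
        simp [shear, Bivariate.swap_C_C]
      · simp [shear, Bivariate.swap_C_C, Bivariate.swap_X, Bivariate.swap_Y]
        ring
    · simp [shear, Bivariate.swap_Y]
  exact congrArg (fun f : K[X][X] →+* K[X][X] => f F) h

theorem shear_tdeg {d : ℕ} (a b : K) {F : K[X][X]} (hF : TDeg d F) :
    TDeg d (shear a b F) := by
  have h1 : TDeg 1 (C X + C (C a) * X + C (C b) : K[X][X]) := by
    refine (TDeg.add (TDeg.add (TDeg.C ?_) ?_) (TDeg.C ?_))
    · rw [natDegree_X]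
    · have := (TDeg.C (n := 0) (p := C a) (by rw [natDegree_C])).mul (TDeg.X (K := K))
      rwa [zero_add] at this
    · rw [natDegree_C]; omega
  rw [F.as_sum_range' (d + 1) (by have := hF.natDegree_le; omega), map_sum]
  refine TDeg.sum _ fun j hj => ?_
  have hj' : j ≤ d := by rw [Finset.mem_range] at hj; omega
  rw [← C_mul_X_pow_eq_monomial, map_mul, map_pow]
  have hX : shear a b (X : K[X][X]) = X := by simp [shear]
  rw [hX]
  have h2 : TDeg (d - j) (shear a b (C (F.coeff j))) := by
    have h3 := hF.natDegree_coeff_le j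
    rw [(F.coeff j).as_sum_range' (d - j + 1) (by omega), map_sum, map_sum]
    refine TDeg.sum _ fun i hi => ?_
    have hi' : i ≤ d - j := by rw [Finset.mem_range] at hi; omega
    have h4 : shear a b (C (monomial i ((F.coeff j).coeff i))) =
        C (C ((F.coeff j).coeff i)) * (C X + C (C a) * X + C (C b)) ^ i := by
      rw [← C_mul_X_pow_eq_monomial, C_mul, C_pow, map_mul, map_pow]
      simp [shear]
    rw [h4]
    have h5 := (TDeg.C (n := 0) (p := C ((F.coeff j).coeff i)) (by rw [natDegree_C])).mul
      (h1.pow i)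
    exact h5.mono (by omega)
  exact (h2.mul (TDeg.X.pow j)).mono (by omega)

/-- `F(x + a y + b, y)` for polynomials of total degree at most `d` -/
def shearB (E : MEnv K) (d : ℕ) (a b : K) (F : List (List K)) : List (List K) :=
  transB (d + 1) (taylorB E (d + 1) [b, a] (transB (d + 1) (F.take (d + 1))))

theorem length_shearB (E : MEnv K) (d : ℕ) (a b : K) (F : List (List K)) :
    (shearB E d a b F).length = d + 1 := length_transB _ _

theorem rows_shearB (E : MEnv K) (d : ℕ) (a b : K) (F : List (List K)) :
    ∀ r ∈ shearB E d a b F, r.length = d + 1 := by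
  intro r hr
  rw [rows_transB _ _ r hr, length_taylorB, length_transB]

theorem shear_toB_take {d : ℕ} {F : List (List K)} (hF : TDeg d (toB F)) :
    toB (F.take (d + 1)) = toB F := by
  ext j i
  rw [coeff_toB, coeff_toB, coeff_toP, coeff_toP]
  by_cases hj : j < d + 1
  · rw [List.getD_eq_getElem?_getD (l := F.take (d + 1)), List.getElem?_take, if_pos hj,
      ← List.getD_eq_getElem?_getD]
  · have h1 : (F.take (d + 1)).length ≤ j := by rw [List.length_take]; omega
    rw [List.getD_eq_default _ _ h1]
    have h2 := hF i j (by omega)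
    rw [coeff_toB, coeff_toP] at h2
    rw [h2]
    simp

theorem toB_transB {d : ℕ} {F : List (List K)} (hF : TDeg d (toB F)) :
    toB (transB (d + 1) F) = Bivariate.swap (toB F) := by
  ext i j
  rw [shear_coeff_swap, coeff_toB, coeff_toP]
  by_cases hi : i < d + 1
  · rw [getD_transB _ _ hi, coeff_toB, coeff_toP]
  · rw [List.getD_eq_default (transB (d + 1) F) _ (by rw [length_transB]; omega),
      hF i j (by omega)]
    simp

theorem toB_shearB {E : MEnv K} (hE : E.Good) {d : ℕ} (a b : K) {F : List (List K)}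
    (hF : TDeg d (toB F)) (hf : Fits E (8 * (d + 2)) (d + 1)) :
    toB (shearB E d a b F) = shear a b (toB F) := by
  have h1 := shear_tdeg a b hF
  have h2 : toB (F.take (d + 1)) = toB F := shear_toB_take hF
  have h3 : toB (transB (d + 1) (F.take (d + 1))) = Bivariate.swap (toB F) := by
    rw [toB_transB (by rw [h2]; exact hF), h2]
  have h4 := cg_taylorB hE (c := [b, a]) (P := transB (d + 1) (F.take (d + 1))) (w := d + 1)
    (by rw [length_transB]; exact hf)
  rw [h3, ← swap_shear, cg_iff] at h4
  ext j i
  by_cases hj : j < d + 1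
  · by_cases hi : i < d + 1
    · have h5 := h4 j i hj
      rw [shear_coeff_swap, coeff_toB, coeff_toP] at h5
      rw [← h5, coeff_toB, coeff_toP, shearB, getD_transB _ _ hj]
    · rw [h1 i j (by omega), coeff_toB, coeff_toP]
      have h6 : j < (shearB E d a b F).length := by rw [length_shearB]; exact hj
      rw [List.getD_eq_getElem _ _ h6]
      exact List.getD_eq_default _ _ (by
        rw [rows_shearB _ _ _ _ _ _ (List.getElem_mem h6)]; omega)
  · rw [h1 i j (by omega), coeff_toB, coeff_toP,
      List.getD_eq_default (shearB E d a b F) _ (by rw [length_shearB]; omega)]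
    simp

theorem shearB_ex : ∃ c, ∀ (K : Type) [Field K],
    Comp K (fun z : MEnv K × ℕ × (K × K) × List (List K) =>
      shearB z.1 z.2.1 z.2.2.1.1 z.2.2.1.2 z.2.2.2) c
      (fun z => (z.2.1 + 2) ^ 2 * (z.1.1 + 1) * (Nat.clog 2 (z.2.1 + 1) + 1) ^ 2) :=
  ⟨_, fun K _ => by
    have a1 : Comp K (fun z : MEnv K × ℕ × (K × K) × List (List K) => z.1) _ _ := inferInstance
    have a2 : Comp K (fun z : MEnv K × ℕ × (K × K) × List (List K) => z.2.1 + 1) _ _ :=
      inferInstance
    have a3 : Comp K (fun z : MEnv K × ℕ × (K × K) × List (List K) =>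
      [z.2.2.1.2, z.2.2.1.1]) _ _ := inferInstance
    have a4 : Comp K (fun z : MEnv K × ℕ × (K × K) × List (List K) =>
      z.2.2.2.take (z.2.1 + 1)) _ _ := inferInstance
    exact (compTransB (h2 := a2) (h3 := compTaylorB (h1 := a1) (h2 := a2) (h3 := a3)
      (h4 := compTransB (h2 := a2) (h3 := a4)))).bigO 10 (by
        rintro ⟨E, d, ⟨a, b⟩, F⟩
        simp only [length_taylorB, length_transB, List.length_take, zero_add, add_zero]
        generalize Nat.clog 2 (d + 1) = l at *
        have f0 : (min (d + 1) F.length + 1) * (d + 1 + 1) ≤ (d + 2) ^ 2 := by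
          rw [sq]
          exact Nat.mul_le_mul (by omega) le_rfl
        have f1 : (d + 2) ^ 2 ≤ (d + 2) ^ 2 * (E.1 + 1) := Nat.le_mul_of_pos_right _ (by omega)
        have f2 : (d + 2) ^ 2 * (E.1 + 1) ≤ (d + 2) ^ 2 * (E.1 + 1) * (l + 1) ^ 2 :=
          Nat.le_mul_of_pos_right _ (by positivity)
        have f3 : (d + 1 + 1) * (d + 1 + 1) * (E.1 + 1) * (l + 1) ^ 2 =
          (d + 2) ^ 2 * (E.1 + 1) * (l + 1) ^ 2 := by ring
        have f4 : (d + 1 + 1) * (d + 1 + 1) = (d + 2) ^ 2 := by ring
        have f5 : d + 1 ≤ (d + 2) ^ 2 := by nlinarith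
        omega)⟩

noncomputable def shearBCd : Cd := shearB_ex.choose

instance compShearB {α : Type} [Enc K α] {E : α → MEnv K} {d : α → ℕ} {a b : α → K}
    {g : α → List (List K)} {c1 c2 c3 c4 c5 : Cd} {T1 T2 T3 T4 T5 : α → ℕ} [h1 : Comp K E c1 T1]
    [h2 : Comp K d c2 T2] [h3 : Comp K a c3 T3] [h4 : Comp K b c4 T4] [h5 : Comp K g c5 T5] :
    Comp K (fun x => shearB (E x) (d x) (a x) (b x) (g x))
      (shearBCd.comp (c1.pair (c2.pair ((c3.pair c4).pair c5))))
      (fun x => T1 x + (T2 x + ((T3 x + T4 x) + T5 x)) + (d x + 2) ^ 2 * ((E x).1 + 1) *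
        (Nat.clog 2 (d x + 1) + 1) ^ 2) :=
  (shearB_ex.choose_spec K).comp (f := fun x => (E x, d x, (a x, b x), g x))
    (Comp.pair (h := h1) (h' := Comp.pair (h := h2)
    (h' := Comp.pair (h := Comp.pair (h := h3) (h' := h4)) (h' := h5))))

end Pool.Agent.BiFac

end

section

set_option autoImplicit false

/-!
# Resolved and unresolved classes
-/

namespace Pool.Agent.BiFac

open Polynomial

variable {K : Type} [Field K]

theorem Lifted.factor_of_bel_iff [DecidableEq K] {σ r : ℕ} {F f : K[X][X]} {P : Fin r → K[X][X]}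
    (h : Lifted σ F P) {w : Fin r → K} {i : Fin r} (hfm : f.Monic) (hfd : f ∣ F)
    (hb : ∀ j, Bel P f j ↔ w j = w i) :
    (∀ j, Bel P f j ↔ w j = w i) ∧ TDeg f.natDegree f ∧
    f.natDegree = ∑ j ∈ Finset.univ.filter (fun j => w j = w i), (P j).natDegree ∧
    Cg σ f (∏ j ∈ Finset.univ.filter (fun j => w j = w i), P j) := by
  classical
  obtain ⟨h1, h2, -, h4⟩ := h.factor hfm hfd
  have hfil : Finset.univ.filter (Bel P f) = Finset.univ.filter (fun j => w j = w i) :=
    Finset.filter_congr (fun j _ => hb j)
  rw [hfil] at h1 h2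
  exact ⟨hb, h4, h2, h1⟩

theorem ResCl.factor [DecidableEq K] {σ r n D ρ : ℕ} {F f : K[X][X]} {P : Fin r → K[X][X]}
    (h : Lifted σ F P) (hn : F.natDegree = n) (hσ : D + n + ρ ≤ σ) (hnσ : n < σ)
    (c : Fin n → Fin (D + 1) → K) {w : Fin r → K}
    (hsep : ∀ i j, w i = w j → ∀ μ, InW P n D ρ (hpoly c) μ → μ i = μ j) {i : Fin r}
    (hi : ResCl σ P w i) (hf : Irreducible f) (hfm : f.Monic) (hfd : f ∣ F) (hb : Bel P f i) :
    (∀ j, Bel P f j ↔ w j = w i) ∧ TDeg f.natDegree f ∧
    f.natDegree = ∑ j ∈ Finset.univ.filter (fun j => w j = w i), (P j).natDegree ∧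
    Cg σ f (∏ j ∈ Finset.univ.filter (fun j => w j = w i), P j) := by
  obtain ⟨N, hN, hNt, hNc⟩ := hi
  obtain ⟨hNi, hNd, hNb⟩ := resolved_class h hn hσ hnσ c w hsep i hN hNt hNc
  have hfN : f = N := h.factor_unique hf hfm hfd hNi hN hNd hb ((hNb i).2 rfl)
  rw [← hfN] at hNb
  exact h.factor_of_bel_iff hfm hfd hNb

theorem resCl_of_resCl [DecidableEq K] {σ r n D ρ : ℕ} {F f : K[X][X]} {P : Fin r → K[X][X]}
    (h : Lifted σ F P) (hn : F.natDegree = n) (hσ : D + n + ρ ≤ σ) (hnσ : n < σ)
    (c : Fin n → Fin (D + 1) → K) {w : Fin r → K}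
    (hsep : ∀ i j, w i = w j → ∀ μ, InW P n D ρ (hpoly c) μ → μ i = μ j) {i j : Fin r}
    (hf : Irreducible f) (hfm : f.Monic) (hfd : f ∣ F) (hb : Bel P f i) (hb' : Bel P f j)
    (hi : ResCl σ P w i) : ResCl σ P w j := by
  have h1 := (ResCl.factor h hn hσ hnσ c hsep hi hf hfm hfd hb).1
  have h2 : w j = w i := (h1 j).1 hb'
  unfold ResCl at hi ⊢
  rw [h2]
  exact hi

theorem resCl_congr [DecidableEq K] {σ r n D ρ : ℕ} {F f : K[X][X]} {P : Fin r → K[X][X]}
    (h : Lifted σ F P) (hn : F.natDegree = n) (hσ : D + n + ρ ≤ σ) (hnσ : n < σ)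
    (c : Fin n → Fin (D + 1) → K) {w : Fin r → K}
    (hsep : ∀ i j, w i = w j → ∀ μ, InW P n D ρ (hpoly c) μ → μ i = μ j) {i j : Fin r}
    (hf : Irreducible f) (hfm : f.Monic) (hfd : f ∣ F) (hb : Bel P f i) (hb' : Bel P f j) :
    ResCl σ P w i ↔ ResCl σ P w j :=
  ⟨resCl_of_resCl h hn hσ hnσ c hsep hf hfm hfd hb hb',
    resCl_of_resCl h hn hσ hnσ c hsep hf hfm hfd hb' hb⟩

theorem not_resCl_large [DecidableEq K] {σ r n D ρ : ℕ} {F f : K[X][X]} {P : Fin r → K[X][X]}
    (h : Lifted σ F P) (hn : F.natDegree = n) (hn0 : 0 < n) (hρ : 0 < ρ) (hσ : D + n + ρ = σ)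
    (c : Fin n → Fin (D + 1) → K)
    (hbad : ∀ μ, InW P n D ρ (hpoly c) μ → Bad P n ρ σ μ) {w : Fin r → K}
    (hw : InW P n D ρ (hpoly c) w)
    (hsep : ∀ i j, w i = w j → ∀ μ, InW P n D ρ (hpoly c) μ → μ i = μ j) {i : Fin r}
    (hi : ¬ ResCl σ P w i) (hf : Irreducible f) (hfm : f.Monic) (hfd : f ∣ F)
    (hb : Bel P f i) : σ ≤ f.natDegree * (2 * n + ρ) := by
  by_contra hlt
  rw [not_le] at hlt
  have h1 := small_class h hn hn0 hρ hσ c hbad w hw hsep hf hfm hfd hlt i hb
  obtain ⟨-, h2, h3, h4⟩ := h.factor_of_bel_iff hfm hfd h1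
  exact hi ⟨f, hfm, h3 ▸ h2, h4⟩

end Pool.Agent.BiFac

end

section

/-!
# Arithmetic modulo a polynomial in one variable
-/

set_option autoImplicit false
set_option synthInstance.maxSize 10000

namespace Pool.Agent.BiFac

open Polynomial Pool.Agent.TreeRAM

noncomputable section

variable {K : Type} [Field K]

/-! ### Preparations -/

theorem ma_toB_lift1 (g : List K) : toB (lift1 g) = (toP g).map C := by
  induction g with
  | nil => simp [lift1]
  | cons a g ih =>
    have h : lift1 (a :: g) = [a] :: lift1 g := rfl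
    rw [h, toB_cons, ih, toP_cons a g, Polynomial.map_add, Polynomial.map_mul, map_X, map_C]
    simp

omit [Field K] in
theorem ma_length_lift1 (g : List K) : (lift1 g).length = g.length := by simp [lift1]

theorem ma_red_eq_of_cg {F G : K[X][X]} (h : Cg 1 F G) : red F = red G := by
  obtain ⟨q, hq⟩ := h
  have h1 : F = G + C (X ^ 1) * q := by rw [← hq]; ring
  rw [h1, map_add, map_mul, red_C]
  simp

theorem MP.ma_lift1_monic {f : List K} (hf : MP f) : (toB (lift1 f)).Monic := by
  rw [ma_toB_lift1]
  exact hf.monic.map _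

theorem MP.ma_lift1_len {f : List K} (hf : MP f) :
    (lift1 f).length = (toB (lift1 f)).natDegree + 1 := by
  rw [ma_toB_lift1, ma_length_lift1, hf.len, natDegree_map_eq_of_injective C_injective]

omit [Field K] in
theorem ma_fits_cap {E : MEnv K} {n w m : ℕ} (h : Fits E n w) (hm : m ≤ 8 * (n + 1)) :
    m ≤ E.cap := by
  unfold Fits at h
  refine le_trans ?_ h
  nlinarith [Nat.zero_le (n * w), Nat.zero_le w]

omit [Field K] in
theorem ma_fits_mono {E : MEnv K} {n m w : ℕ} (h : Fits E n w) (hmn : m ≤ n) : Fits E m w :=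
  le_trans (Nat.mul_le_mul_right _ (by omega)) h

theorem MP.ma_length_pos {f : List K} (hf : MP f) : 0 < f.length := by
  have := hf.len
  omega

/-- a short list representing a class is the remainder -/
theorem ma_toP_eq_modByMonic {f l : List K} {B : K[X]} (hf : MP f) (hl : l.length ≤ f.length - 1)
    (h : AdjoinRoot.mk (toP f) (toP l) = AdjoinRoot.mk (toP f) B) : toP l = B %ₘ toP f := by
  have h1 : toP f ∣ toP l - B := AdjoinRoot.mk_eq_mk.1 h
  have h2 : toP l %ₘ toP f = B %ₘ toP f := modByMonic_eq_of_dvd_sub hf.monic h1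
  rw [← h2, eq_comm, modByMonic_eq_self_iff hf.monic, degree_eq_natDegree hf.monic.ne_zero]
  refine (degree_toP_lt l).trans_le ?_
  have := hf.len
  exact_mod_cast (by omega : l.length ≤ (toP f).natDegree)

theorem ma_mk_modByMonic (f : K[X]) (B : K[X]) :
    AdjoinRoot.mk f (B %ₘ f) = AdjoinRoot.mk f B := by
  rw [AdjoinRoot.mk_eq_mk]
  have h := modByMonic_add_div B f
  refine ⟨-(B /ₘ f), ?_⟩
  linear_combination h

/-! ### Remainder -/

/-- remainder of `a` modulo the monic `f`, `f.length - 1` coefficients -/
def fmod (E : MEnv K) (f a : List K) : List K :=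
  (brem E 1 (lift1 a) (lift1 f)).map (fun r => r.headD 0)

theorem toP_fmod {E : MEnv K} (hE : E.Good) {f a : List K} (hf : MP f)
    (hs : Fits E (8 * (f.length + a.length)) 1) : toP (fmod E f a) = toP a %ₘ toP f := by
  rw [fmod, ← red_toB]
  have h1 := ma_red_eq_of_cg (cg_brem hE (w := 1) (a := lift1 a) (b := lift1 f)
    (ma_fits_mono hs (by rw [ma_length_lift1, ma_length_lift1]; omega)) hf.ma_lift1_monic hf.ma_lift1_len)
  rw [h1]
  have h2 : red (toB (lift1 a) %ₘ toB (lift1 f)) =
      red (toB (lift1 a)) %ₘ red (toB (lift1 f)) := by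
    show Polynomial.map _ _ = Polynomial.map _ _ %ₘ Polynomial.map _ _
    exact map_modByMonic _ hf.ma_lift1_monic
  rw [h2, red_lift1, red_lift1]

theorem length_fmod (E : MEnv K) (f a : List K) : (fmod E f a).length = f.length - 1 := by
  rw [fmod, List.length_map, length_brem, ma_length_lift1]

def mulmod (E : MEnv K) (f a b : List K) : List K := fmod E f (fmul E a b)

theorem length_mulmod (E : MEnv K) (f a b : List K) : (mulmod E f a b).length = f.length - 1 :=
  length_fmod _ _ _

theorem toP_mulmod {E : MEnv K} (hE : E.Good) {f a b : List K} (hf : MP f)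
    (hs : Fits E (16 * (f.length + a.length + b.length)) 1) :
    toP (mulmod E f a b) = (toP a * toP b) %ₘ toP f := by
  have h1 := length_fmul E a b
  rw [mulmod, toP_fmod hE hf (ma_fits_mono hs (by omega)),
    toP_fmul hE (ma_fits_cap hs (by omega)) (ma_fits_cap hs (by omega))]

theorem mk_fmod {E : MEnv K} (hE : E.Good) {f a : List K} (hf : MP f)
    (hs : Fits E (8 * (f.length + a.length)) 1) :
    AdjoinRoot.mk (toP f) (toP (fmod E f a)) = AdjoinRoot.mk (toP f) (toP a) := by
  rw [toP_fmod hE hf hs, ma_mk_modByMonic]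

theorem mk_mulmod {E : MEnv K} (hE : E.Good) {f a b : List K} (hf : MP f)
    (hs : Fits E (16 * (f.length + a.length + b.length)) 1) :
    AdjoinRoot.mk (toP f) (toP (mulmod E f a b)) =
      AdjoinRoot.mk (toP f) (toP a) * AdjoinRoot.mk (toP f) (toP b) := by
  rw [toP_mulmod hE hf hs, ma_mk_modByMonic, map_mul]

/-! ### Powers -/

/-- `s ^ (value of bits)` with a running square -/
def pwAux (E : MEnv K) (f : List K) : List Bool → List K → List K
  | [], _ => fmod E f [1]
  | b :: bits, s =>
    bif b then mulmod E f s (pwAux E f bits (mulmod E f s s))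
    else pwAux E f bits (mulmod E f s s)

theorem length_pwAux (E : MEnv K) (f : List K) (bits : List Bool) (s : List K) :
    (pwAux E f bits s).length = f.length - 1 := by
  induction bits generalizing s with
  | nil => exact length_fmod _ _ _
  | cons b bits ih =>
    cases b
    · exact ih _
    · exact length_mulmod _ _ _ _

theorem mk_pwAux {E : MEnv K} (hE : E.Good) {f : List K} (hf : MP f) (bits : List Bool)
    (s : List K) (hl : s.length = f.length - 1) (hs : Fits E (64 * f.length) 1) :
    AdjoinRoot.mk (toP f) (toP (pwAux E f bits s)) =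
      AdjoinRoot.mk (toP f) (toP s) ^ bval bits := by
  have hpos := hf.ma_length_pos
  induction bits generalizing s with
  | nil =>
    have h1 : bval [] = 0 := rfl
    rw [pwAux, mk_fmod hE hf (ma_fits_mono hs (by simp only [List.length_singleton]; omega)), h1,
      pow_zero]
    simp
  | cons b bits ih =>
    have h1 := ih (mulmod E f s s) (length_mulmod _ _ _ _)
    rw [mk_mulmod hE hf (ma_fits_mono hs (by omega)), ← sq, ← pow_mul] at h1
    rw [bval_cons]
    cases b
    · exact h1
    · have h2 : pwAux E f (true :: bits) s =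
          mulmod E f s (pwAux E f bits (mulmod E f s s)) := rfl
      rw [h2, mk_mulmod hE hf (ma_fits_mono hs (by rw [length_pwAux]; omega)), h1, Bool.toNat_true,
        pow_succ, mul_comm]

/-- `a ^ (value of bits)` modulo `f` -/
def powmod (E : MEnv K) (f : List K) (bits : List Bool) (a : List K) : List K :=
  pwAux E f bits (fmod E f a)

theorem length_powmod (E : MEnv K) (f : List K) (bits : List Bool) (a : List K) :
    (powmod E f bits a).length = f.length - 1 := length_pwAux _ _ _ _

theorem mk_powmod {E : MEnv K} (hE : E.Good) {f a : List K} (hf : MP f) (bits : List Bool)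
    (hs : Fits E (64 * f.length) 1) (hs' : Fits E (8 * (f.length + a.length)) 1) :
    AdjoinRoot.mk (toP f) (toP (powmod E f bits a)) =
      AdjoinRoot.mk (toP f) (toP a) ^ bval bits := by
  rw [powmod, mk_pwAux hE hf bits _ (length_fmod _ _ _) hs, mk_fmod hE hf hs']

theorem toP_powmod {E : MEnv K} (hE : E.Good) {f a : List K} (hf : MP f) (bits : List Bool)
    (hs : Fits E (64 * (f.length + a.length)) 1) :
    toP (powmod E f bits a) = (toP a ^ bval bits) %ₘ toP f :=
  ma_toP_eq_modByMonic hf (length_powmod _ _ _ _).le (by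
    rw [mk_powmod hE hf bits (ma_fits_mono hs (by omega)) (ma_fits_mono hs (by omega)), map_pow])

/-- `a ^ (p ^ k)` modulo `f` -/
def frobmod (E : MEnv K) (f : List K) (Q : FQ) (a : List K) : List K :=
  (powmod E f Q.1)^[Q.2] (fmod E f a)

theorem length_powmod_iterate (E : MEnv K) (f : List K) (bits : List Bool) (n : ℕ) (a : List K)
    (ha : a.length = f.length - 1) : ((powmod E f bits)^[n] a).length = f.length - 1 := by
  induction n generalizing a with
  | zero => exact ha
  | succ n ih =>
    rw [Function.iterate_succ_apply]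
    exact ih _ (length_powmod _ _ _ _)

theorem length_frobmod (E : MEnv K) (f : List K) (Q : FQ) (a : List K) :
    (frobmod E f Q a).length = f.length - 1 :=
  length_powmod_iterate _ _ _ _ _ (length_fmod _ _ _)

theorem mk_powmod_iterate {E : MEnv K} (hE : E.Good) {f : List K} (hf : MP f)
    (bits : List Bool) (n : ℕ) (a : List K) (ha : a.length = f.length - 1)
    (hs : Fits E (64 * f.length) 1) :
    AdjoinRoot.mk (toP f) (toP ((powmod E f bits)^[n] a)) =
      AdjoinRoot.mk (toP f) (toP a) ^ bval bits ^ n := by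
  induction n generalizing a with
  | zero => simp
  | succ n ih =>
    rw [Function.iterate_succ_apply, ih _ (length_powmod _ _ _ _),
      mk_powmod hE hf bits hs (ma_fits_mono hs (by omega)), ← pow_mul, pow_succ' (bval bits)]

theorem mk_frobmod {E : MEnv K} (hE : E.Good) {f a : List K} (hf : MP f) (Q : FQ)
    (hs : Fits E (64 * f.length) 1) (hs' : Fits E (8 * (f.length + a.length)) 1) :
    AdjoinRoot.mk (toP f) (toP (frobmod E f Q a)) =
      AdjoinRoot.mk (toP f) (toP a) ^ bval Q.1 ^ Q.2 := by
  rw [frobmod, mk_powmod_iterate hE hf Q.1 Q.2 _ (length_fmod _ _ _) hs, mk_fmod hE hf hs']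

theorem toP_frobmod {E : MEnv K} (hE : E.Good) {f a : List K} (hf : MP f) (Q : FQ)
    (hs : Fits E (64 * (f.length + a.length)) 1) :
    toP (frobmod E f Q a) = (toP a ^ bval Q.1 ^ Q.2) %ₘ toP f :=
  ma_toP_eq_modByMonic hf (length_frobmod _ _ _ _).le (by
    rw [mk_frobmod hE hf Q (ma_fits_mono hs (by omega)) (ma_fits_mono hs (by omega)), map_pow])

/-! ### The splitting map -/

/-- Is this the list of digits of 2? -/
def isTwo (bits : List Bool) : Bool :=
  !(bits.headD true) && bits.tail.headD false && bits.tail.tail.isEmpty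

theorem isTwo_iff (bits : List Bool) : isTwo bits = true ↔ bits = [false, true] := by
  rcases bits with _ | ⟨b, _ | ⟨b', _ | ⟨b'', l⟩⟩⟩
  · simp [isTwo]
  · cases b <;> simp [isTwo]
  · cases b <;> cases b' <;> simp [isTwo]
  · simp [isTwo]

theorem bval_natBits (n : ℕ) : bval (Nat.bits n) = n := by
  induction n using Nat.binaryRec' with
  | zero => simp [bval]
  | bit b n h ih =>
    rw [Nat.bits_append_bit _ _ h, bval_cons, ih, Nat.bit_val]

theorem bval_natBits_tail (n : ℕ) : bval (Nat.bits n).tail = n / 2 := by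
  rw [← Nat.div2_bits_eq_tail, bval_natBits, Nat.div2_val]

theorem isTwo_natBits (p : ℕ) : isTwo (Nat.bits p) = true ↔ p = 2 := by
  rw [isTwo_iff]
  constructor
  · intro h
    have := bval_natBits p
    rw [h] at this
    exact this.symm
  · rintro rfl
    decide

/-- sum (for `p = 2`) or product of the `s ^ (p ^ j)` for `j < k` -/
def chiAux (E : MEnv K) (f : List K) (bits : List Bool) : ℕ → List K → List K
  | 0, _ => fmod E f (bif isTwo bits then [] else [1])
  | k + 1, s => bif isTwo bits then fmod E f (addP s (chiAux E f bits k (powmod E f bits s)))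
    else mulmod E f s (chiAux E f bits k (powmod E f bits s))

theorem length_chiAux (E : MEnv K) (f : List K) (bits : List Bool) (k : ℕ) (s : List K) :
    (chiAux E f bits k s).length = f.length - 1 := by
  cases k with
  | zero => exact length_fmod _ _ _
  | succ k =>
    rw [chiAux]
    cases isTwo bits
    · exact length_mulmod _ _ _ _
    · exact length_fmod _ _ _

theorem mk_chiAux {E : MEnv K} (hE : E.Good) {f : List K} (hf : MP f)
    (bits : List Bool) (k : ℕ) (s : List K) (hl : s.length = f.length - 1)
    (hs : Fits E (64 * f.length) 1) :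
    AdjoinRoot.mk (toP f) (toP (chiAux E f bits k s)) =
      if isTwo bits = true then ∑ j ∈ Finset.range k, AdjoinRoot.mk (toP f) (toP s) ^ bval bits ^ j
      else ∏ j ∈ Finset.range k, AdjoinRoot.mk (toP f) (toP s) ^ bval bits ^ j := by
  have hpos := hf.ma_length_pos
  induction k generalizing s with
  | zero =>
    rw [chiAux]
    cases isTwo bits
    · rw [cond_false, mk_fmod hE hf (ma_fits_mono hs (by simp only [List.length_singleton]; omega))]
      simp
    · rw [cond_true, mk_fmod hE hf (ma_fits_mono hs (by simp only [List.length_nil]; omega))]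
      simp
  | succ k ih =>
    have h1 := ih (powmod E f bits s) (length_powmod _ _ _ _)
    have h2 := length_chiAux E f bits k (powmod E f bits s)
    rw [mk_powmod hE hf bits hs (ma_fits_mono hs (by omega))] at h1
    rw [chiAux]
    cases hb : isTwo bits
    · rw [hb] at h1
      rw [cond_false, mk_mulmod hE hf (ma_fits_mono hs (by omega)), h1, if_neg (by simp),
        if_neg (by simp), Finset.prod_range_succ', mul_comm]
      simp only [pow_zero, pow_one, ← pow_mul, ← pow_succ']
    · rw [hb] at h1
      rw [cond_true, mk_fmod hE hf (ma_fits_mono hs (by rw [length_addP]; omega)), toP_addP, map_add,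
        h1, if_pos rfl, if_pos rfl, Finset.sum_range_succ', add_comm]
      simp only [pow_zero, pow_one, ← pow_mul, ← pow_succ']

/-- the splitting map modulo `f` -/
def chimod (E : MEnv K) (f : List K) (Q : FQ) (a : List K) : List K :=
  bif isTwo Q.1 then chiAux E f Q.1 Q.2 (fmod E f a)
  else powmod E f Q.1.tail (chiAux E f Q.1 Q.2 (fmod E f a))

theorem length_chimod (E : MEnv K) (f : List K) (Q : FQ) (a : List K) :
    (chimod E f Q a).length = f.length - 1 := by
  rw [chimod]
  cases isTwo Q.1
  · exact length_powmod _ _ _ _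
  · exact length_chiAux _ _ _ _ _

theorem ma_map_chi {R S : Type} [CommRing R] [CommRing S] (φ : R →+* S) (p k : ℕ) (x : R) :
    φ (chi p k x) = chi p k (φ x) := by
  unfold chi
  split_ifs
  · simp [map_sum]
  · simp [map_prod]

theorem toP_chimod [Fintype K] {E : MEnv K} (hE : E.Good) {f a : List K} (hf : MP f) {Q : FQ}
    {p : ℕ} (hQ : Q.Ok K p) (hs : Fits E (64 * (f.length + a.length)) 1) :
    toP (chimod E f Q a) = chi p Q.2 (toP a) %ₘ toP f := by
  refine ma_toP_eq_modByMonic hf (length_chimod _ _ _ _).le ?_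
  have h0 : Fits E (64 * f.length) 1 := ma_fits_mono hs (by omega)
  have h1 := mk_chiAux hE hf Q.1 Q.2 (fmod E f a) (length_fmod _ _ _) h0
  rw [mk_fmod hE hf (ma_fits_mono hs (by omega)), hQ.bits, bval_natBits] at h1
  rw [ma_map_chi, chi, chimod, hQ.bits]
  by_cases hp : p = 2
  · have hb : isTwo (Nat.bits p) = true := (isTwo_natBits p).2 hp
    rw [hb, cond_true, h1, if_pos hb, if_pos hp, hp]
  · have hb : isTwo (Nat.bits p) = false := by
      rw [← Bool.not_eq_true, isTwo_natBits]
      exact hp
    rw [hb, cond_false, mk_powmod hE hf _ h0 (ma_fits_mono h0 (by rw [length_chiAux]; omega)), h1,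
      if_neg (by rw [hb]; simp), if_neg hp, bval_natBits_tail]

/-! ### Costs -/

theorem ma_lift1_ex : ∃ c, ∀ (K : Type) [Field K],
    Comp K (fun g : List K => lift1 g) c (fun g => g.length) :=
  ⟨_, fun K _ => (Comp.map (K := K) (l := fun g : List K => g)
    (g := fun _ x => [x])).mono (fun z => by simp)⟩

def maLift1Cd : Cd := ma_lift1_ex.choose

instance compMaLift1 {α : Type} [Enc K α] {f : α → List K} {c : Cd} {T : α → ℕ}
    [h : Comp K f c T] : Comp K (fun x => lift1 (f x)) (maLift1Cd.comp c)
      (fun x => T x + (f x).length) :=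
  (ma_lift1_ex.choose_spec K).app1 h

theorem fmod_ex : ∃ c, ∀ (K : Type) [Field K],
    Comp K (fun z : MEnv K × List K × List K => fmod z.1 z.2.1 z.2.2) c
      (fun z => (z.2.1.length + z.2.2.length + 1) * (z.1.1 + 1)) :=
  ⟨_, fun K _ => (Comp.map (K := K)
    (l := fun z : MEnv K × List K × List K => brem z.1 1 (lift1 z.2.2) (lift1 z.2.1))
    (g := fun _ r => r.headD 0)).bigO 10 (fun z => by
      obtain ⟨E, f, a⟩ := z
      simp only [ma_length_lift1, length_brem, List.map_const', List.sum_replicate, smul_eq_mul]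
      have h1 : f.length + a.length + 1 ≤ (f.length + a.length + 1) * (E.1 + 1) :=
        Nat.le_mul_of_pos_right _ (by omega)
      have h2 : (a.length + f.length + 1) * (1 + 1) * (E.1 + 1) =
        2 * ((f.length + a.length + 1) * (E.1 + 1)) := by ring
      omega)⟩

def fmodCd : Cd := fmod_ex.choose

instance compFmod {α : Type} [Enc K α] {E : α → MEnv K} {f g : α → List K} {c c' d : Cd}
    {T T' T'' : α → ℕ} [h : Comp K E c T] [h' : Comp K f c' T'] [h'' : Comp K g d T''] :
    Comp K (fun x => fmod (E x) (f x) (g x)) (fmodCd.comp (c.pair (c'.pair d)))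
      (fun x => T x + (T' x + T'' x) + ((f x).length + (g x).length + 1) * ((E x).1 + 1)) :=
  (fmod_ex.choose_spec K).app2 (f' := fun x => (f x, g x)) h (Comp.pair (h := h') (h' := h''))

theorem mulmod_ex : ∃ c, ∀ (K : Type) [Field K],
    Comp K (fun z : MEnv K × List K × List K × List K => mulmod z.1 z.2.1 z.2.2.1 z.2.2.2) c
      (fun z => (z.2.1.length + z.2.2.1.length + z.2.2.2.length + 1) * (z.1.1 + 1)) :=
  ⟨_, fun K _ => ((compFmod (K := K)
    (E := fun z : MEnv K × List K × List K × List K => z.1) (f := fun z => z.2.1)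
    (g := fun z => fmul z.1 z.2.2.1 z.2.2.2)).congr (fun _ => rfl)).bigO 4 (fun z => by
      obtain ⟨E, f, a, b⟩ := z
      have h1 := length_fmul E a b
      have h2 : (f.length + (fmul E a b).length + 1) * (E.1 + 1) ≤
        (f.length + a.length + b.length + 1) * (E.1 + 1) := Nat.mul_le_mul_right _ (by omega)
      have h3 : (a.length + b.length + 1) * (E.1 + 1) ≤
        (f.length + a.length + b.length + 1) * (E.1 + 1) := Nat.mul_le_mul_right _ (by omega)
      simp only
      omega)⟩

def mulmodCd : Cd := mulmod_ex.choose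

instance compMulmod {α : Type} [Enc K α] {E : α → MEnv K} {f g g' : α → List K}
    {c c' d d' : Cd} {T T' T'' T3 : α → ℕ} [h : Comp K E c T] [h' : Comp K f c' T']
    [h'' : Comp K g d T''] [h3 : Comp K g' d' T3] :
    Comp K (fun x => mulmod (E x) (f x) (g x) (g' x))
      (mulmodCd.comp (c.pair (c'.pair (d.pair d'))))
      (fun x => T x + (T' x + (T'' x + T3 x)) +
        ((f x).length + (g x).length + (g' x).length + 1) * ((E x).1 + 1)) :=
  (mulmod_ex.choose_spec K).app2 (f' := fun x => (f x, (g x, g' x))) h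
    (Comp.pair (h := h') (h' := Comp.pair (h := h'') (h' := h3)))

theorem pwAux_ex : ∃ c, ∀ (K : Type) [Field K],
    Comp K (fun z : (MEnv K × List K) × List Bool × List K =>
      pwAux z.1.1 z.1.2 z.2.1 z.2.2) c
      (fun z => (max z.1.2.length z.2.2.length + 1) * (z.1.1.1 + 1) * (z.2.1.length + 1)) :=
  ⟨_, fun K _ => (Comp.rec1 (K := K)
    (isLeaf := fun z : (MEnv K × List K) × List Bool × List K => z.2.1.isEmpty)
    (leaf := fun z => fmod z.1.1 z.1.2 [1])
    (next := fun z => (z.1, (z.2.1.tail, mulmod z.1.1 z.1.2 z.2.2 z.2.2)))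
    (join := fun z r => bif z.2.1.headD false then mulmod z.1.1 z.1.2 z.2.2 r else r)
    (T := fun z => 10 * ((max z.1.2.length z.2.2.length + 1) * (z.1.1.1 + 1) *
      (z.2.1.length + 1)))
    (fun z => z.2.1.length)
    (by rintro ⟨⟨E, f⟩, b, s⟩ h; cases b <;> simp_all [pwAux])
    (by rintro ⟨⟨E, f⟩, b, s⟩ h; cases b <;> simp_all [pwAux])
    (by rintro ⟨⟨E, f⟩, b, s⟩ h; cases b <;> simp_all)
    (by
      rintro ⟨⟨E, f⟩, b, s⟩ h
      cases b with
      | cons b l => simp at h
      | nil =>
        simp only [List.length_nil, List.length_singleton, zero_add, mul_one]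
        have h1 : (f.length + 1 + 1) * (E.1 + 1) ≤
          (2 * (max f.length s.length + 1)) * (E.1 + 1) := Nat.mul_le_mul_right _ (by omega)
        have h2 : (2 * (max f.length s.length + 1)) * (E.1 + 1) =
          2 * ((max f.length s.length + 1) * (E.1 + 1)) := by ring
        omega)
    (by
      rintro ⟨⟨E, f⟩, b, s⟩ h
      cases b with
      | nil => simp at h
      | cons b l =>
        simp only [List.headD_cons, List.tail_cons, length_mulmod, length_pwAux,
          List.length_cons, zero_add, add_zero]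
        have h1 : (f.length + s.length + s.length + 1) * (E.1 + 1) ≤
          (3 * (max f.length s.length + 1)) * (E.1 + 1) := Nat.mul_le_mul_right _ (by omega)
        have h1' : (f.length + s.length + (f.length - 1) + 1) * (E.1 + 1) ≤
          (3 * (max f.length s.length + 1)) * (E.1 + 1) := Nat.mul_le_mul_right _ (by omega)
        have h2 : (3 * (max f.length s.length + 1)) * (E.1 + 1) =
          3 * ((max f.length s.length + 1) * (E.1 + 1)) := by ring
        have h3 : (max f.length (f.length - 1) + 1) * (E.1 + 1) * (l.length + 1) ≤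
          (max f.length s.length + 1) * (E.1 + 1) * (l.length + 1) :=
          Nat.mul_le_mul_right _ (Nat.mul_le_mul_right _ (by omega))
        have h4 : (max f.length s.length + 1) * (E.1 + 1) * (l.length + 1 + 1) =
          (max f.length s.length + 1) * (E.1 + 1) * (l.length + 1) +
            (max f.length s.length + 1) * (E.1 + 1) := by ring
        have h5 : 1 ≤ (max f.length s.length + 1) * (E.1 + 1) :=
          Nat.mul_pos (by omega) (by omega)
        cases b
        · simp only [cond_false]
          omega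
        · simp only [cond_true]
          omega)).bigO 10 (fun z => by omega)⟩

def pwAuxCd : Cd := pwAux_ex.choose

instance compPwAux {α : Type} [Enc K α] {E : α → MEnv K} {f : α → List K} {b : α → List Bool}
    {s : α → List K} {c c' d d' : Cd} {T T' T'' T3 : α → ℕ} [h : Comp K E c T]
    [h' : Comp K f c' T'] [h'' : Comp K b d T''] [h3 : Comp K s d' T3] :
    Comp K (fun x => pwAux (E x) (f x) (b x) (s x))
      (pwAuxCd.comp ((c.pair c').pair (d.pair d')))
      (fun x => (T x + T' x) + (T'' x + T3 x) +
        (max (f x).length (s x).length + 1) * ((E x).1 + 1) * ((b x).length + 1)) :=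
  (pwAux_ex.choose_spec K).app2 (f := fun x => (E x, f x)) (f' := fun x => (b x, s x))
    (Comp.pair (h := h) (h' := h')) (Comp.pair (h := h'') (h' := h3))

theorem powmod_ex : ∃ c, ∀ (K : Type) [Field K],
    Comp K (fun z : MEnv K × List K × List Bool × List K =>
      powmod z.1 z.2.1 z.2.2.1 z.2.2.2) c
      (fun z => (z.2.1.length + z.2.2.2.length + 1) * (z.1.1 + 1) * (z.2.2.1.length + 1)) :=
  ⟨_, fun K _ => ((compPwAux (K := K)
    (E := fun z : MEnv K × List K × List Bool × List K => z.1) (f := fun z => z.2.1)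
    (b := fun z => z.2.2.1)
    (s := fun z => fmod z.1 z.2.1 z.2.2.2)).congr (fun _ => rfl)).bigO 4 (fun z => by
      obtain ⟨E, f, b, a⟩ := z
      simp only [length_fmod]
      have h1 : (max f.length (f.length - 1) + 1) * (E.1 + 1) * (b.length + 1) ≤
        (f.length + a.length + 1) * (E.1 + 1) * (b.length + 1) :=
        Nat.mul_le_mul_right _ (Nat.mul_le_mul_right _ (by omega))
      have h2 : (f.length + a.length + 1) * (E.1 + 1) ≤
        (f.length + a.length + 1) * (E.1 + 1) * (b.length + 1) :=
        Nat.le_mul_of_pos_right _ (by omega)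
      omega)⟩

def powmodCd : Cd := powmod_ex.choose

instance compPowmod {α : Type} [Enc K α] {E : α → MEnv K} {f : α → List K} {b : α → List Bool}
    {s : α → List K} {c c' d d' : Cd} {T T' T'' T3 : α → ℕ} [h : Comp K E c T]
    [h' : Comp K f c' T'] [h'' : Comp K b d T''] [h3 : Comp K s d' T3] :
    Comp K (fun x => powmod (E x) (f x) (b x) (s x))
      (powmodCd.comp (c.pair (c'.pair (d.pair d'))))
      (fun x => T x + (T' x + (T'' x + T3 x)) +
        ((f x).length + (s x).length + 1) * ((E x).1 + 1) * ((b x).length + 1)) :=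
  (powmod_ex.choose_spec K).app2 (f' := fun x => (f x, (b x, s x))) h
    (Comp.pair (h := h') (h' := Comp.pair (h := h'') (h' := h3)))

theorem powIt_ex : ∃ c, ∀ (K : Type) [Field K],
    Comp K (fun z : (MEnv K × List K) × List Bool × (ℕ × List K) =>
      (powmod z.1.1 z.1.2 z.2.1)^[z.2.2.1] z.2.2.2) c
      (fun z => (z.1.2.length + z.2.2.2.length + 1) * (z.1.1.1 + 1) *
        (z.2.1.length + 1) * (z.2.2.1 + 1)) :=
  ⟨_, fun K _ => (Comp.rec1 (K := K)
    (isLeaf := fun z : (MEnv K × List K) × List Bool × (ℕ × List K) => decide (z.2.2.1 = 0))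
    (leaf := fun z => z.2.2.2)
    (next := fun z => (z.1, (z.2.1, (z.2.2.1 - 1, powmod z.1.1 z.1.2 z.2.1 z.2.2.2))))
    (join := fun _ r => r)
    (T := fun z => 10 * ((2 * max z.1.2.length z.2.2.2.length + 1) * (z.1.1.1 + 1) *
      (z.2.1.length + 1) * (z.2.2.1 + 1)))
    (fun z => z.2.2.1)
    (by rintro ⟨⟨E, f⟩, b, n, s⟩ h; cases n <;> simp_all)
    (by rintro ⟨⟨E, f⟩, b, n, s⟩ h; cases n <;> simp_all)
    (by rintro ⟨⟨E, f⟩, b, n, s⟩ h; cases n <;> simp_all)
    (by rintro ⟨⟨E, f⟩, b, n, s⟩ h; simp)
    (by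
      rintro ⟨⟨E, f⟩, b, n, s⟩ h
      cases n with
      | zero => simp at h
      | succ n =>
        simp only [length_powmod, Nat.add_sub_cancel, zero_add, add_zero]
        have h1 : (f.length + s.length + 1) * (E.1 + 1) * (b.length + 1) ≤
          (2 * max f.length s.length + 1) * (E.1 + 1) * (b.length + 1) :=
          Nat.mul_le_mul_right _ (Nat.mul_le_mul_right _ (by omega))
        have h3 : (2 * max f.length (f.length - 1) + 1) * (E.1 + 1) * (b.length + 1) * (n + 1) ≤
          (2 * max f.length s.length + 1) * (E.1 + 1) * (b.length + 1) * (n + 1) :=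
          Nat.mul_le_mul_right _ (Nat.mul_le_mul_right _ (Nat.mul_le_mul_right _ (by omega)))
        have h4 : (2 * max f.length s.length + 1) * (E.1 + 1) * (b.length + 1) * (n + 1 + 1) =
          (2 * max f.length s.length + 1) * (E.1 + 1) * (b.length + 1) * (n + 1) +
            (2 * max f.length s.length + 1) * (E.1 + 1) * (b.length + 1) := by ring
        have h5 : 1 ≤ (2 * max f.length s.length + 1) * (E.1 + 1) * (b.length + 1) :=
          Nat.mul_pos (Nat.mul_pos (by omega) (by omega)) (by omega)
        omega)).bigO 20 (fun z => by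
          obtain ⟨⟨E, f⟩, b, n, s⟩ := z
          simp only
          have h1 : (2 * max f.length s.length + 1) * (E.1 + 1) * (b.length + 1) * (n + 1) ≤
            (2 * (f.length + s.length + 1)) * (E.1 + 1) * (b.length + 1) * (n + 1) :=
            Nat.mul_le_mul_right _ (Nat.mul_le_mul_right _ (Nat.mul_le_mul_right _ (by omega)))
          have h2 : (2 * (f.length + s.length + 1)) * (E.1 + 1) * (b.length + 1) * (n + 1) =
            2 * ((f.length + s.length + 1) * (E.1 + 1) * (b.length + 1) * (n + 1)) := by ring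
          omega)⟩

theorem frobmod_ex : ∃ c, ∀ (K : Type) [Field K],
    Comp K (fun z : MEnv K × List K × FQ × List K => frobmod z.1 z.2.1 z.2.2.1 z.2.2.2) c
      (fun z => (z.2.1.length + z.2.2.2.length + 1) * (z.1.1 + 1) * z.2.2.1.lg) :=
  ⟨_, fun K _ => (((powIt_ex.choose_spec K).app2
    (f := fun z : MEnv K × List K × FQ × List K => (z.1, z.2.1))
    (f' := fun z => (z.2.2.1.1, (z.2.2.1.2, fmod z.1 z.2.1 z.2.2.2)))
    Comp.pair Comp.pair).congr (fun _ => rfl)).bigO 4 (fun z => by
      obtain ⟨E, f, Q, a⟩ := z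
      simp only [length_fmod, FQ.lg]
      have h1 : (f.length + (f.length - 1) + 1) * (E.1 + 1) * (Q.1.length + 1) * (Q.2 + 1) ≤
        (2 * (f.length + a.length + 1)) * (E.1 + 1) * (Q.1.length + 1) * (Q.2 + 1) :=
        Nat.mul_le_mul_right _ (Nat.mul_le_mul_right _ (Nat.mul_le_mul_right _ (by omega)))
      have h2 : (2 * (f.length + a.length + 1)) * (E.1 + 1) * (Q.1.length + 1) * (Q.2 + 1) =
        2 * ((f.length + a.length + 1) * (E.1 + 1) * ((Q.1.length + 1) * (Q.2 + 1))) := by ring
      have h3 : (f.length + a.length + 1) * (E.1 + 1) ≤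
        (f.length + a.length + 1) * (E.1 + 1) * ((Q.1.length + 1) * (Q.2 + 1)) :=
        Nat.le_mul_of_pos_right _ (Nat.mul_pos (by omega) (by omega))
      omega)⟩

def frobmodCd : Cd := frobmod_ex.choose

instance compFrobmod {α : Type} [Enc K α] {E : α → MEnv K} {f : α → List K} {Q : α → FQ}
    {s : α → List K} {c c' d d' : Cd} {T T' T'' T3 : α → ℕ} [h : Comp K E c T]
    [h' : Comp K f c' T'] [h'' : Comp K Q d T''] [h3 : Comp K s d' T3] :
    Comp K (fun x => frobmod (E x) (f x) (Q x) (s x))
      (frobmodCd.comp (c.pair (c'.pair (d.pair d'))))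
      (fun x => T x + (T' x + (T'' x + T3 x)) +
        ((f x).length + (s x).length + 1) * ((E x).1 + 1) * (Q x).lg) :=
  (frobmod_ex.choose_spec K).app2 (f' := fun x => (f x, (Q x, s x))) h
    (Comp.pair (h := h') (h' := Comp.pair (h := h'') (h' := h3)))

theorem isTwo_ex : ∃ c, ∀ (K : Type) [Field K],
    Comp K (fun b : List Bool => isTwo b) c (fun _ => 0) :=
  ⟨_, fun K _ => (Comp.and (K := K) (a := fun b : List Bool => !(b.headD true) &&
    b.tail.headD false) (b := fun b => b.tail.tail.isEmpty)).mono (fun b => by simp)⟩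

def isTwoCd : Cd := isTwo_ex.choose

instance compIsTwo {α : Type} [Enc K α] {f : α → List Bool} {c : Cd} {T : α → ℕ}
    [h : Comp K f c T] : Comp K (fun x => isTwo (f x)) (isTwoCd.comp c)
      (fun x => T x + 0) :=
  (isTwo_ex.choose_spec K).app1 h

instance compIsTwo_eta : Comp K isTwo (isTwoCd.comp Cd.id) (fun _ => 0 + 0) :=
  compIsTwo (f := fun x : List Bool => x)

theorem chiAux_ex : ∃ c, ∀ (K : Type) [Field K],
    Comp K (fun z : (MEnv K × List K) × List Bool × (ℕ × List K) =>
      chiAux z.1.1 z.1.2 z.2.1 z.2.2.1 z.2.2.2) c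
      (fun z => (z.1.2.length + z.2.2.2.length + 1) * (z.1.1.1 + 1) *
        (z.2.1.length + 1) * (z.2.2.1 + 1)) :=
  ⟨_, fun K _ => (Comp.rec1 (K := K)
    (isLeaf := fun z : (MEnv K × List K) × List Bool × (ℕ × List K) => decide (z.2.2.1 = 0))
    (leaf := fun z => fmod z.1.1 z.1.2 (bif isTwo z.2.1 then [] else [1]))
    (next := fun z => (z.1, (z.2.1, (z.2.2.1 - 1, powmod z.1.1 z.1.2 z.2.1 z.2.2.2))))
    (join := fun z r => bif isTwo z.2.1 then fmod z.1.1 z.1.2 (addP z.2.2.2 r)
      else mulmod z.1.1 z.1.2 z.2.2.2 r)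
    (T := fun z => 20 * ((2 * max z.1.2.length z.2.2.2.length + 1) * (z.1.1.1 + 1) *
      (z.2.1.length + 1) * (z.2.2.1 + 1)))
    (fun z => z.2.2.1)
    (by rintro ⟨⟨E, f⟩, b, n, s⟩ h; cases n <;> simp_all [chiAux])
    (by rintro ⟨⟨E, f⟩, b, n, s⟩ h; cases n <;> simp_all [chiAux])
    (by rintro ⟨⟨E, f⟩, b, n, s⟩ h; cases n <;> simp_all)
    (by
      rintro ⟨⟨E, f⟩, b, n, s⟩ h
      cases n with
      | succ n => simp at h
      | zero =>
        simp only [zero_add, mul_one, add_zero]
        have h0 : (f.length + 1 + 1) * (E.1 + 1) ≤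
          (2 * (2 * max f.length s.length + 1)) * (E.1 + 1) :=
          Nat.mul_le_mul_right _ (by omega)
        have h1 : (f.length + 0 + 1) * (E.1 + 1) ≤
          (2 * (2 * max f.length s.length + 1)) * (E.1 + 1) :=
          Nat.mul_le_mul_right _ (by omega)
        have h2 : (2 * (2 * max f.length s.length + 1)) * (E.1 + 1) =
          2 * ((2 * max f.length s.length + 1) * (E.1 + 1)) := by ring
        have h3 : (2 * max f.length s.length + 1) * (E.1 + 1) ≤
          (2 * max f.length s.length + 1) * (E.1 + 1) * (b.length + 1) :=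
          Nat.le_mul_of_pos_right _ (by omega)
        cases isTwo b
        · simp only [cond_false, List.length_singleton]
          omega
        · simp only [cond_true, List.length_nil]
          omega)
    (by
      rintro ⟨⟨E, f⟩, b, n, s⟩ h
      cases n with
      | zero => simp at h
      | succ n =>
        simp only [length_powmod, length_chiAux, length_addP, Nat.add_sub_cancel, zero_add,
          add_zero]
        have h1 : (f.length + s.length + 1) * (E.1 + 1) * (b.length + 1) ≤
          (2 * max f.length s.length + 1) * (E.1 + 1) * (b.length + 1) :=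
          Nat.mul_le_mul_right _ (Nat.mul_le_mul_right _ (by omega))
        have h2 : (2 * max f.length s.length + 1) * (E.1 + 1) ≤
          (2 * max f.length s.length + 1) * (E.1 + 1) * (b.length + 1) :=
          Nat.le_mul_of_pos_right _ (by omega)
        have h6 : 2 * max f.length s.length + 1 ≤
          (2 * max f.length s.length + 1) * (E.1 + 1) := Nat.le_mul_of_pos_right _ (by omega)
        have h7 : (f.length + s.length + (f.length - 1) + 1) * (E.1 + 1) ≤
          (2 * (2 * max f.length s.length + 1)) * (E.1 + 1) :=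
          Nat.mul_le_mul_right _ (by omega)
        have h8 : (f.length + max s.length (f.length - 1) + 1) * (E.1 + 1) ≤
          (2 * (2 * max f.length s.length + 1)) * (E.1 + 1) :=
          Nat.mul_le_mul_right _ (by omega)
        have h9 : (2 * (2 * max f.length s.length + 1)) * (E.1 + 1) =
          2 * ((2 * max f.length s.length + 1) * (E.1 + 1)) := by ring
        have h3 : (2 * max f.length (f.length - 1) + 1) * (E.1 + 1) * (b.length + 1) * (n + 1) ≤
          (2 * max f.length s.length + 1) * (E.1 + 1) * (b.length + 1) * (n + 1) :=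
          Nat.mul_le_mul_right _ (Nat.mul_le_mul_right _ (Nat.mul_le_mul_right _ (by omega)))
        have h4 : (2 * max f.length s.length + 1) * (E.1 + 1) * (b.length + 1) * (n + 1 + 1) =
          (2 * max f.length s.length + 1) * (E.1 + 1) * (b.length + 1) * (n + 1) +
            (2 * max f.length s.length + 1) * (E.1 + 1) * (b.length + 1) := by ring
        cases isTwo b
        · simp only [cond_false]
          omega
        · simp only [cond_true]
          omega)).bigO 40 (fun z => by
          obtain ⟨⟨E, f⟩, b, n, s⟩ := z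
          simp only
          have h1 : (2 * max f.length s.length + 1) * (E.1 + 1) * (b.length + 1) * (n + 1) ≤
            (2 * (f.length + s.length + 1)) * (E.1 + 1) * (b.length + 1) * (n + 1) :=
            Nat.mul_le_mul_right _ (Nat.mul_le_mul_right _ (Nat.mul_le_mul_right _ (by omega)))
          have h2 : (2 * (f.length + s.length + 1)) * (E.1 + 1) * (b.length + 1) * (n + 1) =
            2 * ((f.length + s.length + 1) * (E.1 + 1) * (b.length + 1) * (n + 1)) := by ring
          omega)⟩

def chiAuxCd : Cd := chiAux_ex.choose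

instance compChiAux {α : Type} [Enc K α] {E : α → MEnv K} {f : α → List K} {b : α → List Bool}
    {n : α → ℕ} {s : α → List K} {c c' d d' d3 : Cd} {T T' T'' T3 T4 : α → ℕ} [h : Comp K E c T]
    [h' : Comp K f c' T'] [h'' : Comp K b d T''] [h3 : Comp K n d' T3] [h4 : Comp K s d3 T4] :
    Comp K (fun x => chiAux (E x) (f x) (b x) (n x) (s x))
      (chiAuxCd.comp ((c.pair c').pair (d.pair (d'.pair d3))))
      (fun x => (T x + T' x) + (T'' x + (T3 x + T4 x)) +
        ((f x).length + (s x).length + 1) * ((E x).1 + 1) * ((b x).length + 1) * (n x + 1)) :=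
  (chiAux_ex.choose_spec K).app2 (f := fun x => (E x, f x)) (f' := fun x => (b x, (n x, s x)))
    (Comp.pair (h := h) (h' := h'))
    (Comp.pair (h := h'') (h' := Comp.pair (h := h3) (h' := h4)))

theorem chimod_ex : ∃ c, ∀ (K : Type) [Field K],
    Comp K (fun z : MEnv K × List K × FQ × List K => chimod z.1 z.2.1 z.2.2.1 z.2.2.2) c
      (fun z => (z.2.1.length + z.2.2.2.length + 1) * (z.1.1 + 1) * z.2.2.1.lg) :=
  ⟨_, fun K _ => ((Comp.cond (K := K)
    (b := fun z : MEnv K × List K × FQ × List K => isTwo z.2.2.1.1)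
    (f := fun z => chiAux z.1 z.2.1 z.2.2.1.1 z.2.2.1.2 (fmod z.1 z.2.1 z.2.2.2))
    (g := fun z => powmod z.1 z.2.1 z.2.2.1.1.tail
      (chiAux z.1 z.2.1 z.2.2.1.1 z.2.2.1.2 (fmod z.1 z.2.1 z.2.2.2)))).congr
      (fun _ => rfl)).bigO 8 (fun z => by
      obtain ⟨E, f, Q, a⟩ := z
      simp only [length_fmod, length_chiAux, FQ.lg, List.length_tail]
      have h1 : (f.length + (f.length - 1) + 1) * (E.1 + 1) * (Q.1.length + 1) * (Q.2 + 1) ≤
        (2 * (f.length + a.length + 1)) * (E.1 + 1) * (Q.1.length + 1) * (Q.2 + 1) :=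
        Nat.mul_le_mul_right _ (Nat.mul_le_mul_right _ (Nat.mul_le_mul_right _ (by omega)))
      have h2 : (2 * (f.length + a.length + 1)) * (E.1 + 1) * (Q.1.length + 1) * (Q.2 + 1) =
        2 * ((f.length + a.length + 1) * (E.1 + 1) * ((Q.1.length + 1) * (Q.2 + 1))) := by ring
      have h3 : (f.length + a.length + 1) * (E.1 + 1) ≤
        (f.length + a.length + 1) * (E.1 + 1) * ((Q.1.length + 1) * (Q.2 + 1)) :=
        Nat.le_mul_of_pos_right _ (Nat.mul_pos (by omega) (by omega))
      have h4 : (f.length + (f.length - 1) + 1) * (E.1 + 1) * (Q.1.length - 1 + 1) ≤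
        (2 * (f.length + a.length + 1)) * (E.1 + 1) * (Q.1.length + 1) :=
        Nat.mul_le_mul (Nat.mul_le_mul_right _ (by omega)) (by omega)
      have h5 : (2 * (f.length + a.length + 1)) * (E.1 + 1) * (Q.1.length + 1) ≤
        (2 * (f.length + a.length + 1)) * (E.1 + 1) * (Q.1.length + 1) * (Q.2 + 1) :=
        Nat.le_mul_of_pos_right _ (by omega)
      cases isTwo Q.1
      · simp only [cond_false]
        omega
      · simp only [cond_true]
        omega)⟩

def chimodCd : Cd := chimod_ex.choose

instance compChimod {α : Type} [Enc K α] {E : α → MEnv K} {f : α → List K} {Q : α → FQ}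
    {s : α → List K} {c c' d d' : Cd} {T T' T'' T3 : α → ℕ} [h : Comp K E c T]
    [h' : Comp K f c' T'] [h'' : Comp K Q d T''] [h3 : Comp K s d' T3] :
    Comp K (fun x => chimod (E x) (f x) (Q x) (s x))
      (chimodCd.comp (c.pair (c'.pair (d.pair d'))))
      (fun x => T x + (T' x + (T'' x + T3 x)) +
        ((f x).length + (s x).length + 1) * ((E x).1 + 1) * (Q x).lg) :=
  (chimod_ex.choose_spec K).app2 (f' := fun x => (f x, (Q x, s x))) h
    (Comp.pair (h := h') (h' := Comp.pair (h := h'') (h' := h3)))

end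

end Pool.Agent.BiFac

end

section

/-!
# Roots: `p`-th roots in characteristic `p` and Newton iteration for `e`-th roots
-/

set_option autoImplicit false

namespace Pool.Agent.BiFac

open Polynomial Pool.Agent.TreeRAM

variable {K : Type} [Field K]

/-! ### Every `n`-th element of a list -/

/-- Skip `c` elements, then keep every `n`-th element. -/
def everyAux {α : Type} (n : ℕ) : ℕ → List α → List α
  | _, [] => []
  | 0, a :: l => a :: everyAux n (n - 1) l
  | c + 1, _ :: l => everyAux n c l

/-- The elements `0, n, 2 n, ...` of a list. -/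
def every {α : Type} (n : ℕ) (l : List α) : List α := everyAux n 0 l

theorem everyAux_sublist {α : Type} (n c : ℕ) (l : List α) : (everyAux n c l).Sublist l := by
  induction l generalizing c with
  | nil => simp [everyAux]
  | cons a l ih =>
    cases c with
    | zero => exact (ih _).cons_cons a
    | succ c => exact (ih c).cons a

theorem getD_everyAux {α : Type} {n : ℕ} (hn : 0 < n) (c : ℕ) (l : List α) (i : ℕ) (d : α) :
    (everyAux n c l).getD i d = l.getD (c + n * i) d := by
  induction l generalizing c i with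
  | nil => simp [everyAux]
  | cons a l ih =>
    cases c with
    | zero =>
      rw [everyAux]
      cases i with
      | zero => simp
      | succ i =>
        rw [List.getD_cons_succ, ih, zero_add]
        have : n * (i + 1) = (n - 1 + n * i) + 1 := by
          rw [mul_add]
          omega
        rw [this, List.getD_cons_succ]
    | succ c =>
      rw [everyAux, ih]
      have : c + 1 + n * i = (c + n * i) + 1 := by ring
      rw [this, List.getD_cons_succ]

theorem length_everyAux {α : Type} {n : ℕ} (hn : 0 < n) (c m : ℕ) (l : List α)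
    (h : l.length = c + n * m + 1) : (everyAux n c l).length = m + 1 := by
  induction l generalizing c m with
  | nil => simp at h
  | cons a l ih =>
    rw [List.length_cons] at h
    cases c with
    | zero =>
      rw [everyAux, List.length_cons]
      cases m with
      | zero =>
        have : l = [] := List.length_eq_zero_iff.1 (by omega)
        rw [this]
        rfl
      | succ m =>
        rw [ih (n - 1) m (by rw [mul_add] at h; omega)]
    | succ c =>
      rw [everyAux]
      exact ih c m (by omega)

theorem everyAux_ex : ∃ c, ∀ (K : Type) [Field K] (α : Type) [Enc K α],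
    Comp K (fun z : ℕ × ℕ × List α => everyAux z.1 z.2.1 z.2.2) c (fun z => z.2.2.length) :=
  ⟨_, fun K _ α _ => (Comp.rec1 (K := K) (isLeaf := fun z : ℕ × ℕ × List α => z.2.2.isEmpty)
    (leaf := fun _ => [])
    (next := fun z => (z.1, (bif decide (z.2.1 = 0) then z.1 - 1 else z.2.1 - 1), z.2.2.tail))
    (join := fun z r => bif decide (z.2.1 = 0) then lcase z.2.2 r (fun a _ => a :: r) else r)
    (T := fun z => 2 * z.2.2.length)
    (fun z => z.2.2.length)
    (by rintro ⟨n, c, l⟩ h; cases l <;> simp_all [everyAux])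
    (by rintro ⟨n, c, l⟩ h; cases l <;> cases c <;> simp_all [everyAux])
    (by rintro ⟨n, c, l⟩ h; cases l <;> simp_all)
    (by rintro ⟨n, c, l⟩ h; cases l <;> simp_all)
    (by rintro ⟨n, c, l⟩ h; cases l <;> cases c <;> simp_all <;> omega)).bigO 2
      (fun z => by omega)⟩

theorem every_ex : ∃ c, ∀ (K : Type) [Field K] (α : Type) [Enc K α],
    Comp K (fun z : ℕ × List α => every z.1 z.2) c (fun z => z.2.length) := by
  obtain ⟨c, hc⟩ := everyAux_ex
  exact ⟨_, fun K _ α _ => ((hc K α).comp (f := fun z : ℕ × List α => (z.1, (0 : ℕ), z.2))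
    Comp.pair).mono (fun z => by simp)⟩

noncomputable def everyCd : Cd := every_ex.choose

instance compEvery {α β : Type} [Enc K α] [Enc K β] {f : α → ℕ} {g : α → List β} {c d : Cd}
    {T T' : α → ℕ} [h : Comp K f c T] [h' : Comp K g d T'] : Comp K (fun x => every (f x) (g x))
      (everyCd.comp (c.pair d)) (fun x => T x + T' x + (g x).length) :=
  (every_ex.choose_spec K β).app2 h h'

/-! ### `p`-th roots -/

/-- the `p`-th root of a `p`-th power in `K[x]` (`pn = p` in unary) -/
def prootP (Q : FQ) (pn : ℕ) (f : List K) : List K := (every pn f).map (frobK Q.1 (Q.2 - 1))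

/-- the `p`-th root of a `p`-th power in `K[x][y]` (`pn = p` in unary) -/
def prootB (Q : FQ) (pn : ℕ) (H : List (List K)) : List (List K) :=
  (every pn H).map (prootP Q pn)

theorem frobK_zero (bits : List Bool) (j : ℕ) (h : bval bits ≠ 0) :
    frobK bits j (0 : K) = 0 := by
  rw [frobK_eq, zero_pow (pow_ne_zero _ h)]

theorem FQ.Ok.charP [Fintype K] {Q : FQ} {p : ℕ} (hQ : Q.Ok K p) : CharP K p := by
  have hp : Fact p.Prime := ⟨hQ.prime⟩
  obtain ⟨q, hq⟩ := CharP.exists K
  have hqp : q.Prime := CharP.char_is_prime K q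
  have h1 : q ∣ Fintype.card K := (CharP.cast_eq_zero_iff K q _).1 (Nat.cast_card_eq_zero K)
  rw [hQ.card] at h1
  have h2 := (Nat.prime_dvd_prime_iff_eq hqp hQ.prime).1 (hqp.dvd_of_dvd_pow h1)
  rwa [← h2]

theorem frobK_pow_eq [Fintype K] {Q : FQ} {p : ℕ} (hQ : Q.Ok K p) (a : K) :
    frobK Q.1 (Q.2 - 1) (a ^ p) = a := by
  have hp : Fact p.Prime := ⟨hQ.prime⟩
  have := hQ.charP
  have h := frobK_inv hQ (a ^ p)
  exact frobenius_inj K p h

theorem bval_ne_zero [Fintype K] {Q : FQ} {p : ℕ} (hQ : Q.Ok K p) : bval Q.1 ≠ 0 := by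
  rw [hQ.bits, bval_bits]
  exact hQ.prime.ne_zero

theorem coeff_pow_char {R : Type} [CommRing R] {p : ℕ} [Fact p.Prime] [CharP R p] (g : R[X])
    (i : ℕ) : (g ^ p).coeff (p * i) = g.coeff i ^ p := by
  rw [← map_frobenius_expand, coeff_map, mul_comm, coeff_expand_mul (Fact.out : p.Prime).pos]
  rfl

theorem prootP_spec [Fintype K] {Q : FQ} {p : ℕ} (hQ : Q.Ok K p) {f : List K} {g : K[X]}
    (hf : toP f = g ^ p) : toP (prootP Q p f) = g := by
  have hp : Fact p.Prime := ⟨hQ.prime⟩
  have := hQ.charP
  ext i
  have h1 : (every p f).getD i 0 = g.coeff i ^ p := by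
    rw [every, getD_everyAux hQ.prime.pos, zero_add, ← coeff_toP, hf, coeff_pow_char]
  rw [coeff_toP, prootP]
  have h2 : ((every p f).map (frobK Q.1 (Q.2 - 1))).getD i 0 =
      frobK Q.1 (Q.2 - 1) ((every p f).getD i 0) := by
    conv_lhs => rw [← frobK_zero Q.1 (Q.2 - 1) (bval_ne_zero hQ)]
    rw [List.getD_map]
  rw [h2, h1, frobK_pow_eq hQ]

theorem prootB_spec [Fintype K] {Q : FQ} {p : ℕ} (hQ : Q.Ok K p) {H : List (List K)}
    {G : K[X][X]} (hH : toB H = G ^ p) : toB (prootB Q p H) = G := by
  have hp : Fact p.Prime := ⟨hQ.prime⟩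
  have := hQ.charP
  ext1 i
  have h1 : toP ((every p H).getD i []) = G.coeff i ^ p := by
    rw [every, getD_everyAux hQ.prime.pos, zero_add, ← coeff_toB, hH, coeff_pow_char]
  rw [coeff_toB, prootB]
  have h2 : ((every p H).map (prootP Q p)).getD i [] = prootP Q p ((every p H).getD i []) := by
    have : prootP Q p ([] : List K) = [] := rfl
    conv_lhs => rw [← this]
    rw [List.getD_map]
  rw [h2]
  exact prootP_spec hQ h1

theorem length_prootP_le (Q : FQ) (pn : ℕ) (f : List K) :
    (prootP Q pn f).length ≤ f.length := by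
  rw [prootP, List.length_map]
  exact (everyAux_sublist pn 0 f).length_le

theorem length_prootP_eq (Q : FQ) {pn : ℕ} (hp : 0 < pn) {f : List K} {n : ℕ}
    (h : f.length = pn * n + 1) : (prootP Q pn f).length = n + 1 := by
  rw [prootP, List.length_map]
  exact length_everyAux hp 0 n f (by omega)

theorem length_prootB (Q : FQ) (pn : ℕ) (H : List (List K)) :
    (prootB Q pn H).length ≤ H.length := by
  rw [prootB, List.length_map]
  exact (everyAux_sublist pn 0 H).length_le

theorem length_prootB_eq (Q : FQ) {pn : ℕ} (hp : 0 < pn) {H : List (List K)} {n : ℕ}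
    (h : H.length = pn * n + 1) : (prootB Q pn H).length = n + 1 := by
  rw [prootB, List.length_map]
  exact length_everyAux hp 0 n H (by omega)

theorem tot_le_of_sublist {α : Type} {L M : List (List α)} (h : L.Sublist M) : tot L ≤ tot M := by
  have h2 : (L.map (fun F => F.length + 1)).Sublist (M.map (fun F => F.length + 1)) := h.map _
  exact h2.sum_le_sum (fun _ _ => Nat.zero_le _)

private theorem length_le_tot {α : Type} (H : List (List α)) : H.length ≤ tot H := by
  unfold tot
  induction H with
  | nil => simp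
  | cons r H ih =>
    simp only [List.map_cons, List.sum_cons, List.length_cons]
    omega

theorem tot_prootB (Q : FQ) (pn : ℕ) (H : List (List K)) : tot (prootB Q pn H) ≤ tot H := by
  refine le_trans ?_ (tot_le_of_sublist (everyAux_sublist pn 0 H))
  unfold tot prootB
  rw [List.map_map]
  apply List.sum_le_sum
  intro F _
  exact Nat.succ_le_succ (length_prootP_le Q pn F)

theorem prootP_ex : ∃ c, ∀ (K : Type) [Field K],
    Comp K (fun z : FQ × ℕ × List K => prootP z.1 z.2.1 z.2.2) c
      (fun z => (z.2.2.length + 1) * z.1.lg) := by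
  obtain ⟨c, hc⟩ := frobK_ex
  exact ⟨_, fun K _ => (Comp.map (K := K) (l := fun z : FQ × ℕ × List K => every z.2.1 z.2.2)
    (g := fun z a => frobK z.1.1 (z.1.2 - 1) a)
    (hg := (hc K).comp (f := fun z : (FQ × ℕ × List K) × K => (z.1.1.1, z.1.1.2 - 1, z.2))
      Comp.pair)).bigO 4 (fun z => by
        have hl := (everyAux_sublist z.2.1 0 z.2.2).length_le
        have hlg : 1 ≤ z.1.lg := Nat.mul_pos (Nat.succ_pos _) (Nat.succ_pos _)
        have h1 : (z.1.1.length + 1) * (z.1.2 - 1 + 1) ≤ 1 * z.1.lg := by
          rw [one_mul]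
          exact Nat.mul_le_mul_left _ (by omega)
        simp only [List.map_const', List.sum_replicate, smul_eq_mul, zero_add, every]
        set N := (everyAux z.2.1 0 z.2.2).length
        set M := z.2.2.length
        have h2 : N * ((z.1.1.length + 1) * (z.1.2 - 1 + 1) + 1) ≤ M * (2 * z.1.lg) :=
          Nat.mul_le_mul hl (by omega)
        nlinarith)⟩

noncomputable def prootPCd : Cd := prootP_ex.choose

instance compProotP {α : Type} [Enc K α] {f : α → FQ} {g : α → ℕ} {l : α → List K}
    {c d e : Cd} {T T' T'' : α → ℕ} [h : Comp K f c T] [h' : Comp K g d T']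
    [h'' : Comp K l e T''] :
    Comp K (fun x => prootP (f x) (g x) (l x)) (prootPCd.comp (c.pair (d.pair e)))
      (fun x => T x + (T' x + T'' x) + ((l x).length + 1) * (f x).lg) :=
  (prootP_ex.choose_spec K).comp (Comp.pair (h := h) (h' := Comp.pair (h := h') (h' := h'')))

theorem prootB_ex : ∃ c, ∀ (K : Type) [Field K],
    Comp K (fun z : FQ × ℕ × List (List K) => prootB z.1 z.2.1 z.2.2) c
      (fun z => (tot z.2.2 + 1) * z.1.lg) :=
  ⟨_, fun K _ => (Comp.map (K := K)
    (l := fun z : FQ × ℕ × List (List K) => every z.2.1 z.2.2)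
    (g := fun z a => prootP z.1 z.2.1 a)).bigO 4 (fun z => by
        obtain ⟨Q, pn, H⟩ := z
        have hlg : 1 ≤ Q.lg := Nat.mul_pos (Nat.succ_pos _) (Nat.succ_pos _)
        have ht : tot (every pn H) ≤ tot H := tot_le_of_sublist (everyAux_sublist pn 0 H)
        have hH : H.length ≤ tot H := length_le_tot H
        have hs : ∀ L : List (List K), (L.map (fun b => 0 + (0 + 0) + (b.length + 1) * Q.lg +
            1)).sum ≤ 2 * (tot L * Q.lg) := by
          intro L
          induction L with
          | nil => simp [tot]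
          | cons r L ih =>
            have e : tot (r :: L) = (r.length + 1) + tot L := by simp [tot]
            rw [List.map_cons, List.sum_cons, e]
            nlinarith [Nat.zero_le (r.length * Q.lg)]
        have h3 := hs (every pn H)
        have h4 : tot (every pn H) * Q.lg ≤ tot H * Q.lg := Nat.mul_le_mul_right _ ht
        have h5 : H.length ≤ tot H * Q.lg := hH.trans (Nat.le_mul_of_pos_right _ hlg)
        simp only [] at h3 ⊢
        nlinarith)⟩

noncomputable def prootBCd : Cd := prootB_ex.choose

instance compProotB {α : Type} [Enc K α] {f : α → FQ} {g : α → ℕ} {l : α → List (List K)}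
    {c d e : Cd} {T T' T'' : α → ℕ} [h : Comp K f c T] [h' : Comp K g d T']
    [h'' : Comp K l e T''] :
    Comp K (fun x => prootB (f x) (g x) (l x)) (prootBCd.comp (c.pair (d.pair e)))
      (fun x => T x + (T' x + T'' x) + (tot (l x) + 1) * (f x).lg) :=
  (prootB_ex.choose_spec K).comp (Comp.pair (h := h) (h' := Comp.pair (h := h') (h' := h'')))

/-! ### Powers -/

/-- `A ^ e` with precision `w` by repeated squaring. -/
def bpow (E : MEnv K) (w : ℕ) (A : List (List K)) (e : ℕ) : List (List K) :=
  if e = 0 then [[1]] else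
    bif decide (e % 2 = 1) then
      bmul E w (bmul E w (bpow E w A (e / 2)) (bpow E w A (e / 2))) A
    else bmul E w (bpow E w A (e / 2)) (bpow E w A (e / 2))
termination_by e
decreasing_by
  all_goals exact Nat.div_lt_self (by omega) (by norm_num)

theorem bpow_zero (E : MEnv K) (w : ℕ) (A : List (List K)) : bpow E w A 0 = [[1]] := by
  rw [bpow, if_pos rfl]

theorem bpow_pos (E : MEnv K) (w : ℕ) (A : List (List K)) {e : ℕ} (he : e ≠ 0) :
    bpow E w A e = bif decide (e % 2 = 1) then
      bmul E w (bmul E w (bpow E w A (e / 2)) (bpow E w A (e / 2))) A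
    else bmul E w (bpow E w A (e / 2)) (bpow E w A (e / 2)) := by
  rw [bpow, if_neg he]

theorem length_bpow_eq (E : MEnv K) (w : ℕ) {A : List (List K)} {n : ℕ}
    (hA : A.length = n + 1) (e : ℕ) : (bpow E w A e).length = e * n + 1 := by
  induction e using Nat.strong_induction_on with
  | _ e ih =>
    by_cases he : e = 0
    · subst he
      simp [bpow_zero]
    · have h := ih (e / 2) (Nat.div_lt_self (by omega) (by norm_num))
      rw [bpow_pos E w A he]
      have h2 := Nat.div_add_mod e 2
      by_cases ho : e % 2 = 1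
      · rw [decide_eq_true ho, cond_true, length_bmul, length_bmul, h, hA]
        have : e * n = 2 * (e / 2 * n) + n := by
          conv_lhs => rw [← h2, ho]
          ring
        omega
      · rw [decide_eq_false ho, cond_false, length_bmul, h]
        have : e * n = 2 * (e / 2 * n) := by
          conv_lhs => rw [← h2, show e % 2 = 0 by omega]
          ring
        omega

theorem length_bpow_le (E : MEnv K) (w : ℕ) (A : List (List K)) (e : ℕ) :
    (bpow E w A e).length ≤ e * A.length + 1 := by
  induction e using Nat.strong_induction_on with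
  | _ e ih =>
    by_cases he : e = 0
    · subst he
      simp [bpow_zero]
    · have h := ih (e / 2) (Nat.div_lt_self (by omega) (by norm_num))
      rw [bpow_pos E w A he]
      have h2 := Nat.div_add_mod e 2
      by_cases ho : e % 2 = 1
      · rw [decide_eq_true ho, cond_true, length_bmul, length_bmul]
        have : e * A.length = 2 * (e / 2 * A.length) + A.length := by
          conv_lhs => rw [← h2, ho]
          ring
        omega
      · rw [decide_eq_false ho, cond_false, length_bmul]
        have : e * A.length = 2 * (e / 2 * A.length) := by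
          conv_lhs => rw [← h2, show e % 2 = 0 by omega]
          ring
        omega

theorem rows_bpow (E : MEnv K) {w : ℕ} (hw : 0 < w) (A : List (List K)) (e : ℕ) :
    ∀ r ∈ bpow E w A e, r.length ≤ w := by
  by_cases he : e = 0
  · subst he
    rw [bpow_zero]
    intro r hr
    rw [List.mem_singleton] at hr
    rw [hr, List.length_singleton]
    exact hw
  · rw [bpow_pos E w A he]
    intro r hr
    by_cases ho : e % 2 = 1
    · rw [decide_eq_true ho, cond_true] at hr
      exact (rows_bmul _ _ _ _ r hr).le
    · rw [decide_eq_false ho, cond_false] at hr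
      exact (rows_bmul _ _ _ _ r hr).le

theorem cg_bpow {E : MEnv K} (hE : E.Good) {w : ℕ} {A : List (List K)} {e : ℕ}
    (hf : 2 * (e * A.length + A.length + 3) * (w + 1) ≤ E.cap) :
    Cg w (toB (bpow E w A e)) (toB A ^ e) := by
  induction e using Nat.strong_induction_on with
  | _ e ih =>
    by_cases he : e = 0
    · subst he
      rw [bpow_zero, pow_zero]
      have : toB [[(1 : K)]] = 1 := by simp
      rw [this]
      exact Cg.refl _ _
    · have hlt := Nat.div_lt_self (show 0 < e by omega) (show 1 < 2 by norm_num)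
      have h := ih (e / 2) hlt (le_trans (Nat.mul_le_mul_right _ (Nat.mul_le_mul_left _
        (by have := Nat.mul_le_mul_right A.length hlt.le; omega))) hf)
      have h2 := Nat.div_add_mod e 2
      have hl := length_bpow_le E w A (e / 2)
      have hmul : e * A.length = 2 * (e / 2 * A.length) + e % 2 * A.length := by
        conv_lhs => rw [← h2]
        ring
      have hsq : Cg w (toB (bmul E w (bpow E w A (e / 2)) (bpow E w A (e / 2))))
          (toB A ^ (e / 2) * toB A ^ (e / 2)) := by
        refine (cg_bmul_of_cap hE (le_trans (Nat.mul_le_mul_right _ (Nat.mul_le_mul_left _ ?_))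
          hf)).trans (h.mul h)
        omega
      rw [bpow_pos E w A he]
      by_cases ho : e % 2 = 1
      · rw [decide_eq_true ho, cond_true]
        have e1 : toB A ^ e = toB A ^ (e / 2) * toB A ^ (e / 2) * toB A := by
          conv_lhs => rw [← h2, ho]
          ring
        rw [e1]
        refine (cg_bmul_of_cap hE (le_trans (Nat.mul_le_mul_right _ (Nat.mul_le_mul_left _ ?_))
          hf)).trans (hsq.mul (Cg.refl _ _))
        rw [length_bmul]
        rw [ho] at hmul
        omega
      · rw [decide_eq_false ho, cond_false]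
        have e1 : toB A ^ e = toB A ^ (e / 2) * toB A ^ (e / 2) := by
          conv_lhs => rw [← h2, show e % 2 = 0 by omega]
          ring
        rw [e1]
        exact hsq

theorem bpow_ex : ∃ c, ∀ (K : Type) [Field K],
    Comp K (fun z : MEnv K × ℕ × List (List K) × ℕ => bpow z.1 z.2.1 z.2.2.1 z.2.2.2) c
      (fun z => (z.2.2.2 + 1) * ((z.2.2.1.length + 1) * (z.2.1 + 1) * (z.1.1 + 1))) :=
  ⟨_, fun K _ => (Comp.rec1 (K := K)
    (isLeaf := fun z : MEnv K × ℕ × List (List K) × ℕ => decide (z.2.2.2 = 0))
    (leaf := fun _ => [[1]]) (next := fun z => (z.1, z.2.1, z.2.2.1, z.2.2.2 / 2))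
    (join := fun z r => bif decide (z.2.2.2 % 2 = 1) then
      bmul z.1 z.2.1 (bmul z.1 z.2.1 r r) z.2.2.1 else bmul z.1 z.2.1 r r)
    (T := fun z => (24 * z.2.2.2 + 1) * ((z.2.2.1.length + 1) * (z.2.1 + 1) * (z.1.1 + 1)))
    (h3 := Comp.cond' (K := K)
      (b := fun z : (MEnv K × ℕ × List (List K) × ℕ) × List (List K) =>
        decide (z.1.2.2.2 % 2 = 1))
      (f := fun z => bmul z.1.1 z.1.2.1 (bmul z.1.1 z.1.2.1 z.2 z.2) z.1.2.2.1)
      (g := fun z => bmul z.1.1 z.1.2.1 z.2 z.2) inferInstance inferInstance inferInstance)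
    (fun z => z.2.2.2)
    (by
      rintro ⟨E, w, A, e⟩ h
      simp only [decide_eq_true_eq] at h
      subst h
      exact bpow_zero _ _ _)
    (by
      rintro ⟨E, w, A, e⟩ h
      simp only [decide_eq_false_iff_not] at h
      exact bpow_pos _ _ _ h)
    (by
      rintro ⟨E, w, A, e⟩ h
      simp only [decide_eq_false_iff_not] at h
      exact Nat.div_lt_self (show 0 < e by omega) (by norm_num))
    (by
      rintro ⟨E, w, A, e⟩ h
      simp only
      exact Nat.zero_le _)
    (by
      rintro ⟨E, w, A, e⟩ h
      simp only [decide_eq_false_iff_not] at h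
      simp only [zero_add, add_zero, length_bmul]
      have hl := length_bpow_le E w A (e / 2)
      have h2 : 2 * (e / 2) ≤ e := Nat.mul_div_le e 2
      set l := (bpow E w A (e / 2)).length
      set a := A.length
      set M := (w + 1) * (E.1 + 1) with hM
      have hM1 : 1 ≤ M := Nat.mul_pos (Nat.succ_pos _) (Nat.succ_pos _)
      have hL : (a + 1) * (w + 1) * (E.1 + 1) = (a + 1) * M := by rw [hM, mul_assoc]
      have hea : 2 * (e / 2 * a) ≤ e * a := by
        calc 2 * (e / 2 * a) = 2 * (e / 2) * a := by ring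
          _ ≤ e * a := Nat.mul_le_mul_right _ h2
      have c1 : (l + l + 1) * (w + 1) * (E.1 + 1) ≤ (e * a + 3) * M := by
        rw [hM, mul_assoc]
        exact Nat.mul_le_mul_right _ (by omega)
      have c2 : (l + l - 1 + a + 1) * (w + 1) * (E.1 + 1) ≤ (e * a + a + 2) * M := by
        rw [hM, mul_assoc]
        exact Nat.mul_le_mul_right _ (by omega)
      have c3 : min (e % 2) 1 ≤ 1 := min_le_right _ _
      have he : 1 ≤ e := by omega
      have c4 : (e * a + 3) * M + (e * a + a + 2) * M + 2 * e + 3 ≤ 10 * e * ((a + 1) * M) := by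
        have d1 : (e * a + 3) + (e * a + a + 2) ≤ 5 * e * (a + 1) := by nlinarith
        have d2 : 2 * e + 3 ≤ 5 * e * ((a + 1) * M) := by
          have d3 : e * 1 ≤ e * M := Nat.mul_le_mul_left e hM1
          have d4 : 5 * e * ((a + 1) * M) = 5 * (e * a * M) + 5 * (e * M) := by ring
          omega
        nlinarith [Nat.mul_le_mul_right M d1]
      have c5 : (24 * (e / 2) + 1) * ((a + 1) * M) + 12 * e * ((a + 1) * M) ≤
          (24 * e + 1) * ((a + 1) * M) := by
        rw [← add_mul]
        exact Nat.mul_le_mul_right _ (by omega)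
      rw [hL]
      have c6 : 10 * e * ((a + 1) * M) ≤ 12 * e * ((a + 1) * M) :=
        Nat.mul_le_mul_right _ (by omega)
      cases decide (e % 2 = 1) <;> simp only [cond_true, cond_false] <;> omega)).bigO 24
        (fun z => by nlinarith [Nat.zero_le (z.2.2.2 * ((z.2.2.1.length + 1) * (z.2.1 + 1) *
          (z.1.1 + 1))), Nat.zero_le ((z.2.2.1.length + 1) * (z.2.1 + 1) * (z.1.1 + 1))])⟩

noncomputable def bpowCd : Cd := bpow_ex.choose

instance compBpow {α : Type} [Enc K α] {E : α → MEnv K} {w : α → ℕ} {f : α → List (List K)}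
    {g : α → ℕ} {c1 c2 c3 c4 : Cd} {T1 T2 T3 T4 : α → ℕ} [h1 : Comp K E c1 T1]
    [h2 : Comp K w c2 T2] [h3 : Comp K f c3 T3] [h4 : Comp K g c4 T4] :
    Comp K (fun x => bpow (E x) (w x) (f x) (g x)) (bpowCd.comp (c1.pair (c2.pair (c3.pair c4))))
      (fun x => T1 x + (T2 x + (T3 x + T4 x)) +
        (g x + 1) * (((f x).length + 1) * (w x + 1) * ((E x).1 + 1))) :=
  (bpow_ex.choose_spec K).comp (Comp.pair (h := h1) (h' := Comp.pair (h := h2)
    (h' := Comp.pair (h := h3) (h' := h4))))

/-! ### Newton iteration -/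

/-- Multiplication of all rows by a scalar. -/
def scaleB (c : K) (a : List (List K)) : List (List K) := a.map (smulP c)

theorem toB_scaleB (c : K) (a : List (List K)) : toB (scaleB c a) = C (C c) * toB a := by
  induction a with
  | nil => simp [scaleB]
  | cons r a ih =>
    have h : scaleB c (r :: a) = smulP c r :: scaleB c a := rfl
    rw [h, toB_cons, toB_cons, ih, toP_smulP, C_mul]
    ring

theorem scaleB_ex : ∃ c, ∀ (K : Type) [Field K],
    Comp K (fun z : K × List (List K) => scaleB z.1 z.2) c (fun z => tot z.2) :=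
  ⟨_, fun K _ => (Comp.map (K := K) (l := fun z : K × List (List K) => z.2)
    (g := fun z r => smulP z.1 r)).mono (fun z => by simp [tot])⟩

noncomputable def scaleBCd : Cd := scaleB_ex.choose

instance compScaleB {α : Type} [Enc K α] {f : α → K} {g : α → List (List K)} {c d : Cd}
    {T T' : α → ℕ} [h : Comp K f c T] [h' : Comp K g d T'] : Comp K (fun x => scaleB (f x) (g x))
      (scaleBCd.comp (c.pair d)) (fun x => T x + T' x + tot (g x)) :=
  (scaleB_ex.choose_spec K).app2 h h'

theorem tot_of_rows {α : Type} {w : ℕ} {L : List (List α)} (h : ∀ r ∈ L, r.length = w) :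
    tot L = L.length * (w + 1) := by
  unfold tot
  induction L with
  | nil => simp
  | cons r L ih =>
    rw [List.map_cons, List.sum_cons, ih (fun s hs => h s (List.mem_cons_of_mem _ hs)),
      h r List.mem_cons_self, List.length_cons]
    ring

/-- The numerator `(H - R ^ e) / e`. -/
def rootNum (E : MEnv K) (w e : ℕ) (H R : List (List K)) : List (List K) :=
  scaleB (natK e)⁻¹ (bsub w H (bmul E w (bpow E w R (e - 1)) R))

/-- One step of the Newton iteration, with precision `w`. -/
def rootStep (E : MEnv K) (w e : ℕ) (H R : List (List K)) : List (List K) :=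
  badd w R ((bquo E w (rootNum E w e H R) (bpow E w R (e - 1))).take (R.length - 1))

/-- the `e`-th root modulo `x ^ (2 ^ t)` starting from the root modulo `x` -/
def nthRoot (E : MEnv K) (t e : ℕ) (H : List (List K)) (R0 : List K) : List (List K) :=
  match t with
  | 0 => lift1 R0
  | t + 1 => rootStep E (2 ^ (t + 1)) e H (nthRoot E t e H R0)

theorem length_rootNum (E : MEnv K) (w e : ℕ) (H R : List (List K)) :
    (rootNum E w e H R).length =
      max H.length ((bpow E w R (e - 1)).length + R.length - 1) := by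
  rw [rootNum, scaleB, List.length_map, length_bsub, length_bmul]

theorem length_rootStep (E : MEnv K) (w e : ℕ) (H R : List (List K)) :
    (rootStep E w e H R).length = R.length := by
  rw [rootStep, length_badd, List.length_take]
  omega

theorem length_nthRoot (E : MEnv K) (t e : ℕ) (H : List (List K)) (R0 : List K) :
    (nthRoot E t e H R0).length = R0.length := by
  induction t with
  | zero => simp [nthRoot, lift1]
  | succ t ih => rw [nthRoot, length_rootStep, ih]

theorem rows_nthRoot (E : MEnv K) (t e : ℕ) (H : List (List K)) (R0 : List K) :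
    ∀ r ∈ nthRoot E t e H R0, r.length ≤ 2 ^ t := by
  cases t with
  | zero =>
    intro r hr
    simp only [nthRoot, lift1, List.mem_map] at hr
    obtain ⟨c, -, rfl⟩ := hr
    simp
  | succ t =>
    intro r hr
    exact (rows_badd _ _ _ r hr).le

theorem cg_take {w n : ℕ} {q : List (List K)} {y : K[X][X]} (h : Cg w (toB q) y)
    (hy : ∀ j, n ≤ j → y.coeff j = 0) : Cg w (toB (q.take n)) y := by
  rw [cg_iff] at h ⊢
  intro i j hi
  rw [coeff_toB]
  by_cases hj : j < n
  · have h2 := h i j hi
    rw [coeff_toB] at h2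
    rw [← h2, List.getD_eq_getElem?_getD, List.getD_eq_getElem?_getD, List.getElem?_take,
      if_pos hj]
  · rw [hy j (not_lt.1 hj), List.getD_eq_getElem?_getD, List.getElem?_take, if_neg hj]
    simp

/-- One step doubles the precision. -/
theorem cg_rootStep {E : MEnv K} (hE : E.Good) {k e : ℕ} {H R : List (List K)} {G : K[X][X]}
    (hf : Fits E (64 * (H.length + (e + 1) * (R.length + 1))) (k + k)) (hk : 0 < k)
    (hG : G.Monic) (he : (e : K) ≠ 0) (hH : Cg (k + k) (toB H) (G ^ e))
    (hR : Cg k (toB R) G) (hl : R.length = G.natDegree + 1) (hr : ∀ r ∈ R, r.length ≤ k) :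
    Cg (k + k) (toB (rootStep E (k + k) e H R)) G := by
  set w := k + k with hw
  set n := G.natDegree with hn
  obtain ⟨hML, hRn⟩ := ML.of_cg hR hG hk hl hr
  have hRm : (toB R).Monic := hML.monic
  obtain ⟨D, hD⟩ := exists_eq_add_C_mul hR.symm
  set y := C (X ^ k) * D with hy
  have he1 : 1 ≤ e := by
    rcases Nat.eq_zero_or_pos e with h | h
    · subst h
      simp at he
    · exact h
  -- sizes
  set Z := H.length + (e + 1) * (R.length + 1) with hZ
  have hZe : (e + 1) * (R.length + 1) = e * R.length + e + R.length + 1 := by ring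
  have hcap : ∀ m, m ≤ 64 * Z + 1 → 2 * m * (w + 1) ≤ E.cap := by
    intro m hm
    refine le_trans (Nat.mul_le_mul_right _ ?_) hf
    omega
  have hsub : (e - 1) * R.length ≤ e * R.length := Nat.mul_le_mul_right _ (by omega)
  have hA : Cg w (toB (bpow E w R (e - 1))) (toB R ^ (e - 1)) :=
    cg_bpow hE (hcap _ (by omega))
  have hAl : (bpow E w R (e - 1)).length = (e - 1) * n + 1 := length_bpow_eq E w hl (e - 1)
  have hAn : (toB R ^ (e - 1)).natDegree = (e - 1) * n := by
    rw [hRm.natDegree_pow, hRn]
  obtain ⟨hAML, hAdeg⟩ := ML.of_cg hA (hRm.pow _) (by omega) (by rw [hAl, hAn])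
    (rows_bpow E (by omega) R (e - 1))
  have hAn2 : (e - 1) * n ≤ e * R.length := by
    refine le_trans (Nat.mul_le_mul (Nat.sub_le e 1) (show n ≤ R.length by omega)) le_rfl
  -- the numerator
  have hP : Cg w (toB (bmul E w (bpow E w R (e - 1)) R)) (toB R ^ (e - 1) * toB R) :=
    (cg_bmul_of_cap hE (hcap _ (by rw [hAl]; omega))).trans (hA.mul (Cg.refl _ _))
  obtain ⟨z, hz⟩ := powAddExpansion (toB R) y e
  have hGe : Cg w (G ^ e) (toB R ^ e + (e : K[X][X]) * toB R ^ (e - 1) * y) := by
    refine ⟨z * D ^ 2, ?_⟩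
    conv_lhs => rw [hD, hz]
    have : y ^ 2 = C (X ^ w) * D ^ 2 := by
      rw [hy, hw, pow_add, C_mul]
      ring
    rw [this]
    ring
  have hRe : toB R ^ (e - 1) * toB R = toB R ^ e := by
    rw [← pow_succ, Nat.sub_add_cancel he1]
  have hnum : Cg w (toB (rootNum E w e H R)) (toB R ^ (e - 1) * y) := by
    rw [rootNum, toB_scaleB]
    have h1 := (cg_bsub w H (bmul E w (bpow E w R (e - 1)) R)).trans
      ((hH.trans hGe).sub hP)
    have h2 := (Cg.refl w (C (C (natK e : K)⁻¹))).mul h1
    have e1 : C (C (natK e : K)⁻¹) * (toB R ^ e + (e : K[X][X]) * toB R ^ (e - 1) * y -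
        toB R ^ (e - 1) * toB R) = toB R ^ (e - 1) * y := by
      rw [hRe]
      have e2 : (C (C (natK e : K)⁻¹) : K[X][X]) * (e : K[X][X]) = 1 := by
        have e3 : (e : K[X][X]) = C (C (e : K)) := by simp
        rw [e3, ← C_mul, ← C_mul, natK, inv_mul_cancel₀ he, C_1, C_1]
      linear_combination (toB R ^ (e - 1) * y) * e2
    rw [e1] at h2
    exact h2
  have hnl : (rootNum E w e H R).length ≤ H.length + (e * R.length + R.length + 1) := by
    rw [length_rootNum, hAl]
    omega
  have hq : Cg w (toB (bquo E w (rootNum E w e H R) (bpow E w R (e - 1)))) y := by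
    refine (cg_bquo hE ?_ hAML.monic hAML.len).trans ?_
    · refine Fits.mono hf ?_
      rw [hAl]
      omega
    · have h3 := hnum.divByMonic hA hAML.monic (hRm.pow _)
      rwa [mul_divByMonic_cancel_left _ (hRm.pow _)] at h3
  have hycoeff : ∀ j, n ≤ j → y.coeff j = 0 := by
    intro j hj
    have h4 : y = G - toB R := by rw [hD]; ring
    rw [h4, coeff_sub]
    rcases hj.eq_or_lt with h5 | h5
    · rw [← h5]
      have h6 : (toB R).coeff n = 1 := by
        rw [hn, ← hRn]
        exact hRm.coeff_natDegree
      rw [h6, hn, hG.coeff_natDegree, sub_self]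
    · rw [coeff_eq_zero_of_natDegree_lt h5, coeff_eq_zero_of_natDegree_lt (hRn ▸ h5), sub_self]
  rw [rootStep, hl, Nat.add_sub_cancel]
  have h7 := (cg_badd w R _).trans ((Cg.refl w (toB R)).add (cg_take hq hycoeff))
  rw [← hD] at h7
  exact h7

theorem nthRoot_spec {E : MEnv K} (hE : E.Good) {t e : ℕ} {H : List (List K)} {R0 : List K}
    {G : K[X][X]} (hf : Fits E (64 * (H.length + (e + 1) * (R0.length + 1))) (2 ^ t))
    (hG : G.Monic) (he : (e : K) ≠ 0) (hH : Cg (2 ^ t) (toB H) (G ^ e)) (hR : toP R0 = red G)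
    (hl : R0.length = G.natDegree + 1) :
    ML (2 ^ t) (nthRoot E t e H R0) ∧ Cg (2 ^ t) (toB (nthRoot E t e H R0)) G := by
  have key : Cg (2 ^ t) (toB (nthRoot E t e H R0)) G := by
    induction t with
    | zero =>
      rw [pow_zero, nthRoot, cg_one_iff, red_lift1, hR]
    | succ t ih =>
      have h2 : 2 ^ (t + 1) = 2 ^ t + 2 ^ t := by ring
      have hle : 2 ^ t ≤ 2 ^ (t + 1) := Nat.pow_le_pow_right (by norm_num) (by omega)
      have ih' := ih (le_trans (Nat.mul_le_mul_left _ (Nat.succ_le_succ hle)) hf) (hH.mono hle)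
      rw [nthRoot, h2]
      rw [h2] at hf hH
      refine cg_rootStep hE ?_ (by positivity) hG he hH ih' ?_ (rows_nthRoot _ _ _ _ _)
      · rw [length_nthRoot]
        exact hf
      · rw [length_nthRoot, hl]
  exact ⟨(ML.of_cg key hG (by positivity) (by rw [length_nthRoot, hl])
    (rows_nthRoot _ _ _ _ _)).1, key⟩

theorem rootStep_ex : ∃ c, ∀ (K : Type) [Field K],
    Comp K (fun z : MEnv K × (ℕ × ℕ) × List (List K) × List (List K) =>
      rootStep z.1 z.2.1.1 z.2.1.2 z.2.2.1 z.2.2.2) c
      (fun z => (z.2.2.1.length + (z.2.1.2 + 1) * (z.2.2.2.length + 1) + 1) *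
        ((z.2.1.1 + 1) * (z.1.1 + 1))) := by
  obtain ⟨cn, hn⟩ := natK_ex
  obtain ⟨cq, hq⟩ := bquo_ex
  exact ⟨_, fun K _ => by
    have hA : Comp K (fun z : MEnv K × (ℕ × ℕ) × List (List K) × List (List K) =>
        bpow z.1 z.2.1.1 z.2.2.2 (z.2.1.2 - 1)) _ _ := compBpow
    have hc : Comp K (fun z : MEnv K × (ℕ × ℕ) × List (List K) × List (List K) =>
        (natK z.2.1.2 : K)⁻¹) _ _ := Comp.invK (h := (hn K).app1
          (f := fun z : MEnv K × (ℕ × ℕ) × List (List K) × List (List K) => z.2.1.2)
          inferInstance)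
    have hP : Comp K (fun z : MEnv K × (ℕ × ℕ) × List (List K) × List (List K) =>
        bmul z.1 z.2.1.1 (bpow z.1 z.2.1.1 z.2.2.2 (z.2.1.2 - 1)) z.2.2.2) _ _ :=
      compBmul (h3 := hA)
    have hD : Comp K (fun z : MEnv K × (ℕ × ℕ) × List (List K) × List (List K) =>
        rootNum z.1 z.2.1.1 z.2.1.2 z.2.2.1 z.2.2.2) _ _ :=
      compScaleB (h := hc) (h' := compBsub (h4 := hP))
    have hQ : Comp K (fun z : MEnv K × (ℕ × ℕ) × List (List K) × List (List K) =>
        bquo z.1 z.2.1.1 (rootNum z.1 z.2.1.1 z.2.1.2 z.2.2.1 z.2.2.2)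
          (bpow z.1 z.2.1.1 z.2.2.2 (z.2.1.2 - 1))) _ _ :=
      (hq K).comp (f := fun z : MEnv K × (ℕ × ℕ) × List (List K) × List (List K) =>
        (z.1, z.2.1.1, rootNum z.1 z.2.1.1 z.2.1.2 z.2.2.1 z.2.2.2,
          bpow z.1 z.2.1.1 z.2.2.2 (z.2.1.2 - 1)))
        (Comp.pair (h' := Comp.pair (h' := Comp.pair (h := hD) (h' := hA))))
    exact (compBadd (K := K) (w := fun z : MEnv K × (ℕ × ℕ) × List (List K) × List (List K) =>
      z.2.1.1) (f := fun z => z.2.2.2)
      (g := fun z => (bquo z.1 z.2.1.1 (rootNum z.1 z.2.1.1 z.2.1.2 z.2.2.1 z.2.2.2)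
          (bpow z.1 z.2.1.1 z.2.2.2 (z.2.1.2 - 1))).take (z.2.2.2.length - 1))
      (h4 := Comp.take (h' := hQ))).bigO 100 (fun z => by
        obtain ⟨E, ⟨w, e⟩, H, R⟩ := z
        have hAl := length_bpow_le E w R (e - 1)
        have hDt : tot (bsub w H (bmul E w (bpow E w R (e - 1)) R)) =
            (bsub w H (bmul E w (bpow E w R (e - 1)) R)).length * (w + 1) :=
          tot_of_rows (rows_bsub _ _ _)
        simp only [hDt, length_bsub, length_bmul, length_rootNum, List.length_take, length_bquo]
        set a := (bpow E w R (e - 1)).length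
        set h := H.length
        set r := R.length
        set M := (w + 1) * (E.1 + 1) with hM
        set Z := h + (e + 1) * (r + 1) + 1 with hZ
        have hM1 : w + 1 ≤ M := Nat.le_mul_of_pos_right _ (Nat.succ_pos _)
        have hM0 : 1 ≤ M := by omega
        have k1 : ∀ m, m ≤ 2 * Z → m * (w + 1) * (E.1 + 1) ≤ 2 * (Z * M) := by
          intro m hm
          calc m * (w + 1) * (E.1 + 1) = m * M := by rw [hM, mul_assoc]
            _ ≤ 2 * Z * M := Nat.mul_le_mul_right _ hm
            _ = 2 * (Z * M) := mul_assoc _ _ _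
        have k2 : ∀ m, m ≤ 2 * Z → m * (w + 1) ≤ 2 * (Z * M) := by
          intro m hm
          calc m * (w + 1) ≤ 2 * Z * M := Nat.mul_le_mul hm hM1
            _ = 2 * (Z * M) := mul_assoc _ _ _
        have k3 : Z ≤ Z * M := Nat.le_mul_of_pos_right _ hM0
        have hZe : (e + 1) * (r + 1) = e * r + e + r + 1 := by ring
        have hsub : (e - 1) * r + r ≤ e * r + r := Nat.add_le_add_right
          (Nat.mul_le_mul_right _ (by omega)) _
        have ha : a + r + 1 ≤ Z := by
          rcases Nat.eq_zero_or_pos e with h0 | h0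
          · rw [h0] at hAl hZe
            simp only [Nat.zero_sub, zero_mul, zero_add] at hAl
            rw [hZ, h0]
            omega
          · have : (e - 1) * r + r = e * r := by
              rw [← Nat.succ_mul, Nat.succ_eq_add_one, Nat.sub_add_cancel h0]
            omega
        have e1 : (e - 1 + 1) * ((r + 1) * (w + 1) * (E.1 + 1)) =
          ((e - 1 + 1) * (r + 1)) * (w + 1) * (E.1 + 1) := by ring
        have e2 : (e - 1 + 1) * (r + 1) ≤ (e + 1) * (r + 1) :=
          Nat.mul_le_mul_right _ (by omega)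
        have f1 := k1 ((e - 1 + 1) * (r + 1)) (by omega)
        have f2 := k1 (a + r + 1) (by omega)
        have f3 := k2 (h + (a + r - 1) + 1) (by omega)
        have f4 := k2 (max h (a + r - 1)) (by omega)
        have f5 := k1 (max h (a + r - 1) + a + 1) (by omega)
        have f6 := k2 (r + min (r - 1) (max h (a + r - 1) + 1 - a) + 1) (by omega)
        have f7 : e ≤ Z := by omega
        rw [e1]
        omega)⟩

theorem nthRoot_ex' : ∃ c, ∀ (K : Type) [Field K],
    Comp K (fun z : MEnv K × (ℕ × ℕ) × List (List K) × List K =>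
      nthRoot z.1 z.2.1.1 z.2.1.2 z.2.2.1 z.2.2.2) c
      (fun z => 8 * ((z.2.2.1.length + (z.2.1.2 + 1) * (z.2.2.2.length + 1) + 1) *
        (z.1.1 + 1) * 2 ^ z.2.1.1)) := by
  obtain ⟨cs, hs⟩ := rootStep_ex
  exact ⟨_, fun K _ => Comp.rec1 (K := K)
    (isLeaf := fun z : MEnv K × (ℕ × ℕ) × List (List K) × List K => decide (z.2.1.1 = 0))
    (leaf := fun z => z.2.2.2.map (fun c => [c]))
    (next := fun z => (z.1, (z.2.1.1 - 1, z.2.1.2), z.2.2))
    (join := fun z r => rootStep z.1 (2 ^ z.2.1.1) z.2.1.2 z.2.2.1 r)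
    (h3 := (hs K).comp
      (f := fun z : (MEnv K × (ℕ × ℕ) × List (List K) × List K) × List (List K) =>
        (z.1.1, (2 ^ z.1.2.1.1, z.1.2.1.2), z.1.2.2.1, z.2)) Comp.pair)
    (fun z => z.2.1.1)
    (by
      rintro ⟨E, ⟨t, e⟩, H, R0⟩ h
      simp only [decide_eq_true_eq] at h
      subst h
      rfl)
    (by
      rintro ⟨E, ⟨t, e⟩, H, R0⟩ h
      simp only [decide_eq_false_iff_not] at h
      obtain ⟨t, rfl⟩ := Nat.exists_eq_succ_of_ne_zero h
      rfl)
    (by
      rintro ⟨E, ⟨t, e⟩, H, R0⟩ h
      simp only [decide_eq_false_iff_not] at h ⊢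
      omega)
    (by
      rintro ⟨E, ⟨t, e⟩, H, R0⟩ h
      simp only [decide_eq_true_eq] at h
      subst h
      simp only [List.map_const', List.sum_replicate, smul_eq_mul, zero_add, add_zero, mul_one,
        pow_zero]
      have h1 : R0.length ≤ (e + 1) * (R0.length + 1) :=
        le_trans (Nat.le_succ _) (Nat.le_mul_of_pos_left _ (Nat.succ_pos e))
      have h2 : H.length + (e + 1) * (R0.length + 1) + 1 ≤
        (H.length + (e + 1) * (R0.length + 1) + 1) * (E.1 + 1) :=
          Nat.le_mul_of_pos_right _ (Nat.succ_pos _)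
      omega)
    (by
      rintro ⟨E, ⟨t, e⟩, H, R0⟩ h
      simp only [decide_eq_false_iff_not] at h
      obtain ⟨t, rfl⟩ := Nat.exists_eq_succ_of_ne_zero h
      simp only [Nat.succ_eq_add_one, Nat.add_sub_cancel, length_nthRoot, zero_add, add_zero]
      set Z := H.length + (e + 1) * (R0.length + 1) + 1
      have hZ : 1 ≤ Z := Nat.succ_pos _
      have hp : 1 ≤ 2 ^ t := Nat.one_le_two_pow
      have hp2 : 2 ^ (t + 1) = 2 * 2 ^ t := by ring
      have hZS : 1 ≤ Z * (E.1 + 1) := Nat.mul_pos hZ (Nat.succ_pos _)
      rw [hp2]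
      have e1 : Z * ((2 * 2 ^ t + 1) * (E.1 + 1)) = Z * (E.1 + 1) * (2 * 2 ^ t + 1) := by ring
      have e2 : Z * (E.1 + 1) * (2 * 2 ^ t + 1) ≤ Z * (E.1 + 1) * (3 * 2 ^ t) :=
        Nat.mul_le_mul_left _ (by omega)
      have e3 : Z * (E.1 + 1) * (3 * 2 ^ t) = 3 * (Z * (E.1 + 1) * 2 ^ t) := by ring
      have e4 : Z * (E.1 + 1) * (2 * 2 ^ t) = 2 * (Z * (E.1 + 1) * 2 ^ t) := by ring
      have e5 : 2 ^ t ≤ Z * (E.1 + 1) * 2 ^ t := Nat.le_mul_of_pos_left _ hZS
      omega)⟩

theorem nthRoot_ex : ∃ c, ∀ (K : Type) [Field K],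
    Comp K (fun z : MEnv K × (ℕ × ℕ) × List (List K) × List K =>
      nthRoot z.1 z.2.1.1 z.2.1.2 z.2.2.1 z.2.2.2) c
      (fun z => (z.2.2.1.length + (z.2.1.2 + 1) * (z.2.2.2.length + 1) + 1) * 2 ^ z.2.1.1 *
        (z.1.1 + 1) * (Nat.clog 2 z.2.1.2 + 1) * (z.2.1.1 + 1)) := by
  obtain ⟨c, hc⟩ := nthRoot_ex'
  exact ⟨_, fun K _ => (hc K).bigO 8 (fun z => by
    obtain ⟨E, ⟨t, e⟩, H, R0⟩ := z
    simp only
    set Z := H.length + (e + 1) * (R0.length + 1) + 1
    have e1 : Z * (E.1 + 1) * 2 ^ t = Z * 2 ^ t * (E.1 + 1) := by ring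
    have e2 : Z * 2 ^ t * (E.1 + 1) ≤ Z * 2 ^ t * (E.1 + 1) * (Nat.clog 2 e + 1) :=
      Nat.le_mul_of_pos_right _ (Nat.succ_pos _)
    have e3 : Z * 2 ^ t * (E.1 + 1) * (Nat.clog 2 e + 1) ≤
      Z * 2 ^ t * (E.1 + 1) * (Nat.clog 2 e + 1) * (t + 1) :=
        Nat.le_mul_of_pos_right _ (Nat.succ_pos _)
    rw [e1]
    omega)⟩

noncomputable def nthRootCd : Cd := nthRoot_ex.choose

instance compNthRoot {α : Type} [Enc K α] {E : α → MEnv K} {t e : α → ℕ}
    {H : α → List (List K)} {R0 : α → List K} {c1 c2 c3 c4 c5 : Cd} {T1 T2 T3 T4 T5 : α → ℕ}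
    [h1 : Comp K E c1 T1] [h2 : Comp K t c2 T2] [h3 : Comp K e c3 T3] [h4 : Comp K H c4 T4]
    [h5 : Comp K R0 c5 T5] :
    Comp K (fun x => nthRoot (E x) (t x) (e x) (H x) (R0 x))
      (nthRootCd.comp (c1.pair ((c2.pair c3).pair (c4.pair c5))))
      (fun x => T1 x + (T2 x + T3 x + (T4 x + T5 x)) +
        ((H x).length + (e x + 1) * ((R0 x).length + 1) + 1) * 2 ^ t x *
        ((E x).1 + 1) * (Nat.clog 2 (e x) + 1) * (t x + 1)) :=
  (nthRoot_ex.choose_spec K).comp (Comp.pair (h := h1) (h' := Comp.pair
    (h := Comp.pair (h := h2) (h' := h3)) (h' := Comp.pair (h := h4) (h' := h5))))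

end Pool.Agent.BiFac

end
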