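import Pool.Agent.Work.MP_8d07ed_lc.Bd.B03
import Pool.Agent.Work.MP_8d07ed_lc.Bd.B04
import Pool.Agent.Work.MP_8d07ed_lc.Bd.B01
import Pool.Agent.Work.TreeRAM.List2
import Pool.Agent.Work.TreeRAM.Nat
import Pool.Agent.Work.MP_8d07ed_lc.Bd.B02

/-! Bundle of small proof modules (one section per former module). -/

section

/-!
# Product, combination and remainder trees
-/

set_option autoImplicit false

namespace Pool.Agent.BiFac

open Polynomial Pool.Agent.TreeRAM

/-! ### Recursion with two recursive calls -/

section rec2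

variable {K : Type} [Field K] {α β : Type} [Enc K α] [Enc K β]

/-- Input `(x, (a, (b, nil)))`: pass `(x, (a, b))` to `p`. -/
def headP2 (p : Prog) : Prog :=
  .seq (.pair .fst (.pair (.seq .snd .fst) (.seq (.seq .snd .snd) .fst))) p

/-- The pair of the results, as a list in reverse order. -/
def Cd.double (c c' : Cd) : Cd := ⟨.pair c'.p (.pair c.p .nil), c.k + c'.k + 3⟩

/-- The code of `comp_rec2`. -/
def Cd.rec2 (c0 c1 c2 c2' c3 : Cd) : Cd :=
  ⟨fixP c0.p c1.p (Cd.double c2 c2').p (headP2 c3.p),
    200 + c0.k + c1.k + (Cd.double c2 c2').k + (c3.k + 12)⟩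

theorem comp_rec2 {isLeaf : α → Bool} {leaf : α → β} {next1 next2 : α → α}
    {join : α → β → β → β}
    {f : α → β} {c0 c1 c2 c2' c3 : Cd} {T0 T1 T2 T2' : α → ℕ} {T3 : α × β × β → ℕ} {T : α → ℕ}
    (h0 : Comp K isLeaf c0 T0) (h1 : Comp K leaf c1 T1) (h2 : Comp K next1 c2 T2)
    (h2' : Comp K next2 c2' T2')
    (h3 : Comp K (fun z : α × β × β => join z.1 z.2.1 z.2.2) c3 T3) (m : α → ℕ)
    (hleaf : ∀ x, isLeaf x = true → f x = leaf x)
    (hnode : ∀ x, isLeaf x = false → f x = join x (f (next1 x)) (f (next2 x)))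
    (hm1 : ∀ x, isLeaf x = false → m (next1 x) < m x)
    (hm2 : ∀ x, isLeaf x = false → m (next2 x) < m x)
    (hT1 : ∀ x, isLeaf x = true → T0 x + T1 x ≤ T x)
    (hT2 : ∀ x, isLeaf x = false →
      T0 x + (T2 x + T2' x) + T3 (x, f (next1 x), f (next2 x)) +
        (T (next1 x) + T (next2 x) + 4) ≤ T x) :
    Comp K f (Cd.rec2 c0 c1 c2 c2' c3) T := by
  classical
  by_cases hα : Nonempty α
  · obtain ⟨a0⟩ := hα
    have hs : Comp K (fun x => ([next1 x, next2 x] : List α).reverse) (Cd.double c2 c2')
        (fun x => T2 x + T2' x) :=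
      ⟨fun x => ((h2'.run x).pair ((h2.run x).pair (RunLe.nil _))).mono (by
        show c2'.k * (T2' x + 1) + (c2.k * (T2 x + 1) + 1 + 1) + 1 ≤
          (c2.k + c2'.k + 3) * (T2 x + T2' x + 1)
        nlinarith [Nat.zero_le (T2 x), Nat.zero_le (T2' x), Nat.zero_le (c2.k * T2' x),
          Nat.zero_le (c2'.k * T2 x)])⟩
    refine Comp.fix' (subs := fun x => [next1 x, next2 x])
      (join := fun z => join z.1 (z.2.headD (f a0)) (z.2.tail.headD (f a0)))
      (T3 := fun z => T3 (z.1, z.2.headD (f a0), z.2.tail.headD (f a0)))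
      (c3 := ⟨headP2 c3.p, c3.k + 12⟩)
      m h0 h1 hs ?_ hleaf (fun x hx => ?_) ?_ hT1 ?_
    · intro x res hres
      obtain ⟨a, b, rfl⟩ : ∃ a b, res = [a, b] := by
        match res, hres with
        | [a, b], _ => exact ⟨a, b, rfl⟩
      have e1 : RunLe (.pair .fst (.pair (.seq .snd .fst) (.seq (.seq .snd .snd) .fst)))
          (enc K (x, [a, b])) (enc K (x, a, b)) 11 :=
        (RunLe.fst _ _).pair (((RunLe.snd _ _).seq (RunLe.fst _ _)).pair
          (((RunLe.snd _ _).seq (RunLe.snd _ _)).seq (RunLe.fst _ _)))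
      refine (e1.seq (h3.run (x, a, b))).mono ?_
      show 11 + c3.k * (T3 (x, a, b) + 1) + 1 ≤ (c3.k + 12) * (T3 (x, a, b) + 1)
      nlinarith [Nat.zero_le (T3 (x, a, b))]
    · rw [hnode x hx]; rfl
    · intro x hx y hy
      rw [List.mem_cons, List.mem_singleton] at hy
      rcases hy with rfl | rfl
      · exact hm1 x hx
      · exact hm2 x hx
    · intro x hx
      have := hT2 x hx
      simp only [List.map_cons, List.map_nil, List.headD_cons, List.tail_cons, List.sum_cons,
        List.sum_nil]
      omega
  · exact ⟨fun x => absurd ⟨x⟩ hα⟩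

end rec2

/-! ### Arithmetic of the cost bounds -/

theorem tot_nil {α : Type} : tot ([] : List (List α)) = 0 := rfl

theorem tot_cons {α : Type} (F : List α) (L : List (List α)) :
    tot (F :: L) = F.length + 1 + tot L := by simp [tot]

theorem tot_append {α : Type} (L M : List (List α)) : tot (L ++ M) = tot L + tot M := by
  simp [tot]

theorem length_le_tot {α : Type} (L : List (List α)) : L.length ≤ tot L := by
  induction L with
  | nil => exact le_rfl
  | cons F L ih => rw [tot_cons, List.length_cons]; omega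

theorem tot_split {α : Type} (L : List (List α)) (n : ℕ) :
    tot (L.take n) + tot (L.drop n) = tot L := by
  rw [← tot_append, List.take_append_drop]

theorem clog_take {α : Type} {L : List α} (h : 2 ≤ L.length) :
    Nat.clog 2 (L.take (L.length / 2)).length + 1 ≤ Nat.clog 2 L.length := by
  rw [Nat.clog_of_two_le (b := 2) (by norm_num) h, List.length_take]
  apply Nat.succ_le_succ
  apply Nat.clog_mono_right
  omega

theorem clog_drop {α : Type} {L : List α} (h : 2 ≤ L.length) :
    Nat.clog 2 (L.drop (L.length / 2)).length + 1 ≤ Nat.clog 2 L.length := by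
  rw [Nat.clog_of_two_le (b := 2) (by norm_num) h, List.length_drop]
  apply Nat.succ_le_succ
  apply Nat.clog_mono_right
  omega

theorem isEmpty_tail_iff {α : Type} (L : List α) : L.tail.isEmpty = true ↔ L.length ≤ 1 := by
  match L with
  | [] => simp
  | [a] => simp
  | a :: b :: l => simp

theorem isEmpty_tail_false {α : Type} {L : List α} (h : L.tail.isEmpty = false) :
    2 ≤ L.length := by
  by_contra hc
  have := (isEmpty_tail_iff L).2 (by omega)
  rw [h] at this
  exact Bool.false_ne_true this

/-! ### Product tree -/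

variable {K : Type} [Field K]

/-- Product of a list of polynomials, by divide and conquer. -/
def prodB (E : MEnv K) (w : ℕ) (L : List (List (List K))) : List (List K) :=
  if h : L.tail.isEmpty = true then (L.headD [[1]]).map (padTo w)
  else bmul E w (prodB E w (L.take (L.length / 2))) (prodB E w (L.drop (L.length / 2)))
termination_by L.length
decreasing_by
  · have := isEmpty_tail_false (by simpa using h : L.tail.isEmpty = false)
    rw [List.length_take]
    omega
  · have := isEmpty_tail_false (by simpa using h : L.tail.isEmpty = false)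
    rw [List.length_drop]
    omega

theorem prodB_leaf (E : MEnv K) (w : ℕ) {L : List (List (List K))} (h : L.tail.isEmpty = true) :
    prodB E w L = (L.headD [[1]]).map (padTo w) := by
  rw [prodB, dif_pos h]

theorem prodB_node (E : MEnv K) (w : ℕ) {L : List (List (List K))} (h : L.tail.isEmpty = false) :
    prodB E w L = bmul E w (prodB E w (L.take (L.length / 2)))
      (prodB E w (L.drop (L.length / 2))) := by
  rw [prodB, dif_neg (by rw [h]; exact Bool.false_ne_true)]

/-- Induction along the halving recursion. -/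
theorem half_induction {α : Type} {P : List α → Prop}
    (hleaf : ∀ L : List α, L.tail.isEmpty = true → P L)
    (hnode : ∀ L : List α, L.tail.isEmpty = false → P (L.take (L.length / 2)) →
      P (L.drop (L.length / 2)) → P L) (L : List α) : P L := by
  generalize hn : L.length = n
  induction n using Nat.strong_induction_on generalizing L with
  | _ n ih =>
    by_cases h : L.tail.isEmpty = true
    · exact hleaf L h
    · have h' : L.tail.isEmpty = false := by simpa using h
      have h2 := isEmpty_tail_false h'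
      refine hnode L h' (ih _ ?_ _ rfl) (ih _ ?_ _ rfl)
      · rw [List.length_take]; omega
      · rw [List.length_drop]; omega

theorem length_prodB_le (E : MEnv K) (w : ℕ) (L : List (List (List K))) :
    (prodB E w L).length ≤ tot L + 1 := by
  induction L using half_induction with
  | hleaf L h =>
    rw [prodB_leaf E w h, List.length_map]
    match L with
    | [] => simp [tot]
    | F :: L => rw [List.headD_cons, tot_cons]; omega
  | hnode L h h1 h2 =>
    rw [prodB_node E w h, length_bmul]
    have := tot_split L (L.length / 2)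
    omega

theorem length_prodB (E : MEnv K) (w : ℕ) (L : List (List (List K))) (hL : ∀ F ∈ L, F ≠ []) :
    (prodB E w L).length = (L.map (fun F => F.length - 1)).sum + 1 := by
  induction L using half_induction with
  | hleaf L h =>
    rw [prodB_leaf E w h, List.length_map]
    have h1 := (isEmpty_tail_iff L).1 h
    match L, h1 with
    | [], _ => simp
    | [F], _ =>
      have : F ≠ [] := hL F (by simp)
      have : 0 < F.length := List.length_pos_of_ne_nil this
      simp only [List.headD_cons, List.map_cons, List.map_nil, List.sum_cons, List.sum_nil]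
      omega
  | hnode L h h1 h2 =>
    rw [prodB_node E w h, length_bmul, h1 (fun F hF => hL F (List.mem_of_mem_take hF)),
      h2 (fun F hF => hL F (List.mem_of_mem_drop hF))]
    have : (L.map (fun F => F.length - 1)).sum =
        ((L.take (L.length / 2)).map (fun F => F.length - 1)).sum +
        ((L.drop (L.length / 2)).map (fun F => F.length - 1)).sum := by
      rw [← List.sum_append, ← List.map_append, List.take_append_drop]
    omega

theorem rows_map_padTo (w : ℕ) (a : List (List K)) : ∀ r ∈ a.map (padTo w), r.length = w := by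
  intro r hr
  rw [List.mem_map] at hr
  obtain ⟨s, -, rfl⟩ := hr
  exact length_padTo _ _

theorem rows_prodB (E : MEnv K) (w : ℕ) (L : List (List (List K))) :
    ∀ r ∈ prodB E w L, r.length = w := by
  by_cases h : L.tail.isEmpty = true
  · rw [prodB_leaf E w h]
    exact rows_map_padTo w _
  · rw [prodB_node E w (by simpa using h)]
    exact rows_bmul _ _ _ _

theorem cg_prodB {E : MEnv K} (hE : E.Good) {w : ℕ} {L : List (List (List K))}
    (hf : Fits E (2 * tot L) w) : Cg w (toB (prodB E w L)) (L.map toB).prod := by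
  induction L using half_induction with
  | hleaf L h =>
    rw [prodB_leaf E w h]
    have h1 := (isEmpty_tail_iff L).1 h
    match L, h1 with
    | [], _ =>
      have : toB ([[1]] : List (List K)) = 1 := by simp
      rw [List.map_nil, List.prod_nil, ← this]
      exact cg_map_padTo w _
    | [F], _ =>
      rw [List.map_cons, List.map_nil, List.prod_cons, List.prod_nil, mul_one]
      exact cg_map_padTo w _
  | hnode L h h1 h2 =>
    have e : (L.map toB).prod = ((L.take (L.length / 2)).map toB).prod *
        ((L.drop (L.length / 2)).map toB).prod := by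
      rw [← List.prod_append, ← List.map_append, List.take_append_drop]
    have ht := tot_split L (L.length / 2)
    have hl2 := isEmpty_tail_false h
    have hlt := length_le_tot L
    have hb1 := length_prodB_le E w (L.take (L.length / 2))
    have hb2 := length_prodB_le E w (L.drop (L.length / 2))
    rw [prodB_node E w h, e]
    exact (cg_bmul hE (hf.mono (by omega))).trans
      ((h1 (hf.mono (by omega))).mul (h2 (hf.mono (by omega))))

theorem tree_arith {W t t1 t2 c c1 c2 a B X : ℕ} (ht : t1 + t2 = t) (h1 : 1 ≤ t)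
    (hc1 : c1 + 1 ≤ c) (hc2 : c2 + 1 ≤ c) (hX : X ≤ a * (W * t)) :
    X + ((a + B) * W * (t1 * (c1 + 1)) + B * W + ((a + B) * W * (t2 * (c2 + 1)) + B * W)) ≤
      (a + B) * W * (t * (c + 1)) + B * W := by
  have e1 : (a + B) * W * (t1 * (c1 + 1)) ≤ (a + B) * W * (t1 * c) :=
    Nat.mul_le_mul_left _ (Nat.mul_le_mul_left _ hc1)
  have e2 : (a + B) * W * (t2 * (c2 + 1)) ≤ (a + B) * W * (t2 * c) :=
    Nat.mul_le_mul_left _ (Nat.mul_le_mul_left _ hc2)
  have e3 : (a + B) * W * (t * (c + 1)) =
      (a + B) * W * (t1 * c) + (a + B) * W * (t2 * c) + a * (W * t) + B * (W * t) := by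
    rw [← ht]; ring
  have e4 : B * W ≤ B * (W * t) := Nat.mul_le_mul_left _ (Nat.le_mul_of_pos_right _ h1)
  omega

theorem prodB_ex : ∃ c, ∀ (K : Type) [Field K],
    Comp K (fun z : MEnv K × ℕ × List (List (List K)) => prodB z.1 z.2.1 z.2.2) c
      (fun z => (tot z.2.2 + 1) * (z.2.1 + 1) * (z.1.1 + 1) *
        (Nat.clog 2 z.2.2.length + 1)) :=
  ⟨_, fun K _ => (comp_rec2 (K := K)
    (isLeaf := fun z : MEnv K × ℕ × List (List (List K)) => z.2.2.tail.isEmpty)
    (leaf := fun z => (z.2.2.headD [[1]]).map (fun r => padTo z.2.1 r))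
    (next1 := fun z => (z.1, z.2.1, z.2.2.take (z.2.2.length / 2)))
    (next2 := fun z => (z.1, z.2.1, z.2.2.drop (z.2.2.length / 2)))
    (join := fun z a b => bmul z.1 z.2.1 a b)
    (T := fun z => (20 + 2) * ((z.2.1 + 1) * (z.1.1 + 1)) *
      (tot z.2.2 * (Nat.clog 2 z.2.2.length + 1)) + 2 * ((z.2.1 + 1) * (z.1.1 + 1)))
    inferInstance inferInstance inferInstance inferInstance inferInstance
    (fun z => z.2.2.length)
    (by rintro ⟨E, w, L⟩ h; exact prodB_leaf E w h)
    (by rintro ⟨E, w, L⟩ h; exact prodB_node E w h)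
    (by
      rintro ⟨E, w, L⟩ h
      have := isEmpty_tail_false (L := L) h
      show (L.take (L.length / 2)).length < L.length
      rw [List.length_take]
      omega)
    (by
      rintro ⟨E, w, L⟩ h
      have := isEmpty_tail_false (L := L) h
      show (L.drop (L.length / 2)).length < L.length
      rw [List.length_drop]
      omega)
    (by
      rintro ⟨⟨S, V, V'⟩, w, L⟩ h
      simp only [List.map_const', List.sum_replicate, smul_eq_mul, zero_add]
      have e1 : (L.headD [[1]]).length ≤ tot L + 1 := by
        match L with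
        | [] => simp
        | F :: L => rw [List.headD_cons, tot_cons]; omega
      have e2 : (L.headD [[1]]).length * (w + 1) ≤ (tot L + 1) * ((w + 1) * (S + 1)) :=
        Nat.mul_le_mul e1 (Nat.le_mul_of_pos_right _ (Nat.succ_pos _))
      have e3 : tot L ≤ tot L * (Nat.clog 2 L.length + 1) :=
        Nat.le_mul_of_pos_right _ (Nat.succ_pos _)
      generalize (w + 1) * (S + 1) = W at *
      generalize tot L * (Nat.clog 2 L.length + 1) = P at *
      nlinarith [Nat.mul_le_mul_left W e3, Nat.zero_le (W * P)])
    (by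
      rintro ⟨⟨S, V, V'⟩, w, L⟩ h
      simp only [zero_add, add_zero]
      have h2 := isEmpty_tail_false (L := L) h
      have hl := length_le_tot L
      have ht := tot_split L (L.length / 2)
      have hb1 := length_prodB_le (S, V, V') w (L.take (L.length / 2))
      have hb2 := length_prodB_le (S, V, V') w (L.drop (L.length / 2))
      have hW : 1 ≤ (w + 1) * (S + 1) := Nat.mul_pos (Nat.succ_pos _) (Nat.succ_pos _)
      have e1 : ((prodB (S, V, V') w (List.take (L.length / 2) L)).length +
          (prodB (S, V, V') w (List.drop (L.length / 2) L)).length + 1) * (w + 1) * (S + 1) ≤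
          3 * tot L * ((w + 1) * (S + 1)) := by
        rw [mul_assoc]
        exact Nat.mul_le_mul_right _ (by omega)
      have key := tree_arith (W := (w + 1) * (S + 1)) (a := 20) (B := 2)
        (X := L.length + L.length + L.length / 2 + (L.length + L.length + L.length / 2) +
          ((prodB (S, V, V') w (List.take (L.length / 2) L)).length +
          (prodB (S, V, V') w (List.drop (L.length / 2) L)).length + 1) * (w + 1) * (S + 1) + 4)
        ht (by omega) (clog_take h2) (clog_drop h2) (by
          have e2 : tot L ≤ (w + 1) * (S + 1) * tot L := Nat.le_mul_of_pos_left _ hW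
          have e3 : 3 * tot L * ((w + 1) * (S + 1)) = 3 * ((w + 1) * (S + 1) * tot L) := by ring
          omega)
      omega)).bigO 24 (fun z => by
        have e : (20 + 2) * ((z.2.1 + 1) * (z.1.1 + 1)) *
            (tot z.2.2 * (Nat.clog 2 z.2.2.length + 1)) + 2 * ((z.2.1 + 1) * (z.1.1 + 1)) ≤
            24 * ((tot z.2.2 + 1) * (z.2.1 + 1) * (z.1.1 + 1) *
              (Nat.clog 2 z.2.2.length + 1)) := by
          have e1 : (z.2.1 + 1) * (z.1.1 + 1) ≤
            (z.2.1 + 1) * (z.1.1 + 1) * (Nat.clog 2 z.2.2.length + 1) :=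
            Nat.le_mul_of_pos_right _ (Nat.succ_pos _)
          nlinarith [Nat.zero_le ((z.2.1 + 1) * (z.1.1 + 1) *
            (tot z.2.2 * (Nat.clog 2 z.2.2.length + 1)))]
        omega)⟩

noncomputable def prodBCd : Cd := prodB_ex.choose

instance compProdB {α : Type} [Enc K α] {E : α → MEnv K} {w : α → ℕ}
    {L : α → List (List (List K))} {c1 c2 c3 : Cd} {T1 T2 T3 : α → ℕ} [h1 : Comp K E c1 T1]
    [h2 : Comp K w c2 T2] [h3 : Comp K L c3 T3] :
    Comp K (fun x => prodB (E x) (w x) (L x)) (prodBCd.comp (c1.pair (c2.pair c3)))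
      (fun x => T1 x + (T2 x + T3 x) +
        (tot (L x) + 1) * (w x + 1) * ((E x).1 + 1) * (Nat.clog 2 (L x).length + 1)) :=
  (prodB_ex.choose_spec K).comp (Comp.pair (h := h1) (h' := Comp.pair (h := h2) (h' := h3)))

/-! ### Combination tree -/

theorem combSum_append (L M : List (K[X][X] × K[X][X])) :
    combSum (L ++ M) = combSum L * (M.map Prod.snd).prod + (L.map Prod.snd).prod * combSum M := by
  induction L with
  | nil => simp [combSum]
  | cons z L ih =>
    obtain ⟨n, f⟩ := z
    simp only [List.cons_append, combSum, ih, List.map_append, List.prod_append, List.map_cons,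
      List.prod_cons]
    ring

theorem toB_map_nil {α : Type} (l : List α) : toB (l.map (fun _ => ([] : List K))) = 0 := by
  induction l with
  | nil => simp
  | cons a l ih => rw [List.map_cons, toB_cons, ih]; simp

/-- Numerator and denominator of one fraction. -/
def leafFrac (w : ℕ) (z : List (List K) × List (List K)) : List (List K) × List (List K) :=
  (badd w z.1 (z.2.tail.map (fun _ => [])), z.2.map (padTo w))

/-- Sum of two fractions. -/
def addFrac (E : MEnv K) (w : ℕ) (x y : List (List K) × List (List K)) :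
    List (List K) × List (List K) :=
  (badd w (bmul E w x.1 y.2) (bmul E w y.1 x.2), bmul E w x.2 y.2)

/-- Numerator and denominator of a sum of fractions, by divide and conquer. -/
def fracB (E : MEnv K) (w : ℕ) (L : List (List (List K) × List (List K))) :
    List (List K) × List (List K) :=
  if h : L.tail.isEmpty = true then leafFrac w (L.headD ([], [[1]]))
  else addFrac E w (fracB E w (L.take (L.length / 2))) (fracB E w (L.drop (L.length / 2)))
termination_by L.length
decreasing_by
  · have := isEmpty_tail_false (by simpa using h : L.tail.isEmpty = false)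
    rw [List.length_take]
    omega
  · have := isEmpty_tail_false (by simpa using h : L.tail.isEmpty = false)
    rw [List.length_drop]
    omega

theorem fracB_leaf (E : MEnv K) (w : ℕ) {L : List (List (List K) × List (List K))}
    (h : L.tail.isEmpty = true) : fracB E w L = leafFrac w (L.headD ([], [[1]])) := by
  rw [fracB, dif_pos h]

theorem fracB_node (E : MEnv K) (w : ℕ) {L : List (List (List K) × List (List K))}
    (h : L.tail.isEmpty = false) : fracB E w L =
      addFrac E w (fracB E w (L.take (L.length / 2))) (fracB E w (L.drop (L.length / 2))) := by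
  rw [fracB, dif_neg (by rw [h]; exact Bool.false_ne_true)]

theorem length_leafFrac_fst (w : ℕ) (z : List (List K) × List (List K)) :
    (leafFrac w z).1.length = max z.1.length (z.2.length - 1) := by
  rw [leafFrac, length_badd, List.length_map, List.length_tail]

theorem length_leafFrac_snd (w : ℕ) (z : List (List K) × List (List K)) :
    (leafFrac w z).2.length = z.2.length := by
  rw [leafFrac, List.length_map]

theorem length_addFrac_fst (E : MEnv K) (w : ℕ) (x y : List (List K) × List (List K)) :
    (addFrac E w x y).1.length =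
      max (x.1.length + y.2.length - 1) (y.1.length + x.2.length - 1) := by
  rw [addFrac, length_badd, length_bmul, length_bmul]

theorem length_addFrac_snd (E : MEnv K) (w : ℕ) (x y : List (List K) × List (List K)) :
    (addFrac E w x y).2.length = x.2.length + y.2.length - 1 := by
  rw [addFrac, length_bmul]

theorem map_split {α β : Type} (f : α → β) (L : List α) (n : ℕ) :
    L.map f = (L.take n).map f ++ (L.drop n).map f := by
  rw [← List.map_append, List.take_append_drop]

theorem length_fracB_snd_le (E : MEnv K) (w : ℕ) (L : List (List (List K) × List (List K))) :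
    (fracB E w L).2.length ≤ tot (L.map Prod.snd) + 1 := by
  induction L using half_induction with
  | hleaf L h =>
    rw [fracB_leaf E w h, length_leafFrac_snd]
    match L with
    | [] => simp [tot]
    | z :: L => rw [List.headD_cons, List.map_cons, tot_cons]; omega
  | hnode L h h1 h2 =>
    rw [fracB_node E w h, length_addFrac_snd, map_split Prod.snd L (L.length / 2), tot_append]
    omega

theorem length_fracB_fst_le (E : MEnv K) (w : ℕ) (L : List (List (List K) × List (List K))) :
    (fracB E w L).1.length ≤ tot (L.map Prod.fst) + tot (L.map Prod.snd) := by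
  induction L using half_induction with
  | hleaf L h =>
    rw [fracB_leaf E w h, length_leafFrac_fst]
    match L with
    | [] => simp
    | z :: L =>
      rw [List.headD_cons, List.map_cons, List.map_cons, tot_cons, tot_cons]
      omega
  | hnode L h h1 h2 =>
    have h3 := length_fracB_snd_le E w (L.take (L.length / 2))
    have h4 := length_fracB_snd_le E w (L.drop (L.length / 2))
    rw [fracB_node E w h, length_addFrac_fst, map_split Prod.snd L (L.length / 2),
      map_split Prod.fst L (L.length / 2), tot_append, tot_append]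
    omega

theorem length_fracB_snd (E : MEnv K) (w : ℕ) (L : List (List (List K) × List (List K)))
    (hn : ∀ z ∈ L, z.1.length < z.2.length) :
    (fracB E w L).2.length = (L.map (fun z => z.2.length - 1)).sum + 1 := by
  induction L using half_induction with
  | hleaf L h =>
    rw [fracB_leaf E w h, length_leafFrac_snd]
    have h1 := (isEmpty_tail_iff L).1 h
    match L, h1 with
    | [], _ => simp
    | [z], _ =>
      have := hn z (by simp)
      simp only [List.headD_cons, List.map_cons, List.map_nil, List.sum_cons, List.sum_nil]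
      omega
  | hnode L h h1 h2 =>
    rw [fracB_node E w h, length_addFrac_snd, map_split _ L (L.length / 2), List.sum_append,
      h1 (fun F hF => hn F (List.mem_of_mem_take hF)),
      h2 (fun F hF => hn F (List.mem_of_mem_drop hF))]
    omega

theorem length_fracB_fst (E : MEnv K) (w : ℕ) (L : List (List (List K) × List (List K)))
    (hn : ∀ z ∈ L, z.1.length < z.2.length) :
    (fracB E w L).1.length = (L.map (fun z => z.2.length - 1)).sum := by
  induction L using half_induction with
  | hleaf L h =>
    rw [fracB_leaf E w h, length_leafFrac_fst]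
    have h1 := (isEmpty_tail_iff L).1 h
    match L, h1 with
    | [], _ => simp
    | [z], _ =>
      have := hn z (by simp)
      simp only [List.headD_cons, List.map_cons, List.map_nil, List.sum_cons, List.sum_nil]
      omega
  | hnode L h h1 h2 =>
    rw [fracB_node E w h, length_addFrac_fst, map_split _ L (L.length / 2), List.sum_append,
      h1 (fun F hF => hn F (List.mem_of_mem_take hF)),
      h2 (fun F hF => hn F (List.mem_of_mem_drop hF)),
      length_fracB_snd E w _ (fun F hF => hn F (List.mem_of_mem_take hF)),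
      length_fracB_snd E w _ (fun F hF => hn F (List.mem_of_mem_drop hF))]
    omega

theorem cg_leafFrac_fst (w : ℕ) (z : List (List K) × List (List K)) :
    Cg w (toB (leafFrac w z).1) (toB z.1) := by
  have h := cg_badd w z.1 (z.2.tail.map (fun _ => ([] : List K)))
  rwa [toB_map_nil, add_zero] at h

theorem cg_fracB {E : MEnv K} (hE : E.Good) {w : ℕ} {L : List (List (List K) × List (List K))}
    (hn : ∀ z ∈ L, z.1.length < z.2.length) (hf : Fits E (2 * tot (L.map Prod.snd)) w) :
    Cg w (toB (fracB E w L).1) (combSum (L.map (fun z => (toB z.1, toB z.2)))) ∧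
      Cg w (toB (fracB E w L).2) (L.map (fun z => toB z.2)).prod := by
  induction L using half_induction with
  | hleaf L h =>
    rw [fracB_leaf E w h]
    have h1 := (isEmpty_tail_iff L).1 h
    match L, h1 with
    | [], _ =>
      have e : toB ([[1]] : List (List K)) = 1 := by simp
      constructor
      · exact cg_leafFrac_fst w _
      · rw [List.map_nil, List.prod_nil, ← e]
        exact cg_map_padTo w _
    | [z], _ =>
      constructor
      · simp only [List.map_cons, List.map_nil, combSum, List.prod_nil, mul_one, mul_zero,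
          add_zero]
        exact cg_leafFrac_fst w _
      · rw [List.map_cons, List.map_nil, List.prod_cons, List.prod_nil, mul_one]
        exact cg_map_padTo w _
  | hnode L h h1 h2 =>
    have hl2 := isEmpty_tail_false h
    have hlt := length_le_tot (L.map Prod.snd)
    rw [List.length_map] at hlt
    have hn1 : ∀ z ∈ L.take (L.length / 2), z.1.length < z.2.length :=
      fun F hF => hn F (List.mem_of_mem_take hF)
    have hn2 : ∀ z ∈ L.drop (L.length / 2), z.1.length < z.2.length :=
      fun F hF => hn F (List.mem_of_mem_drop hF)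
    have ht : tot ((L.take (L.length / 2)).map Prod.snd) +
        tot ((L.drop (L.length / 2)).map Prod.snd) = tot (L.map Prod.snd) := by
      rw [← tot_append, ← map_split]
    have hb1 := length_fracB_snd_le E w (L.take (L.length / 2))
    have hb2 := length_fracB_snd_le E w (L.drop (L.length / 2))
    have hc1 := length_fracB_fst E w _ hn1
    have hc2 := length_fracB_fst E w _ hn2
    have hd1 := length_fracB_snd E w _ hn1
    have hd2 := length_fracB_snd E w _ hn2
    obtain ⟨i1, j1⟩ := h1 hn1 (hf.mono (by omega))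
    obtain ⟨i2, j2⟩ := h2 hn2 (hf.mono (by omega))
    have e : (L.map (fun z => toB z.2)).prod =
        ((L.take (L.length / 2)).map (fun z => toB z.2)).prod *
        ((L.drop (L.length / 2)).map (fun z => toB z.2)).prod := by
      rw [← List.prod_append, ← map_split]
    have e1 : ∀ M : List (List (List K) × List (List K)),
        ((M.map (fun z => (toB z.1, toB z.2))).map Prod.snd) = M.map (fun z => toB z.2) := by
      intro M
      rw [List.map_map]
      rfl
    rw [fracB_node E w h, e]
    constructor
    · rw [map_split _ L (L.length / 2), combSum_append, e1, e1]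
      refine (cg_badd w _ _).trans (Cg.add ?_ ?_)
      · exact (cg_bmul hE (hf.mono (by omega))).trans (i1.mul j2)
      · rw [mul_comm]
        exact (cg_bmul hE (hf.mono (by omega))).trans (i2.mul j1)
    · exact (cg_bmul hE (hf.mono (by omega))).trans (j1.mul j2)

theorem rows_fracB (E : MEnv K) (w : ℕ) (L : List (List (List K) × List (List K))) :
    ∀ r ∈ (fracB E w L).1, r.length = w := by
  by_cases h : L.tail.isEmpty = true
  · rw [fracB_leaf E w h]
    exact rows_badd _ _ _
  · rw [fracB_node E w (by simpa using h)]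
    exact rows_badd _ _ _

/-- numerator of the sum of fractions -/
def combB (E : MEnv K) (w : ℕ) (L : List (List (List K) × List (List K))) :
    List (List K) := (fracB E w L).1

theorem cg_combB {E : MEnv K} (hE : E.Good) {w : ℕ} {L : List (List (List K) × List (List K))}
    (hn : ∀ z ∈ L, z.1.length < z.2.length) (hf : Fits E (2 * tot (L.map Prod.snd)) w) :
    Cg w (toB (combB E w L)) (combSum (L.map (fun z => (toB z.1, toB z.2)))) :=
  (cg_fracB hE hn hf).1

theorem length_combB (E : MEnv K) (w : ℕ) (L : List (List (List K) × List (List K)))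
    (hn : ∀ z ∈ L, z.1.length < z.2.length) :
    (combB E w L).length = (L.map (fun z => z.2.length - 1)).sum :=
  length_fracB_fst E w L hn

theorem rows_combB (E : MEnv K) (w : ℕ) (L : List (List (List K) × List (List K))) :
    ∀ r ∈ combB E w L, r.length = w := rows_fracB E w L

theorem leafFrac_ex : ∃ c, ∀ (K : Type) [Field K],
    Comp K (fun z : ℕ × List (List K) × List (List K) => leafFrac z.1 z.2) c
      (fun z => (z.2.1.length + z.2.2.length + 1) * (z.1 + 1)) :=
  ⟨_, fun K _ => (Comp.pair (K := K)
    (f := fun z : ℕ × List (List K) × List (List K) => badd z.1 z.2.1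
      (z.2.2.tail.map (fun _ => [])))
    (g := fun z => z.2.2.map (fun r => padTo z.1 r))).bigO 4 (fun z => by
      simp only [List.map_const', List.sum_replicate, smul_eq_mul, zero_add, add_zero,
        List.length_replicate, List.length_tail, mul_one]
      obtain ⟨w, a, b⟩ := z
      have e1 : (a.length + (b.length - 1) + 1) * (w + 1) ≤
          (a.length + b.length + 1) * (w + 1) := Nat.mul_le_mul_right _ (by omega)
      have e2 : b.length * (w + 1) ≤ (a.length + b.length + 1) * (w + 1) :=
        Nat.mul_le_mul_right _ (by omega)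
      have e3 : a.length + b.length + 1 ≤ (a.length + b.length + 1) * (w + 1) :=
        Nat.le_mul_of_pos_right _ (Nat.succ_pos _)
      show _ ≤ 4 * ((a.length + b.length + 1) * (w + 1) + 1)
      dsimp only
      omega)⟩

/-- Input type of `addFrac`. -/
abbrev FracIn (K : Type) [Field K] : Type :=
  (MEnv K × ℕ) × (List (List K) × List (List K)) × (List (List K) × List (List K))

theorem addFrac_ex : ∃ c, ∀ (K : Type) [Field K],
    Comp K (fun z : FracIn K => addFrac z.1.1 z.1.2 z.2.1 z.2.2) c
      (fun z => (z.2.1.1.length + z.2.1.2.length + z.2.2.1.length + z.2.2.2.length + 1) *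
        ((z.1.2 + 1) * (z.1.1.1 + 1))) :=
  ⟨_, fun K _ => (Comp.pair (K := K)
    (h := compBadd
      (w := fun z : FracIn K => z.1.2)
      (h3 := compBmul (K := K) (E := fun z : FracIn K => z.1.1) (w := fun z : FracIn K => z.1.2)
        (f := fun z : FracIn K => z.2.1.1) (g := fun z : FracIn K => z.2.2.2))
      (h4 := compBmul (K := K) (E := fun z : FracIn K => z.1.1) (w := fun z : FracIn K => z.1.2)
        (f := fun z : FracIn K => z.2.2.1) (g := fun z : FracIn K => z.2.1.2)))
    (h' := compBmul (K := K) (E := fun z : FracIn K => z.1.1) (w := fun z : FracIn K => z.1.2)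
        (f := fun z : FracIn K => z.2.1.2) (g := fun z : FracIn K => z.2.2.2))).bigO 5 (fun z => by
      obtain ⟨⟨⟨S, V, V'⟩, w⟩, ⟨a, P⟩, b, Q⟩ := z
      simp only [length_bmul, zero_add, add_zero]
      have hW : w + 1 ≤ (w + 1) * (S + 1) := Nat.le_mul_of_pos_right _ (Nat.succ_pos _)
      have e1 : (a.length + Q.length + 1) * (w + 1) * (S + 1) ≤
          (a.length + P.length + b.length + Q.length + 1) * ((w + 1) * (S + 1)) := by
        rw [mul_assoc]
        exact Nat.mul_le_mul_right _ (by omega)
      have e2 : (b.length + P.length + 1) * (w + 1) * (S + 1) ≤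
          (a.length + P.length + b.length + Q.length + 1) * ((w + 1) * (S + 1)) := by
        rw [mul_assoc]
        exact Nat.mul_le_mul_right _ (by omega)
      have e3 : (P.length + Q.length + 1) * (w + 1) * (S + 1) ≤
          (a.length + P.length + b.length + Q.length + 1) * ((w + 1) * (S + 1)) := by
        rw [mul_assoc]
        exact Nat.mul_le_mul_right _ (by omega)
      have e4 : (a.length + Q.length - 1 + (b.length + P.length - 1) + 1) * (w + 1) ≤
          (a.length + P.length + b.length + Q.length + 1) * ((w + 1) * (S + 1)) :=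
        Nat.mul_le_mul (by omega) hW
      omega)⟩

theorem fracB_ex : ∃ c, ∀ (K : Type) [Field K],
    Comp K (fun z : MEnv K × ℕ × List (List (List K) × List (List K)) =>
      fracB z.1 z.2.1 z.2.2) c
      (fun z => (tot (z.2.2.map Prod.fst) + tot (z.2.2.map Prod.snd) + 1) * (z.2.1 + 1) *
        (z.1.1 + 1) * (Nat.clog 2 z.2.2.length + 1)) := by
  obtain ⟨c1, hc1⟩ := leafFrac_ex
  obtain ⟨c2, hc2⟩ := addFrac_ex
  exact ⟨_, fun K _ => (comp_rec2 (K := K)
    (isLeaf := fun z : MEnv K × ℕ × List (List (List K) × List (List K)) => z.2.2.tail.isEmpty)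
    (next1 := fun z => (z.1, z.2.1, z.2.2.take (z.2.2.length / 2)))
    (next2 := fun z => (z.1, z.2.1, z.2.2.drop (z.2.2.length / 2)))
    (join := fun z x y => addFrac z.1 z.2.1 x y)
    (T := fun z => (30 + 4) * ((z.2.1 + 1) * (z.1.1 + 1)) *
      ((tot (z.2.2.map Prod.fst) + tot (z.2.2.map Prod.snd)) *
        (Nat.clog 2 z.2.2.length + 1)) + 4 * ((z.2.1 + 1) * (z.1.1 + 1)))
    inferInstance
    ((hc1 K).comp (f := fun z : MEnv K × ℕ × List (List (List K) × List (List K)) =>
      (z.2.1, z.2.2.headD ([], [[1]]))) inferInstance)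
    inferInstance inferInstance
    ((hc2 K).comp (f := fun z : (MEnv K × ℕ × List (List (List K) × List (List K))) ×
      (List (List K) × List (List K)) × (List (List K) × List (List K)) =>
      ((z.1.1, z.1.2.1), z.2.1, z.2.2)) inferInstance)
    (fun z => z.2.2.length)
    (by rintro ⟨E, w, L⟩ h; exact fracB_leaf E w h)
    (by rintro ⟨E, w, L⟩ h; exact fracB_node E w h)
    (by
      rintro ⟨E, w, L⟩ h
      have := isEmpty_tail_false (L := L) h
      show (L.take (L.length / 2)).length < L.length
      rw [List.length_take]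
      omega)
    (by
      rintro ⟨E, w, L⟩ h
      have := isEmpty_tail_false (L := L) h
      show (L.drop (L.length / 2)).length < L.length
      rw [List.length_drop]
      omega)
    (by
      rintro ⟨⟨S, V, V'⟩, w, L⟩ h
      simp only [zero_add, add_zero]
      have hW : w + 1 ≤ (w + 1) * (S + 1) := Nat.le_mul_of_pos_right _ (Nat.succ_pos _)
      have e1 : (L.headD ([], [[1]])).1.length + (L.headD ([], [[1]])).2.length + 1 ≤
          tot (L.map Prod.fst) + tot (L.map Prod.snd) + 2 := by
        match L with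
        | [] => simp
        | z :: L =>
          rw [List.headD_cons, List.map_cons, List.map_cons, tot_cons, tot_cons]
          omega
      have e2 := Nat.mul_le_mul e1 hW
      generalize tot (L.map Prod.fst) + tot (L.map Prod.snd) = u at *
      have e3 : u ≤ u * (Nat.clog 2 L.length + 1) := Nat.le_mul_of_pos_right _ (Nat.succ_pos _)
      refine e2.trans ?_
      generalize (w + 1) * (S + 1) = W at *
      generalize u * (Nat.clog 2 L.length + 1) = P at *
      nlinarith [Nat.mul_le_mul_left W e3, Nat.zero_le (W * P)])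
    (by
      rintro ⟨⟨S, V, V'⟩, w, L⟩ h
      simp only [zero_add, add_zero]
      have h2 := isEmpty_tail_false (L := L) h
      have hl := length_le_tot (L.map Prod.fst)
      rw [List.length_map] at hl
      have ht : tot ((L.take (L.length / 2)).map Prod.fst) +
          tot ((L.take (L.length / 2)).map Prod.snd) +
          (tot ((L.drop (L.length / 2)).map Prod.fst) +
          tot ((L.drop (L.length / 2)).map Prod.snd)) =
          tot (L.map Prod.fst) + tot (L.map Prod.snd) := by
        rw [map_split Prod.snd L (L.length / 2), map_split Prod.fst L (L.length / 2), tot_append,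
          tot_append]
        omega
      have hb1 := length_fracB_fst_le (S, V, V') w (L.take (L.length / 2))
      have hb2 := length_fracB_fst_le (S, V, V') w (L.drop (L.length / 2))
      have hb3 := length_fracB_snd_le (S, V, V') w (L.take (L.length / 2))
      have hb4 := length_fracB_snd_le (S, V, V') w (L.drop (L.length / 2))
      have hW : 1 ≤ (w + 1) * (S + 1) := Nat.mul_pos (Nat.succ_pos _) (Nat.succ_pos _)
      have e1 : ((fracB (S, V, V') w (List.take (L.length / 2) L)).1.length +
          (fracB (S, V, V') w (List.take (L.length / 2) L)).2.length +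
          (fracB (S, V, V') w (List.drop (L.length / 2) L)).1.length +
          (fracB (S, V, V') w (List.drop (L.length / 2) L)).2.length + 1) *
          ((w + 1) * (S + 1)) ≤
          4 * (tot (L.map Prod.fst) + tot (L.map Prod.snd)) * ((w + 1) * (S + 1)) :=
        Nat.mul_le_mul_right _ (by omega)
      have key := tree_arith (W := (w + 1) * (S + 1)) (a := 30) (B := 4)
        (X := L.length + L.length + L.length / 2 + (L.length + L.length + L.length / 2) +
          ((fracB (S, V, V') w (List.take (L.length / 2) L)).1.length +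
          (fracB (S, V, V') w (List.take (L.length / 2) L)).2.length +
          (fracB (S, V, V') w (List.drop (L.length / 2) L)).1.length +
          (fracB (S, V, V') w (List.drop (L.length / 2) L)).2.length + 1) *
          ((w + 1) * (S + 1)) + 4)
        ht (by omega) (clog_take h2) (clog_drop h2) (by
          have e2 : tot (L.map Prod.fst) + tot (L.map Prod.snd) ≤
            (w + 1) * (S + 1) * (tot (L.map Prod.fst) + tot (L.map Prod.snd)) :=
            Nat.le_mul_of_pos_left _ hW
          have e3 : 4 * (tot (L.map Prod.fst) + tot (L.map Prod.snd)) * ((w + 1) * (S + 1)) =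
            4 * ((w + 1) * (S + 1) * (tot (L.map Prod.fst) + tot (L.map Prod.snd))) := by ring
          omega)
      omega)).bigO 38 (fun z => by
        have e : (30 + 4) * ((z.2.1 + 1) * (z.1.1 + 1)) *
            ((tot (z.2.2.map Prod.fst) + tot (z.2.2.map Prod.snd)) *
              (Nat.clog 2 z.2.2.length + 1)) + 4 * ((z.2.1 + 1) * (z.1.1 + 1)) ≤
            38 * ((tot (z.2.2.map Prod.fst) + tot (z.2.2.map Prod.snd) + 1) * (z.2.1 + 1) *
              (z.1.1 + 1) * (Nat.clog 2 z.2.2.length + 1)) := by
          generalize tot (z.2.2.map Prod.fst) + tot (z.2.2.map Prod.snd) = u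
          have e1 : (z.2.1 + 1) * (z.1.1 + 1) ≤
            (z.2.1 + 1) * (z.1.1 + 1) * (Nat.clog 2 z.2.2.length + 1) :=
            Nat.le_mul_of_pos_right _ (Nat.succ_pos _)
          nlinarith [Nat.zero_le ((z.2.1 + 1) * (z.1.1 + 1) *
            (u * (Nat.clog 2 z.2.2.length + 1)))]
        omega)⟩

theorem combB_ex : ∃ c, ∀ (K : Type) [Field K],
    Comp K (fun z : MEnv K × ℕ × List (List (List K) × List (List K)) =>
      combB z.1 z.2.1 z.2.2) c
      (fun z => (tot (z.2.2.map Prod.fst) + tot (z.2.2.map Prod.snd) + 1) * (z.2.1 + 1) *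
        (z.1.1 + 1) * (Nat.clog 2 z.2.2.length + 1)) := by
  obtain ⟨c, hc⟩ := fracB_ex
  exact ⟨_, fun K _ => Comp.fst (h := hc K)⟩

noncomputable def combBCd : Cd := combB_ex.choose

instance compCombB {α : Type} [Enc K α] {E : α → MEnv K} {w : α → ℕ}
    {L : α → List (List (List K) × List (List K))} {c1 c2 c3 : Cd} {T1 T2 T3 : α → ℕ}
    [h1 : Comp K E c1 T1] [h2 : Comp K w c2 T2] [h3 : Comp K L c3 T3] :
    Comp K (fun x => combB (E x) (w x) (L x)) (combBCd.comp (c1.pair (c2.pair c3)))
      (fun x => T1 x + (T2 x + T3 x) +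
        (tot ((L x).map Prod.fst) + tot ((L x).map Prod.snd) + 1) * (w x + 1) *
          ((E x).1 + 1) * (Nat.clog 2 (L x).length + 1)) :=
  (combB_ex.choose_spec K).comp (Comp.pair (h := h1) (h' := Comp.pair (h := h2) (h' := h3)))

/-! ### Remainder tree -/

/-- the remainders of `h` modulo the elements of `L` -/
def remB (E : MEnv K) (w : ℕ) (h : List (List K)) (L : List (List (List K))) :
    List (List (List K)) :=
  if hL : L.tail.isEmpty = true then L.map (fun F => brem E w h F)
  else remB E w (brem E w h (prodB E w (L.take (L.length / 2)))) (L.take (L.length / 2)) ++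
    remB E w (brem E w h (prodB E w (L.drop (L.length / 2)))) (L.drop (L.length / 2))
termination_by L.length
decreasing_by
  · have := isEmpty_tail_false (by simpa using hL : L.tail.isEmpty = false)
    rw [List.length_take]
    omega
  · have := isEmpty_tail_false (by simpa using hL : L.tail.isEmpty = false)
    rw [List.length_drop]
    omega

theorem remB_leaf (E : MEnv K) (w : ℕ) (h : List (List K)) {L : List (List (List K))}
    (hL : L.tail.isEmpty = true) : remB E w h L = L.map (brem E w h) := by
  rw [remB, dif_pos hL]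

theorem remB_node (E : MEnv K) (w : ℕ) (h : List (List K)) {L : List (List (List K))}
    (hL : L.tail.isEmpty = false) : remB E w h L =
      remB E w (brem E w h (prodB E w (L.take (L.length / 2)))) (L.take (L.length / 2)) ++
      remB E w (brem E w h (prodB E w (L.drop (L.length / 2)))) (L.drop (L.length / 2)) := by
  rw [remB, dif_neg (by rw [hL]; exact Bool.false_ne_true)]

theorem length_remB (E : MEnv K) (w : ℕ) (h : List (List K)) (L : List (List (List K))) :
    (remB E w h L).length = L.length := by
  induction L using half_induction generalizing h with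
  | hleaf L hL => rw [remB_leaf E w h hL, List.length_map]
  | hnode L hL h1 h2 =>
    rw [remB_node E w h hL, List.length_append, h1, h2, ← List.length_append,
      List.take_append_drop]

theorem tot_remB (E : MEnv K) (w : ℕ) (h : List (List K)) (L : List (List (List K))) :
    tot (remB E w h L) ≤ tot L := by
  induction L using half_induction generalizing h with
  | hleaf L hL =>
    rw [remB_leaf E w h hL]
    have h1 := (isEmpty_tail_iff L).1 hL
    match L, h1 with
    | [], _ => exact le_rfl
    | [F], _ =>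
      rw [List.map_cons, List.map_nil, tot_cons, tot_cons, length_brem]
      omega
  | hnode L hL h1 h2 =>
    rw [remB_node E w h hL, tot_append, ← tot_split L (L.length / 2)]
    exact Nat.add_le_add (h1 _) (h2 _)

theorem rows_remB (E : MEnv K) (w : ℕ) (h : List (List K)) (L : List (List (List K))) :
    ∀ R ∈ remB E w h L, ∀ r ∈ R, r.length = w := by
  induction L using half_induction generalizing h with
  | hleaf L hL =>
    rw [remB_leaf E w h hL]
    intro R hR
    rw [List.mem_map] at hR
    obtain ⟨F, -, rfl⟩ := hR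
    exact rows_brem _ _ _ _
  | hnode L hL h1 h2 =>
    rw [remB_node E w h hL]
    intro R hR
    rw [List.mem_append] at hR
    rcases hR with hR | hR
    · exact h1 _ R hR
    · exact h2 _ R hR

theorem modByMonic_of_dvd {p P F : K[X][X]} (hF : F.Monic) (hFP : F ∣ P) :
    (p %ₘ P) %ₘ F = p %ₘ F := by
  apply modByMonic_eq_of_dvd_sub hF
  have h : p %ₘ P - p = -(P * (p /ₘ P)) := by
    have := modByMonic_add_div p P
    linear_combination this
  rw [h]
  exact (hFP.mul_right _).neg_right

theorem monic_list_prod {L : List (K[X][X])} (hL : ∀ F ∈ L, F.Monic) :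
    L.prod.Monic ∧ L.prod.natDegree = (L.map natDegree).sum := by
  induction L with
  | nil => simp
  | cons F L ih =>
    obtain ⟨h1, h2⟩ := ih (fun G hG => hL G (by simp [hG]))
    have h3 := hL F (by simp)
    rw [List.prod_cons, List.map_cons, List.sum_cons, ← h2]
    exact ⟨h3.mul h1, h3.natDegree_mul h1⟩

/-- The product of monic polynomials is computed with the right shape. -/
theorem prodB_monic {E : MEnv K} (hE : E.Good) {w : ℕ} (hw : 0 < w) {L : List (List (List K))}
    (hf : Fits E (2 * tot L) w) (hL : ∀ F ∈ L, (toB F).Monic ∧ F.length = (toB F).natDegree + 1) :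
    ML w (prodB E w L) ∧ (L.map toB).prod.Monic := by
  have h1 : (L.map toB).prod.Monic ∧
      (L.map toB).prod.natDegree = ((L.map toB).map natDegree).sum := by
    apply monic_list_prod
    intro F hF
    rw [List.mem_map] at hF
    obtain ⟨G, hG, rfl⟩ := hF
    exact (hL G hG).1
  refine ⟨(ML.of_cg (cg_prodB hE hf) h1.1 hw ?_ (fun r hr => (rows_prodB E w L r hr).le)).1, h1.1⟩
  rw [h1.2, length_prodB E w L (fun F hF hF' => by
    have := (hL F hF).2
    rw [hF', List.length_nil] at this
    omega), List.map_map]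
  congr 2
  apply List.map_congr_left
  intro F hF
  have := (hL F hF).2
  simp only [Function.comp_apply]
  omega

theorem remB_spec_aux {E : MEnv K} (hE : E.Good) {w : ℕ} (hw : 0 < w) {N : ℕ}
    (hN : Fits E N w) (L : List (List (List K))) :
    ∀ (h : List (List K)), h.length + tot L ≤ N → 2 * tot L ≤ N →
    (∀ F ∈ L, (toB F).Monic ∧ F.length = (toB F).natDegree + 1) →
    List.Forall₂ (fun R F => Cg w (toB R) (toB h %ₘ toB F) ∧ R.length = F.length - 1)
      (remB E w h L) L := by
  induction L using half_induction with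
  | hleaf L hl =>
    intro h h1 h2 hL
    rw [remB_leaf E w h hl]
    have h3 := (isEmpty_tail_iff L).1 hl
    match L, h3 with
    | [], _ => exact .nil
    | [F], _ =>
      obtain ⟨h4, h5⟩ := hL F (by simp)
      rw [tot_cons, tot_nil] at h1
      rw [List.map_cons, List.map_nil]
      refine .cons ⟨cg_brem hE (hN.mono (by omega)) h4 h5, length_brem _ _ _ _⟩ .nil
  | hnode L hl h1 h2 =>
    intro h h3 h4 hL
    have ht := tot_split L (L.length / 2)
    have hl2 := isEmpty_tail_false hl
    have hlt1 := length_le_tot (L.take (L.length / 2))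
    have hlt2 := length_le_tot (L.drop (L.length / 2))
    rw [List.length_take] at hlt1
    rw [List.length_drop] at hlt2
    have key : ∀ M : List (List (List K)), tot M + 1 ≤ tot L → (∀ F ∈ M, F ∈ L) →
        (∀ (h : List (List K)), h.length + tot M ≤ N → 2 * tot M ≤ N →
        (∀ F ∈ M, (toB F).Monic ∧ F.length = (toB F).natDegree + 1) →
        List.Forall₂ (fun R F => Cg w (toB R) (toB h %ₘ toB F) ∧ R.length = F.length - 1)
        (remB E w h M) M) →
        List.Forall₂ (fun R F => Cg w (toB R) (toB h %ₘ toB F) ∧ R.length = F.length - 1)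
        (remB E w (brem E w h (prodB E w M)) M) M := by
      intro M hM hML hi
      have hLM : ∀ F ∈ M, (toB F).Monic ∧ F.length = (toB F).natDegree + 1 :=
        fun F hF => hL F (hML F hF)
      have hb := length_prodB_le E w M
      obtain ⟨m1, m2⟩ := prodB_monic hE hw (hN.mono (by omega)) hLM
      have hr := cg_brem hE (a := h) (b := prodB E w M) (hN.mono (by omega)) m1.monic m1.len
      have hr' := hr.trans ((Cg.refl w (toB h)).modByMonic (cg_prodB hE (hN.mono (by omega)))
        m1.monic m2)
      have hlb := length_brem E w h (prodB E w M)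
      have hi' := hi (brem E w h (prodB E w M)) (by omega) (by omega) hLM
      rw [List.forall₂_iff_zip] at hi' ⊢
      refine ⟨hi'.1, fun {R F} hRF => ?_⟩
      obtain ⟨c1, c2⟩ := hi'.2 hRF
      have hFM : F ∈ M := (List.of_mem_zip hRF).2
      refine ⟨?_, c2⟩
      have := c1.trans (hr'.modByMonic (Cg.refl w (toB F)) (hLM F hFM).1 (hLM F hFM).1)
      rwa [modByMonic_of_dvd (hLM F hFM).1
        (List.dvd_prod (List.mem_map_of_mem hFM))] at this
    have k1 := key (L.take (L.length / 2)) (by omega) (fun F hF => List.mem_of_mem_take hF) h1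
    have k2 := key (L.drop (L.length / 2)) (by omega) (fun F hF => List.mem_of_mem_drop hF) h2
    have k3 := List.rel_append k1 k2
    simp only [List.take_append_drop] at k3
    rw [remB_node E w h hl]
    exact k3

theorem remB_spec {E : MEnv K} (hE : E.Good) {w : ℕ} (hw : 0 < w) {h : List (List K)}
    {L : List (List (List K))} (hf : Fits E (h.length + 2 * tot L) w)
    (hL : ∀ F ∈ L, (toB F).Monic ∧ F.length = (toB F).natDegree + 1) :
    List.Forall₂ (fun R F => Cg w (toB R) (toB h %ₘ toB F) ∧ R.length = F.length - 1)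
      (remB E w h L) L :=
  remB_spec_aux hE hw hf L h (by omega) (by omega) hL

theorem rem_arith {W t t1 t2 c c1 c2 l u p1 p2 q1 q2 r : ℕ} (ht : t1 + t2 = t) (h2 : 2 ≤ t)
    (hl : l ≤ t) (hc1 : c1 + 1 ≤ c) (hc2 : c2 + 1 ≤ c) (hp1 : p1 ≤ t1 + 1) (hp2 : p2 ≤ t2 + 1)
    (hq1 : q1 ≤ t1) (hq2 : q2 ≤ t2) (hr : r ≤ l) (hW : 1 ≤ W) :
    l + l + l / 2 + (t1 + 1) * W * (c1 + 1) + (u + p1 + 1) * W + (l + l + l / 2) +
      (l + l + l / 2 + (t2 + 1) * W * (c2 + 1) + (u + p2 + 1) * W + (l + l + l / 2)) + r +
      (W * (2 * q1 + 20 * (t1 * (c1 + 1) ^ 2) + 4) +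
        W * (2 * q2 + 20 * (t2 * (c2 + 1) ^ 2) + 4) + 4) ≤
      W * (2 * u + 20 * (t * (c + 1) ^ 2) + 4) := by
  have e1 : (t1 + 1) * W * (c1 + 1) ≤ W * ((t1 + 1) * c) := by
    rw [mul_comm (t1 + 1) W, mul_assoc]
    exact Nat.mul_le_mul_left _ (Nat.mul_le_mul_left _ hc1)
  have e2 : (t2 + 1) * W * (c2 + 1) ≤ W * ((t2 + 1) * c) := by
    rw [mul_comm (t2 + 1) W, mul_assoc]
    exact Nat.mul_le_mul_left _ (Nat.mul_le_mul_left _ hc2)
  have e3 : (u + p1 + 1) * W ≤ W * (u + t1 + 2) := by
    rw [mul_comm]
    exact Nat.mul_le_mul_left _ (by omega)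
  have e4 : (u + p2 + 1) * W ≤ W * (u + t2 + 2) := by
    rw [mul_comm]
    exact Nat.mul_le_mul_left _ (by omega)
  have e5 : W * (2 * q1 + 20 * (t1 * (c1 + 1) ^ 2) + 4) ≤ W * (2 * t1 + 20 * (t1 * c ^ 2) + 4) :=
    Nat.mul_le_mul_left _ (by
      have := Nat.mul_le_mul_left t1 (Nat.pow_le_pow_left hc1 2)
      omega)
  have e6 : W * (2 * q2 + 20 * (t2 * (c2 + 1) ^ 2) + 4) ≤ W * (2 * t2 + 20 * (t2 * c ^ 2) + 4) :=
    Nat.mul_le_mul_left _ (by
      have := Nat.mul_le_mul_left t2 (Nat.pow_le_pow_left hc2 2)
      omega)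
  have e7 : W * (2 * u + 20 * (t * (c + 1) ^ 2) + 4) =
      W * (2 * u) + W * (20 * (t1 * c ^ 2)) + W * (20 * (t2 * c ^ 2)) + 40 * (W * (t * c)) +
        20 * (W * t) + 4 * W := by
    rw [← ht]; ring
  have e8 : W * ((t1 + 1) * c) + W * ((t2 + 1) * c) = W * (t * c) + 2 * (W * c) := by
    rw [← ht]; ring
  have e9 : W * (u + t1 + 2) + W * (u + t2 + 2) = W * (2 * u) + W * t + 4 * W := by
    rw [← ht]; ring
  have e10 : W * (2 * t1 + 20 * (t1 * c ^ 2) + 4) + W * (2 * t2 + 20 * (t2 * c ^ 2) + 4) =
      2 * (W * t) + W * (20 * (t1 * c ^ 2)) + W * (20 * (t2 * c ^ 2)) + 8 * W := by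
    rw [← ht]; ring
  have e11 : t ≤ W * t := Nat.le_mul_of_pos_left _ hW
  have e12 : 2 * W ≤ W * t := by rw [mul_comm]; exact Nat.mul_le_mul_left _ h2
  have e13 : 2 * (W * c) ≤ W * (t * c) := by
    have : 2 * (W * c) = W * (2 * c) := by ring
    rw [this]
    exact Nat.mul_le_mul_left _ (Nat.mul_le_mul_right _ h2)
  have e14 : W * t ≤ W * (t * c) :=
    Nat.mul_le_mul_left _ (Nat.le_mul_of_pos_right _ (by omega))
  omega

theorem remB_ex : ∃ c, ∀ (K : Type) [Field K],
    Comp K (fun z : MEnv K × ℕ × List (List K) × List (List (List K)) =>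
      remB z.1 z.2.1 z.2.2.1 z.2.2.2) c
      (fun z => (z.2.2.1.length + tot z.2.2.2 + 1) * (z.2.1 + 1) * (z.1.1 + 1) *
        (Nat.clog 2 z.2.2.2.length + 1) ^ 2) := by
  obtain ⟨cr, hcr⟩ := brem_ex
  exact ⟨_, fun K _ => (comp_rec2 (K := K)
    (isLeaf := fun z : MEnv K × ℕ × List (List K) × List (List (List K)) =>
      z.2.2.2.tail.isEmpty)
    (leaf := fun z => z.2.2.2.map (fun F => brem z.1 z.2.1 z.2.2.1 F))
    (next1 := fun z => (z.1, z.2.1, brem z.1 z.2.1 z.2.2.1
      (prodB z.1 z.2.1 (z.2.2.2.take (z.2.2.2.length / 2))),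
      z.2.2.2.take (z.2.2.2.length / 2)))
    (next2 := fun z => (z.1, z.2.1, brem z.1 z.2.1 z.2.2.1
      (prodB z.1 z.2.1 (z.2.2.2.drop (z.2.2.2.length / 2))),
      z.2.2.2.drop (z.2.2.2.length / 2)))
    (join := fun z x y => x ++ y)
    (T := fun z => ((z.2.1 + 1) * (z.1.1 + 1)) * (2 * z.2.2.1.length + 20 * (tot z.2.2.2 *
        (Nat.clog 2 z.2.2.2.length + 1) ^ 2) + 4))
    inferInstance
    (Comp.map (hg := (hcr K).comp (f := fun z : (MEnv K × ℕ × List (List K) ×
      List (List (List K))) × List (List K) => (z.1.1, z.1.2.1, z.1.2.2.1, z.2)) inferInstance))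
    (Comp.pair (h' := Comp.pair (h' := Comp.pair (h := (hcr K).comp
      (f := fun z : MEnv K × ℕ × List (List K) × List (List (List K)) =>
        (z.1, z.2.1, z.2.2.1, prodB z.1 z.2.1 (z.2.2.2.take (z.2.2.2.length / 2))))
        inferInstance))))
    (Comp.pair (h' := Comp.pair (h' := Comp.pair (h := (hcr K).comp
      (f := fun z : MEnv K × ℕ × List (List K) × List (List (List K)) =>
        (z.1, z.2.1, z.2.2.1, prodB z.1 z.2.1 (z.2.2.2.drop (z.2.2.2.length / 2))))
        inferInstance))))
    inferInstance
    (fun z => z.2.2.2.length)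
    (by rintro ⟨E, w, h, L⟩ hl; exact remB_leaf E w h hl)
    (by rintro ⟨E, w, h, L⟩ hl; exact remB_node E w h hl)
    (by
      rintro ⟨E, w, h, L⟩ hl
      have := isEmpty_tail_false (L := L) hl
      show (L.take (L.length / 2)).length < L.length
      rw [List.length_take]
      omega)
    (by
      rintro ⟨E, w, h, L⟩ hl
      have := isEmpty_tail_false (L := L) hl
      show (L.drop (L.length / 2)).length < L.length
      rw [List.length_drop]
      omega)
    (by
      rintro ⟨⟨S, V, V'⟩, w, h, L⟩ hl
      simp only [zero_add, add_zero]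
      have h3 := (isEmpty_tail_iff L).1 hl
      match L, h3 with
      | [], _ => simp
      | [F], _ =>
        simp only [List.map_cons, List.map_nil, List.sum_cons, List.sum_nil, tot_cons, tot_nil,
          List.length_cons, List.length_nil, add_zero]
        have hW : 1 ≤ (w + 1) * (S + 1) := Nat.mul_pos (Nat.succ_pos _) (Nat.succ_pos _)
        rw [mul_assoc]
        generalize (w + 1) * (S + 1) = W at *
        have e1 : F.length + 1 ≤ (F.length + 1) * (Nat.clog 2 (0 + 1) + 1) ^ 2 :=
          Nat.le_mul_of_pos_right _ (Nat.pow_pos (Nat.succ_pos _))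
        have e2 : W * (h.length + F.length + 2) ≤
            W * (2 * h.length + 20 * ((F.length + 1) * (Nat.clog 2 (0 + 1) + 1) ^ 2) + 4) :=
          Nat.mul_le_mul_left _ (by omega)
        refine le_trans ?_ e2
        nlinarith [Nat.zero_le (W * h.length)])
    (by
      rintro ⟨⟨S, V, V'⟩, w, h, L⟩ hl
      simp only [zero_add, add_zero]
      have h2 := isEmpty_tail_false (L := L) hl
      have hlt := length_le_tot L
      have ht := tot_split L (L.length / 2)
      have hb1 := length_prodB_le (S, V, V') w (L.take (L.length / 2))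
      have hb2 := length_prodB_le (S, V, V') w (L.drop (L.length / 2))
      have hW : 1 ≤ (w + 1) * (S + 1) := Nat.mul_pos (Nat.succ_pos _) (Nat.succ_pos _)
      have key := rem_arith (u := h.length)
        (q1 := (brem (S, V, V') w h (prodB (S, V, V') w (L.take (L.length / 2)))).length)
        (q2 := (brem (S, V, V') w h (prodB (S, V, V') w (L.drop (L.length / 2)))).length)
        (r := (remB (S, V, V') w (brem (S, V, V') w h (prodB (S, V, V') w
          (L.take (L.length / 2)))) (L.take (L.length / 2))).length)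
        ht (by omega) hlt (clog_take h2) (clog_drop h2) hb1 hb2
        (by rw [length_brem]; omega) (by rw [length_brem]; omega)
        (by rw [length_remB, List.length_take]; omega) hW
      simp only [← mul_assoc] at key ⊢
      exact key)).bigO 28 (fun z => by
        have e : ((z.2.1 + 1) * (z.1.1 + 1)) * (2 * z.2.2.1.length + 20 * (tot z.2.2.2 *
            (Nat.clog 2 z.2.2.2.length + 1) ^ 2) + 4) ≤
            26 * ((z.2.2.1.length + tot z.2.2.2 + 1) * (z.2.1 + 1) * (z.1.1 + 1) *
              (Nat.clog 2 z.2.2.2.length + 1) ^ 2) := by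
          generalize hD : (Nat.clog 2 z.2.2.2.length + 1) ^ 2 = D
          have hD1 : 1 ≤ D := by rw [← hD]; exact Nat.pow_pos (Nat.succ_pos _)
          have e1 : 2 * z.2.2.1.length + 20 * (tot z.2.2.2 * D) + 4 ≤
              26 * ((z.2.2.1.length + tot z.2.2.2 + 1) * D) := by
            nlinarith [Nat.mul_le_mul_left z.2.2.1.length hD1, Nat.zero_le (tot z.2.2.2 * D)]
          calc ((z.2.1 + 1) * (z.1.1 + 1)) * (2 * z.2.2.1.length + 20 * (tot z.2.2.2 * D) + 4)
              ≤ ((z.2.1 + 1) * (z.1.1 + 1)) * (26 * ((z.2.2.1.length + tot z.2.2.2 + 1) * D)) :=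
                Nat.mul_le_mul_left _ e1
            _ = _ := by ring
        omega)⟩

noncomputable def remBCd : Cd := remB_ex.choose

instance compRemB {α : Type} [Enc K α] {E : α → MEnv K} {w : α → ℕ} {h : α → List (List K)}
    {L : α → List (List (List K))} {c1 c2 c3 c4 : Cd} {T1 T2 T3 T4 : α → ℕ}
    [h1 : Comp K E c1 T1] [h2 : Comp K w c2 T2] [h3 : Comp K h c3 T3] [h4 : Comp K L c4 T4] :
    Comp K (fun x => remB (E x) (w x) (h x) (L x)) (remBCd.comp (c1.pair (c2.pair (c3.pair c4))))
      (fun x => T1 x + (T2 x + (T3 x + T4 x)) +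
        ((h x).length + tot (L x) + 1) * (w x + 1) * ((E x).1 + 1) *
          (Nat.clog 2 (L x).length + 1) ^ 2) :=
  (remB_ex.choose_spec K).comp (Comp.pair (h := h1) (h' := Comp.pair (h := h2)
    (h' := Comp.pair (h := h3) (h' := h4))))

end Pool.Agent.BiFac

end

section

/-!
MP_8d07ed_lc, item U1: Berlekamp's algorithm for a squarefree monic polynomial.
-/

set_option autoImplicit false
set_option synthInstance.maxSize 4096

namespace Pool.Agent.BiFac

open Polynomial Pool.Agent.TreeRAM

variable {K : Type} [Field K]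

/-! ### Definitions -/

/-- Split `g` with the help of `u`. -/
def split1 [DecidableEq K] (u g : List K) : List (List K) :=
  bif decide ((gcdN g (subP (modN u g) [1])).length ≤ 1) ||
      decide (g.length ≤ (gcdN g (subP (modN u g) [1])).length) then [g]
  else [gcdN g (subP (modN u g) [1]), divN g (gcdN g (subP (modN u g) [1]))]

/-- The rows `h ^ i mod f - x ^ i`. -/
def berlRows (E : MEnv K) (f h : List K) : ℕ → List K → List K → List (List K)
  | 0, _, _ => []
  | i + 1, P, e => subP P e :: berlRows E f h i (mulmod E f P h) (0 :: e)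

/-- A basis of Berlekamp's algebra. -/
noncomputable def berlBasis [DecidableEq K] (E : MEnv K) (Q : FQ) (f : List K) : List (List K) :=
  leftKer (f.length - 1)
    (berlRows E f (frobmod E f Q [0, 1]) (f.length - 1) [1] [1])

/-- One round of splitting. -/
def berlStep [DecidableEq K] (E : MEnv K) (Q : FQ) (f : List K) (B : List (List K))
    (tape : List K) (L : List (List K)) : List (List K) :=
  L.flatMap (split1 (chimod E f Q (lincomb (tape.take f.length) B)))

/-- The rounds of splitting. -/
def berlRounds [DecidableEq K] (E : MEnv K) (Q : FQ) (f : List K) (B : List (List K)) :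
    ℕ → List K → List (List K) → List (List K)
  | 0, _, L => L
  | n + 1, tape, L => berlRounds E Q f B n (tape.drop f.length) (berlStep E Q f B tape L)

/-- factors the squarefree monic `f`; `nb` rounds of splitting -/
noncomputable def sqFactor [DecidableEq K] (E : MEnv K) (Q : FQ) (nb : ℕ) (f : List K) (tape : List K) :
    List (List K) :=
  bif decide (2 ≤ f.length) && decide (f.getLastD 0 = 1) then
    berlRounds E Q f (berlBasis E Q f) nb tape [f]
  else [f]

/-! ### One splitting step -/

theorem berl_mp_of_last {f : List K} (h : f.getLastD 0 = 1) : MP f := by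
  have hne : f ≠ [] := by
    rintro rfl
    simp at h
  obtain ⟨l, a, rfl⟩ : ∃ l a, f = l ++ [a] := ⟨f.dropLast, f.getLast hne,
    (List.dropLast_append_getLast hne).symm⟩
  have ha : a = 1 := by simpa using h
  subst ha
  have e : toP (l ++ [1]) = X ^ l.length + toP l := by
    rw [toP_append]
    simp only [toP_cons, toP_nil, mul_zero, add_zero, C_1, mul_one]
    ring
  have hd : (toP l).degree < l.length := degree_toP_lt l
  have hm : (X ^ l.length + toP l).Monic := monic_X_pow_add hd
  refine ⟨e ▸ hm, ?_⟩
  rw [e, List.length_append, List.length_singleton]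
  congr 1
  rw [natDegree_add_eq_left_of_degree_lt, natDegree_X_pow]
  rwa [degree_X_pow]

theorem berl_last_of_mp {f : List K} (h : MP f) : f.getLastD 0 = 1 := by
  have hne : f ≠ [] := by
    rintro rfl
    have := h.len
    simp at this
  obtain ⟨l, a, rfl⟩ : ∃ l a, f = l ++ [a] := ⟨f.dropLast, f.getLast hne,
    (List.dropLast_append_getLast hne).symm⟩
  have h1 := h.monic
  have h2 := h.len
  rw [List.length_append, List.length_singleton] at h2
  have h3 : (toP (l ++ [a])).coeff l.length = 1 := by
    have : l.length = (toP (l ++ [a])).natDegree := by omega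
    conv_lhs => rw [this]
    exact h1
  rw [coeff_toP] at h3
  simpa using h3

section split

variable [DecidableEq K]

/-- A nonconstant monic polynomial. -/
structure BerlMN (g : List K) : Prop where
  mp : MP g
  pos : 0 < (toP g).natDegree

theorem BerlMN.two_le {g : List K} (h : BerlMN g) : 2 ≤ g.length := by
  have := h.mp.len
  have := h.pos
  omega

theorem BerlMN.of_mp {g : List K} (h : MP g) (h2 : 2 ≤ g.length) : BerlMN g :=
  ⟨h, by have := h.len; omega⟩

/-- what happens in one splitting step -/
theorem split1_spec (u : List K) {g : List K} (hg : BerlMN g) :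
    (split1 u g = [g] ∧ ((∀ d : K[X], ¬ IsUnit d → d ∣ toP g → ¬ d ∣ toP u - 1) ∨
      toP g ∣ toP u - 1)) ∨
    ∃ a b : List K, split1 u g = [a, b] ∧ BerlMN a ∧ BerlMN b ∧ toP g = toP a * toP b ∧
      toP a ∣ toP u - 1 ∧ ∀ d : K[X], d ∣ toP g → d ∣ toP u - 1 → d ∣ toP a := by
  set a := gcdN g (subP (modN u g) [1]) with ha
  have hg0 : toP g ≠ 0 := hg.mp.monic.ne_zero
  have hMP : MP a := gcdN_MP (Or.inl hg0)
  have hw : toP (subP (modN u g) [1]) = toP u % toP g - 1 := by
    rw [toP_subP, toP_modN]
    simp
  have hmod : toP u - 1 = toP g * (toP u / toP g) + (toP u % toP g - 1) := by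
    have := EuclideanDomain.div_add_mod (toP u) (toP g)
    linear_combination -this
  have hag : toP a ∣ toP g := gcdN_dvd_left _ _
  have hau : toP a ∣ toP u - 1 := by
    rw [hmod]
    refine dvd_add (hag.mul_right _) ?_
    rw [← hw]
    exact gcdN_dvd_right _ _
  have hdv : ∀ d : K[X], d ∣ toP g → d ∣ toP u - 1 → d ∣ toP a := by
    intro d h1 h2
    refine dvd_gcdN h1 ?_
    rw [hw]
    rw [hmod] at h2
    exact (dvd_add_right (h1.mul_right _)).mp h2
  have hsp : split1 u g = bif decide (a.length ≤ 1) || decide (g.length ≤ a.length) then [g]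
    else [a, divN g a] := rfl
  by_cases h1 : a.length ≤ 1
  · left
    refine ⟨by rw [hsp, decide_eq_true h1]; rfl, Or.inl ?_⟩
    intro d hd hdg hdu
    apply hd
    have h2 : toP a = 1 := by
      have := hMP.len
      exact hMP.monic.natDegree_eq_zero.mp (by omega)
    have := hdv d hdg hdu
    rw [h2] at this
    exact isUnit_of_dvd_one this
  by_cases h2 : g.length ≤ a.length
  · left
    refine ⟨by rw [hsp, decide_eq_true h2, Bool.or_true]; rfl, Or.inr ?_⟩
    have h3 : toP a = toP g := by
      have e1 := hMP.len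
      have e2 := hg.mp.len
      exact (eq_of_monic_of_dvd_of_natDegree_le hMP.monic hg.mp.monic hag (by omega)).symm
    rw [← h3]
    exact hau
  right
  obtain ⟨b, hb⟩ := hag
  have ha0 : toP a ≠ 0 := hMP.monic.ne_zero
  have hdiv : toP (divN g a) = b := by
    rw [toP_divN, hb]
    exact mul_div_cancel_left₀ b ha0
  have hbm : b.Monic := by
    have := hg.mp.monic
    rw [hb] at this
    exact hMP.monic.of_mul_monic_left this
  have hlen : (divN g a).length = b.natDegree + 1 := by
    rw [← trim_divN, length_trimP, hdiv, if_neg hbm.ne_zero]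
  have hdeg : (toP g).natDegree = (toP a).natDegree + b.natDegree := by
    rw [hb, hMP.monic.natDegree_mul hbm]
  have e1 := hMP.len
  have e2 := hg.mp.len
  refine ⟨a, divN g a, ?_, ⟨hMP, by omega⟩, ⟨⟨by rw [hdiv]; exact hbm, by rw [hlen, hdiv]⟩,
    by rw [hdiv]; omega⟩, by rw [hdiv, hb], hau, hdv⟩
  rw [hsp, decide_eq_false h1, decide_eq_false h2]
  rfl

theorem split1_MN {u g : List K} (hg : BerlMN g) : ∀ x ∈ split1 u g, BerlMN x := by
  rcases split1_spec u hg with ⟨h, -⟩ | ⟨a, b, h, ha, hb, -⟩
  · rw [h]
    intro x hx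
    rw [List.mem_singleton] at hx
    rw [hx]; exact hg
  · rw [h]
    intro x hx
    simp only [List.mem_cons, List.not_mem_nil, or_false] at hx
    rcases hx with rfl | rfl
    · exact ha
    · exact hb

theorem split1_prod {u g : List K} (hg : BerlMN g) : ((split1 u g).map toP).prod = toP g := by
  rcases split1_spec u hg with ⟨h, -⟩ | ⟨a, b, h, -, -, hp, -⟩
  · rw [h]; simp
  · rw [h]; simp [hp]

/-- two irreducible factors that are together after the step -/
theorem split1_pair {u g : List K} (hg : BerlMN g) (hsq : Squarefree (toP g)) {x : List K}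
    (hx : x ∈ split1 u g) {g1 g2 : K[X]} (h1 : Irreducible g1) (h2 : Irreducible g2)
    (hd1 : g1 ∣ toP x) (hd2 : g2 ∣ toP x) :
    g1 ∣ toP g ∧ g2 ∣ toP g ∧ (g1 ∣ toP u - 1 ↔ g2 ∣ toP u - 1) := by
  rcases split1_spec u hg with ⟨h, h3⟩ | ⟨a, b, h, ha, hb, hp, hau, hdv⟩
  · rw [h, List.mem_singleton] at hx
    subst hx
    refine ⟨hd1, hd2, ?_⟩
    rcases h3 with h3 | h3
    · exact iff_of_false (h3 g1 h1.not_isUnit hd1) (h3 g2 h2.not_isUnit hd2)
    · exact iff_of_true (hd1.trans h3) (hd2.trans h3)
  · rw [h] at hx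
    simp only [List.mem_cons, List.not_mem_nil, or_false] at hx
    rcases hx with rfl | rfl
    · refine ⟨hd1.trans (hp ▸ dvd_mul_right _ _), hd2.trans (hp ▸ dvd_mul_right _ _), ?_⟩
      exact iff_of_true (hd1.trans hau) (hd2.trans hau)
    · have key : ∀ d : K[X], Irreducible d → d ∣ toP x → ¬ d ∣ toP u - 1 := by
        intro d hd hdx hdu
        have h4 : d ∣ toP g := hdx.trans (hp ▸ dvd_mul_left _ _)
        have h5 := hdv d h4 hdu
        have h6 : d * d ∣ toP g := by
          rw [hp]
          exact mul_dvd_mul h5 hdx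
        exact hd.not_isUnit (hsq d h6)
      refine ⟨hd1.trans (hp ▸ dvd_mul_left _ _), hd2.trans (hp ▸ dvd_mul_left _ _), ?_⟩
      exact iff_of_false (key g1 h1 hd1) (key g2 h2 hd2)

/-! ### Lists of factors -/

/-- a list of nonconstant monic polynomials with product `F` -/
structure BerlFL (F : K[X]) (L : List (List K)) : Prop where
  mn : ∀ g ∈ L, BerlMN g
  prod : (L.map toP).prod = F

theorem BerlFL.dvd {F : K[X]} {L : List (List K)} (h : BerlFL F L) {g : List K} (hg : g ∈ L) :
    toP g ∣ F := by
  rw [← h.prod]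
  exact List.dvd_prod (List.mem_map_of_mem hg)

theorem BerlFL.step {F : K[X]} {L : List (List K)} (h : BerlFL F L) (u : List K) :
    BerlFL F (L.flatMap (split1 u)) := by
  constructor
  · intro x hx
    rw [List.mem_flatMap] at hx
    obtain ⟨g, hg, hx⟩ := hx
    exact split1_MN (h.mn g hg) x hx
  · rw [← h.prod]
    have key : ∀ L : List (List K), (∀ g ∈ L, BerlMN g) →
        ((L.flatMap (split1 u)).map toP).prod = (L.map toP).prod := by
      intro L
      induction L with
      | nil => intro _; rfl
      | cons g L ih =>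
        intro hL
        rw [List.flatMap_cons, List.map_append, List.prod_append, List.map_cons, List.prod_cons,
          ih (fun g hg => hL g (List.mem_cons_of_mem _ hg)),
          split1_prod (hL g (List.mem_cons_self ..))]
    exact key L h.mn

theorem BerlFL.rounds {E : MEnv K} {Q : FQ} {f : List K} {B : List (List K)} {F : K[X]}
    {n : ℕ} : ∀ {tape : List K} {L : List (List K)}, BerlFL F L →
      BerlFL F (berlRounds E Q f B n tape L) := by
  induction n with
  | zero => intro tape L h; exact h
  | succ n ih => intro tape L h; exact ih (h.step _)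

theorem BerlFL.tot_le {F : K[X]} {L : List (List K)} (h : BerlFL F L) : tot L ≤ 3 * F.natDegree := by
  have key : ∀ L : List (List K), (∀ g ∈ L, BerlMN g) →
      (L.map toP).prod.Monic ∧ tot L ≤ 3 * (L.map toP).prod.natDegree := by
    intro L
    induction L with
    | nil =>
      intro _
      exact ⟨monic_one, by simp [tot]⟩
    | cons g L ih =>
      intro hL
      obtain ⟨h1, h2⟩ := ih (fun g hg => hL g (List.mem_cons_of_mem _ hg))
      have hg := hL g (List.mem_cons_self ..)
      have e1 := hg.mp.len
      have e2 := hg.pos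
      rw [List.map_cons, List.prod_cons, hg.mp.monic.natDegree_mul h1]
      refine ⟨hg.mp.monic.mul h1, ?_⟩
      simp only [tot, List.map_cons, List.sum_cons] at h2 ⊢
      omega
  rw [← h.prod]
  exact (key L h.mn).2

theorem BerlFL.len_le {F : K[X]} {L : List (List K)} (h : BerlFL F L) {g : List K} (hg : g ∈ L) :
    g.length + 1 ≤ tot L := by
  rw [tot]
  exact List.single_le_sum (by intros; omega) _ (List.mem_map_of_mem hg)

theorem BerlFL.single {f : List K} (hf : BerlMN f) : BerlFL (toP f) [f] :=
  ⟨fun g hg => by rw [List.mem_singleton] at hg; rw [hg]; exact hf, by simp⟩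

theorem sqFactor_FL (E : MEnv K) (Q : FQ) (nb : ℕ) {f : List K} (hf : BerlMN f) (tape : List K) :
    BerlFL (toP f) (sqFactor E Q nb f tape) := by
  rw [sqFactor, decide_eq_true hf.two_le, decide_eq_true (berl_last_of_mp hf.mp)]
  exact (BerlFL.single hf).rounds

theorem sqFactor_always {E : MEnv K} {Q : FQ} {nb : ℕ} {f : List K} (hf : MP f)
    (hsq : Squarefree (toP f)) (hd : 0 < (toP f).natDegree) (tape : List K) :
    (∀ g ∈ sqFactor E Q nb f tape, MP g ∧ 0 < (toP g).natDegree) ∧
    ((sqFactor E Q nb f tape).map toP).prod = toP f := by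
  have _ := hsq
  have h := sqFactor_FL E Q nb ⟨hf, hd⟩ tape
  exact ⟨fun g hg => ⟨(h.mn g hg).mp, (h.mn g hg).pos⟩, h.prod⟩

theorem tot_sqFactor (E : MEnv K) (Q : FQ) (nb : ℕ) (f tape : List K) :
    tot (sqFactor E Q nb f tape) ≤ 3 * (f.length + 1) := by
  by_cases h : 2 ≤ f.length ∧ f.getLastD 0 = 1
  · have hf : BerlMN f := BerlMN.of_mp (berl_mp_of_last h.2) h.1
    have h1 := (sqFactor_FL E Q nb hf tape).tot_le
    have h2 := hf.mp.len
    omega
  · have e : sqFactor E Q nb f tape = [f] := by
      rw [sqFactor]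
      rw [not_and_or] at h
      rcases h with h | h
      · rw [decide_eq_false h]; rfl
      · rw [decide_eq_false h, Bool.and_false]; rfl
    rw [e]
    simp only [tot, List.map_cons, List.map_nil, List.sum_cons, List.sum_nil]
    omega

end split

/-! ### The kernel -/

theorem length_berlRows (E : MEnv K) (f h : List K) (n : ℕ) (P e : List K) :
    (berlRows E f h n P e).length = n := by
  induction n generalizing P e with
  | zero => rfl
  | succ n ih => rw [berlRows, List.length_cons, ih]

theorem berl_length_mulmod (E : MEnv K) (f a b : List K) : (mulmod E f a b).length = f.length - 1 :=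
  length_fmod E f _

/-- the rows have length at most `deg f` -/
theorem rows_berlRows (E : MEnv K) (f h : List K) (n : ℕ) {P e : List K}
    (hP : P.length ≤ f.length - 1) (he : e.length + n ≤ f.length) :
    ∀ r ∈ berlRows E f h n P e, r.length ≤ f.length - 1 := by
  induction n generalizing P e with
  | zero => intro r hr; simp [berlRows] at hr
  | succ n ih =>
    intro r hr
    rw [berlRows, List.mem_cons] at hr
    rcases hr with rfl | hr
    · rw [length_subP]
      omega
    · exact ih (berl_length_mulmod E f P h).le (by rw [List.length_cons]; omega) r hr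

theorem berl_fits_mono {E : MEnv K} {n m w : ℕ} (h : Fits E m w) (hnm : n ≤ m) : Fits E n w := by
  unfold Fits at *
  refine le_trans ?_ h
  exact Nat.mul_le_mul_right _ (Nat.mul_le_mul_left _ (by omega))

theorem berl_comp_congr {f a b : K[X]} (h : f ∣ a - b) (g : K[X]) : f ∣ g.comp a - g.comp b := by
  have e : ∀ c : K[X], g.comp c = (g.map C).eval c := fun c => by
    rw [eval_map]; rfl
  rw [e, e]
  exact h.trans (sub_dvd_eval_sub a b _)

theorem berl_dvd_mod_sub {f : K[X]} (hf : f.Monic) (a : K[X]) : f ∣ a %ₘ f - a := by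
  refine ⟨-(a /ₘ f), ?_⟩
  have := modByMonic_add_div a f
  linear_combination this

/-- the combinations of the rows -/
theorem berlRows_lincomb {E : MEnv K} (hE : E.Good) {f h : List K} (hf : MP f)
    (hs : Fits E (16 * (3 * f.length)) 1) (hh : h.length ≤ f.length) {n : ℕ} {b P e : List K}
    (hb : b.length = n) (hP : P.length ≤ f.length) :
    toP f ∣ toP (lincomb b (berlRows E f h n P e)) -
      (toP P * (toP b).comp (toP h) - toP e * toP b) := by
  induction n generalizing b P e with
  | zero =>
    rw [List.length_eq_zero_iff] at hb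
    subst hb
    simp [lincomb_nil]
  | succ n ih =>
    cases b with
    | nil => simp at hb
    | cons b0 b =>
      rw [List.length_cons, Nat.add_right_cancel_iff] at hb
      have hl : (mulmod E f P h).length ≤ f.length := by
        rw [berl_length_mulmod]; omega
      have h1 := ih (b := b) (P := mulmod E f P h) (e := 0 :: e) hb hl
      have h2 : toP f ∣ toP (mulmod E f P h) - toP P * toP h := by
        rw [toP_mulmod hE hf (berl_fits_mono hs (by omega))]
        exact berl_dvd_mod_sub hf.monic _
      have h3 := dvd_add h1 (h2.mul_right ((toP b).comp (toP h)))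
      have e1 : toP (lincomb (b0 :: b) (berlRows E f h (n + 1) P e)) =
          C b0 * (toP P - toP e) + toP (lincomb b (berlRows E f h n (mulmod E f P h) (0 :: e))) := by
        rw [berlRows, lincomb_cons, toP_addP, toP_smulP, toP_subP]
      rw [e1]
      simp only [toP_cons, add_comp, C_comp, mul_comp, X_comp, C_0, zero_add] at h3 ⊢
      convert h3 using 1
      ring

theorem berl_bval_bits (n : ℕ) : bval (Nat.bits n) = n := by
  induction n using Nat.binaryRec' with
  | zero => simp [bval]
  | bit b n h ih =>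
    rw [Nat.bits_append_bit _ _ h]
    simp only [bval, List.foldr_cons] at ih ⊢
    rw [ih, Nat.bit_val]

section kernel

variable [DecidableEq K] [Fintype K]

/-- the kernel condition -/
theorem berl_kernel_iff {E : MEnv K} (hE : E.Good) {Q : FQ} {p : ℕ} (hQ : Q.Ok K p)
    {f : List K} (hf : BerlMN f) (hs : Fits E (128 * (f.length + 1)) 1) {b : List K}
    (hb : b.length = f.length - 1) :
    (∀ j < f.length - 1, vec (lincomb b (berlRows E f (frobmod E f Q [0, 1])
      (f.length - 1) [1] [1])) j = 0) ↔ toP f ∣ toP b ^ Fintype.card K - toP b := by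
  set h := frobmod E f Q [0, 1] with hh
  have hf2 := hf.two_le
  have hlen := hf.mp.len
  have hhl : h.length ≤ f.length := by rw [hh, length_frobmod]; omega
  have hhP : toP f ∣ toP h - X ^ Fintype.card K := by
    have hs' : Fits E (64 * (f.length + [(0 : K), 1].length)) 1 :=
      berl_fits_mono hs (by simp only [List.length_cons, List.length_nil]; omega)
    rw [hh, toP_frobmod hE hf.mp Q hs']
    have e : (toP [0, 1] : K[X]) ^ bval Q.1 ^ Q.2 = X ^ Fintype.card K := by
      rw [hQ.bits, berl_bval_bits, ← hQ.card]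
      simp
    rw [e]
    exact berl_dvd_mod_sub hf.mp.monic _
  have h1 := berlRows_lincomb hE hf.mp (berl_fits_mono hs (by omega)) hhl (b := b) (P := [1])
    (e := [1]) hb (by simp; omega)
  have h2 := berl_comp_congr hhP (toP b)
  have h3 : (toP b).comp (X ^ Fintype.card K) = toP b ^ Fintype.card K := by
    rw [← expand_eq_comp_X_pow, FiniteField.expand_card]
  rw [h3] at h2
  have h4 := dvd_add h1 h2
  have e1 : (toP [1] : K[X]) = 1 := by simp
  rw [e1, one_mul, one_mul] at h4
  set R := berlRows E f h (f.length - 1) [1] [1] with hR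
  have h5 : toP f ∣ toP (lincomb b R) - (toP b ^ Fintype.card K - toP b) := by
    convert h4 using 1
    ring
  have hrows : ∀ r ∈ R, r.length ≤ f.length - 1 :=
    rows_berlRows E f h _ (by simp; omega) (by simp; omega)
  have hll : (lincomb b R).length ≤ f.length - 1 := length_lincomb_le hrows
  have h6 : (toP (lincomb b R)).degree < (toP f).degree := by
    refine (degree_toP_lt _).trans_le ?_
    rw [degree_eq_natDegree hf.mp.monic.ne_zero]
    have : (lincomb b R).length ≤ (toP f).natDegree := by omega
    exact_mod_cast this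
  have h7 : (∀ j < f.length - 1, vec (lincomb b R) j = 0) ↔ toP (lincomb b R) = 0 := by
    constructor
    · intro hv
      ext j
      rw [← vec_eq_coeff, coeff_zero]
      by_cases hj : j < f.length - 1
      · exact hv j hj
      · rw [vec, List.getD_eq_default]
        omega
    · intro h0 j _
      rw [vec_eq_coeff, h0, coeff_zero]
  rw [h7]
  constructor
  · intro h0
    rw [h0, zero_sub, dvd_neg] at h5
    exact h5
  · intro h8
    have h9 : toP f ∣ toP (lincomb b R) := by
      have := dvd_add h5 h8
      rwa [sub_add_cancel] at this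
    by_contra hne
    exact not_lt_of_ge (degree_le_of_dvd h9 hne) h6

theorem berlBasis_mem {E : MEnv K} (hE : E.Good) {Q : FQ} {p : ℕ} (hQ : Q.Ok K p)
    {f : List K} (hf : BerlMN f) (hs : Fits E (128 * (f.length + 1)) 1) {b : List K}
    (hb : b ∈ berlBasis E Q f) : toP f ∣ toP b ^ Fintype.card K - toP b := by
  have h := leftKer_mem hb
  rw [length_berlRows] at h
  exact (berl_kernel_iff hE hQ hf hs h.1).mp h.2

theorem berlBasis_span {E : MEnv K} (hE : E.Good) {Q : FQ} {p : ℕ} (hQ : Q.Ok K p)
    {f : List K} (hf : BerlMN f) (hs : Fits E (128 * (f.length + 1)) 1) {v : K[X]}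
    (hv : v.degree < (toP f).degree) (hq : toP f ∣ v ^ Fintype.card K - v) :
    ∃ c : List K, c.length = (berlBasis E Q f).length ∧ toP (lincomb c (berlBasis E Q f)) = v := by
  set μ : List K := (List.range (f.length - 1)).map v.coeff with hμ
  have hμl : μ.length = f.length - 1 := by rw [hμ, List.length_map, List.length_range]
  have hlen := hf.mp.len
  have hμP : toP μ = v := by
    ext j
    rw [coeff_toP]
    by_cases hj : j < f.length - 1
    · rw [List.getD_eq_getElem _ _ (by rw [hμl]; exact hj)]
      simp [hμ]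
    · rw [List.getD_eq_default _ _ (by rw [hμl]; omega), coeff_eq_zero_of_degree_lt]
      refine hv.trans_le ?_
      rw [degree_eq_natDegree hf.mp.monic.ne_zero]
      exact_mod_cast (show (toP f).natDegree ≤ j by omega)
  have hk := (berl_kernel_iff hE hQ hf hs hμl).mpr (by rw [hμP]; exact hq)
  obtain ⟨c, hc1, hc2⟩ := leftKer_span (n := f.length - 1) (A := berlRows E f
    (frobmod E f Q [0, 1]) (f.length - 1) [1] [1]) (μ := μ) (by rw [length_berlRows, hμl]) hk
  refine ⟨c, hc1, ?_⟩
  rw [← hμP]
  ext j
  rw [← vec_eq_coeff, ← vec_eq_coeff]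
  exact (hc2 j).symm

omit [Fintype K] in
theorem length_berlBasis (E : MEnv K) (Q : FQ) (f : List K) :
    (berlBasis E Q f).length ≤ f.length - 1 := by
  refine (length_leftKer _ _).trans ?_
  rw [length_berlRows]

omit [Fintype K] in
theorem rows_berlBasis (E : MEnv K) (Q : FQ) (f : List K) :
    ∀ b ∈ berlBasis E Q f, b.length = f.length - 1 := by
  intro b hb
  have := (leftKer_mem hb).1
  rwa [length_berlRows] at this

end kernel

/-! ### Probability -/

/-- The value of `b` modulo `g`. -/
noncomputable def berlEv (g b : K[X]) : K := by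
  classical exact if h : ∃ c, g ∣ b - C c then h.choose else 0

theorem berlEv_spec {g b : K[X]} (h : ∃ c, g ∣ b - C c) : g ∣ b - C (berlEv g b) := by
  rw [berlEv, dif_pos h]
  exact h.choose_spec

/-- The combination of values. -/
def berlDot : List K → List K → K
  | c :: cs, a :: as => c * a + berlDot cs as
  | _, _ => 0

theorem berlDot_nil (a : List K) : berlDot [] a = 0 := by cases a <;> rfl

theorem berlDot_nil' (a : List K) : berlDot a [] = 0 := by cases a <;> rfl

theorem berl_dvd_lincomb_sub {g : K[X]} {B : List (List K)}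
    (hB : ∀ b ∈ B, ∃ c, g ∣ toP b - C c) (c : List K) :
    g ∣ toP (lincomb c B) - C (berlDot c (B.map (fun b => berlEv g (toP b)))) := by
  induction B generalizing c with
  | nil => simp [lincomb_nil', berlDot_nil']
  | cons b B ih =>
    cases c with
    | nil => simp [lincomb_nil, berlDot_nil]
    | cons c0 c =>
      have h1 := ih (fun b hb => hB b (List.mem_cons_of_mem _ hb)) c
      have h2 := berlEv_spec (hB b (List.mem_cons_self ..))
      have h3 := dvd_add (h2.mul_left (C c0)) h1
      rw [lincomb_cons, toP_addP, toP_smulP, List.map_cons, berlDot, C_add, C_mul]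
      convert h3 using 1
      ring

theorem berlDot_ofFn {m : ℕ} (ρ : Fin m → K) (A : List K) :
    berlDot (List.ofFn ρ) A = ∑ i, ρ i * A.getD i 0 := by
  induction m generalizing A with
  | zero => simp [berlDot_nil]
  | succ m ih =>
    rw [List.ofFn_succ, Fin.sum_univ_succ]
    cases A with
    | nil => simp [berlDot_nil']
    | cons a A =>
      rw [berlDot, ih]
      simp

theorem berlDot_eq_sum (c A : List K) {m : ℕ} (h : c.length ≤ m) :
    berlDot c A = ∑ i : Fin m, c.getD i 0 * A.getD i 0 := by
  induction c generalizing A m with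
  | nil => simp [berlDot_nil]
  | cons c0 c ih =>
    cases m with
    | zero => simp at h
    | succ m =>
      rw [Fin.sum_univ_succ]
      cases A with
      | nil => simp [berlDot_nil']
      | cons a A =>
        rw [berlDot, ih A (m := m) (by simpa using h)]
        simp

/-- the pair of values as a homomorphism -/
noncomputable def berlEvHom (m : ℕ) (A1 A2 : List K) : (Fin m → K) →+ K × K where
  toFun ρ := (berlDot (List.ofFn ρ) A1, berlDot (List.ofFn ρ) A2)
  map_zero' := by simp [berlDot_ofFn]
  map_add' ρ ρ' := by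
    simp only [berlDot_ofFn, Pi.add_apply, add_mul, Finset.sum_add_distrib, Prod.mk_add_mk]

omit [Field K] in
theorem berl_card_surj {G H : Type} [AddCommGroup G] [AddCommGroup H] [Finite G] [Finite H]
    (φ : G →+ H) (hφ : Function.Surjective φ) (P : H → Prop) :
    Nat.card {x : G // P (φ x)} * Nat.card H = Nat.card {y : H // P y} * Nat.card G := by
  classical
  have := Fintype.ofFinite G
  have := Fintype.ofFinite H
  set k := (Finset.univ.filter (fun g : G => φ g = 0)).card with hk
  have hfib : ∀ y : H, (Finset.univ.filter (fun g : G => φ g = y)).card = k := fun y =>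
    AddMonoidHom.card_fiber_eq_of_mem_range φ (hφ y) (hφ 0)
  have h1 : Nat.card {x : G // P (φ x)} = Nat.card {y : H // P y} * k := by
    rw [Nat.card_eq_fintype_card, Nat.card_eq_fintype_card, Fintype.card_subtype,
      Fintype.card_subtype]
    rw [Finset.card_eq_sum_card_fiberwise (f := φ) (t := Finset.univ.filter P)]
    · rw [Finset.sum_congr rfl (g := fun _ => k)]
      · rw [Finset.sum_const, smul_eq_mul]
      · intro y hy
        rw [← hfib y]
        congr 1
        ext g
        simp only [Finset.mem_filter, Finset.mem_univ, true_and] at hy ⊢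
        constructor
        · exact fun h => h.2
        · intro h
          exact ⟨h ▸ hy, h⟩
    · intro g hg
      simpa using hg
  have h2 : Nat.card G = Nat.card H * k := by
    rw [Nat.card_eq_fintype_card, Nat.card_eq_fintype_card, ← Finset.card_univ,
      Finset.card_eq_sum_card_fiberwise (f := φ) (t := Finset.univ) (by intro g _; simp)]
    rw [Finset.sum_congr rfl (fun y _ => hfib y), Finset.sum_const, smul_eq_mul,
      Finset.card_univ]
  rw [h1, h2]
  ring

section prob

variable [DecidableEq K] [Fintype K]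

/-- two irreducible factors stay together in one round with probability at most 5/9 -/
theorem berl_pair_pr {E : MEnv K} (hE : E.Good) {Q : FQ} {p : ℕ} (hQ : Q.Ok K p)
    {f : List K} (hf : BerlMN f) (hsq : Squarefree (toP f)) (hs : Fits E (128 * (f.length + 1)) 1)
    {g1 g2 : K[X]} (h1 : Irreducible g1) (h2 : Irreducible g2) (m1 : g1.Monic) (m2 : g2.Monic)
    (hne : g1 ≠ g2) (d1 : g1 ∣ toP f) (d2 : g2 ∣ toP f) :
    pr K f.length (fun c =>
      (g1 ∣ toP (chimod E f Q (lincomb (c.take f.length) (berlBasis E Q f))) - 1 ↔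
       g2 ∣ toP (chimod E f Q (lincomb (c.take f.length) (berlBasis E Q f))) - 1)) ≤ 5 / 9 := by
  set B := berlBasis E Q f with hB
  have hfm := hf.mp.monic
  have hval : ∀ g : K[X], Irreducible g → g ∣ toP f → ∀ b ∈ B, ∃ c, g ∣ toP b - C c := by
    intro g hg hgf b hb
    exact (berlekamp_iff hfm hsq _).mp (berlBasis_mem hE hQ hf hs hb) g hg hgf
  set A1 := B.map (fun b => berlEv g1 (toP b)) with hA1
  set A2 := B.map (fun b => berlEv g2 (toP b)) with hA2
  have hlin1 := berl_dvd_lincomb_sub (hval g1 h1 d1)
  have hlin2 := berl_dvd_lincomb_sub (hval g2 h2 d2)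
  have hBl : B.length ≤ f.length - 1 := length_berlBasis E Q f
  -- the values are constants
  have hcst : ∀ g : K[X], Irreducible g → ∀ x : K, g ∣ C x → x = 0 := by
    intro g hg x hx
    by_contra hx0
    exact hg.not_isUnit (isUnit_of_dvd_unit hx (isUnit_C.mpr (isUnit_iff_ne_zero.mpr hx0)))
  -- surjectivity
  have hsurj : Function.Surjective (berlEvHom (K := K) f.length A1 A2) := by
    classical
    rintro ⟨x, y⟩
    obtain ⟨b, hb1, hb2⟩ := exists_berlekamp hfm hsq (fun g => if g = g1 then x else y)
    have hbq : toP f ∣ b ^ Fintype.card K - b := by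
      rw [berlekamp_iff hfm hsq]
      intro g hg hgf
      have hg0 : g ≠ 0 := hg.ne_zero
      have hn : Associated (normalize g) g := normalize_associated g
      have := hb2 (normalize g) (hn.symm.irreducible hg) (monic_normalize hg0)
        (hn.dvd.trans hgf)
      exact ⟨_, hn.symm.dvd.trans this⟩
    obtain ⟨c, hc1, hc2⟩ := berlBasis_span hE hQ hf hs hb1 hbq
    refine ⟨fun i => c.getD i 0, ?_⟩
    have hc3 : c.length ≤ f.length := by
      rw [hc1]; exact hBl.trans (Nat.sub_le _ _)
    have key : ∀ A : List K, berlDot (List.ofFn (fun i : Fin f.length => c.getD i 0)) A =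
        berlDot c A := by
      intro A
      rw [berlDot_ofFn, berlDot_eq_sum c A hc3]
    show (_, _) = (x, y)
    rw [key, key]
    have e1 := hlin1 c
    have e2 := hlin2 c
    rw [hc2] at e1 e2
    have e3 := hb2 g1 h1 m1 d1
    have e4 := hb2 g2 h2 m2 d2
    simp only [if_true, if_neg hne.symm] at e3 e4
    have e5 := hcst g1 h1 (berlDot c A1 - x) (by
      rw [C_sub]
      convert dvd_sub e3 e1 using 1
      ring)
    have e6 := hcst g2 h2 (berlDot c A2 - y) (by
      rw [C_sub]
      convert dvd_sub e4 e2 using 1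
      ring)
    rw [sub_eq_zero.mp e5, sub_eq_zero.mp e6]
  -- the condition in terms of the values
  have hcond : ∀ g : K[X], Irreducible g → g ∣ toP f → ∀ c : List K, ∀ a : K,
      c.length ≤ f.length → g ∣ toP (lincomb c B) - C a →
      (g ∣ toP (chimod E f Q (lincomb c B)) - 1 ↔ chi p Q.2 a = 1) := by
    intro g hg hgf c a _ hga
    have hll : (lincomb c B).length ≤ f.length - 1 :=
      length_lincomb_le (fun b hb => (rows_berlBasis E Q f b hb).le)
    have e1 : toP f ∣ toP (chimod E f Q (lincomb c B)) - chi p Q.2 (toP (lincomb c B)) := by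
      rw [toP_chimod hE hf.mp hQ (berl_fits_mono hs (by omega))]
      exact berl_dvd_mod_sub hfm _
    have e2 := dvd_add (hgf.trans e1) (chi_dvd (p := p) (k := Q.2) hga)
    have e3 : toP (chimod E f Q (lincomb c B)) - 1 =
        (toP (chimod E f Q (lincomb c B)) - chi p Q.2 (toP (lincomb c B)) +
          (chi p Q.2 (toP (lincomb c B)) - C (chi p Q.2 a))) + C (chi p Q.2 a - 1) := by
      rw [C_sub, C_1]; ring
    rw [e3, dvd_add_right e2]
    constructor
    · intro h
      exact sub_eq_zero.mp (hcst g hg _ h)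
    · intro h
      rw [h, sub_self, C_0]
      exact dvd_zero _
  have hcard := berl_card_surj (berlEvHom (K := K) f.length A1 A2) hsurj
    (fun z => chi p Q.2 z.1 = 1 ↔ chi p Q.2 z.2 = 1)
  have hchi := card_chi_eq (K := K) hQ.prime hQ.card
  have hsame : pr K f.length (fun c =>
      (g1 ∣ toP (chimod E f Q (lincomb (c.take f.length) B)) - 1 ↔
       g2 ∣ toP (chimod E f Q (lincomb (c.take f.length) B)) - 1)) ≤
      pr K f.length (fun c => (chi p Q.2 (berlDot c A1) = 1 ↔ chi p Q.2 (berlDot c A2) = 1)) := by
    refine pr_mono ?_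
    intro c hc h
    rw [List.take_of_length_le hc.le, hcond g1 h1 d1 c _ hc.le (hlin1 c),
      hcond g2 h2 d2 c _ hc.le (hlin2 c)] at h
    exact h
  refine hsame.trans ?_
  unfold pr
  have hq0 : (0 : ℝ) < (Fintype.card K : ℝ) := pr_q_pos
  have hG : Nat.card (Fin f.length → K) = Fintype.card K ^ f.length := pr_total _
  have hH : Nat.card (K × K) = Fintype.card K ^ 2 := by
    rw [Nat.card_eq_fintype_card, Fintype.card_prod]; ring
  rw [hG, hH] at hcard
  rw [div_le_div_iff₀ (pow_pos hq0 _) (by norm_num)]
  have h9 : (Nat.card {ρ : Fin f.length → K //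
      (chi p Q.2 (berlDot (List.ofFn ρ) A1) = 1 ↔ chi p Q.2 (berlDot (List.ofFn ρ) A2) = 1)}) * 9 ≤
      5 * Fintype.card K ^ f.length := by
    have hq : 0 < Fintype.card K ^ 2 := pow_pos Fintype.card_pos 2
    refine Nat.le_of_mul_le_mul_right ?_ hq
    calc _ = 9 * (Nat.card {x : Fin f.length → K // (chi p Q.2 (berlEvHom f.length A1 A2 x).1 = 1 ↔
          chi p Q.2 (berlEvHom f.length A1 A2 x).2 = 1)} * Fintype.card K ^ 2) := by
          have : ∀ n : ℕ, n * 9 * Fintype.card K ^ 2 = 9 * (n * Fintype.card K ^ 2) := by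
            intro n; ring
          rw [this]
          rfl
      _ = 9 * Nat.card {z : K × K // chi p Q.2 z.1 = 1 ↔ chi p Q.2 z.2 = 1} *
          Fintype.card K ^ f.length := by rw [hcard]; ring
      _ ≤ 5 * Fintype.card K ^ 2 * Fintype.card K ^ f.length := Nat.mul_le_mul_right _ hchi
      _ = 5 * Fintype.card K ^ f.length * Fintype.card K ^ 2 := by ring
  exact_mod_cast h9

theorem berl_pr_exists_le {ι : Type} (s : Finset ι) (n : ℕ) (B : ι → List K → Prop) {δ : ℝ}
    (h : ∀ i ∈ s, pr K n (B i) ≤ δ) : pr K n (fun l => ∃ i ∈ s, B i l) ≤ s.card * δ := by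
  classical
  induction s using Finset.induction_on with
  | empty =>
    have h0 : pr K n (fun l => ∃ i ∈ (∅ : Finset ι), B i l) = 0 := by
      rw [pr_sum]
      simp
    rw [h0]
    simp
  | insert a s ha ih =>
    have h1 := ih (fun i hi => h i (Finset.mem_insert_of_mem hi))
    have h2 := h a (Finset.mem_insert_self a s)
    have h3 : pr K n (fun l => ∃ i ∈ insert a s, B i l) ≤
        pr K n (fun l => B a l ∨ ∃ i ∈ s, B i l) := by
      refine pr_mono ?_
      rintro l - ⟨i, hi, hB⟩
      rcases Finset.mem_insert.mp hi with rfl | hi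
      · exact Or.inl hB
      · exact Or.inr ⟨i, hi, hB⟩
    have h4 := pr_or (K := K) n (B a) (fun l => ∃ i ∈ s, B i l)
    rw [Finset.card_insert_of_notMem ha]
    push_cast
    linarith

omit [Fintype K] in
/-- two irreducible factors that are together at the end were together in all rounds -/
theorem berlRounds_pair {E : MEnv K} {Q : FQ} {f : List K} {B : List (List K)} {F : K[X]}
    (hsq : Squarefree F) {g1 g2 : K[X]} (h1 : Irreducible g1) (h2 : Irreducible g2) {n : ℕ} :
    ∀ {tape : List K} {L : List (List K)}, BerlFL F L → ∀ x ∈ berlRounds E Q f B n tape L,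
      g1 ∣ toP x → g2 ∣ toP x →
      (∃ g ∈ L, g1 ∣ toP g ∧ g2 ∣ toP g) ∧
      ∀ i < n, (g1 ∣ toP (chimod E f Q
          (lincomb ((tape.drop (i * f.length)).take f.length) B)) - 1 ↔
        g2 ∣ toP (chimod E f Q
          (lincomb ((tape.drop (i * f.length)).take f.length) B)) - 1) := by
  induction n with
  | zero =>
    intro tape L hL x hx d1 d2
    exact ⟨⟨x, hx, d1, d2⟩, fun i hi => absurd hi (Nat.not_lt_zero i)⟩
  | succ n ih =>
    intro tape L hL x hx d1 d2
    rw [berlRounds] at hx
    obtain ⟨⟨g, hg, e1, e2⟩, h3⟩ := ih (hL.step _) x hx d1 d2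
    rw [List.mem_flatMap] at hg
    obtain ⟨g', hg', hgg⟩ := hg
    have hsq' : Squarefree (toP g') := hsq.squarefree_of_dvd (hL.dvd hg')
    obtain ⟨e3, e4, e5⟩ := split1_pair (hL.mn g' hg') hsq' hgg h1 h2 e1 e2
    refine ⟨⟨g', hg', e3, e4⟩, ?_⟩
    intro i hi
    cases i with
    | zero =>
      rw [Nat.zero_mul, List.drop_zero]
      exact e5
    | succ i =>
      have := h3 i (by omega)
      rw [List.drop_drop] at this
      have e : f.length + i * f.length = (i + 1) * f.length := by ring
      rw [e] at this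
      exact this

omit [DecidableEq K] [Fintype K] in
theorem berl_exists_pair {g : K[X]} (hg : g.Monic) (hd : 0 < g.natDegree) (hsq : Squarefree g)
    (hirr : ¬ Irreducible g) : ∃ g1 g2 : K[X], Irreducible g1 ∧ Irreducible g2 ∧ g1.Monic ∧
      g2.Monic ∧ g1 ≠ g2 ∧ g1 ∣ g ∧ g2 ∣ g := by
  classical
  have hnu : ∀ a : K[X], a ≠ 0 → ¬ IsUnit a → ∃ b : K[X], Irreducible b ∧ b.Monic ∧ b ∣ a := by
    intro a ha0 ha
    obtain ⟨b, hb, hba⟩ := WfDvdMonoid.exists_irreducible_factor ha ha0
    have hn : Associated (normalize b) b := normalize_associated b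
    exact ⟨normalize b, hn.symm.irreducible hb, monic_normalize hb.ne_zero, hn.dvd.trans hba⟩
  have hgu : ¬ IsUnit g := by
    intro h
    have := hg.isUnit_iff.mp h
    rw [this, natDegree_one] at hd
    exact lt_irrefl _ hd
  obtain ⟨g1, hg1, m1, r, hr⟩ := hnu g hg.ne_zero hgu
  have hr0 : r ≠ 0 := by
    rintro rfl
    rw [mul_zero] at hr
    exact hg.ne_zero hr
  have hru : ¬ IsUnit r := by
    intro h
    apply hirr
    rw [hr]
    exact (associated_mul_unit_right g1 r h).irreducible hg1
  obtain ⟨g2, hg2, m2, hd2⟩ := hnu r hr0 hru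
  refine ⟨g1, g2, hg1, hg2, m1, m2, ?_, ⟨r, hr⟩, hd2.trans ⟨g1, by rw [hr, mul_comm]⟩⟩
  rintro rfl
  have : g1 * g1 ∣ g := by
    rw [hr]
    exact mul_dvd_mul dvd_rfl hd2
  exact hg1.not_isUnit (hsq g1 this)

omit [DecidableEq K] [Fintype K] in
open UniqueFactorizationMonoid in
theorem berl_card_factors_le {F : K[X]} (hF : F.Monic) :
    ∃ S : Finset K[X], S.card ≤ F.natDegree ∧ ∀ g : K[X], Irreducible g → g.Monic → g ∣ F →
      g ∈ S := by
  classical
  refine ⟨(normalizedFactors F).toFinset, ?_, ?_⟩
  · refine (Multiset.toFinset_card_le _).trans ?_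
    have h1 : (normalizedFactors F).prod = F := by
      rw [prod_normalizedFactors_eq hF.ne_zero, hF.normalize_eq_self]
    have hm : ∀ g ∈ normalizedFactors F, g.Monic ∧ 1 ≤ g.natDegree := by
      intro g hg
      have hirr := irreducible_of_normalized_factor g hg
      have hn := normalize_normalized_factor g hg
      refine ⟨by rw [← hn]; exact monic_normalize hirr.ne_zero, hirr.natDegree_pos⟩
    have h2 : F.natDegree = ((normalizedFactors F).map natDegree).sum := by
      conv_lhs => rw [← h1]
      exact natDegree_multiset_prod_of_monic _ (fun g hg => (hm g hg).1)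
    rw [h2]
    have h3 := Multiset.card_nsmul_le_sum (s := (normalizedFactors F).map natDegree) (a := 1)
      (by
        intro x hx
        rw [Multiset.mem_map] at hx
        obtain ⟨g, hg, rfl⟩ := hx
        exact (hm g hg).2)
    simpa using h3
  · intro g hg hm hd
    rw [Multiset.mem_toFinset, mem_normalizedFactors_iff' hF.ne_zero]
    exact ⟨hg, hm.normalize_eq_self, hd⟩

theorem sqFactor_pr {E : MEnv K} (hE : E.Good) {Q : FQ} {p : ℕ}
    (hQ : Q.Ok K p) {nb : ℕ} {f : List K} (hf : MP f) (hsq : Squarefree (toP f))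
    (hd : 0 < (toP f).natDegree) (hs : Fits E (128 * (f.length + 1)) 1) :
    pr K (nb * f.length) (fun tape => ¬ ∀ g ∈ sqFactor E Q nb f tape, Irreducible (toP g)) ≤
      (f.length : ℝ) ^ 2 * (5 / 9) ^ nb := by
  classical
  have hfn : BerlMN f := ⟨hf, hd⟩
  obtain ⟨S, hS1, hS2⟩ := berl_card_factors_le hf.monic
  set bev2 : K[X] × K[X] → List K → Prop := fun z c =>
    (z.1 ∣ toP (chimod E f Q (lincomb (c.take f.length) (berlBasis E Q f))) - 1 ↔
      z.2 ∣ toP (chimod E f Q (lincomb (c.take f.length) (berlBasis E Q f))) - 1) with hev2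
  set T := (S ×ˢ S).filter (fun z => Irreducible z.1 ∧ Irreducible z.2 ∧ z.1.Monic ∧ z.2.Monic ∧
    z.1 ≠ z.2 ∧ z.1 ∣ toP f ∧ z.2 ∣ toP f) with hT
  have h1 : pr K (nb * f.length)
      (fun tape => ¬ ∀ g ∈ sqFactor E Q nb f tape, Irreducible (toP g)) ≤
      pr K (nb * f.length) (fun tape => ∃ z ∈ T,
        ∀ i < nb, bev2 z ((tape.drop (i * f.length)).take f.length)) := by
    refine pr_mono ?_
    intro tape _ h
    push Not at h
    obtain ⟨g, hg, hirr⟩ := h
    have hFL := sqFactor_FL E Q nb hfn tape
    obtain ⟨g1, g2, i1, i2, m1, m2, hne, d1, d2⟩ := berl_exists_pair (hFL.mn g hg).mp.monic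
      (hFL.mn g hg).pos (hsq.squarefree_of_dvd (hFL.dvd hg)) hirr
    have hd1 := d1.trans (hFL.dvd hg)
    have hd2 := d2.trans (hFL.dvd hg)
    refine ⟨(g1, g2), ?_, ?_⟩
    · rw [hT, Finset.mem_filter, Finset.mem_product]
      exact ⟨⟨hS2 g1 i1 m1 hd1, hS2 g2 i2 m2 hd2⟩, i1, i2, m1, m2, hne, hd1, hd2⟩
    · rw [sqFactor, decide_eq_true hfn.two_le, decide_eq_true (berl_last_of_mp hf)] at hg
      have := (berlRounds_pair hsq i1 i2 (BerlFL.single hfn) g hg d1 d2).2
      intro i hi
      rw [hev2]
      simp only [List.take_take, min_self]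
      exact this i hi
  refine h1.trans ?_
  have h2 := berl_pr_exists_le (K := K) T (nb * f.length)
    (fun z tape => ∀ i < nb, bev2 z ((tape.drop (i * f.length)).take f.length))
    (δ := (5 / 9) ^ nb) (by
      intro z hz
      rw [hT, Finset.mem_filter] at hz
      obtain ⟨-, i1, i2, m1, m2, hne, d1, d2⟩ := hz
      exact pr_chunks (berl_pair_pr hE hQ hfn hsq hs i1 i2 m1 m2 hne d1 d2))
  refine h2.trans ?_
  have h3 : T.card ≤ f.length ^ 2 := by
    calc T.card ≤ (S ×ˢ S).card := Finset.card_filter_le _ _
      _ = S.card ^ 2 := by rw [Finset.card_product, sq]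
      _ ≤ f.length ^ 2 := Nat.pow_le_pow_left (by have := hf.len; omega) 2
  have h4 : (T.card : ℝ) ≤ (f.length : ℝ) ^ 2 := by exact_mod_cast h3
  exact mul_le_mul_of_nonneg_right h4 (by positivity)

end prob

/-! ### Costs -/

theorem berl_kerT_mono {a b : ℕ} (h : a ≤ b) : kerT a ≤ kerT b := by
  unfold kerT
  have h1 : nroot 20 (a + 1) ≤ nroot 20 (b + 1) := by
    rw [nroot_le_iff (by norm_num)]
    exact (Nat.add_le_add_right h 1).trans (nroot_spec (by norm_num) _)
  exact Nat.mul_le_mul (Nat.pow_le_pow_left (by omega) 2) (Nat.pow_le_pow_left h1 19)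

theorem berl_length_gcdN_le [DecidableEq K] (a b : List K) :
    (gcdN a b).length ≤ max a.length b.length := by
  have h1 := length_trimP_le (monicR (bezR (trimR a.reverse) (trimR b.reverse)).1).reverse
  have h2 := length_bezR_g (trimR a.reverse) (trimR b.reverse)
  have h3 := length_trimR_le a.reverse
  have h4 := length_trimR_le b.reverse
  rw [List.length_reverse, monicR, length_smulP] at h1
  rw [List.length_reverse] at h3 h4
  exact h1.trans (h2.trans (max_le_max h3 h4))

/-- the cost of a splitting step -/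
def berlSplitT [DecidableEq K] (u g : List K) : ℕ :=
  (u.length + 1) * (g.length + 1) + (g.length + (modN u g).length + 1) ^ 2

theorem berl_bif_le (c : Bool) (x y : ℕ) : (bif c then x else y) ≤ x + y := by
  cases c
  · show y ≤ x + y
    omega
  · show x ≤ x + y
    omega

theorem split1_ex : ∃ c, ∀ (K : Type) [Field K] [DecidableEq K],
    Comp K (fun z : List K × List K => split1 z.1 z.2) c (fun z => berlSplitT z.1 z.2) :=
  ⟨_, fun K _ _ => (Comp.cond (K := K)
    (b := fun z : List K × List K => decide ((gcdN z.2 (subP (modN z.1 z.2) [1])).length ≤ 1) ||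
      decide (z.2.length ≤ (gcdN z.2 (subP (modN z.1 z.2) [1])).length))
    (f := fun z => [z.2])
    (g := fun z => [gcdN z.2 (subP (modN z.1 z.2) [1]),
      divN z.2 (gcdN z.2 (subP (modN z.1 z.2) [1]))])).bigO 100 (fun z => by
      obtain ⟨u, g⟩ := z
      simp only [berlSplitT, length_subP, List.length_cons, List.length_nil]
      have h1 := berl_length_gcdN_le g (subP (modN u g) [1])
      rw [length_subP] at h1
      simp only [List.length_cons, List.length_nil] at h1
      refine (Nat.add_le_add_right (Nat.add_le_add_left (berl_bif_le _ _ _) _) _).trans ?_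
      generalize (gcdN g (subP (modN u g) [1])).length = a at *
      generalize (modN u g).length = M at *
      generalize g.length = G at *
      have h2 : a ≤ G + M + 1 := by omega
      have h3 : (G + max M (0 + 1) + 1) ^ 2 ≤ (2 * (G + M + 1)) ^ 2 :=
        Nat.pow_le_pow_left (by omega) 2
      have h4 : (G + 1) * (a + 1) ≤ (G + M + 1) * (2 * (G + M + 1)) :=
        Nat.mul_le_mul (by omega) (by omega)
      have h5 : (2 * (G + M + 1)) ^ 2 = 4 * (G + M + 1) ^ 2 := by ring
      have h6 : (G + M + 1) * (2 * (G + M + 1)) = 2 * (G + M + 1) ^ 2 := by ring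
      have h7 : G + M + 1 ≤ (G + M + 1) ^ 2 := Nat.le_self_pow (by norm_num) _
      generalize (u.length + 1) * (G + 1) = U at *
      omega)⟩

noncomputable def split1Cd : Cd := split1_ex.choose

instance compSplit1 [DecidableEq K] {α : Type} [Enc K α] {f g : α → List K} {c d : Cd}
    {T T' : α → ℕ} [h : Comp K f c T] [h' : Comp K g d T'] :
    Comp K (fun x => split1 (f x) (g x)) (split1Cd.comp (c.pair d))
      (fun x => T x + T' x + berlSplitT (f x) (g x)) :=
  (split1_ex.choose_spec K).app2 h h'

/-- Split all. -/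
def berlSplitAll [DecidableEq K] (u : List K) (L : List (List K)) : List (List K) :=
  L.flatMap (split1 u)

/-- the cost of splitting all -/
def berlSplitAllT [DecidableEq K] (u : List K) (L : List (List K)) : ℕ :=
  (L.map (fun g => berlSplitT u g + 3)).sum

theorem length_split1_le [DecidableEq K] (u g : List K) : (split1 u g).length ≤ 2 := by
  rw [split1]
  cases (decide ((gcdN g (subP (modN u g) [1])).length ≤ 1) ||
      decide (g.length ≤ (gcdN g (subP (modN u g) [1])).length)) <;> simp

theorem berlSplitAll_ex : ∃ c, ∀ (K : Type) [Field K] [DecidableEq K],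
    Comp K (fun z : List K × List (List K) => berlSplitAll z.1 z.2) c
      (fun z => berlSplitAllT z.1 z.2) :=
  ⟨_, fun K _ _ => (Comp.flatMap (K := K) (l := fun z : List K × List (List K) => z.2)
    (g := fun z g => split1 z.1 g)).mono (fun z => by
      obtain ⟨u, L⟩ := z
      simp only [berlSplitAllT, zero_add]
      refine List.sum_le_sum (fun g _ => ?_)
      have := length_split1_le u g
      omega)⟩

noncomputable def berlSplitAllCd : Cd := berlSplitAll_ex.choose

instance compBerlSplitAll [DecidableEq K] {α : Type} [Enc K α] {f : α → List K}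
    {g : α → List (List K)} {c d : Cd} {T T' : α → ℕ} [h : Comp K f c T] [h' : Comp K g d T'] :
    Comp K (fun x => berlSplitAll (f x) (g x)) (berlSplitAllCd.comp (c.pair d))
      (fun x => T x + T' x + berlSplitAllT (f x) (g x)) :=
  (berlSplitAll_ex.choose_spec K).app2 h h'

/-- the cost of a round -/
def berlStepT [DecidableEq K] (E : MEnv K) (Q : FQ) (f : List K) (B : List (List K))
    (tape : List K) (L : List (List K)) : ℕ :=
  f.length + (((tape.take f.length).zip B).map (fun p => p.2.length + 1)).sum +
  (f.length + (lincomb (tape.take f.length) B).length + 1) * (E.1 + 1) * Q.lg +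
  berlSplitAllT (chimod E f Q (lincomb (tape.take f.length) B)) L

theorem berlStep_ex : ∃ c, ∀ (K : Type) [Field K] [DecidableEq K],
    Comp K (fun z : ((MEnv K × FQ) × List K × List (List K)) × List K × List (List K) =>
      berlStep z.1.1.1 z.1.1.2 z.1.2.1 z.1.2.2 z.2.1 z.2.2) c
      (fun z => berlStepT z.1.1.1 z.1.1.2 z.1.2.1 z.1.2.2 z.2.1 z.2.2) :=
  ⟨_, fun K _ _ => ((compBerlSplitAll (K := K)
    (f := fun z : ((MEnv K × FQ) × List K × List (List K)) × List K × List (List K) =>
      chimod z.1.1.1 z.1.2.1 z.1.1.2 (lincomb (z.2.1.take z.1.2.1.length) z.1.2.2))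
    (g := fun z => z.2.2)).congr (fun _ => rfl)).bigO 5 (fun z => by
      obtain ⟨⟨⟨E, Q⟩, f, B⟩, tape, L⟩ := z
      simp only [berlStepT]
      omega)⟩

noncomputable def berlStepCd : Cd := berlStep_ex.choose

/-- the cost of the rounds -/
def berlRoundsT [DecidableEq K] (E : MEnv K) (Q : FQ) (f : List K) (B : List (List K)) :
    ℕ → List K → List (List K) → ℕ
  | 0, _, _ => 0
  | n + 1, tape, L => 5 * (berlStepT E Q f B tape L + f.length + 1) +
      berlRoundsT E Q f B n (tape.drop f.length) (berlStep E Q f B tape L)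

theorem berlRounds_ex : ∃ c, ∀ (K : Type) [Field K] [DecidableEq K],
    Comp K (fun z : ((MEnv K × FQ) × List K × List (List K)) × ℕ × List K × List (List K) =>
      berlRounds z.1.1.1 z.1.1.2 z.1.2.1 z.1.2.2 z.2.1 z.2.2.1 z.2.2.2) c
      (fun z => berlRoundsT z.1.1.1 z.1.1.2 z.1.2.1 z.1.2.2 z.2.1 z.2.2.1 z.2.2.2) :=
  ⟨_, fun K _ _ => by
    have hs : Comp K (fun z : ((MEnv K × FQ) × List K × List (List K)) ×
        ℕ × List K × List (List K) =>
        berlStep z.1.1.1 z.1.1.2 z.1.2.1 z.1.2.2 z.2.2.1 z.2.2.2) _ _ :=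
      (berlStep_ex.choose_spec K).comp (f := fun z : ((MEnv K × FQ) × List K × List (List K)) ×
        ℕ × List K × List (List K) => (z.1, (z.2.2.1, z.2.2.2))) Comp.pair
    have hn : Comp K (fun z : ((MEnv K × FQ) × List K × List (List K)) ×
        ℕ × List K × List (List K) => (z.1, (z.2.1 - 1, (z.2.2.1.drop z.1.2.1.length,
          berlStep z.1.1.1 z.1.1.2 z.1.2.1 z.1.2.2 z.2.2.1 z.2.2.2)))) _ _ :=
      Comp.pair (h' := Comp.pair (h' := Comp.pair (h' := hs)))
    exact (Comp.rec1 (K := K)
      (isLeaf := fun z : ((MEnv K × FQ) × List K × List (List K)) ×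
        ℕ × List K × List (List K) => decide (z.2.1 = 0))
      (leaf := fun z => z.2.2.2)
      (next := fun z => (z.1, (z.2.1 - 1, (z.2.2.1.drop z.1.2.1.length,
          berlStep z.1.1.1 z.1.1.2 z.1.2.1 z.1.2.2 z.2.2.1 z.2.2.2))))
      (join := fun _ r => r)
      (T := fun z => berlRoundsT z.1.1.1 z.1.1.2 z.1.2.1 z.1.2.2 z.2.1 z.2.2.1 z.2.2.2)
      (h2 := hn)
      (fun z => z.2.1)
      (by rintro ⟨⟨⟨E, Q⟩, f, B⟩, n, tape, L⟩ h; cases n <;> simp_all [berlRounds])
      (by
        rintro ⟨⟨⟨E, Q⟩, f, B⟩, n, tape, L⟩ h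
        cases n with
        | zero => simp at h
        | succ n => rfl)
      (by rintro ⟨⟨⟨E, Q⟩, f, B⟩, n, tape, L⟩ h; cases n <;> simp_all)
      (by rintro ⟨⟨⟨E, Q⟩, f, B⟩, n, tape, L⟩ h; cases n <;> simp_all)
      (by
        rintro ⟨⟨⟨E, Q⟩, f, B⟩, n, tape, L⟩ h
        cases n with
        | zero => simp at h
        | succ n =>
          simp only [berlRoundsT, Nat.add_sub_cancel]
          omega)).bigO 2 (fun z => by omega)⟩

/-! ### The cost of the rows -/

/-- the cost of the rows -/
def berlRowsT (S f h n P e : ℕ) : ℕ := n * ((20 * f + 10 * h + 10 + e + n) * (S + 1)) +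
  10 * P * (S + 1)

theorem berlRows_ex : ∃ c, ∀ (K : Type) [Field K],
    Comp K (fun z : (MEnv K × List K × List K) × ℕ × List K × List K =>
      berlRows z.1.1 z.1.2.1 z.1.2.2 z.2.1 z.2.2.1 z.2.2.2) c
      (fun z => berlRowsT z.1.1.1 z.1.2.1.length z.1.2.2.length z.2.1 z.2.2.1.length
        z.2.2.2.length) :=
  ⟨_, fun K _ => (Comp.rec1 (K := K)
    (isLeaf := fun z : (MEnv K × List K × List K) × ℕ × List K × List K => decide (z.2.1 = 0))
    (leaf := fun _ => [])
    (next := fun z => (z.1, (z.2.1 - 1, (mulmod z.1.1 z.1.2.1 z.2.2.1 z.1.2.2,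
      (0 : K) :: z.2.2.2))))
    (join := fun z r => subP z.2.2.1 z.2.2.2 :: r)
    (T := fun z => berlRowsT z.1.1.1 z.1.2.1.length z.1.2.2.length z.2.1 z.2.2.1.length
        z.2.2.2.length)
    (fun z => z.2.1)
    (by rintro ⟨⟨E, f, h⟩, n, P, e⟩ hh; cases n <;> simp_all [berlRows])
    (by
      rintro ⟨⟨E, f, h⟩, n, P, e⟩ hh
      cases n with
      | zero => simp at hh
      | succ n => rfl)
    (by rintro ⟨⟨E, f, h⟩, n, P, e⟩ hh; cases n <;> simp_all)
    (by rintro ⟨⟨E, f, h⟩, n, P, e⟩ hh; cases n <;> simp_all)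
    (by
      rintro ⟨⟨E, f, h⟩, n, P, e⟩ hh
      cases n with
      | zero => simp at hh
      | succ n =>
        have h2 := berl_length_mulmod E f P h
        simp only [berlRowsT, Nat.add_sub_cancel, h2, List.length_cons]
        generalize f.length = F at *
        generalize P.length = P at *
        generalize e.length = e at *
        generalize h.length = H at *
        generalize E.1 = S at *
        have e1 : (n + 1) * ((20 * F + 10 * H + 10 + e + (n + 1)) * (S + 1)) =
            n * ((20 * F + 10 * H + 10 + (e + 1) + n) * (S + 1)) +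
              (20 * F + 10 * H + 10 + e + (n + 1)) * (S + 1) := by ring
        have e2 : ((F + P + H + 1) + (P + e + 2) + 10 * (F - 1)) * (S + 1) ≤
            ((20 * F + 10 * H + 10 + e + (n + 1)) + 10 * P) * (S + 1) :=
          Nat.mul_le_mul_right _ (by omega)
        have e3 : P + e + 2 ≤ (P + e + 2) * (S + 1) := Nat.le_mul_of_pos_right _ (by omega)
        simp only [add_mul] at e1 e2 e3 ⊢
        omega)).bigO 2 (fun z => by omega)⟩

noncomputable def berlRowsCd : Cd := berlRows_ex.choose

instance compBerlRows {α : Type} [Enc K α] {e : α → MEnv K} {f g : α → List K} {n : α → ℕ}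
    {P Q : α → List K} {c0 c1 c2 c3 c4 c5 : Cd} {T0 T1 T2 T3 T4 T5 : α → ℕ}
    [h0 : Comp K e c0 T0] [h1 : Comp K f c1 T1] [h2 : Comp K g c2 T2] [h3 : Comp K n c3 T3]
    [h4 : Comp K P c4 T4] [h5 : Comp K Q c5 T5] :
    Comp K (fun x => berlRows (e x) (f x) (g x) (n x) (P x) (Q x))
      (berlRowsCd.comp ((c0.pair (c1.pair c2)).pair (c3.pair (c4.pair c5))))
      (fun x => (T0 x + (T1 x + T2 x)) + (T3 x + (T4 x + T5 x)) +
        berlRowsT (e x).1 (f x).length (g x).length (n x) (P x).length (Q x).length) :=
  (berlRows_ex.choose_spec K).app2 (f := fun x => (e x, (f x, g x)))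
    (f' := fun x => (n x, (P x, Q x)))
    (Comp.pair (h := h0) (h' := Comp.pair (h := h1) (h' := h2)))
    (Comp.pair (h := h3) (h' := Comp.pair (h := h4) (h' := h5)))

theorem berl_lg_pos (Q : FQ) : 1 ≤ Q.lg := Nat.mul_pos (Nat.succ_pos _) (Nat.succ_pos _)

theorem berlBasis_ex : ∃ c, ∀ (K : Type) [Field K] [DecidableEq K],
    Comp K (fun z : MEnv K × FQ × List K => berlBasis z.1 z.2.1 z.2.2) c
      (fun z => kerT (2 * z.2.2.length) +
        (z.2.2.length + 1) ^ 2 * ((z.1.1 + 1) * z.2.1.lg)) :=
  ⟨_, fun K _ _ => ((compLeftKer (K := K)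
    (f := fun z : MEnv K × FQ × List K => z.2.2.length - 1)
    (g := fun z => berlRows z.1 z.2.2 (frobmod z.1 z.2.2 z.2.1 [0, 1]) (z.2.2.length - 1)
      [1] [1])).congr (fun _ => rfl)).bigO 100 (fun z => by
      obtain ⟨E, Q, f⟩ := z
      simp only [length_berlRows, length_frobmod, berlRowsT, List.length_cons, List.length_nil]
      have hk : kerT (f.length - 1 + (f.length - 1)) ≤ kerT (2 * f.length) :=
        berl_kerT_mono (by omega)
      have hq := berl_lg_pos Q
      generalize Q.lg = q at *
      generalize f.length = F at *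
      generalize E.1 = S at *
      generalize kerT (2 * F) = k at *
      generalize kerT (F - 1 + (F - 1)) = k' at *
      have hA : 1 ≤ (S + 1) * q := Nat.mul_pos (Nat.succ_pos _) hq
      have e0 : F + 1 ≤ (F + 1) ^ 2 := Nat.le_self_pow (by norm_num) _
      have e1 : (F + 1) ^ 2 ≤ (F + 1) ^ 2 * ((S + 1) * q) := Nat.le_mul_of_pos_right _ hA
      have e2 : (F + (0 + 1 + 1) + 1) * (S + 1) * q ≤ 3 * ((F + 1) ^ 2 * ((S + 1) * q)) := by
        rw [mul_assoc, ← mul_assoc 3]
        exact Nat.mul_le_mul_right _ (by omega)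
      have e3 : (S + 1) ≤ (S + 1) * q := Nat.le_mul_of_pos_right _ hq
      have e4 : (F + 1) ^ 2 * (S + 1) ≤ (F + 1) ^ 2 * ((S + 1) * q) := Nat.mul_le_mul_left _ e3
      have e5 : (F - 1) * ((20 * F + 10 * (F - 1) + 10 + (0 + 1) + (F - 1)) * (S + 1)) ≤
          (F + 1) * (31 * (F + 1) * (S + 1)) :=
        Nat.mul_le_mul (by omega) (Nat.mul_le_mul_right _ (by omega))
      have e6 : (F + 1) * (31 * (F + 1) * (S + 1)) = 31 * ((F + 1) ^ 2 * (S + 1)) := by ring
      have e7 : 1 * (S + 1) ≤ (F + 1) ^ 2 * (S + 1) := Nat.mul_le_mul_right _ (by omega)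
      omega)⟩

noncomputable def berlBasisCd : Cd := berlBasis_ex.choose

/-! ### The cost of the rounds, with the invariant -/

theorem berl_length_modN_le [DecidableEq K] (u : List K) {g : List K} (hg : BerlMN g) :
    (modN u g).length ≤ g.length := by
  rw [← trim_modN, length_trimP, toP_modN]
  split_ifs with h
  · exact Nat.zero_le _
  · have h1 : (toP u % toP g).degree < (toP g).degree :=
      EuclideanDomain.mod_lt _ hg.mp.monic.ne_zero
    have h2 := natDegree_lt_natDegree h h1
    have := hg.mp.len
    omega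

theorem berlSplitT_le [DecidableEq K] (u : List K) {g : List K} (hg : BerlMN g) {F : ℕ}
    (hu : u.length ≤ F) (hF : g.length ≤ F) : berlSplitT u g ≤ 5 * (F + 1) * (g.length + 1) := by
  have h1 := berl_length_modN_le u hg
  have h2 : (u.length + 1) * (g.length + 1) ≤ (F + 1) * (g.length + 1) :=
    Nat.mul_le_mul_right _ (by omega)
  have h3 : (g.length + (modN u g).length + 1) ^ 2 ≤ 4 * ((F + 1) * (g.length + 1)) := by
    calc _ ≤ (2 * (g.length + 1)) ^ 2 := Nat.pow_le_pow_left (by omega) 2
      _ = 4 * ((g.length + 1) * (g.length + 1)) := by ring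
      _ ≤ 4 * ((F + 1) * (g.length + 1)) :=
        Nat.mul_le_mul_left _ (Nat.mul_le_mul_right _ (by omega))
  have h4 : 5 * (F + 1) * (g.length + 1) = 5 * ((F + 1) * (g.length + 1)) := by ring
  rw [berlSplitT, h4]
  omega

theorem berlSplitAllT_le [DecidableEq K] (u : List K) {F : ℕ} (hu : u.length ≤ F)
    {L : List (List K)} (hL : ∀ g ∈ L, BerlMN g) (hF : ∀ g ∈ L, g.length ≤ F) :
    berlSplitAllT u L ≤ 8 * (F + 1) * tot L := by
  induction L with
  | nil => simp [berlSplitAllT]
  | cons g L ih =>
    have h1 := ih (fun g hg => hL g (List.mem_cons_of_mem _ hg))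
      (fun g hg => hF g (List.mem_cons_of_mem _ hg))
    have h2 := berlSplitT_le u (hL g (List.mem_cons_self ..)) hu (hF g (List.mem_cons_self ..))
    simp only [berlSplitAllT, tot, List.map_cons, List.sum_cons] at h1 ⊢
    have h3 : 1 * 1 ≤ (F + 1) * (g.length + 1) := Nat.mul_le_mul (by omega) (by omega)
    have h4 : 5 * (F + 1) * (g.length + 1) = 5 * ((F + 1) * (g.length + 1)) := by ring
    have h5 : 8 * (F + 1) * (g.length + 1 + (L.map (fun F => F.length + 1)).sum) =
      8 * ((F + 1) * (g.length + 1)) + 8 * (F + 1) * (L.map (fun F => F.length + 1)).sum := by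
      ring
    rw [h5]
    omega

theorem berl_lincombT_le {F : ℕ} (c : List K) (B : List (List K)) (hc : c.length ≤ F)
    (hB : ∀ b ∈ B, b.length ≤ F) :
    ((c.zip B).map (fun p => p.2.length + 1)).sum ≤ F * (F + 1) := by
  have h1 : ∀ x ∈ (c.zip B).map (fun p => p.2.length + 1), x ≤ F + 1 := by
    intro x hx
    rw [List.mem_map] at hx
    obtain ⟨⟨a, b⟩, hp, rfl⟩ := hx
    have := hB b (List.of_mem_zip hp).2
    simp only
    omega
  have h2 := List.sum_le_card_nsmul _ _ h1
  rw [List.length_map, List.length_zip, smul_eq_mul] at h2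
  exact h2.trans (Nat.mul_le_mul_right _ ((min_le_left _ _).trans hc))

theorem berlStepT_le [DecidableEq K] (E : MEnv K) (Q : FQ) {f : List K} (hf : BerlMN f)
    {B : List (List K)} (hB : ∀ b ∈ B, b.length ≤ f.length) (tape : List K)
    {L : List (List K)} (hL : BerlFL (toP f) L) :
    berlStepT E Q f B tape L ≤ 40 * ((f.length + 1) ^ 2 * ((E.1 + 1) * Q.lg)) := by
  have h1 := berl_lincombT_le (tape.take f.length) B (F := f.length)
    (by rw [List.length_take]; exact min_le_left _ _) hB
  have h2 : (lincomb (tape.take f.length) B).length ≤ f.length := length_lincomb_le hB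
  have h3 : ∀ g ∈ L, g.length ≤ f.length := by
    intro g hg
    have a1 := natDegree_le_of_dvd (hL.dvd hg) hf.mp.monic.ne_zero
    have a2 := hf.mp.len
    have a3 := (hL.mn g hg).mp.len
    omega
  have h4 := berlSplitAllT_le (chimod E f Q (lincomb (tape.take f.length) B)) (F := f.length)
    (by rw [length_chimod]; omega) hL.mn h3
  have h5 := hL.tot_le
  have h6 := hf.mp.len
  rw [berlStepT]
  have hA : 1 ≤ (E.1 + 1) * Q.lg := Nat.mul_pos (Nat.succ_pos _) (berl_lg_pos Q)
  have e0 : f.length + 1 ≤ (f.length + 1) ^ 2 := Nat.le_self_pow (by norm_num) _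
  have e1 : (f.length + 1) ^ 2 ≤ (f.length + 1) ^ 2 * ((E.1 + 1) * Q.lg) :=
    Nat.le_mul_of_pos_right _ hA
  have e2 : (f.length + (lincomb (tape.take f.length) B).length + 1) * (E.1 + 1) * Q.lg ≤
      2 * ((f.length + 1) ^ 2 * ((E.1 + 1) * Q.lg)) := by
    rw [mul_assoc, ← mul_assoc 2]
    exact Nat.mul_le_mul_right _ (by omega)
  have e3 : f.length * (f.length + 1) ≤ (f.length + 1) ^ 2 := by
    rw [sq]
    exact Nat.mul_le_mul_right _ (by omega)
  have e4 : 8 * (f.length + 1) * tot L ≤ 8 * (f.length + 1) * (3 * (f.length + 1)) :=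
    Nat.mul_le_mul_left _ (by omega)
  have e5 : 8 * (f.length + 1) * (3 * (f.length + 1)) = 24 * (f.length + 1) ^ 2 := by ring
  omega

theorem berlRoundsT_le [DecidableEq K] (E : MEnv K) (Q : FQ) {f : List K} (hf : BerlMN f)
    {B : List (List K)} (hB : ∀ b ∈ B, b.length ≤ f.length) (n : ℕ) (tape : List K)
    {L : List (List K)} (hL : BerlFL (toP f) L) :
    berlRoundsT E Q f B n tape L ≤ n * (300 * ((f.length + 1) ^ 2 * ((E.1 + 1) * Q.lg))) := by
  induction n generalizing tape L with
  | zero => simp [berlRoundsT]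
  | succ n ih =>
    have h1 := berlStepT_le E Q hf hB tape hL
    have h2 := ih (tape.drop f.length) (L := berlStep E Q f B tape L) (hL.step _)
    have hA : 1 ≤ (E.1 + 1) * Q.lg := Nat.mul_pos (Nat.succ_pos _) (berl_lg_pos Q)
    have e0 : f.length + 1 ≤ (f.length + 1) ^ 2 := Nat.le_self_pow (by norm_num) _
    have e1 : (f.length + 1) ^ 2 ≤ (f.length + 1) ^ 2 * ((E.1 + 1) * Q.lg) :=
      Nat.le_mul_of_pos_right _ hA
    rw [berlRoundsT, add_mul, one_mul]
    omega

/-- the cost of `sqFactor` -/
theorem sqFactor_ex : ∃ c, ∀ (K : Type) [Field K] [DecidableEq K],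
    Comp K (fun z : MEnv K × FQ × ℕ × List K × List K =>
      sqFactor z.1 z.2.1 z.2.2.1 z.2.2.2.1 z.2.2.2.2) c
      (fun z => kerT (2 * z.2.2.2.1.length) + (z.2.2.1 + 1) * (z.2.2.2.1.length + 1) ^ 2 *
        (z.1.1 + 1) * z.2.1.lg) :=
  ⟨_, fun K _ _ => by
    have hb : Comp K (fun z : MEnv K × FQ × ℕ × List K × List K =>
        berlBasis z.1 z.2.1 z.2.2.2.1) _ _ :=
      (berlBasis_ex.choose_spec K).comp (f := fun z : MEnv K × FQ × ℕ × List K × List K =>
        (z.1, (z.2.1, z.2.2.2.1))) Comp.pair
    have hr : Comp K (fun z : MEnv K × FQ × ℕ × List K × List K =>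
        berlRounds z.1 z.2.1 z.2.2.2.1 (berlBasis z.1 z.2.1 z.2.2.2.1) z.2.2.1 z.2.2.2.2
          [z.2.2.2.1]) _ _ :=
      (berlRounds_ex.choose_spec K).comp (f := fun z : MEnv K × FQ × ℕ × List K × List K =>
        (((z.1, z.2.1), (z.2.2.2.1, berlBasis z.1 z.2.1 z.2.2.2.1)),
          (z.2.2.1, (z.2.2.2.2, [z.2.2.2.1]))))
        (Comp.pair (h := Comp.pair (h' := Comp.pair (h' := hb))))
    exact (Comp.cond' (K := K)
      (b := fun z : MEnv K × FQ × ℕ × List K × List K =>
        decide (2 ≤ z.2.2.2.1.length) && decide (z.2.2.2.1.getLastD 0 = 1))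
      (f := fun z => berlRounds z.1 z.2.1 z.2.2.2.1 (berlBasis z.1 z.2.1 z.2.2.2.1) z.2.2.1
          z.2.2.2.2 [z.2.2.2.1])
      (g := fun z => [z.2.2.2.1]) inferInstance hr inferInstance).bigO 1000 (fun z => by
        obtain ⟨E, Q, n, f, tape⟩ := z
        simp only []
        have hA : 1 ≤ (E.1 + 1) * Q.lg := Nat.mul_pos (Nat.succ_pos _) (berl_lg_pos Q)
        have e0 : f.length + 1 ≤ (f.length + 1) ^ 2 := Nat.le_self_pow (by norm_num) _
        have e1 : (f.length + 1) ^ 2 ≤ (f.length + 1) ^ 2 * ((E.1 + 1) * Q.lg) :=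
          Nat.le_mul_of_pos_right _ hA
        have e2 : (n + 1) * (f.length + 1) ^ 2 * (E.1 + 1) * Q.lg =
            n * ((f.length + 1) ^ 2 * ((E.1 + 1) * Q.lg)) +
              (f.length + 1) ^ 2 * ((E.1 + 1) * Q.lg) := by ring
        rw [e2]
        by_cases h : 2 ≤ f.length ∧ f.getLastD 0 = 1
        · have hf : BerlMN f := BerlMN.of_mp (berl_mp_of_last h.2) h.1
          have h1 := berlRoundsT_le E Q hf (B := berlBasis E Q f)
            (fun b hb => by rw [rows_berlBasis E Q f b hb]; omega) n tape (BerlFL.single hf)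
          have h2 : n * (300 * ((f.length + 1) ^ 2 * ((E.1 + 1) * Q.lg))) =
            300 * (n * ((f.length + 1) ^ 2 * ((E.1 + 1) * Q.lg))) := by ring
          rw [h2] at h1
          rw [decide_eq_true h.1, decide_eq_true h.2]
          simp only [Bool.and_self, cond_true]
          omega
        · have e : (decide (2 ≤ f.length) && decide (f.getLastD 0 = 1)) = false := by
            rw [not_and_or] at h
            rcases h with h | h
            · rw [decide_eq_false h, Bool.false_and]
            · rw [decide_eq_false h, Bool.and_false]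
          rw [e, cond_false]
          omega)⟩

noncomputable def sqFactorCd : Cd := sqFactor_ex.choose

instance compSqFactor [DecidableEq K] {α : Type} [Enc K α] {e : α → MEnv K} {Q : α → FQ}
    {n : α → ℕ} {f g : α → List K} {c0 c1 c2 c3 c4 : Cd} {T0 T1 T2 T3 T4 : α → ℕ}
    [h0 : Comp K e c0 T0] [h1 : Comp K Q c1 T1] [h2 : Comp K n c2 T2] [h3 : Comp K f c3 T3]
    [h4 : Comp K g c4 T4] :
    Comp K (fun x => sqFactor (e x) (Q x) (n x) (f x) (g x))
      (sqFactorCd.comp (c0.pair (c1.pair (c2.pair (c3.pair c4)))))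
      (fun x => (T0 x + (T1 x + (T2 x + (T3 x + T4 x)))) +
        (kerT (2 * (f x).length) + (n x + 1) * ((f x).length + 1) ^ 2 *
          ((e x).1 + 1) * (Q x).lg)) :=
  (sqFactor_ex.choose_spec K).comp (f := fun x => (e x, (Q x, (n x, (f x, g x)))))
    (Comp.pair (h := h0) (h' := Comp.pair (h := h1) (h' := Comp.pair (h := h2)
      (h' := Comp.pair (h := h3) (h' := h4)))))

end Pool.Agent.BiFac

end

section

/-!
# Hensel lifting of a factorisation modulo `x`
-/

set_option autoImplicit false
set_option synthInstance.maxHeartbeats 400000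
set_option synthInstance.maxSize 100000
set_option maxHeartbeats 4000000

namespace Pool.Agent.BiFac

open Polynomial Pool.Agent.TreeRAM

variable {K : Type} [Field K]

/-! ### The algorithm -/

/-- The numerator `1`, or `0` if the denominator is constant. -/
def hnum (F : List (List K)) : List (List K) := ([[1]] : List (List K)).take (F.length - 1)

/-- The sum of the products of all but one of the factors (cut to a certain length, which only
matters for meaningless input). -/
def hcomb (E : MEnv K) (w : ℕ) (Fs : List (List (List K))) : List (List K) :=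
  (combB E w (Fs.map (fun F => (hnum F, F)))).take ((Fs.map (fun F => F.length + 1)).sum)

/-- Correction of one factor. -/
def hfac1 (E : MEnv K) (w : ℕ) (z : List (List K) × List (List K)) (R : List (List K)) :
    List (List K) × List (List K) :=
  (badd w z.1 (brem E w (bmul E w R z.2) z.1), z.2)

/-- The error of the factorisation. -/
def herr (E : MEnv K) (w : ℕ) (F : List (List K)) (Fs : List (List (List K))) : List (List K) :=
  (bsub w F (prodB E w Fs)).take ((prodB E w Fs).length - 1)

/-- Correction of all factors. -/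
def hfac (E : MEnv K) (w : ℕ) (F : List (List K)) (L : List (List (List K) × List (List K))) :
    List (List (List K) × List (List K)) :=
  List.zipWith (hfac1 E w) L (remB E w (herr E w F (L.map Prod.fst)) (L.map Prod.fst))

/-- Correction of one inverse. -/
def hinv1 (E : MEnv K) (w : ℕ) (z : List (List K) × List (List K)) (c : List (List K)) :
    List (List K) × List (List K) :=
  (z.1, brem E w (bmul E w z.2 (bsub w [[1 + 1]] (bmul E w z.2 c))) z.1)

/-- Correction of all inverses. -/
def hinv (E : MEnv K) (w : ℕ) (L : List (List (List K) × List (List K))) :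
    List (List (List K) × List (List K)) :=
  List.zipWith (hinv1 E w) L (remB E w (hcomb E w (L.map Prod.fst)) (L.map Prod.fst))

/-- One inverse modulo `x`. -/
def hinit1 [DecidableEq K] (g : List K) (R : List (List K)) : List (List K) × List (List K) :=
  (lift1 g, lift1 (invN (R.map (fun r => r.headD 0)) g))

/-- The start. -/
def hinit [DecidableEq K] (E : MEnv K) (gs : List (List K)) :
    List (List (List K) × List (List K)) :=
  List.zipWith hinit1 gs (remB E 1 (hcomb E 1 (gs.map lift1)) (gs.map lift1))

/-- The lifting with the inverses. -/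
def hlift [DecidableEq K] (E : MEnv K) : ℕ → List (List K) → List (List K) →
    List (List (List K) × List (List K))
  | 0, _, gs => hinit E gs
  | t + 1, F, gs => hinv E (2 ^ (t + 1)) (hfac E (2 ^ (t + 1)) F (hlift E t F gs))

/-- lift the factorisation of `F` modulo `x` into the coprime monic `gs` to precision `2 ^ t` -/
def lift [DecidableEq K] (E : MEnv K) (t : ℕ) (F : List (List K)) (gs : List (List K)) :
    List (List (List K)) := (hlift E t F gs).map Prod.fst

/-! ### Lists -/

theorem forall₂_zipWith_self {α β γ : Type*} {g : α → β → γ} {B : β → α → Prop}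
    {C : γ → α → Prop} {L : List α} {R : List β} (hR : List.Forall₂ B R L)
    (h : ∀ z ∈ L, ∀ r, B r z → C (g z r) z) : List.Forall₂ C (List.zipWith g L R) L := by
  induction hR with
  | nil => exact List.Forall₂.nil
  | cons h2 _ ih =>
    exact List.Forall₂.cons (h _ (List.mem_cons_self ..) _ h2)
      (ih fun z hz => h z (List.mem_cons_of_mem _ hz))

theorem forall₂_comp {α β γ : Type*} {A : α → β → Prop} {B : β → γ → Prop} {C : α → γ → Prop}
    {L : List α} {M : List β} {N : List γ} (h1 : List.Forall₂ A L M) (h2 : List.Forall₂ B M N)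
    (h : ∀ a b c, A a b → B b c → C a c) : List.Forall₂ C L N := by
  induction h1 generalizing N with
  | nil =>
    cases h2
    exact List.Forall₂.nil
  | cons h3 _ ih =>
    cases h2 with
    | cons h4 h5 => exact List.Forall₂.cons (h _ _ _ h3 h4) (ih h5)

theorem forall₂_mem_left {α β : Type*} {A : α → β → Prop} {L : List α} {M : List β}
    (h : List.Forall₂ A L M) {a : α} (ha : a ∈ L) : ∃ b ∈ M, A a b := by
  induction h with
  | nil => simp at ha
  | cons h1 _ ih =>
    rcases List.mem_cons.1 ha with rfl | ha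
    · exact ⟨_, List.mem_cons_self .., h1⟩
    · obtain ⟨b, hb, hab⟩ := ih ha
      exact ⟨b, List.mem_cons_of_mem _ hb, hab⟩

theorem map_zipWith_eq {α β γ δ : Type*} {g : α → β → γ} {f : γ → δ} {f' : α → δ}
    {B : β → α → Prop} {L : List α} {R : List β} (hR : List.Forall₂ B R L)
    (h : ∀ z ∈ L, ∀ R, B R z → f (g z R) = f' z) :
    (List.zipWith g L R).map f = L.map f' := by
  induction hR with
  | nil => rfl
  | cons h2 _ ih =>
    rw [List.zipWith_cons_cons, List.map_cons, List.map_cons, h _ (List.mem_cons_self ..) _ h2,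
      ih fun z hz => h z (List.mem_cons_of_mem _ hz)]

theorem mem_zipWith {α β γ : Type*} {g : α → β → γ} {L : List α} {R : List β} {y : γ}
    (hy : y ∈ List.zipWith g L R) : ∃ z ∈ L, ∃ r ∈ R, g z r = y := by
  induction L generalizing R with
  | nil => simp at hy
  | cons a L ih =>
    cases R with
    | nil => simp at hy
    | cons b R =>
      rw [List.zipWith_cons_cons, List.mem_cons] at hy
      rcases hy with rfl | hy
      · exact ⟨_, List.mem_cons_self .., _, List.mem_cons_self .., rfl⟩
      · obtain ⟨z, hz, r, hr, hy⟩ := ih hy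
        exact ⟨z, List.mem_cons_of_mem _ hz, r, List.mem_cons_of_mem _ hr, hy⟩

theorem forall₂_map_eq {α β γ : Type*} {A : α → β → Prop} {f : α → γ} {f' : β → γ} {L : List α}
    {M : List β} (h : List.Forall₂ A L M) (hf : ∀ a b, A a b → f a = f' b) :
    L.map f = M.map f' := by
  induction h with
  | nil => rfl
  | cons h1 _ ih => rw [List.map_cons, List.map_cons, hf _ _ h1, ih]

omit [Field K] in
theorem Fits.mono2 {E : MEnv K} {n n' w w' : ℕ} (h : Fits E n w) (hn : n' ≤ n) (hw : w' ≤ w) :
    Fits E n' w' := by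
  unfold Fits at h ⊢
  refine le_trans ?_ h
  gcongr

theorem cg_toB_take {w n : ℕ} {l : List (List K)} {G : K[X][X]} (h : Cg w (toB l) G)
    (hG : G.degree < n) : Cg w (toB (l.take n)) G := by
  refine cg_of_coeff fun j => ?_
  rw [coeff_toB]
  by_cases hj : j < n
  · have h1 : (l.take n).getD j [] = l.getD j [] := by
      rw [List.getD_eq_getElem?_getD, List.getD_eq_getElem?_getD, List.getElem?_take, if_pos hj]
    rw [h1, ← coeff_toB]
    exact h.coeff j
  · have h1 : (l.take n).getD j [] = [] := by
      rw [List.getD_eq_getElem?_getD, List.getElem?_take, if_neg hj]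
      rfl
    have h2 : G.coeff j = 0 := by
      apply coeff_eq_zero_of_degree_lt
      refine lt_of_lt_of_le hG ?_
      exact_mod_cast not_lt.1 hj
    rw [h1, h2]
    simp [toP]

theorem toB_hnum (F : List (List K)) :
    toB (hnum F) = if F.length ≤ 1 then 0 else 1 := by
  unfold hnum
  split_ifs with h
  · have : F.length - 1 = 0 := by omega
    rw [this]
    rfl
  · obtain ⟨n, hn⟩ : ∃ n, F.length - 1 = n + 1 := ⟨F.length - 2, by omega⟩
    rw [hn]
    simp [toB, toP]

theorem length_hnum_lt {F : List (List K)} (h : F ≠ []) : (hnum F).length < F.length := by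
  unfold hnum
  have := List.length_pos_of_ne_nil h
  rw [List.length_take]
  simp only [List.length_cons, List.length_nil]
  omega

theorem length_hnum_le (F : List (List K)) : (hnum F).length ≤ F.length - 1 := by
  unfold hnum
  rw [List.length_take]
  exact min_le_left _ _

theorem cg_list_prod {w : ℕ} {A B : List K[X][X]} (h : List.Forall₂ (Cg w) A B) :
    Cg w A.prod B.prod := by
  induction h with
  | nil => exact Cg.refl _ _
  | cons h1 _ ih =>
    rw [List.prod_cons, List.prod_cons]
    exact h1.mul ih

theorem cg_combSum_one {w : ℕ} {A B : List K[X][X]} (h : List.Forall₂ (Cg w) A B) :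
    Cg w (combSum (A.map (fun f => (1, f)))) (combSum (B.map (fun f => (1, f)))) := by
  induction h with
  | nil => exact Cg.refl _ _
  | @cons a b A B h1 h2 ih =>
    rw [List.map_cons, List.map_cons, combSum, combSum, List.map_map, List.map_map]
    have e : ∀ A : List K[X][X], A.map (Prod.snd ∘ fun f => ((1 : K[X][X]), f)) = A := by
      intro A
      have : (Prod.snd ∘ fun f : K[X][X] => ((1 : K[X][X]), f)) = id := rfl
      rw [this, List.map_id]
    rw [e, e]
    exact ((Cg.refl _ _).mul (cg_list_prod h2)).add (h1.mul ih)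

theorem length_lt_tot {α : Type} {L : List (List α)} {F : List α} (h : F ∈ L) :
    F.length < tot L := by
  unfold tot
  have h1 := List.single_le_sum (l := L.map (fun F => F.length + 1)) (by simp) (F.length + 1)
    (List.mem_map.2 ⟨F, h, rfl⟩)
  omega

theorem monic_add_modByMonic {f a : K[X][X]} (hf : f.Monic) :
    (f + a %ₘ f).Monic ∧ (f + a %ₘ f).natDegree = f.natDegree := by
  have h := degree_modByMonic_lt a hf
  exact ⟨hf.add_of_left h, natDegree_add_eq_left_of_degree_lt h⟩

theorem modByMonic_mul_left {f a b : K[X][X]} (hf : f.Monic) :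
    ((a %ₘ f) * b) %ₘ f = (a * b) %ₘ f := by
  have h1 : (a %ₘ f) * b = a * b - f * (a /ₘ f * b) := by
    have := modByMonic_add_div a f
    linear_combination b * this
  rw [h1, sub_modByMonic, (modByMonic_eq_zero_iff_dvd hf).2 (Dvd.intro _ rfl), sub_zero]

/-! ### Correctness -/

/-- The data are a factorisation with inverses modulo `x ^ k`. -/
structure HInv (k : ℕ) (F : List (List K)) (gs : List (List K))
    (L : List (List (List K) × List (List K))) : Prop where
  fac : List.Forall₂ (fun z g => ML k z.1 ∧ z.1.length = g.length ∧ red (toB z.1) = toP g ∧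
    z.2.length ≤ z.1.length) L gs
  prod : Cg k (toB F) (L.map (fun z => toB z.1)).prod
  inv : ∀ z ∈ L, ∃ u, Cg k (toB z.2 * combSum (L.map (fun z => (1, toB z.1))))
    (1 + toB z.1 * u)

omit [Field K] in
theorem tot_map_fst_eq {gs : List (List K)} {L : List (List (List K) × List (List K))}
    (h : List.Forall₂ (fun z g => z.1.length = g.length) L gs) :
    tot (L.map Prod.fst) = tot gs := by
  unfold tot
  rw [List.map_map]
  congr 1
  exact forall₂_map_eq h fun a b hab => by simp [hab]

theorem cg_hfac1 {E : MEnv K} (hE : E.Good) {w : ℕ} {z : List (List K) × List (List K)}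
    {R : List (List K)} {e : K[X][X]} (hz : ML w z.1 ∨ ((toB z.1).Monic ∧
      z.1.length = (toB z.1).natDegree + 1)) (hz2 : z.2.length ≤ z.1.length) (hw : 0 < w)
    (hf : Fits E (4 * (z.1.length + 1)) w) (hR : Cg w (toB R) (e %ₘ toB z.1))
    (hRl : R.length = z.1.length - 1) :
    ML w (hfac1 E w z R).1 ∧ (hfac1 E w z R).1.length = z.1.length ∧
    Cg w (toB (hfac1 E w z R).1) (toB z.1 + (e * toB z.2) %ₘ toB z.1) := by
  obtain ⟨hm, hl⟩ : (toB z.1).Monic ∧ z.1.length = (toB z.1).natDegree + 1 := by
    rcases hz with h | h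
    · exact ⟨h.monic, h.len⟩
    · exact h
  have h1 := cg_bmul hE (w := w) (a := R) (b := z.2) (hf.mono2 (by omega) le_rfl)
  have h2 := cg_brem hE (w := w) (a := bmul E w R z.2) (b := z.1)
    (hf.mono2 (by rw [length_bmul]; omega) le_rfl) hm hl
  have h3 := cg_badd w z.1 (brem E w (bmul E w R z.2) z.1)
  have h4 : Cg w (toB (hfac1 E w z R).1) (toB z.1 + (e * toB z.2) %ₘ toB z.1) := by
    refine h3.trans ((Cg.refl _ _).add (h2.trans ?_))
    rw [← modByMonic_mul_left hm]
    exact (h1.trans (hR.mul (Cg.refl _ _))).modByMonic (Cg.refl _ _) hm hm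
  have h5 : (hfac1 E w z R).1.length = z.1.length := by
    show (badd w z.1 (brem E w (bmul E w R z.2) z.1)).length = _
    rw [length_badd, length_brem]
    omega
  obtain ⟨hm', hl'⟩ := monic_add_modByMonic (a := e * toB z.2) hm
  refine ⟨(ML.of_cg h4 hm' hw ?_ ?_).1, h5, h4⟩
  · rw [h5, hl', hl]
  · intro r hr
    exact (rows_badd w z.1 (brem E w (bmul E w R z.2) z.1) r hr).le

theorem sum_length_sub_one {L : List (List (List K))}
    (h : ∀ F ∈ L, (toB F).Monic ∧ F.length = (toB F).natDegree + 1) :
    (L.map (fun F => F.length - 1)).sum = ((L.map toB).prod).natDegree := by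
  induction L with
  | nil => simp
  | cons F L ih =>
    obtain ⟨h1, h2⟩ := h F (List.mem_cons_self ..)
    have h3 := ih fun G hG => h G (List.mem_cons_of_mem _ hG)
    have hm : ((L.map toB).prod).Monic := by
      apply hmonic_list_prod
      intro f hf
      obtain ⟨y, hy, rfl⟩ := List.mem_map.1 hf
      exact (h y (List.mem_cons_of_mem _ hy)).1
    rw [List.map_cons, List.sum_cons, h3, List.map_cons, List.prod_cons, h1.natDegree_mul hm, h2]
    rfl

theorem herr_spec {E : MEnv K} (hE : E.Good) {w k : ℕ} (hk : 0 < k) {F : List (List K)}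
    {Fs : List (List (List K))} (hf : Fits E (2 * tot Fs) w) (hF : (toB F).Monic)
    (hFs : ∀ F ∈ Fs, (toB F).Monic ∧ F.length = (toB F).natDegree + 1)
    (hc : Cg k (toB F) (Fs.map toB).prod) :
    Cg w (toB (herr E w F Fs)) (toB F - (Fs.map toB).prod) ∧
      (herr E w F Fs).length ≤ tot Fs := by
  have hm : ((Fs.map toB).prod).Monic := by
    apply hmonic_list_prod
    intro f hf
    obtain ⟨y, hy, rfl⟩ := List.mem_map.1 hf
    exact (hFs y hy).1
  have hdeg : (toB F).natDegree = ((Fs.map toB).prod).natDegree := hc.natDegree_eq hk hF hm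
  have hlen : (prodB E w Fs).length - 1 = (toB F).natDegree := by
    rw [length_prodB E w Fs, sum_length_sub_one hFs, hdeg]
    · rfl
    · intro G hG h0
      have := (hFs G hG).2
      rw [h0] at this
      simp at this
  constructor
  · unfold herr
    rw [hlen]
    refine cg_toB_take ?_ ?_
    · exact (cg_bsub w _ _).trans ((Cg.refl _ _).sub (cg_prodB hE hf))
    · have h1 : (toB F).degree = ((Fs.map toB).prod).degree := by
        rw [degree_eq_natDegree hF.ne_zero, degree_eq_natDegree hm.ne_zero, hdeg]
      have h2 := degree_sub_lt_left h1 hF.ne_zero (by rw [hF.leadingCoeff, hm.leadingCoeff])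
      rwa [degree_eq_natDegree hF.ne_zero] at h2
  · unfold herr
    rw [List.length_take]
    have := length_prodB_le E w Fs
    omega

theorem hfac_spec {E : MEnv K} (hE : E.Good) {w k : ℕ} (hk : 0 < k) (hkw : k ≤ w)
    (hw : w ≤ 2 * k) {F : List (List K)} {gs : List (List K)}
    {L : List (List (List K) × List (List K))} (hf : Fits E (4 * (F.length + tot gs)) w)
    (hF : (toB F).Monic) (hc : gs.Pairwise (fun g g' => IsCoprime (toP g) (toP g')))
    (h : HInv k F gs L) :
    List.Forall₂ (fun z' z => ML w z'.1 ∧ z'.1.length = z.1.length ∧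
      Cg k (toB z'.1) (toB z.1) ∧ z'.2 = z.2) (hfac E w F L) L ∧
    Cg w (toB F) ((hfac E w F L).map (fun z => toB z.1)).prod := by
  have hw0 : 0 < w := by omega
  have htot : tot (L.map Prod.fst) = tot gs := tot_map_fst_eq (h.fac.imp fun _ _ h => h.2.1)
  have hLm : ∀ z ∈ L, (toB z.1).Monic ∧ z.1.length = (toB z.1).natDegree + 1 ∧
      z.2.length ≤ z.1.length := by
    intro z hz
    obtain ⟨g, -, hg⟩ := forall₂_mem_left h.fac hz
    exact ⟨hg.1.monic, hg.1.len, hg.2.2.2⟩
  have hFs : ∀ G ∈ L.map Prod.fst, (toB G).Monic ∧ G.length = (toB G).natDegree + 1 := by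
    intro G hG
    obtain ⟨z, hz, rfl⟩ := List.mem_map.1 hG
    exact ⟨(hLm z hz).1, (hLm z hz).2.1⟩
  have emap : (L.map Prod.fst).map toB = L.map (fun z => toB z.1) := by
    rw [List.map_map]; rfl
  have hprod := h.prod
  rw [← emap] at hprod
  obtain ⟨he1, he2⟩ := herr_spec hE (w := w) hk (hf.mono2 (by omega) le_rfl) hF hFs hprod
  rw [emap] at he1
  set e := herr E w F (L.map Prod.fst) with hedef
  set Pr := (L.map (fun z => toB z.1)).prod with hPr
  have hrem := remB_spec hE hw0 (h := e) (L := L.map Prod.fst) (hf.mono2 (by omega) le_rfl) hFs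
  rw [List.forall₂_map_right_iff] at hrem
  have key : ∀ z ∈ L, ∀ R, (Cg w (toB R) (toB e %ₘ toB z.1) ∧ R.length = z.1.length - 1) →
      ML w (hfac1 E w z R).1 ∧ (hfac1 E w z R).1.length = z.1.length ∧
      Cg w (toB (hfac1 E w z R).1) (toB z.1 + ((toB F - Pr) * toB z.2) %ₘ toB z.1) := by
    intro z hz R hR
    obtain ⟨h1, h2, h3⟩ := hLm z hz
    refine cg_hfac1 hE (Or.inr ⟨h1, h2⟩) h3 hw0 (hf.mono2 ?_ le_rfl) ?_ hR.2
    · have := length_lt_tot (List.mem_map.2 ⟨z, hz, rfl⟩ : z.1 ∈ L.map Prod.fst)
      omega
    · exact hR.1.trans (he1.modByMonic (Cg.refl _ _) h1 h1)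
  constructor
  · refine forall₂_zipWith_self hrem fun z hz R hR => ?_
    obtain ⟨h1, h2, h3⟩ := key z hz R hR
    refine ⟨h1, h2, (h3.mono hkw).trans ?_, rfl⟩
    refine step_factor (hLm z hz).1 ?_
    have := h.prod.sub (Cg.refl k Pr)
    rwa [sub_self] at this
  · have h1 := step_prod (L := L.map (fun z => (toB z.1, toB z.2))) hw0 hw hF ?_ ?_ ?_ ?_ ?_
    · refine h1.trans (Cg.symm ?_)
      have e1 : ((L.map (fun z => (toB z.1, toB z.2))).map Prod.fst).prod = Pr := by
        rw [List.map_map]; rfl
      rw [e1, List.map_map]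
      apply cg_list_prod
      rw [List.forall₂_map_left_iff, List.forall₂_map_right_iff]
      exact forall₂_zipWith_self hrem fun z hz R hR => (key z hz R hR).2.2
    · intro z hz
      obtain ⟨y, hy, rfl⟩ := List.mem_map.1 hz
      exact (hLm y hy).1
    · have hm : Pr.Monic := by
        apply hmonic_list_prod
        intro f hf
        obtain ⟨y, hy, rfl⟩ := List.mem_map.1 hf
        exact (hLm y hy).1
      rw [List.map_map]
      exact h.prod.natDegree_eq hk hF hm
    · have e2 : L.map (fun z => red (toB z.1)) = gs.map toP :=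
        forall₂_map_eq h.fac fun _ _ h => h.2.2.1
      have e3 : (gs.map toP).Pairwise IsCoprime := List.pairwise_map.2 hc
      rw [← e2, List.pairwise_map] at e3
      exact List.pairwise_map.2 e3
    · rw [List.map_map]; exact h.prod
    · intro z hz
      obtain ⟨y, hy, rfl⟩ := List.mem_map.1 hz
      rw [List.map_map]
      exact h.inv y hy

theorem sum_sub_one_le_tot {α : Type} (L : List (List α)) :
    (L.map (fun F => F.length - 1)).sum ≤ tot L := by
  unfold tot
  induction L with
  | nil => simp
  | cons F L ih =>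
    simp only [List.map_cons, List.sum_cons]
    omega

/-- The combination modulo one of the factors. -/
theorem hcomb_spec {E : MEnv K} (hE : E.Good) {w : ℕ} {Fs : List (List (List K))}
    (hf : Fits E (2 * tot Fs) w)
    (hFs : ∀ F ∈ Fs, (toB F).Monic ∧ F.length = (toB F).natDegree + 1) :
    (hcomb E w Fs).length ≤ tot Fs ∧ ∀ F ∈ Fs, ∃ a, Cg w (toB (hcomb E w Fs))
      (combSum (Fs.map (fun F => (1, toB F))) + toB F * a) := by
  have hne : ∀ z ∈ Fs.map (fun F => (hnum F, F)), z.1.length < z.2.length := by
    intro z hz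
    obtain ⟨F, hF, rfl⟩ := List.mem_map.1 hz
    refine length_hnum_lt ?_
    rintro rfl
    have := (hFs _ hF).2
    simp at this
  have e1 : (Fs.map (fun F => (hnum F, F))).map Prod.snd = Fs := by
    rw [List.map_map]
    exact List.map_id _
  have hcut : hcomb E w Fs = combB E w (Fs.map (fun F => (hnum F, F))) := by
    unfold hcomb
    apply List.take_of_length_le
    rw [length_combB E w _ hne, List.map_map]
    exact sum_sub_one_le_tot Fs
  rw [hcut]
  constructor
  · rw [length_combB E w _ hne, List.map_map]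
    exact sum_sub_one_le_tot Fs
  · intro F hF
    have h1 := cg_combB hE (w := w) hne (by rw [e1]; exact hf)
    rw [List.map_map] at h1
    set L : List (K[X][X] × K[X][X]) := Fs.map ((fun z => (toB z.1, toB z.2)) ∘
      fun F => (hnum F, F)) with hL
    have h2 := dvd_csum_sub (L := L) (z := (toB (hnum F), toB F))
      (List.mem_map.2 ⟨F, hF, rfl⟩)
    have e2 : L.map (fun z => ((1 : K[X][X]), z.2)) = Fs.map (fun F => (1, toB F)) := by
      rw [hL, List.map_map]; rfl
    rw [e2, ← combSum_eq_csum, ← combSum_eq_csum] at h2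
    simp only at h2
    have h3 : toB F ∣ toB (hnum F) - 1 := by
      rw [toB_hnum]
      split_ifs with h
      · have h4 : (toB F).natDegree = 0 := by
          have := (hFs F hF).2
          omega
        have h5 : toB F = 1 := (hFs F hF).1.natDegree_eq_zero.1 h4
        rw [h5]
        exact one_dvd _
      · simp
    obtain ⟨a, ha⟩ := h2
    obtain ⟨b, hb⟩ := h3
    refine ⟨a + b * combSum (Fs.map (fun F => (1, toB F))), ?_⟩
    have h4 : combSum (Fs.map (fun F => (1, toB F))) +
        toB F * (a + b * combSum (Fs.map (fun F => (1, toB F)))) = combSum L := by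
      linear_combination -ha - combSum (Fs.map (fun F => (1, toB F))) * hb
    rw [h4]
    exact h1

theorem toB_two : toB ([[1 + 1]] : List (List K)) = 2 := by
  simp only [toB, toP, mul_zero, add_zero]
  rw [one_add_one_eq_two, map_ofNat, map_ofNat]

theorem hinv_spec {E : MEnv K} (hE : E.Good) {w k : ℕ} (hw0 : 0 < w) (hw : w ≤ 2 * k)
    {L : List (List (List K) × List (List K))}
    (hL : ∀ z ∈ L, (toB z.1).Monic ∧ z.1.length = (toB z.1).natDegree + 1 ∧
      z.2.length ≤ z.1.length)
    (hf : Fits E (4 * tot (L.map Prod.fst)) w)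
    (h : ∀ z ∈ L, ∃ u, Cg k (toB z.2 * combSum (L.map (fun z => (1, toB z.1))))
      (1 + toB z.1 * u)) :
    List.Forall₂ (fun z' z => z'.1 = z.1 ∧ z'.2.length ≤ z'.1.length ∧
      ∃ u, Cg w (toB z'.2 * combSum (L.map (fun z => (1, toB z.1)))) (1 + toB z.1 * u))
      (hinv E w L) L := by
  have hFs : ∀ G ∈ L.map Prod.fst, (toB G).Monic ∧ G.length = (toB G).natDegree + 1 := by
    intro G hG
    obtain ⟨z, hz, rfl⟩ := List.mem_map.1 hG
    exact ⟨(hL z hz).1, (hL z hz).2.1⟩
  obtain ⟨hc1, hc2⟩ := hcomb_spec hE (w := w) (hf.mono2 (by omega) le_rfl) hFs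
  have hrem := remB_spec hE hw0 (h := hcomb E w (L.map Prod.fst)) (L := L.map Prod.fst)
    (hf.mono2 (by omega) le_rfl) hFs
  rw [List.forall₂_map_right_iff] at hrem
  have emap : (L.map Prod.fst).map (fun F => ((1 : K[X][X]), toB F)) =
      L.map (fun z => (1, toB z.1)) := by
    rw [List.map_map]; rfl
  rw [emap] at hc2
  set Q := combSum (L.map (fun z => ((1 : K[X][X]), toB z.1))) with hQ
  refine forall₂_zipWith_self hrem fun z hz c hc => ?_
  obtain ⟨h1, h2, h3⟩ := hL z hz
  have hlt := length_lt_tot (List.mem_map.2 ⟨z, hz, rfl⟩ : z.1 ∈ L.map Prod.fst)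
  refine ⟨rfl, ?_, ?_⟩
  · have := length_brem E w (bmul E w z.2 (bsub w [[1 + 1]] (bmul E w z.2 c))) z.1
    show (brem E w (bmul E w z.2 (bsub w [[1 + 1]] (bmul E w z.2 c))) z.1).length ≤ z.1.length
    omega
  · obtain ⟨a, ha⟩ := hc2 z.1 (List.mem_map.2 ⟨z, hz, rfl⟩)
    have g1 : ∃ a, Cg w (toB c) (Q + toB z.1 * a) := by
      have g2 : Cg w (toB c) ((Q + toB z.1 * a) %ₘ toB z.1) :=
        hc.1.trans (ha.modByMonic (Cg.refl _ _) h1 h1)
      have g3 := modByMonic_add_div (Q + toB z.1 * a) (toB z.1)
      refine ⟨a - (Q + toB z.1 * a) /ₘ toB z.1, ?_⟩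
      have g4 : Q + toB z.1 * (a - (Q + toB z.1 * a) /ₘ toB z.1) =
          (Q + toB z.1 * a) %ₘ toB z.1 := by linear_combination -g3
      rw [g4]
      exact g2
    refine step_inv hw0 hw (h z hz) g1 ?_
    have b1 := cg_bmul hE (w := w) (a := z.2) (b := c) (hf.mono2 (by omega) le_rfl)
    have b2 := cg_bsub w [[1 + 1]] (bmul E w z.2 c)
    rw [toB_two] at b2
    have lb1 := length_bmul E w z.2 c
    have lb2 := length_bsub w [[1 + 1]] (bmul E w z.2 c)
    simp only [List.length_cons, List.length_nil] at lb2
    have b3 := cg_bmul hE (w := w) (a := z.2) (b := bsub w [[1 + 1]] (bmul E w z.2 c))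
      (hf.mono2 (by omega) le_rfl)
    have lb3 := length_bmul E w z.2 (bsub w [[1 + 1]] (bmul E w z.2 c))
    have b4 := cg_brem hE (w := w) (a := bmul E w z.2 (bsub w [[1 + 1]] (bmul E w z.2 c)))
      (b := z.1) (hf.mono2 (by omega) le_rfl) h1 h2
    set x := toB z.2 * (2 - toB z.2 * toB c) with hx
    have b5 : Cg w (toB (bmul E w z.2 (bsub w [[1 + 1]] (bmul E w z.2 c)))) x :=
      b3.trans ((Cg.refl _ _).mul (b2.trans ((Cg.refl _ _).sub b1)))
    refine ⟨-(x /ₘ toB z.1), ?_⟩
    have b6 := modByMonic_add_div x (toB z.1)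
    have b7 : x + toB z.1 * -(x /ₘ toB z.1) = x %ₘ toB z.1 := by linear_combination -b6
    rw [b7]
    exact b4.trans (b5.modByMonic (Cg.refl _ _) h1 h1)

theorem hstep_spec {E : MEnv K} (hE : E.Good) {k : ℕ} (hk : 0 < k) {F : List (List K)}
    {gs : List (List K)} {L : List (List (List K) × List (List K))}
    (hf : Fits E (4 * (F.length + tot gs)) (2 * k))
    (hF : (toB F).Monic) (hc : gs.Pairwise (fun g g' => IsCoprime (toP g) (toP g')))
    (h : HInv k F gs L) : HInv (2 * k) F gs (hinv E (2 * k) (hfac E (2 * k) F L)) := by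
  obtain ⟨h1, h2⟩ := hfac_spec hE hk (by omega) le_rfl hf hF hc h
  set L' := hfac E (2 * k) F L with hL'
  have h3 : List.Forall₂ (fun z g => ML (2 * k) z.1 ∧ z.1.length = g.length ∧
      red (toB z.1) = toP g ∧ z.2.length ≤ z.1.length) L' gs := by
    refine forall₂_comp h1 h.fac fun a b c hab hbc => ?_
    refine ⟨hab.1, hab.2.1.trans hbc.2.1, (hab.2.2.1.red hk).trans hbc.2.2.1, ?_⟩
    rw [hab.2.2.2, hab.2.1]
    exact hbc.2.2.2
  have hL'm : ∀ z ∈ L', (toB z.1).Monic ∧ z.1.length = (toB z.1).natDegree + 1 ∧
      z.2.length ≤ z.1.length := by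
    intro z hz
    obtain ⟨g, -, hg⟩ := forall₂_mem_left h3 hz
    exact ⟨hg.1.monic, hg.1.len, hg.2.2.2⟩
  have htot : tot (L'.map Prod.fst) = tot gs := tot_map_fst_eq (h3.imp fun _ _ h => h.2.1)
  have hQ : Cg k (combSum (L'.map (fun z => (1, toB z.1))))
      (combSum (L.map (fun z => (1, toB z.1)))) := by
    have := cg_combSum_one (w := k) (A := L'.map (fun z => toB z.1))
      (B := L.map (fun z => toB z.1)) (by
        rw [List.forall₂_map_left_iff, List.forall₂_map_right_iff]
        exact h1.imp fun _ _ h => h.2.2.1)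
    rw [List.map_map, List.map_map] at this
    exact this
  have h4 : ∀ z ∈ L', ∃ u, Cg k (toB z.2 * combSum (L'.map (fun z => (1, toB z.1))))
      (1 + toB z.1 * u) := by
    intro z hz
    obtain ⟨y, hy, hzy⟩ := forall₂_mem_left h1 hz
    obtain ⟨u, hu⟩ := h.inv y hy
    refine ⟨u, ?_⟩
    rw [hzy.2.2.2]
    refine ((Cg.refl _ _).mul hQ).trans (hu.trans ?_)
    exact (Cg.refl _ _).add ((hzy.2.2.1.symm).mul (Cg.refl _ _))
  have h5 := hinv_spec hE (w := 2 * k) (by omega) le_rfl hL'm
    (hf.mono2 (by rw [htot]; omega) le_rfl) h4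
  set L'' := hinv E (2 * k) L' with hL''
  have e1 : L''.map (fun z => toB z.1) = L'.map (fun z => toB z.1) :=
    forall₂_map_eq h5 fun a b hab => by rw [hab.1]
  have e2 : L''.map (fun z => ((1 : K[X][X]), toB z.1)) = L'.map (fun z => (1, toB z.1)) :=
    forall₂_map_eq h5 fun a b hab => by rw [hab.1]
  refine ⟨?_, ?_, ?_⟩
  · refine forall₂_comp h5 h3 fun a b c hab hbc => ?_
    refine ⟨?_, ?_, ?_, hab.2.1⟩
    · rw [hab.1]; exact hbc.1
    · rw [hab.1]; exact hbc.2.1
    · rw [hab.1]; exact hbc.2.2.1
  · rw [e1]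
    exact h2
  · intro z hz
    obtain ⟨y, hy, hzy⟩ := forall₂_mem_left h5 hz
    obtain ⟨u, hu⟩ := hzy.2.2
    refine ⟨u, ?_⟩
    rw [e2, hzy.1]
    exact hu

theorem toB_lift1 (g : List K) : toB (lift1 g) = (toP g).map C := by
  induction g with
  | nil => simp [lift1, toP]
  | cons a g ih =>
    have h : lift1 (a :: g) = [a] :: lift1 g := rfl
    rw [h, toB, ih, toP]
    simp [toP]

omit [Field K] in
theorem length_lift1 (g : List K) : (lift1 g).length = g.length := by
  unfold lift1
  rw [List.length_map]

theorem lift1_good {g : List K} (h : MP g) :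
    (toB (lift1 g)).Monic ∧ (lift1 g).length = (toB (lift1 g)).natDegree + 1 := by
  rw [toB_lift1, length_lift1]
  exact ⟨h.monic.map _, by rw [h.monic.natDegree_map]; exact h.len⟩

omit [Field K] in
theorem tot_map_lift1 (gs : List (List K)) : tot (gs.map lift1) = tot gs := by
  unfold tot
  rw [List.map_map]
  congr 1
  apply List.map_congr_left
  intro g _
  simp [length_lift1]

theorem isCoprime_csum {R : Type*} [CommRing R] {L : List (R × R)}
    (h : (L.map Prod.snd).Pairwise IsCoprime) (h1 : ∀ z ∈ L, z.1 = 1) :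
    ∀ z ∈ L, IsCoprime (csum L) z.2 := by
  induction L with
  | nil => simp
  | cons y L ih =>
    rw [List.map_cons, List.pairwise_cons] at h
    have ih' := ih h.2 fun z hz => h1 z (List.mem_cons_of_mem _ hz)
    intro z hz
    rw [csum, h1 y (List.mem_cons_self ..), one_mul]
    rcases List.mem_cons.1 hz with rfl | hz
    · have h2 : IsCoprime (L.map Prod.snd).prod z.2 := (isCoprime_list_prod h.1).symm
      exact h2.add_mul_left_left (csum L)
    · have h2 : IsCoprime y.2 z.2 := h.1 _ (List.mem_map.2 ⟨z, hz, rfl⟩)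
      have h3 : IsCoprime (y.2 * csum L) z.2 := h2.mul_left (ih' z hz)
      obtain ⟨a, ha⟩ : z.2 ∣ (L.map Prod.snd).prod :=
        List.dvd_prod (List.mem_map.2 ⟨z, hz, rfl⟩)
      rw [ha, add_comm]
      exact h3.add_mul_left_left a

theorem hinit_spec [DecidableEq K] {E : MEnv K} (hE : E.Good) {F : List (List K)}
    {gs : List (List K)} (hf : Fits E (4 * (F.length + tot gs)) 1) (hg : ∀ g ∈ gs, MP g)
    (hc : gs.Pairwise (fun g g' => IsCoprime (toP g) (toP g')))
    (hp : red (toB F) = (gs.map toP).prod) : HInv 1 F gs (hinit E gs) := by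
  have hFs : ∀ G ∈ gs.map lift1, (toB G).Monic ∧ G.length = (toB G).natDegree + 1 := by
    intro G hG
    obtain ⟨g, hg', rfl⟩ := List.mem_map.1 hG
    exact lift1_good (hg g hg')
  have htot := tot_map_lift1 gs
  obtain ⟨hc1, hc2⟩ := hcomb_spec hE (w := 1) (hf.mono2 (by omega) le_rfl) hFs
  have hrem := remB_spec hE one_pos (h := hcomb E 1 (gs.map lift1)) (L := gs.map lift1)
    (hf.mono2 (by omega) le_rfl) hFs
  rw [List.forall₂_map_right_iff] at hrem
  have emap : (gs.map lift1).map (fun F => ((1 : K[X][X]), toB F)) =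
      gs.map (fun g => (1, toB (lift1 g))) := by
    rw [List.map_map]; rfl
  rw [emap] at hc2
  set Q := combSum (gs.map (fun g => ((1 : K[X][X]), toB (lift1 g)))) with hQ
  have hredQ : red Q = csum (gs.map (fun g => (1, toP g))) := by
    have h1 := csum_map (S := K[X]) red (gs.map (fun g => ((1 : K[X][X]), toB (lift1 g))))
    rw [hQ, combSum_eq_csum, h1, List.map_map]
    congr 1
    apply List.map_congr_left
    intro g _
    simp [red_lift1]
  have hcop : ∀ g ∈ gs, IsCoprime (red Q) (toP g) := by
    intro g hg'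
    rw [hredQ]
    have h1 : ((gs.map (fun g => ((1 : K[X]), toP g))).map Prod.snd).Pairwise IsCoprime := by
      rw [List.map_map, List.pairwise_map]
      exact hc
    exact isCoprime_csum h1 (by
      intro z hz
      obtain ⟨y, _, rfl⟩ := List.mem_map.1 hz
      rfl) (1, toP g) (List.mem_map.2 ⟨g, hg', rfl⟩)
  have key : List.Forall₂ (fun z g => z.1 = lift1 g ∧ z.2.length ≤ z.1.length ∧
      ∃ u, Cg 1 (toB z.2 * Q) (1 + toB z.1 * u)) (hinit E gs) gs := by
    refine forall₂_zipWith_self hrem fun g hgm R hR => ⟨rfl, ?_, ?_⟩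
    · show (lift1 (invN _ g)).length ≤ (lift1 g).length
      rw [length_lift1, length_lift1]
      exact length_invN _ _
    · show ∃ u, Cg 1 (toB (lift1 (invN (R.map (fun r => r.headD 0)) g)) * Q)
        (1 + toB (lift1 g) * u)
      obtain ⟨a, ha⟩ := hc2 (lift1 g) (List.mem_map.2 ⟨g, hgm, rfl⟩)
      obtain ⟨h1, h2⟩ := lift1_good (hg g hgm)
      -- the reduction of `R`
      have g2 : Cg 1 (toB R) ((Q + toB (lift1 g) * a) %ₘ toB (lift1 g)) :=
        hR.1.trans (ha.modByMonic (Cg.refl _ _) h1 h1)
      have g3 := modByMonic_add_div (Q + toB (lift1 g) * a) (toB (lift1 g))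
      set b := a - (Q + toB (lift1 g) * a) /ₘ toB (lift1 g) with hb
      have g4 : Q + toB (lift1 g) * b = (Q + toB (lift1 g) * a) %ₘ toB (lift1 g) := by
        rw [hb]; linear_combination -g3
      rw [← g4] at g2
      have g5 : toP (R.map (fun r => r.headD 0)) = red Q + toP g * red b := by
        rw [← red_toB, g2.red one_pos, map_add, map_mul, red_lift1]
      have g6 : IsCoprime (toP (R.map (fun r => r.headD 0))) (toP g) := by
        rw [g5]
        exact (hcop g hgm).add_mul_left_left _
      obtain ⟨c, hc'⟩ := invN_spec g6 (hg g hgm).monic.ne_zero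
      rw [g5] at hc'
      obtain ⟨u, hu⟩ := exists_red_eq (c - toP (invN (R.map (fun r => r.headD 0)) g) * red b)
      refine ⟨u, ?_⟩
      rw [cg_one_iff, map_mul, map_add, map_mul, map_one, red_lift1, red_lift1, hu]
      linear_combination hc'
  have e1 : (hinit E gs).map (fun z => toB z.1) = gs.map (fun g => toB (lift1 g)) :=
    forall₂_map_eq key fun a b hab => by rw [hab.1]
  have e2 : (hinit E gs).map (fun z => ((1 : K[X][X]), toB z.1)) =
      gs.map (fun g => (1, toB (lift1 g))) :=
    forall₂_map_eq key fun a b hab => by rw [hab.1]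
  have hmem : ∀ z ∈ hinit E gs, z ∈ hinit E gs := fun z hz => hz
  refine ⟨?_, ?_, ?_⟩
  · have key2 : List.Forall₂ (fun (g : List K) g' => g = g' ∧ MP g) gs gs := by
      rw [List.forall₂_same]
      exact fun g hg' => ⟨rfl, hg g hg'⟩
    refine forall₂_comp key key2 fun z g g' h1 h2 => ?_
    obtain ⟨rfl, hm⟩ := h2
    obtain ⟨h3, h4⟩ := lift1_good hm
    refine ⟨?_, ?_, ?_, h1.2.1⟩
    · rw [h1.1]
      refine ⟨h3, h4, ?_⟩
      intro r hr
      unfold lift1 at hr
      obtain ⟨x, _, rfl⟩ := List.mem_map.1 hr
      simp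
    · rw [h1.1, length_lift1]
    · rw [h1.1, red_lift1]
  · rw [e1, cg_one_iff, hp, map_list_prod, List.map_map]
    congr 1
    apply List.map_congr_left
    intro g _
    simp [red_lift1]
  · intro z hz
    obtain ⟨g, hgm, h1⟩ := forall₂_mem_left key hz
    rw [e2]
    exact h1.2.2

theorem hlift_spec [DecidableEq K] {E : MEnv K} (hE : E.Good) {t : ℕ} {F : List (List K)}
    {gs : List (List K)} (hf : Fits E (4 * (F.length + tot gs)) (2 ^ t))
    (hF : (toB F).Monic) (hg : ∀ g ∈ gs, MP g)
    (hc : gs.Pairwise (fun g g' => IsCoprime (toP g) (toP g')))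
    (hp : red (toB F) = (gs.map toP).prod) : HInv (2 ^ t) F gs (hlift E t F gs) := by
  induction t with
  | zero => exact hinit_spec hE hf hg hc hp
  | succ t ih =>
    have h1 := ih (hf.mono2 le_rfl (Nat.pow_le_pow_right (by norm_num) (Nat.le_succ t)))
    have e : 2 ^ (t + 1) = 2 * 2 ^ t := by ring
    rw [hlift, e]
    rw [e] at hf
    exact hstep_spec hE (by positivity) hf hF hc h1

theorem lift_spec [DecidableEq K] {E : MEnv K} (hE : E.Good) {t : ℕ} {F : List (List K)}
    {gs : List (List K)} (hf : Fits E (4 * (F.length + tot gs)) (2 ^ t))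
    (hF : (toB F).Monic) (_hFl : F.length = (toB F).natDegree + 1) (hg : ∀ g ∈ gs, MP g)
    (hc : gs.Pairwise (fun g g' => IsCoprime (toP g) (toP g')))
    (hp : red (toB F) = (gs.map toP).prod) :
    List.Forall₂ (fun P g => ML (2 ^ t) P ∧ P.length = g.length ∧ red (toB P) = toP g)
      (lift E t F gs) gs ∧ Cg (2 ^ t) (toB F) ((lift E t F gs).map toB).prod := by
  have h := hlift_spec hE hf hF hg hc hp
  unfold lift
  refine ⟨?_, ?_⟩
  · rw [List.forall₂_map_left_iff]
    exact h.fac.imp fun _ _ h => ⟨h.1, h.2.1, h.2.2.1⟩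
  · rw [List.map_map]
    exact h.prod

/-! ### Lengths -/

theorem forall₂_true_of_length {α β : Type*} {L : List α} {M : List β}
    (h : L.length = M.length) : List.Forall₂ (fun _ _ => True) L M := by
  induction L generalizing M with
  | nil =>
    cases M with
    | nil => exact List.Forall₂.nil
    | cons b M => simp at h
  | cons a L ih =>
    cases M with
    | nil => simp at h
    | cons b M => exact List.Forall₂.cons trivial (ih (by simpa using h))

theorem map_fst_hinv (E : MEnv K) (w : ℕ) (L : List (List (List K) × List (List K))) :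
    (hinv E w L).map Prod.fst = L.map Prod.fst :=
  map_zipWith_eq (B := fun _ _ => True)
    (forall₂_true_of_length (by rw [length_remB, List.length_map])) fun z _ R _ => rfl

theorem map_snd_hfac (E : MEnv K) (w : ℕ) (F : List (List K))
    (L : List (List (List K) × List (List K))) :
    (hfac E w F L).map Prod.snd = L.map Prod.snd :=
  map_zipWith_eq (B := fun _ _ => True)
    (forall₂_true_of_length (by rw [length_remB, List.length_map])) fun z _ R _ => rfl

theorem map_length_hfac (E : MEnv K) (w : ℕ) (F : List (List K))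
    (L : List (List (List K) × List (List K))) :
    (hfac E w F L).map (fun z => z.1.length) = L.map (fun z => z.1.length) :=
  map_zipWith_eq (B := fun _ _ => True)
    (forall₂_true_of_length (by rw [length_remB, List.length_map])) fun z _ R _ => by
      show (badd w z.1 (brem E w (bmul E w R z.2) z.1)).length = _
      rw [length_badd, length_brem]
      omega

theorem map_fst_hinit [DecidableEq K] (E : MEnv K) (gs : List (List K)) :
    (hinit E gs).map Prod.fst = gs.map lift1 :=
  map_zipWith_eq (B := fun _ _ => True)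
    (forall₂_true_of_length (by rw [length_remB, List.length_map])) fun z _ R _ => rfl

theorem map_length_hlift [DecidableEq K] (E : MEnv K) (t : ℕ) (F : List (List K))
    (gs : List (List K)) :
    (hlift E t F gs).map (fun z => z.1.length) = gs.map List.length := by
  induction t with
  | zero =>
    have h := congrArg (List.map List.length) (map_fst_hinit E gs)
    rw [List.map_map, List.map_map] at h
    have e : (List.length ∘ lift1 : List K → ℕ) = List.length := by
      funext g
      exact length_lift1 g
    rw [e] at h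
    exact h
  | succ t ih =>
    have h := congrArg (List.map List.length) (map_fst_hinv E (2 ^ (t + 1))
      (hfac E (2 ^ (t + 1)) F (hlift E t F gs)))
    rw [List.map_map, List.map_map] at h
    rw [hlift]
    refine h.trans ?_
    exact (map_length_hfac E (2 ^ (t + 1)) F (hlift E t F gs)).trans ih

theorem length_lift [DecidableEq K] (E : MEnv K) (t : ℕ) (F : List (List K))
    (gs : List (List K)) : (lift E t F gs).length = gs.length := by
  have h := congrArg List.length (map_length_hlift E t F gs)
  rw [List.length_map, List.length_map] at h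
  unfold lift
  rw [List.length_map]
  exact h

theorem tot_eq_of_map_length {α β : Type} {L : List (List α)} {M : List (List β)}
    (h : L.map List.length = M.map List.length) : tot L = tot M := by
  unfold tot
  have h2 := congrArg (List.map (fun n => n + 1)) h
  rw [List.map_map, List.map_map] at h2
  exact congrArg List.sum h2

theorem tot_lift_eq [DecidableEq K] (E : MEnv K) (t : ℕ) (F : List (List K))
    (gs : List (List K)) : tot (lift E t F gs) = tot gs := by
  apply tot_eq_of_map_length
  have h := map_length_hlift E t F gs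
  unfold lift
  rw [List.map_map]
  exact h

theorem tot_lift [DecidableEq K] (E : MEnv K) (t : ℕ) (F : List (List K)) (gs : List (List K)) :
    tot (lift E t F gs) ≤ tot gs := (tot_lift_eq E t F gs).le

theorem rows_lift [DecidableEq K] (E : MEnv K) (t : ℕ) (F : List (List K)) (gs : List (List K)) :
    ∀ R ∈ lift E t F gs, ∀ r ∈ R, r.length ≤ 2 ^ t := by
  cases t with
  | zero =>
    intro R hR r hr
    unfold lift at hR
    rw [hlift, map_fst_hinit] at hR
    obtain ⟨g, _, rfl⟩ := List.mem_map.1 hR
    unfold lift1 at hr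
    obtain ⟨x, _, rfl⟩ := List.mem_map.1 hr
    simp
  | succ t =>
    intro R hR r hr
    unfold lift at hR
    rw [hlift, map_fst_hinv] at hR
    obtain ⟨z, hz, rfl⟩ := List.mem_map.1 hR
    unfold hfac at hz
    obtain ⟨y, _, R, _, rfl⟩ := mem_zipWith hz
    exact (rows_badd (2 ^ (t + 1)) y.1 (brem E (2 ^ (t + 1)) (bmul E (2 ^ (t + 1)) R y.2) y.1)
      r hr).le

/-! ### Costs: compositional forms -/

section comps

noncomputable def hbmulCd : Cd := bmul_ex.choose
noncomputable def hbaddCd : Cd := badd_ex.choose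
noncomputable def hbsubCd : Cd := bsub_ex.choose
noncomputable def hbremCd : Cd := brem_ex.choose
noncomputable def hprodBCd : Cd := prodB_ex.choose
noncomputable def hcombBCd : Cd := combB_ex.choose
noncomputable def hremBCd : Cd := remB_ex.choose
noncomputable def hinvNCd : Cd := invN_ex.choose

variable {α : Type} [Enc K α]

instance compHBmul {e : α → MEnv K} {n : α → ℕ} {f g : α → List (List K)} {c1 c2 c d : Cd}
    {T1 T2 T T' : α → ℕ} [h1 : Comp K e c1 T1] [h2 : Comp K n c2 T2] [h : Comp K f c T]
    [h' : Comp K g d T'] : Comp K (fun x => bmul (e x) (n x) (f x) (g x))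
      (hbmulCd.comp (c1.pair (c2.pair (c.pair d))))
      (fun x => T1 x + (T2 x + (T x + T' x)) +
        ((f x).length + (g x).length + 1) * (n x + 1) * ((e x).1 + 1)) :=
  (bmul_ex.choose_spec K).comp (f := fun x => (e x, n x, f x, g x)) inferInstance

instance compHBadd {n : α → ℕ} {f g : α → List (List K)} {c2 c d : Cd}
    {T2 T T' : α → ℕ} [h2 : Comp K n c2 T2] [h : Comp K f c T]
    [h' : Comp K g d T'] : Comp K (fun x => badd (n x) (f x) (g x))
      (hbaddCd.comp (c2.pair (c.pair d)))
      (fun x => T2 x + (T x + T' x) + ((f x).length + (g x).length + 1) * (n x + 1)) :=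
  (badd_ex.choose_spec K).comp (f := fun x => (n x, f x, g x)) inferInstance

instance compHBsub {n : α → ℕ} {f g : α → List (List K)} {c2 c d : Cd}
    {T2 T T' : α → ℕ} [h2 : Comp K n c2 T2] [h : Comp K f c T]
    [h' : Comp K g d T'] : Comp K (fun x => bsub (n x) (f x) (g x))
      (hbsubCd.comp (c2.pair (c.pair d)))
      (fun x => T2 x + (T x + T' x) + ((f x).length + (g x).length + 1) * (n x + 1)) :=
  (bsub_ex.choose_spec K).comp (f := fun x => (n x, f x, g x)) inferInstance

instance compHBrem {e : α → MEnv K} {n : α → ℕ} {f g : α → List (List K)} {c1 c2 c d : Cd}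
    {T1 T2 T T' : α → ℕ} [h1 : Comp K e c1 T1] [h2 : Comp K n c2 T2] [h : Comp K f c T]
    [h' : Comp K g d T'] : Comp K (fun x => brem (e x) (n x) (f x) (g x))
      (hbremCd.comp (c1.pair (c2.pair (c.pair d))))
      (fun x => T1 x + (T2 x + (T x + T' x)) +
        ((f x).length + (g x).length + 1) * (n x + 1) * ((e x).1 + 1)) :=
  (brem_ex.choose_spec K).comp (f := fun x => (e x, n x, f x, g x)) inferInstance

instance compHProdB {e : α → MEnv K} {n : α → ℕ} {f : α → List (List (List K))} {c1 c2 c : Cd}
    {T1 T2 T : α → ℕ} [h1 : Comp K e c1 T1] [h2 : Comp K n c2 T2] [h : Comp K f c T] :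
    Comp K (fun x => prodB (e x) (n x) (f x)) (hprodBCd.comp (c1.pair (c2.pair c)))
      (fun x => T1 x + (T2 x + T x) +
        (tot (f x) + 1) * (n x + 1) * ((e x).1 + 1) * (Nat.clog 2 (f x).length + 1)) :=
  (prodB_ex.choose_spec K).comp (f := fun x => (e x, n x, f x)) inferInstance

instance compHCombB {e : α → MEnv K} {n : α → ℕ}
    {f : α → List (List (List K) × List (List K))} {c1 c2 c : Cd}
    {T1 T2 T : α → ℕ} [h1 : Comp K e c1 T1] [h2 : Comp K n c2 T2] [h : Comp K f c T] :
    Comp K (fun x => combB (e x) (n x) (f x)) (hcombBCd.comp (c1.pair (c2.pair c)))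
      (fun x => T1 x + (T2 x + T x) +
        (tot ((f x).map Prod.fst) + tot ((f x).map Prod.snd) + 1) * (n x + 1) *
          ((e x).1 + 1) * (Nat.clog 2 (f x).length + 1)) :=
  (combB_ex.choose_spec K).comp (f := fun x => (e x, n x, f x)) inferInstance

instance compHRemB {e : α → MEnv K} {n : α → ℕ} {h : α → List (List K)}
    {f : α → List (List (List K))} {c1 c2 c d : Cd}
    {T1 T2 T T' : α → ℕ} [h1 : Comp K e c1 T1] [h2 : Comp K n c2 T2] [h3 : Comp K h c T]
    [h4 : Comp K f d T'] :
    Comp K (fun x => remB (e x) (n x) (h x) (f x)) (hremBCd.comp (c1.pair (c2.pair (c.pair d))))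
      (fun x => T1 x + (T2 x + (T x + T' x)) +
        ((h x).length + tot (f x) + 1) * (n x + 1) * ((e x).1 + 1) *
          (Nat.clog 2 (f x).length + 1) ^ 2) :=
  (remB_ex.choose_spec K).comp (f := fun x => (e x, n x, h x, f x)) inferInstance

instance compHInvN [DecidableEq K] {f g : α → List K} {c d : Cd}
    {T T' : α → ℕ} [h1 : Comp K f c T] [h2 : Comp K g d T'] :
    Comp K (fun x => invN (f x) (g x)) (hinvNCd.comp (c.pair d))
      (fun x => T x + T' x + ((f x).length + (g x).length + 1) ^ 2) :=
  (invN_ex.choose_spec K).comp (f := fun x => (f x, g x)) inferInstance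

end comps

/-! ### Costs -/

/-- `x ≤ A`, in front of two factors -/
theorem mul_mul_le {x A W S : ℕ} (h : x ≤ A) : x * W * S ≤ A * W * S := by gcongr

theorem mul_le_mul_mul {x A W S : ℕ} (h : x ≤ A) (hS : 1 ≤ S) : x * W ≤ A * W * S := by
  calc x * W ≤ A * W := by gcongr
    _ = A * W * 1 := by ring
    _ ≤ A * W * S := by gcongr

theorem le_mul_mul {x A W S : ℕ} (h : x ≤ A) (hW : 1 ≤ W) (hS : 1 ≤ S) : x ≤ A * W * S := by
  calc x ≤ A := h
    _ = A * 1 * 1 := by ring
    _ ≤ A * W * S := by gcongr

theorem hfac1_ex : ∃ c, ∀ (K : Type) [Field K],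
    Comp K (fun z : MEnv K × ℕ × (List (List K) × List (List K)) × List (List K) =>
      hfac1 z.1 z.2.1 z.2.2.1 z.2.2.2) c
      (fun z => (z.2.2.1.1.length + z.2.2.1.2.length + z.2.2.2.length + 1) * (z.2.1 + 1) *
        (z.1.1 + 1)) := by
  apply Exists.intro
  intro K _
  have h : Comp K (fun z : MEnv K × ℕ × (List (List K) × List (List K)) × List (List K) =>
      (badd z.2.1 z.2.2.1.1 (brem z.1 z.2.1 (bmul z.1 z.2.1 z.2.2.2 z.2.2.1.2) z.2.2.1.1),
        z.2.2.1.2)) _ _ := inferInstance
  refine h.bigO 6 ?_
  rintro ⟨E, w, ⟨f, s⟩, R⟩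
  simp only [length_brem, length_bmul]
  set A := f.length + s.length + R.length + 1 with hA
  have h1 : (R.length + s.length + 1) * (w + 1) * (E.1 + 1) ≤ A * (w + 1) * (E.1 + 1) :=
    mul_mul_le (by omega)
  have h2 : (R.length + s.length - 1 + f.length + 1) * (w + 1) * (E.1 + 1) ≤
      A * (w + 1) * (E.1 + 1) := mul_mul_le (by omega)
  have h3 : (f.length + (f.length - 1) + 1) * (w + 1) ≤ (2 * A) * (w + 1) * (E.1 + 1) :=
    mul_le_mul_mul (by omega) (by omega)
  have h4 : (2 * A) * (w + 1) * (E.1 + 1) = 2 * (A * (w + 1) * (E.1 + 1)) := by ring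
  omega

theorem hinv1_ex : ∃ c, ∀ (K : Type) [Field K],
    Comp K (fun z : MEnv K × ℕ × (List (List K) × List (List K)) × List (List K) =>
      hinv1 z.1 z.2.1 z.2.2.1 z.2.2.2) c
      (fun z => (z.2.2.1.1.length + z.2.2.1.2.length + z.2.2.2.length + 1) * (z.2.1 + 1) *
        (z.1.1 + 1)) := by
  apply Exists.intro
  intro K _
  have h : Comp K (fun z : MEnv K × ℕ × (List (List K) × List (List K)) × List (List K) =>
      (z.2.2.1.1, brem z.1 z.2.1 (bmul z.1 z.2.1 z.2.2.1.2 (bsub z.2.1 [[1 + 1]]
        (bmul z.1 z.2.1 z.2.2.1.2 z.2.2.2))) z.2.2.1.1)) _ _ := inferInstance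
  refine h.bigO 12 ?_
  rintro ⟨E, w, ⟨f, s⟩, R⟩
  simp only [length_bmul, length_bsub, List.length_cons, List.length_nil]
  set A := f.length + s.length + R.length + 1 with hA
  have h1 : (s.length + R.length + 1) * (w + 1) * (E.1 + 1) ≤ A * (w + 1) * (E.1 + 1) :=
    mul_mul_le (by omega)
  have h2 : (0 + 1 + (s.length + R.length - 1) + 1) * (w + 1) ≤ (2 * A) * (w + 1) * (E.1 + 1) :=
    mul_le_mul_mul (by omega) (by omega)
  have h3 : (s.length + max (0 + 1) (s.length + R.length - 1) + 1) * (w + 1) * (E.1 + 1) ≤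
    (2 * A) * (w + 1) * (E.1 + 1) := mul_mul_le (by omega)
  have h4 : (s.length + max (0 + 1) (s.length + R.length - 1) - 1 + f.length + 1) * (w + 1) *
    (E.1 + 1) ≤ (2 * A) * (w + 1) * (E.1 + 1) := mul_mul_le (by omega)
  have h5 : (2 * A) * (w + 1) * (E.1 + 1) = 2 * (A * (w + 1) * (E.1 + 1)) := by ring
  omega

noncomputable def hfac1Cd : Cd := hfac1_ex.choose
noncomputable def hinv1Cd : Cd := hinv1_ex.choose

instance compHfac1 {α : Type} [Enc K α] {e : α → MEnv K} {n : α → ℕ}
    {f : α → List (List K) × List (List K)} {g : α → List (List K)} {c1 c2 c d : Cd}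
    {T1 T2 T T' : α → ℕ} [h1 : Comp K e c1 T1] [h2 : Comp K n c2 T2] [h : Comp K f c T]
    [h' : Comp K g d T'] : Comp K (fun x => hfac1 (e x) (n x) (f x) (g x))
      (hfac1Cd.comp (c1.pair (c2.pair (c.pair d))))
      (fun x => T1 x + (T2 x + (T x + T' x)) +
        ((f x).1.length + (f x).2.length + (g x).length + 1) * (n x + 1) * ((e x).1 + 1)) :=
  (hfac1_ex.choose_spec K).comp (f := fun x => (e x, n x, f x, g x)) inferInstance

instance compHinv1 {α : Type} [Enc K α] {e : α → MEnv K} {n : α → ℕ}
    {f : α → List (List K) × List (List K)} {g : α → List (List K)} {c1 c2 c d : Cd}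
    {T1 T2 T T' : α → ℕ} [h1 : Comp K e c1 T1] [h2 : Comp K n c2 T2] [h : Comp K f c T]
    [h' : Comp K g d T'] : Comp K (fun x => hinv1 (e x) (n x) (f x) (g x))
      (hinv1Cd.comp (c1.pair (c2.pair (c.pair d))))
      (fun x => T1 x + (T2 x + (T x + T' x)) +
        ((f x).1.length + (f x).2.length + (g x).length + 1) * (n x + 1) * ((e x).1 + 1)) :=
  (hinv1_ex.choose_spec K).comp (f := fun x => (e x, n x, f x, g x)) inferInstance

omit [Field K] in
theorem hsum_zip_le (L : List (List (List K) × List (List K))) (M : List (List (List K))) (B c : ℕ)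
    (hc : c ≤ B) :
    ((L.zip M).map (fun p => (p.1.1.length + p.1.2.length + p.2.length + 1) * B + c)).sum ≤
      (tot (L.map Prod.fst) + tot (L.map Prod.snd) + tot M) * B := by
  induction L generalizing M with
  | nil => simp
  | cons z L ih =>
    cases M with
    | nil => simp
    | cons R M =>
      have h1 := ih M
      simp only [List.zip_cons_cons, List.map_cons, List.sum_cons, tot] at h1 ⊢
      nlinarith

theorem hlength_le_tot {α : Type} (L : List (List α)) : L.length ≤ tot L := by
  unfold tot
  induction L with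
  | nil => simp
  | cons F L ih =>
    simp only [List.map_cons, List.sum_cons, List.length_cons]
    omega

theorem mul4_le {x A W S G : ℕ} (h : x ≤ A) : x * W * S * G ≤ A * W * S * G := by gcongr

theorem mul4_le2 {x A W S G : ℕ} (h : x ≤ A) (hS : 1 ≤ S) (hG : 1 ≤ G) :
    x * W ≤ A * W * S * G := by
  calc x * W ≤ A * W := by gcongr
    _ = A * W * 1 * 1 := by ring
    _ ≤ A * W * S * G := by gcongr

theorem mul4_le3 {x A W S G : ℕ} (h : x ≤ A) (hW : 1 ≤ W) (hS : 1 ≤ S) (hG : 1 ≤ G) :
    x ≤ A * W * S * G := by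
  calc x ≤ A := h
    _ = A * 1 * 1 * 1 := by ring
    _ ≤ A * W * S * G := by gcongr

theorem herr_ex : ∃ c, ∀ (K : Type) [Field K],
    Comp K (fun z : MEnv K × ℕ × List (List K) × List (List (List K)) =>
      herr z.1 z.2.1 z.2.2.1 z.2.2.2) c
      (fun z => (z.2.2.1.length + tot z.2.2.2 + 1) * (z.2.1 + 1) * (z.1.1 + 1) *
        (Nat.clog 2 z.2.2.2.length + 1)) := by
  apply Exists.intro
  intro K _
  have h : Comp K (fun z : MEnv K × ℕ × List (List K) × List (List (List K)) =>
      (bsub z.2.1 z.2.2.1 (prodB z.1 z.2.1 z.2.2.2)).take ((prodB z.1 z.2.1 z.2.2.2).length - 1))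
      _ _ := inferInstance
  refine h.bigO 8 ?_
  rintro ⟨E, w, F, Fs⟩
  have hl := length_prodB_le E w Fs
  simp only
  set A := F.length + tot Fs + 1 with hA
  set G := Nat.clog 2 Fs.length + 1 with hG
  have h1 : (tot Fs + 1) * (w + 1) * (E.1 + 1) * G ≤ A * (w + 1) * (E.1 + 1) * G :=
    mul4_le (by omega)
  have h2 : (F.length + (prodB E w Fs).length + 1) * (w + 1) ≤
      (2 * A) * (w + 1) * (E.1 + 1) * G := mul4_le2 (by omega) (by omega) (by omega)
  have h3 : (prodB E w Fs).length ≤ A * (w + 1) * (E.1 + 1) * G :=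
    mul4_le3 (by omega) (by omega) (by omega) (by omega)
  have h5 : (2 * A) * (w + 1) * (E.1 + 1) * G = 2 * (A * (w + 1) * (E.1 + 1) * G) := by ring
  omega

theorem length_herr_le (E : MEnv K) (w : ℕ) (F : List (List K)) (Fs : List (List (List K))) :
    (herr E w F Fs).length ≤ tot Fs := by
  unfold herr
  rw [List.length_take]
  have := length_prodB_le E w Fs
  omega

noncomputable def herrCd : Cd := herr_ex.choose

instance compHerr {α : Type} [Enc K α] {e : α → MEnv K} {n : α → ℕ} {h : α → List (List K)}
    {f : α → List (List (List K))} {c1 c2 c d : Cd}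
    {T1 T2 T T' : α → ℕ} [h1 : Comp K e c1 T1] [h2 : Comp K n c2 T2] [h3 : Comp K h c T]
    [h4 : Comp K f d T'] :
    Comp K (fun x => herr (e x) (n x) (h x) (f x)) (herrCd.comp (c1.pair (c2.pair (c.pair d))))
      (fun x => T1 x + (T2 x + (T x + T' x)) +
        ((h x).length + tot (f x) + 1) * (n x + 1) * ((e x).1 + 1) *
          (Nat.clog 2 (f x).length + 1)) :=
  (herr_ex.choose_spec K).comp (f := fun x => (e x, n x, h x, f x)) inferInstance

theorem hfac_ex : ∃ c, ∀ (K : Type) [Field K],
    Comp K (fun z : MEnv K × ℕ × List (List K) × List (List (List K) × List (List K)) =>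
      hfac z.1 z.2.1 z.2.2.1 z.2.2.2) c
      (fun z => (z.2.2.1.length + tot (z.2.2.2.map Prod.fst) + tot (z.2.2.2.map Prod.snd) + 1) *
        (z.2.1 + 1) * (z.1.1 + 1) * (Nat.clog 2 z.2.2.2.length + 1) ^ 2) := by
  apply Exists.intro
  intro K _
  have h : Comp K (fun z : MEnv K × ℕ × List (List K) × List (List (List K) × List (List K)) =>
      List.zipWith (hfac1 z.1 z.2.1) z.2.2.2 (remB z.1 z.2.1 (herr z.1 z.2.1 z.2.2.1
        (z.2.2.2.map Prod.fst)) (z.2.2.2.map Prod.fst))) _ _ := inferInstance
  refine h.bigO 8 ?_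
  rintro ⟨E, w, F, L⟩
  have hl1 := length_herr_le E w F (L.map Prod.fst)
  have hl2 := tot_remB E w (herr E w F (L.map Prod.fst)) (L.map Prod.fst)
  have hl3 := hlength_le_tot (L.map Prod.fst)
  rw [List.length_map] at hl3
  have hz := hsum_zip_le L (remB E w (herr E w F (L.map Prod.fst)) (L.map Prod.fst))
    ((w + 1) * (E.1 + 1)) 1 (by nlinarith [Nat.zero_le w, Nat.zero_le E.1])
  simp only [zero_add, add_zero, List.map_const', List.sum_replicate, List.length_map,
    smul_eq_mul, mul_one, ← mul_assoc] at hz ⊢
  set t1 := tot (L.map Prod.fst) with ht1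
  set t2 := tot (L.map Prod.snd) with ht2
  set A := F.length + t1 + t2 + 1 with hA
  set G := Nat.clog 2 L.length + 1 with hG
  have hG1 : 1 ≤ G := by omega
  have hG2 : 1 ≤ G ^ 2 := Nat.one_le_pow _ _ hG1
  have hGG : G ≤ G ^ 2 := by nlinarith
  have h1 : (F.length + t1 + 1) * (w + 1) * (E.1 + 1) * G ≤ A * (w + 1) * (E.1 + 1) * G ^ 2 := by
    calc (F.length + t1 + 1) * (w + 1) * (E.1 + 1) * G ≤ A * (w + 1) * (E.1 + 1) * G :=
          mul4_le (by omega)
      _ ≤ A * (w + 1) * (E.1 + 1) * G ^ 2 := by gcongr
  have h2 : ((herr E w F (L.map Prod.fst)).length + t1 + 1) * (w + 1) * (E.1 + 1) * G ^ 2 ≤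
      (2 * A) * (w + 1) * (E.1 + 1) * G ^ 2 := mul4_le (by omega)
  have h3 : L.length ≤ A * (w + 1) * (E.1 + 1) * G ^ 2 :=
    mul4_le3 (by omega) (by omega) (by omega) hG2
  have h4 : (t1 + t2 + tot (remB E w (herr E w F (L.map Prod.fst)) (L.map Prod.fst))) *
      (w + 1) * (E.1 + 1) ≤ (2 * A) * (w + 1) * (E.1 + 1) * G ^ 2 := by
    calc (t1 + t2 + tot (remB E w (herr E w F (L.map Prod.fst)) (L.map Prod.fst))) *
      (w + 1) * (E.1 + 1) ≤ (2 * A) * (w + 1) * (E.1 + 1) := mul_mul_le (by omega)
      _ = (2 * A) * (w + 1) * (E.1 + 1) * 1 := by ring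
      _ ≤ (2 * A) * (w + 1) * (E.1 + 1) * G ^ 2 := by gcongr
  have h5 : (2 * A) * (w + 1) * (E.1 + 1) * G ^ 2 = 2 * (A * (w + 1) * (E.1 + 1) * G ^ 2) := by
    ring
  omega

noncomputable def hfacCd : Cd := hfac_ex.choose

instance compHfac {α : Type} [Enc K α] {e : α → MEnv K} {n : α → ℕ} {h : α → List (List K)}
    {f : α → List (List (List K) × List (List K))} {c1 c2 c d : Cd}
    {T1 T2 T T' : α → ℕ} [h1 : Comp K e c1 T1] [h2 : Comp K n c2 T2] [h3 : Comp K h c T]
    [h4 : Comp K f d T'] :
    Comp K (fun x => hfac (e x) (n x) (h x) (f x)) (hfacCd.comp (c1.pair (c2.pair (c.pair d))))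
      (fun x => T1 x + (T2 x + (T x + T' x)) +
        ((h x).length + tot ((f x).map Prod.fst) + tot ((f x).map Prod.snd) + 1) *
        (n x + 1) * ((e x).1 + 1) * (Nat.clog 2 (f x).length + 1) ^ 2) :=
  (hfac_ex.choose_spec K).comp (f := fun x => (e x, n x, h x, f x)) inferInstance

theorem sum_map_le_mul_tot {α : Type} (Fs : List (List α)) (f : List α → ℕ) (c : ℕ)
    (h : ∀ F, f F ≤ c * (F.length + 1)) : (Fs.map f).sum ≤ c * tot Fs := by
  unfold tot
  induction Fs with
  | nil => simp
  | cons F Fs ih =>
    have := h F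
    simp only [List.map_cons, List.sum_cons]
    rw [Nat.mul_add]
    omega

theorem hcomb_ex : ∃ c, ∀ (K : Type) [Field K],
    Comp K (fun z : MEnv K × ℕ × List (List (List K)) => hcomb z.1 z.2.1 z.2.2) c
      (fun z => (tot z.2.2 + 1) * (z.2.1 + 1) * (z.1.1 + 1) *
        (Nat.clog 2 z.2.2.length + 1)) := by
  apply Exists.intro
  intro K _
  have h : Comp K (fun z : MEnv K × ℕ × List (List (List K)) =>
      (combB z.1 z.2.1 (z.2.2.map (fun F => (([[1]] : List (List K)).take (F.length - 1), F)))).take
        ((z.2.2.map (fun F => F.length + 1)).sum)) _ _ := inferInstance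
  refine h.bigO 8 ?_
  rintro ⟨E, w, Fs⟩
  simp only [zero_add, add_zero, List.length_map, List.map_map]
  have e1 : (Fs.map (fun b => b.length + 1)).sum = tot Fs := rfl
  have e2 : tot (Fs.map (Prod.snd ∘ fun F => (List.take (F.length - 1) [[(1 : K)]], F))) =
      tot Fs := by
    have : (Prod.snd ∘ fun F : List (List K) => (List.take (F.length - 1) [[(1 : K)]], F)) =
      id := rfl
    rw [this, List.map_id]
  have h1 : (Fs.map (fun b => b.length + (b.length - 1) + 1)).sum ≤ 2 * tot Fs :=
    sum_map_le_mul_tot Fs _ 2 fun F => by omega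
  have h2 : tot (Fs.map (Prod.fst ∘ fun F => (List.take (F.length - 1) [[(1 : K)]], F))) ≤
      1 * tot Fs := by
    rw [tot, List.map_map]
    refine sum_map_le_mul_tot Fs _ 1 fun F => ?_
    simp only [Function.comp, List.length_take, List.length_cons, List.length_nil]
    omega
  have h3 := hlength_le_tot Fs
  rw [e1, e2]
  set t := tot Fs with ht
  set G := Nat.clog 2 Fs.length + 1 with hG
  have h4 : (tot (Fs.map (Prod.fst ∘ fun F => (List.take (F.length - 1) [[(1 : K)]], F))) +
      t + 1) * (w + 1) * (E.1 + 1) * G ≤ (2 * (t + 1)) * (w + 1) * (E.1 + 1) * G :=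
    mul4_le (by omega)
  have h5 : t ≤ (t + 1) * (w + 1) * (E.1 + 1) * G :=
    mul4_le3 (by omega) (by omega) (by omega) (by omega)
  have h6 : (2 * (t + 1)) * (w + 1) * (E.1 + 1) * G = 2 * ((t + 1) * (w + 1) * (E.1 + 1) * G) := by
    ring
  omega

noncomputable def hcombCd : Cd := hcomb_ex.choose

instance compHcomb {α : Type} [Enc K α] {e : α → MEnv K} {n : α → ℕ}
    {f : α → List (List (List K))} {c1 c2 c : Cd}
    {T1 T2 T : α → ℕ} [h1 : Comp K e c1 T1] [h2 : Comp K n c2 T2] [h : Comp K f c T] :
    Comp K (fun x => hcomb (e x) (n x) (f x)) (hcombCd.comp (c1.pair (c2.pair c)))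
      (fun x => T1 x + (T2 x + T x) +
        (tot (f x) + 1) * (n x + 1) * ((e x).1 + 1) * (Nat.clog 2 (f x).length + 1)) :=
  (hcomb_ex.choose_spec K).comp (f := fun x => (e x, n x, f x)) inferInstance

theorem length_hcomb_le (E : MEnv K) (w : ℕ) (Fs : List (List (List K))) :
    (hcomb E w Fs).length ≤ tot Fs := by
  unfold hcomb
  rw [List.length_take]
  exact min_le_left _ _

theorem hinv_ex : ∃ c, ∀ (K : Type) [Field K],
    Comp K (fun z : MEnv K × ℕ × List (List (List K) × List (List K)) =>
      hinv z.1 z.2.1 z.2.2) c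
      (fun z => (tot (z.2.2.map Prod.fst) + tot (z.2.2.map Prod.snd) + 1) *
        (z.2.1 + 1) * (z.1.1 + 1) * (Nat.clog 2 z.2.2.length + 1) ^ 2) := by
  apply Exists.intro
  intro K _
  have h : Comp K (fun z : MEnv K × ℕ × List (List (List K) × List (List K)) =>
      List.zipWith (hinv1 z.1 z.2.1) z.2.2 (remB z.1 z.2.1 (hcomb z.1 z.2.1
        (z.2.2.map Prod.fst)) (z.2.2.map Prod.fst))) _ _ := inferInstance
  refine h.bigO 8 ?_
  rintro ⟨E, w, L⟩
  have hl1 := length_hcomb_le E w (L.map Prod.fst)
  have hl2 := tot_remB E w (hcomb E w (L.map Prod.fst)) (L.map Prod.fst)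
  have hl3 := hlength_le_tot (L.map Prod.fst)
  rw [List.length_map] at hl3
  have hz := hsum_zip_le L (remB E w (hcomb E w (L.map Prod.fst)) (L.map Prod.fst))
    ((w + 1) * (E.1 + 1)) 1 (by nlinarith [Nat.zero_le w, Nat.zero_le E.1])
  simp only [zero_add, add_zero, List.map_const', List.sum_replicate, List.length_map,
    smul_eq_mul, mul_one, ← mul_assoc] at hz ⊢
  set t1 := tot (L.map Prod.fst) with ht1
  set t2 := tot (L.map Prod.snd) with ht2
  set A := t1 + t2 + 1 with hA
  set G := Nat.clog 2 L.length + 1 with hG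
  have hG1 : 1 ≤ G := by omega
  have hG2 : 1 ≤ G ^ 2 := Nat.one_le_pow _ _ hG1
  have hGG : G ≤ G ^ 2 := by nlinarith
  have h1 : (t1 + 1) * (w + 1) * (E.1 + 1) * G ≤ A * (w + 1) * (E.1 + 1) * G ^ 2 := by
    calc (t1 + 1) * (w + 1) * (E.1 + 1) * G ≤ A * (w + 1) * (E.1 + 1) * G :=
          mul4_le (by omega)
      _ ≤ A * (w + 1) * (E.1 + 1) * G ^ 2 := by gcongr
  have h2 : ((hcomb E w (L.map Prod.fst)).length + t1 + 1) * (w + 1) * (E.1 + 1) * G ^ 2 ≤
      (2 * A) * (w + 1) * (E.1 + 1) * G ^ 2 := mul4_le (by omega)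
  have h3 : L.length ≤ A * (w + 1) * (E.1 + 1) * G ^ 2 :=
    mul4_le3 (by omega) (by omega) (by omega) hG2
  have h4 : (t1 + t2 + tot (remB E w (hcomb E w (L.map Prod.fst)) (L.map Prod.fst))) *
      (w + 1) * (E.1 + 1) ≤ (2 * A) * (w + 1) * (E.1 + 1) * G ^ 2 := by
    calc (t1 + t2 + tot (remB E w (hcomb E w (L.map Prod.fst)) (L.map Prod.fst))) *
      (w + 1) * (E.1 + 1) ≤ (2 * A) * (w + 1) * (E.1 + 1) := mul_mul_le (by omega)
      _ = (2 * A) * (w + 1) * (E.1 + 1) * 1 := by ring
      _ ≤ (2 * A) * (w + 1) * (E.1 + 1) * G ^ 2 := by gcongr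
  have h5 : (2 * A) * (w + 1) * (E.1 + 1) * G ^ 2 = 2 * (A * (w + 1) * (E.1 + 1) * G ^ 2) := by
    ring
  omega

noncomputable def hinvCd : Cd := hinv_ex.choose

instance compHinv {α : Type} [Enc K α] {e : α → MEnv K} {n : α → ℕ}
    {f : α → List (List (List K) × List (List K))} {c1 c2 c : Cd}
    {T1 T2 T : α → ℕ} [h1 : Comp K e c1 T1] [h2 : Comp K n c2 T2] [h : Comp K f c T] :
    Comp K (fun x => hinv (e x) (n x) (f x)) (hinvCd.comp (c1.pair (c2.pair c)))
      (fun x => T1 x + (T2 x + T x) +
        (tot ((f x).map Prod.fst) + tot ((f x).map Prod.snd) + 1) *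
        (n x + 1) * ((e x).1 + 1) * (Nat.clog 2 (f x).length + 1) ^ 2) :=
  (hinv_ex.choose_spec K).comp (f := fun x => (e x, n x, f x)) inferInstance

theorem hinit1_ex : ∃ c, ∀ (K : Type) [Field K] [DecidableEq K],
    Comp K (fun z : List K × List (List K) => hinit1 z.1 z.2) c
      (fun z => (z.1.length + z.2.length + 1) ^ 2) := by
  apply Exists.intro
  intro K _ _
  have h : Comp K (fun z : List K × List (List K) => (z.1.map (fun c => [c]),
      (invN (z.2.map (fun r => r.headD 0)) z.1).map (fun c => [c]))) _ _ := inferInstance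
  refine h.bigO 8 ?_
  rintro ⟨g, R⟩
  have hl := length_invN (R.map (fun r => r.headD 0)) g
  simp only [zero_add, add_zero, List.map_const', List.sum_replicate, List.length_map,
    smul_eq_mul, mul_one]
  nlinarith

noncomputable def hinit1Cd : Cd := hinit1_ex.choose

instance compHinit1 [DecidableEq K] {α : Type} [Enc K α] {f : α → List K}
    {g : α → List (List K)} {c d : Cd}
    {T T' : α → ℕ} [h1 : Comp K f c T] [h2 : Comp K g d T'] :
    Comp K (fun x => hinit1 (f x) (g x)) (hinit1Cd.comp (c.pair d))
      (fun x => T x + T' x + ((f x).length + (g x).length + 1) ^ 2) :=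
  (hinit1_ex.choose_spec K).comp (f := fun x => (f x, g x)) inferInstance

omit [Field K] in
theorem sum_zip_sq_le (L : List (List K)) (M : List (List (List K))) :
    ((L.zip M).map (fun p => (p.1.length + p.2.length + 1) ^ 2 + 1)).sum ≤
      (tot L + tot M) ^ 2 := by
  induction L generalizing M with
  | nil => simp
  | cons z L ih =>
    cases M with
    | nil => simp
    | cons R M =>
      have h1 := ih M
      simp only [List.zip_cons_cons, List.map_cons, List.sum_cons, tot] at h1 ⊢
      set a := (L.map (fun F => F.length + 1)).sum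
      set b := (M.map (fun F => F.length + 1)).sum
      refine le_trans (Nat.add_le_add_left h1 _) ?_
      have h2 : z.length + 1 + a + (R.length + 1 + b) = (z.length + R.length + 2) + (a + b) := by
        ring
      rw [h2]
      nlinarith [Nat.zero_le (a + b), Nat.zero_le (z.length + R.length)]

theorem hinit_ex : ∃ c, ∀ (K : Type) [Field K] [DecidableEq K],
    Comp K (fun z : MEnv K × List (List K) => hinit z.1 z.2) c
      (fun z => (tot z.2 + 1) * (z.1.1 + 1) * (Nat.clog 2 z.2.length + 1) ^ 2 +
        (tot z.2 + 1) ^ 2) := by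
  apply Exists.intro
  intro K _ _
  have h : Comp K (fun z : MEnv K × List (List K) => List.zipWith hinit1 z.2
      (remB z.1 1 (hcomb z.1 1 (z.2.map (fun g => g.map (fun c => [c]))))
        (z.2.map (fun g => g.map (fun c => [c]))))) _ _ := inferInstance
  refine h.bigO 20 ?_
  rintro ⟨E, gs⟩
  have e0 : (gs.map (fun g => g.map (fun c => [c]))) = gs.map lift1 := rfl
  simp only [zero_add, add_zero, List.map_const', List.sum_replicate, List.length_map,
    smul_eq_mul, mul_one]
  rw [e0]
  have hl1 := length_hcomb_le E 1 (gs.map lift1)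
  have hl2 := tot_remB E 1 (hcomb E 1 (gs.map lift1)) (gs.map lift1)
  have hl3 := hlength_le_tot gs
  have hz := sum_zip_sq_le gs (remB E 1 (hcomb E 1 (gs.map lift1)) (gs.map lift1))
  rw [tot_map_lift1] at hl1 hl2 ⊢
  have e1 : (gs.map (fun b => b.length + 1)).sum = tot gs := rfl
  rw [e1]
  set t := tot gs with ht
  set G := Nat.clog 2 gs.length + 1 with hG
  have hG1 : 1 ≤ G := by omega
  have hGG : G ≤ G ^ 2 := by nlinarith
  have h1 : (t + 1) * (1 + 1) * (E.1 + 1) * G ≤ 2 * ((t + 1) * (E.1 + 1) * G ^ 2) := by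
    calc (t + 1) * (1 + 1) * (E.1 + 1) * G ≤ (t + 1) * (1 + 1) * (E.1 + 1) * G ^ 2 := by gcongr
      _ = 2 * ((t + 1) * (E.1 + 1) * G ^ 2) := by ring
  have h2 : ((hcomb E 1 (gs.map lift1)).length + t + 1) * (1 + 1) * (E.1 + 1) * G ^ 2 ≤
      4 * ((t + 1) * (E.1 + 1) * G ^ 2) := by
    calc ((hcomb E 1 (gs.map lift1)).length + t + 1) * (1 + 1) * (E.1 + 1) * G ^ 2
        ≤ (2 * (t + 1)) * (1 + 1) * (E.1 + 1) * G ^ 2 := mul4_le (by omega)
      _ = 4 * ((t + 1) * (E.1 + 1) * G ^ 2) := by ring
  have h3 : (t + tot (remB E 1 (hcomb E 1 (gs.map lift1)) (gs.map lift1))) ^ 2 ≤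
      4 * (t + 1) ^ 2 := by
    calc (t + tot (remB E 1 (hcomb E 1 (gs.map lift1)) (gs.map lift1))) ^ 2
        ≤ (2 * (t + 1)) ^ 2 := by gcongr; omega
      _ = 4 * (t + 1) ^ 2 := by ring
  have h4 : t ≤ (t + 1) ^ 2 := by nlinarith
  omega

noncomputable def hinitCd : Cd := hinit_ex.choose

instance compHinit [DecidableEq K] {α : Type} [Enc K α] {f : α → MEnv K}
    {g : α → List (List K)} {c d : Cd}
    {T T' : α → ℕ} [h1 : Comp K f c T] [h2 : Comp K g d T'] :
    Comp K (fun x => hinit (f x) (g x)) (hinitCd.comp (c.pair d))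
      (fun x => T x + T' x + ((tot (g x) + 1) * ((f x).1 + 1) *
        (Nat.clog 2 (g x).length + 1) ^ 2 + (tot (g x) + 1) ^ 2)) :=
  (hinit_ex.choose_spec K).comp (f := fun x => (f x, g x)) inferInstance

/-! ### Sizes of the intermediate results -/

theorem length_hlift [DecidableEq K] (E : MEnv K) (t : ℕ) (F : List (List K))
    (gs : List (List K)) : (hlift E t F gs).length = gs.length := by
  have h := length_lift E t F gs
  unfold lift at h
  rwa [List.length_map] at h

theorem tot_fst_hlift [DecidableEq K] (E : MEnv K) (t : ℕ) (F : List (List K))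
    (gs : List (List K)) : tot ((hlift E t F gs).map Prod.fst) = tot gs := tot_lift_eq E t F gs

theorem tot_snd_hinv_le (E : MEnv K) (w : ℕ) (L : List (List (List K) × List (List K))) :
    tot ((hinv E w L).map Prod.snd) ≤ tot (L.map Prod.fst) := by
  have h : (hinv E w L).map (fun z => z.2.length) = L.map (fun z => z.1.length - 1) :=
    map_zipWith_eq (B := fun _ _ => True)
      (forall₂_true_of_length (by rw [length_remB, List.length_map])) fun z _ R _ => by
        show (brem E w (bmul E w z.2 (bsub w [[1 + 1]] (bmul E w z.2 R))) z.1).length = _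
        rw [length_brem]
  have h2 : tot ((hinv E w L).map Prod.snd) =
      (((hinv E w L).map (fun z => z.2.length)).map (fun n => n + 1)).sum := by
    rw [tot, List.map_map, List.map_map]
    rfl
  rw [h2, h, tot, List.map_map, List.map_map]
  apply List.sum_le_sum
  intro z _
  simp only [Function.comp]
  omega

theorem tot_snd_hinit_le [DecidableEq K] (E : MEnv K) (gs : List (List K)) :
    tot ((hinit E gs).map Prod.snd) ≤ tot gs := by
  unfold hinit
  have hlen : gs.length = (remB E 1 (hcomb E 1 (gs.map lift1)) (gs.map lift1)).length := by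
    rw [length_remB, List.length_map]
  generalize remB E 1 (hcomb E 1 (gs.map lift1)) (gs.map lift1) = M at hlen
  clear E
  induction gs generalizing M with
  | nil => simp [tot]
  | cons g gs ih =>
    cases M with
    | nil => simp at hlen
    | cons R M =>
      have h1 := ih M (by simpa using hlen)
      rw [List.zipWith_cons_cons]
      unfold tot at h1 ⊢
      simp only [List.map_cons, List.sum_cons] at h1 ⊢
      have h2 : (hinit1 g R).2.length ≤ g.length := by
        show (lift1 (invN (R.map (fun r => r.headD 0)) g)).length ≤ g.length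
        rw [length_lift1]
        exact length_invN _ _
      omega

theorem tot_snd_hlift_le [DecidableEq K] (E : MEnv K) (t : ℕ) (F : List (List K))
    (gs : List (List K)) : tot ((hlift E t F gs).map Prod.snd) ≤ tot gs := by
  cases t with
  | zero => exact tot_snd_hinit_le E gs
  | succ t =>
    rw [hlift]
    refine (tot_snd_hinv_le E _ _).trans ?_
    have h := map_length_hfac E (2 ^ (t + 1)) F (hlift E t F gs)
    rw [map_length_hlift] at h
    refine (tot_eq_of_map_length ?_).le
    rw [List.map_map]
    exact h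

theorem length_hfac (E : MEnv K) (w : ℕ) (F : List (List K))
    (L : List (List (List K) × List (List K))) : (hfac E w F L).length = L.length := by
  have h := congrArg List.length (map_snd_hfac E w F L)
  rwa [List.length_map, List.length_map] at h

theorem tot_fst_hfac (E : MEnv K) (w : ℕ) (F : List (List K))
    (L : List (List (List K) × List (List K))) :
    tot ((hfac E w F L).map Prod.fst) = tot (L.map Prod.fst) := by
  apply tot_eq_of_map_length
  rw [List.map_map, List.map_map]
  exact map_length_hfac E w F L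

theorem hlift_ex : ∃ c, ∀ (K : Type) [Field K] [DecidableEq K],
    Comp K (fun z : MEnv K × ℕ × List (List K) × List (List K) =>
      hlift z.1 z.2.1 z.2.2.1 z.2.2.2) c
      (fun z => (z.2.2.1.length + tot z.2.2.2 + 1) * 2 ^ z.2.1 * (z.1.1 + 1) *
        (Nat.clog 2 z.2.2.2.length + 1) ^ 2 * (z.2.1 + 1) + (tot z.2.2.2 + 1) ^ 2) := by
  apply Exists.intro
  intro K _ _
  refine (Comp.rec1 (K := K)
    (isLeaf := fun z : MEnv K × ℕ × List (List K) × List (List K) => decide (z.2.1 = 0))
    (leaf := fun z => hinit z.1 z.2.2.2)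
    (next := fun z => (z.1, z.2.1 - 1, z.2.2.1, z.2.2.2))
    (join := fun z r => hinv z.1 (2 ^ z.2.1) (hfac z.1 (2 ^ z.2.1) z.2.2.1 r))
    (T := fun z => 100 * ((z.2.2.1.length + tot z.2.2.2 + 1) * 2 ^ z.2.1 * (z.1.1 + 1) *
        (Nat.clog 2 z.2.2.2.length + 1) ^ 2 * (z.2.1 + 1) + (tot z.2.2.2 + 1) ^ 2))
    (fun z => z.2.1) ?_ ?_ ?_ ?_ ?_).bigO 100 ?_
  · rintro ⟨E, t, F, gs⟩ h
    have : t = 0 := by simpa using h
    subst this
    rfl
  · rintro ⟨E, t, F, gs⟩ h
    cases t with
    | zero => simp at h
    | succ t => rfl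
  · rintro ⟨E, t, F, gs⟩ h
    cases t with
    | zero => simp at h
    | succ t => simp
  · rintro ⟨E, t, F, gs⟩ h
    have : t = 0 := by simpa using h
    subst this
    simp only [zero_add, pow_zero, mul_one]
    set V := (Nat.clog 2 gs.length + 1) ^ 2
    have h1 : (tot gs + 1) * (E.1 + 1) * V ≤ (F.length + tot gs + 1) * (E.1 + 1) * V :=
      mul_mul_le (by omega)
    omega
  · rintro ⟨E, t, F, gs⟩ h
    cases t with
    | zero => simp at h
    | succ t =>
      simp only [Nat.add_sub_cancel]
      rw [length_hfac, length_hlift, map_snd_hfac, tot_fst_hfac, tot_fst_hlift]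
      have h1 := tot_snd_hlift_le E t F gs
      set u := tot ((hlift E t F gs).map Prod.snd)
      set V := (Nat.clog 2 gs.length + 1) ^ 2 with hV
      have hV1 : 1 ≤ V := Nat.one_le_pow _ _ (by omega)
      obtain ⟨p, hp⟩ : ∃ p, p = 2 ^ t := ⟨_, rfl⟩
      have hp1 : 1 ≤ p := by rw [hp]; exact Nat.one_le_two_pow
      have e1 : 2 ^ (t + 1) = 2 * p := by rw [hp]; ring
      rw [e1, ← hp]
      set Y := F.length + tot gs + 1 with hY
      set Z := (tot gs + 1) ^ 2
      set X := Y * p * (E.1 + 1) * V with hX
      have h2 : (F.length + tot gs + u + 1) * (2 * p + 1) * (E.1 + 1) * V ≤ 6 * X := by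
        calc (F.length + tot gs + u + 1) * (2 * p + 1) * (E.1 + 1) * V
            ≤ (2 * Y) * (3 * p) * (E.1 + 1) * V := by
              gcongr
              · omega
              · omega
          _ = 6 * X := by rw [hX]; ring
      have h3 : (tot gs + u + 1) * (2 * p + 1) * (E.1 + 1) * V ≤ 6 * X := by
        calc (tot gs + u + 1) * (2 * p + 1) * (E.1 + 1) * V
            ≤ (2 * Y) * (3 * p) * (E.1 + 1) * V := by
              gcongr
              · omega
              · omega
          _ = 6 * X := by rw [hX]; ring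
      have h4 : p ≤ X := by
        calc p = 1 * p * 1 * 1 := by ring
          _ ≤ Y * p * (E.1 + 1) * V := by
              gcongr
              · omega
              · omega
      have h5 : Y * (2 * p) * (E.1 + 1) * V * (t + 1 + 1) = X * (t + 1) + X * (t + 3) := by
        rw [hX]; ring
      have h6 : X * (t + 3) = X * t + 3 * X := by ring
      have h7 : Y * p * (E.1 + 1) * V * (t + 1) = X * (t + 1) := by rw [hX]
      rw [h5, h7, h6]
      have h8 := Nat.zero_le (X * t)
      omega
  · intro z
    omega

noncomputable def hliftCd : Cd := hlift_ex.choose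

instance compHlift [DecidableEq K] {α : Type} [Enc K α] {e : α → MEnv K} {n : α → ℕ}
    {f : α → List (List K)} {g : α → List (List K)} {c1 c2 c d : Cd}
    {T1 T2 T T' : α → ℕ} [h1 : Comp K e c1 T1] [h2 : Comp K n c2 T2] [h3 : Comp K f c T]
    [h4 : Comp K g d T'] :
    Comp K (fun x => hlift (e x) (n x) (f x) (g x)) (hliftCd.comp (c1.pair (c2.pair (c.pair d))))
      (fun x => T1 x + (T2 x + (T x + T' x)) +
        (((f x).length + tot (g x) + 1) * 2 ^ n x * ((e x).1 + 1) *
        (Nat.clog 2 (g x).length + 1) ^ 2 * (n x + 1) + (tot (g x) + 1) ^ 2)) :=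
  (hlift_ex.choose_spec K).comp (f := fun x => (e x, n x, f x, g x)) inferInstance

theorem lift_ex : ∃ c, ∀ (K : Type) [Field K] [DecidableEq K],
    Comp K (fun z : MEnv K × ℕ × List (List K) × List (List K) =>
      lift z.1 z.2.1 z.2.2.1 z.2.2.2) c
      (fun z => (z.2.2.1.length + tot z.2.2.2 + 1) * 2 ^ z.2.1 * (z.1.1 + 1) *
        (Nat.clog 2 z.2.2.2.length + 1) ^ 2 * (z.2.1 + 1) + (tot z.2.2.2 + 1) ^ 2) := by
  apply Exists.intro
  intro K _ _
  have h : Comp K (fun z : MEnv K × ℕ × List (List K) × List (List K) =>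
      (hlift z.1 z.2.1 z.2.2.1 z.2.2.2).map Prod.fst) _ _ := inferInstance
  refine h.bigO 2 ?_
  rintro ⟨E, t, F, gs⟩
  simp only [zero_add, add_zero, List.map_const', List.sum_replicate, smul_eq_mul, mul_one]
  rw [length_hlift]
  have h1 := hlength_le_tot gs
  have h2 : tot gs ≤ (tot gs + 1) ^ 2 := by nlinarith
  omega

noncomputable def liftCd : Cd := lift_ex.choose

instance compLift [DecidableEq K] {α : Type} [Enc K α] {e : α → MEnv K} {n : α → ℕ}
    {f : α → List (List K)} {g : α → List (List K)} {c1 c2 c d : Cd}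
    {T1 T2 T T' : α → ℕ} [h1 : Comp K e c1 T1] [h2 : Comp K n c2 T2] [h3 : Comp K f c T]
    [h4 : Comp K g d T'] :
    Comp K (fun x => lift (e x) (n x) (f x) (g x)) (liftCd.comp (c1.pair (c2.pair (c.pair d))))
      (fun x => T1 x + (T2 x + (T x + T' x)) +
        (((f x).length + tot (g x) + 1) * 2 ^ n x * ((e x).1 + 1) *
        (Nat.clog 2 (g x).length + 1) ^ 2 * (n x + 1) + (tot (g x) + 1) ^ 2)) :=
  (lift_ex.choose_spec K).comp (f := fun x => (e x, n x, f x, g x)) inferInstance

end Pool.Agent.BiFac

end

section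

/-!
# The test vector

The coefficients of the linearised Frobenius test modulo `F` and modulo a polynomial `m(x)`.
-/

set_option autoImplicit false
set_option synthInstance.maxSize 10000

namespace Pool.Agent.BiFac

open Polynomial Pool.Agent.TreeRAM

variable {K : Type} [Field K]

namespace TV

/-- The data for computing modulo `F` and `m(x)`: the multiplication data, the precision, `m`
and `F`. -/
abbrev TCtx (K : Type) : Type := MEnv K × ℕ × List K × List (List K)

/-- Reduction modulo `F` and modulo `m(x)`. -/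
def rdc (z : TCtx K) (c : List (List K)) : List (List K) :=
  (brem z.1 z.2.1 c z.2.2.2).map (fun r => fmod z.1 z.2.2.1 r)

/-- Product modulo `F` and modulo `m(x)`. -/
def mulR (z : TCtx K) (a b : List (List K)) : List (List K) :=
  rdc z (bmul z.1 (2 * z.2.2.1.length) a b)

/-- One step of fast powering. -/
def stepR (z : TCtx K) (a : List (List K)) (b : Bool) (acc : List (List K)) : List (List K) :=
  bif b then mulR z (mulR z acc acc) a else mulR z acc acc

/-- Power modulo `F` and modulo `m(x)`. -/
def powR (z : TCtx K) (bits : List Bool) (a : List (List K)) : List (List K) :=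
  bits.foldr (fun b acc => stepR z a b acc) (rdc z [[1]])

/-- Iterated power. -/
def frobR (z : TCtx K) (Q : FQ) (a : List (List K)) : List (List K) :=
  (fun x => powR z Q.1 x)^[Q.2] a

/-- The data of the computation of the test vector. -/
def tctx (E : MEnv K) (w : ℕ) (m : List K) (F : List (List K)) : TCtx K :=
  (E, 2 * (w + F.length + m.length) + 2, m, F)

/-- The rows of the test, from the reduced `F_y` and `G`. -/
def tmat (z : TCtx K) (Q : FQ) (f g : List (List K)) : List (List K) :=
  List.zipWith (fun a b => subP a b) (mulR z f (frobR z Q g)) (mulR z (frobR z Q f) g)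

end TV

open TV

/-- the coefficients of `F_y G^q - F_y^q G` modulo `F` and modulo `m(x)`; rows of `G` are cut
to length `w` -/
def tvec (E : MEnv K) (Q : FQ) (w : ℕ) (m : List K) (F G : List (List K)) : List K :=
  (tmat (tctx E w m F) Q (rdc (tctx E w m F) (bderiv (F.length + 1) F))
    (rdc (tctx E w m F) (G.map (padTo w)))).flatten

/-! ### Shapes -/

namespace TV

/-- `d` rows of length `e`. -/
def Shp (d e : ℕ) (a : List (List K)) : Prop := a.length = d ∧ ∀ r ∈ a, r.length = e

theorem shp_rdc (z : TCtx K) (c : List (List K)) :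
    Shp (z.2.2.2.length - 1) (z.2.2.1.length - 1) (rdc z c) := by
  constructor
  · rw [rdc, List.length_map, length_brem]
  · intro r hr
    rw [rdc, List.mem_map] at hr
    obtain ⟨s, _, rfl⟩ := hr
    exact length_fmod _ _ _

theorem shp_mulR (z : TCtx K) (a b : List (List K)) :
    Shp (z.2.2.2.length - 1) (z.2.2.1.length - 1) (mulR z a b) := shp_rdc _ _

theorem shp_stepR (z : TCtx K) (a : List (List K)) (b : Bool) (acc : List (List K)) :
    Shp (z.2.2.2.length - 1) (z.2.2.1.length - 1) (stepR z a b acc) := by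
  cases b
  · exact shp_mulR _ _ _
  · exact shp_mulR _ _ _

theorem shp_powR (z : TCtx K) (bits : List Bool) (a : List (List K)) :
    Shp (z.2.2.2.length - 1) (z.2.2.1.length - 1) (powR z bits a) := by
  cases bits with
  | nil => exact shp_rdc _ _
  | cons b bits => exact shp_stepR _ _ _ _

theorem shp_frobR (z : TCtx K) (Q : FQ) {a : List (List K)}
    (ha : Shp (z.2.2.2.length - 1) (z.2.2.1.length - 1) a) :
    Shp (z.2.2.2.length - 1) (z.2.2.1.length - 1) (frobR z Q a) := by
  unfold frobR
  generalize Q.2 = n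
  induction n generalizing a with
  | zero => exact ha
  | succ n ih => exact ih (shp_powR _ _ _)

theorem shp_tmat (z : TCtx K) (Q : FQ) (f g : List (List K)) :
    Shp (z.2.2.2.length - 1) (z.2.2.1.length - 1) (tmat z Q f g) := by
  obtain ⟨h1, h2⟩ := shp_mulR z f (frobR z Q g)
  obtain ⟨h3, h4⟩ := shp_mulR z (frobR z Q f) g
  constructor
  · rw [tmat, List.length_zipWith, h1, h3, min_self]
  · intro r hr
    rw [tmat, List.mem_iff_getElem] at hr
    obtain ⟨i, hi, rfl⟩ := hr
    rw [List.getElem_zipWith, length_subP, h2 _ (List.getElem_mem _), h4 _ (List.getElem_mem _),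
      max_self]

omit [Field K] in
theorem Shp.length_flatten {d e : ℕ} {a : List (List K)} (h : Shp d e a) :
    a.flatten.length = d * e := by
  obtain ⟨rfl, h⟩ := h
  induction a with
  | nil => simp
  | cons r a ih =>
    rw [List.flatten_cons, List.length_append, ih fun s hs => h s (List.mem_cons_of_mem _ hs),
      h r List.mem_cons_self, List.length_cons]
    ring

theorem Shp.vec_flatten {d e : ℕ} {a : List (List K)} (h : Shp d e a) {j i : ℕ} (hj : j < d)
    (hi : i < e) : vec a.flatten (j * e + i) = ((toB a).coeff j).coeff i := by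
  obtain ⟨rfl, h⟩ := h
  rw [coeff_toB, coeff_toP, vec]
  induction a generalizing j with
  | nil => simp at hj
  | cons r a ih =>
    have hr := h r List.mem_cons_self
    rw [List.flatten_cons]
    cases j with
    | zero =>
      rw [zero_mul, zero_add, List.getD_cons_zero]
      exact List.getD_append _ _ _ _ (by omega)
    | succ j =>
      have h1 : (j + 1) * e + i = r.length + (j * e + i) := by rw [hr]; ring
      rw [List.getD_cons_succ, h1, List.getD_append_right _ _ _ _ (by omega),
        Nat.add_sub_cancel_left]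
      exact ih (fun s hs => h s (List.mem_cons_of_mem _ hs)) (by simpa using hj)

end TV

theorem length_tvec (E : MEnv K) (Q : FQ) (w : ℕ) (m : List K) (F G : List (List K)) :
    (tvec E Q w m F G).length = (F.length - 1) * (m.length - 1) :=
  (shp_tmat (tctx E w m F) Q _ _).length_flatten

theorem length_tvec_le (E : MEnv K) (Q : FQ) (w : ℕ) (m : List K) (F G : List (List K)) :
    (tvec E Q w m F G).length ≤ F.length * m.length := by
  rw [length_tvec]
  exact Nat.mul_le_mul (by omega) (by omega)

/-! ### The ideal -/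

namespace TV

/-- The ideal generated by `F` and `m(x)`. -/
noncomputable def idl (m : K[X]) (F : K[X][X]) : Ideal K[X][X] := Ideal.span {F, C m}

theorem mul_mem_idl (m : K[X]) (F q : K[X][X]) : F * q ∈ idl m F :=
  Ideal.mul_mem_right _ _ (Ideal.subset_span (by simp))

theorem mem_idl_of_dvd {m : K[X]} (F : K[X][X]) {H : K[X][X]} (h : ∀ j, m ∣ H.coeff j) :
    H ∈ idl m F := by
  obtain ⟨q, rfl⟩ := (C_dvd_iff_dvd_coeff m H).2 h
  exact Ideal.mul_mem_right _ _ (Ideal.subset_span (by simp))

theorem dvd_coeff_of_mem_idl {m : K[X]} {F H : K[X][X]} (hF : F.Monic) (h : H ∈ idl m F)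
    (j : ℕ) :
    m ∣ (H %ₘ F).coeff j := by
  obtain ⟨a, b, rfl⟩ := Ideal.mem_span_pair.1 h
  have h1 : (a * F) %ₘ F = 0 := (modByMonic_eq_zero_iff_dvd hF).2 (dvd_mul_left _ _)
  have h2 : (b * C m) %ₘ F = C m * (b %ₘ F) := by
    rw [mul_comm, ← smul_eq_C_mul, smul_modByMonic, smul_eq_C_mul]
  rw [add_modByMonic, h1, zero_add, h2, coeff_C_mul]
  exact dvd_mul_right _ _

/-- A polynomial of small degrees is the reduction of every polynomial with the same class. -/
theorem eq_of_idl {m : K[X]} {F H T : K[X][X]} (hF : F.Monic) (hm : m.Monic)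
    (hH : H.degree < F.degree) (hH' : ∀ j, (H.coeff j).degree < m.degree)
    (h : Ideal.Quotient.mk (idl m F) H = Ideal.Quotient.mk (idl m F) T) (j : ℕ) :
    H.coeff j = (T %ₘ F).coeff j %ₘ m := by
  have h1 := dvd_coeff_of_mem_idl hF (Ideal.Quotient.eq.1 h) j
  rw [sub_modByMonic, (modByMonic_eq_self_iff hF).2 hH, coeff_sub] at h1
  have h2 := (modByMonic_eq_zero_iff_dvd hm).2 h1
  rw [sub_modByMonic, (modByMonic_eq_self_iff hm).2 (hH' j), sub_eq_zero] at h2
  exact h2

/-! ### Degrees -/

theorem natDegree_coeff_toB_lt {w : ℕ} (hw : 0 < w) {a : List (List K)}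
    (h : ∀ r ∈ a, r.length ≤ w) (j : ℕ) : ((toB a).coeff j).natDegree < w := by
  rw [coeff_toB]
  by_cases h0 : toP (a.getD j []) = 0
  · rw [h0, natDegree_zero]
    exact hw
  · rw [natDegree_lt_iff_degree_lt h0]
    refine (degree_toP_lt _).trans_le ?_
    rcases lt_or_ge j a.length with hj | hj
    · rw [List.getD_eq_getElem _ _ hj]
      exact_mod_cast h _ (List.getElem_mem _)
    · rw [List.getD_eq_default _ _ hj]
      simp

theorem degree_lt_of_natDegree_lt' {p : K[X]} {w : ℕ} (h : p.natDegree < w) : p.degree < w :=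
  lt_of_le_of_lt degree_le_natDegree (by exact_mod_cast h)

theorem tdeg_toB {w n : ℕ} (hw : 0 < w) {a : List (List K)} (h : ∀ r ∈ a, r.length ≤ w)
    (hn : w + a.length ≤ n + 2) : TDeg n (toB a) := by
  intro i j hij
  rcases lt_or_ge j a.length with hj | hj
  · exact coeff_eq_zero_of_natDegree_lt ((natDegree_coeff_toB_lt hw h j).trans_le (by omega))
  · rw [coeff_toB, List.getD_eq_default _ _ hj]
    simp [toP]

theorem tdeg_mul_toB {w n : ℕ} (hw : 0 < w) {a b : List (List K)} (h : ∀ r ∈ a, r.length ≤ w)
    (h' : ∀ r ∈ b, r.length ≤ w) (hn : 2 * w + a.length + b.length ≤ n + 2) :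
    TDeg n (toB a * toB b) := by
  rcases Nat.eq_zero_or_pos a.length with h0 | h0
  · rw [List.length_eq_zero_iff.1 h0]
    simp only [toB, zero_mul]
    exact TDeg.zero n
  rcases Nat.eq_zero_or_pos b.length with h1 | h1
  · rw [List.length_eq_zero_iff.1 h1]
    simp only [toB, mul_zero]
    exact TDeg.zero n
  refine (TDeg.mul (tdeg_toB (n := w + a.length - 2) hw h (by omega))
    (tdeg_toB (n := w + b.length - 2) hw h' (by omega))).mono (by omega)

theorem natDegree_coeff_mul_lt {w : ℕ} (hw : 0 < w) {a b : List (List K)}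
    (h : ∀ r ∈ a, r.length ≤ w) (h' : ∀ r ∈ b, r.length ≤ w) (j : ℕ) :
    ((toB a * toB b).coeff j).natDegree < 2 * w := by
  have : ((toB a * toB b).coeff j).natDegree ≤ 2 * (w - 1) := by
    rw [coeff_mul]
    refine natDegree_sum_le_of_forall_le _ _ fun p _ => ?_
    refine natDegree_mul_le.trans ?_
    have := natDegree_coeff_toB_lt hw h p.1
    have := natDegree_coeff_toB_lt hw h' p.2
    omega
  omega

/-! ### Correctness -/

/-- The size conditions. -/
structure TOk (z : TCtx K) : Prop where
  good : z.1.Good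
  mp : MP z.2.2.1
  deg : 2 ≤ z.2.2.1.length
  monic : (toB z.2.2.2).Monic
  len : z.2.2.2.length = (toB z.2.2.2).natDegree + 1
  tdeg : TDeg (toB z.2.2.2).natDegree (toB z.2.2.2)
  prec : 2 * (z.2.2.2.length + z.2.2.1.length) ≤ z.2.1
  fits : Fits z.1 (3 * z.2.2.2.length + 1) z.2.1
  fits' : Fits z.1 (8 * (z.2.2.1.length + z.2.1)) 1

/-- The class modulo the ideal. -/
noncomputable def cls (z : TCtx K) (H : K[X][X]) : K[X][X] ⧸ idl (toP z.2.2.1) (toB z.2.2.2) :=
  Ideal.Quotient.mk _ H

theorem cls_rdc {z : TCtx K} (hz : TOk z) {c : List (List K)}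
    (hc : c.length ≤ 2 * z.2.2.2.length + 1) {n : ℕ} (hn : n < z.2.1) (hct : TDeg n (toB c)) :
    cls z (toB (rdc z c)) = cls z (toB c) := by
  have hW : 0 < z.2.1 := by omega
  have h1 : toB (brem z.1 z.2.1 c z.2.2.2) = toB c %ₘ toB z.2.2.2 := by
    refine (cg_brem hz.good (hz.fits.mono (by omega)) hz.monic hz.len).eq (fun j => ?_)
      (fun j => ?_)
    · exact degree_lt_of_natDegree_lt' (natDegree_coeff_toB_lt hW
        (fun r hr => (rows_brem _ _ _ _ r hr).le) j)
    · refine degree_lt_of_natDegree_lt' (lt_of_le_of_lt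
        ((TDeg.modByMonic hz.monic hz.tdeg hct).natDegree_coeff_le j) (by omega))
  have h2 : cls z (toB (brem z.1 z.2.1 c z.2.2.2)) = cls z (toB c) := by
    rw [h1]
    refine (Ideal.Quotient.eq.2 ?_).symm
    have h3 : toB c - toB c %ₘ toB z.2.2.2 = toB z.2.2.2 * (toB c /ₘ toB z.2.2.2) := by
      conv_lhs => rw [← modByMonic_add_div (toB c) (toB z.2.2.2)]
      rw [modByMonic_add_div]
      have := modByMonic_add_div (toB c) (toB z.2.2.2)
      linear_combination -this
    rw [h3]
    exact mul_mem_idl _ _ _
  rw [← h2]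
  refine Ideal.Quotient.eq.2 (mem_idl_of_dvd _ fun j => ?_)
  rw [coeff_sub, coeff_toB, coeff_toB]
  rcases lt_or_ge j (brem z.1 z.2.1 c z.2.2.2).length with hj | hj
  · have hj' : j < (rdc z c).length := by rw [rdc, List.length_map]; exact hj
    rw [List.getD_eq_getElem _ _ hj, List.getD_eq_getElem _ _ hj']
    simp only [rdc, List.getElem_map]
    have h4 := rows_brem z.1 z.2.1 c z.2.2.2 _ (List.getElem_mem hj)
    rw [toP_fmod hz.good hz.mp (hz.fits'.mono (by rw [h4]))]
    have h5 := modByMonic_add_div (toP (brem z.1 z.2.1 c z.2.2.2)[j]) (toP z.2.2.1)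
    refine ⟨-(toP (brem z.1 z.2.1 c z.2.2.2)[j] /ₘ toP z.2.2.1), ?_⟩
    linear_combination h5
  · have hj' : (rdc z c).length ≤ j := by rw [rdc, List.length_map]; exact hj
    rw [List.getD_eq_default _ _ hj, List.getD_eq_default _ _ hj', sub_self]
    exact dvd_zero _

theorem cls_mulR {z : TCtx K} (hz : TOk z) {a b : List (List K)}
    (ha : Shp (z.2.2.2.length - 1) (z.2.2.1.length - 1) a)
    (hb : Shp (z.2.2.2.length - 1) (z.2.2.1.length - 1) b) :
    cls z (toB (mulR z a b)) = cls z (toB a) * cls z (toB b) := by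
  obtain ⟨ha1, ha2⟩ := ha
  obtain ⟨hb1, hb2⟩ := hb
  have hd := hz.deg
  have hp := hz.prec
  have hl := hz.len
  have he : 0 < z.2.2.1.length - 1 := by omega
  have h1 : toB (bmul z.1 (2 * z.2.2.1.length) a b) = toB a * toB b := by
    have hf : Fits z.1 (a.length + b.length) (2 * z.2.2.1.length) := by
      refine le_trans ?_ hz.fits
      exact Nat.mul_le_mul (by omega) (by omega)
    refine (cg_bmul hz.good hf).eq (fun j => ?_) (fun j => ?_)
    · exact degree_lt_of_natDegree_lt' (natDegree_coeff_toB_lt (by omega)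
        (fun r hr => (rows_bmul _ _ _ _ r hr).le) j)
    · exact degree_lt_of_natDegree_lt' (lt_of_lt_of_le (natDegree_coeff_mul_lt he
        (fun r hr => (ha2 r hr).le) (fun r hr => (hb2 r hr).le) j) (by omega))
  rw [mulR, cls_rdc hz (n := 2 * (z.2.2.2.length + z.2.2.1.length) - 3)]
  · rw [h1]
    exact map_mul _ _ _
  · rw [length_bmul]
    omega
  · omega
  · rw [h1]
    exact tdeg_mul_toB he (fun r hr => (ha2 r hr).le) (fun r hr => (hb2 r hr).le) (by omega)

theorem cls_powR {z : TCtx K} (hz : TOk z) (bits : List Bool) {a : List (List K)}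
    (ha : Shp (z.2.2.2.length - 1) (z.2.2.1.length - 1) a) :
    cls z (toB (powR z bits a)) = cls z (toB a) ^ bval bits := by
  have hd := hz.deg
  have hp := hz.prec
  induction bits with
  | nil =>
    have h1 : toB ([[1]] : List (List K)) = 1 := by simp [toB, toP]
    rw [powR, List.foldr_nil, cls_rdc hz (n := 0) (by simp) (by omega)
      (by rw [h1]; exact TDeg.one 0), h1]
    simp [bval, cls]
  | cons b bits ih =>
    have h1 : powR z (b :: bits) a = stepR z a b (powR z bits a) := rfl
    have h2 : bval (b :: bits) = 2 * bval bits + b.toNat := rfl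
    have h3 := shp_powR z bits a
    rw [h1, h2]
    cases b
    · simp only [stepR, cond_false, Bool.toNat_false, add_zero]
      rw [cls_mulR hz h3 h3, ih]
      ring
    · simp only [stepR, cond_true, Bool.toNat_true]
      rw [cls_mulR hz (shp_mulR _ _ _) ha, cls_mulR hz h3 h3, ih]
      ring

theorem cls_frobR {z : TCtx K} (hz : TOk z) (Q : FQ) {a : List (List K)}
    (ha : Shp (z.2.2.2.length - 1) (z.2.2.1.length - 1) a) :
    cls z (toB (frobR z Q a)) = cls z (toB a) ^ bval Q.1 ^ Q.2 := by
  unfold frobR
  generalize Q.2 = n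
  induction n generalizing a with
  | zero => simp
  | succ n ih =>
    rw [Function.iterate_succ_apply, ih (shp_powR _ _ _), cls_powR hz _ ha, ← pow_mul, pow_succ']

theorem toB_zipWith_subP {a b : List (List K)} (h : a.length = b.length) :
    toB (List.zipWith (fun a b => subP a b) a b) = toB a - toB b := by
  induction a generalizing b with
  | nil =>
    rw [List.length_nil] at h
    rw [List.length_eq_zero_iff.1 h.symm]
    simp [toB]
  | cons r a ih =>
    cases b with
    | nil => simp at h
    | cons s b =>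
      rw [List.zipWith_cons_cons, toB, toB, toB, ih (by simpa using h), toP_subP]
      simp only [C_sub]
      ring

theorem cls_tmat {z : TCtx K} (hz : TOk z) (Q : FQ) {f g : List (List K)}
    (hf : Shp (z.2.2.2.length - 1) (z.2.2.1.length - 1) f)
    (hg : Shp (z.2.2.2.length - 1) (z.2.2.1.length - 1) g) :
    cls z (toB (tmat z Q f g)) = cls z (toB f) * cls z (toB g) ^ bval Q.1 ^ Q.2 -
      cls z (toB f) ^ bval Q.1 ^ Q.2 * cls z (toB g) := by
  rw [tmat, toB_zipWith_subP ((shp_mulR _ _ _).1.trans (shp_mulR _ _ _).1.symm)]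
  have h1 := cls_mulR hz hf (shp_frobR z Q hg)
  have h2 := cls_mulR hz (shp_frobR z Q hf) hg
  rw [cls_frobR hz Q hg] at h1
  rw [cls_frobR hz Q hf] at h2
  rw [← h1, ← h2]
  exact map_sub _ _ _

theorem tok_tctx {E : MEnv K} (hE : E.Good) {w : ℕ} {m : List K} (hm : MP m)
    (hm1 : 0 < (toP m).natDegree) {F : List (List K)} (hF : (toB F).Monic)
    (hFl : F.length = (toB F).natDegree + 1) (hFt : TDeg (toB F).natDegree (toB F))
    (hf : Fits E (64 * (F.length + 1)) (4 * (w + F.length + m.length))) :
    TOk (tctx E w m F) := by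
  have h2 : 2 ≤ m.length := by rw [hm.len]; omega
  refine ⟨hE, hm, h2, hF, hFl, hFt, ?_, ?_, ?_⟩
  · simp only [tctx]
    omega
  · refine le_trans ?_ hf
    simp only [tctx]
    exact Nat.mul_le_mul (by omega) (by omega)
  · refine le_trans ?_ hf
    simp only [tctx]
    have h3 : 8 * (64 * 1 + 1) * (4 * (w + F.length + m.length) + 1) ≤
        8 * (64 * (F.length + 1) + 1) * (4 * (w + F.length + m.length) + 1) :=
      Nat.mul_le_mul_right _ (by omega)
    omega

end TV

theorem tvec_spec [Fintype K] {E : MEnv K} (hE : E.Good) {Q : FQ} {p : ℕ} (hQ : Q.Ok K p) {w : ℕ}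
    {m : List K} (hm : MP m) (hm1 : 0 < (toP m).natDegree) {F G : List (List K)}
    (hF : (toB F).Monic) (hFl : F.length = (toB F).natDegree + 1)
    (hFt : TDeg (toB F).natDegree (toB F)) (hG : ∀ r ∈ G, r.length ≤ w)
    (hGl : G.length ≤ F.length)
    (hf : Fits E (64 * (F.length + 1)) (4 * (w + F.length + m.length))) :
    (tvec E Q w m F G).length = (F.length - 1) * (m.length - 1) ∧
    ∀ j < F.length - 1, ∀ i < m.length - 1, vec (tvec E Q w m F G) (j * (m.length - 1) + i) =
      (((Tfrob (Fintype.card K) (toB F) (toB G) %ₘ toB F).coeff j) %ₘ toP m).coeff i := by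
  refine ⟨length_tvec E Q w m F G, fun j hj i hi => ?_⟩
  have hz := tok_tctx hE hm hm1 hF hFl hFt hf
  set z := tctx E w m F with hzd
  have hz1 : z.2.2.2 = F := rfl
  have hz2 : z.2.2.1 = m := rfl
  have hz3 : z.2.1 = 2 * (w + F.length + m.length) + 2 := rfl
  have hq : bval Q.1 ^ Q.2 = Fintype.card K := by rw [hQ.bits, bval_bits, hQ.card]
  have hf1 : toB (bderiv (F.length + 1) F) = derivative (toB F) := by
    refine (cg_bderiv _ _).eq (fun j => ?_) (fun j => ?_)
    · exact degree_lt_of_natDegree_lt' (natDegree_coeff_toB_lt (by omega)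
        (fun r hr => (rows_bderiv _ _ r hr).le) j)
    · have := (TDeg.derivative hFt).natDegree_coeff_le j
      exact degree_lt_of_natDegree_lt' (by omega)
  have hg1 : toB (G.map (padTo w)) = toB G := by
    clear hGl hf hz hzd
    clear hz1 hz2 hz3
    clear z
    induction G with
    | nil => rfl
    | cons r G ih =>
      rw [List.map_cons, toB, toB, ih fun s hs => hG s (List.mem_cons_of_mem _ hs),
        toP_padTo (hG r List.mem_cons_self)]
  have hcf : cls z (toB (rdc z (bderiv (F.length + 1) F))) = cls z (derivative (toB F)) := by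
    rw [cls_rdc hz (n := F.length) (by rw [length_bderiv, hz1]; omega) (by omega) (by
      rw [hf1]
      exact (TDeg.derivative hFt).mono (by omega)), hf1]
  have hcg : cls z (toB (rdc z (G.map (padTo w)))) = cls z (toB G) := by
    rw [cls_rdc hz (n := w + F.length) (by rw [List.length_map, hz1]; omega) (by omega) (by
      rcases Nat.eq_zero_or_pos w with hw | hw
      · rw [hg1]
        intro i j hij
        have : G.getD j [] = [] := by
          rcases lt_or_ge j G.length with hj | hj
          · rw [List.getD_eq_getElem _ _ hj]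
            have := hG _ (List.getElem_mem hj)
            exact List.length_eq_zero_iff.1 (by omega)
          · exact List.getD_eq_default _ _ hj
        rw [coeff_toB, this]
        simp [toP]
      · rw [hg1]
        exact tdeg_toB hw hG (by omega)), hg1]
  have hsh := shp_tmat z Q (rdc z (bderiv (F.length + 1) F)) (rdc z (G.map (padTo w)))
  have hcls := cls_tmat hz Q (shp_rdc z (bderiv (F.length + 1) F)) (shp_rdc z (G.map (padTo w)))
  rw [hcf, hcg, hq] at hcls
  have hT : cls z (toB (tmat z Q (rdc z (bderiv (F.length + 1) F)) (rdc z (G.map (padTo w))))) =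
      cls z (Tfrob (Fintype.card K) (toB F) (toB G)) := by
    rw [hcls, Tfrob]
    simp only [cls, map_sub, map_mul, map_pow]
  have hm2 : m.length = (toP m).natDegree + 1 := hm.len
  have he : 0 < m.length - 1 := by omega
  have hrw : ∀ r ∈ tmat z Q (rdc z (bderiv (F.length + 1) F)) (rdc z (G.map (padTo w))),
      r.length ≤ m.length - 1 := fun r hr => (hsh.2 r hr).le
  have key := eq_of_idl (m := toP m) (F := toB F) hF hm.monic (by
      refine (degree_toB_lt _).trans_le ?_
      rw [degree_eq_natDegree hF.ne_zero, hsh.1, hz1]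
      exact_mod_cast (by omega : F.length - 1 ≤ (toB F).natDegree)) (fun j => by
      refine (degree_lt_of_natDegree_lt' (natDegree_coeff_toB_lt he hrw j)).trans_le ?_
      rw [degree_eq_natDegree hm.monic.ne_zero]
      exact_mod_cast (by omega : m.length - 1 ≤ (toP m).natDegree)) hT j
  rw [← key]
  exact hsh.vec_flatten hj hi

/-! ### Costs -/

namespace TV

/-- The unit of cost. -/
def unitR (z : TCtx K) : ℕ := (z.2.1 + z.2.2.1.length + 1) * (z.1.1 + 1)

theorem sum_map_le_mul {α : Type} (l : List α) (f : α → ℕ) (B : ℕ) (h : ∀ a ∈ l, f a ≤ B) :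
    (l.map f).sum ≤ l.length * B := by
  induction l with
  | nil => simp
  | cons a l ih =>
    have h1 := h a List.mem_cons_self
    have h2 := ih fun b hb => h b (List.mem_cons_of_mem _ hb)
    rw [List.map_cons, List.sum_cons, List.length_cons, Nat.add_mul]
    omega

theorem iterCost_le {α : Type} {g : α → α} {Tg : α → ℕ} (P : α → Prop) (B : ℕ)
    (hg : ∀ a, P a → P (g a)) (hT : ∀ a, P a → Tg a ≤ B) (n : ℕ) {a : α} (ha : P a) :
    iterCost g Tg n a ≤ n * (B + 1) := by
  induction n generalizing a with
  | zero => simp [iterCost]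
  | succ n ih =>
    have h1 := hT a ha
    have h2 := ih (hg a ha)
    rw [iterCost, Nat.add_mul]
    omega

theorem rdc_ex : ∃ c, ∀ (K : Type) [Field K],
    Comp K (fun z : TCtx K × List (List K) => rdc z.1 z.2) c
      (fun z => (z.2.length + z.1.2.2.2.length + 1) * unitR z.1) := by
  obtain ⟨cf, hf⟩ := fmod_ex
  exact ⟨_, fun K _ => by
    have h1 : Comp K (fun z : (TCtx K × List (List K)) × List K =>
        fmod z.1.1.1 z.1.1.2.2.1 z.2) _ _ :=
      (hf K).comp (f := fun z : (TCtx K × List (List K)) × List K =>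
        (z.1.1.1, z.1.1.2.2.1, z.2)) inferInstance
    have h2 : Comp K (fun z : TCtx K × List (List K) => brem z.1.1 z.1.2.1 z.2 z.1.2.2.2) _ _ :=
      inferInstance
    have h3 := Comp.map (K := K)
      (l := fun z : TCtx K × List (List K) => brem z.1.1 z.1.2.1 z.2 z.1.2.2.2)
      (g := fun z r => fmod z.1.1 z.1.2.2.1 r) (h := h2) (hg := h1)
    refine (h3.congr (g := fun z => rdc z.1 z.2) fun z => rfl).bigO 8 (fun z => ?_)
    obtain ⟨⟨E, W, m, F⟩, c⟩ := z
    simp only [unitR, zero_add, add_zero]
    have e1 := sum_map_le_mul (brem E W c F)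
      (fun b => (m.length + b.length + 1) * (E.1 + 1) + 1)
      ((m.length + W + 1) * (E.1 + 1) + 1) (fun b hb => by rw [rows_brem E W c F b hb])
    rw [length_brem] at e1
    have e2 : (F.length - 1) * ((m.length + W + 1) * (E.1 + 1) + 1) ≤
        2 * ((c.length + F.length + 1) * ((W + m.length + 1) * (E.1 + 1))) := by
      have : (m.length + W + 1) * (E.1 + 1) + 1 ≤ 2 * ((W + m.length + 1) * (E.1 + 1)) := by
        rw [add_comm m.length W]
        have := Nat.mul_pos (Nat.succ_pos (W + m.length)) (Nat.succ_pos E.1)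
        simp only [Nat.succ_eq_add_one] at this
        omega
      calc _ ≤ (c.length + F.length + 1) * (2 * ((W + m.length + 1) * (E.1 + 1))) :=
            Nat.mul_le_mul (by omega) this
        _ = _ := by ring
    have e3 : (c.length + F.length + 1) * (W + 1) * (E.1 + 1) ≤
        (c.length + F.length + 1) * ((W + m.length + 1) * (E.1 + 1)) := by
      rw [mul_assoc]
      exact Nat.mul_le_mul_left _ (Nat.mul_le_mul_right _ (by omega))
    generalize (c.length + F.length + 1) * ((W + m.length + 1) * (E.1 + 1)) = A at *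
    generalize (c.length + F.length + 1) * (W + 1) * (E.1 + 1) = B at *
    omega⟩

theorem mulR_ex : ∃ c, ∀ (K : Type) [Field K],
    Comp K (fun z : TCtx K × List (List K) × List (List K) => mulR z.1 z.2.1 z.2.2) c
      (fun z => (z.2.1.length + z.2.2.length + z.1.2.2.2.length + 1) * unitR z.1) := by
  obtain ⟨cr, hr⟩ := rdc_ex
  exact ⟨_, fun K _ => by
    have h1 : Comp K (fun z : TCtx K × List (List K) × List (List K) =>
        bmul z.1.1 (2 * z.1.2.2.1.length) z.2.1 z.2.2) _ _ := inferInstance
    have h2 := (hr K).app2 (f := fun z : TCtx K × List (List K) × List (List K) => z.1)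
      (f' := fun z => bmul z.1.1 (2 * z.1.2.2.1.length) z.2.1 z.2.2) inferInstance h1
    refine (h2.congr (g := fun z => mulR z.1 z.2.1 z.2.2) fun z => rfl).bigO 16 (fun z => ?_)
    obtain ⟨⟨E, W, m, F⟩, a, b⟩ := z
    simp only [unitR, zero_add, add_zero, length_bmul]
    have e1 : (a.length + b.length - 1 + F.length + 1) * ((W + m.length + 1) * (E.1 + 1)) ≤
        2 * ((a.length + b.length + F.length + 1) * ((W + m.length + 1) * (E.1 + 1))) := by
      rw [← mul_assoc 2]
      exact Nat.mul_le_mul_right _ (by omega)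
    have e2 : (a.length + b.length + 1) * (2 * m.length + 1) * (E.1 + 1) ≤
        2 * ((a.length + b.length + F.length + 1) * ((W + m.length + 1) * (E.1 + 1))) := by
      calc (a.length + b.length + 1) * (2 * m.length + 1) * (E.1 + 1) ≤
          (a.length + b.length + F.length + 1) * (2 * (W + m.length + 1)) * (E.1 + 1) :=
            Nat.mul_le_mul_right _ (Nat.mul_le_mul (by omega) (by omega))
        _ = _ := by ring
    have e3 : m.length + 1 ≤
        (a.length + b.length + F.length + 1) * ((W + m.length + 1) * (E.1 + 1)) := by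
      calc m.length + 1 ≤ 1 * ((W + m.length + 1) * 1) := by omega
        _ ≤ _ := Nat.mul_le_mul (by omega) (Nat.mul_le_mul_left _ (by omega))
    generalize (a.length + b.length + F.length + 1) * ((W + m.length + 1) * (E.1 + 1)) = A at *
    generalize (a.length + b.length - 1 + F.length + 1) *
      ((W + m.length + 1) * (E.1 + 1)) = B at *
    generalize (a.length + b.length + 1) * (2 * m.length + 1) * (E.1 + 1) = B' at *
    omega⟩

theorem stepR_ex : ∃ c, ∀ (K : Type) [Field K],
    Comp K (fun z : (TCtx K × List (List K)) × Bool × List (List K) =>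
      stepR z.1.1 z.1.2 z.2.1 z.2.2) c
      (fun z => (z.1.2.length + z.2.2.length + z.1.1.2.2.2.length + 1) * unitR z.1.1) := by
  obtain ⟨cr, hr⟩ := mulR_ex
  exact ⟨_, fun K _ => by
    have h1 := (hr K).comp
      (f := fun z : (TCtx K × List (List K)) × Bool × List (List K) => (z.1.1, z.2.2, z.2.2))
      inferInstance
    have h2 := (hr K).comp
      (f := fun z : (TCtx K × List (List K)) × Bool × List (List K) =>
        (z.1.1, mulR z.1.1 z.2.2 z.2.2, z.1.2))
      (Comp.pair (h := inferInstance) (h' := Comp.pair (h := h1) (h' := inferInstance)))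
    have h3 := Comp.cond (K := K)
      (b := fun z : (TCtx K × List (List K)) × Bool × List (List K) => z.2.1)
      (hb := inferInstance) (hf := h2) (hg := h1)
    refine (h3.congr (g := fun z => stepR z.1.1 z.1.2 z.2.1 z.2.2) fun z => rfl).bigO 16
      (fun z => ?_)
    obtain ⟨⟨z, a⟩, b, s⟩ := z
    simp only [zero_add, add_zero]
    rw [(shp_mulR z s s).1]
    have e1 : (z.2.2.2.length - 1 + a.length + z.2.2.2.length + 1) * unitR z ≤
        2 * ((a.length + s.length + z.2.2.2.length + 1) * unitR z) := by
      rw [← mul_assoc]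
      exact Nat.mul_le_mul_right _ (by omega)
    have e2 : (s.length + s.length + z.2.2.2.length + 1) * unitR z ≤
        2 * ((a.length + s.length + z.2.2.2.length + 1) * unitR z) := by
      rw [← mul_assoc]
      exact Nat.mul_le_mul_right _ (by omega)
    generalize (z.2.2.2.length - 1 + a.length + z.2.2.2.length + 1) * unitR z = A at *
    generalize (s.length + s.length + z.2.2.2.length + 1) * unitR z = A' at *
    generalize (a.length + s.length + z.2.2.2.length + 1) * unitR z = A'' at *
    cases b
    · simp only [cond_false]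
      omega
    · simp only [cond_true]
      omega⟩

omit [Field K] in
theorem unitR_pos (z : TCtx K) : 0 < unitR z :=
  Nat.mul_pos (Nat.succ_pos _) (Nat.succ_pos _)

theorem powR_ex : ∃ c, ∀ (K : Type) [Field K],
    Comp K (fun z : (TCtx K × List Bool) × List (List K) => powR z.1.1 z.1.2 z.2) c
      (fun z => (z.1.2.length + 1) *
        ((z.2.length + z.1.1.2.2.2.length + 1) * unitR z.1.1)) := by
  obtain ⟨cr, hr⟩ := rdc_ex
  obtain ⟨cs, hs⟩ := stepR_ex
  exact ⟨_, fun K _ => by
    have h1 := (hr K).app2
      (f := fun z : (TCtx K × List Bool) × List (List K) => z.1.1) (f' := fun _ => [[1]])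
      inferInstance inferInstance
    have h2 := (hs K).comp
      (f := fun z : ((TCtx K × List Bool) × List (List K)) × Bool × List (List K) =>
        ((z.1.1.1, z.1.2), z.2.1, z.2.2)) inferInstance
    have h3 := Comp.foldr (K := K)
      (l := fun z : (TCtx K × List Bool) × List (List K) => z.1.2)
      (b := fun z => rdc z.1.1 [[1]]) (g := fun z b acc => stepR z.1.1 z.2 b acc)
      (h := inferInstance) (h' := h1) (hg := h2)
    have h4 := h3.congr (g := fun z => powR z.1.1 z.1.2 z.2) (fun z => by unfold powR; rfl)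
    refine h4.bigO 16 (fun z => ?_)
    obtain ⟨⟨z, bits⟩, a⟩ := z
    simp only [zero_add, add_zero, List.length_singleton]
    have e1 := foldrCost_le (g := fun b acc => stepR z a b acc)
      (Tg := fun b acc => (a.length + acc.length + z.2.2.2.length + 1) * unitR z)
      (b0 := rdc z [[1]]) (l := bits) (fun acc => acc.length ≤ z.2.2.2.length)
      (2 * ((a.length + z.2.2.2.length + 1) * unitR z))
      (by rw [(shp_rdc z _).1]; omega) (fun b _ acc _ => by rw [(shp_stepR z a b acc).1]; omega)
      (fun b _ acc hacc => by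
        rw [← mul_assoc]
        exact Nat.mul_le_mul_right _ (by omega))
    have e2 : (1 + z.2.2.2.length + 1) * unitR z ≤
        2 * ((a.length + z.2.2.2.length + 1) * unitR z) := by
      rw [← mul_assoc]
      exact Nat.mul_le_mul_right _ (by omega)
    have e3 : 0 < (a.length + z.2.2.2.length + 1) * unitR z :=
      Nat.mul_pos (by omega) (unitR_pos z)
    generalize (a.length + z.2.2.2.length + 1) * unitR z = A at *
    generalize (1 + z.2.2.2.length + 1) * unitR z = A' at *
    have e4 : bits.length * (2 * A + 1) ≤ 3 * ((bits.length + 1) * A) := by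
      calc bits.length * (2 * A + 1) ≤ (bits.length + 1) * (3 * A) :=
            Nat.mul_le_mul (by omega) (by omega)
        _ = _ := by ring
    have e5 : A ≤ (bits.length + 1) * A := Nat.le_mul_of_pos_left _ (by omega)
    generalize (bits.length + 1) * A = B at *
    omega⟩

theorem length_powR_le (z : TCtx K) (bits : List Bool) (a : List (List K)) :
    (powR z bits a).length ≤ z.2.2.2.length := by
  rw [(shp_powR z bits a).1]
  omega

theorem length_frobR_le (z : TCtx K) (Q : FQ) (a : List (List K)) :
    (frobR z Q a).length ≤ a.length + z.2.2.2.length := by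
  unfold frobR
  generalize Q.2 = n
  rcases Nat.eq_zero_or_pos n with rfl | hn
  · simp
  · obtain ⟨k, rfl⟩ : ∃ k, n = k + 1 := ⟨n - 1, by omega⟩
    rw [Function.iterate_succ_apply']
    exact (length_powR_le _ _ _).trans (by omega)

theorem frobR_ex : ∃ c, ∀ (K : Type) [Field K],
    Comp K (fun z : (TCtx K × FQ) × List (List K) => frobR z.1.1 z.1.2 z.2) c
      (fun z => z.1.2.lg * ((z.2.length + z.1.1.2.2.2.length + 1) * unitR z.1.1)) := by
  obtain ⟨cp, hp⟩ := powR_ex
  exact ⟨_, fun K _ => by
    have h2 := (hp K).comp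
      (f := fun z : ((TCtx K × FQ) × List (List K)) × List (List K) =>
        ((z.1.1.1, z.1.1.2.1), z.2)) inferInstance
    have h3 := Comp.iterate (K := K)
      (n := fun z : (TCtx K × FQ) × List (List K) => z.1.2.2)
      (a := fun z => z.2) (g := fun z x => powR z.1.1 z.1.2.1 x)
      (hn := inferInstance) (ha := inferInstance) (hg := h2)
    have h4 := h3.congr (g := fun z => frobR z.1.1 z.1.2 z.2) (fun z => by unfold frobR; rfl)
    refine h4.bigO 16 (fun z => ?_)
    obtain ⟨⟨z, bits, n⟩, a⟩ := z
    simp only [zero_add, add_zero, FQ.lg]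
    have e1 := iterCost_le (g := fun x => powR z bits x)
      (Tg := fun x => (bits.length + 1) * ((x.length + z.2.2.2.length + 1) * unitR z))
      (fun x => x.length ≤ a.length + z.2.2.2.length)
      ((bits.length + 1) * (2 * ((a.length + z.2.2.2.length + 1) * unitR z)))
      (fun x _ => (length_powR_le z bits x).trans (by omega))
      (fun x hx => by
        rw [← mul_assoc 2]
        exact Nat.mul_le_mul_left _ (Nat.mul_le_mul_right _ (by omega))) n (a := a) (by omega)
    have e3 : 0 < (a.length + z.2.2.2.length + 1) * unitR z :=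
      Nat.mul_pos (by omega) (unitR_pos z)
    generalize (a.length + z.2.2.2.length + 1) * unitR z = A at *
    have e4 : n * ((bits.length + 1) * (2 * A) + 1) ≤
        3 * ((bits.length + 1) * (n + 1) * A) := by
      have e6 : (bits.length + 1) * (2 * A) + 1 ≤ (bits.length + 1) * (3 * A) := by
        have : 0 < (bits.length + 1) * A := Nat.mul_pos (by omega) e3
        calc (bits.length + 1) * (2 * A) + 1 ≤ 2 * ((bits.length + 1) * A) +
              (bits.length + 1) * A := by
              have h7 : (bits.length + 1) * (2 * A) = 2 * ((bits.length + 1) * A) := by ring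
              omega
          _ = _ := by ring
      calc n * ((bits.length + 1) * (2 * A) + 1) ≤ (n + 1) * ((bits.length + 1) * (3 * A)) :=
            Nat.mul_le_mul (by omega) e6
        _ = _ := by ring
    omega⟩

theorem lg_pos (Q : FQ) : 0 < Q.lg := Nat.mul_pos (by omega) (by omega)

theorem tmat_ex : ∃ c, ∀ (K : Type) [Field K],
    Comp K (fun z : (TCtx K × FQ) × List (List K) × List (List K) =>
      (tmat z.1.1 z.1.2 z.2.1 z.2.2).flatten) c
      (fun z => z.1.2.lg *
        ((z.2.1.length + z.2.2.length + z.1.1.2.2.2.length + 1) * unitR z.1.1)) := by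
  obtain ⟨cm, hm⟩ := mulR_ex
  obtain ⟨cf, hf⟩ := frobR_ex
  exact ⟨_, fun K _ => by
    have h1 := (hf K).comp
      (f := fun z : (TCtx K × FQ) × List (List K) × List (List K) =>
        ((z.1.1, z.1.2), z.2.1)) inferInstance
    have h2 := (hf K).comp
      (f := fun z : (TCtx K × FQ) × List (List K) × List (List K) =>
        ((z.1.1, z.1.2), z.2.2)) inferInstance
    have h3 := (hm K).comp
      (f := fun z : (TCtx K × FQ) × List (List K) × List (List K) =>
        (z.1.1, z.2.1, frobR z.1.1 z.1.2 z.2.2))
      (Comp.pair (h := inferInstance) (h' := Comp.pair (h := inferInstance) (h' := h2)))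
    have h4 := (hm K).comp
      (f := fun z : (TCtx K × FQ) × List (List K) × List (List K) =>
        (z.1.1, frobR z.1.1 z.1.2 z.2.1, z.2.2))
      (Comp.pair (h := inferInstance) (h' := Comp.pair (h := h1) (h' := inferInstance)))
    have h5 : Comp K (fun z : ((TCtx K × FQ) × List (List K) × List (List K)) ×
        List K × List K => subP z.2.1 z.2.2) _ _ := inferInstance
    have h6 := Comp.zipWith (K := K)
      (l := fun z : (TCtx K × FQ) × List (List K) × List (List K) =>
        mulR z.1.1 z.2.1 (frobR z.1.1 z.1.2 z.2.2))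
      (m := fun z => mulR z.1.1 (frobR z.1.1 z.1.2 z.2.1) z.2.2)
      (g := fun _ a b => subP a b) (h := h3) (h' := h4) (hg := h5)
    have h7 := Comp.flatten (K := K)
      (l := fun z : (TCtx K × FQ) × List (List K) × List (List K) =>
        tmat z.1.1 z.1.2 z.2.1 z.2.2) (h := h6)
    refine h7.bigO 32 (fun z => ?_)
    obtain ⟨⟨z, Q⟩, f, g⟩ := z
    simp only [zero_add, add_zero]
    have hU := unitR_pos z
    have hL := (lg_pos Q)
    have hu : z.2.2.1.length + 1 ≤ unitR z := by
      calc z.2.2.1.length + 1 ≤ (z.2.1 + z.2.2.1.length + 1) * 1 := by omega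
        _ ≤ _ := Nat.mul_le_mul_left _ (by omega)
    obtain ⟨s1, s2⟩ := shp_mulR z f (frobR z Q g)
    obtain ⟨s3, s4⟩ := shp_mulR z (frobR z Q f) g
    obtain ⟨s5, s6⟩ := shp_tmat z Q f g
    have e1 := sum_map_le_mul ((mulR z f (frobR z Q g)).zip (mulR z (frobR z Q f) g))
      (fun p => p.1.length + p.2.length + 1) (2 * unitR z) (fun p hp => by
        have h8 := (List.of_mem_zip hp).1
        have h9 := (List.of_mem_zip hp).2
        rw [s2 _ h8, s4 _ h9]
        omega)
    have e2 := sum_map_le_mul (tmat z Q f g) (fun r => r.length + 1) (unitR z) (fun r hr => by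
        rw [s6 r hr]
        omega)
    rw [List.length_zip, s1, s3, min_self] at e1
    rw [s5] at e2
    have e3 : (z.2.2.2.length - 1) * (2 * unitR z) ≤
        2 * ((f.length + g.length + z.2.2.2.length + 1) * unitR z) := by
      rw [mul_comm 2, ← mul_assoc, mul_comm 2]
      exact Nat.mul_le_mul_right _ (Nat.mul_le_mul_right _ (by omega))
    have e4 : (z.2.2.2.length - 1) * unitR z ≤
        (f.length + g.length + z.2.2.2.length + 1) * unitR z :=
      Nat.mul_le_mul_right _ (by omega)
    have l1 := length_frobR_le z Q g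
    have l2 := length_frobR_le z Q f
    have e5 : (f.length + (frobR z Q g).length + z.2.2.2.length + 1) * unitR z ≤
        2 * ((f.length + g.length + z.2.2.2.length + 1) * unitR z) := by
      rw [← mul_assoc]
      exact Nat.mul_le_mul_right _ (by omega)
    have e6 : ((frobR z Q f).length + g.length + z.2.2.2.length + 1) * unitR z ≤
        2 * ((f.length + g.length + z.2.2.2.length + 1) * unitR z) := by
      rw [← mul_assoc]
      exact Nat.mul_le_mul_right _ (by omega)
    have e7 : Q.lg * ((g.length + z.2.2.2.length + 1) * unitR z) ≤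
        Q.lg * ((f.length + g.length + z.2.2.2.length + 1) * unitR z) :=
      Nat.mul_le_mul_left _ (Nat.mul_le_mul_right _ (by omega))
    have e8 : Q.lg * ((f.length + z.2.2.2.length + 1) * unitR z) ≤
        Q.lg * ((f.length + g.length + z.2.2.2.length + 1) * unitR z) :=
      Nat.mul_le_mul_left _ (Nat.mul_le_mul_right _ (by omega))
    generalize (f.length + g.length + z.2.2.2.length + 1) * unitR z = A at *
    have e9 : A ≤ Q.lg * A := Nat.le_mul_of_pos_left _ hL
    generalize (f.length + (frobR z Q g).length + z.2.2.2.length + 1) * unitR z = A1 at *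
    generalize ((frobR z Q f).length + g.length + z.2.2.2.length + 1) * unitR z = A2 at *
    generalize Q.lg * ((g.length + z.2.2.2.length + 1) * unitR z) = A3 at *
    generalize Q.lg * ((f.length + z.2.2.2.length + 1) * unitR z) = A4 at *
    generalize Q.lg * A = B at *
    generalize (z.2.2.2.length - 1) * (2 * unitR z) = A5 at *
    generalize (z.2.2.2.length - 1) * unitR z = A6 at *
    omega⟩

/-- The main factor of the cost. -/
def costT (z : (MEnv K × FQ) × (ℕ × List K) × List (List K) × List (List K)) : ℕ :=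
  (z.2.2.1.length + z.2.2.2.length + 1) * (z.2.2.1.length + z.2.1.2.length + z.2.1.1 + 1) *
    (z.1.1.1 + 1)

omit [Field K] in
theorem unitR_tctx_le (E : MEnv K) (w : ℕ) (m : List K) (F : List (List K)) :
    unitR (tctx E w m F) ≤ 3 * ((F.length + m.length + w + 1) * (E.1 + 1)) := by
  rw [← mul_assoc]
  exact Nat.mul_le_mul_right _ (by simp only [tctx]; omega)

omit [Field K] in
theorem mul_unitR_le (E : MEnv K) (Q : FQ) (w : ℕ) (m : List K) (F G : List (List K)) (k n : ℕ)
    (hn : n ≤ k * (F.length + G.length + 1)) :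
    n * unitR (tctx E w m F) ≤ 3 * k * costT ((E, Q), (w, m), F, G) := by
  calc n * unitR (tctx E w m F) ≤ (k * (F.length + G.length + 1)) *
        (3 * ((F.length + m.length + w + 1) * (E.1 + 1))) :=
        Nat.mul_le_mul hn (unitR_tctx_le E w m F)
    _ = _ := by
        simp only [costT]
        ring

omit [Field K] in
theorem mul_le_costT (E : MEnv K) (Q : FQ) (w : ℕ) (m : List K) (F G : List (List K)) (a b : ℕ)
    (ha : a ≤ F.length + G.length + 1) (hb : b ≤ F.length + m.length + w + 1) :
    a * b ≤ costT ((E, Q), (w, m), F, G) := by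
  calc a * b = a * b * 1 := (mul_one _).symm
    _ ≤ _ := Nat.mul_le_mul (Nat.mul_le_mul ha hb) (by omega)

end TV

theorem tvec_ex : ∃ c, ∀ (K : Type) [Field K],
    Comp K (fun z : (MEnv K × FQ) × (ℕ × List K) × List (List K) × List (List K) =>
      tvec z.1.1 z.1.2 z.2.1.1 z.2.1.2 z.2.2.1 z.2.2.2) c
      (fun z => (z.2.2.1.length + z.2.2.2.length + 1) *
        (z.2.2.1.length + z.2.1.2.length + z.2.1.1 + 1) * (z.1.1.1 + 1) * z.1.2.lg) := by
  obtain ⟨cr, hr⟩ := rdc_ex
  obtain ⟨ct, ht⟩ := tmat_ex
  exact ⟨_, fun K _ => by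
    have h0 : Comp K (fun z : (MEnv K × FQ) × (ℕ × List K) × List (List K) × List (List K) =>
        2 * (z.2.1.1 + z.2.2.1.length + z.2.1.2.length) + 2) _ _ := inferInstance
    have h1 := (Comp.pair (f := fun z : (MEnv K × FQ) × (ℕ × List K) × List (List K) ×
        List (List K) => z.1.1) (g := fun z => (2 * (z.2.1.1 + z.2.2.1.length +
          z.2.1.2.length) + 2, z.2.1.2, z.2.2.1)) (h := inferInstance) (h' := Comp.pair (h := h0)
            (h' := inferInstance))).bigO (T' := costT) 16 (fun z => by
        obtain ⟨⟨E, Q⟩, ⟨w, m⟩, F, G⟩ := z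
        have := mul_le_costT E Q w m F G 1 (F.length + m.length + w + 1) (by omega) le_rfl
        simp only [zero_add, add_zero]
        omega)
    have h2 := (inferInstance : Comp K (fun z : (MEnv K × FQ) × (ℕ × List K) ×
        List (List K) × List (List K) => bderiv (z.2.2.1.length + 1) z.2.2.1) _ _).bigO
        (T' := costT) 4 (fun z => by
        obtain ⟨⟨E, Q⟩, ⟨w, m⟩, F, G⟩ := z
        have := mul_le_costT E Q w m F G 1 (F.length + m.length + w + 1) (by omega) le_rfl
        have := mul_le_costT E Q w m F G (F.length + 1) (F.length + 1) (by omega) (by omega)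
        simp only [zero_add, add_zero]
        rw [mul_add]
        omega)
    have h3 := (Comp.map (K := K) (l := fun z : (MEnv K × FQ) × (ℕ × List K) × List (List K) ×
        List (List K) => z.2.2.2) (g := fun z r => padTo z.2.1.1 r) (h := inferInstance)
        (hg := inferInstance)).bigO (T' := costT) 4 (fun z => by
        obtain ⟨⟨E, Q⟩, ⟨w, m⟩, F, G⟩ := z
        have h8 := sum_map_le_mul G (fun _ => w + 1) (w + 1) (fun _ _ => le_rfl)
        have := mul_le_costT E Q w m F G G.length (w + 1) (by omega) (by omega)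
        simp only [zero_add, add_zero]
        omega)
    have h4 := ((hr K).app2 h1 h2).bigO (T' := costT) 16 (fun z => by
        obtain ⟨⟨E, Q⟩, ⟨w, m⟩, F, G⟩ := z
        have := mul_unitR_le E Q w m F G 2 (F.length - 1 + F.length + 1) (by omega)
        simp only [length_bderiv]
        simp only [tctx] at this ⊢
        omega)
    have h5 := ((hr K).app2 h1 h3).bigO (T' := costT) 16 (fun z => by
        obtain ⟨⟨E, Q⟩, ⟨w, m⟩, F, G⟩ := z
        have := mul_unitR_le E Q w m F G 2 (G.length + F.length + 1) (by omega)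
        simp only [List.length_map]
        simp only [tctx] at this ⊢
        omega)
    have h6 := (ht K).comp
      (f := fun z : (MEnv K × FQ) × (ℕ × List K) × List (List K) × List (List K) =>
        ((tctx z.1.1 z.2.1.1 z.2.1.2 z.2.2.1, z.1.2),
          rdc (tctx z.1.1 z.2.1.1 z.2.1.2 z.2.2.1) (bderiv (z.2.2.1.length + 1) z.2.2.1),
          rdc (tctx z.1.1 z.2.1.1 z.2.1.2 z.2.2.1) (z.2.2.2.map (padTo z.2.1.1))))
      (Comp.pair (h := Comp.pair (h := h1) (h' := inferInstance))
        (h' := Comp.pair (h := h4) (h' := h5)))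
    have h7 := h6.congr (g := fun z => tvec z.1.1 z.1.2 z.2.1.1 z.2.1.2 z.2.2.1 z.2.2.2)
      (fun z => by unfold tvec; rfl)
    refine h7.bigO 64 (fun z => ?_)
    obtain ⟨⟨E, Q⟩, ⟨w, m⟩, F, G⟩ := z
    have e1 : ((rdc (tctx E w m F) (bderiv (F.length + 1) F)).length +
        (rdc (tctx E w m F) (G.map (padTo w))).length + F.length + 1) *
          unitR (tctx E w m F) ≤ 3 * 3 * costT ((E, Q), (w, m), F, G) :=
      mul_unitR_le E Q w m F G 3 _ (by
        rw [(shp_rdc _ _).1, (shp_rdc _ _).1]
        simp only [tctx]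
        omega)
    have e2 : Q.lg * (((rdc (tctx E w m F) (bderiv (F.length + 1) F)).length +
        (rdc (tctx E w m F) (G.map (padTo w))).length + F.length + 1) *
          unitR (tctx E w m F)) ≤ 9 * (costT ((E, Q), (w, m), F, G) * Q.lg) := by
      calc _ ≤ Q.lg * (3 * 3 * costT ((E, Q), (w, m), F, G)) := Nat.mul_le_mul_left _ e1
        _ = _ := by ring
    have e3 : costT ((E, Q), (w, m), F, G) ≤ costT ((E, Q), (w, m), F, G) * Q.lg :=
      Nat.le_mul_of_pos_right _ (lg_pos Q)
    show _ ≤ 64 * (costT ((E, Q), (w, m), F, G) * Q.lg + 1)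
    simp only [add_zero]
    simp only [tctx] at e2 ⊢
    omega⟩

noncomputable def tvecCd : Cd := tvec_ex.choose

instance compTvec {α : Type} [Enc K α] {E : α → MEnv K} {Q : α → FQ} {w : α → ℕ}
    {m : α → List K} {F G : α → List (List K)} {c1 c2 c3 c4 c5 c6 : Cd}
    {T1 T2 T3 T4 T5 T6 : α → ℕ} [h1 : Comp K E c1 T1] [h2 : Comp K Q c2 T2]
    [h3 : Comp K w c3 T3] [h4 : Comp K m c4 T4] [h5 : Comp K F c5 T5] [h6 : Comp K G c6 T6] :
    Comp K (fun x => tvec (E x) (Q x) (w x) (m x) (F x) (G x))
      (tvecCd.comp ((c1.pair c2).pair ((c3.pair c4).pair (c5.pair c6))))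
      (fun x => T1 x + T2 x + (T3 x + T4 x + (T5 x + T6 x)) +
        ((F x).length + (G x).length + 1) * ((F x).length + (m x).length + w x + 1) *
          ((E x).1 + 1) * (Q x).lg) :=
  (tvec_ex.choose_spec K).comp (f := fun x => ((E x, Q x), (w x, m x), F x, G x))
    (Comp.pair (f := fun x => (E x, Q x)) (g := fun x => ((w x, m x), F x, G x))
      (h := Comp.pair (h := h1) (h' := h2))
      (h' := Comp.pair (f := fun x => (w x, m x)) (g := fun x => (F x, G x))
        (h := Comp.pair (h := h3) (h' := h4)) (h' := Comp.pair (h := h5) (h' := h6))))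

end Pool.Agent.BiFac

end

section

/-!
# Traces modulo `x ^ w`
-/

set_option autoImplicit false

namespace Pool.Agent.BiFac

open Polynomial Pool.Agent.TreeRAM

variable {K : Type} [Field K]

/-- The trace of `h` with respect to `P`, computed from the remainder `R` of `h` modulo `P`. -/
def trc (E : MEnv K) (w : ℕ) (R P : List (List K)) : List K :=
  padTo w ((brem E w (bmul E w R (bderiv w P)) P).getLastD [])

/-- The traces of `h` with respect to the polynomials of the list, with precision `w`. -/
def traces (E : MEnv K) (w : ℕ) (h : List (List K)) (Ps : List (List (List K))) :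
    List (List K) := (remB E w h Ps).zipWith (fun R P => trc E w R P) Ps

theorem length_trc (E : MEnv K) (w : ℕ) (R P : List (List K)) : (trc E w R P).length = w :=
  length_padTo _ _

theorem mul_modByMonic_left {R : Type*} [CommRing R] {P : R[X]} (hP : P.Monic) (a b : R[X]) :
    (a %ₘ P * b) %ₘ P = (a * b) %ₘ P := by
  have h1 : a * b = a %ₘ P * b + P * (a /ₘ P * b) := by
    conv_lhs => rw [← modByMonic_add_div a P]
    ring
  rw [h1, add_modByMonic]
  have h2 : (P * (a /ₘ P * b)) %ₘ P = 0 := by
    rw [modByMonic_eq_zero_iff_dvd hP]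
    exact dvd_mul_right _ _
  rw [h2, add_zero]

theorem trc_spec {E : MEnv K} (hE : E.Good) {w : ℕ} {h : K[X][X]} {R P : List (List K)}
    (hf : Fits E (2 * (R.length + P.length)) w) (hP : (toB P).Monic)
    (hPl : P.length = (toB P).natDegree + 1) (hR : Cg w (toB R) (h %ₘ toB P)) :
    X ^ w ∣ toP (trc E w R P) - tau (toB P) h := by
  have hd := length_bderiv w P
  have hm := length_bmul E w R (bderiv w P)
  have hr := length_brem E w (bmul E w R (bderiv w P)) P
  have h1 : Cg w (toB (bmul E w R (bderiv w P))) (h %ₘ toB P * derivative (toB P)) :=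
    (cg_bmul hE (hf.mono (by omega))).trans (hR.mul (cg_bderiv w P))
  have h2 : Cg w (toB (brem E w (bmul E w R (bderiv w P)) P))
      ((h * derivative (toB P)) %ₘ toB P) := by
    rw [← mul_modByMonic_left hP]
    exact (cg_brem hE (hf.mono (by omega)) hP hPl).trans (h1.modByMonic (Cg.refl _ _) hP hP)
  have h3 := h2.coeff ((toB P).natDegree - 1)
  unfold trc tau
  refine (dvd_add (X_pow_dvd_padTo w ((brem E w (bmul E w R (bderiv w P)) P).getLastD []))
    h3).trans (dvd_of_eq ?_)
  have h4 : (toB (brem E w (bmul E w R (bderiv w P)) P)).coeff ((toB P).natDegree - 1) =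
      toP ((brem E w (bmul E w R (bderiv w P)) P).getLastD []) := by
    rw [coeff_toB]
    congr 1
    have h5 : (toB P).natDegree - 1 = (brem E w (bmul E w R (bderiv w P)) P).length - 1 := by
      omega
    rw [h5, List.getD_eq_getElem?_getD, ← List.getLast?_eq_getElem?, List.getLastD_eq_getLast?]
  rw [h4]
  ring

theorem length_traces (E : MEnv K) (w : ℕ) (h : List (List K)) (Ps : List (List (List K))) :
    (traces E w h Ps).length = Ps.length := by
  unfold traces
  rw [List.length_zipWith, length_remB, min_self]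

theorem rows_traces (E : MEnv K) (w : ℕ) (h : List (List K)) (Ps : List (List (List K))) :
    ∀ t ∈ traces E w h Ps, t.length = w := by
  intro t ht
  unfold traces at ht
  rw [List.mem_iff_getElem] at ht
  obtain ⟨i, hi, rfl⟩ := ht
  rw [List.getElem_zipWith]
  exact length_trc _ _ _ _

theorem traces_spec {E : MEnv K} (hE : E.Good) {w : ℕ} (hw : 0 < w) {h : List (List K)}
    {Ps : List (List (List K))} (hf : Fits E (64 * (h.length + tot Ps)) w)
    (hP : ∀ P ∈ Ps, (toB P).Monic ∧ P.length = (toB P).natDegree + 1) :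
    List.Forall₂ (fun t P => X ^ w ∣ toP t - tau (toB P) (toB h)) (traces E w h Ps) Ps := by
  have h1 := remB_spec hE hw (h := h) (L := Ps) (hf.mono (by omega)) hP
  unfold traces
  have hmem : ∀ P ∈ Ps, P.length ≤ tot Ps := by
    intro P hPm
    unfold tot
    have := List.single_le_sum (l := Ps.map fun F => F.length + 1) (fun _ _ => Nat.zero_le _)
      (P.length + 1) (List.mem_map_of_mem hPm)
    omega
  have hmem' : ∀ P ∈ Ps, P.length ≤ tot Ps ∧ (toB P).Monic ∧
      P.length = (toB P).natDegree + 1 := fun P hPm => ⟨hmem P hPm, hP P hPm⟩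
  clear hmem hP
  generalize remB E w h Ps = Rs at h1
  generalize hT : tot Ps = T at hf hmem'
  clear hT
  induction h1 with
  | nil => exact List.Forall₂.nil
  | @cons R P Rs Ps hRP _ ih =>
    rw [List.zipWith_cons_cons]
    refine List.Forall₂.cons ?_ (ih fun P hPm => hmem' P (List.mem_cons_of_mem _ hPm))
    obtain ⟨h2, h3, h4⟩ := hmem' P List.mem_cons_self
    exact trc_spec hE (hf.mono (by rw [hRP.2]; omega)) h3 h4 hRP.1

theorem trc_ex : ∃ c, ∀ (K : Type) [Field K],
    Comp K (fun z : (MEnv K × ℕ) × List (List K) × List (List K) =>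
      trc z.1.1 z.1.2 z.2.1 z.2.2) c
      (fun z => (z.2.1.length + z.2.2.length + 1) * (z.1.2 + 1) * (z.1.1.1 + 1)) := by
  obtain ⟨cd, hd⟩ := bderiv_ex
  obtain ⟨cm, hm⟩ := bmul_ex
  obtain ⟨cr, hr⟩ := brem_ex
  exact ⟨_, fun K _ => by
    have h1 : Comp K (fun z : (MEnv K × ℕ) × List (List K) × List (List K) =>
        bderiv z.1.2 z.2.2) _ _ := (hd K).app2 inferInstance inferInstance
    have h2 : Comp K (fun z : (MEnv K × ℕ) × List (List K) × List (List K) =>
        bmul z.1.1 z.1.2 z.2.1 (bderiv z.1.2 z.2.2)) _ _ :=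
      (hm K).comp (f := fun z : (MEnv K × ℕ) × List (List K) × List (List K) =>
        (z.1.1, z.1.2, z.2.1, bderiv z.1.2 z.2.2)) inferInstance
    have h3 : Comp K (fun z : (MEnv K × ℕ) × List (List K) × List (List K) =>
        brem z.1.1 z.1.2 (bmul z.1.1 z.1.2 z.2.1 (bderiv z.1.2 z.2.2)) z.2.2) _ _ :=
      (hr K).comp (f := fun z : (MEnv K × ℕ) × List (List K) × List (List K) =>
        (z.1.1, z.1.2, bmul z.1.1 z.1.2 z.2.1 (bderiv z.1.2 z.2.2), z.2.2)) inferInstance
    have h4 : Comp K (fun z : (MEnv K × ℕ) × List (List K) × List (List K) =>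
        padTo z.1.2 ((brem z.1.1 z.1.2 (bmul z.1.1 z.1.2 z.2.1 (bderiv z.1.2 z.2.2))
          z.2.2).getLastD [])) _ _ :=
      (padTo_ex.choose_spec K).app2
        (f := fun z : (MEnv K × ℕ) × List (List K) × List (List K) => z.1.2)
        (f' := fun z => (brem z.1.1 z.1.2 (bmul z.1.1 z.1.2 z.2.1 (bderiv z.1.2 z.2.2))
          z.2.2).getLastD []) inferInstance inferInstance
    refine (h4.congr (g := fun z => trc z.1.1 z.1.2 z.2.1 z.2.2) fun z => rfl).bigO 8 (fun z => ?_)
    obtain ⟨⟨E, w⟩, R, P⟩ := z
    simp only [length_bmul, length_bderiv, length_brem]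
    generalize R.length = r
    generalize P.length = p
    generalize E.1 = s
    have e1 : (p + 1) * (w + 1) ≤ (r + p + 1) * (w + 1) * (s + 1) := by
      calc (p + 1) * (w + 1) = (p + 1) * (w + 1) * 1 := (mul_one _).symm
        _ ≤ _ := Nat.mul_le_mul (Nat.mul_le_mul_right _ (by omega)) (by omega)
    have e2 : (r + (p - 1) + 1) * (w + 1) * (s + 1) ≤ (r + p + 1) * (w + 1) * (s + 1) :=
      Nat.mul_le_mul_right _ (Nat.mul_le_mul_right _ (by omega))
    have e3 : (r + (p - 1) - 1 + p + 1) * (w + 1) * (s + 1) ≤
        2 * ((r + p + 1) * (w + 1) * (s + 1)) := by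
      rw [← mul_assoc, ← mul_assoc]
      exact Nat.mul_le_mul_right _ (Nat.mul_le_mul_right _ (by omega))
    have e4 : p + w + 1 ≤ (r + p + 1) * (w + 1) * (s + 1) := by
      calc p + w + 1 ≤ (r + p + 1) * (w + 1) := by nlinarith [Nat.zero_le (r * w), Nat.zero_le (p * w)]
        _ = (r + p + 1) * (w + 1) * 1 := (mul_one _).symm
        _ ≤ _ := Nat.mul_le_mul_left _ (by omega)
    generalize (r + p + 1) * (w + 1) * (s + 1) = A at *
    generalize (r + (p - 1) + 1) * (w + 1) * (s + 1) = B at *
    generalize (r + (p - 1) - 1 + p + 1) * (w + 1) * (s + 1) = B' at *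
    generalize (p + 1) * (w + 1) = B'' at *
    omega⟩

theorem sum_zip_le {α : Type} (c : ℕ) (L M : List (List α)) :
    ((L.zip M).map (fun p => (p.1.length + p.2.length + 1) * c + 1)).sum ≤
      (tot L + tot M) * (c + 1) := by
  induction L generalizing M with
  | nil => simp
  | cons a L ih =>
    cases M with
    | nil => simp
    | cons b M =>
      have := ih M
      simp only [List.zip_cons_cons, List.map_cons, List.sum_cons, tot] at this ⊢
      nlinarith

theorem traces_ex : ∃ c, ∀ (K : Type) [Field K],
    Comp K (fun z : MEnv K × ℕ × List (List K) × List (List (List K)) =>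
      traces z.1 z.2.1 z.2.2.1 z.2.2.2) c
      (fun z => (z.2.2.1.length + tot z.2.2.2 + 1) * (z.2.1 + 1) * (z.1.1 + 1) *
        (Nat.clog 2 z.2.2.2.length + 1) ^ 2) := by
  obtain ⟨cr, hr⟩ := remB_ex
  obtain ⟨ct, ht⟩ := trc_ex
  exact ⟨_, fun K _ => by
    have h2 : Comp K (fun z : (MEnv K × ℕ × List (List K) × List (List (List K))) ×
        List (List K) × List (List K) => trc z.1.1 z.1.2.1 z.2.1 z.2.2) _ _ :=
      (ht K).comp (f := fun z : (MEnv K × ℕ × List (List K) × List (List (List K))) ×
        List (List K) × List (List K) => ((z.1.1, z.1.2.1), z.2.1, z.2.2)) inferInstance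
    have h3 := Comp.zipWith (K := K)
      (l := fun z : MEnv K × ℕ × List (List K) × List (List (List K)) =>
        remB z.1 z.2.1 z.2.2.1 z.2.2.2) (m := fun z => z.2.2.2)
      (g := fun z R P => trc z.1 z.2.1 R P) (h := hr K) (hg := h2)
    refine h3.bigO 8 (fun z => ?_)
    obtain ⟨E, w, h, L⟩ := z
    simp only [zero_add, add_zero]
    have e1 := sum_zip_le ((w + 1) * (E.1 + 1)) (remB E w h L) L
    have e2 := tot_remB E w h L
    simp only [← mul_assoc] at e1
    have e3 : (tot (remB E w h L) + tot L) * ((w + 1) * (E.1 + 1) + 1) ≤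
        4 * ((h.length + tot L + 1) * (w + 1) * (E.1 + 1)) := by
      have : (w + 1) * (E.1 + 1) + 1 ≤ 2 * ((w + 1) * (E.1 + 1)) := by
        nlinarith [Nat.zero_le (w * E.1)]
      calc _ ≤ (2 * (h.length + tot L + 1)) * (2 * ((w + 1) * (E.1 + 1))) :=
            Nat.mul_le_mul (by omega) this
        _ = _ := by ring
    have e4 : (h.length + tot L + 1) * (w + 1) * (E.1 + 1) ≤
        (h.length + tot L + 1) * (w + 1) * (E.1 + 1) * (Nat.clog 2 L.length + 1) ^ 2 :=
      Nat.le_mul_of_pos_right _ (by positivity)
    generalize (h.length + tot L + 1) * (w + 1) * (E.1 + 1) * (Nat.clog 2 L.length + 1) ^ 2 = A at *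
    omega⟩

noncomputable def tracesCd : Cd := traces_ex.choose

instance compTraces {α : Type} [Enc K α] {E : α → MEnv K} {w : α → ℕ} {h : α → List (List K)}
    {L : α → List (List (List K))} {c1 c2 c3 c4 : Cd} {T1 T2 T3 T4 : α → ℕ}
    [h1 : Comp K E c1 T1] [h2 : Comp K w c2 T2] [h3 : Comp K h c3 T3] [h4 : Comp K L c4 T4] :
    Comp K (fun x => traces (E x) (w x) (h x) (L x))
      (tracesCd.comp (c1.pair (c2.pair (c3.pair c4))))
      (fun x => T1 x + (T2 x + (T3 x + T4 x)) +
        ((h x).length + tot (L x) + 1) * (w x + 1) * ((E x).1 + 1) *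
          (Nat.clog 2 (L x).length + 1) ^ 2) :=
  (traces_ex.choose_spec K).comp (Comp.pair (h := h1) (h' := Comp.pair (h := h2)
    (h' := Comp.pair (h := h3) (h' := h4))))

end Pool.Agent.BiFac

end

section

/-!
# The main algorithm: definitions
-/

set_option autoImplicit false

namespace Pool.Agent.BiFac

open Polynomial Pool.Agent.TreeRAM

/-- The data of a modular factor: the factor, its label, its coordinates in the basis of the
window space. -/
abbrev Dat (K : Type) : Type := List (List K) × ℕ × List K

section defs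

variable {K : Type} [Field K]

/-- The windows of the traces: `D = 2 ^ t - n - ρ` and `ρ = r + 1`, the coefficients
`D + n, ..., D + n + ρ - 1`. -/
noncomputable def winRows (E : MEnv K) (t n : ℕ) (Fs : List (List (List K))) (th : List K) :
    List (List K) :=
  (traces E (2 ^ t) (chunks n (2 ^ t - n - (Fs.length + 1) + 1) th) Fs).map
    (fun s => (s.drop (2 ^ t - n - (Fs.length + 1) + n)).take (Fs.length + 1))

/-- The list of the data of the modular factors `Fs` with labels `ms`. -/
noncomputable def sqData (Fs : List (List (List K))) (ms : List ℕ) (B : List (List K)) :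
    List (Dat K) := Fs.zip (ms.zip (transB Fs.length B))

/-- The product of a class modulo `x ^ (2 ^ t)`. -/
noncomputable def clsProd (E : MEnv K) (t : ℕ) (c : List (Dat K)) : List (List K) :=
  prodB E (2 ^ t) (c.map Prod.fst)

/-- The factor and the label belonging to a class. -/
noncomputable def clsOut (E : MEnv K) (t : ℕ) (c : List (Dat K)) : List (List K) × ℕ :=
  ((clsProd E t c).map (padTo (clsProd E t c).length), (c.headD ([], 0, [])).2.1)

/-- The random modulus. -/
def modulus (κ : ℕ) (tm : List K) : List K :=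
  prodP ((chunks 8 (2 * κ + 10) tm).map (fun l => l ++ [1]))

/-- The polynomial `G_b` modulo `x ^ w`. -/
noncomputable def gB (E : MEnv K) (w : ℕ) (U : List (Dat K)) (b : List K) : List (List K) :=
  combB E w (List.zipWith (fun c (u : Dat K) => (smulB c (bderiv w u.1), u.1)) b U)

/-- The vectors of the linearised Frobenius test. -/
noncomputable def testRows (E : MEnv K) (Q : FQ) (t : ℕ) (U : List (Dat K))
    (P : List (List K)) (m : List K) : List (List K) :=
  P.map (fun b => tvec E Q (clsProd E t U).length m (clsProd E t U)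
    (gB E (clsProd E t U).length U b))

/-- The coefficientwise Frobenius map. -/
def frobB (bits : List Bool) (k : ℕ) (F : List (List K)) : List (List K) :=
  F.map (fun r => r.map (frobK bits k))

/-- The conjugates. -/
def conjL (bits : List Bool) (k : ℕ) : ℕ → List (List K) → List (List (List K))
  | 0, _ => []
  | N + 1, F => F :: conjL bits k N (frobB bits k F)

variable [DecidableEq K]

/-- A basis of the window space. -/
noncomputable def winBasis (E : MEnv K) (t n : ℕ) (Fs : List (List (List K))) (th : List K) :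
    List (List K) := leftKer (Fs.length + 1) (winRows E t n Fs th)

/-- Is the class resolved? -/
noncomputable def isRes (E : MEnv K) (t : ℕ) (c : List (Dat K)) : Bool :=
  isTri ((clsProd E t c).length - 1) (clsProd E t c)

/-- A basis of the restriction of the window space (spanned by `k` vectors) to `U`. -/
noncomputable def restBasis (k : ℕ) (U : List (Dat K)) : List (List K) :=
  pick (elimN U.length (transB k (U.map fun u => u.2.2))) (transB k (U.map fun u => u.2.2))

/-- The kernel of the test. -/
noncomputable def kerU (E : MEnv K) (Q : FQ) (t : ℕ) (U : List (Dat K)) (P : List (List K))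
    (m : List K) : List (List K) :=
  leftKerN (((clsProd E t U).length - 1) * (m.length - 1)) (testRows E Q t U P m)

/-- The second stage: the classes of the unresolved modular factors. -/
noncomputable def stage2 (E : MEnv K) (Q : FQ) (t k : ℕ) (U : List (Dat K)) (tm tc : List K) :
    List (List (Dat K)) :=
  classesBy (lincomb (lincomb tc (kerU E Q t U (restBasis k U)
    (modulus (restBasis k U).length tm))) (restBasis k U)) U

/-- The unresolved modular factors. -/
noncomputable def unres (E : MEnv K) (t : ℕ) (cl : List (List (Dat K))) : List (Dat K) :=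
  (cl.filter (fun c => !isRes E t c)).flatten

/-- The last step. -/
noncomputable def sqOut (E : MEnv K) (Q : FQ) (t k : ℕ) (cl : List (List (Dat K)))
    (tm tc : List K) : List (List (List K) × ℕ) :=
  (cl.filter (isRes E t)).map (clsOut E t) ++
    (stage2 E Q t k (unres E t cl) tm tc).map (clsOut E t)

/-- The classes of the first stage. -/
noncomputable def sqClasses (tw : List K) (Fs : List (List (List K))) (ms : List ℕ)
    (B : List (List K)) : List (List (Dat K)) :=
  classesBy (lincomb tw B) (sqData Fs ms B)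

/-- The irreducible factors of the squarefree monic polynomial `G` from its modular factors
with labels `zs`; the last four arguments are random. -/
noncomputable def sqMain (E : MEnv K) (Q : FQ) (t : ℕ) (G : List (List K))
    (zs : List (List K × ℕ)) (th tw tm tc : List K) : List (List (List K) × ℕ) :=
  sqOut E Q t (winBasis E t (G.length - 1) (lift E t G (zs.map Prod.fst)) th).length
    (sqClasses tw (lift E t G (zs.map Prod.fst)) (zs.map Prod.snd)
      (winBasis E t (G.length - 1) (lift E t G (zs.map Prod.fst)) th)) tm tc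

/-- One step of the computation of a root. -/
noncomputable def proStep (Q : FQ) (pn : ℕ) (s : ℕ × List (List K)) : ℕ × List (List K) :=
  if 2 ≤ pn ∧ 0 < s.1 ∧ s.1 % pn = 0 then (s.1 / pn, prootB Q pn s.2) else s

/-- The `m`-th root of `H`; `R0` is the root modulo `x`. -/
noncomputable def rootB (E : MEnv K) (Q : FQ) (t m : ℕ) (H : List (List K)) (R0 : List K) :
    List (List K) :=
  let s := (proStep Q (unCap (m + 1) Q.1))^[Nat.clog 2 (m + 1)] (m, H)
  nthRoot E t s.1 s.2 R0

/-- The product of the factors of the fibre with multiplicity `m`, together with `m`. -/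
def fibParts (zs : List (List K × ℕ)) : List (ℕ × List K) :=
  (zs.map Prod.snd).dedup.map
    (fun m => (m, prodP ((zs.filter (fun z => decide (z.2 = m))).map Prod.fst)))

/-- The product of the distinct irreducible factors of `F`. -/
noncomputable def radB (E : MEnv K) (Q : FQ) (t : ℕ) (F : List (List K))
    (zs : List (List K × ℕ)) : List (List K) :=
  prodB E (2 ^ t) (List.zipWith (fun (z : ℕ × List K) H => rootB E Q t z.1 H z.2) (fibParts zs)
    (lift E t F ((fibParts zs).map (fun z => prodP (List.replicate z.1 z.2)))))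

/-- The leading coefficient for the lexicographic order. -/
def lcB (F : List (List K)) : K :=
  (F.flatten.filter (fun a => !decide (a = 0))).getLastD 0

/-- Normalisation of the leading coefficient. -/
def normB (F : List (List K)) : List (List K) := smulB (lcB F)⁻¹ F

/-- The product of the distinct conjugates. -/
noncomputable def orbProd (E : MEnv K) (bits : List Bool) (k N : ℕ) (F : List (List K)) :
    List (List K) :=
  prodB E ((conjL bits k N F).dedup.length * (F.length - 1) + 1) (conjL bits k N F).dedup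

/-- From the factorisation over the extension to the factorisation over the small field. -/
noncomputable def descendL (E : MEnv K) (bits : List Bool) (k N : ℕ)
    (out : List (List (List K) × ℕ)) : List (List (List K) × ℕ) :=
  ((out.map (fun z => (orbProd E bits k N (normB z.1), z.2))).dedup).map
    (fun z => (toDense (z.1.length - 1) z.1, z.2))

/-- The number of the rounds of splitting. -/
def nbOf (d : ℕ) : ℕ := 8 * Nat.clog 2 (d + 2)

/-- The precision of the second lifting is `2 ^ tOf d`. -/
noncomputable def tOf (d : ℕ) : ℕ := Nat.clog 2 (4 * (d + 2) * nroot 2 (d + 2))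

/-- The number of blocks of the fast multiplication. -/
noncomputable def sOf (d : ℕ) : ℕ := 2 * nroot 400 (d + 1)

/-- The polynomial after the change of coordinates, made monic. -/
noncomputable def monicL (E : MEnv K) (a b : K) (Fd : List (List K)) : List (List K) :=
  normB (shearB E (Fd.length - 1) a b (fromDense Fd))

end defs

section contexts

variable {K : Type} [Field K]

/-- The family of the modular factors of a list of data. -/
noncomputable def famP (U : List (Dat K)) (i : Fin U.length) : K[X][X] := toB (U.get i).1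

/-- The basis vector number `l`, restricted to `U`. -/
def famB (U : List (Dat K)) (l : ℕ) (i : Fin U.length) : K := vec (U.get i).2.2 l

/-- A list as a vector indexed by the positions of `U`. -/
def onU (U : List (Dat K)) (w : List K) (i : Fin U.length) : K := vec w i

/-- The coefficients of the random functional. -/
def thC (n D : ℕ) (th : List K) (k : Fin n) (a : Fin (D + 1)) : K := th.getD (k * (D + 1) + a) 0

/-- `U` is a list of data of the modular factors of `F`. -/
structure DatOk (E : MEnv K) (t : ℕ) (F : K[X][X]) (U : List (Dat K)) : Prop where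
  good : E.Good
  lifted : Lifted (2 ^ t) F (famP U)
  shape : ∀ u ∈ U, ML (2 ^ t) u.1
  lt : F.natDegree < 2 ^ t
  fits : Fits E (512 * (F.natDegree + 2)) (2 ^ t)

/-- The hypotheses about the input of `sqMain`. -/
structure SqHyp (E : MEnv K) (t : ℕ) (G : List (List K)) (zs : List (List K × ℕ)) : Prop where
  good : E.Good
  monic : (toB G).Monic
  len : G.length = (toB G).natDegree + 1
  tdeg : TDeg (toB G).natDegree (toB G)
  pos : 0 < (toB G).natDegree
  mp : ∀ z ∈ zs, MP z.1 ∧ Irreducible (toP z.1)
  nodup : (zs.map (fun z => toP z.1)).Nodup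
  prod : red (toB G) = (zs.map (fun z => toP z.1)).prod
  sep : (red (toB G)).Separable
  big : 4 * ((toB G).natDegree + 2) ≤ 2 ^ t
  fits : Fits E (512 * ((toB G).natDegree + 2)) (2 ^ t)

/-- The functional is bad. -/
def BadH {r : ℕ} (P : Fin r → K[X][X]) (n D ρ : ℕ) (c : Fin n → Fin (D + 1) → K) : Prop :=
  ∃ μ : Fin r → K, InW P n D ρ (hpoly c) μ ∧ ¬ Bad P n ρ (D + n + ρ) μ

/-- The combination of the vectors `B` with coefficients `tw` does not separate. -/
def NotSep (r : ℕ) (B : List (List K)) (tw : List K) : Prop :=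
  ∃ i < r, ∃ j < r, vec (lincomb tw B) i = vec (lincomb tw B) j ∧ ¬ ∀ b ∈ B, vec b i = vec b j

/-- The modulus is bad: a vector that is not constant on the true factors passes the test. -/
def BadMod [DecidableEq K] (q : ℕ) (E : MEnv K) (t k : ℕ) (U : List (Dat K)) (tm : List K) :
    Prop :=
  ∃ c : Fin (restBasis k U).length → K,
    ¬ ConstOn (toB (clsProd E t U)) (famP U) (fun i => ∑ l, c l * vec ((restBasis k U).get l) i) ∧
    ∀ j, toP (modulus (restBasis k U).length tm) ∣ ((Tfrob q (toB (clsProd E t U))
      (∑ l, C (C (c l)) * toB (gB E (clsProd E t U).length U ((restBasis k U).get l)))) %ₘ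
      (toB (clsProd E t U))).coeff j

/-- The vectors of the kernel of the test as vectors on `U`. -/
noncomputable def kerVecs [DecidableEq K] (E : MEnv K) (Q : FQ) (t k : ℕ) (U : List (Dat K))
    (tm : List K) : List (List K) :=
  (kerU E Q t U (restBasis k U) (modulus (restBasis k U).length tm)).map
    (fun c => lincomb c (restBasis k U))

/-- The list of the data in `sqMain`. -/
noncomputable def sqDat [DecidableEq K] (E : MEnv K) (t : ℕ) (G : List (List K))
    (zs : List (List K × ℕ)) (th : List K) : List (Dat K) :=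
  sqData (lift E t G (zs.map Prod.fst)) (zs.map Prod.snd)
    (winBasis E t (G.length - 1) (lift E t G (zs.map Prod.fst)) th)

/-- The basis of the window space in `sqMain`. -/
noncomputable def sqBas [DecidableEq K] (E : MEnv K) (t : ℕ) (G : List (List K))
    (zs : List (List K × ℕ)) (th : List K) : List (List K) :=
  winBasis E t (G.length - 1) (lift E t G (zs.map Prod.fst)) th

/-- The unresolved data in `sqMain`. -/
noncomputable def sqUn [DecidableEq K] (E : MEnv K) (t : ℕ) (G : List (List K))
    (zs : List (List K × ℕ)) (th tw : List K) : List (Dat K) :=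
  unres E t (classesBy (lincomb tw (sqBas E t G zs th)) (sqDat E t G zs th))

end contexts

end Pool.Agent.BiFac

end

section

/-!
# Complete factorisation in one variable
-/

set_option autoImplicit false
set_option synthInstance.maxSize 4096

namespace Pool.Agent.BiFac

open Polynomial Pool.Agent.TreeRAM

variable {K : Type} [Field K]


/-! ### Algebra -/

theorem uf_deriv_zero {g c w A g1 : K[X]} (h1 : g = w * c) (h2 : c ∣ derivative g)
    (h3 : g = A * g1) (h4 : IsCoprime g1 w) (h5 : IsCoprime g1 A) : derivative g1 = 0 := by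
  have e1 : g1 ∣ c := by
    refine h4.dvd_of_dvd_mul_left ?_
    rw [← h1, h3]
    exact dvd_mul_left _ _
  have e2 : g1 ∣ derivative A * g1 + A * derivative g1 := by
    rw [← derivative_mul, ← h3]
    exact e1.trans h2
  have e3 : g1 ∣ A * derivative g1 := (dvd_add_right (dvd_mul_left _ _)).1 e2
  exact dvd_derivative_iff.1 (h5.dvd_of_dvd_mul_left e3)

theorem uf_squarefree {g c w : K[X]} (h0 : g ≠ 0) (h1 : g = w * c)
    (h3 : ∀ h, h ∣ g → h ∣ derivative g → h ∣ c) : Squarefree w := by
  have hw : w ≠ 0 := by
    rintro rfl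
    exact h0 (by rw [h1, zero_mul])
  have hc : c ≠ 0 := by
    rintro rfl
    exact h0 (by rw [h1, mul_zero])
  rw [squarefree_iff_irreducible_sq_not_dvd_of_ne_zero hw]
  intro π hπ hd
  have key : ∀ k : ℕ, π ^ k ∣ c := by
    intro k
    induction k with
    | zero => simp
    | succ k ih =>
      have e1 : π ^ (k + 2) ∣ g := by
        have : π ^ (k + 2) = (π * π) * π ^ k := by ring
        rw [h1, this]
        exact mul_dvd_mul hd ih
      refine h3 _ ((pow_dvd_pow _ (by omega)).trans e1) ?_
      have e2 := pow_sub_one_dvd_derivative_of_pow_dvd e1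
      have e3 : k + 2 - 1 = k + 1 := rfl
      rw [e3] at e2
      exact e2
  have hdeg : 0 < π.natDegree := hπ.natDegree_pos
  have := natDegree_le_of_dvd (key (c.natDegree + 1)) hc
  rw [natDegree_pow] at this
  nlinarith

theorem uf_charP [Fintype K] {p k : ℕ} (hp : p.Prime) (hk : Fintype.card K = p ^ k) :
    CharP K p := by
  obtain ⟨r, hr⟩ := CharP.exists K
  have hrp : r.Prime := by
    rcases CharP.char_is_prime_or_zero K r with h | h
    · exact h
    · exfalso
      subst h
      have := CharP.cast_eq_zero_iff K 0 (Fintype.card K)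
      rw [FiniteField.cast_card_eq_zero] at this
      have := this.mp rfl
      rw [zero_dvd_iff] at this
      have := Fintype.one_lt_card (α := K)
      omega
  have hd : r ∣ p ^ k := by
    rw [← hk]
    exact (CharP.cast_eq_zero_iff K r (Fintype.card K)).mp (FiniteField.cast_card_eq_zero K)
  have : r = p := (Nat.prime_dvd_prime_iff_eq hrp hp).mp (hrp.dvd_of_dvd_pow hd)
  rw [← this]
  exact hr



theorem uf_proot' {p : ℕ} (hp : p.Prime) [Fintype K] [CharP K p] {g : K[X]}
    (hg : derivative g = 0) (hm : g.Monic) :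
    ∃ h : K[X], h.Monic ∧ g = h ^ p ∧ g.natDegree = p * h.natDegree := by
  have : Fact p.Prime := ⟨hp⟩
  have : ExpChar K p := ExpChar.prime hp
  have : PerfectRing K p := PerfectRing.ofFiniteOfIsReduced p K
  let h := map ((frobeniusEquiv K p).symm : K →+* K) (contract p g)
  have e : g = h ^ p := by
    have e1 : (frobenius K p).comp ((frobeniusEquiv K p).symm : K →+* K) = RingHom.id K := by
      ext x
      simp
    rw [← map_frobenius_expand p h, ← map_expand, map_map, e1, map_id,
      expand_contract p hg hp.ne_zero]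
  have e2 : h.Monic := by
    have e3 : h.leadingCoeff ^ p = 1 ^ p := by
      rw [← leadingCoeff_pow, ← e, hm, one_pow]
    exact frobenius_inj K p e3
  exact ⟨h, e2, e, by rw [e, natDegree_pow]⟩



/-! ### Lists -/

section lists

variable [DecidableEq K]

theorem uf_natDegree_lt {a : List K} (h : toP a ≠ 0) : (toP a).natDegree + 1 ≤ a.length := by
  have := degree_toP_lt a
  rw [degree_eq_natDegree h] at this
  exact_mod_cast this

theorem uf_ext {a b : List K} (h : toP a = toP b) (hl : a.length = b.length) : a = b := by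
  refine List.ext_getElem hl fun i h1 h2 => ?_
  have := congrArg (fun P => coeff P i) h
  simp only [coeff_toP] at this
  rwa [List.getD_eq_getElem _ _ h1, List.getD_eq_getElem _ _ h2] at this

theorem uf_trim_trim (a : List K) : trimP (trimP a) = trimP a :=
  uf_ext (toP_trimP _) (by rw [length_trimP, length_trimP, toP_trimP])

theorem uf_length_trim (a : List K) : (trimP a).length ≤ a.length := by
  rw [length_trimP]
  split_ifs with h
  · exact Nat.zero_le _
  · exact uf_natDegree_lt h

theorem uf_MP_trim {a : List K} (h : (toP a).Monic) : MP (trimP a) := by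
  refine ⟨by rw [toP_trimP]; exact h, ?_⟩
  rw [length_trimP, if_neg h.ne_zero, toP_trimP]

theorem uf_length_of_trim {a : List K} (h : trimP a = a) :
    a.length = if toP a = 0 then 0 else (toP a).natDegree + 1 := by
  rw [← length_trimP, h]

theorem uf_nil_iff {a : List K} (h : trimP a = a) : a = [] ↔ toP a = 0 := by
  constructor
  · rintro rfl
    rfl
  · intro h0
    have := uf_length_of_trim h
    rw [if_pos h0] at this
    exact List.length_eq_zero_iff.1 this

theorem uf_MP_divN {a b : List K} (h : (toP a / toP b).Monic) : MP (divN a b) := by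
  rw [← toP_divN] at h
  refine ⟨h, ?_⟩
  rw [uf_length_of_trim (trim_divN a b), if_neg h.ne_zero]

theorem uf_length_divN (a b : List K) : (divN a b).length ≤ a.length := by
  rw [uf_length_of_trim (trim_divN a b), toP_divN]
  split_ifs with h
  · exact Nat.zero_le _
  · have h1 : toP a ≠ 0 := by
      intro h0
      exact h (by rw [h0, EuclideanDomain.zero_div])
    refine le_trans ?_ (uf_natDegree_lt h1)
    have := natDegree_le_natDegree (degree_div_le (toP a) (toP b))
    omega

/-- Divide `g` by `w` as often as possible, at most `n` times. -/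
def extr : ℕ → List K → List K → ℕ × List K
  | 0, _, g => (0, g)
  | n + 1, w, g => bif decide (w.length ≤ g.length) && (modN g w).isEmpty then
      ((extr n w (divN g w)).1 + 1, (extr n w (divN g w)).2) else (0, g)

theorem uf_extr_len (n : ℕ) (w g : List K) (hw : trimP w = w) (h2 : 2 ≤ w.length) :
    (extr n w g).1 * (w.length - 1) + (extr n w g).2.length ≤ g.length := by
  induction n generalizing g with
  | zero => simp [extr]
  | succ n ih =>
    rw [extr]
    cases hb : (decide (w.length ≤ g.length) && (modN g w).isEmpty) with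
    | false => simp
    | true =>
      rw [cond_true]
      rw [Bool.and_eq_true, decide_eq_true_eq, List.isEmpty_iff] at hb
      obtain ⟨h1, h3⟩ := hb
      have key : (divN g w).length + (w.length - 1) ≤ g.length := by
        rw [uf_length_of_trim (trim_divN g w), toP_divN]
        split_ifs with h0
        · omega
        · have hg : toP g ≠ 0 := by
            intro h0'
            exact h0 (by rw [h0', EuclideanDomain.zero_div])
          have hl := uf_natDegree_lt hg
          have hwl := uf_length_of_trim hw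
          have hw0 : toP w ≠ 0 := by
            intro h0'
            rw [if_pos h0'] at hwl
            omega
          rw [if_neg hw0] at hwl
          have hdiv : toP w * (toP g / toP w) = toP g := by
            have e := EuclideanDomain.div_add_mod (toP g) (toP w)
            rw [← toP_modN, h3, toP_nil, add_zero] at e
            exact e
          have := congrArg natDegree hdiv
          rw [natDegree_mul hw0 h0] at this
          omega
      have := ih (divN g w)
      have e : ((extr n w (divN g w)).1 + 1) * (w.length - 1) =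
        (extr n w (divN g w)).1 * (w.length - 1) + (w.length - 1) := by ring
      show ((extr n w (divN g w)).1 + 1) * (w.length - 1) + (extr n w (divN g w)).2.length ≤ _
      omega

theorem uf_extr_spec (n : ℕ) {w g : List K} (hg : MP g) (hw : MP w)
    (hw1 : 0 < (toP w).natDegree) (hn : g.length ≤ n) :
    MP (extr n w g).2 ∧ toP g = toP w ^ (extr n w g).1 * toP (extr n w g).2 ∧
      ¬ toP w ∣ toP (extr n w g).2 := by
  induction n generalizing g with
  | zero =>
    exfalso
    have := hg.len
    omega
  | succ n ih =>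
    rw [extr]
    cases hb : (decide (w.length ≤ g.length) && (modN g w).isEmpty) with
    | false =>
      rw [cond_false]
      refine ⟨hg, by simp, ?_⟩
      show ¬ toP w ∣ toP g
      rw [Bool.and_eq_false_iff] at hb
      rcases hb with h | h
      · rw [decide_eq_false_iff_not] at h
        intro hd
        have := natDegree_le_of_dvd hd hg.monic.ne_zero
        have h1 := hg.len
        have h2 := hw.len
        omega
      · intro hd
        have h0 : toP (modN g w) = 0 := by
          rw [toP_modN]
          exact (EuclideanDomain.mod_eq_zero).2 hd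
        have := (uf_nil_iff (trim_modN g w)).2 h0
        rw [this] at h
        simp at h
    | true =>
      rw [cond_true]
      rw [Bool.and_eq_true, decide_eq_true_eq, List.isEmpty_iff] at hb
      obtain ⟨h1, h3⟩ := hb
      have hdiv : toP w * (toP g / toP w) = toP g := by
        have e := EuclideanDomain.div_add_mod (toP g) (toP w)
        rw [← toP_modN, h3, toP_nil, add_zero] at e
        exact e
      have hmon : (toP g / toP w).Monic := by
        have := hg.monic
        rw [← hdiv] at this
        exact hw.monic.of_mul_monic_left this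
      have hMP := uf_MP_divN hmon
      have hlen : (divN g w).length ≤ n := by
        have e1 := hMP.len
        rw [toP_divN] at e1
        have e2 := congrArg natDegree hdiv
        rw [natDegree_mul hw.monic.ne_zero hmon.ne_zero] at e2
        have e3 := hg.len
        omega
      obtain ⟨i1, i2, i3⟩ := ih hMP hlen
      refine ⟨i1, ?_, i3⟩
      show toP g = toP w ^ ((extr n w (divN g w)).1 + 1) * toP (extr n w (divN g w)).2
      rw [pow_succ', mul_assoc, ← i2, toP_divN, hdiv]

/-- Divide `g` by `w` as often as possible. -/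
def extract (w g : List K) : ℕ × List K :=
  bif decide ((trimP w).length ≤ 1) then (0, g) else extr g.length (trimP w) g

theorem uf_extract_len (w g : List K) :
    (extract w g).1 * ((trimP w).length - 1) + (extract w g).2.length ≤ g.length := by
  rw [extract]
  by_cases h : (trimP w).length ≤ 1
  · simp [h]
  · simp only [h, decide_false, cond_false]
    exact uf_extr_len _ _ _ (uf_trim_trim w) (by omega)

theorem uf_extract_pos (w g : List K) (h : (extract w g).1 ≠ 0) : 2 ≤ (trimP w).length := by
  by_contra h2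
  apply h
  rw [extract]
  have : (trimP w).length ≤ 1 := by omega
  simp [this]

theorem uf_extract_spec {w g : List K} (hg : MP g) (hw : MP w)
    (hw1 : 0 < (toP w).natDegree) :
    MP (extract w g).2 ∧ toP g = toP w ^ (extract w g).1 * toP (extract w g).2 ∧
      ¬ toP w ∣ toP (extract w g).2 := by
  have hl : (trimP w).length = (toP w).natDegree + 1 := by
    rw [length_trimP, if_neg hw.monic.ne_zero]
  have h1 : ¬ (trimP w).length ≤ 1 := by omega
  have e : extract w g = extr g.length (trimP w) g := by
    rw [extract]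
    simp [h1]
  rw [e, ← toP_trimP w]
  exact uf_extr_spec _ hg (uf_MP_trim hw.monic) (by rw [toP_trimP]; exact hw1) le_rfl

/-- Divide `g` by the elements of the list as often as possible; the quotient is the second
component. -/
def exAll : List (List K) → List K → List (List K × ℕ) × List K
  | [], g => ([], g)
  | w :: ws, g => (bif decide ((extract w g).1 = 0) then (exAll ws (extract w g).2).1
      else (trimP w, (extract w g).1) :: (exAll ws (extract w g).2).1,
      (exAll ws (extract w g).2).2)

theorem uf_exAll_len (ws : List (List K)) (g : List K) :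
    ((exAll ws g).1.map (fun z => z.2 * (z.1.length - 1))).sum + (exAll ws g).2.length ≤
      g.length ∧ ∀ z ∈ (exAll ws g).1, 2 ≤ z.1.length ∧ 1 ≤ z.2 := by
  induction ws generalizing g with
  | nil => simp [exAll]
  | cons w ws ih =>
    obtain ⟨i1, i2⟩ := ih (extract w g).2
    have hl := uf_extract_len w g
    rw [exAll]
    by_cases h : (extract w g).1 = 0
    · simp only [h, decide_true, cond_true]
      rw [h] at hl
      exact ⟨by omega, i2⟩
    · simp only [h, decide_false, cond_false]
      refine ⟨?_, ?_⟩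
      · simp only [List.map_cons, List.sum_cons]
        omega
      · intro z hz
        rw [List.mem_cons] at hz
        rcases hz with rfl | hz
        · exact ⟨uf_extract_pos w g h, by
            show 1 ≤ (extract w g).1
            omega⟩
        · exact i2 z hz

theorem uf_exAll_spec {ws : List (List K)} {g : List K} (hg : MP g)
    (hws : ∀ w ∈ ws, MP w ∧ 0 < (toP w).natDegree) :
    MP (exAll ws g).2 ∧
    toP g = ((exAll ws g).1.map (fun z => toP z.1 ^ z.2)).prod * toP (exAll ws g).2 ∧
    (∀ w ∈ ws, ¬ toP w ∣ toP (exAll ws g).2) ∧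
    (((exAll ws g).1.map (fun z => toP z.1)).Sublist (ws.map toP)) ∧
    ∀ z ∈ (exAll ws g).1, MP z.1 ∧ 0 < z.2 := by
  induction ws generalizing g with
  | nil =>
    refine ⟨hg, ?_, ?_, ?_, ?_⟩
    · simp [exAll]
    · intro w hw
      simp at hw
    · simp [exAll]
    · intro z hz
      simp [exAll] at hz
  | cons w ws ih =>
    obtain ⟨hw, hw1⟩ := hws w (List.mem_cons_self ..)
    obtain ⟨e1, e2, e3⟩ := uf_extract_spec hg hw hw1
    obtain ⟨i1, i2, i3, i4, i5⟩ := ih e1 (fun v hv => hws v (List.mem_cons_of_mem _ hv))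
    have hd : ∀ v ∈ w :: ws, ¬ toP v ∣ toP (exAll ws (extract w g).2).2 := by
      intro v hv
      rw [List.mem_cons] at hv
      rcases hv with rfl | hv
      · intro hdv
        exact e3 (by rw [i2]; exact hdv.mul_left _)
      · exact i3 v hv
    rw [exAll]
    by_cases h : (extract w g).1 = 0
    · simp only [h, decide_true, cond_true]
      rw [h, pow_zero, one_mul] at e2
      refine ⟨i1, ?_, hd, ?_, i5⟩
      · rw [e2]
        exact i2
      · rw [List.map_cons]
        exact i4.cons _
    · simp only [h, decide_false, cond_false]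
      refine ⟨i1, ?_, hd, ?_, ?_⟩
      · rw [List.map_cons, List.prod_cons, mul_assoc, ← i2, toP_trimP]
        exact e2
      · rw [List.map_cons, List.map_cons, toP_trimP]
        exact i4.cons_cons _
      · intro z hz
        rw [List.mem_cons] at hz
        rcases hz with rfl | hz
        · exact ⟨uf_MP_trim hw.monic, Nat.pos_of_ne_zero h⟩
        · exact i5 z hz

end lists


/-! ### One round -/

section round

variable [DecidableEq K]

/-- The product of the irreducible factors whose multiplicity is prime to the characteristic. -/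
def uw (g : List K) : List K :=
  bif decide ((trimP g).length ≤ 1) then [] else
    divN (trimP g) (gcdN (trimP g) (derivP (trimP g)))

/-- The factors of the squarefree polynomial `w`. -/
noncomputable def usq (E : MEnv K) (Q : FQ) (nb : ℕ) (w tape : List K) : List (List K) :=
  bif decide (w.length ≤ 1) then [] else sqFactor E Q nb w (tape.take (nb * w.length))

/-- One round: the factors with their multiplicities and the remaining `p`-th power. -/
noncomputable def uround (E : MEnv K) (Q : FQ) (nb : ℕ) (g tape : List K) : List (List K × ℕ) × List K :=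
  exAll (usq E Q nb (uw g) tape) (trimP g)

/-- All rounds. -/
noncomputable def uloop (E : MEnv K) (Q : FQ) (nb N : ℕ) : ℕ → List K → ℕ → List K → List (List K × ℕ)
  | 0, _, _, _ => []
  | n + 1, g, e, tape => bif decide ((trimP g).length ≤ 1) then [] else
      (uround E Q nb g tape).1.map (fun z => (z.1, z.2 * e)) ++
        uloop E Q nb N n (prootP Q (unCap N Q.1) (uround E Q nb g tape).2)
          (min N (e * unCap N Q.1)) (tape.drop (nb * N))

/-- Complete factorisation of the monic polynomial `f` with the random elements `tape`. -/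
noncomputable def uniFactor (E : MEnv K) (Q : FQ) (nb : ℕ) (f : List K) (tape : List K) :
    List (List K × ℕ) := uloop E Q nb f.length (Nat.clog 2 f.length + 2) f 1 tape

/-- the number of random elements -/
def uniTape (nb n : ℕ) : ℕ := (Nat.clog 2 n + 2) * (nb * n)

omit [DecidableEq K] in
theorem uf_nodup {l : List K[X]} (h : Squarefree l.prod) (hu : ∀ x ∈ l, ¬ IsUnit x) :
    l.Nodup := by
  induction l with
  | nil => exact List.nodup_nil
  | cons x l ih =>
    rw [List.prod_cons] at h
    rw [List.nodup_cons]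
    refine ⟨fun hx => ?_, ih h.of_mul_right (fun y hy => hu y (List.mem_cons_of_mem _ hy))⟩
    exact hu x (List.mem_cons_self ..) (h x (mul_dvd_mul_left x (List.dvd_prod hx)))

omit [DecidableEq K] in
theorem uf_coprime_prod {a : K[X]} {l : List K[X]} (h : ∀ x ∈ l, IsCoprime a x) :
    IsCoprime a l.prod := by
  induction l with
  | nil => simpa using isCoprime_one_right
  | cons x l ih =>
    rw [List.prod_cons]
    exact (h x (List.mem_cons_self ..)).mul_right (ih fun y hy => h y (List.mem_cons_of_mem _ hy))

theorem uf_uw {g : List K} (hg : MP g) (h2 : 2 ≤ g.length) :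
    MP (uw g) ∧ Squarefree (toP (uw g)) ∧ (uw g).length ≤ g.length ∧
    ∃ c : K[X], toP g = toP (uw g) * c ∧ c ∣ derivative (toP g) := by
  have hl : (trimP g).length = g.length := by
    rw [length_trimP, if_neg hg.monic.ne_zero, hg.len]
  have h1 : ¬ (trimP g).length ≤ 1 := by omega
  have e : uw g = divN (trimP g) (gcdN (trimP g) (derivP (trimP g))) := by
    rw [uw]
    simp [h1]
  have h0 : toP (trimP g) ≠ 0 := by
    rw [toP_trimP]
    exact hg.monic.ne_zero
  have hc := gcdN_MP (a := trimP g) (b := derivP (trimP g)) (Or.inl h0)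
  have hd1 := gcdN_dvd_left (trimP g) (derivP (trimP g))
  have hd2 := gcdN_dvd_right (trimP g) (derivP (trimP g))
  have hd3 : ∀ h : K[X], h ∣ toP g → h ∣ derivative (toP g) →
      h ∣ toP (gcdN (trimP g) (derivP (trimP g))) := fun h ha hb =>
    dvd_gcdN (by rw [toP_trimP]; exact ha) (by rw [toP_derivP, toP_trimP]; exact hb)
  rw [toP_derivP, toP_trimP] at hd2
  rw [toP_trimP] at hd1
  set c := gcdN (trimP g) (derivP (trimP g)) with hcdef
  have e1 : toP g = toP g / toP c * toP c := by
    rw [mul_comm]
    exact (EuclideanDomain.mul_div_cancel' hc.monic.ne_zero hd1).symm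
  have e2 : toP (uw g) = toP g / toP c := by rw [e, toP_divN, toP_trimP]
  have hmon : (toP g / toP c).Monic := by
    have := hg.monic
    rw [e1] at this
    exact hc.monic.of_mul_monic_right this
  refine ⟨?_, ?_, ?_, toP c, ?_, hd2⟩
  · rw [e]
    refine uf_MP_divN ?_
    rw [toP_trimP]
    exact hmon
  · rw [e2]
    exact uf_squarefree hg.monic.ne_zero e1 hd3
  · rw [e, ← hl]
    exact uf_length_divN _ _
  · rw [e2]
    exact e1

theorem uf_usq {E : MEnv K} {Q : FQ} {nb : ℕ} {w : List K} (hw : MP w)
    (hsq : Squarefree (toP w)) (tape : List K) :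
    (∀ v ∈ usq E Q nb w tape, MP v ∧ 0 < (toP v).natDegree) ∧
    ((usq E Q nb w tape).map toP).prod = toP w := by
  rw [usq]
  by_cases h : w.length ≤ 1
  · simp only [h, decide_true, cond_true]
    have hl := hw.len
    have h0 : (toP w).natDegree = 0 := by omega
    have : toP w = 1 := hw.monic.natDegree_eq_zero.1 h0
    simp [this]
  · simp only [h, decide_false, cond_false]
    have hl := hw.len
    exact sqFactor_always hw hsq (by omega) _

/-- The result `L` is correct for `g ^ e`. -/
def UGood (g : List K) (e : ℕ) (L : List (List K × ℕ)) : Prop :=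
  (∀ z ∈ L, MP z.1 ∧ Irreducible (toP z.1) ∧ 0 < z.2) ∧
    (L.map (fun z => toP z.1)).Nodup ∧ (L.map (fun z => toP z.1 ^ z.2)).prod = toP g ^ e

theorem uf_round {E : MEnv K} {Q : FQ} {nb : ℕ} {g tape : List K} (hg : MP g)
    (h2 : 2 ≤ g.length) (hs : ∀ v ∈ usq E Q nb (uw g) tape, Irreducible (toP v)) :
    MP (uround E Q nb g tape).2 ∧ derivative (toP (uround E Q nb g tape).2) = 0 ∧
    toP g = ((uround E Q nb g tape).1.map (fun z => toP z.1 ^ z.2)).prod *
      toP (uround E Q nb g tape).2 ∧
    ((uround E Q nb g tape).1.map (fun z => toP z.1)).Nodup ∧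
    ∀ z ∈ (uround E Q nb g tape).1, MP z.1 ∧ Irreducible (toP z.1) ∧ 0 < z.2 ∧
      ¬ toP z.1 ∣ toP (uround E Q nb g tape).2 := by
  obtain ⟨w1, w2, w3, c, w4, w5⟩ := uf_uw hg h2
  obtain ⟨s1, s2⟩ := uf_usq (E := E) (Q := Q) (nb := nb) w1 w2 tape
  obtain ⟨x1, x2, x3, x4, x5⟩ := uf_exAll_spec (uf_MP_trim hg.monic) s1
  rw [toP_trimP] at x2
  have hz : ∀ z ∈ (uround E Q nb g tape).1, Irreducible (toP z.1) ∧
      ¬ toP z.1 ∣ toP (uround E Q nb g tape).2 := by
    intro z hz
    have := x4.subset (List.mem_map_of_mem (f := fun z : List K × ℕ => toP z.1) hz)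
    rw [List.mem_map] at this
    obtain ⟨v, hv, hv'⟩ := this
    have hv'' : toP v = toP z.1 := hv'
    rw [← hv'']
    exact ⟨hs v hv, x3 v hv⟩
  refine ⟨x1, ?_, x2, ?_, fun z hz' => ⟨(x5 z hz').1, (hz z hz').1, (x5 z hz').2, (hz z hz').2⟩⟩
  · refine uf_deriv_zero w4 w5 x2 ?_ ?_
    · rw [← s2]
      refine uf_coprime_prod fun x hx => ?_
      rw [List.mem_map] at hx
      obtain ⟨v, hv, rfl⟩ := hx
      exact ((hs v hv).coprime_iff_not_dvd.2 (x3 v hv)).symm
    · refine uf_coprime_prod fun x hx => ?_
      rw [List.mem_map] at hx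
      obtain ⟨z, hz', rfl⟩ := hx
      exact ((hz z hz').1.coprime_iff_not_dvd.2 (hz z hz').2).symm.pow_right
  · refine List.Nodup.sublist x4 ?_
    refine uf_nodup (by rw [s2]; exact w2) fun x hx => ?_
    rw [List.mem_map] at hx
    obtain ⟨v, hv, rfl⟩ := hx
    exact (hs v hv).not_isUnit

end round

/-! ### Correctness and probability -/

section correct

variable [DecidableEq K]

omit [DecidableEq K] in
theorem uf_prod_pow (L : List (List K × ℕ)) (e : ℕ) :
    ((L.map (fun z => (z.1, z.2 * e))).map (fun z => toP z.1 ^ z.2)).prod =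
      (L.map (fun z => toP z.1 ^ z.2)).prod ^ e := by
  induction L with
  | nil => simp
  | cons z L ih =>
    simp only [List.map_cons, List.prod_cons] at ih ⊢
    rw [ih, mul_pow, pow_mul]

omit [DecidableEq K] in
theorem uf_good_append {g R : List K} {outs L' : List (List K × ℕ)} {e : ℕ} (he : 0 < e)
    (h1 : toP g = (outs.map (fun z => toP z.1 ^ z.2)).prod * toP R)
    (h2 : (outs.map (fun z => toP z.1)).Nodup)
    (h3 : ∀ z ∈ outs, MP z.1 ∧ Irreducible (toP z.1) ∧ 0 < z.2 ∧ ¬ toP z.1 ∣ toP R)
    (h4 : UGood R e L') : UGood g e (outs.map (fun z => (z.1, z.2 * e)) ++ L') := by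
  obtain ⟨l1, l2, l3⟩ := h4
  refine ⟨?_, ?_, ?_⟩
  · intro z hz
    rw [List.mem_append] at hz
    rcases hz with hz | hz
    · rw [List.mem_map] at hz
      obtain ⟨v, hv, rfl⟩ := hz
      obtain ⟨a1, a2, a3, a4⟩ := h3 v hv
      exact ⟨a1, a2, Nat.mul_pos a3 he⟩
    · exact l1 z hz
  · rw [List.map_append, List.nodup_append]
    refine ⟨?_, l2, ?_⟩
    · rw [List.map_map]
      exact h2
    · intro x hx y hy hxy
      rw [List.map_map, List.mem_map] at hx
      obtain ⟨v, hv, rfl⟩ := hx
      rw [List.mem_map] at hy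
      obtain ⟨z, hz, rfl⟩ := hy
      obtain ⟨a1, a2, a3, a4⟩ := h3 v hv
      have e1 : toP v.1 = toP z.1 := hxy
      refine a4 (a2.prime.dvd_of_dvd_pow (n := e) ?_)
      rw [← l3, e1]
      refine dvd_trans (dvd_pow_self _ (l1 z hz).2.2.ne') ?_
      exact List.dvd_prod (List.mem_map_of_mem (f := fun z : List K × ℕ => toP z.1 ^ z.2) hz)
  · rw [List.map_append, List.prod_append, uf_prod_pow, l3, ← mul_pow, ← h1]

theorem uf_step [Fintype K] {E : MEnv K} {Q : FQ} {p nb N e : ℕ} (hQ : Q.Ok K p)
    {g tape : List K} (hg : MP g) (h2 : 2 ≤ g.length) (hN : g.length ≤ N)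
    (he0 : 0 < e) (he : e * (toP g).natDegree ≤ N)
    (hs : ∀ v ∈ usq E Q nb (uw g) tape, Irreducible (toP v)) :
    (toP (uround E Q nb g tape).2 = 1 ∧
      (trimP (prootP Q (unCap N Q.1) (uround E Q nb g tape).2)).length ≤ 1) ∨
    (MP (prootP Q (unCap N Q.1) (uround E Q nb g tape).2) ∧
      (prootP Q (unCap N Q.1) (uround E Q nb g tape).2).length ≤ N ∧
      min N (e * unCap N Q.1) = e * p ∧ 0 < e * p ∧
      e * p * (toP (prootP Q (unCap N Q.1) (uround E Q nb g tape).2)).natDegree ≤ N ∧
      toP (uround E Q nb g tape).2 =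
        toP (prootP Q (unCap N Q.1) (uround E Q nb g tape).2) ^ p ∧
      2 * (toP (prootP Q (unCap N Q.1) (uround E Q nb g tape).2)).natDegree ≤
        (toP g).natDegree) := by
  obtain ⟨r1, r2, r3, -, -⟩ := uf_round hg h2 hs
  have := uf_charP hQ.prime hQ.card
  obtain ⟨h, m1, m2, m3⟩ := uf_proot' hQ.prime r2 r1.monic
  have hb : bval Q.1 = p := by rw [hQ.bits, bval_bits]
  have hcap : unCap N Q.1 = min N p := by rw [unCap, hb]
  have hdeg : (toP (uround E Q nb g tape).2).natDegree ≤ (toP g).natDegree := by
    refine natDegree_le_of_dvd ?_ hg.monic.ne_zero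
    rw [r3]
    exact dvd_mul_left _ _
  have hlen := r1.len
  have hgl := hg.len
  have hp2 := hQ.prime.two_le
  set R := (uround E Q nb g tape).2 with hR
  by_cases h0 : (toP R).natDegree = 0
  · left
    refine ⟨r1.monic.natDegree_eq_zero.1 h0, ?_⟩
    refine (uf_length_trim _).trans ?_
    have hpos : 0 < unCap N Q.1 := by
      rw [hcap]
      omega
    have := length_prootP_eq Q hpos (f := R) (n := 0) (by omega)
    omega
  · right
    have hh : 1 ≤ h.natDegree := by
      by_contra hc
      have : h.natDegree = 0 := by omega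
      rw [this, mul_zero] at m3
      exact h0 m3
    have hpd : p * 1 ≤ p * h.natDegree := Nat.mul_le_mul_left _ hh
    have h2d : 2 * h.natDegree ≤ p * h.natDegree := Nat.mul_le_mul_right _ hp2
    have hcap' : unCap N Q.1 = p := by
      rw [hcap]
      omega
    rw [hcap']
    have e1 : toP (prootP Q p R) = h := prootP_spec hQ m2
    have e2 : (prootP Q p R).length = h.natDegree + 1 :=
      length_prootP_eq Q hQ.prime.pos (by omega)
    have e3 : e * p * h.natDegree ≤ N := by
      rw [mul_assoc, ← m3]
      exact (Nat.mul_le_mul_left _ hdeg).trans he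
    have e4 : e * p * 1 ≤ e * p * h.natDegree := Nat.mul_le_mul_left _ hh
    rw [e1]
    refine ⟨⟨by rw [e1]; exact m1, by rw [e1]; exact e2⟩, by omega, by omega,
      Nat.mul_pos he0 hQ.prime.pos, e3, m2, by omega⟩

/-- The event that the factorisation in this round fails. -/
def UFail (E : MEnv K) (Q : FQ) (nb : ℕ) (w tape : List K) : Prop :=
  ¬ ∀ v ∈ usq E Q nb w tape, Irreducible (toP v)

theorem uf_pr_zero [Fintype K] {n : ℕ} {B : List K → Prop} (h : ∀ l, l.length = n → ¬ B l) :
    pr K n B ≤ 0 := by
  have h1 : pr K n B ≤ pr K n (fun _ => False) := pr_mono fun l hl hB => h l hl hB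
  have h2 : pr K n (fun _ : List K => False) = 0 := by
    classical
    rw [pr_sum]
    simp
  rw [h2] at h1
  exact h1

theorem uf_fail [Fintype K] {E : MEnv K} (hE : E.Good) {Q : FQ} {p : ℕ} (hQ : Q.Ok K p)
    {nb N : ℕ} {g : List K} (hg : MP g) (h2 : 2 ≤ g.length) (hN : g.length ≤ N)
    (hs : Fits E (128 * (N + 1)) 1) :
    pr K (nb * N) (UFail E Q nb (uw g)) ≤ (N : ℝ) ^ 2 * (5 / 9) ^ nb := by
  obtain ⟨w1, w2, w3, c, w4, w5⟩ := uf_uw hg h2
  have hδ : (0 : ℝ) ≤ (N : ℝ) ^ 2 * (5 / 9) ^ nb := by positivity
  by_cases h : (uw g).length ≤ 1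
  · refine (uf_pr_zero fun l hl hB => hB ?_).trans hδ
    rw [usq]
    simp [h]
  · have hwl := w1.len
    have hle : nb * (uw g).length ≤ nb * N := Nat.mul_le_mul_left _ (w3.trans hN)
    have e : nb * N = 0 + nb * (uw g).length + (nb * N - nb * (uw g).length) := by omega
    have hF : ∀ l : List K, UFail E Q nb (uw g) l ↔ ¬ ∀ v ∈ sqFactor E Q nb (uw g)
        (l.take (nb * (uw g).length)), Irreducible (toP v) := by
      intro l
      rw [UFail, usq]
      simp [h]
    have hpr := sqFactor_pr hE hQ (nb := nb) w1 w2 (by omega) (by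
      unfold Fits at hs ⊢
      have : 128 * ((uw g).length + 1) + 1 ≤ 128 * (N + 1) + 1 := by omega
      exact (Nat.mul_le_mul_right _ (Nat.mul_le_mul_left _ this)).trans hs)
    have hle2 : ((uw g).length : ℝ) ^ 2 * (5 / 9) ^ nb ≤ (N : ℝ) ^ 2 * (5 / 9) ^ nb := by
      have : ((uw g).length : ℝ) ≤ N := by exact_mod_cast w3.trans hN
      gcongr
    refine le_trans ?_ (hpr.trans hle2)
    rw [e]
    refine le_trans (pr_mono (B' := fun l => (fun _ y _ => ¬ ∀ v ∈ sqFactor E Q nb (uw g) y,
      Irreducible (toP v)) (l.take 0) ((l.drop 0).take (nb * (uw g).length))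
        (l.drop (0 + nb * (uw g).length))) ?_) (pr_seg (B := fun _ y _ =>
          ¬ ∀ v ∈ sqFactor E Q nb (uw g) y, Irreducible (toP v)) fun x z _ _ => le_rfl)
    intro l hl hB
    rw [hF] at hB
    simpa using hB

theorem uf_uround_append {E : MEnv K} {Q : FQ} {nb N : ℕ} {g : List K}
    (hw : (uw g).length ≤ N) {x y : List K} (hx : x.length = nb * N) :
    usq E Q nb (uw g) (x ++ y) = usq E Q nb (uw g) x := by
  rw [usq, usq, List.take_append_of_le_length]
  rw [hx]
  exact Nat.mul_le_mul_left _ hw

theorem uf_loop_pr [Fintype K] {E : MEnv K} (hE : E.Good) {Q : FQ} {p : ℕ} (hQ : Q.Ok K p)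
    {nb N : ℕ} (hs : Fits E (128 * (N + 1)) 1) (n : ℕ) {g : List K} {e : ℕ} (hg : MP g)
    (hN : g.length ≤ N) (hn : (toP g).natDegree < 2 ^ n) (he0 : 0 < e)
    (he : e * (toP g).natDegree ≤ N) :
    pr K (n * (nb * N)) (fun tape => ¬ UGood g e (uloop E Q nb N n g e tape)) ≤
      n * ((N : ℝ) ^ 2 * (5 / 9) ^ nb) := by
  classical
  have hδ : (0 : ℝ) ≤ (N : ℝ) ^ 2 * (5 / 9) ^ nb := by positivity
  have h1 : ∀ l : ℕ, ∀ t : List K, (trimP g).length ≤ 1 → uloop E Q nb N l g e t = [] := by
    intro l t h
    cases l with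
    | zero => rfl
    | succ l =>
      rw [uloop]
      simp [h]
  have h2 : ∀ l : ℕ, ∀ t : List K, (toP g).natDegree = 0 → UGood g e (uloop E Q nb N l g e t) := by
    intro l t h
    have ht : (trimP g).length ≤ 1 := by
      have := hg.len
      have := uf_length_trim g
      omega
    rw [h1 l t ht]
    refine ⟨by simp, by simp, ?_⟩
    rw [hg.monic.natDegree_eq_zero.1 h]
    simp
  induction n generalizing g e with
  | zero =>
    have h0 : (toP g).natDegree = 0 := by
      rw [pow_zero] at hn
      omega
    refine (uf_pr_zero fun l _ hB => hB (h2 0 l h0)).trans ?_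
    simp
  | succ n ih =>
    by_cases h0 : (toP g).natDegree = 0
    · exact (uf_pr_zero fun l _ hB => hB (h2 _ l h0)).trans (by positivity)
    have hgl := hg.len
    have hg2 : 2 ≤ g.length := by omega
    have htl : ¬ (trimP g).length ≤ 1 := by
      rw [length_trimP, if_neg hg.monic.ne_zero]
      omega
    obtain ⟨w1, w2, w3, -⟩ := uf_uw hg hg2
    have e1 : (n + 1) * (nb * N) = nb * N + n * (nb * N) := by ring
    rw [e1, pr_add]
    have hwN : (uw g).length ≤ N := w3.trans hN
    have key : ∀ x : Fin (nb * N) → K,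
        pr K (n * (nb * N)) (fun y => ¬ UGood g e (uloop E Q nb N (n + 1) g e
          (List.ofFn x ++ y))) ≤
        (if UFail E Q nb (uw g) (List.ofFn x) then (1 : ℝ) else 0) +
          n * ((N : ℝ) ^ 2 * (5 / 9) ^ nb) := by
      intro x
      have hxl : (List.ofFn x).length = nb * N := List.length_ofFn
      by_cases hx : UFail E Q nb (uw g) (List.ofFn x)
      · rw [if_pos hx]
        refine (pr_le_one _ _).trans ?_
        have : (0 : ℝ) ≤ n * ((N : ℝ) ^ 2 * (5 / 9) ^ nb) := by positivity
        linarith
      · rw [if_neg hx, zero_add]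
        rw [UFail, not_not] at hx
        have hur : ∀ y : List K, uround E Q nb g (List.ofFn x ++ y) =
            uround E Q nb g (List.ofFn x) := by
          intro y
          rw [uround, uround, uf_uround_append hwN hxl]
        have hl : ∀ y : List K, uloop E Q nb N (n + 1) g e (List.ofFn x ++ y) =
            (uround E Q nb g (List.ofFn x)).1.map (fun z => (z.1, z.2 * e)) ++
              uloop E Q nb N n (prootP Q (unCap N Q.1) (uround E Q nb g (List.ofFn x)).2)
                (min N (e * unCap N Q.1)) y := by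
          intro y
          rw [uloop, hur, List.drop_left' hxl]
          simp [htl]
        obtain ⟨r1, r2, r3, r4, r5⟩ := uf_round hg hg2 hx
        rcases uf_step hQ hg hg2 hN he0 he hx with ⟨s1, s2⟩ | ⟨s1, s2, s3, s4, s5, s6, s7⟩
        · refine (uf_pr_zero fun y _ hB => hB ?_).trans (by positivity)
          rw [hl]
          refine uf_good_append he0 r3 r4 r5 ?_
          have hnil : uloop E Q nb N n (prootP Q (unCap N Q.1)
              (uround E Q nb g (List.ofFn x)).2) (min N (e * unCap N Q.1)) y = [] := by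
            cases n with
            | zero => rfl
            | succ n =>
              rw [uloop]
              simp [s2]
          rw [hnil]
          refine ⟨by simp, by simp, ?_⟩
          rw [s1]
          simp
        · rw [s3] at hl
          have hd : (toP (prootP Q (unCap N Q.1) (uround E Q nb g
              (List.ofFn x)).2)).natDegree < 2 ^ n := by
            rw [pow_succ] at hn
            omega
          refine le_trans (pr_mono ?_) (ih s1 s2 hd s4 s5 ?_ ?_)
          · intro y _ hB hG
            refine hB ?_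
            rw [hl]
            refine uf_good_append he0 r3 r4 r5 ?_
            obtain ⟨g1, g2, g3⟩ := hG
            refine ⟨g1, g2, ?_⟩
            rw [g3, s6, ← pow_mul, mul_comm e p]
          · intro l t h
            cases l with
            | zero => rfl
            | succ l =>
              rw [uloop]
              simp [h]
          · intro l t h
            have ht : (trimP (prootP Q (unCap N Q.1) (uround E Q nb g
                (List.ofFn x)).2)).length ≤ 1 := by
              have := s1.len
              have := uf_length_trim (prootP Q (unCap N Q.1) (uround E Q nb g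
                (List.ofFn x)).2)
              omega
            have hnil : uloop E Q nb N l (prootP Q (unCap N Q.1)
                (uround E Q nb g (List.ofFn x)).2) (e * p) t = [] := by
              cases l with
              | zero => rfl
              | succ l =>
                rw [uloop]
                simp [ht]
            rw [hnil]
            refine ⟨by simp, by simp, ?_⟩
            rw [s1.monic.natDegree_eq_zero.1 h]
            simp
    have hq : (0 : ℝ) < (Fintype.card K : ℝ) ^ (nb * N) := pow_pos pr_q_pos _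
    calc (∑ x : Fin (nb * N) → K, pr K (n * (nb * N)) (fun y => ¬ UGood g e
          (uloop E Q nb N (n + 1) g e (List.ofFn x ++ y)))) / (Fintype.card K : ℝ) ^ (nb * N)
        ≤ (∑ x : Fin (nb * N) → K, ((if UFail E Q nb (uw g) (List.ofFn x) then (1 : ℝ) else 0) +
          n * ((N : ℝ) ^ 2 * (5 / 9) ^ nb))) / (Fintype.card K : ℝ) ^ (nb * N) :=
          div_le_div_of_nonneg_right (Finset.sum_le_sum fun x _ => key x) hq.le
      _ = pr K (nb * N) (UFail E Q nb (uw g)) + n * ((N : ℝ) ^ 2 * (5 / 9) ^ nb) := by
          have eA : (∑ x : Fin (nb * N) → K,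
              (if UFail E Q nb (uw g) (List.ofFn x) then (1 : ℝ) else 0)) /
                (Fintype.card K : ℝ) ^ (nb * N) = pr K (nb * N) (UFail E Q nb (uw g)) := by
            rw [pr_sum]
          have h2 : (Fintype.card (Fin (nb * N) → K) : ℝ) =
              (Fintype.card K : ℝ) ^ (nb * N) := by
            have := pr_total (K := K) (nb * N)
            rw [Nat.card_eq_fintype_card] at this
            rw [this]
            push_cast
            rfl
          rw [Finset.sum_add_distrib, add_div, eA, Finset.sum_const, Finset.card_univ,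
            nsmul_eq_mul, h2, mul_div_cancel_left₀ _ hq.ne']
      _ ≤ (N : ℝ) ^ 2 * (5 / 9) ^ nb + n * ((N : ℝ) ^ 2 * (5 / 9) ^ nb) := by
          have := uf_fail hE hQ hg hg2 hN hs (nb := nb)
          linarith
      _ = ((n + 1 : ℕ) : ℝ) * ((N : ℝ) ^ 2 * (5 / 9) ^ nb) := by
          push_cast
          ring

theorem uniFactor_pr [Fintype K] {E : MEnv K} (hE : E.Good) {Q : FQ} {p : ℕ}
    (hQ : Q.Ok K p) {nb : ℕ} {f : List K} (hf : MP f) (hs : Fits E (128 * (f.length + 1)) 1) :
    pr K (uniTape nb f.length) (fun tape => ¬ (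
      (∀ z ∈ uniFactor E Q nb f tape, MP z.1 ∧ Irreducible (toP z.1) ∧ 0 < z.2) ∧
      ((uniFactor E Q nb f tape).map (fun z => toP z.1)).Nodup ∧
      ((uniFactor E Q nb f tape).map (fun z => toP z.1 ^ z.2)).prod = toP f)) ≤
      (Nat.clog 2 f.length + 2) * (f.length : ℝ) ^ 2 * (5 / 9) ^ nb := by
  have hl := hf.len
  have h1 : f.length ≤ 2 ^ Nat.clog 2 f.length := Nat.le_pow_clog (by norm_num) _
  have h2 : 2 ^ Nat.clog 2 f.length ≤ 2 ^ (Nat.clog 2 f.length + 2) :=
    Nat.pow_le_pow_right (by norm_num) (by omega)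
  have key := uf_loop_pr hE hQ (nb := nb) hs (Nat.clog 2 f.length + 2) hf le_rfl (by omega)
    (e := 1) one_pos (by omega)
  have e1 : ((Nat.clog 2 f.length + 2 : ℕ) : ℝ) * ((f.length : ℝ) ^ 2 * (5 / 9) ^ nb) =
      (Nat.clog 2 f.length + 2) * (f.length : ℝ) ^ 2 * (5 / 9) ^ nb := by
    push_cast
    ring
  rw [e1] at key
  refine le_trans (pr_mono ?_) key
  intro tape _ hB hG
  refine hB ?_
  obtain ⟨g1, g2, g3⟩ := hG
  rw [pow_one] at g3
  exact ⟨g1, g2, g3⟩

end correct

/-! ### Sizes -/

section sizes

variable [DecidableEq K]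

theorem uf_tot_round (L : List (List K × ℕ)) (h : ∀ z ∈ L, 2 ≤ z.1.length ∧ 1 ≤ z.2) :
    tot (L.map Prod.fst) ≤ 3 * (L.map (fun z => z.2 * (z.1.length - 1))).sum := by
  induction L with
  | nil => simp [tot]
  | cons z L ih =>
    have i := ih fun y hy => h y (List.mem_cons_of_mem _ hy)
    obtain ⟨h1, h2⟩ := h z (List.mem_cons_self ..)
    simp only [tot, List.map_cons, List.sum_cons] at i ⊢
    have : 1 * (z.1.length - 1) ≤ z.2 * (z.1.length - 1) := Nat.mul_le_mul_right _ h2
    omega

theorem uf_tot_loop (E : MEnv K) (Q : FQ) (nb N n : ℕ) (g : List K) (e : ℕ) (tape : List K) :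
    tot ((uloop E Q nb N n g e tape).map Prod.fst) ≤ 3 * g.length := by
  induction n generalizing g e tape with
  | zero => simp [uloop, tot]
  | succ n ih =>
    rw [uloop]
    by_cases h : (trimP g).length ≤ 1
    · simp [h, tot]
    · simp only [h, decide_false, cond_false]
      have i := ih (prootP Q (unCap N Q.1) (uround E Q nb g tape).2)
        (min N (e * unCap N Q.1)) (tape.drop (nb * N))
      have hp := length_prootP_le Q (unCap N Q.1) (uround E Q nb g tape).2
      obtain ⟨x1, x2⟩ := uf_exAll_len (usq E Q nb (uw g) tape) (trimP g)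
      have ht := uf_length_trim g
      have x3 := uf_tot_round _ x2
      have e1 : tot (((uround E Q nb g tape).1.map (fun z => (z.1, z.2 * e)) ++
          uloop E Q nb N n (prootP Q (unCap N Q.1) (uround E Q nb g tape).2)
            (min N (e * unCap N Q.1)) (tape.drop (nb * N))).map Prod.fst) =
          tot ((uround E Q nb g tape).1.map Prod.fst) +
          tot ((uloop E Q nb N n (prootP Q (unCap N Q.1) (uround E Q nb g tape).2)
            (min N (e * unCap N Q.1)) (tape.drop (nb * N))).map Prod.fst) := by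
        simp [tot, List.map_append, List.map_map, Function.comp_def]
      rw [e1]
      have e2 : (uround E Q nb g tape) = exAll (usq E Q nb (uw g) tape) (trimP g) := rfl
      rw [← e2] at x1 x3
      omega

theorem tot_uniFactor (E : MEnv K) (Q : FQ) (nb : ℕ) (f tape : List K) :
    tot ((uniFactor E Q nb f tape).map Prod.fst) ≤ 8 * (f.length + 1) := by
  have := uf_tot_loop E Q nb f.length (Nat.clog 2 f.length + 2) f 1 tape
  rw [uniFactor]
  omega

end sizes

/-! ### Costs -/

theorem uf_mul_ge (a b : ℕ) : a + b + 1 ≤ (a + 1) * (b + 1) := by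
  have : (a + 1) * (b + 1) = a * b + (a + b + 1) := by ring
  omega

section costs

noncomputable def uf_trimCd : Cd := trimP_ex.choose
noncomputable def uf_divCd : Cd := divN_ex.choose
noncomputable def uf_modCd : Cd := modN_ex.choose
noncomputable def uf_gcdCd : Cd := gcdN_ex.choose
noncomputable def uf_derivCd : Cd := derivP_ex.choose
noncomputable def uf_unCapCd : Cd := unCap_ex.choose
noncomputable def uf_prootCd : Cd := prootP_ex.choose
noncomputable def uf_sqFactorCd : Cd := sqFactor_ex.choose

section

variable {α : Type} [Enc K α]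

local instance (priority := 4000) uf_compTrim [DecidableEq K] {f : α → List K} {c : Cd}
    {T : α → ℕ} [h : Comp K f c T] : Comp K (fun x => trimP (f x)) (uf_trimCd.comp c)
      (fun x => T x + (f x).length) := (trimP_ex.choose_spec K).app1 h

local instance (priority := 4000) uf_compTrim_eta [DecidableEq K] :
    Comp K (trimP : List K → List K) (uf_trimCd.comp Cd.id) (fun l => 0 + l.length) :=
  uf_compTrim (f := fun x : List K => x)

local instance (priority := 4000) uf_compDiv [DecidableEq K] {f g : α → List K} {c d : Cd}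
    {T T' : α → ℕ} [h : Comp K f c T] [h' : Comp K g d T'] :
    Comp K (fun x => divN (f x) (g x)) (uf_divCd.comp (c.pair d))
      (fun x => T x + T' x + ((f x).length + 1) * ((g x).length + 1)) :=
  (divN_ex.choose_spec K).app2 h h'

local instance (priority := 4000) uf_compMod [DecidableEq K] {f g : α → List K} {c d : Cd}
    {T T' : α → ℕ} [h : Comp K f c T] [h' : Comp K g d T'] :
    Comp K (fun x => modN (f x) (g x)) (uf_modCd.comp (c.pair d))
      (fun x => T x + T' x + ((f x).length + 1) * ((g x).length + 1)) :=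
  (modN_ex.choose_spec K).app2 h h'

local instance (priority := 4000) uf_compGcd [DecidableEq K] {f g : α → List K} {c d : Cd}
    {T T' : α → ℕ} [h : Comp K f c T] [h' : Comp K g d T'] :
    Comp K (fun x => gcdN (f x) (g x)) (uf_gcdCd.comp (c.pair d))
      (fun x => T x + T' x + ((f x).length + (g x).length + 1) ^ 2) :=
  (gcdN_ex.choose_spec K).app2 h h'

local instance (priority := 4000) uf_compDeriv {f : α → List K} {c : Cd}
    {T : α → ℕ} [h : Comp K f c T] : Comp K (fun x => derivP (f x)) (uf_derivCd.comp c)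
      (fun x => T x + (f x).length) := (derivP_ex.choose_spec K).app1 h

local instance (priority := 4000) uf_compUnCap {f : α → ℕ} {g : α → List Bool} {c d : Cd}
    {T T' : α → ℕ} [h : Comp K f c T] [h' : Comp K g d T'] :
    Comp K (fun x => unCap (f x) (g x)) (uf_unCapCd.comp (c.pair d))
      (fun x => T x + T' x + (f x + 1) * ((g x).length + 1)) :=
  (unCap_ex.choose_spec K).app2 h h'

local instance (priority := 4000) uf_compProot {f : α → FQ} {g : α → ℕ} {k : α → List K}
    {c d e : Cd} {T T' T'' : α → ℕ} [h : Comp K f c T] [h' : Comp K g d T'] [h'' : Comp K k e T''] :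
    Comp K (fun x => prootP (f x) (g x) (k x)) (uf_prootCd.comp (c.pair (d.pair e)))
      (fun x => T x + (T' x + T'' x) + ((k x).length + 1) * (f x).lg) :=
  (prootP_ex.choose_spec K).comp (f := fun x => (f x, g x, k x)) (Comp.pair (h' := Comp.pair))

local instance (priority := 4000) uf_compSq [DecidableEq K] {f : α → MEnv K} {g : α → FQ}
    {k : α → ℕ} {l m : α → List K} {c d e r s : Cd} {T T' T'' T3 T4 : α → ℕ}
    [h : Comp K f c T] [h' : Comp K g d T'] [h'' : Comp K k e T''] [h3 : Comp K l r T3]
    [h4 : Comp K m s T4] :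
    Comp K (fun x => sqFactor (f x) (g x) (k x) (l x) (m x))
      (uf_sqFactorCd.comp (c.pair (d.pair (e.pair (r.pair s)))))
      (fun x => T x + (T' x + (T'' x + (T3 x + T4 x))) + (kerT (2 * (l x).length) +
        (k x + 1) * ((l x).length + 1) ^ 2 * ((f x).1 + 1) * (g x).lg)) :=
  (sqFactor_ex.choose_spec K).comp (f := fun x => (f x, g x, k x, l x, m x))
    (Comp.pair (h' := Comp.pair (h' := Comp.pair (h' := Comp.pair))))

theorem uf_extr_ex : ∃ c, ∀ (K : Type) [Field K] [DecidableEq K],
    Comp K (fun z : ℕ × List K × List K => extr z.1 z.2.1 z.2.2) c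
      (fun z => ((extr z.1 z.2.1 z.2.2).1 + 1) * ((z.2.2.length + 1) * (z.2.1.length + 1))) :=
  ⟨_, fun K _ _ => (Comp.rec1 (K := K)
    (isLeaf := fun z : ℕ × List K × List K => decide (z.1 = 0) ||
      !(decide (z.2.1.length ≤ z.2.2.length) && (modN z.2.2 z.2.1).isEmpty))
    (leaf := fun z => (0, z.2.2)) (next := fun z => (z.1 - 1, z.2.1, divN z.2.2 z.2.1))
    (join := fun _ r => (r.1 + 1, r.2))
    (T := fun z => 10 * ((extr z.1 z.2.1 z.2.2).1 + 1) *
      ((z.2.2.length + 1) * (z.2.1.length + 1)))
    (fun z => z.1)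
    (by
      rintro ⟨n, w, g⟩ h
      cases n with
      | zero => rfl
      | succ n =>
        simp only [Nat.add_eq_zero_iff, one_ne_zero, and_false, decide_false, Bool.false_or,
          Bool.not_eq_true'] at h
        rw [extr, h]
        rfl)
    (by
      rintro ⟨n, w, g⟩ h
      cases n with
      | zero => simp at h
      | succ n =>
        simp only [Nat.add_eq_zero_iff, one_ne_zero, and_false, decide_false, Bool.false_or,
          Bool.not_eq_false'] at h
        rw [extr, h]
        rfl)
    (by
      rintro ⟨n, w, g⟩ h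
      cases n with
      | zero => simp at h
      | succ n => simp)
    (by
      rintro ⟨n, w, g⟩ h
      dsimp only
      have h1 := uf_mul_ge g.length w.length
      set B := (g.length + 1) * (w.length + 1)
      have h2 : 10 * 1 * B ≤ 10 * ((extr n w g).1 + 1) * B :=
        Nat.mul_le_mul_right _ (by omega)
      omega)
    (by
      rintro ⟨n, w, g⟩ h
      cases n with
      | zero => simp at h
      | succ n =>
        simp only [Nat.add_eq_zero_iff, one_ne_zero, and_false, decide_false, Bool.false_or,
          Bool.not_eq_false'] at h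
        have e : extr (n + 1) w g = ((extr n w (divN g w)).1 + 1, (extr n w (divN g w)).2) := by
          rw [extr, h]
          rfl
        dsimp only
        rw [e, Nat.add_sub_cancel]
        dsimp only
        have h1 := uf_mul_ge g.length w.length
        have h2 : ((divN g w).length + 1) * (w.length + 1) ≤
            (g.length + 1) * (w.length + 1) :=
          Nat.mul_le_mul_right _ (by have := uf_length_divN g w; omega)
        set B := (g.length + 1) * (w.length + 1)
        have h3 : 10 * ((extr n w (divN g w)).1 + 1) *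
            (((divN g w).length + 1) * (w.length + 1)) ≤
            10 * ((extr n w (divN g w)).1 + 1) * B := Nat.mul_le_mul_left _ h2
        have h4 : 10 * ((extr n w (divN g w)).1 + 1 + 1) * B =
          10 * ((extr n w (divN g w)).1 + 1) * B + 10 * B := by ring
        omega)).bigO 10 (fun z => by
          have : 10 * ((extr z.1 z.2.1 z.2.2).1 + 1) * ((z.2.2.length + 1) *
            (z.2.1.length + 1)) = 10 * (((extr z.1 z.2.1 z.2.2).1 + 1) * ((z.2.2.length + 1) *
            (z.2.1.length + 1))) := by ring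
          omega)⟩

noncomputable def uf_extrCd : Cd := uf_extr_ex.choose

local instance (priority := 4000) uf_compExtr [DecidableEq K] {f : α → ℕ} {g k : α → List K}
    {c d e : Cd} {T T' T'' : α → ℕ} [h : Comp K f c T] [h' : Comp K g d T']
    [h'' : Comp K k e T''] : Comp K (fun x => extr (f x) (g x) (k x))
      (uf_extrCd.comp (c.pair (d.pair e)))
      (fun x => T x + (T' x + T'' x) + ((extr (f x) (g x) (k x)).1 + 1) *
        (((k x).length + 1) * ((g x).length + 1))) :=
  (uf_extr_ex.choose_spec K).comp (f := fun x => (f x, g x, k x)) (Comp.pair (h' := Comp.pair))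

/-- A bound for the cost of `extract`. -/
def uf_Text [DecidableEq K] (w g : List K) : ℕ :=
  (g.length + 1) * ((g.length - (extract w g).2.length) + w.length + 1)

theorem uf_extract_ex : ∃ c, ∀ (K : Type) [Field K] [DecidableEq K],
    Comp K (fun z : List K × List K => extract z.1 z.2) c (fun z => uf_Text z.1 z.2) :=
  ⟨_, fun K _ _ => (Comp.cond (K := K)
    (b := fun z : List K × List K => decide ((trimP z.1).length ≤ 1))
    (f := fun z => ((0 : ℕ), z.2)) (g := fun z => extr z.2.length (trimP z.1) z.2)).bigO 10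
    (fun z => by
      obtain ⟨w, g⟩ := z
      dsimp only
      have ht := uf_length_trim w
      have hl := uf_extract_len w g
      have h0 : w.length + g.length + 1 ≤ uf_Text w g := by
        rw [uf_Text]
        have h1 : (g.length + 1) * (w.length + 1) ≤
          (g.length + 1) * ((g.length - (extract w g).2.length) + w.length + 1) :=
          Nat.mul_le_mul_left _ (by omega)
        have := uf_mul_ge g.length w.length
        omega
      by_cases h : (trimP w).length ≤ 1
      · simp only [h, decide_true, cond_true]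
        omega
      · simp only [h, decide_false, cond_false]
        have e : extract w g = extr g.length (trimP w) g := by
          rw [extract]
          simp [h]
        rw [← e]
        have h2 : ((extract w g).1 + 1) * ((trimP w).length + 1) ≤
            3 * ((g.length - (extract w g).2.length) + w.length + 1) := by
          have a1 : (extract w g).1 * ((trimP w).length + 1) ≤
              3 * ((extract w g).1 * ((trimP w).length - 1)) := by
            rw [mul_left_comm]
            exact Nat.mul_le_mul_left _ (by omega)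
          have a2 : ((extract w g).1 + 1) * ((trimP w).length + 1) =
            (extract w g).1 * ((trimP w).length + 1) + ((trimP w).length + 1) := by ring
          omega
        have h3 : ((extract w g).1 + 1) * ((g.length + 1) * ((trimP w).length + 1)) ≤
            3 * uf_Text w g := by
          have a3 := Nat.mul_le_mul_left (g.length + 1) h2
          rw [uf_Text]
          calc ((extract w g).1 + 1) * ((g.length + 1) * ((trimP w).length + 1))
              = (g.length + 1) * (((extract w g).1 + 1) * ((trimP w).length + 1)) := by ring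
            _ ≤ _ := a3
            _ = _ := by ring
        omega)⟩

noncomputable def uf_extractCd : Cd := uf_extract_ex.choose

local instance (priority := 4000) uf_compExtract [DecidableEq K] {f g : α → List K} {c d : Cd}
    {T T' : α → ℕ} [h : Comp K f c T] [h' : Comp K g d T'] :
    Comp K (fun x => extract (f x) (g x)) (uf_extractCd.comp (c.pair d))
      (fun x => T x + T' x + uf_Text (f x) (g x)) :=
  (uf_extract_ex.choose_spec K).app2 h h'

/-- A bound for the cost of `exAll`. -/
def uf_Tall [DecidableEq K] (ws : List (List K)) (g : List K) : ℕ :=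
  (g.length + 1) * ((g.length - (exAll ws g).2.length) + tot ws + 1)

theorem uf_exAll_ex : ∃ c, ∀ (K : Type) [Field K] [DecidableEq K],
    Comp K (fun z : List (List K) × List K => exAll z.1 z.2) c (fun z => uf_Tall z.1 z.2) :=
  ⟨_, fun K _ _ => (Comp.rec1 (K := K)
    (isLeaf := fun z : List (List K) × List K => z.1.isEmpty)
    (leaf := fun z => (([] : List (List K × ℕ)), z.2))
    (next := fun z => (z.1.tail, (extract (z.1.headD []) z.2).2))
    (join := fun z r => (bif decide ((extract (z.1.headD []) z.2).1 = 0) then r.1 else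
      (trimP (z.1.headD []), (extract (z.1.headD []) z.2).1) :: r.1, r.2))
    (T := fun z => 20 * uf_Tall z.1 z.2)
    (fun z => z.1.length)
    (by
      rintro ⟨ws, g⟩ h
      cases ws with
      | nil => rfl
      | cons w ws => simp at h)
    (by
      rintro ⟨ws, g⟩ h
      cases ws with
      | nil => simp at h
      | cons w ws => rfl)
    (by
      rintro ⟨ws, g⟩ h
      cases ws with
      | nil => simp at h
      | cons w ws => simp)
    (by
      rintro ⟨ws, g⟩ h
      omega)
    (by
      rintro ⟨ws, g⟩ h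
      cases ws with
      | nil => simp at h
      | cons w ws =>
        simp only [List.headD_cons, List.tail_cons]
        have hl := uf_extract_len w g
        have hl2 := (uf_exAll_len ws (extract w g).2).1
        have e : (exAll (w :: ws) g).2 = (exAll ws (extract w g).2).2 := rfl
        have h0 : w.length + g.length + 1 ≤ uf_Text w g := by
          rw [uf_Text]
          have h1 : (g.length + 1) * (w.length + 1) ≤
            (g.length + 1) * ((g.length - (extract w g).2.length) + w.length + 1) :=
            Nat.mul_le_mul_left _ (by omega)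
          have := uf_mul_ge g.length w.length
          omega
        have h1 : uf_Tall ws (extract w g).2 + uf_Text w g ≤ uf_Tall (w :: ws) g := by
          have h2 : uf_Tall ws (extract w g).2 ≤ (g.length + 1) *
              (((extract w g).2.length - (exAll ws (extract w g).2).2.length) + tot ws + 1) :=
            Nat.mul_le_mul_right _ (by omega)
          have h3 : (g.length + 1) *
              (((extract w g).2.length - (exAll ws (extract w g).2).2.length) + tot ws + 1) +
              uf_Text w g = uf_Tall (w :: ws) g := by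
            rw [uf_Text, uf_Tall, e, ← Nat.mul_add]
            congr 1
            have e3 : tot (w :: ws) = w.length + 1 + tot ws := by simp [tot]
            rw [e3]
            omega
          omega
        by_cases h5 : (extract w g).1 = 0
        · simp only [h5, decide_true, cond_true]
          omega
        · simp only [h5, decide_false, cond_false]
          omega)).bigO 20 (fun z => by omega)⟩

noncomputable def uf_exAllCd : Cd := uf_exAll_ex.choose

local instance (priority := 4000) uf_compExAll [DecidableEq K] {f : α → List (List K)}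
    {g : α → List K} {c d : Cd} {T T' : α → ℕ} [h : Comp K f c T] [h' : Comp K g d T'] :
    Comp K (fun x => exAll (f x) (g x)) (uf_exAllCd.comp (c.pair d))
      (fun x => T x + T' x + uf_Tall (f x) (g x)) :=
  (uf_exAll_ex.choose_spec K).app2 h h'

theorem uf_length_gcd [DecidableEq K] {a b : List K} (h : toP a ≠ 0) :
    (gcdN a b).length ≤ a.length := by
  have h1 := gcdN_MP (a := a) (b := b) (Or.inl h)
  have h2 := natDegree_le_of_dvd (gcdN_dvd_left a b) h
  have h3 := uf_natDegree_lt h
  have := h1.len
  omega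

theorem uf_length_uw [DecidableEq K] (g : List K) : (uw g).length ≤ g.length := by
  rw [uw]
  by_cases h : (trimP g).length ≤ 1
  · simp [h]
  · simp only [h, decide_false, cond_false]
    exact (uf_length_divN _ _).trans (uf_length_trim g)

theorem uf_uw_ex : ∃ c, ∀ (K : Type) [Field K] [DecidableEq K],
    Comp K (fun g : List K => uw g) c (fun g => (g.length + 1) ^ 2) :=
  ⟨_, fun K _ _ => (Comp.cond (K := K)
    (b := fun g : List K => decide ((trimP g).length ≤ 1))
    (f := fun g => ([] : List K))
    (g := fun g => divN (trimP g) (gcdN (trimP g) (derivP (trimP g))))).bigO 20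
    (fun g => by
      have ht := uf_length_trim g
      have h1 : (g.length + 1) ^ 2 = g.length * g.length + 2 * g.length + 1 := by ring
      by_cases h : (trimP g).length ≤ 1
      · simp only [h, decide_true, cond_true]
        omega
      · simp only [h, decide_false, cond_false]
        have h0 : toP (trimP g) ≠ 0 := by
          rw [toP_trimP]
          intro h0
          rw [length_trimP, if_pos h0] at h
          omega
        have hg := uf_length_gcd (b := derivP (trimP g)) h0
        rw [length_derivP]
        have h2 : ((trimP g).length + ((trimP g).length - 1) + 1) ^ 2 ≤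
            (2 * (g.length + 1)) ^ 2 := Nat.pow_le_pow_left (by omega) 2
        have h3 : (2 * (g.length + 1)) ^ 2 = 4 * (g.length + 1) ^ 2 := by ring
        have h4 : ((trimP g).length + 1) *
            ((gcdN (trimP g) (derivP (trimP g))).length + 1) ≤
            (g.length + 1) * (g.length + 1) := Nat.mul_le_mul (by omega) (by omega)
        have h5 : (g.length + 1) * (g.length + 1) = (g.length + 1) ^ 2 := by ring
        omega)⟩

noncomputable def uf_uwCd : Cd := uf_uw_ex.choose

local instance (priority := 4000) uf_compUw [DecidableEq K] {f : α → List K} {c : Cd}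
    {T : α → ℕ} [h : Comp K f c T] : Comp K (fun x => uw (f x)) (uf_uwCd.comp c)
      (fun x => T x + ((f x).length + 1) ^ 2) := (uf_uw_ex.choose_spec K).app1 h


theorem uf_kerT_mono {a b : ℕ} (h : a ≤ b) : kerT a ≤ kerT b := by
  unfold kerT
  have h1 : nroot 20 (a + 1) ≤ nroot 20 (b + 1) :=
    (nroot_le_iff (by norm_num)).2 (le_trans (by omega) (nroot_spec (by norm_num) (b + 1)))
  exact Nat.mul_le_mul (Nat.pow_le_pow_left (by omega) 2) (Nat.pow_le_pow_left h1 19)

/-- The quadratic part of the costs. -/
def uf_W (nb m S l : ℕ) : ℕ := (nb + 1) * (m + 1) ^ 2 * (S + 1) * l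

theorem uf_W_mono {nb m m' S l : ℕ} (h : m ≤ m') : uf_W nb m S l ≤ uf_W nb m' S l := by
  unfold uf_W
  have := Nat.pow_le_pow_left (show m + 1 ≤ m' + 1 by omega) 2
  exact Nat.mul_le_mul_right _ (Nat.mul_le_mul_right _ (Nat.mul_le_mul_left _ this))

theorem uf_W_ge (nb m S : ℕ) {l : ℕ} (hl : 1 ≤ l) : (nb + 1) * (m + 1) ^ 2 ≤ uf_W nb m S l := by
  unfold uf_W
  have h1 : (nb + 1) * (m + 1) ^ 2 * 1 ≤ (nb + 1) * (m + 1) ^ 2 * (S + 1) :=
    Nat.mul_le_mul_left _ (by omega)
  have h2 : (nb + 1) * (m + 1) ^ 2 * (S + 1) * 1 ≤ (nb + 1) * (m + 1) ^ 2 * (S + 1) * l :=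
    Nat.mul_le_mul_left _ hl
  omega

theorem uf_W_ge' (nb m S l : ℕ) : (m + 1) ^ 2 * l ≤ uf_W nb m S l := by
  unfold uf_W
  have h1 : 1 * (m + 1) ^ 2 ≤ (nb + 1) * (m + 1) ^ 2 := Nat.mul_le_mul_right _ (by omega)
  have h2 : (nb + 1) * (m + 1) ^ 2 * 1 ≤ (nb + 1) * (m + 1) ^ 2 * (S + 1) :=
    Nat.mul_le_mul_left _ (by omega)
  exact Nat.mul_le_mul_right _ (by omega)

theorem uf_lg (Q : FQ) : 1 ≤ Q.lg := by
  unfold FQ.lg
  have := Nat.mul_le_mul (show 1 ≤ Q.1.length + 1 by omega) (show 1 ≤ Q.2 + 1 by omega)
  omega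

theorem uf_usq_ex : ∃ c, ∀ (K : Type) [Field K] [DecidableEq K],
    Comp K (fun z : MEnv K × FQ × ℕ × List K × List K =>
      usq z.1 z.2.1 z.2.2.1 z.2.2.2.1 z.2.2.2.2) c
      (fun z => kerT (2 * z.2.2.2.1.length) +
        uf_W z.2.2.1 z.2.2.2.1.length z.1.1 z.2.1.lg) :=
  ⟨_, fun K _ _ => (Comp.cond (K := K)
    (b := fun z : MEnv K × FQ × ℕ × List K × List K => decide (z.2.2.2.1.length ≤ 1))
    (f := fun z => ([] : List (List K)))
    (g := fun z => sqFactor z.1 z.2.1 z.2.2.1 z.2.2.2.1
      (z.2.2.2.2.take (z.2.2.1 * z.2.2.2.1.length)))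
    (hg := uf_compSq (f := fun z : MEnv K × FQ × ℕ × List K × List K => z.1)
      (g := fun z => z.2.1) (k := fun z => z.2.2.1) (l := fun z => z.2.2.2.1)
      (m := fun z => z.2.2.2.2.take (z.2.2.1 * z.2.2.2.1.length))
      (h4 := Comp.take))).bigO 20
    (fun z => by
      obtain ⟨E, Q, nb, w, tape⟩ := z
      dsimp only
      have h0 := uf_W_ge nb w.length E.1 (uf_lg Q)
      have h1 : (nb + 1) * (w.length + 1) ^ 2 = (nb + 1) * (w.length + 1) +
        (nb + 1) * (w.length * (w.length + 1)) := by ring
      have h2 : (nb + 1) * (w.length + 1) = nb * (w.length + 1) + w.length + 1 := by ring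
      have h3 : nb * (w.length + 1) = nb * w.length + nb := by ring
      have h4 : (nb + 1) * (w.length + 1) ^ 2 * (E.1 + 1) * Q.lg =
        uf_W nb w.length E.1 Q.lg := rfl
      by_cases h : w.length ≤ 1
      · simp only [h, decide_true, cond_true]
        omega
      · simp only [h, decide_false, cond_false]
        omega)⟩

noncomputable def uf_usqCd : Cd := uf_usq_ex.choose

local instance (priority := 4000) uf_compUsq [DecidableEq K] {f : α → MEnv K} {g : α → FQ}
    {k : α → ℕ} {l m : α → List K} {c d e r s : Cd} {T T' T'' T3 T4 : α → ℕ}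
    [h : Comp K f c T] [h' : Comp K g d T'] [h'' : Comp K k e T''] [h3 : Comp K l r T3]
    [h4 : Comp K m s T4] :
    Comp K (fun x => usq (f x) (g x) (k x) (l x) (m x))
      (uf_usqCd.comp (c.pair (d.pair (e.pair (r.pair s)))))
      (fun x => T x + (T' x + (T'' x + (T3 x + T4 x))) + (kerT (2 * (l x).length) +
        uf_W (k x) (l x).length (f x).1 (g x).lg)) :=
  (uf_usq_ex.choose_spec K).comp (f := fun x => (f x, g x, k x, l x, m x))
    (Comp.pair (h' := Comp.pair (h' := Comp.pair (h' := Comp.pair))))

theorem uf_tot_usq [DecidableEq K] (E : MEnv K) (Q : FQ) (nb : ℕ) (w tape : List K) :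
    tot (usq E Q nb w tape) ≤ 3 * (w.length + 1) := by
  rw [usq]
  by_cases h : w.length ≤ 1
  · simp [h, tot]
  · simp only [h, decide_false, cond_false]
    exact tot_sqFactor _ _ _ _ _

theorem uf_uround_ex : ∃ c, ∀ (K : Type) [Field K] [DecidableEq K],
    Comp K (fun z : MEnv K × FQ × ℕ × List K × List K =>
      uround z.1 z.2.1 z.2.2.1 z.2.2.2.1 z.2.2.2.2) c
      (fun z => kerT (2 * z.2.2.2.1.length) +
        uf_W z.2.2.1 z.2.2.2.1.length z.1.1 z.2.1.lg) :=
  ⟨_, fun K _ _ => (uf_compExAll (K := K)
    (f := fun z : MEnv K × FQ × ℕ × List K × List K =>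
      usq z.1 z.2.1 z.2.2.1 (uw z.2.2.2.1) z.2.2.2.2)
    (g := fun z => trimP z.2.2.2.1)).bigO 20
    (fun z => by
      obtain ⟨E, Q, nb, g, tape⟩ := z
      dsimp only
      have ht := uf_length_trim g
      have hu := uf_length_uw g
      have h0 := uf_W_ge nb g.length E.1 (uf_lg Q)
      have h1 : uf_W nb (uw g).length E.1 Q.lg ≤ uf_W nb g.length E.1 Q.lg := uf_W_mono hu
      have h2 : kerT (2 * (uw g).length) ≤ kerT (2 * g.length) := uf_kerT_mono (by omega)
      have h3 := uf_tot_usq E Q nb (uw g) tape
      have h4 : uf_Tall (usq E Q nb (uw g) tape) (trimP g) ≤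
          (g.length + 1) * (5 * (g.length + 1)) := by
        rw [uf_Tall]
        exact Nat.mul_le_mul (by omega) (by omega)
      have h5 : (g.length + 1) * (5 * (g.length + 1)) = 5 * (g.length + 1) ^ 2 := by ring
      have h6 : (nb + 1) * (g.length + 1) ^ 2 = nb * (g.length + 1) ^ 2 +
        (g.length + 1) ^ 2 := by ring
      have h7 : (g.length + 1) ^ 2 = g.length * g.length + 2 * g.length + 1 := by ring
      omega)⟩

noncomputable def uf_uroundCd : Cd := uf_uround_ex.choose

local instance (priority := 4000) uf_compUround [DecidableEq K] {f : α → MEnv K} {g : α → FQ}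
    {k : α → ℕ} {l m : α → List K} {c d e r s : Cd} {T T' T'' T3 T4 : α → ℕ}
    [h : Comp K f c T] [h' : Comp K g d T'] [h'' : Comp K k e T''] [h3 : Comp K l r T3]
    [h4 : Comp K m s T4] :
    Comp K (fun x => uround (f x) (g x) (k x) (l x) (m x))
      (uf_uroundCd.comp (c.pair (d.pair (e.pair (r.pair s)))))
      (fun x => T x + (T' x + (T'' x + (T3 x + T4 x))) + (kerT (2 * (l x).length) +
        uf_W (k x) (l x).length (f x).1 (g x).lg)) :=
  (uf_uround_ex.choose_spec K).comp (f := fun x => (f x, g x, k x, l x, m x))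
    (Comp.pair (h' := Comp.pair (h' := Comp.pair (h' := Comp.pair))))

/-- The state of the loop: the data `E, Q, nb, N` and `n, g, e, tape`. -/
abbrev USt (K : Type) : Type := (MEnv K × FQ × ℕ × ℕ) × (ℕ × List K × ℕ × List K)

/-- The size of a state. -/
def USt.M {K : Type} (z : USt K) : ℕ := max z.2.2.1.length (max z.1.2.2.2 z.2.2.2.1)

/-- The bound for the cost of one step. -/
noncomputable def USt.B {K : Type} (z : USt K) : ℕ :=
  kerT (2 * z.2.2.1.length) + uf_W z.1.2.2.1 z.M z.1.1.1 z.1.2.1.lg

theorem USt.B_ge {K : Type} (z : USt K) :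
    kerT (2 * z.2.2.1.length) + uf_W z.1.2.2.1 z.2.2.1.length z.1.1.1 z.1.2.1.lg ≤ z.B :=
  Nat.add_le_add_left (uf_W_mono (le_max_left _ _)) _

/-- The round of a state. -/
noncomputable def USt.rd [DecidableEq K] (z : USt K) : List (List K × ℕ) × List K :=
  uround z.1.1 z.1.2.1 z.1.2.2.1 z.2.2.1 z.2.2.2.2

theorem uf_rd_ex : ∃ c, ∀ (K : Type) [Field K] [DecidableEq K],
    Comp K (fun z : USt K => z.rd) c (fun z => z.B) :=
  ⟨_, fun K _ _ => (uf_compUround (K := K) (f := fun z : USt K => z.1.1)
    (g := fun z => z.1.2.1) (k := fun z => z.1.2.2.1) (l := fun z => z.2.2.1)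
    (m := fun z => z.2.2.2.2)).mono (fun z => by
      have := z.B_ge
      omega)⟩

theorem uf_pn_ex : ∃ c, ∀ (K : Type) [Field K],
    Comp K (fun z : USt K => unCap z.1.2.2.2 z.1.2.1.1) c (fun z => z.B) :=
  ⟨_, fun K _ => (uf_compUnCap (K := K) (f := fun z : USt K => z.1.2.2.2)
    (g := fun z => z.1.2.1.1)).mono (fun z => by
      obtain ⟨⟨E, Q, nb, N⟩, ⟨n, g, e, tape⟩⟩ := z
      have h1 := uf_W_ge' nb (USt.M ((E, Q, nb, N), (n, g, e, tape))) E.1 Q.lg
      have hM : N ≤ USt.M ((E, Q, nb, N), (n, g, e, tape)) :=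
        (le_max_left _ _).trans (le_max_right _ _)
      have h2 : (N + 1) * (Q.1.length + 1) ≤
          (USt.M ((E, Q, nb, N), (n, g, e, tape)) + 1) ^ 2 * Q.lg := by
        refine Nat.mul_le_mul ?_ ?_
        · calc N + 1 ≤ USt.M ((E, Q, nb, N), (n, g, e, tape)) + 1 := by omega
            _ ≤ (USt.M ((E, Q, nb, N), (n, g, e, tape)) + 1) ^ 2 :=
              Nat.le_self_pow (by norm_num) _
        · unfold FQ.lg
          exact Nat.le_mul_of_pos_right _ (by omega)
      dsimp only
      unfold USt.B
      dsimp only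
      omega)⟩

/-- The next polynomial. -/
noncomputable def USt.ng [DecidableEq K] (z : USt K) : List K :=
  prootP z.1.2.1 (unCap z.1.2.2.2 z.1.2.1.1) z.rd.2

theorem uf_length_rd [DecidableEq K] (z : USt K) : z.rd.2.length ≤ z.2.2.1.length := by
  have := (uf_exAll_len (usq z.1.1 z.1.2.1 z.1.2.2.1 (uw z.2.2.1) z.2.2.2.2) (trimP z.2.2.1)).1
  have ht := uf_length_trim z.2.2.1
  have e : z.rd.2 = (exAll (usq z.1.1 z.1.2.1 z.1.2.2.1 (uw z.2.2.1) z.2.2.2.2)
    (trimP z.2.2.1)).2 := rfl
  rw [e]
  omega

theorem uf_length_ng [DecidableEq K] (z : USt K) : z.ng.length ≤ z.2.2.1.length :=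
  (length_prootP_le _ _ _).trans (uf_length_rd z)

theorem uf_ng_ex : ∃ c, ∀ (K : Type) [Field K] [DecidableEq K],
    Comp K (fun z : USt K => z.ng) c (fun z => z.B) := by
  obtain ⟨c1, h1⟩ := uf_rd_ex
  obtain ⟨c2, h2⟩ := uf_pn_ex
  exact ⟨_, fun K _ _ => by
    have i1 := h1 K
    have i2 := h2 K
    exact (uf_compProot (K := K) (f := fun z : USt K => z.1.2.1)
      (g := fun z => unCap z.1.2.2.2 z.1.2.1.1) (k := fun z => z.rd.2)
      (h' := i2) (h'' := Comp.snd (h := i1))).bigO 5 (fun z => by
        have h3 := uf_W_ge' z.1.2.2.1 z.M z.1.1.1 z.1.2.1.lg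
        have h4 := uf_length_rd z
        have hM : z.2.2.1.length ≤ z.M := le_max_left _ _
        have h5 : (z.rd.2.length + 1) * z.1.2.1.lg ≤ (z.M + 1) ^ 2 * z.1.2.1.lg := by
          refine Nat.mul_le_mul_right _ ?_
          calc z.rd.2.length + 1 ≤ z.M + 1 := by omega
            _ ≤ (z.M + 1) ^ 2 := Nat.le_self_pow (by norm_num) _
        have h6 : uf_W z.1.2.2.1 z.M z.1.1.1 z.1.2.1.lg ≤ z.B := Nat.le_add_left _ _
        omega)⟩

/-- The next exponent. -/
def USt.ne {K : Type} (z : USt K) : ℕ :=
  min z.1.2.2.2 (z.2.2.2.1 * unCap z.1.2.2.2 z.1.2.1.1)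

theorem uf_ne_ex : ∃ c, ∀ (K : Type) [Field K],
    Comp K (fun z : USt K => z.ne) c (fun z => z.B) := by
  obtain ⟨c2, h2⟩ := uf_pn_ex
  exact ⟨_, fun K _ => by
    have i2 := h2 K
    exact (Comp.minN (K := K) (m := fun z : USt K => z.1.2.2.2)
      (n := fun z => z.2.2.2.1 * unCap z.1.2.2.2 z.1.2.1.1)
      (h' := Comp.mulN (h' := i2))).bigO 10 (fun z => by
        have h3 := uf_W_ge z.1.2.2.1 z.M z.1.1.1 (uf_lg z.1.2.1)
        have hM1 : z.1.2.2.2 ≤ z.M := (le_max_left _ _).trans (le_max_right _ _)
        have hM2 : z.2.2.2.1 ≤ z.M := (le_max_right _ _).trans (le_max_right _ _)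
        have hp : unCap z.1.2.2.2 z.1.2.1.1 ≤ z.1.2.2.2 := min_le_left _ _
        have h5 : z.2.2.2.1 * (unCap z.1.2.2.2 z.1.2.1.1 + 1) ≤ z.M * (z.M + 1) :=
          Nat.mul_le_mul hM2 (by omega)
        have h7 : (z.1.2.2.1 + 1) * (z.M + 1) ^ 2 = z.1.2.2.1 * (z.M + 1) ^ 2 +
          z.M * (z.M + 1) + z.M + 1 := by ring
        have h6 : uf_W z.1.2.2.1 z.M z.1.1.1 z.1.2.1.lg ≤ z.B := Nat.le_add_left _ _
        have h8 := min_le_left z.1.2.2.2 (z.2.2.2.1 * unCap z.1.2.2.2 z.1.2.1.1)
        omega)⟩

theorem uf_nt_ex : ∃ c, ∀ (K : Type) [Field K],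
    Comp K (fun z : USt K => z.2.2.2.2.drop (z.1.2.2.1 * z.1.2.2.2)) c (fun z => z.B) :=
  ⟨_, fun K _ => (Comp.drop (K := K) (n := fun z : USt K => z.1.2.2.1 * z.1.2.2.2)
    (l := fun z => z.2.2.2.2)).bigO 5 (fun z => by
      have h3 := uf_W_ge z.1.2.2.1 z.M z.1.1.1 (uf_lg z.1.2.1)
      have hM1 : z.1.2.2.2 ≤ z.M := (le_max_left _ _).trans (le_max_right _ _)
      have h6 : uf_W z.1.2.2.1 z.M z.1.1.1 z.1.2.1.lg ≤ z.B := Nat.le_add_left _ _
      have h4 : z.1.2.2.1 * (z.1.2.2.2 + 1) ≤ z.1.2.2.1 * (z.M + 1) :=
        Nat.mul_le_mul_left _ (by omega)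
      have h5 : z.1.2.2.1 * z.1.2.2.2 ≤ z.1.2.2.1 * (z.M + 1) :=
        Nat.mul_le_mul_left _ (by omega)
      have h7 : (z.1.2.2.1 + 1) * (z.M + 1) ^ 2 = (z.1.2.2.1 * (z.M + 1) + (z.M + 1)) *
        z.M + z.1.2.2.1 * (z.M + 1) + (z.M + 1) := by ring
      omega)⟩

/-- The next state. -/
noncomputable def USt.next [DecidableEq K] (z : USt K) : USt K :=
  (z.1, z.2.1 - 1, z.ng, z.ne, z.2.2.2.2.drop (z.1.2.2.1 * z.1.2.2.2))

theorem uf_next_ex : ∃ c, ∀ (K : Type) [Field K] [DecidableEq K],
    Comp K (fun z : USt K => z.next) c (fun z => z.B) := by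
  obtain ⟨c1, h1⟩ := uf_ng_ex
  obtain ⟨c2, h2⟩ := uf_ne_ex
  obtain ⟨c3, h3⟩ := uf_nt_ex
  exact ⟨_, fun K _ _ => by
    have i1 := h1 K
    have i2 := h2 K
    have i3 := h3 K
    exact (Comp.pair (K := K) (f := fun z : USt K => z.1)
      (h' := Comp.pair (f := fun z : USt K => z.2.1 - 1) (h' := Comp.pair (h := i1)
        (h' := Comp.pair (h := i2) (h' := i3))))).bigO 5 (fun z => by omega)⟩

/-- The output of one round. -/
noncomputable def USt.out [DecidableEq K] (z : USt K) : List (List K × ℕ) :=
  z.rd.1.map (fun y => (y.1, y.2 * z.2.2.2.1))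

theorem uf_out_len (L : List (List K × ℕ)) (e : ℕ) (h : ∀ z ∈ L, 2 ≤ z.1.length ∧ 1 ≤ z.2) :
    (L.map (fun z => z.2 * (e + 1) + 1)).sum + L.length ≤
      (L.map (fun z => z.2 * (z.1.length - 1))).sum * (e + 3) := by
  induction L with
  | nil => simp
  | cons z L ih =>
    have i := ih fun y hy => h y (List.mem_cons_of_mem _ hy)
    obtain ⟨h1, h2⟩ := h z (List.mem_cons_self ..)
    simp only [List.map_cons, List.sum_cons, List.length_cons] at i ⊢
    have e1 : z.2 * 1 ≤ z.2 * (z.1.length - 1) := Nat.mul_le_mul_left _ (by omega)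
    have e2 : (z.2 * (z.1.length - 1) + (L.map (fun z => z.2 * (z.1.length - 1))).sum) *
      (e + 3) = z.2 * (z.1.length - 1) * (e + 3) +
        (L.map (fun z => z.2 * (z.1.length - 1))).sum * (e + 3) := by ring
    have e3 : z.2 * (e + 3) ≤ z.2 * (z.1.length - 1) * (e + 3) :=
      Nat.mul_le_mul_right _ (by omega)
    have e4 : z.2 * (e + 3) = z.2 * (e + 1) + 2 * z.2 := by ring
    omega

theorem uf_out_bound [DecidableEq K] (z : USt K) :
    (z.rd.1.map (fun y => y.2 * (z.2.2.2.1 + 1) + 1)).sum + z.out.length ≤ 3 * z.B := by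
  obtain ⟨x1, x2⟩ := uf_exAll_len (usq z.1.1 z.1.2.1 z.1.2.2.1 (uw z.2.2.1) z.2.2.2.2)
    (trimP z.2.2.1)
  have e : z.rd = exAll (usq z.1.1 z.1.2.1 z.1.2.2.1 (uw z.2.2.1) z.2.2.2.2)
    (trimP z.2.2.1) := rfl
  rw [← e] at x1 x2
  have x3 := uf_out_len z.rd.1 z.2.2.2.1 x2
  have hl : z.out.length = z.rd.1.length := by simp [USt.out]
  have ht := uf_length_trim z.2.2.1
  have h3 := uf_W_ge z.1.2.2.1 z.M z.1.1.1 (uf_lg z.1.2.1)
  have hM0 : z.2.2.1.length ≤ z.M := le_max_left _ _
  have hM2 : z.2.2.2.1 ≤ z.M := (le_max_right _ _).trans (le_max_right _ _)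
  have h6 : uf_W z.1.2.2.1 z.M z.1.1.1 z.1.2.1.lg ≤ z.B := Nat.le_add_left _ _
  have h7 : (z.1.2.2.1 + 1) * (z.M + 1) ^ 2 = z.1.2.2.1 * (z.M + 1) ^ 2 +
    z.M * z.M + 2 * z.M + 1 := by ring
  have h8 : (z.rd.1.map (fun z => z.2 * (z.1.length - 1))).sum * (z.2.2.2.1 + 3) ≤
      z.M * (z.M + 3) := Nat.mul_le_mul (by omega) (by omega)
  have h9 : z.M * (z.M + 3) = z.M * z.M + 3 * z.M := by ring
  omega

theorem uf_out_ex : ∃ c, ∀ (K : Type) [Field K] [DecidableEq K],
    Comp K (fun z : USt K => z.out) c (fun z => z.B) := by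
  obtain ⟨c1, h1⟩ := uf_rd_ex
  exact ⟨_, fun K _ _ => by
    have i1 := h1 K
    exact (Comp.map (K := K) (l := fun z : USt K => z.rd.1)
      (g := fun z y => (y.1, y.2 * z.2.2.2.1)) (h := Comp.fst (h := i1))).bigO 5 (fun z => by
        have h2 := uf_out_bound z
        simp only [zero_add]
        omega)⟩

theorem uf_test_ex : ∃ c, ∀ (K : Type) [Field K] [DecidableEq K],
    Comp K (fun z : USt K => decide (z.2.1 = 0) || decide ((trimP z.2.2.1).length ≤ 1)) c
      (fun z => z.B) :=
  ⟨_, fun K _ _ => (Comp.or (K := K) (a := fun z : USt K => decide (z.2.1 = 0))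
    (b := fun z => decide ((trimP z.2.2.1).length ≤ 1))).bigO 5 (fun z => by
      have h3 := uf_W_ge z.1.2.2.1 z.M z.1.1.1 (uf_lg z.1.2.1)
      have hM0 : z.2.2.1.length ≤ z.M := le_max_left _ _
      have h6 : uf_W z.1.2.2.1 z.M z.1.1.1 z.1.2.1.lg ≤ z.B := Nat.le_add_left _ _
      have h7 : (z.1.2.2.1 + 1) * (z.M + 1) ^ 2 = z.1.2.2.1 * (z.M + 1) ^ 2 +
        z.M * z.M + 2 * z.M + 1 := by ring
      have ht := uf_length_trim z.2.2.1
      omega)⟩

theorem uf_B_next [DecidableEq K] (z : USt K) : z.next.B ≤ z.B := by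
  have h1 := uf_length_ng z
  have h2 : z.next.M ≤ z.M := by
    have e1 : z.next.M = max z.ng.length (max z.1.2.2.2 z.ne) := rfl
    have e2 : z.M = max z.2.2.1.length (max z.1.2.2.2 z.2.2.2.1) := rfl
    have e3 : z.ne ≤ z.1.2.2.2 := min_le_left _ _
    omega
  exact Nat.add_le_add (uf_kerT_mono (Nat.mul_le_mul_left 2 h1)) (uf_W_mono h2)

/-- The loop as a function of the state. -/
noncomputable def USt.loop [DecidableEq K] (z : USt K) : List (List K × ℕ) :=
  uloop z.1.1 z.1.2.1 z.1.2.2.1 z.1.2.2.2 z.2.1 z.2.2.1 z.2.2.2.1 z.2.2.2.2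

theorem uf_loop_ex : ∃ c, ∀ (K : Type) [Field K] [DecidableEq K],
    Comp K (fun z : USt K => z.loop) c (fun z => (z.2.1 + 1) * (z.B + 1)) := by
  obtain ⟨c0, h0⟩ := uf_test_ex
  obtain ⟨c2, h2⟩ := uf_next_ex
  obtain ⟨c3, h3⟩ := uf_out_ex
  exact ⟨_, fun K _ _ => by
    have i0 := h0 K
    have i2 := h2 K
    have i3 := h3 K
    exact (Comp.rec1 (K := K)
      (isLeaf := fun z : USt K => decide (z.2.1 = 0) || decide ((trimP z.2.2.1).length ≤ 1))
      (leaf := fun _ => ([] : List (List K × ℕ))) (next := fun z => z.next)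
      (join := fun z r => z.out ++ r) (h0 := i0) (h2 := i2)
      (h3 := Comp.append (f := fun z : USt K × List (List K × ℕ) => z.1.out)
        (g := fun z => z.2) (h := i3.comp Comp.fst0))
      (T := fun z => 10 * ((z.2.1 + 1) * (z.B + 1)))
      (fun z => z.2.1)
      (by
        rintro ⟨⟨E, Q, nb, N⟩, ⟨n, g, e, tape⟩⟩ h
        cases n with
        | zero => rfl
        | succ n =>
          simp only [Nat.add_eq_zero_iff, one_ne_zero, and_false, decide_false, Bool.false_or,
            decide_eq_true_eq] at h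
          show uloop E Q nb N (n + 1) g e tape = []
          rw [uloop]
          simp [h])
      (by
        rintro ⟨⟨E, Q, nb, N⟩, ⟨n, g, e, tape⟩⟩ h
        cases n with
        | zero => simp at h
        | succ n =>
          simp only [Nat.add_eq_zero_iff, one_ne_zero, and_false, decide_false, Bool.false_or,
            decide_eq_false_iff_not] at h
          show uloop E Q nb N (n + 1) g e tape = _
          rw [uloop]
          simp only [h, decide_false, cond_false]
          rfl)
      (by
        rintro ⟨⟨E, Q, nb, N⟩, ⟨n, g, e, tape⟩⟩ h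
        cases n with
        | zero => simp at h
        | succ n =>
          show n + 1 - 1 < n + 1
          omega)
      (by
        rintro z h
        have : 1 * (z.B + 1) ≤ (z.2.1 + 1) * (z.B + 1) := Nat.mul_le_mul_right _ (by omega)
        omega)
      (by
        rintro z h
        have h1 := uf_out_bound z
        have h2 := uf_B_next z
        have h3 : z.next.2.1 = z.2.1 - 1 := rfl
        have h4 : z.2.1 ≠ 0 := by
          intro h4
          rw [h4] at h
          simp at h
        have h5 : (z.next.2.1 + 1) * (z.next.B + 1) ≤ z.2.1 * (z.B + 1) :=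
          Nat.mul_le_mul (by omega) (by omega)
        have h6 : (z.2.1 + 1) * (z.B + 1) = z.2.1 * (z.B + 1) + (z.B + 1) := by ring
        dsimp only
        omega)).bigO 10 (fun z => by omega)⟩

theorem uniFactor_ex : ∃ c, ∀ (K : Type) [Field K] [DecidableEq K],
    Comp K (fun z : MEnv K × FQ × ℕ × List K × List K =>
      uniFactor z.1 z.2.1 z.2.2.1 z.2.2.2.1 z.2.2.2.2) c
      (fun z => (Nat.clog 2 z.2.2.2.1.length + 2) * (kerT (2 * z.2.2.2.1.length) +
        (z.2.2.1 + 1) * (z.2.2.2.1.length + 1) ^ 2 * (z.1.1 + 1) * z.2.1.lg)) := by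
  obtain ⟨c0, h0⟩ := uf_loop_ex
  exact ⟨_, fun K _ _ => by
    have i0 := h0 K
    exact (i0.comp (f := fun z : MEnv K × FQ × ℕ × List K × List K =>
      ((z.1, z.2.1, z.2.2.1, z.2.2.2.1.length),
        (Nat.clog 2 z.2.2.2.1.length + 2, z.2.2.2.1, 1, z.2.2.2.2)))
      (Comp.pair (h := Comp.pair (h' := Comp.pair (h' := Comp.pair)))
        (h' := Comp.pair (h' := Comp.pair (h' := Comp.pair))))).bigO 30 (fun z => by
        obtain ⟨E, Q, nb, f, tape⟩ := z
        dsimp only
        have e1 : (nb + 1) * (f.length + 1) ^ 2 * (E.1 + 1) * Q.lg =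
          uf_W nb f.length E.1 Q.lg := rfl
        rw [e1]
        have h1 : uf_W nb (f.length + 1) E.1 Q.lg ≤ 4 * uf_W nb f.length E.1 Q.lg := by
          unfold uf_W
          have a1 : (f.length + 1 + 1) ^ 2 ≤ (2 * (f.length + 1)) ^ 2 :=
            Nat.pow_le_pow_left (by omega) 2
          calc (nb + 1) * (f.length + 1 + 1) ^ 2 * (E.1 + 1) * Q.lg
              ≤ (nb + 1) * (2 * (f.length + 1)) ^ 2 * (E.1 + 1) * Q.lg :=
                Nat.mul_le_mul_right _ (Nat.mul_le_mul_right _ (Nat.mul_le_mul_left _ a1))
            _ = 4 * ((nb + 1) * (f.length + 1) ^ 2 * (E.1 + 1) * Q.lg) := by ring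
        have h2 : USt.B ((E, Q, nb, f.length), Nat.clog 2 f.length + 2, f, 1, tape) ≤
            kerT (2 * f.length) + uf_W nb (f.length + 1) E.1 Q.lg := by
          refine Nat.add_le_add_left (uf_W_mono ?_) _
          show max f.length (max f.length 1) ≤ f.length + 1
          omega
        have h3 := uf_W_ge nb f.length E.1 (uf_lg Q)
        have h4 : (nb + 1) * (f.length + 1) ^ 2 = nb * (f.length + 1) ^ 2 +
          f.length * f.length + 2 * f.length + 1 := by ring
        set W := uf_W nb f.length E.1 Q.lg
        set k := kerT (2 * f.length)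
        set B := USt.B ((E, Q, nb, f.length), Nat.clog 2 f.length + 2, f, 1, tape)
        set c := Nat.clog 2 f.length
        have h5 : (c + 2 + 1) * (B + 1) ≤ (2 * (c + 2)) * (5 * (k + W)) :=
          Nat.mul_le_mul (by omega) (by omega)
        have h6 : (2 * (c + 2)) * (5 * (k + W)) = 10 * ((c + 2) * (k + W)) := by ring
        have h7 : 2 * (k + W) ≤ (c + 2) * (k + W) := Nat.mul_le_mul_right _ (by omega)
        omega)⟩

noncomputable def uniFactorCd : Cd := uniFactor_ex.choose

end

end costs

instance compUniFactor {α : Type} [Enc K α] [DecidableEq K] {f : α → MEnv K} {g : α → FQ}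
    {k : α → ℕ} {l m : α → List K} {c d e r s : Cd} {T T' T'' T3 T4 : α → ℕ}
    [h : Comp K f c T] [h' : Comp K g d T'] [h'' : Comp K k e T''] [h3 : Comp K l r T3]
    [h4 : Comp K m s T4] :
    Comp K (fun x => uniFactor (f x) (g x) (k x) (l x) (m x))
      (uniFactorCd.comp (c.pair (d.pair (e.pair (r.pair s)))))
      (fun x => T x + (T' x + (T'' x + (T3 x + T4 x))) + (Nat.clog 2 (l x).length + 2) *
        (kerT (2 * (l x).length) +
        (k x + 1) * ((l x).length + 1) ^ 2 * ((f x).1 + 1) * (g x).lg)) :=
  (uniFactor_ex.choose_spec K).comp (f := fun x => (f x, g x, k x, l x, m x))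
    (Comp.pair (h' := Comp.pair (h' := Comp.pair (h' := Comp.pair))))

end Pool.Agent.BiFac

end

section

/-!
# Classes of modular factors and their products
-/

set_option autoImplicit false
set_option synthInstance.maxSize 4096

namespace Pool.Agent.BiFac

open Polynomial Pool.Agent.TreeRAM

variable {K : Type} [Field K]

namespace ClsAux

theorem exists_map_eq {α β : Type} (f : α → β) (l : List β) (h : ∀ b ∈ l, ∃ a, f a = b) :
    ∃ js : List α, js.map f = l := by
  induction l with
  | nil => exact ⟨[], rfl⟩
  | cons b l ih =>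
    obtain ⟨a, ha⟩ := h b (List.mem_cons_self ..)
    obtain ⟨js, hjs⟩ := ih (fun b hb => h b (List.mem_cons_of_mem _ hb))
    exact ⟨a :: js, by rw [List.map_cons, ha, hjs]⟩

theorem getElem?_eq_some_iff {w : List K} {i : ℕ} (hi : i < w.length) (k : K) :
    w[i]? = some k ↔ vec w i = k := by
  rw [vec, List.getD_eq_getElem?_getD, List.getElem?_eq_getElem hi]
  simp

/-- product over a class -/
theorem prod_sel' [DecidableEq K] {M : Type} [CommMonoid M] (U : List (Dat K)) {w : List K}
    (hw : w.length = U.length) (k : K) (g : Dat K → M) :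
    ((sel k w U).map g).prod =
      ∏ i ∈ Finset.univ.filter (fun i : Fin U.length => onU U w i = k), g (U.get i) := by
  rw [prod_sel k w U hw g]
  apply Finset.prod_congr _ (fun _ _ => rfl)
  ext i
  simp only [Finset.mem_filter, Finset.mem_univ, true_and]
  exact getElem?_eq_some_iff (by rw [hw]; exact i.2) k

/-- sum over a class -/
theorem sum_sel' [DecidableEq K] (U : List (Dat K)) {w : List K}
    (hw : w.length = U.length) (k : K) (g : Dat K → ℕ) :
    ((sel k w U).map g).sum =
      ∑ i ∈ Finset.univ.filter (fun i : Fin U.length => onU U w i = k), g (U.get i) := by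
  have h := prod_sel' U hw k (fun u => Multiplicative.ofAdd (g u))
  have h1 : ∀ l : List (Dat K), Multiplicative.toAdd ((l.map (fun u =>
      Multiplicative.ofAdd (g u))).prod) = (l.map g).sum := by
    intro l
    induction l with
    | nil => rfl
    | cons a l ih => rw [List.map_cons, List.prod_cons, toAdd_mul, ih, List.map_cons,
        List.sum_cons]; rfl
  rw [← h1, h, toAdd_prod]
  rfl

theorem coeff_degree_lt_of_rows {L : List (List K)} {w : ℕ} (_ : 0 < w)
    (h : ∀ r ∈ L, r.length ≤ w) (j : ℕ) : ((toB L).coeff j).degree < w := by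
  rw [coeff_toB]
  refine lt_of_lt_of_le (degree_toP_lt _) ?_
  rw [List.getD_eq_getElem?_getD]
  rcases hj : L[j]? with _ | r
  · simp
  · simp only [Option.getD_some]
    exact_mod_cast h r (List.mem_of_getElem? hj)

theorem coeff_degree_lt_of_tdeg {n w : ℕ} {f : K[X][X]} (h : TDeg n f) (hn : n < w) (j : ℕ) :
    (f.coeff j).degree < w := by
  refine lt_of_le_of_lt degree_le_natDegree ?_
  have := h.natDegree_coeff_le j
  exact_mod_cast (by omega : (f.coeff j).natDegree < w)

section

variable {E : MEnv K} {t : ℕ} {F : K[X][X]} {U : List (Dat K)}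

theorem len_eq (h : DatOk E t F U) (i : Fin U.length) :
    (U.get i).1.length = (famP U i).natDegree + 1 := (h.shape _ (List.get_mem U i)).len

theorem tot_le (h : DatOk E t F U) (c : List (Dat K)) (hc : c.Sublist U) :
    tot (c.map Prod.fst) ≤ 3 * F.natDegree := by
  have h1 : tot (c.map Prod.fst) ≤ tot (U.map Prod.fst) := by
    unfold tot
    rw [List.map_map, List.map_map]
    exact (hc.map _).sum_le_sum (fun _ _ => Nat.zero_le _)
  refine h1.trans ?_
  have h2 : tot (U.map Prod.fst) = ∑ i : Fin U.length, ((U.get i).1.length + 1) := by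
    unfold tot
    rw [List.map_map, ← List.sum_ofFn]
    congr 1
    conv_lhs => rw [← List.ofFn_get U, List.map_ofFn]
    rfl
  rw [h2, h.lifted.natDegree_eq, Finset.mul_sum]
  refine Finset.sum_le_sum (fun i _ => ?_)
  have h3 := len_eq h i
  have h4 := h.lifted.natDegree_pos i
  omega

theorem fits' (h : DatOk E t F U) (c : List (Dat K)) (hc : c.Sublist U) :
    Fits E (2 * tot (c.map Prod.fst)) (2 ^ t) :=
  h.fits.mono (by have := tot_le h c hc; omega)

omit [Field K] in
theorem sel_sublist [DecidableEq K] {α : Type} (k : K) (w : List K) (R : List α) :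
    (sel k w R).Sublist R := by
  induction R generalizing w with
  | nil => rw [sel_nil_right]
  | cons b R ih =>
    cases w with
    | nil => rw [sel_nil_left]; exact List.nil_sublist _
    | cons a w =>
      rw [sel_cons]
      split_ifs
      · exact (ih w).cons_cons b
      · exact (ih w).cons b

end

end ClsAux

open ClsAux

theorem classesBy_eq [DecidableEq K] (U : List (Dat K)) {w : List K} (hw : w.length = U.length) :
    ∃ js : List (Fin U.length), classesBy w U = js.map (fun i => sel (onU U w i) w U) ∧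
      (js.map (onU U w)).Nodup ∧ ∀ i, ∃ j ∈ js, onU U w j = onU U w i := by
  have h1 : ∀ k ∈ w.dedup, ∃ i : Fin U.length, onU U w i = k := by
    intro k hk
    rw [List.mem_dedup] at hk
    obtain ⟨i, hi, hik⟩ := List.getElem_of_mem hk
    refine ⟨⟨i, by omega⟩, ?_⟩
    exact (getElem?_eq_some_iff hi k).1 (by rw [List.getElem?_eq_getElem hi, hik])
  obtain ⟨js, hjs⟩ := exists_map_eq (onU U w) w.dedup h1
  refine ⟨js, ?_, ?_, ?_⟩
  · unfold classesBy
    rw [← hjs, List.map_map]
    rfl
  · rw [hjs]
    exact List.nodup_dedup w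
  · intro i
    have h2 : onU U w i ∈ w.dedup := by
      rw [List.mem_dedup]
      have hi : (i : ℕ) < w.length := by rw [hw]; exact i.2
      have h3 := (getElem?_eq_some_iff hi (onU U w i)).2 rfl
      exact List.mem_of_getElem? h3
    rw [← hjs, List.mem_map] at h2
    exact h2

theorem cg_clsProd [DecidableEq K] {E : MEnv K} {t : ℕ} {F : K[X][X]} {U : List (Dat K)}
    (h : DatOk E t F U) {w : List K} (hw : w.length = U.length) (i : Fin U.length) :
    Cg (2 ^ t) (toB (clsProd E t (sel (onU U w i) w U)))
      (∏ j ∈ Finset.univ.filter (fun j => onU U w j = onU U w i), famP U j) ∧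
    (clsProd E t (sel (onU U w i) w U)).length =
      (∑ j ∈ Finset.univ.filter (fun j => onU U w j = onU U w i), (famP U j).natDegree) + 1 ∧
    (toB (clsProd E t (sel (onU U w i) w U))).Monic := by
  have h1 : Cg (2 ^ t) (toB (clsProd E t (sel (onU U w i) w U)))
      (∏ j ∈ Finset.univ.filter (fun j => onU U w j = onU U w i), famP U j) := by
    have h2 := cg_prodB h.good (fits' h _ (sel_sublist (onU U w i) w U))
    rw [List.map_map] at h2
    have h3 := prod_sel' U hw (onU U w i) (toB ∘ Prod.fst)
    rw [h3] at h2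
    exact h2
  have h2 : (clsProd E t (sel (onU U w i) w U)).length =
      (∑ j ∈ Finset.univ.filter (fun j => onU U w j = onU U w i), (famP U j).natDegree) + 1 := by
    unfold clsProd
    rw [length_prodB, List.map_map]
    · congr 1
      refine (sum_sel' U hw (onU U w i) _).trans (Finset.sum_congr rfl (fun j _ => ?_))
      simp only [Function.comp_apply]
      rw [len_eq h j]
      rfl
    · intro G hG hG0
      rw [List.mem_map] at hG
      obtain ⟨u, hu, rfl⟩ := hG
      have h3 := (h.shape u ((sel_sublist (onU U w i) w U).mem hu)).len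
      rw [hG0] at h3
      simp at h3
  refine ⟨h1, h2, ?_⟩
  have hmon : (∏ j ∈ Finset.univ.filter (fun j => onU U w j = onU U w i), famP U j).Monic :=
    monic_prod_of_monic _ _ (fun j _ => h.lifted.monic_i j)
  have hdeg : (∏ j ∈ Finset.univ.filter (fun j => onU U w j = onU U w i), famP U j).natDegree =
      ∑ j ∈ Finset.univ.filter (fun j => onU U w j = onU U w i), (famP U j).natDegree :=
    natDegree_prod_of_monic _ _ (fun j _ => h.lifted.monic_i j)
  exact (ML.of_cg h1 hmon (by positivity) (by rw [h2, hdeg])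
    (fun r hr => (rows_prodB E (2 ^ t) _ r hr).le)).1.monic

/-- two good approximations of the product of a class agree -/
theorem ClsAux.eq_of_cg [DecidableEq K] {E : MEnv K} {t : ℕ} {F : K[X][X]} {U : List (Dat K)}
    (h : DatOk E t F U) {w : List K} (hw : w.length = U.length) (i : Fin U.length)
    {N : K[X][X]}
    (hN : TDeg (∑ j ∈ Finset.univ.filter (fun j => onU U w j = onU U w i),
      (famP U j).natDegree) N)
    (hc : Cg (2 ^ t) N
      (∏ j ∈ Finset.univ.filter (fun j => onU U w j = onU U w i), famP U j)) :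
    toB (clsProd E t (sel (onU U w i) w U)) = N := by
  obtain ⟨h1, _, _⟩ := cg_clsProd h hw i
  have hle : ∑ j ∈ Finset.univ.filter (fun j => onU U w j = onU U w i), (famP U j).natDegree ≤
      F.natDegree := by
    rw [h.lifted.natDegree_eq]
    exact Finset.sum_le_sum_of_subset (Finset.filter_subset _ _)
  have hlt := h.lt
  exact (h1.trans hc.symm).eq (coeff_degree_lt_of_rows (by positivity)
    (fun r hr => (rows_prodB E (2 ^ t) _ r hr).le))
    (coeff_degree_lt_of_tdeg hN (by omega))

theorem isRes_iff [DecidableEq K] {E : MEnv K} {t : ℕ} {F : K[X][X]} {U : List (Dat K)}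
    (h : DatOk E t F U) {w : List K} (hw : w.length = U.length) (i : Fin U.length) :
    isRes E t (sel (onU U w i) w U) = true ↔ ResCl (2 ^ t) (famP U) (onU U w) i := by
  obtain ⟨h1, h2, h3⟩ := cg_clsProd h hw i
  unfold isRes
  rw [isTri_iff, h2, Nat.add_sub_cancel]
  constructor
  · intro h4
    exact ⟨_, h3, h4, h1⟩
  · rintro ⟨N, hN1, hN2, hN3⟩
    rw [ClsAux.eq_of_cg h hw i hN2 hN3]
    exact hN2

theorem clsOut_spec [DecidableEq K] {E : MEnv K} {t : ℕ} {F f : K[X][X]} {U : List (Dat K)}
    (h : DatOk E t F U) {w : List K} (hw : w.length = U.length) (i : Fin U.length)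
    (hfm : f.Monic) (hft : TDeg f.natDegree f)
    (hfn : f.natDegree = ∑ j ∈ Finset.univ.filter (fun j => onU U w j = onU U w i),
      (famP U j).natDegree)
    (hfc : Cg (2 ^ t) f
      (∏ j ∈ Finset.univ.filter (fun j => onU U w j = onU U w i), famP U j)) :
    toB (clsOut E t (sel (onU U w i) w U)).1 = f ∧
    (clsOut E t (sel (onU U w i) w U)).1.length = f.natDegree + 1 ∧
    (∀ r ∈ (clsOut E t (sel (onU U w i) w U)).1, r.length = f.natDegree + 1) ∧
    ∃ j, onU U w j = onU U w i ∧
      (clsOut E t (sel (onU U w i) w U)).2 = (U.get j).2.1 := by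
  obtain ⟨h1, h2, h3⟩ := cg_clsProd h hw i
  have h4 := ClsAux.eq_of_cg h hw i (by rw [← hfn]; exact hft) hfc
  rw [← hfn] at h2
  unfold clsOut
  simp only
  rw [h2]
  have hrows : ∀ r ∈ (clsProd E t (sel (onU U w i) w U)).map (padTo (f.natDegree + 1)),
      r.length = f.natDegree + 1 := by
    intro r hr
    rw [List.mem_map] at hr
    obtain ⟨s, _, rfl⟩ := hr
    exact length_padTo _ _
  refine ⟨?_, by rw [List.length_map, h2], hrows, ?_⟩
  · have h5 := cg_map_padTo (f.natDegree + 1) (clsProd E t (sel (onU U w i) w U))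
    rw [h4] at h5
    exact h5.eq (coeff_degree_lt_of_rows (by positivity) (fun r hr => (hrows r hr).le))
      (coeff_degree_lt_of_tdeg hft (by omega))
  · have hi : (i : ℕ) < w.length := by rw [hw]; exact i.2
    have hmem : U.get i ∈ sel (onU U w i) w U :=
      mem_sel.2 ⟨i, (getElem?_eq_some_iff hi _).2 rfl, by simp⟩
    have hne : sel (onU U w i) w U ≠ [] := List.ne_nil_of_mem hmem
    obtain ⟨u, l, hul⟩ := List.exists_cons_of_ne_nil hne
    rw [hul, List.headD_cons]
    have hu : u ∈ sel (onU U w i) w U := by rw [hul]; exact List.mem_cons_self ..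
    obtain ⟨j, hj1, hj2⟩ := mem_sel.1 hu
    have hj : j < U.length := by
      by_contra hc
      rw [List.getElem?_eq_none (by omega)] at hj2
      exact absurd hj2 (by simp)
    refine ⟨⟨j, hj⟩, ?_, ?_⟩
    · exact (getElem?_eq_some_iff (by omega) _).1 hj1
    · rw [List.getElem?_eq_getElem hj, Option.some.injEq] at hj2
      rw [← hj2]
      rfl

/-- the product of all -/
theorem clsProd_all [DecidableEq K] {E : MEnv K} {t : ℕ} {F : K[X][X]} {U : List (Dat K)}
    (h : DatOk E t F U) : toB (clsProd E t U) = F ∧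
    (clsProd E t U).length = F.natDegree + 1 := by
  constructor
  · have h2 := cg_prodB h.good (fits' h U (List.Sublist.refl _))
    have h3 : ((U.map Prod.fst).map toB).prod = ∏ i, famP U i := by
      rw [List.map_map, ← List.prod_ofFn]
      congr 1
      conv_lhs => rw [← List.ofFn_get U, List.map_ofFn]
      rfl
    rw [h3] at h2
    have hlt := h.lt
    exact (h2.trans h.lifted.prod.symm).eq (coeff_degree_lt_of_rows (by positivity)
      (fun r hr => (rows_prodB E (2 ^ t) _ r hr).le))
      (coeff_degree_lt_of_tdeg h.lifted.tdeg hlt)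
  · unfold clsProd
    rw [length_prodB, List.map_map]
    · congr 1
      rw [h.lifted.natDegree_eq, ← List.sum_ofFn]
      congr 1
      conv_lhs => rw [← List.ofFn_get U, List.map_ofFn]
      congr 1
      ext i
      simp only [Function.comp_apply]
      rw [len_eq h i]
      rfl
    · intro G hG hG0
      rw [List.mem_map] at hG
      obtain ⟨u, hu, rfl⟩ := hG
      have h3 := (h.shape u hu).len
      rw [hG0] at h3
      simp at h3

end Pool.Agent.BiFac

end
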