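import Pool.Agent.Work.MP_8d07ed_lc.Bd.B05
import Pool.Agent.Work.MP_8d07ed_lc.Bd.B01
import Pool.Agent.Work.MP_8d07ed_lc.Bd.B04

/-! Bundle of small proof modules (one section per former module). -/

section

/-!
# The descent from the extension field: cost of the algorithm
-/

set_option autoImplicit false
set_option synthInstance.maxSize 10000

namespace Pool.Agent.BiFac

open Polynomial Pool.Agent.TreeRAM

namespace DSC

/-! ### Removing duplicates, elements of any type -/

/-- The total cost of the comparisons of all pairs. -/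
def pairs {α : Type} (Te : α × α → ℕ) : List α → ℕ
  | [] => 0
  | a :: t => (t.map (fun b => Te (b, a) + 1)).sum + pairs Te t

theorem dedupG_ex : ∃ G : Cd → Cd, ∀ (ce : Cd) (K : Type) [Field K] (α : Type) [Enc K α]
    [DecidableEq α] (Te : α × α → ℕ), Comp K (fun z : α × α => decide (z.1 = z.2)) ce Te →
    Comp K (fun l : List α => l.dedup) (G ce) (fun l => l.length + pairs Te l) :=
  ⟨fun _ => _, fun ce K _ α _ _ Te he => by
    have hb : Comp K (fun z : ((List α × List α) × (α × List α)) × α =>
        decide (z.2 = z.1.2.1)) _ _ :=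
      he.comp (f := fun z : ((List α × List α) × (α × List α)) × α => (z.2, z.1.2.1)) Comp.pair
    have ha : Comp K (fun z : (List α × List α) × (α × List α) =>
        z.2.2.any (fun b => decide (b = z.2.1))) _ _ :=
      Comp.any (l := fun z : (List α × List α) × (α × List α) => z.2.2)
        (g := fun z b => decide (b = z.2.1)) (hg := hb)
    have hj : Comp K (fun z : List α × List α => lcase z.1 z.2 (fun a t =>
        bif t.any (fun b => decide (b = a)) then z.2 else a :: z.2)) _ _ :=
      Comp.lcase (l := fun z : List α × List α => z.1) (f := fun z => z.2)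
        (g := fun z a t => bif t.any (fun b => decide (b = a)) then z.2 else a :: z.2)
        (hg := Comp.cond (hb := ha))
    exact (Comp.rec1 (K := K) (isLeaf := fun l : List α => l.isEmpty)
      (leaf := fun _ => []) (next := fun l => l.tail)
      (join := fun l r => lcase l r (fun a t =>
        bif t.any (fun b => decide (b = a)) then r else a :: r)) (h3 := hj)
      (T := fun l => 4 * l.length + pairs Te l)
      (fun l => l.length)
      (by rintro l h; cases l <;> simp_all)
      (by
        rintro l h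
        cases l with
        | nil => simp at h
        | cons a t =>
          by_cases ha : a ∈ t
          · simp only [List.tail_cons, lcase]
            rw [List.dedup_cons_of_mem ha]
            have : (t.any fun b => decide (b = a)) = true := by
              rw [List.any_eq_true]; exact ⟨a, ha, by simp⟩
            rw [this]; rfl
          · simp only [List.tail_cons, lcase]
            rw [List.dedup_cons_of_notMem ha]
            have : (t.any fun b => decide (b = a)) = false := by
              rw [List.any_eq_false]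
              intro b hb
              simp only [decide_eq_true_eq]
              rintro rfl
              exact ha hb
            rw [this]; rfl)
      (by rintro l h; cases l <;> simp_all)
      (by rintro l h; cases l <;> simp_all)
      (by
        rintro l h
        cases l with
        | nil => simp at h
        | cons a t =>
          simp only [lcase, List.tail_cons, List.length_cons, pairs]
          cases (t.any fun b => decide (b = a)) <;>
          simp only [cond_true, cond_false, zero_add, add_zero] <;> omega)).bigO 4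
        (fun z => by omega)⟩

noncomputable def dedupGCd (c : Cd) : Cd := dedupG_ex.choose c

theorem compDedupG {K : Type} [Field K] {α β : Type} [Enc K α] [Enc K β] [DecidableEq β]
    {l : α → List β} {c e : Cd} {T : α → ℕ} {Te : β × β → ℕ} (h : Comp K l c T)
    (he : Comp K (fun z : β × β => decide (z.1 = z.2)) e Te) :
    Comp K (fun x => (l x).dedup) ((dedupGCd e).comp c)
      (fun x => T x + ((l x).length + pairs Te (l x))) :=
  (dedupG_ex.choose_spec e K β Te he).app1 h

theorem pairs_map {α β : Type} (Te : β × β → ℕ) (f : α → β) (l : List α) :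
    pairs Te (l.map f) = pairs (fun z : α × α => Te (f z.1, f z.2)) l := by
  induction l with
  | nil => rfl
  | cons a l ih => simp only [List.map_cons, pairs, ih, List.map_map]; rfl

theorem pairs_le {α : Type} {Te : α × α → ℕ} {l : List α} {φ : α → ℕ} {B : ℕ}
    (h : ∀ a b, Te (b, a) + 1 ≤ B * (φ a * φ b)) :
    pairs Te l ≤ B * (l.map φ).sum ^ 2 := by
  induction l with
  | nil => simp [pairs]
  | cons a l ih =>
    simp only [pairs, List.map_cons, List.sum_cons]
    have h1 : (l.map (fun b => Te (b, a) + 1)).sum ≤ B * φ a * (l.map φ).sum := by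
      rw [← List.sum_map_mul_left]
      apply List.sum_le_sum
      intro b _
      rw [mul_assoc]
      exact h a b
    nlinarith [Nat.zero_le (B * φ a * (l.map φ).sum), Nat.zero_le (B * φ a ^ 2)]

/-- for lists with elements satisfying a condition -/
theorem pairs_le_of {α : Type} {Te : α × α → ℕ} {l : List α} {B : ℕ}
    (h : ∀ a ∈ l, ∀ b ∈ l, Te (b, a) + 1 ≤ B) : pairs Te l ≤ B * l.length ^ 2 := by
  induction l with
  | nil => simp [pairs]
  | cons a l ih =>
    have ih' := ih (fun x hx y hy => h x (List.mem_cons_of_mem _ hx) y (List.mem_cons_of_mem _ hy))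
    simp only [pairs, List.length_cons]
    have h1 : (l.map (fun b => Te (b, a) + 1)).sum ≤ (l.map (fun _ => B)).sum := by
      apply List.sum_le_sum
      intro b hb
      exact h a List.mem_cons_self b (List.mem_cons_of_mem _ hb)
    rw [List.map_const', List.sum_replicate, smul_eq_mul] at h1
    nlinarith [Nat.zero_le (B * l.length)]

/-! ### Equality of lists of lists -/

theorem eqLL_ex : ∃ c, ∀ (K : Type) [Field K] [DecidableEq K],
    Comp K (fun z : List (List K) × List (List K) => decide (z.1 = z.2)) c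
      (fun z => ((z.1.zip z.2).map (fun p => min p.1.length p.2.length + 1)).sum) :=
  ⟨_, fun K _ _ => ((Comp.eqList (K := K) (β := List K)
    (l := fun z : List (List K) × List (List K) => z.1) (m := fun z => z.2)
    inferInstance inferInstance
    (Comp.eqListK (K := K) (l := fun z : List K × List K => z.1) (m := fun z => z.2))).mono
      (fun z => by simp))⟩

theorem eqPL_ex : ∃ c, ∀ (K : Type) [Field K] [DecidableEq K],
    Comp K (fun z : (List (List K) × ℕ) × (List (List K) × ℕ) => decide (z.1 = z.2)) c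
      (fun z => ((z.1.1.zip z.2.1).map (fun p => min p.1.length p.2.length + 1)).sum +
        min z.1.2 z.2.2) := by
  obtain ⟨c, hc⟩ := eqLL_ex
  exact ⟨_, fun K _ _ => by
    have h1 : Comp K (fun z : (List (List K) × ℕ) × (List (List K) × ℕ) =>
        decide (z.1.1 = z.2.1)) _ _ :=
      (hc K).app2 (f := fun z : (List (List K) × ℕ) × (List (List K) × ℕ) => z.1.1)
        (f' := fun z => z.2.1) inferInstance inferInstance
    have h2 : Comp K (fun z : (List (List K) × ℕ) × (List (List K) × ℕ) =>
        decide (z.1.1 = z.2.1) && decide (z.1.2 = z.2.2)) _ _ :=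
      Comp.and (h := h1)
    exact (h2.congr (fun z => by
      obtain ⟨⟨a, b⟩, ⟨a', b'⟩⟩ := z
      simp only [Prod.mk.injEq, Bool.decide_and])).mono (fun z => by
        simp only [zero_add, add_zero]
        exact le_rfl)⟩

/-! ### Normalisation and Frobenius -/

theorem length_flatten_le {α : Type} (F : List (List α)) : F.flatten.length ≤ tot F := by
  induction F with
  | nil => simp [tot]
  | cons r F ih =>
    have e : tot (r :: F) = r.length + 1 + tot F := by simp [tot]
    rw [e, List.flatten_cons, List.length_append]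
    omega

theorem lcB_ex : ∃ c, ∀ (K : Type) [Field K] [DecidableEq K],
    Comp K (fun F : List (List K) => lcB F) c (fun F => tot F) :=
  ⟨_, fun K _ _ => by
    have h1 : Comp K (fun F : List (List K) =>
        (F.flatten.filter (fun a => !decide (a = 0))).getLastD 0) _ _ := inferInstance
    refine (h1.congr (g := fun F => lcB F) fun F => rfl).bigO 4 (fun F => ?_)
    have e1 := length_flatten_le F
    have e2 : (F.flatten.filter (fun a => !decide (a = 0))).length ≤ F.flatten.length :=
      List.length_filter_le _ _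
    have e3 : (F.map (fun r => r.length + 1)).sum = tot F := rfl
    simp only [zero_add, add_zero, List.map_const', List.sum_replicate, smul_eq_mul, mul_one, e3]
    omega⟩

noncomputable def lcBCd : Cd := lcB_ex.choose

instance compLcB {K : Type} [Field K] [DecidableEq K] {α : Type} [Enc K α]
    {f : α → List (List K)} {c : Cd} {T : α → ℕ} [h : Comp K f c T] :
    Comp K (fun x => lcB (f x)) (lcBCd.comp c) (fun x => T x + tot (f x)) :=
  (lcB_ex.choose_spec K).app1 h

theorem normB_ex : ∃ c, ∀ (K : Type) [Field K] [DecidableEq K],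
    Comp K (fun F : List (List K) => normB F) c (fun F => tot F) :=
  ⟨_, fun K _ _ => by
    have h1 : Comp K (fun F : List (List K) => smulB (lcB F)⁻¹ F) _ _ :=
      compSmulB (f := fun F : List (List K) => (lcB F)⁻¹) (g := fun F => F)
        (h := Comp.invK (h := compLcB (f := fun F : List (List K) => F) (h := Comp.id)))
        (h' := Comp.id)
    exact (h1.congr (g := fun F => normB F) fun F => rfl).bigO 2 (fun F => by omega)⟩

noncomputable def normBCd : Cd := normB_ex.choose

instance compNormB {K : Type} [Field K] [DecidableEq K] {α : Type} [Enc K α]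
    {f : α → List (List K)} {c : Cd} {T : α → ℕ} [h : Comp K f c T] :
    Comp K (fun x => normB (f x)) (normBCd.comp c) (fun x => T x + tot (f x)) :=
  (normB_ex.choose_spec K).app1 h

theorem frobB_ex : ∃ c, ∀ (K : Type) [Field K],
    Comp K (fun z : (List Bool × ℕ) × List (List K) => frobB z.1.1 z.1.2 z.2) c
      (fun z => tot z.2 * ((z.1.1.length + 1) * (z.1.2 + 1))) :=
  ⟨_, fun K _ => by
    have h1 : Comp K (fun z : (List Bool × ℕ) × List (List K) =>
        z.2.map (fun r => r.map (fun a => frobK z.1.1 z.1.2 a))) _ _ := inferInstance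
    refine (h1.congr (g := fun z => frobB z.1.1 z.1.2 z.2) fun z => rfl).bigO 2 (fun z => ?_)
    obtain ⟨⟨bits, k⟩, F⟩ := z
    simp only [zero_add, add_zero, List.map_const', List.sum_replicate, smul_eq_mul]
    have key : (F.map (fun r => r.length * ((bits.length + 1) * (k + 1) + 1) + 1)).sum ≤
        2 * (tot F * ((bits.length + 1) * (k + 1))) := by
      induction F with
      | nil => simp [tot]
      | cons r F ih =>
        have e : tot (r :: F) = r.length + 1 + tot F := by simp [tot]
        rw [e, List.map_cons, List.sum_cons]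
        have hB : 1 ≤ (bits.length + 1) * (k + 1) := Nat.mul_pos (by omega) (by omega)
        generalize (bits.length + 1) * (k + 1) = B at *
        nlinarith [Nat.zero_le (r.length * B), Nat.le_mul_of_pos_right r.length hB]
    omega⟩

noncomputable def frobBCd : Cd := frobB_ex.choose

instance compFrobB {K : Type} [Field K] {α : Type} [Enc K α] {b : α → List Bool} {k : α → ℕ}
    {f : α → List (List K)} {c1 c2 c3 : Cd} {T1 T2 T3 : α → ℕ} [h1 : Comp K b c1 T1]
    [h2 : Comp K k c2 T2] [h3 : Comp K f c3 T3] :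
    Comp K (fun x => frobB (b x) (k x) (f x)) (frobBCd.comp ((c1.pair c2).pair c3))
      (fun x => T1 x + T2 x + T3 x + tot (f x) * (((b x).length + 1) * (k x + 1))) :=
  (frobB_ex.choose_spec K).comp (Comp.pair (h := Comp.pair (h := h1) (h' := h2)) (h' := h3))

theorem tot_frobB {K : Type} [Field K] (bits : List Bool) (k : ℕ) (F : List (List K)) :
    tot (frobB bits k F) = tot F := by
  unfold tot frobB
  rw [List.map_map]
  congr 1
  apply List.map_congr_left
  intro r _
  simp

theorem length_frobB {K : Type} [Field K] (bits : List Bool) (k : ℕ) (F : List (List K)) :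
    (frobB bits k F).length = F.length := by simp [frobB]

theorem length_conjL {K : Type} [Field K] (bits : List Bool) (k N : ℕ) (F : List (List K)) :
    (conjL bits k N F).length = N := by
  induction N generalizing F with
  | zero => rfl
  | succ N ih => rw [conjL, List.length_cons, ih]

theorem mem_conjL {K : Type} [Field K] (bits : List Bool) (k N : ℕ) (F : List (List K)) :
    ∀ x ∈ conjL bits k N F, tot x = tot F ∧ x.length = F.length := by
  induction N generalizing F with
  | zero => simp [conjL]
  | succ N ih =>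
    intro x hx
    rw [conjL, List.mem_cons] at hx
    rcases hx with rfl | hx
    · exact ⟨rfl, rfl⟩
    · have := ih _ x hx
      rwa [tot_frobB, length_frobB] at this

theorem conjL_ex : ∃ c, ∀ (K : Type) [Field K],
    Comp K (fun z : (List Bool × ℕ) × ℕ × List (List K) => conjL z.1.1 z.1.2 z.2.1 z.2.2) c
      (fun z => z.2.1 * (tot z.2.2 + 1) * ((z.1.1.length + 1) * (z.1.2 + 1))) :=
  ⟨_, fun K _ => (Comp.rec1 (K := K)
    (isLeaf := fun z : (List Bool × ℕ) × ℕ × List (List K) => decide (z.2.1 = 0))
    (leaf := fun _ => []) (next := fun z => (z.1, z.2.1 - 1, frobB z.1.1 z.1.2 z.2.2))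
    (join := fun z r => z.2.2 :: r)
    (T := fun z => 3 * (z.2.1 * (tot z.2.2 + 1) * ((z.1.1.length + 1) * (z.1.2 + 1))))
    (fun z => z.2.1)
    (by rintro ⟨y, m, L⟩ h; cases m <;> simp_all [conjL])
    (by rintro ⟨y, m, L⟩ h; cases m <;> simp_all [conjL])
    (by rintro ⟨y, m, L⟩ h; cases m <;> simp_all)
    (by rintro ⟨y, m, L⟩ h; cases m <;> simp_all)
    (by
      rintro ⟨⟨bits, k⟩, m, L⟩ h
      cases m with
      | zero => simp_all
      | succ m =>
        simp only [Nat.add_sub_cancel, zero_add, add_zero, tot_frobB]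
        have hB : 1 ≤ (bits.length + 1) * (k + 1) := Nat.mul_pos (by omega) (by omega)
        generalize (bits.length + 1) * (k + 1) = B at *
        have e : (m + 1) * (tot L + 1) * B = m * (tot L + 1) * B + tot L * B + B := by ring
        rw [e]
        omega)).bigO 3 (fun z => by omega)⟩

noncomputable def conjLCd : Cd := conjL_ex.choose

instance compConjL {K : Type} [Field K] {α : Type} [Enc K α] {b : α → List Bool} {k N : α → ℕ}
    {f : α → List (List K)} {c1 c2 c3 c4 : Cd} {T1 T2 T3 T4 : α → ℕ} [h1 : Comp K b c1 T1]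
    [h2 : Comp K k c2 T2] [h3 : Comp K N c3 T3] [h4 : Comp K f c4 T4] :
    Comp K (fun x => conjL (b x) (k x) (N x) (f x)) (conjLCd.comp ((c1.pair c2).pair (c3.pair c4)))
      (fun x => T1 x + T2 x + (T3 x + T4 x) +
        N x * (tot (f x) + 1) * (((b x).length + 1) * (k x + 1))) :=
  (conjL_ex.choose_spec K).comp
    (Comp.pair (h := Comp.pair (h := h1) (h' := h2)) (h' := Comp.pair (h := h3) (h' := h4)))

/-! ### Lists of lists of lists: removing duplicates -/

theorem sum_zip_min_le {α : Type} (R R' : List (List α)) :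
    ((R.zip R').map (fun p => min p.1.length p.2.length + 1)).sum ≤ tot R := by
  induction R generalizing R' with
  | nil => simp
  | cons r R ih =>
    cases R' with
    | nil => simp
    | cons r' R' =>
      have e : tot (r :: R) = r.length + 1 + tot R := by simp [tot]
      rw [List.zip_cons_cons, List.map_cons, List.sum_cons, e]
      have := ih R'
      have h2 : min r.length r'.length ≤ r.length := min_le_left _ _
      dsimp only
      omega

theorem sum_zip_min_le' {α : Type} {R R' : List (List α)} {w w' : ℕ}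
    (h : ∀ r ∈ R, r.length ≤ w) (h' : ∀ r ∈ R', r.length ≤ w') :
    ((R.zip R').map (fun p => min p.1.length p.2.length + 1)).sum ≤
      min R.length R'.length * (min w w' + 1) := by
  have h1 : ((R.zip R').map (fun p => min p.1.length p.2.length + 1)).sum ≤
      ((R.zip R').map (fun _ => min w w' + 1)).sum := by
    apply List.sum_le_sum
    intro p hp
    have h2 := h _ (List.of_mem_zip hp).1
    have h3 := h' _ (List.of_mem_zip hp).2
    omega
  rw [List.map_const', List.sum_replicate, smul_eq_mul, List.length_zip] at h1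
  exact h1

/-- The list of the distinct conjugates. -/
noncomputable def dconj {K : Type} [Field K] [DecidableEq K] (bits : List Bool) (k N : ℕ)
    (F : List (List K)) : List (List (List K)) := (conjL bits k N F).dedup

theorem length_dconj {K : Type} [Field K] [DecidableEq K] (bits : List Bool) (k N : ℕ)
    (F : List (List K)) : (dconj bits k N F).length ≤ N := by
  have h1 : (dconj bits k N F).length ≤ (conjL bits k N F).length :=
    (List.dedup_sublist _).length_le
  rwa [length_conjL] at h1

theorem tot_dconj {K : Type} [Field K] [DecidableEq K] (bits : List Bool) (k N : ℕ)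
    (F : List (List K)) : tot (dconj bits k N F) ≤ N * (F.length + 1) := by
  have h1 : tot (dconj bits k N F) =
      ((dconj bits k N F).map (fun _ => F.length + 1)).sum := by
    unfold tot
    congr 1
    apply List.map_congr_left
    intro x hx
    rw [(mem_conjL bits k N F x ((List.dedup_sublist _).subset hx)).2]
  rw [h1, List.map_const', List.sum_replicate, smul_eq_mul]
  exact Nat.mul_le_mul_right _ (length_dconj _ _ _ _)

theorem dconj_ex : ∃ c, ∀ (K : Type) [Field K] [DecidableEq K],
    Comp K (fun z : (List Bool × ℕ) × ℕ × List (List K) => dconj z.1.1 z.1.2 z.2.1 z.2.2) c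
      (fun z => (z.2.1 + 1) ^ 2 * (tot z.2.2 + 1) * ((z.1.1.length + 1) * (z.1.2 + 1))) := by
  obtain ⟨ce, hce⟩ := eqLL_ex
  exact ⟨_, fun K _ _ => (compDedupG (K := K)
    (l := fun z : (List Bool × ℕ) × ℕ × List (List K) => conjL z.1.1 z.1.2 z.2.1 z.2.2)
    inferInstance (hce K)).bigO 4 (fun z => by
      obtain ⟨⟨bits, k⟩, N, F⟩ := z
      have h1 : pairs (fun z : List (List K) × List (List K) =>
          ((z.1.zip z.2).map (fun p => min p.1.length p.2.length + 1)).sum)
          (conjL bits k N F) ≤ (tot F + 1) * N ^ 2 := by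
        have := pairs_le_of (Te := fun z : List (List K) × List (List K) =>
          ((z.1.zip z.2).map (fun p => min p.1.length p.2.length + 1)).sum)
          (l := conjL bits k N F) (B := tot F + 1) (fun a _ b hb => by
            have h2 := sum_zip_min_le b a
            rw [(mem_conjL bits k N F b hb).1] at h2
            dsimp only
            omega)
        rwa [length_conjL] at this
      simp only [zero_add, add_zero, length_conjL]
      have hB : 1 ≤ (bits.length + 1) * (k + 1) := Nat.mul_pos (by omega) (by omega)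
      generalize (bits.length + 1) * (k + 1) = B at *
      have e1 : N * (tot F + 1) * B ≤ (N + 1) ^ 2 * (tot F + 1) * B :=
        Nat.mul_le_mul_right _ (Nat.mul_le_mul_right _ (by nlinarith))
      have e2 : (tot F + 1) * N ^ 2 ≤ (N + 1) ^ 2 * (tot F + 1) * B := by
        calc (tot F + 1) * N ^ 2 ≤ (tot F + 1) * (N + 1) ^ 2 :=
              Nat.mul_le_mul_left _ (by nlinarith)
          _ = (N + 1) ^ 2 * (tot F + 1) * 1 := by ring
          _ ≤ _ := Nat.mul_le_mul_left _ hB
      have e3 : N ≤ N * (tot F + 1) * B := by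
        calc N = N * 1 * 1 := by ring
          _ ≤ N * (tot F + 1) * B := Nat.mul_le_mul (Nat.mul_le_mul_left _ (by omega)) hB
      omega)⟩

noncomputable def dconjCd : Cd := dconj_ex.choose

instance compDconj {K : Type} [Field K] [DecidableEq K] {α : Type} [Enc K α]
    {b : α → List Bool} {k N : α → ℕ}
    {f : α → List (List K)} {c1 c2 c3 c4 : Cd} {T1 T2 T3 T4 : α → ℕ} [h1 : Comp K b c1 T1]
    [h2 : Comp K k c2 T2] [h3 : Comp K N c3 T3] [h4 : Comp K f c4 T4] :
    Comp K (fun x => dconj (b x) (k x) (N x) (f x)) (dconjCd.comp ((c1.pair c2).pair (c3.pair c4)))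
      (fun x => T1 x + T2 x + (T3 x + T4 x) +
        (N x + 1) ^ 2 * (tot (f x) + 1) * (((b x).length + 1) * (k x + 1))) :=
  (dconj_ex.choose_spec K).comp
    (Comp.pair (h := Comp.pair (h := h1) (h' := h2)) (h' := Comp.pair (h := h3) (h' := h4)))

/-! ### The product of the conjugates -/

theorem orbProd_eq {K : Type} [Field K] [DecidableEq K] (E : MEnv K) (bits : List Bool) (k N : ℕ)
    (F : List (List K)) : orbProd E bits k N F =
      prodB E ((dconj bits k N F).length * (F.length - 1) + 1) (dconj bits k N F) := rfl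

theorem orb_width {K : Type} [Field K] [DecidableEq K] (bits : List Bool) (k N : ℕ)
    (F : List (List K)) : (dconj bits k N F).length * (F.length - 1) + 1 ≤
      (N + 1) * (F.length + 1) := by
  have h1 := length_dconj bits k N F
  have h2 : (dconj bits k N F).length * (F.length - 1) ≤ N * F.length :=
    Nat.mul_le_mul h1 (Nat.sub_le _ _)
  nlinarith

theorem orb_tot {K : Type} [Field K] [DecidableEq K] (bits : List Bool) (k N : ℕ)
    (F : List (List K)) : tot (dconj bits k N F) + 1 ≤ (N + 1) * (F.length + 1) := by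
  have h1 := tot_dconj bits k N F
  nlinarith

theorem length_orbProd_le {K : Type} [Field K] [DecidableEq K] (E : MEnv K) (bits : List Bool)
    (k N : ℕ) (F : List (List K)) :
    (orbProd E bits k N F).length ≤ (N + 1) * (F.length + 1) := by
  rw [orbProd_eq]
  exact (length_prodB_le _ _ _).trans (orb_tot bits k N F)

theorem rows_orbProd_le {K : Type} [Field K] [DecidableEq K] (E : MEnv K) (bits : List Bool)
    (k N : ℕ) (F : List (List K)) :
    ∀ r ∈ orbProd E bits k N F, r.length ≤ (N + 1) * (F.length + 1) := by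
  intro r hr
  rw [orbProd_eq] at hr
  rw [rows_prodB _ _ _ r hr]
  exact orb_width bits k N F

theorem orbProd_ex : ∃ c, ∀ (K : Type) [Field K] [DecidableEq K],
    Comp K (fun z : (MEnv K × List Bool) × (ℕ × ℕ) × List (List K) =>
      orbProd z.1.1 z.1.2 z.2.1.1 z.2.1.2 z.2.2) c
      (fun z => (z.2.1.2 + 1) ^ 2 * (z.2.2.length + 1) ^ 2 * (z.1.1.1 + 1) *
        (Nat.clog 2 z.2.1.2 + 1) +
        (z.2.1.2 + 1) ^ 2 * (tot z.2.2 + 1) * ((z.1.2.length + 1) * (z.2.1.1 + 1))) :=
  ⟨_, fun K _ _ => by
    have h1 : Comp K (fun z : (MEnv K × List Bool) × (ℕ × ℕ) × List (List K) =>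
        prodB z.1.1 ((dconj z.1.2 z.2.1.1 z.2.1.2 z.2.2).length * (z.2.2.length - 1) + 1)
          (dconj z.1.2 z.2.1.1 z.2.1.2 z.2.2)) _ _ := inferInstance
    refine (h1.congr (g := fun z => orbProd z.1.1 z.1.2 z.2.1.1 z.2.1.2 z.2.2)
      fun z => rfl).bigO 8 (fun z => ?_)
    obtain ⟨⟨⟨S, V, V'⟩, bits⟩, ⟨k, N⟩, F⟩ := z
    simp only [zero_add, add_zero]
    have h2 := length_dconj bits k N F
    have h3 := orb_tot bits k N F
    have h4 := orb_width bits k N F
    have h5 : Nat.clog 2 (dconj bits k N F).length + 1 ≤ Nat.clog 2 N + 1 :=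
      Nat.add_le_add_right (Nat.clog_mono_right 2 h2) 1
    have h6 : (dconj bits k N F).length * (F.length - 1 + 1) ≤ (N + 1) * (F.length + 1) :=
      Nat.mul_le_mul (by omega) (by omega)
    set C := dconj bits k N F with hC
    set w := C.length * (F.length - 1) + 1 with hw
    set M := (N + 1) * (F.length + 1) with hM
    set S' := S + 1 with hS'
    set Lg := Nat.clog 2 N + 1 with hLg
    have hSL : 1 ≤ S' * Lg := Nat.mul_pos (by omega) (by omega)
    have hM1 : 1 ≤ M := Nat.mul_pos (by omega) (by omega)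
    have e1 : (tot C + 1) * (w + 1) * S' * (Nat.clog 2 C.length + 1) ≤
        M * (2 * M) * S' * Lg :=
      Nat.mul_le_mul (Nat.mul_le_mul_right _ (Nat.mul_le_mul h3 (by omega))) h5
    have e2 : M * (2 * M) * S' * Lg = 2 * ((N + 1) ^ 2 * (F.length + 1) ^ 2 * S' * Lg) := by
      rw [hM]; ring
    have e3 : M ≤ (N + 1) ^ 2 * (F.length + 1) ^ 2 * S' * Lg := by
      calc M = M * 1 * 1 := by ring
        _ ≤ M * M * (S' * Lg) := Nat.mul_le_mul (Nat.mul_le_mul_left _ hM1) hSL
        _ = _ := by rw [hM]; ring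
    have e4 : N ≤ M := by rw [hM]; nlinarith
    have e5 : F.length ≤ M := by rw [hM]; nlinarith
    generalize (N + 1) ^ 2 * (tot F + 1) * ((bits.length + 1) * (k + 1)) = X at *
    generalize (N + 1) ^ 2 * (F.length + 1) ^ 2 * S' * Lg = Y at *
    generalize (tot C + 1) * (w + 1) * S' * (Nat.clog 2 C.length + 1) = Z at *
    generalize C.length * (F.length - 1 + 1) = W at *
    omega⟩

noncomputable def orbProdCd : Cd := orbProd_ex.choose

instance compOrbProd {K : Type} [Field K] [DecidableEq K] {α : Type} [Enc K α] {E : α → MEnv K}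
    {b : α → List Bool} {k N : α → ℕ} {f : α → List (List K)} {c0 c1 c2 c3 c4 : Cd}
    {T0 T1 T2 T3 T4 : α → ℕ} [h0 : Comp K E c0 T0] [h1 : Comp K b c1 T1]
    [h2 : Comp K k c2 T2] [h3 : Comp K N c3 T3] [h4 : Comp K f c4 T4] :
    Comp K (fun x => orbProd (E x) (b x) (k x) (N x) (f x))
      (orbProdCd.comp ((c0.pair c1).pair ((c2.pair c3).pair c4)))
      (fun x => T0 x + T1 x + (T2 x + T3 x + T4 x) +
        ((N x + 1) ^ 2 * ((f x).length + 1) ^ 2 * ((E x).1 + 1) * (Nat.clog 2 (N x) + 1) +
        (N x + 1) ^ 2 * (tot (f x) + 1) * (((b x).length + 1) * (k x + 1)))) :=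
  (orbProd_ex.choose_spec K).comp
    (Comp.pair (h := Comp.pair (h := h0) (h' := h1))
      (h' := Comp.pair (h := Comp.pair (h := h2) (h' := h3)) (h' := h4)))

theorem tot_normB {K : Type} [Field K] [DecidableEq K] (F : List (List K)) :
    tot (normB F) = tot F := by
  unfold tot normB smulB
  rw [List.map_map]
  congr 1
  apply List.map_congr_left
  intro r _
  simp [length_smulP]

theorem length_normB {K : Type} [Field K] [DecidableEq K] (F : List (List K)) :
    (normB F).length = F.length := by simp [normB, smulB]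

/-- The list of the orbit products with labels. -/
noncomputable def orbs {K : Type} [Field K] [DecidableEq K] (E : MEnv K) (bits : List Bool)
    (k N : ℕ) (out : List (List (List K) × ℕ)) : List (List (List K) × ℕ) :=
  out.map (fun z => (orbProd E bits k N (normB z.1), z.2))

theorem sum_sq_le {α : Type} (l : List α) (f : α → ℕ) :
    (l.map (fun y => f y ^ 2)).sum ≤ (l.map f).sum ^ 2 := by
  induction l with
  | nil => simp
  | cons a l ih =>
    simp only [List.map_cons, List.sum_cons]
    nlinarith [Nat.zero_le (f a * (l.map f).sum)]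

theorem sum_dedup_le {α : Type} [DecidableEq α] (l : List α) (f : α → ℕ) :
    (l.dedup.map f).sum ≤ (l.map f).sum :=
  ((List.dedup_sublist l).map f).sum_le_sum (fun _ _ => Nat.zero_le _)

/-- The size of the output: number and multiplicity. -/
def psz {K : Type} (y : List (List K) × ℕ) : ℕ := y.1.length + y.2 + 1

theorem orbs_ex : ∃ c, ∀ (K : Type) [Field K] [DecidableEq K],
    Comp K (fun z : (MEnv K × List Bool) × (ℕ × ℕ) × List (List (List K) × ℕ) =>
      orbs z.1.1 z.1.2 z.2.1.1 z.2.1.2 z.2.2) c
      (fun z => (z.2.1.2 + 1) ^ 2 * (z.2.2.map psz).sum ^ 2 * (z.1.1.1 + 1) *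
        (Nat.clog 2 z.2.1.2 + 1) +
        (z.2.1.2 + 1) ^ 2 * (z.2.2.map (fun y => tot y.1 + 1)).sum *
          ((z.1.2.length + 1) * (z.2.1.1 + 1))) :=
  ⟨_, fun K _ _ => by
    have h1 : Comp K (fun z : (MEnv K × List Bool) × (ℕ × ℕ) × List (List (List K) × ℕ) =>
        z.2.2.map (fun y => (orbProd z.1.1 z.1.2 z.2.1.1 z.2.1.2 (normB y.1), y.2))) _ _ :=
      inferInstance
    refine (h1.congr (g := fun z => orbs z.1.1 z.1.2 z.2.1.1 z.2.1.2 z.2.2)
      fun z => rfl).bigO 4 (fun z => ?_)
    obtain ⟨⟨⟨S, V, V'⟩, bits⟩, ⟨k, N⟩, out⟩ := z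
    simp only [zero_add, add_zero, tot_normB, length_normB]
    set M := (N + 1) ^ 2 with hM
    set S' := (S + 1) * (Nat.clog 2 N + 1) with hS'
    set B := (bits.length + 1) * (k + 1) with hB
    have hM1 : 1 ≤ M := Nat.one_le_pow 2 (N + 1) (by omega)
    have hB1 : 1 ≤ B := Nat.mul_pos (by omega) (by omega)
    have key : (out.map (fun y => tot y.1 + (M * (y.1.length + 1) ^ 2 * (S + 1) *
        (Nat.clog 2 N + 1) + M * (tot y.1 + 1) * B) + 1)).sum ≤
        M * S' * (out.map (fun y => psz y ^ 2)).sum +
          3 * (M * B * (out.map (fun y => tot y.1 + 1)).sum) := by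
      clear_value M S' B
      have hS'e : ∀ a : ℕ, a * (S + 1) * (Nat.clog 2 N + 1) = a * ((S + 1) * (Nat.clog 2 N + 1)) :=
        fun a => by ring
      induction out with
      | nil => simp
      | cons y out ih =>
        simp only [List.map_cons, List.sum_cons, Nat.mul_add M, Nat.mul_add (M * S'),
          Nat.mul_add (M * B)] at ih ⊢
        have e1 : M * (y.1.length + 1) ^ 2 * (S + 1) * (Nat.clog 2 N + 1) ≤
            M * S' * psz y ^ 2 := by
          have h3 : (y.1.length + 1) ^ 2 ≤ psz y ^ 2 :=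
            Nat.pow_le_pow_left (by unfold psz; omega) 2
          rw [hS'e, ← hS']
          calc M * (y.1.length + 1) ^ 2 * S' ≤ M * psz y ^ 2 * S' :=
                Nat.mul_le_mul_right _ (Nat.mul_le_mul_left _ h3)
            _ = _ := by ring
        have e2 : tot y.1 + 1 ≤ M * B * (tot y.1 + 1) :=
          Nat.le_mul_of_pos_left _ (Nat.mul_pos hM1 hB1)
        have e3 : M * (tot y.1 + 1) * B = M * B * (tot y.1 + 1) := by ring
        have e4 : M * B * (tot y.1 + 1) = M * B * tot y.1 + M * B * 1 := by ring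
        rw [Nat.mul_add M, Nat.add_mul (M * tot y.1)] at e3
        nlinarith
    have h2 := sum_sq_le out psz
    have h3 : M * S' * (out.map (fun y => psz y ^ 2)).sum ≤ M * S' * (out.map psz).sum ^ 2 :=
      Nat.mul_le_mul_left _ h2
    have e5 : M * (out.map psz).sum ^ 2 * (S + 1) * (Nat.clog 2 N + 1) =
        M * S' * (out.map psz).sum ^ 2 := by rw [hS']; ring
    have e6 : M * (out.map (fun y => tot y.1 + 1)).sum * B =
        M * B * (out.map (fun y => tot y.1 + 1)).sum := by ring
    rw [e5, e6]
    omega⟩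

noncomputable def orbsCd : Cd := orbs_ex.choose

theorem length_orbs {K : Type} [Field K] [DecidableEq K] (E : MEnv K) (bits : List Bool)
    (k N : ℕ) (out : List (List (List K) × ℕ)) : (orbs E bits k N out).length = out.length := by
  simp [orbs]

theorem length_le_psz {K : Type} (out : List (List (List K) × ℕ)) :
    out.length ≤ (out.map psz).sum := by
  induction out with
  | nil => simp
  | cons y out ih =>
    rw [List.length_cons, List.map_cons, List.sum_cons]
    have : 1 ≤ psz y := by unfold psz; omega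
    omega

theorem pairs_orbs {K : Type} [Field K] [DecidableEq K] (E : MEnv K) (bits : List Bool)
    (k N : ℕ) (out : List (List (List K) × ℕ)) :
    pairs (fun z : (List (List K) × ℕ) × (List (List K) × ℕ) =>
      ((z.1.1.zip z.2.1).map (fun p => min p.1.length p.2.length + 1)).sum +
        min z.1.2 z.2.2) (orbs E bits k N out) ≤ 4 * (N + 1) ^ 2 * (out.map psz).sum ^ 2 := by
  rw [orbs, pairs_map]
  apply pairs_le
  intro a b
  dsimp only
  have h1 := sum_zip_min_le' (rows_orbProd_le E bits k N (normB b.1))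
    (rows_orbProd_le E bits k N (normB a.1))
  have h2 := length_orbProd_le E bits k N (normB b.1)
  rw [length_normB] at h1 h2
  rw [length_normB] at h1
  have h3 : min (orbProd E bits k N (normB b.1)).length (orbProd E bits k N (normB a.1)).length *
      (min ((N + 1) * (b.1.length + 1)) ((N + 1) * (a.1.length + 1)) + 1) ≤
      ((N + 1) * (b.1.length + 1)) * (2 * ((N + 1) * (a.1.length + 1))) := by
    refine Nat.mul_le_mul ((min_le_left _ _).trans h2) ?_
    have h4 := min_le_right ((N + 1) * (b.1.length + 1)) ((N + 1) * (a.1.length + 1))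
    have h5 : 1 ≤ (N + 1) * (a.1.length + 1) := Nat.mul_pos (by omega) (by omega)
    omega
  have h6 : (b.1.length + 1) * (a.1.length + 1) ≤ psz a * psz b := by
    rw [mul_comm]
    exact Nat.mul_le_mul (by unfold psz; omega) (by unfold psz; omega)
  have h7 : ((N + 1) * (b.1.length + 1)) * (2 * ((N + 1) * (a.1.length + 1))) ≤
      2 * ((N + 1) ^ 2 * (psz a * psz b)) := by
    calc ((N + 1) * (b.1.length + 1)) * (2 * ((N + 1) * (a.1.length + 1))) =
        2 * ((N + 1) ^ 2 * ((b.1.length + 1) * (a.1.length + 1))) := by ring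
      _ ≤ _ := Nat.mul_le_mul_left _ (Nat.mul_le_mul_left _ h6)
  have h8 : min b.2 a.2 + 1 ≤ psz a * psz b := by
    have e1 : min b.2 a.2 + 1 ≤ psz a := by
      have := min_le_right b.2 a.2
      unfold psz
      omega
    exact e1.trans (Nat.le_mul_of_pos_right _ (by unfold psz; omega))
  have h9 : psz a * psz b ≤ (N + 1) ^ 2 * (psz a * psz b) :=
    Nat.le_mul_of_pos_left _ (Nat.one_le_pow 2 (N + 1) (by omega))
  have h10 : 4 * (N + 1) ^ 2 * (psz a * psz b) = 4 * ((N + 1) ^ 2 * (psz a * psz b)) := by ring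
  rw [h10]
  omega

end DSC

open DSC in
theorem descendL_ex : ∃ c, ∀ (K : Type) [Field K] [DecidableEq K],
    Comp K (fun z : (MEnv K × List Bool) × (ℕ × ℕ) × List (List (List K) × ℕ) =>
      descendL z.1.1 z.1.2 z.2.1.1 z.2.1.2 z.2.2) c
      (fun z => (z.2.1.2 + 1) ^ 2 *
        ((z.2.2.map (fun y => y.1.length + y.2 + 1)).sum + 1) ^ 2 * (z.1.1.1 + 1) *
        (Nat.clog 2 z.2.1.2 + 1) +
        (z.2.1.2 + 1) ^ 2 * ((z.2.2.map (fun y => tot y.1 + 1)).sum + 1) *
          ((z.1.2.length + 1) * (z.2.1.1 + 1))) := by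
  obtain ⟨ce, hce⟩ := eqPL_ex
  exact ⟨_, fun K _ _ => by
    have h1 := compDedupG (K := K) (orbs_ex.choose_spec K) (hce K)
    have h2 : Comp K (fun z : (MEnv K × List Bool) × (ℕ × ℕ) × List (List (List K) × ℕ) =>
        ((orbs z.1.1 z.1.2 z.2.1.1 z.2.1.2 z.2.2).dedup).map
          (fun y => (toDense (y.1.length - 1) y.1, y.2))) _ _ :=
      Comp.map (l := fun z : (MEnv K × List Bool) × (ℕ × ℕ) × List (List (List K) × ℕ) =>
          (orbs z.1.1 z.1.2 z.2.1.1 z.2.1.2 z.2.2).dedup)
        (g := fun _ y => (toDense (y.1.length - 1) y.1, y.2)) (h := h1) (hg := inferInstance)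
    refine (h2.congr (g := fun z => descendL z.1.1 z.1.2 z.2.1.1 z.2.1.2 z.2.2)
      fun z => rfl).bigO 16 (fun z => ?_)
    obtain ⟨⟨⟨S, V, V'⟩, bits⟩, ⟨k, N⟩, out⟩ := z
    simp only [zero_add, add_zero]
    have hsz : (out.map (fun y => y.1.length + y.2 + 1)).sum = (out.map psz).sum := rfl
    rw [hsz, length_orbs]
    have h3 := length_le_psz out
    have h4 := pairs_orbs (S, V, V') bits k N out
    have h5 := sum_dedup_le (orbs (S, V, V') bits k N out)
      (fun y => y.1.length + (y.1.length - 1 + 1) * (y.1.length - 1 + y.1.length + 1) + 1)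
    have h6 : ((orbs (S, V, V') bits k N out).map
        (fun y => y.1.length + (y.1.length - 1 + 1) * (y.1.length - 1 + y.1.length + 1) + 1)).sum ≤
        10 * (N + 1) ^ 2 * (out.map psz).sum ^ 2 := by
      refine le_trans ?_ (Nat.mul_le_mul_left _ (sum_sq_le out psz))
      rw [← List.sum_map_mul_left, orbs, List.map_map]
      apply List.sum_le_sum
      intro y _
      simp only [Function.comp_apply]
      have e1 := length_orbProd_le (S, V, V') bits k N (normB y.1)
      rw [length_normB] at e1
      have e2 : (N + 1) * (y.1.length + 1) ≤ (N + 1) * psz y :=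
        Nat.mul_le_mul_left _ (by unfold psz; omega)
      have e3 : 1 ≤ (N + 1) * psz y := Nat.mul_pos (by omega) (by unfold psz; omega)
      have e4 : 10 * (N + 1) ^ 2 * psz y ^ 2 = 10 * (((N + 1) * psz y) * ((N + 1) * psz y)) := by
        ring
      rw [e4]
      generalize (orbProd (S, V, V') bits k N (normB y.1)).length = r at *
      generalize (N + 1) * psz y = A at *
      have e5 : r ≤ A := e1.trans e2
      have e6 : (r - 1 + 1) * (r - 1 + r + 1) ≤ (A + 1) * (2 * A + 1) :=
        Nat.mul_le_mul (by omega) (by omega)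
      nlinarith
    have h7 := h5.trans h6
    set P := (out.map psz).sum with hP
    have hX : (N + 1) ^ 2 * P ^ 2 ≤ (N + 1) ^ 2 * (P + 1) ^ 2 * (S + 1) * (Nat.clog 2 N + 1) := by
      calc (N + 1) ^ 2 * P ^ 2 ≤ (N + 1) ^ 2 * (P + 1) ^ 2 :=
            Nat.mul_le_mul_left _ (Nat.pow_le_pow_left (by omega) 2)
        _ ≤ (N + 1) ^ 2 * (P + 1) ^ 2 * (S + 1) := Nat.le_mul_of_pos_right _ (Nat.succ_pos _)
        _ ≤ _ := Nat.le_mul_of_pos_right _ (Nat.succ_pos _)
    have hX1 : (N + 1) ^ 2 * P ^ 2 * (S + 1) * (Nat.clog 2 N + 1) ≤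
        (N + 1) ^ 2 * (P + 1) ^ 2 * (S + 1) * (Nat.clog 2 N + 1) :=
      Nat.mul_le_mul_right _ (Nat.mul_le_mul_right _ (Nat.mul_le_mul_left _
        (Nat.pow_le_pow_left (by omega) 2)))
    have hX2 : P ≤ (N + 1) ^ 2 * (P + 1) ^ 2 * (S + 1) * (Nat.clog 2 N + 1) := by
      refine le_trans ?_ hX
      calc P ≤ P ^ 2 := by exact Nat.le_self_pow two_ne_zero P
        _ ≤ _ := Nat.le_mul_of_pos_left _ (Nat.one_le_pow 2 (N + 1) (by omega))
    have hY : (N + 1) ^ 2 * (out.map (fun y => tot y.1 + 1)).sum *
        ((bits.length + 1) * (k + 1)) ≤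
        (N + 1) ^ 2 * ((out.map (fun y => tot y.1 + 1)).sum + 1) *
        ((bits.length + 1) * (k + 1)) :=
      Nat.mul_le_mul_right _ (Nat.mul_le_mul_left _ (Nat.le_succ _))
    have e7 : 4 * (N + 1) ^ 2 * P ^ 2 = 4 * ((N + 1) ^ 2 * P ^ 2) := by ring
    have e8 : 10 * (N + 1) ^ 2 * P ^ 2 = 10 * ((N + 1) ^ 2 * P ^ 2) := by ring
    rw [e7] at h4
    rw [e8] at h7
    generalize (N + 1) ^ 2 * (P + 1) ^ 2 * (S + 1) * (Nat.clog 2 N + 1) = X at *
    generalize (N + 1) ^ 2 * P ^ 2 * (S + 1) * (Nat.clog 2 N + 1) = X' at *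
    generalize (N + 1) ^ 2 * P ^ 2 = X'' at *
    generalize (N + 1) ^ 2 * (out.map (fun y => tot y.1 + 1)).sum *
        ((bits.length + 1) * (k + 1)) = Y' at *
    generalize (N + 1) ^ 2 * ((out.map (fun y => tot y.1 + 1)).sum + 1) *
        ((bits.length + 1) * (k + 1)) = Y at *
    omega⟩

end Pool.Agent.BiFac

end

section

/-!
# The descent from the extension field: correctness of the algorithm
-/

set_option autoImplicit false

namespace Pool.Agent.BiFac

open Polynomial Pool.Agent.TreeRAM

variable {K : Type} [Field K]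

/-! ### The leading coefficient -/

theorem dspec_getLastD_append {α : Type} (a b : List α) (d : α) :
    (a ++ b).getLastD d = if b = [] then a.getLastD d else b.getLastD d := by
  by_cases hb : b = []
  · subst hb
    simp
  · rw [if_neg hb, List.getLastD_eq_getLast?, List.getLastD_eq_getLast?, List.getLast?_append]
    rw [List.getLast?_eq_some_getLast hb]
    rfl

theorem dspec_lc1 [DecidableEq K] (l : List K) :
    (l.filter (fun a => !decide (a = 0))).getLastD 0 = (toP l).leadingCoeff := by
  induction l using List.reverseRecOn with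
  | nil => simp
  | append_singleton l a ih =>
    rw [List.filter_append, toP_append, dspec_getLastD_append]
    by_cases ha : a = 0
    · subst ha
      have h1 : [(0 : K)].filter (fun a => !decide (a = 0)) = [] := by simp
      have e : toP [(0 : K)] = 0 := by simp
      rw [h1, if_pos rfl, ih, e, mul_zero, add_zero]
    · have e : toP [a] = C a := by simp
      have h1 : [a].filter (fun a => !decide (a = 0)) = [a] := by simp [ha]
      rw [h1, if_neg (by simp), e, leadingCoeff_add_of_degree_lt, leadingCoeff_mul,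
        leadingCoeff_X_pow, leadingCoeff_C, one_mul]
      · rfl
      · rw [degree_mul, degree_X_pow, degree_C ha, add_zero]
        exact degree_toP_lt l

theorem dspec_filter_nil [DecidableEq K] (l : List K) :
    l.filter (fun a => !decide (a = 0)) = [] ↔ toP l = 0 := by
  rw [List.filter_eq_nil_iff]
  constructor
  · intro h
    ext i
    rw [coeff_toP, coeff_zero]
    by_cases hi : i < l.length
    · rw [List.getD_eq_getElem _ _ hi]
      simpa using h _ (List.getElem_mem hi)
    · rw [List.getD_eq_default _ _ (by omega)]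
  · intro h a ha
    obtain ⟨i, hi, rfl⟩ := List.getElem_of_mem ha
    have := congrArg (fun p => p.coeff i) h
    simp only [coeff_toP, coeff_zero] at this
    rw [List.getD_eq_getElem _ _ hi] at this
    simp [this]

theorem lcB_eq [DecidableEq K] (F : List (List K)) : lcB F = lc2 (toB F) := by
  induction F using List.reverseRecOn with
  | nil => simp [lcB, lc2]
  | append_singleton F r ih =>
    have e : toB [r] = C (toP r) := by simp
    rw [lcB, List.flatten_append, List.filter_append, dspec_getLastD_append, toB_append, e]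
    have e1 : ([r] : List (List K)).flatten = r := by simp
    rw [e1]
    by_cases hr : toP r = 0
    · rw [if_pos ((dspec_filter_nil r).2 hr), hr, C_0, mul_zero, add_zero]
      exact ih
    · rw [if_neg (fun h => hr ((dspec_filter_nil r).1 h)), dspec_lc1, lc2,
        leadingCoeff_add_of_degree_lt, leadingCoeff_mul, leadingCoeff_X_pow, leadingCoeff_C,
        one_mul]
      rw [degree_mul, degree_X_pow, degree_C hr, add_zero]
      exact degree_toB_lt F

theorem dspec_toP_map {L : Type} [Field L] (φ : K →+* L) (l : List K) :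
    toP (l.map φ) = (toP l).map φ := by
  induction l with
  | nil => simp
  | cons a l ih =>
    rw [List.map_cons, toP_cons, toP_cons, ih]
    simp

theorem toB_frobB (bits : List Bool) (k : ℕ) (φ : K →+* K)
    (hφ : ∀ x, φ x = x ^ bval bits ^ k) (F : List (List K)) :
    toB (frobB bits k F) = map2 φ (toB F) := by
  have h0 : frobK bits k = φ := by
    funext x
    rw [frobK_eq, hφ]
  unfold frobB
  rw [h0]
  induction F with
  | nil => simp
  | cons r F ih =>
    rw [List.map_cons, toB_cons, toB_cons, ih, dspec_toP_map]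
    simp [map2]

namespace DS

/-! ### Square lists -/

/-- `l` has `n + 1` rows of length `n + 1`. -/
def SqL (n : ℕ) (l : List (List K)) : Prop := l.length = n + 1 ∧ ∀ r ∈ l, r.length = n + 1

/-- The square list of a polynomial. -/
noncomputable def sqL (n : ℕ) (Q : K[X][X]) : List (List K) :=
  (List.range (n + 1)).map (fun j => (List.range (n + 1)).map (fun i => (Q.coeff j).coeff i))

theorem SqL.eq {n : ℕ} {l : List (List K)} (h : SqL n l) : l = sqL n (toB l) := by
  apply List.ext_getElem
  · simp [sqL, h.1]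
  · intro j h1 h2
    simp only [sqL, List.getElem_map, List.getElem_range]
    apply List.ext_getElem
    · simp [h.2 _ (List.getElem_mem h1)]
    · intro i h3 h4
      rw [List.getElem_map, List.getElem_range, coeff_toB, coeff_toP, List.getD_eq_getElem _ _ h1,
        List.getD_eq_getElem _ _ h3]

theorem toB_sqL {n : ℕ} {Q : K[X][X]} (h : TDeg n Q) : toB (sqL n Q) = Q := by
  ext j i
  rw [coeff_toB, coeff_toP]
  by_cases hj : j < n + 1
  · have e : (sqL n Q).getD j [] = (List.range (n + 1)).map (fun i => (Q.coeff j).coeff i) := by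
      rw [List.getD_eq_getElem _ _ (by simp [sqL]; omega)]
      simp [sqL]
    rw [e]
    by_cases hi : i < n + 1
    · rw [List.getD_eq_getElem _ _ (by simp; omega)]
      simp
    · rw [List.getD_eq_default _ _ (by simp; omega), h i j (by omega)]
  · have e : (sqL n Q).getD j [] = [] := List.getD_eq_default _ _ (by simp [sqL]; omega)
    rw [e, h i j (by omega)]
    simp

theorem SqL.inj {n : ℕ} {l l' : List (List K)} (h : SqL n l) (h' : SqL n l')
    (he : toB l = toB l') : l = l' := by
  rw [h.eq, h'.eq, he]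

theorem SqL.frobB {n : ℕ} {l : List (List K)} (h : SqL n l) (bits : List Bool) (k : ℕ) :
    SqL n (frobB bits k l) := by
  refine ⟨by rw [BiFac.frobB, List.length_map, h.1], ?_⟩
  intro r hr
  obtain ⟨s, hs, rfl⟩ := List.mem_map.1 hr
  rw [List.length_map, h.2 s hs]

theorem SqL.smulB {n : ℕ} {l : List (List K)} (h : SqL n l) (c : K) : SqL n (smulB c l) := by
  refine ⟨by rw [BiFac.smulB, List.length_map, h.1], ?_⟩
  intro r hr
  obtain ⟨s, hs, rfl⟩ := List.mem_map.1 hr
  rw [length_smulP, h.2 s hs]

/-! ### The list of the conjugates -/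

theorem conjL_eq (bits : List Bool) (k N : ℕ) (l : List (List K)) :
    conjL bits k N l = (List.range N).map (fun i => (frobB bits k)^[i] l) := by
  induction N generalizing l with
  | zero => rfl
  | succ N ih =>
    rw [conjL, ih, List.range_succ_eq_map, List.map_cons, List.map_map]
    rfl

theorem SqL.iter {n : ℕ} {l : List (List K)} (h : SqL n l) (bits : List Bool) (k i : ℕ) :
    SqL n ((BiFac.frobB bits k)^[i] l) := by
  induction i generalizing l with
  | zero => exact h
  | succ i ih => exact ih (h.frobB bits k)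

theorem toB_iter_frobB (bits : List Bool) (k : ℕ) (φ : K →+* K)
    (hφ : ∀ x, φ x = x ^ bval bits ^ k) (i : ℕ) (F : List (List K)) :
    toB ((frobB bits k)^[i] F) = (map2 φ)^[i] (toB F) := by
  induction i generalizing F with
  | zero => rfl
  | succ i ih =>
    rw [Function.iterate_succ_apply, Function.iterate_succ_apply, ih, toB_frobB bits k φ hφ]

section conjs

variable [DecidableEq K] {bits : List Bool} {k N n : ℕ} {φ : K →+* K} {l : List (List K)}

theorem sqL_of_mem_dedup (h : SqL n l) : ∀ x ∈ (conjL bits k N l).dedup, SqL n x := by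
  intro x hx
  rw [List.mem_dedup, conjL_eq] at hx
  obtain ⟨i, -, rfl⟩ := List.mem_map.1 hx
  exact h.iter bits k i

theorem nodup_conj_toB (h : SqL n l) : ((conjL bits k N l).dedup.map toB).Nodup := by
  refine List.Nodup.map_on ?_ (List.nodup_dedup _)
  intro x hx y hy hxy
  exact (sqL_of_mem_dedup h x hx).inj (sqL_of_mem_dedup h y hy) hxy

theorem toFinset_conj_toB (hφ : ∀ x, φ x = x ^ bval bits ^ k) [DecidableEq K[X][X]] :
    ((conjL bits k N l).dedup.map toB).toFinset = conj φ N (toB l) := by
  ext g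
  unfold conj
  simp only [List.mem_toFinset, List.mem_map, List.mem_dedup, conjL_eq, Finset.mem_image,
    Finset.mem_range, List.mem_range]
  constructor
  · rintro ⟨x, ⟨i, hi, rfl⟩, rfl⟩
    exact ⟨i, hi, (toB_iter_frobB bits k φ hφ i l).symm⟩
  · rintro ⟨i, hi, rfl⟩
    exact ⟨_, ⟨i, hi, rfl⟩, toB_iter_frobB bits k φ hφ i l⟩

theorem prod_conj_toB (h : SqL n l) (hφ : ∀ x, φ x = x ^ bval bits ^ k) :
    ((conjL bits k N l).dedup.map toB).prod = ∏ g ∈ conj φ N (toB l), g := by
  classical
  rw [← toFinset_conj_toB hφ, List.prod_toFinset _ (nodup_conj_toB h), List.map_id']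

theorem length_conj (h : SqL n l) (hφ : ∀ x, φ x = x ^ bval bits ^ k) :
    (conjL bits k N l).dedup.length = (conj φ N (toB l)).card := by
  classical
  rw [← toFinset_conj_toB hφ, List.toFinset_card_of_nodup (nodup_conj_toB h), List.length_map]

end conjs

/-! ### Total degrees -/

/-- The total degree. -/
noncomputable def td (Q : K[X][X]) : ℕ := (toMv Q).totalDegree

theorem tdeg_iff_td (n : ℕ) (Q : K[X][X]) : TDeg n Q ↔ td Q ≤ n := tdeg_iff_totalDegree n Q

theorem tdeg_td (Q : K[X][X]) : TDeg (td Q) Q := (tdeg_iff_td _ _).2 le_rfl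

theorem tdeg_map2_iff {L : Type} [Field L] (φ : K →+* L) (n : ℕ) (Q : K[X][X]) :
    TDeg n (map2 φ Q) ↔ TDeg n Q := by
  constructor
  · intro h i j hij
    have := h i j hij
    rw [Desc.coeff_map2] at this
    exact (_root_.map_eq_zero φ).1 this
  · intro h i j hij
    rw [Desc.coeff_map2, h i j hij, map_zero]

theorem td_map2 {L : Type} [Field L] (φ : K →+* L) (Q : K[X][X]) : td (map2 φ Q) = td Q := by
  apply le_antisymm
  · rw [← tdeg_iff_td, tdeg_map2_iff, tdeg_iff_td]
  · rw [← tdeg_iff_td, ← tdeg_map2_iff φ, tdeg_iff_td]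

theorem toMv_ne_zero {Q : K[X][X]} (h : Q ≠ 0) : toMv Q ≠ 0 := by
  intro h0
  apply h
  apply toMv_bijective.1
  rw [h0, map_zero]

theorem td_mul {P Q : K[X][X]} (hP : P ≠ 0) (hQ : Q ≠ 0) : td (P * Q) = td P + td Q := by
  unfold td
  rw [map_mul, MvPolynomial.totalDegree_mul_of_isDomain (toMv_ne_zero hP) (toMv_ne_zero hQ)]

theorem td_prod_const {s : Finset K[X][X]} {n : ℕ} (h : ∀ g ∈ s, g ≠ 0 ∧ td g = n) :
    td (∏ g ∈ s, g) = s.card * n := by
  classical
  induction s using Finset.induction_on with
  | empty => simp [td]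
  | insert a s ha ih =>
    have h1 := h a (Finset.mem_insert_self a s)
    have h2 : ∀ g ∈ s, g ≠ 0 ∧ td g = n := fun g hg => h g (Finset.mem_insert_of_mem hg)
    rw [Finset.prod_insert ha, td_mul h1.1 (Finset.prod_ne_zero_iff.2 fun g hg => (h2 g hg).1),
      ih h2, h1.2, Finset.card_insert_of_notMem ha]
    ring

theorem td_le_of_dvd {P F : K[X][X]} (hF : F ≠ 0) (h : P ∣ F) : td P ≤ td F := by
  obtain ⟨Q, rfl⟩ := h
  rw [td_mul (left_ne_zero_of_mul hF) (right_ne_zero_of_mul hF)]
  exact Nat.le_add_right _ _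

theorem td_pos_of_irreducible {P : K[X][X]} (h : Irreducible P) : 0 < td P := by
  rw [Nat.pos_iff_ne_zero]
  intro h0
  have h1 : TDeg 0 P := (tdeg_iff_td 0 P).2 h0.le
  have h2 : P = C (C ((P.coeff 0).coeff 0)) := by
    ext j i
    rw [coeff_C]
    by_cases hj : j = 0
    · subst hj
      rw [if_pos rfl, coeff_C]
      by_cases hi : i = 0
      · subst hi
        simp
      · rw [if_neg hi, h1 i 0 (by omega)]
    · rw [if_neg hj, h1 i j (by omega), coeff_zero]
  apply h.not_isUnit
  rw [Desc.isUnit_iff_CC]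
  refine ⟨_, ?_, h2⟩
  intro h3
  rw [h3, C_0, C_0] at h2
  exact h.ne_zero h2

theorem td_CC_mul {c : K} (hc : c ≠ 0) (P : K[X][X]) : td (C (C c) * P) = td P := by
  by_cases hP : P = 0
  · rw [hP, mul_zero]
  · rw [td_mul (by simpa using hc) hP]
    have : td (C (C c) : K[X][X]) = 0 := by
      apply Nat.le_zero.1
      rw [← tdeg_iff_td]
      exact TDeg.C (by simp)
    rw [this, zero_add]

/-! ### The product of the conjugates -/

theorem td_iter_map2 (φ : K →+* K) (i : ℕ) (Q : K[X][X]) : td ((map2 φ)^[i] Q) = td Q := by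
  induction i generalizing Q with
  | zero => rfl
  | succ i ih => rw [Function.iterate_succ_apply, ih, td_map2]

theorem iter_map2_ne_zero (φ : K →+* K) (i : ℕ) {Q : K[X][X]} (h : Q ≠ 0) :
    (map2 φ)^[i] Q ≠ 0 := by
  induction i generalizing Q with
  | zero => exact h
  | succ i ih =>
    rw [Function.iterate_succ_apply]
    apply ih
    intro h0
    apply h
    apply Desc.map2_injective φ
    rw [h0, map_zero]

theorem td_prod_conj {n : ℕ} {φ : K →+* K} {N : ℕ} {f : K[X][X]} (hf : f ≠ 0) (hn : td f = n) :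
    td (∏ g ∈ conj φ N f, g) = (conj φ N f).card * n := by
  classical
  apply td_prod_const
  intro g hg
  unfold conj at hg
  obtain ⟨i, -, rfl⟩ := Finset.mem_image.1 hg
  exact ⟨iter_map2_ne_zero φ i hf, by rw [td_iter_map2, hn]⟩

theorem sum_map_const_of_sqL {n : ℕ} (C : List (List (List K))) (h : ∀ x ∈ C, SqL n x) (m : ℕ) :
    (C.map (fun F => F.length + m)).sum = C.length * (n + 1 + m) := by
  induction C with
  | nil => simp
  | cons x C ih =>
    rw [List.map_cons, List.sum_cons, ih (fun y hy => h y (List.mem_cons_of_mem _ hy)),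
      (h x List.mem_cons_self).1, List.length_cons]
    ring

theorem sum_map_sub_of_sqL {n : ℕ} (C : List (List (List K))) (h : ∀ x ∈ C, SqL n x) :
    (C.map (fun F => F.length - 1)).sum = C.length * n := by
  induction C with
  | nil => simp
  | cons x C ih =>
    rw [List.map_cons, List.sum_cons, ih (fun y hy => h y (List.mem_cons_of_mem _ hy)),
      (h x List.mem_cons_self).1, List.length_cons, Nat.succ_mul]
    omega

theorem orbProd_spec [DecidableEq K] {E : MEnv K} (hE : E.Good) {bits : List Bool} {k N n : ℕ}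
    {φ : K →+* K} (hφ : ∀ x, φ x = x ^ bval bits ^ k) {l : List (List K)} (h : SqL n l)
    (h0 : toB l ≠ 0) (hn : td (toB l) = n)
    (hf : Fits E (2 * ((conj φ N (toB l)).card * (n + 2))) ((conj φ N (toB l)).card * n + 1)) :
    orbProd E bits k N l =
      sqL (td (∏ g ∈ conj φ N (toB l), g)) (∏ g ∈ conj φ N (toB l), g) := by
  set Q := ∏ g ∈ conj φ N (toB l), g with hQ
  have htd : td Q = (conj φ N (toB l)).card * n := td_prod_conj h0 hn
  have hlen := length_conj (bits := bits) (k := k) (N := N) h hφ
  set D := (conjL bits k N l).dedup with hD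
  have hDs : ∀ x ∈ D, SqL n x := sqL_of_mem_dedup h
  have hw : D.length * (l.length - 1) + 1 = td Q + 1 := by
    rw [htd, hlen, h.1, Nat.add_sub_cancel]
  have htot : tot D = (conj φ N (toB l)).card * (n + 2) := by
    rw [tot, sum_map_const_of_sqL D hDs 1, hlen]
  have hcg := cg_prodB hE (w := td Q + 1) (L := D) (by rw [htot, htd]; exact hf)
  rw [prod_conj_toB h hφ] at hcg
  have hrows := rows_prodB E (td Q + 1) D
  have hlenp : (prodB E (td Q + 1) D).length = td Q + 1 := by
    rw [length_prodB E (td Q + 1) D (fun F hF h1 => by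
      have := (hDs F hF).1
      rw [h1] at this
      simp at this), sum_map_sub_of_sqL D hDs, hlen, htd]
  have hsq : SqL (td Q) (prodB E (td Q + 1) D) := ⟨hlenp, hrows⟩
  have heq : toB (prodB E (td Q + 1) D) = Q := by
    refine hcg.eq ?_ ?_
    · intro j
      rw [coeff_toB]
      refine (degree_toP_lt _).trans_le ?_
      by_cases hj : j < (prodB E (td Q + 1) D).length
      · rw [List.getD_eq_getElem _ _ hj, hrows _ (List.getElem_mem hj)]
      · rw [List.getD_eq_default _ _ (by omega)]
        exact_mod_cast Nat.zero_le _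
    · intro j
      have h1 := (tdeg_td Q).natDegree_coeff_le j
      refine lt_of_le_of_lt degree_le_natDegree ?_
      exact_mod_cast (by omega : (Q.coeff j).natDegree < td Q + 1)
  rw [orbProd, ← hD, hw]
  have := hsq.eq
  rw [heq] at this
  exact this

/-! ### The dense representation over the extension -/

theorem dense_map2 {L : Type} [Field L] (φ : K →+* L) (n : ℕ) (P : K[X][X]) :
    dense n (toMv (map2 φ P)) = (dense n (toMv P)).map (List.map φ) := by
  unfold dense
  rw [List.map_map]
  apply List.map_congr_left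
  intro i _
  simp only [Function.comp_apply, List.map_map]
  apply List.map_congr_left
  intro j _
  simp only [Function.comp_apply]
  rw [coeff_toMv, coeff_toMv, Desc.coeff_map2]

theorem assoc_list_prod {α M : Type} [CommMonoid M] (l : List α) (a b : α → M)
    (h : ∀ z ∈ l, Associated (a z) (b z)) : Associated (l.map a).prod (l.map b).prod := by
  induction l with
  | nil => exact Associated.refl _
  | cons z l ih =>
    rw [List.map_cons, List.map_cons, List.prod_cons, List.prod_cons]
    exact (h z List.mem_cons_self).mul_mul (ih fun y hy => h y (List.mem_cons_of_mem _ hy))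

end DS

open DS in
theorem descendL_spec {L : Type} [Field L] [Fintype K] [Fintype L] [Algebra K L]
    [DecidableEq L] {E : MEnv L} (hE : E.Good) {bits : List Bool} {k : ℕ}
    (hb : bval bits ^ k = Fintype.card K) {N : ℕ} (hN : 0 < N)
    (hL : Fintype.card L = Fintype.card K ^ N) {F : K[X][X]} (hF : F ≠ 0) {d : ℕ}
    (hd : (toMv F).totalDegree = d) (hf : Fits E (512 * (d + 2)) (d + 2))
    {out : List (List (List L) × ℕ)}
    (hsh : ∀ z ∈ out, (∀ r ∈ z.1, r.length = z.1.length) ∧ z.1 ≠ [] ∧
      (toMv (toB z.1)).totalDegree = z.1.length - 1)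
    (hirr : ∀ z ∈ out, Irreducible (toB z.1) ∧ 0 < z.2)
    (hna : out.Pairwise (fun z z' => ¬ Associated (toB z.1) (toB z'.1)))
    (hp : Associated ((out.map (fun z => toB z.1 ^ z.2)).prod) (map2 (algebraMap K L) F)) :
    ∃ Lf : List (MvPolynomial (Fin 2) K × ℕ), IsFactorization (toMv F) Lf ∧
      descendL E bits k N out = Lf.map (fun g =>
        ((dense g.1.totalDegree g.1).map (List.map (algebraMap K L)), g.2)) := by
  classical
  -- the Frobenius
  set φ : L →+* L := (FiniteField.frobeniusAlgHom K L).toRingHom with hφdef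
  have hφ : ∀ x, φ x = x ^ Fintype.card K := fun x => rfl
  have hφ' : ∀ x, φ x = x ^ bval bits ^ k := fun x => by rw [hφ, hb]
  have hit : ∀ (i : ℕ) (x : L), φ^[i] x = x ^ Fintype.card K ^ i := by
    intro i
    induction i with
    | zero => intro x; simp
    | succ i ih =>
      intro x
      rw [Function.iterate_succ_apply, ih, hφ, ← pow_mul, ← pow_succ']
  have hN' : ∀ x, φ^[N] x = x := fun x => by rw [hit, ← hL, FiniteField.pow_card]
  -- the normalised factors
  set f : List (List L) × ℕ → L[X][X] := fun z => toB (normB z.1) with hfdef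
  have hfz : ∀ z, f z = C (C (lc2 (toB z.1))⁻¹) * toB z.1 := by
    intro z
    rw [hfdef]
    simp only
    rw [normB, toB_smulB, lcB_eq]
  have hlc : ∀ z ∈ out, lc2 (toB z.1) ≠ 0 := fun z hz =>
    Desc.lc2_ne_zero (hirr z hz).1.ne_zero
  have hfas : ∀ z ∈ out, Associated (f z) (toB z.1) := by
    intro z hz
    rw [hfz]
    have hu : IsUnit (C (C (lc2 (toB z.1))⁻¹) : L[X][X]) :=
      Desc.isUnit_iff_CC.2 ⟨_, inv_ne_zero (hlc z hz), rfl⟩
    exact associated_unit_mul_left _ _ hu
  have hfirr : ∀ z ∈ out, Irreducible (f z) := fun z hz =>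
    (hfas z hz).symm.irreducible (hirr z hz).1
  have hflc : ∀ z ∈ out, lc2 (f z) = 1 := by
    intro z hz
    rw [hfz, Desc.lc2_mul, Desc.lc2_CC, inv_mul_cancel₀ (hlc z hz)]
  have hfinj : ∀ z ∈ out, ∀ z' ∈ out, f z = f z' → z = z' := by
    intro z hz z' hz' he
    by_contra hne
    have hass : Associated (toB z.1) (toB z'.1) :=
      (hfas z hz).symm.trans (he ▸ hfas z' hz')
    have hsym : ∀ a b : List (List L) × ℕ, ¬ Associated (toB a.1) (toB b.1) →
        ¬ Associated (toB b.1) (toB a.1) := fun a b h h' => h h'.symm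
    obtain ⟨i, hi, rfl⟩ := List.getElem_of_mem hz
    obtain ⟨j, hj, rfl⟩ := List.getElem_of_mem hz'
    rcases lt_trichotomy i j with hij | hij | hij
    · exact List.pairwise_iff_getElem.1 hna i j hi hj hij hass
    · subst hij
      exact hne rfl
    · exact List.pairwise_iff_getElem.1 hna j i hj hi hij hass.symm
  have hnd : out.Nodup := hna.imp (fun {a b} h he => h (by
    subst he
    exact Associated.refl _))
  have hfnd : (out.map f).Nodup := List.Nodup.map_on (fun x hx y hy h => hfinj x hx y hy h) hnd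
  set s : Finset L[X][X] := (out.map f).toFinset with hs
  have hsm : ∀ g, g ∈ s ↔ ∃ z ∈ out, f z = g := by
    intro g
    rw [hs, List.mem_toFinset, List.mem_map]
  set e : L[X][X] → ℕ := fun g => if h : ∃ z ∈ out, f z = g then h.choose.2 else 0 with he
  have hez : ∀ z ∈ out, e (f z) = z.2 := by
    intro z hz
    have hex : ∃ z' ∈ out, f z' = f z := ⟨z, hz, rfl⟩
    have h1 := hex.choose_spec
    rw [he]
    simp only [dif_pos hex]
    rw [hfinj _ h1.1 z hz h1.2]
  have hprod : ∏ g ∈ s, g ^ e g = (out.map (fun z => f z ^ z.2)).prod := by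
    rw [hs, List.prod_toFinset _ hfnd, List.map_map]
    congr 1
    apply List.map_congr_left
    intro z hz
    simp only [Function.comp_apply, hez z hz]
  obtain ⟨c, hc, hpc⟩ : ∃ c : L, c ≠ 0 ∧
      map2 (algebraMap K L) F = C (C c) * ∏ g ∈ s, g ^ e g := by
    have h1 : Associated (out.map (fun z => f z ^ z.2)).prod
        (out.map (fun z => toB z.1 ^ z.2)).prod :=
      assoc_list_prod out _ _ fun z hz => (hfas z hz).pow_pow
    obtain ⟨u, hu⟩ := h1.trans hp
    obtain ⟨c, hc, huc⟩ := Desc.isUnit_iff_CC.1 u.isUnit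
    refine ⟨c, hc, ?_⟩
    rw [hprod, ← hu, huc, mul_comm]
  obtain ⟨u, m, c', hc', hu, hFu, hsu, hus⟩ := descent φ hφ hN hN' hF (s := s) (e := e) (c := c)
    (fun g hg => by
      obtain ⟨z, hz, rfl⟩ := (hsm g).1 hg
      exact ⟨hfirr z hz, hflc z hz, by rw [hez z hz]; exact (hirr z hz).2⟩) hpc
  have hudvd : ∀ P ∈ u, P ∣ F := by
    intro P hP
    rw [hFu]
    exact Dvd.dvd.mul_left ((dvd_pow_self P (hu P hP).2.2.ne').trans
      (Finset.dvd_prod_of_mem (fun P => P ^ m P) hP)) _
  have key : ∀ z, z ∈ out → ∃ P, P ∈ u ∧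
      map2 (algebraMap K L) P = ∏ g ∈ conj φ N (f z), g ∧ m P = z.2 := by
    intro z hz
    obtain ⟨-, P, hP, h1, h2⟩ := hsu (f z) ((hsm _).2 ⟨z, hz, rfl⟩)
    exact ⟨P, hP, h1, by rw [h2, hez z hz]⟩
  choose! pz hpz using key
  set g : K[X][X] → List (List L) × ℕ := fun P =>
    (sqL (td (map2 (algebraMap K L) P)) (map2 (algebraMap K L) P), m P) with hg
  have horb : ∀ z ∈ out, (orbProd E bits k N (normB z.1), z.2) = g (pz z) := by
    intro z hz
    obtain ⟨h1, h2, h3⟩ := hpz z hz
    obtain ⟨h4, h5, h6⟩ := hsh z hz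
    have hlpos : 0 < z.1.length := List.length_pos_iff.2 h5
    have hsq : SqL (z.1.length - 1) (normB z.1) := by
      have : SqL (z.1.length - 1) z.1 := ⟨by omega, fun r hr => by rw [h4 r hr]; omega⟩
      exact this.smulB _
    have hf0 : toB (normB z.1) ≠ 0 := (hfirr z hz).ne_zero
    have htd : td (toB (normB z.1)) = z.1.length - 1 := by
      have e1 : toB (normB z.1) = C (C (lc2 (toB z.1))⁻¹) * toB z.1 := hfz z
      rw [e1, td_CC_mul (inv_ne_zero (hlc z hz))]
      exact h6
    have hn1 : 0 < z.1.length - 1 := by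
      rw [← htd]
      exact td_pos_of_irreducible (hfirr z hz)
    have hcard : (conj φ N (toB (normB z.1))).card * (z.1.length - 1) ≤ d := by
      rw [← td_prod_conj (φ := φ) (N := N) hf0 htd]
      have e2 : ∏ g ∈ conj φ N (toB (normB z.1)), g = map2 (algebraMap K L) (pz z) := h2.symm
      rw [e2, td_map2, ← hd]
      exact td_le_of_dvd hF (hudvd _ h1)
    have hcard2 : (conj φ N (toB (normB z.1))).card * (z.1.length - 1 + 2) ≤ 3 * d := by
      have : (conj φ N (toB (normB z.1))).card ≤
          (conj φ N (toB (normB z.1))).card * (z.1.length - 1) := Nat.le_mul_of_pos_right _ hn1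
      rw [Nat.mul_add]
      omega
    rw [orbProd_spec hE hφ' hsq hf0 htd (hf.mono2 (by omega) (by omega)), hg]
    simp only
    rw [h2, h3]
  have hginj : Function.Injective g := by
    intro P P' h
    rw [hg] at h
    simp only [Prod.mk.injEq] at h
    have h1 := congrArg toB h.1
    rw [toB_sqL (tdeg_td _), toB_sqL (tdeg_td _)] at h1
    exact Desc.map2_injective _ h1
  set Pl : List K[X][X] := (out.map pz).dedup with hPl
  have hPlm : ∀ P, P ∈ Pl ↔ P ∈ u := by
    intro P
    rw [hPl, List.mem_dedup, List.mem_map]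
    constructor
    · rintro ⟨z, hz, rfl⟩
      exact (hpz z hz).1
    · intro hP
      obtain ⟨f', hf', h1, -⟩ := hus P hP
      obtain ⟨z, hz, rfl⟩ := (hsm f').1 hf'
      refine ⟨z, hz, ?_⟩
      apply Desc.map2_injective (algebraMap K L)
      rw [(hpz z hz).2.1, h1]
  have hPlf : Pl.toFinset = u := by
    ext P
    rw [List.mem_toFinset, hPlm]
  have hPln : Pl.Nodup := List.nodup_dedup _
  refine ⟨Pl.map (fun P => (toMv P, m P)), ⟨?_, ?_, ?_⟩, ?_⟩
  · intro x hx
    obtain ⟨P, hP, rfl⟩ := List.mem_map.1 hx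
    have := hu P ((hPlm P).1 hP)
    exact ⟨(irreducible_toMv P).2 this.1, this.2.2⟩
  · rw [List.pairwise_map]
    refine hPln.imp_of_mem ?_
    intro P P' hP hP' hne has
    rw [associated_toMv] at has
    exact hne (Desc.eq_of_associated has (hu P ((hPlm P).1 hP)).2.1 (hu P' ((hPlm P').1 hP')).2.1)
  · rw [List.map_map]
    have h1 : (Pl.map ((fun g : MvPolynomial (Fin 2) K × ℕ => g.1 ^ g.2) ∘
        fun P => (toMv P, m P))).prod = toMv (∏ P ∈ u, P ^ m P) := by
      rw [← hPlf, List.prod_toFinset _ hPln, map_list_prod, List.map_map]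
      congr 1
      apply List.map_congr_left
      intro P _
      simp
    rw [h1, associated_toMv]
    refine ⟨(Desc.isUnit_iff_CC.2 ⟨c', hc', rfl⟩ : IsUnit (C (C c') : K[X][X])).unit, ?_⟩
    rw [IsUnit.unit_spec, mul_comm]
    exact hFu.symm
  · rw [descendL, List.map_congr_left (g := g ∘ pz) horb, ← List.map_map,
      List.dedup_map_of_injective hginj, ← hPl, List.map_map, List.map_map]
    apply List.map_congr_left
    intro P _
    simp only [Function.comp_apply, hg]
    have e1 : (sqL (td (map2 (algebraMap K L) P)) (map2 (algebraMap K L) P)).length - 1 =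
        td (map2 (algebraMap K L) P) := by simp [sqL]
    rw [e1, toDense_eq, toB_sqL (tdeg_td _), td_map2, dense_map2]
    rfl

end Pool.Agent.BiFac

end

section

/-!
# The whole algorithm over a large field, and the program over the small field: definitions
-/

set_option autoImplicit false

namespace Pool.Agent.BiFac

open Polynomial Pool.Agent.TreeRAM

/-- Cut a list into parts of given lengths. -/
def splitLens {α : Type} : List ℕ → List α → List (List α)
  | [], _ => []
  | n :: ns, l => l.take n :: splitLens ns (l.drop n)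

/-- The degree of the extension. -/
def eOf (d : ℕ) : ℕ := 20 * Nat.clog 2 (d + 2)

/-- The offsets of the parts of the tape: points, coordinates, univariate factorisation,
functional, separation, moduli, separation. -/
noncomputable def tapeLens (d : ℕ) : List ℕ :=
  [2 * sOf d - 1, 2, uniTape (nbOf d) (d + 1), d * 2 ^ tOf d, d, 16 * d + 80, d]

section defs

variable {K : Type} [Field K] [DecidableEq K]

/-- The data of the fast multiplication; `T` is the list of the parts of the tape. -/
noncomputable def envOf (d : ℕ) (T : List (List K)) : MEnv K := mkEnv (sOf d) (T.getD 0 [])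

/-- The random coordinates. -/
def abOf (T : List (List K)) : K × K := ((T.getD 1 []).getD 0 0, (T.getD 1 []).getD 1 0)

/-- The polynomial in random coordinates, made monic. -/
noncomputable def monOf (Fd : List (List K)) (T : List (List K)) : List (List K) :=
  monicL (envOf (Fd.length - 1) T) (abOf T).1 (abOf T).2 Fd

/-- The factorisation of the fibre. -/
noncomputable def zsOf (Q : FQ) (Fd : List (List K)) (T : List (List K)) :
    List (List K × ℕ) :=
  uniFactor (envOf (Fd.length - 1) T) Q (nbOf (Fd.length - 1))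
    ((monOf Fd T).map (fun r => r.headD 0)) (T.getD 2 [])

/-- The radical. -/
noncomputable def radOf (Q : FQ) (Fd : List (List K)) (T : List (List K)) : List (List K) :=
  radB (envOf (Fd.length - 1) T) Q (Nat.clog 2 (Fd.length - 1 + 2)) (monOf Fd T) (zsOf Q Fd T)

/-- The irreducible factors with multiplicities, in the random coordinates. -/
noncomputable def outOf (Q : FQ) (Fd : List (List K)) (T : List (List K)) :
    List (List (List K) × ℕ) :=
  sqMain (envOf (Fd.length - 1) T) Q (tOf (Fd.length - 1)) (radOf Q Fd T) (zsOf Q Fd T)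
    (T.getD 3 []) (T.getD 4 []) (T.getD 5 []) (T.getD 6 [])

/-- The whole algorithm over a large field; `T` is the list of the parts of the tape. -/
noncomputable def facParts (Q : FQ) (kK N : ℕ) (Fd : List (List K)) (T : List (List K)) :
    List (List (List K) × ℕ) :=
  descendL (envOf (Fd.length - 1) T) Q.1 kK N ((outOf Q Fd T).map
    (fun z => (shearB (envOf (Fd.length - 1) T) (z.1.length - 1) (-(abOf T).1) (-(abOf T).2) z.1,
      z.2)))

/-- The whole algorithm over a large field. -/
noncomputable def facL (Q : FQ) (kK N : ℕ) (Fd : List (List K)) (tape : List K) :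
    List (List (List K) × ℕ) :=
  facParts Q kK N Fd (splitLens (tapeLens (Fd.length - 1)) tape)

/-- `zs` is the complete factorisation of the monic polynomial `f`. -/
def UniOk (f : K[X]) (zs : List (List K × ℕ)) : Prop :=
  (∀ z ∈ zs, MP z.1 ∧ Irreducible (toP z.1) ∧ 0 < z.2) ∧ (zs.map (fun z => toP z.1)).Nodup ∧
    (zs.map (fun z => toP z.1 ^ z.2)).prod = f

/-- The number of tests in the second stage. -/
noncomputable def kapOf (Q : FQ) (Fd : List (List K)) (T : List (List K)) : ℕ :=
  (restBasis (sqBas (envOf (Fd.length - 1) T) (tOf (Fd.length - 1)) (radOf Q Fd T)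
    (zsOf Q Fd T) (T.getD 3 [])).length
    (sqUn (envOf (Fd.length - 1) T) (tOf (Fd.length - 1)) (radOf Q Fd T)
      (zsOf Q Fd T) (T.getD 3 []) (T.getD 4 []))).length

/-- None of the bad events happens. -/
structure NoBad (q : ℕ) (Q : FQ) (Fd : List (List K)) (T : List (List K)) : Prop where
  h0 : (T.getD 0 []).Nodup
  h1 : Nice (Fd.length - 1) (shear (abOf T).1 (abOf T).2 (toB (fromDense Fd)))
  h2 : UniOk (toP ((monOf Fd T).map (fun r => r.headD 0))) (zsOf Q Fd T)
  h3 : ¬ BadH (famP (sqDat (envOf (Fd.length - 1) T) (tOf (Fd.length - 1)) (radOf Q Fd T)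
      (zsOf Q Fd T) (T.getD 3 []))) (toB (radOf Q Fd T)).natDegree
    (2 ^ tOf (Fd.length - 1) - (toB (radOf Q Fd T)).natDegree - ((zsOf Q Fd T).length + 1))
    ((zsOf Q Fd T).length + 1)
    (thC (toB (radOf Q Fd T)).natDegree (2 ^ tOf (Fd.length - 1) -
      (toB (radOf Q Fd T)).natDegree - ((zsOf Q Fd T).length + 1)) (T.getD 3 []))
  h4 : ¬ NotSep (zsOf Q Fd T).length (sqBas (envOf (Fd.length - 1) T) (tOf (Fd.length - 1))
    (radOf Q Fd T) (zsOf Q Fd T) (T.getD 3 [])) (T.getD 4 [])
  h5 : ¬ BadMod q (envOf (Fd.length - 1) T) (tOf (Fd.length - 1))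
    (sqBas (envOf (Fd.length - 1) T) (tOf (Fd.length - 1)) (radOf Q Fd T) (zsOf Q Fd T)
      (T.getD 3 [])).length
    (sqUn (envOf (Fd.length - 1) T) (tOf (Fd.length - 1)) (radOf Q Fd T) (zsOf Q Fd T)
      (T.getD 3 []) (T.getD 4 [])) (T.getD 5 [])
  h6 : ¬ NotSep (sqUn (envOf (Fd.length - 1) T) (tOf (Fd.length - 1)) (radOf Q Fd T)
      (zsOf Q Fd T) (T.getD 3 []) (T.getD 4 [])).length
    (kerVecs (envOf (Fd.length - 1) T) Q (tOf (Fd.length - 1))
      (sqBas (envOf (Fd.length - 1) T) (tOf (Fd.length - 1)) (radOf Q Fd T) (zsOf Q Fd T)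
        (T.getD 3 [])).length
      (sqUn (envOf (Fd.length - 1) T) (tOf (Fd.length - 1)) (radOf Q Fd T) (zsOf Q Fd T)
        (T.getD 3 []) (T.getD 4 [])) (T.getD 5 [])) (T.getD 6 [])

/-- The hypotheses about the sizes that give the bound for the cost. -/
structure SizeOk (Q : FQ) (Fd : List (List K)) (T : List (List K)) : Prop where
  w : (((zsOf Q Fd T).map (fun z => (z.2 + 1) * (z.1.length + 1))).sum) ≤ 6 * (Fd.length - 1)
  z : tot ((zsOf Q Fd T).map Prod.fst) ≤ 3 * (Fd.length - 1)
  r : (radOf Q Fd T).length ≤ Fd.length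
  k : kapOf Q Fd T ≤ 2 * nroot 2 (Fd.length - 1 + 2)
  o : (((outOf Q Fd T).map (fun z => z.1.length + z.2 + 1)).sum) ≤ 5 * (Fd.length - 1)

end defs

end Pool.Agent.BiFac

end

section

/-!
# The cost of the product of the distinct irreducible factors
-/

set_option autoImplicit false
set_option synthInstance.maxSize 10000

namespace Pool.Agent.BiFac

open Polynomial Pool.Agent.TreeRAM

/-- The size of a list of polynomials with labels; the labels are written in unary. -/
def wsum {K : Type} (zs : List (List K × ℕ)) : ℕ :=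
  (zs.map (fun z => (z.2 + 1) * (z.1.length + 1))).sum

/-- The size of a list of labels with polynomials. -/
private def rc_vs {K : Type} (L : List (ℕ × List K)) : ℕ :=
  (L.map (fun z => (z.1 + 1) * (z.2.length + 1))).sum

/-! ### Sums -/

private theorem rc_sum_filter_le {α β : Type} [DecidableEq β] (f : α → β) (g : α → ℕ)
    {ms : List β} (hms : ms.Nodup) (zs : List α) :
    (ms.map (fun m => ((zs.filter (fun z => decide (f z = m))).map g).sum)).sum ≤
      (zs.map g).sum := by
  induction zs with
  | nil => simp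
  | cons z zs ih =>
    have h1 : ∀ m, (((z :: zs).filter (fun z => decide (f z = m))).map g).sum =
        (if f z = m then g z else 0) + ((zs.filter (fun z => decide (f z = m))).map g).sum := by
      intro m
      by_cases h : f z = m
      · rw [List.filter_cons_of_pos (by simpa using h), if_pos h]
        simp
      · rw [List.filter_cons_of_neg (by simpa using h), if_neg h, zero_add]
    have h2 : (ms.map (fun m => if f z = m then g z else 0)).sum ≤ g z := by
      clear ih h1
      induction ms with
      | nil => simp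
      | cons m ms ih2 =>
        have h3 := List.nodup_cons.1 hms
        rw [List.map_cons, List.sum_cons]
        by_cases h : f z = m
        · rw [if_pos h]
          have h4 : (ms.map (fun m => if f z = m then g z else 0)).sum = 0 := by
            rw [List.sum_eq_zero_iff_forall_eq_nat]
            intro x hx
            rw [List.mem_map] at hx
            obtain ⟨m', hm', rfl⟩ := hx
            rw [if_neg]
            rintro h5
            rw [h] at h5
            rw [h5] at h3
            exact h3.1 hm'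
          omega
        · rw [if_neg h, zero_add]
          exact ih2 h3.2
    simp only [h1]
    rw [List.sum_map_add, List.map_cons, List.sum_cons]
    exact Nat.add_le_add h2 ih

private theorem rc_sum_sq_le {α : Type} (f : α → ℕ) (l : List α) :
    (l.map (fun x => f x ^ 2)).sum ≤ (l.map f).sum ^ 2 := by
  induction l with
  | nil => simp
  | cons a l ih =>
    rw [List.map_cons, List.sum_cons, List.map_cons, List.sum_cons]
    nlinarith [Nat.zero_le (f a * (l.map f).sum)]

private theorem rc_sum_mul {α : Type} (c : ℕ) (f : α → ℕ) (l : List α) :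
    (l.map (fun x => c * f x)).sum = c * (l.map f).sum := by
  induction l with
  | nil => simp
  | cons a l ih =>
    rw [List.map_cons, List.sum_cons, List.map_cons, List.sum_cons, ih]
    ring

private theorem rc_length_le_sum {α : Type} (f : α → ℕ) (l : List α) (h : ∀ x ∈ l, 1 ≤ f x) :
    l.length ≤ (l.map f).sum := by
  induction l with
  | nil => simp
  | cons a l ih =>
    rw [List.map_cons, List.sum_cons, List.length_cons]
    have h1 := h a List.mem_cons_self
    have h2 := ih (fun x hx => h x (List.mem_cons_of_mem _ hx))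
    omega

private theorem rc_min_sum (a : ℕ) (t : List ℕ) :
    (t.map (fun b => min b a + 1)).sum ≤ t.length + t.sum := by
  induction t with
  | nil => simp
  | cons b t ih =>
    rw [List.map_cons, List.sum_cons, List.sum_cons, List.length_cons]
    have : min b a ≤ b := min_le_left _ _
    omega

/-! ### Removal of duplicates from a list of numbers -/

private theorem rc_dedup_ex : ∃ c, ∀ (K : Type) [Field K],
    Comp K (fun l : List ℕ => l.dedup) c (fun l => (l.length + l.sum + 1) ^ 2) :=
  ⟨_, fun K _ => by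
    have hj : Comp K (fun z : List ℕ × List ℕ => lcase z.1 z.2 (fun a t =>
        bif t.any (fun b => decide (b = a)) then z.2 else a :: z.2)) _ _ := inferInstance
    exact (Comp.rec1 (K := K) (isLeaf := fun l : List ℕ => l.isEmpty)
      (leaf := fun _ => []) (next := fun l => l.tail)
      (join := fun l r => lcase l r (fun a t =>
        bif t.any (fun b => decide (b = a)) then r else a :: r)) (h3 := hj)
      (T := fun l => 2 * ((l.length + l.sum) * (l.length + l.sum + 2)))
      (fun l => l.length)
      (by rintro l h; cases l <;> simp_all)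
      (by
        rintro l h
        cases l with
        | nil => simp at h
        | cons a t =>
          by_cases ha : a ∈ t
          · simp only [List.tail_cons, lcase]
            rw [List.dedup_cons_of_mem ha]
            have : (t.any fun b => decide (b = a)) = true := by
              rw [List.any_eq_true]; exact ⟨a, ha, by simp⟩
            rw [this]; rfl
          · simp only [List.tail_cons, lcase]
            rw [List.dedup_cons_of_notMem ha]
            have : (t.any fun b => decide (b = a)) = false := by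
              rw [List.any_eq_false]
              intro b hb
              simp only [decide_eq_true_eq]
              rintro rfl
              exact ha hb
            rw [this]; rfl)
      (by rintro l h; cases l <;> simp_all)
      (by rintro l h; cases l <;> simp_all)
      (by
        rintro l h
        cases l with
        | nil => simp at h
        | cons a t =>
          have h1 := rc_min_sum a t
          have key : ∀ s : ℕ, s + 2 * (s * (s + 2)) + 2 ≤ 2 * ((s + a + 1) * (s + a + 1 + 2)) := by
            intro s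
            have h2 : (s + 1) * (s + 3) ≤ (s + a + 1) * (s + a + 1 + 2) :=
              Nat.mul_le_mul (by omega) (by omega)
            nlinarith
          have h3 := key (t.length + t.sum)
          have e1 : t.length + 1 + (a + t.sum) = t.length + t.sum + a + 1 := by ring
          simp only [lcase, List.tail_cons, List.length_cons]
          cases (t.any fun b => decide (b = a)) <;>
          · simp only [cond_true, cond_false, zero_add, add_zero, List.sum_cons]
            rw [e1]
            omega)).bigO 2 (fun z => by nlinarith)⟩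

private noncomputable def rc_dedupCd : Cd := rc_dedup_ex.choose

private theorem rc_compDedup {K : Type} [Field K] {γ : Type} [Enc K γ]
    {w : γ → List ℕ} {c : Cd} {T : γ → ℕ} (h : Comp K w c T) :
    Comp K (fun x => (w x).dedup) (rc_dedupCd.comp c)
      (fun x => T x + ((w x).length + (w x).sum + 1) ^ 2) :=
  (rc_dedup_ex.choose_spec K).app1 h

/-! ### The parts of the fibre -/

private theorem rc_length_le_wsum {K : Type} (zs : List (List K × ℕ)) : zs.length ≤ wsum zs :=
  rc_length_le_sum _ zs (fun _ _ => Nat.mul_pos (Nat.succ_pos _) (Nat.succ_pos _))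

private theorem rc_labels_le_wsum {K : Type} (zs : List (List K × ℕ)) :
    zs.length + (zs.map Prod.snd).sum ≤ wsum zs := by
  induction zs with
  | nil => simp
  | cons z zs ih =>
    have e : wsum (z :: zs) = (z.2 + 1) * (z.1.length + 1) + wsum zs := by simp [wsum]
    rw [e, List.length_cons, List.map_cons, List.sum_cons]
    have : z.2 + 1 ≤ (z.2 + 1) * (z.1.length + 1) := Nat.le_mul_of_pos_right _ (Nat.succ_pos _)
    omega

private theorem rc_label_le_wsum {K : Type} {zs : List (List K × ℕ)} {z : List K × ℕ}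
    (hz : z ∈ zs) : z.2 + 1 ≤ wsum zs := by
  induction zs with
  | nil => exact absurd hz (by simp)
  | cons y zs ih =>
    have e : wsum (y :: zs) = (y.2 + 1) * (y.1.length + 1) + wsum zs := by simp [wsum]
    rw [e]
    rcases List.mem_cons.1 hz with h | h
    · rw [h]
      have : y.2 + 1 ≤ (y.2 + 1) * (y.1.length + 1) := Nat.le_mul_of_pos_right _ (Nat.succ_pos _)
      omega
    · have := ih h
      omega

private theorem rc_length_fibParts {K : Type} [Field K] (zs : List (List K × ℕ)) :
    (fibParts zs).length ≤ zs.length := by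
  unfold fibParts
  rw [List.length_map]
  exact ((List.dedup_sublist _).length_le).trans_eq (List.length_map _)

private theorem rc_fst_fibParts {K : Type} [Field K] {zs : List (List K × ℕ)}
    {z : ℕ × List K} (hz : z ∈ fibParts zs) : z.1 + 1 ≤ wsum zs := by
  unfold fibParts at hz
  rw [List.mem_map] at hz
  obtain ⟨m, hm, rfl⟩ := hz
  rw [List.mem_dedup, List.mem_map] at hm
  obtain ⟨y, hy, rfl⟩ := hm
  exact rc_label_le_wsum hy

private theorem rc_tot_filter {K : Type} (zs : List (List K × ℕ)) (m : ℕ) :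
    tot ((zs.filter (fun z => decide (z.2 = m))).map Prod.fst) =
      ((zs.filter (fun z => decide (z.2 = m))).map (fun z => z.1.length + 1)).sum := by
  rw [tot, List.map_map]
  rfl

private theorem rc_vs_fibParts {K : Type} [Field K] (zs : List (List K × ℕ)) :
    rc_vs (fibParts zs) ≤ 3 * wsum zs := by
  have h1 : ∀ m ∈ (zs.map Prod.snd).dedup,
      (m + 1) * ((prodP ((zs.filter (fun z => decide (z.2 = m))).map Prod.fst)).length + 1) ≤
      3 * ((zs.filter (fun z => decide (z.2 = m))).map
        (fun z => (z.2 + 1) * (z.1.length + 1))).sum := by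
    intro m hm
    rw [List.mem_dedup, List.mem_map] at hm
    obtain ⟨y, hy, rfl⟩ := hm
    have h2 := length_prodP_le ((zs.filter (fun z => decide (z.2 = y.2))).map Prod.fst)
    have h3 : ((zs.filter (fun z => decide (z.2 = y.2))).map
        (fun z => (z.2 + 1) * (z.1.length + 1))).sum =
        (y.2 + 1) * tot ((zs.filter (fun z => decide (z.2 = y.2))).map Prod.fst) := by
      rw [rc_tot_filter, ← rc_sum_mul]
      congr 1
      apply List.map_congr_left
      intro z hz
      rw [List.mem_filter] at hz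
      rw [of_decide_eq_true hz.2]
    have h4 : 1 ≤ tot ((zs.filter (fun z => decide (z.2 = y.2))).map Prod.fst) := by
      have h5 : y ∈ zs.filter (fun z => decide (z.2 = y.2)) := by
        rw [List.mem_filter]
        exact ⟨hy, by simp⟩
      have h6 := List.length_pos_of_mem h5
      have h7 := hlength_le_tot ((zs.filter (fun z => decide (z.2 = y.2))).map Prod.fst)
      rw [List.length_map] at h7
      omega
    rw [h3]
    calc (y.2 + 1) *
          ((prodP ((zs.filter (fun z => decide (z.2 = y.2))).map Prod.fst)).length + 1) ≤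
          (y.2 + 1) * (3 * tot ((zs.filter (fun z => decide (z.2 = y.2))).map Prod.fst)) :=
        Nat.mul_le_mul_left _ (by omega)
      _ = _ := by ring
  have h2 : rc_vs (fibParts zs) = ((zs.map Prod.snd).dedup.map (fun m => (m + 1) *
      ((prodP ((zs.filter (fun z => decide (z.2 = m))).map Prod.fst)).length + 1))).sum := by
    unfold rc_vs fibParts
    rw [List.map_map]
    rfl
  rw [h2]
  refine (List.sum_le_sum h1).trans ?_
  rw [rc_sum_mul]
  exact Nat.mul_le_mul_left _ (rc_sum_filter_le _ _ (List.nodup_dedup _) zs)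

private theorem rc_fibParts_ex : ∃ c, ∀ (K : Type) [Field K],
    Comp K (fun zs : List (List K × ℕ) => fibParts zs) c (fun zs => (wsum zs + 1) ^ 2) := by
  apply Exists.intro
  intro K _
  have h0 : Comp K (fun zs : List (List K × ℕ) => zs.map Prod.snd) _ _ :=
    Comp.map (g := fun _ (z : List K × ℕ) => z.2)
  have h1 : Comp K (fun zs : List (List K × ℕ) => (zs.map Prod.snd).dedup) _ _ :=
    rc_compDedup h0
  have h : Comp K (fun zs : List (List K × ℕ) => (zs.map Prod.snd).dedup.map
    (fun m => (m, prodP ((zs.filter (fun z => decide (z.2 = m))).map Prod.fst)))) _ _ :=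
      Comp.map (h := h1)
  refine (h.congr (g := fibParts) (fun _ => rfl)).bigO 10 ?_
  intro zs
  simp only [zero_add, add_zero, List.map_const', List.sum_replicate, smul_eq_mul, mul_one,
    List.length_map]
  have k1 := rc_length_le_wsum zs
  have k2 := rc_labels_le_wsum zs
  have k3 : (zs.map Prod.snd).dedup.length ≤ zs.length :=
    ((List.dedup_sublist _).length_le).trans_eq (List.length_map _)
  have k4 : ((zs.map Prod.snd).dedup.map (fun m =>
      tot ((zs.filter (fun z => decide (z.2 = m))).map Prod.fst))).sum ≤ wsum zs := by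
    simp only [rc_tot_filter]
    refine (rc_sum_filter_le _ _ (List.nodup_dedup _) zs).trans ?_
    apply List.sum_le_sum
    intro z _
    exact Nat.le_mul_of_pos_left _ (Nat.succ_pos _)
  have k5 : ∀ m, (zs.map (fun z => min z.2 m + 1)).sum ≤ wsum zs := by
    intro m
    have := rc_min_sum m (zs.map Prod.snd)
    rw [List.map_map, List.length_map] at this
    exact this.trans k2
  have k6 : ((zs.map Prod.snd).dedup.map (fun m =>
      (zs.map (fun z => min z.2 m + 1)).sum + (zs.filter (fun z => decide (z.2 = m))).length +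
        (tot ((zs.filter (fun z => decide (z.2 = m))).map Prod.fst) + 1) ^ 2 + 1)).sum ≤
      (zs.map Prod.snd).dedup.length * (2 * wsum zs + 1) +
      ((zs.map Prod.snd).dedup.map (fun m =>
        (tot ((zs.filter (fun z => decide (z.2 = m))).map Prod.fst) + 1) ^ 2)).sum := by
    have e : (zs.map Prod.snd).dedup.length * (2 * wsum zs + 1) =
        ((zs.map Prod.snd).dedup.map (fun _ => 2 * wsum zs + 1)).sum := by
      rw [List.map_const', List.sum_replicate, smul_eq_mul]
    rw [e, ← List.sum_map_add]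
    apply List.sum_le_sum
    intro m _
    have h2 := k5 m
    have h3 : (zs.filter (fun z => decide (z.2 = m))).length ≤ zs.length :=
      List.length_filter_le _ _
    omega
  have k7 := rc_sum_sq_le (fun m => tot ((zs.filter (fun z => decide (z.2 = m))).map Prod.fst) + 1)
    (zs.map Prod.snd).dedup
  have k8 : ((zs.map Prod.snd).dedup.map (fun m =>
      tot ((zs.filter (fun z => decide (z.2 = m))).map Prod.fst) + 1)).sum ≤ 2 * wsum zs := by
    rw [List.sum_map_add, List.map_const', List.sum_replicate, smul_eq_mul, mul_one]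
    omega
  have k9 := k7.trans (Nat.pow_le_pow_left k8 2)
  have k10 : (zs.map Prod.snd).dedup.length * (2 * wsum zs + 1) ≤
      wsum zs * (2 * wsum zs + 1) := Nat.mul_le_mul_right _ (by omega)
  have k11 : (zs.length + (zs.map Prod.snd).sum + 1) ^ 2 ≤ (wsum zs + 1) ^ 2 :=
    Nat.pow_le_pow_left (by omega) 2
  nlinarith

private noncomputable def rc_fibPartsCd : Cd := rc_fibParts_ex.choose

private theorem rc_compFibParts {K : Type} [Field K] {γ : Type} [Enc K γ]
    {w : γ → List (List K × ℕ)} {c : Cd} {T : γ → ℕ} (h : Comp K w c T) :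
    Comp K (fun x => fibParts (w x)) (rc_fibPartsCd.comp c)
      (fun x => T x + (wsum (w x) + 1) ^ 2) :=
  (rc_fibParts_ex.choose_spec K).app1 h

/-! ### The powers of the parts -/

private theorem rc_tot_replicate {K : Type} (m : ℕ) (g : List K) :
    tot (List.replicate m g) = m * (g.length + 1) := by
  simp [tot]

private theorem rc_powGs_ex : ∃ c, ∀ (K : Type) [Field K],
    Comp K (fun zs : List (ℕ × List K) => zs.map (fun z => prodP (List.replicate z.1 z.2))) c
      (fun zs => rc_vs zs ^ 2) := by
  apply Exists.intro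
  intro K _
  have h : Comp K (fun zs : List (ℕ × List K) =>
    zs.map (fun z => prodP (List.replicate z.1 z.2))) _ _ := Comp.map
  refine h.bigO 3 ?_
  intro zs
  simp only [zero_add]
  have h1 : (zs.map (fun b => b.1 + (tot (List.replicate b.1 b.2) + 1) ^ 2 + 1)).sum ≤
      (zs.map (fun b => 2 * ((b.1 + 1) * (b.2.length + 1)) ^ 2)).sum := by
    apply List.sum_le_sum
    rintro ⟨m, g⟩ _
    simp only [rc_tot_replicate]
    have e1 : (m + 1) * (g.length + 1) = m * (g.length + 1) + g.length + 1 := by ring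
    have e2 : m + 1 ≤ (m + 1) * (g.length + 1) := Nat.le_mul_of_pos_right _ (Nat.succ_pos _)
    have e3 : m * (g.length + 1) + 1 ≤ (m + 1) * (g.length + 1) := by omega
    have e4 := Nat.pow_le_pow_left e3 2
    have e5 : (m + 1) * (g.length + 1) ≤ ((m + 1) * (g.length + 1)) ^ 2 :=
      Nat.le_self_pow (by norm_num) _
    omega
  rw [rc_sum_mul] at h1
  have h2 := rc_sum_sq_le (fun b : ℕ × List K => (b.1 + 1) * (b.2.length + 1)) zs
  have h3 : rc_vs zs = (zs.map (fun b : ℕ × List K => (b.1 + 1) * (b.2.length + 1))).sum := rfl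
  rw [← h3] at h2
  omega

private noncomputable def rc_powGsCd : Cd := rc_powGs_ex.choose

private theorem rc_compPowGs {K : Type} [Field K] {γ : Type} [Enc K γ]
    {w : γ → List (ℕ × List K)} {c : Cd} {T : γ → ℕ} (h : Comp K w c T) :
    Comp K (fun x => (w x).map (fun z => prodP (List.replicate z.1 z.2))) (rc_powGsCd.comp c)
      (fun x => T x + rc_vs (w x) ^ 2) :=
  (rc_powGs_ex.choose_spec K).app1 h

private theorem rc_length_powG {K : Type} [Field K] (z : ℕ × List K) :
    (prodP (List.replicate z.1 z.2)).length ≤ (z.1 + 1) * (z.2.length + 1) := by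
  have h1 := length_prodP_le (List.replicate z.1 z.2)
  rw [rc_tot_replicate] at h1
  have e1 : (z.1 + 1) * (z.2.length + 1) = z.1 * (z.2.length + 1) + z.2.length + 1 := by ring
  omega

private theorem rc_tot_powGs {K : Type} [Field K] (zs : List (ℕ × List K)) :
    tot (zs.map (fun z => prodP (List.replicate z.1 z.2))) ≤ 2 * rc_vs zs := by
  rw [tot, List.map_map, rc_vs, ← rc_sum_mul]
  apply List.sum_le_sum
  intro z _
  have h1 := rc_length_powG z
  have h2 : 1 ≤ (z.1 + 1) * (z.2.length + 1) := Nat.mul_pos (Nat.succ_pos _) (Nat.succ_pos _)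
  show (prodP (List.replicate z.1 z.2)).length + 1 ≤ _
  omega

/-! ### Roots -/

private theorem rc_proStep_ex : ∃ c, ∀ (K : Type) [Field K],
    Comp K (fun z : (FQ × ℕ) × ℕ × List (List K) => proStep z.1.1 z.1.2 z.2) c
      (fun z => (z.1.2 + z.2.1 + tot z.2.2 + 1) * z.1.1.lg) := by
  apply Exists.intro
  intro K _
  have h : Comp K (fun z : (FQ × ℕ) × ℕ × List (List K) =>
    if 2 ≤ z.1.2 ∧ 0 < z.2.1 ∧ z.2.1 % z.1.2 = 0 then
      (z.2.1 / z.1.2, prootB z.1.1 z.1.2 z.2.2) else z.2) _ _ := inferInstance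
  refine (h.congr (g := fun z => proStep z.1.1 z.1.2 z.2) (fun _ => rfl)).bigO 4 ?_
  intro z
  simp only [zero_add, add_zero]
  have hlg : 1 ≤ z.1.1.lg := Nat.mul_pos (Nat.succ_pos _) (Nat.succ_pos _)
  have e1 : (z.1.2 + z.2.1 + tot z.2.2 + 1) * z.1.1.lg =
    z.1.2 * z.1.1.lg + z.2.1 * z.1.1.lg + (tot z.2.2 + 1) * z.1.1.lg := by ring
  have e2 : z.1.2 ≤ z.1.2 * z.1.1.lg := Nat.le_mul_of_pos_right _ hlg
  have e3 : z.2.1 ≤ z.2.1 * z.1.1.lg := Nat.le_mul_of_pos_right _ hlg
  rw [e1]
  split_ifs <;> omega

private theorem rc_iterCost_le {α : Type} {g : α → α} {Tg : α → ℕ} (P : α → Prop) (B : ℕ)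
    (hg : ∀ a, P a → P (g a)) (hT : ∀ a, P a → Tg a ≤ B) (n : ℕ) (a : α) (h0 : P a) :
    iterCost g Tg n a ≤ n * (B + 1) := by
  induction n generalizing a with
  | zero => simp [iterCost]
  | succ n ih =>
    have h1 := ih (g a) (hg a h0)
    have h2 := hT a h0
    rw [iterCost, Nat.add_mul]
    omega

private theorem rc_proStep_inv {K : Type} [Field K] (Q : FQ) (pn m l s : ℕ)
    (a : ℕ × List (List K)) (h : a.1 ≤ m ∧ a.2.length ≤ l ∧ tot a.2 ≤ s) :
    (proStep Q pn a).1 ≤ m ∧ (proStep Q pn a).2.length ≤ l ∧ tot (proStep Q pn a).2 ≤ s := by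
  unfold proStep
  split_ifs
  · exact ⟨(Nat.div_le_self _ _).trans h.1, (length_prootB _ _ _).trans h.2.1,
      (tot_prootB _ _ _).trans h.2.2⟩
  · exact h

private theorem rc_proIter_inv {K : Type} [Field K] (Q : FQ) (pn m l s n : ℕ)
    (a : ℕ × List (List K)) (h : a.1 ≤ m ∧ a.2.length ≤ l ∧ tot a.2 ≤ s) :
    ((proStep Q pn)^[n] a).1 ≤ m ∧ ((proStep Q pn)^[n] a).2.length ≤ l ∧
      tot ((proStep Q pn)^[n] a).2 ≤ s := by
  induction n generalizing a with
  | zero => exact h
  | succ n ih =>
    rw [Function.iterate_succ_apply]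
    exact ih _ (rc_proStep_inv Q pn m l s a h)

private theorem rc_proIter_ex : ∃ c, ∀ (K : Type) [Field K],
    Comp K (fun z : (FQ × ℕ) × ℕ × List (List K) =>
      (proStep z.1.1 z.1.2)^[Nat.clog 2 (z.2.1 + 1)] z.2) c
      (fun z => (z.1.2 + z.2.1 + tot z.2.2 + 1) * z.1.1.lg * (Nat.clog 2 (z.2.1 + 1) + 1)) := by
  obtain ⟨cp, hp⟩ := rc_proStep_ex
  apply Exists.intro
  intro K _
  have hg : Comp K (fun w : ((FQ × ℕ) × ℕ × List (List K)) × ℕ × List (List K) =>
      proStep w.1.1.1 w.1.1.2 w.2) _ _ :=
    (hp K).comp (f := fun w : ((FQ × ℕ) × ℕ × List (List K)) × ℕ × List (List K) =>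
      (w.1.1, w.2)) Comp.pair
  have h : Comp K (fun z : (FQ × ℕ) × ℕ × List (List K) =>
      (proStep z.1.1 z.1.2)^[Nat.clog 2 (z.2.1 + 1)] z.2) _ _ :=
    Comp.iterate (g := fun z : (FQ × ℕ) × ℕ × List (List K) => proStep z.1.1 z.1.2)
      (n := fun z => Nat.clog 2 (z.2.1 + 1)) (a := fun z => z.2) (hg := hg)
  refine h.bigO 4 ?_
  rintro ⟨⟨Q, pn⟩, m, H⟩
  simp only [zero_add, add_zero]
  have hlg : 1 ≤ Q.lg := Nat.mul_pos (Nat.succ_pos _) (Nat.succ_pos _)
  have h1 := rc_iterCost_le (g := proStep (K := K) Q pn)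
    (Tg := fun a => (pn + a.1 + tot a.2 + 1) * Q.lg)
    (fun a => a.1 ≤ m ∧ a.2.length ≤ H.length ∧ tot a.2 ≤ tot H)
    ((pn + m + tot H + 1) * Q.lg) (fun a ha => rc_proStep_inv Q pn m _ _ a ha)
    (fun a ha => Nat.mul_le_mul_right _ (by omega)) (Nat.clog 2 (m + 1)) (m, H)
    ⟨le_rfl, le_rfl, le_rfl⟩
  refine (Nat.add_le_add_right (Nat.add_le_add_left h1 _) 1).trans ?_
  set X := (pn + m + tot H + 1) * Q.lg with hX
  set G := Nat.clog 2 (m + 1)
  have e1 : pn + m + tot H + 1 ≤ X := Nat.le_mul_of_pos_right _ hlg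
  have e2 : X ≤ X * (G + 1) := Nat.le_mul_of_pos_right _ (Nat.succ_pos _)
  have e3 : G * (X + 1) ≤ (G + 1) * (2 * X) := Nat.mul_le_mul (by omega) (by omega)
  have e4 : (G + 1) * (2 * X) = 2 * (X * (G + 1)) := by ring
  omega

private noncomputable def rc_proIterCd : Cd := rc_proIter_ex.choose

private theorem rc_rootB_ex : ∃ c, ∀ (K : Type) [Field K],
    Comp K (fun z : (MEnv K × FQ) × (ℕ × ℕ) × List (List K) × List K =>
      rootB z.1.1 z.1.2 z.2.1.1 z.2.1.2 z.2.2.1 z.2.2.2) c
      (fun z => (tot z.2.2.1 + (z.2.2.1.length + (z.2.1.2 + 1) * (z.2.2.2.length + 1)) *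
        (2 ^ z.2.1.1 * (z.1.1.1 + 1))) * (Nat.clog 2 (z.2.1.2 + 1) + 1) * (z.2.1.1 + 1) *
        z.1.2.lg) := by
  apply Exists.intro
  intro K _
  have hI : Comp K (fun z : (MEnv K × FQ) × (ℕ × ℕ) × List (List K) × List K =>
      (proStep z.1.2 (unCap (z.2.1.2 + 1) z.1.2.1))^[Nat.clog 2 (z.2.1.2 + 1)]
        (z.2.1.2, z.2.2.1)) _ _ :=
    (rc_proIter_ex.choose_spec K).comp
      (f := fun z : (MEnv K × FQ) × (ℕ × ℕ) × List (List K) × List K =>
        ((z.1.2, unCap (z.2.1.2 + 1) z.1.2.1), (z.2.1.2, z.2.2.1))) Comp.pair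
  have h : Comp K (fun z : (MEnv K × FQ) × (ℕ × ℕ) × List (List K) × List K =>
      nthRoot z.1.1 z.2.1.1
        ((proStep z.1.2 (unCap (z.2.1.2 + 1) z.1.2.1))^[Nat.clog 2 (z.2.1.2 + 1)]
          (z.2.1.2, z.2.2.1)).1
        ((proStep z.1.2 (unCap (z.2.1.2 + 1) z.1.2.1))^[Nat.clog 2 (z.2.1.2 + 1)]
          (z.2.1.2, z.2.2.1)).2 z.2.2.2) _ _ :=
    compNthRoot (h3 := Comp.fst (h := hI)) (h4 := Comp.snd (h := hI))
  refine (h.congr (g := fun z => rootB z.1.1 z.1.2 z.2.1.1 z.2.1.2 z.2.2.1 z.2.2.2)
    (fun _ => rfl)).bigO 40 ?_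
  rintro ⟨⟨E, Q⟩, ⟨t, m⟩, H, R0⟩
  simp only [zero_add, add_zero]
  obtain ⟨i1, i2, -⟩ := rc_proIter_inv Q (unCap (m + 1) Q.1) m H.length (tot H)
    (Nat.clog 2 (m + 1)) (m, H) ⟨le_rfl, le_rfl, le_rfl⟩
  have i3 : unCap (m + 1) Q.1 ≤ m + 1 := min_le_left _ _
  have i4 : Nat.clog 2 ((proStep Q (unCap (m + 1) Q.1))^[Nat.clog 2 (m + 1)] (m, H)).1 + 1 ≤
      Nat.clog 2 (m + 1) + 1 := Nat.succ_le_succ (Nat.clog_mono_right 2 (by omega))
  generalize Nat.clog 2 ((proStep Q (unCap (m + 1) Q.1))^[Nat.clog 2 (m + 1)] (m, H)).1 + 1 = G'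
    at *
  generalize ((proStep Q (unCap (m + 1) Q.1))^[Nat.clog 2 (m + 1)] (m, H)).1 = e at *
  generalize ((proStep Q (unCap (m + 1) Q.1))^[Nat.clog 2 (m + 1)] (m, H)).2.length = l at *
  generalize unCap (m + 1) Q.1 = u at *
  have hq : Q.1.length + 1 ≤ Q.lg := Nat.le_mul_of_pos_right _ (Nat.succ_pos _)
  have hG : 1 ≤ Nat.clog 2 (m + 1) + 1 := Nat.succ_pos _
  generalize Nat.clog 2 (m + 1) + 1 = G at *
  have hlg : 1 ≤ Q.lg := Nat.mul_pos (Nat.succ_pos _) (Nat.succ_pos _)
  obtain ⟨X, hX⟩ : ∃ X, X = H.length + (m + 1) * (R0.length + 1) := ⟨_, rfl⟩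
  obtain ⟨Y, hY⟩ : ∃ Y, Y = 2 ^ t * (E.1 + 1) := ⟨_, rfl⟩
  have hY1 : 1 ≤ Y := by rw [hY]; exact Nat.mul_pos (by positivity) (Nat.succ_pos _)
  have hmX : m + 1 ≤ X := by
    rw [hX]
    exact le_trans (Nat.le_mul_of_pos_right _ (Nat.succ_pos _)) (Nat.le_add_left _ _)
  rw [← hX, ← hY]
  have j1 : (m + 1 + 1) * (Q.1.length + 1) ≤ 2 * ((tot H + X * Y) * G * (t + 1) * Q.lg) := by
    calc (m + 1 + 1) * (Q.1.length + 1) ≤ (2 * (X * 1)) * 1 * 1 * Q.lg := by
          rw [mul_one, mul_one, mul_one]
          exact Nat.mul_le_mul (by omega) hq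
      _ ≤ (2 * (tot H + X * Y)) * G * (t + 1) * Q.lg := by
          gcongr
          · exact le_trans (Nat.mul_le_mul_left _ hY1) (Nat.le_add_left _ _)
          · omega
      _ = _ := by ring
  have j2 : (u + m + tot H + 1) * Q.lg * G ≤ 2 * ((tot H + X * Y) * G * (t + 1) * Q.lg) := by
    calc (u + m + tot H + 1) * Q.lg * G ≤ (2 * (tot H + X * 1)) * Q.lg * G := by
          rw [mul_one]
          gcongr
          omega
      _ = (2 * (tot H + X * 1)) * G * 1 * Q.lg := by ring
      _ ≤ (2 * (tot H + X * Y)) * G * (t + 1) * Q.lg := by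
          gcongr
          omega
      _ = _ := by ring
  have j3 : (l + (e + 1) * (R0.length + 1) + 1) * 2 ^ t * (E.1 + 1) * G' * (t + 1) ≤
      2 * ((tot H + X * Y) * G * (t + 1) * Q.lg) := by
    have h1 : (e + 1) * (R0.length + 1) ≤ (m + 1) * (R0.length + 1) :=
      Nat.mul_le_mul_right _ (by omega)
    calc (l + (e + 1) * (R0.length + 1) + 1) * 2 ^ t * (E.1 + 1) * G' * (t + 1)
        = (l + (e + 1) * (R0.length + 1) + 1) * Y * G' * (t + 1) * 1 := by rw [hY]; ring
      _ ≤ (2 * X) * Y * G * (t + 1) * Q.lg := by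
          gcongr
          omega
      _ = (2 * (X * Y)) * G * (t + 1) * Q.lg := by ring
      _ ≤ (2 * (tot H + X * Y)) * G * (t + 1) * Q.lg := by
          gcongr
          omega
      _ = _ := by ring
  omega


private noncomputable def rc_rootBCd : Cd := rc_rootB_ex.choose

private theorem rc_length_rootB {K : Type} [Field K] (E : MEnv K) (Q : FQ) (t m : ℕ)
    (H : List (List K)) (R0 : List K) : (rootB E Q t m H R0).length = R0.length :=
  length_nthRoot _ _ _ _ _

/-! ### Lists of roots -/

private theorem rc_zip_len {α β γ : Type} (f : α → List γ) (L : List α) (M : List (List β))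
    (h : M.map List.length = L.map (fun a => (f a).length)) :
    ∀ p ∈ L.zip M, p.2.length = (f p.1).length := by
  induction L generalizing M with
  | nil => intro p hp; simp at hp
  | cons a L ih =>
    cases M with
    | nil => intro p hp; simp at hp
    | cons b M =>
      rw [List.map_cons, List.map_cons, List.cons.injEq] at h
      intro p hp
      rw [List.zip_cons_cons, List.mem_cons] at hp
      rcases hp with rfl | hp
      · exact h.1
      · exact ih M h.2 p hp

private theorem rc_zip_sum {α β : Type} (f : α → ℕ) (L : List α) (M : List β) :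
    ((L.zip M).map (fun p => f p.1)).sum ≤ (L.map f).sum := by
  induction L generalizing M with
  | nil => simp
  | cons a L ih =>
    cases M with
    | nil => simp
    | cons b M =>
      have := ih M
      rw [List.zip_cons_cons, List.map_cons, List.sum_cons, List.map_cons, List.sum_cons]
      exact Nat.add_le_add_left this _

private theorem rc_tot_le {α : Type} {w : ℕ} {L : List (List α)} (h : ∀ r ∈ L, r.length ≤ w) :
    tot L ≤ L.length * (w + 1) := by
  induction L with
  | nil => simp [tot]
  | cons r L ih =>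
    have e : tot (r :: L) = r.length + 1 + tot L := by simp [tot]
    have h1 := h r List.mem_cons_self
    have h2 := ih (fun s hs => h s (List.mem_cons_of_mem _ hs))
    rw [e, List.length_cons, Nat.add_mul]
    omega

private theorem rc_map_length_lift {K : Type} [Field K] [DecidableEq K] (E : MEnv K) (t : ℕ)
    (F : List (List K)) (gs : List (List K)) :
    (lift E t F gs).map List.length = gs.map List.length := by
  have h := map_length_hlift E t F gs
  unfold lift
  rw [List.map_map]
  exact h

private theorem rc_tot_roots {K : Type} [Field K] (E : MEnv K) (Q : FQ) (t : ℕ)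
    (L : List (ℕ × List K)) (M : List (List (List K))) :
    tot (List.zipWith (fun (z : ℕ × List K) H => rootB E Q t z.1 H z.2) L M) ≤ rc_vs L := by
  induction L generalizing M with
  | nil => simp [tot]
  | cons a L ih =>
    cases M with
    | nil => simp [tot]
    | cons b M =>
      have h1 := ih M
      have e1 : rc_vs (a :: L) = (a.1 + 1) * (a.2.length + 1) + rc_vs L := by simp [rc_vs]
      have e2 : ∀ (x : List (List K)) (y : List (List (List K))),
          tot (x :: y) = x.length + 1 + tot y := by intro x y; simp [tot]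
      rw [List.zipWith_cons_cons, e1, e2, rc_length_rootB]
      have : a.2.length + 1 ≤ (a.1 + 1) * (a.2.length + 1) :=
        Nat.le_mul_of_pos_left _ (Nat.succ_pos _)
      omega

theorem radB_ex : ∃ c, ∀ (K : Type) [Field K] [DecidableEq K],
    Comp K (fun z : (MEnv K × FQ) × ℕ × List (List K) × List (List K × ℕ) =>
      radB z.1.1 z.1.2 z.2.1 z.2.2.1 z.2.2.2) c
      (fun z => (z.2.2.1.length + wsum z.2.2.2 + 1) * (2 ^ z.2.1 + 1) * (z.1.1.1 + 1) *
        (Nat.clog 2 (z.2.2.1.length + wsum z.2.2.2 + 1) + 1) ^ 2 * (z.2.1 + 1) * z.1.2.lg +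
        (z.2.2.1.length + wsum z.2.2.2 + 1) ^ 2) := by
  apply Exists.intro
  intro K _ _
  have hF : Comp K (fun z : (MEnv K × FQ) × ℕ × List (List K) × List (List K × ℕ) =>
      fibParts z.2.2.2) _ _ := rc_compFibParts inferInstance
  have hG : Comp K (fun z : (MEnv K × FQ) × ℕ × List (List K) × List (List K × ℕ) =>
      (fibParts z.2.2.2).map (fun z => prodP (List.replicate z.1 z.2))) _ _ :=
    rc_compPowGs hF
  have hL : Comp K (fun z : (MEnv K × FQ) × ℕ × List (List K) × List (List K × ℕ) =>
      lift z.1.1 z.2.1 z.2.2.1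
        ((fibParts z.2.2.2).map (fun z => prodP (List.replicate z.1 z.2)))) _ _ :=
    compLift (h4 := hG)
  have hR : Comp K (fun w : ((MEnv K × FQ) × ℕ × List (List K) × List (List K × ℕ)) ×
      (ℕ × List K) × List (List K) => rootB w.1.1.1 w.1.1.2 w.1.2.1 w.2.1.1 w.2.2 w.2.1.2) _ _ :=
    (rc_rootB_ex.choose_spec K).comp
      (f := fun w : ((MEnv K × FQ) × ℕ × List (List K) × List (List K × ℕ)) ×
        (ℕ × List K) × List (List K) =>
        ((w.1.1.1, w.1.1.2), (w.1.2.1, w.2.1.1), w.2.2, w.2.1.2)) Comp.pair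
  have hZ : Comp K (fun z : (MEnv K × FQ) × ℕ × List (List K) × List (List K × ℕ) =>
      List.zipWith (fun (y : ℕ × List K) H => rootB z.1.1 z.1.2 z.2.1 y.1 H y.2)
        (fibParts z.2.2.2) (lift z.1.1 z.2.1 z.2.2.1
        ((fibParts z.2.2.2).map (fun z => prodP (List.replicate z.1 z.2))))) _ _ :=
    Comp.zipWith (g := fun z (y : ℕ × List K) H => rootB z.1.1 z.1.2 z.2.1 y.1 H y.2)
      (h := hF) (h' := hL) (hg := hR)
  have h : Comp K (fun z : (MEnv K × FQ) × ℕ × List (List K) × List (List K × ℕ) =>
      prodB z.1.1 (2 ^ z.2.1)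
        (List.zipWith (fun (y : ℕ × List K) H => rootB z.1.1 z.1.2 z.2.1 y.1 H y.2)
        (fibParts z.2.2.2) (lift z.1.1 z.2.1 z.2.2.1
        ((fibParts z.2.2.2).map (fun z => prodP (List.replicate z.1 z.2)))))) _ _ :=
    compProdB (h3 := hZ)
  refine (h.congr (g := fun z => radB z.1.1 z.1.2 z.2.1 z.2.2.1 z.2.2.2)
    (fun _ => rfl)).bigO 200 ?_
  rintro ⟨⟨E, Q⟩, t, F, zs⟩
  clear h hZ hR hL hG hF
  simp only [zero_add, add_zero]
  have hv := rc_vs_fibParts zs
  have htg := rc_tot_powGs (fibParts zs)
  have hlz := rc_length_le_wsum zs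
  have hlF := rc_length_fibParts zs
  obtain ⟨N, hN⟩ : ∃ N, N = F.length + wsum zs + 1 := ⟨_, rfl⟩
  obtain ⟨P, hP⟩ : ∃ P, P = 2 ^ t := ⟨_, rfl⟩
  obtain ⟨L, hL⟩ : ∃ L, L = Nat.clog 2 N + 1 := ⟨_, rfl⟩
  have hP1 : 1 ≤ P := by rw [hP]; exact Nat.one_le_two_pow
  have hL1 : 1 ≤ L := by rw [hL]; exact Nat.succ_pos _
  have hLL : L ≤ L ^ 2 := Nat.le_self_pow (by norm_num) _
  have hN1 : 1 ≤ N := by omega
  have hlg : 1 ≤ Q.lg := Nat.mul_pos (Nat.succ_pos _) (Nat.succ_pos _)
  have hcl : ∀ k, k ≤ N → Nat.clog 2 k + 1 ≤ L := by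
    intro k hk
    rw [hL]
    exact Nat.succ_le_succ (Nat.clog_mono_right 2 hk)
  -- the sum over the roots
  have hsum : (((fibParts zs).zip (lift E t F
      ((fibParts zs).map (fun z => prodP (List.replicate z.1 z.2))))).map (fun p =>
      (tot p.2 + (p.2.length + (p.1.1 + 1) * (p.1.2.length + 1)) * (2 ^ t * (E.1 + 1))) *
        (Nat.clog 2 (p.1.1 + 1) + 1) * (t + 1) * Q.lg + 1)).sum ≤
      4 * ((P + 1) * (E.1 + 1) * L * (t + 1) * Q.lg) * rc_vs (fibParts zs) := by
    refine le_trans ?_ (Nat.mul_le_mul_left _ (rc_zip_sum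
      (fun z : ℕ × List K => (z.1 + 1) * (z.2.length + 1)) (fibParts zs) (lift E t F
      ((fibParts zs).map (fun z => prodP (List.replicate z.1 z.2))))))
    rw [← rc_sum_mul]
    apply List.sum_le_sum
    intro p hp
    have h1 := rc_zip_len (fun z : ℕ × List K => prodP (List.replicate z.1 z.2)) (fibParts zs)
      (lift E t F ((fibParts zs).map (fun z => prodP (List.replicate z.1 z.2))))
      (by rw [rc_map_length_lift, List.map_map]; rfl) p hp
    have h2 := rc_length_powG p.1
    rw [← h1] at h2
    have h3 : tot p.2 ≤ p.2.length * (P + 1) := by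
      rw [hP]
      exact rc_tot_le (rows_lift E t F _ p.2 (List.of_mem_zip hp).2)
    have h4 := rc_fst_fibParts (List.of_mem_zip hp).1
    have h5 := hcl (p.1.1 + 1) (by omega)
    have h6 : 1 ≤ (p.1.1 + 1) * (p.1.2.length + 1) :=
      Nat.mul_pos (Nat.succ_pos _) (Nat.succ_pos _)
    rw [← hP]
    generalize (p.1.1 + 1) * (p.1.2.length + 1) = x at *
    generalize Nat.clog 2 (p.1.1 + 1) + 1 = G at *
    generalize p.2.length = l at *
    generalize tot p.2 = s at *
    have h7 : (s + (l + x) * (P * (E.1 + 1))) * G * (t + 1) * Q.lg ≤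
        3 * ((P + 1) * (E.1 + 1) * L * (t + 1) * Q.lg) * x := by
      have h8 : s + (l + x) * (P * (E.1 + 1)) ≤ 3 * (x * ((P + 1) * (E.1 + 1))) := by
        have h9 : s ≤ x * ((P + 1) * (E.1 + 1)) := by
          calc s ≤ l * (P + 1) := h3
            _ ≤ x * ((P + 1) * (E.1 + 1)) :=
              Nat.mul_le_mul h2 (Nat.le_mul_of_pos_right _ (Nat.succ_pos _))
        have h10 : (l + x) * (P * (E.1 + 1)) ≤ (2 * x) * ((P + 1) * (E.1 + 1)) :=
          Nat.mul_le_mul (by omega) (Nat.mul_le_mul_right _ (by omega))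
        have e1 : (2 * x) * ((P + 1) * (E.1 + 1)) = 2 * (x * ((P + 1) * (E.1 + 1))) := by ring
        omega
      calc (s + (l + x) * (P * (E.1 + 1))) * G * (t + 1) * Q.lg
          ≤ (3 * (x * ((P + 1) * (E.1 + 1)))) * L * (t + 1) * Q.lg := by gcongr
        _ = _ := by ring
    have h8 : 1 ≤ ((P + 1) * (E.1 + 1) * L * (t + 1) * Q.lg) * x :=
      Nat.mul_pos (by positivity) h6
    show _ ≤ 4 * ((P + 1) * (E.1 + 1) * L * (t + 1) * Q.lg) * x
    have e2 : 3 * ((P + 1) * (E.1 + 1) * L * (t + 1) * Q.lg) * x =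
      3 * (((P + 1) * (E.1 + 1) * L * (t + 1) * Q.lg) * x) := by ring
    have e3 : 4 * ((P + 1) * (E.1 + 1) * L * (t + 1) * Q.lg) * x =
      4 * (((P + 1) * (E.1 + 1) * L * (t + 1) * Q.lg) * x) := by ring
    omega
  have hroots := rc_tot_roots E Q t (fibParts zs) (lift E t F
      ((fibParts zs).map (fun z => prodP (List.replicate z.1 z.2))))
  have hrl : (List.zipWith (fun (y : ℕ × List K) H => rootB E Q t y.1 H y.2) (fibParts zs)
      (lift E t F ((fibParts zs).map (fun z => prodP (List.replicate z.1 z.2))))).length ≤ N := by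
    rw [List.length_zipWith]
    have := min_le_left (fibParts zs).length (lift E t F
      ((fibParts zs).map (fun z => prodP (List.replicate z.1 z.2)))).length
    omega
  have hgl : ((fibParts zs).map (fun z => prodP (List.replicate z.1 z.2))).length ≤ N := by
    rw [List.length_map]
    omega
  have hc1 := hcl _ hrl
  have hc2 := hcl _ hgl
  generalize Nat.clog 2 (List.zipWith (fun (y : ℕ × List K) H => rootB E Q t y.1 H y.2)
    (fibParts zs) (lift E t F
      ((fibParts zs).map (fun z => prodP (List.replicate z.1 z.2))))).length + 1 = G1 at *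
  generalize Nat.clog 2 ((fibParts zs).map
    (fun z => prodP (List.replicate z.1 z.2))).length + 1 = G2 at *
  generalize tot (List.zipWith (fun (y : ℕ × List K) H => rootB E Q t y.1 H y.2)
    (fibParts zs) (lift E t F
      ((fibParts zs).map (fun z => prodP (List.replicate z.1 z.2))))) = tr at *
  generalize tot ((fibParts zs).map (fun z => prodP (List.replicate z.1 z.2))) = tg at *
  generalize rc_vs (fibParts zs) = v at *
  rw [← hN, ← hL, ← hP]
  rw [← hP] at hsum
  refine (Nat.add_le_add_right (Nat.add_le_add_right (Nat.add_le_add_left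
    (Nat.add_le_add_left hsum _) _) _) _).trans ?_
  have k1 : P ≤ N * (P + 1) * (E.1 + 1) * L ^ 2 * (t + 1) * Q.lg := by
    calc P ≤ 1 * (P + 1) * 1 * 1 * 1 * 1 := by omega
      _ ≤ N * (P + 1) * (E.1 + 1) * L ^ 2 * (t + 1) * Q.lg := by
        gcongr <;> omega
  have k2 : (wsum zs + 1) ^ 2 ≤ N ^ 2 := Nat.pow_le_pow_left (by omega) 2
  have k3 : v ^ 2 ≤ 9 * N ^ 2 := by
    calc v ^ 2 ≤ (3 * N) ^ 2 := Nat.pow_le_pow_left (by omega) 2
      _ = 9 * N ^ 2 := by ring
  have k4 : (F.length + tg + 1) * P * (E.1 + 1) * G2 ^ 2 * (t + 1) ≤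
      6 * (N * (P + 1) * (E.1 + 1) * L ^ 2 * (t + 1) * Q.lg) := by
    calc (F.length + tg + 1) * P * (E.1 + 1) * G2 ^ 2 * (t + 1)
        = (F.length + tg + 1) * P * (E.1 + 1) * G2 ^ 2 * (t + 1) * 1 := by ring
      _ ≤ (6 * N) * (P + 1) * (E.1 + 1) * L ^ 2 * (t + 1) * Q.lg := by
        gcongr <;> omega
      _ = _ := by ring
  have k5 : (tg + 1) ^ 2 ≤ 36 * N ^ 2 := by
    calc (tg + 1) ^ 2 ≤ (6 * N) ^ 2 := Nat.pow_le_pow_left (by omega) 2
      _ = 36 * N ^ 2 := by ring
  have k6 : 4 * ((P + 1) * (E.1 + 1) * L * (t + 1) * Q.lg) * v ≤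
      12 * (N * (P + 1) * (E.1 + 1) * L ^ 2 * (t + 1) * Q.lg) := by
    calc 4 * ((P + 1) * (E.1 + 1) * L * (t + 1) * Q.lg) * v
        ≤ 4 * ((P + 1) * (E.1 + 1) * L ^ 2 * (t + 1) * Q.lg) * (3 * N) := by
          gcongr
          omega
      _ = _ := by ring
  have k7 : (tr + 1) * (P + 1) * (E.1 + 1) * G1 ≤
      3 * (N * (P + 1) * (E.1 + 1) * L ^ 2 * (t + 1) * Q.lg) := by
    calc (tr + 1) * (P + 1) * (E.1 + 1) * G1
        = (tr + 1) * (P + 1) * (E.1 + 1) * G1 * 1 * 1 := by ring
      _ ≤ (3 * N) * (P + 1) * (E.1 + 1) * L ^ 2 * (t + 1) * Q.lg := by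
        gcongr <;> omega
      _ = _ := by ring
  omega

noncomputable def radBCd : Cd := radB_ex.choose

instance compRadB {K : Type} [Field K] [DecidableEq K] {α : Type} [Enc K α] {E : α → MEnv K}
    {Q : α → FQ} {t : α → ℕ} {F : α → List (List K)} {zs : α → List (List K × ℕ)}
    {c1 c2 c3 c4 c5 : Cd} {T1 T2 T3 T4 T5 : α → ℕ} [h1 : Comp K E c1 T1] [h2 : Comp K Q c2 T2]
    [h3 : Comp K t c3 T3] [h4 : Comp K F c4 T4] [h5 : Comp K zs c5 T5] :
    Comp K (fun x => radB (E x) (Q x) (t x) (F x) (zs x))
      (radBCd.comp ((c1.pair c2).pair (c3.pair (c4.pair c5))))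
      (fun x => T1 x + T2 x + (T3 x + (T4 x + T5 x)) +
        (((F x).length + wsum (zs x) + 1) * (2 ^ t x + 1) * ((E x).1 + 1) *
          (Nat.clog 2 ((F x).length + wsum (zs x) + 1) + 1) ^ 2 * (t x + 1) * (Q x).lg +
          ((F x).length + wsum (zs x) + 1) ^ 2)) :=
  (radB_ex.choose_spec K).comp (f := fun x => ((E x, Q x), t x, F x, zs x))
    (Comp.pair (h := Comp.pair (h := h1) (h' := h2))
      (h' := Comp.pair (h := h3) (h' := Comp.pair (h := h4) (h' := h5))))

end Pool.Agent.BiFac

end

section

/-!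
# The radical: correctness
-/

set_option autoImplicit false

namespace Pool.Agent.BiFac

open Polynomial Pool.Agent.TreeRAM

variable {K : Type} [Field K]

/-! ### Equality from congruence -/

private theorem rad_degree_coeff_of_rows {w : ℕ} {L : List (List K)}
    (h : ∀ r ∈ L, r.length ≤ w) (j : ℕ) : ((toB L).coeff j).degree < w := by
  rw [coeff_toB]
  by_cases hj : j < L.length
  · have hm : L.getD j [] ∈ L := by
      rw [List.getD_eq_getElem _ _ hj]
      exact List.getElem_mem hj
    exact lt_of_lt_of_le (degree_toP_lt _) (by exact_mod_cast h _ hm)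
  · rw [List.getD_eq_default _ _ (not_lt.1 hj), toP_nil, degree_zero]
    exact bot_lt_iff_ne_bot.2 (by simp)

private theorem rad_degree_coeff_of_tdeg {n w : ℕ} {G : K[X][X]} (h : TDeg n G) (hw : n < w)
    (j : ℕ) : (G.coeff j).degree < w := by
  rw [degree_lt_iff_coeff_zero]
  intro i hi
  exact h i j (by omega)

private theorem rad_eq_of_cg {n w : ℕ} {L : List (List K)} {G : K[X][X]}
    (hc : Cg w (toB L) G) (h : ∀ r ∈ L, r.length ≤ w) (hG : TDeg n G) (hw : n < w) :
    toB L = G :=
  hc.eq (rad_degree_coeff_of_rows h) (rad_degree_coeff_of_tdeg hG hw)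

/-! ### Roots -/

/-- The invariant of the iteration. -/
private def RadInv (G : K[X][X]) (m : ℕ) (s : ℕ × List (List K)) : Prop :=
  toB s.2 = G ^ s.1 ∧ s.2.length = s.1 * G.natDegree + 1 ∧ 0 < s.1 ∧ s.1 ≤ m

private theorem rad_unCap [Fintype K] {Q : FQ} {p : ℕ} (hQ : Q.Ok K p) (m : ℕ) :
    unCap (m + 1) Q.1 = min (m + 1) p := by
  rw [unCap, hQ.bits, bval_bits]

private theorem rad_proStep [Fintype K] {Q : FQ} {p : ℕ} (hQ : Q.Ok K p) {m : ℕ}
    {G : K[X][X]} {s : ℕ × List (List K)} (hs : RadInv G m s) :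
    RadInv G m (proStep Q (unCap (m + 1) Q.1) s) ∧
      (proStep Q (unCap (m + 1) Q.1) s).1 = if p ∣ s.1 then s.1 / p else s.1 := by
  obtain ⟨h1, h2, h3, h4⟩ := hs
  have hp2 : 2 ≤ p := hQ.prime.two_le
  by_cases hd : p ∣ s.1
  · have hle : p ≤ m := (Nat.le_of_dvd h3 hd).trans h4
    have hc : unCap (m + 1) Q.1 = p := by
      rw [rad_unCap hQ]
      omega
    have hst : proStep Q (unCap (m + 1) Q.1) s = (s.1 / p, prootB Q p s.2) := by
      rw [proStep, hc, if_pos ⟨hp2, h3, Nat.mod_eq_zero_of_dvd hd⟩]
    rw [hst, if_pos hd]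
    obtain ⟨k, hk⟩ := hd
    have hdiv : s.1 / p = k := by
      rw [hk]
      exact Nat.mul_div_cancel_left _ hQ.prime.pos
    refine ⟨⟨?_, ?_, ?_, ?_⟩, rfl⟩
    · show toB (prootB Q p s.2) = G ^ (s.1 / p)
      rw [hdiv]
      apply prootB_spec hQ
      rw [h1, hk, mul_comm, pow_mul]
    · show (prootB Q p s.2).length = s.1 / p * G.natDegree + 1
      rw [hdiv]
      apply length_prootB_eq Q hQ.prime.pos
      rw [h2, hk, mul_assoc]
    · show 0 < s.1 / p
      rw [hdiv]
      rcases Nat.eq_zero_or_pos k with h0 | h0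
      · rw [h0, mul_zero] at hk
        omega
      · exact h0
    · show s.1 / p ≤ m
      exact (Nat.div_le_self _ _).trans h4
  · have hst : proStep Q (unCap (m + 1) Q.1) s = s := by
      rw [proStep, if_neg]
      rintro ⟨-, -, hm⟩
      rw [rad_unCap hQ] at hm
      rcases le_or_gt p (m + 1) with h5 | h5
      · rw [min_eq_right h5] at hm
        exact hd (Nat.dvd_of_mod_eq_zero hm)
      · rw [min_eq_left h5.le, Nat.mod_eq_of_lt (by omega)] at hm
        omega
    rw [hst, if_neg hd]
    exact ⟨⟨h1, h2, h3, h4⟩, rfl⟩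

private theorem rad_iterate [Fintype K] {Q : FQ} {p : ℕ} (hQ : Q.Ok K p) {m : ℕ} (hm : 0 < m)
    {G : K[X][X]} {H : List (List K)} (hH : toB H = G ^ m)
    (hl : H.length = m * G.natDegree + 1) (k : ℕ) :
    RadInv G m ((proStep Q (unCap (m + 1) Q.1))^[k] (m, H)) ∧
      (¬ p ∣ ((proStep Q (unCap (m + 1) Q.1))^[k] (m, H)).1 ∨
        ((proStep Q (unCap (m + 1) Q.1))^[k] (m, H)).1 * 2 ^ k ≤ m) := by
  induction k with
  | zero => exact ⟨⟨hH, hl, hm, le_rfl⟩, Or.inr (by simp)⟩
  | succ k ih =>
    rw [Function.iterate_succ_apply']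
    obtain ⟨ih1, ih2⟩ := ih
    obtain ⟨h1, h2⟩ := rad_proStep hQ ih1
    refine ⟨h1, ?_⟩
    rw [h2]
    rcases ih2 with h3 | h3
    · left
      rw [if_neg h3]
      exact h3
    · by_cases hd : p ∣ ((proStep Q (unCap (m + 1) Q.1))^[k] (m, H)).1
      · right
        rw [if_pos hd]
        set a := ((proStep Q (unCap (m + 1) Q.1))^[k] (m, H)).1
        have h4 : a / p * 2 ≤ a :=
          le_trans (Nat.mul_le_mul_left _ hQ.prime.two_le) (Nat.div_mul_le_self a p)
        calc a / p * 2 ^ (k + 1) = (a / p * 2) * 2 ^ k := by ring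
          _ ≤ a * 2 ^ k := Nat.mul_le_mul_right _ h4
          _ ≤ m := h3
      · left
        rw [if_neg hd]
        exact hd

theorem rootB_spec [DecidableEq K] [Fintype K] {E : MEnv K} (hE : E.Good) {Q : FQ} {p : ℕ}
    (hQ : Q.Ok K p) {t m : ℕ} (hm : 0 < m) {H : List (List K)} {R0 : List K} {G : K[X][X]}
    (hG : G.Monic) (hGt : TDeg G.natDegree G) (hH : toB H = G ^ m)
    (hl : H.length = m * G.natDegree + 1) (hR : toP R0 = red G)
    (hRl : R0.length = G.natDegree + 1) (ht : G.natDegree < 2 ^ t)
    (hf : Fits E (512 * (m * G.natDegree + m + 2)) (2 ^ t)) :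
    toB (rootB E Q t m H R0) = G ∧ (rootB E Q t m H R0).length = G.natDegree + 1 := by
  have hch := hQ.charP
  obtain ⟨⟨h1, h2, h3, h4⟩, h5⟩ := rad_iterate hQ hm hH hl (Nat.clog 2 (m + 1))
  have hr : rootB E Q t m H R0 = nthRoot E t
      ((proStep Q (unCap (m + 1) Q.1))^[Nat.clog 2 (m + 1)] (m, H)).1
      ((proStep Q (unCap (m + 1) Q.1))^[Nat.clog 2 (m + 1)] (m, H)).2 R0 := rfl
  rw [hr]
  set e := ((proStep Q (unCap (m + 1) Q.1))^[Nat.clog 2 (m + 1)] (m, H)).1
  set H' := ((proStep Q (unCap (m + 1) Q.1))^[Nat.clog 2 (m + 1)] (m, H)).2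
  set n := G.natDegree
  have hnd : ¬ p ∣ e := by
    rcases h5 with h5 | h5
    · exact h5
    · exfalso
      have h6 : m + 1 ≤ 2 ^ Nat.clog 2 (m + 1) := Nat.le_pow_clog (by norm_num) _
      have h7 : 1 * 2 ^ Nat.clog 2 (m + 1) ≤ e * 2 ^ Nat.clog 2 (m + 1) :=
        Nat.mul_le_mul_right _ h3
      omega
  have he : (e : K) ≠ 0 := by
    rw [Ne, CharP.cast_eq_zero_iff K p]
    exact hnd
  have hen : e * n ≤ m * n := Nat.mul_le_mul_right _ h4
  have hn : n ≤ m * n := Nat.le_mul_of_pos_left _ hm
  have hfit : Fits E (64 * (H'.length + (e + 1) * (R0.length + 1))) (2 ^ t) := by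
    refine hf.mono ?_
    rw [h2, hRl]
    have : (e + 1) * (n + 1 + 1) = e * n + 2 * e + n + 2 := by ring
    rw [this]
    omega
  obtain ⟨h6, h7⟩ := nthRoot_spec hE hfit hG he (by rw [h1]; exact Cg.refl _ _) hR hRl
  refine ⟨rad_eq_of_cg h7 h6.rows hGt ht, ?_⟩
  rw [length_nthRoot, hRl]

/-! ### The radical -/

private theorem rad_forall₂_map {α β γ : Type*} {R : β → γ → Prop} {f : α → β} {g : α → γ}
    {L : List α} (h : List.Forall₂ R (L.map f) (L.map g)) : ∀ x ∈ L, R (f x) (g x) := by
  rw [List.forall₂_map_left_iff, List.forall₂_map_right_iff] at h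
  exact List.forall₂_same.1 h

private theorem rad_eq_map_idxOf {α β : Type*} [DecidableEq α] {L : List α} (hL : L.Nodup)
    {M : List β} (h : M.length = L.length) (d : β) :
    M = L.map (fun a => M.getD (L.idxOf a) d) := by
  apply List.ext_getElem
  · rw [List.length_map, h]
  · intro i h1 h2
    rw [List.getElem_map, hL.idxOf_getElem, List.getD_eq_getElem _ _ h1]

theorem radB_spec [DecidableEq K] [Fintype K] {E : MEnv K} (hE : E.Good) {Q : FQ} {p : ℕ}
    (hQ : Q.Ok K p) {t : ℕ} {F : List (List K)} {zs : List (List K × ℕ)} {s : Finset K[X][X]}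
    {e : K[X][X] → ℕ} (hs : ∀ f ∈ s, Irreducible f ∧ f.Monic ∧ 0 < e f)
    (hF : toB F = ∏ f ∈ s, f ^ e f) (hFt : TDeg (toB F).natDegree (toB F))
    (hsep : (red (∏ f ∈ s, f)).Separable) (hl : F.length = (toB F).natDegree + 1)
    (ht : (toB F).natDegree + 2 ≤ 2 ^ t) (hf : Fits E (2048 * ((toB F).natDegree + 2)) (2 ^ t))
    (hz : ∀ z ∈ zs, MP z.1 ∧ Irreducible (toP z.1) ∧ 0 < z.2)
    (hn : (zs.map fun z => toP z.1).Nodup)
    (hp : red (toB F) = (zs.map (fun z => toP z.1 ^ z.2)).prod) :
    toB (radB E Q t F zs) = ∏ f ∈ s, f ∧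
    (radB E Q t F zs).length = (∏ f ∈ s, f).natDegree + 1 := by
  classical
  set d := (toB F).natDegree with hd
  set gs : List (K[X] × ℕ) := zs.map (fun z => (toP z.1, z.2)) with hgs
  have hg : ∀ z ∈ gs, Irreducible z.1 ∧ z.1.Monic ∧ 0 < z.2 := by
    intro z hz1
    obtain ⟨y, hy, rfl⟩ := List.mem_map.1 hz1
    exact ⟨(hz y hy).2.1, (hz y hy).1.monic, (hz y hy).2.2⟩
  have hgn : (gs.map Prod.fst).Nodup := by
    rw [hgs, List.map_map]
    exact hn
  have hgp : red (∏ f ∈ s, f ^ e f) = (gs.map (fun z => z.1 ^ z.2)).prod := by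
    rw [← hF, hp, hgs, List.map_map]
    rfl
  -- the labels
  set ms : List ℕ := (zs.map Prod.snd).dedup with hms
  have hmsn : ms.Nodup := List.nodup_dedup _
  have hmem : ∀ m, m ∈ ms ↔ ∃ z ∈ zs, z.2 = m := by
    intro m
    rw [hms, List.mem_dedup, List.mem_map]
  have hmpos : ∀ m ∈ ms, 0 < m := by
    intro m hm
    obtain ⟨z, hz1, rfl⟩ := (hmem m).1 hm
    exact (hz z hz1).2.2
  -- the parts
  set G : ℕ → K[X][X] := fun m => ∏ f ∈ s.filter (fun f => e f = m), f with hG
  set g : ℕ → List K :=
    fun m => prodP ((zs.filter (fun z => decide (z.2 = m))).map Prod.fst) with hgdef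
  have hGm : ∀ m, (G m).Monic := fun m =>
    monic_prod_of_monic _ _ fun f hf => (hs f (Finset.mem_filter.1 hf).1).2.1
  have hgMP : ∀ m, MP (g m) := by
    intro m
    apply MP_prodP
    intro a ha
    obtain ⟨z, hz1, rfl⟩ := List.mem_map.1 ha
    exact (hz z (List.mem_filter.1 hz1).1).1
  have hredG : ∀ m ∈ ms, red (G m) = toP (g m) := by
    intro m hm
    rw [hG, fibre_group hs hsep hg hgn hgp (hmpos m hm), hgdef, toP_prodP, hgs, List.filter_map,
      List.map_map, List.map_map]
    rfl
  have hFm : (toB F).Monic := by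
    rw [hF]
    exact monic_prod_of_monic _ _ fun f hf => ((hs f hf).2.1).pow _
  -- every exponent is a label
  have hes : ∀ f ∈ s, e f ∈ ms := by
    intro f hf1
    obtain ⟨hfi, hfm, hfe⟩ := hs f hf1
    have hnu : ¬ IsUnit (red f) := by
      intro hu
      have h1 : (red f).natDegree = 0 := natDegree_eq_zero_of_isUnit hu
      rw [natDegree_red hfm] at h1
      exact hfi.not_isUnit (by rw [hfm.natDegree_eq_zero.1 h1]; exact isUnit_one)
    obtain ⟨q, hq, hqd⟩ := WfDvdMonoid.exists_irreducible_factor hnu (monic_red hfm).ne_zero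
    have h2 : q ∣ (zs.map (fun z => toP z.1 ^ z.2)).prod := by
      rw [← hp, hF, map_prod]
      refine Dvd.dvd.trans ?_ (Finset.dvd_prod_of_mem (fun g => red (g ^ e g)) hf1)
      simp only [map_pow]
      exact dvd_pow hqd hfe.ne'
    rw [Prime.dvd_prod_iff hq.prime] at h2
    obtain ⟨a, ha, hda⟩ := h2
    obtain ⟨z, hz1, rfl⟩ := List.mem_map.1 ha
    have h3 : q ∣ toP z.1 := hq.prime.dvd_of_dvd_pow hda
    have h4 : Associated q (toP z.1) :=
      (Irreducible.dvd_irreducible_iff_associated hq (hz z hz1).2.1).1 h3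
    have h5 : toP z.1 ∣ red f := h4.dvd_iff_dvd_left.1 hqd
    have h6 := fibre_mult hs hsep hg hgn hgp hf1
      (z := (toP z.1, z.2)) (List.mem_map.2 ⟨z, hz1, rfl⟩) h5
    exact (hmem _).2 ⟨z, hz1, h6⟩
  have hmaps : ∀ f ∈ s, e f ∈ ms.toFinset := fun f hf1 => List.mem_toFinset.2 (hes f hf1)
  have hprodG : ∏ m ∈ ms.toFinset, G m = ∏ f ∈ s, f :=
    Finset.prod_fiberwise_of_maps_to hmaps _
  have hprodGm : ∏ m ∈ ms.toFinset, G m ^ m = toB F := by
    rw [hF, ← Finset.prod_fiberwise_of_maps_to hmaps]
    apply Finset.prod_congr rfl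
    intro m _
    rw [hG, ← Finset.prod_pow]
    apply Finset.prod_congr rfl
    intro f hf1
    rw [(Finset.mem_filter.1 hf1).2]
  -- degrees
  have hGdvd : ∀ m ∈ ms, G m ^ m ∣ toB F := by
    intro m hm
    rw [← hprodGm]
    exact Finset.dvd_prod_of_mem (fun m => G m ^ m) (List.mem_toFinset.2 hm)
  have hGdvd1 : ∀ m ∈ ms, G m ∣ toB F := fun m hm =>
    (dvd_pow_self _ (hmpos m hm).ne').trans (hGdvd m hm)
  have hGt : ∀ m ∈ ms, TDeg (G m).natDegree (G m) := fun m hm =>
    TDeg.of_dvd_monic hFm hFt (hGm m) (hGdvd1 m hm)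
  have hGmt : ∀ m ∈ ms, TDeg (G m ^ m).natDegree (G m ^ m) := fun m hm =>
    TDeg.of_dvd_monic hFm hFt ((hGm m).pow m) (hGdvd m hm)
  have hdsum : ∑ m ∈ ms.toFinset, m * (G m).natDegree = d := by
    rw [hd, ← hprodGm, natDegree_prod_of_monic _ _ fun m _ => (hGm m).pow m]
    apply Finset.sum_congr rfl
    intro m _
    rw [(hGm m).natDegree_pow]
  have hdle : ∀ m ∈ ms, m * (G m).natDegree ≤ d := by
    intro m hm
    rw [← hdsum]
    exact Finset.single_le_sum (f := fun m => m * (G m).natDegree) (fun _ _ => Nat.zero_le _)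
      (List.mem_toFinset.2 hm)
  have hdpos : ∀ m ∈ ms, 0 < (G m).natDegree := by
    intro m hm
    rw [← natDegree_red (hGm m), hredG m hm]
    obtain ⟨z, hz1, hzm⟩ := (hmem m).1 hm
    have h1 : toP z.1 ∣ toP (g m) := by
      rw [hgdef, toP_prodP]
      apply List.dvd_prod
      rw [List.mem_map]
      refine ⟨z.1, ?_, rfl⟩
      rw [List.mem_map]
      exact ⟨z, List.mem_filter.2 ⟨hz1, by simpa using hzm⟩, rfl⟩
    exact lt_of_lt_of_le (hz z hz1).2.1.natDegree_pos
      (natDegree_le_of_dvd h1 (hgMP m).monic.ne_zero)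
  -- the lists
  set gs' : List (List K) := ms.map (fun m => prodP (List.replicate m (g m))) with hgs'
  have hfib : fibParts zs = ms.map (fun m => (m, g m)) := rfl
  have hfib2 : (fibParts zs).map (fun z => prodP (List.replicate z.1 z.2)) = gs' := by
    rw [hfib, List.map_map]
    rfl
  have hgsMP : ∀ m, MP (prodP (List.replicate m (g m))) := by
    intro m
    apply MP_prodP
    intro a ha
    rw [List.eq_of_mem_replicate ha]
    exact hgMP m
  have hgstoP : ∀ m ∈ ms, toP (prodP (List.replicate m (g m))) = red (G m ^ m) := by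
    intro m hm
    rw [toP_prodP, List.map_replicate, List.prod_replicate, map_pow, hredG m hm]
  have hgslen : ∀ m ∈ ms, (prodP (List.replicate m (g m))).length = m * (G m).natDegree + 1 := by
    intro m hm
    rw [(hgsMP m).len, hgstoP m hm, natDegree_red ((hGm m).pow m), (hGm m).natDegree_pow]
  have hsum_ms : ∀ φ : ℕ → ℕ, (ms.map φ).sum = ∑ m ∈ ms.toFinset, φ m := fun φ =>
    (List.sum_toFinset φ hmsn).symm
  have htot : tot gs' ≤ 3 * d := by
    rw [tot, hgs', List.map_map, hsum_ms, ← hdsum, Finset.mul_sum]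
    apply Finset.sum_le_sum
    intro m hm
    have hm1 := List.mem_toFinset.1 hm
    have h1 : 1 ≤ m * (G m).natDegree := Nat.mul_pos (hmpos m hm1) (hdpos m hm1)
    simp only [Function.comp]
    rw [hgslen m hm1]
    omega
  have hfit : Fits E (4 * (F.length + tot gs')) (2 ^ t) := hf.mono (by rw [hl]; omega)
  have hcop : ∀ m ∈ ms, ∀ m' ∈ ms, m ≠ m' → IsCoprime (red (G m ^ m)) (red (G m' ^ m')) := by
    intro m hm m' hm' hmm
    rw [map_pow, map_pow]
    apply IsCoprime.pow
    apply Separable.isCoprime
    refine hsep.of_dvd ?_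
    rw [← map_mul]
    apply _root_.map_dvd
    rw [← hprodG, ← Finset.prod_pair hmm]
    apply Finset.prod_dvd_prod_of_subset
    intro x hx
    rcases Finset.mem_insert.1 hx with rfl | hx
    · exact List.mem_toFinset.2 hm
    · rw [Finset.mem_singleton.1 hx]
      exact List.mem_toFinset.2 hm'
  have hpair : gs'.Pairwise (fun g g' => IsCoprime (toP g) (toP g')) := by
    rw [hgs', List.pairwise_map]
    refine List.Pairwise.imp_of_mem ?_ hmsn
    intro m m' hm hm' hmm
    rw [hgstoP m hm, hgstoP m' hm']
    exact hcop m hm m' hm' hmm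
  have hred : red (toB F) = (gs'.map toP).prod := by
    rw [← hprodGm, map_prod, hgs', List.map_map, ← List.prod_toFinset _ hmsn]
    apply Finset.prod_congr rfl
    intro m hm
    exact (hgstoP m (List.mem_toFinset.1 hm)).symm
  obtain ⟨hA, hB⟩ := lift_spec hE hfit hFm hl (by
    intro a ha
    obtain ⟨m, -, rfl⟩ := List.mem_map.1 ha
    exact hgsMP m) hpair hred
  have hlen : (lift E t F gs').length = ms.length := by
    rw [length_lift, hgs', List.length_map]
  set P : ℕ → List (List K) := fun m => (lift E t F gs').getD (ms.idxOf m) [] with hP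
  have hPs : lift E t F gs' = ms.map P := rad_eq_map_idxOf hmsn hlen []
  rw [hPs] at hA hB
  have hA' := rad_forall₂_map hA
  have hB' : Cg (2 ^ t) (∏ m ∈ ms.toFinset, toB (P m)) (∏ m ∈ ms.toFinset, G m ^ m) := by
    rw [hprodGm]
    have h1 : ((ms.map P).map toB).prod = ∏ m ∈ ms.toFinset, toB (P m) := by
      rw [List.map_map, ← List.prod_toFinset _ hmsn]
      rfl
    rw [← h1]
    exact hB.symm
  have hcg : ∀ m ∈ ms, Cg (2 ^ t) (toB (P m)) (G m ^ m) := by
    intro m hm
    refine cg_of_coprime_prod ms.toFinset (f := fun m => toB (P m)) (a := fun m => G m ^ m)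
      ?_ ?_ hB' ?_ ?_ m (List.mem_toFinset.2 hm)
    · intro i hi
      exact (hA' i (List.mem_toFinset.1 hi)).1.monic
    · intro i _
      exact (hGm i).pow i
    · intro i hi
      have hi1 := List.mem_toFinset.1 hi
      show red (toB (P i)) = red (G i ^ i)
      rw [(hA' i hi1).2.2, hgstoP i hi1]
    · intro i hi j hj hij
      exact hcop i (List.mem_toFinset.1 (Finset.mem_coe.1 hi)) j
        (List.mem_toFinset.1 (Finset.mem_coe.1 hj)) hij
  have hPeq : ∀ m ∈ ms, toB (P m) = G m ^ m := by
    intro m hm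
    refine rad_eq_of_cg (hcg m hm) (hA' m hm).1.rows (hGmt m hm) ?_
    rw [(hGm m).natDegree_pow]
    have := hdle m hm
    omega
  -- the roots
  have hR : ∀ m ∈ ms, toB (rootB E Q t m (P m) (g m)) = G m ∧
      (rootB E Q t m (P m) (g m)).length = (G m).natDegree + 1 := by
    intro m hm
    have h1 := hdle m hm
    have h2 := hdpos m hm
    have h3 := hmpos m hm
    have h4 : m ≤ m * (G m).natDegree := Nat.le_mul_of_pos_right _ h2
    have h5 : (G m).natDegree ≤ m * (G m).natDegree := Nat.le_mul_of_pos_left _ h3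
    refine rootB_spec hE hQ h3 (hGm m) (hGt m hm) (hPeq m hm) ?_ (hredG m hm).symm ?_ ?_ ?_
    · rw [(hA' m hm).1.len, hPeq m hm, (hGm m).natDegree_pow]
    · rw [(hgMP m).len, ← hredG m hm, natDegree_red (hGm m)]
    · omega
    · exact hf.mono (by omega)
  have hrad : radB E Q t F zs =
      prodB E (2 ^ t) (ms.map (fun m => rootB E Q t m (P m) (g m))) := by
    rw [radB, hfib2, hPs, hfib, List.zipWith_map, List.zipWith_self]
  rw [hrad]
  have hdG : (∏ f ∈ s, f).natDegree = ∑ m ∈ ms.toFinset, (G m).natDegree := by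
    rw [← hprodG, natDegree_prod_of_monic _ _ fun m _ => hGm m]
  have hdG2 : (∏ f ∈ s, f).natDegree ≤ d := by
    rw [hdG, ← hdsum]
    apply Finset.sum_le_sum
    intro m hm
    exact Nat.le_mul_of_pos_left _ (hmpos m (List.mem_toFinset.1 hm))
  have htotR : tot (ms.map (fun m => rootB E Q t m (P m) (g m))) ≤ 3 * d := by
    rw [tot, List.map_map, hsum_ms, ← hdsum, Finset.mul_sum]
    apply Finset.sum_le_sum
    intro m hm
    have hm1 := List.mem_toFinset.1 hm
    have h2 := hdpos m hm1
    have h5 : (G m).natDegree ≤ m * (G m).natDegree := Nat.le_mul_of_pos_left _ (hmpos m hm1)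
    simp only [Function.comp]
    rw [(hR m hm1).2]
    omega
  refine ⟨?_, ?_⟩
  · have h1 := cg_prodB hE (w := 2 ^ t)
      (L := ms.map (fun m => rootB E Q t m (P m) (g m))) (hf.mono (by omega))
    have h2 : ((ms.map (fun m => rootB E Q t m (P m) (g m))).map toB).prod = ∏ f ∈ s, f := by
      rw [List.map_map, ← List.prod_toFinset _ hmsn, ← hprodG]
      apply Finset.prod_congr rfl
      intro m hm
      exact (hR m (List.mem_toFinset.1 hm)).1
    rw [h2] at h1
    have hrm : (∏ f ∈ s, f).Monic := monic_prod_of_monic _ _ fun f hf => (hs f hf).2.1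
    have hrd : (∏ f ∈ s, f) ∣ toB F := by
      rw [hF]
      exact Finset.prod_dvd_prod_of_dvd _ _ fun f hf => dvd_pow_self _ (hs f hf).2.2.ne'
    refine rad_eq_of_cg h1 (fun r hr => (rows_prodB E (2 ^ t) _ r hr).le)
      (TDeg.of_dvd_monic hFm hFt hrm hrd) ?_
    omega
  · rw [length_prodB, List.map_map, hsum_ms, hdG]
    · congr 1
      apply Finset.sum_congr rfl
      intro m hm
      simp only [Function.comp]
      rw [(hR m (List.mem_toFinset.1 hm)).2]
      omega
    · intro A hA1
      obtain ⟨m, hm, rfl⟩ := List.mem_map.1 hA1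
      intro h0
      have := (hR m hm).2
      rw [h0] at this
      simp at this

end Pool.Agent.BiFac

end

section

/-!
# The basis of the restriction
-/

set_option autoImplicit false

namespace Pool.Agent.BiFac

open Polynomial Pool.Agent.TreeRAM

variable {K : Type} [Field K]

/-- The rows of the transposed matrix. -/
private def rbA (k : ℕ) (U : List (Dat K)) : List (List K) := transB k (U.map fun u => u.2.2)

private theorem rb_eq [DecidableEq K] (k : ℕ) (U : List (Dat K)) :
    restBasis k U = pick (elimN U.length (rbA k U)) (rbA k U) := rfl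

private theorem rb_len (k : ℕ) (U : List (Dat K)) : (rbA k U).length = k := length_transB _ _

private theorem rb_rows (k : ℕ) (U : List (Dat K)) : ∀ r ∈ rbA k U, r.length = U.length := by
  intro r hr
  have := rows_transB _ _ r hr
  rwa [List.length_map] at this

private theorem rb_vec (k : ℕ) (U : List (Dat K)) {l : ℕ} (hl : l < k) (i : Fin U.length) :
    vec ((rbA k U).getD l []) i = famB U l i := by
  unfold vec rbA famB
  rw [getD_transB _ _ hl]
  unfold vec
  congr 1
  rw [List.getD_eq_getElem _ _ (by rw [List.length_map]; exact i.2), List.getElem_map]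
  rfl

theorem restBasis_length [DecidableEq K] (k : ℕ) (U : List (Dat K)) :
    ∀ b ∈ restBasis k U, b.length = U.length := by
  intro b hb
  rw [rb_eq] at hb
  exact rb_rows k U b (LK.mem_of_pick hb)

theorem restBasis_le [DecidableEq K] (k : ℕ) (U : List (Dat K)) :
    (restBasis k U).length ≤ U.length := by
  rw [rb_eq]
  exact length_pick_elimN _ _

private theorem rb_lincomb (W : List (List K)) (c : Fin W.length → K) (j : ℕ) :
    vec (lincomb (List.ofFn c) W) j = ∑ l, c l * vec (W.get l) j := by
  rw [LK.vec_lincomb_sum (le_refl _), Finset.sum_range]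
  refine Finset.sum_congr rfl (fun l _ => ?_)
  congr 1
  · unfold vec
    rw [List.getD_eq_getElem _ _ (by rw [List.length_ofFn]; exact l.2), List.getElem_ofFn]
  · rw [List.getD_eq_getElem _ _ l.2]
    rfl

theorem restBasis_indep [DecidableEq K] (k : ℕ) (U : List (Dat K)) :
    LinearIndependent K (fun (l : Fin (restBasis k U).length) (i : Fin U.length) =>
      vec ((restBasis k U).get l) i) := by
  rw [Fintype.linearIndependent_iff]
  intro g hg l
  have h := elimN_indep U.length (rbA k U) (List.ofFn g) (by rw [List.length_ofFn]; rfl)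
    (fun j hj => by
      refine (rb_lincomb (restBasis k U) g j).trans ?_
      have h2 := congrFun hg ⟨j, hj⟩
      simp only [Finset.sum_apply, Pi.smul_apply, smul_eq_mul, Pi.zero_apply] at h2
      exact h2)
  exact h _ (List.mem_ofFn.2 ⟨l, rfl⟩)

theorem restBasis_mem [DecidableEq K] (k : ℕ) (U : List (Dat K))
    (l : Fin (restBasis k U).length) :
    ∃ l' < k, ∀ i : Fin U.length, vec ((restBasis k U).get l) i = famB U l' i := by
  have h : (restBasis k U).get l ∈ restBasis k U := List.get_mem _ _
  obtain ⟨l', hl', he⟩ := List.mem_iff_getElem.1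
    (LK.mem_of_pick (o := elimN U.length (rbA k U)) (A := rbA k U) h)
  have hk : l' < k := by rw [← rb_len k U]; exact hl'
  refine ⟨l', hk, fun i => ?_⟩
  rw [← rb_vec k U hk i, List.getD_eq_getElem _ _ hl', he]

theorem restBasis_span [DecidableEq K] (k : ℕ) (U : List (Dat K)) {l' : ℕ} (hl : l' < k) :
    ∃ c : Fin (restBasis k U).length → K,
      ∀ i : Fin U.length, famB U l' i = ∑ l, c l * vec ((restBasis k U).get l) i := by
  classical
  have hlen : l' < (elimN U.length (rbA k U)).length := by rw [length_elimN, rb_len]; exact hl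
  have hlA : l' < (rbA k U).length := by rw [rb_len]; exact hl
  have h0 : (elimN U.length (rbA k U))[l']? = some ((elimN U.length (rbA k U))[l']) :=
    List.getElem?_eq_getElem hlen
  cases ho : (elimN U.length (rbA k U))[l'] with
  | some c =>
    rw [ho] at h0
    obtain ⟨h1, h2⟩ := elimN_some h0
    refine ⟨fun l => vec c l, fun i => ?_⟩
    rw [← rb_vec k U hl i, h2 i i.2]
    have h3 := LK.vec_lincomb_sum (c := c) (R := restBasis k U) (le_refl _) i
    rw [Finset.sum_range] at h3
    refine Eq.trans h3 (Finset.sum_congr rfl (fun l _ => ?_))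
    congr 1
    rw [List.getD_eq_getElem _ _ l.2]
    rfl
  | none =>
    rw [ho] at h0
    have hm : (rbA k U)[l'] ∈ restBasis k U := by
      rw [rb_eq]
      exact LK.mem_pick.2 ⟨l', h0, List.getElem?_eq_getElem hlA⟩
    obtain ⟨m, hm1, hm2⟩ := List.mem_iff_getElem.1 hm
    refine ⟨fun l => if l = ⟨m, hm1⟩ then 1 else 0, fun i => ?_⟩
    simp only [ite_mul, one_mul, zero_mul, Finset.sum_ite_eq', Finset.mem_univ, if_true]
    rw [← rb_vec k U hl i, List.getD_eq_getElem _ _ hlA, ← hm2]
    rfl

end Pool.Agent.BiFac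

end

section

/-!
# The total size of a list of data
-/

set_option autoImplicit false

namespace Pool.Agent.BiFac

open Polynomial Pool.Agent.TreeRAM

variable {K : Type} [Field K]

/-- The total size of the modular factors in a list of data. -/
def totD (U : List (Dat K)) : ℕ := tot (U.map Prod.fst)

end Pool.Agent.BiFac

end

section

/-!
# The window space: the data of the modular factors and the basis
-/

set_option autoImplicit false

namespace Pool.Agent.BiFac

open Polynomial Pool.Agent.TreeRAM

variable {K : Type} [Field K]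

/-! ### Zipped lists of data -/

theorem ws_length_sqData {Fs : List (List (List K))} {ms : List ℕ} (B : List (List K))
    (h : ms.length = Fs.length) : (sqData Fs ms B).length = Fs.length := by
  unfold sqData
  rw [List.length_zip, List.length_zip, length_transB, h, min_self, min_self]

theorem ws_map_fst {Fs : List (List (List K))} {ms : List ℕ} (B : List (List K))
    (h : ms.length = Fs.length) : (sqData Fs ms B).map Prod.fst = Fs := by
  unfold sqData
  refine List.map_fst_zip ?_
  rw [List.length_zip, length_transB, h, min_self]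

theorem ws_getD {Fs : List (List (List K))} {ms : List ℕ} {B : List (List K)}
    (h : ms.length = Fs.length) {i : ℕ} (hi : i < Fs.length) (d : Dat K) :
    (sqData Fs ms B).getD i d = (Fs.getD i [], ms.getD i 0, (transB Fs.length B).getD i []) := by
  unfold sqData
  have h1 : i < (Fs.zip (ms.zip (transB Fs.length B))).length := by
    rw [List.length_zip, List.length_zip, length_transB, h, min_self, min_self]
    exact hi
  rw [List.getD_eq_getElem _ _ h1, List.getElem_zip, List.getElem_zip,
    List.getD_eq_getElem _ _ hi, List.getD_eq_getElem _ _ (by rw [h]; exact hi),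
    List.getD_eq_getElem _ _ (by rw [length_transB]; exact hi)]

theorem ws_get {Fs : List (List (List K))} {ms : List ℕ} {B : List (List K)}
    (h : ms.length = Fs.length) (i : Fin (sqData Fs ms B).length) :
    (sqData Fs ms B).get i = (Fs.getD i [], ms.getD i 0, (transB Fs.length B).getD i []) := by
  have hi : (i : ℕ) < Fs.length := lt_of_lt_of_eq i.2 (ws_length_sqData B h)
  rw [← ws_getD h hi ([], 0, []), List.getD_eq_getElem _ _ i.2]
  rfl

/-! ### The modular factors -/

theorem ws_isCoprime {f g : K[X]} (hf : Irreducible f) (hg : Irreducible g) (hfm : f.Monic)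
    (hgm : g.Monic) (hne : f ≠ g) : IsCoprime f g := by
  refine (hf.coprime_iff_not_dvd).2 fun hd => ?_
  exact hne (eq_of_monic_of_associated hfm hgm (hf.associated_of_dvd hg hd))

theorem ws_tot_le {gs : List (List K)} (h : ∀ g ∈ gs, MP g ∧ Irreducible (toP g)) :
    (gs.map toP).prod.Monic ∧ tot gs ≤ 3 * (gs.map toP).prod.natDegree := by
  induction gs with
  | nil => simp [tot]
  | cons g gs ih =>
    obtain ⟨h1, h2⟩ := ih fun a ha => h a (List.mem_cons_of_mem _ ha)
    obtain ⟨h3, h4⟩ := h g List.mem_cons_self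
    rw [List.map_cons, List.prod_cons]
    refine ⟨h3.monic.mul h1, ?_⟩
    rw [h3.monic.natDegree_mul h1, tot_cons]
    have h5 := h3.len
    have h6 := h4.natDegree_pos
    omega

theorem ws_three_le {gs : List (List K)} (h : ∀ g ∈ gs, MP g ∧ Irreducible (toP g)) :
    3 * gs.length ≤ tot gs := by
  induction gs with
  | nil => simp [tot]
  | cons g gs ih =>
    have h1 := ih fun a ha => h a (List.mem_cons_of_mem _ ha)
    obtain ⟨h3, h4⟩ := h g List.mem_cons_self
    rw [tot_cons, List.length_cons]
    have h5 := h3.len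
    have h6 := h4.natDegree_pos
    omega

theorem SqHyp.ws_gs [DecidableEq K] {E : MEnv K} {t : ℕ} {G : List (List K)}
    {zs : List (List K × ℕ)} (h : SqHyp E t G zs) :
    (∀ g ∈ zs.map Prod.fst, MP g ∧ Irreducible (toP g)) ∧
    (zs.map Prod.fst).Pairwise (fun g g' => IsCoprime (toP g) (toP g')) ∧
    red (toB G) = ((zs.map Prod.fst).map toP).prod ∧
    tot (zs.map Prod.fst) ≤ 3 * (toB G).natDegree := by
  have h1 : ∀ g ∈ zs.map Prod.fst, MP g ∧ Irreducible (toP g) := by
    intro g hg
    obtain ⟨z, hz, rfl⟩ := List.mem_map.1 hg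
    exact h.mp z hz
  have h2 : red (toB G) = ((zs.map Prod.fst).map toP).prod := by
    rw [h.prod, List.map_map]
    rfl
  refine ⟨h1, ?_, h2, ?_⟩
  · have h3 : ((zs.map Prod.fst).map toP).Nodup := by
      rw [List.map_map]
      exact h.nodup
    unfold List.Nodup at h3
    rw [List.pairwise_map] at h3
    refine h3.imp_of_mem fun {g g'} hg hg' hne => ?_
    exact ws_isCoprime (h1 g hg).2 (h1 g' hg').2 (h1 g hg).1.monic (h1 g' hg').1.monic hne
  · have h3 := (ws_tot_le h1).2
    rw [← h2, natDegree_red h.monic] at h3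
    exact h3

/-- the lifted factors -/
theorem SqHyp.ws_lift [DecidableEq K] {E : MEnv K} {t : ℕ} {G : List (List K)}
    {zs : List (List K × ℕ)} (h : SqHyp E t G zs) :
    (lift E t G (zs.map Prod.fst)).length = zs.length ∧
    (∀ i < zs.length, ML (2 ^ t) ((lift E t G (zs.map Prod.fst)).getD i []) ∧
      ((lift E t G (zs.map Prod.fst)).getD i []).length = (zs.getD i ([], 0)).1.length ∧
      red (toB ((lift E t G (zs.map Prod.fst)).getD i [])) = toP (zs.getD i ([], 0)).1) ∧
    Cg (2 ^ t) (toB G) ((lift E t G (zs.map Prod.fst)).map toB).prod := by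
  obtain ⟨h1, h2, h3, h4⟩ := h.ws_gs
  have h5 : Fits E (4 * (G.length + tot (zs.map Prod.fst))) (2 ^ t) := by
    refine h.fits.mono ?_
    have := h.len
    omega
  obtain ⟨h6, h7⟩ := lift_spec h.good h5 h.monic h.len (fun g hg => (h1 g hg).1) h2 h3
  refine ⟨by rw [length_lift, List.length_map], ?_, h7⟩
  intro i hi
  have h8 : i < (lift E t G (zs.map Prod.fst)).length := by
    rw [length_lift, List.length_map]
    exact hi
  have h9 : i < (zs.map Prod.fst).length := by
    rw [List.length_map]
    exact hi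
  have h10 := (List.forall₂_iff_get.1 h6).2 i h8 h9
  rw [List.getD_eq_getElem _ _ h8, List.getD_eq_getElem _ _ hi]
  simpa using h10

theorem SqHyp.datOk [DecidableEq K] {E : MEnv K} {t : ℕ} {G : List (List K)}
    {zs : List (List K × ℕ)} (h : SqHyp E t G zs) (th : List K) :
    DatOk E t (toB G) (sqDat E t G zs th) ∧ (sqDat E t G zs th).length = zs.length ∧
    (∀ i < zs.length, red (toB ((sqDat E t G zs th).getD i ([], 0, [])).1) =
      toP (zs.getD i ([], 0)).1 ∧
      ((sqDat E t G zs th).getD i ([], 0, [])).2.1 = (zs.getD i ([], 0)).2) := by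
  obtain ⟨h1, h2, h3⟩ := h.ws_lift
  unfold sqDat
  generalize winBasis E t (G.length - 1) (lift E t G (zs.map Prod.fst)) th = B
  generalize lift E t G (zs.map Prod.fst) = Fs at *
  have hms : (zs.map Prod.snd).length = Fs.length := by rw [List.length_map, h1]
  have hlen : (sqData Fs (zs.map Prod.snd) B).length = zs.length := by
    rw [ws_length_sqData B hms, h1]
  have hfam : ∀ i : Fin (sqData Fs (zs.map Prod.snd) B).length,
      famP (sqData Fs (zs.map Prod.snd) B) i = toB (Fs.getD i []) := by
    intro i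
    unfold famP
    rw [ws_get hms i]
  have hlt : ∀ i : Fin (sqData Fs (zs.map Prod.snd) B).length, (i : ℕ) < zs.length :=
    fun i => lt_of_lt_of_eq i.2 hlen
  refine ⟨⟨h.good, ⟨h.monic, h.tdeg, h.sep, ?_, ?_, ?_, by positivity⟩, ?_, ?_, h.fits⟩,
    hlen, ?_⟩
  · intro i
    rw [hfam]
    exact (h2 i (hlt i)).1.monic
  · intro i
    rw [hfam, (h2 i (hlt i)).2.2]
    refine (h.mp _ ?_).2
    rw [List.getD_eq_getElem _ _ (hlt i)]
    exact List.getElem_mem _
  · have h4 : ∏ i, famP (sqData Fs (zs.map Prod.snd) B) i = (Fs.map toB).prod := by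
      conv_rhs => rw [← ws_map_fst B hms, List.map_map]
      rw [← Fin.prod_univ_fun_getElem]
      rfl
    rw [h4]
    exact h3
  · intro u hu
    have h4 : u.1 ∈ Fs := by
      rw [← ws_map_fst B hms]
      exact List.mem_map_of_mem hu
    obtain ⟨i, hi, h5⟩ := List.getElem_of_mem h4
    have h6 := (h2 i (by omega)).1
    rw [List.getD_eq_getElem _ _ hi, h5] at h6
    exact h6
  · have := h.big
    omega
  · intro i hi
    rw [ws_getD hms (by omega)]
    refine ⟨(h2 i hi).2.2, ?_⟩
    have h4 : i < (zs.map Prod.snd).length := by rw [List.length_map]; exact hi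
    show (zs.map Prod.snd).getD i 0 = (zs.getD i ([], 0)).2
    rw [List.getD_eq_getElem _ _ h4, List.getD_eq_getElem _ _ hi, List.getElem_map]

/-! ### The basis of the window space -/

theorem ws_vec_lincomb_ofFn {n : ℕ} (μ : Fin n → K) {A : List (List K)} (hA : A.length = n)
    (j : ℕ) : vec (lincomb (List.ofFn μ) A) j = ∑ i : Fin n, μ i * vec (A.getD i []) j := by
  rw [LK.vec_lincomb_sum (b := n) hA.le, Finset.sum_range]
  refine Finset.sum_congr rfl fun i _ => ?_
  congr 1
  unfold vec
  rw [List.getD_eq_getElem _ _ (by rw [List.length_ofFn]; exact i.2)]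
  simp

theorem ws_vec_window (s : List K) (m ρ : ℕ) {j : ℕ} (hj : j < ρ) :
    vec ((s.drop m).take ρ) j = vec s (m + j) := by
  unfold vec
  rw [List.getD_eq_getElem?_getD, List.getD_eq_getElem?_getD, List.getElem?_take, if_pos hj,
    List.getElem?_drop]

theorem ws_length_winRows (E : MEnv K) (t n : ℕ) (Fs : List (List (List K))) (th : List K) :
    (winRows E t n Fs th).length = Fs.length := by
  unfold winRows
  rw [List.length_map, length_traces]

/-- The entries of the rows are the coefficients of the traces. -/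
theorem ws_vec_winRows {E : MEnv K} (hE : E.Good) {t n : ℕ} {Fs : List (List (List K))}
    (th : List K) (hn : n + (Fs.length + 1) ≤ 2 ^ t) (hf : Fits E (64 * (n + tot Fs)) (2 ^ t))
    (hFs : ∀ P ∈ Fs, (toB P).Monic ∧ P.length = (toB P).natDegree + 1) {i : ℕ}
    (hi : i < Fs.length) {j : ℕ} (hj : j < Fs.length + 1) :
    vec ((winRows E t n Fs th).getD i []) j =
      (tau (toB (Fs.getD i [])) (hpoly (thC n (2 ^ t - n - (Fs.length + 1)) th))).coeff
        (2 ^ t - n - (Fs.length + 1) + n + j) := by
  set D := 2 ^ t - n - (Fs.length + 1) with hD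
  have h0 : toB (chunks n (D + 1) th) = hpoly (thC n D th) := toB_chunks th
  have h1 := traces_spec hE (w := 2 ^ t) (by positivity) (h := chunks n (D + 1) th) (Ps := Fs)
    (by rw [length_chunks]; exact hf) hFs
  have h2 : i < (traces E (2 ^ t) (chunks n (D + 1) th) Fs).length := by
    rw [length_traces]
    exact hi
  have h3 := (List.forall₂_iff_get.1 h1).2 i h2 hi
  rw [h0] at h3
  have h4 : i < (winRows E t n Fs th).length := by
    rw [ws_length_winRows]
    exact hi
  have h5 : (winRows E t n Fs th).getD i [] =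
      (((traces E (2 ^ t) (chunks n (D + 1) th) Fs).get ⟨i, h2⟩).drop (D + n)).take
        (Fs.length + 1) := by
    unfold winRows at h4 ⊢
    rw [List.getD_eq_getElem _ _ h4, List.getElem_map]
    rfl
  rw [h5, ws_vec_window _ _ _ hj, vec_eq_coeff]
  have h6 := (X_pow_dvd_iff.1 h3) (D + n + j) (by omega)
  rw [coeff_sub, sub_eq_zero] at h6
  rw [h6, List.getD_eq_getElem _ _ hi]
  rfl

theorem ws_inW_iff {r n D ρ : ℕ} {P : Fin r → K[X][X]} {g : K[X][X]} {A : List (List K)}
    (hA : A.length = r)
    (h : ∀ i : Fin r, ∀ j < ρ, vec (A.getD i []) j = (tau (P i) g).coeff (D + n + j))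
    (μ : Fin r → K) : InW P n D ρ g μ ↔ ∀ j < ρ, vec (lincomb (List.ofFn μ) A) j = 0 := by
  unfold InW Smu
  refine forall_congr' fun j => forall_congr' fun hj => ?_
  rw [finsetSum_coeff, ws_vec_lincomb_ofFn μ hA]
  have h1 : ∑ i, (C (μ i) * tau (P i) g).coeff (D + n + j) =
      ∑ i, μ i * vec (A.getD i []) j := by
    refine Finset.sum_congr rfl fun i _ => ?_
    rw [coeff_C_mul, h i j hj]
  rw [h1]

theorem ws_ker_iff [DecidableEq K] {r ρ : ℕ} {A : List (List K)} (hA : A.length = r)
    (μ : Fin r → K) : (∀ j < ρ, vec (lincomb (List.ofFn μ) A) j = 0) ↔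
      ∃ c : Fin (leftKer ρ A).length → K,
        ∀ i : Fin r, μ i = ∑ l : Fin (leftKer ρ A).length,
          c l * vec ((leftKer ρ A).getD l []) i := by
  constructor
  · intro h
    obtain ⟨c, -, hc⟩ := leftKer_span (by rw [List.length_ofFn, hA]) h
    refine ⟨fun l => vec c l, fun i => ?_⟩
    have h1 := hc i
    rw [LK.vec_lincomb_sum (b := (leftKer ρ A).length) le_rfl, Finset.sum_range] at h1
    rw [← h1]
    unfold vec
    rw [List.getD_eq_getElem _ _ (by rw [List.length_ofFn]; exact i.2)]
    simp
  · rintro ⟨c, hc⟩ j hj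
    rw [ws_vec_lincomb_ofFn μ hA]
    have h1 : ∀ l : Fin (leftKer ρ A).length,
        ∑ i : Fin r, vec ((leftKer ρ A).getD l []) i * vec (A.getD i []) j = 0 := by
      intro l
      have h2 : (leftKer ρ A).getD l [] ∈ leftKer ρ A := by
        rw [List.getD_eq_getElem _ _ l.2]
        exact List.getElem_mem _
      have h3 := (leftKer_mem h2).2 j hj
      rw [LK.vec_lincomb_sum (b := r) hA.le, Finset.sum_range] at h3
      exact h3
    calc ∑ i, μ i * vec (A.getD i []) j
        = ∑ i : Fin r, ∑ l : Fin (leftKer ρ A).length,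
            c l * (vec ((leftKer ρ A).getD l []) i * vec (A.getD i []) j) := by
          refine Finset.sum_congr rfl fun i _ => ?_
          rw [hc i, Finset.sum_mul]
          refine Finset.sum_congr rfl fun l _ => ?_
          ring
      _ = ∑ l : Fin (leftKer ρ A).length, ∑ i : Fin r,
            c l * (vec ((leftKer ρ A).getD l []) i * vec (A.getD i []) j) := Finset.sum_comm
      _ = 0 := by
          refine Finset.sum_eq_zero fun l _ => ?_
          rw [← Finset.mul_sum, h1 l, mul_zero]

theorem SqHyp.basis [DecidableEq K] {E : MEnv K} {t : ℕ} {G : List (List K)}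
    {zs : List (List K × ℕ)} (h : SqHyp E t G zs) (th : List K) :
    (∀ b ∈ sqBas E t G zs th, b.length = zs.length) ∧
    (∀ l < (sqBas E t G zs th).length, ∀ i : Fin (sqDat E t G zs th).length,
      famB (sqDat E t G zs th) l i = vec ((sqBas E t G zs th).getD l []) i) ∧
    ∀ μ : Fin (sqDat E t G zs th).length → K,
      InW (famP (sqDat E t G zs th)) (toB G).natDegree
        (2 ^ t - (toB G).natDegree - (zs.length + 1)) (zs.length + 1)
        (hpoly (thC (toB G).natDegree (2 ^ t - (toB G).natDegree - (zs.length + 1)) th)) μ ↔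
      ∃ c : Fin (sqBas E t G zs th).length → K,
        ∀ i, μ i = ∑ l, c l * famB (sqDat E t G zs th) l i := by
  obtain ⟨h1, h2, -⟩ := h.ws_lift
  obtain ⟨hg1, -, -, hg4⟩ := h.ws_gs
  have hn : G.length - 1 = (toB G).natDegree := by
    have := h.len
    omega
  have hbig := h.big
  have htot : tot (lift E t G (zs.map Prod.fst)) ≤ 3 * (toB G).natDegree := by
    rw [tot_lift_eq]
    exact hg4
  have hle : zs.length ≤ (toB G).natDegree := by
    have := ws_three_le hg1
    rw [List.length_map] at this
    omega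
  have hfit : Fits E (64 * ((toB G).natDegree + tot (lift E t G (zs.map Prod.fst)))) (2 ^ t) := by
    refine h.fits.mono ?_
    omega
  unfold sqDat sqBas winBasis
  rw [hn]
  generalize (toB G).natDegree = n at *
  generalize lift E t G (zs.map Prod.fst) = Fs at *
  have hms : (zs.map Prod.snd).length = Fs.length := by rw [List.length_map, h1]
  have hFs : ∀ P ∈ Fs, (toB P).Monic ∧ P.length = (toB P).natDegree + 1 := by
    intro P hP
    obtain ⟨i, hi, h5⟩ := List.getElem_of_mem hP
    have h6 := (h2 i (by omega)).1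
    rw [List.getD_eq_getElem _ _ hi, h5] at h6
    exact ⟨h6.monic, h6.len⟩
  clear h2
  rw [← h1] at hle ⊢
  have hA := ws_length_winRows E t n Fs th
  have hent : ∀ i : ℕ, i < Fs.length → ∀ j < Fs.length + 1, _ := fun i hi j hj =>
    ws_vec_winRows h.good th (by omega) hfit hFs hi hj
  generalize winRows E t n Fs th = A at *
  have hfam : ∀ l : ℕ, ∀ i : Fin (sqData Fs (zs.map Prod.snd) (leftKer (Fs.length + 1) A)).length,
      famB (sqData Fs (zs.map Prod.snd) (leftKer (Fs.length + 1) A)) l i =
        vec ((leftKer (Fs.length + 1) A).getD l []) i := by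
    intro l i
    unfold famB
    rw [ws_get hms i]
    unfold vec
    exact getD_transB _ _ (lt_of_lt_of_eq i.2 (ws_length_sqData _ hms)) _
  refine ⟨fun b hb => by rw [(leftKer_mem hb).1, hA], fun l _ i => hfam l i, fun μ => ?_⟩
  have hlen := ws_length_sqData (leftKer (Fs.length + 1) A) hms
  rw [ws_inW_iff (A := A) (by rw [hA, hlen]), ws_ker_iff (by rw [hA, hlen])]
  · simp only [hfam]
  · intro i j hj
    rw [hent i (lt_of_lt_of_eq i.2 hlen) j hj]
    unfold famP
    rw [ws_get hms i]

end Pool.Agent.BiFac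

end

section

/-!
# Cost of the first stage and of classes
-/

set_option autoImplicit false
set_option synthInstance.maxSize 10000

namespace Pool.Agent.BiFac

open Polynomial Pool.Agent.TreeRAM

variable {K : Type} [Field K]

/-! ### Sizes of classes -/

omit [Field K] in
private theorem ca_sum_ite [DecidableEq K] (x : K) (c : ℕ) {ks : List K} (h : ks.Nodup) :
    (ks.map (fun k => if x = k then c else 0)).sum ≤ c := by
  induction ks with
  | nil => simp
  | cons k ks ih =>
    rw [List.nodup_cons] at h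
    rw [List.map_cons, List.sum_cons]
    by_cases hx : x = k
    · subst hx
      rw [if_pos rfl]
      have : (ks.map (fun k => if x = k then c else 0)).sum = 0 := by
        apply List.sum_eq_zero
        intro y hy
        rw [List.mem_map] at hy
        obtain ⟨k, hk, rfl⟩ := hy
        rw [if_neg]
        rintro rfl
        exact h.1 hk
      omega
    · rw [if_neg hx, zero_add]
      exact ih h.2

omit [Field K] in
private theorem ca_sum_filter [DecidableEq K] {α : Type} {ks : List K} (h : ks.Nodup)
    (Z : List (K × α)) (g : K × α → ℕ) :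
    (ks.map (fun k => ((Z.filter (fun z => decide (z.1 = k))).map g).sum)).sum ≤
      (Z.map g).sum := by
  induction Z with
  | nil =>
    simp only [List.filter_nil, List.map_nil, List.sum_nil, List.map_const', List.sum_replicate,
      smul_eq_mul, mul_zero, le_refl]
  | cons z Z ih =>
    have e : ∀ k, (((z :: Z).filter (fun z => decide (z.1 = k))).map g).sum =
        (if z.1 = k then g z else 0) +
          ((Z.filter (fun z => decide (z.1 = k))).map g).sum := by
      intro k
      by_cases hz : z.1 = k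
      · rw [List.filter_cons_of_pos (by simpa using hz), if_pos hz, List.map_cons, List.sum_cons]
      · rw [List.filter_cons_of_neg (by simpa using hz), if_neg hz, zero_add]
    simp only [e]
    rw [List.sum_map_add, List.map_cons, List.sum_cons]
    exact Nat.add_le_add (ca_sum_ite _ _ h) ih

private theorem ca_sum_zip {α β : Type} (w : List β) (R : List α) (f : α → ℕ) :
    ((w.zip R).map (fun z => f z.2)).sum ≤ (R.map f).sum := by
  induction w generalizing R with
  | nil => simp
  | cons a w ih =>
    cases R with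
    | nil => simp
    | cons b R =>
      simp only [List.zip_cons_cons, List.map_cons, List.sum_cons]
      exact Nat.add_le_add_left (ih R) _

private theorem ca_classes [DecidableEq K] {α : Type} (w : List K) (R : List α) (f : α → ℕ) :
    ((classesBy w R).map (fun c => (c.map f).sum)).sum ≤ (R.map f).sum := by
  refine le_trans ?_ (ca_sum_zip w R f)
  have h := ca_sum_filter (List.nodup_dedup w) (w.zip R) (fun z => f z.2)
  unfold classesBy sel
  simp only [List.map_map, Function.comp_def] at h ⊢
  exact h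

omit [Field K] in
theorem totD_eq (U : List (Dat K)) : totD U = (U.map (fun u => u.1.length + 1)).sum := by
  unfold totD tot
  rw [List.map_map]
  rfl

theorem sum_totD_classesBy [DecidableEq K] (w : List K) (U : List (Dat K)) :
    ((classesBy w U).map totD).sum ≤ totD U ∧
    ((classesBy w U).map List.length).sum ≤ U.length ∧ (classesBy w U).length ≤ w.length := by
  refine ⟨?_, ?_, ?_⟩
  · have h := ca_classes w U (fun u => u.1.length + 1)
    rw [totD_eq]
    refine le_trans (le_of_eq ?_) h
    congr 1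
    exact List.map_congr_left fun c _ => totD_eq c
  · have h := ca_classes w U (fun _ => 1)
    simp only [List.map_const', List.sum_replicate, smul_eq_mul, mul_one] at h
    exact h
  · unfold classesBy
    rw [List.length_map]
    exact (List.dedup_sublist w).length_le

omit [Field K] in
theorem length_le_totD (U : List (Dat K)) : U.length ≤ totD U := by
  unfold totD tot
  rw [List.map_map]
  induction U with
  | nil => simp
  | cons u U ih =>
    simp only [List.map_cons, List.sum_cons, List.length_cons, Function.comp_def] at ih ⊢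
    omega

/-! ### The product of a class -/

theorem clsProd_ex : ∃ c, ∀ (K : Type) [Field K],
    Comp K (fun z : MEnv K × ℕ × List (Dat K) => clsProd z.1 z.2.1 z.2.2) c
      (fun z => (totD z.2.2 + 1) * (2 ^ z.2.1 + 1) * (z.1.1 + 1) *
        (Nat.clog 2 z.2.2.length + 1)) :=
  ⟨_, fun K _ => by
    have h1 : Comp K (fun z : MEnv K × ℕ × List (Dat K) =>
        prodB z.1 (2 ^ z.2.1) (z.2.2.map Prod.fst)) _ _ := inferInstance
    refine (h1.congr (g := fun z => clsProd z.1 z.2.1 z.2.2) fun z => rfl).bigO 3 (fun z => ?_)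
    obtain ⟨E, t, U⟩ := z
    simp only [zero_add, List.map_const', List.sum_replicate, smul_eq_mul, mul_one,
      List.length_map]
    have hU := length_le_totD U
    change 2 ^ t + U.length + (totD U + 1) * (2 ^ t + 1) * (E.1 + 1) *
      (Nat.clog 2 U.length + 1) + 1 ≤
      3 * ((totD U + 1) * (2 ^ t + 1) * (E.1 + 1) * (Nat.clog 2 U.length + 1) + 1)
    have e1 : 2 ^ t + U.length ≤ (totD U + 1) * (2 ^ t + 1) := by nlinarith [Nat.zero_le (2 ^ t)]
    have e2 : (totD U + 1) * (2 ^ t + 1) ≤
        (totD U + 1) * (2 ^ t + 1) * (E.1 + 1) * (Nat.clog 2 U.length + 1) := by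
      rw [mul_assoc ((totD U + 1) * (2 ^ t + 1))]
      exact Nat.le_mul_of_pos_right _ (by positivity)
    omega⟩

noncomputable def clsProdCd : Cd := clsProd_ex.choose

instance compClsProd {K : Type} [Field K] {α : Type} [Enc K α] {E : α → MEnv K} {t : α → ℕ}
    {U : α → List (Dat K)} {c1 c2 c3 : Cd} {T1 T2 T3 : α → ℕ} [h1 : Comp K E c1 T1]
    [h2 : Comp K t c2 T2] [h3 : Comp K U c3 T3] :
    Comp K (fun x => clsProd (E x) (t x) (U x)) (clsProdCd.comp (c1.pair (c2.pair c3)))
      (fun x => T1 x + (T2 x + T3 x) +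
        (totD (U x) + 1) * (2 ^ t x + 1) * ((E x).1 + 1) * (Nat.clog 2 (U x).length + 1)) :=
  (clsProd_ex.choose_spec K).comp (Comp.pair (h := h1) (h' := Comp.pair (h := h2) (h' := h3)))

theorem length_clsProd_le (E : MEnv K) (t : ℕ) (U : List (Dat K)) :
    (clsProd E t U).length ≤ totD U + 1 := length_prodB_le E (2 ^ t) (U.map Prod.fst)

theorem tot_clsProd (E : MEnv K) (t : ℕ) (U : List (Dat K)) :
    tot (clsProd E t U) = (clsProd E t U).length * (2 ^ t + 1) :=
  tot_of_rows (rows_prodB E (2 ^ t) (U.map Prod.fst))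

theorem isRes_ex : ∃ c, ∀ (K : Type) [Field K] [DecidableEq K],
    Comp K (fun z : MEnv K × ℕ × List (Dat K) => isRes z.1 z.2.1 z.2.2) c
      (fun z => (totD z.2.2 + 1) * (2 ^ z.2.1 + 1) * (z.1.1 + 1) *
        (Nat.clog 2 z.2.2.length + 1)) :=
  ⟨_, fun K _ _ => by
    have h1 : Comp K (fun z : MEnv K × ℕ × List (Dat K) =>
        isTri ((clsProd z.1 z.2.1 z.2.2).length - 1) (clsProd z.1 z.2.1 z.2.2)) _ _ :=
      inferInstance
    refine (h1.congr (g := fun z => isRes z.1 z.2.1 z.2.2) fun z => rfl).bigO 8 (fun z => ?_)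
    obtain ⟨E, t, U⟩ := z
    have hl := length_clsProd_le E t U
    simp only [zero_add, tot_clsProd]
    have e1 : (clsProd E t U).length * (2 ^ t + 1) ≤ (totD U + 1) * (2 ^ t + 1) :=
      Nat.mul_le_mul_right _ hl
    have e3 : (totD U + 1) ≤ (totD U + 1) * (2 ^ t + 1) :=
      Nat.le_mul_of_pos_right _ (Nat.succ_pos _)
    have e2 : (totD U + 1) * (2 ^ t + 1) ≤
        (totD U + 1) * (2 ^ t + 1) * (E.1 + 1) * (Nat.clog 2 U.length + 1) := by
      rw [mul_assoc ((totD U + 1) * (2 ^ t + 1))]
      exact Nat.le_mul_of_pos_right _ (by positivity)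
    omega⟩

noncomputable def isResCd : Cd := isRes_ex.choose

instance compIsRes {K : Type} [Field K] [DecidableEq K] {α : Type} [Enc K α] {E : α → MEnv K}
    {t : α → ℕ} {U : α → List (Dat K)} {c1 c2 c3 : Cd} {T1 T2 T3 : α → ℕ} [h1 : Comp K E c1 T1]
    [h2 : Comp K t c2 T2] [h3 : Comp K U c3 T3] :
    Comp K (fun x => isRes (E x) (t x) (U x)) (isResCd.comp (c1.pair (c2.pair c3)))
      (fun x => T1 x + (T2 x + T3 x) +
        (totD (U x) + 1) * (2 ^ t x + 1) * ((E x).1 + 1) * (Nat.clog 2 (U x).length + 1)) :=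
  (isRes_ex.choose_spec K).comp (Comp.pair (h := h1) (h' := Comp.pair (h := h2) (h' := h3)))

private theorem padAll_ex : ∃ c, ∀ (K : Type) [Field K],
    Comp K (fun P : List (List K) => P.map (padTo P.length)) c
      (fun P => (P.length + 1) ^ 2) :=
  ⟨_, fun K _ => by
    have h1 : Comp K (fun P : List (List K) => P.map (fun r => padTo P.length r)) _ _ :=
      inferInstance
    refine (h1.congr (g := fun P => P.map (padTo P.length)) fun z => rfl).bigO 4 (fun P => ?_)
    simp only [zero_add, add_zero, List.map_const', List.sum_replicate, smul_eq_mul]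
    nlinarith⟩

theorem clsOut_ex : ∃ c, ∀ (K : Type) [Field K],
    Comp K (fun z : MEnv K × ℕ × List (Dat K) => clsOut z.1 z.2.1 z.2.2) c
      (fun z => (totD z.2.2 + 1) * (2 ^ z.2.1 + totD z.2.2 + 1) * (z.1.1 + 1) *
        (Nat.clog 2 z.2.2.length + 1)) := by
  obtain ⟨cp, hp⟩ := padAll_ex
  exact ⟨_, fun K _ => by
    have h0 : Comp K (fun z : MEnv K × ℕ × List (Dat K) => clsProd z.1 z.2.1 z.2.2) _ _ :=
      inferInstance
    have h1 : Comp K (fun z : MEnv K × ℕ × List (Dat K) =>
        (clsProd z.1 z.2.1 z.2.2).map (padTo (clsProd z.1 z.2.1 z.2.2).length)) _ _ :=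
      (hp K).comp h0
    have h2 : Comp K (fun z : MEnv K × ℕ × List (Dat K) =>
        (z.2.2.headD ([], 0, [])).2.1) _ _ := inferInstance
    refine ((Comp.pair (h := h1) (h' := h2)).congr (g := fun z => clsOut z.1 z.2.1 z.2.2)
      fun z => rfl).bigO 8 (fun z => ?_)
    obtain ⟨E, t, U⟩ := z
    have hl := length_clsProd_le E t U
    simp only [zero_add, add_zero]
    have e1 : ((clsProd E t U).length + 1) ^ 2 ≤ (totD U + 2) ^ 2 :=
      Nat.pow_le_pow_left (by omega) 2
    have e3 : (totD U + 2) ^ 2 ≤ 4 * ((totD U + 1) * (2 ^ t + totD U + 1)) := by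
      nlinarith [Nat.zero_le (2 ^ t), Nat.zero_le (totD U * 2 ^ t)]
    have e2 : (totD U + 1) * (2 ^ t + totD U + 1) ≤
        (totD U + 1) * (2 ^ t + totD U + 1) * (E.1 + 1) * (Nat.clog 2 U.length + 1) := by
      rw [mul_assoc ((totD U + 1) * (2 ^ t + totD U + 1))]
      exact Nat.le_mul_of_pos_right _ (by positivity)
    have e4 : (totD U + 1) * (2 ^ t + 1) * (E.1 + 1) * (Nat.clog 2 U.length + 1) ≤
        (totD U + 1) * (2 ^ t + totD U + 1) * (E.1 + 1) * (Nat.clog 2 U.length + 1) := by
      gcongr
      omega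
    omega⟩

noncomputable def clsOutCd : Cd := clsOut_ex.choose

instance compClsOut {K : Type} [Field K] {α : Type} [Enc K α] {E : α → MEnv K} {t : α → ℕ}
    {U : α → List (Dat K)} {c1 c2 c3 : Cd} {T1 T2 T3 : α → ℕ} [h1 : Comp K E c1 T1]
    [h2 : Comp K t c2 T2] [h3 : Comp K U c3 T3] :
    Comp K (fun x => clsOut (E x) (t x) (U x)) (clsOutCd.comp (c1.pair (c2.pair c3)))
      (fun x => T1 x + (T2 x + T3 x) + (totD (U x) + 1) * (2 ^ t x + totD (U x) + 1) *
        ((E x).1 + 1) * (Nat.clog 2 (U x).length + 1)) :=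
  (clsOut_ex.choose_spec K).comp (Comp.pair (h := h1) (h' := Comp.pair (h := h2) (h' := h3)))

/-! ### Lists of classes -/

private theorem ca_sum_le {α : Type} {L : List α} {T f : α → ℕ} {A : ℕ}
    (h : ∀ c ∈ L, T c ≤ (f c + 1) * A) :
    (L.map T).sum ≤ ((L.map f).sum + L.length) * A := by
  induction L with
  | nil => simp
  | cons c L ih =>
    simp only [List.map_cons, List.sum_cons, List.length_cons]
    have h1 := h c (by simp)
    have h2 := ih fun c hc => h c (by simp [hc])
    have e : (f c + (L.map f).sum + (L.length + 1)) * A =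
        (f c + 1) * A + ((L.map f).sum + L.length) * A := by ring
    omega

private theorem ca_le_sum {α : Type} {L : List α} {f : α → ℕ} {c : α} (h : c ∈ L) :
    f c ≤ (L.map f).sum := by
  induction L with
  | nil => simp at h
  | cons a L ih =>
    simp only [List.map_cons, List.sum_cons]
    rcases List.mem_cons.1 h with rfl | h
    · omega
    · have := ih h
      omega

omit [Field K] in
private theorem ca_sum_totD {L : List (List (Dat K))} :
    (L.map (fun c => c.length + 1)).sum ≤ (L.map totD).sum + L.length := by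
  have := ca_sum_le (L := L) (T := fun c => c.length + 1) (f := totD) (A := 1)
    (fun c _ => by have := length_le_totD c; omega)
  simpa using this

omit [Field K] in
private theorem ca_clog {L : List (List (Dat K))} {c : List (Dat K)} (h : c ∈ L) :
    Nat.clog 2 c.length + 1 ≤ Nat.clog 2 ((L.map totD).sum + 1) + 1 := by
  have h1 := ca_le_sum (f := totD) h
  have h2 := length_le_totD c
  exact Nat.succ_le_succ (Nat.clog_mono_right 2 (by omega))

theorem unres_ex : ∃ c, ∀ (K : Type) [Field K] [DecidableEq K],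
    Comp K (fun z : MEnv K × ℕ × List (List (Dat K)) => unres z.1 z.2.1 z.2.2) c
      (fun z => ((z.2.2.map totD).sum + z.2.2.length + 1) * (2 ^ z.2.1 + 1) * (z.1.1 + 1) *
        (Nat.clog 2 ((z.2.2.map totD).sum + 1) + 1)) :=
  ⟨_, fun K _ _ => by
    have h1 : Comp K (fun z : MEnv K × ℕ × List (List (Dat K)) =>
        (z.2.2.filter (fun c => !isRes z.1 z.2.1 c)).flatten) _ _ := inferInstance
    refine (h1.congr (g := fun z => unres z.1 z.2.1 z.2.2) fun z => rfl).bigO 8 (fun z => ?_)
    obtain ⟨E, t, L⟩ := z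
    simp only [zero_add, add_zero]
    set s := (L.map totD).sum with hs
    set A := (2 ^ t + 1) * (E.1 + 1) * (Nat.clog 2 (s + 1) + 1) with hA
    have hA1 : 1 ≤ A := by rw [hA]; exact Nat.succ_le_of_lt (by positivity)
    have e1 : (L.map (fun b => (totD b + 1) * (2 ^ t + 1) * (E.1 + 1) *
        (Nat.clog 2 b.length + 1) + 1)).sum ≤ (s + L.length) * (2 * A) := by
      refine ca_sum_le fun c hc => ?_
      have h2 : (totD c + 1) * (2 ^ t + 1) * (E.1 + 1) * (Nat.clog 2 c.length + 1) ≤
          (totD c + 1) * A := by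
        rw [hA, mul_assoc, mul_assoc, ← mul_assoc (2 ^ t + 1)]
        exact Nat.mul_le_mul_left _ (Nat.mul_le_mul_left _ (ca_clog hc))
      nlinarith
    have e2 : ((L.filter (fun c => !isRes E t c)).map (fun r => r.length + 1)).sum ≤
        s + L.length := by
      refine le_trans ?_ ca_sum_totD
      exact (List.filter_sublist.map _).sum_le_sum (fun _ _ => Nat.zero_le _)
    have e3 : (s + L.length + 1) * (2 ^ t + 1) * (E.1 + 1) * (Nat.clog 2 (s + 1) + 1) =
        (s + L.length + 1) * A := by rw [hA]; ring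
    rw [e3]
    nlinarith [Nat.zero_le ((s + L.length) * A)]⟩

noncomputable def unresCd : Cd := unres_ex.choose

instance compUnres {K : Type} [Field K] [DecidableEq K] {α : Type} [Enc K α] {E : α → MEnv K}
    {t : α → ℕ} {L : α → List (List (Dat K))} {c1 c2 c3 : Cd} {T1 T2 T3 : α → ℕ}
    [h1 : Comp K E c1 T1] [h2 : Comp K t c2 T2] [h3 : Comp K L c3 T3] :
    Comp K (fun x => unres (E x) (t x) (L x)) (unresCd.comp (c1.pair (c2.pair c3)))
      (fun x => T1 x + (T2 x + T3 x) +
        (((L x).map totD).sum + (L x).length + 1) * (2 ^ t x + 1) * ((E x).1 + 1) *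
        (Nat.clog 2 (((L x).map totD).sum + 1) + 1)) :=
  (unres_ex.choose_spec K).comp (Comp.pair (h := h1) (h' := Comp.pair (h := h2) (h' := h3)))

private theorem ca_out (S t : ℕ) (L M : List (List (Dat K))) (hM : M.Sublist L) :
    (M.map (fun b => (totD b + 1) * (2 ^ t + totD b + 1) * (S + 1) *
        (Nat.clog 2 b.length + 1) + 1)).sum ≤
      2 * (((L.map totD).sum + L.length) * (2 ^ t + (L.map totD).sum + 1) * (S + 1) *
        (Nat.clog 2 ((L.map totD).sum + 1) + 1)) := by
  set s := (L.map totD).sum with hs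
  set A := (2 ^ t + s + 1) * (S + 1) * (Nat.clog 2 (s + 1) + 1) with hA
  have hA1 : 1 ≤ A := by rw [hA]; exact Nat.succ_le_of_lt (by positivity)
  have e0 : (M.map (fun b => (totD b + 1) * (2 ^ t + totD b + 1) * (S + 1) *
        (Nat.clog 2 b.length + 1) + 1)).sum ≤ (L.map (fun b => (totD b + 1) *
        (2 ^ t + totD b + 1) * (S + 1) * (Nat.clog 2 b.length + 1) + 1)).sum :=
    (hM.map _).sum_le_sum (fun _ _ => Nat.zero_le _)
  have e1 : (L.map (fun b => (totD b + 1) * (2 ^ t + totD b + 1) * (S + 1) *
        (Nat.clog 2 b.length + 1) + 1)).sum ≤ (s + L.length) * (2 * A) := by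
    refine ca_sum_le fun c hc => ?_
    have h2 : (totD c + 1) * (2 ^ t + totD c + 1) * (S + 1) * (Nat.clog 2 c.length + 1) ≤
        (totD c + 1) * A := by
      rw [hA, mul_assoc, mul_assoc, ← mul_assoc (2 ^ t + totD c + 1)]
      refine Nat.mul_le_mul_left _ (Nat.mul_le_mul (Nat.mul_le_mul_right _ ?_) (ca_clog hc))
      have := ca_le_sum (f := totD) hc
      omega
    nlinarith
  have e3 : 2 * ((s + L.length) * (2 ^ t + s + 1) * (S + 1) * (Nat.clog 2 (s + 1) + 1)) =
      (s + L.length) * (2 * A) := by rw [hA]; ring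
  rw [e3]
  exact e0.trans e1

/-- the resolved classes and all given classes, mapped to the factors -/
theorem resOut_ex : ∃ c, ∀ (K : Type) [Field K] [DecidableEq K],
    Comp K (fun z : MEnv K × ℕ × List (List (Dat K)) =>
      (z.2.2.filter (isRes z.1 z.2.1)).map (clsOut z.1 z.2.1)) c
      (fun z => ((z.2.2.map totD).sum + z.2.2.length + 1) *
        (2 ^ z.2.1 + (z.2.2.map totD).sum + 1) * (z.1.1 + 1) *
        (Nat.clog 2 ((z.2.2.map totD).sum + 1) + 1)) :=
  ⟨_, fun K _ _ => by
    have h1 : Comp K (fun z : MEnv K × ℕ × List (List (Dat K)) =>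
        (z.2.2.filter (fun c => isRes z.1 z.2.1 c)).map (fun c => clsOut z.1 z.2.1 c)) _ _ :=
      inferInstance
    refine (h1.congr (g := fun z => (z.2.2.filter (isRes z.1 z.2.1)).map (clsOut z.1 z.2.1))
      fun z => rfl).bigO 8 (fun z => ?_)
    obtain ⟨E, t, L⟩ := z
    simp only [zero_add, add_zero]
    have e1 := ca_out E.1 t L L (List.Sublist.refl L)
    have e2 := ca_out E.1 t L (L.filter (fun c => isRes E t c)) List.filter_sublist
    have e3 : (L.map (fun b => (totD b + 1) * (2 ^ t + 1) * (E.1 + 1) *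
        (Nat.clog 2 b.length + 1) + 1)).sum ≤ (L.map (fun b => (totD b + 1) *
        (2 ^ t + totD b + 1) * (E.1 + 1) * (Nat.clog 2 b.length + 1) + 1)).sum := by
      refine List.sum_le_sum fun c _ => ?_
      have : 2 ^ t + 1 ≤ 2 ^ t + totD c + 1 := by omega
      gcongr
    have e4 : ((L.map totD).sum + L.length) * (2 ^ t + (L.map totD).sum + 1) * (E.1 + 1) *
        (Nat.clog 2 ((L.map totD).sum + 1) + 1) ≤
        ((L.map totD).sum + L.length + 1) * (2 ^ t + (L.map totD).sum + 1) * (E.1 + 1) *
        (Nat.clog 2 ((L.map totD).sum + 1) + 1) := by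
      exact Nat.mul_le_mul_right _ (Nat.mul_le_mul_right _ (Nat.mul_le_mul_right _ (by omega)))
    omega⟩

theorem mapOut_ex : ∃ c, ∀ (K : Type) [Field K],
    Comp K (fun z : MEnv K × ℕ × List (List (Dat K)) =>
      z.2.2.map (clsOut z.1 z.2.1)) c
      (fun z => ((z.2.2.map totD).sum + z.2.2.length + 1) *
        (2 ^ z.2.1 + (z.2.2.map totD).sum + 1) * (z.1.1 + 1) *
        (Nat.clog 2 ((z.2.2.map totD).sum + 1) + 1)) :=
  ⟨_, fun K _ => by
    have h1 : Comp K (fun z : MEnv K × ℕ × List (List (Dat K)) =>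
        z.2.2.map (fun c => clsOut z.1 z.2.1 c)) _ _ :=
      inferInstance
    refine (h1.congr (g := fun z => z.2.2.map (clsOut z.1 z.2.1))
      fun z => rfl).bigO 8 (fun z => ?_)
    obtain ⟨E, t, L⟩ := z
    simp only [zero_add]
    have e1 := ca_out E.1 t L L (List.Sublist.refl L)
    have e4 : ((L.map totD).sum + L.length) * (2 ^ t + (L.map totD).sum + 1) * (E.1 + 1) *
        (Nat.clog 2 ((L.map totD).sum + 1) + 1) ≤
        ((L.map totD).sum + L.length + 1) * (2 ^ t + (L.map totD).sum + 1) * (E.1 + 1) *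
        (Nat.clog 2 ((L.map totD).sum + 1) + 1) := by
      exact Nat.mul_le_mul_right _ (Nat.mul_le_mul_right _ (Nat.mul_le_mul_right _ (by omega)))
    omega⟩

noncomputable def resOutCd : Cd := resOut_ex.choose

instance compResOut {K : Type} [Field K] [DecidableEq K] {α : Type} [Enc K α] {E : α → MEnv K}
    {t : α → ℕ} {L : α → List (List (Dat K))} {c1 c2 c3 : Cd} {T1 T2 T3 : α → ℕ}
    [h1 : Comp K E c1 T1] [h2 : Comp K t c2 T2] [h3 : Comp K L c3 T3] :
    Comp K (fun x => ((L x).filter (isRes (E x) (t x))).map (clsOut (E x) (t x)))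
      (resOutCd.comp (c1.pair (c2.pair c3)))
      (fun x => T1 x + (T2 x + T3 x) +
        (((L x).map totD).sum + (L x).length + 1) * (2 ^ t x + ((L x).map totD).sum + 1) *
        ((E x).1 + 1) * (Nat.clog 2 (((L x).map totD).sum + 1) + 1)) :=
  (resOut_ex.choose_spec K).comp (Comp.pair (h := h1) (h' := Comp.pair (h := h2) (h' := h3)))

noncomputable def mapOutCd : Cd := mapOut_ex.choose

instance compMapOut {K : Type} [Field K] {α : Type} [Enc K α] {E : α → MEnv K}
    {t : α → ℕ} {L : α → List (List (Dat K))} {c1 c2 c3 : Cd} {T1 T2 T3 : α → ℕ}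
    [h1 : Comp K E c1 T1] [h2 : Comp K t c2 T2] [h3 : Comp K L c3 T3] :
    Comp K (fun x => (L x).map (clsOut (E x) (t x))) (mapOutCd.comp (c1.pair (c2.pair c3)))
      (fun x => T1 x + (T2 x + T3 x) +
        (((L x).map totD).sum + (L x).length + 1) * (2 ^ t x + ((L x).map totD).sum + 1) *
        ((E x).1 + 1) * (Nat.clog 2 (((L x).map totD).sum + 1) + 1)) :=
  (mapOut_ex.choose_spec K).comp (Comp.pair (h := h1) (h' := Comp.pair (h := h2) (h' := h3)))

/-! ### The window space -/

private theorem ca_dropTake_ex : ∃ c, ∀ (K : Type) [Field K],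
    Comp K (fun z : (ℕ × ℕ) × List (List K) => z.2.map (fun s => (s.drop z.1.1).take z.1.2)) c
      (fun z => z.2.length * (z.1.1 + z.1.2 + 1)) :=
  ⟨_, fun K _ => by
    have h1 : Comp K (fun z : (ℕ × ℕ) × List (List K) =>
        z.2.map (fun s => (s.drop z.1.1).take z.1.2)) _ _ := inferInstance
    refine h1.bigO 2 (fun z => ?_)
    simp only [zero_add, add_zero, List.map_const', List.sum_replicate, smul_eq_mul]
    omega⟩

/-- The numbers used by `winRows`. -/
private theorem ca_nums_ex : ∃ c, ∀ (K : Type) [Field K],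
    Comp K (fun z : ℕ × ℕ × ℕ => (2 ^ z.1, 2 ^ z.1 - z.2.1 - (z.2.2 + 1))) c
      (fun z => 2 ^ z.1 + z.2.1 + z.2.2) :=
  ⟨_, fun K _ => by
    have h1 : Comp K (fun z : ℕ × ℕ × ℕ => (2 ^ z.1, 2 ^ z.1 - z.2.1 - (z.2.2 + 1))) _ _ :=
      inferInstance
    refine h1.bigO 8 (fun z => ?_)
    simp only [zero_add, add_zero]
    have e1 := min_le_right (2 ^ z.1) z.2.1
    have e2 := min_le_right (2 ^ z.1 - z.2.1) z.2.2
    omega⟩

private theorem ca_kerT_mono {a b : ℕ} (h : a ≤ b) : kerT a ≤ kerT b := by
  unfold kerT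
  have h1 : nroot 20 (a + 1) ≤ nroot 20 (b + 1) := by
    rw [nroot_le_iff (by norm_num)]
    exact (Nat.add_le_add_right h 1).trans (nroot_spec (by norm_num) _)
  exact Nat.mul_le_mul (Nat.pow_le_pow_left (by omega) 2) (Nat.pow_le_pow_left h1 19)

private theorem ca_length_le_tot {α : Type} (L : List (List α)) : L.length ≤ tot L := by
  unfold tot
  induction L with
  | nil => simp
  | cons a L ih =>
    simp only [List.map_cons, List.sum_cons, List.length_cons] at ih ⊢
    omega

/-- The windows for given numbers `W`, `n`, `D`. -/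
private noncomputable def winR {K : Type} [Field K] (E : MEnv K) (W n D : ℕ)
    (Fs : List (List (List K))) (th : List K) : List (List K) :=
  (traces E W (chunks n (D + 1) th) Fs).map (fun s => (s.drop (D + n)).take (Fs.length + 1))

private theorem ca_winR_ex : ∃ c, ∀ (K : Type) [Field K],
    Comp K (fun z : (MEnv K × ℕ × ℕ × ℕ) × List (List (List K)) × List K =>
      winR z.1.1 z.1.2.1 z.1.2.2.1 z.1.2.2.2 z.2.1 z.2.2) c
      (fun z => (z.1.2.2.1 + tot z.2.1 + 1) *
        (z.1.2.1 + z.1.2.2.2 + z.1.2.2.1 + tot z.2.1 + 1) *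
        (z.1.1.1 + 1) * (Nat.clog 2 z.2.1.length + 1) ^ 2) := by
  obtain ⟨cd, hd⟩ := ca_dropTake_ex
  exact ⟨_, fun K _ => by
    have h1 : Comp K (fun z : (MEnv K × ℕ × ℕ × ℕ) × List (List (List K)) × List K =>
        ((z.1.2.2.2 + z.1.2.2.1, z.2.1.length + 1),
          traces z.1.1 z.1.2.1 (chunks z.1.2.2.1 (z.1.2.2.2 + 1) z.2.2) z.2.1)) _ _ :=
      inferInstance
    have h2 := (hd K).comp h1
    refine (h2.congr (g := fun z => winR z.1.1 z.1.2.1 z.1.2.2.1 z.1.2.2.2 z.2.1 z.2.2)
      fun z => rfl).bigO 8 (fun z => ?_)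
    obtain ⟨⟨E, W, n, D⟩, L, th⟩ := z
    simp only [zero_add, add_zero, length_traces, length_chunks]
    have hl : L.length ≤ tot L := ca_length_le_tot L
    set N := n + tot L + 1 with hN
    have hM : W + D + n + tot L + 1 = W + D + N := by omega
    rw [hM]
    have hF : 1 ≤ (E.1 + 1) * (Nat.clog 2 L.length + 1) ^ 2 :=
      Nat.succ_le_of_lt (by positivity)
    have e0 : N * (W + D + N) * (E.1 + 1) * (Nat.clog 2 L.length + 1) ^ 2 =
        N * (W + D + N) * ((E.1 + 1) * (Nat.clog 2 L.length + 1) ^ 2) := by ring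
    have e1 : N * (W + 1) * (E.1 + 1) * (Nat.clog 2 L.length + 1) ^ 2 ≤
        N * (W + D + N) * ((E.1 + 1) * (Nat.clog 2 L.length + 1) ^ 2) := by
      rw [mul_assoc (N * (W + 1))]
      exact Nat.mul_le_mul_right _ (Nat.mul_le_mul_left _ (by omega))
    have e2 : N * (W + D + N) ≤
        N * (W + D + N) * ((E.1 + 1) * (Nat.clog 2 L.length + 1) ^ 2) :=
      Nat.le_mul_of_pos_right _ hF
    have e3 : (n + 1) * (D + 1 + 1) ≤ 2 * (N * (W + D + N)) := by
      have h1 : (n + 1) * (D + 1 + 1) ≤ N * (2 * (W + D + N)) :=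
        Nat.mul_le_mul (by omega) (by omega)
      calc _ ≤ N * (2 * (W + D + N)) := h1
        _ = _ := by ring
    have e4 : L.length * (D + n + (L.length + 1) + 1) ≤ 2 * (N * (W + D + N)) := by
      have h1 : L.length * (D + n + (L.length + 1) + 1) ≤ N * (2 * (W + D + N)) :=
        Nat.mul_le_mul (by omega) (by omega)
      calc _ ≤ N * (2 * (W + D + N)) := h1
        _ = _ := by ring
    have e5 : D + L.length ≤ N * (W + D + N) := by
      have h1 : 1 * (W + D + N) ≤ N * (W + D + N) := Nat.mul_le_mul_right _ (by omega)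
      omega
    rw [e0]
    omega⟩

private theorem winBasis_eq [DecidableEq K] (E : MEnv K) (t n : ℕ)
    (Fs : List (List (List K))) (th : List K) : winBasis E t n Fs th =
      leftKer (Fs.length + 1) (winR E (2 ^ t) n (2 ^ t - n - (Fs.length + 1)) Fs th) := by
  unfold winBasis winRows winR
  rfl

private theorem ca_rows_ex : ∃ c, ∀ (K : Type) [Field K],
    Comp K (fun z : MEnv K × (ℕ × ℕ) × List (List (List K)) × List K =>
      winR z.1 (2 ^ z.2.1.1) z.2.1.2 (2 ^ z.2.1.1 - z.2.1.2 - (z.2.2.1.length + 1))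
        z.2.2.1 z.2.2.2) c
      (fun z => (z.2.1.2 + tot z.2.2.1 + 1) * (2 ^ z.2.1.1 + z.2.1.2 + tot z.2.2.1 + 1) *
        (z.1.1 + 1) * (Nat.clog 2 (z.2.1.2 + tot z.2.2.1 + 1) + 1) ^ 2) := by
  obtain ⟨cn, hn⟩ := ca_nums_ex
  obtain ⟨cr, hr⟩ := ca_winR_ex
  exact ⟨_, fun K _ => by
    have h1 : Comp K (fun z : MEnv K × (ℕ × ℕ) × List (List (List K)) × List K =>
        (z.2.1.1, z.2.1.2, z.2.2.1.length)) _ _ := inferInstance
    have h2 := (hn K).comp h1
    have h3 : Comp K (fun z : (MEnv K × (ℕ × ℕ) × List (List (List K)) × List K) × ℕ × ℕ =>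
        ((z.1.1, z.2.1, z.1.2.1.2, z.2.2), z.1.2.2.1, z.1.2.2.2)) _ _ := inferInstance
    have h4 := (hr K).comp h3
    have h5 := h4.comp (Comp.pair (h := Comp.id) (h' := h2))
    refine Comp.bigO 16 h5 (fun z => ?_)
    obtain ⟨E, ⟨t, n⟩, L, th⟩ := z
    simp only [zero_add, add_zero]
    have hl : L.length ≤ tot L := ca_length_le_tot L
    generalize 2 ^ t = W
    have hD : W - n - (L.length + 1) ≤ W := by omega
    generalize W - n - (L.length + 1) = D at *
    have hc : Nat.clog 2 L.length ≤ Nat.clog 2 (n + tot L + 1) :=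
      Nat.clog_mono_right 2 (by omega)
    generalize Nat.clog 2 L.length = c at *
    generalize Nat.clog 2 (n + tot L + 1) = c' at *
    have e1 : (n + tot L + 1) * (W + D + n + tot L + 1) * (E.1 + 1) * (c + 1) ^ 2 ≤
        2 * ((n + tot L + 1) * (W + n + tot L + 1) * (E.1 + 1) * (c' + 1) ^ 2) := by
      calc _ ≤ (n + tot L + 1) * (2 * (W + n + tot L + 1)) * (E.1 + 1) * (c' + 1) ^ 2 := by
            refine Nat.mul_le_mul (Nat.mul_le_mul_right _ (Nat.mul_le_mul_left _ (by omega)))
              (Nat.pow_le_pow_left (by omega) 2)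
        _ = _ := by ring
    have e2 : W + n + tot L + 1 ≤
        (n + tot L + 1) * (W + n + tot L + 1) * (E.1 + 1) * (c' + 1) ^ 2 := by
      have h1 : 1 * (W + n + tot L + 1) ≤ (n + tot L + 1) * (W + n + tot L + 1) :=
        Nat.mul_le_mul_right _ (by omega)
      have h2 : (n + tot L + 1) * (W + n + tot L + 1) ≤
          (n + tot L + 1) * (W + n + tot L + 1) * ((E.1 + 1) * (c' + 1) ^ 2) :=
        Nat.le_mul_of_pos_right _ (by positivity)
      rw [← mul_assoc] at h2
      omega
    omega⟩

attribute [local irreducible] kerT leftKer winR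

theorem winBasis_ex : ∃ c, ∀ (K : Type) [Field K] [DecidableEq K],
    Comp K (fun z : MEnv K × (ℕ × ℕ) × List (List (List K)) × List K =>
      winBasis z.1 z.2.1.1 z.2.1.2 z.2.2.1 z.2.2.2) c
      (fun z => kerT (2 * (z.2.1.2 + tot z.2.2.1 + 1)) +
        (z.2.1.2 + tot z.2.2.1 + 1) * (2 ^ z.2.1.1 + z.2.1.2 + tot z.2.2.1 + 1) *
        (z.1.1 + 1) * (Nat.clog 2 (z.2.1.2 + tot z.2.2.1 + 1) + 1) ^ 2) := by
  obtain ⟨cr, hr⟩ := ca_rows_ex
  exact ⟨_, fun K _ _ => by
    have h6 : Comp K (fun z : MEnv K × (ℕ × ℕ) × List (List (List K)) × List K =>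
        z.2.2.1.length + 1) _ _ := inferInstance
    have h7 := compLeftKer (h := h6) (h' := hr K)
    refine Comp.bigO 4 (h7.congr (g := fun z => winBasis z.1 z.2.1.1 z.2.1.2 z.2.2.1 z.2.2.2)
      fun z => (winBasis_eq _ _ _ _ _).symm) (fun z => ?_)
    obtain ⟨E, ⟨t, n⟩, L, th⟩ := z
    simp only [zero_add, winR, List.length_map, length_traces]
    have hl : L.length ≤ tot L := ca_length_le_tot L
    have hk : kerT (L.length + 1 + L.length) ≤ kerT (2 * (n + tot L + 1)) :=
      ca_kerT_mono (by omega)
    have e2 : L.length ≤ (n + tot L + 1) * (2 ^ t + n + tot L + 1) * (E.1 + 1) *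
        (Nat.clog 2 (n + tot L + 1) + 1) ^ 2 := by
      generalize 2 ^ t = W
      have h1 : 1 * (W + n + tot L + 1) ≤ (n + tot L + 1) * (W + n + tot L + 1) :=
        Nat.mul_le_mul_right _ (by omega)
      have h2 : (n + tot L + 1) * (W + n + tot L + 1) ≤
          (n + tot L + 1) * (W + n + tot L + 1) *
            ((E.1 + 1) * (Nat.clog 2 (n + tot L + 1) + 1) ^ 2) :=
        Nat.le_mul_of_pos_right _ (by positivity)
      rw [← mul_assoc] at h2
      omega
    generalize (n + tot L + 1) * (2 ^ t + n + tot L + 1) * (E.1 + 1) *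
        (Nat.clog 2 (n + tot L + 1) + 1) ^ 2 = A at *
    generalize kerT (2 * (n + tot L + 1)) = B at *
    generalize kerT (L.length + 1 + L.length) = C at *
    clear h6 h7
    omega⟩

noncomputable def winBasisCd : Cd := winBasis_ex.choose

instance compWinBasis {K : Type} [Field K] [DecidableEq K] {α : Type} [Enc K α]
    {E : α → MEnv K} {t n : α → ℕ} {Fs : α → List (List (List K))} {th : α → List K}
    {c1 c2 c3 c4 c5 : Cd} {T1 T2 T3 T4 T5 : α → ℕ} [h1 : Comp K E c1 T1] [h2 : Comp K t c2 T2]
    [h3 : Comp K n c3 T3] [h4 : Comp K Fs c4 T4] [h5 : Comp K th c5 T5] :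
    Comp K (fun x => winBasis (E x) (t x) (n x) (Fs x) (th x))
      (winBasisCd.comp (c1.pair ((c2.pair c3).pair (c4.pair c5))))
      (fun x => T1 x + (T2 x + T3 x + (T4 x + T5 x)) +
        (kerT (2 * (n x + tot (Fs x) + 1)) +
        (n x + tot (Fs x) + 1) * (2 ^ t x + n x + tot (Fs x) + 1) *
        ((E x).1 + 1) * (Nat.clog 2 (n x + tot (Fs x) + 1) + 1) ^ 2)) :=
  (winBasis_ex.choose_spec K).comp (Comp.pair (h := h1)
    (h' := Comp.pair (h := Comp.pair (h := h2) (h' := h3)) (h' := Comp.pair (h := h4) (h' := h5))))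

end Pool.Agent.BiFac

end

section

/-!
# Size of the multiplication data
-/

set_option autoImplicit false

namespace Pool.Agent.BiFac

open Polynomial Pool.Agent.TreeRAM

variable {K : Type} [Field K]

theorem two_le_sOf (d : ℕ) : 2 ≤ sOf d := by
  have h := nroot_pos (k := 400) (by norm_num) (Nat.succ_pos d)
  unfold sOf
  have h1 : d.succ = d + 1 := rfl
  rw [h1] at h
  omega

theorem cap_envOf [DecidableEq K] (d : ℕ) (T : List (List K)) :
    2 ^ 100 * (d + 2) ^ 3 ≤ (envOf d T).cap := by
  have h0 : (envOf d T).cap = sOf d ^ 1200 := rfl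
  rw [h0]
  unfold sOf
  have h1 := nroot_spec (k := 400) (by norm_num) (d + 1)
  generalize nroot 400 (d + 1) = ν at h1
  have e : (2 * ν) ^ 1200 = 2 ^ 1200 * (ν ^ 400) ^ 3 := by
    rw [mul_pow, ← pow_mul ν 400 3]
  rw [e]
  have h2 : (d + 2) ^ 3 ≤ 2 ^ 3 * (d + 1) ^ 3 := by
    rw [← mul_pow]
    exact Nat.pow_le_pow_left (by omega) 3
  have h3 : (d + 1) ^ 3 ≤ (ν ^ 400) ^ 3 := Nat.pow_le_pow_left h1 3
  calc 2 ^ 100 * (d + 2) ^ 3 ≤ 2 ^ 100 * (2 ^ 3 * (d + 1) ^ 3) := Nat.mul_le_mul_left _ h2
    _ = 2 ^ 103 * (d + 1) ^ 3 := by ring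
    _ ≤ 2 ^ 1200 * (ν ^ 400) ^ 3 :=
      Nat.mul_le_mul (Nat.pow_le_pow_right (by norm_num) (by norm_num)) h3

theorem two_pow_tOf (d : ℕ) :
    4 * (d + 2) * nroot 2 (d + 2) ≤ 2 ^ tOf d ∧ 2 ^ tOf d ≤ 8 * (d + 2) * nroot 2 (d + 2) ∧
    tOf d ≤ 2 * Nat.clog 2 (d + 2) + 3 := by
  have hν := nroot_pos (k := 2) (by norm_num) (Nat.succ_pos (d + 1))
  have hν' := nroot_le (k := 2) (by norm_num) (d + 2)
  have e : (d + 1).succ = d + 2 := rfl
  rw [e] at hν
  unfold tOf
  generalize nroot 2 (d + 2) = ν at *
  have hx : 1 < 4 * (d + 2) * ν := by nlinarith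
  refine ⟨Nat.le_pow_clog (by norm_num) _, ?_, ?_⟩
  · have h1 := Nat.pow_pred_clog_lt_self (b := 2) (by norm_num) hx
    have h2 : 0 < Nat.clog 2 (4 * (d + 2) * ν) := Nat.clog_pos (by norm_num) hx
    obtain ⟨m, hm⟩ := Nat.exists_eq_succ_of_ne_zero h2.ne'
    rw [hm] at h1 ⊢
    rw [Nat.pred_succ] at h1
    rw [pow_succ]
    have h3 : 8 * (d + 2) * ν = 2 * (4 * (d + 2) * ν) := by ring
    omega
  · have h1 := Nat.le_pow_clog (b := 2) (by norm_num) (d + 2)
    refine Nat.clog_le_of_le_pow ?_
    generalize Nat.clog 2 (d + 2) = c at *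
    calc 4 * (d + 2) * ν ≤ 4 * 2 ^ c * 2 ^ c :=
          Nat.mul_le_mul (Nat.mul_le_mul_left _ h1) (hν'.trans h1)
      _ = 2 ^ (2 * c + 2) := by ring
      _ ≤ 2 ^ (2 * c + 3) := Nat.pow_le_pow_right (by norm_num) (by omega)

theorem fits_envOf [DecidableEq K] (d : ℕ) (T : List (List K)) :
    Fits (envOf d T) (4096 * (d + 2)) (2 ^ tOf d + 100 * (d + 2) + 1000) := by
  unfold Fits
  refine le_trans ?_ (cap_envOf d T)
  obtain ⟨-, h2, -⟩ := two_pow_tOf d
  have hν' := nroot_le (k := 2) (by norm_num) (d + 2)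
  have h3 : 2 ^ tOf d ≤ 8 * (d + 2) ^ 2 := by
    refine h2.trans ?_
    calc 8 * (d + 2) * nroot 2 (d + 2) ≤ 8 * (d + 2) * (d + 2) := Nat.mul_le_mul_left _ hν'
      _ = _ := by ring
  generalize 2 ^ tOf d = W at *
  have e : 2 ^ 100 = 1267650600228229401496703205376 := by norm_num
  rw [e]
  generalize hX : d + 2 = X at *
  have hX2 : 1 ≤ X := by omega
  have h4 : 4096 * X + 1 ≤ 4097 * X := by omega
  have h5 : W + 100 * X + 1000 + 1 ≤ 1109 * X ^ 2 := by nlinarith
  calc 8 * (4096 * X + 1) * (W + 100 * X + 1000 + 1) ≤ 8 * (4097 * X) * (1109 * X ^ 2) :=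
        Nat.mul_le_mul (Nat.mul_le_mul_left _ h4) h5
    _ = 36348584 * X ^ 3 := by ring
    _ ≤ _ := Nat.mul_le_mul_right _ (by norm_num)

end Pool.Agent.BiFac

end

section

/-!
# The cost of the whole algorithm: definitions
-/

set_option autoImplicit false

namespace Pool.Agent.BiFac

open Polynomial Pool.Agent.TreeRAM

variable {K : Type} [Field K]

/-- The cost of the algorithm over the large field. -/
noncomputable def facCost [DecidableEq K] (Q : FQ) (kK N : ℕ) (Fd : List (List K))
    (T : List (List K)) : ℕ :=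
  (tapeLens (Fd.length - 1)).sum + (Fd.length + 1) ^ 2 + (sOf (Fd.length - 1) + 1) ^ 4 +
  (Nat.clog 2 (Fd.length + 1) + 1) ^ 2 * (kerT (2 * (Fd.length + 1)) +
    (Fd.length + 1) ^ 2 * (sOf (Fd.length - 1) + 1) * Q.lg) +
  ((Fd.length + ((zsOf Q Fd T).map (fun z => (z.2 + 1) * (z.1.length + 1))).sum + 1) *
    (2 ^ Nat.clog 2 (Fd.length - 1 + 2) + 1) * (sOf (Fd.length - 1) + 1) *
    (Nat.clog 2 (Fd.length + ((zsOf Q Fd T).map (fun z => (z.2 + 1) *
      (z.1.length + 1))).sum + 1) + 1) ^ 2 * (Nat.clog 2 (Fd.length - 1 + 2) + 1) * Q.lg +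
    (Fd.length + ((zsOf Q Fd T).map (fun z => (z.2 + 1) * (z.1.length + 1))).sum + 1) ^ 2) +
  (kerT (2 * ((radOf Q Fd T).length + tot ((zsOf Q Fd T).map Prod.fst) + 1)) +
    ((radOf Q Fd T).length + tot ((zsOf Q Fd T).map Prod.fst) + 1) *
      (2 ^ tOf (Fd.length - 1) + ((radOf Q Fd T).length + tot ((zsOf Q Fd T).map Prod.fst) + 1)) *
      (sOf (Fd.length - 1) + 1) *
      (Nat.clog 2 ((radOf Q Fd T).length + tot ((zsOf Q Fd T).map Prod.fst) + 1) + 1) ^ 2 *
      (tOf (Fd.length - 1) + 1) +
    (kapOf Q Fd T + 1) *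
      ((radOf Q Fd T).length + tot ((zsOf Q Fd T).map Prod.fst) + 1) ^ 2 *
      (sOf (Fd.length - 1) + 1) *
      (Nat.clog 2 ((radOf Q Fd T).length + tot ((zsOf Q Fd T).map Prod.fst) + 1) + 1) * Q.lg +
    (kapOf Q Fd T + 1) ^ 3 *
      ((radOf Q Fd T).length + tot ((zsOf Q Fd T).map Prod.fst) + 1)) +
  (N + 1) ^ 2 * (((outOf Q Fd T).map (fun z => z.1.length + z.2 + 1)).sum + 1) ^ 2 *
    (sOf (Fd.length - 1) + 1) *
    (Nat.clog 2 (((outOf Q Fd T).map (fun z => z.1.length + z.2 + 1)).sum + 1) + 1) ^ 2 *
    (Nat.clog 2 N + 1) * ((Q.1.length + 1) * (kK + 1))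

/-- The bound for the running time, up to a constant. -/
noncomputable def bnd (d bl k : ℕ) : ℕ :=
  (d + 2) ^ 2 * nroot 20 (d + 2) ^ 19 * (Nat.clog 2 (d + 2) + 1) ^ 14 *
    ((bl + 1) * (k + 1)) ^ 2

/-- The number of random elements of the small field. -/
noncomputable def tapeNeed (d : ℕ) : ℕ := 8 * eOf d * eOf d + (tapeLens d).sum * eOf d

end Pool.Agent.BiFac

end

section

/-!
# The kernel of the linearised Frobenius test
-/

set_option autoImplicit false

namespace Pool.Agent.BiFac

open Polynomial Pool.Agent.TreeRAM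

variable {K : Type} [Field K]

/-! ### Sums of fractions -/

theorem kspec_combSum_ofFn {n : ℕ} (a f : Fin n → K[X][X]) :
    combSum (List.ofFn (fun i => (a i, f i))) = ∑ i, a i * ∏ j ∈ Finset.univ.erase i, f j := by
  induction n with
  | zero => simp [combSum]
  | succ n ih =>
    have e0 : (Finset.univ.erase (0 : Fin (n + 1))) = Finset.univ.image Fin.succ := by
      ext j
      simp only [Finset.mem_erase, Finset.mem_univ, and_true, Finset.mem_image, true_and]
      constructor
      · intro h
        exact ⟨j.pred h, Fin.succ_pred j h⟩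
      · rintro ⟨i, rfl⟩
        exact Fin.succ_ne_zero i
    have e1 : ∀ i : Fin n, (Finset.univ.erase i.succ) =
        insert 0 ((Finset.univ.erase i).image Fin.succ) := by
      intro i
      ext j
      simp only [Finset.mem_erase, Finset.mem_univ, and_true, Finset.mem_insert, Finset.mem_image]
      constructor
      · intro h
        by_cases hj : j = 0
        · exact Or.inl hj
        · refine Or.inr ⟨j.pred hj, ?_, Fin.succ_pred j hj⟩
          rintro rfl
          exact h (Fin.succ_pred j hj).symm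
      · rintro (rfl | ⟨l, hl, rfl⟩)
        · exact (Fin.succ_ne_zero i).symm
        · exact fun h => hl (Fin.succ_injective _ h)
    rw [List.ofFn_succ, combSum, ih (fun i => a i.succ) (fun i => f i.succ), Fin.sum_univ_succ, e0,
      Finset.prod_image (fun x _ y _ h => Fin.succ_injective _ h), List.map_ofFn, List.prod_ofFn,
      Finset.mul_sum]
    refine congrArg₂ (· + ·) rfl (Finset.sum_congr rfl fun i _ => ?_)
    rw [e1, Finset.prod_insert, Finset.prod_image (fun x _ y _ h => Fin.succ_injective _ h)]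
    · ring
    · intro h
      obtain ⟨l, -, hl⟩ := Finset.mem_image.1 h
      exact Fin.succ_ne_zero l hl

theorem kspec_zipWith_ofFn {α β : Type} (g : K → α → β) (b : List K) (U : List α)
    (hb : b.length = U.length) :
    List.zipWith g b U = List.ofFn (fun i : Fin U.length => g (vec b i) (U.get i)) := by
  apply List.ext_getElem
  · simp [hb]
  · intro i h1 h2
    simp only [List.getElem_zipWith, List.getElem_ofFn, List.get_eq_getElem]
    rw [vec, List.getD_eq_getElem _ _ (by simp at h1; omega)]

/-- The total length of the modular factors. -/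
theorem kspec_tot {E : MEnv K} {t : ℕ} {F : K[X][X]} {U : List (Dat K)}
    (h : DatOk E t F U) : tot (U.map Prod.fst) ≤ 3 * F.natDegree := by
  have h1 : tot (U.map Prod.fst) = ∑ i : Fin U.length, ((famP U i).natDegree + 2) := by
    rw [tot, List.map_map]
    have e : U.map ((fun F : List (List K) => F.length + 1) ∘ Prod.fst) =
        List.ofFn (fun i : Fin U.length => (famP U i).natDegree + 2) := by
      apply List.ext_getElem
      · simp
      · intro i h1 h2
        have h3 : i < U.length := by simpa using h1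
        simp only [List.getElem_map, Function.comp_apply, List.getElem_ofFn]
        have := (h.shape (U[i]) (List.getElem_mem h3)).len
        rw [this]
        rfl
    rw [e, List.sum_ofFn]
  rw [h1, h.lifted.natDegree_eq, Finset.mul_sum]
  refine Finset.sum_le_sum fun i _ => ?_
  have := h.lifted.natDegree_pos i
  omega

theorem kspec_length_le {E : MEnv K} {t : ℕ} {F : K[X][X]} {U : List (Dat K)}
    (h : DatOk E t F U) : U.length ≤ F.natDegree := by
  rw [h.lifted.natDegree_eq]
  calc U.length = ∑ _i : Fin U.length, 1 := by simp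
    _ ≤ _ := Finset.sum_le_sum fun i _ => h.lifted.natDegree_pos i

/-- the approximations `G_b` -/
theorem gB_spec [DecidableEq K] {E : MEnv K} {t : ℕ} {F : K[X][X]} {U : List (Dat K)}
    (h : DatOk E t F U) {w : ℕ} (hw : F.natDegree + 1 = w) {b : List K}
    (hb : b.length = U.length) :
    Cg w (toB (gB E w U b)) (Gmu (famP U) (fun i => vec b i)) ∧
    (gB E w U b).length = F.natDegree ∧ ∀ r ∈ gB E w U b, r.length = w := by
  set L := List.zipWith (fun c (u : Dat K) => (smulB c (bderiv w u.1), u.1)) b U with hL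
  have hL1 : L = List.ofFn (fun i : Fin U.length =>
      (smulB (vec b i) (bderiv w (U.get i).1), (U.get i).1)) := by
    rw [hL]
    exact kspec_zipWith_ofFn (fun c (u : Dat K) => (smulB c (bderiv w u.1), u.1)) b U hb
  have hpos : ∀ u ∈ U, 0 < u.1.length := fun u hu => by
    rw [(h.shape u hu).len]
    omega
  have hlt : ∀ z ∈ L, z.1.length < z.2.length := by
    intro z hz
    rw [hL1, List.mem_ofFn] at hz
    obtain ⟨i, rfl⟩ := hz
    simp only [smulB, List.length_map, length_bderiv]
    have := hpos (U.get i) (List.get_mem _ _)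
    omega
  have hsnd : L.map Prod.snd = U.map Prod.fst := by
    rw [hL1, List.map_ofFn]
    apply List.ext_getElem
    · simp
    · intro i h1 h2
      simp
  have hfit : Fits E (2 * tot (L.map Prod.snd)) w := by
    rw [hsnd]
    have h1 := kspec_tot h
    have h2 := h.lt
    exact h.fits.mono2 (by omega) (by omega)
  refine ⟨?_, ?_, ?_⟩
  · refine (cg_combB h.good hlt hfit).trans ?_
    have e : L.map (fun z => (toB z.1, toB z.2)) = List.ofFn (fun i : Fin U.length =>
        (toB (smulB (vec b i) (bderiv w (U.get i).1)), toB (U.get i).1)) := by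
      rw [hL1, List.map_ofFn]
      rfl
    rw [e, kspec_combSum_ofFn (fun i : Fin U.length =>
      toB (smulB (vec b i) (bderiv w (U.get i).1))) (fun i : Fin U.length => toB (U.get i).1)]
    refine Cg.sum _ fun i _ => ?_
    rw [toB_smulB, mul_assoc]
    exact (Cg.refl w _).mul ((cg_bderiv w _).mul (Cg.refl w _))
  · rw [gB, ← hL, length_combB E w L hlt]
    rw [h.lifted.natDegree_eq, hL1, List.map_ofFn, List.sum_ofFn]
    refine Finset.sum_congr rfl fun i _ => ?_
    have := (h.shape (U.get i) (List.get_mem _ _)).len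
    simp only [Function.comp_apply]
    rw [this]
    rfl
  · intro r hr
    exact rows_combB E w L r hr

/-! ### Linear combinations of linear combinations -/

theorem kspec_lincomb_lincomb (tc : List K) (M B : List (List K)) (i : ℕ) :
    vec (lincomb (lincomb tc M) B) i = vec (lincomb tc (M.map (fun c => lincomb c B))) i := by
  induction M generalizing tc with
  | nil => simp [lincomb_nil', lincomb_nil, elim_vec_nil]
  | cons v M ih =>
    cases tc with
    | nil => simp [lincomb_nil, elim_vec_nil]
    | cons x tc =>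
      rw [List.map_cons, lincomb_cons, elim_lincomb_addP, elim_lincomb_smulP, ih, lincomb_cons,
        elim_vec_addP, elim_vec_smulP]

theorem vec_stage2 [DecidableEq K] (E : MEnv K) (Q : FQ) (t k : ℕ) (U : List (Dat K))
    (tm tc : List K) (i : ℕ) :
    vec (lincomb (lincomb tc (kerU E Q t U (restBasis k U)
      (modulus (restBasis k U).length tm))) (restBasis k U)) i =
    vec (lincomb tc (kerVecs E Q t k U tm)) i :=
  kspec_lincomb_lincomb _ _ _ _

/-- `lincomb` as a sum over the positions -/
theorem kspec_vec_lincomb_fin (c : List K) (B : List (List K)) (i : ℕ) :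
    vec (lincomb c B) i = ∑ l : Fin B.length, vec c l * vec (B.get l) i := by
  rw [LK.vec_lincomb_sum (b := B.length) le_rfl, Finset.sum_range]
  refine Finset.sum_congr rfl fun l _ => ?_
  rw [List.getD_eq_getElem _ _ l.isLt]
  rfl

/-! ### The modulus -/

theorem kspec_length_prodP {L : List (List K)} {e : ℕ} (h : ∀ a ∈ L, MP a ∧ a.length = e + 1) :
    (prodP L).length = L.length * e + 1 := by
  induction L with
  | nil => simp [prodP_nil]
  | cons a L ih =>
    have h1 := h a List.mem_cons_self
    have h2 := ih (fun b hb => h b (List.mem_cons_of_mem _ hb))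
    have h3 : MP (prodP L) := MP_prodP fun b hb => (h b (List.mem_cons_of_mem _ hb)).1
    rw [prodP_cons, length_mulN_eq h1.1.ne_nil h3.ne_nil, h1.2, h2, List.length_cons, Nat.succ_mul]
    omega

theorem kspec_chunks {α : Type} (n e : ℕ) (l : List α) (h : n * e ≤ l.length) :
    ∀ a ∈ chunks n e l, a.length = e := by
  induction n generalizing l with
  | zero => simp [chunks]
  | succ n ih =>
    rw [Nat.succ_mul] at h
    intro a ha
    rw [chunks, List.mem_cons] at ha
    rcases ha with rfl | ha
    · rw [List.length_take]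
      omega
    · refine ih (l.drop e) ?_ a ha
      rw [List.length_drop]
      omega

theorem kspec_modulus {κ : ℕ} {tm : List K} (htm : 8 * (2 * κ + 10) ≤ tm.length) :
    MP (modulus κ tm) ∧ (modulus κ tm).length = 8 * (2 * κ + 10) + 1 := by
  have h1 : ∀ a ∈ (chunks 8 (2 * κ + 10) tm).map (fun l => l ++ [1]),
      MP a ∧ a.length = (2 * κ + 10) + 1 := by
    intro a ha
    obtain ⟨l, hl, rfl⟩ := List.mem_map.1 ha
    refine ⟨MP_append_one l, ?_⟩
    rw [List.length_append, kspec_chunks _ _ _ htm l hl]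
    rfl
  refine ⟨MP_prodP fun a ha => (h1 a ha).1, ?_⟩
  rw [modulus, kspec_length_prodP h1, List.length_map, length_chunks]

/-! ### The test -/

theorem kspec_Tfrob_sum [Fintype K] {κ : ℕ} (F : K[X][X]) (c : Fin κ → K) (G : Fin κ → K[X][X]) :
    Tfrob (Fintype.card K) F (∑ l, C (C (c l)) * G l) =
      ∑ l, C (C (c l)) * Tfrob (Fintype.card K) F (G l) := by
  have key : ∀ s : Finset (Fin κ), Tfrob (Fintype.card K) F (∑ l ∈ s, C (C (c l)) * G l) =
      ∑ l ∈ s, C (C (c l)) * Tfrob (Fintype.card K) F (G l) := by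
    intro s
    induction s using Finset.induction_on with
    | empty =>
      simp only [Finset.sum_empty]
      unfold Tfrob
      rw [zero_pow Fintype.card_ne_zero]
      ring
    | insert a s ha ih =>
      rw [Finset.sum_insert ha, Finset.sum_insert ha, Tfrob_add, Tfrob_smul, ih]
  exact key Finset.univ

theorem kspec_coeff_sum {κ : ℕ} {F : K[X][X]} {m : K[X]} (c : Fin κ → K)
    (T : Fin κ → K[X][X]) (j i : ℕ) :
    ((((∑ l, C (C (c l)) * T l) %ₘ F).coeff j) %ₘ m).coeff i =
      ∑ l, c l * (((T l %ₘ F).coeff j) %ₘ m).coeff i := by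
  have e1 : (∑ l, C (C (c l)) * T l) %ₘ F = ∑ l, C (C (c l)) * (T l %ₘ F) := by
    have h := map_sum (modByMonicHom F) (fun l => C (C (c l)) * T l) Finset.univ
    simp only [modByMonicHom_apply] at h
    rw [h]
    refine Finset.sum_congr rfl fun l _ => ?_
    rw [← smul_eq_C_mul, smul_modByMonic, smul_eq_C_mul]
  have e2 : (∑ l, C (c l) * (T l %ₘ F).coeff j) %ₘ m =
      ∑ l, C (c l) * (((T l %ₘ F).coeff j) %ₘ m) := by
    have h := map_sum (modByMonicHom m) (fun l => C (c l) * (T l %ₘ F).coeff j) Finset.univ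
    simp only [modByMonicHom_apply] at h
    rw [h]
    refine Finset.sum_congr rfl fun l _ => ?_
    rw [← smul_eq_C_mul, smul_modByMonic, smul_eq_C_mul]
  rw [e1, finsetSum_coeff]
  simp only [coeff_C_mul]
  rw [e2, finsetSum_coeff]
  simp only [coeff_C_mul]

section test

variable [DecidableEq K] [Fintype K] {E : MEnv K} {t : ℕ} {F : K[X][X]} {U : List (Dat K)}

/-- The polynomials `G_b` of the basis. -/
noncomputable def kspecG (E : MEnv K) (t k : ℕ) (U : List (Dat K))
    (l : Fin (restBasis k U).length) : K[X][X] :=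
  toB (gB E (clsProd E t U).length U ((restBasis k U).get l))

/-- The entries of the combinations of the rows of the test. -/
theorem kspec_vec_rows (h : DatOk E t F U) {Q : FQ} {p : ℕ} (hQ : Q.Ok K p)
    (hf : Fits E (64 * (F.natDegree + 2)) (72 * F.natDegree + 400))
    (k : ℕ) (tm : List K) (htm : 8 * (2 * (restBasis k U).length + 10) ≤ tm.length)
    (μ : List K) {j i : ℕ} (hj : j < (clsProd E t U).length - 1)
    (hi : i < (modulus (restBasis k U).length tm).length - 1) :
    vec (lincomb μ (testRows E Q t U (restBasis k U) (modulus (restBasis k U).length tm)))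
      (j * ((modulus (restBasis k U).length tm).length - 1) + i) =
    (((Tfrob (Fintype.card K) (toB (clsProd E t U)) (∑ l : Fin (restBasis k U).length, C (C (vec μ l)) * kspecG E t k U l) %ₘ
      toB (clsProd E t U)).coeff j) %ₘ toP (modulus (restBasis k U).length tm)).coeff i := by
  obtain ⟨hFF, hFl⟩ := clsProd_all h
  obtain ⟨hm1, hm2⟩ := kspec_modulus htm
  set m := modulus (restBasis k U).length tm with hmdef
  have hκ : (restBasis k U).length ≤ F.natDegree :=
    (restBasis_le k U).trans (kspec_length_le h)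
  have hdeg : 0 < (toP m).natDegree := by
    have := hm1.len
    omega
  have hrow : ∀ l : Fin (restBasis k U).length,
      vec (tvec E Q (clsProd E t U).length m (clsProd E t U)
        (gB E (clsProd E t U).length U ((restBasis k U).get l))) (j * (m.length - 1) + i) =
      (((Tfrob (Fintype.card K) (toB (clsProd E t U)) (kspecG E t k U l) %ₘ
        toB (clsProd E t U)).coeff j) %ₘ toP m).coeff i := by
    intro l
    have hg := gB_spec h (w := (clsProd E t U).length) hFl.symm
      (b := (restBasis k U).get l) (restBasis_length k U _ (List.get_mem _ _))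
    refine (tvec_spec h.good hQ hm1 hdeg (F := clsProd E t U)
      (G := gB E (clsProd E t U).length U ((restBasis k U).get l)) (by rw [hFF]; exact h.lifted.monic)
      (by rw [hFF]; exact hFl) (by rw [hFF]; exact h.lifted.tdeg)
      (fun r hr => (hg.2.2 r hr).le) (by rw [hg.2.1, hFl]; omega) ?_).2 j hj i hi
    refine hf.mono2 (by omega) ?_
    omega
  rw [kspec_Tfrob_sum, kspec_coeff_sum, kspec_vec_lincomb_fin]
  have hlen : (testRows E Q t U (restBasis k U) m).length = (restBasis k U).length := by
    rw [testRows, List.length_map]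
  have hget : ∀ l : Fin (testRows E Q t U (restBasis k U) m).length,
      (testRows E Q t U (restBasis k U) m).get l = tvec E Q (clsProd E t U).length m
        (clsProd E t U) (gB E (clsProd E t U).length U ((restBasis k U).get (Fin.cast hlen l))) := by
    intro l
    simp [testRows]
  refine Fintype.sum_equiv (finCongr hlen) _ _ fun l => ?_
  rw [hget l, hrow]
  rfl

theorem kspec_zero_iff (h : DatOk E t F U) {Q : FQ} {p : ℕ} (hQ : Q.Ok K p)
    (hf : Fits E (64 * (F.natDegree + 2)) (72 * F.natDegree + 400))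
    (k : ℕ) (tm : List K) (htm : 8 * (2 * (restBasis k U).length + 10) ≤ tm.length)
    (μ : List K) :
    (∀ j < ((clsProd E t U).length - 1) * ((modulus (restBasis k U).length tm).length - 1),
      vec (lincomb μ (testRows E Q t U (restBasis k U)
        (modulus (restBasis k U).length tm))) j = 0) ↔
    ∀ j, toP (modulus (restBasis k U).length tm) ∣
      ((Tfrob (Fintype.card K) (toB (clsProd E t U)) (∑ l : Fin (restBasis k U).length, C (C (vec μ l)) * kspecG E t k U l)) %ₘ
        (toB (clsProd E t U))).coeff j := by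
  obtain ⟨hFF, hFl⟩ := clsProd_all h
  obtain ⟨hm1, hm2⟩ := kspec_modulus htm
  constructor
  · intro hz j
    by_cases hj : j < (clsProd E t U).length - 1
    · rw [← modByMonic_eq_zero_iff_dvd hm1.monic]
      ext i
      rw [coeff_zero]
      by_cases hi : i < (modulus (restBasis k U).length tm).length - 1
      · rw [← kspec_vec_rows h hQ hf k tm htm μ hj hi]
        apply hz
        calc _ < j * ((modulus (restBasis k U).length tm).length - 1) +
              ((modulus (restBasis k U).length tm).length - 1) := Nat.add_lt_add_left hi _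
          _ = (j + 1) * ((modulus (restBasis k U).length tm).length - 1) := by ring
          _ ≤ _ := Nat.mul_le_mul_right _ hj
      · apply coeff_eq_zero_of_degree_lt
        refine (degree_modByMonic_lt _ hm1.monic).trans_le ?_
        rw [degree_eq_natDegree hm1.monic.ne_zero]
        have := hm1.len
        exact_mod_cast (by omega :
          (toP (modulus (restBasis k U).length tm)).natDegree ≤ i)
    · have h0 : ((Tfrob (Fintype.card K) (toB (clsProd E t U))
          (∑ l : Fin (restBasis k U).length, C (C (vec μ l)) * kspecG E t k U l)) %ₘ (toB (clsProd E t U))).coeff j = 0 := by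
        have hmon : (toB (clsProd E t U)).Monic := by
          rw [hFF]
          exact h.lifted.monic
        apply coeff_eq_zero_of_degree_lt
        refine (degree_modByMonic_lt _ hmon).trans_le ?_
        rw [degree_eq_natDegree hmon.ne_zero, hFF]
        exact_mod_cast (by omega : F.natDegree ≤ j)
      rw [h0]
      exact dvd_zero _
  · intro hd s hs
    have hmpos : 0 < (modulus (restBasis k U).length tm).length - 1 := by omega
    have hdm := Nat.div_add_mod s ((modulus (restBasis k U).length tm).length - 1)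
    have hj : s / ((modulus (restBasis k U).length tm).length - 1) <
        (clsProd E t U).length - 1 := Nat.div_lt_of_lt_mul (by rwa [mul_comm])
    have hi := Nat.mod_lt s hmpos
    rw [← hdm, mul_comm ((modulus (restBasis k U).length tm).length - 1),
      kspec_vec_rows h hQ hf k tm htm μ hj hi,
      (modByMonic_eq_zero_iff_dvd hm1.monic).2 (hd _), coeff_zero]

end test

theorem kerU_spec [DecidableEq K] [Fintype K] {E : MEnv K} {t : ℕ} {F : K[X][X]}
    {U : List (Dat K)} (h : DatOk E t F U) {Q : FQ} {p : ℕ} (hQ : Q.Ok K p)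
    (hf : Fits E (64 * (F.natDegree + 2)) (72 * F.natDegree + 400)) (hF : 0 < F.natDegree)
    (k : ℕ) (tm : List K) (hm : ¬ BadMod (Fintype.card K) E t k U tm)
    (htm : 8 * (2 * (restBasis k U).length + 10) ≤ tm.length) :
    (∀ b ∈ kerVecs E Q t k U tm, ConstOn F (famP U) (fun i => vec b i)) ∧
    ∀ ν : Fin U.length → K, ConstOn F (famP U) ν →
      (∃ c : Fin (restBasis k U).length → K,
        ∀ i, ν i = ∑ l, c l * vec ((restBasis k U).get l) i) →
      ∃ c : Fin (kerVecs E Q t k U tm).length → K,
        ∀ i, ν i = ∑ l, c l * vec ((kerVecs E Q t k U tm).get l) i := by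
  obtain ⟨hFF, hFl⟩ := clsProd_all h
  refine ⟨?_, ?_⟩
  · intro b hb
    obtain ⟨c, hc, rfl⟩ := List.mem_map.1 hb
    obtain ⟨-, hc2⟩ := leftKerN_mem hc
    have hd := (kspec_zero_iff h hQ hf k tm htm c).1 hc2
    by_contra hcon
    apply hm
    refine ⟨fun l => vec c l, ?_, hd⟩
    rw [hFF]
    convert hcon using 3 with i
    exact (kspec_vec_lincomb_fin _ _ _).symm
  · rintro ν hν ⟨c, hc⟩
    set μ : List K := List.ofFn c with hμ
    have hμv : ∀ l : Fin (restBasis k U).length, vec μ l = c l := by
      intro l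
      rw [vec, hμ, List.getD_eq_getElem _ _ (by simp)]
      simp
    have hμl : μ.length = (testRows E Q t U (restBasis k U)
        (modulus (restBasis k U).length tm)).length := by
      rw [hμ, List.length_ofFn, testRows, List.length_map]
    have hg : ∀ l, _ := fun l : Fin (restBasis k U).length =>
      gB_spec h (w := (clsProd E t U).length) hFl.symm (b := (restBasis k U).get l)
        (restBasis_length k U _ (List.get_mem _ _))
    have hdvd : toB (clsProd E t U) ∣ Tfrob (Fintype.card K) (toB (clsProd E t U))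
        (∑ l : Fin (restBasis k U).length, C (C (vec μ l)) * kspecG E t k U l) := by
      rw [hFF]
      refine Tfrob_of_constOn h.lifted ν hν (w := (clsProd E t U).length) (by omega)
        (by have := h.lt; omega) ?_ ?_
      · have e : ν = fun i : Fin U.length => ∑ l, c l * vec ((restBasis k U).get l) i := funext hc
        rw [e, Gmu_sum (famP U) (fun l i => vec ((restBasis k U).get l) i) c]
        refine Cg.sum _ fun l _ => ?_
        rw [hμv]
        exact (Cg.refl _ _).mul (hg l).1
      · intro j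
        rw [finsetSum_coeff]
        have h1 : ∑ l : Fin (restBasis k U).length, (C (C (vec μ l)) * kspecG E t k U l).coeff j ∈
            degreeLT K (clsProd E t U).length := by
          refine Submodule.sum_mem _ fun l _ => ?_
          rw [coeff_C_mul, ← smul_eq_C_mul]
          refine Submodule.smul_mem _ _ (mem_degreeLT.2 ?_)
          rw [kspecG, coeff_toB]
          refine (degree_toP_lt _).trans_le ?_
          have h2 : ((gB E (clsProd E t U).length U ((restBasis k U).get l)).getD j []).length ≤
              (clsProd E t U).length := by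
            by_cases hj : j < (gB E (clsProd E t U).length U ((restBasis k U).get l)).length
            · rw [List.getD_eq_getElem _ _ hj]
              exact ((hg l).2.2 _ (List.getElem_mem hj)).le
            · rw [List.getD_eq_default _ _ (by omega)]
              simp
          exact_mod_cast h2
        exact mem_degreeLT.1 h1
    have hz := (kspec_zero_iff h hQ hf k tm htm μ).2 (by
      intro j
      have hmon : (toB (clsProd E t U)).Monic := by
        rw [hFF]
        exact h.lifted.monic
      rw [(modByMonic_eq_zero_iff_dvd hmon).2 hdvd, coeff_zero]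
      exact dvd_zero _)
    obtain ⟨c', -, hc2'⟩ := leftKerN_span hμl hz
    refine ⟨fun l => vec c' l, fun i => ?_⟩
    rw [← kspec_vec_lincomb_fin, ← vec_stage2, hc i]
    rw [kspec_vec_lincomb_fin]
    refine Finset.sum_congr rfl fun l _ => ?_
    rw [← hμv l, hc2' l]
    rfl

end Pool.Agent.BiFac

end
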