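import Pool.Agent.Work.MP_8d07ed_lc.Bd.B05
import Pool.Agent.Work.MP_8d07ed_lc.Bd.B06
import Pool.Agent.Work.MP_8d07ed_lc.Bd.B03
import Pool.Agent.Work.MP_8d07ed_lc.Bd.B01
import Pool.Agent.Work.MP_8d07ed_lc.CostB
import Pool.Agent.Work.MP_8d07ed_lc.Bd.B02
import Pool.Agent.Work.MP_8d07ed_lc.Bd.B04
import Pool.Agent.Work.MP_8d07ed_lc.CostBound

/-! Bundle of small proof modules (one section per former module). -/

section

/-!
# The unresolved part
-/

set_option autoImplicit false

namespace Pool.Agent.BiFac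

open Polynomial Pool.Agent.TreeRAM

section unresAux

variable {K α : Type} [DecidableEq K]

omit [DecidableEq K] in
private theorem unresZip {w : List K} {U : List α} (hw : w.length = U.length) (d : K) :
    w.zip U = (List.finRange U.length).map (fun i : Fin U.length => (w.getD i d, U.get i)) := by
  apply List.ext_getElem
  · simp [hw]
  · intro i h1 h2
    have h3 : i < w.length := by
      rw [List.length_zip] at h1
      exact lt_of_lt_of_le h1 (min_le_left _ _)
    simp [List.getD_eq_getElem?_getD, List.getElem?_eq_getElem h3]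

private theorem unresSel {w : List K} {U : List α} (hw : w.length = U.length) (d k : K) :
    sel k w U = ((List.finRange U.length).filter
      (fun i : Fin U.length => decide (w.getD i d = k))).map U.get := by
  unfold sel
  rw [unresZip hw d, List.filter_map, List.map_map]
  rfl

/-- The list of the indices of the selected classes. -/
private theorem unresList {w : List K} {U : List α} (hw : w.length = U.length) (d : K)
    (js : List (Fin U.length)) (hjs : (js.map (fun i : Fin U.length => w.getD i d)).Nodup)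
    (hall : ∀ i : Fin U.length, ∃ j ∈ js, w.getD (j : Fin U.length) d = w.getD i d)
    (q : List α → Bool) :
    ∃ L : List (Fin U.length), L.Nodup ∧
      ((js.map (fun i : Fin U.length => sel (w.getD i d) w U)).filter q).flatten = L.map U.get ∧
      ∀ i : Fin U.length, i ∈ L ↔ q (sel (w.getD i d) w U) = true := by
  set js' := js.filter (fun i : Fin U.length => q (sel (w.getD i d) w U)) with hjs'
  refine ⟨js'.flatMap (fun i : Fin U.length => (List.finRange U.length).filter
    (fun j : Fin U.length => decide (w.getD j d = w.getD i d))), ?_, ?_, ?_⟩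
  · rw [List.nodup_flatMap]
    constructor
    · intro i _
      exact (List.nodup_finRange _).filter _
    · have h1 : (js'.map (fun i : Fin U.length => w.getD i d)).Nodup :=
        hjs.sublist ((List.filter_sublist).map _)
      rw [List.Nodup, List.pairwise_map] at h1
      refine h1.imp ?_
      intro a b hab x hxa hxb
      simp only [List.mem_filter, decide_eq_true_eq] at hxa hxb
      exact hab (hxa.2.symm.trans hxb.2)
  · rw [List.filter_map, List.map_flatMap, ← List.flatMap_def]
    simp only [← unresSel hw d]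
    rfl
  · intro i
    rw [List.mem_flatMap]
    constructor
    · rintro ⟨j, hj, hi⟩
      simp only [List.mem_filter, decide_eq_true_eq, hjs'] at hi hj
      rw [hi.2]
      exact hj.2
    · intro hq
      obtain ⟨j, hj, hji⟩ := hall i
      refine ⟨j, ?_, ?_⟩
      · rw [hjs', List.mem_filter]
        refine ⟨hj, ?_⟩
        rw [hji]
        exact hq
      · simp only [List.mem_filter, decide_eq_true_eq]
        exact ⟨List.mem_finRange _, hji.symm⟩

end unresAux

variable {K : Type} [Field K]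

theorem unres_spec [DecidableEq K] {E : MEnv K} {t : ℕ} {F : K[X][X]} {U : List (Dat K)}
    (h : DatOk E t F U) {w : List K} (hw : w.length = U.length) :
    ∃ ι : Fin (unres E t (classesBy w U)).length → Fin U.length, Function.Injective ι ∧
      (∀ j, (unres E t (classesBy w U)).get j = U.get (ι j)) ∧
      ∀ i, (∃ j, ι j = i) ↔ ¬ ResCl (2 ^ t) (famP U) (onU U w) i := by
  obtain ⟨js, h1, h2, h3⟩ := classesBy_eq U hw
  obtain ⟨L, hL1, hL2, hL3⟩ := unresList hw 0 js h2 h3 (fun c => !isRes E t c)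
  have hun : unres E t (classesBy w U) = L.map U.get := by
    rw [unres, h1]
    exact hL2
  have hmem : ∀ i : Fin U.length, i ∈ L ↔ ¬ ResCl (2 ^ t) (famP U) (onU U w) i := by
    intro i
    rw [hL3 i, ← isRes_iff h hw i, Bool.not_eq_true', ← Bool.not_eq_true]
    rfl
  have hlen : (unres E t (classesBy w U)).length = L.length := by rw [hun, List.length_map]
  refine ⟨fun j => L.get (Fin.cast hlen j), ?_, ?_, ?_⟩
  · intro a b hab
    have := List.nodup_iff_injective_get.1 hL1 hab
    exact Fin.cast_injective hlen this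
  · intro j
    simp only [List.get_eq_getElem, Fin.val_cast]
    have : ∀ (M : List (Dat K)) (hM : M = L.map U.get) (i : ℕ) (hi : i < M.length)
        (hi' : i < L.length), M[i] = U[(L[i] : ℕ)] := by
      rintro M rfl i hi hi'
      simp
    exact this _ hun j.1 j.2 (hlen ▸ j.2)
  · intro i
    rw [← hmem i]
    constructor
    · rintro ⟨j, rfl⟩
      exact List.get_mem _ _
    · intro hi
      obtain ⟨k, hk⟩ := List.get_of_mem hi
      exact ⟨Fin.cast hlen.symm k, by rw [← hk]; rfl⟩

end Pool.Agent.BiFac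

end

section

/-!
# Undoing the change of coordinates
-/

set_option autoImplicit false

namespace Pool.Agent.BiFac

open Polynomial Pool.Agent.TreeRAM

variable {K : Type} [Field K]

omit [Field K] in
private theorem unsh_fits {E : MEnv K} {d n : ℕ} (h : Fits E (512 * (d + 2)) (d + 2))
    (hn : n ≤ d) : Fits E (8 * (n + 2)) (n + 1) := by
  unfold Fits at h ⊢
  refine le_trans ?_ h
  have h1 : 8 * (8 * (n + 2) + 1) ≤ 8 * (512 * (d + 2) + 1) := by omega
  exact Nat.mul_le_mul h1 (by omega)

private theorem unsh_totalDegree {f : K[X][X]} (a b : K) (hf : TDeg f.natDegree f) :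
    (toMv (shear a b f)).totalDegree = f.natDegree := by
  apply le_antisymm
  · exact (tdeg_iff_totalDegree _ _).1 (hf.shear a b)
  · have h1 : TDeg (toMv (shear a b f)).totalDegree (shear a b f) :=
      (tdeg_iff_totalDegree _ _).2 le_rfl
    have h2 := h1.shear (-a) (-b)
    rw [shear_neg_shear] at h2
    exact h2.natDegree_le

private theorem unsh_isUnit {c : K} (hc : c ≠ 0) : IsUnit (C (C c) : K[X][X]) := by
  have h : IsUnit c := isUnit_iff_ne_zero.2 hc
  exact (h.map (C : K →+* K[X])).map (C : K[X] →+* K[X][X])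

theorem unshear_spec {L : Type} [Field L] [Fintype K] [Fintype L] [Algebra K L]
    [DecidableEq L] {E : MEnv L} (hE : E.Good) {bits : List Bool} {k : ℕ}
    (hb : bval bits ^ k = Fintype.card K) {N : ℕ} (hN : 0 < N)
    (hL : Fintype.card L = Fintype.card K ^ N) {F : K[X][X]} (hF : F ≠ 0) {d : ℕ}
    (hd : (toMv F).totalDegree = d) (hf : Fits E (512 * (d + 2)) (d + 2)) {a b c : L}
    {s : Finset L[X][X]} {e : L[X][X] → ℕ} (hc : c ≠ 0)
    (hs : ∀ f ∈ s, Irreducible f ∧ f.Monic ∧ 0 < e f)
    (hp : shear a b (map2 (algebraMap K L) F) = C (C c) * ∏ f ∈ s, f ^ e f)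
    (hnd : (shear a b (map2 (algebraMap K L) F)).natDegree = d)
    (hsep : (red (∏ f ∈ s, f)).Separable) {zs : List (List L × ℕ)}
    (hz : ∀ z ∈ zs, MP z.1 ∧ Irreducible (toP z.1) ∧ 0 < z.2)
    (hn : (zs.map fun z => toP z.1).Nodup)
    (hzp : red (∏ f ∈ s, f ^ e f) = (zs.map (fun z => toP z.1 ^ z.2)).prod)
    {out : List (List (List L) × ℕ)} (hout : Factored (∏ f ∈ s, f) zs out) :
    ∃ Lf : List (MvPolynomial (Fin 2) K × ℕ), IsFactorization (toMv F) Lf ∧
      descendL E bits k N (out.map (fun z => (shearB E (z.1.length - 1) (-a) (-b) z.1, z.2))) =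
        Lf.map (fun g =>
          ((dense g.1.totalDegree g.1).map (List.map (algebraMap K L)), g.2)) := by
  classical
  have hcu : IsUnit (C (C c) : L[X][X]) := unsh_isUnit hc
  have hGm : (∏ f ∈ s, f ^ e f).Monic := monic_prod_of_monic _ _ fun f hf => (hs f hf).2.1.pow _
  -- the total degree
  have hTF : TDeg d (map2 (algebraMap K L) F) := by
    have h1 : TDeg d F := (tdeg_iff_totalDegree _ _).2 hd.le
    intro i j hij
    rw [Desc.coeff_map2, h1 i j hij, map_zero]
  have hTs : TDeg d (shear a b (map2 (algebraMap K L) F)) := hTF.shear a b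
  have hcc : (C (C c⁻¹) * C (C c) : L[X][X]) = 1 := by
    rw [← C_mul, ← C_mul, inv_mul_cancel₀ hc, C_1, C_1]
  have hGeq : (∏ f ∈ s, f ^ e f) = C (C c⁻¹) * shear a b (map2 (algebraMap K L) F) := by
    rw [hp, ← mul_assoc, hcc, one_mul]
  have hGd : (∏ f ∈ s, f ^ e f).natDegree = d := by
    rw [hp, natDegree_C_mul] at hnd
    · exact hnd
    · simpa using hc
  have hGt : TDeg (∏ f ∈ s, f ^ e f).natDegree (∏ f ∈ s, f ^ e f) := by
    rw [hGd, hGeq]
    have := (TDeg.C (n := 0) (p := (C c⁻¹ : L[X])) (by simp)).mul hTs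
    rwa [zero_add] at this
  have hdvd : ∀ f ∈ s, f ∣ ∏ f ∈ s, f ^ e f := fun f hf =>
    (dvd_pow_self f (hs f hf).2.2.ne').trans (Finset.dvd_prod_of_mem (fun f => f ^ e f) hf)
  have hft : ∀ f ∈ s, TDeg f.natDegree f ∧ f.natDegree ≤ d := by
    intro f hf
    refine ⟨TDeg.of_dvd_monic hGm hGt (hs f hf).2.1 (hdvd f hf), ?_⟩
    rw [← hGd]
    exact natDegree_le_of_dvd (hdvd f hf) hGm.ne_zero
  have hrad : (∏ f ∈ s, f) ∣ ∏ f ∈ s, f ^ e f :=
    Finset.prod_dvd_prod_of_dvd _ _ fun f hf => dvd_pow_self f (hs f hf).2.2.ne'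
  -- membership
  have hmem : ∀ z ∈ out, toB z.1 ∈ s := by
    intro z hz1
    obtain ⟨h1, h2, h3⟩ := (hout.mem (toB z.1)).1 ⟨z, hz1, rfl⟩
    exact mem_of_dvd_factorization hs rfl h1 h2 (h3.trans hrad)
  have hmem' : ∀ f ∈ s, ∃ z ∈ out, toB z.1 = f := fun f hf =>
    (hout.mem f).2 ⟨(hs f hf).1, (hs f hf).2.1, Finset.dvd_prod_of_mem (fun f => f) hf⟩
  -- labels
  have hlab : ∀ z ∈ out, z.2 = e (toB z.1) := by
    intro z hz1
    obtain ⟨y, hy, hyd, hyz⟩ := hout.label z hz1
    have hg1 : ∀ w ∈ zs.map (fun z => (toP z.1, z.2)),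
        Irreducible w.1 ∧ w.1.Monic ∧ 0 < w.2 := by
      intro w hw
      obtain ⟨v, hv, rfl⟩ := List.mem_map.1 hw
      obtain ⟨h1, h2, h3⟩ := hz v hv
      exact ⟨h2, h1.monic, h3⟩
    have hg2 : ((zs.map (fun z => (toP z.1, z.2))).map Prod.fst).Nodup := by
      rw [List.map_map]
      exact hn
    have hg3 : red (∏ f ∈ s, f ^ e f) =
        ((zs.map (fun z => (toP z.1, z.2))).map (fun z => z.1 ^ z.2)).prod := by
      rw [hzp, List.map_map]
      rfl
    have hg4 : (toP y.1, y.2) ∈ zs.map (fun z => (toP z.1, z.2)) := List.mem_map.2 ⟨y, hy, rfl⟩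
    have h1 := fibre_mult hs hsep hg1 hg2 hg3 (hmem z hz1) hg4 hyd
    rw [hyz]
    exact h1
  -- the sheared polynomials
  have hlen : ∀ z ∈ out, z.1.length = (toB z.1).natDegree + 1 := fun z hz1 => (hout.shape z hz1).1
  have htoB : ∀ z ∈ out, toB (shearB E (z.1.length - 1) (-a) (-b) z.1) =
      shear (-a) (-b) (toB z.1) := by
    intro z hz1
    have h1 := hft _ (hmem z hz1)
    have h2 : z.1.length - 1 = (toB z.1).natDegree := by
      rw [hlen z hz1]
      rfl
    rw [h2]
    exact toB_shearB hE _ _ h1.1 (unsh_fits hf h1.2)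
  -- the product
  have hprod : (out.map (fun z => toB z.1 ^ z.2)).prod = ∏ f ∈ s, f ^ e f := by
    have h1 : (out.map (fun z => toB z.1 ^ z.2)) =
        (out.map (fun z => toB z.1)).map (fun f => f ^ e f) := by
      rw [List.map_map]
      apply List.map_congr_left
      intro z hz1
      simp only [Function.comp]
      rw [← hlab z hz1]
    have h2 : (out.map (fun z => toB z.1)).toFinset = s := by
      ext f
      rw [List.mem_toFinset, List.mem_map]
      constructor
      · rintro ⟨z, hz1, rfl⟩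
        exact hmem z hz1
      · intro hf
        exact hmem' f hf
    rw [h1, ← List.prod_toFinset _ hout.nodup, h2]
  have hprod' : ((out.map (fun z => (shearB E (z.1.length - 1) (-a) (-b) z.1, z.2))).map
      (fun z => toB z.1 ^ z.2)).prod = shear (-a) (-b) (∏ f ∈ s, f ^ e f) := by
    rw [← hprod, map_list_prod, List.map_map, List.map_map]
    congr 1
    apply List.map_congr_left
    intro z hz1
    simp only [Function.comp]
    rw [htoB z hz1, map_pow]
  refine descendL_spec hE hb hN hL hF hd hf ?_ ?_ ?_ ?_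
  · intro z hz1
    obtain ⟨y, hy, rfl⟩ := List.mem_map.1 hz1
    refine ⟨?_, ?_, ?_⟩
    · intro r hr
      simp only at hr ⊢
      rw [rows_shearB _ _ _ _ _ r hr, length_shearB]
    · intro h0
      have h1 := length_shearB E (y.1.length - 1) (-a) (-b) y.1
      simp only at h0
      rw [h0] at h1
      simp at h1
    · simp only
      rw [htoB y hy, length_shearB, unsh_totalDegree _ _ (hft _ (hmem y hy)).1, hlen y hy]
      rfl
  · intro z hz1
    obtain ⟨y, hy, rfl⟩ := List.mem_map.1 hz1
    simp only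
    rw [htoB y hy, irreducible_shear, hlab y hy]
    exact ⟨(hs _ (hmem y hy)).1, (hs _ (hmem y hy)).2.2⟩
  · rw [List.pairwise_map]
    have h1 : out.Pairwise (fun z z' => toB z.1 ≠ toB z'.1) := List.pairwise_map.1 hout.nodup
    refine List.Pairwise.imp_of_mem ?_ h1
    intro z z' hz1 hz2 hne hass
    simp only at hass
    rw [htoB z hz1, htoB z' hz2] at hass
    have h2 := hass.map (shear a b)
    rw [shear_shear_neg, shear_shear_neg] at h2
    exact hne (eq_of_monic_of_associated (hs _ (hmem z hz1)).2.1 (hs _ (hmem z' hz2)).2.1 h2)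
  · rw [hprod']
    have h1 : map2 (algebraMap K L) F = C (C c) * shear (-a) (-b) (∏ f ∈ s, f ^ e f) := by
      have h2 := congrArg (shear (-a) (-b)) hp
      rw [shear_neg_shear, map_mul, shear_C_C] at h2
      exact h2
    rw [h1]
    exact (associated_unit_mul_right _ _ hcu)

end Pool.Agent.BiFac

end

section

/-!
# The cost of the squarefree part
-/

set_option autoImplicit false
set_option synthInstance.maxSize 100000

namespace Pool.Agent.BiFac

open Polynomial Pool.Agent.TreeRAM

variable {K : Type} [Field K]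

/-! ### Sizes -/

theorem c7_kerT_mono {a b : ℕ} (h : a ≤ b) : kerT a ≤ kerT b := by
  unfold kerT
  have h1 : nroot 20 (a + 1) ≤ nroot 20 (b + 1) :=
    (nroot_le_iff (by norm_num)).2 (le_trans (by omega) (nroot_spec (by norm_num) (b + 1)))
  exact Nat.mul_le_mul (Nat.pow_le_pow_left (by omega) 2) (Nat.pow_le_pow_left h1 19)

theorem c7_tot_flatten {α : Type} (L : List (List (List α))) :
    tot L.flatten = (L.map tot).sum := by
  induction L with
  | nil => rfl
  | cons a L ih => rw [List.flatten_cons, tot_append, ih, List.map_cons, List.sum_cons]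

omit [Field K] in
theorem c7_totD_flatten (L : List (List (Dat K))) : totD L.flatten = (L.map totD).sum := by
  unfold totD
  rw [List.map_flatten, c7_tot_flatten, List.map_map]
  rfl

omit [Field K] in
theorem c7_length_le_totD (U : List (Dat K)) : U.length ≤ totD U := by
  have := length_le_tot (U.map Prod.fst)
  rwa [List.length_map] at this

theorem c7_sum_sublist {α : Type} (f : α → ℕ) {L M : List α} (h : L.Sublist M) :
    (L.map f).sum ≤ (M.map f).sum := (h.map f).sum_le_sum (fun _ _ => Nat.zero_le _)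

theorem c7_totD_unres [DecidableEq K] (E : MEnv K) (t : ℕ) (cl : List (List (Dat K))) :
    totD (unres E t cl) ≤ (cl.map totD).sum := by
  unfold unres
  rw [c7_totD_flatten]
  exact c7_sum_sublist _ List.filter_sublist

theorem c7_map_fst_zip {α β : Type} (L : List α) (M : List β) :
    ((L.zip M).map Prod.fst).Sublist L := by
  induction L generalizing M with
  | nil => simp
  | cons a L ih =>
    cases M with
    | nil => simp
    | cons b M => simp [ih]

theorem c7_totD_sqData (Fs : List (List (List K))) (ms : List ℕ) (B : List (List K)) :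
    totD (sqData Fs ms B) ≤ tot Fs := tot_le_of_sublist (c7_map_fst_zip _ _)

theorem c7_length_winBasis [DecidableEq K] (E : MEnv K) (t n : ℕ) (Fs : List (List (List K)))
    (th : List K) : (winBasis E t n Fs th).length ≤ Fs.length := by
  unfold winBasis
  refine (length_leftKer _ _).trans ?_
  unfold winRows
  rw [List.length_map, length_traces]

theorem c7_rows_winBasis [DecidableEq K] (E : MEnv K) (t n : ℕ) (Fs : List (List (List K)))
    (th : List K) : ∀ b ∈ winBasis E t n Fs th, b.length = Fs.length := by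
  intro b hb
  unfold winBasis at hb
  rw [(leftKer_mem hb).1]
  unfold winRows
  rw [List.length_map, length_traces]

omit [Field K] in
theorem c7_sum_zip_le {α : Type} (w : List α) (B : List (List K)) {m : ℕ}
    (h : ∀ b ∈ B, b.length = m) :
    ((w.zip B).map (fun p => p.2.length + 1)).sum ≤ B.length * (m + 1) := by
  induction w generalizing B with
  | nil => simp
  | cons a w ih =>
    cases B with
    | nil => simp
    | cons b B =>
      simp only [List.zip_cons_cons, List.map_cons, List.sum_cons, List.length_cons]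
      have h1 := ih B (fun b hb => h b (List.mem_cons_of_mem _ hb))
      have h2 := h b (by simp)
      rw [h2, Nat.add_mul, Nat.one_mul]
      omega

theorem c7_stage2_le [DecidableEq K] (E : MEnv K) (Q : FQ) (t k : ℕ) (U : List (Dat K))
    (tm tc : List K) : ((stage2 E Q t k U tm tc).map totD).sum ≤ totD U ∧
      (stage2 E Q t k U tm tc).length ≤ U.length := by
  unfold stage2
  obtain ⟨h1, -, h3⟩ := sum_totD_classesBy (lincomb (lincomb tc (kerU E Q t U (restBasis k U)
    (modulus (restBasis k U).length tm))) (restBasis k U)) U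
  exact ⟨h1, h3.trans (length_lincomb_le (fun v hv => (restBasis_length k U v hv).le))⟩

theorem c7_clog_mono {a b : ℕ} (h : a ≤ b) : Nat.clog 2 a ≤ Nat.clog 2 b :=
  Nat.clog_mono_right 2 h

theorem c7_clog_mul (N : ℕ) : Nat.clog 2 (3 * N) + 1 ≤ 3 * (Nat.clog 2 N + 1) := by
  have h1 : 3 * N ≤ 2 ^ (Nat.clog 2 N + 2) := by
    have := Nat.le_pow_clog (b := 2) (by omega) N
    rw [pow_add]
    omega
  have h2 := (Nat.clog_le_iff_le_pow (b := 2) (by omega)).2 h1
  omega

/-! ### The last step -/

/-- The size of the input of the last step. -/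
def c7S (k : ℕ) (cl : List (List (Dat K))) : ℕ := (cl.map totD).sum + cl.length + k + 1

theorem c7_prod4 {a a' b b' c d d' : ℕ} (h1 : a ≤ a') (h2 : b ≤ b') (h3 : d ≤ d') :
    a * b * c * d ≤ a' * b' * c * d' :=
  Nat.mul_le_mul (Nat.mul_le_mul_right _ (Nat.mul_le_mul h1 h2)) h3

theorem c7_sqOut_ex : ∃ c, ∀ (K : Type) [Field K] [DecidableEq K],
    Comp K (fun z : (MEnv K × FQ) × (ℕ × ℕ) × List (List (Dat K)) × List K × List K =>
      sqOut z.1.1 z.1.2 z.2.1.1 z.2.1.2 z.2.2.1 z.2.2.2.1 z.2.2.2.2) c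
      (fun z => c7S z.2.1.2 z.2.2.1 * (2 ^ z.2.1.1 + c7S z.2.1.2 z.2.2.1) * (z.1.1.1 + 1) *
          (Nat.clog 2 (c7S z.2.1.2 z.2.2.1) + 1) +
        ((restBasis z.2.1.2 (unres z.1.1 z.2.1.1 z.2.2.1)).length + 1) *
          c7S z.2.1.2 z.2.2.1 ^ 2 * (z.1.1.1 + 1) *
          (Nat.clog 2 (c7S z.2.1.2 z.2.2.1) + 1) * z.1.2.lg +
        ((restBasis z.2.1.2 (unres z.1.1 z.2.1.1 z.2.2.1)).length + 1) ^ 3 *
          c7S z.2.1.2 z.2.2.1) :=
  ⟨_, fun K _ _ => by
    have hU : Comp K (fun z : (MEnv K × FQ) × (ℕ × ℕ) × List (List (Dat K)) × List K × List K =>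
        (z, unres z.1.1 z.2.1.1 z.2.2.1)) _ _ :=
      Comp.pair (h := Comp.id) (h' := (unres_ex.choose_spec K).comp
        (f := fun z : (MEnv K × FQ) × (ℕ × ℕ) × List (List (Dat K)) × List K × List K =>
          (z.1.1, z.2.1.1, z.2.2.1)) inferInstance)
    have hA := (resOut_ex.choose_spec K).comp
      (f := fun y : ((MEnv K × FQ) × (ℕ × ℕ) × List (List (Dat K)) × List K × List K) ×
        List (Dat K) => (y.1.1.1, y.1.2.1.1, y.1.2.2.1)) inferInstance
    have hS := (stage2_ex.choose_spec K).comp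
      (f := fun y : ((MEnv K × FQ) × (ℕ × ℕ) × List (List (Dat K)) × List K × List K) ×
        List (Dat K) => (y.1.1, (y.1.2.1.1, y.1.2.1.2), y.2, y.1.2.2.2.1, y.1.2.2.2.2))
        inferInstance
    have hM := (mapOut_ex.choose_spec K).comp
      (f := fun y : ((MEnv K × FQ) × (ℕ × ℕ) × List (List (Dat K)) × List K × List K) ×
        List (Dat K) => (y.1.1.1, y.1.2.1.1, stage2 y.1.1.1 y.1.1.2 y.1.2.1.1 y.1.2.1.2 y.2
          y.1.2.2.2.1 y.1.2.2.2.2))
        (Comp.pair (h := inferInstance) (h' := Comp.pair (h := inferInstance) (h' := hS)))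
    have hB := Comp.append (h := hA) (h' := hM)
    refine ((hB.comp hU).congr (g := fun z => sqOut z.1.1 z.1.2 z.2.1.1 z.2.1.2 z.2.2.1
      z.2.2.2.1 z.2.2.2.2) fun z => rfl).bigO 8 ?_
    rintro ⟨⟨E, Q⟩, ⟨t, k⟩, cl, tm, tc⟩
    dsimp only
    have hd := c7_totD_unres E t cl
    have hl := c7_length_le_totD (unres E t cl)
    have hst := c7_stage2_le E Q t k (unres E t cl) tm tc
    have hfl : (List.map (clsOut E t) (List.filter (isRes E t) cl)).length ≤ cl.length := by
      rw [List.length_map]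
      exact List.length_filter_le _ _
    obtain ⟨hs1, hs2⟩ := hst
    generalize (List.map (clsOut E t) (List.filter (isRes E t) cl)).length = m1 at *
    generalize (List.map totD (stage2 E Q t k (unres E t cl) tm tc)).sum = s2 at *
    generalize (stage2 E Q t k (unres E t cl) tm tc).length = l2 at *
    generalize (restBasis k (unres E t cl)).length + 1 = κ at *
    generalize totD (unres E t cl) = d at *
    generalize (unres E t cl).length = l at *
    have hS : (cl.map totD).sum + cl.length + k + 1 = c7S k cl := rfl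
    generalize c7S k cl = S at *
    generalize (cl.map totD).sum = s at *
    generalize 2 ^ t = A at *
    have b1 : (s + cl.length + 1) * (A + 1) * (E.1 + 1) * (Nat.clog 2 (s + 1) + 1) ≤
        S * (A + S) * (E.1 + 1) * (Nat.clog 2 S + 1) :=
      c7_prod4 (by omega) (by omega) (Nat.succ_le_succ (c7_clog_mono (by omega)))
    have b2 : (s + cl.length + 1) * (A + s + 1) * (E.1 + 1) * (Nat.clog 2 (s + 1) + 1) ≤
        S * (A + S) * (E.1 + 1) * (Nat.clog 2 S + 1) :=
      c7_prod4 (by omega) (by omega) (Nat.succ_le_succ (c7_clog_mono (by omega)))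
    have b3 : (d + k + 1) * (A + 1) * (E.1 + 1) * (Nat.clog 2 (d + k + 1) + 1) ≤
        S * (A + S) * (E.1 + 1) * (Nat.clog 2 S + 1) :=
      c7_prod4 (by omega) (by omega) (Nat.succ_le_succ (c7_clog_mono (by omega)))
    have b4 : κ * (d + k + 1) ^ 2 * (E.1 + 1) * (Nat.clog 2 (d + k + 1) + 1) * Q.lg ≤
        κ * S ^ 2 * (E.1 + 1) * (Nat.clog 2 S + 1) * Q.lg :=
      Nat.mul_le_mul_right _ (c7_prod4 le_rfl (Nat.pow_le_pow_left (by omega) 2)
        (Nat.succ_le_succ (c7_clog_mono (by omega))))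
    have b5 : κ ^ 3 * (d + k + 1) ≤ κ ^ 3 * S := Nat.mul_le_mul_left _ (by omega)
    have b6 : (s2 + l2 + 1) * (A + s2 + 1) * (E.1 + 1) * (Nat.clog 2 (s2 + 1) + 1) ≤
        (2 * S) * (A + S) * (E.1 + 1) * (Nat.clog 2 S + 1) :=
      c7_prod4 (by omega) (by omega) (Nat.succ_le_succ (c7_clog_mono (by omega)))
    have b7 : S ≤ S * (A + S) * (E.1 + 1) * (Nat.clog 2 S + 1) := by
      have h1 : 1 ≤ (A + S) * ((E.1 + 1) * (Nat.clog 2 S + 1)) :=
        Nat.mul_pos (by omega) (Nat.mul_pos (by omega) (by omega))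
      calc S = S * 1 := (Nat.mul_one S).symm
        _ ≤ S * ((A + S) * ((E.1 + 1) * (Nat.clog 2 S + 1))) := Nat.mul_le_mul_left _ h1
        _ = _ := by ring
    have e6 : (2 * S) * (A + S) * (E.1 + 1) * (Nat.clog 2 S + 1) =
        2 * (S * (A + S) * (E.1 + 1) * (Nat.clog 2 S + 1)) := by ring
    rw [e6] at b6
    generalize S * (A + S) * (E.1 + 1) * (Nat.clog 2 S + 1) = X at *
    generalize κ * S ^ 2 * (E.1 + 1) * (Nat.clog 2 S + 1) * Q.lg = Y at *
    generalize κ ^ 3 * S = Z at *
    omega⟩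

/-! ### The classes of the first stage -/

theorem c7_sqClasses_ex : ∃ c, ∀ (K : Type) [Field K] [DecidableEq K],
    Comp K (fun z : List K × List (List (List K)) × List ℕ × List (List K) =>
      sqClasses z.1 z.2.1 z.2.2.1 z.2.2.2) c
      (fun z => ((z.1.zip z.2.2.2).map (fun p => p.2.length + 1)).sum +
        ((lincomb z.1 z.2.2.2).length + 1) ^ 2 + (z.2.2.2.length + 1) * (z.2.1.length + 1)) :=
  ⟨_, fun K _ _ => by
    have h1 : Comp K (fun z : List K × List (List (List K)) × List ℕ × List (List K) =>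
      classesBy (lincomb z.1 z.2.2.2) (z.2.1.zip (z.2.2.1.zip (transB z.2.1.length z.2.2.2))))
      _ _ := inferInstance
    refine (h1.congr (g := fun z => sqClasses z.1 z.2.1 z.2.2.1 z.2.2.2) fun z => rfl).bigO 4 ?_
    rintro ⟨w, Fs, ms, B⟩
    dsimp only
    rw [length_transB]
    have h2 : min ms.length Fs.length ≤ Fs.length := Nat.min_le_right _ _
    have h3 : min Fs.length (ms.zip (transB Fs.length B)).length ≤ Fs.length :=
      Nat.min_le_left _ _
    have h4 : Fs.length + 1 ≤ (B.length + 1) * (Fs.length + 1) :=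
      Nat.le_mul_of_pos_left _ (by omega)
    omega⟩

/-! ### The main algorithm -/

/-- The size of the input of `sqMain`. -/
def sqSize (G : List (List K)) (zs : List (List K × ℕ)) : ℕ :=
  G.length + tot (zs.map Prod.fst) + 1

/-- The number of the tests in the second stage. -/
noncomputable def sqKap [DecidableEq K] (E : MEnv K) (t : ℕ) (G : List (List K))
    (zs : List (List K × ℕ)) (th tw : List K) : ℕ :=
  (restBasis (sqBas E t G zs th).length (sqUn E t G zs th tw)).length

theorem sqMain_ex : ∃ c, ∀ (K : Type) [Field K] [DecidableEq K],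
    Comp K (fun z : (MEnv K × FQ) × ℕ × (List (List K) × List (List K × ℕ)) ×
        (List K × List K) × (List K × List K) =>
      sqMain z.1.1 z.1.2 z.2.1 z.2.2.1.1 z.2.2.1.2 z.2.2.2.1.1 z.2.2.2.1.2 z.2.2.2.2.1
        z.2.2.2.2.2) c
      (fun z => kerT (2 * sqSize z.2.2.1.1 z.2.2.1.2) +
        sqSize z.2.2.1.1 z.2.2.1.2 * (2 ^ z.2.1 + sqSize z.2.2.1.1 z.2.2.1.2) *
          (z.1.1.1 + 1) * (Nat.clog 2 (sqSize z.2.2.1.1 z.2.2.1.2) + 1) ^ 2 * (z.2.1 + 1) +
        (sqKap z.1.1 z.2.1 z.2.2.1.1 z.2.2.1.2 z.2.2.2.1.1 z.2.2.2.1.2 + 1) *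
          sqSize z.2.2.1.1 z.2.2.1.2 ^ 2 * (z.1.1.1 + 1) *
          (Nat.clog 2 (sqSize z.2.2.1.1 z.2.2.1.2) + 1) * z.1.2.lg +
        (sqKap z.1.1 z.2.1 z.2.2.1.1 z.2.2.1.2 z.2.2.2.1.1 z.2.2.2.1.2 + 1) ^ 3 *
          sqSize z.2.2.1.1 z.2.2.1.2) :=
  ⟨_, fun K _ _ => by
    have h1 : Comp K (fun z : (MEnv K × FQ) × ℕ × (List (List K) × List (List K × ℕ)) ×
        (List K × List K) × (List K × List K) =>
        (z, lift z.1.1 z.2.1 z.2.2.1.1 (z.2.2.1.2.map Prod.fst))) _ _ :=
      Comp.pair (h := Comp.id) (h' := (lift_ex.choose_spec K).comp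
        (f := fun z : (MEnv K × FQ) × ℕ × (List (List K) × List (List K × ℕ)) ×
        (List K × List K) × (List K × List K) =>
          (z.1.1, z.2.1, z.2.2.1.1, z.2.2.1.2.map Prod.fst)) inferInstance)
    have h2 : Comp K (fun y : ((MEnv K × FQ) × ℕ × (List (List K) × List (List K × ℕ)) ×
        (List K × List K) × (List K × List K)) × List (List (List K)) =>
        (y, winBasis y.1.1.1 y.1.2.1 (y.1.2.2.1.1.length - 1) y.2 y.1.2.2.2.1.1)) _ _ :=
      Comp.pair (h := Comp.id) (h' := (winBasis_ex.choose_spec K).comp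
        (f := fun y : ((MEnv K × FQ) × ℕ × (List (List K) × List (List K × ℕ)) ×
        (List K × List K) × (List K × List K)) × List (List (List K)) =>
          (y.1.1.1, (y.1.2.1, y.1.2.2.1.1.length - 1), y.2, y.1.2.2.2.1.1)) inferInstance)
    have h3 : Comp K (fun y : (((MEnv K × FQ) × ℕ × (List (List K) × List (List K × ℕ)) ×
        (List K × List K) × (List K × List K)) × List (List (List K))) × List (List K) =>
        (y.1.1, y.2.length, sqClasses y.1.1.2.2.2.1.2 y.1.2 (y.1.1.2.2.1.2.map Prod.snd) y.2))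
        _ _ :=
      Comp.pair (h := inferInstance) (h' := Comp.pair (h := inferInstance)
        (h' := (c7_sqClasses_ex.choose_spec K).comp
        (f := fun y : (((MEnv K × FQ) × ℕ × (List (List K) × List (List K × ℕ)) ×
        (List K × List K) × (List K × List K)) × List (List (List K))) × List (List K) =>
          (y.1.1.2.2.2.1.2, y.1.2, y.1.1.2.2.1.2.map Prod.snd, y.2)) inferInstance))
    have h4 := (c7_sqOut_ex.choose_spec K).comp
      (f := fun y : ((MEnv K × FQ) × ℕ × (List (List K) × List (List K × ℕ)) ×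
        (List K × List K) × (List K × List K)) × ℕ × List (List (Dat K)) =>
        (y.1.1, (y.1.2.1, y.2.1), y.2.2, y.1.2.2.2.2.1, y.1.2.2.2.2.2)) inferInstance
    refine ((h4.comp (h3.comp (h2.comp h1))).congr (g := fun z =>
      sqMain z.1.1 z.1.2 z.2.1 z.2.2.1.1 z.2.2.1.2 z.2.2.2.1.1 z.2.2.2.1.2 z.2.2.2.2.1
        z.2.2.2.2.2) fun z => rfl).bigO 100 ?_
    clear h4 h3 h2 h1
    rintro ⟨⟨E, Q⟩, t, ⟨G, zs⟩, ⟨th, tw⟩, tm, tc⟩
    dsimp only
    have hzl : (List.map (fun b : List K × ℕ => 0 + 1) zs).sum = zs.length := by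
      rw [List.map_const', List.sum_replicate, smul_eq_mul, zero_add, mul_one]
    have hgl : (zs.map Prod.fst).length = zs.length := List.length_map _
    have hgt := length_le_tot (zs.map Prod.fst)
    have hFl := length_lift E t G (zs.map Prod.fst)
    have hFt := tot_lift_eq E t G (zs.map Prod.fst)
    have hκ : (restBasis (winBasis E t (G.length - 1) (lift E t G (List.map Prod.fst zs))
        th).length (unres E t (sqClasses tw (lift E t G (List.map Prod.fst zs))
          (List.map Prod.snd zs) (winBasis E t (G.length - 1)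
            (lift E t G (List.map Prod.fst zs)) th)))).length + 1 =
        sqKap E t G zs th tw + 1 := rfl
    rw [hzl, hκ]
    clear hκ hzl
    have hBl := c7_length_winBasis E t (G.length - 1) (lift E t G (zs.map Prod.fst)) th
    have hBr := c7_rows_winBasis E t (G.length - 1) (lift E t G (zs.map Prod.fst)) th
    generalize sqKap E t G zs th tw + 1 = κ
    have hN : G.length + tot (zs.map Prod.fst) + 1 = sqSize G zs := rfl
    generalize sqSize G zs = N at *
    generalize lift E t G (zs.map Prod.fst) = F at *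
    generalize winBasis E t (G.length - 1) F th = B at *
    have hcl : c7S B.length (sqClasses tw F (zs.map Prod.snd) B) ≤
        tot F + F.length + B.length + 1 ∧ (lincomb tw B).length ≤ F.length := by
      obtain ⟨a1, -, a3⟩ := sum_totD_classesBy (lincomb tw B) (sqData F (zs.map Prod.snd) B)
      have a2 := c7_totD_sqData F (zs.map Prod.snd) B
      have a4 : (lincomb tw B).length ≤ F.length :=
        length_lincomb_le (fun v hv => (hBr v hv).le)
      refine ⟨?_, a4⟩
      have a5 : c7S B.length (sqClasses tw F (zs.map Prod.snd) B) =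
        ((classesBy (lincomb tw B) (sqData F (zs.map Prod.snd) B)).map totD).sum +
          (classesBy (lincomb tw B) (sqData F (zs.map Prod.snd) B)).length + B.length + 1 := rfl
      rw [a5]
      omega
    obtain ⟨hS, hw⟩ := hcl
    have hz := c7_sum_zip_le tw B hBr
    rw [hgl]
    generalize c7S B.length (sqClasses tw F (zs.map Prod.snd) B) = S at *
    generalize (List.map (fun p : K × List K => p.2.length + 1) (tw.zip B)).sum = zz at *
    generalize (lincomb tw B).length = wl at *
    clear hBr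
    rw [hFt] at hS
    rw [hFt, hN]
    rw [hgl] at hgt hFl
    generalize tot (zs.map Prod.fst) = T at *
    generalize F.length = r at *
    generalize B.length = b at *
    generalize G.length = g at *
    generalize zs.length = z at *
    generalize hA : 2 ^ t = A at *
    have hN3 : S ≤ 3 * N := by omega
    have hL1 : Nat.clog 2 z + 1 ≤ Nat.clog 2 N + 1 := Nat.succ_le_succ (c7_clog_mono (by omega))
    have hL2 : Nat.clog 2 (g - 1 + T + 1) + 1 ≤ Nat.clog 2 N + 1 :=
      Nat.succ_le_succ (c7_clog_mono (by omega))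
    have hL3 : Nat.clog 2 S + 1 ≤ 3 * (Nat.clog 2 N + 1) :=
      (Nat.succ_le_succ (c7_clog_mono hN3)).trans (c7_clog_mul N)
    have hk := c7_kerT_mono (a := 2 * (g - 1 + T + 1)) (b := 2 * N) (by omega)
    generalize kerT (2 * (g - 1 + T + 1)) = k1 at *
    generalize kerT (2 * N) = k2 at *
    generalize Nat.clog 2 z + 1 = L1 at *
    generalize Nat.clog 2 (g - 1 + T + 1) + 1 = L2 at *
    generalize Nat.clog 2 S + 1 = L3 at *
    have hLp : 0 < Nat.clog 2 N + 1 := by omega
    generalize Nat.clog 2 N + 1 = L at *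
    have hX : N * (A + N) * (E.1 + 1) * L ^ 2 * 1 ≤ N * (A + N) * (E.1 + 1) * L ^ 2 * (t + 1) :=
      Nat.mul_le_mul_left _ (by omega)
    have hX0 : N * (A + N) * (E.1 + 1) * L ≤ N * (A + N) * (E.1 + 1) * L ^ 2 :=
      Nat.mul_le_mul_left _ (Nat.le_self_pow (by omega) L)
    have hX1 : N * (A + N) ≤ N * (A + N) * (E.1 + 1) * L := by
      rw [mul_assoc (N * (A + N))]
      exact Nat.le_mul_of_pos_right _ (Nat.mul_pos (by omega) hLp)
    have hX2 : N * N ≤ N * (A + N) := Nat.mul_le_mul_left _ (by omega)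
    have hX3 : N ≤ N * N := Nat.le_mul_of_pos_right _ (by omega)
    have c1 : N * A * (E.1 + 1) * L1 ^ 2 * (t + 1) ≤
        N * (A + N) * (E.1 + 1) * L ^ 2 * (t + 1) :=
      Nat.mul_le_mul_right _ (c7_prod4 le_rfl (by omega) (Nat.pow_le_pow_left hL1 2))
    have c2 : (T + 1) ^ 2 ≤ N * N := by
      rw [sq]
      exact Nat.mul_le_mul (by omega) (by omega)
    have c4 : (g - 1 + T + 1) * (A + (g - 1) + T + 1) * (E.1 + 1) * L2 ^ 2 ≤
        N * (A + N) * (E.1 + 1) * L ^ 2 :=
      c7_prod4 (by omega) (by omega) (Nat.pow_le_pow_left hL2 2)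
    have c6 : b * (r + 1) ≤ N * N := Nat.mul_le_mul (by omega) (by omega)
    have c7 : (wl + 1) ^ 2 ≤ N * N := by
      rw [sq]
      exact Nat.mul_le_mul (by omega) (by omega)
    have c8 : (b + 1) * (r + 1) ≤ N * N := Nat.mul_le_mul (by omega) (by omega)
    have c9 : S * (A + S) * (E.1 + 1) * L3 ≤ (3 * N) * (3 * (A + N)) * (E.1 + 1) * (3 * L) :=
      c7_prod4 hN3 (by omega) hL3
    have e9 : (3 * N) * (3 * (A + N)) * (E.1 + 1) * (3 * L) =
      27 * (N * (A + N) * (E.1 + 1) * L) := by ring
    have c10 : κ * S ^ 2 * (E.1 + 1) * L3 * Q.lg ≤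
        κ * (3 * N) ^ 2 * (E.1 + 1) * (3 * L) * Q.lg :=
      Nat.mul_le_mul_right _ (c7_prod4 le_rfl (Nat.pow_le_pow_left hN3 2) hL3)
    have e10 : κ * (3 * N) ^ 2 * (E.1 + 1) * (3 * L) * Q.lg =
      27 * (κ * N ^ 2 * (E.1 + 1) * L * Q.lg) := by ring
    have c11 : κ ^ 3 * S ≤ κ ^ 3 * (3 * N) := Nat.mul_le_mul_left _ hN3
    have e11 : κ ^ 3 * (3 * N) = 3 * (κ ^ 3 * N) := by ring
    rw [mul_one] at hX
    rw [e9] at c9
    rw [e10] at c10
    rw [e11] at c11
    generalize S * (A + S) * (E.1 + 1) * L3 = v1 at *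
    generalize κ * S ^ 2 * (E.1 + 1) * L3 * Q.lg = v2 at *
    generalize κ ^ 3 * S = v3 at *
    generalize κ * N ^ 2 * (E.1 + 1) * L * Q.lg = Y at *
    generalize κ ^ 3 * N = Z at *
    generalize N * A * (E.1 + 1) * L1 ^ 2 * (t + 1) = v4 at *
    generalize (g - 1 + T + 1) * (A + (g - 1) + T + 1) * (E.1 + 1) * L2 ^ 2 = v5 at *
    generalize N * (A + N) * (E.1 + 1) * L ^ 2 * (t + 1) = X at *
    generalize N * (A + N) * (E.1 + 1) * L ^ 2 = X' at *
    generalize N * (A + N) * (E.1 + 1) * L = X'' at *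
    generalize N * (A + N) = X3 at *
    generalize N * N = N2 at *
    generalize b * (r + 1) = u1 at *
    generalize (b + 1) * (r + 1) = u2 at *
    generalize (wl + 1) ^ 2 = u3 at *
    generalize (T + 1) ^ 2 = u4 at *
    omega⟩

noncomputable def sqMainCd : Cd := sqMain_ex.choose

instance compSqMain [DecidableEq K] {α : Type} [Enc K α] {e : α → MEnv K} {Q : α → FQ}
    {n : α → ℕ} {G : α → List (List K)} {zs : α → List (List K × ℕ)}
    {th tw tm tc : α → List K} {c1 c2 c3 c4 c5 c6 c7 c8 c9 : Cd}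
    {T1 T2 T3 T4 T5 T6 T7 T8 T9 : α → ℕ} [h1 : Comp K e c1 T1] [h2 : Comp K Q c2 T2]
    [h3 : Comp K n c3 T3] [h4 : Comp K G c4 T4] [h5 : Comp K zs c5 T5] [h6 : Comp K th c6 T6]
    [h7 : Comp K tw c7 T7] [h8 : Comp K tm c8 T8] [h9 : Comp K tc c9 T9] :
    Comp K (fun x => sqMain (e x) (Q x) (n x) (G x) (zs x) (th x) (tw x) (tm x) (tc x))
      (sqMainCd.comp ((c1.pair c2).pair (c3.pair ((c4.pair c5).pair ((c6.pair c7).pair
        (c8.pair c9))))))
      (fun x => T1 x + T2 x + (T3 x + (T4 x + T5 x + (T6 x + T7 x + (T8 x + T9 x)))) +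
        (kerT (2 * sqSize (G x) (zs x)) +
        sqSize (G x) (zs x) * (2 ^ n x + sqSize (G x) (zs x)) *
          ((e x).1 + 1) * (Nat.clog 2 (sqSize (G x) (zs x)) + 1) ^ 2 * (n x + 1) +
        (sqKap (e x) (n x) (G x) (zs x) (th x) (tw x) + 1) *
          sqSize (G x) (zs x) ^ 2 * ((e x).1 + 1) *
          (Nat.clog 2 (sqSize (G x) (zs x)) + 1) * (Q x).lg +
        (sqKap (e x) (n x) (G x) (zs x) (th x) (tw x) + 1) ^ 3 *
          sqSize (G x) (zs x))) :=
  (sqMain_ex.choose_spec K).comp (f := fun x =>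
    ((e x, Q x), n x, (G x, zs x), (th x, tw x), (tm x, tc x)))
    (Comp.pair (h := Comp.pair (h := h1) (h' := h2)) (h' := Comp.pair (h := h3)
      (h' := Comp.pair (h := Comp.pair (h := h4) (h' := h5)) (h' := Comp.pair
        (h := Comp.pair (h := h6) (h' := h7)) (h' := Comp.pair (h := h8) (h' := h9))))))

end Pool.Agent.BiFac

end

section

/-!
# Probabilities of the bad events
-/

set_option autoImplicit false

namespace Pool.Agent.BiFac

open Polynomial Pool.Agent.TreeRAM

variable {K : Type} [Field K]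

/-- an event that is determined by the first entries of the tape -/
theorem pr_prefix [Fintype K] {k m : ℕ} (hk : k ≤ m) {B B' : List K → Prop}
    (h : ∀ l : List K, l.length = m → B l → B' (l.take k)) : pr K m B ≤ pr K k B' := by
  obtain ⟨b, rfl⟩ := Nat.exists_eq_add_of_le hk
  have h1 : pr K (0 + k + b) (fun l => B' ((l.drop 0).take k)) ≤ pr K k B' :=
    pr_seg (B := fun _ y _ => B' y) (fun x z _ _ => le_rfl)
  rw [Nat.zero_add] at h1
  refine le_trans (pr_mono ?_) h1
  intro l hl hB
  rw [List.drop_zero]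
  exact h l hl hB

theorem pr_notSep [Fintype K] (r : ℕ) (B : List (List K)) {m : ℕ} (hm : B.length ≤ m) :
    pr K m (fun tw => NotSep r B tw) ≤ (r : ℝ) ^ 2 / Fintype.card K := by
  have h1 : pr K m (fun tw => NotSep r B tw) ≤ pr K B.length (fun y =>
      ∃ i j : Fin r, ∑ l : Fin B.length, vec y l * vec (B.get l) i =
        ∑ l : Fin B.length, vec y l * vec (B.get l) j ∧
        ¬ ∀ l : Fin B.length, vec (B.get l) i = vec (B.get l) j) := by
    refine pr_prefix hm ?_
    rintro tw - ⟨i, hi, j, hj, h1, h2⟩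
    refine ⟨⟨i, hi⟩, ⟨j, hj⟩, ?_, ?_⟩
    · have key : ∀ i : ℕ, vec (lincomb tw B) i =
          ∑ l : Fin B.length, vec (tw.take B.length) l * vec (B.get l) i := by
        intro i
        rw [LK.vec_lincomb_sum (b := B.length) le_rfl, Finset.sum_range]
        refine Finset.sum_congr rfl fun l _ => ?_
        have e1 : vec (tw.take B.length) l = vec tw l := by
          unfold vec
          rw [List.getD_eq_getElem?_getD, List.getD_eq_getElem?_getD, List.getElem?_take,
            if_pos l.2]
        rw [e1, List.getD_eq_getElem B [] l.2]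
        rfl
      show ∑ l : Fin B.length, vec (tw.take B.length) l * vec (B.get l) i =
        ∑ l : Fin B.length, vec (tw.take B.length) l * vec (B.get l) j
      rw [← key, ← key]
      exact h1
    · intro h3
      apply h2
      intro b hb
      obtain ⟨l, rfl⟩ := List.get_of_mem hb
      exact h3 l
  refine h1.trans ?_
  unfold pr
  have h2 := card_not_separating (K := K) (fun (l : Fin B.length) (i : Fin r) => vec (B.get l) i)
  have h3 : Nat.card {ρ : Fin B.length → K // ∃ i j : Fin r,
      ∑ l : Fin B.length, vec (List.ofFn ρ) l * vec (B.get l) i =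
        ∑ l : Fin B.length, vec (List.ofFn ρ) l * vec (B.get l) j ∧
        ¬ ∀ l : Fin B.length, vec (B.get l) i = vec (B.get l) j} =
      Nat.card {c : Fin B.length → K // ∃ i j : Fin r,
        ∑ l, c l * vec (B.get l) i = ∑ l, c l * vec (B.get l) j ∧
      ¬ ∀ l, vec (B.get l) i = vec (B.get l) j} := by
    refine Nat.card_congr (Equiv.subtypeEquivRight fun ρ => ?_)
    have e : ∀ l : Fin B.length, vec (List.ofFn ρ) l = ρ l := by
      intro l
      unfold vec
      rw [List.getD_eq_getElem _ _ (by rw [List.length_ofFn]; exact l.2)]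
      simp
    simp only [e]
  rw [h3, div_le_div_iff₀ (pow_pos pr_q_pos _) pr_q_pos]
  exact_mod_cast h2

/-- reshaping of a segment of the tape -/
theorem card_reshape (a b : ℕ) (B : (Fin a → Fin b → K) → Prop) :
    Nat.card {ρ : Fin (a * b) → K //
      B (fun i j => (List.ofFn ρ).getD ((i : ℕ) * b + j) 0)} = Nat.card {c // B c} := by
  refine Nat.card_congr (Equiv.subtypeEquiv
    ((finProdFinEquiv.symm.arrowCongr (Equiv.refl K)).trans (Equiv.curry (Fin a) (Fin b) K)) ?_)
  intro ρ
  have e : (fun (i : Fin a) (j : Fin b) => (List.ofFn ρ).getD ((i : ℕ) * b + j) 0) =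
      ((finProdFinEquiv.symm.arrowCongr (Equiv.refl K)).trans (Equiv.curry (Fin a) (Fin b) K)) ρ := by
    funext i j
    have hlt : (i : ℕ) * b + j < a * b := by
      have h1 : ((i : ℕ) + 1) * b ≤ a * b := Nat.mul_le_mul_right _ i.2
      have h2 := j.2
      rw [Nat.add_mul, Nat.one_mul] at h1
      omega
    rw [List.getD_eq_getElem _ _ (by rw [List.length_ofFn]; exact hlt), List.getElem_ofFn]
    show ρ _ = ρ (finProdFinEquiv (i, j))
    congr 1
    ext
    simp only [finProdFinEquiv_apply_val]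
    ring
  rw [e]

theorem pr_badH [Fintype K] {r : ℕ} (P : Fin r → K[X][X]) (n D : ℕ) {m : ℕ}
    (hm : n * (D + 1) ≤ m) :
    pr K m (fun th => BadH P n D (r + 1) (thC n D th)) ≤ 1 / Fintype.card K := by
  have h1 : pr K m (fun th => BadH P n D (r + 1) (thC n D th)) ≤
      pr K (n * (D + 1)) (fun th => BadH P n D (r + 1)
        (fun (k : Fin n) (a : Fin (D + 1)) => th.getD ((k : ℕ) * (D + 1) + a) 0)) := by
    refine pr_prefix hm ?_
    intro th _ hB
    have e : (fun (k : Fin n) (a : Fin (D + 1)) =>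
        (th.take (n * (D + 1))).getD ((k : ℕ) * (D + 1) + a) 0) = thC n D th := by
      funext k a
      unfold thC
      have hlt : (k : ℕ) * (D + 1) + a < n * (D + 1) := by
        have h1 : ((k : ℕ) + 1) * (D + 1) ≤ n * (D + 1) := Nat.mul_le_mul_right _ k.2
        have h2 := a.2
        have h3 : ((k : ℕ) + 1) * (D + 1) = (k : ℕ) * (D + 1) + (D + 1) := by ring
        omega
      rw [List.getD_eq_getElem?_getD, List.getD_eq_getElem?_getD, List.getElem?_take,
        if_pos hlt]
    show BadH P n D (r + 1) _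
    rw [e]
    exact hB
  refine h1.trans ?_
  unfold pr
  have h2 : Nat.card {ρ : Fin (n * (D + 1)) → K // BadH P n D (r + 1)
      (fun (k : Fin n) (a : Fin (D + 1)) => (List.ofFn ρ).getD ((k : ℕ) * (D + 1) + a) 0)} =
      Nat.card {c : Fin n → Fin (D + 1) → K // BadH P n D (r + 1) c} :=
    card_reshape n (D + 1) (fun c => BadH P n D (r + 1) c)
  have h3 := card_bad_functionals (K := K) (r := r) (d := n) (D := D) (ρ := r + 1) P
  have h4 : Nat.card (Fin n → Fin (D + 1) → K) = Fintype.card K ^ (n * (D + 1)) := by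
    rw [Nat.card_eq_fintype_card]
    simp only [Fintype.card_fun, Fintype.card_fin]
    rw [← pow_mul, mul_comm (D + 1) n]
  have hq : 0 < Fintype.card K := Fintype.card_pos
  have h5 : Nat.card {c : Fin n → Fin (D + 1) → K // BadH P n D (r + 1) c} * Fintype.card K ≤
      Fintype.card K ^ (n * (D + 1)) := by
    have h6 : Fintype.card K ^ r * (Nat.card {c : Fin n → Fin (D + 1) → K //
        BadH P n D (r + 1) c} * Fintype.card K) ≤
        Fintype.card K ^ r * Fintype.card K ^ (n * (D + 1)) := by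
      rw [h4] at h3
      calc _ = Nat.card {c : Fin n → Fin (D + 1) → K // BadH P n D (r + 1) c} *
          Fintype.card K ^ (r + 1) := by ring
        _ ≤ _ := h3
    exact Nat.le_of_mul_le_mul_left h6 (pow_pos hq r)
  rw [h2, div_le_div_iff₀ (pow_pos pr_q_pos _) pr_q_pos, one_mul]
  exact_mod_cast h5

private theorem toP_modulus (κ : ℕ) (tm : List K) (h : 8 * (2 * κ + 10) ≤ tm.length) :
    toP (modulus κ tm) = ∏ i : Fin 8, mpoly (fun j : Fin (2 * κ + 10) =>
      tm.getD ((i : ℕ) * (2 * κ + 10) + j) 0) := by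
  unfold modulus
  rw [toP_prodP, List.map_map]
  set M := 2 * κ + 10 with hM
  have e0 : (chunks 8 M tm).map (toP ∘ fun l => l ++ [1]) =
      List.ofFn (fun i : Fin 8 => mpoly (fun j : Fin M => tm.getD ((i : ℕ) * M + j) 0)) := by
    apply List.ext_getElem
    · rw [List.length_map, length_chunks, List.length_ofFn]
    · intro i h1 h2
      rw [List.length_ofFn] at h2
      rw [List.getElem_map, List.getElem_ofFn, Function.comp]
      have e1 : (chunks 8 M tm)[i]'(by rw [length_chunks]; exact h2) =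
          (tm.drop (i * M)).take M := by
        rw [← getD_chunks 8 M tm h2, List.getD_eq_getElem]
      have e2 : ((tm.drop (i * M)).take M).length = M := by
        rw [List.length_take, List.length_drop]
        have h3 : (i + 1) * M ≤ 8 * M := Nat.mul_le_mul_right _ h2
        rw [Nat.add_mul, Nat.one_mul] at h3
        omega
      rw [e1]
      show toP ((tm.drop (i * M)).take M ++ [1]) = _
      rw [toP_append_one e2]
      congr 1
      funext j
      rw [List.getD_eq_getElem?_getD, List.getD_eq_getElem?_getD, List.getElem?_take,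
        if_pos j.2, List.getElem?_drop]
  rw [e0, List.prod_ofFn]

theorem pr_badMod [DecidableEq K] [Fintype K] {E : MEnv K} {t : ℕ} {F : K[X][X]}
    {U : List (Dat K)} (h : DatOk E t F U) (hF : 0 < F.natDegree) (k : ℕ) {m : ℕ}
    (hm : 8 * (2 * (restBasis k U).length + 10) ≤ m)
    (hq : 1000 + 3 * (F.natDegree + 1) ≤ Fintype.card K) :
    pr K m (fun tm => BadMod (Fintype.card K) E t k U tm) ≤ 1 / 8 := by
  obtain ⟨hP1, hP2⟩ := clsProd_all h
  set κ := (restBasis k U).length with hκ
  set M := 2 * κ + 10 with hM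
  set n := F.natDegree with hn
  have hspec : ∀ l : Fin κ, Cg (n + 1) (toB (gB E (n + 1) U ((restBasis k U).get l)))
      (Gmu (famP U) (fun i => vec ((restBasis k U).get l) i)) ∧
      (gB E (n + 1) U ((restBasis k U).get l)).length = n ∧
      ∀ r ∈ gB E (n + 1) U ((restBasis k U).get l), r.length = n + 1 := fun l =>
    gB_spec h rfl (restBasis_length k U _ (List.get_mem _ l))
  have hcd : ∀ (l : Fin κ) (j : ℕ),
      ((toB (gB E (n + 1) U ((restBasis k U).get l))).coeff j).degree < (n + 1 : ℕ) := by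
    intro l j
    rw [coeff_toB]
    refine degree_toP_le_of_length ?_
    by_cases hj : j < (gB E (n + 1) U ((restBasis k U).get l)).length
    · rw [List.getD_eq_getElem _ _ hj]
      exact ((hspec l).2.2 _ (List.getElem_mem hj)).le
    · rw [List.getD_eq_default _ _ (not_lt.1 hj)]
      simp
  have hct : ∀ l : Fin κ, TDeg (n + (n + 1)) (toB (gB E (n + 1) U ((restBasis k U).get l))) := by
    intro l i j hij
    by_cases hj : j < n
    · exact coeff_eq_zero_of_degree_lt ((hcd l j).trans_le (by exact_mod_cast (by omega)))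
    · rw [coeff_toB, List.getD_eq_default _ _ (by rw [(hspec l).2.1]; omega)]
      simp
  obtain ⟨𝒩, hN1, hN2, hN3⟩ := exists_test_set (w := n + 1) h.lifted (Nat.succ_pos n)
    (Nat.le_succ n) (by have := h.lt; omega)
    (fun (l : Fin κ) (i : Fin U.length) => vec ((restBasis k U).get l) i)
    (fun l => toB (gB E (n + 1) U ((restBasis k U).get l)))
    (fun l => (hspec l).1) hcd hct
  have h1 : pr K m (fun tm => BadMod (Fintype.card K) E t k U tm) ≤
      pr K (8 * M) (fun y => ∃ N ∈ 𝒩, (∏ i : Fin 8, mpoly (fun j : Fin M =>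
        y.getD ((i : ℕ) * M + j) 0)) ∣ N) := by
    refine pr_prefix hm ?_
    rintro tm htm ⟨c, hc1, hc2⟩
    have hle : 8 * M ≤ tm.length := by rw [htm]; exact hm
    have emod : toP (modulus κ tm) = ∏ i : Fin 8, mpoly (fun j : Fin M =>
        (tm.take (8 * M)).getD ((i : ℕ) * M + j) 0) := by
      rw [toP_modulus κ tm hle]
      refine Finset.prod_congr rfl fun i _ => ?_
      congr 1
      funext j
      have hlt : (i : ℕ) * M + j < 8 * M := by
        have h1 : ((i : ℕ) + 1) * M ≤ 8 * M := Nat.mul_le_mul_right _ i.2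
        have h2 := j.2
        rw [Nat.add_mul, Nat.one_mul] at h1
        omega
      rw [List.getD_eq_getElem?_getD, List.getD_eq_getElem?_getD, List.getElem?_take,
        if_pos hlt]
    have hmon : (toP (modulus κ tm)).Monic := by
      rw [toP_modulus κ tm hle]
      refine monic_prod_of_monic _ _ fun i _ => ?_
      unfold mpoly
      refine monic_X_pow_add ?_
      refine (degree_sum_fin_lt _)
    by_contra hno
    have hno' : ∀ N ∈ 𝒩, ¬ toP (modulus κ tm) ∣ N := by
      intro N hN hd
      apply hno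
      refine ⟨N, hN, ?_⟩
      rw [← emod]
      exact hd
    apply hc1
    rw [hP1] at hc2 ⊢
    rw [hP2] at hc2
    exact (hN3 _ hmon hno' c).1 hc2
  refine h1.trans ?_
  refine pr_eq_div (N := 8) ?_ (by norm_num) (by norm_num)
  have h2 : Nat.card {ρ : Fin (8 * M) → K // ∃ N ∈ 𝒩, (∏ i : Fin 8, mpoly (fun j : Fin M =>
        (List.ofFn ρ).getD ((i : ℕ) * M + j) 0)) ∣ N} =
      Nat.card {c : Fin 8 → Fin M → K // ∃ N ∈ 𝒩, (∏ i, mpoly (c i)) ∣ N} :=
    card_reshape 8 M (fun c => ∃ N ∈ 𝒩, (∏ i, mpoly (c i)) ∣ N)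
  rw [h2]
  refine card_bad_moduli κ (Fintype.card K * (2 * n + (n + 1) + 1)) 𝒩 hN1 hN2 ?_ (by omega)
  have h3 : 2 * n + (n + 1) + 1 ≤ Fintype.card K ^ 2 := by
    have : Fintype.card K ≤ Fintype.card K ^ 2 := Nat.le_self_pow (by norm_num) _
    omega
  calc Fintype.card K * (2 * n + (n + 1) + 1) ≤ Fintype.card K * Fintype.card K ^ 2 :=
        Nat.mul_le_mul_left _ h3
    _ = Fintype.card K ^ 3 := by ring

end Pool.Agent.BiFac

end

section

/-!
# The squarefree part of the algorithm is correct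
-/

set_option autoImplicit false

namespace Pool.Agent.BiFac

open Polynomial Pool.Agent.TreeRAM

variable {K : Type} [Field K]

/-! ### Linear combinations -/

theorem c6_lincomb_sum (tw : List K) (B : List (List K)) (i : ℕ) :
    vec (lincomb tw B) i = ∑ l : Fin B.length, tw.getD l 0 * vec (B.get l) i := by
  induction B generalizing tw with
  | nil => simp [lincomb_nil', vec]
  | cons b B ih =>
    cases tw with
    | nil => simp [lincomb_nil, vec]
    | cons c tw =>
      rw [elim_lincomb_cons, ih]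
      exact (Fin.sum_univ_succ (fun l : Fin (B.length + 1) =>
        (c :: tw).getD l 0 * vec ((b :: B).get l) i)).symm

theorem c6_lincomb_len {cs : List K} {vs : List (List K)} {m : ℕ} (hc : cs ≠ []) (hv : vs ≠ [])
    (h : ∀ v ∈ vs, v.length = m) : (lincomb cs vs).length = m := by
  obtain ⟨c, cs, rfl⟩ := List.exists_cons_of_ne_nil hc
  obtain ⟨v, vs, rfl⟩ := List.exists_cons_of_ne_nil hv
  rw [lincomb_cons, length_addP, length_smulP, h v (by simp)]
  have := length_lincomb_le (cs := cs) (vs := vs) (n := m) (fun v hv => (h v (by simp [hv])).le)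
  omega

theorem c6_not_notSep {r : ℕ} {B : List (List K)} {tw : List K} (h : ¬ NotSep r B tw) {i j : ℕ}
    (hi : i < r) (hj : j < r) (he : vec (lincomb tw B) i = vec (lincomb tw B) j) :
    ∀ b ∈ B, vec b i = vec b j := by
  by_contra hb
  exact h ⟨i, hi, j, hj, he, hb⟩

omit [Field K] in
theorem c6_fits_mono {E : MEnv K} {n m w v : ℕ} (h : Fits E n w) (hmn : m ≤ n) (hvw : v ≤ w) :
    Fits E m v :=
  le_trans (Nat.mul_le_mul (Nat.mul_le_mul_left _ (by omega)) (by omega)) h

/-! ### The input -/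

section input

variable [DecidableEq K] {E : MEnv K} {t : ℕ} {G : List (List K)} {zs : List (List K × ℕ)}

omit [DecidableEq K] in
theorem c6_zs_pos (h : SqHyp E t G zs) : 0 < zs.length := by
  rcases zs with _ | ⟨z, zs⟩
  · have h1 := h.prod
    simp only [List.map_nil, List.prod_nil] at h1
    have h2 := natDegree_red h.monic
    rw [h1, natDegree_one] at h2
    have := h.pos
    omega
  · simp

theorem c6_zs_le (h : SqHyp E t G zs) : zs.length ≤ (toB G).natDegree := by
  obtain ⟨hU, hl, -⟩ := h.datOk []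
  rw [← hl, hU.lifted.natDegree_eq]
  calc (sqDat E t G zs []).length = ∑ _i : Fin (sqDat E t G zs []).length, 1 := by simp
    _ ≤ _ := Finset.sum_le_sum (fun i _ => hU.lifted.natDegree_pos i)

theorem c6_sigma (h : SqHyp E t G zs) :
    2 ^ t - (toB G).natDegree - (zs.length + 1) + (toB G).natDegree + (zs.length + 1) = 2 ^ t := by
  have h1 := h.big
  have h2 := c6_zs_le h
  omega

theorem c6_bas_ne (h : SqHyp E t G zs) (th : List K) : sqBas E t G zs th ≠ [] := by
  intro hb
  obtain ⟨hU, hl, -⟩ := h.datOk th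
  have hin : InW (famP (sqDat E t G zs th)) (toB G).natDegree
      (2 ^ t - (toB G).natDegree - (zs.length + 1)) (zs.length + 1)
      (hpoly (thC (toB G).natDegree (2 ^ t - (toB G).natDegree - (zs.length + 1)) th))
      (fun _ => 1) :=
    inW_of_constOn hU.lifted rfl (c6_sigma h).le _ _ (fun f _ _ i j _ _ => rfl)
  obtain ⟨c, hc⟩ := ((h.basis th).2.2 _).1 hin
  have h0 : (sqBas E t G zs th).length = 0 := by rw [hb]; rfl
  have hE : IsEmpty (Fin (sqBas E t G zs th).length) := by
    rw [h0]
    infer_instance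
  have h3 := hc ⟨0, by rw [hl]; exact c6_zs_pos h⟩
  rw [Finset.univ_eq_empty, Finset.sum_empty] at h3
  exact one_ne_zero h3

theorem c6_w_len (h : SqHyp E t G zs) (th : List K) {tw : List K} (htw : zs.length ≤ tw.length) :
    (lincomb tw (sqBas E t G zs th)).length = (sqDat E t G zs th).length := by
  have h0 := c6_zs_pos h
  rw [(h.datOk th).2.1]
  refine c6_lincomb_len ?_ (c6_bas_ne h th) (h.basis th).1
  intro hn
  rw [hn, List.length_nil] at htw
  omega

theorem c6_w_inW (h : SqHyp E t G zs) (th tw : List K) :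
    InW (famP (sqDat E t G zs th)) (toB G).natDegree
      (2 ^ t - (toB G).natDegree - (zs.length + 1)) (zs.length + 1)
      (hpoly (thC (toB G).natDegree (2 ^ t - (toB G).natDegree - (zs.length + 1)) th))
      (onU (sqDat E t G zs th) (lincomb tw (sqBas E t G zs th))) := by
  refine ((h.basis th).2.2 _).2 ⟨fun l => tw.getD l 0, fun i => ?_⟩
  rw [onU, c6_lincomb_sum]
  refine Finset.sum_congr rfl fun l _ => ?_
  rw [(h.basis th).2.1 l l.2 i, List.getD_eq_getElem _ _ l.2]
  rfl

theorem c6_sep (h : SqHyp E t G zs) {th tw : List K}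
    (h2 : ¬ NotSep zs.length (sqBas E t G zs th) tw) :
    ∀ i j, onU (sqDat E t G zs th) (lincomb tw (sqBas E t G zs th)) i =
      onU (sqDat E t G zs th) (lincomb tw (sqBas E t G zs th)) j →
      ∀ μ, InW (famP (sqDat E t G zs th)) (toB G).natDegree
        (2 ^ t - (toB G).natDegree - (zs.length + 1)) (zs.length + 1)
        (hpoly (thC (toB G).natDegree (2 ^ t - (toB G).natDegree - (zs.length + 1)) th)) μ →
        μ i = μ j := by
  intro i j hij μ hμ
  obtain ⟨c, hc⟩ := ((h.basis th).2.2 μ).1 hμ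
  have hl := (h.datOk th).2.1
  have h3 := c6_not_notSep h2 (i := i) (j := j) (by rw [← hl]; exact i.2)
    (by rw [← hl]; exact j.2) hij
  rw [hc i, hc j]
  refine Finset.sum_congr rfl fun l _ => ?_
  rw [(h.basis th).2.1 l l.2 i, (h.basis th).2.1 l l.2 j, List.getD_eq_getElem _ _ l.2,
    h3 _ (List.getElem_mem l.2)]

theorem c6_bad (h : SqHyp E t G zs) {th : List K}
    (h1 : ¬ BadH (famP (sqDat E t G zs th)) (toB G).natDegree
      (2 ^ t - (toB G).natDegree - (zs.length + 1)) (zs.length + 1)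
      (thC (toB G).natDegree (2 ^ t - (toB G).natDegree - (zs.length + 1)) th)) :
    ∀ μ, InW (famP (sqDat E t G zs th)) (toB G).natDegree
        (2 ^ t - (toB G).natDegree - (zs.length + 1)) (zs.length + 1)
        (hpoly (thC (toB G).natDegree (2 ^ t - (toB G).natDegree - (zs.length + 1)) th)) μ →
      Bad (famP (sqDat E t G zs th)) (toB G).natDegree (zs.length + 1) (2 ^ t) μ := by
  intro μ hμ
  by_contra hb
  exact h1 ⟨μ, hμ, by rwa [c6_sigma h]⟩

end input

/-! ### The output of a list of classes -/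

/-- The facts about the factor `f` belonging to the class of `i`. -/
def C6Cls [DecidableEq K] {r : ℕ} (σ : ℕ) (P : Fin r → K[X][X]) (w : Fin r → K) (i : Fin r)
    (f : K[X][X]) : Prop :=
  (∀ j, Bel P f j ↔ w j = w i) ∧ TDeg f.natDegree f ∧
    f.natDegree = ∑ j ∈ Finset.univ.filter (fun j => w j = w i), (P j).natDegree ∧
    Cg σ f (∏ j ∈ Finset.univ.filter (fun j => w j = w i), P j)

/-- The labels of `U` come from `zs`. -/
def C6Lab (zs : List (List K × ℕ)) (U : List (Dat K)) : Prop :=
  ∀ i : Fin U.length, ∃ y ∈ zs, toP y.1 = red (famP U i) ∧ (U.get i).2.1 = y.2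

section classes

variable [DecidableEq K] {E : MEnv K} {t : ℕ} {zs : List (List K × ℕ)}

theorem c6_out {F : K[X][X]} {U : List (Dat K)} (h : DatOk E t F U) (hL : C6Lab zs U)
    {w : List K} (hw : w.length = U.length) (i : Fin U.length) {f : K[X][X]} (hfm : f.Monic)
    (hf : C6Cls (2 ^ t) (famP U) (onU U w) i f) :
    toB (clsOut E t (sel (onU U w i) w U)).1 = f ∧
    ((clsOut E t (sel (onU U w i) w U)).1.length =
      (toB (clsOut E t (sel (onU U w i) w U)).1).natDegree + 1 ∧
      ∀ r ∈ (clsOut E t (sel (onU U w i) w U)).1,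
        r.length = (clsOut E t (sel (onU U w i) w U)).1.length) ∧
    ∃ y ∈ zs, toP y.1 ∣ red f ∧ (clsOut E t (sel (onU U w i) w U)).2 = y.2 := by
  obtain ⟨a1, a2, a3, j, a4, a5⟩ := clsOut_spec h hw i hfm hf.2.1 hf.2.2.1 hf.2.2.2
  refine ⟨a1, ⟨by rw [a1, a2], fun r hr => by rw [a3 r hr, a2]⟩, ?_⟩
  obtain ⟨y, hy, h1, h2⟩ := hL j
  exact ⟨y, hy, by rw [h1]; exact (hf.1 j).2 a4, by rw [a5, h2]⟩

theorem c6_list {F : K[X][X]} {U : List (Dat K)} (h : DatOk E t F U) (hL : C6Lab zs U)
    {w : List K} (hw : w.length = U.length) (js : List (Fin U.length))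
    (hjs : (js.map (onU U w)).Nodup)
    (hfac : ∀ i ∈ js, ∃ f, Irreducible f ∧ f.Monic ∧ f ∣ F ∧
      C6Cls (2 ^ t) (famP U) (onU U w) i f) :
    (∀ z ∈ js.map (fun i => clsOut E t (sel (onU U w i) w U)),
      z.1.length = (toB z.1).natDegree + 1 ∧ ∀ r ∈ z.1, r.length = z.1.length) ∧
    ((js.map (fun i => clsOut E t (sel (onU U w i) w U))).map (fun z => toB z.1)).Nodup ∧
    (∀ z ∈ js.map (fun i => clsOut E t (sel (onU U w i) w U)),
      ∃ y ∈ zs, toP y.1 ∣ red (toB z.1) ∧ z.2 = y.2) ∧
    ∀ f, (∃ z ∈ js.map (fun i => clsOut E t (sel (onU U w i) w U)), toB z.1 = f) ↔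
      Irreducible f ∧ f.Monic ∧ f ∣ F ∧ ∃ i ∈ js, Bel (famP U) f i := by
  refine ⟨?_, ?_, ?_, ?_⟩
  · intro z hz
    rw [List.mem_map] at hz
    obtain ⟨i, hi, rfl⟩ := hz
    obtain ⟨f, -, hfm, -, hf⟩ := hfac i hi
    exact (c6_out h hL hw i hfm hf).2.1
  · rw [List.map_map]
    refine (List.Nodup.of_map _ hjs).map_on ?_
    intro i hi j hj hij
    simp only [Function.comp_apply] at hij
    obtain ⟨f, -, hfm, -, hf⟩ := hfac i hi
    obtain ⟨g, -, hgm, -, hg⟩ := hfac j hj
    rw [(c6_out h hL hw i hfm hf).1, (c6_out h hL hw j hgm hg).1] at hij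
    subst hij
    have h1 : onU U w j = onU U w i := (hf.1 j).1 ((hg.1 j).2 rfl)
    exact List.inj_on_of_nodup_map hjs hi hj h1.symm
  · intro z hz
    rw [List.mem_map] at hz
    obtain ⟨i, hi, rfl⟩ := hz
    obtain ⟨f, -, hfm, -, hf⟩ := hfac i hi
    rw [(c6_out h hL hw i hfm hf).1]
    exact (c6_out h hL hw i hfm hf).2.2
  · intro f
    constructor
    · rintro ⟨z, hz, rfl⟩
      rw [List.mem_map] at hz
      obtain ⟨i, hi, rfl⟩ := hz
      obtain ⟨f, hfi, hfm, hfd, hf⟩ := hfac i hi
      rw [(c6_out h hL hw i hfm hf).1]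
      exact ⟨hfi, hfm, hfd, i, hi, (hf.1 i).2 rfl⟩
    · rintro ⟨hfi, hfm, hfd, i, hi, hb⟩
      obtain ⟨g, hgi, hgm, hgd, hg⟩ := hfac i hi
      refine ⟨_, List.mem_map.2 ⟨i, hi, rfl⟩, ?_⟩
      rw [(c6_out h hL hw i hgm hg).1]
      exact h.lifted.factor_unique hgi hgm hgd hfi hfm hfd ((hg.1 i).2 rfl) hb

/-- Being resolved depends on the class only. -/
theorem c6_resCl_congr {r σ : ℕ} {P : Fin r → K[X][X]} {w : Fin r → K} {i j : Fin r}
    (h : w i = w j) : ResCl σ P w i ↔ ResCl σ P w j := by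
  unfold ResCl
  rw [h]

end classes

/-! ### The unresolved part -/

section unres

variable [DecidableEq K] {E : MEnv K} {t : ℕ} {G : List (List K)} {zs : List (List K × ℕ)}

theorem c6_lab (h : SqHyp E t G zs) (th : List K) : C6Lab zs (sqDat E t G zs th) := by
  intro i
  obtain ⟨-, hl, h3⟩ := h.datOk th
  have hi : (i : ℕ) < zs.length := by rw [← hl]; exact i.2
  obtain ⟨h4, h5⟩ := h3 i hi
  rw [List.getD_eq_getElem _ _ i.2, List.getD_eq_getElem _ _ hi] at h4 h5
  exact ⟨zs[(i : ℕ)], List.getElem_mem hi, h4.symm, h5⟩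

omit [DecidableEq K] in
theorem c6_famP {U V : List (Dat K)} {ι : Fin V.length → Fin U.length}
    (hι : ∀ j, V.get j = U.get (ι j)) : famP V = fun j => famP U (ι j) := by
  funext j
  rw [famP, hι j]
  rfl

omit [DecidableEq K] in
theorem c6_datOk {F F' : K[X][X]} {U V : List (Dat K)} (h : DatOk E t F U)
    {ι : Fin V.length → Fin U.length} (hι : ∀ j, V.get j = U.get (ι j)) (hd : F' ∣ F)
    (hL : Lifted (2 ^ t) F' (fun j => famP U (ι j))) : DatOk E t F' V where
  good := h.good
  lifted := by rw [c6_famP hι]; exact hL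
  shape := by
    intro u hu
    obtain ⟨j, hj, rfl⟩ := List.getElem_of_mem hu
    have := hι ⟨j, hj⟩
    simp only [List.get_eq_getElem] at this
    rw [this]
    exact h.shape _ (List.getElem_mem _)
  lt := lt_of_le_of_lt (natDegree_le_of_dvd hd h.lifted.monic.ne_zero) h.lt
  fits := h.fits.mono (by
    have := natDegree_le_of_dvd hd h.lifted.monic.ne_zero
    omega)

/-- All facts about the unresolved part. -/
theorem c6_unres (h : SqHyp E t G zs) {th tw : List K} (htw : zs.length ≤ tw.length)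
    (h2 : ¬ NotSep zs.length (sqBas E t G zs th) tw) :
    ∃ ι : Fin (sqUn E t G zs th tw).length → Fin (sqDat E t G zs th).length,
      Function.Injective ι ∧
      (∀ j, (sqUn E t G zs th tw).get j = (sqDat E t G zs th).get (ι j)) ∧
      (∀ i, (∃ j, ι j = i) ↔ ¬ ResCl (2 ^ t) (famP (sqDat E t G zs th))
        (onU (sqDat E t G zs th) (lincomb tw (sqBas E t G zs th))) i) ∧
      ∃ F' : K[X][X], DatOk E t F' (sqUn E t G zs th tw) ∧ F' ∣ toB G ∧
        (∀ f, Irreducible f → f.Monic → (f ∣ F' ↔ f ∣ toB G ∧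
          ∃ j, Bel (famP (sqDat E t G zs th)) f (ι j))) ∧
        (∀ ν : Fin (sqUn E t G zs th tw).length → K,
          ConstOn F' (famP (sqUn E t G zs th tw)) ν →
          ∃ μ : Fin (sqDat E t G zs th).length → K,
            ConstOn (toB G) (famP (sqDat E t G zs th)) μ ∧ ∀ j, μ (ι j) = ν j) := by
  have hU := (h.datOk th).1
  obtain ⟨ι, hinj, hget, hres⟩ := unres_spec hU (c6_w_len h th htw)
  refine ⟨ι, hinj, hget, hres, ?_⟩
  obtain ⟨F', hd, hL, hf, hν⟩ := hU.lifted.restrict ι hinj (by
    intro f hfi hfm hfd j i hb hb'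
    rw [hres i, ← resCl_congr hU.lifted rfl (c6_sigma h).le hU.lt _ (c6_sep h h2) hfi hfm hfd
      hb hb', ← hres]
    exact ⟨j, rfl⟩)
  refine ⟨F', c6_datOk hU hget hd hL, hd, hf, ?_⟩
  intro ν hc
  change ConstOn F' (famP (unres E t (classesBy (lincomb tw (sqBas E t G zs th))
    (sqDat E t G zs th)))) ν at hc
  rw [c6_famP hget] at hc
  exact hν ν hc

/-- The size of the second stage. -/
theorem kappa_bound {th tw : List K} (h : SqHyp E t G zs) (htw : zs.length ≤ tw.length)
    (h1 : ¬ BadH (famP (sqDat E t G zs th)) (toB G).natDegree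
      (2 ^ t - (toB G).natDegree - (zs.length + 1)) (zs.length + 1)
      (thC (toB G).natDegree (2 ^ t - (toB G).natDegree - (zs.length + 1)) th))
    (h2 : ¬ NotSep zs.length (sqBas E t G zs th) tw) :
    (restBasis (sqBas E t G zs th).length (sqUn E t G zs th tw)).length * 2 ^ t ≤
      2 * (toB G).natDegree * (2 * (toB G).natDegree + (zs.length + 1)) := by
  have hU := (h.datOk th).1
  obtain ⟨ι, hinj, hget, hres, -⟩ := c6_unres h htw h2
  have hmem := restBasis_mem (sqBas E t G zs th).length (sqUn E t G zs th tw)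
  choose l' hl' hv using hmem
  refine finrank_unresolved hU.lifted rfl h.pos (Nat.succ_pos _) (c6_sigma h) _ (c6_bad h h1) ι
    hinj ?_ (fun l i => famB (sqDat E t G zs th) (l' l) i) ?_ ?_
  · intro f hfi hfm hfd j hb
    exact not_resCl_large hU.lifted rfl h.pos (Nat.succ_pos _) (c6_sigma h) _ (c6_bad h h1)
      (c6_w_inW h th tw) (c6_sep h h2) ((hres (ι j)).1 ⟨j, rfl⟩) hfi hfm hfd hb
  · intro l
    refine ((h.basis th).2.2 _).2 ⟨fun k => if k = ⟨l' l, hl' l⟩ then 1 else 0, fun i => ?_⟩
    simp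
  · have := restBasis_indep (sqBas E t G zs th).length (sqUn E t G zs th tw)
    convert this using 3 with l j
    rw [hv l j, famB, famB, hget j]

end unres

/-! ### The second stage -/

section stage2

variable [DecidableEq K] {E : MEnv K} {t : ℕ} {G : List (List K)} {zs : List (List K × ℕ)}

/-- The vector of the second stage. -/
noncomputable def c6w2 (E : MEnv K) (Q : FQ) (t k : ℕ) (V : List (Dat K)) (tm tc : List K) :
    List K :=
  lincomb (lincomb tc (kerU E Q t V (restBasis k V) (modulus (restBasis k V).length tm)))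
    (restBasis k V)

theorem c6_stage2 [Fintype K] (h : SqHyp E t G zs) {Q : FQ} {p : ℕ} (hQ : Q.Ok K p)
    (hf : Fits E (64 * ((toB G).natDegree + 2)) (72 * (toB G).natDegree + 400))
    {th tm tc : List K} (htc : zs.length ≤ tc.length)
    (htm : 8 * (2 * zs.length + 10) ≤ tm.length) {V : List (Dat K)}
    (h3 : ¬ BadMod (Fintype.card K) E t (sqBas E t G zs th).length V tm)
    (h4 : ¬ NotSep V.length (kerVecs E Q t (sqBas E t G zs th).length V tm) tc)
    {ι : Fin V.length → Fin (sqDat E t G zs th).length}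
    (hinj : Function.Injective ι)
    (hget : ∀ j, V.get j = (sqDat E t G zs th).get (ι j))
    {F' : K[X][X]} (hV : DatOk E t F' V) (hd : F' ∣ toB G)
    (hext : ∀ ν : Fin V.length → K, ConstOn F' (famP V) ν →
      ∃ μ : Fin (sqDat E t G zs th).length → K,
        ConstOn (toB G) (famP (sqDat E t G zs th)) μ ∧ ∀ j, μ (ι j) = ν j) :
    (c6w2 E Q t (sqBas E t G zs th).length V tm tc).length = V.length ∧
    ∀ j f, Irreducible f → f.Monic → f ∣ F' → Bel (famP V) f j →
      C6Cls (2 ^ t) (famP V) (onU V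
        (c6w2 E Q t (sqBas E t G zs th).length V tm tc)) j f := by
  have hU := (h.datOk th).1
  have hUl := (h.datOk th).2.1
  have hfamB : ∀ l j, famB V l j = famB (sqDat E t G zs th) l (ι j) := by
    intro l j
    rw [famB, famB, hget j]
  have hVl : V.length ≤ zs.length := by
    rw [← hUl]
    simpa using Fintype.card_le_of_injective ι hinj
  obtain ⟨k, hk⟩ : ∃ k, k = (sqBas E t G zs th).length := ⟨_, rfl⟩
  rw [← hk] at h3 h4 ⊢
  have hrl := restBasis_length k V
  have hrle := restBasis_le k V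
  rcases Nat.eq_zero_or_pos V.length with hV0 | hV0
  · refine ⟨?_, fun j => absurd j.2 (by omega)⟩
    have := length_lincomb_le (cs := lincomb tc (kerU E Q t V (restBasis k V)
      (modulus (restBasis k V).length tm))) (vs := restBasis k V) (n := V.length)
      (fun v hv => (hrl v hv).le)
    unfold c6w2
    omega
  · have hF'pos : 0 < F'.natDegree := by
      rw [hV.lifted.natDegree_eq]
      exact lt_of_lt_of_le (hV.lifted.natDegree_pos (⟨0, hV0⟩ : Fin V.length))
        (Finset.single_le_sum (f := fun i => (famP V i).natDegree) (fun i _ => Nat.zero_le _)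
          (Finset.mem_univ (⟨0, hV0⟩ : Fin V.length)))
    have hdeg : F'.natDegree ≤ (toB G).natDegree := natDegree_le_of_dvd hd h.monic.ne_zero
    -- constant vectors are in the span of the restricted basis
    have hspan : ∀ ν : Fin V.length → K, ConstOn F' (famP V) ν →
        ∃ c : Fin (restBasis k V).length → K,
          ∀ i, ν i = ∑ l, c l * vec ((restBasis k V).get l) i := by
      intro ν hν
      obtain ⟨μ, hμ, hμν⟩ := hext ν hν
      have hin := inW_of_constOn hU.lifted rfl (c6_sigma h).le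
        (thC (toB G).natDegree (2 ^ t - (toB G).natDegree - (zs.length + 1)) th) μ hμ
      obtain ⟨c, hc⟩ := ((h.basis th).2.2 μ).1 hin
      choose e he using fun l : Fin (sqBas E t G zs th).length =>
        restBasis_span k V (hk ▸ l.2 : (l : ℕ) < k)
      refine ⟨fun m => ∑ l, c l * e l m, fun j => ?_⟩
      rw [← hμν j, hc (ι j)]
      simp only [← hfamB, he, Finset.mul_sum, Finset.sum_mul]
      rw [Finset.sum_comm]
      refine Finset.sum_congr rfl fun l _ => Finset.sum_congr rfl fun m _ => by ring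
    have hker := kerU_spec hV hQ (c6_fits_mono hf (by omega) (by omega)) hF'pos k tm h3
      (by omega)
    have hker2 : ∀ ν : Fin V.length → K, ConstOn F' (famP V) ν →
        ∃ c : Fin (kerVecs E Q t k V tm).length → K,
          ∀ i, ν i = ∑ l, c l * vec ((kerVecs E Q t k V tm).get l) i :=
      fun ν hν => hker.2 ν hν (hspan ν hν)
    have hone : ConstOn F' (famP V) (fun _ => (1 : K)) := fun f _ _ i j _ _ => rfl
    have hrne : restBasis k V ≠ [] := by
      intro hn
      obtain ⟨c, hc⟩ := hspan _ hone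
      have hE : IsEmpty (Fin (restBasis k V).length) := by
        rw [hn]
        exact Fin.isEmpty
      have h5 := hc ⟨0, hV0⟩
      rw [Finset.univ_eq_empty, Finset.sum_empty] at h5
      exact one_ne_zero h5
    have hkne : kerVecs E Q t k V tm ≠ [] := by
      intro hn
      obtain ⟨c, hc⟩ := hker2 _ hone
      have hE : IsEmpty (Fin (kerVecs E Q t k V tm).length) := by
        rw [hn]
        exact Fin.isEmpty
      have h5 := hc ⟨0, hV0⟩
      rw [Finset.univ_eq_empty, Finset.sum_empty] at h5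
      exact one_ne_zero h5
    have hkne' : kerU E Q t V (restBasis k V) (modulus (restBasis k V).length tm) ≠ [] := by
      intro hn
      exact hkne (by rw [kerVecs, hn, List.map_nil])
    have htcne : tc ≠ [] := by
      intro hn
      rw [hn, List.length_nil] at htc
      have := c6_zs_pos h
      omega
    have hl1 : (lincomb tc (kerU E Q t V (restBasis k V)
        (modulus (restBasis k V).length tm))).length = (restBasis k V).length :=
      c6_lincomb_len htcne hkne' (fun v hv => by
        rw [(leftKerN_mem hv).1, testRows, List.length_map])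
    have hl2 : lincomb tc (kerU E Q t V (restBasis k V)
        (modulus (restBasis k V).length tm)) ≠ [] := by
      intro hn
      rw [hn, List.length_nil] at hl1
      exact hrne (List.length_eq_zero_iff.1 hl1.symm)
    have hvec : ∀ i, vec (c6w2 E Q t k V tm tc) i = vec (lincomb tc (kerVecs E Q t k V tm)) i :=
      fun i => vec_stage2 E Q t k V tm tc i
    refine ⟨c6_lincomb_len hl2 hrne hrl, fun j f hfi hfm hfd hb => ?_⟩
    have hν2 : ConstOn F' (famP V) (onU V (c6w2 E Q t k V tm tc)) := by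
      intro g hgi hgd i j hi hj
      rw [onU, onU, hvec, hvec, c6_lincomb_sum, c6_lincomb_sum]
      refine Finset.sum_congr rfl fun l _ => ?_
      have h6 := hker.1 _ (List.get_mem (kerVecs E Q t k V tm) l) g hgi hgd i j hi hj
      simp only at h6
      rw [h6]
    refine class_eq_factor hV.lifted hν2 ?_ hfi hfm hfd hb
    intro i j hij μ hμ
    obtain ⟨c, hc⟩ := hker2 μ hμ
    rw [onU, onU, hvec, hvec] at hij
    have h5 := c6_not_notSep h4 i.2 j.2 hij
    rw [hc i, hc j]
    exact Finset.sum_congr rfl fun l _ => by rw [h5 _ (List.get_mem _ l)]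

theorem sqMain_correct [Fintype K] (h : SqHyp E t G zs) {Q : FQ} {p : ℕ} (hQ : Q.Ok K p)
    (hf : Fits E (64 * ((toB G).natDegree + 2)) (72 * (toB G).natDegree + 400))
    {th tw tm tc : List K} (htw : zs.length ≤ tw.length) (htc : zs.length ≤ tc.length)
    (htm : 8 * (2 * zs.length + 10) ≤ tm.length)
    (h1 : ¬ BadH (famP (sqDat E t G zs th)) (toB G).natDegree
      (2 ^ t - (toB G).natDegree - (zs.length + 1)) (zs.length + 1)
      (thC (toB G).natDegree (2 ^ t - (toB G).natDegree - (zs.length + 1)) th))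
    (h2 : ¬ NotSep zs.length (sqBas E t G zs th) tw)
    (h3 : ¬ BadMod (Fintype.card K) E t (sqBas E t G zs th).length (sqUn E t G zs th tw) tm)
    (h4 : ¬ NotSep (sqUn E t G zs th tw).length
      (kerVecs E Q t (sqBas E t G zs th).length (sqUn E t G zs th tw) tm) tc) :
    Factored (toB G) zs (sqMain E Q t G zs th tw tm tc) := by
  have hU := (h.datOk th).1
  have hwl := c6_w_len h th htw
  obtain ⟨ι, hinj, hget, hres, F', hV, hd, hF', hext⟩ := c6_unres h htw h2
  obtain ⟨hw2l, hcls⟩ := c6_stage2 h hQ hf htc htm h3 h4 hinj hget hV hd hext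
  have hLab := c6_lab h th
  have hfam := c6_famP hget
  have hLabV : C6Lab zs (sqUn E t G zs th tw) := by
    intro j
    obtain ⟨y, hy, a1, a2⟩ := hLab (ι j)
    exact ⟨y, hy, by rw [a1, hfam], by rw [hget j, a2]⟩
  obtain ⟨js, hcl, hjs, hjall⟩ := classesBy_eq _ hwl
  obtain ⟨js2, hcl2, hjs2, hjall2⟩ := classesBy_eq _ hw2l
  have hout : sqMain E Q t G zs th tw tm tc =
      (js.filter (fun i => isRes E t (sel (onU (sqDat E t G zs th)
        (lincomb tw (sqBas E t G zs th)) i) (lincomb tw (sqBas E t G zs th))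
        (sqDat E t G zs th)))).map (fun i => clsOut E t (sel (onU (sqDat E t G zs th)
        (lincomb tw (sqBas E t G zs th)) i) (lincomb tw (sqBas E t G zs th))
        (sqDat E t G zs th))) ++
      js2.map (fun j => clsOut E t (sel (onU (sqUn E t G zs th tw)
        (c6w2 E Q t (sqBas E t G zs th).length (sqUn E t G zs th tw) tm tc) j)
        (c6w2 E Q t (sqBas E t G zs th).length (sqUn E t G zs th tw) tm tc)
        (sqUn E t G zs th tw))) := by
    have e1 : sqMain E Q t G zs th tw tm tc =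
      ((classesBy (lincomb tw (sqBas E t G zs th)) (sqDat E t G zs th)).filter
        (isRes E t)).map (clsOut E t) ++
      (classesBy (c6w2 E Q t (sqBas E t G zs th).length (sqUn E t G zs th tw) tm tc)
        (sqUn E t G zs th tw)).map (clsOut E t) := rfl
    rw [e1, hcl, hcl2, List.filter_map, List.map_map, List.map_map]
    rfl
  have hL1 := c6_list hU hLab hwl (js.filter (fun i => isRes E t (sel (onU (sqDat E t G zs th)
        (lincomb tw (sqBas E t G zs th)) i) (lincomb tw (sqBas E t G zs th))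
        (sqDat E t G zs th)))) (hjs.sublist (List.Sublist.map _ List.filter_sublist)) (by
      intro i hi
      rw [List.mem_filter] at hi
      obtain ⟨f, hfi, hfm, hfd, hb⟩ := hU.lifted.exists_factor i
      exact ⟨f, hfi, hfm, hfd, ResCl.factor hU.lifted rfl (c6_sigma h).le hU.lt _ (c6_sep h h2)
        ((isRes_iff hU hwl i).1 hi.2) hfi hfm hfd hb⟩)
  have hL2 := c6_list hV hLabV hw2l js2 hjs2 (by
      intro j _
      obtain ⟨f, hfi, hfm, hfd, hb⟩ := hV.lifted.exists_factor j
      exact ⟨f, hfi, hfm, hfd, hcls j f hfi hfm hfd hb⟩)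
  rw [hout]
  obtain ⟨a1, a2, a3, a4⟩ := hL1
  obtain ⟨b1, b2, b3, b4⟩ := hL2
  refine ⟨?_, ?_, ?_, ?_⟩
  · intro z hz
    rcases List.mem_append.1 hz with hz | hz
    · exact a1 z hz
    · exact b1 z hz
  · rw [List.map_append]
    refine List.Nodup.append a2 b2 ?_
    intro f hf1 hf2
    rw [List.mem_map] at hf1 hf2
    obtain ⟨hfi, hfm, hfd, i, hi, hb⟩ := (a4 f).1 hf1
    obtain ⟨-, -, -, j, hj, hb'⟩ := (b4 f).1 hf2
    rw [List.mem_filter] at hi
    rw [hfam] at hb'
    have h5 := (hres (ι j)).1 ⟨j, rfl⟩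
    exact h5 ((resCl_congr hU.lifted rfl (c6_sigma h).le hU.lt _ (c6_sep h h2) hfi hfm hfd
      hb hb').1 ((isRes_iff hU hwl i).1 hi.2))
  · intro f
    constructor
    · rintro ⟨z, hz, hzf⟩
      rcases List.mem_append.1 hz with hz | hz
      · obtain ⟨hfi, hfm, hfd, -⟩ := (a4 f).1 ⟨z, hz, hzf⟩
        exact ⟨hfi, hfm, hfd⟩
      · obtain ⟨hfi, hfm, hfd, -⟩ := (b4 f).1 ⟨z, hz, hzf⟩
        exact ⟨hfi, hfm, hfd.trans hd⟩
    · rintro ⟨hfi, hfm, hfd⟩
      obtain ⟨i, hb⟩ := hU.lifted.exists_bel hfi hfd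
      by_cases hR : ResCl (2 ^ t) (famP (sqDat E t G zs th))
        (onU (sqDat E t G zs th) (lincomb tw (sqBas E t G zs th))) i
      · obtain ⟨j, hj, hji⟩ := hjall i
        have hb2 : Bel (famP (sqDat E t G zs th)) f j :=
          ((ResCl.factor hU.lifted rfl (c6_sigma h).le hU.lt _ (c6_sep h h2) hR hfi hfm hfd
            hb).1 j).2 hji
        obtain ⟨z, hz, hzf⟩ := (a4 f).2 ⟨hfi, hfm, hfd, j, List.mem_filter.2 ⟨hj,
          (isRes_iff hU hwl j).2 ((c6_resCl_congr hji).2 hR)⟩, hb2⟩
        exact ⟨z, List.mem_append.2 (Or.inl hz), hzf⟩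
      · obtain ⟨m, rfl⟩ := (hres i).2 hR
        have hfd' : f ∣ F' := (hF' f hfi hfm).2 ⟨hfd, m, hb⟩
        have hb' : Bel (famP (sqUn E t G zs th tw)) f m := by rw [hfam]; exact hb
        obtain ⟨j, hj, hji⟩ := hjall2 m
        have hb2 := ((hcls m f hfi hfm hfd' hb').1 j).2 hji
        obtain ⟨z, hz, hzf⟩ := (b4 f).2 ⟨hfi, hfm, hfd', j, hj, hb2⟩
        exact ⟨z, List.mem_append.2 (Or.inr hz), hzf⟩
  · intro z hz
    rcases List.mem_append.1 hz with hz | hz
    · exact a3 z hz
    · exact b3 z hz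

end stage2

end Pool.Agent.BiFac

end

section

/-!
# The algorithm over the large field is correct
-/

set_option autoImplicit false

namespace Pool.Agent.BiFac

open Polynomial Pool.Agent.TreeRAM

namespace FC

variable {K : Type} [Field K]

/-! ### Squarefree polynomials in one variable -/

theorem monic_list {L : List K[X]} (h : ∀ F ∈ L, F.Monic) :
    L.prod.Monic ∧ L.prod.natDegree = (L.map natDegree).sum := by
  induction L with
  | nil => simp
  | cons a L ih =>
    obtain ⟨h1, h2⟩ := ih (fun b hb => h b (List.mem_cons_of_mem _ hb))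
    have ha := h a List.mem_cons_self
    rw [List.prod_cons, List.map_cons, List.sum_cons]
    exact ⟨ha.mul h1, by rw [ha.natDegree_mul h1, h2]⟩

theorem eq_of_dvd {a b : K[X]} (ha : Irreducible a) (hb : Irreducible b)
    (ha' : a.Monic) (hb' : b.Monic) (h : a ∣ b) : a = b :=
  eq_of_monic_of_associated ha' hb' ((Irreducible.dvd_irreducible_iff_associated ha hb).1 h)

theorem list_dvd {L : List K[X]} (hL : ∀ a ∈ L, Irreducible a ∧ a.Monic)
    (hn : L.Nodup) {N : K[X]} (hN : ∀ a ∈ L, a ∣ N) : L.prod ∣ N := by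
  induction L with
  | nil => simp
  | cons a L ih =>
    rw [List.prod_cons]
    rw [List.nodup_cons] at hn
    have h1 : L.prod ∣ N := ih (fun b hb => hL b (List.mem_cons_of_mem _ hb)) hn.2
      (fun b hb => hN b (List.mem_cons_of_mem _ hb))
    obtain ⟨hai, ham⟩ := hL a List.mem_cons_self
    have h2 : IsCoprime a L.prod := by
      rw [Irreducible.coprime_iff_not_dvd hai]
      intro h
      rw [Prime.dvd_prod_iff hai.prime] at h
      obtain ⟨b, hb, hab⟩ := h
      obtain ⟨hbi, hbm⟩ := hL b (List.mem_cons_of_mem _ hb)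
      have := eq_of_dvd hai hbi ham hbm hab
      rw [this] at hn
      exact hn.1 hb
    exact h2.mul_dvd (hN a List.mem_cons_self) h1

theorem squarefree_dvd {a b : K[X]} (ha : Squarefree a) (hb : b ≠ 0)
    (h : ∀ q : K[X], Irreducible q → q ∣ a → q ∣ b) : a ∣ b := by
  classical
  have ha0 : a ≠ 0 := ha.ne_zero
  rw [UniqueFactorizationMonoid.dvd_iff_normalizedFactors_le_normalizedFactors ha0 hb]
  rw [Multiset.le_iff_subset
    ((UniqueFactorizationMonoid.squarefree_iff_nodup_normalizedFactors ha0).1 ha)]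
  intro q hq
  have hqi : Irreducible q := UniqueFactorizationMonoid.irreducible_of_normalized_factor q hq
  have hqn : normalize q = q := UniqueFactorizationMonoid.normalize_normalized_factor q hq
  have hqa : q ∣ a := UniqueFactorizationMonoid.dvd_of_mem_normalizedFactors hq
  rw [UniqueFactorizationMonoid.mem_normalizedFactors_iff' hb]
  exact ⟨hqi, hqn, h q hqi hqa⟩

/-- The squarefree part of the fibre. -/
theorem red_radical {s : Finset K[X][X]} {e : K[X][X] → ℕ}
    (hs : ∀ f ∈ s, Irreducible f ∧ f.Monic ∧ 0 < e f) (hsep : (red (∏ f ∈ s, f)).Separable)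
    {L : List (K[X] × ℕ)} (hL : ∀ z ∈ L, Irreducible z.1 ∧ z.1.Monic ∧ 0 < z.2)
    (hn : (L.map Prod.fst).Nodup)
    (hp : red (∏ f ∈ s, f ^ e f) = (L.map (fun z => z.1 ^ z.2)).prod) :
    red (∏ f ∈ s, f) = (L.map Prod.fst).prod := by
  have hRm : (∏ f ∈ s, f).Monic := monic_prod_of_monic _ _ fun f hf => (hs f hf).2.1
  have hRr : (red (∏ f ∈ s, f)).Monic := hRm.map _
  have hLm : (L.map Prod.fst).prod.Monic := by
    refine (monic_list ?_).1
    intro a ha
    obtain ⟨z, hz, rfl⟩ := List.mem_map.1 ha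
    exact (hL z hz).2.1
  apply eq_of_monic_of_associated hRr hLm
  apply associated_of_dvd_dvd
  · apply squarefree_dvd hsep.squarefree hLm.ne_zero
    intro q hq hd
    have h1 : q ∣ red (∏ f ∈ s, f ^ e f) := by
      refine hd.trans (map_dvd red ?_)
      exact Finset.prod_dvd_prod_of_dvd _ _ fun f hf => dvd_pow_self f (hs f hf).2.2.ne'
    rw [hp, Prime.dvd_prod_iff hq.prime] at h1
    obtain ⟨a, ha, hqa⟩ := h1
    obtain ⟨z, hz, rfl⟩ := List.mem_map.1 ha
    exact (hq.prime.dvd_of_dvd_pow hqa).trans (List.dvd_prod (List.mem_map_of_mem hz))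
  · apply list_dvd _ hn
    · intro a ha
      obtain ⟨z, hz, rfl⟩ := List.mem_map.1 ha
      have h1 : z.1 ∣ red (∏ f ∈ s, f ^ e f) := by
        rw [hp]
        exact (dvd_pow_self z.1 (hL z hz).2.2.ne').trans
          (List.dvd_prod (List.mem_map_of_mem (f := fun z : K[X] × ℕ => z.1 ^ z.2) hz))
      rw [map_prod] at h1
      obtain ⟨f, hf, hd⟩ := (Prime.dvd_finset_prod_iff (hL z hz).1.prime _).1 h1
      rw [map_pow] at hd
      refine ((hL z hz).1.prime.dvd_of_dvd_pow hd).trans (map_dvd red ?_)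
      exact Finset.dvd_prod_of_mem (fun f => f) hf
    · intro a ha
      obtain ⟨z, hz, rfl⟩ := List.mem_map.1 ha
      exact ⟨(hL z hz).1, (hL z hz).2.1⟩

/-! ### Length of the parts of the tape -/

theorem part_length {L : Type} {d : ℕ} {T : List (List L)} (hT : T.map List.length = tapeLens d)
    (i : ℕ) : (T.getD i []).length = (tapeLens d).getD i 0 := by
  rw [← hT, List.getD_eq_getElem?_getD, List.getD_eq_getElem?_getD, List.getElem?_map]
  cases T[i]? <;> rfl

/-! ### The polynomial in the new coordinates -/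

section setup

variable {L : Type} [Field L] [Algebra K L] [DecidableEq L] {d : ℕ}
  {F : MvPolynomial (Fin 2) K} {T : List (List L)}

/-- The dense representation over the extension. -/
noncomputable def fcD (L : Type) [Field L] [Algebra K L] (d : ℕ) (F : MvPolynomial (Fin 2) K) :
    List (List L) := (dense d F).map (List.map (algebraMap K L))

omit [DecidableEq L] in
theorem length_fcD : (fcD L d F).length = d + 1 := by
  rw [fcD, List.length_map, length_dense]

theorem good (hT : T.map List.length = tapeLens d) (h0 : (T.getD 0 []).Nodup) :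
    (envOf d T).Good := by
  refine mkEnv_good (two_le_sOf d) ?_ h0
  rw [part_length hT]
  rfl

/-- The polynomial over the extension. -/
noncomputable def fcP (L : Type) [Field L] [Algebra K L] (F0 : K[X][X]) : L[X][X] :=
  map2 (algebraMap K L) F0

omit [DecidableEq L] in
theorem toB_fromDense (F0 : K[X][X]) (hF0 : toMv F0 = F) (hd : F.totalDegree = d) :
    toB (fromDense (fcD L d F)) = fcP L F0 := by
  have h1 : fcD L d F = dense d (toMv (fcP L F0)) := by
    rw [fcD, ← hF0, fcP, DS.dense_map2]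
  have h2 : (toMv (fcP L F0)).totalDegree ≤ d := by
    have h3 := DS.td_map2 (algebraMap K L) F0
    unfold DS.td at h3
    rw [fcP, h3, hF0, hd]
  apply toMv_bijective.1
  rw [h1, toMv_fromDense h2]

omit [DecidableEq L] in
theorem tdeg_fcP (F0 : K[X][X]) (hF0 : toMv F0 = F) (hd : F.totalDegree = d) :
    TDeg d (fcP L F0) := by
  rw [fcP, DS.tdeg_map2_iff, tdeg_iff_totalDegree, hF0, hd]

theorem fits {n w : ℕ} (hn : n ≤ 4096 * (d + 2)) (hw : w ≤ 2 ^ tOf d + 100 * (d + 2) + 1000) :
    Fits (envOf d T) n w := (fits_envOf d T).mono2 hn hw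

theorem fits' {n w : ℕ} (hn : n ≤ 4096 * (d + 2)) (hw : w ≤ 100 * (d + 2) + 1000) :
    Fits (envOf d T) n w := fits hn (by
  have := Nat.zero_le (2 ^ tOf d)
  generalize 2 ^ tOf d = x at *
  omega)

/-- The properties of the polynomial in the new coordinates. -/
structure Mon (F0 : K[X][X]) (d : ℕ) (T : List (List L)) (G : List (List L)) (c : L)
    (s : Finset L[X][X]) (e : L[X][X] → ℕ) : Prop where
  hc : c ≠ 0
  hs : ∀ f ∈ s, Irreducible f ∧ f.Monic ∧ 0 < e f
  hp : shear (abOf T).1 (abOf T).2 (fcP L F0) = C (C c) * ∏ f ∈ s, f ^ e f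
  hnd : (shear (abOf T).1 (abOf T).2 (fcP L F0)).natDegree = d
  hsep : (red (∏ f ∈ s, f)).Separable
  hG : toB G = ∏ f ∈ s, f ^ e f
  hl : G.length = d + 1
  deg : (toB G).natDegree = d
  tdeg : TDeg d (toB G)

theorem exists_mon (F0 : K[X][X]) (hF0 : toMv F0 = F) (hd : F.totalDegree = d)
    (hT : T.map List.length = tapeLens d) (h0 : (T.getD 0 []).Nodup)
    (h1 : Nice d (shear (abOf T).1 (abOf T).2 (toB (fromDense (fcD L d F))))) :
    ∃ c s e, Mon F0 d T (monOf (fcD L d F) T) c s e := by
  rw [toB_fromDense F0 hF0 hd] at h1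
  obtain ⟨c, s, e, hc, hnd, hs, hp, hsep⟩ := h1
  have hlen : (fcD L d F).length - 1 = d := by rw [length_fcD]; rfl
  have hE := good hT h0
  have htd : TDeg d (toB (fromDense (fcD L d F))) := by
    rw [toB_fromDense F0 hF0 hd]
    exact tdeg_fcP F0 hF0 hd
  have hsh : toB (shearB (envOf d T) d (abOf T).1 (abOf T).2 (fromDense (fcD L d F))) =
      shear (abOf T).1 (abOf T).2 (fcP L F0) := by
    rw [toB_shearB hE (abOf T).1 (abOf T).2 htd (fits' (by omega) (by omega)),
      toB_fromDense F0 hF0 hd]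
  have hPm : (∏ f ∈ s, f ^ e f).Monic := monic_prod_of_monic _ _ fun f hf => (hs f hf).2.1.pow _
  have hlc : lc2 (∏ f ∈ s, f ^ e f) = 1 := by
    rw [lc2, hPm.leadingCoeff, leadingCoeff_one]
  have hmon : monOf (fcD L d F) T = normB (shearB (envOf d T) d (abOf T).1 (abOf T).2
      (fromDense (fcD L d F))) := by
    rw [monOf, monicL, hlen]
  have hG : toB (monOf (fcD L d F) T) = ∏ f ∈ s, f ^ e f := by
    rw [hmon, normB, toB_smulB, lcB_eq, hsh, hp, Desc.lc2_mul, Desc.lc2_CC, hlc, mul_one,
      ← mul_assoc, ← C_mul, ← C_mul, inv_mul_cancel₀ hc, C_1, C_1, one_mul]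
  have hCc : (C (C c) : L[X][X]) ≠ 0 := by simpa using hc
  have hdeg : (toB (monOf (fcD L d F) T)).natDegree = d := by
    rw [hG, ← hnd, hp, natDegree_C_mul (by simpa using hc)]
  refine ⟨c, s, e, hc, hs, hp, hnd, hsep, hG, ?_, hdeg, ?_⟩
  · rw [hmon, normB, smulB, List.length_map, length_shearB]
  · have h2 : TDeg d (shear (abOf T).1 (abOf T).2 (fcP L F0)) :=
      (tdeg_fcP F0 hF0 hd).shear _ _
    have h3 : toB (monOf (fcD L d F) T) = C (C c⁻¹) * shear (abOf T).1 (abOf T).2 (fcP L F0) := by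
      rw [hG, hp, ← mul_assoc, ← C_mul, ← C_mul, inv_mul_cancel₀ hc, C_1, C_1, one_mul]
    rw [h3]
    have h4 : TDeg 0 (C (C c⁻¹) : L[X][X]) := TDeg.C (by simp)
    have := h4.mul h2
    rwa [zero_add] at this

theorem Mon.monic {F0 : K[X][X]} {G : List (List L)} {c : L} {s : Finset L[X][X]}
    {e : L[X][X] → ℕ} (h : Mon F0 d T G c s e) : (toB G).Monic := by
  rw [h.hG]
  exact monic_prod_of_monic _ _ fun f hf => (h.hs f hf).2.1.pow _

theorem Mon.rad_monic {F0 : K[X][X]} {G : List (List L)} {c : L} {s : Finset L[X][X]}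
    {e : L[X][X] → ℕ} (h : Mon F0 d T G c s e) : (∏ f ∈ s, f).Monic :=
  monic_prod_of_monic _ _ fun f hf => (h.hs f hf).2.1

theorem Mon.rad_dvd {F0 : K[X][X]} {G : List (List L)} {c : L} {s : Finset L[X][X]}
    {e : L[X][X] → ℕ} (h : Mon F0 d T G c s e) : (∏ f ∈ s, f) ∣ toB G := by
  rw [h.hG]
  exact Finset.prod_dvd_prod_of_dvd _ _ fun f hf => dvd_pow_self f (h.hs f hf).2.2.ne'

theorem Mon.rad_natDegree {F0 : K[X][X]} {G : List (List L)} {c : L} {s : Finset L[X][X]}
    {e : L[X][X] → ℕ} (h : Mon F0 d T G c s e) : (∏ f ∈ s, f).natDegree ≤ d := by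
  rw [← h.deg]
  exact natDegree_le_of_dvd h.rad_dvd h.monic.ne_zero

theorem Mon.factor_pos {F0 : K[X][X]} {G : List (List L)} {c : L} {s : Finset L[X][X]}
    {e : L[X][X] → ℕ} (h : Mon F0 d T G c s e) {f : L[X][X]} (hf : f ∈ s) :
    0 < f.natDegree := by
  rcases Nat.eq_zero_or_pos f.natDegree with h0 | h0
  · exact absurd ((h.hs f hf).2.1.natDegree_eq_zero.1 h0) (h.hs f hf).1.ne_one
  · exact h0

theorem Mon.sum_deg {F0 : K[X][X]} {G : List (List L)} {c : L} {s : Finset L[X][X]}
    {e : L[X][X] → ℕ} (h : Mon F0 d T G c s e) : ∑ f ∈ s, e f * f.natDegree = d := by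
  have h1 := h.deg
  rw [h.hG, natDegree_prod_of_monic _ _ (fun f hf => (h.hs f hf).2.1.pow _)] at h1
  rw [← h1]
  exact Finset.sum_congr rfl fun f hf => ((h.hs f hf).2.1.natDegree_pow _).symm

theorem Mon.rad_pos {F0 : K[X][X]} {G : List (List L)} {c : L} {s : Finset L[X][X]}
    {e : L[X][X] → ℕ} (h : Mon F0 d T G c s e) (hd : 0 < d) : 0 < (∏ f ∈ s, f).natDegree := by
  rw [natDegree_prod_of_monic _ _ (fun f hf => (h.hs f hf).2.1)]
  have h1 := h.sum_deg
  rcases s.eq_empty_or_nonempty with rfl | ⟨f, hf⟩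
  · simp at h1
    omega
  · exact lt_of_lt_of_le (h.factor_pos hf) (Finset.single_le_sum (f := fun f => f.natDegree)
      (fun _ _ => Nat.zero_le _) hf)

/-- The radical. -/
theorem rad_spec [Fintype L] {F0 : K[X][X]} {c : L} {s : Finset L[X][X]} {e : L[X][X] → ℕ}
    (h : Mon F0 d T (monOf (fcD L d F) T) c s e) {Q : FQ} {p : ℕ} (hQ : Q.Ok L p)
    (hT : T.map List.length = tapeLens d) (h0 : (T.getD 0 []).Nodup)
    (h2 : UniOk (toP ((monOf (fcD L d F) T).map (fun r => r.headD 0))) (zsOf Q (fcD L d F) T)) :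
    toB (radOf Q (fcD L d F) T) = ∏ f ∈ s, f ∧
    (radOf Q (fcD L d F) T).length = (∏ f ∈ s, f).natDegree + 1 := by
  have hlen : (fcD L d F).length - 1 = d := by rw [length_fcD]; rfl
  have h2' := h2.2.2
  rw [← red_toB] at h2'
  rw [radOf, hlen]
  have hclog : d + 2 ≤ 2 ^ Nat.clog 2 (d + 2) := Nat.le_pow_clog (by omega) _
  have hclog2 : 2 ^ Nat.clog 2 (d + 2) ≤ 2 * (d + 2) := by
    have h3 := Nat.pow_pred_clog_lt_self (b := 2) (by omega) (x := d + 2) (by omega)
    have h4 : 0 < Nat.clog 2 (d + 2) := Nat.clog_pos (by omega) (by omega)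
    obtain ⟨m, hm⟩ := Nat.exists_eq_add_of_lt h4
    rw [zero_add] at hm
    rw [hm] at h3 ⊢
    rw [Nat.pred_eq_sub_one, Nat.add_sub_cancel] at h3
    rw [pow_succ]
    omega
  refine radB_spec (good hT h0) hQ h.hs h.hG ?_ h.hsep ?_ ?_ ?_ h2.1 h2.2.1 h2'.symm
  · rw [h.deg]
    exact h.tdeg
  · rw [h.hl, h.deg]
  · rw [h.deg]
    exact hclog
  · rw [h.deg]
    exact fits' (by omega) (by omega)

theorem sqHyp [Fintype L] {F0 : K[X][X]} {c : L} {s : Finset L[X][X]} {e : L[X][X] → ℕ}
    (h : Mon F0 d T (monOf (fcD L d F) T) c s e) {Q : FQ} {p : ℕ} (hQ : Q.Ok L p)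
    (hd : 0 < d) (hT : T.map List.length = tapeLens d) (h0 : (T.getD 0 []).Nodup)
    (h2 : UniOk (toP ((monOf (fcD L d F) T).map (fun r => r.headD 0))) (zsOf Q (fcD L d F) T)) :
    SqHyp (envOf d T) (tOf d) (radOf Q (fcD L d F) T) (zsOf Q (fcD L d F) T) := by
  obtain ⟨hr, hrl⟩ := rad_spec h hQ hT h0 h2
  have hn := h.rad_natDegree
  have h2' := h2.2.2
  rw [← red_toB] at h2'
  have hpw := two_pow_tOf d
  have hnr : 1 ≤ nroot 2 (d + 2) := nroot_pos (by omega) (by omega)
  have hpw1 : 4 * (d + 2) ≤ 2 ^ tOf d :=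
    (Nat.le_mul_of_pos_right _ hnr).trans hpw.1
  refine ⟨good hT h0, ?_, ?_, ?_, ?_, ?_, ?_, ?_, ?_, ?_, ?_⟩
  · rw [hr]
    exact h.rad_monic
  · rw [hrl, hr]
  · rw [hr]
    refine TDeg.of_dvd_monic h.monic ?_ h.rad_monic h.rad_dvd
    rw [h.deg]
    exact h.tdeg
  · rw [hr]
    exact h.rad_pos hd
  · intro z hz
    exact ⟨(h2.1 z hz).1, (h2.1 z hz).2.1⟩
  · exact h2.2.1
  · rw [hr]
    have := red_radical h.hs h.hsep (L := (zsOf Q (fcD L d F) T).map (fun z => (toP z.1, z.2)))
      (by
        intro z hz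
        obtain ⟨y, hy, rfl⟩ := List.mem_map.1 hz
        exact ⟨(h2.1 y hy).2.1, (h2.1 y hy).1.monic, (h2.1 y hy).2.2⟩)
      (by
        rw [List.map_map]
        exact h2.2.1)
      (by
        rw [List.map_map, ← h.hG, ← h2']
        rfl)
    rw [this, List.map_map]
    rfl
  · rw [hr]
    exact h.hsep
  · rw [hr]
    omega
  · rw [hr]
    refine fits (by omega) ?_
    have := Nat.zero_le (2 ^ tOf d)
    generalize 2 ^ tOf d = x at *
    omega

/-! ### Sizes -/

theorem sum_zs {f : L[X]} (hf : f.Monic) {Z : List (List L × ℕ)} (h2 : UniOk f Z) :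
    (Z.map (fun z => z.2 * (toP z.1).natDegree)).sum = f.natDegree := by
  have h1 := (monic_list (L := Z.map (fun z => toP z.1 ^ z.2)) (by
    intro a ha
    obtain ⟨z, hz, rfl⟩ := List.mem_map.1 ha
    exact (h2.1 z hz).1.monic.pow _)).2
  rw [h2.2.2, List.map_map] at h1
  rw [h1]
  congr 1
  apply List.map_congr_left
  intro z hz
  simp only [Function.comp_apply]
  rw [(h2.1 z hz).1.monic.natDegree_pow]

omit [DecidableEq L] [Field L] [Algebra K L] in
theorem list_sum_le {α : Type} {l : List α} {f g : α → ℕ} {k : ℕ} (h : ∀ z ∈ l, f z ≤ k * g z) :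
    (l.map f).sum ≤ k * (l.map g).sum := by
  rw [← List.sum_map_mul_left]
  exact List.sum_le_sum h

theorem zs_pos {f : L[X]} {Z : List (List L × ℕ)} (h2 : UniOk f Z) {z : List L × ℕ}
    (hz : z ∈ Z) : 0 < z.2 ∧ 0 < (toP z.1).natDegree ∧ z.1.length = (toP z.1).natDegree + 1 :=
  ⟨(h2.1 z hz).2.2, (h2.1 z hz).2.1.natDegree_pos, (h2.1 z hz).1.len⟩

theorem length_zs_le {f : L[X]} (hf : f.Monic) {Z : List (List L × ℕ)} (h2 : UniOk f Z) :
    Z.length ≤ f.natDegree := by
  rw [← sum_zs hf h2]
  calc Z.length = (Z.map (fun _ => 1)).sum := by simp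
    _ ≤ _ := List.sum_le_sum fun z hz => by
      have := zs_pos h2 hz
      exact Nat.mul_pos this.1 this.2.1

/-- The sum over the output. -/
theorem sum_out {F0 : K[X][X]} {G : List (List L)} {c : L} {s : Finset L[X][X]}
    {e : L[X][X] → ℕ} (h : Mon F0 d T G c s e) {Z : List (List L × ℕ)}
    (h2 : UniOk (red (toB G)) Z) {out : List (List (List L) × ℕ)}
    (hout : Factored (∏ f ∈ s, f) Z out) :
    (out.map (fun z => z.1.length + z.2 + 1)).sum ≤ 5 * d := by
  classical
  have hgm : ∀ z ∈ Z.map (fun z => (toP z.1, z.2)), Irreducible z.1 ∧ z.1.Monic ∧ 0 < z.2 := by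
    intro z hz
    obtain ⟨y, hy, rfl⟩ := List.mem_map.1 hz
    exact ⟨(h2.1 y hy).2.1, (h2.1 y hy).1.monic, (h2.1 y hy).2.2⟩
  have hfin : (out.map (fun z => toB z.1)).toFinset = s := by
    ext f
    rw [List.mem_toFinset, List.mem_map]
    rw [hout.mem f]
    constructor
    · rintro ⟨h3, h4, h5⟩
      exact mem_of_dvd_factorization (G := ∏ f ∈ s, f) (s := s) (e := fun _ => 1)
        (fun f hf => ⟨(h.hs f hf).1, (h.hs f hf).2.1, one_pos⟩) (by simp) h3 h4 h5
    · intro hf
      exact ⟨(h.hs f hf).1, (h.hs f hf).2.1, Finset.dvd_prod_of_mem (fun f => f) hf⟩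
  have he : ∀ z ∈ out, z.1.length + z.2 + 1 =
      (toB z.1).natDegree + e (toB z.1) + 2 := by
    intro z hz
    obtain ⟨y, hy, hd, hzy⟩ := hout.label z hz
    have hzs : toB z.1 ∈ s := by
      rw [← hfin, List.mem_toFinset]
      exact List.mem_map_of_mem hz
    have h3 := fibre_mult h.hs h.hsep hgm (by rw [List.map_map]; exact h2.2.1)
      (by
        rw [List.map_map, ← h.hG, ← h2.2.2]
        rfl) hzs (z := (toP y.1, y.2)) (List.mem_map_of_mem hy) hd
    rw [(hout.shape z hz).1, hzy]
    simp only at h3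
    rw [h3]
    omega
  have h4 : (out.map (fun z => z.1.length + z.2 + 1)).sum =
      ∑ f ∈ s, (f.natDegree + e f + 2) := by
    rw [← hfin, List.sum_toFinset _ hout.nodup, List.map_map]
    congr 1
    apply List.map_congr_left
    intro z hz
    exact he z hz
  rw [h4]
  have h5 := h.sum_deg
  calc ∑ f ∈ s, (f.natDegree + e f + 2) ≤ ∑ f ∈ s, 5 * (e f * f.natDegree) := by
        refine Finset.sum_le_sum fun f hf => ?_
        have h6 := h.factor_pos hf
        have h7 := (h.hs f hf).2.2
        obtain ⟨a, ha⟩ := Nat.exists_eq_add_of_lt h6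
        obtain ⟨b, hb⟩ := Nat.exists_eq_add_of_lt h7
        rw [ha, hb]
        nlinarith [Nat.zero_le (a * b)]
    _ = 5 * d := by rw [← Finset.mul_sum, h5]

theorem kappa_arith {κ d ν w : ℕ} (hν : d + 2 ≤ ν ^ 2) (hw : 4 * (d + 2) * ν ≤ w)
    (h : κ * w ≤ 8 * d ^ 2) : κ ≤ 2 * ν := by
  by_contra hcon
  rw [not_le] at hcon
  have h1 : (2 * ν + 1) * (4 * (d + 2) * ν) ≤ 8 * d ^ 2 :=
    (Nat.mul_le_mul hcon hw).trans h
  nlinarith [Nat.zero_le ((d + 2) * ν), Nat.mul_le_mul_left (8 * (d + 2)) hν]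

end setup

end FC

open FC in
theorem noBad_correct {K L : Type} [Field K] [Field L] [Fintype K] [Fintype L] [Algebra K L]
    [DecidableEq L] {Q : FQ} {p kK N d : ℕ} (hQ : Q.Ok L p) (hk : Fintype.card K = p ^ kK)
    (hN : 0 < N) (hL : Fintype.card L = Fintype.card K ^ N) {F : MvPolynomial (Fin 2) K}
    (hF : F ≠ 0) (hd : F.totalDegree = d) (hd2 : 2 ≤ d) {T : List (List L)}
    (hT : T.map List.length = tapeLens d)
    (h : NoBad (Fintype.card L) Q ((dense d F).map (List.map (algebraMap K L))) T) :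
    (∃ Lf : List (MvPolynomial (Fin 2) K × ℕ), IsFactorization F Lf ∧
      facParts Q kK N ((dense d F).map (List.map (algebraMap K L))) T = Lf.map (fun g =>
        ((dense g.1.totalDegree g.1).map (List.map (algebraMap K L)), g.2))) ∧
    SizeOk Q ((dense d F).map (List.map (algebraMap K L))) T := by
  classical
  obtain ⟨F0, hF0⟩ := toMv_bijective.2 F
  have hFd : (dense d F).map (List.map (algebraMap K L)) = fcD L d F := rfl
  rw [hFd] at h ⊢
  have hlen : (fcD L d F).length - 1 = d := by rw [length_fcD]; rfl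
  obtain ⟨h0, h1, h2, h3, h4, h5, h6⟩ := h
  rw [hlen] at h1 h3 h4 h5 h6
  obtain ⟨c, s, e, hM⟩ := exists_mon F0 hF0 hd hT h0 h1
  obtain ⟨hr, hrl⟩ := rad_spec hM hQ hT h0 h2
  have hS := sqHyp hM hQ (by omega) hT h0 h2
  have hn := hM.rad_natDegree
  have hGm : (toP ((monOf (fcD L d F) T).map (fun r => r.headD 0))).Monic := by
    rw [← red_toB]
    exact hM.monic.map _
  have hGd : (toP ((monOf (fcD L d F) T).map (fun r => r.headD 0))).natDegree = d := by
    rw [← red_toB, natDegree_red hM.monic, hM.deg]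
  have hzl : (zsOf Q (fcD L d F) T).length ≤ d := by
    have := length_zs_le hGm h2
    rwa [hGd] at this
  have h2' : UniOk (red (toB (monOf (fcD L d F) T))) (zsOf Q (fcD L d F) T) := by
    rw [red_toB]
    exact h2
  have hT4 : (T.getD 4 []).length = d := part_length hT 4
  have hT5 : (T.getD 5 []).length = 16 * d + 80 := part_length hT 5
  have hT6 : (T.getD 6 []).length = d := part_length hT 6
  have hfac : Factored (∏ f ∈ s, f) (zsOf Q (fcD L d F) T) (outOf Q (fcD L d F) T) := by
    have := sqMain_correct hS hQ (by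
      rw [hr]
      exact fits' (by omega) (by omega)) (th := T.getD 3 []) (tw := T.getD 4 [])
      (tm := T.getD 5 []) (tc := T.getD 6 []) (by omega) (by omega) (by omega) h3 h4 h5 h6
    rw [hr] at this
    rw [outOf, hlen]
    exact this
  refine ⟨?_, ?_⟩
  · have hb : bval Q.1 ^ kK = Fintype.card K := by rw [hQ.bits, bval_bits, hk]
    have hF00 : F0 ≠ 0 := by
      rintro rfl
      rw [map_zero] at hF0
      exact hF hF0.symm
    obtain ⟨Lf, hLf, hdesc⟩ := unshear_spec (good hT h0) hb hN hL hF00 (d := d) (by rw [hF0, hd])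
      (fits' (by omega) (by omega)) hM.hc hM.hs hM.hp hM.hnd hM.hsep h2.1 h2.2.1
      (by rw [← hM.hG, ← h2'.2.2]) hfac
    refine ⟨Lf, by rw [← hF0]; exact hLf, ?_⟩
    rw [facParts, hlen]
    exact hdesc
  · refine ⟨?_, ?_, ?_, ?_, ?_⟩
    · rw [hlen]
      have := sum_zs hGm h2
      rw [hGd] at this
      refine le_of_le_of_eq (list_sum_le (k := 6)
        (g := fun z : List L × ℕ => z.2 * (toP z.1).natDegree) fun z hz => ?_) (by rw [this])
      obtain ⟨e1, e2, e3⟩ := zs_pos h2 hz
      obtain ⟨a, ha⟩ := Nat.exists_eq_add_of_lt e1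
      obtain ⟨b, hb⟩ := Nat.exists_eq_add_of_lt e2
      rw [e3, ha, hb]
      nlinarith [Nat.zero_le (a * b)]
    · rw [hlen]
      have := sum_zs hGm h2
      rw [hGd] at this
      rw [tot, List.map_map]
      refine le_of_le_of_eq (list_sum_le (k := 3)
        (g := fun z : List L × ℕ => z.2 * (toP z.1).natDegree) fun z hz => ?_) (by rw [this])
      obtain ⟨e1, e2, e3⟩ := zs_pos h2 hz
      obtain ⟨a, ha⟩ := Nat.exists_eq_add_of_lt e1
      obtain ⟨b, hb⟩ := Nat.exists_eq_add_of_lt e2
      simp only [Function.comp_apply]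
      rw [e3, ha, hb]
      nlinarith [Nat.zero_le (a * b)]
    · rw [hrl, length_fcD]
      omega
    · rw [hlen, kapOf, hlen]
      have hk := kappa_bound hS (th := T.getD 3 []) (tw := T.getD 4 []) (by omega) h3 h4
      refine kappa_arith (nroot_spec (by omega) _) (two_pow_tOf d).1 (hk.trans ?_)
      rw [hr]
      have e1 : 2 * (∏ f ∈ s, f).natDegree ≤ 2 * d := by omega
      have e2 : 2 * (∏ f ∈ s, f).natDegree + ((zsOf Q (fcD L d F) T).length + 1) ≤
          3 * d + 1 := by omega
      refine (Nat.mul_le_mul e1 e2).trans ?_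
      nlinarith
    · rw [hlen]
      exact sum_out hM h2' hfac

end Pool.Agent.BiFac

end

section

/-!
# Preparation and postprocessing over the small field
-/

set_option autoImplicit false
set_option synthInstance.maxSize 10000

namespace Pool.Agent.BiFac

open Polynomial Pool.Agent.TreeRAM

variable {K : Type} [Field K]

/-! ### Replacing the elements of the extension field by coordinate lists -/

section bind

variable {L : Type} [Field L] (f : L → D K)

omit [Field K] [Field L] in
private theorem prep_bind_nat (n : ℕ) : bindD f (enc L n) = enc K n := by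
  induction n with
  | zero => rfl
  | succ n ih => rw [enc_succ, enc_succ, ← ih]; rfl

omit [Field K] [Field L] in
private theorem prep_bind_bool (b : Bool) : bindD f (enc L b) = enc K b := by
  cases b <;> rfl

omit [Field K] [Field L] in
private theorem prep_bind_list {α β : Type} [Enc L α] [Enc K β] (g : α → β)
    (h : ∀ a, bindD f (enc L a) = enc K (g a)) (l : List α) :
    bindD f (enc L l) = enc K (l.map g) := by
  induction l with
  | nil => rfl
  | cons a l ih =>
    rw [enc_cons, List.map_cons, enc_cons, ← ih, ← h]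
    rfl

omit [Field K] [Field L] in
private theorem prep_bind_pair {α β α' β' : Type} [Enc L α] [Enc K β] [Enc L α'] [Enc K β']
    (g : α → β) (g' : α' → β') (h : ∀ a, bindD f (enc L a) = enc K (g a))
    (h' : ∀ a, bindD f (enc L a) = enc K (g' a)) (z : α × α') :
    bindD f (enc L z) = enc K (g z.1, g' z.2) := by
  obtain ⟨a, a'⟩ := z
  rw [enc_pair, enc_pair, ← h, ← h']
  rfl

end bind

omit [Field K] in
/-- the encoded input over the extension field -/
theorem bindD_input {L : Type} [Field L] (rep : L → List K) (Q : FQ) (kN : ℕ × ℕ)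
    (Fd : List (List L)) (tape : List L) :
    bindD (fun a => enc K (rep a)) (enc L (Q, kN, Fd, tape)) =
      enc K (Q, kN, Fd.map (List.map rep), tape.map rep) := by
  have h1 : ∀ l : List Bool, bindD (fun a : L => enc K (rep a)) (enc L l) = enc K l := by
    intro l
    rw [prep_bind_list (K := K) _ (fun b : Bool => b) (fun b => prep_bind_bool _ b), List.map_id']
  have h2 : ∀ l : List L, bindD (fun a : L => enc K (rep a)) (enc L l) = enc K (l.map rep) :=
    prep_bind_list _ rep (fun a => rfl)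
  exact prep_bind_pair _ (fun q : FQ => q) (fun z : (ℕ × ℕ) × List (List L) × List L =>
    (z.1, z.2.1.map (List.map rep), z.2.2.map rep))
    (prep_bind_pair _ (fun l : List Bool => l) (fun n : ℕ => n) h1 (prep_bind_nat _))
    (prep_bind_pair _ (fun q : ℕ × ℕ => q) (fun z : List (List L) × List L =>
      (z.1.map (List.map rep), z.2.map rep))
      (prep_bind_pair _ (fun n : ℕ => n) (fun n : ℕ => n) (prep_bind_nat _) (prep_bind_nat _))
      (prep_bind_pair _ _ _ (prep_bind_list _ _ h2) h2)) (Q, kN, Fd, tape)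

omit [Field K] in
/-- the encoded output over the extension field -/
theorem bindD_output {L : Type} [Field L] (rep : L → List K)
    (out : List (List (List L) × ℕ)) :
    bindD (fun a => enc K (rep a)) (enc L out) =
      enc K (out.map (fun y => (y.1.map (List.map rep), y.2))) :=
  prep_bind_list _ _ (prep_bind_pair _ _ _ (prep_bind_list _ _
    (prep_bind_list _ rep (fun _ => rfl))) (prep_bind_nat _)) out

/-! ### The size of the output -/

private theorem prep_tdeg_pow {σ : Type} {g : MvPolynomial σ K} (hg : g ≠ 0) (n : ℕ) :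
    (g ^ n).totalDegree = n * g.totalDegree := by
  induction n with
  | zero => simp
  | succ n ih =>
    rw [pow_succ, MvPolynomial.totalDegree_mul_of_isDomain (pow_ne_zero _ hg) hg, ih]
    ring

private theorem prep_tdeg_prod {σ : Type} (L : List (MvPolynomial σ K × ℕ))
    (h : ∀ g ∈ L, g.1 ≠ 0) :
    (L.map (fun g : MvPolynomial σ K × ℕ => g.1 ^ g.2)).prod ≠ 0 ∧
      (L.map (fun g : MvPolynomial σ K × ℕ => g.1 ^ g.2)).prod.totalDegree =
        (L.map (fun g : MvPolynomial σ K × ℕ => g.2 * g.1.totalDegree)).sum := by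
  induction L with
  | nil => simp
  | cons g L ih =>
    obtain ⟨h1, h2⟩ := ih (fun y hy => h y (List.mem_cons_of_mem _ hy))
    have h3 : g.1 ^ g.2 ≠ 0 := pow_ne_zero _ (h g List.mem_cons_self)
    refine ⟨?_, ?_⟩
    · rw [List.map_cons, List.prod_cons]
      exact mul_ne_zero h3 h1
    · rw [List.map_cons, List.prod_cons, MvPolynomial.totalDegree_mul_of_isDomain h3 h1, h2,
        List.map_cons, List.sum_cons, prep_tdeg_pow (h g List.mem_cons_self)]

private theorem prep_tdeg_assoc {σ : Type} {F G : MvPolynomial σ K} (h : Associated F G) :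
    F.totalDegree ≤ G.totalDegree := by
  by_cases hG : G = 0
  · have : F = 0 := by
      rw [hG] at h
      exact (associated_zero_iff_eq_zero F).1 h
    rw [this, hG]
  · exact MvPolynomial.totalDegree_le_of_dvd_of_isDomain h.dvd hG

private theorem prep_tdeg_pos {σ : Type} {g : MvPolynomial σ K} (h : Irreducible g) :
    1 ≤ g.totalDegree := by
  by_contra h0
  have h1 : g.totalDegree = 0 := by omega
  rw [MvPolynomial.totalDegree_eq_zero_iff_eq_C] at h1
  have h2 : g.coeff 0 ≠ 0 := by
    intro h3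
    rw [h3, map_zero] at h1
    exact h.ne_zero h1
  apply h.not_isUnit
  rw [h1]
  exact (isUnit_iff_ne_zero.2 h2).map MvPolynomial.C

private theorem prep_tot_dense (D : ℕ) (g : MvPolynomial (Fin 2) K) :
    tot (dense D g) ≤ (D + 1) * (D + 2) := by
  unfold tot dense
  rw [List.map_map]
  refine (List.sum_le_card_nsmul _ (D + 2) ?_).trans (le_of_eq ?_)
  · intro x hx
    obtain ⟨i, _, rfl⟩ := List.mem_map.1 hx
    simp only [Function.comp, List.length_map, List.length_range]
    omega
  · rw [List.length_map, List.length_range, smul_eq_mul]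

/-- the size of the output -/
theorem output_size {d : ℕ} {F : MvPolynomial (Fin 2) K} (hF : F ≠ 0)
    (hd : F.totalDegree = d) {Lf : List (MvPolynomial (Fin 2) K × ℕ)}
    (h : IsFactorization F Lf) :
    (Lf.map (fun g => tot (dense g.1.totalDegree g.1) + 1)).sum ≤ 8 * (d + 1) ^ 2 := by
  obtain ⟨h1, -, h2⟩ := h
  have h3 := prep_tdeg_assoc h2
  rw [(prep_tdeg_prod Lf (fun g hg => (h1 g hg).1.ne_zero)).2, hd] at h3
  have key : ∀ L : List (MvPolynomial (Fin 2) K × ℕ), (∀ g ∈ L, Irreducible g.1 ∧ 0 < g.2) →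
      (L.map (fun g : MvPolynomial (Fin 2) K × ℕ => g.2 * g.1.totalDegree)).sum ≤ d →
      (L.map (fun g => tot (dense g.1.totalDegree g.1) + 1)).sum ≤
        8 * (d + 1) * (L.map (fun g : MvPolynomial (Fin 2) K × ℕ => g.2 * g.1.totalDegree)).sum := by
    intro L
    induction L with
    | nil => intro _ _; simp
    | cons g L ih =>
      intro hL hs
      rw [List.map_cons, List.sum_cons] at hs
      have ih' := ih (fun y hy => hL y (List.mem_cons_of_mem _ hy)) (by omega)
      obtain ⟨g1, g2⟩ := hL g List.mem_cons_self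
      have g3 := prep_tdeg_pos g1
      have g4 := prep_tot_dense g.1.totalDegree g.1
      have g5 : 1 * g.1.totalDegree ≤ g.2 * g.1.totalDegree := Nat.mul_le_mul_right _ g2
      rw [List.map_cons, List.sum_cons, List.map_cons, List.sum_cons, mul_add]
      refine Nat.add_le_add ?_ ih'
      generalize g.2 * g.1.totalDegree = m at *
      generalize g.1.totalDegree = D at *
      have g6 : D ≤ d := by omega
      calc tot (dense D g.1) + 1 ≤ (D + 1) * (D + 2) + 1 := by omega
        _ ≤ 8 * (D + 1) * D := by nlinarith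
        _ ≤ 8 * (d + 1) * m := Nat.mul_le_mul (by omega) (by omega)
  refine (key Lf h1 h3).trans ?_
  calc _ ≤ 8 * (d + 1) * d := Nat.mul_le_mul_left _ h3
    _ ≤ 8 * (d + 1) ^ 2 := by nlinarith

/-! ### Postprocessing -/

/-- From coordinate lists back to elements of the small field. -/
def postF (out : List (List (List (List K)) × ℕ)) : List (List (List K) × ℕ) :=
  out.map (fun y => (y.1.map (List.map (fun a => a.headD 0)), y.2))

theorem postF_ex : ∃ c, ∀ (K : Type) [Field K],
    Comp K (fun out : List (List (List (List K)) × ℕ) => postF out) c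
      (fun out => (out.map (fun y => tot y.1 + 1)).sum) :=
  ⟨_, fun K _ => by
    have h1 : Comp K (fun z : List (List (List K)) × ℕ =>
        (z.1.map (List.map (fun a => a.headD 0)) : List (List K))) _ _ :=
      Comp.map (g := fun (_ : List (List (List K)) × ℕ) (r : List (List K)) =>
        r.map (fun a => a.headD 0))
        (hg := Comp.map (g := fun (_ : (List (List (List K)) × ℕ) × List (List K))
          (a : List K) => a.headD 0))
    have h2 : Comp K (fun out : List (List (List (List K)) × ℕ) => out.map (fun y =>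
        ((y.1.map (List.map (fun a => a.headD 0)), y.2) : List (List K) × ℕ))) _ _ :=
      Comp.map (g := fun (_ : List (List (List (List K)) × ℕ)) (y : List (List (List K)) × ℕ) =>
        ((y.1.map (List.map (fun a => a.headD 0)), y.2) : List (List K) × ℕ))
        (hg := (Comp.pair (h := h1)).app1 (Comp.snd0 (α := List (List (List (List K)) × ℕ))))
    exact (h2.congr (fun _ => rfl)).bigO 1 (fun out => by
      simp only [tot, zero_add, add_zero, List.map_const', List.sum_replicate, smul_eq_mul,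
        mul_one, one_mul, le_refl])⟩

/-! ### The cost of the preparation -/

private theorem prep_sum (d : ℕ) : (tapeLens d).sum =
    (2 * (2 * nroot 400 (d + 1)) - 1) + (2 + ((Nat.clog 2 (d + 1) + 2) *
      (8 * Nat.clog 2 (d + 2) * (d + 1)) + (d * 2 ^ Nat.clog 2 (4 * (d + 2) * nroot 2 (d + 2)) +
        (d + ((80 + d * 16) + d))))) := by
  simp only [tapeLens, sOf, tOf, uniTape, nbOf, List.sum_cons, List.sum_nil, add_zero]
  rw [add_comm (16 * d) 80, mul_comm 16 d]

private theorem prep_clog_le (n : ℕ) : Nat.clog 2 n ≤ n :=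
  Nat.clog_le_of_le_pow Nat.lt_two_pow_self.le

private theorem prep_two_pow_le (n : ℕ) : 2 ^ Nat.clog 2 n ≤ 2 * n + 1 := by
  rcases Nat.lt_or_ge 1 n with h | h
  · have h1 := Nat.pow_pred_clog_lt_self (b := 2) (by norm_num) h
    have h2 : Nat.clog 2 n = (Nat.clog 2 n).pred + 1 :=
      (Nat.succ_pred_eq_of_pos (Nat.clog_pos (by norm_num) h)).symm
    rw [h2, pow_succ]
    omega
  · rw [Nat.clog_of_right_le_one h]
    omega

private theorem prep_num_ex : ∃ c, ∀ (K : Type) [Field K],
    Comp K (fun d : ℕ => (eOf d, (tapeLens d).sum)) c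
      (fun d => (d + 2) ^ 2 + (tapeLens d).sum) :=
  ⟨_, fun K _ => by
    have h1 : Comp K (fun d : ℕ => (20 * Nat.clog 2 (d + 2),
      (2 * (2 * nroot 400 (d + 1)) - 1) + (2 + ((Nat.clog 2 (d + 1) + 2) *
      (8 * Nat.clog 2 (d + 2) * (d + 1)) + (d * 2 ^ Nat.clog 2 (4 * (d + 2) * nroot 2 (d + 2)) +
        (d + ((80 + d * 16) + d))))))) _ _ := inferInstance
    exact (h1.congr (fun d => by rw [prep_sum]; rfl)).bigO 1000 (fun d => by
      rw [prep_sum]
      simp only [zero_add, add_zero]
      have h4 : nroot 400 (d + 1) ≤ d + 1 := nroot_le (by norm_num) _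
      have h2 : nroot 2 (d + 2) ≤ d + 2 := nroot_le (by norm_num) _
      have hc1 : Nat.clog 2 (d + 1) ≤ d + 1 := prep_clog_le _
      have hc2 : Nat.clog 2 (d + 2) ≤ d + 2 := prep_clog_le _
      have hT : 2 ^ Nat.clog 2 (4 * (d + 2) * nroot 2 (d + 2)) ≤
          2 * (4 * (d + 2) * nroot 2 (d + 2)) + 1 := prep_two_pow_le _
      generalize 2 ^ Nat.clog 2 (4 * (d + 2) * nroot 2 (d + 2)) = T at *
      generalize nroot 400 (d + 1) = r4 at *
      generalize nroot 2 (d + 2) = r2 at *
      generalize Nat.clog 2 (d + 1) = c1 at *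
      generalize Nat.clog 2 (d + 2) = c2 at *
      generalize 2 * (2 * r4) - 1 = u
      have e1 : d * r4 ≤ d * (d + 1) := Nat.mul_le_mul_left _ h4
      have e2 : d * r2 ≤ d * (d + 2) := Nat.mul_le_mul_left _ h2
      have e3 : d * c2 ≤ d * (d + 2) := Nat.mul_le_mul_left _ hc2
      have e4 : (d + 2) ^ 2 = d * d + 4 * d + 4 := by ring
      rw [e4]
      nlinarith [e1, e2, e3, Nat.zero_le u, Nat.zero_le (c1 * c2 * d), Nat.zero_le (c1 * c2),
        Nat.zero_le (c2 * d), Nat.zero_le (d * T)])⟩


omit [Field K] in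
private theorem prep_map_sum (e : ℕ) (L : List (List K)) :
    (L.map (fun b => 0 + (b.map (fun _ => 0 + (0 + 0 + (e - 1)) + 1)).sum + 1)).sum ≤
      tot L * (e + 1) := by
  induction L with
  | nil => simp
  | cons b L ih =>
    have h1 : (b.map (fun _ => 0 + (0 + 0 + (e - 1)) + 1)).sum ≤ b.length * (e + 1) := by
      rw [List.map_const', List.sum_replicate, smul_eq_mul]
      exact Nat.mul_le_mul_left _ (by omega)
    have h2 : tot (b :: L) = b.length + 1 + tot L := by simp [tot]
    rw [List.map_cons, List.sum_cons, h2]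
    have h3 : (b.length + 1 + tot L) * (e + 1) = b.length * (e + 1) + (e + 1) +
      tot L * (e + 1) := by ring
    omega

private noncomputable def prepG [DecidableEq K] (w : (List Bool × ℕ × List (List K) × List K) × ℕ × ℕ) :
    List K × FQ × (ℕ × ℕ) × List (List (List K)) × List (List K) :=
  (findIrr (w.1.1, w.1.2.1) w.2.1 (w.1.2.2.2.take (8 * w.2.1 * w.2.1)),
    (w.1.1, w.1.2.1 * w.2.1), (w.1.2.1, w.2.1),
    w.1.2.2.1.map (List.map (fun a => a :: List.replicate (w.2.1 - 1) 0)),
    chunks w.2.2 w.2.1 (w.1.2.2.2.drop (8 * w.2.1 * w.2.1)))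

private theorem prepG_ex : ∃ c, ∀ (K : Type) [Field K] [DecidableEq K],
    Comp K (fun w : (List Bool × ℕ × List (List K) × List K) × ℕ × ℕ => prepG w) c
      (fun w => (w.2.1 + 2) ^ 4 * FQ.lg (w.1.1, w.1.2.1) + (w.2.2 + 1) * (w.2.1 + 1) +
        (w.1.2.1 + 1) * (w.2.1 + 1) + (tot w.1.2.2.1 + 1) * (w.2.1 + 1)) :=
  ⟨_, fun K _ _ => by
    have h1 : Comp K (fun w : (List Bool × ℕ × List (List K) × List K) × ℕ × ℕ =>
        findIrr (w.1.1, w.1.2.1) w.2.1 (w.1.2.2.2.take (8 * w.2.1 * w.2.1))) _ _ := compFindIrr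
    have h2 : Comp K (fun w : (List Bool × ℕ × List (List K) × List K) × ℕ × ℕ =>
        ((w.1.1, w.1.2.1 * w.2.1) : FQ)) _ _ := Comp.pair
    have h3 : Comp K (fun w : (List Bool × ℕ × List (List K) × List K) × ℕ × ℕ =>
        w.1.2.2.1.map (List.map (fun a => a :: List.replicate (w.2.1 - 1) 0))) _ _ :=
      Comp.map (g := fun (w : (List Bool × ℕ × List (List K) × List K) × ℕ × ℕ) (r : List K) =>
        r.map (fun a => a :: List.replicate (w.2.1 - 1) 0))
        (hg := Comp.map (g := fun (v : ((List Bool × ℕ × List (List K) × List K) × ℕ × ℕ) × List K)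
          (a : K) => a :: List.replicate (v.1.2.1 - 1) 0))
    have h4 : Comp K (fun w : (List Bool × ℕ × List (List K) × List K) × ℕ × ℕ =>
        chunks w.2.2 w.2.1 (w.1.2.2.2.drop (8 * w.2.1 * w.2.1))) _ _ := compChunks
    have h5 := Comp.pair (h := h1) (h' := Comp.pair (h := h2) (h' := Comp.pair
      (f := fun w : (List Bool × ℕ × List (List K) × List K) × ℕ × ℕ => (w.1.2.1, w.2.1))
        (h' := Comp.pair (h := h3) (h' := h4))))
    exact (h5.congr (fun _ => rfl)).bigO 1000 (fun w => by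
      obtain ⟨⟨bits, k, Fd, tape⟩, e, s⟩ := w
      have h6 := prep_map_sum e Fd
      have h7 : (e + 2) ^ 2 ≤ (e + 2) ^ 4 * FQ.lg (bits, k) :=
        calc (e + 2) ^ 2 ≤ (e + 2) ^ 4 := Nat.pow_le_pow_right (by omega) (by norm_num)
          _ ≤ _ := Nat.le_mul_of_pos_right _ (FQ.lg_pos _)
      simp only
      generalize (e + 2) ^ 4 * FQ.lg (bits, k) = A at *
      generalize (Fd.map (fun b => 0 + (b.map (fun _ => 0 + (0 + 0 + (e - 1)) + 1)).sum + 1)).sum
        = B at *
      have h8 : (e + 2) ^ 2 = e * e + 4 * e + 4 := by ring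
      rw [h8] at h7
      generalize tot Fd = t at *
      nlinarith [h6, h7, Nat.zero_le (k * e), Nat.zero_le (s * e), Nat.zero_le (t * e),
        Nat.zero_le (e * e)])⟩


/-- The preparation: an irreducible polynomial, and the input of the program over the extension
field, field elements being replaced by coordinate lists. -/
noncomputable def prepF [DecidableEq K] (z : List Bool × ℕ × List (List K) × List K) :
    List K × FQ × (ℕ × ℕ) × List (List (List K)) × List (List K) :=
  (findIrr (z.1, z.2.1) (eOf (z.2.2.1.length - 1))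
      (z.2.2.2.take (8 * eOf (z.2.2.1.length - 1) * eOf (z.2.2.1.length - 1))),
    (z.1, z.2.1 * eOf (z.2.2.1.length - 1)), (z.2.1, eOf (z.2.2.1.length - 1)),
    z.2.2.1.map (List.map (fun a => a :: List.replicate (eOf (z.2.2.1.length - 1) - 1) 0)),
    chunks (tapeLens (z.2.2.1.length - 1)).sum (eOf (z.2.2.1.length - 1))
      (z.2.2.2.drop (8 * eOf (z.2.2.1.length - 1) * eOf (z.2.2.1.length - 1))))

private theorem prep_numbers {C : ℕ} (hC : ∀ d : ℕ, tapeNeed d ≤ C * bnd d 0 0)
    (d k : ℕ) (bits : List Bool) :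
    (d + 2) ^ 2 ≤ bnd d bits.length k ∧
    (tapeLens d).sum * eOf d ≤ C * bnd d bits.length k ∧
    (eOf d + 2) ^ 4 * FQ.lg (bits, k) ≤ 234256 * bnd d bits.length k ∧
    1 ≤ (tapeLens d).sum ∧ 1 ≤ eOf d := by
  have hc : 1 ≤ Nat.clog 2 (d + 2) := Nat.clog_pos (by norm_num) (by omega)
  have he : eOf d = 20 * Nat.clog 2 (d + 2) := rfl
  have hn : 1 ≤ nroot 20 (d + 2) := nroot_pos (by norm_num) (by omega)
  have hn' : 1 ≤ nroot 20 (d + 2) ^ 19 := Nat.one_le_pow _ _ hn
  set X := (d + 2) ^ 2 * nroot 20 (d + 2) ^ 19 * (Nat.clog 2 (d + 2) + 1) ^ 14 with hX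
  set l := (bits.length + 1) * (k + 1) with hl
  have hl1 : 1 ≤ l := Nat.mul_pos (Nat.succ_pos _) (Nat.succ_pos _)
  have hB : bnd d bits.length k = X * l ^ 2 := rfl
  have hB0 : bnd d 0 0 = X := by
    show X * ((0 + 1) * (0 + 1)) ^ 2 = X
    simp
  have hlg : FQ.lg (bits, k) = l := rfl
  have hl2 : l ≤ l ^ 2 := by nlinarith
  have hl3 : 1 ≤ l ^ 2 := hl1.trans hl2
  have hXB : X ≤ bnd d bits.length k := by
    rw [hB]
    exact Nat.le_mul_of_pos_right _ hl3
  refine ⟨?_, ?_, ?_, ?_, ?_⟩
  · refine le_trans ?_ hXB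
    rw [hX, mul_assoc]
    exact Nat.le_mul_of_pos_right _ (Nat.mul_pos hn' (Nat.pow_pos (Nat.succ_pos _)))
  · have h1 := hC d
    rw [hB0] at h1
    unfold tapeNeed at h1
    exact (by omega : (tapeLens d).sum * eOf d ≤ C * X).trans (Nat.mul_le_mul_left _ hXB)
  · rw [hlg, hB, he]
    have h1 : (20 * Nat.clog 2 (d + 2) + 2) ^ 4 ≤ (22 * (Nat.clog 2 (d + 2) + 1)) ^ 4 :=
      Nat.pow_le_pow_left (by omega) 4
    have h2 : (Nat.clog 2 (d + 2) + 1) ^ 4 ≤ (Nat.clog 2 (d + 2) + 1) ^ 14 :=
      Nat.pow_le_pow_right (Nat.succ_pos _) (by norm_num)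
    have h3 : (Nat.clog 2 (d + 2) + 1) ^ 14 ≤ X := by
      rw [hX]
      exact Nat.le_mul_of_pos_left _ (Nat.mul_pos (Nat.pow_pos (by omega)) hn')
    calc (20 * Nat.clog 2 (d + 2) + 2) ^ 4 * l ≤ (22 * (Nat.clog 2 (d + 2) + 1)) ^ 4 * l ^ 2 :=
          Nat.mul_le_mul h1 hl2
      _ = 234256 * ((Nat.clog 2 (d + 2) + 1) ^ 4 * l ^ 2) := by rw [mul_pow]; norm_num [mul_assoc]
      _ ≤ 234256 * (X * l ^ 2) :=
        Nat.mul_le_mul_left _ (Nat.mul_le_mul_right _ (h2.trans h3))
  · rw [prep_sum]
    omega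
  · omega

private theorem prep_length_le {α : Type} (L : List (List α)) : L.length ≤ tot L := by
  induction L with
  | nil => simp
  | cons a L ih =>
    have : tot (a :: L) = a.length + 1 + tot L := by simp [tot]
    rw [this, List.length_cons]
    omega

theorem prepF_ex : ∃ c, ∀ (K : Type) [Field K] [DecidableEq K],
    Comp K (fun z : List Bool × ℕ × List (List K) × List K => prepF z) c
      (fun z => bnd (z.2.2.1.length - 1) z.1.length z.2.1 + tot z.2.2.1 *
        (eOf (z.2.2.1.length - 1) + 1)) := by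
  obtain ⟨C, hC⟩ := tapeNeed_le
  obtain ⟨cg, hg⟩ := prepG_ex
  obtain ⟨cn, hn⟩ := prep_num_ex
  exact ⟨_, fun K _ _ => by
    have h1 : Comp K (fun z : List Bool × ℕ × List (List K) × List K =>
      z.2.2.1.length - 1) _ _ := inferInstance
    have h2 := (hn K).app1 h1
    have h3 := (hg K).app2 (Comp.id (α := List Bool × ℕ × List (List K) × List K)) h2
    exact (h3.congr (fun _ => rfl)).bigO (1000000 * (C + 1)) (fun z => by
      obtain ⟨bits, k, Fd, tape⟩ := z
      simp only
      obtain ⟨a1, a2, a3, a4, a5⟩ := prep_numbers hC (Fd.length - 1) k bits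
      have a6 := prep_length_le Fd
      have a7 : (k + 1) * (eOf (Fd.length - 1) + 1) ≤
          (eOf (Fd.length - 1) + 2) ^ 4 * FQ.lg (bits, k) := by
        have h7 : eOf (Fd.length - 1) + 1 ≤ (eOf (Fd.length - 1) + 2) ^ 4 := by
          have h9 : (eOf (Fd.length - 1) + 2) ^ 1 ≤ (eOf (Fd.length - 1) + 2) ^ 4 :=
            Nat.pow_le_pow_right (by omega) (by norm_num)
          rw [pow_one] at h9
          exact le_trans (by omega) h9
        have h8 : k + 1 ≤ FQ.lg (bits, k) := Nat.le_mul_of_pos_left _ (Nat.succ_pos _)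
        rw [mul_comm (k + 1)]
        exact Nat.mul_le_mul h7 h8
      generalize (eOf (Fd.length - 1) + 2) ^ 4 * FQ.lg (bits, k) = A at *
      generalize eOf (Fd.length - 1) = e at *
      generalize (tapeLens (Fd.length - 1)).sum = S at *
      generalize bnd (Fd.length - 1) bits.length k = B at *
      generalize (Fd.length - 1 + 2) ^ 2 = X at *
      generalize tot Fd = t at *
      generalize Fd.length = n at *
      have b1 : (S + 1) * (e + 1) ≤ 4 * (S * e) := by nlinarith
      have b2 : S ≤ S * e := Nat.le_mul_of_pos_right _ a5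
      have b3 : e + 1 ≤ (k + 1) * (e + 1) := Nat.le_mul_of_pos_left _ (Nat.succ_pos _)
      have b4 : (t + 1) * (e + 1) = t * (e + 1) + (e + 1) := by ring
      have b5 : t ≤ t * (e + 1) := Nat.le_mul_of_pos_right _ (Nat.succ_pos _)
      have b6 : 1000000 * (C + 1) * (B + t * (e + 1) + 1) = 1000000 * (C * B) + 1000000 * B +
        1000000 * (C * (t * (e + 1))) + 1000000 * (t * (e + 1)) + 1000000 * C + 1000000 := by ring
      rw [b6, b4]
      generalize S * e = Se at *
      generalize t * (e + 1) = te at *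
      generalize (k + 1) * (e + 1) = ke at *
      generalize C * B = CB at *
      generalize C * te = Cte at *
      omega)⟩

end Pool.Agent.BiFac

end
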