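import Pool.Agent.Work.MP_8d07ed_lc.Bd.B06
import Pool.Agent.Work.MP_8d07ed_lc.Bd.B07
import Pool.Agent.Work.MP_8d07ed_lc.Bd.B01
import Pool.Agent.Work.MP_8d07ed_lc.Bd.B03
import Pool.Agent.Work.MP_8d07ed_lc.CostBound
import Pool.Agent.Work.MP_8d07ed_lc.Bd.B04

/-! Bundle of small proof modules (one section per former module). -/

section

/-!
# The cost of the algorithm over the large field
-/

set_option autoImplicit false
set_option synthInstance.maxSize 10000

namespace Pool.Agent.BiFac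

open Polynomial Pool.Agent.TreeRAM

/-! ### Parameters -/

private theorem fc_clog_le {a b c : ℕ} (h : a ≤ 2 ^ c * b) :
    Nat.clog 2 a ≤ Nat.clog 2 b + c := by
  rw [Nat.clog_le_iff_le_pow (by norm_num), pow_add]
  have h1 := Nat.le_pow_clog (b := 2) (by norm_num) b
  calc a ≤ 2 ^ c * b := h
    _ ≤ 2 ^ c * 2 ^ Nat.clog 2 b := Nat.mul_le_mul_left _ h1
    _ = 2 ^ Nat.clog 2 b * 2 ^ c := mul_comm _ _

private theorem fc_pow_clog_le (n : ℕ) : 2 ^ Nat.clog 2 n ≤ 2 * n + 1 := by
  rcases Nat.lt_or_ge 1 n with h | h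
  · have h1 : 2 ^ (Nat.clog 2 n - 1) < n := Nat.pow_pred_clog_lt_self (by norm_num) h
    have h2 : 0 < Nat.clog 2 n := Nat.clog_pos (by norm_num) h
    have h3 : 2 ^ Nat.clog 2 n = 2 * 2 ^ (Nat.clog 2 n - 1) := by
      rw [← pow_succ']
      congr 1
      omega
    omega
  · rw [Nat.clog_of_right_le_one h]
    omega

private theorem fc_two_pow_tOf (d : ℕ) : 2 ^ tOf d ≤ 8 * (d + 2) ^ 2 + 1 := by
  unfold tOf
  refine (fc_pow_clog_le _).trans ?_
  have h := nroot_le (k := 2) (by norm_num) (d + 2)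
  have h1 : 4 * (d + 2) * nroot 2 (d + 2) ≤ 4 * (d + 2) * (d + 2) := Nat.mul_le_mul_left _ h
  nlinarith

private theorem fc_sOf_le (d : ℕ) : sOf d ≤ 2 * (d + 1) := by
  unfold sOf
  have h := nroot_le (k := 400) (by norm_num) (d + 1)
  omega

private instance fcMulEta {K : Type} [Field K] (k : ℕ) : Comp K (HMul.hMul k : ℕ → ℕ)
    (TreeRAM.mulNCd.comp ((Cd.const (PT.ofNat k)).pair Cd.id)) (fun x => 0 + 0 + k * (x + 1)) :=
  Comp.mulN (m := fun _ : ℕ => k) (n := fun x => x)

private theorem fc_sOf_ex : ∃ c, ∀ (K : Type) [Field K],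
    Comp K (fun d : ℕ => sOf d) c (fun d => (d + 2) ^ 2) :=
  ⟨_, fun K _ => (inferInstance : Comp K (fun d : ℕ => 2 * nroot 400 (d + 1)) _ _).bigO 10
    (fun d => by
      have h := nroot_le (k := 400) (by norm_num) (d + 1)
      have h2 : (d + 1 + 1) * (nroot 400 (d + 1) + 1) ≤ (d + 2) * (d + 2) :=
        Nat.mul_le_mul_left _ (by omega)
      nlinarith)⟩

private noncomputable def fcSOf : Cd := fc_sOf_ex.choose

private instance fcCompSOf {K : Type} [Field K] {α : Type} [Enc K α] {f : α → ℕ} {c : Cd}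
    {T : α → ℕ} [h : Comp K f c T] : Comp K (fun x => sOf (f x)) (fcSOf.comp c)
      (fun x => T x + (f x + 2) ^ 2) := (fc_sOf_ex.choose_spec K).app1 h

private instance fcCompSOf_eta {K : Type} [Field K] : Comp K sOf (fcSOf.comp Cd.id)
    (fun x => 0 + (x + 2) ^ 2) := fcCompSOf (f := fun x : ℕ => x)

private theorem fc_tOf_ex : ∃ c, ∀ (K : Type) [Field K],
    Comp K (fun d : ℕ => tOf d) c (fun d => (d + 2) ^ 2) :=
  ⟨_, fun K _ => (inferInstance : Comp K (fun d : ℕ =>
      Nat.clog 2 (4 * (d + 2) * nroot 2 (d + 2))) _ _).bigO 40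
    (fun d => by
      have h := nroot_le (k := 2) (by norm_num) (d + 2)
      have h2 : (d + 2 + 1) * (nroot 2 (d + 2) + 1) ≤ (d + 2 + 1) * (d + 3) :=
        Nat.mul_le_mul_left _ (by omega)
      have h3 : 4 * (d + 2) * nroot 2 (d + 2) ≤ 4 * (d + 2) * (d + 2) := Nat.mul_le_mul_left _ h
      have h4 : 4 * (d + 2) * (nroot 2 (d + 2) + 1) ≤ 4 * (d + 2) * (d + 3) :=
        Nat.mul_le_mul_left _ (by omega)
      nlinarith)⟩

private noncomputable def fcTOf : Cd := fc_tOf_ex.choose

private instance fcCompTOf {K : Type} [Field K] {α : Type} [Enc K α] {f : α → ℕ} {c : Cd}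
    {T : α → ℕ} [h : Comp K f c T] : Comp K (fun x => tOf (f x)) (fcTOf.comp c)
      (fun x => T x + (f x + 2) ^ 2) := (fc_tOf_ex.choose_spec K).app1 h

private instance fcCompTOf_eta {K : Type} [Field K] : Comp K tOf (fcTOf.comp Cd.id)
    (fun x => 0 + (x + 2) ^ 2) := fcCompTOf (f := fun x : ℕ => x)

private theorem fc_clog_self (n : ℕ) : Nat.clog 2 n ≤ n := by
  rw [Nat.clog_le_iff_le_pow (by norm_num)]
  exact Nat.lt_two_pow_self.le

private theorem fc_nbOf_ex : ∃ c, ∀ (K : Type) [Field K],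
    Comp K (fun d : ℕ => nbOf d) c (fun d => d + 2) :=
  ⟨_, fun K _ => (inferInstance : Comp K (fun d : ℕ => 8 * Nat.clog 2 (d + 2)) _ _).bigO 20
    (fun d => by
      have h := fc_clog_self (d + 2)
      omega)⟩

private noncomputable def fcNbOf : Cd := fc_nbOf_ex.choose

private instance fcCompNbOf {K : Type} [Field K] {α : Type} [Enc K α] {f : α → ℕ} {c : Cd}
    {T : α → ℕ} [h : Comp K f c T] : Comp K (fun x => nbOf (f x)) (fcNbOf.comp c)
      (fun x => T x + (f x + 2)) := (fc_nbOf_ex.choose_spec K).app1 h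

private instance fcCompNbOf_eta {K : Type} [Field K] : Comp K nbOf (fcNbOf.comp Cd.id)
    (fun x => 0 + (x + 2)) := fcCompNbOf (f := fun x : ℕ => x)

private theorem fc_tapeLens_ex : ∃ c, ∀ (K : Type) [Field K],
    Comp K (fun d : ℕ => tapeLens d) c (fun d => (tapeLens d).sum + (d + 2) ^ 2) :=
  ⟨_, fun K _ => (inferInstance : Comp K (fun d : ℕ =>
      [2 * sOf d - 1, 2, (Nat.clog 2 (d + 1) + 2) * (nbOf d * (d + 1)), d * 2 ^ tOf d, d,
        16 * d + 80, d]) _ _).bigO 100
    (fun d => by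
      have e : tapeLens d = [2 * sOf d - 1, 2, (Nat.clog 2 (d + 1) + 2) * (nbOf d * (d + 1)),
        d * 2 ^ tOf d, d, 16 * d + 80, d] := rfl
      rw [e]
      simp only [List.sum_cons, List.sum_nil]
      have h1 := fc_sOf_le d
      have h2 := fc_two_pow_tOf d
      have h3 := fc_clog_self (d + 1)
      have h4 : d * (2 ^ tOf d + 1) = d * 2 ^ tOf d + d := by ring
      have h5 : (Nat.clog 2 (d + 1) + 2) * (nbOf d * (d + 1) + 1) =
        (Nat.clog 2 (d + 1) + 2) * (nbOf d * (d + 1)) + (Nat.clog 2 (d + 1) + 2) := by ring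
      have h6 : nbOf d * (d + 1 + 1) ≤ 2 * (nbOf d * (d + 1)) := by nlinarith
      have h7 : nbOf d * (d + 1) ≤ (Nat.clog 2 (d + 1) + 2) * (nbOf d * (d + 1)) :=
        Nat.le_mul_of_pos_left _ (by omega)
      have h8 : (d + 2) ^ 2 = d * d + 4 * d + 4 := by ring
      generalize 2 ^ tOf d = a at *
      generalize nbOf d * (d + 1) = b at *
      generalize nbOf d * (d + 1 + 1) = b' at *
      generalize (Nat.clog 2 (d + 1) + 2) * b = c at *
      generalize d * a = u at *
      generalize d * d = v at *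
      omega)⟩

private noncomputable def fcTL : Cd := fc_tapeLens_ex.choose

private instance fcCompTL {K : Type} [Field K] {α : Type} [Enc K α] {f : α → ℕ} {c : Cd}
    {T : α → ℕ} [h : Comp K f c T] : Comp K (fun x => tapeLens (f x)) (fcTL.comp c)
      (fun x => T x + ((tapeLens (f x)).sum + (f x + 2) ^ 2)) :=
  (fc_tapeLens_ex.choose_spec K).app1 h

/-! ### Cutting the tape -/

private theorem fc_splitLens_ex : ∃ c, ∀ (K : Type) [Field K] (α : Type) [Enc K α],
    Comp K (fun z : List ℕ × List α => splitLens z.1 z.2) c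
      (fun z => z.1.sum + z.1.length) :=
  ⟨_, fun K _ α _ => (Comp.rec1 (K := K)
    (isLeaf := fun z : List ℕ × List α => z.1.isEmpty)
    (leaf := fun _ => []) (next := fun z => (z.1.tail, z.2.drop (z.1.headD 0)))
    (join := fun z r => z.2.take (z.1.headD 0) :: r)
    (T := fun z => 2 * (z.1.sum + z.1.length))
    (fun z => z.1.length)
    (by rintro ⟨l, m⟩ h; cases l <;> simp_all [splitLens])
    (by rintro ⟨l, m⟩ h; cases l <;> simp_all [splitLens])
    (by rintro ⟨l, m⟩ h; cases l <;> simp_all)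
    (by rintro ⟨l, m⟩ h; cases l <;> simp_all)
    (by rintro ⟨l, m⟩ h; cases l <;> simp_all; omega)).bigO 2 (fun z => by omega)⟩

private theorem fc_length_splitLens {α : Type} (d : ℕ) (l : List α) :
    ((splitLens (tapeLens d) l).getD 0 []).length ≤ 2 * sOf d := by
  simp only [tapeLens, splitLens, List.getD_cons_zero, List.length_take]
  omega

/-! ### The stages -/

section stages

variable {K : Type} [Field K]

/-- number of the points -/
private def fcP (T : List (List K)) : ℕ := (T.getD 0 []).length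

private theorem fc_env_ex : ∃ c, ∀ (K : Type) [Field K],
    Comp K (fun z : ℕ × List (List K) => envOf z.1 z.2) c
      (fun z => (sOf z.1 + fcP z.2 + 1) ^ 4 + (z.1 + 2) ^ 2) :=
  ⟨_, fun K _ => (inferInstance : Comp K (fun z : ℕ × List (List K) =>
      mkEnv (sOf z.1) (z.2.getD 0 [])) _ _).bigO 2 (fun z => by
        simp only [fcP]
        omega)⟩

private noncomputable def fcEnv : Cd := fc_env_ex.choose

private instance fcCompEnv {α : Type} [Enc K α] {f : α → ℕ} {g : α → List (List K)} {c d : Cd}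
    {T T' : α → ℕ} [h : Comp K f c T] [h' : Comp K g d T'] :
    Comp K (fun x => envOf (f x) (g x)) (fcEnv.comp (c.pair d))
      (fun x => T x + T' x + ((sOf (f x) + fcP (g x) + 1) ^ 4 + (f x + 2) ^ 2)) :=
  (fc_env_ex.choose_spec K).app2 h h'

private theorem fc_len_le_tot {α : Type} (F : List (List α)) : F.flatten.length ≤ tot F := by
  induction F with
  | nil => simp [tot]
  | cons a F ih =>
    simp only [tot, List.flatten_cons, List.length_append, List.map_cons, List.sum_cons] at ih ⊢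
    omega

private theorem fc_normB_ex : ∃ c, ∀ (K : Type) [Field K] [DecidableEq K],
    Comp K (fun F : List (List K) => normB F) c (fun F => tot F) :=
  ⟨_, fun K _ _ => (inferInstance : Comp K (fun F : List (List K) =>
      smulB ((F.flatten.filter (fun a => !decide (a = 0))).getLastD 0)⁻¹ F) _ _).bigO 10
    (fun F => by
      have h1 := fc_len_le_tot F
      have h2 : (F.flatten.filter (fun a => !decide (a = 0))).length ≤ F.flatten.length :=
        List.length_filter_le _ _
      have h3 : (F.map (fun r => r.length + 1)).sum = tot F := rfl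
      simp only [List.map_const', List.sum_replicate, smul_eq_mul, zero_add, add_zero, h3]
      omega)⟩

private noncomputable def fcNormB : Cd := fc_normB_ex.choose

private instance fcCompNormB [DecidableEq K] {α : Type} [Enc K α] {f : α → List (List K)}
    {c : Cd} {T : α → ℕ} [h : Comp K f c T] : Comp K (fun x => normB (f x)) (fcNormB.comp c)
      (fun x => T x + tot (f x)) := (fc_normB_ex.choose_spec K).app1 h

private theorem fc_tot_shearB (E : MEnv K) (d : ℕ) (a b : K) (F : List (List K)) :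
    tot (shearB E d a b F) = (d + 1) * (d + 2) := by
  have h1 := rows_shearB E d a b F
  have h2 := length_shearB E d a b F
  unfold tot
  rw [List.map_congr_left (g := fun _ => d + 2) (fun r hr => by rw [h1 r hr])]
  simp [h2]

/-- the cost of the change of coordinates -/
private noncomputable def fcM (Fd : List (List K)) (T : List (List K)) : ℕ :=
  (sOf (Fd.length - 1) + fcP T + 1) ^ 4 + (Fd.length + 1) ^ 2 * (sOf (Fd.length - 1) + 1) *
    (Nat.clog 2 (Fd.length + 1) + 1) ^ 2

private theorem fc_mon_ex : ∃ c, ∀ (K : Type) [Field K] [DecidableEq K],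
    Comp K (fun z : List (List K) × List (List K) => monOf z.1 z.2) c
      (fun z => fcM z.1 z.2) :=
  ⟨_, fun K _ _ => (inferInstance : Comp K (fun z : List (List K) × List (List K) =>
      normB (shearB (envOf (z.1.length - 1) z.2) (z.1.length - 1) ((z.2.getD 1 []).getD 0 0)
        ((z.2.getD 1 []).getD 1 0) (fromDense z.1))) _ _).bigO 100
    (fun z => by
      obtain ⟨Fd, T⟩ := z
      simp only [fcM, fc_tot_shearB, zero_add, add_zero]
      have e1 : (envOf (Fd.length - 1) T).1 = sOf (Fd.length - 1) := rfl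
      rw [e1]
      generalize sOf (Fd.length - 1) = s
      generalize fcP T = P
      generalize Fd.length = n
      have h1 : Nat.clog 2 (n - 1 + 1) ≤ Nat.clog 2 (n + 1) := Nat.clog_mono_right 2 (by omega)
      have h2 : (n - 1 + 2) ^ 2 ≤ 4 * (n + 1) ^ 2 := by
        have : n - 1 + 2 ≤ 2 * (n + 1) := by omega
        calc (n - 1 + 2) ^ 2 ≤ (2 * (n + 1)) ^ 2 := Nat.pow_le_pow_left this 2
          _ = 4 * (n + 1) ^ 2 := by ring
      have h3 : (n - 1 + 2) ^ 2 * (s + 1) * (Nat.clog 2 (n - 1 + 1) + 1) ^ 2 ≤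
          4 * ((n + 1) ^ 2 * (s + 1) * (Nat.clog 2 (n + 1) + 1) ^ 2) := by
        calc (n - 1 + 2) ^ 2 * (s + 1) * (Nat.clog 2 (n - 1 + 1) + 1) ^ 2 ≤
            (4 * (n + 1) ^ 2) * (s + 1) * (Nat.clog 2 (n + 1) + 1) ^ 2 :=
              Nat.mul_le_mul (Nat.mul_le_mul_right _ h2) (Nat.pow_le_pow_left (by omega) 2)
          _ = _ := by ring
      have h4 : (n + 1) ^ 2 ≤ (n + 1) ^ 2 * (s + 1) * (Nat.clog 2 (n + 1) + 1) ^ 2 := by
        rw [mul_assoc]
        exact Nat.le_mul_of_pos_right _ (by positivity)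
      have h5 : (n - 1 + 1) * (n - 1 + 2) ≤ (n - 1 + 2) ^ 2 := by
        rw [sq]
        exact Nat.mul_le_mul_right _ (by omega)
      have h6 : n ≤ (n + 1) ^ 2 := by nlinarith
      generalize (n + 1) ^ 2 * (s + 1) * (Nat.clog 2 (n + 1) + 1) ^ 2 = A at *
      generalize (n - 1 + 2) ^ 2 * (s + 1) * (Nat.clog 2 (n - 1 + 1) + 1) ^ 2 = B at *
      generalize (n - 1 + 2) ^ 2 = C at *
      generalize (n - 1 + 1) * (n - 1 + 2) = D at *
      generalize (n + 1) ^ 2 = F at *
      generalize (s + P + 1) ^ 4 = G at *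
      omega)⟩

private noncomputable def fcMon : Cd := fc_mon_ex.choose

private instance fcCompMon [DecidableEq K] {α : Type} [Enc K α] {f g : α → List (List K)}
    {c d : Cd} {T T' : α → ℕ} [h : Comp K f c T] [h' : Comp K g d T'] :
    Comp K (fun x => monOf (f x) (g x)) (fcMon.comp (c.pair d))
      (fun x => T x + T' x + fcM (f x) (g x)) := (fc_mon_ex.choose_spec K).app2 h h'

private theorem fc_length_mon [DecidableEq K] (Fd T : List (List K)) :
    (monOf Fd T).length = Fd.length - 1 + 1 := by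
  simp only [monOf, monicL, normB, smulB, List.length_map, length_shearB]

private theorem fc_lg_pos (Q : FQ) : 1 ≤ Q.lg := by
  unfold FQ.lg
  exact Nat.mul_pos (by omega) (by omega)

/-- the cost of the factorisation of the fibre -/
private noncomputable def fcZ (Q : FQ) (Fd : List (List K)) (T : List (List K)) : ℕ :=
  (sOf (Fd.length - 1) + fcP T + 1) ^ 4 + (Nat.clog 2 (Fd.length + 1) + 1) ^ 2 *
    (kerT (2 * (Fd.length + 1)) + (Fd.length + 1) ^ 2 * (sOf (Fd.length - 1) + 1) * Q.lg)

private theorem fc_zs_ex : ∃ c, ∀ (K : Type) [Field K] [DecidableEq K],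
    Comp K (fun z : FQ × List (List K) × List (List K) => zsOf z.1 z.2.1 z.2.2) c
      (fun z => fcZ z.1 z.2.1 z.2.2) := by
  obtain ⟨cu, hu⟩ := uniFactor_ex
  exact ⟨_, fun K _ _ => by
    have a1 : Comp K (fun z : FQ × List (List K) × List (List K) =>
        (envOf (z.2.1.length - 1) z.2.2, z.1, nbOf (z.2.1.length - 1),
          (monOf z.2.1 z.2.2).map (fun r : List K => r.headD 0), z.2.2.getD 2 [])) _ _ :=
      inferInstance
    have a2 := (hu K).comp a1
    have a3 := a2.congr (g := fun z => zsOf z.1 z.2.1 z.2.2) (fun z => by simp only [zsOf])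
    refine a3.bigO 1000 (fun z => ?_)
    · obtain ⟨Q, Fd, T⟩ := z
      have e1 : (envOf (Fd.length - 1) T).1 = sOf (Fd.length - 1) := rfl
      simp only [List.length_map, fc_length_mon, fcM, fcZ, e1, List.map_const',
        List.sum_replicate, smul_eq_mul, zero_add, add_zero]
      have hn : nbOf (Fd.length - 1) = 8 * Nat.clog 2 (Fd.length - 1 + 2) := rfl
      rw [hn]
      have hl := fc_lg_pos Q
      generalize sOf (Fd.length - 1) = s
      generalize fcP T = P
      generalize Fd.length = n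
      generalize Q.lg = l at *
      have h1 : Nat.clog 2 (n - 1 + 1) ≤ Nat.clog 2 (n + 1) := Nat.clog_mono_right 2 (by omega)
      have h1' : Nat.clog 2 (n - 1 + 2) ≤ Nat.clog 2 (n + 1) + 1 :=
        fc_clog_le (c := 1) (by omega)
      have h1'' : Nat.clog 2 (n + 1) ≤ n + 1 := fc_clog_self _
      have h2 : (n - 1 + 2) ^ 2 ≤ 4 * (n + 1) ^ 2 := by
        have : n - 1 + 2 ≤ 2 * (n + 1) := by omega
        calc (n - 1 + 2) ^ 2 ≤ (2 * (n + 1)) ^ 2 := Nat.pow_le_pow_left this 2
          _ = 4 * (n + 1) ^ 2 := by ring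
      have hk : kerT (2 * (n - 1 + 1)) ≤ kerT (2 * (n + 1)) := berl_kerT_mono (by omega)
      generalize kerT (2 * (n - 1 + 1)) = k' at *
      generalize kerT (2 * (n + 1)) = k at *
      generalize Nat.clog 2 (n - 1 + 1) = L1 at *
      generalize Nat.clog 2 (n - 1 + 2) = L2 at *
      generalize Nat.clog 2 (n + 1) = L at *
      have g1 : (L1 + 2) * k' ≤ 2 * ((L + 1) ^ 2 * k) := by
        calc (L1 + 2) * k' ≤ (2 * (L + 1)) * k := Nat.mul_le_mul (by omega) hk
          _ ≤ (2 * (L + 1)) * (L + 1) * k := Nat.mul_le_mul_right _ (Nat.le_mul_of_pos_right _ (by omega))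
          _ = _ := by ring
      have g2 : (L1 + 2) * ((8 * L2 + 1) * (n - 1 + 1 + 1) ^ 2 * (s + 1) * l) ≤
          136 * ((L + 1) ^ 2 * ((n + 1) ^ 2 * (s + 1) * l)) := by
        calc (L1 + 2) * ((8 * L2 + 1) * (n - 1 + 1 + 1) ^ 2 * (s + 1) * l) ≤
            (2 * (L + 1)) * ((17 * (L + 1)) * (4 * (n + 1) ^ 2) * (s + 1) * l) :=
              Nat.mul_le_mul (by omega) (Nat.mul_le_mul_right _ (Nat.mul_le_mul_right _
                (Nat.mul_le_mul (by omega) h2)))
          _ = _ := by ring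
      have g3 : (n + 1) ^ 2 * (s + 1) * (L + 1) ^ 2 ≤ (L + 1) ^ 2 * ((n + 1) ^ 2 * (s + 1) * l) := by
        calc (n + 1) ^ 2 * (s + 1) * (L + 1) ^ 2 ≤ (n + 1) ^ 2 * (s + 1) * (L + 1) ^ 2 * l :=
              Nat.le_mul_of_pos_right _ hl
          _ = _ := by ring
      have g4 : (n + 1) ^ 2 ≤ (n + 1) ^ 2 * (s + 1) * (L + 1) ^ 2 := by
        rw [mul_assoc]
        exact Nat.le_mul_of_pos_right _ (by positivity)
      have h6 : n + 1 ≤ (n + 1) ^ 2 := by nlinarith
      have g5 : (L1 + 2) * (k' + (8 * L2 + 1) * (n - 1 + 1 + 1) ^ 2 * (s + 1) * l) =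
        (L1 + 2) * k' + (L1 + 2) * ((8 * L2 + 1) * (n - 1 + 1 + 1) ^ 2 * (s + 1) * l) := by ring
      have g6 : (L + 1) ^ 2 * (k + (n + 1) ^ 2 * (s + 1) * l) =
        (L + 1) ^ 2 * k + (L + 1) ^ 2 * ((n + 1) ^ 2 * (s + 1) * l) := by ring
      rw [g5, g6]
      generalize (L + 1) ^ 2 * ((n + 1) ^ 2 * (s + 1) * l) = A at *
      generalize (n + 1) ^ 2 * (s + 1) * (L + 1) ^ 2 = B at *
      generalize (L1 + 2) * ((8 * L2 + 1) * (n - 1 + 1 + 1) ^ 2 * (s + 1) * l) = C at *
      generalize (L1 + 2) * k' = D at *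
      generalize (L + 1) ^ 2 * k = D' at *
      generalize (n - 1 + 2) ^ 2 = C at *
      generalize (n + 1) ^ 2 = F at *
      generalize (s + P + 1) ^ 4 = G at *
      omega⟩

private noncomputable def fcZs : Cd := fc_zs_ex.choose

private instance fcCompZs [DecidableEq K] {α : Type} [Enc K α] {q : α → FQ}
    {f g : α → List (List K)} {b c d : Cd} {T0 T T' : α → ℕ} [h0 : Comp K q b T0]
    [h : Comp K f c T] [h' : Comp K g d T'] :
    Comp K (fun x => zsOf (q x) (f x) (g x)) (fcZs.comp (b.pair (c.pair d)))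
      (fun x => T0 x + (T x + T' x) + fcZ (q x) (f x) (g x)) :=
  (fc_zs_ex.choose_spec K).comp (f := fun x => (q x, f x, g x))
    (Comp.pair (h := h0) (h' := Comp.pair (h := h) (h' := h')))

omit [Field K] in
private theorem fc_M_le_Z (Q : FQ) (Fd T : List (List K)) : fcM Fd T ≤ fcZ Q Fd T := by
  unfold fcM fcZ
  have hl := fc_lg_pos Q
  generalize sOf (Fd.length - 1) = s
  generalize Nat.clog 2 (Fd.length + 1) = L
  generalize Fd.length = n
  generalize Q.lg = l at *
  have g3 : (n + 1) ^ 2 * (s + 1) * (L + 1) ^ 2 ≤ (L + 1) ^ 2 * ((n + 1) ^ 2 * (s + 1) * l) := by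
    calc (n + 1) ^ 2 * (s + 1) * (L + 1) ^ 2 ≤ (n + 1) ^ 2 * (s + 1) * (L + 1) ^ 2 * l :=
          Nat.le_mul_of_pos_right _ hl
      _ = _ := by ring
  generalize kerT (2 * (n + 1)) = k
  have g4 : (L + 1) ^ 2 * (k + (n + 1) ^ 2 * (s + 1) * l) =
    (L + 1) ^ 2 * k + (L + 1) ^ 2 * ((n + 1) ^ 2 * (s + 1) * l) := by ring
  rw [g4]
  omega

omit [Field K] in
private theorem fc_E_le_M (Fd T : List (List K)) :
    (sOf (Fd.length - 1) + fcP T + 1) ^ 4 + (Fd.length - 1 + 2) ^ 2 + Fd.length ≤
      5 * fcM Fd T := by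
  unfold fcM
  generalize sOf (Fd.length - 1) = s
  generalize Nat.clog 2 (Fd.length + 1) = L
  generalize Fd.length = n
  have h2 : (n - 1 + 2) ^ 2 + n ≤ 5 * (n + 1) ^ 2 := by
    have : n - 1 + 2 ≤ 2 * (n + 1) := by omega
    have h : (n - 1 + 2) ^ 2 ≤ (2 * (n + 1)) ^ 2 := Nat.pow_le_pow_left this 2
    nlinarith
  have h4 : (n + 1) ^ 2 ≤ (n + 1) ^ 2 * (s + 1) * (L + 1) ^ 2 := by
    rw [mul_assoc]
    exact Nat.le_mul_of_pos_right _ (by positivity)
  omega

/-- the cost of the radical -/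
private noncomputable def fcR0 [DecidableEq K] (Q : FQ) (Fd : List (List K))
    (T : List (List K)) : ℕ :=
  (Fd.length + ((zsOf Q Fd T).map (fun z => (z.2 + 1) * (z.1.length + 1))).sum + 1) *
    (2 ^ Nat.clog 2 (Fd.length - 1 + 2) + 1) * (sOf (Fd.length - 1) + 1) *
    (Nat.clog 2 (Fd.length + ((zsOf Q Fd T).map (fun z => (z.2 + 1) *
      (z.1.length + 1))).sum + 1) + 1) ^ 2 * (Nat.clog 2 (Fd.length - 1 + 2) + 1) * Q.lg +
    (Fd.length + ((zsOf Q Fd T).map (fun z => (z.2 + 1) * (z.1.length + 1))).sum + 1) ^ 2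

private theorem fc_rad_ex : ∃ c, ∀ (K : Type) [Field K] [DecidableEq K],
    Comp K (fun z : FQ × List (List K) × List (List K) => radOf z.1 z.2.1 z.2.2) c
      (fun z => fcZ z.1 z.2.1 z.2.2 + fcR0 z.1 z.2.1 z.2.2) := by
  obtain ⟨cu, hu⟩ := radB_ex
  exact ⟨_, fun K _ _ => by
    have a1 : Comp K (fun z : FQ × List (List K) × List (List K) =>
        ((envOf (z.2.1.length - 1) z.2.2, z.1), Nat.clog 2 (z.2.1.length - 1 + 2),
          monOf z.2.1 z.2.2, zsOf z.1 z.2.1 z.2.2)) _ _ :=
      inferInstance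
    have a2 := (hu K).comp a1
    have a3 := a2.congr (g := fun z => radOf z.1 z.2.1 z.2.2) (fun z => by simp only [radOf])
    refine a3.bigO 1000 (fun z => ?_)
    · obtain ⟨Q, Fd, T⟩ := z
      have e1 : (envOf (Fd.length - 1) T).1 = sOf (Fd.length - 1) := rfl
      simp only [fc_length_mon, fcR0, e1, zero_add, add_zero]
      have e2 : wsum (zsOf Q Fd T) =
        ((zsOf Q Fd T).map (fun z => (z.2 + 1) * (z.1.length + 1))).sum := rfl
      rw [e2]
      have h1 := fc_M_le_Z Q Fd T
      have h2 := fc_E_le_M Fd T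
      generalize ((zsOf Q Fd T).map (fun z => (z.2 + 1) * (z.1.length + 1))).sum = W
      generalize fcM Fd T = A at *
      generalize fcZ Q Fd T = B at *
      generalize sOf (Fd.length - 1) = s at *
      generalize fcP T = P at *
      generalize Fd.length = n at *
      generalize Q.lg = l at *
      have h3 : n - 1 + 1 + W + 1 ≤ 2 * (n + W + 1) := by omega
      have h4 : Nat.clog 2 (n - 1 + 1 + W + 1) ≤ Nat.clog 2 (n + W + 1) + 1 :=
        fc_clog_le (c := 1) (by omega)
      have h5 : n - 1 + 2 ≤ (n - 1 + 2) ^ 2 := by nlinarith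
      generalize (n - 1 + 2) ^ 2 = F at *
      generalize 2 ^ Nat.clog 2 (n - 1 + 2) = C at *
      generalize Nat.clog 2 (n - 1 + 2) = L at *
      generalize Nat.clog 2 (n - 1 + 1 + W + 1) = X' at *
      generalize Nat.clog 2 (n + W + 1) = X at *
      have h6 : (n - 1 + 1 + W + 1) * (C + 1) * (s + 1) * (X' + 1) ^ 2 * (L + 1) * l ≤
          8 * ((n + W + 1) * (C + 1) * (s + 1) * (X + 1) ^ 2 * (L + 1) * l) := by
        calc (n - 1 + 1 + W + 1) * (C + 1) * (s + 1) * (X' + 1) ^ 2 * (L + 1) * l ≤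
            (2 * (n + W + 1)) * (C + 1) * (s + 1) * (2 * (X + 1)) ^ 2 * (L + 1) * l :=
              Nat.mul_le_mul_right _ (Nat.mul_le_mul_right _ (Nat.mul_le_mul
                (Nat.mul_le_mul_right _ (Nat.mul_le_mul_right _ h3))
                (Nat.pow_le_pow_left (by omega) 2)))
          _ = _ := by ring
      have h7 : (n - 1 + 1 + W + 1) ^ 2 ≤ 4 * (n + W + 1) ^ 2 := by
        calc (n - 1 + 1 + W + 1) ^ 2 ≤ (2 * (n + W + 1)) ^ 2 := Nat.pow_le_pow_left h3 2
          _ = _ := by ring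
      generalize (n - 1 + 1 + W + 1) * (C + 1) * (s + 1) * (X' + 1) ^ 2 * (L + 1) * l = U at *
      generalize (n + W + 1) * (C + 1) * (s + 1) * (X + 1) ^ 2 * (L + 1) * l = U' at *
      generalize (n - 1 + 1 + W + 1) ^ 2 = V at *
      generalize (n + W + 1) ^ 2 = V' at *
      generalize (s + P + 1) ^ 4 = G at *
      omega⟩

private noncomputable def fcRad : Cd := fc_rad_ex.choose

private instance fcCompRad [DecidableEq K] {α : Type} [Enc K α] {q : α → FQ}
    {f g : α → List (List K)} {b c d : Cd} {T0 T T' : α → ℕ} [h0 : Comp K q b T0]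
    [h : Comp K f c T] [h' : Comp K g d T'] :
    Comp K (fun x => radOf (q x) (f x) (g x)) (fcRad.comp (b.pair (c.pair d)))
      (fun x => T0 x + (T x + T' x) + (fcZ (q x) (f x) (g x) + fcR0 (q x) (f x) (g x))) :=
  (fc_rad_ex.choose_spec K).comp (f := fun x => (q x, f x, g x))
    (Comp.pair (h := h0) (h' := Comp.pair (h := h) (h' := h')))

/-- the cost of the squarefree part -/
private noncomputable def fcS0 [DecidableEq K] (Q : FQ) (Fd : List (List K))
    (T : List (List K)) : ℕ :=
  kerT (2 * ((radOf Q Fd T).length + tot ((zsOf Q Fd T).map Prod.fst) + 1)) +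
    ((radOf Q Fd T).length + tot ((zsOf Q Fd T).map Prod.fst) + 1) *
      (2 ^ tOf (Fd.length - 1) + ((radOf Q Fd T).length + tot ((zsOf Q Fd T).map Prod.fst) + 1)) *
      (sOf (Fd.length - 1) + 1) *
      (Nat.clog 2 ((radOf Q Fd T).length + tot ((zsOf Q Fd T).map Prod.fst) + 1) + 1) ^ 2 *
      (tOf (Fd.length - 1) + 1) +
    (kapOf Q Fd T + 1) *
      ((radOf Q Fd T).length + tot ((zsOf Q Fd T).map Prod.fst) + 1) ^ 2 *
      (sOf (Fd.length - 1) + 1) *
      (Nat.clog 2 ((radOf Q Fd T).length + tot ((zsOf Q Fd T).map Prod.fst) + 1) + 1) * Q.lg +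
    (kapOf Q Fd T + 1) ^ 3 *
      ((radOf Q Fd T).length + tot ((zsOf Q Fd T).map Prod.fst) + 1)

private theorem fc_out_ex : ∃ c, ∀ (K : Type) [Field K] [DecidableEq K],
    Comp K (fun z : FQ × List (List K) × List (List K) => outOf z.1 z.2.1 z.2.2) c
      (fun z => fcZ z.1 z.2.1 z.2.2 + fcR0 z.1 z.2.1 z.2.2 + fcS0 z.1 z.2.1 z.2.2) := by
  obtain ⟨cu, hu⟩ := sqMain_ex
  exact ⟨_, fun K _ _ => by
    have a1 : Comp K (fun z : FQ × List (List K) × List (List K) =>
        ((envOf (z.2.1.length - 1) z.2.2, z.1), tOf (z.2.1.length - 1),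
          (radOf z.1 z.2.1 z.2.2, zsOf z.1 z.2.1 z.2.2),
          (z.2.2.getD 3 [], z.2.2.getD 4 []), (z.2.2.getD 5 [], z.2.2.getD 6 []))) _ _ :=
      inferInstance
    have a2 := (hu K).comp a1
    have a3 := a2.congr (g := fun z => outOf z.1 z.2.1 z.2.2) (fun z => by simp only [outOf])
    refine a3.bigO 1000 (fun z => ?_)
    · obtain ⟨Q, Fd, T⟩ := z
      have e1 : (envOf (Fd.length - 1) T).1 = sOf (Fd.length - 1) := rfl
      have e2 : sqKap (envOf (Fd.length - 1) T) (tOf (Fd.length - 1)) (radOf Q Fd T)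
        (zsOf Q Fd T) (T.getD 3 []) (T.getD 4 []) = kapOf Q Fd T := rfl
      have e3 : sqSize (radOf Q Fd T) (zsOf Q Fd T) =
        (radOf Q Fd T).length + tot ((zsOf Q Fd T).map Prod.fst) + 1 := rfl
      have h1 := fc_M_le_Z Q Fd T
      have h2 := fc_E_le_M Fd T
      have h3 : kerT (2 * sqSize (radOf Q Fd T) (zsOf Q Fd T)) +
        sqSize (radOf Q Fd T) (zsOf Q Fd T) * (2 ^ tOf (Fd.length - 1) +
          sqSize (radOf Q Fd T) (zsOf Q Fd T)) *
          (sOf (Fd.length - 1) + 1) * (Nat.clog 2 (sqSize (radOf Q Fd T) (zsOf Q Fd T)) + 1) ^ 2 *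
            (tOf (Fd.length - 1) + 1) +
        (kapOf Q Fd T + 1) *
          sqSize (radOf Q Fd T) (zsOf Q Fd T) ^ 2 * (sOf (Fd.length - 1) + 1) *
          (Nat.clog 2 (sqSize (radOf Q Fd T) (zsOf Q Fd T)) + 1) * Q.lg +
        (kapOf Q Fd T + 1) ^ 3 * sqSize (radOf Q Fd T) (zsOf Q Fd T) = fcS0 Q Fd T := by
        rw [e3, fcS0]
      simp only [e1, e2, h3, zero_add, add_zero]
      generalize fcS0 Q Fd T = X at *
      generalize fcR0 Q Fd T = Y at *
      generalize fcM Fd T = A at *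
      generalize fcZ Q Fd T = B at *
      generalize (Fd.length - 1 + 2) ^ 2 = C at *
      omega⟩

private noncomputable def fcOut : Cd := fc_out_ex.choose

private instance fcCompOut [DecidableEq K] {α : Type} [Enc K α] {q : α → FQ}
    {f g : α → List (List K)} {b c d : Cd} {T0 T T' : α → ℕ} [h0 : Comp K q b T0]
    [h : Comp K f c T] [h' : Comp K g d T'] :
    Comp K (fun x => outOf (q x) (f x) (g x)) (fcOut.comp (b.pair (c.pair d)))
      (fun x => T0 x + (T x + T' x) + (fcZ (q x) (f x) (g x) + fcR0 (q x) (f x) (g x) +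
        fcS0 (q x) (f x) (g x))) :=
  (fc_out_ex.choose_spec K).comp (f := fun x => (q x, f x, g x))
    (Comp.pair (h := h0) (h' := Comp.pair (h := h) (h' := h')))

/-! ### Back to the original coordinates -/

private theorem fc_sum_le {α : Type} (l : List α) (f g : α → ℕ) (B : ℕ)
    (h : ∀ z ∈ l, f z ≤ g z * B) : (l.map f).sum ≤ (l.map g).sum * B := by
  induction l with
  | nil => simp
  | cons a l ih =>
    simp only [List.map_cons, List.sum_cons, add_mul]
    exact Nat.add_le_add (h a List.mem_cons_self) (ih (fun z hz => h z (List.mem_cons_of_mem _ hz)))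

private theorem fc_le_sum {α : Type} (l : List α) (g : α → ℕ) {z : α} (hz : z ∈ l) :
    g z ≤ (l.map g).sum := by
  induction l with
  | nil => simp at hz
  | cons a l ih =>
    simp only [List.map_cons, List.sum_cons]
    rcases List.mem_cons.1 hz with h | h
    · rw [h]
      omega
    · have := ih h
      omega

/-- total size of the output -/
private def fcO (out : List (List (List K) × ℕ)) : ℕ :=
  (out.map (fun z => z.1.length + z.2 + 1)).sum

/-- change of coordinates of the output -/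
private def fcBack (w : (MEnv K × (K × K)) × List (List (List K) × ℕ)) :
    List (List (List K) × ℕ) :=
  w.2.map (fun z => (shearB w.1.1 (z.1.length - 1) (-w.1.2.1) (-w.1.2.2) z.1, z.2))

private theorem fc_back_ex : ∃ c, ∀ (K : Type) [Field K],
    Comp K (fun w : (MEnv K × (K × K)) × List (List (List K) × ℕ) => fcBack w) c
      (fun w => (fcO w.2 + 1) ^ 2 * (w.1.1.1 + 1) * (Nat.clog 2 (fcO w.2 + 1) + 1) ^ 2) :=
  ⟨_, fun K _ => (inferInstance : Comp K
      (fun w : (MEnv K × (K × K)) × List (List (List K) × ℕ) =>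
        w.2.map (fun z => (shearB w.1.1 (z.1.length - 1) (-w.1.2.1) (-w.1.2.2) z.1, z.2)))
        _ _).bigO 20 (fun w => by
      obtain ⟨⟨E, a, b⟩, out⟩ := w
      simp only [zero_add, add_zero]
      have h := fc_sum_le out
        (fun z => z.1.length + ((z.1.length - 1 + 2) ^ 2 * (E.1 + 1) *
          (Nat.clog 2 (z.1.length - 1 + 1) + 1) ^ 2) + 1)
        (fun z => z.1.length + z.2 + 1)
        (10 * ((fcO out + 1) * (E.1 + 1) * (Nat.clog 2 (fcO out + 1) + 1) ^ 2)) (fun z hz => by
          have h1 : z.1.length + z.2 + 1 ≤ fcO out :=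
            fc_le_sum out (fun z => z.1.length + z.2 + 1) hz
          have h2 : Nat.clog 2 (z.1.length - 1 + 1) ≤ Nat.clog 2 (fcO out + 1) :=
            Nat.clog_mono_right 2 (by omega)
          generalize Nat.clog 2 (z.1.length - 1 + 1) = L1 at *
          generalize Nat.clog 2 (fcO out + 1) = L at *
          generalize fcO out = O at *
          generalize z.1.length = n at *
          generalize z.2 = m at *
          have h3 : (n - 1 + 2) ^ 2 ≤ 4 * ((n + m + 1) * (O + 1)) := by
            calc (n - 1 + 2) ^ 2 = (n - 1 + 2) * (n - 1 + 2) := sq _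
              _ ≤ (2 * (n + m + 1)) * (2 * (O + 1)) := Nat.mul_le_mul (by omega) (by omega)
              _ = _ := by ring
          have h4 : (n - 1 + 2) ^ 2 * (E.1 + 1) * (L1 + 1) ^ 2 ≤
              4 * ((n + m + 1) * ((O + 1) * (E.1 + 1) * (L + 1) ^ 2)) := by
            calc (n - 1 + 2) ^ 2 * (E.1 + 1) * (L1 + 1) ^ 2 ≤
                (4 * ((n + m + 1) * (O + 1))) * (E.1 + 1) * (L + 1) ^ 2 :=
                  Nat.mul_le_mul (Nat.mul_le_mul_right _ h3) (Nat.pow_le_pow_left (by omega) 2)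
              _ = _ := by ring
          have h5 : n + m + 1 ≤ (n + m + 1) * ((O + 1) * (E.1 + 1) * (L + 1) ^ 2) :=
            Nat.le_mul_of_pos_right _ (by positivity)
          have h6 : (n + m + 1) * (10 * ((O + 1) * (E.1 + 1) * (L + 1) ^ 2)) =
            10 * ((n + m + 1) * ((O + 1) * (E.1 + 1) * (L + 1) ^ 2)) := by ring
          rw [h6]
          omega)
      have e : (out.map (fun z => z.1.length + z.2 + 1)).sum = fcO out := rfl
      rw [e] at h
      have h7 : fcO out * (10 * ((fcO out + 1) * (E.1 + 1) *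
          (Nat.clog 2 (fcO out + 1) + 1) ^ 2)) ≤
          10 * ((fcO out + 1) ^ 2 * (E.1 + 1) * (Nat.clog 2 (fcO out + 1) + 1) ^ 2) := by
        calc fcO out * (10 * ((fcO out + 1) * (E.1 + 1) *
          (Nat.clog 2 (fcO out + 1) + 1) ^ 2)) ≤ (fcO out + 1) * (10 * ((fcO out + 1) *
            (E.1 + 1) * (Nat.clog 2 (fcO out + 1) + 1) ^ 2)) := Nat.mul_le_mul_right _ (by omega)
          _ = _ := by ring
      have h8 := h.trans h7
      generalize (fcO out + 1) ^ 2 * (E.1 + 1) * (Nat.clog 2 (fcO out + 1) + 1) ^ 2 = A at *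
      omega)⟩

private noncomputable def fcBk : Cd := fc_back_ex.choose

private instance fcCompBack {α : Type} [Enc K α]
    {f : α → (MEnv K × (K × K)) × List (List (List K) × ℕ)} {c : Cd} {T : α → ℕ}
    [h : Comp K f c T] : Comp K (fun x => fcBack (f x)) (fcBk.comp c)
      (fun x => T x + (fcO (f x).2 + 1) ^ 2 * ((f x).1.1.1 + 1) *
        (Nat.clog 2 (fcO (f x).2 + 1) + 1) ^ 2) := (fc_back_ex.choose_spec K).app1 h

private theorem fc_back_len (w : (MEnv K × (K × K)) × List (List (List K) × ℕ)) :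
    ((fcBack w).map (fun y => y.1.length + y.2 + 1)).sum ≤ fcO w.2 * 2 := by
  unfold fcBack fcO
  rw [List.map_map]
  refine fc_sum_le _ _ _ _ (fun z _ => ?_)
  simp only [Function.comp_apply, length_shearB]
  omega

private theorem fc_back_tot (w : (MEnv K × (K × K)) × List (List (List K) × ℕ)) :
    ((fcBack w).map (fun y => tot y.1 + 1)).sum ≤ fcO w.2 * (4 * (fcO w.2 + 1)) := by
  unfold fcBack
  rw [List.map_map]
  refine fc_sum_le _ _ (fun z : List (List K) × ℕ => z.1.length + z.2 + 1) _ (fun z hz => ?_)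
  simp only [Function.comp_apply, fc_tot_shearB]
  have h1 : z.1.length + z.2 + 1 ≤ fcO w.2 :=
    fc_le_sum w.2 (fun z => z.1.length + z.2 + 1) hz
  generalize fcO w.2 = O at *
  generalize z.1.length = n at *
  generalize z.2 = m at *
  have h2 : (n - 1 + 1) * (n - 1 + 2) ≤ (n + m + 1) * (2 * (O + 1)) :=
    Nat.mul_le_mul (by omega) (by omega)
  have h3 : (n + m + 1) * (4 * (O + 1)) = (n + m + 1) * (2 * (O + 1)) +
    (n + m + 1) * (2 * (O + 1)) := by ring
  have h4 : 1 ≤ (n + m + 1) * (2 * (O + 1)) := Nat.mul_pos (by omega) (by omega)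
  omega

/-- the cost of the last step -/
private noncomputable def fcD0 [DecidableEq K] (Q : FQ) (kK N : ℕ) (Fd : List (List K))
    (T : List (List K)) : ℕ :=
  (N + 1) ^ 2 * (((outOf Q Fd T).map (fun z => z.1.length + z.2 + 1)).sum + 1) ^ 2 *
    (sOf (Fd.length - 1) + 1) *
    (Nat.clog 2 (((outOf Q Fd T).map (fun z => z.1.length + z.2 + 1)).sum + 1) + 1) ^ 2 *
    (Nat.clog 2 N + 1) * ((Q.1.length + 1) * (kK + 1))

private theorem fc_parts_ex : ∃ c, ∀ (K : Type) [Field K] [DecidableEq K],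
    Comp K (fun z : FQ × (ℕ × ℕ) × List (List K) × List (List K) =>
      facParts z.1 z.2.1.1 z.2.1.2 z.2.2.1 z.2.2.2) c
      (fun z => fcZ z.1 z.2.2.1 z.2.2.2 + fcR0 z.1 z.2.2.1 z.2.2.2 + fcS0 z.1 z.2.2.1 z.2.2.2 +
        fcD0 z.1 z.2.1.1 z.2.1.2 z.2.2.1 z.2.2.2) := by
  obtain ⟨cu, hu⟩ := descendL_ex
  exact ⟨_, fun K _ _ => by
    have a1 : Comp K (fun z : FQ × (ℕ × ℕ) × List (List K) × List (List K) =>
        ((envOf (z.2.2.1.length - 1) z.2.2.2, z.1.1), (z.2.1.1, z.2.1.2),
          fcBack ((envOf (z.2.2.1.length - 1) z.2.2.2, ((z.2.2.2.getD 1 []).getD 0 0,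
            (z.2.2.2.getD 1 []).getD 1 0)), outOf z.1 z.2.2.1 z.2.2.2))) _ _ :=
      inferInstance
    have a2 := (hu K).comp a1
    have a3 := a2.congr (g := fun z => facParts z.1 z.2.1.1 z.2.1.2 z.2.2.1 z.2.2.2)
      (fun z => by simp only [facParts, fcBack, abOf])
    refine a3.bigO 1000 (fun z => ?_)
    · obtain ⟨Q, ⟨kK, N⟩, Fd, T⟩ := z
      have e1 : (envOf (Fd.length - 1) T).1 = sOf (Fd.length - 1) := rfl
      have h1 := fc_M_le_Z Q Fd T
      have h2 := fc_E_le_M Fd T
      have h3 := fc_back_len ((envOf (Fd.length - 1) T, ((T.getD 1 []).getD 0 0,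
            (T.getD 1 []).getD 1 0)), outOf Q Fd T)
      have h4 := fc_back_tot ((envOf (Fd.length - 1) T, ((T.getD 1 []).getD 0 0,
            (T.getD 1 []).getD 1 0)), outOf Q Fd T)
      have e2 : ((outOf Q Fd T).map (fun z => z.1.length + z.2 + 1)).sum = fcO (outOf Q Fd T) :=
        rfl
      simp only [fcD0, e1, e2, zero_add, add_zero] at h3 h4 ⊢
      generalize ((fcBack ((envOf (Fd.length - 1) T, ((T.getD 1 []).getD 0 0,
        (T.getD 1 []).getD 1 0)), outOf Q Fd T)).map (fun y => y.1.length + y.2 + 1)).sum = B1 at *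
      generalize ((fcBack ((envOf (Fd.length - 1) T, ((T.getD 1 []).getD 0 0,
        (T.getD 1 []).getD 1 0)), outOf Q Fd T)).map (fun y => tot y.1 + 1)).sum = B2 at *
      generalize fcO (outOf Q Fd T) = O at *
      generalize fcS0 Q Fd T = X at *
      generalize fcR0 Q Fd T = Y at *
      generalize fcM Fd T = A at *
      generalize fcZ Q Fd T = B at *
      generalize (Fd.length - 1 + 2) ^ 2 = C at *
      generalize (sOf (Fd.length - 1) + fcP T + 1) ^ 4 = G at *
      generalize sOf (Fd.length - 1) = s at *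
      have hb : 0 < (Q.1.length + 1) * (kK + 1) := Nat.mul_pos (by omega) (by omega)
      generalize (Q.1.length + 1) * (kK + 1) = bk at *
      generalize Nat.clog 2 (O + 1) = Lo at *
      generalize Nat.clog 2 N = LN at *
      have g1 : (O + 1) ^ 2 * (s + 1) * (Lo + 1) ^ 2 ≤
          (N + 1) ^ 2 * (O + 1) ^ 2 * (s + 1) * (Lo + 1) ^ 2 * (LN + 1) * bk := by
        calc (O + 1) ^ 2 * (s + 1) * (Lo + 1) ^ 2 ≤
            (O + 1) ^ 2 * (s + 1) * (Lo + 1) ^ 2 * ((N + 1) ^ 2 * (LN + 1) * bk) :=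
              Nat.le_mul_of_pos_right _ (by positivity)
          _ = _ := by ring
      have g2 : (N + 1) ^ 2 * (B1 + 1) ^ 2 * (s + 1) * (LN + 1) ≤
          4 * ((N + 1) ^ 2 * (O + 1) ^ 2 * (s + 1) * (Lo + 1) ^ 2 * (LN + 1) * bk) := by
        calc (N + 1) ^ 2 * (B1 + 1) ^ 2 * (s + 1) * (LN + 1) ≤
            (N + 1) ^ 2 * (2 * (O + 1)) ^ 2 * (s + 1) * (LN + 1) :=
              Nat.mul_le_mul_right _ (Nat.mul_le_mul_right _ (Nat.mul_le_mul_left _
                (Nat.pow_le_pow_left (by omega) 2)))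
          _ ≤ (N + 1) ^ 2 * (2 * (O + 1)) ^ 2 * (s + 1) * (LN + 1) * ((Lo + 1) ^ 2 * bk) :=
              Nat.le_mul_of_pos_right _ (by positivity)
          _ = _ := by ring
      have g3 : (N + 1) ^ 2 * (B2 + 1) * bk ≤
          4 * ((N + 1) ^ 2 * (O + 1) ^ 2 * (s + 1) * (Lo + 1) ^ 2 * (LN + 1) * bk) := by
        have h5 : B2 + 1 ≤ 4 * (O + 1) ^ 2 := by nlinarith
        calc (N + 1) ^ 2 * (B2 + 1) * bk ≤ (N + 1) ^ 2 * (4 * (O + 1) ^ 2) * bk :=
              Nat.mul_le_mul_right _ (Nat.mul_le_mul_left _ h5)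
          _ ≤ (N + 1) ^ 2 * (4 * (O + 1) ^ 2) * bk * ((s + 1) * (Lo + 1) ^ 2 * (LN + 1)) :=
              Nat.le_mul_of_pos_right _ (by positivity)
          _ = _ := by ring
      generalize (N + 1) ^ 2 * (O + 1) ^ 2 * (s + 1) * (Lo + 1) ^ 2 * (LN + 1) * bk = D at *
      generalize (N + 1) ^ 2 * (B1 + 1) ^ 2 * (s + 1) * (LN + 1) = U at *
      generalize (N + 1) ^ 2 * (B2 + 1) * bk = V at *
      generalize (O + 1) ^ 2 * (s + 1) * (Lo + 1) ^ 2 = W at *
      omega⟩

end stages

theorem facL_ex : ∃ c, ∀ (K : Type) [Field K] [DecidableEq K],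
    Comp K (fun z : FQ × (ℕ × ℕ) × List (List K) × List K =>
      facL z.1 z.2.1.1 z.2.1.2 z.2.2.1 z.2.2.2) c
      (fun z => facCost z.1 z.2.1.1 z.2.1.2 z.2.2.1
        (splitLens (tapeLens (z.2.2.1.length - 1)) z.2.2.2)) := by
  obtain ⟨cs, hs⟩ := fc_splitLens_ex
  obtain ⟨cp, hp⟩ := fc_parts_ex
  exact ⟨_, fun K _ _ => by
    have b1 : Comp K (fun z : FQ × (ℕ × ℕ) × List (List K) × List K =>
      (tapeLens (z.2.2.1.length - 1), z.2.2.2)) _ _ := inferInstance
    have b2 := (hs K K).comp b1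
    have b3 : Comp K (fun z : FQ × (ℕ × ℕ) × List (List K) × List K => z.2.2.1) _ _ :=
      inferInstance
    have b4 : Comp K (fun z : FQ × (ℕ × ℕ) × List (List K) × List K => z.2.1) _ _ :=
      inferInstance
    have b5 : Comp K (fun z : FQ × (ℕ × ℕ) × List (List K) × List K => z.1) _ _ :=
      inferInstance
    have b6 := (hp K).comp (Comp.pair (h := b5) (h' := Comp.pair (h := b4)
      (h' := Comp.pair (h := b3) (h' := b2))))
    have b7 := b6.congr (g := fun z => facL z.1 z.2.1.1 z.2.1.2 z.2.2.1 z.2.2.2)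
      (fun z => by simp only [facL])
    refine b7.bigO 1000 (fun z => ?_)
    · obtain ⟨Q, ⟨kK, N⟩, Fd, tape⟩ := z
      have h1 := fc_length_splitLens (Fd.length - 1) tape
      have h2 : (tapeLens (Fd.length - 1)).length = 7 := rfl
      simp only [h2, zero_add, add_zero]
      generalize splitLens (tapeLens (Fd.length - 1)) tape = T at *
      obtain ⟨Zr, hZ⟩ : ∃ Zr, Zr = (Nat.clog 2 (Fd.length + 1) + 1) ^ 2 *
        (kerT (2 * (Fd.length + 1)) +
          (Fd.length + 1) ^ 2 * (sOf (Fd.length - 1) + 1) * Q.lg) := ⟨_, rfl⟩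
      have e1 : facCost Q kK N Fd T = (tapeLens (Fd.length - 1)).sum + (Fd.length + 1) ^ 2 +
        (sOf (Fd.length - 1) + 1) ^ 4 + Zr + fcR0 Q Fd T + fcS0 Q Fd T +
          fcD0 Q kK N Fd T := by rw [hZ]; rfl
      have e2 : fcZ Q Fd T = (sOf (Fd.length - 1) + fcP T + 1) ^ 4 + Zr := by rw [hZ]; rfl
      have h3 : (sOf (Fd.length - 1) + fcP T + 1) ^ 4 ≤ 81 * (sOf (Fd.length - 1) + 1) ^ 4 := by
        calc (sOf (Fd.length - 1) + fcP T + 1) ^ 4 ≤ (3 * (sOf (Fd.length - 1) + 1)) ^ 4 :=
              Nat.pow_le_pow_left (by unfold fcP; omega) 4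
          _ = _ := by ring
      have h4 : (Fd.length - 1 + 2) ^ 2 ≤ 4 * (Fd.length + 1) ^ 2 := by
        calc (Fd.length - 1 + 2) ^ 2 ≤ (2 * (Fd.length + 1)) ^ 2 :=
              Nat.pow_le_pow_left (by omega) 2
          _ = _ := by ring
      have h5 : Fd.length ≤ (Fd.length + 1) ^ 2 := by nlinarith
      rw [e1, e2]
      generalize fcR0 Q Fd T = Y at *
      generalize fcS0 Q Fd T = X at *
      generalize fcD0 Q kK N Fd T = D at *
      generalize (Fd.length - 1 + 2) ^ 2 = C at *
      generalize (Fd.length + 1) ^ 2 = C' at *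
      generalize (sOf (Fd.length - 1) + fcP T + 1) ^ 4 = G at *
      generalize (sOf (Fd.length - 1) + 1) ^ 4 = G' at *
      generalize (tapeLens (Fd.length - 1)).sum = tl at *
      omega⟩

end Pool.Agent.BiFac

end

section

/-!
# The bad events are rare
-/

set_option autoImplicit false

namespace Pool.Agent.BiFac

open Polynomial Pool.Agent.TreeRAM

variable {K : Type} [Field K]

/-! ### Sampling -/

/-- sequential sampling -/
theorem fpr_seq [Fintype K] {m n : ℕ} {A : List K → Prop} {P : List K → List K → Prop}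
    {δ ε : ℝ} (hA : pr K m A ≤ δ) (hε : 0 ≤ ε)
    (h : ∀ x, x.length = m → ¬ A x → pr K n (fun y => P x y) ≤ ε) :
    pr K (m + n) (fun l => P (l.take m) (l.drop m)) ≤ δ + ε := by
  classical
  have h1 : pr K (m + n) (fun l => P (l.take m) (l.drop m)) ≤
      (∑ x : Fin m → K, ((if A (List.ofFn x) then (1 : ℝ) else 0) + ε)) /
        (Fintype.card K : ℝ) ^ m := by
    rw [pr_add]
    refine div_le_div_of_nonneg_right (Finset.sum_le_sum fun x _ => ?_) (pow_pos pr_q_pos m).le
    by_cases hx : A (List.ofFn x)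
    · rw [if_pos hx]
      refine (pr_le_one n _).trans ?_
      linarith
    · rw [if_neg hx, zero_add]
      refine le_trans (pr_mono ?_) (h (List.ofFn x) List.length_ofFn hx)
      intro y _ hB
      rw [List.take_left' List.length_ofFn, List.drop_left' List.length_ofFn] at hB
      exact hB
  refine h1.trans ?_
  rw [Finset.sum_add_distrib, add_div]
  refine add_le_add ?_ (pr_avg_le (f := fun _ => ε) fun _ => le_rfl)
  rw [pr_sum] at hA
  convert hA

theorem fpr_zero [Fintype K] {n : ℕ} {B : List K → Prop} {δ : ℝ} (hδ : 0 ≤ δ)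
    (h : ∀ l, l.length = n → ¬ B l) : pr K n B ≤ δ := by
  refine le_trans ?_ hδ
  have h1 : pr K n B ≤ pr K n (fun _ => False) := pr_mono fun l hl hB => h l hl hB
  refine h1.trans ?_
  rw [pr_sum]
  simp

theorem fpr_one_mem [Fintype K] (x : List K) :
    pr K 1 (fun y => y.headD 0 ∈ x) ≤ x.length / Fintype.card K := by
  classical
  unfold pr
  rw [pow_one]
  refine div_le_div_of_nonneg_right ?_ pr_q_pos.le
  have h1 : Nat.card {ρ : Fin 1 → K // (List.ofFn ρ).headD 0 ∈ x} ≤ x.toFinset.card := by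
    have h0 : Nat.card {a // a ∈ x.toFinset} = x.toFinset.card := by
      rw [Nat.card_eq_fintype_card, Fintype.card_coe]
    rw [← h0]
    refine Nat.card_le_card_of_injective (fun z => ⟨z.1 0, ?_⟩) ?_
    · have := z.2
      rw [List.mem_toFinset]
      simpa using this
    · intro z z' hz
      have h2 : z.1 0 = z'.1 0 := congrArg Subtype.val hz
      apply Subtype.ext
      funext i
      have : i = 0 := Subsingleton.elim _ _
      rw [this, h2]
  exact_mod_cast h1.trans (List.toFinset_card_le x)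

theorem fpr_nodup [Fintype K] (m : ℕ) :
    pr K m (fun l => ¬ l.Nodup) ≤ (m : ℝ) ^ 2 / Fintype.card K := by
  induction m with
  | zero =>
    refine fpr_zero ?_ ?_
    · positivity
    · intro l hl h
      rw [List.length_eq_zero_iff] at hl
      exact h (hl ▸ List.nodup_nil)
  | succ m ih =>
    have hq := pr_q_pos (K := K)
    have h1 : pr K (m + 1) (fun l => ¬ (l.take m ++ l.drop m).Nodup) ≤
        (m : ℝ) ^ 2 / Fintype.card K + (m : ℝ) / Fintype.card K := by
      refine fpr_seq (P := fun x y => ¬ (x ++ y).Nodup) ih (by positivity) ?_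
      intro x hx hxn
      rw [not_not] at hxn
      have h2 := fpr_one_mem (K := K) x
      rw [hx] at h2
      refine le_trans (pr_mono ?_) h2
      intro y hy hB
      obtain ⟨a, rfl⟩ := List.length_eq_one_iff.1 hy
      by_contra ha
      apply hB
      rw [List.nodup_append]
      refine ⟨hxn, List.nodup_singleton a, ?_⟩
      intro b hb c hc
      rw [List.mem_singleton] at hc
      subst hc
      rintro rfl
      exact ha hb
    simp only [List.take_append_drop] at h1
    refine h1.trans ?_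
    rw [← add_div]
    refine div_le_div_of_nonneg_right ?_ hq.le
    push_cast
    nlinarith [Nat.cast_nonneg (α := ℝ) m]

theorem fpr_nice [Fintype K] {d : ℕ} {F : K[X][X]} (hF : TDeg d F)
    (hd : ∃ i j, i + j = d ∧ (F.coeff j).coeff i ≠ 0) :
    pr K 2 (fun l => ¬ Nice d (shear (l.getD 0 0) (l.getD 1 0) F)) ≤
      4 * ((d : ℝ) + 1) ^ 2 / Fintype.card K := by
  have hq := pr_q_pos (K := K)
  have h1 := card_not_nice hF hd
  unfold pr
  have h2 : Nat.card {ρ : Fin 2 → K // ¬ Nice d (shear ((List.ofFn ρ).getD 0 0)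
      ((List.ofFn ρ).getD 1 0) F)} = Nat.card {z : K × K // ¬ Nice d (shear z.1 z.2 F)} := by
    refine Nat.card_congr ?_
    refine Equiv.subtypeEquiv (finTwoArrowEquiv K) ?_
    intro ρ
    simp
  rw [h2, div_le_div_iff₀ (pow_pos hq 2) hq]
  have h3 : (Nat.card {z : K × K // ¬ Nice d (shear z.1 z.2 F)} : ℝ) ≤
      4 * ((d : ℝ) + 1) ^ 2 * Fintype.card K := by exact_mod_cast h1
  calc (Nat.card {z : K × K // ¬ Nice d (shear z.1 z.2 F)} : ℝ) * Fintype.card K
      ≤ (4 * ((d : ℝ) + 1) ^ 2 * Fintype.card K) * Fintype.card K :=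
        mul_le_mul_of_nonneg_right h3 hq.le
    _ = _ := by ring

/-! ### The input -/

theorem fc_map_trp (d : ℕ) {L : Type} [Field L] [Algebra K L] (F : MvPolynomial (Fin 2) K)
    (i j : ℕ) : ((((dense d F).map (List.map (algebraMap K L))).getD i []).getD j 0) =
      algebraMap K L (((dense d F).getD i []).getD j 0) := by
  have h1 : ((dense d F).map (List.map (algebraMap K L))).getD i [] =
      (((dense d F).getD i []).map (algebraMap K L)) := by
    have := List.getD_map (n := i) (l := dense d F) (d := ([] : List K))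
      (f := List.map (algebraMap K L))
    rw [← this]
    rfl
  rw [h1]
  have := List.getD_map (n := j) (l := (dense d F).getD i []) (d := (0 : K))
    (f := (algebraMap K L))
  rw [← this, map_zero]

theorem fc_input {L : Type} [Field L] [Algebra K L] {d : ℕ} {F : MvPolynomial (Fin 2) K}
    (hd : F.totalDegree = d) :
    TDeg d (toB (fromDense ((dense d F).map (List.map (algebraMap K L))))) ∧
    (F ≠ 0 → ∃ i j, i + j = d ∧
      ((toB (fromDense ((dense d F).map (List.map (algebraMap K L))))).coeff j).coeff i ≠ 0) := by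
  have key : ∀ i j, ((toB (fromDense ((dense d F).map
      (List.map (algebraMap K L))))).coeff j).coeff i =
      algebraMap K L (if i + j ≤ d then F.coeff (expo i j) else 0) := by
    intro i j
    rw [coeff_toB, coeff_toP, fromDense, List.length_map, length_dense]
    by_cases hj : j < d + 1
    · rw [getD_trp _ _ hj, fc_map_trp, getD_dense]
    · have h1 : (trp (d + 1) ((dense d F).map (List.map (algebraMap K L)))).getD j [] = [] :=
        List.getD_eq_default _ _ (by rw [length_trp]; omega)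
      rw [h1, if_neg (by omega)]
      simp
  refine ⟨?_, ?_⟩
  · intro i j hij
    rw [key, if_neg (by omega), map_zero]
  · intro hF
    have hs : F.support.Nonempty := by
      rw [Finset.nonempty_iff_ne_empty, Ne, MvPolynomial.support_eq_empty]
      exact hF
    obtain ⟨m, hm, hmd⟩ := Finset.exists_mem_eq_sup F.support hs
      (fun s => Multiset.card (Finsupp.toMultiset s))
    have h1 : F.totalDegree = Multiset.card (Finsupp.toMultiset m) := by
      rw [MvPolynomial.totalDegree_eq]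
      exact hmd
    have h2 : m 0 + m 1 = d := by
      rw [Finsupp.card_toMultiset, Finsupp.sum_fintype _ _ (by simp), Fin.sum_univ_two] at h1
      rw [← hd, h1]
      rfl
    refine ⟨m 0, m 1, h2, ?_⟩
    rw [key, if_pos h2.le, expo_eta]
    rw [Ne, map_eq_zero]
    exact MvPolynomial.mem_support_iff.1 hm

/-! ### The monic polynomial -/

section
variable [DecidableEq K]

theorem fc_good {d : ℕ} {T : List (List K)} (hl : (T.getD 0 []).length = 2 * sOf d - 1)
    (h0 : (T.getD 0 []).Nodup) : (envOf d T).Good := mkEnv_good (two_le_sOf d) hl h0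

theorem fc_fits {d n w : ℕ} {T : List (List K)} (hn : n ≤ 4096 * (d + 2))
    (hw : w ≤ 2 ^ tOf d + 100 * (d + 2) + 1000) : Fits (envOf d T) n w := by
  have h := fits_envOf (K := K) d T
  unfold Fits at h ⊢
  refine le_trans ?_ h
  gcongr

/-- the monic polynomial and its factorisation -/
structure MonOk (d : ℕ) (Fd : List (List K)) (T : List (List K)) (c : K) (s : Finset K[X][X])
    (e : K[X][X] → ℕ) : Prop where
  hc : c ≠ 0
  hs : ∀ f ∈ s, Irreducible f ∧ f.Monic ∧ 0 < e f
  hshear : shear (abOf T).1 (abOf T).2 (toB (fromDense Fd)) = C (C c) * ∏ f ∈ s, f ^ e f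
  hdeg : (shear (abOf T).1 (abOf T).2 (toB (fromDense Fd))).natDegree = d
  hsep : (red (∏ f ∈ s, f)).Separable
  eq : toB (monOf Fd T) = ∏ f ∈ s, f ^ e f
  monic : (toB (monOf Fd T)).Monic
  natDegree : (toB (monOf Fd T)).natDegree = d
  tdeg : TDeg d (toB (monOf Fd T))
  len : (monOf Fd T).length = d + 1
  rows : ∀ r ∈ monOf Fd T, r.length = d + 1
  mp : MP ((monOf Fd T).map (fun r => r.headD 0))
  fibLen : ((monOf Fd T).map (fun r => r.headD 0)).length = d + 1
  fib : toP ((monOf Fd T).map (fun r => r.headD 0)) = red (toB (monOf Fd T))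

theorem fc_mon {d : ℕ} {Fd T : List (List K)} (hFl : Fd.length = d + 1)
    (hFt : TDeg d (toB (fromDense Fd))) (hE : (envOf d T).Good)
    (h1 : Nice d (shear (abOf T).1 (abOf T).2 (toB (fromDense Fd)))) :
    ∃ (c : K) (s : Finset K[X][X]) (e : K[X][X] → ℕ), MonOk d Fd T c s e := by
  obtain ⟨c, s, e, hc, hdeg, hs, hsh, hsep⟩ := h1
  have hFl' : Fd.length - 1 = d := by omega
  have hsB : toB (shearB (envOf d T) d (abOf T).1 (abOf T).2 (fromDense Fd)) =
      shear (abOf T).1 (abOf T).2 (toB (fromDense Fd)) :=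
    toB_shearB hE _ _ hFt (fc_fits (by omega) (by generalize 2 ^ tOf d = x; omega))
  have hPm : (∏ f ∈ s, f ^ e f).Monic := monic_prod_of_monic _ _ fun f hf => (hs f hf).2.1.pow _
  have hlc : lcB (shearB (envOf d T) d (abOf T).1 (abOf T).2 (fromDense Fd)) = c := by
    rw [lcB_eq, hsB, hsh, lc2, leadingCoeff_mul, hPm.leadingCoeff, mul_one, leadingCoeff_C,
      leadingCoeff_C]
  have hmon : monOf Fd T =
      smulB c⁻¹ (shearB (envOf d T) d (abOf T).1 (abOf T).2 (fromDense Fd)) := by
    unfold monOf monicL normB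
    rw [hFl', hlc]
  have hcc : (C (C c⁻¹) * C (C c) : K[X][X]) = 1 := by
    rw [← C_mul, ← C_mul, inv_mul_cancel₀ hc, C_1, C_1]
  have heq : toB (monOf Fd T) = ∏ f ∈ s, f ^ e f := by
    rw [hmon, toB_smulB, hsB, hsh, ← mul_assoc, hcc, one_mul]
  have hnd : (toB (monOf Fd T)).natDegree = d := by
    rw [heq]
    rw [hsh, natDegree_C_mul] at hdeg
    · exact hdeg
    · simpa using hc
  have hmonic : (toB (monOf Fd T)).Monic := by rw [heq]; exact hPm
  have hlen : (monOf Fd T).length = d + 1 := by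
    rw [hmon, length_smulB, length_shearB]
  have hfib : toP ((monOf Fd T).map (fun r => r.headD 0)) = red (toB (monOf Fd T)) :=
    (red_toB _).symm
  have hfl : ((monOf Fd T).map (fun r => r.headD 0)).length = d + 1 := by
    rw [List.length_map, hlen]
  refine ⟨c, s, e, hc, hs, hsh, hdeg, hsep, heq, hmonic, hnd, ?_, hlen, ?_, ?_, hfl, hfib⟩
  · rw [hmon, toB_smulB, hsB]
    have := (TDeg.C (n := 0) (p := (C c⁻¹ : K[X])) (by simp)).mul
      (hFt.shear (abOf T).1 (abOf T).2)
    rwa [zero_add] at this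
  · rw [hmon]
    intro r hr
    obtain ⟨r', hr', rfl⟩ := List.mem_map.1 hr
    rw [smulP, List.length_map]
    exact rows_shearB _ _ _ _ _ r' hr'
  · have hm : (red (toB (monOf Fd T))).Monic := hmonic.map _
    have hd' : (red (toB (monOf Fd T))).natDegree = d := by
      rw [← hnd]
      exact hmonic.natDegree_map _
    exact ⟨by rw [hfib]; exact hm, by rw [hfib, hd', hfl]⟩

/-! ### The fibre -/

theorem fc_list_dvd {L : List K[X]} (hL : ∀ a ∈ L, Irreducible a ∧ a.Monic)
    (hn : L.Nodup) {N : K[X]} (hN : ∀ a ∈ L, a ∣ N) : L.prod ∣ N := by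
  induction L with
  | nil => simp
  | cons a L ih =>
    rw [List.prod_cons]
    rw [List.nodup_cons] at hn
    have h1 : L.prod ∣ N := ih (fun b hb => hL b (List.mem_cons_of_mem _ hb)) hn.2
      (fun b hb => hN b (List.mem_cons_of_mem _ hb))
    obtain ⟨hai, ham⟩ := hL a List.mem_cons_self
    have h2 : IsCoprime a L.prod := by
      rw [Irreducible.coprime_iff_not_dvd hai]
      intro h
      rw [Prime.dvd_prod_iff hai.prime] at h
      obtain ⟨b, hb, hab⟩ := h
      obtain ⟨hbi, hbm⟩ := hL b (List.mem_cons_of_mem _ hb)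
      have : a = b := eq_of_monic_of_associated ham hbm
        ((Irreducible.dvd_irreducible_iff_associated hai hbi).1 hab)
      rw [this] at hn
      exact hn.1 hb
    exact h2.mul_dvd (hN a List.mem_cons_self) h1

theorem fc_list_monic {L : List K[X]} (hL : ∀ a ∈ L, a.Monic) :
    L.prod.Monic ∧ L.prod.natDegree = (L.map natDegree).sum := by
  induction L with
  | nil => simp
  | cons a L ih =>
    obtain ⟨h1, h2⟩ := ih fun b hb => hL b (List.mem_cons_of_mem _ hb)
    have h3 := hL a List.mem_cons_self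
    rw [List.prod_cons, List.map_cons, List.sum_cons, h3.natDegree_mul h1, h2]
    exact ⟨h3.mul h1, rfl⟩

theorem fc_squarefree_dvd {a b : K[X]} (ha : Squarefree a) (hb : b ≠ 0)
    (h : ∀ q : K[X], Irreducible q → q ∣ a → q ∣ b) : a ∣ b := by
  have ha0 : a ≠ 0 := ha.ne_zero
  rw [UniqueFactorizationMonoid.dvd_iff_normalizedFactors_le_normalizedFactors ha0 hb]
  rw [Multiset.le_iff_subset
    ((UniqueFactorizationMonoid.squarefree_iff_nodup_normalizedFactors ha0).1 ha)]
  intro q hq
  have hqi : Irreducible q := UniqueFactorizationMonoid.irreducible_of_normalized_factor q hq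
  have hqn : normalize q = q := UniqueFactorizationMonoid.normalize_normalized_factor q hq
  have hqa : q ∣ a := UniqueFactorizationMonoid.dvd_of_mem_normalizedFactors hq
  rw [UniqueFactorizationMonoid.mem_normalizedFactors_iff' hb]
  exact ⟨hqi, hqn, h q hqi hqa⟩

/-- the reduction of the radical -/
theorem fc_red_rad {s : Finset K[X][X]} {e : K[X][X] → ℕ}
    (hs : ∀ f ∈ s, Irreducible f ∧ f.Monic ∧ 0 < e f) (hsep : (red (∏ f ∈ s, f)).Separable)
    {zs : List (List K × ℕ)} (hz : ∀ z ∈ zs, MP z.1 ∧ Irreducible (toP z.1) ∧ 0 < z.2)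
    (hn : (zs.map fun z => toP z.1).Nodup)
    (hp : red (∏ f ∈ s, f ^ e f) = (zs.map (fun z => toP z.1 ^ z.2)).prod) :
    red (∏ f ∈ s, f) = (zs.map (fun z => toP z.1)).prod := by
  have hRm : (red (∏ f ∈ s, f)).Monic :=
    (monic_prod_of_monic _ _ fun f hf => (hs f hf).2.1).map _
  have hL : ∀ a ∈ zs.map (fun z => toP z.1), Irreducible a ∧ a.Monic := by
    intro a ha
    obtain ⟨z, hz1, rfl⟩ := List.mem_map.1 ha
    exact ⟨(hz z hz1).2.1, (hz z hz1).1.monic⟩
  have hAm : ((zs.map (fun z => toP z.1)).prod).Monic := (fc_list_monic fun a ha => (hL a ha).2).1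
  refine eq_of_monic_of_associated hRm hAm (associated_of_dvd_dvd ?_ ?_)
  · refine fc_squarefree_dvd hsep.squarefree hAm.ne_zero ?_
    intro q hq hqd
    have h1 : q ∣ red (∏ f ∈ s, f ^ e f) := by
      refine hqd.trans ?_
      rw [map_prod, map_prod]
      refine Finset.prod_dvd_prod_of_dvd _ _ fun f hf => ?_
      rw [map_pow]
      exact dvd_pow_self _ (hs f hf).2.2.ne'
    rw [hp, Prime.dvd_prod_iff hq.prime] at h1
    obtain ⟨a, ha, hqa⟩ := h1
    obtain ⟨z, hz1, rfl⟩ := List.mem_map.1 ha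
    exact (hq.prime.dvd_of_dvd_pow hqa).trans
      (List.dvd_prod (List.mem_map.2 ⟨z, hz1, rfl⟩))
  · refine fc_list_dvd hL hn ?_
    intro a ha
    obtain ⟨z, hz1, rfl⟩ := List.mem_map.1 ha
    have hp' : Prime (toP z.1) := (hz z hz1).2.1.prime
    have h1 : toP z.1 ∣ red (∏ f ∈ s, f ^ e f) := by
      rw [hp]
      exact (dvd_pow_self _ (hz z hz1).2.2.ne').trans
        (List.dvd_prod (List.mem_map.2 ⟨z, hz1, rfl⟩))
    rw [map_prod, Prime.dvd_finsetProd_iff hp'] at h1
    obtain ⟨f, hf, hfd⟩ := h1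
    rw [map_pow] at hfd
    rw [map_prod]
    exact (hp'.dvd_of_dvd_pow hfd).trans (Finset.dvd_prod_of_mem _ hf)

/-- the radical satisfies the hypotheses of the squarefree part -/
theorem fc_rad [Fintype K] {Q : FQ} {p : ℕ} (hQ : Q.Ok K p) {d : ℕ} {Fd T : List (List K)}
    {c : K} {s : Finset K[X][X]} {e : K[X][X] → ℕ} (hd : 2 ≤ d) (hFl : Fd.length = d + 1)
    (hE : (envOf d T).Good) (hm : MonOk d Fd T c s e)
    (h2 : UniOk (toP ((monOf Fd T).map (fun r => r.headD 0))) (zsOf Q Fd T)) :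
    toB (radOf Q Fd T) = ∏ f ∈ s, f ∧ SqHyp (envOf d T) (tOf d) (radOf Q Fd T) (zsOf Q Fd T) ∧
    (toB (radOf Q Fd T)).natDegree ≤ d ∧ (zsOf Q Fd T).length ≤ (toB (radOf Q Fd T)).natDegree ∧
    (radOf Q Fd T).length = (toB (radOf Q Fd T)).natDegree + 1 := by
  have hFl' : Fd.length - 1 = d := by omega
  obtain ⟨hz, hn, hp⟩ := h2
  have hcl : d + 2 ≤ 2 ^ Nat.clog 2 (d + 2) := Nat.le_pow_clog (by norm_num) _
  have hcl2 : 2 ^ Nat.clog 2 (d + 2) ≤ 2 ^ tOf d := by
    refine Nat.pow_le_pow_right (by norm_num) ?_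
    unfold tOf
    refine Nat.clog_mono_right _ ?_
    have := nroot_pos (k := 2) (n := d + 2) (by norm_num) (by omega)
    nlinarith
  have hrad := radB_spec (Q := Q) (t := Nat.clog 2 (d + 2)) (F := monOf Fd T)
    (zs := zsOf Q Fd T) hE hQ hm.hs hm.eq (by rw [hm.natDegree]; exact hm.tdeg) hm.hsep
    (by rw [hm.natDegree, hm.len]) (by rw [hm.natDegree]; exact hcl)
    (fc_fits (by rw [hm.natDegree]; omega) (by omega)) hz hn (by rw [← hm.fib, hp])
  have e1 : radOf Q Fd T = radB (envOf d T) Q (Nat.clog 2 (d + 2)) (monOf Fd T)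
      (zsOf Q Fd T) := by
    unfold radOf
    rw [hFl']
  rw [← e1] at hrad
  obtain ⟨hr1, hr2⟩ := hrad
  have hRm : (∏ f ∈ s, f).Monic := monic_prod_of_monic _ _ fun f hf => (hm.hs f hf).2.1
  have hdvd : (∏ f ∈ s, f) ∣ toB (monOf Fd T) := by
    rw [hm.eq]
    exact Finset.prod_dvd_prod_of_dvd _ _ fun f hf => dvd_pow_self f (hm.hs f hf).2.2.ne'
  have hRd : (∏ f ∈ s, f).natDegree ≤ d := by
    rw [← hm.natDegree]
    exact natDegree_le_of_dvd hdvd hm.monic.ne_zero
  have hred : red (toB (radOf Q Fd T)) = ((zsOf Q Fd T).map (fun z => toP z.1)).prod := by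
    rw [hr1]
    refine fc_red_rad hm.hs hm.hsep hz hn ?_
    rw [← hm.eq, ← hm.fib, hp]
  have hpos : 0 < (∏ f ∈ s, f).natDegree := by
    have hne : s.Nonempty := by
      rw [Finset.nonempty_iff_ne_empty]
      rintro rfl
      have h3 := hm.natDegree
      rw [hm.eq, Finset.prod_empty, natDegree_one] at h3
      omega
    obtain ⟨f, hf⟩ := hne
    have h4 : 0 < f.natDegree := by
      rcases Nat.eq_zero_or_pos f.natDegree with h0 | h0
      · exfalso
        have := eq_one_of_monic_natDegree_zero (hm.hs f hf).2.1 h0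
        exact (hm.hs f hf).1.not_isUnit (this ▸ isUnit_one)
      · exact h0
    exact h4.trans_le (natDegree_le_of_dvd (Finset.dvd_prod_of_mem (fun f => f) hf) hRm.ne_zero)
  have hlen : (zsOf Q Fd T).length ≤ (toB (radOf Q Fd T)).natDegree := by
    have h5 : (red (toB (radOf Q Fd T))).natDegree = (toB (radOf Q Fd T)).natDegree := by
      rw [hr1]
      exact hRm.natDegree_map _
    have hLm : ∀ a ∈ (zsOf Q Fd T).map (fun z => toP z.1), a.Monic := by
      intro a ha
      obtain ⟨z, hz1, rfl⟩ := List.mem_map.1 ha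
      exact (hz z hz1).1.monic
    rw [← h5, hred, (fc_list_monic hLm).2]
    · rw [List.map_map]
      have h6 : ∀ (l : List (List K × ℕ)), (∀ z ∈ l, MP z.1 ∧ Irreducible (toP z.1) ∧ 0 < z.2) →
          l.length ≤ (l.map (natDegree ∘ fun z => toP z.1)).sum := by
        intro l
        induction l with
        | nil => simp
        | cons z l ih =>
          intro h
          rw [List.map_cons, List.sum_cons, List.length_cons]
          have h7 := ih fun y hy => h y (List.mem_cons_of_mem _ hy)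
          have h8 : 0 < (toP z.1).natDegree := (h z List.mem_cons_self).2.1.natDegree_pos
          simp only [Function.comp_apply]
          omega
      exact h6 _ hz
  refine ⟨hr1, ⟨hE, ?_, ?_, ?_, ?_, ?_, hn, hred, ?_, ?_, ?_⟩, ?_, hlen, ?_⟩
  · rw [hr1]; exact hRm
  · rw [hr1]; exact hr2
  · rw [hr1]
    exact TDeg.of_dvd_monic hm.monic (by rw [hm.natDegree]; exact hm.tdeg) hRm hdvd
  · rw [hr1]; exact hpos
  · exact fun z hz1 => ⟨(hz z hz1).1, (hz z hz1).2.1⟩
  · rw [hr1]; exact hm.hsep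
  · have h6 := (two_pow_tOf d).1
    have h7 := nroot_pos (k := 2) (n := d + 2) (by norm_num) (by omega)
    rw [hr1]
    nlinarith
  · exact fc_fits (by rw [hr1]; omega) (by omega)
  · rw [hr1]; exact hRd
  · rw [hr1]; exact hr2

end

/-! ### The single events -/

section
variable [DecidableEq K]

theorem fpr_badH_congr {r r' : ℕ} (hr : r = r') {P : Fin r → K[X][X]} {P' : Fin r' → K[X][X]}
    (hP : ∀ i, P i = P' (Fin.cast hr i)) {n D ρ : ℕ} {c : Fin n → Fin (D + 1) → K}
    (h : BadH P n D ρ c) : BadH P' n D ρ c := by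
  subst hr
  have : P = P' := funext hP
  rw [← this]
  exact h

theorem fpr_famP {U U' : List (Dat K)} (h : U.map Prod.fst = U'.map Prod.fst) {n D ρ : ℕ}
    {c : Fin n → Fin (D + 1) → K} (hb : BadH (famP U) n D ρ c) : BadH (famP U') n D ρ c := by
  have hl : U.length = U'.length := by
    have := congrArg List.length h
    simpa using this
  refine fpr_badH_congr hl (fun i => ?_) hb
  have h1 : (U.map Prod.fst)[(i : ℕ)]'(by rw [List.length_map]; exact i.2) =
      (U'.map Prod.fst)[(i : ℕ)]'(by rw [List.length_map, ← hl]; exact i.2) :=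
    List.getElem_of_eq h _
  rw [List.getElem_map, List.getElem_map] at h1
  unfold famP
  simp only [List.get_eq_getElem, Fin.val_cast]
  rw [h1]

theorem fpr_badH' [Fintype K] {r ρ : ℕ} (P : Fin r → K[X][X]) (n D : ℕ) {m : ℕ}
    (hm : n * (D + 1) ≤ m) (hρ : ρ = r + 1) :
    pr K m (fun th => BadH P n D ρ (thC n D th)) ≤ 1 / Fintype.card K := by
  subst hρ
  exact pr_badH P n D hm

theorem fpr_length_lift (E : MEnv K) (t : ℕ) (G : List (List K)) (zs : List (List K × ℕ)) :
    (lift E t G (zs.map Prod.fst)).length = zs.length := by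
  rw [length_lift, List.length_map]

/-- the functional -/
theorem fpr_badH [Fintype K] {E : MEnv K} {t d : ℕ} {G : List (List K)} {zs : List (List K × ℕ)}
    (h : SqHyp E t G zs) (hd : (toB G).natDegree ≤ d) :
    pr K (d * 2 ^ t) (fun th => BadH (famP (sqDat E t G zs th)) (toB G).natDegree
      (2 ^ t - (toB G).natDegree - (zs.length + 1)) (zs.length + 1)
      (thC (toB G).natDegree (2 ^ t - (toB G).natDegree - (zs.length + 1)) th)) ≤
      1 / Fintype.card K := by
  have hl : (sqDat E t G zs []).length = zs.length := (h.datOk []).2.1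
  have h1 := fpr_badH' (K := K) (ρ := zs.length + 1) (famP (sqDat E t G zs [])) (toB G).natDegree
    (2 ^ t - (toB G).natDegree - (zs.length + 1)) (m := d * 2 ^ t) (by
      refine Nat.mul_le_mul hd ?_
      have := h.big
      omega) (by rw [hl])
  refine le_trans (pr_mono ?_) h1
  intro th _ hB
  refine fpr_famP ?_ hB
  have hf : (lift E t G (zs.map Prod.fst)).length = (zs.map Prod.snd).length := by
    rw [fpr_length_lift, List.length_map]
  unfold sqDat
  rw [ws_map_fst _ hf.symm, ws_map_fst _ hf.symm]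

/-- the moduli -/
theorem fpr_badMod [Fintype K] {E : MEnv K} {t d : ℕ} {G : List (List K)}
    {zs : List (List K × ℕ)} (h : SqHyp E t G zs) (hd : (toB G).natDegree ≤ d)
    (hz : zs.length ≤ d) {th tw : List K} (htw : zs.length ≤ tw.length)
    (h4 : ¬ NotSep zs.length (sqBas E t G zs th) tw)
    (hq : 1000 + 3 * (d + 1) ≤ Fintype.card K) :
    (sqUn E t G zs th tw).length ≤ zs.length ∧
    pr K (16 * d + 80) (fun tm => BadMod (Fintype.card K) E t (sqBas E t G zs th).length
      (sqUn E t G zs th tw) tm) ≤ 1 / 8 := by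
  obtain ⟨ι, hι, -, -, F', hF', hFd, -, -⟩ := c6_unres h htw h4
  have hUl : (sqUn E t G zs th tw).length ≤ zs.length := by
    have h1 := Fintype.card_le_of_injective ι hι
    rw [Fintype.card_fin, Fintype.card_fin, (h.datOk th).2.1] at h1
    exact h1
  refine ⟨hUl, ?_⟩
  have hF'd : F'.natDegree ≤ d := (natDegree_le_of_dvd hFd h.monic.ne_zero).trans hd
  have hrb := restBasis_le (sqBas E t G zs th).length (sqUn E t G zs th tw)
  rcases Nat.eq_zero_or_pos (sqUn E t G zs th tw).length with h0 | h0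
  · refine fpr_zero (by norm_num) ?_
    rintro tm - ⟨c, hc, -⟩
    apply hc
    intro f _ _ i
    exact absurd i.2 (by omega)
  · refine pr_badMod hF' ?_ _ (by omega) (by omega)
    rw [hF'.lifted.natDegree_eq]
    have h1 := hF'.lifted.natDegree_pos ⟨0, h0⟩
    exact h1.trans_le (Finset.single_le_sum (f := fun i => (famP (sqUn E t G zs th tw) i).natDegree)
      (fun _ _ => Nat.zero_le _) (Finset.mem_univ _))

theorem fpr_bas_length (E : MEnv K) (t : ℕ) (G : List (List K))
    (zs : List (List K × ℕ)) (th : List K) :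
    (sqBas E t G zs th).length ≤ zs.length := by
  unfold sqBas winBasis
  refine (length_leftKer _ _).trans ?_
  unfold winRows
  rw [List.length_map, length_traces, fpr_length_lift]

theorem fpr_kerVecs_length (E : MEnv K) (Q : FQ) (t k : ℕ) (U : List (Dat K)) (tm : List K) :
    (kerVecs E Q t k U tm).length ≤ U.length := by
  unfold kerVecs kerU
  rw [List.length_map]
  refine (length_leftKerN _ _).trans ?_
  unfold testRows
  rw [List.length_map]
  exact restBasis_le k U

theorem fpr_notSep [Fintype K] {r d : ℕ} {B : List (List K)} (hr : r ≤ d) (hB : B.length ≤ d) :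
    pr K d (fun tw => NotSep r B tw) ≤ (d : ℝ) ^ 2 / Fintype.card K := by
  refine (pr_notSep r B hB).trans ?_
  have hq := pr_q_pos (K := K)
  have : (r : ℝ) ≤ d := by exact_mod_cast hr
  gcongr

end

/-! ### The numbers -/

theorem fpr_num {d : ℕ} (hd : 2 ≤ d) :
    ((Nat.clog 2 (d + 1) : ℝ) + 2) * ((d + 1 : ℕ) : ℝ) ^ 2 * (5 / 9) ^ nbOf d ≤ 1 / 32 := by
  have h1 : ((5 : ℝ) / 9) ^ nbOf d ≤ 1 / ((d : ℝ) + 2) ^ 6 := by
    unfold nbOf
    have h2 : ((d : ℝ) + 2) ≤ 2 ^ Nat.clog 2 (d + 2) := by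
      have := Nat.le_pow_clog (b := 2) (by norm_num) (d + 2)
      exact_mod_cast this
    have h3 : ((5 : ℝ) / 9) ^ 8 ≤ 1 / 2 ^ 6 := by norm_num
    rw [pow_mul]
    calc (((5 : ℝ) / 9) ^ 8) ^ Nat.clog 2 (d + 2) ≤ (1 / 2 ^ 6) ^ Nat.clog 2 (d + 2) :=
          pow_le_pow_left₀ (by positivity) h3 _
      _ = 1 / (2 ^ Nat.clog 2 (d + 2)) ^ 6 := by
          rw [div_pow, one_pow, ← pow_mul, ← pow_mul, mul_comm]
      _ ≤ 1 / ((d : ℝ) + 2) ^ 6 := by gcongr
  have h4 : (Nat.clog 2 (d + 1) : ℝ) ≤ (d : ℝ) + 1 := by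
    have : Nat.clog 2 (d + 1) ≤ d + 1 := by
      refine Nat.clog_le_of_le_pow ?_
      exact (Nat.lt_two_pow_self).le
    exact_mod_cast this
  have h5 : (2 : ℝ) ≤ d := by exact_mod_cast hd
  have h6 : (0 : ℝ) < (d : ℝ) + 2 := by linarith
  calc ((Nat.clog 2 (d + 1) : ℝ) + 2) * ((d + 1 : ℕ) : ℝ) ^ 2 * (5 / 9) ^ nbOf d
      ≤ (2 * ((d : ℝ) + 2)) * ((d : ℝ) + 2) ^ 2 * (1 / ((d : ℝ) + 2) ^ 6) := by
        gcongr
        · linarith
        · push_cast
          linarith
    _ = 2 / ((d : ℝ) + 2) ^ 3 := by field_simp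
    _ ≤ 2 / 4 ^ 3 := by
        gcongr
        linarith
    _ = 1 / 32 := by norm_num

theorem fpr_q {d q : ℕ} (hd : 2 ≤ d) (hq : (d + 2) ^ 20 ≤ q) :
    1000 * (d + 2) ^ 2 ≤ q ∧ 1000 + 3 * (d + 1) ≤ q := by
  have h1 : 1000 * (d + 2) ^ 2 ≤ (d + 2) ^ 20 := by
    have h2 : 1000 ≤ (d + 2) ^ 18 := by
      calc 1000 ≤ 4 ^ 18 := by norm_num
        _ ≤ (d + 2) ^ 18 := Nat.pow_le_pow_left (by omega) 18
    calc 1000 * (d + 2) ^ 2 ≤ (d + 2) ^ 18 * (d + 2) ^ 2 := Nat.mul_le_mul_right _ h2
      _ = (d + 2) ^ 20 := by rw [← pow_add]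
  refine ⟨h1.trans hq, ?_⟩
  have h3 : 1000 + 3 * (d + 1) ≤ 1000 * (d + 2) ^ 2 := by nlinarith
  exact h3.trans (h1.trans hq)

/-! ### The theorem -/

theorem pr_noBad {L : Type} [Field L] [Fintype K] [Fintype L] [Algebra K L]
    [DecidableEq L] {Q : FQ} {p d : ℕ} (hQ : Q.Ok L p) {F : MvPolynomial (Fin 2) K}
    (hF : F ≠ 0) (hd : F.totalDegree = d) (hd2 : 2 ≤ d)
    (hq : (d + 2) ^ 20 ≤ Fintype.card L) :
    pr L (tapeLens d).sum (fun tape => ¬ NoBad (Fintype.card L) Q
      ((dense d F).map (List.map (algebraMap K L))) (splitLens (tapeLens d) tape)) ≤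
      1 / 5 := by
  obtain ⟨hFt, hFne⟩ := fc_input (L := L) hd
  have hFne' := hFne hF
  have hFl : ((dense d F).map (List.map (algebraMap K L))).length = d + 1 := by
    rw [List.length_map, length_dense]
  generalize ((dense d F).map (List.map (algebraMap K L))) = Fd at *
  have hFl' : Fd.length - 1 = d := by omega
  obtain ⟨hq1, hq2⟩ := fpr_q hd2 hq
  have hqp := pr_q_pos (K := L)
  have hη : ((d : ℝ) + 2) ^ 2 / Fintype.card L ≤ 1 / 1000 := by
    rw [div_le_div_iff₀ hqp (by norm_num)]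
    have : (1000 : ℝ) * ((d : ℝ) + 2) ^ 2 ≤ Fintype.card L := by exact_mod_cast hq1
    linarith
  have hd0 : (0 : ℝ) ≤ d := Nat.cast_nonneg d
  have hη1 : ∀ {a b : ℝ}, 0 ≤ b → a ≤ b * ((d : ℝ) + 2) ^ 2 → a / Fintype.card L ≤ b / 1000 := by
    intro a b hb hab
    calc a / Fintype.card L ≤ b * ((d : ℝ) + 2) ^ 2 / Fintype.card L := by gcongr
      _ = b * (((d : ℝ) + 2) ^ 2 / Fintype.card L) := by ring
      _ ≤ b * (1 / 1000) := by gcongr
      _ = b / 1000 := by ring
  -- the numbers
  have e0 : (1 : ℝ) / 5 = 16 / 1000 + (4 / 1000 + (1 / 32 + (1 / 1000 + (1 / 1000 + (1 / 8 +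
      (1 / 1000 + (1 / 5 - 16 / 1000 - 4 / 1000 - 1 / 32 - 1 / 1000 - 1 / 1000 - 1 / 8 -
        1 / 1000))))))) := by ring
  rw [e0]
  unfold tapeLens
  simp only [List.sum_cons, List.sum_nil]
  -- event 0
  refine fpr_seq (A := fun x => ¬ x.Nodup) (P := fun x y => ¬ NoBad (Fintype.card L) Q Fd
    (x :: splitLens [2, uniTape (nbOf d) (d + 1), d * 2 ^ tOf d, d, 16 * d + 80, d] y))
    ?_ (by norm_num) ?_
  · refine (fpr_nodup _).trans (hη1 (by norm_num) ?_)
    have h1 : 2 * sOf d - 1 ≤ 4 * (d + 1) := by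
      have := nroot_le (k := 400) (by norm_num) (d + 1)
      unfold sOf
      omega
    have h2 : ((2 * sOf d - 1 : ℕ) : ℝ) ≤ 4 * ((d : ℝ) + 1) := by exact_mod_cast h1
    calc ((2 * sOf d - 1 : ℕ) : ℝ) ^ 2 ≤ (4 * ((d : ℝ) + 1)) ^ 2 := by gcongr
      _ ≤ 16 * ((d : ℝ) + 2) ^ 2 := by nlinarith
  intro x0 hx0 h0
  rw [not_not] at h0
  have hE : (envOf d [x0]).Good := fc_good hx0 h0
  -- event 1
  refine fpr_seq (A := fun x => ¬ Nice d (shear (x.getD 0 0) (x.getD 1 0) (toB (fromDense Fd))))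
    (P := fun x y => ¬ NoBad (Fintype.card L) Q Fd
    (x0 :: x :: splitLens [uniTape (nbOf d) (d + 1), d * 2 ^ tOf d, d, 16 * d + 80, d] y))
    ?_ (by norm_num) ?_
  · refine (fpr_nice hFt hFne').trans (hη1 (by norm_num) ?_)
    nlinarith
  intro x1 hx1 h1
  rw [not_not] at h1
  obtain ⟨c, s, e, hm⟩ := fc_mon (T := [x0, x1]) hFl hFt hE h1
  -- event 2
  refine fpr_seq (A := fun x => ¬ UniOk (toP ((monOf Fd [x0, x1]).map (fun r => r.headD 0)))
    (uniFactor (envOf d [x0]) Q (nbOf d) ((monOf Fd [x0, x1]).map (fun r => r.headD 0)) x))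
    (P := fun x y => ¬ NoBad (Fintype.card L) Q Fd
    (x0 :: x1 :: x :: splitLens [d * 2 ^ tOf d, d, 16 * d + 80, d] y))
    ?_ (by norm_num) ?_
  · have h2 := uniFactor_pr (nb := nbOf d) hE hQ hm.mp (by
      rw [hm.fibLen]
      exact fc_fits (by omega) (by generalize 2 ^ tOf d = x; omega))
    rw [hm.fibLen] at h2
    exact h2.trans (fpr_num hd2)
  intro x2 hx2 h2
  rw [not_not] at h2
  have hz2 : zsOf Q Fd [x0, x1, x2] = uniFactor (envOf d [x0]) Q (nbOf d)
      ((monOf Fd [x0, x1]).map (fun r => r.headD 0)) x2 := by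
    unfold zsOf
    rw [hFl']
    rfl
  rw [← hz2] at h2
  obtain ⟨c, s, e, hm⟩ := fc_mon (T := [x0, x1, x2]) hFl hFt hE h1
  obtain ⟨-, hS, hRd, hZR, -⟩ := fc_rad (T := [x0, x1, x2]) hQ hd2 hFl hE hm h2
  have hZd : (zsOf Q Fd [x0, x1, x2]).length ≤ d := hZR.trans hRd
  -- event 3
  refine fpr_seq (A := fun x => BadH (famP (sqDat (envOf d [x0, x1, x2]) (tOf d)
      (radOf Q Fd [x0, x1, x2]) (zsOf Q Fd [x0, x1, x2]) x))
      (toB (radOf Q Fd [x0, x1, x2])).natDegree
      (2 ^ tOf d - (toB (radOf Q Fd [x0, x1, x2])).natDegree -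
        ((zsOf Q Fd [x0, x1, x2]).length + 1)) ((zsOf Q Fd [x0, x1, x2]).length + 1)
      (thC (toB (radOf Q Fd [x0, x1, x2])).natDegree
        (2 ^ tOf d - (toB (radOf Q Fd [x0, x1, x2])).natDegree -
          ((zsOf Q Fd [x0, x1, x2]).length + 1)) x))
    (P := fun x y => ¬ NoBad (Fintype.card L) Q Fd
    (x0 :: x1 :: x2 :: x :: splitLens [d, 16 * d + 80, d] y))
    ?_ (by norm_num) ?_
  · refine (fpr_badH hS hRd).trans (hη1 (by norm_num) ?_)
    nlinarith
  intro x3 hx3 h3
  -- event 4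
  refine fpr_seq (A := fun x => NotSep (zsOf Q Fd [x0, x1, x2]).length
      (sqBas (envOf d [x0, x1, x2]) (tOf d) (radOf Q Fd [x0, x1, x2])
        (zsOf Q Fd [x0, x1, x2]) x3) x)
    (P := fun x y => ¬ NoBad (Fintype.card L) Q Fd
    (x0 :: x1 :: x2 :: x3 :: x :: splitLens [16 * d + 80, d] y))
    ?_ (by norm_num) ?_
  · refine (fpr_notSep hZd ((fpr_bas_length _ _ _ _ x3).trans hZd)).trans (hη1 (by norm_num) ?_)
    nlinarith
  intro x4 hx4 h4
  obtain ⟨hUl, hpr5⟩ := fpr_badMod hS hRd hZd (th := x3) (tw := x4) (by rw [hx4]; exact hZd) h4 hq2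
  -- event 5
  refine fpr_seq (A := fun x => BadMod (Fintype.card L) (envOf d [x0, x1, x2]) (tOf d)
      (sqBas (envOf d [x0, x1, x2]) (tOf d) (radOf Q Fd [x0, x1, x2])
        (zsOf Q Fd [x0, x1, x2]) x3).length
      (sqUn (envOf d [x0, x1, x2]) (tOf d) (radOf Q Fd [x0, x1, x2])
        (zsOf Q Fd [x0, x1, x2]) x3 x4) x)
    (P := fun x y => ¬ NoBad (Fintype.card L) Q Fd
    (x0 :: x1 :: x2 :: x3 :: x4 :: x :: splitLens [d] y))
    hpr5 (by norm_num) ?_
  intro x5 hx5 h5
  -- event 6
  refine fpr_seq (A := fun x => NotSep (sqUn (envOf d [x0, x1, x2]) (tOf d)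
      (radOf Q Fd [x0, x1, x2]) (zsOf Q Fd [x0, x1, x2]) x3 x4).length
      (kerVecs (envOf d [x0, x1, x2]) Q (tOf d)
        (sqBas (envOf d [x0, x1, x2]) (tOf d) (radOf Q Fd [x0, x1, x2])
          (zsOf Q Fd [x0, x1, x2]) x3).length
        (sqUn (envOf d [x0, x1, x2]) (tOf d) (radOf Q Fd [x0, x1, x2])
          (zsOf Q Fd [x0, x1, x2]) x3 x4) x5) x)
    (P := fun x y => ¬ NoBad (Fintype.card L) Q Fd
    (x0 :: x1 :: x2 :: x3 :: x4 :: x5 :: x :: splitLens [] y))
    ?_ (by norm_num) ?_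
  · refine (fpr_notSep (hUl.trans hZd) ((fpr_kerVecs_length _ _ _ _ _ _).trans
      (hUl.trans hZd))).trans (hη1 (by norm_num) ?_)
    nlinarith
  intro x6 hx6 h6
  refine fpr_zero (by norm_num) ?_
  intro y _ hN
  apply hN
  refine ⟨h0, ?_, h2, ?_, ?_, ?_, ?_⟩
  · rw [hFl']
    exact h1
  · rw [hFl']
    exact h3
  · rw [hFl']
    exact h4
  · rw [hFl']
    exact h5
  · rw [hFl']
    exact h6

end Pool.Agent.BiFac

end

section

/-!
# The program without clock
-/

set_option autoImplicit false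

namespace Pool.Agent.BiFac

open Polynomial Pool.Agent.TreeRAM

/-- The program: preparation, simulation of the program over the extension, postprocessing. -/
def coreProg (cP : Prog) (pS : Prog) (cQ : Prog) : Prog :=
  .seq cP (.cond .fst (.seq pS (.seq .snd cQ)) .nil)

section

theorem core_getD_chunks_length {α : Type} {n e : ℕ} {l : List α} (h : n * e ≤ l.length) :
    ∀ c ∈ chunks n e l, c.length = e := by
  induction n generalizing l with
  | zero => intro c hc; simp [chunks] at hc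
  | succ n ih =>
    intro c hc
    rw [chunks, List.mem_cons] at hc
    rcases hc with rfl | hc
    · rw [List.length_take]
      have : e ≤ l.length := le_trans (by nlinarith [Nat.zero_le (n * e)]) h
      omega
    · refine ih ?_ c hc
      rw [List.length_drop]
      have : (n + 1) * e = n * e + e := by ring
      omega

variable {K : Type} [Field K]

theorem core_map_dec {L : Type} [Field L] [Algebra K L] {M : List K} {z : L}
    {rep : L → List K} (h : IsExt M z rep) {C : List (List K)}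
    (hC : ∀ c ∈ C, c.length = M.length - 1) : (C.map (dec z)).map rep = C := by
  rw [List.map_map]
  conv_rhs => rw [← List.map_id C]
  refine List.map_congr_left fun c hc => ?_
  exact h.rep_dec (hC c hc)

theorem core_map_alg {L : Type} [Field L] [Algebra K L] {M : List K} {z : L}
    {rep : L → List K} (h : IsExt M z rep) (Fd : List (List K)) :
    (Fd.map (List.map (algebraMap K L))).map (List.map rep) =
      Fd.map (List.map (fun a => a :: List.replicate (M.length - 2) 0)) := by
  rw [List.map_map]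
  refine List.map_congr_left fun r _ => ?_
  simp only [Function.comp, List.map_map]
  refine List.map_congr_left fun a _ => ?_
  exact h.rep_algebraMap a

theorem core_post {L : Type} [Field L] [Algebra K L] {M : List K} {z : L}
    {rep : L → List K} (h : IsExt M z rep) (Lf : List (MvPolynomial (Fin 2) K × ℕ)) :
    postF ((Lf.map (fun g =>
        ((dense g.1.totalDegree g.1).map (List.map (algebraMap K L)), g.2))).map
          (fun y => (y.1.map (List.map rep), y.2))) =
      Lf.map (fun g => (dense g.1.totalDegree g.1, g.2)) := by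
  unfold postF
  rw [List.map_map, List.map_map]
  refine List.map_congr_left fun g _ => ?_
  simp only [Function.comp]
  rw [core_map_alg h]
  congr 1
  rw [List.map_map]
  conv_rhs => rw [← List.map_id (dense g.1.totalDegree g.1)]
  refine List.map_congr_left fun r _ => ?_
  simp only [Function.comp, List.map_map, id]
  conv_rhs => rw [← List.map_id r]
  exact List.map_congr_left fun a _ => rfl

theorem core_tot_post {L : Type} [Field L] [Algebra K L] {rep : L → List K}
    (Lf : List (MvPolynomial (Fin 2) K × ℕ)) :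
    (((Lf.map (fun g =>
        ((dense g.1.totalDegree g.1).map (List.map (algebraMap K L)), g.2))).map
          (fun y => (y.1.map (List.map rep), y.2))).map (fun y => tot y.1 + 1)).sum =
      (Lf.map (fun g => tot (dense g.1.totalDegree g.1) + 1)).sum := by
  rw [List.map_map, List.map_map]
  congr 1
  refine List.map_congr_left fun g _ => ?_
  simp only [Function.comp, tot, List.map_map]
  congr 2
  refine List.map_congr_left fun r _ => ?_
  simp

/-- The input of the algorithm over the extension. -/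
noncomputable def core_tapeL (L : Type) [Field L] [Algebra K L] (z : L) (d : ℕ)
    (tape : List K) : List L :=
  (chunks (tapeLens d).sum (eOf d) (tape.drop (8 * eOf d * eOf d))).map (dec z)

theorem core_run [DecidableEq K] {L : Type} [Field L] [DecidableEq L] [Algebra K L]
    {cP cQ cL : Cd} {pS : Prog} {Cs : ℕ}
    {TP : List Bool × ℕ × List (List K) × List K → ℕ}
    {TQ : List (List (List (List K)) × ℕ) → ℕ}
    {TL : FQ × (ℕ × ℕ) × List (List L) × List L → ℕ}
    (hP : Comp K (fun z : List Bool × ℕ × List (List K) × List K => prepF z) cP TP)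
    (hQ : Comp K (fun out : List (List (List (List K)) × ℕ) => postF out) cQ TQ)
    (hL : Comp L (fun z : FQ × (ℕ × ℕ) × List (List L) × List L =>
      facL z.1 z.2.1.1 z.2.1.2 z.2.2.1 z.2.2.2) cL TL)
    {M : List K} {z : L} {rep : L → List K} (h : IsExt M z rep)
    (hsim : ∀ (x y : D L) (t : ℕ), Run cL.p x y t →
      RunLe pS (.pair (enc K M) (bindD (fun a => enc K (rep a)) x))
        (.pair (enc K M) (bindD (fun a => enc K (rep a)) y))
        (Cs * (M.length + 1) ^ 2 * (t + 1)))
    {bits : List Bool} {k d : ℕ} {Fd : List (List K)} {tape : List K} (hFd : Fd.length = d + 1)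
    (hM : findIrr (bits, k) (eOf d) (tape.take (8 * eOf d * eOf d)) = M)
    (hl : M.length = eOf d + 1) (ht : tapeNeed d ≤ tape.length) :
    RunLe (coreProg cP.p pS cQ.p) (enc K (bits, k, Fd, tape))
      (enc K (postF ((facL (bits, k * eOf d) k (eOf d) (Fd.map (List.map (algebraMap K L)))
        (core_tapeL L z d tape)).map (fun y => (y.1.map (List.map rep), y.2)))))
      (cP.k * (TP (bits, k, Fd, tape) + 1) +
        Cs * (eOf d + 2) ^ 2 * (cL.k * (TL ((bits, k * eOf d), (k, eOf d),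
          Fd.map (List.map (algebraMap K L)), core_tapeL L z d tape) + 1) + 1) +
        cQ.k * (TQ ((facL (bits, k * eOf d) k (eOf d) (Fd.map (List.map (algebraMap K L)))
          (core_tapeL L z d tape)).map (fun y => (y.1.map (List.map rep), y.2))) + 1) + 6) := by
  have hd : Fd.length - 1 = d := by omega
  have h1 := hP.run (bits, k, Fd, tape)
  have hprep : enc K (prepF (bits, k, Fd, tape)) =
      .pair (enc K M) (bindD (fun a => enc K (rep a)) (enc L (((bits, k * eOf d) : FQ),
        ((k, eOf d) : ℕ × ℕ), Fd.map (List.map (algebraMap K L)), core_tapeL L z d tape))) := by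
    rw [bindD_input, core_map_alg h]
    unfold prepF core_tapeL
    simp only [hd]
    rw [core_map_dec h]
    · rw [hM, show M.length - 2 = eOf d - 1 by omega]
      rfl
    · rw [show M.length - 1 = eOf d by omega]
      refine core_getD_chunks_length ?_
      rw [List.length_drop]
      unfold tapeNeed at ht
      omega
  rw [show enc K ((fun z : List Bool × ℕ × List (List K) × List K => prepF z)
    (bits, k, Fd, tape)) = enc K (prepF (bits, k, Fd, tape)) from rfl, hprep] at h1
  obtain ⟨t2, ht2, h2⟩ := hL.run (((bits, k * eOf d) : FQ), ((k, eOf d) : ℕ × ℕ),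
    Fd.map (List.map (algebraMap K L)), core_tapeL L z d tape)
  have h3 := hsim _ _ _ h2
  rw [bindD_output] at h3
  have h4 := hQ.run ((facL (bits, k * eOf d) k (eOf d) (Fd.map (List.map (algebraMap K L)))
        (core_tapeL L z d tape)).map (fun y => (y.1.map (List.map rep), y.2)))
  obtain ⟨a, M', rfl⟩ : ∃ a M', M = a :: M' := by
    cases M with
    | nil => simp at hl
    | cons a M' => exact ⟨a, M', rfl⟩
  have h5 : RunLe (.cond .fst (.seq pS (.seq .snd cQ.p)) .nil)
      (.pair (enc K (a :: M')) (bindD (fun a => enc K (rep a)) (enc L (((bits, k * eOf d) : FQ),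
        ((k, eOf d) : ℕ × ℕ), Fd.map (List.map (algebraMap K L)), core_tapeL L z d tape)))) _ _ :=
    RunLe.cond_true (RunLe.fst _ _) (RunLe.seq h3 (RunLe.seq (RunLe.snd _ _) h4))
  refine (RunLe.seq h1 h5).mono ?_
  have h6 : Cs * ((a :: M').length + 1) ^ 2 * (t2 + 1) ≤
      Cs * (eOf d + 2) ^ 2 * (cL.k * (TL ((bits, k * eOf d), (k, eOf d),
          Fd.map (List.map (algebraMap K L)), core_tapeL L z d tape) + 1) + 1) := by
    rw [hl]
    gcongr
  omega

/-- If no irreducible polynomial is found the result is `nil`. -/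
theorem core_run_nil [DecidableEq K] {cP cQ : Cd} {pS : Prog}
    {TP : List Bool × ℕ × List (List K) × List K → ℕ}
    (hP : Comp K (fun z : List Bool × ℕ × List (List K) × List K => prepF z) cP TP)
    {bits : List Bool} {k d : ℕ} {Fd : List (List K)} {tape : List K} (hFd : Fd.length = d + 1)
    (hM : findIrr (bits, k) (eOf d) (tape.take (8 * eOf d * eOf d)) = []) :
    ∃ y n, RunLe (coreProg cP.p pS cQ.p) (enc K (bits, k, Fd, tape)) y n := by
  have hd : Fd.length - 1 = d := by omega
  have h1 := hP.run (bits, k, Fd, tape)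
  obtain ⟨v, hv⟩ : ∃ v, enc K (prepF (bits, k, Fd, tape)) = .pair .nil v := by
    refine ⟨enc K (prepF (bits, k, Fd, tape)).2, ?_⟩
    have : (prepF (bits, k, Fd, tape)).1 = [] := by
      unfold prepF
      simp only [hd]
      exact hM
    rw [show enc K (prepF (bits, k, Fd, tape)) = .pair (enc K (prepF (bits, k, Fd, tape)).1)
      (enc K (prepF (bits, k, Fd, tape)).2) from rfl, this]
    rfl
  rw [show enc K ((fun z : List Bool × ℕ × List (List K) × List K => prepF z)
    (bits, k, Fd, tape)) = enc K (prepF (bits, k, Fd, tape)) from rfl, hv] at h1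
  exact ⟨_, _, RunLe.seq h1 (RunLe.cond_false (RunLe.fst _ _) (RunLe.nil _))⟩

end

theorem core_cardL {K L : Type} [Fintype K] [Fintype L] {d e : ℕ} (hK : 2 ≤ Fintype.card K)
    (hL : Fintype.card L = Fintype.card K ^ e) (he : e = eOf d) :
    (d + 2) ^ 20 ≤ Fintype.card L := by
  rw [hL, he, eOf, mul_comm, pow_mul]
  refine Nat.pow_le_pow_left ?_ 20
  calc d + 2 ≤ 2 ^ Nat.clog 2 (d + 2) := Nat.le_pow_clog (by norm_num) _
    _ ≤ Fintype.card K ^ Nat.clog 2 (d + 2) := Nat.pow_le_pow_left hK _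

theorem core_splitLens_length {α : Type} : ∀ (ls : List ℕ) (l : List α), ls.sum ≤ l.length →
    (splitLens ls l).map List.length = ls
  | [], _, _ => rfl
  | n :: ns, l, h => by
    rw [List.sum_cons] at h
    rw [splitLens, List.map_cons, List.length_take, core_splitLens_length ns (l.drop n)
      (by rw [List.length_drop]; omega), Nat.min_eq_left (by omega)]

theorem core_chunks_take {α : Type} : ∀ (n e : ℕ) (l : List α),
    chunks n e (l.take (n * e)) = chunks n e l
  | 0, _, _ => rfl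
  | n + 1, e, l => by
    rw [chunks, chunks, List.take_take, List.drop_take]
    have h1 : min e ((n + 1) * e) = e := Nat.min_eq_left (by nlinarith [Nat.zero_le (n * e)])
    have h2 : (n + 1) * e - e = n * e := by
      rw [Nat.add_mul, Nat.one_mul, Nat.add_sub_cancel]
    rw [h1, h2, core_chunks_take n e]

theorem core_nroot_pos {k n : ℕ} (hk : 0 < k) (hn : 0 < n) : 1 ≤ nroot k n := by
  by_contra h
  have h0 : nroot k n = 0 := by omega
  have := nroot_spec hk n
  rw [h0, zero_pow hk.ne'] at this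
  omega

theorem core_bnd_ge (d bl k : ℕ) : (d + 2) ^ 2 * (Nat.clog 2 (d + 2) + 1) ≤ bnd d bl k := by
  unfold bnd
  have h1 : 1 ≤ nroot 20 (d + 2) ^ 19 :=
    Nat.one_le_pow _ _ (core_nroot_pos (by norm_num) (by omega))
  have h2 : 1 ≤ ((bl + 1) * (k + 1)) ^ 2 := Nat.one_le_pow _ _ (by positivity)
  have h3 : Nat.clog 2 (d + 2) + 1 ≤ (Nat.clog 2 (d + 2) + 1) ^ 14 :=
    Nat.le_self_pow (by norm_num) _
  calc (d + 2) ^ 2 * (Nat.clog 2 (d + 2) + 1)
      = (d + 2) ^ 2 * 1 * (Nat.clog 2 (d + 2) + 1) * 1 := by ring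
    _ ≤ (d + 2) ^ 2 * nroot 20 (d + 2) ^ 19 * (Nat.clog 2 (d + 2) + 1) ^ 14 *
        ((bl + 1) * (k + 1)) ^ 2 := by gcongr

theorem core_tot_dense {K : Type} [Field K] (d : ℕ) (F : MvPolynomial (Fin 2) K) :
    tot (dense d F) ≤ (d + 2) ^ 2 := by
  unfold tot dense
  rw [List.map_map]
  refine (List.sum_le_card_nsmul _ (d + 2) ?_).trans ?_
  · intro x hx
    rw [List.mem_map] at hx
    obtain ⟨i, _, rfl⟩ := hx
    simp only [Function.comp, List.length_map, List.length_range]
    omega
  · simp only [List.length_map, List.length_range, smul_eq_mul]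
    nlinarith

theorem core_arith {d B T U V Cb a b c g : ℕ} (hV : V ≤ (d + 2) ^ 2)
    (hU : U ≤ 8 * (d + 1) ^ 2) (hT : (eOf d + 2) ^ 2 * (T + 1) ≤ Cb * B)
    (hB : (d + 2) ^ 2 * (Nat.clog 2 (d + 2) + 1) ≤ B) :
    a * (B + V * (eOf d + 1) + 1) + b * (eOf d + 2) ^ 2 * (c * (T + 1) + 1) +
      g * (U + 1) + 6 ≤ (a * 22 + b * (c + 1) * Cb + g * 9 + 6) * B := by
  have he2 : eOf d = 20 * Nat.clog 2 (d + 2) := rfl
  have hB1 : (d + 2) ^ 2 ≤ B := le_trans (Nat.le_mul_of_pos_right _ (Nat.succ_pos _)) hB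
  have hB0 : 1 ≤ B := le_trans (Nat.one_le_pow _ _ (by omega)) hB1
  have a1 : V * (eOf d + 1) ≤ 20 * B := by
    calc V * (eOf d + 1) ≤ (d + 2) ^ 2 * (20 * (Nat.clog 2 (d + 2) + 1)) :=
          Nat.mul_le_mul hV (by omega)
      _ = 20 * ((d + 2) ^ 2 * (Nat.clog 2 (d + 2) + 1)) := by ring
      _ ≤ 20 * B := Nat.mul_le_mul_left _ hB
  have a2 : B + V * (eOf d + 1) + 1 ≤ 22 * B := by omega
  have a3 : U + 1 ≤ 9 * B := by
    have : (d + 1) ^ 2 ≤ (d + 2) ^ 2 := Nat.pow_le_pow_left (by omega) 2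
    omega
  have a4 : b * (eOf d + 2) ^ 2 * (c * (T + 1) + 1) ≤ b * (c + 1) * Cb * B := by
    calc b * (eOf d + 2) ^ 2 * (c * (T + 1) + 1)
        ≤ b * (eOf d + 2) ^ 2 * ((c + 1) * (T + 1)) :=
          Nat.mul_le_mul_left _ (by nlinarith [Nat.zero_le T])
      _ = b * (c + 1) * ((eOf d + 2) ^ 2 * (T + 1)) := by ring
      _ ≤ b * (c + 1) * (Cb * B) := Nat.mul_le_mul_left _ hT
      _ = b * (c + 1) * Cb * B := by ring
  calc a * (B + V * (eOf d + 1) + 1) + b * (eOf d + 2) ^ 2 * (c * (T + 1) + 1) +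
        g * (U + 1) + 6
      ≤ a * (22 * B) + b * (c + 1) * Cb * B + g * (9 * B) + 6 * B :=
        add_le_add (add_le_add (add_le_add (Nat.mul_le_mul_left _ a2) a4)
          (Nat.mul_le_mul_left _ a3)) (by omega)
    _ = (a * 22 + b * (c + 1) * Cb + g * 9 + 6) * B := by ring

/-- The program without clock. -/
theorem exists_core : ∃ (P : Prog) (C : ℕ), ∀ (K : Type) [Field K] [Fintype K] (p k d : ℕ)
    (F : MvPolynomial (Fin 2) K), p.Prime → Fintype.card K = p ^ k → F ≠ 0 →
    F.totalDegree = d → 2 ≤ d → ∀ R, tapeNeed d ≤ R →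
    (∀ tape : List K, tape.length = R → ∃ y t, Run P (input p k F tape) y t) ∧
    pr K R (fun tape => ¬ ∃ (Lf : List (MvPolynomial (Fin 2) K × ℕ)) (t : ℕ),
      IsFactorization F Lf ∧ Run P (input p k F tape) (output Lf) t ∧
        t ≤ C * bnd d (Nat.bits p).length k) ≤ 1 / 3 := by
  classical
  obtain ⟨cP, hP⟩ := prepF_ex
  obtain ⟨cQ, hQ⟩ := postF_ex
  obtain ⟨cL, hL⟩ := facL_ex
  obtain ⟨pS, Cs, hS⟩ := simulate cL.p
  obtain ⟨Cb, hCb⟩ := facCost_le
  refine ⟨coreProg cP.p pS cQ.p, cP.k * 22 + Cs * (cL.k + 1) * Cb + cQ.k * 9 + 6, ?_⟩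
  intro K _ _ p k d F hp hk hF hd hd2 R hR
  have hK2 : 2 ≤ Fintype.card K := Fintype.one_lt_card
  have hQK : FQ.Ok (Nat.bits p, k) K p := ⟨hp, rfl, hk⟩
  have he : 0 < eOf d := by
    unfold eOf
    have : 0 < Nat.clog 2 (d + 2) := Nat.clog_pos (by norm_num) (by omega)
    omega
  have hFd : (dense d F).length = d + 1 := by simp [dense]
  have hin : ∀ tape : List K, input p k F tape = enc K (Nat.bits p, k, dense d F, tape) := by
    intro tape
    rw [input, hd]
  have hneed : tapeNeed d = 8 * eOf d * eOf d + (tapeLens d).sum * eOf d := rfl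
  -- the extension for a given polynomial
  have hext : ∀ x : List K, x.length = 8 * eOf d * eOf d →
      findIrr (Nat.bits p, k) (eOf d) x ≠ [] →
      (findIrr (Nat.bits p, k) (eOf d) x).length = eOf d + 1 ∧
      ∃ (L : Type) (_ : Field L) (_ : Fintype L) (_ : Algebra K L) (z : L)
        (rep : L → List K), IsExt (findIrr (Nat.bits p, k) (eOf d) x) z rep ∧
        Fintype.card L = Fintype.card K ^ eOf d := by
    intro x hx hne
    obtain ⟨hM, hi, hl⟩ := findIrr_spec hQK he hx hne
    obtain ⟨L, i1, i2, i3, z, rep, h, hc⟩ := exists_ext hM hi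
    exact ⟨hl, L, i1, i2, i3, z, rep, h, by rw [hc, hl, Nat.add_sub_cancel]⟩
  have hlen : ∀ tape : List K, tape.length = R →
      (tape.take (8 * eOf d * eOf d)).length = 8 * eOf d * eOf d := by
    intro tape ht
    rw [List.length_take]
    omega
  constructor
  · intro tape ht
    rw [hin]
    by_cases hne : findIrr (Nat.bits p, k) (eOf d) (tape.take (8 * eOf d * eOf d)) = []
    · obtain ⟨y, n, t, -, h⟩ := core_run_nil (hP K) (cQ := cQ) (pS := pS) hFd hne
      exact ⟨y, t, h⟩
    · obtain ⟨hl, L, i1, i2, i3, z, rep, h, hc⟩ := hext _ (hlen tape ht) hne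
      obtain ⟨t, -, hr⟩ := core_run (hP K) (hQ K) (hL L) h (hS K L _ z rep h) hFd rfl hl
        (hR.trans ht.ge)
      exact ⟨_, t, hr⟩
  · -- probability
    set good : List K → List K → Prop := fun x y =>
      ∃ (L : Type) (_ : Field L) (_ : Fintype L) (_ : Algebra K L) (z : L)
        (rep : L → List K), IsExt (findIrr (Nat.bits p, k) (eOf d) x) z rep ∧
        Fintype.card L = Fintype.card K ^ eOf d ∧
        NoBad (Fintype.card L) (Nat.bits p, k * eOf d)
          ((dense d F).map (List.map (algebraMap K L)))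
          (splitLens (tapeLens d) ((chunks (tapeLens d).sum (eOf d) y).map (dec z)))
      with hgood
    have hA : pr K R (fun tape => findIrr (Nat.bits p, k) (eOf d)
        (tape.take (8 * eOf d * eOf d)) = []) ≤ 1 / 50 := by
      obtain ⟨b, rfl⟩ : ∃ b, R = 0 + 8 * eOf d * eOf d + b := ⟨R - 8 * eOf d * eOf d, by omega⟩
      have := pr_seg (K := K) (a := 0) (m := 8 * eOf d * eOf d) (b := b)
        (B := fun _ y _ => findIrr (Nat.bits p, k) (eOf d) y = []) (δ := 1 / 50)
        (fun _ _ _ _ => findIrr_pr hQK he)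
      simpa only [List.drop_zero] using this
    have hB : pr K R (fun tape => findIrr (Nat.bits p, k) (eOf d)
        (tape.take (8 * eOf d * eOf d)) ≠ [] ∧ ¬ good (tape.take (8 * eOf d * eOf d))
          ((tape.drop (8 * eOf d * eOf d)).take ((tapeLens d).sum * eOf d))) ≤ 1 / 5 := by
      obtain ⟨b, rfl⟩ : ∃ b, R = 8 * eOf d * eOf d + (tapeLens d).sum * eOf d + b :=
        ⟨R - tapeNeed d, by omega⟩
      refine pr_seg (K := K) (a := 8 * eOf d * eOf d) (m := (tapeLens d).sum * eOf d) (b := b)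
        (B := fun x y _ => findIrr (Nat.bits p, k) (eOf d) x ≠ [] ∧ ¬ good x y) (δ := 1 / 5) ?_
      intro x _ hx _
      by_cases hne : findIrr (Nat.bits p, k) (eOf d) x = []
      · have h0 : pr K ((tapeLens d).sum * eOf d) (fun y =>
            findIrr (Nat.bits p, k) (eOf d) x ≠ [] ∧ ¬ good x y) = 0 := by
          simp [pr, hne]
        rw [h0]
        norm_num
      · obtain ⟨hl, L, i1, i2, i3, z, rep, h, hc⟩ := hext x hx hne
        have hQL : FQ.Ok (Nat.bits p, k * eOf d) L p :=
          ⟨hp, rfl, by rw [hc, hk, ← pow_mul]⟩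
        have h1 := pr_noBad (K := K) hQL hF hd hd2 (core_cardL hK2 hc rfl)
        have h2 := h.pr_eq (tapeLens d).sum (fun tape => ¬ NoBad (Fintype.card L)
          (Nat.bits p, k * eOf d) ((dense d F).map (List.map (algebraMap K L)))
          (splitLens (tapeLens d) tape))
        rw [hl, Nat.add_sub_cancel] at h2
        rw [← h2] at h1
        refine le_trans (pr_mono ?_) h1
        intro y _ hy hn
        exact hy.2 ⟨L, i1, i2, i3, z, rep, h, hc, hn⟩
    refine le_trans (pr_mono ?_) (le_trans (pr_or R _ _) (le_trans (add_le_add hA hB)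
      (by norm_num)))
    intro tape ht hbad
    by_contra hcon
    rw [not_or, not_and, not_not] at hcon
    obtain ⟨hne, hg⟩ := hcon
    obtain ⟨L, i1, i2, i3, z, rep, h, hc, hnb⟩ := hg hne
    apply hbad
    have hl : (findIrr (Nat.bits p, k) (eOf d) (tape.take (8 * eOf d * eOf d))).length =
        eOf d + 1 := (findIrr_spec hQK he (hlen tape ht) hne).2.2
    have hQL : FQ.Ok (Nat.bits p, k * eOf d) L p := ⟨hp, rfl, by rw [hc, hk, ← pow_mul]⟩
    rw [core_chunks_take] at hnb
    have htL : (core_tapeL L z d tape).length = (tapeLens d).sum := by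
      rw [core_tapeL, List.length_map, length_chunks]
    obtain ⟨⟨Lf, hLf, hfac⟩, hsz⟩ := noBad_correct (K := K) hQL hk he hc hF hd hd2
      (T := splitLens (tapeLens d) (core_tapeL L z d tape))
      (core_splitLens_length _ _ htL.ge) hnb
    have hFdL : ((dense d F).map (List.map (algebraMap K L))).length = d + 1 := by
      rw [List.length_map, hFd]
    have hfacL : facL (Nat.bits p, k * eOf d) k (eOf d)
        ((dense d F).map (List.map (algebraMap K L))) (core_tapeL L z d tape) =
        Lf.map (fun g =>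
          ((dense g.1.totalDegree g.1).map (List.map (algebraMap K L)), g.2)) := by
      rw [facL, hFdL, Nat.add_sub_cancel]
      exact hfac
    obtain ⟨t, hTt, hr⟩ := core_run (hP K) (hQ K) (hL L) h (hS K L _ z rep h) hFd rfl hl
        (hR.trans ht.ge)
    rw [hfacL, core_post h] at hr
    refine ⟨Lf, t, hLf, by rw [hin]; exact hr, hTt.trans ?_⟩
    rw [hfacL, core_tot_post]
    have c1 := output_size hF hd hLf
    have c2 := hCb L (Nat.bits p) k d _ _ hFdL hd2 hsz
    have c3 := core_tot_dense d F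
    have c4 := core_bnd_ge d (Nat.bits p).length k
    have hd1 : (dense d F).length - 1 = d := by omega
    have hd1' : ((dense d F).map (List.map (algebraMap K L))).length - 1 = d := by omega
    simp only [hd1, hd1']
    exact core_arith c3 c1 c2 c4

end Pool.Agent.BiFac

end
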